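import Mathlib
import Pool.Agent.Work.MP_b0497c_an.Algebra
import Pool.Agent.Work.MP_b0497c_an.Dec.Defs
import Pool.Agent.Work.MP_b0497c_an.Dec.CubeInt

/-! Bundle of small proof modules (one section per former module). -/

section

set_option autoImplicit false

namespace Pool.Agent.Work.MP_b0497c_an

open Set RealInnerProductSpace

/-! ### Periodic functions -/

theorem Periodic3.shift {F : Type} {f : E3 → F} (hf : Periodic3 f) (n : Fin 3 → ℤ) :
    Function.Periodic f (n 0 • ((2 * Real.pi) • e 0) + n 1 • ((2 * Real.pi) • e 1)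
      + n 2 • ((2 * Real.pi) • e 2)) := by
  have h0 : Function.Periodic f ((2 * Real.pi) • e 0) := hf 0
  have h1 : Function.Periodic f ((2 * Real.pi) • e 1) := hf 1
  have h2 : Function.Periodic f ((2 * Real.pi) • e 2) := hf 2
  exact ((h0.zsmul (n 0)).add_period (h1.zsmul (n 1))).add_period (h2.zsmul (n 2))

/-- Every point can be moved to a fixed ball by a vector which is a period of every periodic
function. -/
theorem exists_shift (x : E3) : ∃ v : E3, ‖x + v‖ ≤ 13 ∧
    ∀ (F : Type) (f : E3 → F), Periodic3 f → ∀ y, f (y + v) = f y := by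
  have hpi : 0 < 2 * Real.pi := by positivity
  let n : Fin 3 → ℤ := fun i => -⌊x i / (2 * Real.pi)⌋
  refine ⟨n 0 • ((2 * Real.pi) • e 0) + n 1 • ((2 * Real.pi) • e 1)
      + n 2 • ((2 * Real.pi) • e 2), ?_, fun F f hf y => hf.shift n y⟩
  have hc : ∀ i : Fin 3, (x + (n 0 • ((2 * Real.pi) • e 0) + n 1 • ((2 * Real.pi) • e 1)
      + n 2 • ((2 * Real.pi) • e 2))) i = x i - (2 * Real.pi) * ⌊x i / (2 * Real.pi)⌋ := by
    intro i
    fin_cases i <;> simp [e, n] <;> ring
  have hb : ∀ i : Fin 3, 0 ≤ x i - (2 * Real.pi) * ⌊x i / (2 * Real.pi)⌋ ∧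
      x i - (2 * Real.pi) * ⌊x i / (2 * Real.pi)⌋ ≤ 2 * Real.pi := by
    intro i
    have h1 := Int.floor_le (x i / (2 * Real.pi))
    have h2 := (Int.lt_floor_add_one (x i / (2 * Real.pi))).le
    rw [le_div_iff₀ hpi] at h1
    rw [div_le_iff₀ hpi] at h2
    constructor <;> linarith
  have hsq : ‖x + (n 0 • ((2 * Real.pi) • e 0) + n 1 • ((2 * Real.pi) • e 1)
      + n 2 • ((2 * Real.pi) • e 2))‖ ^ 2 ≤ 13 ^ 2 := by
    rw [norm_sq_eq, hc 0, hc 1, hc 2]
    have hpi4 : 2 * Real.pi ≤ 7 := by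
      have := Real.pi_lt_d2
      linarith
    have hi : ∀ i : Fin 3, (x i - (2 * Real.pi) * ⌊x i / (2 * Real.pi)⌋) ^ 2 ≤ 49 := by
      intro i
      have := hb i
      nlinarith [this.1, this.2]
    linarith [hi 0, hi 1, hi 2]
  exact le_of_sq_le_sq hsq (by norm_num)

section Uniform

variable {F : Type} [NormedAddCommGroup F] {α β : ℝ} {G : ℝ → E3 → F}

theorem exists_bound (hG : ContinuousOn (fun z : ℝ × E3 => G z.1 z.2) (Icc α β ×ˢ univ))
    (hper : ∀ t ∈ Icc α β, Periodic3 (G t)) :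
    ∃ C : ℝ, 0 ≤ C ∧ ∀ t ∈ Icc α β, ∀ x, ‖G t x‖ ≤ C := by
  have hK : IsCompact (Icc α β ×ˢ Metric.closedBall (0 : E3) 13) :=
    isCompact_Icc.prod (isCompact_closedBall 0 13)
  obtain ⟨C, hC⟩ := hK.exists_bound_of_continuousOn
    (hG.mono (prod_mono (Subset.refl _) (subset_univ _)))
  refine ⟨max C 0, le_max_right _ _, ?_⟩
  intro t ht x
  obtain ⟨v, hv, hv'⟩ := exists_shift x
  rw [← hv' F (G t) (hper t ht) x]
  exact (hC (t, x + v) ⟨ht, by simpa using hv⟩).trans (le_max_left _ _)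

theorem unif_cont (hG : ContinuousOn (fun z : ℝ × E3 => G z.1 z.2) (Icc α β ×ˢ univ))
    (hper : ∀ t ∈ Icc α β, Periodic3 (G t)) (ε : ℝ) (hε : 0 < ε) :
    ∃ δ : ℝ, 0 < δ ∧ ∀ t ∈ Icc α β, ∀ s ∈ Icc α β, ∀ x y : E3, |t - s| < δ → ‖x - y‖ < δ →
      ‖G t x - G s y‖ < ε := by
  have hK : IsCompact (Icc α β ×ˢ Metric.closedBall (0 : E3) 14) :=
    isCompact_Icc.prod (isCompact_closedBall 0 14)
  have hu := hK.uniformContinuousOn_of_continuous
    (hG.mono (prod_mono (Subset.refl _) (subset_univ _)))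
  rw [Metric.uniformContinuousOn_iff] at hu
  obtain ⟨δ, hδ, h⟩ := hu ε hε
  refine ⟨min δ 1, lt_min hδ one_pos, ?_⟩
  intro t ht s hs x y hts hxy
  obtain ⟨v, hv, hv'⟩ := exists_shift x
  rw [← hv' F (G t) (hper t ht) x, ← hv' F (G s) (hper s hs) y]
  have hy : ‖y + v‖ ≤ 14 := by
    have : y + v = (x + v) - (x - y) := by abel
    rw [this]
    refine (norm_sub_le _ _).trans ?_
    have := (lt_min_iff.mp hxy).2
    linarith
  have := h (t, x + v) ⟨ht, by simpa using hv.trans (by norm_num)⟩ (s, y + v)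
    ⟨hs, by simpa using hy⟩ (by
      rw [Prod.dist_eq]
      apply max_lt
      · rw [Real.dist_eq]; exact (lt_min_iff.mp hts).1
      · rw [dist_eq_norm]
        simpa using (lt_min_iff.mp hxy).1)
  rwa [dist_eq_norm] at this

end Uniform

/-! ### Consequences of the definition of classical solution -/

namespace IsClassicalSolution

variable {T : ℝ} {u : ℝ → E3 → E3} {p : ℝ → E3 → ℝ}

theorem differentiableAt (h : IsClassicalSolution T u p) {t : ℝ} (ht : t ∈ Ico 0 T) (x : E3) :
    DifferentiableAt ℝ (u t) x := by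
  have h1 : DifferentiableWithinAt ℝ (fun z : ℝ × E3 => u z.1 z.2) (Ico 0 T ×ˢ univ) (t, x) :=
    h.contDiff_u.differentiableOn (by norm_num) (t, x) ⟨ht, mem_univ _⟩
  have h2 : DifferentiableWithinAt ℝ (fun y : E3 => (t, y)) univ x :=
    ((differentiableAt_const t).prodMk differentiableAt_id).differentiableWithinAt
  have h3 := DifferentiableWithinAt.comp x h1 h2 (fun y _ => ⟨ht, mem_univ _⟩)
  rw [differentiableWithinAt_univ] at h3
  exact h3

theorem differentiableAt_p (h : IsClassicalSolution T u p) {t : ℝ} (ht : t ∈ Ico 0 T) (x : E3) :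
    DifferentiableAt ℝ (p t) x := by
  have h1 : DifferentiableWithinAt ℝ (fun z : ℝ × E3 => p z.1 z.2) (Ico 0 T ×ˢ univ) (t, x) :=
    h.contDiff_p.differentiableOn (by norm_num) (t, x) ⟨ht, mem_univ _⟩
  have h2 : DifferentiableWithinAt ℝ (fun y : E3 => (t, y)) univ x :=
    ((differentiableAt_const t).prodMk differentiableAt_id).differentiableWithinAt
  have h3 := DifferentiableWithinAt.comp x h1 h2 (fun y _ => ⟨ht, mem_univ _⟩)
  rw [differentiableWithinAt_univ] at h3
  exact h3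

end IsClassicalSolution

section General

variable {T : ℝ} {F : Type} [NormedAddCommGroup F] [NormedSpace ℝ F] {f : ℝ → E3 → F}

theorem uniqueDiffOn_S (T : ℝ) : UniqueDiffOn ℝ (Ico (0 : ℝ) T ×ˢ (univ : Set E3)) :=
  (uniqueDiffOn_Ico 0 T).prod uniqueDiffOn_univ

/-- Space-time derivative of a `C¹` function expressed by the partial derivatives. -/
theorem hasFDerivWithinAt_S
    (h : ContDiffOn ℝ 1 (fun z : ℝ × E3 => f z.1 z.2) (Ico 0 T ×ˢ univ))
    {t : ℝ} (ht : t ∈ Ico 0 T) (x : E3) :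
    HasFDerivWithinAt (fun z : ℝ × E3 => f z.1 z.2)
      ((ContinuousLinearMap.toSpanSingleton ℝ (derivWithin (fun s => f s x) (Ico 0 T) t)).comp
        (ContinuousLinearMap.fst ℝ ℝ E3)
        + (fderiv ℝ (f t) x).comp (ContinuousLinearMap.snd ℝ ℝ E3))
      (Ico 0 T ×ˢ univ) (t, x) := by
  have h1 : DifferentiableWithinAt ℝ (fun z : ℝ × E3 => f z.1 z.2) (Ico 0 T ×ˢ univ) (t, x) :=
    h.differentiableOn (by norm_num) (t, x) ⟨ht, mem_univ _⟩
  have hD := h1.hasFDerivWithinAt
  set D := fderivWithin ℝ (fun z : ℝ × E3 => f z.1 z.2) (Ico 0 T ×ˢ univ) (t, x) with hDdef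
  -- space part
  have hx : HasFDerivAt (f t) (D.comp (ContinuousLinearMap.inr ℝ ℝ E3)) x := by
    have h2 : HasFDerivWithinAt (fun y : E3 => (t, y)) (ContinuousLinearMap.inr ℝ ℝ E3) univ x := by
      have := (hasFDerivAt_const t x).prodMk (hasFDerivAt_id (𝕜 := ℝ) x)
      exact this.hasFDerivWithinAt
    have h3 := HasFDerivWithinAt.comp x hD h2 (fun y _ => ⟨ht, mem_univ _⟩)
    rw [hasFDerivWithinAt_univ] at h3
    exact h3
  -- time part
  have ht' : HasDerivWithinAt (fun s => f s x) (D (1, 0)) (Ico 0 T) t := by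
    have h2 : HasDerivWithinAt (fun s : ℝ => (s, x)) ((1 : ℝ), (0 : E3)) (Ico 0 T) t :=
      (hasDerivWithinAt_id t _).prodMk (hasDerivWithinAt_const t _ x)
    have hm : MapsTo (fun s : ℝ => (s, x)) (Ico 0 T) (Ico 0 T ×ˢ (univ : Set E3)) :=
      fun s hs => ⟨hs, mem_univ _⟩
    exact HasFDerivWithinAt.comp_hasDerivWithinAt t hD h2 hm
  have e1 : fderiv ℝ (f t) x = D.comp (ContinuousLinearMap.inr ℝ ℝ E3) := hx.fderiv
  have e2 : derivWithin (fun s => f s x) (Ico 0 T) t = D (1, 0) :=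
    ht'.derivWithin (uniqueDiffOn_Ico 0 T t ht)
  have e3 : (ContinuousLinearMap.toSpanSingleton ℝ (derivWithin (fun s => f s x) (Ico 0 T) t)).comp
        (ContinuousLinearMap.fst ℝ ℝ E3)
        + (fderiv ℝ (f t) x).comp (ContinuousLinearMap.snd ℝ ℝ E3) = D := by
    rw [e1, e2]
    ext z
    · simp
      exact map_zero D
    · simp
  rw [e3]
  exact hD

theorem continuousOn_fderiv
    (h : ContDiffOn ℝ 1 (fun z : ℝ × E3 => f z.1 z.2) (Ico 0 T ×ˢ univ)) :
    ContinuousOn (fun z : ℝ × E3 => fderiv ℝ (f z.1) z.2) (Ico 0 T ×ˢ univ) := by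
  have h1 := h.continuousOn_fderivWithin (uniqueDiffOn_S T) (by norm_num)
  have h2 : ContinuousOn (fun z : ℝ × E3 => (fderivWithin ℝ (fun z : ℝ × E3 => f z.1 z.2)
      (Ico 0 T ×ˢ univ) z).comp (ContinuousLinearMap.inr ℝ ℝ E3)) (Ico 0 T ×ˢ univ) :=
    h1.clm_comp continuousOn_const
  refine h2.congr ?_
  rintro ⟨t, x⟩ ⟨ht, _⟩
  have ht' : t ∈ Ico 0 T := ht
  have h3 := hasFDerivWithinAt_S h ht' x
  change fderiv ℝ (f t) x = (fderivWithin ℝ (fun z : ℝ × E3 => f z.1 z.2)
      (Ico 0 T ×ˢ univ) (t, x)).comp (ContinuousLinearMap.inr ℝ ℝ E3)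
  rw [h3.fderivWithin (uniqueDiffOn_S T (t, x) ⟨ht, mem_univ _⟩)]
  ext v
  simp

theorem continuousOn_derivWithin
    (h : ContDiffOn ℝ 1 (fun z : ℝ × E3 => f z.1 z.2) (Ico 0 T ×ˢ univ)) :
    ContinuousOn (fun z : ℝ × E3 => derivWithin (fun s => f s z.2) (Ico 0 T) z.1)
      (Ico 0 T ×ˢ univ) := by
  have h1 := h.continuousOn_fderivWithin (uniqueDiffOn_S T) (by norm_num)
  have h2 : ContinuousOn (fun z : ℝ × E3 => (fderivWithin ℝ (fun z : ℝ × E3 => f z.1 z.2)
      (Ico 0 T ×ˢ univ) z) ((1 : ℝ), (0 : E3))) (Ico 0 T ×ˢ univ) :=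
    h1.clm_apply continuousOn_const
  refine h2.congr ?_
  rintro ⟨t, x⟩ ⟨ht, _⟩
  have ht' : t ∈ Ico 0 T := ht
  have h3 := hasFDerivWithinAt_S h ht' x
  change derivWithin (fun s => f s x) (Ico 0 T) t = (fderivWithin ℝ (fun z : ℝ × E3 => f z.1 z.2)
      (Ico 0 T ×ˢ univ) (t, x)) ((1 : ℝ), (0 : E3))
  rw [h3.fderivWithin (uniqueDiffOn_S T (t, x) ⟨ht, mem_univ _⟩)]
  simp

/-- Chain rule along a curve. -/
theorem hasDerivWithinAt_along
    (h : ContDiffOn ℝ 1 (fun z : ℝ × E3 => f z.1 z.2) (Ico 0 T ×ˢ univ))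
    {I : Set ℝ} (hI : I ⊆ Ico 0 T) {X : ℝ → E3} {X' : E3} {t : ℝ} (ht : t ∈ I)
    (hX : HasDerivWithinAt X X' I t) :
    HasDerivWithinAt (fun s => f s (X s))
      (derivWithin (fun s => f s (X t)) (Ico 0 T) t + fderiv ℝ (f t) (X t) X') I t := by
  have h1 := hasFDerivWithinAt_S h (hI ht) (X t)
  have h2 : HasDerivWithinAt (fun s : ℝ => (s, X s)) ((1 : ℝ), X') I t :=
    (hasDerivWithinAt_id t _).prodMk hX
  have hm : MapsTo (fun s : ℝ => (s, X s)) I (Ico 0 T ×ˢ (univ : Set E3)) :=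
    fun s hs => ⟨hI hs, mem_univ _⟩
  have h3 := HasFDerivWithinAt.comp_hasDerivWithinAt t h1 h2 hm
  have e1 : derivWithin (fun s => f s (X t)) (Ico 0 T) t + fderiv ℝ (f t) (X t) X'
      = ((ContinuousLinearMap.toSpanSingleton ℝ
          (derivWithin (fun s => f s (X t)) (Ico 0 T) t)).comp (ContinuousLinearMap.fst ℝ ℝ E3)
        + (fderiv ℝ (f t) (X t)).comp (ContinuousLinearMap.snd ℝ ℝ E3)) ((1 : ℝ), X') := by
    simp
  rw [e1]
  exact h3

end General

theorem Periodic3.fderiv {F : Type} [NormedAddCommGroup F] [NormedSpace ℝ F] {f : E3 → F}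
    (hf : Periodic3 f) : Periodic3 (_root_.fderiv ℝ f) := by
  intro i x
  have h1 : (fun y => f (y + (2 * Real.pi) • e i)) = f := funext (hf i)
  rw [← fderiv_comp_add_right, h1]

end Pool.Agent.Work.MP_b0497c_an

end

section

set_option autoImplicit false

/-! Uniqueness of `C¹` solutions of the restricted Euler equations. -/

namespace Pool.Agent.Work.MP_b0497c_an.Dec

open Set MeasureTheory RealInnerProductSpace Pool.Agent.Work.MP_b0497c_an Filter Topology
open scoped ContDiff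

namespace Uniq

/-! ### The cube -/

theorem cube_convex : Convex ℝ cube := by
  intro x hx y hy a b ha hb hab i
  have h1 := hx i
  have h2 := hy i
  have e1 : (a • x + b • y) i = a * x i + b * y i := by simp
  rw [e1]
  constructor
  · have := mul_nonneg ha h1.1
    have := mul_nonneg hb h2.1
    linarith
  · have h3 := mul_le_mul_of_nonneg_left h1.2 ha
    have h4 := mul_le_mul_of_nonneg_left h2.2 hb
    calc a * x i + b * y i ≤ a * (2 * Real.pi) + b * (2 * Real.pi) := add_le_add h3 h4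
      _ = 2 * Real.pi := by rw [← add_mul, hab, one_mul]

theorem cube_interior : (interior cube).Nonempty := by
  refine ⟨WithLp.toLp 2 (fun _ => Real.pi), ?_⟩
  rw [mem_interior]
  refine ⟨{x | ∀ i, x i ∈ Ioo 0 (2 * Real.pi)}, ?_, ?_, ?_⟩
  · intro x hx i
    exact Ioo_subset_Icc_self (hx i)
  · have : {x : E3 | ∀ i, x i ∈ Ioo 0 (2 * Real.pi)}
        = ⋂ i : Fin 3, (fun x : E3 => x i) ⁻¹' Ioo 0 (2 * Real.pi) := by
      ext x; simp
    rw [this]
    apply isOpen_iInter_of_finite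
    intro i
    exact isOpen_Ioo.preimage (by fun_prop)
  · intro i
    have := Real.pi_pos
    constructor
    · exact this
    · show Real.pi < 2 * Real.pi
      linarith

theorem cube_subset : cube ⊆ closure (interior cube) := by
  rw [cube_convex.closure_interior_eq_closure_of_nonempty_interior cube_interior]
  exact subset_closure

/-- Every point can be moved to the cube by a period. -/
theorem exists_cube (x : E3) : ∃ y ∈ cube, ∀ (F : Type) (f : E3 → F), Periodic3 f → f y = f x := by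
  have hpi : 0 < 2 * Real.pi := by positivity
  let n : Fin 3 → ℤ := fun i => -⌊x i / (2 * Real.pi)⌋
  refine ⟨x + (n 0 • ((2 * Real.pi) • e 0) + n 1 • ((2 * Real.pi) • e 1)
      + n 2 • ((2 * Real.pi) • e 2)), ?_, fun F f hf => hf.shift n x⟩
  have hc : ∀ i : Fin 3, (x + (n 0 • ((2 * Real.pi) • e 0) + n 1 • ((2 * Real.pi) • e 1)
      + n 2 • ((2 * Real.pi) • e 2))) i = x i - (2 * Real.pi) * ⌊x i / (2 * Real.pi)⌋ := by
    intro i
    fin_cases i <;> simp [e, n] <;> ring
  intro i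
  rw [hc i]
  have h1 := Int.floor_le (x i / (2 * Real.pi))
  have h2 := (Int.lt_floor_add_one (x i / (2 * Real.pi))).le
  rw [le_div_iff₀ hpi] at h1
  rw [div_le_iff₀ hpi] at h2
  constructor <;> linarith

theorem eq_zero_of_integral {f : E3 → E3} (hf : Continuous f) (hp : Periodic3 f)
    (h0 : ∫ x in cube, ‖f x‖ ^ 2 ≤ 0) (x : E3) : f x = 0 := by
  obtain ⟨y, hy, hyx⟩ := exists_cube x
  rw [← hyx E3 f hp]
  have hc : Continuous (fun x => ‖f x‖ ^ 2) := hf.norm.pow 2
  have hi : IntegrableOn (fun x => ‖f x‖ ^ 2) cube :=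
    hc.continuousOn.integrableOn_compact cube_compact
  have h1 : ∫ x in cube, ‖f x‖ ^ 2 = 0 :=
    le_antisymm h0 (integral_nonneg fun x => by positivity)
  have h2 : (fun x => ‖f x‖ ^ 2) =ᵐ[volume.restrict cube] 0 :=
    (integral_eq_zero_iff_of_nonneg (fun x => by positivity) hi).mp h1
  have h3 := Measure.eqOn_of_ae_eq h2 hc.continuousOn continuous_zero.continuousOn cube_subset hy
  have h4 : ‖f y‖ ^ 2 = 0 := h3
  exact norm_eq_zero.mp (pow_eq_zero_iff (two_ne_zero) |>.mp h4)

/-! ### Admissible fields -/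

theorem InModes.sub {Λ : Set (Fin 3 → ℤ)} {f g : E3 → E3} (hf : InModes Λ f) (hg : InModes Λ g) :
    InModes Λ (fun x => f x - g x) where
  contDiff := hf.contDiff.sub hg.contDiff
  periodic := by
    intro i x
    show f _ - g _ = _
    rw [hf.periodic i x, hg.periodic i x]
  div_free := by
    intro x
    have h1 : fderiv ℝ (fun x => f x - g x) x = fderiv ℝ f x - fderiv ℝ g x :=
      fderiv_fun_sub (hf.contDiff.differentiable (by norm_num) x)
        (hg.contDiff.differentiable (by norm_num) x)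
    rw [h1]
    have h2 : LinearMap.trace ℝ E3 ((fderiv ℝ f x - fderiv ℝ g x : E3 →L[ℝ] E3) : E3 →ₗ[ℝ] E3)
        = LinearMap.trace ℝ E3 (fderiv ℝ f x : E3 →ₗ[ℝ] E3)
          - LinearMap.trace ℝ E3 (fderiv ℝ g x : E3 →ₗ[ℝ] E3) := by
      rw [← map_sub]; rfl
    rw [h2, hf.div_free x, hg.div_free x, sub_zero]
  cos_coeff := by
    intro k hk
    have c1 : Continuous (fun x => Real.cos (phase k x)) := by unfold phase; fun_prop
    simp only [smul_sub]
    have i1 : IntegrableOn (fun x => Real.cos (phase k x) • f x) cube :=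
      (c1.smul hf.contDiff.continuous).continuousOn.integrableOn_compact cube_compact
    have i2 : IntegrableOn (fun x => Real.cos (phase k x) • g x) cube :=
      (c1.smul hg.contDiff.continuous).continuousOn.integrableOn_compact cube_compact
    rw [integral_sub i1 i2, hf.cos_coeff k hk, hg.cos_coeff k hk, sub_zero]
  sin_coeff := by
    intro k hk
    have c1 : Continuous (fun x => Real.sin (phase k x)) := by unfold phase; fun_prop
    simp only [smul_sub]
    have i1 : IntegrableOn (fun x => Real.sin (phase k x) • f x) cube :=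
      (c1.smul hf.contDiff.continuous).continuousOn.integrableOn_compact cube_compact
    have i2 : IntegrableOn (fun x => Real.sin (phase k x) • g x) cube :=
      (c1.smul hg.contDiff.continuous).continuousOn.integrableOn_compact cube_compact
    rw [integral_sub i1 i2, hf.sin_coeff k hk, hg.sin_coeff k hk, sub_zero]

/-- Transport by a divergence free field preserves the `L²` norm. -/
theorem transport_zero {u w : E3 → E3} (hu : ContDiff ℝ 1 u) (hup : Periodic3 u)
    (hdiv : ∀ x, LinearMap.trace ℝ (EuclideanSpace ℝ (Fin 3)) (fderiv ℝ u x) = 0)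
    (hw : ContDiff ℝ 1 w) (hwp : Periodic3 w) :
    ∫ x in cube, ⟪fderiv ℝ w x (u x), w x⟫ = 0 := by
  have hG : ContDiff ℝ 1 (fun y => ‖w y‖ ^ 2 • u y) := (hw.norm_sq ℝ).smul hu
  have hGp : Periodic3 (fun y => ‖w y‖ ^ 2 • u y) := by
    intro i x
    simp only [hup i x, hwp i x]
  have h1 := per_div_cube hG hGp
  have e1 : ∀ x, LinearMap.trace ℝ (EuclideanSpace ℝ (Fin 3))
      (fderiv ℝ (fun y => ‖w y‖ ^ 2 • u y) x) = 2 * ⟪fderiv ℝ w x (u x), w x⟫ := by
    intro x
    have hu' : HasFDerivAt u (fderiv ℝ u x) x := (hu.differentiable (by norm_num) x).hasFDerivAt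
    have hw' : HasFDerivAt w (fderiv ℝ w x) x := (hw.differentiable (by norm_num) x).hasFDerivAt
    have hG' : fderiv ℝ (fun y => ‖w y‖ ^ 2 • u y) x = _ := (hw'.norm_sq.smul hu').fderiv
    rw [hG', trace_eq]
    have hd := hdiv x
    rw [trace_eq] at hd
    have hwx : fderiv ℝ w x (u x) = (u x) 0 • fderiv ℝ w x (e 0)
        + (u x) 1 • fderiv ℝ w x (e 1) + (u x) 2 • fderiv ℝ w x (e 2) := by
      conv_lhs => rw [expand (u x)]
      simp only [map_add, map_smul]
    rw [hwx]
    simp [inner_eq]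
    linear_combination (‖w x‖ ^ 2) * hd
  simp only [e1] at h1
  rw [integral_const_mul] at h1
  linarith

/-! ### Bounds for a restricted solution -/

variable {Λ : Set (Fin 3 → ℤ)} {T : ℝ} {u : ℝ → E3 → E3}

theorem sub_Ico {β T : ℝ} (hβ : β < T) : Icc 0 β ⊆ Ico 0 T :=
  fun _ h => ⟨h.1, h.2.trans_lt hβ⟩

theorem cont_u (h : IsRestrictedSolution Λ T u) {β : ℝ} (hβ : β < T) :
    ContinuousOn (fun z : ℝ × E3 => u z.1 z.2) (Icc 0 β ×ˢ univ) :=
  h.contDiff_u.continuousOn.mono (prod_mono (sub_Ico hβ) (Subset.refl _))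

theorem bound_u (h : IsRestrictedSolution Λ T u) {β : ℝ} (hβ : β < T) :
    ∃ C : ℝ, 0 ≤ C ∧ ∀ t ∈ Icc 0 β, ∀ x, ‖u t x‖ ≤ C :=
  exists_bound (cont_u h hβ) fun t ht => (h.modes t (sub_Ico hβ ht)).periodic

theorem bound_M (h : IsRestrictedSolution Λ T u) {β : ℝ} (hβ : β < T) :
    ∃ C : ℝ, 0 ≤ C ∧ ∀ t ∈ Icc 0 β, ∀ x, ‖fderiv ℝ (u t) x‖ ≤ C :=
  exists_bound (G := fun t x => fderiv ℝ (u t) x)
    ((continuousOn_fderiv h.contDiff_u).mono (prod_mono (sub_Ico hβ) (Subset.refl _)))
    fun t ht => (h.modes t (sub_Ico hβ ht)).periodic.fderiv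

theorem per_dt (h : IsRestrictedSolution Λ T u) {t : ℝ} (ht : t ∈ Ico 0 T) :
    Periodic3 (fun x => derivWithin (fun s => u s x) (Ico 0 T) t) := by
  intro i x
  apply derivWithin_congr
  · intro s hs
    exact (h.modes s hs).periodic i x
  · exact (h.modes t ht).periodic i x

theorem cont_dt (h : IsRestrictedSolution Λ T u) {t : ℝ} (ht : t ∈ Ico 0 T) :
    Continuous (fun x => derivWithin (fun s => u s x) (Ico 0 T) t) := by
  have c3 : Continuous (fun x : E3 => (t, x)) := by fun_prop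
  have c4 : ContinuousOn ((fun z : ℝ × E3 => derivWithin (fun s => u s z.2) (Ico 0 T) z.1)
      ∘ (fun x : E3 => (t, x))) univ :=
    ContinuousOn.comp (continuousOn_derivWithin h.contDiff_u) c3.continuousOn
      (fun x _ => ⟨ht, mem_univ _⟩)
  exact continuousOn_univ.mp c4

theorem bound_dt (h : IsRestrictedSolution Λ T u) {β : ℝ} (hβ : β < T) :
    ∃ C : ℝ, 0 ≤ C ∧ ∀ t ∈ Icc 0 β, ∀ x, ‖derivWithin (fun s => u s x) (Ico 0 T) t‖ ≤ C :=
  exists_bound (G := fun t x => derivWithin (fun s => u s x) (Ico 0 T) t)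
    ((continuousOn_derivWithin h.contDiff_u).mono (prod_mono (sub_Ico hβ) (Subset.refl _)))
    fun t ht => per_dt h (sub_Ico hβ ht)

theorem hasDerivAt_time (h : IsRestrictedSolution Λ T u) {t : ℝ} (ht : t ∈ Ioo 0 T) (x : E3) :
    HasDerivAt (fun s => u s x) (derivWithin (fun s => u s x) (Ico 0 T) t) t := by
  have h1 := hasDerivWithinAt_along h.contDiff_u (I := Ico 0 T) (Subset.refl _)
    (t := t) ⟨ht.1.le, ht.2⟩ (X := fun _ => x) (X' := 0) (hasDerivWithinAt_const _ _ _)
  simp only [map_zero, add_zero] at h1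
  exact h1.hasDerivAt (Ico_mem_nhds ht.1 ht.2)

variable {T₁ T₂ : ℝ} {v : ℝ → E3 → E3}

theorem int4 {f1 f2 f3 f4 : E3 → ℝ} (c1 : Continuous f1) (c2 : Continuous f2)
    (c3 : Continuous f3) (c4 : Continuous f4) :
    ∫ x in cube, (f1 x - f2 x - f3 x - f4 x)
      = (∫ x in cube, f1 x) - (∫ x in cube, f2 x) - (∫ x in cube, f3 x) - ∫ x in cube, f4 x := by
  have i1 : IntegrableOn f1 cube := c1.continuousOn.integrableOn_compact cube_compact
  have i2 : IntegrableOn f2 cube := c2.continuousOn.integrableOn_compact cube_compact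
  have i3 : IntegrableOn f3 cube := c3.continuousOn.integrableOn_compact cube_compact
  have i4 : IntegrableOn f4 cube := c4.continuousOn.integrableOn_compact cube_compact
  have i12 : IntegrableOn (fun x => f1 x - f2 x) cube := i1.sub i2
  have i123 : IntegrableOn (fun x => f1 x - f2 x - f3 x) cube := i12.sub i3
  rw [integral_sub i123 i4, integral_sub i12 i3, integral_sub i1 i2]

/-- The derivative of the energy of the difference. -/
theorem energy_deriv (hu : IsRestrictedSolution Λ T₁ u) (hv : IsRestrictedSolution Λ T₂ v)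
    {t : ℝ} (h0 : 0 < t) (h1 : t < T₁) (h2 : t < T₂) :
    HasDerivAt (fun s => ∫ x in cube, ‖u s x - v s x‖ ^ 2)
      (-2 * ∫ x in cube, ⟪fderiv ℝ (v t) x (u t x - v t x), u t x - v t x⟫) t := by
  obtain ⟨β, hβt, hβ⟩ : ∃ β, t < β ∧ β < min T₁ T₂ := exists_between (lt_min h1 h2)
  have hβ1 : β < T₁ := hβ.trans_le (min_le_left _ _)
  have hβ2 : β < T₂ := hβ.trans_le (min_le_right _ _)
  obtain ⟨U, hU0, hU⟩ := bound_u hu hβ1
  obtain ⟨U', hU'0, hU'⟩ := bound_u hv hβ2
  obtain ⟨D, hD0, hD⟩ := bound_dt hu hβ1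
  obtain ⟨D', hD'0, hD'⟩ := bound_dt hv hβ2
  have hfin : IsFiniteMeasure (volume.restrict cube) :=
    ⟨by rw [Measure.restrict_apply_univ]; exact cube_compact.measure_lt_top⟩
  have cu : ∀ s ∈ Icc 0 β, Continuous (u s) := fun s hs =>
    (hu.modes s (sub_Ico hβ1 hs)).contDiff.continuous
  have cv : ∀ s ∈ Icc 0 β, Continuous (v s) := fun s hs =>
    (hv.modes s (sub_Ico hβ2 hs)).contDiff.continuous
  have htI : t ∈ Ioo 0 β := ⟨h0, hβt⟩
  have htc : t ∈ Icc 0 β := Ioo_subset_Icc_self htI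
  have ht1 : t ∈ Ico 0 T₁ := ⟨h0.le, h1⟩
  have ht2 : t ∈ Ico 0 T₂ := ⟨h0.le, h2⟩
  have key := hasDerivAt_integral_of_dominated_loc_of_deriv_le (μ := volume.restrict cube)
    (F := fun s x => ‖u s x - v s x‖ ^ 2) (x₀ := t) (s := Ioo 0 β)
    (bound := fun _ => 2 * ((U + U') * (D + D')))
    (F' := fun s x => 2 * ⟪u s x - v s x, derivWithin (fun r => u r x) (Ico 0 T₁) s
      - derivWithin (fun r => v r x) (Ico 0 T₂) s⟫)
    (Ioo_mem_nhds htI.1 htI.2)
    (by filter_upwards [Ioo_mem_nhds htI.1 htI.2] with s hs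
        have hs' := Ioo_subset_Icc_self hs
        exact (((cu s hs').sub (cv s hs')).norm.pow 2).aestronglyMeasurable)
    ((((cu t htc).sub (cv t htc)).norm.pow 2).continuousOn.integrableOn_compact cube_compact)
    ((continuous_const.mul (((cu t htc).sub (cv t htc)).inner
      ((cont_dt hu ht1).sub (cont_dt hv ht2)))).aestronglyMeasurable)
    (ae_of_all _ fun x s hs => by
      rw [norm_mul, Real.norm_eq_abs, Real.norm_eq_abs, abs_of_pos (show (0:ℝ) < 2 by norm_num)]
      have hs' := Ioo_subset_Icc_self hs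
      gcongr
      refine (abs_real_inner_le_norm _ _).trans (mul_le_mul ?_ ?_ (norm_nonneg _) (by positivity))
      · exact (norm_sub_le _ _).trans (add_le_add (hU s hs' x) (hU' s hs' x))
      · exact (norm_sub_le _ _).trans (add_le_add (hD s hs' x) (hD' s hs' x)))
    (integrable_const _)
    (ae_of_all _ fun x s hs => ((hasDerivAt_time hu ⟨hs.1, hs.2.trans hβ1⟩ x).sub
      (hasDerivAt_time hv ⟨hs.1, hs.2.trans hβ2⟩ x)).norm_sq)
  have hk := key.2
  refine hk.congr_deriv ?_
  -- the two momentum equations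
  have mu := hu.modes t ht1
  have mv := hv.modes t ht2
  have mw := InModes.sub mu mv
  have e1 := hu.momentum t ht1 _ mw
  have e2 := hv.momentum t ht2 _ mw
  have e3 := transport_zero mu.contDiff mu.periodic mu.div_free mw.contDiff mw.periodic
  have cdu := cont_dt hu ht1
  have cdv := cont_dt hv ht2
  have cMu : Continuous (fun x => fderiv ℝ (u t) x (u t x)) :=
    (mu.contDiff.continuous_fderiv (by norm_num)).clm_apply mu.contDiff.continuous
  have cMv : Continuous (fun x => fderiv ℝ (v t) x (v t x)) :=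
    (mv.contDiff.continuous_fderiv (by norm_num)).clm_apply mv.contDiff.continuous
  have cMw : Continuous (fun x => fderiv ℝ (fun x => u t x - v t x) x (u t x)) :=
    (mw.contDiff.continuous_fderiv (by norm_num)).clm_apply mu.contDiff.continuous
  have cMvw : Continuous (fun x => fderiv ℝ (v t) x (u t x - v t x)) :=
    (mv.contDiff.continuous_fderiv (by norm_num)).clm_apply mw.contDiff.continuous
  have cw : Continuous (fun x => u t x - v t x) := mw.contDiff.continuous
  have e4 : ∀ x, 2 * ⟪u t x - v t x, derivWithin (fun r => u r x) (Ico 0 T₁) t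
      - derivWithin (fun r => v r x) (Ico 0 T₂) t⟫
      = 2 * (⟪derivWithin (fun s => u s x) (Ico 0 T₁) t + fderiv ℝ (u t) x (u t x),
            u t x - v t x⟫
          - ⟪derivWithin (fun s => v s x) (Ico 0 T₂) t + fderiv ℝ (v t) x (v t x),
            u t x - v t x⟫
          - ⟪fderiv ℝ (fun x => u t x - v t x) x (u t x), u t x - v t x⟫
          - ⟪fderiv ℝ (v t) x (u t x - v t x), u t x - v t x⟫) := by
    intro x
    have hfd : fderiv ℝ (fun x => u t x - v t x) x = fderiv ℝ (u t) x - fderiv ℝ (v t) x :=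
      fderiv_fun_sub (mu.contDiff.differentiable (by norm_num) x)
        (mv.contDiff.differentiable (by norm_num) x)
    rw [hfd]
    simp only [inner_add_left, inner_sub_right, inner_sub_left, map_sub,
      sub_apply]
    rw [real_inner_comm (u t x) (derivWithin (fun r => u r x) (Ico 0 T₁) t),
      real_inner_comm (v t x) (derivWithin (fun r => u r x) (Ico 0 T₁) t),
      real_inner_comm (u t x) (derivWithin (fun r => v r x) (Ico 0 T₂) t),
      real_inner_comm (v t x) (derivWithin (fun r => v r x) (Ico 0 T₂) t)]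
    ring
  simp only [e4]
  have c1 : Continuous (fun x => ⟪derivWithin (fun s => u s x) (Ico 0 T₁) t
      + fderiv ℝ (u t) x (u t x), u t x - v t x⟫) := (cdu.add cMu).inner cw
  have c2 : Continuous (fun x => ⟪derivWithin (fun s => v s x) (Ico 0 T₂) t
      + fderiv ℝ (v t) x (v t x), u t x - v t x⟫) := (cdv.add cMv).inner cw
  have c3 : Continuous (fun x => ⟪fderiv ℝ (fun x => u t x - v t x) x (u t x),
      u t x - v t x⟫) := cMw.inner cw
  have c4 : Continuous (fun x => ⟪fderiv ℝ (v t) x (u t x - v t x), u t x - v t x⟫) :=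
    cMvw.inner cw
  rw [integral_const_mul, int4 c1 c2 c3 c4, e1, e2, e3]
  ring

end Uniq

open Uniq in
theorem unique {Λ : Set (Fin 3 → ℤ)} {T₁ T₂ : ℝ}
    {u v : ℝ → EuclideanSpace ℝ (Fin 3) → EuclideanSpace ℝ (Fin 3)}
    (hu : IsRestrictedSolution Λ T₁ u) (hv : IsRestrictedSolution Λ T₂ v) (h0 : u 0 = v 0)
    {t : ℝ} (ht : 0 ≤ t) (h1 : t < T₁) (h2 : t < T₂) : u t = v t := by
  rcases ht.eq_or_lt with rfl | hpos
  · exact h0
  have htc : t ∈ Icc 0 t := ⟨ht, le_rfl⟩
  have ht1 : t ∈ Ico 0 T₁ := ⟨ht, h1⟩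
  have ht2 : t ∈ Ico 0 T₂ := ⟨ht, h2⟩
  obtain ⟨K, hK0, hK⟩ := bound_M hv h2
  obtain ⟨U, hU0, hU⟩ := bound_u hu h1
  obtain ⟨U', hU'0, hU'⟩ := bound_u hv h2
  have hfin : IsFiniteMeasure (volume.restrict cube) :=
    ⟨by rw [Measure.restrict_apply_univ]; exact cube_compact.measure_lt_top⟩
  set E : ℝ → ℝ := fun s => ∫ x in cube, ‖u s x - v s x‖ ^ 2 with hE
  have cu : ∀ s ∈ Icc 0 t, Continuous (u s) := fun s hs =>
    (hu.modes s (sub_Ico h1 hs)).contDiff.continuous
  have cv : ∀ s ∈ Icc 0 t, Continuous (v s) := fun s hs =>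
    (hv.modes s (sub_Ico h2 hs)).contDiff.continuous
  have hcont : ContinuousOn E (Icc 0 t) := by
    apply continuousOn_of_dominated (bound := fun _ => (U + U') ^ 2)
    · intro s hs
      exact (((cu s hs).sub (cv s hs)).norm.pow 2).aestronglyMeasurable
    · intro s hs
      refine ae_of_all _ fun x => ?_
      rw [norm_pow, norm_norm]
      exact pow_le_pow_left₀ (norm_nonneg _)
        ((norm_sub_le _ _).trans (add_le_add (hU s hs x) (hU' s hs x))) 2
    · exact integrable_const _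
    · refine ae_of_all _ fun x => ?_
      have c3 : ContinuousOn (fun s : ℝ => (s, x)) (Icc 0 t) := by fun_prop
      have c4 : ContinuousOn ((fun z : ℝ × E3 => u z.1 z.2) ∘ (fun s : ℝ => (s, x))) (Icc 0 t) :=
        ContinuousOn.comp (cont_u hu h1) c3 (fun s hs => ⟨hs, mem_univ _⟩)
      have c5 : ContinuousOn ((fun z : ℝ × E3 => v z.1 z.2) ∘ (fun s : ℝ => (s, x))) (Icc 0 t) :=
        ContinuousOn.comp (cont_u hv h2) c3 (fun s hs => ⟨hs, mem_univ _⟩)
      exact ((c4.sub c5).norm).pow 2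
  have hder : ∀ s ∈ Ioo 0 t, ∃ d, HasDerivAt E d s ∧ d ≤ 2 * K * E s := by
    intro s hs
    have hs1 : s < T₁ := hs.2.trans h1
    have hs2 : s < T₂ := hs.2.trans h2
    refine ⟨_, energy_deriv hu hv hs.1 hs1 hs2, ?_⟩
    have hsc : s ∈ Icc 0 t := Ioo_subset_Icc_self hs
    have mu := hu.modes s (sub_Ico h1 hsc)
    have mv := hv.modes s (sub_Ico h2 hsc)
    have cw : Continuous (fun x => u s x - v s x) :=
      mu.contDiff.continuous.sub mv.contDiff.continuous
    have cMvw : Continuous (fun x => fderiv ℝ (v s) x (u s x - v s x)) :=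
      (mv.contDiff.continuous_fderiv (by norm_num)).clm_apply cw
    have hneg : -(∫ x in cube, ⟪fderiv ℝ (v s) x (u s x - v s x), u s x - v s x⟫) ≤ K * E s := by
      rw [← integral_neg, hE]
      simp only
      rw [← integral_const_mul]
      have c1 : Continuous (fun x => -⟪fderiv ℝ (v s) x (u s x - v s x), u s x - v s x⟫) :=
        (cMvw.inner cw).neg
      have c2 : Continuous (fun x => K * ‖u s x - v s x‖ ^ 2) :=
        continuous_const.mul (cw.norm.pow 2)
      apply integral_mono (c1.continuousOn.integrableOn_compact cube_compact)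
        (c2.continuousOn.integrableOn_compact cube_compact)
      intro x
      show -⟪fderiv ℝ (v s) x (u s x - v s x), u s x - v s x⟫ ≤ K * ‖u s x - v s x‖ ^ 2
      have h5 := abs_real_inner_le_norm (fderiv ℝ (v s) x (u s x - v s x)) (u s x - v s x)
      have h6 := (fderiv ℝ (v s) x).le_of_opNorm_le (hK s hsc x) (u s x - v s x)
      have h7 := mul_le_mul_of_nonneg_right h6 (norm_nonneg (u s x - v s x))
      have h8 := neg_abs_le ⟪fderiv ℝ (v s) x (u s x - v s x), u s x - v s x⟫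
      have e5 : K * ‖u s x - v s x‖ ^ 2 = K * ‖u s x - v s x‖ * ‖u s x - v s x‖ := by ring
      rw [e5]
      linarith
    linarith
  set g : ℝ → ℝ := fun s => E s * Real.exp (-(2 * K * s)) with hg
  have hanti : AntitoneOn g (Icc 0 t) := by
    apply antitoneOn_of_deriv_nonpos (convex_Icc 0 t)
    · exact hcont.mul (by fun_prop)
    · rw [interior_Icc]
      intro s hs
      obtain ⟨d, hd, -⟩ := hder s hs
      exact (hd.differentiableAt.mul (by fun_prop)).differentiableWithinAt
    · rw [interior_Icc]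
      intro s hs
      obtain ⟨d, hd, hle⟩ := hder s hs
      have h5 : HasDerivAt (fun s : ℝ => Real.exp (-(2 * K * s)))
          (Real.exp (-(2 * K * s)) * (-(2 * K * 1))) s :=
        (((hasDerivAt_id s).const_mul (2 * K)).neg).exp
      have h8 : HasDerivAt g (d * Real.exp (-(2 * K * s))
          + E s * (Real.exp (-(2 * K * s)) * (-(2 * K * 1)))) s := hd.mul h5
      rw [h8.deriv]
      have h6 := Real.exp_pos (-(2 * K * s))
      nlinarith
  have h7 := hanti ⟨le_rfl, ht⟩ htc ht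
  have hE0 : E 0 = 0 := by simp [hE, h0]
  simp only [hg, hE0, zero_mul] at h7
  have h8 : E t ≤ 0 := by
    by_contra hc
    push Not at hc
    exact absurd h7 (not_le.mpr (mul_pos hc (Real.exp_pos _)))
  funext x
  have h9 := eq_zero_of_integral (f := fun x => u t x - v t x) ((cu t htc).sub (cv t htc))
    (InModes.sub (hu.modes t ht1) (hv.modes t ht2)).periodic h8 x
  exact sub_eq_zero.mp h9

end Pool.Agent.Work.MP_b0497c_an.Dec

end
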