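import Mathlib
import Pool.Agent.Work.MP_b0497c_an.Dec.Defs
import Pool.Agent.Work.MP_b0497c_an.Bd.B21
import Pool.Agent.Work.MP_b0497c_an.Weak.Offsets

/-! Bundle of small proof modules (one section per former module). -/

section

set_option autoImplicit false

/-!
The set of modes `L m`: it contains all small modes, it is invariant under signed permutations, and
its complement is very small.
-/

namespace Pool.Agent.Work.MP_b0497c_an.Dec

open Set MeasureTheory RealInnerProductSpace Pool.Agent.Work.MP_b0497c_an Filter Topology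
open scoped ContDiff

/-! ### The base vectors -/

theorem kap_cases (P : (Fin 3 → ℤ) → Prop) (h0 : P ![1, 1, 3]) (h1 : P ![0, 2, 6])
    (h2 : P ![2, 2, 12]) (h3 : P ![4, 0, 24]) (h4 : P ![8, 24, 24]) (n : ℕ) : P (kap n) := by
  unfold kap
  split
  · exact h0
  · exact h1
  · exact h2
  · exact h3
  · exact h4

theorem kap_nonneg (n : ℕ) (i : Fin 3) : 0 ≤ kap n i := by
  revert i
  refine kap_cases (fun v => ∀ i, 0 ≤ v i) ?_ ?_ ?_ ?_ ?_ n <;> decide

theorem kap_le (n : ℕ) (i : Fin 3) : kap n i ≤ 24 := by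
  revert i
  refine kap_cases (fun v => ∀ i, v i ≤ 24) ?_ ?_ ?_ ?_ ?_ n <;> decide

theorem kap_ge (n : ℕ) : 3 ≤ kap n 2 := by
  refine kap_cases (fun v => 3 ≤ v 2) ?_ ?_ ?_ ?_ ?_ n <;> decide

/-! ### Signed permutations -/

theorem act_act (g h : Sgn) (v : Fin 3 → ℤ) :
    act g (act h v) = act (g.1.trans h.1, fun i => g.2 i * h.2 (g.1 i)) v := by
  funext i
  unfold act
  simp only [Equiv.trans_apply, Units.val_mul]
  ring

theorem act_zero (g : Sgn) : act g 0 = 0 := by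
  funext i
  unfold act
  simp

theorem act_add (g : Sgn) (v w : Fin 3 → ℤ) : act g (v + w) = act g v + act g w := by
  funext i
  unfold act
  simp only [Pi.add_apply]
  ring

/-- The inverse signed permutation. -/
def inv' (g : Sgn) : Sgn := (g.1.symm, fun i => g.2 (g.1.symm i))

theorem unit_mul_self (u : ℤˣ) : (u : ℤ) * u = 1 := by
  rcases Int.units_eq_one_or u with h | h <;> rw [h] <;> rfl

theorem act_inv (g : Sgn) (v : Fin 3 → ℤ) : act (inv' g) (act g v) = v := by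
  funext i
  unfold act inv'
  simp only [Equiv.apply_symm_apply]
  rw [← mul_assoc, unit_mul_self, one_mul]

theorem abs_act (g : Sgn) (v : Fin 3 → ℤ) (i : Fin 3) : |act g v i| = |v (g.1 i)| := by
  unfold act
  rw [abs_mul]
  rcases Int.units_eq_one_or (g.2 i) with h | h <;> rw [h] <;> simp

theorem act_mem_X (m : ℕ) (g : Sgn) {k : Fin 3 → ℤ} (hk : k ∈ X m) : act g k ∈ X m := by
  obtain ⟨n, h, rfl⟩ := hk
  exact ⟨n, _, act_act g h _⟩

theorem act_mem_L_of (m : ℕ) (g : Sgn) {k : Fin 3 → ℤ} (hk : k ∈ L m) : act g k ∈ L m := by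
  rcases hk with h | h | h
  · subst h
    exact Or.inl (act_zero g)
  · exact Or.inr (Or.inl (act_mem_X m g h))
  · refine Or.inr (Or.inr ?_)
    rintro ⟨p, hp, q, hq, e⟩
    refine h ⟨act (inv' g) p, act_mem_X m _ hp, act (inv' g) q, act_mem_X m _ hq, ?_⟩
    rw [← act_add, ← e, act_inv]

theorem act_mem_L (m : ℕ) (g : Sgn) (k : Fin 3 → ℤ) : act g k ∈ L m ↔ k ∈ L m := by
  refine ⟨fun h => ?_, fun h => act_mem_L_of m g h⟩
  have h1 := act_mem_L_of m (inv' g) h
  rwa [act_inv] at h1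

/-! ### Sums of two modes of the chain -/

theorem act_kk (m n : ℕ) (g : Sgn) (i : Fin 3) :
    act g (kk m n) i = 16 ^ (m + n / 5) * act g (kap n) i := by
  unfold act kk
  ring

theorem abs_act_kk_le (m n : ℕ) (g : Sgn) (i : Fin 3) :
    |act g (kk m n) i| ≤ 24 * 16 ^ (m + n / 5) := by
  rw [abs_act]
  unfold kk
  rw [abs_of_nonneg (mul_nonneg (by positivity) (kap_nonneg n _)), mul_comm]
  exact mul_le_mul_of_nonneg_right (kap_le n _) (by positivity)

theorem exists_act_kk_ge (m n : ℕ) (g : Sgn) :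
    ∃ i, 3 * 16 ^ (m + n / 5) ≤ |act g (kk m n) i| := by
  refine ⟨g.1.symm 2, ?_⟩
  rw [abs_act, Equiv.apply_symm_apply]
  unfold kk
  rw [abs_of_nonneg (mul_nonneg (by positivity) (kap_nonneg n _)), mul_comm]
  exact mul_le_mul_of_nonneg_left (kap_ge n) (by positivity)

theorem exists_of_lt {m n n' : ℕ} (g g' : Sgn) (h : n' / 5 < n / 5) :
    ∃ i, (16 : ℤ) ^ (m + n / 5) ≤ |act g (kk m n) i + act g' (kk m n') i| := by
  obtain ⟨i, hi⟩ := exists_act_kk_ge m n g
  refine ⟨i, ?_⟩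
  have h1 := abs_act_kk_le m n' g' i
  have h2 : (16 : ℤ) ^ (m + n' / 5) * 16 ≤ 16 ^ (m + n / 5) := by
    rw [← pow_succ]
    exact pow_le_pow_right₀ (by norm_num) (by omega)
  have h3 : |act g (kk m n) i| ≤ |act g (kk m n) i + act g' (kk m n') i| +
      |act g' (kk m n') i| := by
    calc |act g (kk m n) i| = |(act g (kk m n) i + act g' (kk m n') i) +
          (-act g' (kk m n') i)| := by ring_nf
      _ ≤ |act g (kk m n) i + act g' (kk m n') i| + |-act g' (kk m n') i| := abs_add_le _ _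
      _ = _ := by rw [abs_neg]
  have h4 : (0 : ℤ) < 16 ^ (m + n / 5) := by positivity
  linarith

theorem exists_ge (m n n' : ℕ) (g g' : Sgn) (h : act g (kk m n) + act g' (kk m n') ≠ 0) :
    ∃ i, (16 : ℤ) ^ (m + n / 5) ≤ |act g (kk m n) i + act g' (kk m n') i| ∧
      (16 : ℤ) ^ (m + n' / 5) ≤ |act g (kk m n) i + act g' (kk m n') i| := by
  rcases lt_trichotomy (n / 5) (n' / 5) with h1 | h1 | h1
  · obtain ⟨i, hi⟩ := exists_of_lt (m := m) g' g h1
    rw [add_comm (act g' (kk m n') i)] at hi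
    exact ⟨i, (pow_le_pow_right₀ (by norm_num) (by omega)).trans hi, hi⟩
  · have h2 : ∃ i, act g (kk m n) i + act g' (kk m n') i ≠ 0 := by
      by_contra hc
      push Not at hc
      exact h (funext hc)
    obtain ⟨i, hi⟩ := h2
    rw [act_kk, act_kk, ← h1, ← mul_add] at hi
    have h3 : act g (kap n) i + act g' (kap n') i ≠ 0 := fun h0 => hi (by rw [h0, mul_zero])
    have h4 : (16 : ℤ) ^ (m + n / 5) ≤ |act g (kk m n) i + act g' (kk m n') i| := by
      rw [act_kk, act_kk, ← h1, ← mul_add, abs_mul, abs_of_nonneg (by positivity)]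
      exact le_mul_of_one_le_right (by positivity) (Int.one_le_abs h3)
    exact ⟨i, h4, by rw [← h1]; exact h4⟩
  · obtain ⟨i, hi⟩ := exists_of_lt (m := m) g g' h1
    exact ⟨i, hi, (pow_le_pow_right₀ (by norm_num) (by omega)).trans hi⟩

theorem mem_L_of_small (m : ℕ) (k : Fin 3 → ℤ) (h : ∀ i, |k i| < 16 ^ m) : k ∈ L m := by
  by_cases h0 : k = 0
  · exact Or.inl h0
  · refine Or.inr (Or.inr ?_)
    rintro ⟨p, ⟨n, g, rfl⟩, q, ⟨n', g', rfl⟩, e⟩
    rw [e] at h0
    obtain ⟨i, hi, -⟩ := exists_ge m n n' g g' h0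
    have h1 := h i
    rw [e, Pi.add_apply] at h1
    have h2 : (16 : ℤ) ^ m ≤ 16 ^ (m + n / 5) := pow_le_pow_right₀ (by norm_num) (by omega)
    linarith

theorem card_sgn : Fintype.card Sgn = 48 := by
  rw [Fintype.card_prod, Fintype.card_perm, Fintype.card_fin, Fintype.card_pi]
  rfl

theorem level_le {m n N : ℕ} {z : ℤ} (h1 : (16 : ℤ) ^ (m + n / 5) ≤ z) (h2 : z ≤ N) :
    n < 5 * (Nat.log 16 N + 1) := by
  have h3 : (16 : ℕ) ^ (m + n / 5) ≤ N := by
    have := h1.trans h2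
    exact_mod_cast this
  have h4 : (16 : ℕ) ^ (n / 5) ≤ N := (Nat.pow_le_pow_right (by norm_num) (by omega)).trans h3
  have h5 : N ≠ 0 := by
    intro h0
    rw [h0] at h4
    exact absurd h4 (not_le.mpr (Nat.pos_of_ne_zero (by positivity)))
  have h6 : n / 5 ≤ Nat.log 16 N := (Nat.le_log_iff_pow_le (by norm_num) h5).mpr h4
  omega

theorem card_compl_L (m N : ℕ) :
    {k : Fin 3 → ℤ | k ∉ L m ∧ ∀ i, |k i| ≤ (N : ℤ)}.ncard ≤ 57600 * (Nat.log 16 N + 1) ^ 2 := by
  classical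
  set l := 5 * (Nat.log 16 N + 1) with hl
  let f : (Fin l × Sgn) × (Fin l × Sgn) → (Fin 3 → ℤ) := fun z =>
    act z.1.2 (kk m z.1.1) + act z.2.2 (kk m z.2.1)
  have hsub : {k : Fin 3 → ℤ | k ∉ L m ∧ ∀ i, |k i| ≤ (N : ℤ)} ⊆
      ((Finset.univ.image f : Finset (Fin 3 → ℤ)) : Set (Fin 3 → ℤ)) := by
    rintro k ⟨hk, hb⟩
    have h0 : k ≠ 0 := fun h => hk (Or.inl h)
    have h1 : ∃ p ∈ X m, ∃ q ∈ X m, k = p + q := by
      by_contra hc
      exact hk (Or.inr (Or.inr hc))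
    obtain ⟨p, ⟨n, g, rfl⟩, q, ⟨n', g', rfl⟩, e⟩ := h1
    rw [e] at h0
    obtain ⟨i, hi, hi'⟩ := exists_ge m n n' g g' h0
    have h2 := hb i
    rw [e, Pi.add_apply] at h2
    rw [Finset.coe_image]
    exact ⟨((⟨n, level_le hi h2⟩, g), (⟨n', level_le hi' h2⟩, g')), Finset.mem_coe.mpr
      (Finset.mem_univ _), e.symm⟩
  calc {k : Fin 3 → ℤ | k ∉ L m ∧ ∀ i, |k i| ≤ (N : ℤ)}.ncard
      ≤ ((Finset.univ.image f : Finset (Fin 3 → ℤ)) : Set (Fin 3 → ℤ)).ncard :=
        Set.ncard_le_ncard hsub (Finset.finite_toSet _)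
    _ = (Finset.univ.image f : Finset (Fin 3 → ℤ)).card := Set.ncard_coe_finset _
    _ ≤ Fintype.card ((Fin l × Sgn) × (Fin l × Sgn)) := Finset.card_image_le
    _ = 57600 * (Nat.log 16 N + 1) ^ 2 := by
        rw [Fintype.card_prod, Fintype.card_prod, Fintype.card_fin, card_sgn, hl]
        ring

end Pool.Agent.Work.MP_b0497c_an.Dec

end

section

set_option autoImplicit false

/-!
Uniform approximation of continuous periodic functions by trigonometric polynomials.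
-/

namespace Pool.Agent.Work.MP_b0497c_an.Weak

open Set RealInnerProductSpace Pool.Agent.Work.MP_b0497c_an Filter Topology

/-- The point with coordinates `2 π θ`. -/
noncomputable def pt (θ : Fin 3 → ℝ) : E3 :=
  !₂[2 * Real.pi * θ 0, 2 * Real.pi * θ 1, 2 * Real.pi * θ 2]

theorem continuous_pt : Continuous pt := by
  unfold pt
  fun_prop

theorem pt_shift (θ θ' : Fin 3 → ℝ) (n : Fin 3 → ℤ) (h : ∀ i, θ' i = θ i + n i) :
    pt θ' = pt θ + (n 0 • ((2 * Real.pi) • e 0) + n 1 • ((2 * Real.pi) • e 1)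
      + n 2 • ((2 * Real.pi) • e 2)) := by
  ext i
  fin_cases i <;> simp [pt, e, h] <;> ring

theorem pt_surj (x : E3) : pt (fun i => x i / (2 * Real.pi)) = x := by
  ext i
  fin_cases i <;> simp [pt] <;> field_simp

theorem exists_int {s t : ℝ} (h : (s : UnitAddCircle) = (t : UnitAddCircle)) :
    ∃ n : ℤ, t = s + n := by
  have h1 : ((t - s : ℝ) : UnitAddCircle) = 0 := by
    rw [AddCircle.coe_sub, h, sub_self]
  obtain ⟨n, hn⟩ := (AddCircle.coe_eq_zero_iff (p := (1 : ℝ))).mp h1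
  refine ⟨n, ?_⟩
  simp at hn
  linarith

theorem mFourier_pt (k : Fin 3 → ℤ) (θ : Fin 3 → ℝ) :
    UnitAddTorus.mFourier k (fun i => (θ i : UnitAddCircle))
      = Complex.exp ((⟪iv k, pt θ⟫ : ℝ) * Complex.I) := by
  change ∏ i : Fin 3, fourier (k i) (θ i : UnitAddCircle) = _
  rw [Fin.prod_univ_three, fourier_coe_apply, fourier_coe_apply, fourier_coe_apply,
    ← Complex.exp_add, ← Complex.exp_add, inner_eq]
  congr 1
  simp only [iv_zero, iv_one, iv_two, pt]
  simp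
  ring

theorem trig_approx {f : E3 → ℝ} (hf : Continuous f) (hp : Periodic3 f) {ε : ℝ} (hε : 0 < ε) :
    ∃ (S : Finset (Fin 3 → ℤ)) (a b : (Fin 3 → ℤ) → ℝ), ∀ x : E3,
      |f x - ∑ k ∈ S, (a k * Real.cos ⟪iv k, x⟫ + b k * Real.sin ⟪iv k, x⟫)| < ε := by
  set π3 : (Fin 3 → ℝ) → UnitAddTorus (Fin 3) := Pi.map (fun (_ : Fin 3) (t : ℝ) => (t : UnitAddCircle))
    with hπ
  have hq : IsOpenQuotientMap π3 := IsOpenQuotientMap.piMap fun i =>
    (QuotientAddGroup.isOpenQuotientMap_mk : IsOpenQuotientMap ((↑) : ℝ → UnitAddCircle))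
  have hfac : ∀ θ θ' : Fin 3 → ℝ, π3 θ = π3 θ' → f (pt θ) = f (pt θ') := by
    intro θ θ' h
    have h1 : ∀ i, ∃ n : ℤ, θ' i = θ i + n := fun i => exists_int (congrFun h i)
    choose n hn using h1
    rw [pt_shift θ θ' n hn]
    exact (hp.shift n (pt θ)).symm
  -- the function on the torus
  have hsec := hq.surjective.hasRightInverse
  obtain ⟨σ, hσ⟩ := hsec
  set F : UnitAddTorus (Fin 3) → ℂ := fun z => ((f (pt (σ z)) : ℝ) : ℂ) with hF
  have hFπ : ∀ θ, F (π3 θ) = ((f (pt θ) : ℝ) : ℂ) := by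
    intro θ
    simp only [hF]
    rw [hfac _ _ (hσ (π3 θ))]
  have hFc : Continuous F := by
    rw [← hq.continuous_comp_iff]
    have : F ∘ π3 = fun θ => ((f (pt θ) : ℝ) : ℂ) := funext hFπ
    rw [this]
    exact Complex.continuous_ofReal.comp (hf.comp continuous_pt)
  have hmem : (⟨F, hFc⟩ : C(UnitAddTorus (Fin 3), ℂ)) ∈
      (Submodule.span ℂ (range (UnitAddTorus.mFourier (d := Fin 3)))).topologicalClosure := by
    rw [UnitAddTorus.span_mFourier_closure_eq_top]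
    trivial
  have hmem' : (⟨F, hFc⟩ : C(UnitAddTorus (Fin 3), ℂ)) ∈
      closure (Submodule.span ℂ (range (UnitAddTorus.mFourier (d := Fin 3))) :
        Set C(UnitAddTorus (Fin 3), ℂ)) := hmem
  obtain ⟨h, hh, hdist⟩ := Metric.mem_closure_iff.mp hmem' ε hε
  obtain ⟨c, hc⟩ := Finsupp.mem_span_range_iff_exists_finsupp.mp hh
  refine ⟨c.support, fun k => (c k).re, fun k => -(c k).im, fun x => ?_⟩
  set θ : Fin 3 → ℝ := fun i => x i / (2 * Real.pi) with hθ
  have hx : pt θ = x := pt_surj x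
  have h1 : ‖F (π3 θ) - h (π3 θ)‖ < ε := by
    have := ContinuousMap.dist_apply_le_dist (f := (⟨F, hFc⟩ : C(UnitAddTorus (Fin 3), ℂ)))
      (g := h) (x := π3 θ)
    rw [dist_eq_norm] at this
    exact lt_of_le_of_lt this hdist
  have h2 : h (π3 θ) = ∑ k ∈ c.support, c k * Complex.exp ((⟪iv k, x⟫ : ℝ) * Complex.I) := by
    rw [← hc, Finsupp.sum, ContinuousMap.sum_apply]
    apply Finset.sum_congr rfl
    intro k _
    rw [ContinuousMap.smul_apply, smul_eq_mul]
    congr 1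
    have := mFourier_pt k θ
    rw [hx] at this
    exact this
  have h3 : (h (π3 θ)).re = ∑ k ∈ c.support,
      ((c k).re * Real.cos ⟪iv k, x⟫ + -(c k).im * Real.sin ⟪iv k, x⟫) := by
    rw [h2, Complex.re_sum]
    apply Finset.sum_congr rfl
    intro k _
    rw [Complex.mul_re, Complex.exp_ofReal_mul_I_re, Complex.exp_ofReal_mul_I_im]
    ring
  rw [hFπ, hx] at h1
  calc |f x - ∑ k ∈ c.support,
      ((c k).re * Real.cos ⟪iv k, x⟫ + -(c k).im * Real.sin ⟪iv k, x⟫)|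
      = |(((f x : ℝ) : ℂ) - h (π3 θ)).re| := by rw [Complex.sub_re, Complex.ofReal_re, h3]
    _ ≤ ‖((f x : ℝ) : ℂ) - h (π3 θ)‖ := Complex.abs_re_le_norm _
    _ < ε := h1

end Pool.Agent.Work.MP_b0497c_an.Weak

end
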