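import Pool.Agent.Work.MP_b0497c_an.Unf.P3
import Pool.Agent.Work.MP_b0497c_an.Unf.SStmts

/-! Bundle of small proof modules (one section per former module). -/

section

set_option autoImplicit false

/-!
# Block P: times of the windows, sums for the datum and for the conclusion
-/

open Filter

namespace Pool.Agent.Work.MP_b0497c_an.Unf.P

/-- `t_{n+1} = t_n + th_n` (for `n ≥ 1`; `t_0` is not used), with actual values `c n`, `κ n`. -/
structure Times (x : ℝ) (c κ t : ℕ → ℝ) : Prop where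
  c_low : ∀ n, 1 ≤ n → cn x n / 2 ≤ c n
  c_upp : ∀ n, 1 ≤ n → c n ≤ 2 * cn x n
  κ_low : ∀ n, 1 ≤ n → 1 / 2 ≤ κ n
  κ_upp : ∀ n, 1 ≤ n → κ n ≤ 2
  succ : ∀ n, 1 ≤ n → t (n + 1) = t n + thv x n (c n) (κ n)

namespace Big

variable {C x : ℝ} (B : Big C x)
include B

theorem thv_pos {n : ℕ} {c κ : ℝ} (hc0 : 0 < c) (hκ0 : 0 < κ) : 0 < thv x n c κ := by
  have h1 := k2f_pos x n
  have h2 := aa_pos x n
  exact Real.sqrt_pos.2 (by positivity)

theorem thv_small {n : ℕ} {c κ : ℝ} (hc : cn x n / 2 ≤ c) (hκ : 1 / 2 ≤ κ) :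
    thv x n c κ ≤ (10 : ℝ)⁻¹ ^ 50 := by
  refine (B.thv_le hc hκ).trans ?_
  have h1 : (10 : ℝ) ^ 50 ≤ hh x n ^ 11 := by
    have h2 : (10 : ℝ) ^ 100 ≤ hh x n := by
      refine (B.num_exp (B.ell_ge (n + 2))).trans ?_
      rw [hh]
      refine Real.exp_le_exp.2 ?_
      have := B.ell_pos (n + 2)
      linarith
    calc (10 : ℝ) ^ 50 ≤ (10 : ℝ) ^ 100 := by norm_num
      _ ≤ hh x n := h2
      _ ≤ hh x n ^ 11 := le_self_pow₀ (B.hh_one n) (by norm_num)
  rw [inv_pow]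
  exact inv_anti₀ (by positivity) h1

/-- The intervals `[0, T_n]`, `T_n = t_n + ρ th_n` (`1 < ρ ≤ 2`, e.g. `1001/1000`), are nested, and
`t_k < T_n` for all `k`, `n`. -/
theorem times {c κ t : ℕ → ℝ} (H : Times x c κ t) {ρ : ℝ} (hρ1 : 1 + 1 / 10 ^ 6 ≤ ρ)
    (hρ2 : ρ ≤ 2) : ∀ n, 1 ≤ n →
    t n < t (n + 1) ∧
    t (n + 1) + ρ * thv x (n + 1) (c (n + 1)) (κ (n + 1)) <
      t n + ρ * thv x n (c n) (κ n) ∧
    t (n + 1) + 1000 * thv x (n + 1) (c (n + 1)) (κ (n + 1)) <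
      t n + ρ * thv x n (c n) (κ n) := by
  intro n hn
  have hn' : 1 ≤ n + 1 := by omega
  have c0 : 0 < c n := lt_of_lt_of_le (half_pos (cn_pos x n)) (H.c_low n hn)
  have c0' : 0 < c (n + 1) := lt_of_lt_of_le (half_pos (cn_pos x _)) (H.c_low _ hn')
  have κ0 : 0 < κ n := by linarith [H.κ_low n hn]
  have κ0' : 0 < κ (n + 1) := by linarith [H.κ_low _ hn']
  have p := B.thv_pos (n := n) c0 κ0
  have p' := B.thv_pos (n := n + 1) c0' κ0'
  have h := B.thv_succ c0 (H.c_upp n hn) κ0 (H.κ_upp n hn) (H.c_low _ hn') (H.κ_low _ hn')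
  have hs := H.succ n hn
  have h6 : thv x (n + 1) (c (n + 1)) (κ (n + 1)) ≤ thv x n (c n) (κ n) / 10 ^ 10 := by
    refine h.trans ?_
    gcongr
    · norm_num
    · norm_num
  refine ⟨by linarith, ?_, ?_⟩
  · rw [hs]
    nlinarith
  · rw [hs]
    nlinarith

theorem times_mono {c κ t : ℕ → ℝ} (H : Times x c κ t) {ρ : ℝ} (hρ1 : 1 + 1 / 10 ^ 6 ≤ ρ)
    (hρ2 : ρ ≤ 2) {m n : ℕ} (hm : 1 ≤ m) (hmn : m ≤ n) :
    t m ≤ t n ∧ t n + ρ * thv x n (c n) (κ n) ≤ t m + ρ * thv x m (c m) (κ m) := by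
  induction n, hmn using Nat.le_induction with
  | base => exact ⟨le_rfl, le_rfl⟩
  | succ k hk ih =>
    have h := B.times H hρ1 hρ2 k (hm.trans hk)
    exact ⟨ih.1.trans h.1.le, h.2.1.le.trans ih.2⟩

/-- `t_k < T_n` for all `k`, `n ≥ 1`. -/
theorem times_lt {c κ t : ℕ → ℝ} (H : Times x c κ t) {ρ : ℝ} (hρ1 : 1 + 1 / 10 ^ 6 ≤ ρ)
    (hρ2 : ρ ≤ 2) {m n : ℕ} (hm : 1 ≤ m) (hn : 1 ≤ n) :
    t m < t n + ρ * thv x n (c n) (κ n) := by
  have h1 := (B.times_mono H hρ1 hρ2 hm (le_max_left m n)).1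
  have h2 := (B.times_mono H hρ1 hρ2 hn (le_max_right m n)).2
  have hM : 1 ≤ max m n := hm.trans (le_max_left _ _)
  have c0 : 0 < c (max m n) := lt_of_lt_of_le (half_pos (cn_pos x _)) (H.c_low _ hM)
  have κ0 : 0 < κ (max m n) := by linarith [H.κ_low _ hM]
  have p := B.thv_pos (n := max m n) c0 κ0
  nlinarith

/-! ### The sums -/

/-- `(G_n exp(L_{n+1}))^K exp (-g_n) ≤ exp (-L_{n+1})` for `K + 2 ≤ L_n`. -/
theorem seed_small {n K : ℕ} (hK : (K : ℝ) + 2 ≤ Lr x n) :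
    (GG x n * Real.exp (Lr x (n + 1))) ^ K * Real.exp (-(gg x n)) ≤
      Real.exp (-(Lr x (n + 1))) := by
  have h1 : (K : ℝ) * (70000 * ell x (n + 3)) ≤ Lr x (n + 1) := by
    -- `K ≤ L_n`, `L_n * 70000 ell_{n+3} ≤ L_{n+1}`
    have hK' : (K : ℝ) ≤ Lr x n := by linarith
    have h2 : Lr x n * (70000 * ell x (n + 3)) ≤ Lr x (n + 1) := by
      have e3 : 70000 * ell x (n + 3) ≤ Lr x n := by
        refine B.poly_L' (j := 3) (by norm_num) (by norm_num) ?_
        have := B.C_one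
        nlinarith
      have h5 : 0 < Lr x n := Lr_pos x n
      calc Lr x n * (70000 * ell x (n + 3)) ≤ Lr x n * Lr x n := by gcongr
        _ = Real.exp (2 * ell x n) := by rw [Lr, ← Real.exp_add]; ring_nf
        _ ≤ Lr x (n + 1) := by
            rw [Lr]
            refine Real.exp_le_exp.2 ?_
            have := B.ell_gap n
            have := B.ell_pos n
            linarith
    have : 0 ≤ 70000 * ell x (n + 3) := by have := B.ell_pos (n + 3); positivity
    calc (K : ℝ) * (70000 * ell x (n + 3)) ≤ Lr x n * (70000 * ell x (n + 3)) := by gcongr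
      _ ≤ _ := h2
  have h2 : 0 < Lr x (n + 1) := Lr_pos x (n + 1)
  rw [mul_pow, GG, ← Real.exp_nat_mul, ← Real.exp_nat_mul, ← Real.exp_add, ← Real.exp_add]
  refine Real.exp_le_exp.2 ?_
  rw [gg]
  nlinarith

theorem Lr_tendsto : Tendsto (fun n => Lr x n) atTop atTop := by
  refine tendsto_atTop_mono (fun n => (B.nat_le n).trans (ell_le_Lr x n)) ?_
  exact tendsto_atTop_add_const_right _ _ tendsto_natCast_atTop_atTop

/-- Every power of all the constants of the step and of `N_{n+1}` times `exp (-g_n)` is summable: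
the datum is smooth. -/
theorem seed_summable (K : ℕ) :
    Summable fun n => (GG x n * Real.exp (Lr x (n + 1))) ^ K * Real.exp (-(gg x n)) := by
  have h1 : ∀ᶠ n in atTop, (K : ℝ) + 2 ≤ Lr x n := B.Lr_tendsto.eventually_ge_atTop _
  have h2 : Summable fun n : ℕ => Real.exp (-1 : ℝ) ^ n :=
    summable_geometric_of_lt_one (Real.exp_pos _).le (by rw [Real.exp_lt_one_iff]; norm_num)
  refine summable_of_isBigO_nat h2 ?_
  refine Asymptotics.IsBigO.of_bound 1 ?_
  filter_upwards [h1] with n hn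
  have h3 := B.seed_small hn
  have h4 : 0 ≤ (GG x n * Real.exp (Lr x (n + 1))) ^ K * Real.exp (-(gg x n)) := by
    have : 0 < GG x n := Real.exp_pos _
    positivity
  rw [Real.norm_of_nonneg h4, Real.norm_of_nonneg (by positivity), one_mul]
  refine h3.trans ?_
  rw [← Real.exp_nat_mul]
  refine Real.exp_le_exp.2 ?_
  have h5 := B.nat_le (n + 1)
  have h6 := ell_le_Lr x (n + 1)
  push_cast at h5
  linarith

/-- Tails: `∑_{i ≥ n} exp (-g_i) ≤ 2 exp (-g_n)`. -/
theorem gg_succ (n : ℕ) : gg x n + Real.log 2 ≤ gg x (n + 1) := by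
  have h1 := B.Lr_ge n
  have h2 : Real.log 2 ≤ 1 := by
    have := Real.log_two_lt_d9; linarith
  have h3 : 8 * Lr x n ≤ Lr x (n + 1) := by
    have h4 := B.ell_gap n
    have h5 := B.ell_ge n
    have h8 : (8 : ℝ) ≤ Real.exp (ell x n) := by
      have := Real.add_one_le_exp (ell x n); linarith
    calc 8 * Lr x n ≤ Real.exp (ell x n) * Lr x n := by
          exact mul_le_mul_of_nonneg_right h8 (Lr_pos x n).le
      _ = Real.exp (2 * ell x n) := by rw [Lr, ← Real.exp_add]; ring_nf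
      _ ≤ Lr x (n + 1) := by rw [Lr]; exact Real.exp_le_exp.2 (by linarith)
  have h4 : 8 * Lr x (n + 1) ≤ Lr x (n + 2) := by
    have h4 := B.ell_gap (n + 1)
    have h5 := B.ell_ge (n + 1)
    have h8 : (8 : ℝ) ≤ Real.exp (ell x (n + 1)) := by
      have := Real.add_one_le_exp (ell x (n + 1)); linarith
    have e : n + 1 + 1 = n + 2 := rfl
    rw [e] at h4
    calc 8 * Lr x (n + 1) ≤ Real.exp (ell x (n + 1)) * Lr x (n + 1) := by
          exact mul_le_mul_of_nonneg_right h8 (Lr_pos x (n + 1)).le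
      _ = Real.exp (2 * ell x (n + 1)) := by rw [Lr, ← Real.exp_add]; ring_nf
      _ ≤ Lr x (n + 2) := by rw [Lr]; exact Real.exp_le_exp.2 (by linarith)
  have h5 := B.Lr_ge (n + 1)
  have h100 : (1 : ℝ) ≤ 10 ^ 100 := by norm_num
  have e : n + 1 + 1 = n + 2 := rfl
  rw [gg, gg, e]
  have a1 : 1 ≤ Lr x n := h100.trans h1
  have a2 : 1 ≤ Lr x (n + 1) := h100.trans h5
  nlinarith

theorem tail_le (n k : ℕ) : Real.exp (-(gg x (n + k))) ≤ Real.exp (-(gg x n)) * (1 / 2) ^ k := by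
  induction k with
  | zero => simp
  | succ k ih =>
    have h := B.gg_succ (n + k)
    calc Real.exp (-(gg x (n + (k + 1)))) ≤ Real.exp (-(gg x (n + k)) + -(Real.log 2)) := by
          refine Real.exp_le_exp.2 ?_
          rw [← add_assoc]
          linarith
      _ = Real.exp (-(gg x (n + k))) * (1 / 2) := by
          rw [Real.exp_add, Real.exp_neg (Real.log 2), Real.exp_log two_pos, one_div]
      _ ≤ Real.exp (-(gg x n)) * (1 / 2) ^ k * (1 / 2) := by gcongr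
      _ = _ := by rw [pow_succ]; ring

theorem tail_sum (n : ℕ) : (Summable fun k => Real.exp (-(gg x (n + k)))) ∧
    ∑' k, Real.exp (-(gg x (n + k))) ≤ 2 * Real.exp (-(gg x n)) := by
  have hg : Summable fun k : ℕ => Real.exp (-(gg x n)) * (1 / 2 : ℝ) ^ k :=
    (summable_geometric_two).mul_left _
  have hs : Summable fun k => Real.exp (-(gg x (n + k))) :=
    Summable.of_nonneg_of_le (fun k => (Real.exp_pos _).le) (fun k => B.tail_le n k) hg
  refine ⟨hs, (hs.tsum_le_tsum (fun k => B.tail_le n k) hg).trans (le_of_eq ?_)⟩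
  rw [tsum_mul_left, tsum_geometric_two]
  ring

/-- `δ_n B_n^K → 0`: the conclusion (constants of the level `n` up to `G_n`, `N_n`). -/
theorem concl_tendsto (K : ℕ) :
    Tendsto (fun n => 2 * Real.exp (-(gg x n)) *
      (GG x n * Real.exp (Lr x (n + 1))) ^ K) atTop (nhds 0) := by
  have h := (B.seed_summable K).tendsto_atTop_zero.const_mul 2
  rw [mul_zero] at h
  refine h.congr fun n => by ring

end Big

end Pool.Agent.Work.MP_b0497c_an.Unf.P

end

section

set_option autoImplicit false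

/-!
# S01: wave vectors of modes (helper69)
-/

open scoped ENNReal
open Set MeasureTheory

namespace Pool.Agent.Work.MP_b0497c_an.Unf.S

open W

namespace IS01

theorem len_eq (q : Md) : len q = ∑ i ∈ q.support, |((q i : ℤ) : ℝ)| := rfl

theorem xi_eq (K : ℕ → Fin 3 → ℤ) (q : Md) :
    xi K q = ∑ i ∈ q.support, ((q i : ℤ) : ℂ) • kv (K i) := rfl

theorem xi_add (K : ℕ → Fin 3 → ℤ) (q q' : Md) : xi K (q + q') = xi K q + xi K q' := by
  unfold xi
  refine Finsupp.sum_add_index' (fun i => by simp) (fun i a b => ?_)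
  push_cast
  rw [add_smul]

theorem xi_neg (K : ℕ → Fin 3 → ℤ) (q : Md) : xi K (-q) = - xi K q := by
  have h0 : xi K 0 = 0 := by simp [xi]
  have h := xi_add K q (-q)
  rw [add_neg_cancel, h0] at h
  exact (neg_eq_of_add_eq_zero_right h.symm).symm

theorem xi_single (K : ℕ → Fin 3 → ℤ) (j : ℕ) (z : ℤ) :
    xi K (Finsupp.single j z) = (z : ℂ) • kv (K j) := by
  unfold xi
  rw [Finsupp.sum_single_index]
  simp

theorem xi_le (K : ℕ → Fin 3 → ℤ) (q : Md) (B : ℝ) (h : ∀ i, q i ≠ 0 → ‖kv (K i)‖ ≤ B) :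
    ‖xi K q‖ ≤ B * len q := by
  rw [xi_eq, len_eq, Finset.mul_sum]
  refine (norm_sum_le _ _).trans (Finset.sum_le_sum fun i hi => ?_)
  rw [norm_smul, Complex.norm_intCast, mul_comm]
  exact mul_le_mul_of_nonneg_right (h i (Finsupp.mem_support_iff.1 hi)) (abs_nonneg _)

theorem xi'_eq (K : ℕ → Fin 3 → ℤ) (j : ℕ) (q : Md) : xi' K j q = xi K (q.erase j) := by
  have h : xi K q = xi K (q.erase j) + xi K (Finsupp.single j (q j)) := by
    rw [← xi_add, Finsupp.erase_add_single]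
  unfold xi'
  rw [h, xi_single, add_sub_cancel_right]

theorem len_erase (q : Md) (j : ℕ) : len (q.erase j) ≤ len q := by
  rw [len_eq, len_eq, Finsupp.support_erase]
  have h1 : ∑ i ∈ q.support.erase j, |((q.erase j i : ℤ) : ℝ)| =
      ∑ i ∈ q.support.erase j, |((q i : ℤ) : ℝ)| := by
    refine Finset.sum_congr rfl fun i hi => ?_
    rw [Finsupp.erase_ne (Finset.ne_of_mem_erase hi)]
  rw [h1]
  exact Finset.sum_le_sum_of_subset_of_nonneg (Finset.erase_subset _ _)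
    (fun i _ _ => abs_nonneg _)

theorem xi_apply (K : ℕ → Fin 3 → ℤ) (q : Md) (i : Fin 3) :
    xi K q i = ((∑ j ∈ q.support, q j * K j i : ℤ) : ℂ) := by
  rw [xi_eq]
  push_cast
  simp [kv]

theorem one_le (K : ℕ → Fin 3 → ℤ) (q : Md) (h : xi K q ≠ 0) : 1 ≤ ‖xi K q‖ := by
  have h1 : ∃ i, xi K q i ≠ 0 := by
    by_contra hc
    push Not at hc
    apply h
    ext i
    rw [hc i]
    rfl
  obtain ⟨i, hi⟩ := h1
  have h2 : ‖xi K q i‖ ≤ ‖xi K q‖ := PiLp.norm_apply_le (xi K q) i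
  refine le_trans ?_ h2
  rw [xi_apply] at hi ⊢
  rw [Complex.norm_intCast]
  have h3 : (∑ j ∈ q.support, q j * K j i : ℤ) ≠ 0 := by
    intro h0
    rw [h0] at hi
    simp at hi
  exact_mod_cast Int.one_le_abs h3

end IS01

open IS01 in
theorem s01 : S01 := by
  intro K
  refine ⟨fun q q' => ⟨xi_add K q q', xi_neg K q⟩, ?_, ?_, ?_, ?_, ?_, one_le K⟩
  · intro q j
    rw [Complex.norm_intCast, len_eq]
    by_cases h : q j = 0
    · rw [h]
      simp only [Int.cast_zero, abs_zero]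
      exact Finset.sum_nonneg fun i _ => abs_nonneg _
    · exact Finset.single_le_sum (f := fun i => |((q i : ℤ) : ℝ)|) (fun i _ => abs_nonneg _)
        (Finsupp.mem_support_iff.2 h)
  · intro q n B hq hB
    refine xi_le K q B fun i hi => hB i ?_
    by_contra hc
    exact hi (hq i (not_le.1 hc))
  · intro q j B hq hB hB0
    rw [xi'_eq]
    refine (xi_le K (q.erase j) B fun i hi => ?_).trans
      (mul_le_mul_of_nonneg_left (len_erase q j) hB0)
    have hij : i ≠ j := by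
      rintro rfl
      exact hi Finsupp.erase_same
    rw [Finsupp.erase_ne hij] at hi
    refine hB i (lt_of_le_of_ne ?_ hij)
    by_contra hc
    exact hi (hq i (not_le.1 hc))
  · intro q
    have hc : ∀ i, starRingEnd ℂ (xi K q i) = xi K q i := by
      intro i
      rw [xi_apply]
      exact map_intCast (starRingEnd ℂ) _
    refine ⟨?_, fun x => ?_⟩
    · ext i
      exact hc i
    · rw [PiLp.inner_apply]
      unfold bdot
      simp only [RCLike.inner_apply, sum_apply,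
        ContinuousLinearMap.smulRight_apply, smul_apply, smul_eq_mul]
      refine Finset.sum_congr rfl fun i _ => ?_
      rw [hc i, mul_comm]
      rfl
  · intro K' n q hq hK
    rw [xi_eq, xi_eq]
    refine Finset.sum_congr rfl fun i hi => ?_
    rw [hK i ?_]
    by_contra hc
    exact Finsupp.mem_support_iff.1 hi (hq i (not_le.1 hc))

end Pool.Agent.Work.MP_b0497c_an.Unf.S

end

section

set_option autoImplicit false

/-!
# S02: the wave lemma
-/

open scoped ENNReal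
open Set MeasureTheory

namespace Pool.Agent.Work.MP_b0497c_an.Unf.S

open W

theorem s02_norm_pr (v x : C3) : ‖pr v x‖ * ‖v‖ = ‖(inner ℂ v x : ℂ)‖ := by
  unfold pr
  rcases eq_or_ne v 0 with h | h
  · subst h
    simp
  · have hv : 0 < ‖v‖ := norm_pos_iff.mpr h
    rw [ContinuousLinearMap.smul_apply, ContinuousLinearMap.smulRight_apply, innerSL_apply_apply,
      norm_smul, norm_smul, norm_inv, Complex.norm_real, Real.norm_of_nonneg (by positivity)]
    field_simp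

theorem s02_pr_le (v x : C3) : ‖pr v x‖ ≤ ‖x‖ := by
  rcases eq_or_ne v 0 with h | h
  · subst h
    simp [pr]
  · have hv : 0 < ‖v‖ := norm_pos_iff.mpr h
    have h1 := s02_norm_pr v x
    have h2 : ‖(inner ℂ v x : ℂ)‖ ≤ ‖v‖ * ‖x‖ := norm_inner_le_norm v x
    nlinarith [norm_nonneg (pr v x), norm_nonneg x]

/-- The bare wave lemma: a vector `w` added to `c • k`, `k ⟂ x`, `1 ≤ |c|`. -/
theorem s02_core (k w x : C3) (c : ℂ) (hk : 0 < ‖k‖) (hc : 1 ≤ ‖c‖)
    (hx : inner ℂ k x = 0) :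
    ‖pr (c • k + w) x‖ * ‖k‖ ≤ 2 * ‖w‖ * ‖x‖ ∧
    ‖c‖ * ‖pr (c • k + w) x‖ * ‖k‖ ≤ 2 * ‖w‖ * ‖x‖ := by
  have key : ‖c‖ * ‖pr (c • k + w) x‖ * ‖k‖ ≤ 2 * ‖w‖ * ‖x‖ := by
    set v : C3 := c • k + w with hv
    have h1 : ‖pr v x‖ * ‖v‖ ≤ ‖w‖ * ‖x‖ := by
      rw [s02_norm_pr]
      have : (inner ℂ v x : ℂ) = inner ℂ w x := by
        rw [hv, inner_add_left, inner_smul_left, hx, mul_zero, zero_add]
      rw [this]
      exact norm_inner_le_norm w x
    have h2 := s02_pr_le v x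
    have h3 : ‖c‖ * ‖k‖ ≤ ‖v‖ + ‖w‖ := by
      have : c • k = v - w := by rw [hv]; abel
      calc ‖c‖ * ‖k‖ = ‖c • k‖ := (norm_smul _ _).symm
        _ = ‖v - w‖ := by rw [this]
        _ ≤ ‖v‖ + ‖w‖ := norm_sub_le _ _
    have h4 : ‖pr v x‖ * (‖c‖ * ‖k‖) ≤ ‖pr v x‖ * (‖v‖ + ‖w‖) :=
      mul_le_mul_of_nonneg_left h3 (norm_nonneg _)
    have h5 : ‖pr v x‖ * ‖w‖ ≤ ‖x‖ * ‖w‖ := mul_le_mul_of_nonneg_right h2 (norm_nonneg _)
    nlinarith
  refine ⟨?_, key⟩
  refine le_trans ?_ key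
  have : 0 ≤ ‖pr (c • k + w) x‖ * ‖k‖ := by positivity
  nlinarith

theorem s02 (h01 : S01) : S02 := by
  intro K j B q x hq hB hK hj hx
  obtain ⟨-, -, -, h4, -, -, -⟩ := h01 K
  have hw : ‖xi' K j q‖ ≤ B * len q := h4 q j B hq.1 hK hB
  have hc : 1 ≤ ‖(q j : ℂ)‖ := by
    rw [Complex.norm_intCast]
    have : (1 : ℤ) ≤ |q j| := Int.one_le_abs hq.2
    exact_mod_cast this
  have hxi : xi K q = (q j : ℂ) • kv (K j) + xi' K j q := by
    unfold xi'
    abel
  obtain ⟨h1, h2⟩ := s02_core (kv (K j)) (xi' K j q) x (q j : ℂ) hj hc hx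
  rw [← hxi] at h1 h2
  have hle : 2 * ‖xi' K j q‖ * ‖x‖ ≤ 2 * (B * len q) * ‖x‖ := by
    have := norm_nonneg x
    gcongr
  have hfin : ∀ y : ℝ, y * ‖kv (K j)‖ ≤ 2 * ‖xi' K j q‖ * ‖x‖ →
      y ≤ 2 * (B / ‖kv (K j)‖) * len q * ‖x‖ := by
    intro y hy
    have e : 2 * (B / ‖kv (K j)‖) * len q * ‖x‖ = (2 * (B * len q) * ‖x‖) / ‖kv (K j)‖ := by
      field_simp
    rw [e, le_div_iff₀ hj]
    exact hy.trans hle
  refine ⟨hfin _ h1, hfin _ ?_⟩
  rw [map_smul, norm_smul]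
  exact h2

end Pool.Agent.Work.MP_b0497c_an.Unf.S

end
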