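import Mathlib
import Pool.Agent.Work.MP_b0497c_an.Unf.WStmts
import Pool.Agent.Work.MP_b0497c_an.Unf.WConv

/-! Bundle of small proof modules (one section per former module). -/

section

set_option autoImplicit false

/-!
# Scalar Gronwall and Lyapunov functions for `2 x 2` systems (block K)
-/

open Set

namespace Pool.Agent.Work.MP_b0497c_an.Unf.K

/-- `f' ≤ R' f` gives `f t ≤ f s exp (R t - R s)` (no sign condition). -/
theorem gron_le {f f' R R' : ℝ → ℝ} {s t : ℝ} (hst : s ≤ t)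
    (hf : ∀ x ∈ Icc s t, HasDerivAt f (f' x) x) (hR : ∀ x ∈ Icc s t, HasDerivAt R (R' x) x)
    (h : ∀ x ∈ Icc s t, f' x ≤ R' x * f x) : f t ≤ f s * Real.exp (R t - R s) := by
  have hd : ∀ x ∈ Icc s t, HasDerivAt (fun x => f x * Real.exp (-R x))
      ((f' x - R' x * f x) * Real.exp (-R x)) x := by
    intro x hx
    have h1 := (hf x hx).fun_mul (hR x hx).fun_neg.exp
    refine h1.congr_deriv ?_
    ring
  have hanti : AntitoneOn (fun x => f x * Real.exp (-R x)) (Icc s t) := by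
    apply antitoneOn_of_deriv_nonpos (convex_Icc s t)
    · intro x hx
      exact (hd x hx).continuousAt.continuousWithinAt
    · intro x hx
      rw [interior_Icc] at hx
      exact (hd x ⟨hx.1.le, hx.2.le⟩).differentiableAt.differentiableWithinAt
    · intro x hx
      rw [interior_Icc] at hx
      have hx' : x ∈ Icc s t := ⟨hx.1.le, hx.2.le⟩
      rw [(hd x hx').deriv]
      exact mul_nonpos_of_nonpos_of_nonneg (by linarith [h x hx']) (Real.exp_pos _).le
  have h2 := hanti ⟨le_refl s, hst⟩ ⟨hst, le_refl t⟩ hst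
  simp only at h2
  have h3 : f t = f t * Real.exp (-R t) * Real.exp (R t) := by
    rw [mul_assoc, ← Real.exp_add]
    simp
  rw [h3, show R t - R s = -R s + R t by ring, Real.exp_add, ← mul_assoc]
  exact mul_le_mul_of_nonneg_right h2 (Real.exp_pos _).le

/-- `R' f ≤ f'` gives `f s exp (R t - R s) ≤ f t`. -/
theorem gron_ge {f f' R R' : ℝ → ℝ} {s t : ℝ} (hst : s ≤ t)
    (hf : ∀ x ∈ Icc s t, HasDerivAt f (f' x) x) (hR : ∀ x ∈ Icc s t, HasDerivAt R (R' x) x)
    (h : ∀ x ∈ Icc s t, R' x * f x ≤ f' x) : f s * Real.exp (R t - R s) ≤ f t := by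
  have h1 := gron_le (f := fun x => -f x) (f' := fun x => -f' x) (R := R) (R' := R') hst
    (fun x hx => (hf x hx).fun_neg) hR (fun x hx => by
      have := h x hx
      simp only [mul_neg]
      linarith)
  simp only [neg_mul] at h1
  linarith

/-- The algebra of the Lyapunov function `(4 - H) Y² + Z²`. -/
theorem lyap_alg {Y Z H e1 e2 e3 e4 ε : ℝ} (hH : H ≤ 2) (h1 : |e1| ≤ ε) (h2 : |e2| ≤ ε)
    (h3 : |e3| ≤ ε) (h4 : |e4| ≤ ε) :
    2 * (4 - H) * Y * ((1 + e1) * Z + e2 * Y) + 2 * Z * ((H + e3) * Y + e4 * Z) ≤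
      (2 * Real.sqrt 2 + ε * (Real.sqrt (4 - H) + 5)) * ((4 - H) * Y ^ 2 + Z ^ 2) := by
  have hε : 0 ≤ ε := (abs_nonneg _).trans h1
  set a := Real.sqrt (4 - H) with ha
  have hr0 : 0 ≤ Real.sqrt 2 := Real.sqrt_nonneg 2
  have hr : Real.sqrt 2 * Real.sqrt 2 = 2 := Real.mul_self_sqrt (by norm_num)
  have ha0 : 0 ≤ a := Real.sqrt_nonneg _
  have haa : a * a = 4 - H := Real.mul_self_sqrt (by linarith)
  have haH : 4 - H = a ^ 2 := by rw [sq, haa]
  have har : Real.sqrt 2 ≤ a := Real.sqrt_le_sqrt (by linarith)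
  have hYZ : Real.sqrt 2 * |Y * Z| * 2 ≤ a ^ 2 * Y ^ 2 + Z ^ 2 := by
    have h5 : 0 ≤ (a * |Y| - |Z|) ^ 2 := sq_nonneg _
    have h6 : |Y * Z| = |Y| * |Z| := abs_mul _ _
    have h7 : Real.sqrt 2 * (|Y| * |Z|) ≤ a * (|Y| * |Z|) :=
      mul_le_mul_of_nonneg_right har (by positivity)
    have h8 : |Y| ^ 2 = Y ^ 2 := sq_abs Y
    have h9 : |Z| ^ 2 = Z ^ 2 := sq_abs Z
    rw [h6]
    nlinarith
  have hYZ' : a * |Y * Z| * 2 ≤ a ^ 2 * Y ^ 2 + Z ^ 2 := by
    have h5 : 0 ≤ (a * |Y| - |Z|) ^ 2 := sq_nonneg _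
    have h6 : |Y * Z| = |Y| * |Z| := abs_mul _ _
    have h8 : |Y| ^ 2 = Y ^ 2 := sq_abs Y
    have h9 : |Z| ^ 2 = Z ^ 2 := sq_abs Z
    rw [h6]
    nlinarith
  have hHe : H = 4 - a ^ 2 := by linarith
  have habs : 0 ≤ |Y * Z| := abs_nonneg _
  have hb1 : e1 * (Y * Z) ≤ ε * |Y * Z| :=
    (le_abs_self _).trans (by rw [abs_mul]; exact mul_le_mul_of_nonneg_right h1 habs)
  have hb3 : e3 * (Y * Z) ≤ ε * |Y * Z| :=
    (le_abs_self _).trans (by rw [abs_mul]; exact mul_le_mul_of_nonneg_right h3 habs)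
  have hb2 : e2 * Y ^ 2 ≤ ε * Y ^ 2 := mul_le_mul_of_nonneg_right ((le_abs_self _).trans h2)
    (sq_nonneg _)
  have hb4 : e4 * Z ^ 2 ≤ ε * Z ^ 2 := mul_le_mul_of_nonneg_right ((le_abs_self _).trans h4)
    (sq_nonneg _)
  have hYZle : Y * Z ≤ |Y * Z| := le_abs_self _
  have hq : 0 ≤ a ^ 2 * Y ^ 2 + Z ^ 2 := by positivity
  -- main term
  have m1 : 8 * (Y * Z) ≤ 2 * Real.sqrt 2 * (a ^ 2 * Y ^ 2 + Z ^ 2) := by
    have : 2 * Real.sqrt 2 * (Real.sqrt 2 * |Y * Z| * 2) ≤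
        2 * Real.sqrt 2 * (a ^ 2 * Y ^ 2 + Z ^ 2) :=
      mul_le_mul_of_nonneg_left hYZ (by positivity)
    nlinarith
  -- error terms
  have m2 : 2 * a ^ 2 * (e1 * (Y * Z)) ≤ ε * a * (a ^ 2 * Y ^ 2 + Z ^ 2) := by
    have t1 : 2 * a ^ 2 * (e1 * (Y * Z)) ≤ 2 * a ^ 2 * (ε * |Y * Z|) :=
      mul_le_mul_of_nonneg_left hb1 (by positivity)
    have t2 : ε * a * (a * |Y * Z| * 2) ≤ ε * a * (a ^ 2 * Y ^ 2 + Z ^ 2) :=
      mul_le_mul_of_nonneg_left hYZ' (by positivity)
    linarith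
  have m3 : 2 * a ^ 2 * (e2 * Y ^ 2) ≤ 2 * ε * (a ^ 2 * Y ^ 2) := by
    have t1 : 2 * a ^ 2 * (e2 * Y ^ 2) ≤ 2 * a ^ 2 * (ε * Y ^ 2) :=
      mul_le_mul_of_nonneg_left hb2 (by positivity)
    linarith
  have m4 : 2 * (e3 * (Y * Z)) ≤ ε * (a ^ 2 * Y ^ 2 + Z ^ 2) := by
    have t0 : 1 ≤ Real.sqrt 2 := by
      rw [Real.one_le_sqrt]; norm_num
    have t1 : |Y * Z| * 2 ≤ Real.sqrt 2 * |Y * Z| * 2 := by nlinarith
    have t2 : ε * (|Y * Z| * 2) ≤ ε * (a ^ 2 * Y ^ 2 + Z ^ 2) :=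
      mul_le_mul_of_nonneg_left (t1.trans hYZ) hε
    linarith
  have m5 : 2 * (e4 * Z ^ 2) ≤ 2 * ε * Z ^ 2 := by linarith
  have hεq : 0 ≤ ε * (a ^ 2 * Y ^ 2) := by positivity
  have hεz : 0 ≤ ε * Z ^ 2 := by positivity
  rw [haH, hHe]
  nlinarith

/-- **Lyapunov lemma for the window.** `Y' = ω((1+e1) Z + e2 Y)`, `Z' = ω((H+e3) Y + e4 Z)`,
`H ≤ 2`, `|eᵢ| ≤ ε`; `Q = (4 - H) Y² + Z²`. -/
theorem lyap_window {Y Z H H' ω ε e1 e2 e3 e4 R R' : ℝ → ℝ} {s t : ℝ} (hst : s ≤ t)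
    (hY : ∀ x ∈ Icc s t, HasDerivAt Y (ω x * ((1 + e1 x) * Z x + e2 x * Y x)) x)
    (hZ : ∀ x ∈ Icc s t, HasDerivAt Z (ω x * ((H x + e3 x) * Y x + e4 x * Z x)) x)
    (hH : ∀ x ∈ Icc s t, HasDerivAt H (H' x) x) (hH2 : ∀ x ∈ Icc s t, H x ≤ 2)
    (hω : ∀ x ∈ Icc s t, 0 ≤ ω x)
    (he : ∀ x ∈ Icc s t, |e1 x| ≤ ε x ∧ |e2 x| ≤ ε x ∧ |e3 x| ≤ ε x ∧ |e4 x| ≤ ε x)
    (hR : ∀ x ∈ Icc s t, HasDerivAt R (R' x) x)
    (hR' : ∀ x ∈ Icc s t, 2 * Real.sqrt 2 * ω x + |H' x| / (4 - H x) +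
      ω x * (ε x * (Real.sqrt (4 - H x) + 5)) ≤ R' x) :
    (4 - H t) * Y t ^ 2 + Z t ^ 2 ≤ ((4 - H s) * Y s ^ 2 + Z s ^ 2) * Real.exp (R t - R s) := by
  have hd : ∀ x ∈ Icc s t, HasDerivAt (fun x => (4 - H x) * Y x ^ 2 + Z x ^ 2)
      (-H' x * Y x ^ 2 + ω x * (2 * (4 - H x) * Y x * ((1 + e1 x) * Z x + e2 x * Y x) +
        2 * Z x * ((H x + e3 x) * Y x + e4 x * Z x))) x := by
    intro x hx
    have h1 := ((hH x hx).const_sub 4).fun_mul ((hY x hx).fun_pow 2)
    have h2 := h1.fun_add ((hZ x hx).fun_pow 2)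
    refine h2.congr_deriv ?_
    push_cast
    ring
  refine gron_le hst hd hR fun x hx => ?_
  have hq : 0 ≤ (4 - H x) * Y x ^ 2 + Z x ^ 2 := by
    have : 0 ≤ 4 - H x := by linarith [hH2 x hx]
    positivity
  have h4H : 0 < 4 - H x := by linarith [hH2 x hx]
  obtain ⟨a1, a2, a3, a4⟩ := he x hx
  have h1 := mul_le_mul_of_nonneg_left
    (lyap_alg (Y := Y x) (Z := Z x) (hH2 x hx) a1 a2 a3 a4) (hω x hx)
  have h2 : -H' x * Y x ^ 2 ≤ |H' x| / (4 - H x) * ((4 - H x) * Y x ^ 2 + Z x ^ 2) := by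
    have t1 : -H' x * Y x ^ 2 ≤ |H' x| * Y x ^ 2 :=
      mul_le_mul_of_nonneg_right (neg_le_abs _) (sq_nonneg _)
    have t2 : |H' x| * Y x ^ 2 = |H' x| / (4 - H x) * ((4 - H x) * Y x ^ 2) := by
      field_simp
    have t3 : 0 ≤ |H' x| / (4 - H x) * Z x ^ 2 := by positivity
    nlinarith
  have h3 := mul_le_mul_of_nonneg_right (hR' x hx) hq
  refine le_trans ?_ h3
  nlinarith

/-- **Energy lemma.** `p' = A q + a1 p`, `q' = B p + a2 q`, any signs: with a positive weight `l`,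
the function `l p² + q² / l` grows at most with the rate
`l |A| + |B| / l + 2 |a1| + 2 |a2| + |l'| / l`. -/
theorem energy_le {p q A B a1 a2 l l' R R' : ℝ → ℝ} {s t : ℝ} (hst : s ≤ t)
    (hp : ∀ x ∈ Icc s t, HasDerivAt p (A x * q x + a1 x * p x) x)
    (hq : ∀ x ∈ Icc s t, HasDerivAt q (B x * p x + a2 x * q x) x)
    (hl : ∀ x ∈ Icc s t, HasDerivAt l (l' x) x) (hl0 : ∀ x ∈ Icc s t, 0 < l x)
    (hR : ∀ x ∈ Icc s t, HasDerivAt R (R' x) x)
    (hR' : ∀ x ∈ Icc s t, l x * |A x| + |B x| / l x + 2 * |a1 x| + 2 * |a2 x| + |l' x| / l x ≤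
      R' x) :
    l t * p t ^ 2 + q t ^ 2 / l t ≤ (l s * p s ^ 2 + q s ^ 2 / l s) * Real.exp (R t - R s) := by
  have hd : ∀ x ∈ Icc s t, HasDerivAt (fun x => l x * p x ^ 2 + q x ^ 2 / l x)
      (l' x * p x ^ 2 + l x * (2 * p x * (A x * q x + a1 x * p x)) +
        (2 * q x * (B x * p x + a2 x * q x) * l x - q x ^ 2 * l' x) / l x ^ 2) x := by
    intro x hx
    have h1 := (hl x hx).fun_mul ((hp x hx).fun_pow 2)
    have h2 := ((hq x hx).fun_pow 2).fun_div (hl x hx) (hl0 x hx).ne'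
    refine (h1.fun_add h2).congr_deriv ?_
    push_cast
    ring
  refine gron_le hst hd hR fun x hx => ?_
  have l0 := hl0 x hx
  set P := p x
  set q' := q x
  set L := l x
  have hE : 0 ≤ L * P ^ 2 + q' ^ 2 / L := by positivity
  have h3 := mul_le_mul_of_nonneg_right (hR' x hx) hE
  refine le_trans ?_ h3
  -- `|P q'| ≤ (L P² + q'² / L) / 2`
  have hPQ : 2 * |P * q'| ≤ L * P ^ 2 + q' ^ 2 / L := by
    have h5 : 0 ≤ (L * |P| - |q'|) ^ 2 / L := by positivity
    have h6 : (L * |P| - |q'|) ^ 2 / L = L * |P| ^ 2 + |q'| ^ 2 / L - 2 * (|P| * |q'|) := by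
      field_simp
      ring
    rw [h6, sq_abs, sq_abs, ← abs_mul] at h5
    linarith
  have hLA : L * (2 * P * (A x * q')) ≤ L * |A x| * (L * P ^ 2 + q' ^ 2 / L) := by
    have t1 : A x * (P * q') ≤ |A x| * |P * q'| := (le_abs_self _).trans (abs_mul _ _).le
    have t2 : |A x| * (2 * |P * q'|) ≤ |A x| * (L * P ^ 2 + q' ^ 2 / L) :=
      mul_le_mul_of_nonneg_left hPQ (abs_nonneg _)
    have t3 : L * (2 * P * (A x * q')) = L * (2 * (A x * (P * q'))) := by ring
    rw [t3, mul_assoc]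
    apply mul_le_mul_of_nonneg_left _ l0.le
    linarith
  have hBL : 2 * q' * (B x * P) * L / L ^ 2 ≤ |B x| / L * (L * P ^ 2 + q' ^ 2 / L) := by
    have t1 : B x * (P * q') ≤ |B x| * |P * q'| := (le_abs_self _).trans (abs_mul _ _).le
    have t2 : |B x| * (2 * |P * q'|) ≤ |B x| * (L * P ^ 2 + q' ^ 2 / L) :=
      mul_le_mul_of_nonneg_left hPQ (abs_nonneg _)
    have t3 : 2 * q' * (B x * P) * L / L ^ 2 = 2 * (B x * (P * q')) / L := by
      field_simp
    rw [t3, div_mul_eq_mul_div]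
    apply div_le_div_of_nonneg_right _ l0.le
    linarith
  have ha1 : L * (2 * P * (a1 x * P)) ≤ 2 * |a1 x| * (L * P ^ 2 + q' ^ 2 / L) := by
    have t1 : a1 x * (L * P ^ 2) ≤ |a1 x| * (L * P ^ 2) :=
      mul_le_mul_of_nonneg_right (le_abs_self _) (by positivity)
    have t2 : 0 ≤ |a1 x| * (q' ^ 2 / L) := by positivity
    nlinarith
  have ha2 : 2 * q' * (a2 x * q') * L / L ^ 2 ≤ 2 * |a2 x| * (L * P ^ 2 + q' ^ 2 / L) := by
    have t1 : a2 x * (q' ^ 2 / L) ≤ |a2 x| * (q' ^ 2 / L) :=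
      mul_le_mul_of_nonneg_right (le_abs_self _) (by positivity)
    have t2 : 0 ≤ |a2 x| * (L * P ^ 2) := by positivity
    have t3 : 2 * q' * (a2 x * q') * L / L ^ 2 = 2 * (a2 x * (q' ^ 2 / L)) := by
      field_simp
    rw [t3]
    nlinarith
  have hl1 : l' x * P ^ 2 - q' ^ 2 * l' x / L ^ 2 ≤ |l' x| / L * (L * P ^ 2 + q' ^ 2 / L) := by
    have t1 : l' x * P ^ 2 ≤ |l' x| * P ^ 2 :=
      mul_le_mul_of_nonneg_right (le_abs_self _) (sq_nonneg _)
    have t2 : -(l' x) * (q' ^ 2 / L ^ 2) ≤ |l' x| * (q' ^ 2 / L ^ 2) :=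
      mul_le_mul_of_nonneg_right (neg_le_abs _) (by positivity)
    have t3 : |l' x| / L * (L * P ^ 2 + q' ^ 2 / L) = |l' x| * P ^ 2 +
        |l' x| * (q' ^ 2 / L ^ 2) := by
      field_simp
    have t4 : q' ^ 2 * l' x / L ^ 2 = l' x * (q' ^ 2 / L ^ 2) := by ring
    rw [t3, t4]
    linarith
  have hsplit : l' x * P ^ 2 + L * (2 * P * (A x * q' + a1 x * P)) +
      (2 * q' * (B x * P + a2 x * q') * L - q' ^ 2 * l' x) / L ^ 2 =
      (l' x * P ^ 2 - q' ^ 2 * l' x / L ^ 2) + L * (2 * P * (A x * q')) +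
        L * (2 * P * (a1 x * P)) + 2 * q' * (B x * P) * L / L ^ 2 +
        2 * q' * (a2 x * q') * L / L ^ 2 := by
    field_simp
    ring
  rw [hsplit]
  nlinarith

end Pool.Agent.Work.MP_b0497c_an.Unf.K

end

section

set_option autoImplicit false

/-!
# The exact system for `Y = lam^(1/2) p`, `Z = q / (de lam^(1/2)) + (j/2) Y` (N3 of OK.3)
-/

open Set

namespace Pool.Agent.Work.MP_b0497c_an.Unf.O

/-- `Y' = om ((1 + er) Z - (j/2) er Y)` for `p' = A q`, `om = r / lam`, `er = A lam² / a - 1`,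
`j = lam' / r`. -/
theorem Y_exact {p q lam : ℝ → ℝ} {A lam' a kap t : ℝ} (ha : 0 < a) (hk : 0 < kap)
    (hlam : 0 < lam t) (hp : HasDerivAt p (A * q t) t) (hl : HasDerivAt lam lam' t) :
    HasDerivAt (fun s => Real.sqrt (lam s) * p s)
      (Real.sqrt (a * kap) / lam t * ((1 + (A * lam t ^ 2 / a - 1)) *
        (q t / (Real.sqrt (kap / a) * Real.sqrt (lam t)) +
          lam' / Real.sqrt (a * kap) / 2 * (Real.sqrt (lam t) * p t)) +
        (-(lam' / Real.sqrt (a * kap) / 2 * (A * lam t ^ 2 / a - 1))) *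
          (Real.sqrt (lam t) * p t))) t := by
  have h1 := (hl.sqrt hlam.ne').fun_mul hp
  refine h1.congr_deriv ?_
  have hs : 0 < Real.sqrt (lam t) := Real.sqrt_pos.2 hlam
  have hss : Real.sqrt (lam t) ^ 2 = lam t := Real.sq_sqrt hlam.le
  have hr : 0 < Real.sqrt (a * kap) := Real.sqrt_pos.2 (by positivity)
  have hd : 0 < Real.sqrt (kap / a) := Real.sqrt_pos.2 (by positivity)
  have hrd : Real.sqrt (a * kap) = a * Real.sqrt (kap / a) := by
    rw [Real.sqrt_eq_iff_mul_self_eq (by positivity) (by positivity)]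
    have : Real.sqrt (kap / a) * Real.sqrt (kap / a) = kap / a := Real.mul_self_sqrt (by positivity)
    symm
    calc a * Real.sqrt (kap / a) * (a * Real.sqrt (kap / a)) =
        a ^ 2 * (Real.sqrt (kap / a) * Real.sqrt (kap / a)) := by ring
      _ = a * kap := by
        rw [this]
        field_simp
  set S := Real.sqrt (lam t) with hS
  set R := Real.sqrt (a * kap) with hR
  set d := Real.sqrt (kap / a) with hd'
  rw [← hss, hrd]
  field_simp
  ring

/-- `Z' = om ((Ht - (j²/4) er) Y + (j/2) er Z)`,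
`Ht = 2 be / kap + lam lam'' / (2 r²) + j² / 4`. -/
theorem Z_exact {p q lam lamd : ℝ → ℝ} {A be lam'' a kap t : ℝ} (ha : 0 < a) (hk : 0 < kap)
    (hlam : 0 < lam t) (hp : HasDerivAt p (A * q t) t) (hq : HasDerivAt q (2 * be * p t) t)
    (hl : HasDerivAt lam (lamd t) t) (hl2 : HasDerivAt lamd lam'' t) :
    HasDerivAt (fun s => q s / (Real.sqrt (kap / a) * Real.sqrt (lam s)) +
        lamd s / Real.sqrt (a * kap) / 2 * (Real.sqrt (lam s) * p s))
      (Real.sqrt (a * kap) / lam t * ((2 * be / kap + lam t * lam'' / (2 * Real.sqrt (a * kap) ^ 2)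
          + (lamd t / Real.sqrt (a * kap)) ^ 2 / 4
          - (lamd t / Real.sqrt (a * kap)) ^ 2 / 4 * (A * lam t ^ 2 / a - 1)) *
          (Real.sqrt (lam t) * p t) +
        lamd t / Real.sqrt (a * kap) / 2 * (A * lam t ^ 2 / a - 1) *
        (q t / (Real.sqrt (kap / a) * Real.sqrt (lam t)) +
          lamd t / Real.sqrt (a * kap) / 2 * (Real.sqrt (lam t) * p t)))) t := by
  have hs : 0 < Real.sqrt (lam t) := Real.sqrt_pos.2 hlam
  have hss : Real.sqrt (lam t) ^ 2 = lam t := Real.sq_sqrt hlam.le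
  have hr : 0 < Real.sqrt (a * kap) := Real.sqrt_pos.2 (by positivity)
  have hd : 0 < Real.sqrt (kap / a) := Real.sqrt_pos.2 (by positivity)
  have h1 := hq.fun_div ((hl.sqrt hlam.ne').const_mul (Real.sqrt (kap / a))) (by positivity)
  have h2 := ((hl2.div_const (Real.sqrt (a * kap))).div_const 2).fun_mul
    ((hl.sqrt hlam.ne').fun_mul hp)
  refine (h1.fun_add h2).congr_deriv ?_
  have hkk : Real.sqrt (kap / a) ^ 2 = kap / a := Real.sq_sqrt (by positivity)
  have hrd : Real.sqrt (a * kap) = a * Real.sqrt (kap / a) := by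
    rw [Real.sqrt_eq_iff_mul_self_eq (by positivity) (by positivity)]
    symm
    calc a * Real.sqrt (kap / a) * (a * Real.sqrt (kap / a)) =
        a ^ 2 * (Real.sqrt (kap / a)) ^ 2 := by ring
      _ = a * kap := by
        rw [hkk]
        field_simp
  have hkap : kap = a * Real.sqrt (kap / a) ^ 2 := by
    rw [hkk]
    field_simp
  rw [hrd]
  set S := Real.sqrt (lam t) with hS
  set d := Real.sqrt (kap / a) with hd'
  clear_value d S
  rw [← hss, hkap]
  field_simp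
  ring

end Pool.Agent.Work.MP_b0497c_an.Unf.O

end

section

set_option autoImplicit false

/-!
# The cone lemma (block O): growth and convergence of the ratio, with integrable errors

`N' = m ω N + error`, `U' = - m ω U + error`, `|error| ≤ e (|N| + |U|)`, where only the integral of
`e` is small.
-/

open Set

namespace Pool.Agent.Work.MP_b0497c_an.Unf.K

/-- The estimates on an interval on which the cone condition is already known. -/
theorem cone_aux {N N' U U' Om Om' Ee Ee' : ℝ → ℝ} {s t m : ℝ} (hst : s ≤ t) (hm : 0 ≤ m)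
    (hN : ∀ x ∈ Icc s t, HasDerivAt N (N' x) x) (hU : ∀ x ∈ Icc s t, HasDerivAt U (U' x) x)
    (hOm : ∀ x ∈ Icc s t, HasDerivAt Om (Om' x) x) (hEe : ∀ x ∈ Icc s t, HasDerivAt Ee (Ee' x) x)
    (hω : ∀ x ∈ Icc s t, 0 ≤ Om' x) (he : ∀ x ∈ Icc s t, 0 ≤ Ee' x)
    (h1 : ∀ x ∈ Icc s t, |N' x - m * Om' x * N x| ≤ Ee' x * (|N x| + |U x|))
    (h2 : ∀ x ∈ Icc s t, |U' x + m * Om' x * U x| ≤ Ee' x * (|N x| + |U x|))
    (h0 : 0 < N s) (hc : ∀ x ∈ Icc s t, |U x| ≤ 11 / 10 * N x) :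
    N s * Real.exp (m * (Om t - Om s) - 3 * (Ee t - Ee s)) ≤ N t ∧
    N t ≤ N s * Real.exp (m * (Om t - Om s) + 3 * (Ee t - Ee s)) ∧
    |U t| ≤ N t * (|U s| / N s * Real.exp (-(2 * m * (Om t - Om s))) + 9 / 2 * (Ee t - Ee s)) := by
  have hN0 : ∀ x ∈ Icc s t, 0 ≤ N x := fun x hx => by
    have := (abs_nonneg _).trans (hc x hx)
    linarith
  have hA : ∀ x ∈ Icc s t, |N' x - m * Om' x * N x| ≤ 3 * Ee' x * N x := by
    intro x hx
    refine (h1 x hx).trans ?_
    rw [abs_of_nonneg (hN0 x hx)]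
    nlinarith [mul_nonneg (he x hx) (hN0 x hx), mul_le_mul_of_nonneg_left (hc x hx) (he x hx)]
  have hlow : ∀ y ∈ Icc s t, N s * Real.exp (m * (Om y - Om s) - 3 * (Ee y - Ee s)) ≤ N y := by
    intro y hy
    have := gron_ge (f := N) (f' := N') (R := fun x => m * Om x - 3 * Ee x)
      (R' := fun x => m * Om' x - 3 * Ee' x) hy.1
      (fun x hx => hN x ⟨hx.1, hx.2.trans hy.2⟩)
      (fun x hx => ((hOm x ⟨hx.1, hx.2.trans hy.2⟩).const_mul m).fun_sub
        ((hEe x ⟨hx.1, hx.2.trans hy.2⟩).const_mul 3))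
      (fun x hx => by
        have := (abs_le.1 (hA x ⟨hx.1, hx.2.trans hy.2⟩)).1
        nlinarith)
    refine le_of_eq_of_le ?_ this
    congr 2
    ring
  have hup : N t ≤ N s * Real.exp (m * (Om t - Om s) + 3 * (Ee t - Ee s)) := by
    have := gron_le (f := N) (f' := N') (R := fun x => m * Om x + 3 * Ee x)
      (R' := fun x => m * Om' x + 3 * Ee' x) hst hN
      (fun x hx => ((hOm x hx).const_mul m).fun_add ((hEe x hx).const_mul 3))
      (fun x hx => by
        have := (abs_le.1 (hA x hx)).2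
        nlinarith)
    refine this.trans (le_of_eq ?_)
    congr 2
    ring
  have hNp : ∀ y ∈ Icc s t, 0 < N y := fun y hy => lt_of_lt_of_le (by positivity) (hlow y hy)
  refine ⟨hlow t ⟨hst, le_refl t⟩, hup, ?_⟩
  -- the ratio
  have hr : ∀ x ∈ Icc s t, HasDerivAt (fun x => U x / N x * Real.exp (2 * m * Om x))
      (((U' x * N x - U x * N' x) / N x ^ 2 + 2 * m * Om' x * (U x / N x)) *
        Real.exp (2 * m * Om x)) x := by
    intro x hx
    have h3 := ((hU x hx).fun_div (hN x hx) (hNp x hx).ne').fun_mul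
      (((hOm x hx).const_mul (2 * m)).exp)
    refine h3.congr_deriv ?_
    ring
  have hrb : ∀ x ∈ Icc s t, |((U' x * N x - U x * N' x) / N x ^ 2 + 2 * m * Om' x * (U x / N x)) *
        Real.exp (2 * m * Om x)| ≤ 9 / 2 * Ee' x * Real.exp (2 * m * Om t) := by
    intro x hx
    have hmono : Om x ≤ Om t := by
      have hmon : MonotoneOn Om (Icc s t) := by
        apply monotoneOn_of_deriv_nonneg (convex_Icc s t)
        · intro z hz
          exact (hOm z hz).continuousAt.continuousWithinAt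
        · intro z hz
          rw [interior_Icc] at hz
          exact (hOm z ⟨hz.1.le, hz.2.le⟩).differentiableAt.differentiableWithinAt
        · intro z hz
          rw [interior_Icc] at hz
          rw [(hOm z ⟨hz.1.le, hz.2.le⟩).deriv]
          exact hω z ⟨hz.1.le, hz.2.le⟩
      exact hmon hx ⟨hst, le_refl t⟩ hx.2
    have hNx := hNp x hx
    have h4 : (U' x * N x - U x * N' x) / N x ^ 2 + 2 * m * Om' x * (U x / N x) =
        ((U' x + m * Om' x * U x) * N x - U x * (N' x - m * Om' x * N x)) / N x ^ 2 := by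
      field_simp
      ring
    rw [h4, abs_mul, abs_of_pos (Real.exp_pos _), abs_div, abs_of_pos (by positivity : 0 < N x ^ 2)]
    have h5 : |(U' x + m * Om' x * U x) * N x - U x * (N' x - m * Om' x * N x)| ≤
        9 / 2 * Ee' x * N x ^ 2 := by
      have e1 := h1 x hx
      have e2 := h2 x hx
      rw [abs_of_pos hNx] at e1 e2
      have hcx := hc x hx
      have hex := he x hx
      have hUx := abs_nonneg (U x)
      calc |(U' x + m * Om' x * U x) * N x - U x * (N' x - m * Om' x * N x)|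
          ≤ |(U' x + m * Om' x * U x) * N x| + |U x * (N' x - m * Om' x * N x)| := abs_sub _ _
        _ = |U' x + m * Om' x * U x| * N x + |U x| * |N' x - m * Om' x * N x| := by
            rw [abs_mul, abs_mul, abs_of_pos hNx]
        _ ≤ Ee' x * (N x + |U x|) * N x + |U x| * (Ee' x * (N x + |U x|)) := by
            gcongr
        _ = Ee' x * (N x + |U x|) ^ 2 := by ring
        _ ≤ Ee' x * (21 / 10 * N x) ^ 2 := by
            gcongr
            linarith
        _ ≤ 9 / 2 * Ee' x * N x ^ 2 := by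
            nlinarith [mul_nonneg hex (sq_nonneg (N x))]
    have h6 : |(U' x + m * Om' x * U x) * N x - U x * (N' x - m * Om' x * N x)| / N x ^ 2 ≤
        9 / 2 * Ee' x := by
      rw [div_le_iff₀ (by positivity)]
      exact h5
    have h7 : Real.exp (2 * m * Om x) ≤ Real.exp (2 * m * Om t) := by
      apply Real.exp_le_exp.2
      nlinarith
    have h8 : 0 ≤ 9 / 2 * Ee' x := by
      have := he x hx
      positivity
    exact mul_le_mul h6 h7 (Real.exp_pos _).le h8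
  -- monotonicity of 9/2 e^{..} Ee ± ρ e^{..}
  have hmono : ∀ σ : ℝ, |σ| = 1 → MonotoneOn (fun x => 9 / 2 * Real.exp (2 * m * Om t) * Ee x -
      σ * (U x / N x * Real.exp (2 * m * Om x))) (Icc s t) := by
    intro σ hσ
    have hd : ∀ x ∈ Icc s t, HasDerivAt (fun x => 9 / 2 * Real.exp (2 * m * Om t) * Ee x -
      σ * (U x / N x * Real.exp (2 * m * Om x))) (9 / 2 * Real.exp (2 * m * Om t) * Ee' x -
      σ * (((U' x * N x - U x * N' x) / N x ^ 2 + 2 * m * Om' x * (U x / N x)) *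
        Real.exp (2 * m * Om x))) x := fun x hx =>
      ((hEe x hx).const_mul _).fun_sub ((hr x hx).const_mul σ)
    apply monotoneOn_of_deriv_nonneg (convex_Icc s t)
    · intro z hz
      exact (hd z hz).continuousAt.continuousWithinAt
    · intro z hz
      rw [interior_Icc] at hz
      exact (hd z ⟨hz.1.le, hz.2.le⟩).differentiableAt.differentiableWithinAt
    · intro z hz
      rw [interior_Icc] at hz
      rw [(hd z ⟨hz.1.le, hz.2.le⟩).deriv]
      have h9 := hrb z ⟨hz.1.le, hz.2.le⟩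
      have h10 : σ * (((U' z * N z - U z * N' z) / N z ^ 2 + 2 * m * Om' z * (U z / N z)) *
        Real.exp (2 * m * Om z)) ≤ 9 / 2 * Ee' z * Real.exp (2 * m * Om t) := by
        refine (le_abs_self _).trans ?_
        rw [abs_mul, hσ, one_mul]
        exact h9
      linarith
  have hs : s ∈ Icc s t := ⟨le_refl s, hst⟩
  have ht : t ∈ Icc s t := ⟨hst, le_refl t⟩
  have hp := hmono 1 (by simp) hs ht hst
  have hq := hmono (-1) (by simp) hs ht hst
  simp only at hp hq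
  have hNt := hNp t ht
  have hE0 := Real.exp_pos (2 * m * Om t)
  have hS0 := Real.exp_pos (2 * m * Om s)
  have hkey : |U t / N t * Real.exp (2 * m * Om t)| ≤
      |U s| / N s * Real.exp (2 * m * Om s) + 9 / 2 * (Ee t - Ee s) * Real.exp (2 * m * Om t) := by
    have h11 : |U s / N s * Real.exp (2 * m * Om s)| = |U s| / N s * Real.exp (2 * m * Om s) := by
      rw [abs_mul, abs_div, abs_of_pos h0, abs_of_pos hS0]
    rw [← h11]
    apply abs_le.2
    constructor
    · have := neg_abs_le (U s / N s * Real.exp (2 * m * Om s))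
      nlinarith
    · have := le_abs_self (U s / N s * Real.exp (2 * m * Om s))
      nlinarith
  rw [abs_mul, abs_div, abs_of_pos hNt, abs_of_pos hE0] at hkey
  have h12 : Real.exp (-(2 * m * (Om t - Om s))) = Real.exp (2 * m * Om s) / Real.exp (2 * m * Om t)
      := by
    rw [← Real.exp_sub]
    congr 1
    ring
  rw [h12]
  have h13 : |U t| / N t ≤ |U s| / N s * (Real.exp (2 * m * Om s) / Real.exp (2 * m * Om t)) +
      9 / 2 * (Ee t - Ee s) := by
    rw [← mul_le_mul_iff_left₀ hE0]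
    refine hkey.trans (le_of_eq ?_)
    field_simp
  rw [div_le_iff₀ hNt] at h13
  linarith

/-- **The cone lemma.** `N' = m ω N + error`, `U' = - m ω U + error`,
`|error| ≤ Ee' (|N| + |U|)`, `|U| ≤ N` at the start and `∫ Ee' ≤ 1/50`. -/
theorem cone {N N' U U' Om Om' Ee Ee' : ℝ → ℝ} {s t m : ℝ} (hm : 0 ≤ m)
    (hN : ∀ x ∈ Icc s t, HasDerivAt N (N' x) x) (hU : ∀ x ∈ Icc s t, HasDerivAt U (U' x) x)
    (hOm : ∀ x ∈ Icc s t, HasDerivAt Om (Om' x) x) (hEe : ∀ x ∈ Icc s t, HasDerivAt Ee (Ee' x) x)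
    (hω : ∀ x ∈ Icc s t, 0 ≤ Om' x) (he : ∀ x ∈ Icc s t, 0 ≤ Ee' x)
    (h1 : ∀ x ∈ Icc s t, |N' x - m * Om' x * N x| ≤ Ee' x * (|N x| + |U x|))
    (h2 : ∀ x ∈ Icc s t, |U' x + m * Om' x * U x| ≤ Ee' x * (|N x| + |U x|))
    (h0 : 0 < N s) (hU0 : |U s| ≤ N s) (hη : Ee t - Ee s ≤ 1 / 50) :
    ∀ x ∈ Icc s t, ∀ y ∈ Icc x t, 0 < N x ∧ |U x| ≤ 11 / 10 * N x ∧
      N x * Real.exp (m * (Om y - Om x) - 3 * (Ee y - Ee x)) ≤ N y ∧
      N y ≤ N x * Real.exp (m * (Om y - Om x) + 3 * (Ee y - Ee x)) ∧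
      |U y| ≤ N y * (|U x| / N x * Real.exp (-(2 * m * (Om y - Om x))) +
        9 / 2 * (Ee y - Ee x)) := by
  have hEmon : MonotoneOn Ee (Icc s t) := by
    apply monotoneOn_of_deriv_nonneg (convex_Icc s t)
    · intro z hz
      exact (hEe z hz).continuousAt.continuousWithinAt
    · intro z hz
      rw [interior_Icc] at hz
      exact (hEe z ⟨hz.1.le, hz.2.le⟩).differentiableAt.differentiableWithinAt
    · intro z hz
      rw [interior_Icc] at hz
      rw [(hEe z ⟨hz.1.le, hz.2.le⟩).deriv]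
      exact he z ⟨hz.1.le, hz.2.le⟩
  have hOmon : MonotoneOn Om (Icc s t) := by
    apply monotoneOn_of_deriv_nonneg (convex_Icc s t)
    · intro z hz
      exact (hOm z hz).continuousAt.continuousWithinAt
    · intro z hz
      rw [interior_Icc] at hz
      exact (hOm z ⟨hz.1.le, hz.2.le⟩).differentiableAt.differentiableWithinAt
    · intro z hz
      rw [interior_Icc] at hz
      rw [(hOm z ⟨hz.1.le, hz.2.le⟩).deriv]
      exact hω z ⟨hz.1.le, hz.2.le⟩
  have hNc : ContinuousOn N (Icc s t) := fun x hx => (hN x hx).continuousAt.continuousWithinAt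
  have hUc : ContinuousOn U (Icc s t) := fun x hx => (hU x hx).continuousAt.continuousWithinAt
  -- the cone condition everywhere
  have hgood : ∀ x ∈ Icc s t, |U x| < 11 / 10 * N x := by
    by_contra hcon
    push Not at hcon
    obtain ⟨x₀, hx₀, hx₀'⟩ := hcon
    have hst : s ≤ t := hx₀.1.trans hx₀.2
    set B := {x | x ∈ Icc s t ∧ 11 / 10 * N x - |U x| ≤ 0} with hB
    have hBc : IsCompact B := by
      have hcl : IsClosed (Icc s t ∩ (fun x => 11 / 10 * N x - |U x|) ⁻¹' Iic 0) := by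
        apply ContinuousOn.preimage_isClosed_of_isClosed _ isClosed_Icc isClosed_Iic
        exact (hNc.const_smul (11 / 10 : ℝ)).sub hUc.abs
      exact isCompact_Icc.of_isClosed_subset hcl (fun x hx => hx.1)
    have hBne : B.Nonempty := ⟨x₀, hx₀, by linarith⟩
    obtain ⟨τ, hτ, hτmin⟩ := hBc.exists_isLeast hBne
    have hτ1 : τ ∈ Icc s t := hτ.1
    have hsτ : s < τ := by
      rcases hτ1.1.lt_or_eq with h | h
      · exact h
      · exfalso
        have := hτ.2
        rw [← h] at this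
        linarith
    have hlt : ∀ x ∈ Ico s τ, |U x| < 11 / 10 * N x := by
      intro x hx
      by_contra hc
      have : x ∈ B := ⟨⟨hx.1, hx.2.le.trans hτ1.2⟩, by linarith [not_lt.1 hc]⟩
      exact absurd (hτmin this) (not_le.2 hx.2)
    have hle : ∀ x ∈ Icc s τ, |U x| ≤ 11 / 10 * N x := by
      have hcl : IsClosed (Icc s τ ∩ (fun x => 11 / 10 * N x - |U x|) ⁻¹' Ici 0) := by
        apply ContinuousOn.preimage_isClosed_of_isClosed _ isClosed_Icc isClosed_Ici
        exact ((hNc.mono (Icc_subset_Icc_right hτ1.2)).const_smul (11 / 10 : ℝ)).sub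
          (hUc.mono (Icc_subset_Icc_right hτ1.2)).abs
      have hsub : closure (Ico s τ) ⊆ Icc s τ ∩ (fun x => 11 / 10 * N x - |U x|) ⁻¹' Ici 0 := by
        apply closure_minimal _ hcl
        intro x hx
        exact ⟨⟨hx.1, hx.2.le⟩, by
          have := hlt x hx
          simp only [mem_preimage, mem_Ici]
          linarith⟩
      rw [closure_Ico hsτ.ne] at hsub
      intro x hx
      have := (hsub hx).2
      simp only [mem_preimage, mem_Ici] at this
      linarith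
    have sub : ∀ x ∈ Icc s τ, x ∈ Icc s t := fun x hx => ⟨hx.1, hx.2.trans hτ1.2⟩
    obtain ⟨ha, -, hb⟩ := cone_aux hτ1.1 hm (fun x hx => hN x (sub x hx))
      (fun x hx => hU x (sub x hx)) (fun x hx => hOm x (sub x hx)) (fun x hx => hEe x (sub x hx))
      (fun x hx => hω x (sub x hx)) (fun x hx => he x (sub x hx))
      (fun x hx => h1 x (sub x hx)) (fun x hx => h2 x (sub x hx)) h0 hle
    have hNτ : 0 < N τ := lt_of_lt_of_le (by positivity) ha
    have hE1 : Ee τ - Ee s ≤ 1 / 50 := by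
      have := hEmon hτ1 ⟨hst, le_refl t⟩ hτ1.2
      linarith
    have hO1 : Real.exp (-(2 * m * (Om τ - Om s))) ≤ 1 := by
      apply Real.exp_le_one_iff.2
      have := hOmon ⟨le_refl s, hst⟩ hτ1 hτ1.1
      nlinarith
    have hrs : |U s| / N s ≤ 1 := by
      rw [div_le_one h0]
      exact hU0
    have hrs0 : 0 ≤ |U s| / N s := by positivity
    have h14 : |U s| / N s * Real.exp (-(2 * m * (Om τ - Om s))) ≤ 1 := by
      calc |U s| / N s * Real.exp (-(2 * m * (Om τ - Om s))) ≤ 1 * 1 :=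
            mul_le_mul hrs hO1 (Real.exp_pos _).le zero_le_one
        _ = 1 := one_mul 1
    have h15 : |U τ| ≤ N τ * (1 + 9 / 2 * (1 / 50)) := by
      refine hb.trans ?_
      gcongr
    have h16 := hτ.2
    linarith
  intro x hx y hy
  have hst : s ≤ t := hx.1.trans hx.2
  have hNp : ∀ z ∈ Icc s t, 0 < N z := fun z hz => by
    have := lt_of_le_of_lt (abs_nonneg _) (hgood z hz)
    linarith
  have sub : ∀ z ∈ Icc x y, z ∈ Icc s t := fun z hz => ⟨hx.1.trans hz.1, hz.2.trans hy.2⟩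
  obtain ⟨ha, hb, hc⟩ := cone_aux hy.1 hm (fun x hx => hN x (sub x hx))
      (fun x hx => hU x (sub x hx)) (fun x hx => hOm x (sub x hx)) (fun x hx => hEe x (sub x hx))
      (fun x hx => hω x (sub x hx)) (fun x hx => he x (sub x hx))
      (fun x hx => h1 x (sub x hx)) (fun x hx => h2 x (sub x hx)) (hNp x hx)
      (fun z hz => (hgood z (sub z hz)).le)
  exact ⟨hNp x hx, (hgood x hx).le, ha, hb, hc⟩

/-- The cone lemma for `Y' = ω((1+e1) Z + e2 Y)`, `Z' = ω((m²+e3) Y + e4 Z)`: with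
`N = m Y + Z`, `U = Z - m Y`; only the integral of `ω(|e1|+|e2|+|e3|+|e4|)` is small. -/
theorem cone_YZ {Y Z ω e1 e2 e3 e4 Om Ee Ee' : ℝ → ℝ} {s t m : ℝ} (hm1 : 1 / 2 ≤ m) (hm2 : m ≤ 2)
    (hY : ∀ x ∈ Icc s t, HasDerivAt Y (ω x * ((1 + e1 x) * Z x + e2 x * Y x)) x)
    (hZ : ∀ x ∈ Icc s t, HasDerivAt Z (ω x * ((m ^ 2 + e3 x) * Y x + e4 x * Z x)) x)
    (hOm : ∀ x ∈ Icc s t, HasDerivAt Om (ω x) x) (hEe : ∀ x ∈ Icc s t, HasDerivAt Ee (Ee' x) x)
    (hω : ∀ x ∈ Icc s t, 0 ≤ ω x)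
    (he : ∀ x ∈ Icc s t, ω x * (|e1 x| + |e2 x| + |e3 x| + |e4 x|) ≤ Ee' x)
    (h0 : 0 < m * Y s + Z s) (hU0 : |Z s - m * Y s| ≤ m * Y s + Z s)
    (hη : Ee t - Ee s ≤ 1 / 50) :
    ∀ x ∈ Icc s t, ∀ y ∈ Icc x t, 0 < m * Y x + Z x ∧
      |Z x - m * Y x| ≤ 11 / 10 * (m * Y x + Z x) ∧
      (m * Y x + Z x) * Real.exp (m * (Om y - Om x) - 3 * (Ee y - Ee x)) ≤ m * Y y + Z y ∧
      m * Y y + Z y ≤ (m * Y x + Z x) * Real.exp (m * (Om y - Om x) + 3 * (Ee y - Ee x)) ∧
      |Z y - m * Y y| ≤ (m * Y y + Z y) * (|Z x - m * Y x| / (m * Y x + Z x) *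
        Real.exp (-(2 * m * (Om y - Om x))) + 9 / 2 * (Ee y - Ee x)) := by
  have hm0 : 0 < m := by linarith
  have key : ∀ x ∈ Icc s t, ∀ a b : ℝ, a = m ∨ a = -m →
      b = 1 ∨ b = -1 → |ω x * ((a * e1 x + e4 x) * Z x + (a * e2 x + e3 x) * Y x)| ≤
      Ee' x * (|m * Y x + Z x| + |Z x - m * Y x|) := by
    intro x hx a b ha _
    have haa : |a| = m := by
      rcases ha with h | h <;> rw [h]
      · exact abs_of_pos hm0
      · rw [abs_neg, abs_of_pos hm0]
    have hωx := hω x hx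
    have hYb : |Y x| ≤ (|m * Y x + Z x| + |Z x - m * Y x|) / (2 * m) := by
      rw [le_div_iff₀ (by positivity)]
      have h3 : |Y x| * (2 * m) = |(m * Y x + Z x) - (Z x - m * Y x)| := by
        rw [show (m * Y x + Z x) - (Z x - m * Y x) = Y x * (2 * m) by ring, abs_mul,
          abs_of_pos (by positivity : (0:ℝ) < 2 * m)]
      rw [h3]
      exact abs_sub _ _
    have hZb : |Z x| ≤ (|m * Y x + Z x| + |Z x - m * Y x|) / 2 := by
      rw [le_div_iff₀ (by norm_num)]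
      have h3 : |Z x| * 2 = |(m * Y x + Z x) + (Z x - m * Y x)| := by
        rw [show (m * Y x + Z x) + (Z x - m * Y x) = Z x * 2 by ring, abs_mul,
          abs_of_pos (by norm_num : (0:ℝ) < 2)]
      rw [h3]
      exact abs_add_le _ _
    set T := |m * Y x + Z x| + |Z x - m * Y x| with hT
    have hT0 : 0 ≤ T := by positivity
    have h4 : |(a * e1 x + e4 x) * Z x + (a * e2 x + e3 x) * Y x| ≤
        (m * |e1 x| + |e4 x|) * (T / 2) + (m * |e2 x| + |e3 x|) * (T / (2 * m)) := by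
      refine (abs_add_le _ _).trans ?_
      rw [abs_mul, abs_mul]
      have h5 : |a * e1 x + e4 x| ≤ m * |e1 x| + |e4 x| := by
        refine (abs_add_le _ _).trans ?_
        rw [abs_mul, haa]
      have h6 : |a * e2 x + e3 x| ≤ m * |e2 x| + |e3 x| := by
        refine (abs_add_le _ _).trans ?_
        rw [abs_mul, haa]
      gcongr
    have h7 : (m * |e1 x| + |e4 x|) * (T / 2) + (m * |e2 x| + |e3 x|) * (T / (2 * m)) ≤
        (|e1 x| + |e2 x| + |e3 x| + |e4 x|) * T := by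
      have h8 : (m * |e2 x| + |e3 x|) * (T / (2 * m)) = |e2 x| * T / 2 + |e3 x| * T / (2 * m) := by
        field_simp
      have h9 : |e3 x| * T / (2 * m) ≤ |e3 x| * T := by
        apply div_le_self (by positivity)
        linarith
      rw [h8]
      have h10 : m * |e1 x| * T ≤ 2 * |e1 x| * T := by gcongr
      have h11 : 0 ≤ |e2 x| * T := by positivity
      have h12 : 0 ≤ |e4 x| * T := by positivity
      nlinarith
    rw [abs_mul, abs_of_nonneg hωx]
    calc ω x * |(a * e1 x + e4 x) * Z x + (a * e2 x + e3 x) * Y x|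
        ≤ ω x * ((|e1 x| + |e2 x| + |e3 x| + |e4 x|) * T) :=
          mul_le_mul_of_nonneg_left (h4.trans h7) hωx
      _ = (ω x * (|e1 x| + |e2 x| + |e3 x| + |e4 x|)) * T := by ring
      _ ≤ Ee' x * T := mul_le_mul_of_nonneg_right (he x hx) hT0
  apply cone (N := fun x => m * Y x + Z x)
    (N' := fun x => m * (ω x * ((1 + e1 x) * Z x + e2 x * Y x)) +
      ω x * ((m ^ 2 + e3 x) * Y x + e4 x * Z x)) (U := fun x => Z x - m * Y x)
    (U' := fun x => ω x * ((m ^ 2 + e3 x) * Y x + e4 x * Z x) -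
      m * (ω x * ((1 + e1 x) * Z x + e2 x * Y x))) (Om := Om) (Om' := ω) (Ee := Ee) (Ee' := Ee')
    hm0.le (fun x hx => ((hY x hx).const_mul m).fun_add (hZ x hx))
    (fun x hx => (hZ x hx).fun_sub ((hY x hx).const_mul m)) hOm hEe hω
    (fun x hx => le_trans (mul_nonneg (hω x hx) (by positivity)) (he x hx)) ?_ ?_ h0 hU0 hη
  · intro x hx
    have := key x hx m 1 (Or.inl rfl) (Or.inl rfl)
    refine le_of_eq_of_le ?_ this
    congr 1
    ring
  · intro x hx
    have := key x hx (-m) 1 (Or.inr rfl) (Or.inl rfl)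
    refine le_of_eq_of_le ?_ this
    congr 1
    ring

end Pool.Agent.Work.MP_b0497c_an.Unf.K

end

section

set_option autoImplicit false

open scoped ENNReal
open Set MeasureTheory

namespace Pool.Agent.Work.MP_b0497c_an.Unf.W

namespace W05aux

theorem exp_mono {γ c t s L : ℝ} (hγ : 0 ≤ γ) (hL : 0 ≤ L) (hst : s ≤ t) :
    Real.exp ((c - γ * t) * L) ≤ Real.exp ((c - γ * s) * L) := by
  apply Real.exp_le_exp.2
  have : γ * s ≤ γ * t := mul_le_mul_of_nonneg_left hst hγ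
  exact mul_le_mul_of_nonneg_right (by linarith) hL

theorem div_weight {e r r' a : ℝ} (he : 0 ≤ e) (hr : 0 < r) (hr' : 0 < r') (h : r ≤ a * r') :
    e / r' ≤ a * (e / r) := by
  rw [div_le_iff₀ hr']
  have h1 : a * (e / r) * r' = e * ((a * r') / r) := by ring
  rw [h1]
  have h2 : 1 ≤ (a * r') / r := (one_le_div hr).2 h
  nlinarith

theorem iSup_add_le {ι : Type} (s : Set ι) (a b : ι → ℝ≥0∞) :
    (⨆ t ∈ s, (a t + b t)) ≤ (⨆ t ∈ s, a t) + ⨆ t ∈ s, b t := by
  refine iSup₂_le fun t ht => ?_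
  exact add_le_add (le_iSup₂ (f := fun t _ => a t) t ht) (le_iSup₂ (f := fun t _ => b t) t ht)

theorem iSup_mul {ι : Type} (s : Set ι) (z : ℝ≥0∞) (a : ι → ℝ≥0∞) :
    (⨆ t ∈ s, z * a t) = z * ⨆ t ∈ s, a t := by
  rw [ENNReal.mul_iSup]
  congr 1
  ext t
  rw [ENNReal.mul_iSup]

end W05aux

open W05aux

theorem pr_W05 : W05 := by
  intro Γ E _ _ _ _ T c γ ρ ρ' f g hP hρ hρ'
  have hT := hP.T_pos
  refine ⟨?_, ?_, ?_, ?_, ?_⟩
  · unfold Src Nrm
    rw [← ENNReal.tsum_mul_left]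
    refine ENNReal.tsum_le_tsum fun m => ?_
    refine iSup₂_le fun t ht => ?_
    have h1 : ∫⁻ s in Ioc 0 t,
        ENNReal.ofReal (Real.exp ((c - γ * t) * len m) / ρ s) * ‖f s m‖ₑ ≤
        ∫⁻ _ in Ioc 0 t, ⨆ t ∈ Icc 0 T,
          ENNReal.ofReal (Real.exp ((c - γ * t) * len m) / ρ t) * ‖f t m‖ₑ := by
      refine setLIntegral_mono' measurableSet_Ioc fun s hs => ?_
      have hs' : s ∈ Icc 0 T := ⟨hs.1.le, hs.2.trans ht.2⟩
      refine le_trans ?_ (le_iSup₂ (f := fun t _ =>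
        ENNReal.ofReal (Real.exp ((c - γ * t) * len m) / ρ t) * ‖f t m‖ₑ) s hs')
      refine mul_le_mul_left ?_ _
      apply ENNReal.ofReal_le_ofReal
      exact div_le_div_of_nonneg_right (exp_mono hP.γ_nonneg (len_nonneg m) hs.2) (hρ.pos s hs').le
    refine h1.trans ?_
    rw [setLIntegral_const, Real.volume_Ioc, sub_zero, mul_comm]
    exact mul_le_mul_left (ENNReal.ofReal_le_ofReal ht.2) _
  · intro a ha hw
    constructor
    · unfold Nrm
      rw [← ENNReal.tsum_mul_left]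
      refine ENNReal.tsum_le_tsum fun m => ?_
      rw [← iSup_mul]
      refine iSup₂_mono fun t ht => ?_
      rw [← mul_assoc, ← ENNReal.ofReal_mul ha]
      refine mul_le_mul_left ?_ _
      exact ENNReal.ofReal_le_ofReal
        (div_weight (Real.exp_pos _).le (hρ.pos t ht) (hρ'.pos t ht) (hw t ht))
    · unfold Src
      rw [← ENNReal.tsum_mul_left]
      refine ENNReal.tsum_le_tsum fun m => ?_
      rw [← iSup_mul]
      refine iSup₂_mono fun t ht => ?_
      rw [← lintegral_const_mul' _ _ ENNReal.ofReal_ne_top]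
      refine setLIntegral_mono' measurableSet_Ioc fun s hs => ?_
      have hs' : s ∈ Icc 0 T := ⟨hs.1.le, hs.2.trans ht.2⟩
      rw [← mul_assoc, ← ENNReal.ofReal_mul ha]
      refine mul_le_mul_left ?_ _
      exact ENNReal.ofReal_le_ofReal
        (div_weight (Real.exp_pos _).le (hρ.pos s hs') (hρ'.pos s hs') (hw s hs'))
  · unfold Nrm
    rw [← ENNReal.tsum_add]
    refine ENNReal.tsum_le_tsum fun m => ?_
    refine le_trans (iSup₂_mono fun t _ => ?_) (iSup_add_le (Icc 0 T) _ _)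
    rw [← mul_add]
    exact mul_le_mul_right (enorm_add_le _ _) _
  · intro hf
    unfold Src
    rw [← ENNReal.tsum_add]
    refine ENNReal.tsum_le_tsum fun m => ?_
    refine le_trans (iSup₂_mono fun t ht => ?_) (iSup_add_le (Icc 0 T) _ _)
    have hmeas : AEMeasurable (fun s =>
        ENNReal.ofReal (Real.exp ((c - γ * t) * len m) / ρ s) * ‖f s m‖ₑ)
        (volume.restrict (Ioc 0 t)) := by
      have hsub : Ioc 0 t ⊆ Icc 0 T := fun s hs => ⟨hs.1.le, hs.2.trans ht.2⟩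
      have c1 : ContinuousOn (fun s => ENNReal.ofReal (Real.exp ((c - γ * t) * len m) / ρ s))
          (Ioc 0 t) := by
        refine ENNReal.continuous_ofReal.comp_continuousOn ?_
        exact continuousOn_const.div (hρ.cont.mono hsub) fun s hs => (hρ.pos s (hsub hs)).ne'
      have c2 : ContinuousOn (fun s => ‖f s m‖ₑ) (Ioc 0 t) :=
        continuous_enorm.comp_continuousOn ((hf m).mono hsub)
      exact (c1.aemeasurable measurableSet_Ioc).mul (c2.aemeasurable measurableSet_Ioc)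
    rw [← lintegral_add_left' hmeas]
    refine setLIntegral_mono' measurableSet_Ioc fun s _ => ?_
    rw [← mul_add]
    exact mul_le_mul_right (enorm_add_le _ _) _
  · intro z
    constructor
    · unfold Nrm
      rw [← ENNReal.tsum_mul_left]
      congr 1
      ext m
      rw [← iSup_mul]
      congr 1
      ext t
      congr 1
      ext ht
      simp only [Pi.smul_apply, enorm_smul]
      ring
    · unfold Src
      rw [← ENNReal.tsum_mul_left]
      congr 1
      ext m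
      rw [← iSup_mul]
      congr 1
      ext t
      congr 1
      ext ht
      rw [← lintegral_const_mul' _ _ enorm_ne_top]
      congr 1
      ext s
      simp only [Pi.smul_apply, enorm_smul]
      ring

end Pool.Agent.Work.MP_b0497c_an.Unf.W

end

section

set_option autoImplicit false

/-!
# W06: one derivative is gained by the shrinking radius
-/

open scoped ENNReal
open Set MeasureTheory

namespace Pool.Agent.Work.MP_b0497c_an.Unf.W

namespace W06aux

/-- The time integral of the gain. -/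
theorem gain_integral (γ L t : ℝ) (hγ : 0 < γ) (ht : 0 ≤ t) :
    ∫⁻ s in Ioc 0 t, ENNReal.ofReal (L * Real.exp (-(γ * (t - s) * L))) ≤
      ENNReal.ofReal (1 / γ) := by
  by_cases hL : 0 ≤ L
  · have hcont : Continuous fun s : ℝ => L * Real.exp (-(γ * (t - s) * L)) := by fun_prop
    have hint : IntegrableOn (fun s : ℝ => L * Real.exp (-(γ * (t - s) * L))) (Ioc 0 t) :=
      (hcont.integrableOn_Icc (a := 0) (b := t)).mono_set Ioc_subset_Icc_self
    rw [← ofReal_integral_eq_lintegral_ofReal hint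
      (Filter.Eventually.of_forall fun s => by positivity)]
    apply ENNReal.ofReal_le_ofReal
    rw [← intervalIntegral.integral_of_le ht]
    have hd : ∀ s ∈ uIcc 0 t, HasDerivAt (fun s : ℝ => Real.exp (-(γ * (t - s) * L)) / γ)
        (L * Real.exp (-(γ * (t - s) * L))) s := by
      intro s _
      have h1 : HasDerivAt (fun s : ℝ => -(γ * (t - s) * L)) (γ * L) s := by
        have h2 : HasDerivAt (fun s : ℝ => t - s) (-1) s := by
          simpa using (hasDerivAt_id s).const_sub t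
        have h3 := ((h2.const_mul γ).mul_const L).neg
        have h4 : -(γ * (-1) * L) = γ * L := by ring
        rw [h4] at h3
        exact h3
      have h4 := h1.exp.div_const γ
      have h5 : Real.exp (-(γ * (t - s) * L)) * (γ * L) / γ =
          L * Real.exp (-(γ * (t - s) * L)) := by
        field_simp
      rw [h5] at h4
      exact h4
    rw [intervalIntegral.integral_eq_sub_of_hasDerivAt hd (hcont.intervalIntegrable _ _)]
    have h5 : 0 ≤ Real.exp (-(γ * (t - 0) * L)) / γ := by positivity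
    have h6 : Real.exp (-(γ * (t - t) * L)) / γ = 1 / γ := by simp
    rw [h6]
    linarith
  · have h0 : ∀ s : ℝ, ENNReal.ofReal (L * Real.exp (-(γ * (t - s) * L))) = 0 := by
      intro s
      apply ENNReal.ofReal_of_nonpos
      exact mul_nonpos_of_nonpos_of_nonneg (not_le.1 hL).le (Real.exp_pos _).le
    simp [h0]

/-- The estimate of one mode. -/
theorem mode_bound {E F : Type} [NormedAddCommGroup E] [NormedAddCommGroup F]
    (T c γ L : ℝ) (ρ : ℝ → ℝ) (f : ℝ → E) (h : ℝ → F) (hγ : 0 < γ) (hL : 0 ≤ L)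
    (hfh : ∀ t ∈ Icc 0 T, ‖h t‖ ≤ L * ‖f t‖) (t : ℝ) (ht : t ∈ Icc 0 T) :
    ∫⁻ s in Ioc 0 t, ENNReal.ofReal (Real.exp ((c - γ * t) * L) / ρ s) * ‖h s‖ₑ ≤
      ENNReal.ofReal (1 / γ) *
        ⨆ t ∈ Icc 0 T, ENNReal.ofReal (Real.exp ((c - γ * t) * L) / ρ t) * ‖f t‖ₑ := by
  set M := ⨆ t ∈ Icc 0 T, ENNReal.ofReal (Real.exp ((c - γ * t) * L) / ρ t) * ‖f t‖ₑ with hM
  have hpt : ∀ s ∈ Ioc 0 t, ENNReal.ofReal (Real.exp ((c - γ * t) * L) / ρ s) * ‖h s‖ₑ ≤
      ENNReal.ofReal (L * Real.exp (-(γ * (t - s) * L))) * M := by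
    intro s hs
    have hsT : s ∈ Icc 0 T := ⟨hs.1.le, hs.2.trans ht.2⟩
    have h1 : ‖h s‖ₑ ≤ ENNReal.ofReal L * ‖f s‖ₑ := by
      rw [← ofReal_norm, ← ofReal_norm, ← ENNReal.ofReal_mul hL]
      exact ENNReal.ofReal_le_ofReal (hfh s hsT)
    have h2 : ENNReal.ofReal (Real.exp ((c - γ * s) * L) / ρ s) * ‖f s‖ₑ ≤ M :=
      le_iSup₂_of_le s hsT le_rfl
    have h3 : Real.exp ((c - γ * t) * L) / ρ s =
        Real.exp (-(γ * (t - s) * L)) * (Real.exp ((c - γ * s) * L) / ρ s) := by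
      rw [← mul_div_assoc, ← Real.exp_add]
      congr 2
      ring
    rw [h3, ENNReal.ofReal_mul (Real.exp_pos _).le, ENNReal.ofReal_mul hL]
    calc ENNReal.ofReal (Real.exp (-(γ * (t - s) * L))) *
          ENNReal.ofReal (Real.exp ((c - γ * s) * L) / ρ s) * ‖h s‖ₑ
        ≤ ENNReal.ofReal (Real.exp (-(γ * (t - s) * L))) *
          ENNReal.ofReal (Real.exp ((c - γ * s) * L) / ρ s) * (ENNReal.ofReal L * ‖f s‖ₑ) := by
          gcongr
      _ = ENNReal.ofReal L * ENNReal.ofReal (Real.exp (-(γ * (t - s) * L))) *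
          (ENNReal.ofReal (Real.exp ((c - γ * s) * L) / ρ s) * ‖f s‖ₑ) := by ring
      _ ≤ _ := by gcongr
  calc ∫⁻ s in Ioc 0 t, ENNReal.ofReal (Real.exp ((c - γ * t) * L) / ρ s) * ‖h s‖ₑ
      ≤ ∫⁻ s in Ioc 0 t, ENNReal.ofReal (L * Real.exp (-(γ * (t - s) * L))) * M :=
        setLIntegral_mono' measurableSet_Ioc hpt
    _ = (∫⁻ s in Ioc 0 t, ENNReal.ofReal (L * Real.exp (-(γ * (t - s) * L)))) * M :=
        lintegral_mul_const _ (by fun_prop)
    _ ≤ _ := by
        gcongr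
        exact gain_integral γ L t hγ ht.1

end W06aux

/-- W06: one derivative is gained by the shrinking radius. -/
theorem pr_W06 : W06 := by
  intro Γ E F _ _ _ _ _ _ T c γ ρ f h _ hγ _ hfh
  unfold Src Nrm
  rw [← ENNReal.tsum_mul_left]
  refine ENNReal.tsum_le_tsum fun m => ?_
  refine iSup₂_le fun t ht => ?_
  exact W06aux.mode_bound T c γ (len m) ρ (fun t => f t m) (fun t => h t m) hγ (len_nonneg m)
    (fun t ht => hfh t ht m) t ht

end Pool.Agent.Work.MP_b0497c_an.Unf.W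

end

section

set_option autoImplicit false

/-!
# W07: Duhamel
-/

open scoped ENNReal
open Set MeasureTheory

namespace Pool.Agent.Work.MP_b0497c_an.Unf.W

namespace W07

theorem tsum_conv {Γ : Type} [AddCommGroup Γ] (a b : Γ → ℝ≥0∞) :
    ∑' m, ∑' l, a (m - l) * b l = (∑' k, a k) * ∑' l, b l := by
  rw [ENNReal.tsum_comm]
  have h : ∀ l, ∑' m, a (m - l) * b l = (∑' k, a k) * b l := by
    intro l
    rw [ENNReal.tsum_mul_right]
    congr 1
    exact (Equiv.subRight l).tsum_eq a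
  simp_rw [h]
  rw [ENNReal.tsum_mul_left]

theorem exp_len_le {Γ : Type} [AddCommGroup Γ] [Len Γ] {T c γ : ℝ} (hp : Par T c γ) {t : ℝ}
    (ht : t ∈ Icc 0 T) (m l : Γ) :
    Real.exp ((c - γ * t) * len m) ≤
      Real.exp (c * len (m - l)) * Real.exp ((c - γ * t) * len l) := by
  rw [← Real.exp_add]
  apply Real.exp_le_exp.2
  have h1 : len m ≤ len (m - l) + len l := by
    have := len_add (m - l) l
    rwa [sub_add_cancel] at this
  have h2 : 0 ≤ c - γ * t := by
    have := mul_le_mul_of_nonneg_left ht.2 hp.γ_nonneg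
    linarith [hp.le]
  have h3 : 0 ≤ γ * t := mul_nonneg hp.γ_nonneg ht.1
  have h4 : 0 ≤ len (m - l) := len_nonneg _
  nlinarith [mul_le_mul_of_nonneg_left h1 h2, mul_nonneg h3 h4]

theorem aemeas {E : Type} [NormedAddCommGroup E] {T : ℝ} {ρ : ℝ → ℝ} (hρ : Wt T ρ)
    {f : ℝ → E} (hf : ContinuousOn f (Icc 0 T)) (a : ℝ) {t : ℝ} (ht : t ∈ Icc 0 T) :
    AEMeasurable (fun s => ENNReal.ofReal (a / ρ s) * ‖f s‖ₑ) (volume.restrict (Ioc 0 t)) := by
  have h1 : AEMeasurable (fun s => ENNReal.ofReal (a / ρ s) * ‖f s‖ₑ)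
      (volume.restrict (Icc 0 T)) := by
    have h : ContinuousOn (fun s => a / ρ s) (Icc 0 T) :=
      continuousOn_const.div hρ.cont fun s hs => (hρ.pos s hs).ne'
    exact (h.aemeasurable measurableSet_Icc).ennreal_ofReal.mul
      (hf.aestronglyMeasurable measurableSet_Icc).enorm
  exact h1.mono_measure (Measure.restrict_mono (Ioc_subset_Icc_self.trans
    (Icc_subset_Icc_right ht.2)) le_rfl)

end W07

theorem pr_W07 : W07 := by
  intro Γ E F _ _ _ _ _ _ _ _ T c γ ρ ρ' S g hp hρ hρ' hg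
  set P : Γ → ℝ≥0∞ := fun k => ⨆ l, ⨆ t ∈ Icc 0 T, ⨆ s ∈ Icc 0 t,
    ENNReal.ofReal (ρ' s / ρ t) * ‖S t s (l + k) l‖ₑ with hP
  set a : Γ → ℝ≥0∞ := fun k => ENNReal.ofReal (Real.exp (c * len k)) * P k with ha
  set b : Γ → ℝ≥0∞ := fun m => ⨆ t ∈ Icc 0 T, ∫⁻ s in Ioc 0 t,
    ENNReal.ofReal (Real.exp ((c - γ * t) * len m) / ρ' s) * ‖g s m‖ₑ with hb
  have hmain : PN T c ρ ρ' S * Src T c γ ρ' g = ∑' m, ∑' l, a (m - l) * b l := by
    rw [W07.tsum_conv]
    rfl
  rw [hmain]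
  unfold Nrm
  refine ENNReal.tsum_le_tsum fun m => iSup₂_le fun t ht => ?_
  have hρt := hρ.pos t ht
  -- the integral
  have h1 : ‖∫ s in (0 : ℝ)..t, act (S t s) (g s) m‖ₑ ≤
      ∫⁻ s in Ioc 0 t, ∑' l, P (m - l) * (ENNReal.ofReal (ρ t / ρ' s) * ‖g s l‖ₑ) := by
    rw [intervalIntegral.integral_of_le ht.1]
    refine (enorm_integral_le_lintegral_enorm _).trans ?_
    refine setLIntegral_mono' measurableSet_Ioc fun s hs => ?_
    have hsI : s ∈ Icc 0 t := ⟨hs.1.le, hs.2⟩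
    have hsT : s ∈ Icc 0 T := ⟨hs.1.le, hs.2.trans ht.2⟩
    have hρs := hρ'.pos s hsT
    unfold act
    refine (enorm_tsum_le_tsum_enorm).trans (ENNReal.tsum_le_tsum fun l => ?_)
    refine ((S t s m l).le_opENorm (g s l)).trans ?_
    rw [← mul_assoc]
    refine mul_le_mul' ?_ le_rfl
    have h2 : ENNReal.ofReal (ρ' s / ρ t) * ‖S t s m l‖ₑ ≤ P (m - l) := by
      refine le_trans ?_ (le_iSup (fun l' => ⨆ t ∈ Icc 0 T, ⨆ s ∈ Icc 0 t,
        ENNReal.ofReal (ρ' s / ρ t) * ‖S t s (l' + (m - l)) l'‖ₑ) l)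
      refine le_trans ?_ (le_iSup₂ (f := fun t (_ : t ∈ Icc 0 T) => ⨆ s ∈ Icc 0 t,
        ENNReal.ofReal (ρ' s / ρ t) * ‖S t s (l + (m - l)) l‖ₑ) t ht)
      refine le_trans ?_ (le_iSup₂ (f := fun s (_ : s ∈ Icc 0 t) =>
        ENNReal.ofReal (ρ' s / ρ t) * ‖S t s (l + (m - l)) l‖ₑ) s hsI)
      rw [add_sub_cancel]
    calc ‖S t s m l‖ₑ = (ENNReal.ofReal (ρ' s / ρ t) * ‖S t s m l‖ₑ) *
          ENNReal.ofReal (ρ t / ρ' s) := by
          rw [mul_right_comm, ← ENNReal.ofReal_mul (by positivity)]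
          have : ρ' s / ρ t * (ρ t / ρ' s) = 1 := by field_simp
          rw [this, ENNReal.ofReal_one, one_mul]
      _ ≤ P (m - l) * ENNReal.ofReal (ρ t / ρ' s) := mul_le_mul' h2 le_rfl
  have h3 : ∫⁻ s in Ioc 0 t, ∑' l, P (m - l) * (ENNReal.ofReal (ρ t / ρ' s) * ‖g s l‖ₑ) =
      ∑' l, P (m - l) * ∫⁻ s in Ioc 0 t, ENNReal.ofReal (ρ t / ρ' s) * ‖g s l‖ₑ := by
    rw [lintegral_tsum fun l => (W07.aemeas hρ' (hg l) (ρ t) ht).const_mul _]
    refine tsum_congr fun l => ?_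
    rw [lintegral_const_mul'' _ (W07.aemeas hρ' (hg l) (ρ t) ht)]
  rw [h3] at h1
  calc ENNReal.ofReal (Real.exp ((c - γ * t) * len m) / ρ t) *
        ‖∫ s in (0 : ℝ)..t, act (S t s) (g s) m‖ₑ
      ≤ ENNReal.ofReal (Real.exp ((c - γ * t) * len m) / ρ t) *
        ∑' l, P (m - l) * ∫⁻ s in Ioc 0 t, ENNReal.ofReal (ρ t / ρ' s) * ‖g s l‖ₑ := by
        gcongr
    _ = ∑' l, ENNReal.ofReal (Real.exp ((c - γ * t) * len m) / ρ t) *
        (P (m - l) * ∫⁻ s in Ioc 0 t, ENNReal.ofReal (ρ t / ρ' s) * ‖g s l‖ₑ) := by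
        rw [ENNReal.tsum_mul_left]
    _ ≤ ∑' l, a (m - l) * b l := by
        refine ENNReal.tsum_le_tsum fun l => ?_
        have h4 : ENNReal.ofReal (Real.exp ((c - γ * t) * len m) / ρ t) ≤
            ENNReal.ofReal (Real.exp (c * len (m - l))) *
              ENNReal.ofReal (Real.exp ((c - γ * t) * len l) / ρ t) := by
          rw [← ENNReal.ofReal_mul (Real.exp_nonneg _)]
          apply ENNReal.ofReal_le_ofReal
          rw [mul_div_assoc']
          exact div_le_div_of_nonneg_right (W07.exp_len_le hp ht m l) hρt.le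
        have h5 : ENNReal.ofReal (Real.exp ((c - γ * t) * len l) / ρ t) *
            (∫⁻ s in Ioc 0 t, ENNReal.ofReal (ρ t / ρ' s) * ‖g s l‖ₑ) ≤ b l := by
          rw [← lintegral_const_mul'' _ (W07.aemeas hρ' (hg l) (ρ t) ht)]
          have h6 : ∫⁻ s in Ioc 0 t, ENNReal.ofReal (Real.exp ((c - γ * t) * len l) / ρ t) *
              (ENNReal.ofReal (ρ t / ρ' s) * ‖g s l‖ₑ) = ∫⁻ s in Ioc 0 t,
              ENNReal.ofReal (Real.exp ((c - γ * t) * len l) / ρ' s) * ‖g s l‖ₑ := by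
            refine setLIntegral_congr_fun measurableSet_Ioc fun s hs => ?_
            have hsT : s ∈ Icc 0 T := ⟨hs.1.le, hs.2.trans ht.2⟩
            have hρs := hρ'.pos s hsT
            rw [← mul_assoc, ← ENNReal.ofReal_mul (by positivity)]
            congr 2
            field_simp
          rw [h6]
          exact le_iSup₂ (f := fun t (_ : t ∈ Icc 0 T) => ∫⁻ s in Ioc 0 t,
            ENNReal.ofReal (Real.exp ((c - γ * t) * len l) / ρ' s) * ‖g s l‖ₑ) t ht
        calc ENNReal.ofReal (Real.exp ((c - γ * t) * len m) / ρ t) *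
              (P (m - l) * ∫⁻ s in Ioc 0 t, ENNReal.ofReal (ρ t / ρ' s) * ‖g s l‖ₑ)
            ≤ (ENNReal.ofReal (Real.exp (c * len (m - l))) *
              ENNReal.ofReal (Real.exp ((c - γ * t) * len l) / ρ t)) *
              (P (m - l) * ∫⁻ s in Ioc 0 t, ENNReal.ofReal (ρ t / ρ' s) * ‖g s l‖ₑ) :=
              mul_le_mul' h4 le_rfl
          _ = (ENNReal.ofReal (Real.exp (c * len (m - l))) * P (m - l)) *
              (ENNReal.ofReal (Real.exp ((c - γ * t) * len l) / ρ t) *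
              (∫⁻ s in Ioc 0 t, ENNReal.ofReal (ρ t / ρ' s) * ‖g s l‖ₑ)) := by ring
          _ ≤ a (m - l) * b l := mul_le_mul' le_rfl h5

end Pool.Agent.Work.MP_b0497c_an.Unf.W

end

section

set_option autoImplicit false

open scoped ENNReal
open Set MeasureTheory

namespace Pool.Agent.Work.MP_b0497c_an.Unf.W

theorem pr_W08 : W08 := by
  intro Γ E _ _ _ _ _ T c γ ρ g hP hρ _hg
  unfold Nrm Src
  refine ENNReal.tsum_le_tsum fun m => ?_
  refine iSup₂_mono fun t ht => ?_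
  dsimp only
  rw [intervalIntegral.integral_of_le ht.1]
  calc ENNReal.ofReal (Real.exp ((c - γ * t) * len m) / ρ t) * ‖∫ s in Ioc 0 t, g s m‖ₑ
      ≤ ENNReal.ofReal (Real.exp ((c - γ * t) * len m) / ρ t) * ∫⁻ s in Ioc 0 t, ‖g s m‖ₑ :=
        mul_le_mul_right (enorm_integral_le_lintegral_enorm _) _
    _ = ∫⁻ s in Ioc 0 t,
        ENNReal.ofReal (Real.exp ((c - γ * t) * len m) / ρ t) * ‖g s m‖ₑ :=
        (lintegral_const_mul' _ _ ENNReal.ofReal_ne_top).symm
    _ ≤ _ := by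
        refine setLIntegral_mono' measurableSet_Ioc fun s hs => ?_
        have hs' : s ∈ Icc 0 T := ⟨hs.1.le, hs.2.trans ht.2⟩
        refine mul_le_mul_left ?_ _
        apply ENNReal.ofReal_le_ofReal
        exact div_le_div_of_nonneg_left (Real.exp_pos _).le (hρ.pos s hs') (hρ.mono hs' ht hs.2)

end Pool.Agent.Work.MP_b0497c_an.Unf.W

end

section

set_option autoImplicit false

/-!
# W09: the algebra of kernels
-/

open scoped ENNReal
open Set MeasureTheory

namespace Pool.Agent.Work.MP_b0497c_an.Unf.W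

namespace W09

section

variable {Γ : Type} [AddCommGroup Γ] [Len Γ]
  {E F G : Type} [NormedAddCommGroup E] [NormedSpace ℂ E] [NormedAddCommGroup F] [NormedSpace ℂ F]
  [NormedAddCommGroup G] [NormedSpace ℂ G]

omit [Len Γ] in
theorem entry_le {T : ℝ} (A : ℝ → Γ → Γ → (E →L[ℂ] F)) {t : ℝ}
    (ht : t ∈ Icc 0 T) (m j : Γ) :
    ‖A t m j‖ₑ ≤ ⨆ l, ⨆ t ∈ Icc 0 T, ‖A t (l + (m - j)) l‖ₑ := by
  refine le_trans ?_ (le_iSup (fun l => ⨆ t ∈ Icc 0 T, ‖A t (l + (m - j)) l‖ₑ) j)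
  refine le_trans ?_ (le_iSup₂ (f := fun t (_ : t ∈ Icc 0 T) => ‖A t (j + (m - j)) j‖ₑ) t ht)
  rw [add_sub_cancel]

/-- Submultiplicativity of the convolution of sequences for the weights `exp (c |m|)`. -/
theorem weight_conv {c : ℝ} (hc : 0 ≤ c) (a b : Γ → ℝ≥0∞) :
    (∑' k, ENNReal.ofReal (Real.exp (c * len k)) * ∑' i, a (k - i) * b i) ≤
      (∑' k, ENNReal.ofReal (Real.exp (c * len k)) * a k) *
        ∑' k, ENNReal.ofReal (Real.exp (c * len k)) * b k := by
  have hw : ∀ k i : Γ, ENNReal.ofReal (Real.exp (c * len k)) ≤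
      ENNReal.ofReal (Real.exp (c * len (k - i))) * ENNReal.ofReal (Real.exp (c * len i)) := by
    intro k i
    rw [← ENNReal.ofReal_mul (Real.exp_pos _).le, ← Real.exp_add]
    refine ENNReal.ofReal_le_ofReal (Real.exp_le_exp.2 ?_)
    have h1 : len k ≤ len (k - i) + len i := by
      have h := len_add (k - i) i
      rwa [sub_add_cancel] at h
    nlinarith
  calc (∑' k, ENNReal.ofReal (Real.exp (c * len k)) * ∑' i, a (k - i) * b i)
      = ∑' k, ∑' i, ENNReal.ofReal (Real.exp (c * len k)) * (a (k - i) * b i) := by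
        refine tsum_congr fun k => ?_
        rw [ENNReal.tsum_mul_left]
    _ ≤ ∑' k, ∑' i, (ENNReal.ofReal (Real.exp (c * len (k - i))) * a (k - i)) *
          (ENNReal.ofReal (Real.exp (c * len i)) * b i) := by
        refine ENNReal.tsum_le_tsum fun k => ENNReal.tsum_le_tsum fun i => ?_
        refine (mul_le_mul_left (hw k i) _).trans (le_of_eq ?_)
        ring
    _ = ∑' i, ∑' k, (ENNReal.ofReal (Real.exp (c * len (k - i))) * a (k - i)) *
          (ENNReal.ofReal (Real.exp (c * len i)) * b i) := ENNReal.tsum_comm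
    _ = ∑' i, (∑' k, ENNReal.ofReal (Real.exp (c * len k)) * a k) *
          (ENNReal.ofReal (Real.exp (c * len i)) * b i) := by
        refine tsum_congr fun i => ?_
        rw [ENNReal.tsum_mul_right]
        congr 1
        exact (Equiv.subRight i).tsum_eq
          (fun k => ENNReal.ofReal (Real.exp (c * len k)) * a k)
    _ = _ := by rw [ENNReal.tsum_mul_left]

end

end W09

open W09 in
theorem pr_W09 : W09 := by
  intro Γ E F G _ _ _ _ _ _ _ _ T c hc
  refine ⟨?_, ?_, ?_, ?_, ?_, ?_, ?_⟩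
  · intro A B
    set a : Γ → ℝ≥0∞ := fun k => ⨆ l, ⨆ t ∈ Icc 0 T, ‖A t (l + k) l‖ₑ with ha
    set b : Γ → ℝ≥0∞ := fun k => ⨆ l, ⨆ t ∈ Icc 0 T, ‖B t (l + k) l‖ₑ with hb
    refine le_trans ?_ (weight_conv hc a b)
    unfold KN
    refine ENNReal.tsum_le_tsum fun k => ?_
    refine mul_le_mul_right ?_ _
    refine iSup_le fun l => iSup₂_le fun t ht => ?_
    unfold kcomp
    refine (enorm_tsum_le_tsum_enorm (f := fun j => (A t (l + k) j).comp (B t j l))).trans ?_
    rw [← (Equiv.addLeft l).tsum_eq (fun j => ‖(A t (l + k) j).comp (B t j l)‖ₑ)]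
    refine ENNReal.tsum_le_tsum fun i => ?_
    have h1 : ‖(A t (l + k) (l + i)).comp (B t (l + i) l)‖ₑ ≤
        ‖A t (l + k) (l + i)‖ₑ * ‖B t (l + i) l‖ₑ := by
      rw [← ofReal_norm, ← ofReal_norm, ← ofReal_norm,
        ← ENNReal.ofReal_mul (norm_nonneg _)]
      exact ENNReal.ofReal_le_ofReal (ContinuousLinearMap.opNorm_comp_le _ _)
    refine h1.trans (mul_le_mul' ?_ ?_)
    · refine (entry_le A ht (l + k) (l + i)).trans (le_of_eq ?_)
      have : l + k - (l + i) = k - i := by abel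
      rw [this]
    · refine (entry_le B ht (l + i) l).trans (le_of_eq ?_)
      have : l + i - l = i := by abel
      rw [this]
  · intro A B
    unfold KN
    rw [← ENNReal.tsum_add]
    refine ENNReal.tsum_le_tsum fun k => ?_
    rw [← mul_add]
    refine mul_le_mul_right ?_ _
    refine iSup_le fun l => iSup₂_le fun t ht => ?_
    refine (enorm_add_le (A t (l + k) l) (B t (l + k) l)).trans ?_
    refine add_le_add ?_ ?_
    · refine le_trans ?_ (le_iSup (fun l => ⨆ t ∈ Icc 0 T, ‖A t (l + k) l‖ₑ) l)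
      exact le_iSup₂ (f := fun t (_ : t ∈ Icc 0 T) => ‖A t (l + k) l‖ₑ) t ht
    · refine le_trans ?_ (le_iSup (fun l => ⨆ t ∈ Icc 0 T, ‖B t (l + k) l‖ₑ) l)
      exact le_iSup₂ (f := fun t (_ : t ∈ Icc 0 T) => ‖B t (l + k) l‖ₑ) t ht
  · intro z A
    unfold KN
    rw [← ENNReal.tsum_mul_left]
    refine tsum_congr fun k => ?_
    rw [mul_left_comm (‖z‖ₑ)]
    congr 1
    rw [ENNReal.mul_iSup]
    refine iSup_congr fun l => ?_
    rw [ENNReal.mul_iSup]
    refine iSup_congr fun t => ?_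
    rw [ENNReal.mul_iSup]
    refine iSup_congr fun ht => ?_
    exact enorm_smul z (A t (l + k) l)
  · intro a
    unfold KN Nrm mulK
    refine tsum_congr fun k => ?_
    have h1 : (⨆ l : Γ, ⨆ t ∈ Icc 0 T, ‖a t (l + k - l)‖ₑ) = ⨆ t ∈ Icc 0 T, ‖a t k‖ₑ := by
      have : ∀ l : Γ, (⨆ t ∈ Icc 0 T, ‖a t (l + k - l)‖ₑ) = ⨆ t ∈ Icc 0 T, ‖a t k‖ₑ := by
        intro l
        rw [add_sub_cancel_left]
      simp_rw [this]
      exact iSup_const
    rw [h1, ENNReal.mul_iSup]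
    refine iSup_congr fun t => ?_
    rw [ENNReal.mul_iSup]
    refine iSup_congr fun ht => ?_
    have : (c - 0 * t) * len k = c * len k := by ring
    rw [this, div_one]
  · intro a b hb
    unfold KN
    have h0 : ∀ k : Γ, k ≠ 0 → ENNReal.ofReal (Real.exp (c * len k)) *
        (⨆ l, ⨆ t ∈ Icc 0 T, ‖diagK (a t) (l + k) l‖ₑ) = 0 := by
      intro k hk
      have : (⨆ l, ⨆ t ∈ Icc 0 T, ‖diagK (a t) (l + k) l‖ₑ) = 0 := by
        simp only [ENNReal.iSup_eq_zero]
        intro l t _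
        have h : l + k ≠ l := by
          intro h
          exact hk (by simpa using h)
        simp only [diagK, if_neg h]
        exact enorm_zero (E := E →L[ℂ] F)
      rw [this, mul_zero]
    rw [tsum_eq_single 0 h0, len_zero, mul_zero, Real.exp_zero, ENNReal.ofReal_one, one_mul]
    refine iSup_le fun l => iSup₂_le fun t ht => ?_
    simp only [diagK, add_zero, if_true]
    exact hb t ht l
  · intro c' hc' A
    unfold KN
    refine ENNReal.tsum_le_tsum fun k => ?_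
    refine mul_le_mul_left ?_ _
    refine ENNReal.ofReal_le_ofReal (Real.exp_le_exp.2 ?_)
    exact mul_le_mul_of_nonneg_right hc' (len_nonneg k)
  · intro A t ht
    unfold sK KN
    refine ENNReal.tsum_le_tsum fun k => ?_
    refine mul_le_mul_right ?_ _
    refine iSup_mono fun l => ?_
    exact le_iSup₂ (f := fun t (_ : t ∈ Icc 0 T) => ‖A t (l + k) l‖ₑ) t ht

end Pool.Agent.Work.MP_b0497c_an.Unf.W

end

section

set_option autoImplicit false

/-!
# W12: continuity in time is preserved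
-/

open scoped ENNReal
open Set MeasureTheory

namespace Pool.Agent.Work.MP_b0497c_an.Unf.W

namespace W12

theorem continuousOn_tsum_enorm {ι F : Type} [NormedAddCommGroup F] [CompleteSpace F]
    {s : Set ℝ} {g : ℝ → ι → F} {u : ι → ℝ≥0∞} (hg : ∀ l, ContinuousOn (fun t => g t l) s)
    (hu : ∀ t ∈ s, ∀ l, ‖g t l‖ₑ ≤ u l) (hs : ∑' l, u l ≠ ∞) :
    ContinuousOn (fun t => ∑' l, g t l) s := by
  refine continuousOn_tsum (u := fun l => (u l).toReal) hg (ENNReal.summable_toReal hs) ?_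
  intro l t ht
  have hl : u l ≠ ∞ := ENNReal.ne_top_of_tsum_ne_top hs l
  have h := hu t ht l
  rw [← toReal_enorm]
  exact ENNReal.toReal_mono hl h

section

variable {Γ : Type} [AddCommGroup Γ] [Len Γ]
  {E F G : Type} [NormedAddCommGroup E] [NormedSpace ℂ E] [NormedAddCommGroup F] [NormedSpace ℂ F]

theorem one_le_exp_len {c : ℝ} (hc : 0 ≤ c) (k : Γ) :
    1 ≤ ENNReal.ofReal (Real.exp (c * len k)) := by
  rw [← ENNReal.ofReal_one]
  apply ENNReal.ofReal_le_ofReal
  rw [Real.one_le_exp_iff]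
  exact mul_nonneg hc (len_nonneg k)

theorem kernel_sum_le {T c : ℝ} (hc : 0 ≤ c) (A : ℝ → Γ → Γ → (E →L[ℂ] F)) :
    ∑' k, ⨆ l, ⨆ t ∈ Icc 0 T, ‖A t (l + k) l‖ₑ ≤ KN T c A := by
  unfold KN
  refine ENNReal.tsum_le_tsum fun k => ?_
  exact le_mul_of_one_le_left zero_le (one_le_exp_len hc k)

omit [Len Γ] in
theorem entry_le {T : ℝ} (A : ℝ → Γ → Γ → (E →L[ℂ] F)) {t : ℝ}
    (ht : t ∈ Icc 0 T) (m j : Γ) :
    ‖A t m j‖ₑ ≤ ⨆ l, ⨆ t ∈ Icc 0 T, ‖A t (l + (m - j)) l‖ₑ := by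
  refine le_trans ?_ (le_iSup (fun l => ⨆ t ∈ Icc 0 T, ‖A t (l + (m - j)) l‖ₑ) j)
  refine le_trans ?_ (le_iSup₂ (f := fun t (_ : t ∈ Icc 0 T) => ‖A t (j + (m - j)) j‖ₑ) t ht)
  rw [add_sub_cancel]

theorem entry_le_KN {T c : ℝ} (hc : 0 ≤ c) (A : ℝ → Γ → Γ → (E →L[ℂ] F)) {t : ℝ}
    (ht : t ∈ Icc 0 T) (m j : Γ) : ‖A t m j‖ₑ ≤ KN T c A :=
  (entry_le A ht m j).trans ((ENNReal.le_tsum (f := fun k => ⨆ l, ⨆ t ∈ Icc 0 T,
    ‖A t (l + k) l‖ₑ) (m - j)).trans (kernel_sum_le hc A))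

omit [NormedSpace ℂ E] in
/-- A summable majorant of the modes. -/
theorem mode_le {T c γ : ℝ} {ρ : ℝ → ℝ} (hp : Par T c γ) (hρ : Wt T ρ) (f : ℝ → Γ → E) {t : ℝ}
    (ht : t ∈ Icc 0 T) (l : Γ) : ‖f t l‖ₑ ≤ ENNReal.ofReal (ρ T) * ⨆ t ∈ Icc 0 T,
      ENNReal.ofReal (Real.exp ((c - γ * t) * len l) / ρ t) * ‖f t l‖ₑ := by
  have hT : T ∈ Icc 0 T := ⟨hp.T_pos.le, le_rfl⟩
  have hρt := hρ.pos t ht
  have hρT := hρ.pos T hT
  have h1 : ρ t ≤ ρ T := hρ.mono ht hT ht.2
  have h2 : 1 ≤ Real.exp ((c - γ * t) * len l) := by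
    rw [Real.one_le_exp_iff]
    refine mul_nonneg ?_ (len_nonneg l)
    have := mul_le_mul_of_nonneg_left ht.2 hp.γ_nonneg
    linarith [hp.le]
  have h3 : ‖f t l‖ₑ ≤ ENNReal.ofReal (ρ T) *
      (ENNReal.ofReal (Real.exp ((c - γ * t) * len l) / ρ t) * ‖f t l‖ₑ) := by
    rw [← mul_assoc, ← ENNReal.ofReal_mul hρT.le]
    refine le_mul_of_one_le_left zero_le ?_
    rw [← ENNReal.ofReal_one]
    apply ENNReal.ofReal_le_ofReal
    rw [mul_div_assoc', le_div_iff₀ hρt, one_mul]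
    nlinarith
  refine h3.trans ?_
  gcongr
  exact le_iSup₂ (f := fun t (_ : t ∈ Icc 0 T) =>
    ENNReal.ofReal (Real.exp ((c - γ * t) * len l) / ρ t) * ‖f t l‖ₑ) t ht

omit [NormedSpace ℂ E] in
theorem mode_le_Nrm {T c γ : ℝ} {ρ : ℝ → ℝ} (hp : Par T c γ) (hρ : Wt T ρ) (f : ℝ → Γ → E) {t : ℝ}
    (ht : t ∈ Icc 0 T) (l : Γ) : ‖f t l‖ₑ ≤ ENNReal.ofReal (ρ T) * Nrm T c γ ρ f := by
  refine (mode_le hp hρ f ht l).trans ?_
  gcongr
  exact ENNReal.le_tsum (f := fun l => ⨆ t ∈ Icc 0 T,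
      ENNReal.ofReal (Real.exp ((c - γ * t) * len l) / ρ t) * ‖f t l‖ₑ) l

end

end W12

theorem pr_W12 : W12 := by
  intro Γ E F G _ _ _ _ _ _ _ _ _ _ T c γ ρ ρ' hp hρ hρ'
  have hc : 0 ≤ c := (mul_nonneg hp.γ_nonneg hp.T_pos.le).trans hp.le
  refine ⟨fun A f hA hf hKA hNf => ?_, fun A B hA hB hKA hKB => ?_,
    fun β f g hf hg hNf hNg => ?_⟩
  · intro m
    refine W12.continuousOn_tsum_enorm (g := fun t l => A t m l (f t l))
      (u := fun l => KN T c A * (ENNReal.ofReal (ρ T) * ⨆ t ∈ Icc 0 T,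
        ENNReal.ofReal (Real.exp ((c - γ * t) * len l) / ρ t) * ‖f t l‖ₑ))
      (fun l => (hA m l).clm_apply (hf l)) ?_ ?_
    · intro t ht l
      refine ((A t m l).le_opENorm (f t l)).trans ?_
      exact mul_le_mul' (W12.entry_le_KN hc A ht m l) (W12.mode_le hp hρ f ht l)
    · rw [ENNReal.tsum_mul_left, ENNReal.tsum_mul_left]
      exact ENNReal.mul_ne_top hKA (ENNReal.mul_ne_top ENNReal.ofReal_ne_top hNf)
  · intro m l
    refine W12.continuousOn_tsum_enorm (g := fun t j => (A t m j).comp (B t j l))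
      (u := fun j => KN T c A * ⨆ l', ⨆ t ∈ Icc 0 T, ‖B t (l' + (j - l)) l'‖ₑ)
      (fun j => (hA m j).clm_comp (hB j l)) ?_ ?_
    · intro t ht j
      refine (ContinuousLinearMap.opENorm_comp_le (A t m j) (B t j l)).trans ?_
      exact mul_le_mul' (W12.entry_le_KN hc A ht m j) (W12.entry_le B ht j l)
    · rw [ENNReal.tsum_mul_left]
      refine ENNReal.mul_ne_top hKA ?_
      have h1 : ∑' j, (⨆ l', ⨆ t ∈ Icc 0 T, ‖B t (l' + (j - l)) l'‖ₑ) =
          ∑' k, ⨆ l', ⨆ t ∈ Icc 0 T, ‖B t (l' + k) l'‖ₑ :=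
        (Equiv.subRight l).tsum_eq (fun k => ⨆ l', ⨆ t ∈ Icc 0 T, ‖B t (l' + k) l'‖ₑ)
      rw [h1]
      exact ne_top_of_le_ne_top hKB (W12.kernel_sum_le hc B)
  · intro m
    refine W12.continuousOn_tsum_enorm (g := fun t l => β (f t (m - l)) (g t l))
      (u := fun l => ‖β‖ₑ * (ENNReal.ofReal (ρ T) * Nrm T c γ ρ f) *
        (ENNReal.ofReal (ρ' T) * ⨆ t ∈ Icc 0 T,
          ENNReal.ofReal (Real.exp ((c - γ * t) * len l) / ρ' t) * ‖g t l‖ₑ))
      (fun l => (continuousOn_const.clm_apply (hf (m - l))).clm_apply (hg l)) ?_ ?_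
    · intro t ht l
      refine ((β (f t (m - l))).le_opENorm (g t l)).trans ?_
      refine mul_le_mul' ?_ (W12.mode_le hp hρ' g ht l)
      exact (β.le_opENorm (f t (m - l))).trans
        (mul_le_mul' le_rfl (W12.mode_le_Nrm hp hρ f ht (m - l)))
    · rw [ENNReal.tsum_mul_left, ENNReal.tsum_mul_left]
      exact ENNReal.mul_ne_top (ENNReal.mul_ne_top enorm_ne_top
        (ENNReal.mul_ne_top ENNReal.ofReal_ne_top hNf))
        (ENNReal.mul_ne_top ENNReal.ofReal_ne_top hNg)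

end Pool.Agent.Work.MP_b0497c_an.Unf.W

end

section

set_option autoImplicit false

/-! W18: the time dependent projector. -/

open scoped ENNReal
open Set MeasureTheory Filter Topology

namespace Pool.Agent.Work.MP_b0497c_an.Unf.W

/-- Dominated convergence for series with values in `ℝ≥0∞`. -/
theorem w18_tendsto {α : Type} {X : Type} (F : Filter X) (f : X → α → ℝ≥0∞) (b : α → ℝ≥0∞)
    (hb : ∑' a, b a ≠ ∞) (hf : ∀ᶠ x in F, ∀ a, f x a ≤ b a)
    (h0 : ∀ a, Tendsto (fun x => f x a) F (𝓝 0)) :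
    Tendsto (fun x => ∑' a, f x a) F (𝓝 0) := by
  rw [ENNReal.tendsto_nhds_zero]
  intro ε hε
  have h1 := ENNReal.tendsto_tsum_compl_atTop_zero hb
  rw [ENNReal.tendsto_nhds_zero] at h1
  have hε2 : 0 < ε / 2 := ENNReal.half_pos hε.ne'
  obtain ⟨s, hs⟩ := (h1 (ε / 2) hε2).exists
  have h2 : Tendsto (fun x => ∑ a ∈ s, f x a) F (𝓝 0) := by
    have := tendsto_finsetSum (f := fun a x => f x a) (x := F) s (fun a _ => h0 a)
    simpa using this
  rw [ENNReal.tendsto_nhds_zero] at h2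
  filter_upwards [h2 (ε / 2) hε2, hf] with x hx hfx
  rw [← ENNReal.sum_add_tsum_compl s (f x)]
  calc (∑ a ∈ s, f x a) + ∑' a : ↥(↑s : Set α)ᶜ, f x a
      ≤ ε / 2 + ε / 2 := by
        refine add_le_add hx (le_trans (ENNReal.tsum_le_tsum fun a => hfx a) hs)
    _ = ε := ENNReal.add_halves ε

/-- The time norm of the pointwise adjoint. -/
theorem w18_adj {Γ : Type} [AddCommGroup Γ] [Len Γ] (T c : ℝ) (Fi : ℝ → Γ → Mat) :
    Nrm T c 0 (fun _ => 1) (fun t => adjC (Fi t)) = Nrm T c 0 (fun _ => 1) Fi := by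
  unfold Nrm
  rw [← (Equiv.neg Γ).tsum_eq]
  refine tsum_congr fun m => ?_
  simp only [Equiv.neg_apply, adjC, neg_neg, len_neg]
  refine iSup_congr fun t => iSup_congr fun _ => ?_
  congr 1
  exact (ContinuousLinearMap.adjoint (𝕜 := ℂ) (E := C3) (F := C3)).enorm_map _

theorem w18_eta {c b e : ℝ} (hc : 0 < c) (hb : 1 ≤ b) (he : 1 ≤ e) :
    0 < c / (2 * b ^ 2 * e ^ 2) / 2 ∧ c / (2 * b ^ 2 * e ^ 2) / 2 ≤ c := by
  have h1 : (1 : ℝ) ≤ b ^ 2 := one_le_pow₀ hb
  have h2 : (1 : ℝ) ≤ e ^ 2 := one_le_pow₀ he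
  have h3 : (1 : ℝ) ≤ b ^ 2 * e ^ 2 := by nlinarith
  refine ⟨by positivity, ?_⟩
  rw [div_div, div_le_iff₀ (by positivity)]
  nlinarith

/-- Sums over all modes of functions supported in `Λ` with exponential decay. -/
theorem w18_sum {Γ : Type} [AddCommGroup Γ] [Len Γ] (Λ : AddSubgroup Γ) {x y c : ℝ} (hx : 0 ≤ x)
    (f : Γ → ℝ≥0∞) (h0 : ∀ k, k ∉ Λ → f k = 0)
    (hf : ∀ k, f k ≤ ENNReal.ofReal (x * Real.exp (-y * len k))) :
    ∑' k, ENNReal.ofReal (Real.exp (c * len k)) * f k ≤ ENNReal.ofReal x * eSL Λ (y - c) := by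
  have h1 : ∑' k, ENNReal.ofReal (Real.exp (c * len k)) * f k =
      ∑' k : (Λ : Set Γ), ENNReal.ofReal (Real.exp (c * len (k : Γ))) * f k := by
    refine (tsum_subtype_eq_of_support_subset fun k hk => ?_).symm
    by_contra hk'
    exact hk (by simp only [h0 k hk', mul_zero])
  rw [h1]
  unfold eSL
  rw [← ENNReal.tsum_mul_left]
  refine ENNReal.tsum_le_tsum fun k => ?_
  calc ENNReal.ofReal (Real.exp (c * len (k : Γ))) * f k
      ≤ ENNReal.ofReal (Real.exp (c * len (k : Γ))) *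
        ENNReal.ofReal (x * Real.exp (-y * len (k : Γ))) := by gcongr; exact hf k
    _ = ENNReal.ofReal x * ENNReal.ofReal (Real.exp (-(y - c) * len (k : Γ))) := by
        rw [← ENNReal.ofReal_mul (Real.exp_pos _).le, ← ENNReal.ofReal_mul hx]
        congr 1
        have : Real.exp (-(y - c) * len (k : Γ)) =
            Real.exp (c * len (k : Γ)) * Real.exp (-y * len (k : Γ)) := by
          rw [← Real.exp_add]; congr 1; ring
        rw [this]; ring

theorem pr_W18 (h09 : W09) (h10 : W10) (_h11 : W11) (_h12 : W12) (h16 : W16) (h17 : W17) :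
    W18 := by
  intro Γ _ _ Λ T c b e F Fi ξ hT hF hN hC
  have hD := hF 0 ⟨le_rfl, hT⟩
  obtain ⟨hη, hηc⟩ := w18_eta hD.c_pos hD.b_one hD.e_one
  set η := c / (2 * b ^ 2 * e ^ 2) / 2 with hηdef
  obtain ⟨k1, -, -, k4, -, k6, -⟩ := h09 Γ C3 C3 C3 T η hη.le
  have hb0 : 0 ≤ b := by linarith [hD.b_one]
  have he0 : 0 ≤ e := by linarith [hD.e_one]
  -- norms of the multiplications
  have hFi : KN T η (fun t => mulK (Fi t)) ≤ ENNReal.ofReal e := by
    calc KN T η (fun t => mulK (Fi t)) ≤ KN T c (fun t => mulK (Fi t)) := by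
          obtain ⟨-, -, -, -, -, k6', -⟩ := h09 Γ C3 C3 C3 T c hD.c_pos.le
          exact k6' η hηc _
      _ = Nrm T c 0 (fun _ => 1) Fi := by
          obtain ⟨-, -, -, k4', -, -, -⟩ := h09 Γ C3 C3 C3 T c hD.c_pos.le
          exact k4' Fi
      _ ≤ _ := hN
  have hFa : KN T η (fun t => mulK (adjC (Fi t))) ≤ ENNReal.ofReal e := by
    calc KN T η (fun t => mulK (adjC (Fi t))) ≤ KN T c (fun t => mulK (adjC (Fi t))) := by
          obtain ⟨-, -, -, -, -, k6', -⟩ := h09 Γ C3 C3 C3 T c hD.c_pos.le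
          exact k6' η hηc _
      _ = Nrm T c 0 (fun _ => 1) (fun t => adjC (Fi t)) := by
          obtain ⟨-, -, -, k4', -, -, -⟩ := h09 Γ C3 C3 C3 T c hD.c_pos.le
          exact k4' (fun t => adjC (Fi t))
      _ = Nrm T c 0 (fun _ => 1) Fi := w18_adj T c Fi
      _ ≤ _ := hN
  have hR : KN T η (fun t => RK ξ (Fi t)) ≤ ENNReal.ofReal (2 * b ^ 2) * eSL Λ η := by
    have hη2 : (2 * η) - η = η := by ring
    have h := w18_sum Λ (x := 2 * b ^ 2) (y := 2 * η) (c := η) (by positivity)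
      (fun k => ⨆ l, ⨆ t ∈ Icc 0 T, ‖RK ξ (Fi t) (l + k) l‖ₑ) (fun k hk => by
        simp only [ENNReal.iSup_eq_zero]
        intro l t ht
        have h2 := (h16 Γ Λ c b e (F t) (Fi t) ξ (hF t ht)).2.2.1 (l + k) l
          (by rwa [add_sub_cancel_left])
        rw [h2.1]
        exact enorm_zero (E := Mat)) (fun k => by
        refine iSup_le fun l => iSup₂_le fun t ht => ?_
        have h := (h16 Γ Λ c b e (F t) (Fi t) ξ (hF t ht)).2.1 (l + k) l
        rw [← ofReal_norm]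
        refine ENNReal.ofReal_le_ofReal (h.trans (le_of_eq ?_))
        rw [add_sub_cancel_left]
        congr 3
        rw [hηdef]; ring)
    rw [hη2] at h
    exact h
  refine ⟨?_, ?_⟩
  · calc KN T η (fun t => PiK ξ (Fi t))
        ≤ KN T η (fun t => mulK (adjC (Fi t))) *
            (KN T η (fun t => RK ξ (Fi t)) * KN T η (fun t => mulK (Fi t))) := by
          refine (k1 (fun t => mulK (adjC (Fi t)))
            (fun t => kcomp (RK ξ (Fi t)) (mulK (Fi t)))).trans ?_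
          gcongr
          exact k1 (fun t => RK ξ (Fi t)) (fun t => mulK (Fi t))
      _ ≤ ENNReal.ofReal e * ((ENNReal.ofReal (2 * b ^ 2) * eSL Λ η) * ENNReal.ofReal e) := by
          gcongr
      _ = ENNReal.ofReal (2 * b ^ 2 * e ^ 2) * eSL Λ η := by
          rw [show 2 * b ^ 2 * e ^ 2 = e * ((2 * b ^ 2) * e) by ring,
            ENNReal.ofReal_mul he0, ENNReal.ofReal_mul (p := 2 * b ^ 2) (by positivity)]
          ring
  · intro m l t0 ht0
    -- the distance of the symbols tends to zero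
    have hlim : Tendsto (fun t => sN c (Fi t - Fi t0)) (𝓝[Icc 0 T] t0) (𝓝 0) := by
      unfold sN
      refine w18_tendsto _ _ (fun m => 2 * ⨆ t ∈ Icc 0 T,
        ENNReal.ofReal (Real.exp ((c - 0 * t) * len m) / 1) * ‖Fi t m‖ₑ) ?_ ?_ ?_
      · rw [ENNReal.tsum_mul_left]
        refine ENNReal.mul_ne_top (by simp) (ne_top_of_le_ne_top ENNReal.ofReal_ne_top hN)
      · filter_upwards [self_mem_nhdsWithin] with t ht a
        have h1 : ∀ s ∈ Icc 0 T, ENNReal.ofReal (Real.exp (c * len a)) * ‖Fi s a‖ₑ ≤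
            ⨆ t ∈ Icc 0 T, ENNReal.ofReal (Real.exp ((c - 0 * t) * len a) / 1) * ‖Fi t a‖ₑ := by
          intro s hs
          refine le_trans (le_of_eq ?_) (le_iSup₂ (f := fun t (_ : t ∈ Icc 0 T) =>
            ENNReal.ofReal (Real.exp ((c - 0 * t) * len a) / 1) * ‖Fi t a‖ₑ) s hs)
          simp
        calc ENNReal.ofReal (Real.exp (c * len a)) * ‖(Fi t - Fi t0) a‖ₑ
            ≤ ENNReal.ofReal (Real.exp (c * len a)) * (‖Fi t a‖ₑ + ‖Fi t0 a‖ₑ) := by
              gcongr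
              rw [Pi.sub_apply]
              exact enorm_sub_le
          _ = ENNReal.ofReal (Real.exp (c * len a)) * ‖Fi t a‖ₑ +
                ENNReal.ofReal (Real.exp (c * len a)) * ‖Fi t0 a‖ₑ := mul_add _ _ _
          _ ≤ _ := by
              rw [two_mul]
              exact add_le_add (h1 t ht) (h1 t0 ht0)
      · intro a
        have h2 : Tendsto (fun t => ‖Fi t a - Fi t0 a‖ₑ) (𝓝[Icc 0 T] t0) (𝓝 0) := by
          have h1 := tendsto_iff_edist_tendsto_0.1 (hC a t0 ht0)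
          simpa only [edist_eq_enorm_sub] using h1
        have h3 := ENNReal.Tendsto.const_mul (a := ENNReal.ofReal (Real.exp (c * len a))) h2
          (Or.inr ENNReal.ofReal_ne_top)
        simpa using h3
    have hES : eSL Λ η ≠ ∞ := hD.sum η hη
    have hlim2 : Tendsto (fun t => ENNReal.ofReal (12 * b ^ 4 * e ^ 3) * eSL Λ η ^ 2 *
        sN c (Fi t - Fi t0)) (𝓝[Icc 0 T] t0) (𝓝 0) := by
      have h3 := ENNReal.Tendsto.const_mul (a := ENNReal.ofReal (12 * b ^ 4 * e ^ 3) *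
        eSL Λ η ^ 2) hlim (Or.inr (ENNReal.mul_ne_top ENNReal.ofReal_ne_top
          (ENNReal.pow_ne_top hES)))
      simpa using h3
    rw [ContinuousWithinAt, tendsto_iff_edist_tendsto_0]
    refine tendsto_of_tendsto_of_tendsto_of_le_of_le' tendsto_const_nhds hlim2
      (Eventually.of_forall fun _ => bot_le) ?_
    filter_upwards [self_mem_nhdsWithin] with t ht
    rw [edist_eq_enorm_sub]
    have h1 := h17 Γ Λ c b e (F t) (Fi t) (F t0) (Fi t0) ξ (hF t ht) (hF t0 ht0)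
    obtain ⟨-, -, -, -, -, -, -, k8⟩ := h10 Γ C3 C3 C3 η hη.le
    refine le_trans ?_ ((k8 (PiK ξ (Fi t) - PiK ξ (Fi t0)) m l).trans h1)
    rw [Pi.sub_apply, Pi.sub_apply]
    refine le_mul_of_one_le_left bot_le ?_
    rw [ENNReal.one_le_ofReal]
    exact Real.one_le_exp (mul_nonneg hη.le (len_nonneg _))

end Pool.Agent.Work.MP_b0497c_an.Unf.W

end

section

set_option autoImplicit false

/-!
# W01: operators act on the solution norm
-/

open scoped ENNReal
open Set MeasureTheory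

namespace Pool.Agent.Work.MP_b0497c_an.Unf.W

theorem pr_W01 : W01 := by
  intro Γ E F _ _ _ _ _ _ T c γ ρ A f hP hρ
  have key : ∀ m, (⨆ t ∈ Icc 0 T, ENNReal.ofReal (Real.exp ((c - γ * t) * len m) / ρ t) *
      ‖act (A t) (f t) m‖ₑ) ≤ ∑' l, Conv.kt T c A (m - l) * Conv.nt T c γ ρ f l := by
    intro m
    refine iSup₂_le fun t ht => ?_
    have hx := Conv.c_sub_nonneg hP ht
    have hx' := Conv.c_sub_le hP ht
    have hρt := hρ.pos t ht
    calc ENNReal.ofReal (Real.exp ((c - γ * t) * len m) / ρ t) * ‖act (A t) (f t) m‖ₑ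
        ≤ ENNReal.ofReal (Real.exp ((c - γ * t) * len m) / ρ t) *
            ∑' l, ‖A t m l‖ₑ * ‖f t l‖ₑ := by
          gcongr
          exact Conv.enorm_act _ _ _
      _ = ∑' l, ENNReal.ofReal (Real.exp ((c - γ * t) * len m) / ρ t) *
            (‖A t m l‖ₑ * ‖f t l‖ₑ) := by rw [ENNReal.tsum_mul_left]
      _ ≤ ∑' l, Conv.kt T c A (m - l) * Conv.nt T c γ ρ f l := by
          refine ENNReal.tsum_le_tsum fun l => ?_
          have h1 : Real.exp ((c - γ * t) * len m) / ρ t ≤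
              Real.exp (c * len (m - l)) * (Real.exp ((c - γ * t) * len l) / ρ t) := by
            rw [← mul_div_assoc]
            apply div_le_div_of_nonneg_right _ hρt.le
            exact (Conv.exp_le hx m l).trans (mul_le_mul_of_nonneg_right
              (Conv.exp_mono hx' (m - l)) (Real.exp_nonneg _))
          calc ENNReal.ofReal (Real.exp ((c - γ * t) * len m) / ρ t) * (‖A t m l‖ₑ * ‖f t l‖ₑ)
              ≤ ENNReal.ofReal (Real.exp (c * len (m - l)) *
                  (Real.exp ((c - γ * t) * len l) / ρ t)) * (‖A t m l‖ₑ * ‖f t l‖ₑ) := by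
                gcongr
            _ = (ENNReal.ofReal (Real.exp (c * len (m - l))) * ‖A t m l‖ₑ) *
                (ENNReal.ofReal (Real.exp ((c - γ * t) * len l) / ρ t) * ‖f t l‖ₑ) := by
                rw [ENNReal.ofReal_mul (Real.exp_nonneg _)]
                ring
            _ ≤ Conv.kt T c A (m - l) * Conv.nt T c γ ρ f l :=
                mul_le_mul' (Conv.le_kt A ht m l) (Conv.le_nt f ht l)
  calc Nrm T c γ ρ (fun t => act (A t) (f t))
      ≤ ∑' m, ∑' l, Conv.kt T c A (m - l) * Conv.nt T c γ ρ f l :=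
        ENNReal.tsum_le_tsum key
    _ = KN T c A * Nrm T c γ ρ f := Conv.tsum_conv _ _

end Pool.Agent.Work.MP_b0497c_an.Unf.W

end

section

set_option autoImplicit false

/-!
# W02: products in the solution norm
-/

open scoped ENNReal
open Set MeasureTheory

namespace Pool.Agent.Work.MP_b0497c_an.Unf.W

theorem pr_W02 : W02 := by
  intro Γ E F G _ _ _ _ _ _ _ _ T c γ ρ ρ' β f g hP hρ hρ'
  have key : ∀ m, (⨆ t ∈ Icc 0 T, ENNReal.ofReal (Real.exp ((c - γ * t) * len m) /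
      (ρ t * ρ' t)) * ‖conv β (f t) (g t) m‖ₑ) ≤
      ∑' l, (‖β‖ₑ * Conv.nt T c γ ρ f (m - l)) * Conv.nt T c γ ρ' g l := by
    intro m
    refine iSup₂_le fun t ht => ?_
    have hx := Conv.c_sub_nonneg hP ht
    have hρt := hρ.pos t ht
    have hρt' := hρ'.pos t ht
    calc ENNReal.ofReal (Real.exp ((c - γ * t) * len m) / (ρ t * ρ' t)) *
          ‖conv β (f t) (g t) m‖ₑ
        ≤ ENNReal.ofReal (Real.exp ((c - γ * t) * len m) / (ρ t * ρ' t)) *
            ∑' l, ‖β‖ₑ * ‖f t (m - l)‖ₑ * ‖g t l‖ₑ := by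
          gcongr
          exact Conv.enorm_conv _ _ _ _
      _ = ∑' l, ENNReal.ofReal (Real.exp ((c - γ * t) * len m) / (ρ t * ρ' t)) *
            (‖β‖ₑ * ‖f t (m - l)‖ₑ * ‖g t l‖ₑ) := by rw [ENNReal.tsum_mul_left]
      _ ≤ ∑' l, (‖β‖ₑ * Conv.nt T c γ ρ f (m - l)) * Conv.nt T c γ ρ' g l := by
          refine ENNReal.tsum_le_tsum fun l => ?_
          have h1 : Real.exp ((c - γ * t) * len m) / (ρ t * ρ' t) ≤
              (Real.exp ((c - γ * t) * len (m - l)) / ρ t) *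
                (Real.exp ((c - γ * t) * len l) / ρ' t) := by
            rw [div_mul_div_comm]
            exact div_le_div_of_nonneg_right (Conv.exp_le hx m l) (by positivity)
          calc ENNReal.ofReal (Real.exp ((c - γ * t) * len m) / (ρ t * ρ' t)) *
                (‖β‖ₑ * ‖f t (m - l)‖ₑ * ‖g t l‖ₑ)
              ≤ ENNReal.ofReal ((Real.exp ((c - γ * t) * len (m - l)) / ρ t) *
                  (Real.exp ((c - γ * t) * len l) / ρ' t)) *
                  (‖β‖ₑ * ‖f t (m - l)‖ₑ * ‖g t l‖ₑ) := by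
                gcongr
            _ = (‖β‖ₑ * (ENNReal.ofReal (Real.exp ((c - γ * t) * len (m - l)) / ρ t) *
                  ‖f t (m - l)‖ₑ)) *
                (ENNReal.ofReal (Real.exp ((c - γ * t) * len l) / ρ' t) * ‖g t l‖ₑ) := by
                rw [ENNReal.ofReal_mul (by positivity)]
                ring
            _ ≤ (‖β‖ₑ * Conv.nt T c γ ρ f (m - l)) * Conv.nt T c γ ρ' g l :=
                mul_le_mul' (mul_le_mul' le_rfl (Conv.le_nt f ht (m - l))) (Conv.le_nt g ht l)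
  calc Nrm T c γ (fun t => ρ t * ρ' t) (fun t => conv β (f t) (g t))
      ≤ ∑' m, ∑' l, (‖β‖ₑ * Conv.nt T c γ ρ f (m - l)) * Conv.nt T c γ ρ' g l :=
        ENNReal.tsum_le_tsum key
    _ = (∑' k, ‖β‖ₑ * Conv.nt T c γ ρ f k) * ∑' l, Conv.nt T c γ ρ' g l :=
        Conv.tsum_conv (fun k => ‖β‖ₑ * Conv.nt T c γ ρ f k) _
    _ = ‖β‖ₑ * Nrm T c γ ρ f * Nrm T c γ ρ' g := by
        rw [ENNReal.tsum_mul_left]
        rfl

end Pool.Agent.Work.MP_b0497c_an.Unf.W

end

section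

set_option autoImplicit false

/-!
# W03: operators act on the source norm
-/

open scoped ENNReal
open Set MeasureTheory

namespace Pool.Agent.Work.MP_b0497c_an.Unf.W

theorem pr_W03 : W03 := by
  intro Γ E F _ _ _ _ _ _ _ T c γ ρ A g hP hρ hg
  have key : ∀ m, (⨆ t ∈ Icc 0 T, ∫⁻ s in Ioc 0 t,
      ENNReal.ofReal (Real.exp ((c - γ * t) * len m) / ρ s) * ‖act (A s) (g s) m‖ₑ) ≤
      ∑' l, Conv.kt T c A (m - l) * Conv.st T c γ ρ g l := by
    intro m
    refine iSup₂_le fun t ht => ?_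
    have hx := Conv.c_sub_nonneg hP ht
    have hx' := Conv.c_sub_le hP ht
    calc ∫⁻ s in Ioc 0 t,
          ENNReal.ofReal (Real.exp ((c - γ * t) * len m) / ρ s) * ‖act (A s) (g s) m‖ₑ
        ≤ ∫⁻ s in Ioc 0 t, ∑' l, Conv.kt T c A (m - l) *
            (ENNReal.ofReal (Real.exp ((c - γ * t) * len l) / ρ s) * ‖g s l‖ₑ) := by
          refine setLIntegral_mono' measurableSet_Ioc fun s hs => ?_
          have hs' := Conv.mem_Icc ht hs
          have hρs := hρ.pos s hs'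
          calc ENNReal.ofReal (Real.exp ((c - γ * t) * len m) / ρ s) * ‖act (A s) (g s) m‖ₑ
              ≤ ENNReal.ofReal (Real.exp ((c - γ * t) * len m) / ρ s) *
                  ∑' l, ‖A s m l‖ₑ * ‖g s l‖ₑ := by
                gcongr
                exact Conv.enorm_act _ _ _
            _ = ∑' l, ENNReal.ofReal (Real.exp ((c - γ * t) * len m) / ρ s) *
                  (‖A s m l‖ₑ * ‖g s l‖ₑ) := by rw [ENNReal.tsum_mul_left]
            _ ≤ _ := by
                refine ENNReal.tsum_le_tsum fun l => ?_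
                have h1 : Real.exp ((c - γ * t) * len m) / ρ s ≤
                    Real.exp (c * len (m - l)) * (Real.exp ((c - γ * t) * len l) / ρ s) := by
                  rw [← mul_div_assoc]
                  apply div_le_div_of_nonneg_right _ hρs.le
                  exact (Conv.exp_le hx m l).trans (mul_le_mul_of_nonneg_right
                    (Conv.exp_mono hx' (m - l)) (Real.exp_nonneg _))
                calc ENNReal.ofReal (Real.exp ((c - γ * t) * len m) / ρ s) *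
                      (‖A s m l‖ₑ * ‖g s l‖ₑ)
                    ≤ ENNReal.ofReal (Real.exp (c * len (m - l)) *
                        (Real.exp ((c - γ * t) * len l) / ρ s)) * (‖A s m l‖ₑ * ‖g s l‖ₑ) := by
                      gcongr
                  _ = (ENNReal.ofReal (Real.exp (c * len (m - l))) * ‖A s m l‖ₑ) *
                      (ENNReal.ofReal (Real.exp ((c - γ * t) * len l) / ρ s) * ‖g s l‖ₑ) := by
                      rw [ENNReal.ofReal_mul (Real.exp_nonneg _)]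
                      ring
                  _ ≤ Conv.kt T c A (m - l) *
                      (ENNReal.ofReal (Real.exp ((c - γ * t) * len l) / ρ s) * ‖g s l‖ₑ) :=
                      mul_le_mul' (Conv.le_kt A hs' m l) le_rfl
      _ = ∑' l, ∫⁻ s in Ioc 0 t, Conv.kt T c A (m - l) *
            (ENNReal.ofReal (Real.exp ((c - γ * t) * len l) / ρ s) * ‖g s l‖ₑ) := by
          rw [lintegral_tsum]
          intro l
          exact (Conv.aem hρ hg ht _ l).const_mul _
      _ ≤ ∑' l, Conv.kt T c A (m - l) * Conv.st T c γ ρ g l := by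
          refine ENNReal.tsum_le_tsum fun l => ?_
          rw [lintegral_const_mul'' _ (Conv.aem hρ hg ht _ l)]
          exact mul_le_mul' le_rfl (Conv.le_st g ht l)
  calc Src T c γ ρ (fun t => act (A t) (g t))
      ≤ ∑' m, ∑' l, Conv.kt T c A (m - l) * Conv.st T c γ ρ g l :=
        ENNReal.tsum_le_tsum key
    _ = KN T c A * Src T c γ ρ g := Conv.tsum_conv _ _

end Pool.Agent.Work.MP_b0497c_an.Unf.W

end
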