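import Pool.Agent.Work.MP_b0497c_an.Unf.WStmts
import Pool.Agent.Work.MP_b0497c_an.Unf.SStmts2

/-! Bundle of small proof modules (one section per former module). -/

section

set_option autoImplicit false

/-!
# W11: algebraic identities for kernels of finite norm
-/

open scoped ENNReal
open Set MeasureTheory

namespace Pool.Agent.Work.MP_b0497c_an.Unf.W

section

variable {Γ : Type} [AddCommGroup Γ] [Len Γ]
  {E F G H : Type} [NormedAddCommGroup E] [NormedSpace ℂ E] [NormedAddCommGroup F]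
  [NormedSpace ℂ F] [NormedAddCommGroup G] [NormedSpace ℂ G] [NormedAddCommGroup H]
  [NormedSpace ℂ H]

theorem sK_zero (A : Γ → Γ → (E →L[ℂ] F)) : sK 0 A = ∑' k, ⨆ l, ‖A (l + k) l‖ₑ := by
  simp [sK]

omit [NormedSpace ℂ E] in
theorem sN_zero (f : Γ → E) : sN 0 f = ∑' m, ‖f m‖ₑ := by
  simp [sN]

theorem row_le (A : Γ → Γ → (E →L[ℂ] F)) (m : Γ) : ∑' l, ‖A m l‖ₑ ≤ sK 0 A := by
  rw [sK_zero, ← (Equiv.subLeft m).tsum_eq]
  refine ENNReal.tsum_le_tsum fun k => ?_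
  refine le_trans (le_of_eq ?_) (le_iSup (fun l => ‖A (l + k) l‖ₑ) (m - k))
  simp [Equiv.subLeft]

theorem col_le (A : Γ → Γ → (E →L[ℂ] F)) (l : Γ) : ∑' m, ‖A m l‖ₑ ≤ sK 0 A := by
  rw [sK_zero, ← (Equiv.addLeft l).tsum_eq]
  refine ENNReal.tsum_le_tsum fun k => ?_
  exact le_iSup (fun l => ‖A (l + k) l‖ₑ) l

theorem entry_le (A : Γ → Γ → (E →L[ℂ] F)) (m l : Γ) : ‖A m l‖ₑ ≤ sK 0 A :=
  (ENNReal.le_tsum (f := fun l => ‖A m l‖ₑ) l).trans (row_le A m)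

theorem apply_enorm_le (T : E →L[ℂ] F) (x : E) : ‖T x‖ₑ ≤ ‖T‖ₑ * ‖x‖ₑ := T.le_opENorm x

theorem comp_enorm_le (T : F →L[ℂ] G) (S : E →L[ℂ] F) : ‖T.comp S‖ₑ ≤ ‖T‖ₑ * ‖S‖ₑ := by
  rw [← ofReal_norm, ← ofReal_norm, ← ofReal_norm, ← ENNReal.ofReal_mul (norm_nonneg _)]
  exact ENNReal.ofReal_le_ofReal (T.opNorm_comp_le S)

theorem summable_comp [CompleteSpace G] {A : Γ → Γ → (F →L[ℂ] G)} {B : Γ → Γ → (E →L[ℂ] F)}
    (hA : sK 0 A ≠ ∞) (hB : sK 0 B ≠ ∞) (m l : Γ) : Summable fun j => (A m j).comp (B j l) := by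
  refine Summable.of_enorm (ne_top_of_le_ne_top (ENNReal.mul_ne_top hA hB) ?_)
  calc ∑' j, ‖(A m j).comp (B j l)‖ₑ ≤ ∑' j, ‖A m j‖ₑ * sK 0 B :=
        ENNReal.tsum_le_tsum fun j => (comp_enorm_le _ _).trans
          (mul_le_mul' le_rfl (entry_le B j l))
    _ = (∑' j, ‖A m j‖ₑ) * sK 0 B := ENNReal.tsum_mul_right
    _ ≤ _ := mul_le_mul' (row_le A m) le_rfl

theorem summable_act [CompleteSpace F] {A : Γ → Γ → (E →L[ℂ] F)} {f : Γ → E} {M : ℝ≥0∞}
    (hA : sK 0 A ≠ ∞) (hM : M ≠ ∞) (hf : ∀ m, ‖f m‖ₑ ≤ M) (m : Γ) :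
    Summable fun l => A m l (f l) := by
  refine Summable.of_enorm (ne_top_of_le_ne_top (ENNReal.mul_ne_top hA hM) ?_)
  calc ∑' l, ‖A m l (f l)‖ₑ ≤ ∑' l, ‖A m l‖ₑ * M :=
        ENNReal.tsum_le_tsum fun l => (apply_enorm_le _ _).trans (mul_le_mul' le_rfl (hf l))
    _ = (∑' l, ‖A m l‖ₑ) * M := ENNReal.tsum_mul_right
    _ ≤ _ := mul_le_mul' (row_le A m) le_rfl

omit [NormedSpace ℂ E] in
theorem sN_bdd {f : Γ → E} (m : Γ) : ‖f m‖ₑ ≤ sN 0 f := by
  rw [sN_zero]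
  exact ENNReal.le_tsum m

theorem act_kcomp [CompleteSpace F] [CompleteSpace G] {A : Γ → Γ → (F →L[ℂ] G)}
    {B : Γ → Γ → (E →L[ℂ] F)} {f : Γ → E} {M : ℝ≥0∞}
    (hA : sK 0 A ≠ ∞) (hB : sK 0 B ≠ ∞) (hM : M ≠ ∞) (hf : ∀ m, ‖f m‖ₑ ≤ M) :
    act (kcomp A B) f = act A (act B f) := by
  funext m
  have h1 : ∀ l, (∑' j, (A m j).comp (B j l)) (f l) = ∑' j, A m j (B j l (f l)) := by
    intro l
    have := (ContinuousLinearMap.apply ℂ G (f l)).map_tsum (summable_comp hA hB m l)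
    simpa using this
  have h2 : ∀ j, A m j (∑' l, B j l (f l)) = ∑' l, A m j (B j l (f l)) := fun j =>
    (A m j).map_tsum (summable_act hB hM hf j)
  show ∑' l, (∑' j, (A m j).comp (B j l)) (f l) = ∑' j, A m j (∑' l, B j l (f l))
  simp_rw [h1, h2]
  refine (Summable.tsum_comm (f := fun l j => A m j (B j l (f l))) ?_).symm
  refine Summable.of_enorm (ne_top_of_le_ne_top
    (ENNReal.mul_ne_top (ENNReal.mul_ne_top hA hB) hM) ?_)
  rw [ENNReal.tsum_prod', ENNReal.tsum_comm]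
  calc ∑' (j) (l), ‖A m j (B j l (f l))‖ₑ ≤ ∑' (j) (l), ‖A m j‖ₑ * (‖B j l‖ₑ * M) :=
        ENNReal.tsum_le_tsum fun j => ENNReal.tsum_le_tsum fun l =>
          (apply_enorm_le _ _).trans (mul_le_mul' le_rfl
            ((apply_enorm_le _ _).trans (mul_le_mul' le_rfl (hf l))))
    _ = ∑' j, ‖A m j‖ₑ * ((∑' l, ‖B j l‖ₑ) * M) := by
        simp_rw [ENNReal.tsum_mul_left, ENNReal.tsum_mul_right]
    _ ≤ ∑' j, ‖A m j‖ₑ * (sK 0 B * M) :=
        ENNReal.tsum_le_tsum fun j => mul_le_mul' le_rfl (mul_le_mul' (row_le B j) le_rfl)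
    _ = (∑' j, ‖A m j‖ₑ) * (sK 0 B * M) := ENNReal.tsum_mul_right
    _ ≤ sK 0 A * (sK 0 B * M) := mul_le_mul' (row_le A m) le_rfl
    _ = sK 0 A * sK 0 B * M := by ring

theorem kcomp_assoc' [CompleteSpace G] [CompleteSpace H] {A : Γ → Γ → (G →L[ℂ] H)}
    {B : Γ → Γ → (F →L[ℂ] G)} {C : Γ → Γ → (E →L[ℂ] F)}
    (hA : sK 0 A ≠ ∞) (hB : sK 0 B ≠ ∞) (hC : sK 0 C ≠ ∞) :
    kcomp (kcomp A B) C = kcomp A (kcomp B C) := by
  funext m l
  have h1 : ∀ j, (∑' i, (A m i).comp (B i j)).comp (C j l) =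
      ∑' i, (A m i).comp ((B i j).comp (C j l)) := by
    intro j
    have := ((ContinuousLinearMap.compL ℂ E F H).flip (C j l)).map_tsum (summable_comp hA hB m j)
    simpa [ContinuousLinearMap.comp_assoc] using this
  have h2 : ∀ i, (A m i).comp (∑' j, (B i j).comp (C j l)) =
      ∑' j, (A m i).comp ((B i j).comp (C j l)) := by
    intro i
    have := ((ContinuousLinearMap.compL ℂ E G H) (A m i)).map_tsum (summable_comp hB hC i l)
    simpa using this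
  show ∑' j, (∑' i, (A m i).comp (B i j)).comp (C j l) =
    ∑' i, (A m i).comp (∑' j, (B i j).comp (C j l))
  simp_rw [h1, h2]
  refine (Summable.tsum_comm (f := fun j i => (A m i).comp ((B i j).comp (C j l))) ?_).symm
  refine Summable.of_enorm (ne_top_of_le_ne_top
    (ENNReal.mul_ne_top (ENNReal.mul_ne_top hA hB) hC) ?_)
  rw [ENNReal.tsum_prod', ENNReal.tsum_comm]
  calc ∑' (i) (j), ‖(A m i).comp ((B i j).comp (C j l))‖ₑ ≤
        ∑' (i) (j), ‖A m i‖ₑ * (‖B i j‖ₑ * sK 0 C) :=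
        ENNReal.tsum_le_tsum fun i => ENNReal.tsum_le_tsum fun j =>
          (comp_enorm_le _ _).trans (mul_le_mul' le_rfl
            ((comp_enorm_le _ _).trans (mul_le_mul' le_rfl (entry_le C j l))))
    _ = ∑' i, ‖A m i‖ₑ * ((∑' j, ‖B i j‖ₑ) * sK 0 C) := by
        simp_rw [ENNReal.tsum_mul_left, ENNReal.tsum_mul_right]
    _ ≤ ∑' i, ‖A m i‖ₑ * (sK 0 B * sK 0 C) :=
        ENNReal.tsum_le_tsum fun i => mul_le_mul' le_rfl (mul_le_mul' (row_le B i) le_rfl)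
    _ = (∑' i, ‖A m i‖ₑ) * (sK 0 B * sK 0 C) := ENNReal.tsum_mul_right
    _ ≤ sK 0 A * (sK 0 B * sK 0 C) := mul_le_mul' (row_le A m) le_rfl
    _ = sK 0 A * sK 0 B * sK 0 C := by ring

omit [AddCommGroup Γ] [Len Γ] in
theorem kcomp_diag (A : Γ → Γ → (E →L[ℂ] F)) (p : Γ → (E →L[ℂ] E)) (m l : Γ) :
    kcomp A (diagK p) m l = (A m l).comp (p l) := by
  classical
  show ∑' j, (A m j).comp (diagK p j l) = _
  rw [tsum_eq_single l]
  · simp [diagK]
  · intro j hj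
    simp [diagK, hj]

omit [AddCommGroup Γ] [Len Γ] in
theorem diag_kcomp (A : Γ → Γ → (E →L[ℂ] F)) (p : Γ → (F →L[ℂ] G)) (m l : Γ) :
    kcomp (diagK p) A m l = (p m).comp (A m l) := by
  classical
  show ∑' j, (diagK p m j).comp (A j l) = _
  rw [tsum_eq_single m]
  · simp [diagK]
  · intro j hj
    simp [diagK, Ne.symm hj]

omit [AddCommGroup Γ] [Len Γ] in
theorem act_diagK (a : Γ → (E →L[ℂ] F)) (f : Γ → E) (m : Γ) : act (diagK a) f m = a m (f m) := by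
  classical
  show ∑' l, (diagK a m l) (f l) = _
  rw [tsum_eq_single m]
  · simp [diagK]
  · intro j hj
    simp [diagK, Ne.symm hj]

end

theorem pr_W11 : W11 := by
  intro Γ E F G H _ _ _ _ _ _ _ _ _ _ _ _ _
  refine ⟨fun A B C hA hB hC => kcomp_assoc' hA hB hC, fun A B f hA hB hf =>
    act_kcomp hA hB hf fun m => sN_bdd m, ?_, ?_, ?_, ?_⟩
  · intro A A' B B' hA hA' hB hB'
    constructor
    · funext m l
      show ∑' j, ((A m j + A' m j)).comp (B j l) =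
        ∑' j, (A m j).comp (B j l) + ∑' j, (A' m j).comp (B j l)
      rw [← (summable_comp hA hB m l).tsum_add (summable_comp hA' hB m l)]
      simp_rw [ContinuousLinearMap.add_comp]
    · funext m l
      show ∑' j, (A m j).comp (B j l + B' j l) =
        ∑' j, (A m j).comp (B j l) + ∑' j, (A m j).comp (B' j l)
      rw [← (summable_comp hA hB m l).tsum_add (summable_comp hA hB' m l)]
      simp_rw [ContinuousLinearMap.comp_add]
  · intro A A' f f' hA hA' hf hf'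
    constructor
    · funext m
      show ∑' l, (A m l + A' m l) (f l) = ∑' l, A m l (f l) + ∑' l, A' m l (f l)
      rw [← (summable_act hA hf (fun m => sN_bdd m) m).tsum_add
        (summable_act hA' hf (fun m => sN_bdd m) m)]
      simp_rw [add_apply]
    · funext m
      show ∑' l, A m l (f l + f' l) = ∑' l, A m l (f l) + ∑' l, A m l (f' l)
      rw [← (summable_act hA hf (fun m => sN_bdd m) m).tsum_add
        (summable_act hA hf' (fun m => sN_bdd m) m)]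
      simp_rw [map_add]
  · intro A
    constructor
    · funext m l
      rw [kcomp_diag]
      exact ContinuousLinearMap.comp_id _
    · funext m l
      rw [diag_kcomp]
      exact ContinuousLinearMap.id_comp _
  · exact fun a f m => act_diagK a f m

end Pool.Agent.Work.MP_b0497c_an.Unf.W

end

section

set_option autoImplicit false
set_option maxSynthPendingDepth 3
set_option linter.unusedSectionVars false

/-!
# S11 (P4): `(Π_n - p_{n+1}) ∂_{n+1} h` costs one derivative in total (helper17)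
-/

open scoped ENNReal
open Set MeasureTheory

namespace Pool.Agent.Work.MP_b0497c_an.Unf.S

open W

namespace S11aux

section general

variable {E F G : Type} [NormedAddCommGroup E] [NormedSpace ℂ E] [NormedAddCommGroup F]
  [NormedSpace ℂ F] [NormedAddCommGroup G] [NormedSpace ℂ G]

theorem wt_one (T : ℝ) : Wt T Dat.one' :=
  ⟨fun _ _ => by simp [Dat.one'], continuousOn_const, fun _ _ _ _ _ => le_rfl⟩

theorem nrm_mono {T c γ : ℝ} {ρ : ℝ → ℝ} {K : ℝ≥0∞} {f : ℝ → Md → E} {g : ℝ → Md → F}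
    (h : ∀ t ∈ Icc 0 T, ∀ q, ‖f t q‖ₑ ≤ K * ‖g t q‖ₑ) :
    Nrm T c γ ρ f ≤ K * Nrm T c γ ρ g := by
  unfold Nrm
  rw [← ENNReal.tsum_mul_left]
  refine ENNReal.tsum_le_tsum fun m => iSup₂_le fun t ht => ?_
  refine le_trans ?_ (mul_le_mul_right (le_iSup₂ (f := fun t _ =>
    ENNReal.ofReal (Real.exp ((c - γ * t) * len m) / ρ t) * ‖g t m‖ₑ) t ht) K)
  calc _ ≤ ENNReal.ofReal (Real.exp ((c - γ * t) * len m) / ρ t) * (K * ‖g t m‖ₑ) :=
        mul_le_mul_right (h t ht m) _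
    _ = _ := by ring

theorem nrm_congr {T c γ : ℝ} {ρ : ℝ → ℝ} {f g : ℝ → Md → E}
    (h : ∀ t ∈ Icc 0 T, f t = g t) : Nrm T c γ ρ f = Nrm T c γ ρ g := by
  unfold Nrm
  refine tsum_congr fun m => ?_
  refine iSup_congr fun t => iSup_congr fun ht => ?_
  rw [h t ht]

theorem src_congr {T c γ : ℝ} {ρ : ℝ → ℝ} {f g : ℝ → Md → E}
    (h : ∀ t ∈ Icc 0 T, f t = g t) : Src T c γ ρ f = Src T c γ ρ g := by
  unfold Src
  refine tsum_congr fun m => ?_
  refine iSup_congr fun t => iSup_congr fun ht => ?_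
  refine setLIntegral_congr_fun measurableSet_Ioc fun s hs => ?_
  rw [h s ⟨hs.1.le, hs.2.trans ht.2⟩]

theorem cm_congr {T : ℝ} {f g : ℝ → Md → E} (h : ∀ t ∈ Icc 0 T, f t = g t) (hg : CM T g) :
    CM T f := fun m => (hg m).congr fun t ht => by rw [h t ht]

theorem sN_le {T c : ℝ} (f : ℝ → Md → E) {t : ℝ} (ht : t ∈ Icc 0 T) :
    sN c (f t) ≤ Nrm T c 0 Dat.one' f := by
  unfold sN Nrm
  refine ENNReal.tsum_le_tsum fun m => ?_
  refine le_trans (le_of_eq ?_) (le_iSup₂ (f := fun t _ =>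
    ENNReal.ofReal (Real.exp ((c - 0 * t) * len m) / Dat.one' t) * ‖f t m‖ₑ) t ht)
  simp [Dat.one']

theorem sN_le' {T c γ : ℝ} {σ : ℝ → ℝ} (hσ : Wt T σ) (f : ℝ → Md → E) {t : ℝ}
    (ht : t ∈ Icc 0 T) : sN (c - γ * t) (f t) ≤ ENNReal.ofReal (σ t) * Nrm T c γ σ f := by
  unfold sN Nrm
  rw [← ENNReal.tsum_mul_left]
  refine ENNReal.tsum_le_tsum fun m => ?_
  refine le_trans (le_of_eq ?_) (mul_le_mul_right (le_iSup₂ (f := fun t _ =>
    ENNReal.ofReal (Real.exp ((c - γ * t) * len m) / σ t) * ‖f t m‖ₑ) t ht) _)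
  rw [← mul_assoc, ← ENNReal.ofReal_mul (hσ.pos t ht).le, mul_div_cancel₀ _ (hσ.pos t ht).ne']

theorem nrm_radius {T c c' γ : ℝ} {ρ : ℝ → ℝ} (hρ : Wt T ρ) (hc : c' ≤ c) (f : ℝ → Md → E) :
    Nrm T c' γ ρ f ≤ Nrm T c γ ρ f := by
  unfold Nrm
  refine ENNReal.tsum_le_tsum fun m => iSup₂_mono fun t ht => ?_
  refine mul_le_mul_left (ENNReal.ofReal_le_ofReal ?_) _
  refine div_le_div_of_nonneg_right (Real.exp_le_exp.2 ?_) (hρ.pos t ht).le
  exact mul_le_mul_of_nonneg_right (by linarith) (len_nonneg m)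

/-- one derivative costs a quarter of the radius -/
theorem nrm_deriv {T c γ : ℝ} {ρ : ℝ → ℝ} (hρ : Wt T ρ) (hc : 0 < c) (f : ℝ → Md → E)
    (g : ℝ → Md → F) (h : ∀ t ∈ Icc 0 T, ∀ q, ‖g t q‖ ≤ len q * ‖f t q‖) :
    Nrm T (3 * c / 4) γ ρ g ≤ ENNReal.ofReal (4 / c) * Nrm T c γ ρ f := by
  unfold Nrm
  rw [← ENNReal.tsum_mul_left]
  refine ENNReal.tsum_le_tsum fun m => iSup₂_le fun t ht => ?_
  refine le_trans ?_ (mul_le_mul_right (le_iSup₂ (f := fun t _ =>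
    ENNReal.ofReal (Real.exp ((c - γ * t) * len m) / ρ t) * ‖f t m‖ₑ) t ht) _)
  have hr := hρ.pos t ht
  have hl := len_nonneg m
  rw [← ofReal_norm, ← ofReal_norm,
    ← ENNReal.ofReal_mul (div_nonneg (Real.exp_pos _).le hr.le),
    ← ENNReal.ofReal_mul (div_nonneg (Real.exp_pos _).le hr.le),
    ← ENNReal.ofReal_mul (by positivity)]
  refine ENNReal.ofReal_le_ofReal ?_
  have h1 : len m ≤ 4 / c * Real.exp (c / 4 * len m) := by
    have h2 := Real.add_one_le_exp (c / 4 * len m)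
    rw [div_mul_eq_mul_div, le_div_iff₀ hc]
    nlinarith
  have h3 : Real.exp ((c - γ * t) * len m) =
      Real.exp ((3 * c / 4 - γ * t) * len m) * Real.exp (c / 4 * len m) := by
    rw [← Real.exp_add]
    congr 1
    ring
  have h4 : Real.exp ((3 * c / 4 - γ * t) * len m) / ρ t * ‖g t m‖ ≤
      Real.exp ((3 * c / 4 - γ * t) * len m) / ρ t *
        ((4 / c * Real.exp (c / 4 * len m)) * ‖f t m‖) :=
    mul_le_mul_of_nonneg_left ((h t ht m).trans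
      (mul_le_mul_of_nonneg_right h1 (norm_nonneg _))) (div_nonneg (Real.exp_pos _).le hr.le)
  refine h4.trans (le_of_eq ?_)
  rw [h3]
  ring

theorem mm_eq_kcomp (a : Md → (F →L[ℂ] G)) (b : Md → (E →L[ℂ] F)) (q : Md) :
    mm a b q = kcomp (mulK a) (mulK b) q 0 := by
  unfold mm conv kcomp mulK
  refine tsum_congr fun l => ?_
  simp

theorem mm_one (a : Md → (C3 →L[ℂ] F)) : mm a oneM = a := by
  funext q
  unfold mm conv
  rw [tsum_eq_single 0]
  · ext x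
    simp [oneM]
  · intro l hl
    simp [oneM, hl]

theorem one_mm (a : Md → (E →L[ℂ] C3)) : mm oneM a = a := by
  funext q
  unfold mm conv
  rw [tsum_eq_single q]
  · ext x
    simp [oneM]
  · intro l hl
    have : q - l ≠ 0 := fun h => hl (sub_eq_zero.1 h).symm
    simp [oneM, this]

theorem shP_zero (k : C3) : shP 0 k = oneM := by
  funext q
  unfold shP
  ext x
  simp

theorem shM_zero (k : C3) : shM 0 k = oneM := by
  funext q
  unfold shM
  ext x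
  simp

theorem adj_enorm (A : Mat) : ‖ContinuousLinearMap.adjoint A‖ₑ = ‖A‖ₑ := by
  rw [← ofReal_norm, ← ofReal_norm]
  congr 1
  exact LinearIsometryEquiv.norm_map _ _

theorem nrm_adjC {T c γ : ℝ} {ρ : ℝ → ℝ} (a : ℝ → Md → Mat) :
    Nrm T c γ ρ (fun t => adjC (a t)) = Nrm T c γ ρ a := by
  unfold Nrm
  rw [← (Equiv.neg Md).tsum_eq]
  refine tsum_congr fun m => ?_
  refine iSup_congr fun t => iSup_congr fun _ => ?_
  simp only [Equiv.neg_apply, len_neg, adjC, neg_neg, adj_enorm]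

theorem cm_adjC {T : ℝ} {a : ℝ → Md → Mat} (h : CM T a) : CM T (fun t => adjC (a t)) := by
  intro m
  have h1 := (ContinuousLinearMap.adjoint (𝕜 := ℂ) (E := C3) (F := C3)).continuous
  exact h1.comp_continuousOn (h (-m))

theorem enorm_smulRight_le (s : ℂ) : ‖s • ContinuousLinearMap.id ℂ ℂ‖ₑ ≤ ‖s‖ₑ := by
  rw [enorm_smul]
  calc ‖s‖ₑ * ‖ContinuousLinearMap.id ℂ ℂ‖ₑ ≤ ‖s‖ₑ * 1 := by
        refine mul_le_mul_right ?_ _
        rw [← ofReal_norm, ← ENNReal.ofReal_one]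
        exact ENNReal.ofReal_le_ofReal ContinuousLinearMap.norm_id_le
    _ = _ := mul_one _

theorem compL_le : ‖ContinuousLinearMap.compL ℂ E F G‖ₑ ≤ 1 := by
  rw [← ofReal_norm, ← ENNReal.ofReal_one]
  exact ENNReal.ofReal_le_ofReal (ContinuousLinearMap.norm_compL_le ℂ E F G)

theorem nrm_mul (w1 : W01) (w9 : W09) {T c γ : ℝ} {σ : ℝ → ℝ} (hP : Par T c γ) (hσ : Wt T σ)
    (hc : 0 ≤ c) (a : ℝ → Md → (E →L[ℂ] F)) (f : ℝ → Md → E) :
    Nrm T c γ σ (fun t => mul (a t) (f t)) ≤ Nrm T c 0 Dat.one' a * Nrm T c γ σ f := by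
  have h1 := w1 Md E F T c γ σ (fun t => mulK (a t)) f hP hσ
  have h2 := (w9 Md E F F T c hc).2.2.2.1 a
  rw [h2] at h1
  exact h1

theorem src_mul (w3 : W03) (w9 : W09) {T c γ : ℝ} {σ : ℝ → ℝ} (hP : Par T c γ) (hσ : Wt T σ)
    (hc : 0 ≤ c) (a : ℝ → Md → (E →L[ℂ] F)) (f : ℝ → Md → E) (hf : CM T f) :
    Src T c γ σ (fun t => mul (a t) (f t)) ≤ Nrm T c 0 Dat.one' a * Src T c γ σ f := by
  have h1 := w3 Md E F T c γ σ (fun t => mulK (a t)) f hP hσ hf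
  have h2 := (w9 Md E F F T c hc).2.2.2.1 a
  rw [h2] at h1
  exact h1

theorem nrm_mm (w2 : W02) {T c : ℝ} (hT : 0 < T) (hc : 0 ≤ c) (a : ℝ → Md → (F →L[ℂ] G))
    (b : ℝ → Md → (E →L[ℂ] F)) :
    Nrm T c 0 Dat.one' (fun t => mm (a t) (b t)) ≤ Nrm T c 0 Dat.one' a * Nrm T c 0 Dat.one' b := by
  have hP : Par T c 0 := ⟨hT, le_rfl, by simpa using hc⟩
  have h1 := w2 Md (F →L[ℂ] G) (E →L[ℂ] F) (E →L[ℂ] G) T c 0 Dat.one' Dat.one'
    (ContinuousLinearMap.compL ℂ E F G) a b hP (wt_one T) (wt_one T)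
  have h2 : (fun t => Dat.one' t * Dat.one' t) = Dat.one' := by
    funext t
    simp [Dat.one']
  rw [h2] at h1
  refine h1.trans ?_
  calc ‖ContinuousLinearMap.compL ℂ E F G‖ₑ * Nrm T c 0 Dat.one' a * Nrm T c 0 Dat.one' b
      ≤ 1 * Nrm T c 0 Dat.one' a * Nrm T c 0 Dat.one' b := by
        gcongr
        exact compL_le
    _ = _ := by rw [one_mul]

theorem cm_mul (w9 : W09) (w12 : W12) [CompleteSpace F] {T c γ : ℝ} {σ : ℝ → ℝ}
    (hP : Par T c γ) (hσ : Wt T σ) (hc : 0 ≤ c) {a : ℝ → Md → (E →L[ℂ] F)} {f : ℝ → Md → E}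
    (ha : CM T a) (hf : CM T f) (ha' : Nrm T c 0 Dat.one' a ≠ ∞) (hf' : Nrm T c γ σ f ≠ ∞) :
    CM T (fun t => mul (a t) (f t)) := by
  refine (w12 Md E F F T c γ σ σ hP hσ hσ).1 (fun t => mulK (a t)) f (fun m l => ha (m - l)) hf ?_ hf'
  rw [(w9 Md E F F T c hc).2.2.2.1 a]
  exact ha'

theorem cm_mm (w12 : W12) [CompleteSpace F] [CompleteSpace G] {T c : ℝ} (hT : 0 < T) (hc : 0 ≤ c)
    {a : ℝ → Md → (F →L[ℂ] G)} {b : ℝ → Md → (E →L[ℂ] F)} (ha : CM T a) (hb : CM T b)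
    (ha' : Nrm T c 0 Dat.one' a ≠ ∞) (hb' : Nrm T c 0 Dat.one' b ≠ ∞) :
    CM T (fun t => mm (a t) (b t)) := by
  have hP : Par T c 0 := ⟨hT, le_rfl, by simpa using hc⟩
  exact (w12 Md (F →L[ℂ] G) (E →L[ℂ] F) (E →L[ℂ] G) T c 0 Dat.one' Dat.one' hP (wt_one T)
    (wt_one T)).2.2 (ContinuousLinearMap.compL ℂ E F G) a b ha hb ha' hb'

theorem nrm_sub (w5 : W05) {T c γ : ℝ} {σ : ℝ → ℝ} (hP : Par T c γ) (hσ : Wt T σ)
    (f g : ℝ → Md → E) : Nrm T c γ σ (fun t => f t - g t) ≤ Nrm T c γ σ f + Nrm T c γ σ g := by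
  obtain ⟨_, _, h3, _, h5⟩ := w5 Md E T c γ σ σ f ((-1 : ℂ) • g) hP hσ hσ
  have h6 := ((w5 Md E T c γ σ σ g g hP hσ hσ).2.2.2.2 (-1)).1
  have h7 : f + (-1 : ℂ) • g = fun t => f t - g t := by
    funext t q
    simp [sub_eq_add_neg]
  rw [h7, h6] at h3
  simpa using h3

theorem ts_eq (v : C3) : ts v = ContinuousLinearMap.smulRightL ℂ ℂ C3
    (ContinuousLinearMap.id ℂ ℂ) v := by
  ext
  simp [ts]

theorem cm_tsF {T : ℝ} {a : ℝ → Md → C3} (h : CM T a) : CM T (fun t => tsF (a t)) := by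
  intro q
  have h1 : (fun t => tsF (a t) q) = fun t => ContinuousLinearMap.smulRightL ℂ ℂ C3
      (ContinuousLinearMap.id ℂ ℂ) (a t q) := by
    funext t
    exact ts_eq _
  show ContinuousOn (fun t => tsF (a t) q) _
  rw [h1]
  exact (ContinuousLinearMap.smulRightL ℂ ℂ C3
      (ContinuousLinearMap.id ℂ ℂ)).continuous.comp_continuousOn (h q)

theorem cm_scF {T : ℝ} {a : ℝ → Md → ℂ} (h : CM T a) : CM T (fun t => scF (a t)) :=
  fun q => (h q).smul continuousOn_const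

theorem cm_rwF {T : ℝ} {k : C3} {a : ℝ → Md → Mat} (h : CM T a) :
    CM T (fun t => rwF k (a t)) :=
  fun q => continuousOn_const.clm_comp (h q)

theorem cm_kcF {T : ℝ} {k : C3} {a : ℝ → Md → Mat} (h : CM T a) :
    CM T (fun t => kcF k (a t)) :=
  fun q => (cm_adjC h q).clm_apply continuousOn_const

theorem nrm_rwF {T c : ℝ} (k : C3) (a : ℝ → Md → Mat) :
    Nrm T c 0 Dat.one' (fun t => rwF k (a t)) ≤
      ENNReal.ofReal ‖k‖ * Nrm T c 0 Dat.one' a := by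
  refine nrm_mono fun t _ q => ?_
  have h1 : ‖rwF k (a t) q‖ ≤ ‖k‖ * ‖a t q‖ := by
    refine (ContinuousLinearMap.opNorm_comp_le _ _).trans ?_
    rw [innerSL_apply_norm]
  rw [← ofReal_norm, ← ofReal_norm, ← ENNReal.ofReal_mul (norm_nonneg _)]
  exact ENNReal.ofReal_le_ofReal h1

theorem nrm_tsF_kcF {T c : ℝ} (k : C3) (a : ℝ → Md → Mat) :
    Nrm T c 0 Dat.one' (fun t => tsF (kcF k (a t))) ≤
      ENNReal.ofReal ‖k‖ * Nrm T c 0 Dat.one' a := by
  rw [← nrm_adjC a]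
  refine nrm_mono fun t _ q => ?_
  have h1 : ‖tsF (kcF k (a t)) q‖ ≤ ‖k‖ * ‖adjC (a t) q‖ := by
    have h2 : ‖tsF (kcF k (a t)) q‖ = ‖kcF k (a t) q‖ :=
      ContinuousLinearMap.norm_toSpanSingleton ..
    rw [h2, mul_comm]
    exact ContinuousLinearMap.le_opNorm _ _
  rw [← ofReal_norm, ← ofReal_norm, ← ENNReal.ofReal_mul (norm_nonneg _)]
  exact ENNReal.ofReal_le_ofReal h1

theorem nrm_scF {T c : ℝ} (a : ℝ → Md → ℂ) :
    Nrm T c 0 Dat.one' (fun t => scF (a t)) ≤ Nrm T c 0 Dat.one' a := by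
  have := nrm_mono (T := T) (c := c) (γ := 0) (ρ := Dat.one') (K := 1)
    (f := fun t => scF (a t)) (g := a) fun t _ q => by
      rw [one_mul]
      exact enorm_smulRight_le _
  rwa [one_mul] at this

theorem mm_oneM_of_kcomp {a b : Md → Mat}
    (h : kcomp (mulK a) (mulK b) = diagK fun _ => ContinuousLinearMap.id ℂ C3) :
    mm a b = oneM := by
  funext q
  rw [mm_eq_kcomp, h]
  simp [diagK, oneM]

theorem fdata_succ (w21 : W21) {n : ℕ} {c b e : ℝ} {F Fi : Md → Mat}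
    (h : FData (lev n) c b e F Fi) : FData (lev (n + 1)) c b e F Fi where
  c_pos := h.c_pos
  b_one := h.b_one
  e_one := h.e_one
  sum := fun x hx => (w21.2 (n + 1) x hx).1
  F_supp := fun k hk => h.F_supp k fun hk' => hk fun i hi => hk' i (by omega)
  Fi_supp := fun k hk => h.Fi_supp k fun hk' => hk fun i hi => hk' i (by omega)
  F_le := h.F_le
  Fi_le := h.Fi_le
  left := h.left
  right := h.right

theorem ne_top_of_le {x : ℝ≥0∞} {a : ℝ} (h : x ≤ ENNReal.ofReal a) : x ≠ ∞ :=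
  ne_top_of_le_ne_top ENNReal.ofReal_ne_top h

/-- the sheet of the new class with respect to the level `n` flow -/
theorem sheet_new (w21 : W21) {D : Dat} (H : D.Hyp) {t : ℝ} (ht : t ∈ Icc 0 D.T) :
    Sheet D.K (D.n + 1) (D.F D.n t) (D.Fi D.n t) 0 (D.s (D.n + 1) t) where
  j_pos := Nat.succ_pos _
  k_pos := lt_of_lt_of_le one_pos (H.N_pos _ le_rfl)
  F_supp := (H.F_supp D.n H.hmn le_rfl).1 t ht
  Fi_supp := (H.F_supp D.n H.hmn le_rfl).2.1 t ht
  z_supp := fun q _ => rfl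
  s_supp := (H.s_le (D.n + 1) (Nat.lt_succ_of_le H.hmn) le_rfl).2.2 t ht
  z_orth := fun q => inner_zero_right _
  fin := by
    refine ⟨D.c, H.c_pos, ?_, ?_, ?_, ?_⟩
    · exact ne_top_of_le ((sN_le _ ht).trans (H.F_le D.n H.hmn le_rfl).1)
    · exact ne_top_of_le ((sN_le _ ht).trans (H.F_le D.n H.hmn le_rfl).2.1)
    · simp [sN]
    · exact ne_top_of_le ((sN_le _ ht).trans
        (H.s_le (D.n + 1) (Nat.lt_succ_of_le H.hmn) le_rfl).1)
  left := by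
    obtain ⟨c, b, e, h⟩ := H.fd D.n H.hmn le_rfl t ht
    exact mm_oneM_of_kcomp h.left
  right := by
    obtain ⟨c, b, e, h⟩ := H.fd D.n H.hmn le_rfl t ht
    exact mm_oneM_of_kcomp h.right
  s_eq := H.s_eq (D.n + 1) (Nat.lt_succ_of_le H.hmn) le_rfl t ht
  fd := H.fd D.n H.hmn le_rfl t ht
  fdo := by
    obtain ⟨c, b, e, h⟩ := H.fd D.n H.hmn le_rfl t ht
    refine ⟨c, b, e, ?_⟩
    rw [shP_zero, shM_zero, mm_one, one_mm]
    exact fdata_succ w21 h

theorem kn_id_sub (w9 : W09) {T c : ℝ} (hc : 0 ≤ c) (A : ℝ → Md → Md → Mat) {a : ℝ} (ha : 0 ≤ a)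
    (hA : KN T c A ≤ ENNReal.ofReal a) :
    KN T c (fun t => idK - A t) ≤ ENNReal.ofReal (1 + a) := by
  obtain ⟨_, h2, h3, _, h5, _⟩ := w9 Md C3 C3 C3 T c hc
  have h6 : (fun t => idK - A t) = (fun _ => idK) + (-1 : ℂ) • A := by
    funext t m l
    simp [sub_eq_add_neg]
  rw [h6, ENNReal.ofReal_add zero_le_one ha, ENNReal.ofReal_one]
  refine (h2 _ _).trans (add_le_add ?_ ?_)
  · refine h5 (fun _ _ => ContinuousLinearMap.id ℂ C3) 1 fun t _ m => ?_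
    rw [← ofReal_norm, ← ENNReal.ofReal_one]
    exact ENNReal.ofReal_le_ofReal ContinuousLinearMap.norm_id_le
  · rw [h3]
    simpa using hA

theorem ck_id_sub {T : ℝ} {A : ℝ → Md → Md → Mat} (hA : CK T A) :
    CK T (fun t => idK - A t) := fun m l => continuousOn_const.sub (hA m l)

end general

end S11aux

open S11aux

theorem s11 (h01 : S01) (h02 : S02) (h07 : S07) (w1 : W01) (w2 : W02) (w3 : W03) (w5 : W05)
    (w6 : W06) (w9 : W09) (w11 : W11) (w12 : W12) (w21 : W21) : S11 := by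
  intro D H σ h hσ hh hsupp hfin dh
  have hT := H.T_pos
  have hc := H.c_pos
  have hγ : 0 < D.γ := by rw [H.γ_eq]; positivity
  have hγT : D.γ * D.T = D.c / 2 := by rw [H.γ_eq]; field_simp
  have hP : Par D.T D.c D.γ := ⟨hT, hγ.le, by rw [hγT]; linarith⟩
  have hP' : Par D.T (3 * D.c / 4) D.γ := ⟨hT, hγ.le, by rw [hγT]; linarith⟩
  have hG : 2 ≤ D.G := H.G_two
  have hG0 : 0 < D.G := by linarith
  have hγG : 1 / D.γ ≤ D.G := by
    rw [H.γ_eq, one_div_div, div_le_iff₀ hc]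
    nlinarith [H.T_le, H.c_G]
  have hN1 : 1 ≤ D.N (D.n + 1) := H.N_pos _ le_rfl
  have hN0 : 0 < D.N (D.n + 1) := by linarith
  have hNn : 1 ≤ D.N D.n := H.N_pos _ (Nat.le_succ _)
  have hNi : ∀ i, i < D.n + 1 → ‖kv (D.K i)‖ ≤ D.N D.n := by
    have h1 : ∀ k i, i + k ≤ D.n → D.N i ≤ D.N (i + k) := by
      intro k
      induction k with
      | zero => intro i _; exact le_rfl
      | succ k ih =>
        intro i hi
        have h2 := ih i (by omega)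
        have h3 := H.N_sep (i + k) (by omega)
        have h4 : 0 ≤ D.N (i + k) := norm_nonneg _
        show D.N i ≤ D.N (i + k + 1)
        linarith
    intro i hi
    have h2 := h1 (D.n - i) i (by omega)
    rwa [Nat.add_sub_cancel' (by omega : i ≤ D.n)] at h2
  obtain ⟨U, hU⟩ : ∃ U, U = D.u (D.n + 1) ^ 512 := ⟨_, rfl⟩
  have hu0 : 0 ≤ U := by rw [hU]; exact pow_nonneg (H.u_pos _).le _
  have hmu : D.N D.n / D.N (D.n + 1) ≤ U := by
    rw [hU]
    exact H.mu_le (D.n + 1) (Nat.lt_succ_of_le H.hmn) le_rfl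
  rw [← hU]
  have hm1 : D.m < D.n + 1 := Nat.lt_succ_of_le H.hmn
  obtain ⟨cF, cFi, _⟩ := H.F_cm D.n H.hmn le_rfl
  obtain ⟨nF, nFi, _⟩ := H.F_le D.n H.hmn le_rfl
  obtain ⟨nP, cP⟩ := H.P_le D.n H.hmn le_rfl
  obtain ⟨ns, cs, ss⟩ := H.s_le (D.n + 1) hm1 le_rfl
  -- the Kelvin data
  have nR : Nrm D.T D.c 0 Dat.one' (fun t => D.rw (D.n + 1) t) ≤
      ENNReal.ofReal (D.G * D.N (D.n + 1)) := by
    refine (nrm_rwF (D.kk (D.n + 1)) (D.Fi D.n)).trans ?_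
    rw [mul_comm D.G, ENNReal.ofReal_mul hN0.le]
    exact mul_le_mul_right nFi _
  have nKc : Nrm D.T D.c 0 Dat.one' (fun t => tsF (D.kc (D.n + 1) t)) ≤
      ENNReal.ofReal (D.G * D.N (D.n + 1)) := by
    refine (nrm_tsF_kcF (D.kk (D.n + 1)) (D.Fi D.n)).trans ?_
    rw [mul_comm D.G, ENNReal.ofReal_mul hN0.le]
    exact mul_le_mul_right nFi _
  have nS : Nrm D.T D.c 0 Dat.one' (fun t => scF (D.s (D.n + 1) t)) ≤
      ENNReal.ofReal (D.G / D.N (D.n + 1) ^ 2) := (nrm_scF _).trans ns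
  have nSR : Nrm D.T D.c 0 Dat.one' (fun t => mm (scF (D.s (D.n + 1) t)) (D.rw (D.n + 1) t)) ≤
      ENNReal.ofReal (D.G ^ 2 / D.N (D.n + 1)) := by
    refine (nrm_mm w2 hT hc.le _ _).trans ((mul_le_mul' nS nR).trans (le_of_eq ?_))
    rw [← ENNReal.ofReal_mul (by positivity)]
    congr 1
    field_simp
  have nPp : Nrm D.T D.c 0 Dat.one' (fun t => D.p (D.n + 1) t) ≤ ENNReal.ofReal (D.G ^ 3) := by
    refine (nrm_mm w2 hT hc.le (fun t => tsF (D.kc (D.n + 1) t))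
      (fun t => mm (scF (D.s (D.n + 1) t)) (D.rw (D.n + 1) t))).trans
      ((mul_le_mul' nKc nSR).trans (le_of_eq ?_))
    rw [← ENNReal.ofReal_mul (by positivity)]
    congr 1
    field_simp
  have cR : CM D.T (fun t => D.rw (D.n + 1) t) := cm_rwF cFi
  have cKc : CM D.T (fun t => tsF (D.kc (D.n + 1) t)) := cm_tsF (cm_kcF cFi)
  have cSR : CM D.T (fun t => mm (scF (D.s (D.n + 1) t)) (D.rw (D.n + 1) t)) :=
    cm_mm w12 hT hc.le (cm_scF cs) cR (ne_top_of_le nS) (ne_top_of_le nR)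
  have cPp : CM D.T (fun t => D.p (D.n + 1) t) :=
    cm_mm w12 hT hc.le cKc cSR (ne_top_of_le nKc) (ne_top_of_le nSR)
  -- x and psi
  obtain ⟨X, hX⟩ : ∃ X, X = Nrm D.T D.c D.γ σ h := ⟨_, rfl⟩
  rw [← hX] at hfin ⊢
  obtain ⟨x, hx⟩ : ∃ x : ℝ → Md → C3, x = fun t => mul (D.Fi D.n t) (h t - mul (D.p (D.n + 1) t) (h t)) :=
    ⟨_, rfl⟩
  obtain ⟨ψ, hψ⟩ : ∃ ψ : ℝ → Md → ℂ, ψ = fun t =>
      mul (mm (scF (D.s (D.n + 1) t)) (D.rw (D.n + 1) t)) (h t) := ⟨_, rfl⟩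
  have cph : CM D.T (fun t => mul (D.p (D.n + 1) t) (h t)) :=
    cm_mul w9 w12 hP hσ hc.le cPp hh (ne_top_of_le nPp) (by rw [← hX]; exact hfin)
  have nph : Nrm D.T D.c D.γ σ (fun t => mul (D.p (D.n + 1) t) (h t)) ≤
      ENNReal.ofReal (D.G ^ 3) * X := by
    refine (nrm_mul w1 w9 hP hσ hc.le _ _).trans ?_
    rw [← hX]
    exact mul_le_mul_left nPp _
  have nhp : Nrm D.T D.c D.γ σ (fun t => h t - mul (D.p (D.n + 1) t) (h t)) ≤
      ENNReal.ofReal (1 + D.G ^ 3) * X := by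
    refine (nrm_sub w5 hP hσ _ _).trans ?_
    rw [← hX, ENNReal.ofReal_add zero_le_one (by positivity), add_mul, ENNReal.ofReal_one, one_mul]
    exact add_le_add le_rfl nph
  have chp : CM D.T (fun t => h t - mul (D.p (D.n + 1) t) (h t)) :=
    fun q => (hh q).sub (cph q)
  have nx : Nrm D.T D.c D.γ σ x ≤ ENNReal.ofReal (D.G * (1 + D.G ^ 3)) * X := by
    rw [hx]
    refine (nrm_mul w1 w9 hP hσ hc.le _ _).trans ((mul_le_mul' nFi nhp).trans (le_of_eq ?_))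
    rw [← mul_assoc, ← ENNReal.ofReal_mul hG0.le]
  have hx' : Nrm D.T D.c D.γ σ x ≠ ∞ :=
    ne_top_of_le_ne_top (ENNReal.mul_ne_top ENNReal.ofReal_ne_top hfin) nx
  have cx : CM D.T x := by
    rw [hx]
    exact cm_mul w9 w12 hP hσ hc.le cFi chp (ne_top_of_le nFi)
      (ne_top_of_le_ne_top (ENNReal.mul_ne_top ENNReal.ofReal_ne_top hfin) nhp)
  have nψ : Nrm D.T D.c D.γ σ ψ ≤ ENNReal.ofReal (D.G ^ 2 / D.N (D.n + 1)) * X := by
    rw [hψ]
    refine (nrm_mul w1 w9 hP hσ hc.le _ _).trans ?_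
    rw [← hX]
    exact mul_le_mul_left nSR _
  have hψ' : Nrm D.T D.c D.γ σ ψ ≠ ∞ :=
    ne_top_of_le_ne_top (ENNReal.mul_ne_top ENNReal.ofReal_ne_top hfin) nψ
  have cψ : CM D.T ψ := by
    rw [hψ]
    exact cm_mul w9 w12 hP hσ hc.le cSR hh (ne_top_of_le nSR) (by rw [← hX]; exact hfin)
  -- the exact identity (S07)
  have hS07 : ∀ t ∈ Icc 0 D.T,
      (act (D.Pl D.n t) (dh t) - mul (D.p (D.n + 1) t) (dh t) =
        act (D.Pl D.n t) (mul (D.F D.n t) (act (PK (xi D.K))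
          (fun q => (q (D.n + 1) : ℂ) • x t q))) +
        act (idK - D.Pl D.n t) (mul (adjC (D.Fi D.n t))
          (fun q => ψ t q • xi' D.K (D.n + 1) q))) ∧
      SuppIn (Cl (D.n + 1)) (x t) ∧ SuppIn (Cl (D.n + 1)) (ψ t) ∧
      (∀ q, inner ℂ (kv (D.K (D.n + 1))) (x t q) = 0) := by
    intro t ht
    have h1 := h07 D.K (D.n + 1) (D.F D.n t) (D.Fi D.n t) (D.s (D.n + 1) t) (h t)
      (sheet_new w21 H ht) (hsupp t ht) ⟨D.c - D.γ * t, by nlinarith [ht.2, hT], by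
        refine ne_top_of_le_ne_top ?_ (sN_le' hσ h ht)
        rw [← hX]
        exact ENNReal.mul_ne_top ENNReal.ofReal_ne_top hfin⟩
    rw [hx, hψ]
    exact h1
  -- the first source
  obtain ⟨g1, hg1⟩ : ∃ g1 : ℝ → Md → C3, g1 = fun t => act (PK (xi D.K))
      (fun q => (q (D.n + 1) : ℂ) • x t q) := ⟨_, rfl⟩
  have hg1q : ∀ t q, g1 t q = pr (xi D.K q) ((q (D.n + 1) : ℂ) • x t q) := by
    intro t q
    rw [hg1]
    exact (w11 Md C3 C3 C3 C3).2.2.2.2.2 _ _ _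
  have bg1 : ∀ t ∈ Icc 0 D.T, ∀ q, ‖g1 t q‖ ≤
      len q * ‖((2 * U : ℝ) : ℂ) • x t q‖ := by
    intro t ht q
    rw [hg1q]
    by_cases hq : q ∈ Cl (D.n + 1)
    · have h1 := (h02 D.K (D.n + 1) (D.N D.n) q (x t q) hq (by linarith) hNi hN0
        ((hS07 t ht).2.2.2 q)).2
      refine h1.trans ?_
      rw [norm_smul, Complex.norm_real, Real.norm_of_nonneg (by positivity)]
      have h2 : D.N D.n / ‖kv (D.K (D.n + 1))‖ ≤ U := hmu
      have h3 := len_nonneg q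
      have h4 := norm_nonneg (x t q)
      calc 2 * (D.N D.n / ‖kv (D.K (D.n + 1))‖) * len q * ‖x t q‖
          ≤ 2 * U * len q * ‖x t q‖ := by gcongr
        _ = _ := by ring
    · rw [(hS07 t ht).2.1 q hq]
      simp
  have cg1 : CM D.T g1 := by
    intro q
    have h1 : (fun t => g1 t q) = fun t => pr (xi D.K q) ((q (D.n + 1) : ℂ) • x t q) := by
      funext t
      exact hg1q t q
    show ContinuousOn (fun t => g1 t q) _
    rw [h1]
    have h2 : ContinuousOn (fun t => (q (D.n + 1) : ℂ) • x t q) (Icc 0 D.T) :=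
      ContinuousOn.smul (f := fun _ => (q (D.n + 1) : ℂ)) continuousOn_const (cx q)
    exact (pr (xi D.K q)).continuous.comp_continuousOn h2
  have sx := w5 Md C3 D.T D.c D.γ σ σ x x hP hσ hσ
  have n2x : Nrm D.T D.c D.γ σ (fun t q => ((2 * U : ℝ) : ℂ) • x t q) ≤
      ENNReal.ofReal (2 * U * (D.G * (1 + D.G ^ 3))) * X := by
    have h1 := (sx.2.2.2.2 (((2 * U : ℝ) : ℂ))).1
    have h2 : (fun t q => ((2 * U : ℝ) : ℂ) • x t q) =
      ((2 * U : ℝ) : ℂ) • x := rfl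
    rw [h2, h1, ENNReal.ofReal_mul (by positivity), mul_assoc]
    refine mul_le_mul' (le_of_eq ?_) nx
    rw [← ofReal_norm, Complex.norm_real, Real.norm_of_nonneg (by positivity)]
  have sg1 : Src D.T D.c D.γ σ g1 ≤
      ENNReal.ofReal (D.G * (2 * U * (D.G * (1 + D.G ^ 3)))) * X := by
    refine (w6 Md C3 C3 D.T D.c D.γ σ _ g1 hP hγ hσ bg1).trans ?_
    refine (mul_le_mul' (ENNReal.ofReal_le_ofReal hγG) n2x).trans (le_of_eq ?_)
    rw [← mul_assoc, ← ENNReal.ofReal_mul hG0.le]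
  have ng1 : Nrm D.T (3 * D.c / 4) D.γ σ g1 ≠ ∞ := by
    refine ne_top_of_le_ne_top ?_ (nrm_deriv hσ hc _ g1 bg1)
    exact ENNReal.mul_ne_top ENNReal.ofReal_ne_top (ne_top_of_le_ne_top
      (ENNReal.mul_ne_top ENNReal.ofReal_ne_top hfin) n2x)
  -- the second source
  obtain ⟨y2, hy2⟩ : ∃ y2 : ℝ → Md → C3, y2 = fun t q => ψ t q • xi' D.K (D.n + 1) q := ⟨_, rfl⟩
  have by2 : ∀ t ∈ Icc 0 D.T, ∀ q, ‖y2 t q‖ ≤ len q * ‖((D.N D.n : ℝ) : ℂ) • ψ t q‖ := by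
    intro t ht q
    rw [hy2]
    by_cases hq : q ∈ Cl (D.n + 1)
    · have h1 := (h01 D.K).2.2.2.1 q (D.n + 1) (D.N D.n) hq.1 hNi (by linarith)
      show ‖ψ t q • xi' D.K (D.n + 1) q‖ ≤ _
      rw [norm_smul, norm_smul, Complex.norm_real, Real.norm_of_nonneg (by linarith)]
      have h4 := norm_nonneg (ψ t q)
      calc ‖ψ t q‖ * ‖xi' D.K (D.n + 1) q‖ ≤ ‖ψ t q‖ * (D.N D.n * len q) := by gcongr
        _ = _ := by ring
    · show ‖ψ t q • xi' D.K (D.n + 1) q‖ ≤ _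
      rw [(hS07 t ht).2.2.1 q hq]
      simp
  have cy2 : CM D.T y2 := by
    rw [hy2]
    intro q
    exact (cψ q).smul continuousOn_const
  have sψ := w5 Md ℂ D.T D.c D.γ σ σ ψ ψ hP hσ hσ
  have nNψ : Nrm D.T D.c D.γ σ (fun t q => ((D.N D.n : ℝ) : ℂ) • ψ t q) ≤
      ENNReal.ofReal (U * D.G ^ 2) * X := by
    have h1 := (sψ.2.2.2.2 (((D.N D.n : ℝ) : ℂ))).1
    have h2 : (fun t q => ((D.N D.n : ℝ) : ℂ) • ψ t q) = ((D.N D.n : ℝ) : ℂ) • ψ := rfl
    rw [h2, h1]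
    calc ‖((D.N D.n : ℝ) : ℂ)‖ₑ * Nrm D.T D.c D.γ σ ψ
        ≤ ENNReal.ofReal (D.N D.n) * (ENNReal.ofReal (D.G ^ 2 / D.N (D.n + 1)) * X) := by
          refine mul_le_mul' (le_of_eq ?_) nψ
          rw [← ofReal_norm, Complex.norm_real, Real.norm_of_nonneg (by linarith)]
      _ = ENNReal.ofReal (D.N D.n / D.N (D.n + 1) * D.G ^ 2) * X := by
          rw [← mul_assoc, ← ENNReal.ofReal_mul (by linarith)]
          congr 2
          ring
      _ ≤ _ := by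
          refine mul_le_mul_left (ENNReal.ofReal_le_ofReal ?_) _
          exact mul_le_mul_of_nonneg_right hmu (by positivity)
  have sy2 : Src D.T D.c D.γ σ y2 ≤
      ENNReal.ofReal (D.G * (U * D.G ^ 2)) * X := by
    refine (w6 Md ℂ C3 D.T D.c D.γ σ _ y2 hP hγ hσ by2).trans ?_
    refine (mul_le_mul' (ENNReal.ofReal_le_ofReal hγG) nNψ).trans (le_of_eq ?_)
    rw [← mul_assoc, ← ENNReal.ofReal_mul hG0.le]
  have ny2 : Nrm D.T (3 * D.c / 4) D.γ σ y2 ≠ ∞ := by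
    refine ne_top_of_le_ne_top ?_ (nrm_deriv hσ hc _ y2 by2)
    exact ENNReal.mul_ne_top ENNReal.ofReal_ne_top (ne_top_of_le_ne_top
      (ENNReal.mul_ne_top ENNReal.ofReal_ne_top hfin) nNψ)
  -- radius 3c/4
  have hc4 : 3 * D.c / 4 ≤ D.c := by linarith
  have hc4' : 0 ≤ 3 * D.c / 4 := by linarith
  have nF4 : Nrm D.T (3 * D.c / 4) 0 Dat.one' (D.F D.n) ≠ ∞ :=
    ne_top_of_le_ne_top (ne_top_of_le nF) (nrm_radius (wt_one _) hc4 _)
  have nA : Nrm D.T D.c 0 Dat.one' (fun t => adjC (D.Fi D.n t)) ≤ ENNReal.ofReal D.G := by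
    rw [nrm_adjC]
    exact nFi
  have nA4 : Nrm D.T (3 * D.c / 4) 0 Dat.one' (fun t => adjC (D.Fi D.n t)) ≠ ∞ :=
    ne_top_of_le_ne_top (ne_top_of_le nA) (nrm_radius (wt_one _) hc4 _)
  have cA : CM D.T (fun t => adjC (D.Fi D.n t)) := cm_adjC cFi
  have nQ : KN D.T D.c (fun t => idK - D.Pl D.n t) ≤ ENNReal.ofReal (1 + D.G) :=
    kn_id_sub w9 hc.le _ hG0.le nP
  have cQ : CK D.T (fun t => idK - D.Pl D.n t) := ck_id_sub cP
  have w9' := (w9 Md C3 C3 C3 D.T D.c hc.le).2.2.2.2.2.1 (3 * D.c / 4) hc4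
  have nP4 : KN D.T (3 * D.c / 4) (D.Pl D.n) ≠ ∞ :=
    ne_top_of_le_ne_top (ne_top_of_le nP) (w9' _)
  have nQ4 : KN D.T (3 * D.c / 4) (fun t => idK - D.Pl D.n t) ≠ ∞ :=
    ne_top_of_le_ne_top (ne_top_of_le nQ) (w9' _)
  -- the two sources
  have cFg : CM D.T (fun t => mul (D.F D.n t) (g1 t)) :=
    cm_mul w9 w12 hP' hσ hc4' cF cg1 nF4 ng1
  have nFg : Nrm D.T (3 * D.c / 4) D.γ σ (fun t => mul (D.F D.n t) (g1 t)) ≠ ∞ :=
    ne_top_of_le_ne_top (ENNReal.mul_ne_top nF4 ng1) (nrm_mul w1 w9 hP' hσ hc4' _ _)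
  have ce1 : CM D.T (fun t => act (D.Pl D.n t) (mul (D.F D.n t) (g1 t))) :=
    (w12 Md C3 C3 C3 D.T (3 * D.c / 4) D.γ σ σ hP' hσ hσ).1 (D.Pl D.n) _ cP cFg nP4 nFg
  have cAy : CM D.T (fun t => mul (adjC (D.Fi D.n t)) (y2 t)) :=
    cm_mul w9 w12 hP' hσ hc4' cA cy2 nA4 ny2
  have nAy : Nrm D.T (3 * D.c / 4) D.γ σ (fun t => mul (adjC (D.Fi D.n t)) (y2 t)) ≠ ∞ :=
    ne_top_of_le_ne_top (ENNReal.mul_ne_top nA4 ny2) (nrm_mul w1 w9 hP' hσ hc4' _ _)
  have ce2 : CM D.T (fun t => act (idK - D.Pl D.n t) (mul (adjC (D.Fi D.n t)) (y2 t))) :=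
    (w12 Md C3 C3 C3 D.T (3 * D.c / 4) D.γ σ σ hP' hσ hσ).1 _ _ cQ cAy nQ4 nAy
  have se1 : Src D.T D.c D.γ σ (fun t => act (D.Pl D.n t) (mul (D.F D.n t) (g1 t))) ≤
      ENNReal.ofReal (D.G * (D.G * (D.G * (2 * U * (D.G * (1 + D.G ^ 3)))))) *
        X := by
    refine (w3 Md C3 C3 D.T D.c D.γ σ (D.Pl D.n) _ hP hσ cFg).trans ?_
    refine (mul_le_mul' nP ((src_mul w3 w9 hP hσ hc.le _ _ cg1).trans
      (mul_le_mul' nF sg1))).trans (le_of_eq ?_)
    rw [← mul_assoc, ← mul_assoc, ← ENNReal.ofReal_mul hG0.le, ← ENNReal.ofReal_mul (by positivity)]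
    congr 2
    ring
  have se2 : Src D.T D.c D.γ σ
      (fun t => act (idK - D.Pl D.n t) (mul (adjC (D.Fi D.n t)) (y2 t))) ≤
      ENNReal.ofReal ((1 + D.G) * (D.G * (D.G * (U * D.G ^ 2)))) * X := by
    refine (w3 Md C3 C3 D.T D.c D.γ σ (fun t => idK - D.Pl D.n t) _ hP hσ cAy).trans ?_
    refine (mul_le_mul' nQ ((src_mul w3 w9 hP hσ hc.le _ _ cy2).trans
      (mul_le_mul' nA sy2))).trans (le_of_eq ?_)
    rw [← mul_assoc, ← mul_assoc, ← ENNReal.ofReal_mul (by positivity),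
      ← ENNReal.ofReal_mul (by positivity)]
    congr 2
    ring
  have hkey : ∀ t ∈ Icc 0 D.T, act (D.Pl D.n t) (dh t) - mul (D.p (D.n + 1) t) (dh t) =
      ((fun t => act (D.Pl D.n t) (mul (D.F D.n t) (g1 t))) +
        (fun t => act (idK - D.Pl D.n t) (mul (adjC (D.Fi D.n t)) (y2 t)))) t := by
    intro t ht
    rw [(hS07 t ht).1, hg1, hy2]
    rfl
  refine ⟨cm_congr hkey fun q => (ce1 q).add (ce2 q), ?_⟩
  rw [src_congr hkey]
  refine ((w5 Md C3 D.T D.c D.γ σ σ _ _ hP hσ hσ).2.2.2.1 ce1).trans ?_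
  refine (add_le_add se1 se2).trans ?_
  rw [← add_mul, ← ENNReal.ofReal_add (by positivity) (by positivity)]
  refine mul_le_mul_left (ENNReal.ofReal_le_ofReal ?_) _
  have e1 : D.G ^ 4 ≤ D.G ^ 7 := pow_le_pow_right₀ (by linarith) (by norm_num)
  have e2 : D.G ^ 5 ≤ D.G ^ 7 := pow_le_pow_right₀ (by linarith) (by norm_num)
  have e3 : D.G ^ 10 ≤ D.G ^ 13 := pow_le_pow_right₀ (by linarith) (by norm_num)
  have e4 : 8 * D.G ^ 7 ≤ D.G ^ 10 := by
    have h1 : (2 : ℝ) ^ 3 ≤ D.G ^ 3 := pow_le_pow_left₀ (by norm_num) hG 3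
    calc 8 * D.G ^ 7 = 2 ^ 3 * D.G ^ 7 := by norm_num
      _ ≤ D.G ^ 3 * D.G ^ 7 := by gcongr
      _ = _ := by ring
  have e5 : 0 ≤ D.G ^ 7 := by positivity
  calc _ = (2 * D.G ^ 4 + 2 * D.G ^ 7 + D.G ^ 4 + D.G ^ 5) * U := by ring
    _ ≤ D.G ^ 13 * U := by
        refine mul_le_mul_of_nonneg_right ?_ hu0
        linarith

end Pool.Agent.Work.MP_b0497c_an.Unf.S

end

section

set_option autoImplicit false

/-!
# S15: algebra and norms of the Kelvin data of class `j`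
-/

open scoped ENNReal
open Set MeasureTheory

namespace Pool.Agent.Work.MP_b0497c_an.Unf.S

open W

namespace S15aux

section general

variable {E F G : Type} [NormedAddCommGroup E] [NormedSpace ℂ E] [NormedAddCommGroup F]
  [NormedSpace ℂ F] [NormedAddCommGroup G] [NormedSpace ℂ G]

omit [NormedSpace ℂ E] in
theorem sN_le_Nrm {T c : ℝ} (hc : 0 ≤ c) {ρ : ℝ → ℝ} (f : ℝ → Md → E) {t : ℝ}
    (ht : t ∈ Icc 0 T) (hρ : 0 < ρ t) :
    sN 0 (f t) ≤ ENNReal.ofReal (ρ t) * Nrm T c 0 ρ f := by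
  unfold sN Nrm
  rw [← ENNReal.tsum_mul_left]
  refine ENNReal.tsum_le_tsum fun q => ?_
  refine le_trans ?_ (mul_le_mul' le_rfl (le_iSup₂ (f := fun t (_ : t ∈ Icc 0 T) =>
    ENNReal.ofReal (Real.exp ((c - 0 * t) * len q) / ρ t) * ‖f t q‖ₑ) t ht))
  rw [← mul_assoc, ← ENNReal.ofReal_mul hρ.le]
  gcongr
  rw [mul_div_cancel₀ _ hρ.ne']
  apply Real.exp_le_exp.2
  have := len_nonneg q
  nlinarith [mul_nonneg hc this]

omit [NormedSpace ℂ E] in
theorem sN_fin {T c : ℝ} (hc : 0 ≤ c) {ρ : ℝ → ℝ} (f : ℝ → Md → E) {t : ℝ}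
    (ht : t ∈ Icc 0 T) (hρ : 0 < ρ t) (h : Nrm T c 0 ρ f ≠ ∞) : sN 0 (f t) ≠ ∞ :=
  ne_top_of_le_ne_top (ENNReal.mul_ne_top ENNReal.ofReal_ne_top h) (sN_le_Nrm hc f ht hρ)

omit [NormedSpace ℂ E] [NormedSpace ℂ F] in
/-- Comparison of norms up to a symmetry of the modes. -/
theorem nrm_le_mul {T c : ℝ} (C : ℝ≥0∞) (e : Md ≃ Md) (he : ∀ q, len (e q) = len q)
    (f : ℝ → Md → E) (g : ℝ → Md → F)
    (h : ∀ t ∈ Icc 0 T, ∀ q, ‖f t q‖ₑ ≤ C * ‖g t (e q)‖ₑ) :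
    Nrm T c 0 Dat.one' f ≤ C * Nrm T c 0 Dat.one' g := by
  unfold Nrm
  rw [← e.tsum_eq (fun q => ⨆ t ∈ Icc 0 T,
    ENNReal.ofReal (Real.exp ((c - 0 * t) * len q) / Dat.one' t) * ‖g t q‖ₑ),
    ← ENNReal.tsum_mul_left]
  refine ENNReal.tsum_le_tsum fun q => iSup₂_le fun t ht => ?_
  refine le_trans ?_ (mul_le_mul' le_rfl (le_iSup₂ (f := fun t (_ : t ∈ Icc 0 T) =>
    ENNReal.ofReal (Real.exp ((c - 0 * t) * len (e q)) / Dat.one' t) * ‖g t (e q)‖ₑ) t ht))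
  rw [he q, mul_left_comm]
  gcongr
  exact h t ht q

theorem mulK_mm (a : Md → (F →L[ℂ] G)) (b : Md → (E →L[ℂ] F)) :
    mulK (mm a b) = kcomp (mulK a) (mulK b) := by
  funext m l
  unfold mulK mm conv kcomp
  rw [← (Equiv.addRight l).tsum_eq fun j => (a (m - j)).comp (b (j - l))]
  refine tsum_congr fun k => ?_
  rw [Equiv.coe_addRight, add_sub_cancel_right, ContinuousLinearMap.compL_apply, sub_sub,
    add_comm l k]

theorem mulK_oneM : mulK oneM = (idK : Md → Md → Mat) := by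
  funext m l
  unfold mulK oneM idK diagK
  by_cases h : m = l
  · subst h
    simp
  · rw [if_neg (sub_ne_zero.2 h), if_neg h]

theorem sN_mm (h10 : W10) (a : Md → (F →L[ℂ] G)) (b : Md → (E →L[ℂ] F)) {c : ℝ} (hc : 0 ≤ c) :
    sN c (mm a b) ≤ sN c a * sN c b := by
  obtain ⟨h1, -, -, h4, -⟩ := h10 Md E F G c hc
  obtain ⟨-, -, -, h4', -⟩ := h10 Md E G G c hc
  obtain ⟨-, -, -, h4'', -⟩ := h10 Md F G G c hc
  rw [← h4' (mm a b), mulK_mm, ← h4 b, ← h4'' a]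
  exact h1 _ _

theorem sN_mul (h10 : W10) (a : Md → (E →L[ℂ] F)) (f : Md → E) {c : ℝ} (hc : 0 ≤ c) :
    sN c (mul a f) ≤ sN c a * sN c f := by
  obtain ⟨-, h2, -, h4, -⟩ := h10 Md E F F c hc
  rw [← h4 a]
  exact h2 _ _

theorem nrm_mm (h09 : W09) {T c : ℝ} (hc : 0 ≤ c) (a : ℝ → Md → (F →L[ℂ] G))
    (b : ℝ → Md → (E →L[ℂ] F)) :
    Nrm T c 0 Dat.one' (fun t => mm (a t) (b t)) ≤
      Nrm T c 0 Dat.one' a * Nrm T c 0 Dat.one' b := by
  obtain ⟨h1, -, -, h4, -⟩ := h09 Md E F G T c hc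
  obtain ⟨-, -, -, h4', -⟩ := h09 Md E G G T c hc
  obtain ⟨-, -, -, h4'', -⟩ := h09 Md F G G T c hc
  have e1 : Nrm T c 0 Dat.one' (fun t => mm (a t) (b t)) =
      KN T c (fun t => mulK (mm (a t) (b t))) := (h4' _).symm
  have e2 : Nrm T c 0 Dat.one' a = KN T c (fun t => mulK (a t)) := (h4'' _).symm
  have e3 : Nrm T c 0 Dat.one' b = KN T c (fun t => mulK (b t)) := (h4 _).symm
  rw [e1, e2, e3]
  simp_rw [mulK_mm]
  exact h1 _ _

theorem ck_mulK {T : ℝ} {a : ℝ → Md → (E →L[ℂ] F)} (h : CM T a) :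
    CK T (fun t => mulK (a t)) := fun m l => h (m - l)

theorem cm_of_ck {T : ℝ} {a : ℝ → Md → (E →L[ℂ] F)} (h : CK T (fun t => mulK (a t))) :
    CM T a := by
  intro m
  have := h m 0
  simpa [mulK] using this

theorem cm_mm (h09 : W09) (h12 : W12) [CompleteSpace F] [CompleteSpace G] {T c : ℝ} (hT : 0 < T)
    (hc : 0 ≤ c) {a : ℝ → Md → (F →L[ℂ] G)} {b : ℝ → Md → (E →L[ℂ] F)} (ha : CM T a)
    (hb : CM T b) (hna : Nrm T c 0 Dat.one' a ≠ ∞) (hnb : Nrm T c 0 Dat.one' b ≠ ∞) :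
    CM T (fun t => mm (a t) (b t)) := by
  have hP : Par T c 0 := ⟨hT, le_rfl, by simpa using hc⟩
  have hW : Wt T (fun _ => (1 : ℝ)) := ⟨fun _ _ => one_pos, continuousOn_const, fun _ _ _ _ _ => le_rfl⟩
  obtain ⟨-, h2, -⟩ := h12 Md E F G T c 0 (fun _ => 1) (fun _ => 1) hP hW hW
  obtain ⟨-, -, -, h4, -⟩ := h09 Md E F G T c hc
  obtain ⟨-, -, -, h4'', -⟩ := h09 Md F G G T c hc
  apply cm_of_ck
  simp_rw [mulK_mm]
  refine h2 _ _ (ck_mulK ha) (ck_mulK hb) ?_ ?_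
  · rw [h4'' a]
    exact hna
  · rw [h4 b]
    exact hnb

theorem supp_mm {n : ℕ} {a : Md → (F →L[ℂ] G)} {b : Md → (E →L[ℂ] F)}
    (ha : SuppIn (lev n : Set Md) a) (hb : SuppIn (lev n : Set Md) b) :
    SuppIn (lev n : Set Md) (mm a b) := by
  intro q hq
  unfold mm conv
  rw [← tsum_zero (α := E →L[ℂ] G) (β := Md)]
  refine tsum_congr fun l => ?_
  by_cases hl : l ∈ (lev n : Set Md)
  · have : q - l ∉ (lev n : Set Md) := by
      intro h
      apply hq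
      have := (lev n).add_mem h hl
      rwa [sub_add_cancel] at this
    rw [ha _ this]
    simp
  · rw [hb _ hl]
    simp

theorem mul_mm (h10 : W10) (h11 : W11) [CompleteSpace F] [CompleteSpace G]
    {a : Md → (F →L[ℂ] G)} {b : Md → (E →L[ℂ] F)} {f : Md → E} (ha : sN 0 a ≠ ∞)
    (hb : sN 0 b ≠ ∞) (hf : sN 0 f ≠ ∞) : mul (mm a b) f = mul a (mul b f) := by
  obtain ⟨-, h2, -⟩ := h11 Md E F G G
  obtain ⟨-, -, -, h4, -⟩ := h10 Md E F G 0 le_rfl
  obtain ⟨-, -, -, h4'', -⟩ := h10 Md F G G 0 le_rfl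
  unfold mul
  rw [mulK_mm]
  refine h2 _ _ _ ?_ ?_ hf
  · rw [h4'' a]
    exact ha
  · rw [h4 b]
    exact hb

theorem mul_neg' (a : Md → (E →L[ℂ] F)) (f : Md → E) : mul a (-f) = - mul a f := by
  funext q
  unfold mul act
  rw [Pi.neg_apply, ← tsum_neg]
  refine tsum_congr fun l => ?_
  rw [Pi.neg_apply, map_neg]

theorem mulsmul' (a : Md → (E →L[ℂ] F)) (z : ℂ) (f : Md → E) : mul a (z • f) = z • mul a f := by
  funext q
  unfold mul act
  rw [Pi.smul_apply, ← tsum_const_smul'']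
  refine tsum_congr fun l => ?_
  rw [Pi.smul_apply, map_smul]

theorem smulmul' (a : Md → (E →L[ℂ] F)) (z : ℂ) (f : Md → E) : mul (z • a) f = z • mul a f := by
  funext q
  unfold mul act
  rw [Pi.smul_apply, ← tsum_const_smul'']
  rfl

theorem mul_add' (h10 : W10) (h11 : W11) [CompleteSpace F] {a : Md → (E →L[ℂ] F)} {f g : Md → E}
    (ha : sN 0 a ≠ ∞) (hf : sN 0 f ≠ ∞) (hg : sN 0 g ≠ ∞) :
    mul a (f + g) = mul a f + mul a g := by
  obtain ⟨-, -, -, h4, -⟩ := h11 Md E F F F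
  obtain ⟨-, -, -, h4', -⟩ := h10 Md E F F 0 le_rfl
  have : sK 0 (mulK a) ≠ ∞ := by
    rw [h4' a]
    exact ha
  exact (h4 (mulK a) (mulK a) f g this this hf hg).2

theorem add_mul' (h10 : W10) (h11 : W11) [CompleteSpace F] {a b : Md → (E →L[ℂ] F)} {f : Md → E}
    (ha : sN 0 a ≠ ∞) (hb : sN 0 b ≠ ∞) (hf : sN 0 f ≠ ∞) :
    mul (a + b) f = mul a f + mul b f := by
  obtain ⟨-, -, -, h4, -⟩ := h11 Md E F F F
  obtain ⟨-, -, -, h4', -⟩ := h10 Md E F F 0 le_rfl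
  have h1 : sK 0 (mulK a) ≠ ∞ := by
    rw [h4' a]
    exact ha
  have h2 : sK 0 (mulK b) ≠ ∞ := by
    rw [h4' b]
    exact hb
  exact (h4 (mulK a) (mulK b) f f h1 h2 hf hf).1

/-- Summability of the terms of a product. -/
theorem summable_mul [CompleteSpace F] {a : Md → (E →L[ℂ] F)} {f : Md → E} (ha : sN 0 a ≠ ∞)
    (hf : sN 0 f ≠ ∞) (q : Md) : Summable fun l => a (q - l) (f l) := by
  refine Summable.of_enorm (ne_top_of_le_ne_top (ENNReal.mul_ne_top ha hf) ?_)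
  have h1 : ∀ m, ‖a m‖ₑ ≤ sN 0 a := fun m => by
    unfold sN
    refine le_trans ?_ (ENNReal.le_tsum m)
    simp
  calc (∑' l, ‖a (q - l) (f l)‖ₑ) ≤ ∑' l, sN 0 a * ‖f l‖ₑ :=
        ENNReal.tsum_le_tsum fun l => ((a (q - l)).le_opENorm _).trans
          (mul_le_mul' (h1 _) le_rfl)
    _ = sN 0 a * sN 0 f := by
        rw [ENNReal.tsum_mul_left]
        congr 1
        unfold sN
        simp

end general

/-- Scalars. -/
theorem mul_scF (g h : Md → ℂ) : mul (scF g) h = conv (ContinuousLinearMap.mul ℂ ℂ) g h := rfl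

theorem cv_comm (g h : Md → ℂ) : conv (ContinuousLinearMap.mul ℂ ℂ) g h =
    conv (ContinuousLinearMap.mul ℂ ℂ) h g := by
  funext q
  unfold conv
  rw [← (Equiv.subLeft q).tsum_eq]
  refine tsum_congr fun l => ?_
  simp only [Equiv.subLeft_apply, sub_sub_cancel, ContinuousLinearMap.mul_apply']
  exact mul_comm _ _

theorem sN_scF (g : Md → ℂ) : sN 0 (scF g) ≤ sN 0 g := by
  unfold sN
  refine ENNReal.tsum_le_tsum fun q => ?_
  gcongr
  unfold scF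
  rw [enorm_smul]
  have : ‖ContinuousLinearMap.id ℂ ℂ‖ₑ ≤ 1 := by
    rw [← ofReal_norm, ← ENNReal.ofReal_one]
    exact ENNReal.ofReal_le_ofReal ContinuousLinearMap.norm_id_le
  calc ‖g q‖ₑ * ‖ContinuousLinearMap.id ℂ ℂ‖ₑ ≤ ‖g q‖ₑ * 1 := by gcongr
    _ = ‖g q‖ₑ := mul_one _

/-- Row times column is the scalar multiplication. -/
theorem mm_row_ts {r : Md → (C3 →L[ℂ] ℂ)} {a : Md → C3} (hr : sN 0 r ≠ ∞) (ha : sN 0 a ≠ ∞) :
    mm r (tsF a) = scF (mul r a) := by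
  funext q
  unfold mm conv scF mul act mulK
  have hs := (summable_mul hr ha q).hasSum.smul_const (ContinuousLinearMap.id ℂ ℂ)
  have key : (fun l => ContinuousLinearMap.compL ℂ ℂ C3 ℂ (r (q - l)) (tsF a l)) =
      fun l => (r (q - l) (a l)) • ContinuousLinearMap.id ℂ ℂ := by
    funext l
    apply ContinuousLinearMap.ext_ring
    rw [ContinuousLinearMap.compL_apply]
    simp [tsF, ts]
  rw [key]
  exact hs.tsum_eq

theorem mm_sc_sc {g h : Md → ℂ} (hg : sN 0 g ≠ ∞) (hh : sN 0 h ≠ ∞) :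
    mm (scF g) (scF h) = scF (conv (ContinuousLinearMap.mul ℂ ℂ) g h) := by
  funext q
  have hs : Summable fun l => g (q - l) * h l := by
    have := summable_mul (a := scF g) (f := h) (ne_top_of_le_ne_top hg (sN_scF g)) hh q
    simpa [scF] using this
  unfold mm conv scF
  simp only [ContinuousLinearMap.mul_apply']
  have hs' := hs.hasSum.smul_const (ContinuousLinearMap.id ℂ ℂ)
  have key : (fun l => ContinuousLinearMap.compL ℂ ℂ ℂ ℂ (g (q - l) • ContinuousLinearMap.id ℂ ℂ)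
      (h l • ContinuousLinearMap.id ℂ ℂ)) =
      fun l => (g (q - l) * h l) • ContinuousLinearMap.id ℂ ℂ := by
    funext l
    apply ContinuousLinearMap.ext_ring
    rw [ContinuousLinearMap.compL_apply]
    simp [mul_comm]
  rw [key]
  exact hs'.tsum_eq

theorem cv_assoc (h10 : W10) (h11 : W11) {g h k : Md → ℂ} (hg : sN 0 g ≠ ∞) (hh : sN 0 h ≠ ∞)
    (hk : sN 0 k ≠ ∞) :
    conv (ContinuousLinearMap.mul ℂ ℂ) (conv (ContinuousLinearMap.mul ℂ ℂ) g h) k =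
    conv (ContinuousLinearMap.mul ℂ ℂ) g (conv (ContinuousLinearMap.mul ℂ ℂ) h k) := by
  show mul (scF (conv (ContinuousLinearMap.mul ℂ ℂ) g h)) k = mul (scF g) (mul (scF h) k)
  rw [← mm_sc_sc hg hh]
  exact mul_mm h10 h11 (ne_top_of_le_ne_top hg (sN_scF g)) (ne_top_of_le_ne_top hh (sN_scF h)) hk

theorem cv_one (g : Md → ℂ) :
    conv (ContinuousLinearMap.mul ℂ ℂ) (fun q : Md => if q = 0 then (1 : ℂ) else 0) g = g := by
  funext q
  unfold conv
  rw [tsum_eq_single q]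
  · simp
  · intro l hl
    have : q - l ≠ 0 := sub_ne_zero.2 (Ne.symm hl)
    simp [this]

theorem enorm_adj (M : Mat) : ‖ContinuousLinearMap.adjoint M‖ₑ = ‖M‖ₑ := by
  rw [← ofReal_norm, ← ofReal_norm, LinearIsometryEquiv.norm_map]

theorem act_idK (f : Md → C3) : act (idK : Md → Md → Mat) f = f := by
  funext q
  unfold act idK diagK
  rw [tsum_eq_single q]
  · simp
  · intro l hl
    rw [if_neg (Ne.symm hl)]
    simp

end S15aux

open S15aux

theorem s15 (h09 : W09) (h10 : W10) (h11 : W11) (h12 : W12) : S15 := by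
  intro D hD j hmj hjn
  have hc : 0 ≤ D.c := hD.c_pos.le
  have hG : 0 < D.G := by linarith [hD.G_two]
  have hN : 0 < D.N j := lt_of_lt_of_le one_pos (hD.N_pos j hjn)
  have hj1 : D.m ≤ j - 1 := by omega
  have hj2 : j - 1 ≤ D.n := by omega
  obtain ⟨hFle, hFile, hMle⟩ := hD.F_le (j - 1) hj1 hj2
  obtain ⟨hFcm, hFicm, hMcm⟩ := hD.F_cm (j - 1) hj1 hj2
  obtain ⟨hsle, hscm, hssupp⟩ := hD.s_le j hmj hjn
  have hkk : ‖D.kk j‖ₑ = ENNReal.ofReal (D.N j) := by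
    rw [← ofReal_norm]
    rfl
  -- norms
  have n1 : Nrm D.T D.c 0 Dat.one' (D.kc j) ≤ ENNReal.ofReal (D.G * D.N j) := by
    have := nrm_le_mul (T := D.T) (c := D.c) (ENNReal.ofReal (D.N j)) (Equiv.neg Md)
      (fun q => len_neg q) (D.kc j) (D.Fi (j - 1)) ?_
    · refine this.trans ?_
      rw [mul_comm D.G, ENNReal.ofReal_mul hN.le]
      gcongr
    · intro t ht q
      show ‖ContinuousLinearMap.adjoint (D.Fi (j - 1) t (-q)) (D.kk j)‖ₑ ≤ _
      refine (ContinuousLinearMap.le_opENorm _ _).trans ?_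
      rw [enorm_adj, hkk, mul_comm]
      rfl
  have n2 : Nrm D.T D.c 0 Dat.one' (D.rw j) ≤ ENNReal.ofReal (D.G * D.N j) := by
    have := nrm_le_mul (T := D.T) (c := D.c) (ENNReal.ofReal (D.N j)) (Equiv.refl Md)
      (fun q => rfl) (D.rw j) (D.Fi (j - 1)) ?_
    · refine this.trans ?_
      rw [mul_comm D.G, ENNReal.ofReal_mul hN.le]
      gcongr
    · intro t ht q
      show ‖(innerSL ℂ (D.kk j)).comp (D.Fi (j - 1) t q)‖ₑ ≤ _
      rw [← hkk, ← ofReal_norm, ← ofReal_norm, Equiv.refl_apply, ← ofReal_norm,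
        ← ENNReal.ofReal_mul (norm_nonneg _)]
      apply ENNReal.ofReal_le_ofReal
      refine (ContinuousLinearMap.opNorm_comp_le _ _).trans ?_
      rw [innerSL_apply_norm]
  have n3 : Nrm D.T D.c 0 Dat.one' (fun t => tsF (D.kc j t)) ≤ ENNReal.ofReal (D.G * D.N j) := by
    refine le_trans ?_ n1
    have := nrm_le_mul (T := D.T) (c := D.c) 1 (Equiv.refl Md)
      (fun q => rfl) (fun t => tsF (D.kc j t)) (D.kc j) ?_
    · rwa [one_mul] at this
    · intro t ht q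
      rw [one_mul, Equiv.refl_apply, ← ofReal_norm, ← ofReal_norm]
      apply ENNReal.ofReal_le_ofReal
      show ‖ContinuousLinearMap.toSpanSingleton ℂ (D.kc j t q)‖ ≤ _
      rw [ContinuousLinearMap.norm_toSpanSingleton]
  have n4 : Nrm D.T D.c 0 Dat.one' (fun t => scF (D.s j t)) ≤
      ENNReal.ofReal (D.G / D.N j ^ 2) := by
    refine le_trans ?_ hsle
    have := nrm_le_mul (T := D.T) (c := D.c) 1 (Equiv.refl Md)
      (fun q => rfl) (fun t => scF (D.s j t)) (D.s j) ?_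
    · rwa [one_mul] at this
    · intro t ht q
      rw [one_mul, Equiv.refl_apply, ← ofReal_norm, ← ofReal_norm]
      apply ENNReal.ofReal_le_ofReal
      show ‖(D.s j t q) • ContinuousLinearMap.id ℂ ℂ‖ ≤ _
      rw [norm_smul]
      calc ‖D.s j t q‖ * ‖ContinuousLinearMap.id ℂ ℂ‖ ≤ ‖D.s j t q‖ * 1 := by
            gcongr
            exact ContinuousLinearMap.norm_id_le
        _ = _ := mul_one _
  have n5 : Nrm D.T D.c 0 Dat.one' (fun t => mm (scF (D.s j t)) (D.rw j t)) ≤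
      ENNReal.ofReal (D.G / D.N j ^ 2) * ENNReal.ofReal (D.G * D.N j) :=
    (nrm_mm h09 hc _ _).trans (mul_le_mul' n4 n2)
  have n6 : Nrm D.T D.c 0 Dat.one' (D.p j) ≤ ENNReal.ofReal (D.G ^ 3) := by
    have h1 : Nrm D.T D.c 0 Dat.one' (D.p j) ≤ ENNReal.ofReal (D.G * D.N j) *
        (ENNReal.ofReal (D.G / D.N j ^ 2) * ENNReal.ofReal (D.G * D.N j)) :=
      (nrm_mm h09 hc (fun t => tsF (D.kc j t)) (fun t => mm (scF (D.s j t)) (D.rw j t))).trans
        (mul_le_mul' n3 n5)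
    refine h1.trans (le_of_eq ?_)
    rw [← ENNReal.ofReal_mul (by positivity), ← ENNReal.ofReal_mul (by positivity)]
    congr 1
    field_simp
  have c1 : CM D.T (D.kc j) := by
    intro q
    show ContinuousOn (fun t => ContinuousLinearMap.adjoint (D.Fi (j - 1) t (-q)) (D.kk j)) _
    exact ((ContinuousLinearMap.adjoint (𝕜 := ℂ) (E := C3) (F := C3)).continuous.comp_continuousOn
      (hFicm (-q))).clm_apply continuousOn_const
  have c2 : CM D.T (D.rw j) := by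
    intro q
    show ContinuousOn (fun t => (innerSL ℂ (D.kk j)).comp (D.Fi (j - 1) t q)) _
    exact continuousOn_const.clm_comp (hFicm q)
  have c3 : CM D.T (fun t => tsF (D.kc j t)) := by
    intro q
    show ContinuousOn (fun t => ContinuousLinearMap.toSpanSingleton ℂ (D.kc j t q)) _
    exact (ContinuousLinearMap.toSpanSingletonCLE (𝕜 := ℂ) (E := C3)).continuous.comp_continuousOn
      (c1 q)
  have c4 : CM D.T (fun t => scF (D.s j t)) := by
    intro q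
    show ContinuousOn (fun t => (D.s j t q) • ContinuousLinearMap.id ℂ ℂ) _
    exact (hscm q).smul continuousOn_const
  have f2 : Nrm D.T D.c 0 Dat.one' (D.rw j) ≠ ∞ := ne_top_of_le_ne_top ENNReal.ofReal_ne_top n2
  have f1 : Nrm D.T D.c 0 Dat.one' (D.kc j) ≠ ∞ := ne_top_of_le_ne_top ENNReal.ofReal_ne_top n1
  have f3 : Nrm D.T D.c 0 Dat.one' (fun t => tsF (D.kc j t)) ≠ ∞ :=
    ne_top_of_le_ne_top ENNReal.ofReal_ne_top n3
  have f4 : Nrm D.T D.c 0 Dat.one' (fun t => scF (D.s j t)) ≠ ∞ :=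
    ne_top_of_le_ne_top ENNReal.ofReal_ne_top n4
  have f5 : Nrm D.T D.c 0 Dat.one' (fun t => mm (scF (D.s j t)) (D.rw j t)) ≠ ∞ :=
    ne_top_of_le_ne_top (ENNReal.mul_ne_top ENNReal.ofReal_ne_top ENNReal.ofReal_ne_top) n5
  have f6 : Nrm D.T D.c 0 Dat.one' (D.p j) ≠ ∞ := ne_top_of_le_ne_top ENNReal.ofReal_ne_top n6
  have c5 : CM D.T (fun t => mm (scF (D.s j t)) (D.rw j t)) :=
    cm_mm h09 h12 hD.T_pos hc c4 c2 f4 f2
  have c6 : CM D.T (D.p j) := cm_mm h09 h12 hD.T_pos hc c3 c5 f3 f5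
  -- `1 - 2 p`
  have k1 : KN D.T D.c (fun t => mulK (oneM - (2 : ℂ) • D.p j t)) ≤
      ENNReal.ofReal (3 * D.G ^ 3) := by
    obtain ⟨-, h2, h3, h4, h5, -⟩ := h09 Md C3 C3 C3 D.T D.c hc
    have e1 : (fun t => mulK (oneM - (2 : ℂ) • D.p j t)) =
        (fun _ : ℝ => mulK oneM) + (-2 : ℂ) • (fun t => mulK (D.p j t)) := by
      funext t m l
      exact (sub_eq_add_neg _ _).trans (congrArg (fun x => oneM (m - l) + x)
        (neg_smul (2 : ℂ) (D.p j t (m - l))).symm)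
    rw [e1]
    refine (h2 _ _).trans ?_
    rw [h3]
    have h6 : KN D.T D.c (fun _ : ℝ => mulK oneM) ≤ 1 := by
      rw [mulK_oneM]
      refine h5 (fun _ _ => ContinuousLinearMap.id ℂ C3) 1 fun t _ m => ?_
      rw [← ofReal_norm, ← ENNReal.ofReal_one]
      exact ENNReal.ofReal_le_ofReal ContinuousLinearMap.norm_id_le
    have h7 : ‖(-2 : ℂ)‖ₑ = ENNReal.ofReal 2 := by
      rw [← ofReal_norm]
      congr 1
      simp
    have h8 : (1 : ℝ) ≤ D.G ^ 3 := one_le_pow₀ (by linarith [hD.G_two])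
    have h9 : KN D.T D.c (fun t => mulK (D.p j t)) ≤ ENNReal.ofReal (D.G ^ 3) := by
      rw [h4 (D.p j)]
      exact n6
    calc KN D.T D.c (fun _ : ℝ => mulK oneM) + ‖(-2 : ℂ)‖ₑ * KN D.T D.c (fun t => mulK (D.p j t))
        ≤ 1 + ENNReal.ofReal 2 * ENNReal.ofReal (D.G ^ 3) := by
          rw [h7]
          exact add_le_add h6 (mul_le_mul' le_rfl h9)
      _ = ENNReal.ofReal (1 + 2 * D.G ^ 3) := by
          rw [ENNReal.ofReal_add (by norm_num) (by positivity), ENNReal.ofReal_one,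
            ENNReal.ofReal_mul (by norm_num)]
      _ ≤ _ := ENNReal.ofReal_le_ofReal (by linarith)
  have hone_cm : CM D.T (fun _ : ℝ => (oneM : Md → Mat)) := fun q => continuousOn_const
  have c7 : CM D.T (fun t => oneM - (2 : ℂ) • D.p j t) := fun q =>
    continuousOn_const.sub ((c6 q).const_smul (2 : ℂ))
  have f7 : Nrm D.T D.c 0 Dat.one' (fun t => oneM - (2 : ℂ) • D.p j t) ≠ ∞ := by
    obtain ⟨-, -, -, h4, -⟩ := h09 Md C3 C3 C3 D.T D.c hc
    have := ne_top_of_le_ne_top ENNReal.ofReal_ne_top k1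
    rw [h4] at this
    exact this
  have fM : Nrm D.T D.c 0 Dat.one' (D.M (j - 1)) ≠ ∞ :=
    ne_top_of_le_ne_top ENNReal.ofReal_ne_top hMle
  have c8 : CM D.T (D.gK j) := fun q =>
    (cm_mm h09 h12 hD.T_pos hc c7 hMcm f7 fM q).neg
  -- supports
  obtain ⟨sF, sFi, sM⟩ := hD.F_supp (j - 1) hj1 hj2
  have s1 : SuppT D.T (lev (j - 1) : Set Md) (D.kc j) := by
    intro t ht q hq
    have : -q ∉ (lev (j - 1) : Set Md) := fun h => hq (by simpa using (lev (j - 1)).neg_mem h)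
    show ContinuousLinearMap.adjoint (D.Fi (j - 1) t (-q)) (D.kk j) = 0
    rw [sFi t ht _ this, map_zero]
    rfl
  have s2 : SuppT D.T (lev (j - 1) : Set Md) (D.rw j) := by
    intro t ht q hq
    show (innerSL ℂ (D.kk j)).comp (D.Fi (j - 1) t q) = 0
    rw [sFi t ht _ hq, ContinuousLinearMap.comp_zero]
  have s3 : SuppT D.T (lev (j - 1) : Set Md) (D.p j) := by
    intro t ht
    refine supp_mm ?_ (supp_mm ?_ (s2 t ht))
    · intro q hq
      show ContinuousLinearMap.toSpanSingleton ℂ (D.kc j t q) = 0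
      rw [s1 t ht q hq, ContinuousLinearMap.toSpanSingleton_zero]
    · intro q hq
      show (D.s j t q) • ContinuousLinearMap.id ℂ ℂ = 0
      rw [hssupp t ht q hq]
      exact zero_smul ℂ (ContinuousLinearMap.id ℂ ℂ)
  have s4 : SuppT D.T (lev (j - 1) : Set Md) (D.gK j) := by
    intro t ht q hq
    show -(mm (oneM - (2 : ℂ) • D.p j t) (D.M (j - 1) t) q) = 0
    rw [supp_mm (n := j - 1) ?_ (sM t ht) q hq, neg_zero]
    intro q' hq'
    have e1 : (2 : ℂ) • D.p j t q' = 0 := by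
      rw [s3 t ht q' hq']
      ext v
      simp
    have e2 : (oneM : Md → Mat) q' = 0 := by
      unfold oneM
      rw [if_neg]
      rintro rfl
      exact hq' (lev (j - 1)).zero_mem
    exact (congrArg₂ (fun x y => x - y) e2 e1).trans (sub_zero _)
  -- algebra
  have alg : ∀ t ∈ Icc 0 D.T, ∀ f : Md → C3, sN 0 f ≠ ∞ →
      mul (D.rw j t) (mul (D.p j t) f) = mul (D.rw j t) f ∧
      mul (D.rw j t) (mul (oneM - (2 : ℂ) • D.p j t) f) = - mul (D.rw j t) f := by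
    intro t ht f hf
    have one_pos' : 0 < Dat.one' t := one_pos
    have g1 : sN 0 (D.kc j t) ≠ ∞ := sN_fin hc _ ht one_pos' f1
    have g2 : sN 0 (D.rw j t) ≠ ∞ := sN_fin hc _ ht one_pos' f2
    have g3 : sN 0 (tsF (D.kc j t)) ≠ ∞ := sN_fin hc _ ht one_pos' f3
    have g4 : sN 0 (scF (D.s j t)) ≠ ∞ := sN_fin hc _ ht one_pos' f4
    have g4' : sN 0 (D.s j t) ≠ ∞ := sN_fin hc _ ht one_pos'
      (ne_top_of_le_ne_top ENNReal.ofReal_ne_top hsle)
    have g5 : sN 0 (mm (scF (D.s j t)) (D.rw j t)) ≠ ∞ :=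
      ne_top_of_le_ne_top (ENNReal.mul_ne_top g4 g2) (sN_mm h10 _ _ le_rfl)
    have g6 : sN 0 (D.p j t) ≠ ∞ := sN_fin hc _ ht one_pos' f6
    have gf : sN 0 (mul (D.rw j t) f) ≠ ∞ :=
      ne_top_of_le_ne_top (ENNReal.mul_ne_top g2 hf) (sN_mul h10 _ _ le_rfl)
    have gk : sN 0 (mul (D.rw j t) (D.kc j t)) ≠ ∞ :=
      ne_top_of_le_ne_top (ENNReal.mul_ne_top g2 g1) (sN_mul h10 _ _ le_rfl)
    have gs : sN 0 (mul (scF (D.s j t)) (mul (D.rw j t) f)) ≠ ∞ :=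
      ne_top_of_le_ne_top (ENNReal.mul_ne_top g4 gf) (sN_mul h10 _ _ le_rfl)
    have a1 : mul (D.p j t) f = mul (tsF (D.kc j t)) (mul (scF (D.s j t)) (mul (D.rw j t) f)) := by
      show mul (mm (tsF (D.kc j t)) (mm (scF (D.s j t)) (D.rw j t))) f = _
      rw [mul_mm h10 h11 g3 g5 hf, mul_mm h10 h11 g4 g2 hf]
    have a2 : conv (ContinuousLinearMap.mul ℂ ℂ) (D.s j t) (mul (D.rw j t) (D.kc j t)) =
        fun q => if q = 0 then (1 : ℂ) else 0 := by
      rw [← mul_scF, ← mul_mm h10 h11 g4 g2 g1]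
      exact hD.s_eq j hmj hjn t ht
    have a3 : mul (D.rw j t) (mul (D.p j t) f) = mul (D.rw j t) f := by
      rw [a1, ← mul_mm h10 h11 g2 g3 gs, mm_row_ts g2 g1, mul_scF, mul_scF,
        ← cv_assoc h10 h11 gk g4' gf, cv_comm (mul (D.rw j t) (D.kc j t)) (D.s j t), a2, cv_one]
    refine ⟨a3, ?_⟩
    have gpf : sN 0 (mul (D.p j t) f) ≠ ∞ :=
      ne_top_of_le_ne_top (ENNReal.mul_ne_top g6 hf) (sN_mul h10 _ _ le_rfl)
    have hsm : ∀ (z : ℂ) {X : Type} [NormedAddCommGroup X] [NormedSpace ℂ X] (u : Md → X),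
        sN 0 u ≠ ∞ → sN 0 (z • u) ≠ ∞ := by
      intro z X _ _ u hu
      have : sN 0 (z • u) = ‖z‖ₑ * sN 0 u := by
        unfold sN
        rw [← ENNReal.tsum_mul_left]
        refine tsum_congr fun q => ?_
        rw [Pi.smul_apply, enorm_smul]
        ring
      rw [this]
      exact ENNReal.mul_ne_top enorm_ne_top hu
    have g1M : sN 0 (oneM : Md → Mat) ≠ ∞ := by
      obtain ⟨-, -, -, h4, h5, -⟩ := h10 Md C3 C3 C3 0 le_rfl
      rw [← h4 oneM, mulK_oneM]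
      refine ne_top_of_le_ne_top ENNReal.one_ne_top
        (h5 (fun _ => ContinuousLinearMap.id ℂ C3) 1 fun m => ?_)
      rw [← ofReal_norm, ← ENNReal.ofReal_one]
      exact ENNReal.ofReal_le_ofReal ContinuousLinearMap.norm_id_le
    have a4 : mul (oneM - (2 : ℂ) • D.p j t) f = f + (-2 : ℂ) • mul (D.p j t) f := by
      have e1 : (oneM - (2 : ℂ) • D.p j t : Md → Mat) = oneM + (-2 : ℂ) • D.p j t :=
        (sub_eq_add_neg _ _).trans (congrArg (fun x => oneM + x)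
          (neg_smul (2 : ℂ) (D.p j t)).symm)
      rw [e1, add_mul' h10 h11 g1M (hsm _ _ g6) hf, smulmul']
      congr 1
      unfold mul
      rw [mulK_oneM, act_idK]
    rw [a4, mul_add' h10 h11 g2 hf (hsm _ _ gpf), mulsmul', a3]
    rw [neg_smul, two_smul]
    abel
  refine ⟨n1, n2, n6, k1, c1, c2, c6, c8, s3, s2, s4, alg, ?_⟩
  intro hjn' t ht f hf
  have one_pos' : 0 < Dat.one' t := one_pos
  have g2 : sN 0 (D.rw j t) ≠ ∞ := sN_fin hc _ ht one_pos' f2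
  have ga : sN 0 (D.a j t) ≠ ∞ := sN_fin hc _ ht ((hD.α_wt j hmj hjn).pos t ht)
    (ne_top_of_le_ne_top ENNReal.ofReal_ne_top (hD.z_le j hmj hjn').2)
  have gta : sN 0 (tsF (D.a j t)) ≠ ∞ := by
    refine ne_top_of_le_ne_top ga ?_
    unfold sN
    refine ENNReal.tsum_le_tsum fun q => ?_
    gcongr
    rw [← ofReal_norm, ← ofReal_norm]
    apply ENNReal.ofReal_le_ofReal
    show ‖ContinuousLinearMap.toSpanSingleton ℂ (D.a j t q)‖ ≤ _
    rw [ContinuousLinearMap.norm_toSpanSingleton]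
  have gf : sN 0 (mul (D.rw j t) f) ≠ ∞ :=
    ne_top_of_le_ne_top (ENNReal.mul_ne_top g2 hf) (sN_mul h10 _ _ le_rfl)
  have gX : sN 0 (mul (tsF (D.a j t)) (mul (D.rw j t) f)) ≠ ∞ :=
    ne_top_of_le_ne_top (ENNReal.mul_ne_top gta gf) (sN_mul h10 _ _ le_rfl)
  show mul (D.rw j t) (-(mul (oneM - (2 : ℂ) • D.p j t) (mul (tsF (D.a j t))
    (mul (D.rw j t) f)))) = _
  rw [mul_neg', (alg t ht _ gX).2, neg_neg, ← mul_mm h10 h11 g2 gta gf, mm_row_ts g2 ga, mul_scF]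

end Pool.Agent.Work.MP_b0497c_an.Unf.S

end

section

set_option autoImplicit false

/-!
# Block S, item S17: the weights of the fixed point argument exist
-/

open scoped ENNReal
open Set MeasureTheory

namespace Pool.Agent.Work.MP_b0497c_an.Unf.S

open W

/-- the coarse weight built from a source weight -/
noncomputable def s17R (β : ℝ) (S : ℝ → ℝ) (t : ℝ) : ℝ :=
  S t + 2 * β * Real.exp (2 * β * t) * ∫ s in (0 : ℝ)..t, Real.exp (-2 * β * s) * S s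

lemma s17_intble {T β : ℝ} {S : ℝ → ℝ} (hS : ContinuousOn S (Icc 0 T)) {a b : ℝ}
    (ha : a ∈ Icc 0 T) (hb : b ∈ Icc 0 T) :
    IntervalIntegrable (fun s => Real.exp (-2 * β * s) * S s) volume a b := by
  apply ContinuousOn.intervalIntegrable
  have : uIcc a b ⊆ Icc 0 T := uIcc_subset_Icc ha hb
  exact (((by fun_prop : Continuous fun s : ℝ => Real.exp (-2 * β * s)).continuousOn).mul
    (hS.mono this))

lemma s17_int_nonneg {T β : ℝ} {S : ℝ → ℝ} (hS : Wt T S) {t : ℝ} (ht : t ∈ Icc 0 T) :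
    0 ≤ ∫ s in (0 : ℝ)..t, Real.exp (-2 * β * s) * S s := by
  apply intervalIntegral.integral_nonneg ht.1
  intro s hs
  exact mul_nonneg (Real.exp_pos _).le (hS.pos s ⟨hs.1, hs.2.trans ht.2⟩).le

lemma s17_le {T β : ℝ} (hβ : 0 ≤ β) {S : ℝ → ℝ} (hS : Wt T S) {t : ℝ} (ht : t ∈ Icc 0 T) :
    S t ≤ s17R β S t := by
  unfold s17R
  have := s17_int_nonneg (β := β) hS ht
  have h2 : 0 ≤ 2 * β * Real.exp (2 * β * t) * ∫ s in (0 : ℝ)..t, Real.exp (-2 * β * s) * S s := by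
    positivity
  linarith

lemma s17_mono {T β : ℝ} (hβ : 0 < β) {S : ℝ → ℝ} (hS : Wt T S) :
    MonotoneOn (fun t => s17R β S t * Real.exp (-2 * β * t)) (Icc 0 T) := by
  intro t1 h1 t2 h2 h12
  have e : ∀ t, s17R β S t * Real.exp (-2 * β * t) =
      S t * Real.exp (-2 * β * t) + 2 * β * ∫ s in (0 : ℝ)..t, Real.exp (-2 * β * s) * S s := by
    intro t
    unfold s17R
    have : Real.exp (2 * β * t) * Real.exp (-2 * β * t) = 1 := by
      rw [← Real.exp_add]; ring_nf; simp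
    linear_combination (2 * β * ∫ s in (0 : ℝ)..t, Real.exp (-2 * β * s) * S s) * this
  have h0 : (0 : ℝ) ∈ Icc 0 T := ⟨le_refl _, h1.1.trans h1.2⟩
  have hsplit : ∫ s in (0 : ℝ)..t2, Real.exp (-2 * β * s) * S s =
      (∫ s in (0 : ℝ)..t1, Real.exp (-2 * β * s) * S s) +
      ∫ s in t1..t2, Real.exp (-2 * β * s) * S s :=
    (intervalIntegral.integral_add_adjacent_intervals (s17_intble hS.cont h0 h1)
      (s17_intble hS.cont h1 h2)).symm
  have hlow : S t1 * ((Real.exp (-2 * β * t1) - Real.exp (-2 * β * t2)) / (2 * β)) ≤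
      ∫ s in t1..t2, Real.exp (-2 * β * s) * S s := by
    have hint : ∫ s in t1..t2, Real.exp (-2 * β * s) * S t1 =
        S t1 * ((Real.exp (-2 * β * t1) - Real.exp (-2 * β * t2)) / (2 * β)) := by
      rw [intervalIntegral.integral_mul_const]
      have : ∫ s in t1..t2, Real.exp (-2 * β * s) =
          (Real.exp (-2 * β * t1) - Real.exp (-2 * β * t2)) / (2 * β) := by
        have hne : (-2 * β) ≠ 0 := by
          intro h; linarith
        have h3 := intervalIntegral.integral_comp_mul_left (a := t1) (b := t2) Real.exp hne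
        rw [h3, integral_exp]
        simp only [smul_eq_mul]
        field_simp
        ring
      rw [this]; ring
    rw [← hint]
    apply intervalIntegral.integral_mono_on h12
    · exact (by fun_prop : Continuous fun s : ℝ => Real.exp (-2 * β * s) * S t1).intervalIntegrable _ _
    · exact s17_intble hS.cont h1 h2
    · intro s hs
      exact mul_le_mul_of_nonneg_left
        (hS.mono h1 ⟨h1.1.trans hs.1, hs.2.trans h2.2⟩ hs.1) (Real.exp_pos _).le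
  simp only [e]
  rw [hsplit]
  have hS12 : S t1 ≤ S t2 := hS.mono h1 h2 h12
  have hexp2 := Real.exp_pos (-2 * β * t2)
  have k1 : S t1 * Real.exp (-2 * β * t2) ≤ S t2 * Real.exp (-2 * β * t2) :=
    mul_le_mul_of_nonneg_right hS12 hexp2.le
  have k2 : S t1 * (Real.exp (-2 * β * t1) - Real.exp (-2 * β * t2)) ≤
      2 * β * ∫ s in t1..t2, Real.exp (-2 * β * s) * S s := by
    have := mul_le_mul_of_nonneg_left hlow (by positivity : (0 : ℝ) ≤ 2 * β)
    refine le_trans (le_of_eq ?_) this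
    field_simp
  nlinarith

lemma s17_wt {T β : ℝ} (hβ : 0 < β) (hT : 0 < T) {S : ℝ → ℝ} (hS : Wt T S) :
    Wt T (s17R β S) where
  pos t ht := lt_of_lt_of_le (hS.pos t ht) (s17_le hβ.le hS ht)
  cont := by
    unfold s17R
    refine hS.cont.add (ContinuousOn.mul
      ((by fun_prop : Continuous fun t : ℝ => 2 * β * Real.exp (2 * β * t)).continuousOn) ?_)
    have h0 : (0 : ℝ) ∈ Icc 0 T := ⟨le_refl _, hT.le⟩
    have hT' : T ∈ Icc (0 : ℝ) T := ⟨hT.le, le_refl _⟩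
    have := intervalIntegral.continuousOn_primitive_interval'
      (s17_intble (β := β) hS.cont h0 hT') (by simp [hT.le] : (0 : ℝ) ∈ uIcc 0 T)
    rwa [uIcc_of_le hT.le] at this
  mono := by
    intro t1 h1 t2 h2 h12
    have := s17_mono hβ hS h1 h2 h12
    simp only at this
    have e : ∀ t, s17R β S t = s17R β S t * Real.exp (-2 * β * t) * Real.exp (2 * β * t) := by
      intro t
      rw [mul_assoc, ← Real.exp_add]
      ring_nf
      simp
    rw [e t1, e t2]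
    have hp : 0 ≤ s17R β S t2 * Real.exp (-2 * β * t2) :=
      mul_nonneg ((hS.pos t2 h2).le.trans (s17_le hβ.le hS h2)) (Real.exp_pos _).le
    exact mul_le_mul this (Real.exp_le_exp.mpr (by nlinarith)) (Real.exp_pos _).le hp

lemma s17_upper {T β : ℝ} (hβ : 0 < β) {S : ℝ → ℝ} (hS : Wt T S) {t B : ℝ}
    (ht : t ∈ Icc 0 T) (hB : ∀ s ∈ Icc 0 t, Real.exp (2 * β * (t - s)) * S s ≤ B) :
    s17R β S t ≤ S t + 2 * β * (t * B) := by
  unfold s17R
  have h0 : (0 : ℝ) ∈ Icc 0 T := ⟨le_refl _, ht.1.trans ht.2⟩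
  have h1 : Real.exp (2 * β * t) * ∫ s in (0 : ℝ)..t, Real.exp (-2 * β * s) * S s ≤ t * B := by
    rw [← intervalIntegral.integral_const_mul]
    have h2 : ∫ _s in (0 : ℝ)..t, B = t * B := by simp
    rw [← h2]
    apply intervalIntegral.integral_mono_on ht.1
    · exact (s17_intble hS.cont h0 ht).const_mul _
    · exact intervalIntegrable_const
    · intro s hs
      refine le_trans (le_of_eq ?_) (hB s hs)
      rw [← mul_assoc, ← Real.exp_add]
      congr 2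
      ring
  nlinarith

/-! ### Numerical facts, in clean contexts -/

lemma s17_g6p {G : ℝ} (hG : 2 ≤ G) : 0 ≤ G ^ 6 := pow_nonneg (by linarith) 6

lemma s17_g1 {G : ℝ} (hG : 2 ≤ G) : 1 ≤ G ^ 6 := one_le_pow₀ (by linarith)

lemma s17_g2 {G : ℝ} (hG : 2 ≤ G) : 2 * G ≤ G ^ 6 := by
  have h : 2 ≤ G ^ 5 := by
    have := pow_le_pow_right₀ (by linarith : 1 ≤ G) (by norm_num : 1 ≤ 5)
    linarith
  calc 2 * G ≤ G ^ 5 * G := mul_le_mul_of_nonneg_right h (by linarith)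
    _ = G ^ 6 := by ring

lemma s17_g3 {G : ℝ} (hG : 2 ≤ G) : 3 * G ≤ G ^ 6 := by
  have h : 3 ≤ G ^ 5 := by
    have h1 := pow_le_pow_left₀ (by norm_num : (0 : ℝ) ≤ 2) hG 5
    linarith
  calc 3 * G ≤ G ^ 5 * G := mul_le_mul_of_nonneg_right h (by linarith)
    _ = G ^ 6 := by ring

lemma s17_g4 {G : ℝ} (hG : 2 ≤ G) : 4 * G ^ 2 ≤ G ^ 6 := by
  have h : 4 ≤ G ^ 4 := by
    have h1 := pow_le_pow_left₀ (by norm_num : (0 : ℝ) ≤ 2) hG 4
    linarith
  calc 4 * G ^ 2 ≤ G ^ 4 * G ^ 2 := mul_le_mul_of_nonneg_right h (sq_nonneg G)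
    _ = G ^ 6 := by ring

lemma s17_g5 {G : ℝ} (hG : 2 ≤ G) : 3 * G ^ 8 ≤ G ^ 400 := by
  have h : 3 ≤ G ^ 392 := by
    have h1 := pow_le_pow_left₀ (by norm_num : (0 : ℝ) ≤ 2) hG 2
    have h2 := pow_le_pow_right₀ (by linarith : 1 ≤ G) (by norm_num : 2 ≤ 392)
    linarith
  calc 3 * G ^ 8 ≤ G ^ 392 * G ^ 8 :=
        mul_le_mul_of_nonneg_right h (pow_nonneg (by linarith) 8)
    _ = G ^ 400 := by rw [← pow_add]

lemma s17_g7 {G : ℝ} (hG : 2 ≤ G) : 9 * G ^ 16 ≤ G ^ 400 := by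
  have h : 9 ≤ G ^ 384 := by
    have h1 := pow_le_pow_left₀ (by norm_num : (0 : ℝ) ≤ 2) hG 4
    have h2 := pow_le_pow_right₀ (by linarith : 1 ≤ G) (by norm_num : 4 ≤ 384)
    linarith
  calc 9 * G ^ 16 ≤ G ^ 384 * G ^ 16 :=
        mul_le_mul_of_nonneg_right h (pow_nonneg (by linarith) 16)
    _ = G ^ 400 := by rw [← pow_add]

lemma s17_n1 {e S A B G : ℝ} (hS : 0 ≤ S) (h : e * A * A ≤ G * B) :
    e * (S * A ^ 2) ≤ G * S * B := by
  calc e * (S * A ^ 2) = S * (e * A * A) := by ring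
    _ ≤ S * (G * B) := mul_le_mul_of_nonneg_left h hS
    _ = G * S * B := by ring

lemma s17_n2 {r t S A β G : ℝ} (hG : 2 ≤ G) (hβ : 0 ≤ β) (hβG : β ≤ G) (ht : 0 ≤ t)
    (ht1 : t ≤ 1) (hS : 0 ≤ S) (hA : 0 ≤ A) (hAG : A ≤ G)
    (h : r ≤ S * A ^ 2 + 2 * β * (t * (G * S * A))) : r ≤ 3 * G ^ 2 * S * A := by
  have hSA : 0 ≤ S * A := mul_nonneg hS hA
  have hG0 : 0 ≤ G := by linarith
  have hX : 0 ≤ G * S * A := mul_nonneg (mul_nonneg hG0 hS) hA
  have h5 : t * (G * S * A) ≤ G * S * A := mul_le_of_le_one_left hX ht1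
  have h6 : β * (t * (G * S * A)) ≤ G * (G * S * A) :=
    mul_le_mul hβG h5 (mul_nonneg ht hX) hG0
  have h7 : A * (S * A) ≤ G * (S * A) := mul_le_mul_of_nonneg_right hAG hSA
  have h8 : 1 * (G * (S * A)) ≤ G * (G * (S * A)) :=
    mul_le_mul_of_nonneg_right (by linarith) (mul_nonneg hG0 hSA)
  have e1 : S * A ^ 2 = A * (S * A) := by ring
  have e2 : 2 * β * (t * (G * S * A)) = 2 * (β * (t * (G * S * A))) := by ring
  have e3 : 3 * G ^ 2 * S * A = 3 * (G * (G * (S * A))) := by ring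
  have e4 : G * (G * S * A) = G * (G * (S * A)) := by ring
  rw [e1, e2] at h
  rw [e3]
  rw [e4] at h6
  linarith

lemma s17_n4 {S x i : ℝ} (hS : 0 ≤ S) (hx : 0 ≤ x) (hi : 1 ≤ i) : S ≤ i * (x + S) := by
  have := mul_le_mul_of_nonneg_right hi (add_nonneg hx hS)
  linarith

lemma s17_n4' {S x i : ℝ} (hS : 0 ≤ S) (hx : 0 ≤ x) (hi : 1 ≤ i) : x ≤ i * (x + S) := by
  have := mul_le_mul_of_nonneg_right hi (add_nonneg hx hS)
  linarith

lemma s17_n5 {a r S G i : ℝ} (hG : 2 ≤ G) (hr : 0 ≤ r) (ha : a ≤ G) (hS : S ≤ r) (hi : 0 ≤ i) :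
    i * (a * r + S) ≤ 2 * G * i * r := by
  have h1 : a * r ≤ G * r := mul_le_mul_of_nonneg_right ha hr
  have h2 : 1 * r ≤ G * r := mul_le_mul_of_nonneg_right (by linarith) hr
  have h3 : a * r + S ≤ 2 * (G * r) := by linarith
  have h4 := mul_le_mul_of_nonneg_left h3 hi
  have e : 2 * G * i * r = i * (2 * (G * r)) := by ring
  rw [e]
  exact h4

lemma s17_n6 {a r q S G X : ℝ} (hG : 2 ≤ G) (hr : 0 ≤ r) (hq : 0 ≤ q) (ha : a ≤ G)
    (hX : 1 ≤ X) (hS : S ≤ r) (h7 : q ≤ 2 * G * X * r) :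
    a * (r + q) + S ≤ 4 * G ^ 2 * X * r := by
  have hG0 : 0 ≤ G := by linarith
  have h1 : a * (r + q) ≤ G * (r + q) := mul_le_mul_of_nonneg_right ha (add_nonneg hr hq)
  have h2 : G * (r + q) ≤ G * (r + 2 * G * X * r) := mul_le_mul_of_nonneg_left (by linarith) hG0
  have h3 : 1 * r ≤ X * r := mul_le_mul_of_nonneg_right hX hr
  have hXr : 0 ≤ X * r := mul_nonneg (by linarith) hr
  have h4 : G * r ≤ G * (X * r) := mul_le_mul_of_nonneg_left (by linarith) hG0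
  have h5 : 2 * (X * r) ≤ G * (X * r) := mul_le_mul_of_nonneg_right hG hXr
  have h6 : 2 * (G * (X * r)) ≤ G * (G * (X * r)) :=
    mul_le_mul_of_nonneg_right hG (mul_nonneg hG0 hXr)
  have e1 : G * (r + 2 * G * X * r) = G * r + 2 * (G * (G * (X * r))) := by ring
  have e2 : 4 * G ^ 2 * X * r = 4 * (G * (G * (X * r))) := by ring
  rw [e2]
  rw [e1] at h2
  linarith

lemma s17_n7 {a r q S G b : ℝ} (hG : 2 ≤ G) (hr : 0 ≤ r) (hq : 0 ≤ q) (ha : a ≤ G)
    (hS : S ≤ q) (hb : a ≤ G * b) (hbr : b * r ≤ q) : a * (r + q) + S ≤ 3 * G * q := by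
  have hG0 : 0 ≤ G := by linarith
  have h1 : a * r ≤ G * b * r := mul_le_mul_of_nonneg_right hb hr
  have h2 : G * (b * r) ≤ G * q := mul_le_mul_of_nonneg_left hbr hG0
  have h3 : a * q ≤ G * q := mul_le_mul_of_nonneg_right ha hq
  have h4 : 1 * q ≤ G * q := mul_le_mul_of_nonneg_right (by linarith) hq
  have e : G * b * r = G * (b * r) := by ring
  rw [e] at h1
  have e2 : a * (r + q) = a * r + a * q := by ring
  have e3 : 3 * G * q = 3 * (G * q) := by ring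
  rw [e2, e3]
  linarith

lemma s17_n8 {a r S G i : ℝ} (hi : 0 ≤ i) (h : a ≤ G * r) (S0 : S = i * a) :
    S ≤ G * i * r := by
  rw [S0]
  calc i * a ≤ i * (G * r) := mul_le_mul_of_nonneg_left h hi
    _ = G * i * r := by ring

lemma s17_n9 {a r q S : ℝ} (ha : 0 ≤ a) (hq : 0 ≤ q) (hS : 0 ≤ S) :
    a * r ≤ a * (r + q) + S ∧ a * r ≤ a * (q + r) + S := by
  have := mul_nonneg ha hq
  constructor
  · rw [mul_add]; linarith
  · rw [mul_add]; linarith

lemma s17_n10 {G U : ℝ} (hG : 2 ≤ G) (hU0 : 0 < U) (hU1 : U < 1) (hs : G ^ 400 * U ^ 4 ≤ 1)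
    {x : ℝ} (hx : x ≤ U ^ 512) : 3 * G ^ 8 * x * (U ^ 37)⁻¹ ≤ U ^ 384 := by
  have hG0 : 0 ≤ G := by linarith
  have hi : 0 < (U ^ 37)⁻¹ := inv_pos.mpr (pow_pos hU0 37)
  calc 3 * G ^ 8 * x * (U ^ 37)⁻¹ ≤ 3 * G ^ 8 * U ^ 512 * (U ^ 37)⁻¹ := by
        apply mul_le_mul_of_nonneg_right _ hi.le
        exact mul_le_mul_of_nonneg_left hx (mul_nonneg (by norm_num) (pow_nonneg hG0 8))
    _ = (3 * G ^ 8 * U ^ 91) * U ^ 384 := by
        have hne : U ≠ 0 := hU0.ne'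
        have : U ^ 512 = U ^ 91 * U ^ 384 * U ^ 37 := by rw [← pow_add, ← pow_add]
        rw [this]
        field_simp
    _ ≤ 1 * U ^ 384 := by
        apply mul_le_mul_of_nonneg_right _ (pow_nonneg hU0.le 384)
        have g2 : U ^ 91 ≤ U ^ 4 := pow_le_pow_of_le_one hU0.le hU1.le (by norm_num)
        exact (mul_le_mul (s17_g5 hG) g2 (pow_nonneg hU0.le 91) (pow_nonneg hG0 400)).trans hs
    _ = U ^ 384 := one_mul _

lemma s17_n11 {G U : ℝ} (hG : 2 ≤ G) (hU0 : 0 < U) (hU1 : U < 1) (hs : G ^ 400 * U ^ 4 ≤ 1)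
    {x : ℝ} (hx0 : 0 ≤ x) (hx : x ≤ U ^ 512) :
    9 * G ^ 16 * (U ^ 10)⁻¹ * (x ^ 2 * (U ^ 32)⁻¹) ≤ U ^ 200 := by
  have hG0 : 0 ≤ G := by linarith
  have hi : 0 < (U ^ 10)⁻¹ := inv_pos.mpr (pow_pos hU0 10)
  have hi' : 0 < (U ^ 32)⁻¹ := inv_pos.mpr (pow_pos hU0 32)
  have hne : U ≠ 0 := hU0.ne'
  have h8 : x ^ 2 * (U ^ 32)⁻¹ ≤ U ^ 992 := by
    calc x ^ 2 * (U ^ 32)⁻¹ ≤ (U ^ 512) ^ 2 * (U ^ 32)⁻¹ :=
          mul_le_mul_of_nonneg_right (pow_le_pow_left₀ hx0 hx 2) hi'.le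
      _ = U ^ 992 := by
          have : (U ^ 512) ^ 2 = U ^ 992 * U ^ 32 := by rw [← pow_mul, ← pow_add]
          rw [this, mul_assoc, mul_inv_cancel₀ (pow_ne_zero 32 hne), mul_one]
  calc 9 * G ^ 16 * (U ^ 10)⁻¹ * (x ^ 2 * (U ^ 32)⁻¹) ≤ 9 * G ^ 16 * (U ^ 10)⁻¹ * U ^ 992 :=
        mul_le_mul_of_nonneg_left h8
          (mul_nonneg (mul_nonneg (by norm_num) (pow_nonneg hG0 16)) hi.le)
    _ = (9 * G ^ 16 * U ^ 782) * U ^ 200 := by
        have : U ^ 992 = U ^ 782 * U ^ 200 * U ^ 10 := by rw [← pow_add, ← pow_add]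
        rw [this]
        field_simp
    _ ≤ 1 * U ^ 200 := by
        apply mul_le_mul_of_nonneg_right _ (pow_nonneg hU0.le 200)
        have g2 : U ^ 782 ≤ U ^ 4 := pow_le_pow_of_le_one hU0.le hU1.le (by norm_num)
        exact (mul_le_mul (s17_g7 hG) g2 (pow_nonneg hU0.le 782) (pow_nonneg hG0 400)).trans hs
    _ = U ^ 200 := one_mul _

lemma s17_n12 {G U S A N0 N1 : ℝ} (hU0 : 0 < U) (hN1 : 0 < N1)
    (hS : S = N0 / (N1 ^ 2 * U ^ 32)) :
    N1 * (G ^ 6 * (U ^ 5)⁻¹ * (3 * G ^ 2 * S * A)) =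
      3 * G ^ 8 * (N0 / N1) * (U ^ 37)⁻¹ * A := by
  have hne : U ≠ 0 := hU0.ne'
  have hne1 : N1 ≠ 0 := hN1.ne'
  rw [hS]
  field_simp

lemma s17_n13 {G U S A N0 N1 B : ℝ} (hU0 : 0 < U) (hN1 : 0 < N1)
    (hS : S = N0 / (N1 ^ 2 * U ^ 32)) (hB : B = G ^ 6 * (U ^ 5)⁻¹ * (3 * G ^ 2 * S * A)) :
    N0 * (B * B) = 9 * G ^ 16 * (U ^ 10)⁻¹ * ((N0 / N1) ^ 2 * (U ^ 32)⁻¹) * (S * A ^ 2) := by
  have hne : U ≠ 0 := hU0.ne'
  have hne1 : N1 ≠ 0 := hN1.ne'
  have e : N0 * S = (N0 / N1) ^ 2 * (U ^ 32)⁻¹ := by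
    rw [hS]; field_simp
  rw [← e, hB]
  have e2 : (U ^ 10)⁻¹ = (U ^ 5)⁻¹ * (U ^ 5)⁻¹ := by rw [← mul_inv, ← pow_add]
  rw [e2]
  ring

/-- The weights, in terms of the parameters only. -/
theorem s17_core (m n : ℕ) (T β G : ℝ) (N u : ℕ → ℝ) (α : ℕ → ℝ → ℝ) (A : ℝ → ℝ) (U : ℝ)
    (hA : α (n + 1) = A) (hU : u (n + 1) = U) (hmn : m ≤ n) (hnm : n ≤ m + 2) (hT : 0 < T)
    (hT1 : T ≤ 1) (hβ : 0 < β) (hβG : β ≤ G) (hG : 2 ≤ G) (hu : ∀ j, 0 < u j)
    (hu1 : ∀ j, u j < 1) (hN1 : 0 < N (n + 1)) (hN0 : 0 < N n)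
    (hmu : N n / N (n + 1) ≤ U ^ 512) (hust : ∀ j, m < j → j ≤ n → u (j + 1) ≤ u j ^ 16)
    (hsm : G ^ 400 * u (m + 1) ^ 4 ≤ 1) (hαw : ∀ j, m < j → j ≤ n + 1 → Wt T (α j))
    (hαG : ∀ j, m < j → j ≤ n + 1 → ∀ t ∈ Icc 0 T, α j t ≤ G)
    (hαc : ∀ i j, m < j → j < i → i ≤ n + 1 → ∀ t ∈ Icc 0 T, α i t ≤ G * α j t)
    (hαr : ∀ j, m < j → j ≤ n → MonotoneOn (fun t => A t / α j t) (Icc 0 T))
    (hαe : ∀ s ∈ Icc 0 T, ∀ t ∈ Icc 0 T, s ≤ t → Real.exp (2 * β * (t - s)) * A s ≤ G) :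
    ∃ (ρ : ℕ → ℝ → ℝ) (Str : ℝ → ℝ), (∀ o, m ≤ o → o ≤ n + 1 → Wt T (ρ o)) ∧ Wt T Str ∧
      (∀ t ∈ Icc 0 T, ρ (n + 1) t = A t / N (n + 1)) ∧
      (∀ t ∈ Icc 0 T, Str t = N n * ρ (n + 1) t ^ 2 / U ^ 32) ∧
      (∀ o, m ≤ o → o ≤ n → ∀ t ∈ Icc 0 T, Str t ≤ ρ o t) ∧
      MonotoneOn (fun t => ρ m t * Real.exp (-2 * β * t)) (Icc 0 T) ∧
      (∀ j, m < j → j ≤ n + 1 → MonotoneOn (fun t => ρ j t / α j t) (Icc 0 T)) ∧
      (∀ i l, m ≤ i → i < l → l ≤ n → ∀ t ∈ Icc 0 T, α l t * ρ i t ≤ u l ^ 64 * ρ l t) ∧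
      (∀ o i, m ≤ o → o < i → i ≤ n → ∀ t ∈ Icc 0 T, ρ i t ≤ G ^ 6 / u i ^ 80 * ρ o t) ∧
      (∀ i, m ≤ i → i ≤ n → ∀ t ∈ Icc 0 T, N (n + 1) * ρ i t ≤ U ^ 384 * A t) ∧
      (∀ i i', m ≤ i → i ≤ n → m ≤ i' → i' ≤ n → ∀ t ∈ Icc 0 T,
        N n * (ρ i t * ρ i' t) ≤ U ^ 200 * Str t) := by
  have hG0 : 0 ≤ G := by linarith
  have hAwt : Wt T A := by
    rw [← hA]
    exact hαw (n + 1) (by omega) le_rfl
  have hAG : ∀ t ∈ Icc 0 T, A t ≤ G := by
    rw [← hA]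
    exact hαG (n + 1) (by omega) le_rfl
  have hU0 : 0 < U := by rw [← hU]; exact hu _
  have hU1 : U < 1 := by rw [← hU]; exact hu1 _
  obtain ⟨S0, hS0⟩ : ∃ S0 : ℝ, S0 = N n / (N (n + 1) ^ 2 * U ^ 32) := ⟨_, rfl⟩
  have hS0pos : 0 < S0 := by
    rw [hS0]
    exact div_pos hN0 (mul_pos (pow_pos hN1 2) (pow_pos hU0 32))
  obtain ⟨Str, hStr⟩ : ∃ Str : ℝ → ℝ, ∀ t, Str t = S0 * A t ^ 2 := ⟨_, fun _ => rfl⟩
  have hStrwt : Wt T Str := by
    refine ⟨fun t ht => ?_, ?_, ?_⟩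
    · rw [hStr]
      exact mul_pos hS0pos (pow_pos (hAwt.pos t ht) 2)
    · rw [show Str = fun t => S0 * A t ^ 2 from funext hStr]
      exact continuousOn_const.mul (hAwt.cont.pow 2)
    · intro t1 h1 t2 h2 h12
      rw [hStr, hStr]
      exact mul_le_mul_of_nonneg_left
        (pow_le_pow_left₀ (hAwt.pos t1 h1).le (hAwt.mono h1 h2 h12) 2) hS0pos.le
  obtain ⟨r0, hr0⟩ : ∃ r0 : ℝ → ℝ, r0 = s17R β Str := ⟨_, rfl⟩
  have hr0wt : Wt T r0 := by rw [hr0]; exact s17_wt hβ hT hStrwt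
  have hStr_r0 : ∀ t ∈ Icc 0 T, Str t ≤ r0 t := fun t ht => by
    rw [hr0]; exact s17_le hβ.le hStrwt ht
  have hr0_mono : MonotoneOn (fun t => r0 t * Real.exp (-2 * β * t)) (Icc 0 T) := by
    rw [hr0]; exact s17_mono hβ hStrwt
  obtain ⟨r1, hr1⟩ : ∃ r1 : ℝ → ℝ, ∀ t, r1 t = (u (m + 1) ^ 64)⁻¹ *
    (α (m + 1) t * r0 t + Str t) := ⟨_, fun _ => rfl⟩
  obtain ⟨r2, hr2⟩ : ∃ r2 : ℝ → ℝ, ∀ t, r2 t = (u (m + 2) ^ 64)⁻¹ *
    (α (m + 2) t * (r0 t + r1 t) + Str t) := ⟨_, fun _ => rfl⟩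
  -- upper bound of r0
  have hr0_up : ∀ t ∈ Icc 0 T, r0 t ≤ 3 * G ^ 2 * S0 * A t := by
    intro t ht
    have hAt := hAwt.pos t ht
    have h1 := s17_upper hβ hStrwt (t := t) (B := G * S0 * A t) ht (by
      intro s hs
      have hsT : s ∈ Icc 0 T := ⟨hs.1, hs.2.trans ht.2⟩
      rw [hStr]
      exact s17_n1 hS0pos.le (mul_le_mul (hαe s hsT t ht hs.2) (hAwt.mono hsT ht hs.2)
        (hAwt.pos s hsT).le hG0))
    rw [← hr0, hStr] at h1
    exact s17_n2 hG hβ.le hβG ht.1 (ht.2.trans hT1) hS0pos.le hAt.le (hAG t ht) h1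
  clear hr0 hαe
  -- parameters
  have hUm : ∀ j, m < j → j ≤ n → U ≤ u j ^ 16 := by
    intro j hj1 hj2
    have key : ∀ k, j ≤ k → k ≤ n → u (k + 1) ≤ u j ^ 16 := by
      intro k hk1 hk2
      induction k, hk1 using Nat.le_induction with
      | base => exact hust j hj1 hj2
      | succ k hk ih =>
        have h1 := ih (by omega)
        have h2 := hust (k + 1) (by omega) hk2
        have h3 : u (k + 1) ^ 16 ≤ u (k + 1) :=
          pow_le_of_le_one (hu (k + 1)).le (hu1 (k + 1)).le (n := 16) (by norm_num)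
        exact h2.trans (h3.trans h1)
    rw [← hU]
    exact key n hj2 (le_refl _)
  have hU_le : U ≤ u (m + 1) := by
    rcases Nat.lt_or_ge m n with h | h
    · have h1 := hUm (m + 1) (by omega) (by omega)
      exact h1.trans (pow_le_of_le_one (hu _).le (hu1 _).le (by norm_num))
    · have : n = m := by omega
      rw [← hU, this]
  have hsmall : G ^ 400 * U ^ 4 ≤ 1 :=
    (mul_le_mul_of_nonneg_left (pow_le_pow_left₀ hU0.le hU_le 4) (pow_nonneg hG0 400)).trans hsm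
  have hαp : ∀ j, m < j → j ≤ n + 1 → ∀ t ∈ Icc 0 T, 0 < α j t :=
    fun j h1 h2 => (hαw j h1 h2).pos
  have hStrp := hStrwt.pos
  have hr0p := hr0wt.pos
  have hinv : ∀ j, ∀ k l : ℕ, k ≤ l → (u j ^ k)⁻¹ ≤ (u j ^ l)⁻¹ := by
    intro j k l hkl
    apply inv_anti₀ (pow_pos (hu j) l)
    exact pow_le_pow_of_le_one (hu j).le (hu1 j).le hkl
  have hinvp : ∀ j, ∀ k : ℕ, 0 < (u j ^ k)⁻¹ := fun j k => inv_pos.mpr (pow_pos (hu j) k)
  have hinv1 : ∀ j, ∀ k : ℕ, 1 ≤ (u j ^ k)⁻¹ := fun j k => by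
    rw [one_le_inv₀ (pow_pos (hu j) k)]
    exact pow_le_one₀ (hu j).le (hu1 j).le
  -- weights r1, r2
  have hr1wt : m + 1 ≤ n → Wt T r1 := by
    intro h
    have hα := hαw (m + 1) (by omega) (by omega)
    refine ⟨fun t ht => ?_, ?_, ?_⟩
    · rw [hr1]
      exact mul_pos (hinvp _ _) (add_pos (mul_pos (hα.pos t ht) (hr0p t ht)) (hStrp t ht))
    · rw [show r1 = _ from funext hr1]
      exact continuousOn_const.mul ((hα.cont.mul hr0wt.cont).add hStrwt.cont)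
    · intro t1 h1 t2 h2 h12
      rw [hr1, hr1]
      exact mul_le_mul_of_nonneg_left (add_le_add (mul_le_mul (hα.mono h1 h2 h12)
        (hr0wt.mono h1 h2 h12) (hr0p t1 h1).le (hα.pos t2 h2).le) (hStrwt.mono h1 h2 h12))
        (hinvp _ _).le
  have hr2wt : m + 2 ≤ n → Wt T r2 := by
    intro h
    have hα := hαw (m + 2) (by omega) (by omega)
    have h1w := hr1wt (by omega)
    refine ⟨fun t ht => ?_, ?_, ?_⟩
    · rw [hr2]
      exact mul_pos (hinvp _ _) (add_pos (mul_pos (hα.pos t ht)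
        (add_pos (hr0p t ht) (h1w.pos t ht))) (hStrp t ht))
    · rw [show r2 = _ from funext hr2]
      exact continuousOn_const.mul ((hα.cont.mul (hr0wt.cont.add h1w.cont)).add hStrwt.cont)
    · intro t1 h1 t2 h2 h12
      rw [hr2, hr2]
      exact mul_le_mul_of_nonneg_left (add_le_add (mul_le_mul (hα.mono h1 h2 h12)
        (add_le_add (hr0wt.mono h1 h2 h12) (h1w.mono h1 h2 h12))
        (add_pos (hr0p t1 h1) (h1w.pos t1 h1)).le (hα.pos t2 h2).le) (hStrwt.mono h1 h2 h12))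
        (hinvp _ _).le
  have hStr_r1 : m + 1 ≤ n → ∀ t ∈ Icc 0 T, Str t ≤ r1 t := by
    intro h t ht
    rw [hr1]
    exact s17_n4 (hStrp t ht).le
      (mul_pos (hαp (m + 1) (by omega) (by omega) t ht) (hr0p t ht)).le (hinv1 _ _)
  have hStr_r2 : m + 2 ≤ n → ∀ t ∈ Icc 0 T, Str t ≤ r2 t := by
    intro h t ht
    rw [hr2]
    exact s17_n4 (hStrp t ht).le (mul_pos (hαp (m + 2) (by omega) (by omega) t ht)
      (add_pos (hr0p t ht) ((hr1wt (by omega)).pos t ht))).le (hinv1 _ _)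
  -- comparisons
  have c01 : m + 1 ≤ n → ∀ t ∈ Icc 0 T, r1 t ≤ 2 * G * (u (m + 1) ^ 64)⁻¹ * r0 t := by
    intro h t ht
    rw [hr1]
    exact s17_n5 hG (hr0p t ht).le (hαG (m + 1) (by omega) (by omega) t ht) (hStr_r0 t ht)
      (hinvp _ _).le
  have c02 : m + 2 ≤ n → ∀ t ∈ Icc 0 T, r2 t ≤ 4 * G ^ 2 * (u (m + 2) ^ 68)⁻¹ * r0 t := by
    intro h t ht
    have h2 := hr0p t ht
    have h5 : (u (m + 1) ^ 64)⁻¹ ≤ (u (m + 2) ^ 4)⁻¹ := by
      apply inv_anti₀ (pow_pos (hu _) _)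
      have := hust (m + 1) (by omega) (by omega)
      calc u (m + 2) ^ 4 ≤ (u (m + 1) ^ 16) ^ 4 := pow_le_pow_left₀ (hu _).le this 4
        _ = u (m + 1) ^ 64 := by rw [← pow_mul]
    have h7 : r1 t ≤ 2 * G * (u (m + 2) ^ 4)⁻¹ * r0 t :=
      (c01 (by omega) t ht).trans (mul_le_mul_of_nonneg_right
        (mul_le_mul_of_nonneg_left h5 (by linarith only [hG0])) h2.le)
    have h8 := s17_n6 hG h2.le ((hr1wt (by omega)).pos t ht).le
      (hαG (m + 2) (by omega) (by omega) t ht) (hinv1 _ _) (hStr_r0 t ht) h7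
    have h13 := mul_le_mul_of_nonneg_left h8 (hinvp (m + 2) 64).le
    have h14 : (u (m + 2) ^ 68)⁻¹ = (u (m + 2) ^ 64)⁻¹ * (u (m + 2) ^ 4)⁻¹ := by
      rw [← mul_inv, ← pow_add]
    rw [hr2, h14]
    refine h13.trans (le_of_eq ?_)
    ring
  have c12 : m + 2 ≤ n → ∀ t ∈ Icc 0 T, r2 t ≤ 3 * G * (u (m + 2) ^ 64)⁻¹ * r1 t := by
    intro h t ht
    have h2 := hr0p t ht
    have h6 : α (m + 1) t * r0 t ≤ r1 t := by
      rw [hr1]
      exact s17_n4' (hStrp t ht).le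
        (mul_pos (hαp (m + 1) (by omega) (by omega) t ht) h2).le (hinv1 _ _)
    have h9 := s17_n7 hG h2.le ((hr1wt (by omega)).pos t ht).le
      (hαG (m + 2) (by omega) (by omega) t ht) (hStr_r1 (by omega) t ht)
      (hαc (m + 2) (m + 1) (by omega) (by omega) (by omega) t ht) h6
    have := mul_le_mul_of_nonneg_left h9 (hinvp (m + 2) 64).le
    rw [hr2]
    refine this.trans (le_of_eq ?_)
    ring
  -- the family
  obtain ⟨ρ, hρ⟩ : ∃ ρ : ℕ → ℝ → ℝ, ∀ o, ρ o = if o = n + 1 then fun t => A t / N (n + 1) else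
    if o = m then r0 else if o = m + 1 then r1 else r2 := ⟨_, fun _ => rfl⟩
  have ρn : ρ (n + 1) = fun t => A t / N (n + 1) := by rw [hρ, if_pos rfl]
  have ρm : ρ m = r0 := by
    rw [hρ, if_neg (by omega), if_pos rfl]
  have ρ1 : m + 1 ≤ n → ρ (m + 1) = r1 := by
    intro h
    rw [hρ, if_neg (by omega), if_neg (by omega), if_pos rfl]
  have ρ2 : m + 2 ≤ n → ρ (m + 2) = r2 := by
    intro h
    rw [hρ, if_neg (by omega), if_neg (by omega), if_neg (by omega)]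
  clear hρ
  have cases3 : ∀ o, m ≤ o → o ≤ n → o = m ∨ (o = m + 1 ∧ m + 1 ≤ n) ∨ (o = m + 2 ∧ m + 2 ≤ n) := by
    intro o h1 h2
    omega
  have hUi : 1 ≤ (U ^ 5)⁻¹ := by
    rw [one_le_inv₀ (pow_pos hU0 _)]
    exact pow_le_one₀ hU0.le hU1.le
  have hG6p := s17_g6p hG
  -- bound of all rho by r0
  have hall : ∀ o, m ≤ o → o ≤ n → ∀ t ∈ Icc 0 T, ρ o t ≤ G ^ 6 * (U ^ 5)⁻¹ * r0 t := by
    intro o h1 h2 t ht
    have hr := (hr0p t ht).le
    have conv80 : ∀ j, m < j → j ≤ n → (u j ^ 80)⁻¹ ≤ (U ^ 5)⁻¹ := by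
      intro j hj1 hj2
      apply inv_anti₀ (pow_pos hU0 _)
      calc U ^ 5 ≤ (u j ^ 16) ^ 5 := pow_le_pow_left₀ hU0.le (hUm j hj1 hj2) 5
        _ = u j ^ 80 := by rw [← pow_mul]
    rcases cases3 o h1 h2 with rfl | ⟨rfl, h⟩ | ⟨rfl, h⟩
    · rw [ρm]
      have h3 : 1 ≤ G ^ 6 * (U ^ 5)⁻¹ := one_le_mul_of_one_le_of_one_le (s17_g1 hG) hUi
      exact le_mul_of_one_le_left hr h3
    · rw [ρ1 h]
      exact (c01 h t ht).trans (mul_le_mul_of_nonneg_right (mul_le_mul (s17_g2 hG)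
        ((hinv _ 64 80 (by norm_num)).trans (conv80 _ (by omega) h)) (hinvp _ _).le hG6p) hr)
    · rw [ρ2 h]
      exact (c02 h t ht).trans (mul_le_mul_of_nonneg_right (mul_le_mul (s17_g4 hG)
        ((hinv _ 68 80 (by norm_num)).trans (conv80 _ (by omega) h)) (hinvp _ _).le hG6p) hr)
  have hρp : ∀ o, m ≤ o → o ≤ n → ∀ t ∈ Icc 0 T, 0 < ρ o t := by
    intro o h1 h2 t ht
    rcases cases3 o h1 h2 with rfl | ⟨rfl, h⟩ | ⟨rfl, h⟩
    · rw [ρm]; exact hr0p t ht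
    · rw [ρ1 h]; exact (hr1wt h).pos t ht
    · rw [ρ2 h]; exact (hr2wt h).pos t ht
  refine ⟨ρ, Str, ?_, hStrwt, ?_, ?_, ?_, ?_, ?_, ?_, ?_, ?_, ?_⟩
  · -- wt
    intro o h1 h2
    rcases Nat.lt_or_ge n o with h | h
    · have : o = n + 1 := by omega
      rw [this, ρn]
      refine ⟨fun t ht => div_pos (hAwt.pos t ht) hN1, hAwt.cont.div_const _, ?_⟩
      intro t1 h1 t2 h2 h12
      exact div_le_div_of_nonneg_right (hAwt.mono h1 h2 h12) hN1.le
    · rcases cases3 o h1 h with rfl | ⟨rfl, h⟩ | ⟨rfl, h⟩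
      · rw [ρm]; exact hr0wt
      · rw [ρ1 h]; exact hr1wt h
      · rw [ρ2 h]; exact hr2wt h
  · -- new
    intro t ht
    rw [ρn]
  · -- str_eq
    intro t ht
    rw [ρn, hStr, hS0]
    have hne : U ≠ 0 := hU0.ne'
    have hne1 : N (n + 1) ≠ 0 := hN1.ne'
    field_simp
  · -- str_le
    intro o h1 h2 t ht
    rcases cases3 o h1 h2 with rfl | ⟨rfl, h⟩ | ⟨rfl, h⟩
    · rw [ρm]; exact hStr_r0 t ht
    · rw [ρ1 h]; exact hStr_r1 h t ht
    · rw [ρ2 h]; exact hStr_r2 h t ht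
  · -- coarse
    rw [ρm]
    exact hr0_mono
  · -- ratio
    intro j h1 h2
    rcases Nat.lt_or_ge n j with h | h
    · have : j = n + 1 := by omega
      rw [this, ρn, hA]
      intro t1 h1 t2 h2 h12
      have e : ∀ t ∈ Icc 0 T, A t / N (n + 1) / A t = 1 / N (n + 1) := by
        intro t ht
        have hne := (hAwt.pos t ht).ne'
        rw [div_right_comm, div_self hne]
      simp only
      rw [e t1 h1, e t2 h2]
    · have hαwj := hαw j h1 (by omega)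
      have hStrα : MonotoneOn (fun t => Str t / α j t) (Icc 0 T) := by
        intro t1 g1 t2 g2 g12
        have q := hαr j h1 h g1 g2 g12
        simp only at q ⊢
        have p1 := hAwt.pos t1 g1
        have p2 := hAwt.mono g1 g2 g12
        have e : ∀ t, Str t / α j t = S0 * (A t * (A t / α j t)) := by
          intro t; rw [hStr]; ring
        rw [e, e]
        exact mul_le_mul_of_nonneg_left (mul_le_mul p2 q (div_pos p1 (hαwj.pos t1 g1)).le
          (p1.le.trans p2)) hS0pos.le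
      rcases cases3 j (by omega) h with rfl | ⟨rfl, h'⟩ | ⟨rfl, h'⟩
      · omega
      · rw [ρ1 h']
        intro t1 g1 t2 g2 g12
        have e : ∀ t ∈ Icc 0 T, r1 t / α (m + 1) t =
            (u (m + 1) ^ 64)⁻¹ * (r0 t + Str t / α (m + 1) t) := by
          intro t ht
          have hne := (hαwj.pos t ht).ne'
          rw [hr1, mul_div_assoc, add_div, mul_div_cancel_left₀ _ hne]
        simp only
        rw [e t1 g1, e t2 g2]
        exact mul_le_mul_of_nonneg_left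
          (add_le_add (hr0wt.mono g1 g2 g12) (hStrα g1 g2 g12)) (hinvp _ _).le
      · rw [ρ2 h']
        intro t1 g1 t2 g2 g12
        have e : ∀ t ∈ Icc 0 T, r2 t / α (m + 2) t =
            (u (m + 2) ^ 64)⁻¹ * ((r0 t + r1 t) + Str t / α (m + 2) t) := by
          intro t ht
          have hne := (hαwj.pos t ht).ne'
          rw [hr2, mul_div_assoc, add_div, mul_div_cancel_left₀ _ hne]
        simp only
        rw [e t1 g1, e t2 g2]
        exact mul_le_mul_of_nonneg_left (add_le_add (add_le_add (hr0wt.mono g1 g2 g12)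
          ((hr1wt (by omega)).mono g1 g2 g12)) (hStrα g1 g2 g12)) (hinvp _ _).le
  · -- w1
    intro i l h1 h2 h3 t ht
    have h4 := (hStrp t ht).le
    rcases cases3 l (by omega) h3 with rfl | ⟨rfl, h⟩ | ⟨rfl, h⟩
    · omega
    · have hi : i = m := by omega
      rw [hi, ρm, ρ1 h, hr1, mul_inv_cancel_left₀ (pow_pos (hu _) 64).ne']
      exact le_add_of_nonneg_right h4
    · have h6 := (hαp (m + 2) (by omega) (by omega) t ht).le
      have h7 := (hr0p t ht).le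
      have h8 := ((hr1wt (by omega)).pos t ht).le
      rw [ρ2 h, hr2, mul_inv_cancel_left₀ (pow_pos (hu _) 64).ne']
      rcases cases3 i h1 (by omega) with rfl | ⟨rfl, h'⟩ | ⟨rfl, h'⟩
      · rw [ρm]; exact (s17_n9 h6 h8 h4).1
      · rw [ρ1 h']; exact (s17_n9 h6 h7 h4).2
      · omega
  · -- w2
    intro o i h1 h2 h3 t ht
    rcases cases3 i (by omega) h3 with rfl | ⟨rfl, h⟩ | ⟨rfl, h⟩
    · omega
    · have ho : o = m := by omega
      rw [ho, ρm, ρ1 h, div_eq_mul_inv]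
      exact (c01 h t ht).trans (mul_le_mul_of_nonneg_right (mul_le_mul (s17_g2 hG)
        (hinv _ 64 80 (by norm_num)) (hinvp _ _).le hG6p) (hr0p t ht).le)
    · rw [ρ2 h, div_eq_mul_inv]
      rcases cases3 o h1 (by omega) with rfl | ⟨rfl, h'⟩ | ⟨rfl, h'⟩
      · rw [ρm]
        exact (c02 h t ht).trans (mul_le_mul_of_nonneg_right (mul_le_mul (s17_g4 hG)
          (hinv _ 68 80 (by norm_num)) (hinvp _ _).le hG6p) (hr0p t ht).le)
      · rw [ρ1 h']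
        exact (c12 h t ht).trans (mul_le_mul_of_nonneg_right (mul_le_mul (s17_g3 hG)
          (hinv _ 64 80 (by norm_num)) (hinvp _ _).le hG6p) ((hr1wt h').pos t ht).le)
      · omega
  · -- w4
    intro i h1 h2 t ht
    have h3 := (hall i h1 h2 t ht).trans (mul_le_mul_of_nonneg_left (hr0_up t ht)
      (mul_nonneg hG6p (zero_le_one.trans hUi)))
    have h5 := mul_le_mul_of_nonneg_left h3 hN1.le
    rw [s17_n12 hU0 hN1 hS0] at h5
    exact h5.trans (mul_le_mul_of_nonneg_right (s17_n10 hG hU0 hU1 hsmall hmu)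
      (hAwt.pos t ht).le)
  · -- w5
    intro i i' h1 h2 h1' h2' t ht
    obtain ⟨B, hB⟩ : ∃ B, B = G ^ 6 * (U ^ 5)⁻¹ * (3 * G ^ 2 * S0 * A t) := ⟨_, rfl⟩
    have h5 : ∀ k, m ≤ k → k ≤ n → ρ k t ≤ B := by
      intro k k1 k2
      rw [hB]
      exact (hall k k1 k2 t ht).trans (mul_le_mul_of_nonneg_left (hr0_up t ht)
        (mul_nonneg hG6p (zero_le_one.trans hUi)))
    have hBp : 0 ≤ B := (hρp i h1 h2 t ht).le.trans (h5 i h1 h2)
    have h6 : ρ i t * ρ i' t ≤ B * B :=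
      mul_le_mul (h5 i h1 h2) (h5 i' h1' h2') (hρp i' h1' h2' t ht).le hBp
    refine (mul_le_mul_of_nonneg_left h6 hN0.le).trans ?_
    rw [s17_n13 hU0 hN1 hS0 hB, ← hStr]
    exact mul_le_mul_of_nonneg_right (s17_n11 hG hU0 hU1 hsmall (div_pos hN0 hN1).le hmu)
      (hStrp t ht).le

theorem s17 : S17 := by
  intro D H
  have hmn := H.hmn
  have hN : ∀ j ≤ D.n + 1, 0 < D.N j := fun j hj => lt_of_lt_of_le one_pos (H.N_pos j hj)
  have hmu := H.mu_le (D.n + 1) (by omega) le_rfl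
  rw [Nat.add_sub_cancel] at hmu
  obtain ⟨ρ, Str, p1, p2, p3, p4, p5, p6, p7, p8, p9, p10, p11⟩ :=
    s17_core D.m D.n D.T D.β D.G D.N D.u D.α (D.α (D.n + 1)) (D.u (D.n + 1)) rfl rfl hmn H.hnm
      H.T_pos H.T_le (lt_of_lt_of_le one_pos H.β_one) H.β_le H.G_two H.u_pos H.u_lt
      (hN _ le_rfl) (hN _ (by omega)) hmu H.u_step H.small H.α_wt H.α_le H.α_cmp H.α_ratio
      H.α_exp
  exact ⟨ρ, Str, p1, p2, p3, p4, p5, p6, p7, p8, p9, p10, p11⟩

end Pool.Agent.Work.MP_b0497c_an.Unf.S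

end

section

set_option autoImplicit false

/-!
# S20: linear sources of the new class
-/

open scoped ENNReal
open Set MeasureTheory

namespace Pool.Agent.Work.MP_b0497c_an.Unf.S

open W

namespace S20aux

theorem suppIn_mono {E : Type} [Zero E] {S S' : Set Md} (h : S ⊆ S') {f : Md → E}
    (hf : SuppIn S f) : SuppIn S' f := fun q hq => hf q fun h' => hq (h h')

theorem cl_sub_lev (j : ℕ) : Cl j ⊆ (lev j : Set Md) := fun _ hq => hq.1

theorem lev_mono {i j : ℕ} (h : i ≤ j) : (lev i : Set Md) ⊆ (lev j : Set Md) := by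
  intro q hq k hk
  exact hq k (lt_of_le_of_lt h hk)

theorem res_supp {E : Type} [Zero E] (S : Set Md) (f : Md → E) : SuppIn S (res S f) := by
  intro q hq
  simp [res, hq]

theorem res_eq_zero {E : Type} [Zero E] {n : ℕ} {f : Md → E}
    (hf : SuppIn (lev n : Set Md) f) : res (Cl (n + 1)) f = 0 := by
  funext q
  by_cases hq : q ∈ Cl (n + 1)
  · have h1 : q ∉ (lev n : Set Md) := fun h => hq.2 (h (n + 1) (Nat.lt_succ_self n))
    simp [res, hf q h1]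
  · simp [res, hq]

theorem ts_zero : ts 0 = 0 := by
  unfold ts
  simp

theorem idP_supp {l : ℕ} {P : Md → Md → Mat} (hP : ∀ p q, p - q ∉ lev l → P p q = 0) :
    ∀ p q, p - q ∉ lev l → (idK - (2 : ℂ) • P) p q = 0 := by
  intro p q hpq
  have h1 : p ≠ q := by
    rintro rfl
    apply hpq
    rw [sub_self]
    exact zero_mem _
  have h2 : idK p q = 0 := by simp [idK, diagK, h1]
  show idK p q - (2 : ℂ) • P p q = 0
  rw [hP p q hpq, h2]
  ext v i
  simp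

theorem kcomp_supp {l : ℕ} {A B : Md → Md → Mat} (hA : ∀ p q, p - q ∉ lev l → A p q = 0)
    (hB : ∀ p q, p - q ∉ lev l → B p q = 0) : ∀ p q, p - q ∉ lev l → kcomp A B p q = 0 := by
  intro p q hpq
  unfold kcomp
  have : ∀ j, (A p j).comp (B j q) = 0 := by
    intro j
    by_cases h1 : p - j ∈ lev l
    · have h2 : j - q ∉ lev l := by
        intro h2
        apply hpq
        have := add_mem h1 h2
        rwa [sub_add_sub_cancel] at this
      rw [hB j q h2, ContinuousLinearMap.comp_zero]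
    · rw [hA p j h1, ContinuousLinearMap.zero_comp]
  simp [this]

end S20aux

open S20aux in
theorem s20 (h03 : S03) (h14 : S14) (h15 : S15) (hW03 : W03) (hW05 : W05) (hW09 : W09)
    (hW16 : W16) : S20 := by
  intro D ρ Str hD hW w κ hA
  have hmn := hD.hmn
  have hT := hD.T_pos
  have hc := hD.c_pos
  have hpar : Par D.T D.c D.γ := by
    refine ⟨hT, ?_, ?_⟩
    · rw [hD.γ_eq]
      positivity
    · rw [hD.γ_eq, div_mul_eq_mul_div, div_le_iff₀ (by positivity)]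
      nlinarith
  have hCs : Cs D.m (D.n + 1) = Cl (D.n + 1) := by
    unfold Cs
    rw [if_neg (by omega)]
  have hwt : Wt D.T (ρ (D.n + 1)) := hW.wt _ (by omega) le_rfl
  set f : ℝ → Md → C3 := fun t => res (Cl (D.n + 1)) (w t) with hf
  have hfcm : CM D.T f := by
    intro q
    by_cases hq : q ∈ Cl (D.n + 1)
    · have : (fun t => f t q) = fun t => w t q := by
        funext t
        simp [hf, res, hq]
      rw [this]
      exact hA.w_cm q
    · have : (fun t => f t q) = fun _ => 0 := by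
        funext t
        simp [hf, res, hq]
      rw [this]
      exact continuousOn_const
  have hfs : SuppT D.T (Cl (D.n + 1)) f := fun t _ => res_supp _ _
  have hfX : Nrm D.T D.c D.γ (ρ (D.n + 1)) f ≤ XN D ρ w κ := by
    unfold XN
    refine le_trans ?_ le_self_add
    have h1 := Finset.single_le_sum (s := Finset.Icc D.m (D.n + 1))
      (f := fun o => Nrm D.T D.c D.γ (ρ o) (fun t => res (Cs D.m o) (w t)))
      (fun _ _ => zero_le) (Finset.mem_Icc.2 ⟨by omega, le_rfl⟩ : D.n + 1 ∈ _)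
    simp only [hCs] at h1
    exact h1
  have hffin : Nrm D.T D.c D.γ (ρ (D.n + 1)) f ≠ ∞ := ne_top_of_le_ne_top hA.fin hfX
  -- supports of kernels
  have hPl : ∀ i, D.m ≤ i → i ≤ D.n → ∀ t ∈ Icc 0 D.T, ∀ p q, p - q ∉ lev i →
      D.Pl i t p q = 0 := by
    intro i hi1 hi2 t ht p q hpq
    obtain ⟨c, b, e, hfd⟩ := hD.fd i hi1 hi2 t ht
    exact ((hW16 Md (lev i) c b e (D.F i t) (D.Fi i t) (xi D.K) hfd).2.2.1 p q hpq).2
  have hgen : ∀ t ∈ Icc 0 D.T, ∀ p q, p - q ∉ lev D.n → D.gen D.n t p q = 0 := by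
    intro t ht p q hpq
    have h1 := kcomp_supp (l := D.n) (idP_supp (hPl D.n hmn le_rfl t ht))
      ((h03 C3 C3 C3).2.2.2.2.1 D.n (D.M D.n t) ((hD.F_supp D.n hmn le_rfl).2.2 t ht)) p q hpq
    show -(kcomp (idK - (2 : ℂ) • D.Pl D.n t) (mulK (D.M D.n t)) p q) = 0
    rw [h1, neg_zero]
  -- the formula
  have hres_add : ∀ a b : Md → C3, res (Cl (D.n + 1)) (a + b) =
      res (Cl (D.n + 1)) a + res (Cl (D.n + 1)) b := by
    intro a b
    funext q
    by_cases hq : q ∈ Cl (D.n + 1) <;> simp [res, hq]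
  have hres_sum : ∀ (s : Finset ℕ) (g : ℕ → Md → C3),
      res (Cl (D.n + 1)) (∑ i ∈ s, g i) = ∑ i ∈ s, res (Cl (D.n + 1)) (g i) := by
    intro s g
    funext q
    by_cases hq : q ∈ Cl (D.n + 1) <;> simp [res, hq]
  have hQ : ∀ t ∈ Icc 0 D.T, QL D (D.n + 1) w κ t =
      act (D.gen D.n t) (f t) - mul (D.gK (D.n + 1) t) (f t) := by
    intro t ht
    unfold QL
    rw [hCs]
    have h1 : model D (D.n + 1) t (res (Cl (D.n + 1)) (w t)) = mul (D.gK (D.n + 1) t) (f t) := by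
      unfold model
      rw [if_neg (by omega)]
    have h2 : res (Cl (D.n + 1)) (Lin D w κ t) = act (D.gen D.n t) (f t) := by
      unfold Lin
      rw [hres_add, hres_sum, (h03 C3 C3 C3).2.2.1 (D.gen D.n t) D.n (D.n + 1) (w t)
        (Nat.lt_succ_self _) (hgen t ht)]
      rw [Finset.sum_eq_zero, add_zero]
      intro i hi
      obtain ⟨hi1, hi2⟩ := Finset.mem_Ioc.1 hi
      have hsup : SuppIn (lev D.n : Set Md) (mul (tsF (D.a i t))
          (mul (D.rw i t) (res (Cl i) (w t)) - (D.N i : ℂ) • res (Cl i) (κ t))) := by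
        unfold mul
        refine (h03 ℂ C3 C3).1 _ D.n D.n _ le_rfl ((h03 ℂ C3 C3).2.2.2.2.1 D.n _ ?_) ?_
        · intro q hq
          have h3 : D.a i t q = 0 := (hD.z_supp i hi1 hi2).2 t ht q fun h =>
            hq (lev_mono hi2 (cl_sub_lev i h))
          show ts (D.a i t q) = 0
          rw [h3, ts_zero]
        · have h4 : SuppIn (lev D.n : Set Md) (act (mulK (D.rw i t)) (res (Cl i) (w t))) := by
            refine (h03 C3 ℂ ℂ).1 _ D.n D.n _ le_rfl ((h03 C3 ℂ ℂ).2.2.2.2.1 D.n _ ?_) ?_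
            · refine suppIn_mono (lev_mono (by omega : i - 1 ≤ D.n)) ?_
              exact (h15 D hD i hi1 (by omega)).2.2.2.2.2.2.2.2.2.1 t ht
            · exact suppIn_mono ((cl_sub_lev i).trans (lev_mono hi2)) (res_supp _ _)
          intro q hq
          have h5 := h4 q hq
          have h6 : res (Cl i) (κ t) q = 0 :=
            suppIn_mono ((cl_sub_lev i).trans (lev_mono hi2)) (res_supp _ _) q hq
          show act (mulK (D.rw i t)) (res (Cl i) (w t)) q - (D.N i : ℂ) • res (Cl i) (κ t) q = 0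
          rw [h5, h6]
          simp
      rw [(h03 C3 C3 C3).2.2.1 _ i (D.n + 1) _ (by omega)
        (idP_supp (hPl i hi1.le hi2 t ht)), res_eq_zero hsup]
      funext q
      simp [act]
    rw [h1, h2]
  obtain ⟨hecm, hesupp, hesrc⟩ := h14 D hD (ρ (D.n + 1)) f hwt hfcm hfs hffin
  have hcmQ : CM D.T (QL D (D.n + 1) w κ) := by
    intro q
    refine (hecm q).congr fun t ht => ?_
    rw [hQ t ht]
  have hsuppQ : SuppT D.T (Cl (D.n + 1)) (QL D (D.n + 1) w κ) := by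
    intro t ht
    rw [hQ t ht]
    exact hesupp t ht
  have hsrcQ : Src D.T D.c D.γ (ρ (D.n + 1)) (QL D (D.n + 1) w κ) ≤
      ENNReal.ofReal (D.G ^ 18 * D.u (D.n + 1) ^ 512) * XN D ρ w κ := by
    have h1 : Src D.T D.c D.γ (ρ (D.n + 1)) (QL D (D.n + 1) w κ) =
        Src D.T D.c D.γ (ρ (D.n + 1)) (fun t => act (D.gen D.n t) (f t) -
          mul (D.gK (D.n + 1) t) (f t)) := by
      unfold Src
      refine tsum_congr fun q => ?_
      refine iSup_congr fun t => iSup_congr fun ht => ?_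
      refine setLIntegral_congr_fun measurableSet_Ioc fun s hs => ?_
      simp only
      rw [hQ s ⟨hs.1.le, hs.2.trans ht.2⟩]
    rw [h1]
    refine hesrc.trans ?_
    exact mul_le_mul_right hfX _
  refine ⟨hcmQ, hsuppQ, hsrcQ, ?_⟩
  -- the `κ` source
  have hN1 : 1 ≤ D.N (D.n + 1) := hD.N_pos _ le_rfl
  have hN : 0 < D.N (D.n + 1) := by linarith
  have hu : 0 < D.u (D.n + 1) := hD.u_pos _
  have hG : 0 < D.G := by linarith [hD.G_two]
  have h15' := h15 D hD (D.n + 1) (by omega) le_rfl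
  have hwt' : Wt D.T (fun t => D.u (D.n + 1) ^ 128 * ρ (D.n + 1) t) :=
    ⟨fun t ht => mul_pos (by positivity) (hwt.pos t ht), continuousOn_const.mul hwt.cont,
      fun a ha b hb hab => mul_le_mul_of_nonneg_left (hwt.mono ha hb hab) (by positivity)⟩
  have hA1 : Src D.T D.c D.γ (ρ (D.n + 1))
      (fun t => mul (D.rw (D.n + 1) t) (QL D (D.n + 1) w κ t)) ≤
      ENNReal.ofReal (D.G * D.N (D.n + 1)) *
        Src D.T D.c D.γ (ρ (D.n + 1)) (QL D (D.n + 1) w κ) := by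
    refine (hW03 Md C3 ℂ D.T D.c D.γ (ρ (D.n + 1)) (fun t => mulK (D.rw (D.n + 1) t))
      (QL D (D.n + 1) w κ) hpar hwt hcmQ).trans ?_
    refine mul_le_mul_left ?_ _
    rw [(hW09 Md C3 ℂ ℂ D.T D.c hc.le).2.2.2.1]
    exact h15'.2.1
  have hA2 := ((hW05 Md ℂ D.T D.c D.γ (ρ (D.n + 1))
    (fun t => D.u (D.n + 1) ^ 128 * ρ (D.n + 1) t)
    (fun t => mul (D.rw (D.n + 1) t) (QL D (D.n + 1) w κ t))
    (fun t => mul (D.rw (D.n + 1) t) (QL D (D.n + 1) w κ t)) hpar hwt hwt').2.1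
    ((D.u (D.n + 1) ^ 128)⁻¹) (by positivity) (fun t ht => by
      rw [← mul_assoc, inv_mul_cancel₀ (by positivity), one_mul])).2
  have hA3 := ((hW05 Md ℂ D.T D.c D.γ (fun t => D.u (D.n + 1) ^ 128 * ρ (D.n + 1) t)
    (fun t => D.u (D.n + 1) ^ 128 * ρ (D.n + 1) t)
    (fun t => mul (D.rw (D.n + 1) t) (QL D (D.n + 1) w κ t))
    (fun t => mul (D.rw (D.n + 1) t) (QL D (D.n + 1) w κ t)) hpar hwt' hwt').2.2.2.2
    ((D.N (D.n + 1) : ℂ)⁻¹)).2
  have hnorm : ‖((D.N (D.n + 1) : ℂ)⁻¹)‖ₑ = ENNReal.ofReal ((D.N (D.n + 1))⁻¹) := by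
    rw [← ofReal_norm, norm_inv, Complex.norm_real, Real.norm_of_nonneg hN.le]
  have hA3' : Src D.T D.c D.γ (fun t => D.u (D.n + 1) ^ 128 * ρ (D.n + 1) t)
      (fun t => ((D.N (D.n + 1) : ℂ)⁻¹) • mul (D.rw (D.n + 1) t) (QL D (D.n + 1) w κ t)) =
      ENNReal.ofReal ((D.N (D.n + 1))⁻¹) *
        Src D.T D.c D.γ (fun t => D.u (D.n + 1) ^ 128 * ρ (D.n + 1) t)
          (fun t => mul (D.rw (D.n + 1) t) (QL D (D.n + 1) w κ t)) := by
    rw [← hnorm]
    exact hA3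
  rw [hA3']
  calc _ ≤ ENNReal.ofReal ((D.N (D.n + 1))⁻¹) * (ENNReal.ofReal ((D.u (D.n + 1) ^ 128)⁻¹) *
        (ENNReal.ofReal (D.G * D.N (D.n + 1)) *
          (ENNReal.ofReal (D.G ^ 18 * D.u (D.n + 1) ^ 512) * XN D ρ w κ))) := by
        refine mul_le_mul_right (hA2.trans (mul_le_mul_right (hA1.trans
          (mul_le_mul_right hsrcQ _)) _)) _
    _ = ENNReal.ofReal (D.G ^ 19 * D.u (D.n + 1) ^ 384) * XN D ρ w κ := by
        rw [← mul_assoc, ← mul_assoc, ← mul_assoc, ← ENNReal.ofReal_mul (by positivity),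
          ← ENNReal.ofReal_mul (by positivity), ← ENNReal.ofReal_mul (by positivity)]
        congr 2
        field_simp

end Pool.Agent.Work.MP_b0497c_an.Unf.S

end
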