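import Pool.Agent.Work.MP_b0497c_an.Unf.SStmts
import Pool.Agent.Work.MP_b0497c_an.Unf.SStmts2
import Pool.Agent.Work.MP_b0497c_an.Bd.B03
import Pool.Agent.Work.MP_b0497c_an.Unf.W10
import Pool.Agent.Work.MP_b0497c_an.Bd.B04

/-! Bundle of small proof modules (one section per former module). -/

section

set_option autoImplicit false

/-!
# S03: supports, classes and kernels
-/

open scoped ENNReal
open Set MeasureTheory

namespace Pool.Agent.Work.MP_b0497c_an.Unf.S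

open W

theorem lev_mono {l n : ℕ} (h : l ≤ n) : lev l ≤ lev n := by
  intro q hq i hi
  exact hq i (lt_of_le_of_lt h hi)

theorem Cl_iff_of_sub_mem {l j : ℕ} (h : l < j) {p q : Md} (hpq : p - q ∈ lev l) :
    p ∈ Cl j ↔ q ∈ Cl j := by
  have h1 : p - q ∈ lev j := lev_mono h.le hpq
  have h2 : p j = q j := by
    have := hpq j h
    rw [Finsupp.sub_apply] at this
    omega
  have h3 : p ∈ lev j ↔ q ∈ lev j := by
    constructor
    · intro hp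
      have := (lev j).sub_mem hp h1
      simpa using this
    · intro hq
      have := (lev j).add_mem h1 hq
      simpa using this
  unfold Cl
  simp only [mem_ofPred_eq]
  rw [h3, h2]

theorem lev_iff_of_sub_mem {l j : ℕ} (h : l ≤ j) {p q : Md} (hpq : p - q ∈ lev l) :
    p ∈ (lev j : Set Md) ↔ q ∈ (lev j : Set Md) := by
  have h1 : p - q ∈ lev j := lev_mono h hpq
  constructor
  · intro hp
    have := (lev j).sub_mem hp h1
    simpa using this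
  · intro hq
    have := (lev j).add_mem h1 hq
    simpa using this

section

variable {E F G : Type} [NormedAddCommGroup E] [NormedSpace ℂ E] [NormedAddCommGroup F]
  [NormedSpace ℂ F] [NormedAddCommGroup G] [NormedSpace ℂ G]

/-- Kernels whose shifts preserve a set of modes preserve supports. -/
theorem supp_act_of_iff {A : Md → Md → (E →L[ℂ] F)} {f : Md → E} {S : Set Md} {Λ : Set Md}
    (hΛ : ∀ p q : Md, p - q ∈ Λ → (p ∈ S ↔ q ∈ S)) (hA : ∀ p q, p - q ∉ Λ → A p q = 0)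
    (hf : SuppIn S f) : SuppIn S (act A f) := by
  intro p hp
  unfold act
  rw [show (fun q => A p q (f q)) = fun _ => (0 : F) from ?_]
  · exact tsum_zero
  · funext q
    by_cases h : p - q ∈ Λ
    · have : q ∉ S := fun hq => hp ((hΛ p q h).2 hq)
      rw [hf q this, map_zero]
    · rw [hA p q h]
      rfl

omit [NormedSpace ℂ E] in
theorem res_of_mem {S : Set Md} {f : Md → E} {q : Md} (h : q ∈ S) : res S f q = f q := by
  unfold res
  exact if_pos h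

omit [NormedSpace ℂ E] in
theorem res_of_notMem {S : Set Md} {f : Md → E} {q : Md} (h : q ∉ S) : res S f q = 0 := by
  unfold res
  exact if_neg h

theorem res_act_of_iff {A : Md → Md → (E →L[ℂ] F)} {f : Md → E} {S : Set Md} {Λ : Set Md}
    (hΛ : ∀ p q : Md, p - q ∈ Λ → (p ∈ S ↔ q ∈ S)) (hA : ∀ p q, p - q ∉ Λ → A p q = 0) :
    res S (act A f) = act A (res S f) := by
  funext p
  by_cases hp : p ∈ S
  · rw [res_of_mem hp]
    unfold act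
    refine tsum_congr fun q => ?_
    by_cases h : p - q ∈ Λ
    · rw [res_of_mem ((hΛ p q h).1 hp)]
    · rw [hA p q h]
      rfl
  · rw [res_of_notMem hp]
    unfold act
    rw [show (fun q => A p q (res S f q)) = fun _ => (0 : F) from ?_]
    · exact tsum_zero.symm
    · funext q
      by_cases h : p - q ∈ Λ
      · rw [res_of_notMem (fun hq => hp ((hΛ p q h).2 hq)), map_zero]
      · rw [hA p q h]
        rfl

theorem supp_conv {β : E →L[ℂ] F →L[ℂ] G} {f : Md → E} {g : Md → F} {S S1 S2 : Set Md}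
    (h : ∀ p q : Md, p - q ∈ S1 → q ∈ S2 → p ∈ S) (hf : SuppIn S1 f) (hg : SuppIn S2 g) :
    SuppIn S (conv β f g) := by
  intro p hp
  unfold conv
  rw [show (fun q => β (f (p - q)) (g q)) = fun _ => (0 : G) from ?_]
  · exact tsum_zero
  · funext q
    by_cases h1 : p - q ∈ S1
    · by_cases h2 : q ∈ S2
      · exact absurd (h p q h1 h2) hp
      · rw [hg q h2, map_zero]
    · rw [hf _ h1, map_zero]
      rfl

end

theorem s03 : S03 := by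
  intro E F G _ _ _ _ _ _
  refine ⟨?_, ?_, ?_, ?_, ?_, ?_, ?_⟩
  · intro A l n f hln hA hf
    exact supp_act_of_iff (Λ := lev l) (fun p q => lev_iff_of_sub_mem hln) hA hf
  · intro A l j f hlj hA hf
    exact supp_act_of_iff (Λ := lev l) (fun p q => Cl_iff_of_sub_mem hlj) hA hf
  · intro A l j f hlj hA
    exact res_act_of_iff (Λ := lev l) (fun p q => Cl_iff_of_sub_mem hlj) hA
  · intro A l j f hlj hA
    exact res_act_of_iff (Λ := lev l) (fun p q => lev_iff_of_sub_mem hlj) hA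
  · intro l a ha p q hpq
    exact ha _ hpq
  · intro β n f g hf hg
    refine supp_conv ?_ hf hg
    intro p q h1 h2
    exact (lev_iff_of_sub_mem le_rfl h1).2 h2
  · intro β l j f g hlj
    refine ⟨fun hf hg => supp_conv ?_ hf hg, fun hf hg => supp_conv ?_ hf hg⟩
    · intro p q h1 h2
      exact (Cl_iff_of_sub_mem hlj h1).2 h2
    · intro p q h1 h2
      have h3 : p - (p - q) ∈ lev l := by simpa using h2
      exact (Cl_iff_of_sub_mem hlj h3).2 h1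

end Pool.Agent.Work.MP_b0497c_an.Unf.S

end

section

set_option autoImplicit false
set_option linter.unusedSectionVars false

/-!
# Common lemmas for S12, S13, S14 (helper57)
-/

open scoped ENNReal
open Set MeasureTheory

namespace Pool.Agent.Work.MP_b0497c_an.Unf.S.G57

open W

section gen

variable {E F G : Type} [NormedAddCommGroup E] [NormedSpace ℂ E] [NormedAddCommGroup F]
  [NormedSpace ℂ F] [NormedAddCommGroup G] [NormedSpace ℂ G]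

theorem wt1 (T : ℝ) : Wt T Dat.one' :=
  ⟨fun _ _ => one_pos, continuousOn_const, fun _ _ _ _ _ => le_rfl⟩

theorem wtmul {T : ℝ} {ρ ρ' : ℝ → ℝ} (h : Wt T ρ) (h' : Wt T ρ') : Wt T (fun t => ρ t * ρ' t) :=
  ⟨fun t ht => mul_pos (h.pos t ht) (h'.pos t ht), h.cont.mul h'.cont,
   fun a ha b hb hab => mul_le_mul (h.mono ha hb hab) (h'.mono ha hb hab) (h'.pos a ha).le
    (h.pos b hb).le⟩

/-- Static finiteness. -/
theorem sN_ne_top {T c γ : ℝ} {ρ : ℝ → ℝ} (hp : Par T c γ) (hρ : Wt T ρ) {f : ℝ → Md → E}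
    (hf : Nrm T c γ ρ f ≠ ∞) {t : ℝ} (ht : t ∈ Icc 0 T) : sN 0 (f t) ≠ ∞ := by
  have h1 : sN 0 (f t) ≤ ENNReal.ofReal (ρ t) * Nrm T c γ ρ f := by
    unfold sN Nrm
    rw [← ENNReal.tsum_mul_left]
    refine ENNReal.tsum_le_tsum fun m => ?_
    refine le_trans ?_ (mul_le_mul_right (Conv.le_nt (T := T) (c := c) (γ := γ) (ρ := ρ) f ht m) _)
    rw [← mul_assoc, ← ENNReal.ofReal_mul (hρ.pos t ht).le]
    gcongr
    rw [zero_mul, Real.exp_zero, mul_div_cancel₀ _ (hρ.pos t ht).ne']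
    refine Real.one_le_exp (mul_nonneg (Conv.c_sub_nonneg hp ht) (len_nonneg m))
  exact ne_top_of_le_ne_top (ENNReal.mul_ne_top ENNReal.ofReal_ne_top hf) h1

theorem sK_ne_top {T c : ℝ} (hc : 0 ≤ c) {A : ℝ → Md → Md → (E →L[ℂ] F)}
    (hA : KN T c A ≠ ∞) {t : ℝ} (ht : t ∈ Icc 0 T) : sK 0 (A t) ≠ ∞ := by
  have h1 := (pr_W09 Md E F F T c hc).2.2.2.2.2.2 A t ht
  have h2 := ((pr_W10 Md E F F c hc).2.2.2.2.2.2.1 0 hc).1 (A t)
  exact ne_top_of_le_ne_top hA (h2.trans h1)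

theorem Nrm_zero_le {T c γ : ℝ} {ρ : ℝ → ℝ} (hp : Par T c γ) (hρ : Wt T ρ) (f : ℝ → Md → E) :
    Nrm T c γ ρ f ≤ Nrm T c 0 ρ f := by
  unfold Nrm
  refine ENNReal.tsum_le_tsum fun m => ?_
  refine iSup₂_mono fun t ht => ?_
  have := hρ.pos t ht
  have h1 : Real.exp ((c - γ * t) * len m) ≤ Real.exp ((c - 0 * t) * len m) := by
    apply Real.exp_le_exp.2
    have h2 := len_nonneg m
    have h3 : 0 ≤ γ * t := mul_nonneg hp.γ_nonneg ht.1
    nlinarith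
  gcongr

theorem mul_eq_conv (a : Md → (E →L[ℂ] F)) (f : Md → E) :
    mul a f = conv (ContinuousLinearMap.id ℂ (E →L[ℂ] F)) a f := rfl

theorem Nrm_mul_le {T c γ : ℝ} {σ α : ℝ → ℝ} (hp : Par T c γ) (hσ : Wt T σ) (hα : Wt T α)
    (a : ℝ → Md → (E →L[ℂ] F)) (f : ℝ → Md → E) :
    Nrm T c γ (fun t => σ t * α t) (fun t => mul (a t) (f t)) ≤
      Nrm T c 0 α a * Nrm T c γ σ f := by
  have h1 := pr_W02 Md (E →L[ℂ] F) E F T c γ α σ (ContinuousLinearMap.id ℂ (E →L[ℂ] F)) a f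
    hp hα hσ
  have h2 : ‖ContinuousLinearMap.id ℂ (E →L[ℂ] F)‖ₑ ≤ 1 := by
    have := ContinuousLinearMap.norm_id_le (𝕜 := ℂ) (E := (E →L[ℂ] F))
    rw [← ofReal_norm]
    exact ENNReal.ofReal_le_one.2 this
  have h3 : (fun t => σ t * α t) = fun t => α t * σ t := by
    funext t; exact mul_comm _ _
  rw [h3]
  refine (show Nrm T c γ (fun t => α t * σ t) (fun t => mul (a t) (f t)) ≤ _ from h1).trans ?_
  gcongr
  calc ‖ContinuousLinearMap.id ℂ (E →L[ℂ] F)‖ₑ * Nrm T c γ α a ≤ 1 * Nrm T c 0 α a := by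
        gcongr
        exact Nrm_zero_le hp hα a
    _ = _ := one_mul _

theorem Nrm_mul_le1 {T c γ : ℝ} {σ : ℝ → ℝ} (hp : Par T c γ) (hσ : Wt T σ)
    (a : ℝ → Md → (E →L[ℂ] F)) (f : ℝ → Md → E) :
    Nrm T c γ σ (fun t => mul (a t) (f t)) ≤ Nrm T c 0 Dat.one' a * Nrm T c γ σ f := by
  have h := Nrm_mul_le hp hσ (wt1 T) a f
  have h3 : (fun t => σ t * Dat.one' t) = σ := by
    funext t; exact mul_one _
  rwa [h3] at h

theorem CM_mul [CompleteSpace E] [CompleteSpace F] {T c γ : ℝ} {σ α : ℝ → ℝ} (hp : Par T c γ) (hσ : Wt T σ)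
    (hα : Wt T α)
    {a : ℝ → Md → (E →L[ℂ] F)} {f : ℝ → Md → E} (ha : CM T a) (hf : CM T f)
    (ha' : Nrm T c 0 α a ≠ ∞) (hf' : Nrm T c γ σ f ≠ ∞) :
    CM T (fun t => mul (a t) (f t)) := by
  have h := (pr_W12 Md (E →L[ℂ] F) E F T c γ α σ hp hα hσ).2.2
    (ContinuousLinearMap.id ℂ (E →L[ℂ] F)) a f ha hf
    (ne_top_of_le_ne_top ha' (Nrm_zero_le hp hα a)) hf'
  exact h

theorem CM_add {T : ℝ} {f g : ℝ → Md → E} (hf : CM T f) (hg : CM T g) :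
    CM T (fun t => f t + g t) := fun m => (hf m).add (hg m)

theorem CM_sub {T : ℝ} {f g : ℝ → Md → E} (hf : CM T f) (hg : CM T g) :
    CM T (fun t => f t - g t) := fun m => (hf m).sub (hg m)

theorem CM_smul {T : ℝ} {f : ℝ → Md → E} (z : ℂ) (hf : CM T f) :
    CM T (fun t => z • f t) := fun m => (hf m).const_smul z

/-! ### algebra -/

theorem act_neg (A : Md → Md → (E →L[ℂ] F)) (f : Md → E) : act (-A) f = - act A f := by
  funext m
  show ∑' l, -((A m l) (f l)) = -∑' l, (A m l) (f l)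
  exact tsum_neg

theorem act_smul (z : ℂ) (A : Md → Md → (E →L[ℂ] F)) (f : Md → E) :
    act (z • A) f = z • act A f := by
  funext m
  show ∑' l, z • ((A m l) (f l)) = z • ∑' l, (A m l) (f l)
  exact tsum_const_smul'' z

theorem sK_smul_ne {z : ℂ} {A : Md → Md → (E →L[ℂ] F)} (hA : sK 0 A ≠ ∞) : sK 0 (z • A) ≠ ∞ := by
  have h : sK 0 (z • A) ≤ ‖z‖ₑ * sK 0 A := by
    unfold sK
    rw [← ENNReal.tsum_mul_left]
    refine ENNReal.tsum_le_tsum fun k => ?_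
    rw [← mul_assoc, mul_comm ‖z‖ₑ, mul_assoc]
    gcongr
    rw [ENNReal.mul_iSup]
    refine iSup_mono fun l => ?_
    rw [Pi.smul_apply, Pi.smul_apply, enorm_smul]
  exact ne_top_of_le_ne_top (ENNReal.mul_ne_top enorm_ne_top hA) h

theorem sK_neg_eq (A : Md → Md → (E →L[ℂ] F)) : sK 0 (-A) = sK 0 A := by
  unfold sK
  simp only [Pi.neg_apply, enorm_neg]

theorem sK_add_ne {A B : Md → Md → (E →L[ℂ] F)} (hA : sK 0 A ≠ ∞) (hB : sK 0 B ≠ ∞) :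
    sK 0 (A + B) ≠ ∞ :=
  ne_top_of_le_ne_top (ENNReal.add_ne_top.2 ⟨hA, hB⟩)
    ((pr_W10 Md E F F 0 le_rfl).2.2.2.2.2.1 A B)

theorem act_add [CompleteSpace F] {A B : Md → Md → (E →L[ℂ] F)} {f : Md → E}
    (hA : sK 0 A ≠ ∞) (hB : sK 0 B ≠ ∞) (hf : sN 0 f ≠ ∞) :
    act (A + B) f = act A f + act B f :=
  ((pr_W11 Md E F F F).2.2.2.1 A B f f hA hB hf hf).1

theorem act_sub [CompleteSpace F] {A B : Md → Md → (E →L[ℂ] F)} {f : Md → E}
    (hA : sK 0 A ≠ ∞) (hB : sK 0 B ≠ ∞) (hf : sN 0 f ≠ ∞) :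
    act (A - B) f = act A f - act B f := by
  rw [sub_eq_add_neg, act_add hA (by rwa [sK_neg_eq]) hf, act_neg, ← sub_eq_add_neg]

theorem act_add' [CompleteSpace F] {A : Md → Md → (E →L[ℂ] F)} {f g : Md → E}
    (hA : sK 0 A ≠ ∞) (hf : sN 0 f ≠ ∞) (hg : sN 0 g ≠ ∞) :
    act A (f + g) = act A f + act A g :=
  ((pr_W11 Md E F F F).2.2.2.1 A A f g hA hA hf hg).2

theorem sK_mulK (a : Md → (E →L[ℂ] F)) : sK 0 (mulK a) = sN 0 a :=
  (pr_W10 Md E F F 0 le_rfl).2.2.2.1 a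

theorem sK_idK : sK 0 idK ≠ ∞ := by
  refine ne_top_of_le_ne_top ENNReal.one_ne_top
    ((pr_W10 Md C3 C3 C3 0 le_rfl).2.2.2.2.1 (fun _ => ContinuousLinearMap.id ℂ C3) 1 ?_)
  intro m
  have := ContinuousLinearMap.norm_id_le (𝕜 := ℂ) (E := C3)
  rw [← ofReal_norm]
  exact ENNReal.ofReal_le_one.2 this

theorem act_idK (f : Md → C3) : act idK f = f := by
  funext m
  exact act_diagK _ _ _

theorem act_one_sub {P : Md → Md → Mat} (hP : sK 0 P ≠ ∞) {f : Md → C3} (hf : sN 0 f ≠ ∞) :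
    act (idK - (2 : ℂ) • P) f = f - (2 : ℂ) • act P f := by
  rw [act_sub sK_idK (sK_smul_ne hP) hf, act_idK, act_smul]

theorem mulK_mm (a : Md → (F →L[ℂ] G)) (b : Md → (E →L[ℂ] F)) :
    mulK (mm a b) = kcomp (mulK a) (mulK b) := by
  funext m l
  unfold mulK mm conv kcomp
  rw [← (Equiv.addRight l).tsum_eq (fun j => (a (m - j)).comp (b (j - l)))]
  refine tsum_congr fun j => ?_
  simp only [Equiv.coe_addRight, add_sub_cancel_right]
  rw [show m - l - j = m - (j + l) by abel]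
  rfl

theorem mul_mm [CompleteSpace F] [CompleteSpace G] {a : Md → (F →L[ℂ] G)} {b : Md → (E →L[ℂ] F)}
    {f : Md → E} (ha : sN 0 a ≠ ∞) (hb : sN 0 b ≠ ∞) (hf : sN 0 f ≠ ∞) :
    mul (mm a b) f = mul a (mul b f) := by
  unfold mul
  rw [mulK_mm]
  exact (pr_W11 Md E F G G).2.1 (mulK a) (mulK b) f (by rwa [sK_mulK]) (by rwa [sK_mulK]) hf

theorem sN_mul_ne {a : Md → (E →L[ℂ] F)} {f : Md → E} (ha : sN 0 a ≠ ∞) (hf : sN 0 f ≠ ∞) :
    sN 0 (mul a f) ≠ ∞ := by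
  refine ne_top_of_le_ne_top (ENNReal.mul_ne_top (?_ : sK 0 (mulK a) ≠ ∞) hf)
    ((pr_W10 Md E F F 0 le_rfl).2.1 (mulK a) f)
  rwa [sK_mulK]

theorem sN_act_ne {A : Md → Md → (E →L[ℂ] F)} {f : Md → E} (hA : sK 0 A ≠ ∞) (hf : sN 0 f ≠ ∞) :
    sN 0 (act A f) ≠ ∞ :=
  ne_top_of_le_ne_top (ENNReal.mul_ne_top hA hf) ((pr_W10 Md E F F 0 le_rfl).2.1 A f)

theorem mulK_add (a b : Md → (E →L[ℂ] F)) : mulK (a + b) = mulK a + mulK b := rfl

theorem mul_add_left [CompleteSpace F] {a b : Md → (E →L[ℂ] F)} {f : Md → E} (ha : sN 0 a ≠ ∞)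
    (hb : sN 0 b ≠ ∞) (hf : sN 0 f ≠ ∞) : mul (a + b) f = mul a f + mul b f := by
  unfold mul
  rw [mulK_add]
  exact act_add (by rwa [sK_mulK]) (by rwa [sK_mulK]) hf

theorem mulK_oneM : mulK oneM = idK := by
  funext m l
  unfold mulK oneM idK diagK
  by_cases h : m = l
  · subst h; simp
  · simp [h, sub_eq_zero]

/-- `(1 - 2p) g = g - 2 p g`. -/
theorem mul_one_sub {p : Md → Mat} (hp : sN 0 p ≠ ∞) {g : Md → C3} (hg : sN 0 g ≠ ∞) :
    mul (oneM - (2 : ℂ) • p) g = g - (2 : ℂ) • mul p g := by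
  have h1 : mulK (oneM - (2 : ℂ) • p) = idK - (2 : ℂ) • mulK p := by
    rw [← mulK_oneM]; rfl
  unfold mul
  rw [h1]
  exact act_one_sub (by rwa [sK_mulK]) hg

theorem sN_oneM : sN 0 oneM ≠ ∞ := by
  rw [← sK_mulK, mulK_oneM]
  exact sK_idK

theorem sN_add_ne {f g : Md → E} (hf : sN 0 f ≠ ∞) (hg : sN 0 g ≠ ∞) : sN 0 (f + g) ≠ ∞ := by
  refine ne_top_of_le_ne_top (ENNReal.add_ne_top.2 ⟨hf, hg⟩) ?_
  unfold sN
  rw [← ENNReal.tsum_add]
  refine ENNReal.tsum_le_tsum fun m => ?_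
  rw [← _root_.mul_add]
  gcongr
  exact enorm_add_le _ _

theorem sN_smul_ne {f : Md → E} (z : ℂ) (hf : sN 0 f ≠ ∞) : sN 0 (z • f) ≠ ∞ := by
  refine ne_top_of_le_ne_top (ENNReal.mul_ne_top (enorm_ne_top (x := z)) hf) ?_
  unfold sN
  rw [← ENNReal.tsum_mul_left]
  refine ENNReal.tsum_le_tsum fun m => ?_
  rw [Pi.smul_apply, enorm_smul, ← mul_assoc, mul_comm _ ‖z‖ₑ, mul_assoc]

theorem sN_neg_ne {f : Md → E} (hf : sN 0 f ≠ ∞) : sN 0 (-f) ≠ ∞ := by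
  have : sN 0 (-f) = sN 0 f := by
    unfold sN
    simp only [Pi.neg_apply, enorm_neg]
  rwa [this]

theorem sN_sub_ne {f g : Md → E} (hf : sN 0 f ≠ ∞) (hg : sN 0 g ≠ ∞) : sN 0 (f - g) ≠ ∞ := by
  rw [sub_eq_add_neg]
  exact sN_add_ne hf (sN_neg_ne hg)

/-- the exact generator -/
theorem act_genP {P : Md → Md → Mat} {M : Md → Mat} {f : Md → C3} (hP : sK 0 P ≠ ∞)
    (hM : sN 0 M ≠ ∞) (hf : sN 0 f ≠ ∞) :
    act (genP P M) f = -(mul M f - (2 : ℂ) • act P (mul M f)) := by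
  unfold genP
  have h1 : sK 0 (idK - (2 : ℂ) • P) ≠ ∞ := by
    rw [sub_eq_add_neg]
    exact sK_add_ne sK_idK (by rw [sK_neg_eq]; exact sK_smul_ne hP)
  rw [act_neg, (pr_W11 Md C3 C3 C3 C3).2.1 _ (mulK M) f h1 (by rwa [sK_mulK]) hf]
  congr 1
  exact act_one_sub hP (sN_mul_ne hM hf)

/-- the Kelvin generator -/
theorem mul_genK {p M : Md → Mat} {f : Md → C3} (hp : sN 0 p ≠ ∞)
    (hM : sN 0 M ≠ ∞) (hf : sN 0 f ≠ ∞) :
    mul (genK p M) f = -(mul M f - (2 : ℂ) • mul p (mul M f)) := by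
  unfold genK
  have h1 : sN 0 (oneM - (2 : ℂ) • p) ≠ ∞ := sN_sub_ne sN_oneM (sN_smul_ne _ hp)
  have h2 : mul (-(mm (oneM - (2 : ℂ) • p) M)) f = - mul (mm (oneM - (2 : ℂ) • p) M) f := by
    unfold mul
    rw [← act_neg]
    rfl
  rw [h2, mul_mm h1 hM hf, mul_one_sub hp (sN_mul_ne hM hf)]

/-! ### norms of sums -/

theorem Src_le_Nrm {T c γ : ℝ} {ρ : ℝ → ℝ} (hp : Par T c γ) (hT : T ≤ 1) (hρ : Wt T ρ)
    (f : ℝ → Md → E) : Src T c γ ρ f ≤ Nrm T c γ ρ f := by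
  have h := (pr_W05 Md E T c γ ρ ρ f f hp hρ hρ).1
  refine h.trans ?_
  calc ENNReal.ofReal T * Nrm T c γ ρ f ≤ 1 * Nrm T c γ ρ f := by
        gcongr
        exact ENNReal.ofReal_le_one.2 hT
    _ = _ := one_mul _

theorem Src_add {T c γ : ℝ} {ρ : ℝ → ℝ} (hp : Par T c γ) (hρ : Wt T ρ)
    {f g : ℝ → Md → E} (hf : CM T f) :
    Src T c γ ρ (fun t => f t + g t) ≤ Src T c γ ρ f + Src T c γ ρ g :=
  (pr_W05 Md E T c γ ρ ρ f g hp hρ hρ).2.2.2.1 hf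

theorem Src_smul {T c γ : ℝ} {ρ : ℝ → ℝ} (hp : Par T c γ) (hρ : Wt T ρ) (z : ℂ)
    (f : ℝ → Md → E) : Src T c γ ρ (fun t => z • f t) = ‖z‖ₑ * Src T c γ ρ f :=
  ((pr_W05 Md E T c γ ρ ρ f f hp hρ hρ).2.2.2.2 z).2

theorem Nrm_add {T c γ : ℝ} {ρ : ℝ → ℝ} (hp : Par T c γ) (hρ : Wt T ρ)
    (f g : ℝ → Md → E) :
    Nrm T c γ ρ (fun t => f t + g t) ≤ Nrm T c γ ρ f + Nrm T c γ ρ g :=
  (pr_W05 Md E T c γ ρ ρ f g hp hρ hρ).2.2.1

theorem Nrm_smul {T c γ : ℝ} {ρ : ℝ → ℝ} (hp : Par T c γ) (hρ : Wt T ρ) (z : ℂ)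
    (f : ℝ → Md → E) : Nrm T c γ ρ (fun t => z • f t) = ‖z‖ₑ * Nrm T c γ ρ f :=
  ((pr_W05 Md E T c γ ρ ρ f f hp hρ hρ).2.2.2.2 z).1

theorem two_enorm : ‖(2 : ℂ)‖ₑ = ENNReal.ofReal 2 := by
  rw [← ofReal_norm]; norm_num

theorem neg_two_enorm : ‖(-2 : ℂ)‖ₑ = ENNReal.ofReal 2 := by
  rw [← ofReal_norm]; norm_num

/-- `-(1 - 2Π) r` in the source norm. -/
theorem Src_one_sub {T c γ G : ℝ} {ρ : ℝ → ℝ} (hp : Par T c γ) (hT : T ≤ 1) (hρ : Wt T ρ)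
    (hG : 0 ≤ G) {P : ℝ → Md → Md → Mat} {r : ℝ → Md → C3} (hP : KN T c P ≤ ENNReal.ofReal G) :
    Src T c γ ρ (fun t => (-1 : ℂ) • r t + (2 : ℂ) • act (P t) (r t)) ≤
      ENNReal.ofReal (1 + 2 * G) * Nrm T c γ ρ r := by
  refine (Src_le_Nrm hp hT hρ _).trans ?_
  refine (Nrm_add hp hρ _ _).trans ?_
  rw [Nrm_smul hp hρ, Nrm_smul hp hρ, two_enorm]
  have h1 := pr_W01 Md C3 C3 T c γ ρ P r hp hρ
  have h2 : ‖(-1 : ℂ)‖ₑ = 1 := by
    rw [← ofReal_norm]; norm_num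
  rw [h2, ENNReal.ofReal_add zero_le_one (by positivity), add_mul, ENNReal.ofReal_one,
    ENNReal.ofReal_mul (by norm_num), mul_assoc]
  gcongr
  exact h1.trans (by gcongr)

theorem CM_act {T c γ : ℝ} {ρ : ℝ → ℝ} (hp : Par T c γ) (hρ : Wt T ρ)
    {A : ℝ → Md → Md → Mat} {f : ℝ → Md → C3} (hA : CK T A) (hf : CM T f) (hA' : KN T c A ≠ ∞)
    (hf' : Nrm T c γ ρ f ≠ ∞) : CM T (fun t => act (A t) (f t)) :=
  (pr_W12 Md C3 C3 C3 T c γ ρ ρ hp hρ hρ).1 A f hA hf hA' hf'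

/-! ### supports -/

theorem supp_add {S : Set Md} {f g : Md → E} (hf : SuppIn S f) (hg : SuppIn S g) :
    SuppIn S (f + g) := by
  intro q hq
  rw [Pi.add_apply, hf q hq, hg q hq, add_zero]

theorem supp_sub {S : Set Md} {f g : Md → E} (hf : SuppIn S f) (hg : SuppIn S g) :
    SuppIn S (f - g) := by
  intro q hq
  rw [Pi.sub_apply, hf q hq, hg q hq, sub_zero]

theorem supp_smul {S : Set Md} {f : Md → E} (z : ℂ) (hf : SuppIn S f) :
    SuppIn S (z • f) := by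
  intro q hq
  rw [Pi.smul_apply, hf q hq, smul_zero]

theorem supp_mono {S S' : Set Md} (h : S ⊆ S') {f : Md → E} (hf : SuppIn S f) :
    SuppIn S' f := fun q hq => hf q (fun hq' => hq (h hq'))

theorem Cl_sub_lev {j : ℕ} : Cl j ⊆ (lev j : Set Md) := fun _ hq => hq.1

/-- multiplication by a function of level `l ≤ n` preserves level `n` -/
theorem supp_mul_lev {l n : ℕ} (hln : l ≤ n) {a : Md → (E →L[ℂ] F)} {f : Md → E}
    (ha : SuppIn (lev l : Set Md) a) (hf : SuppIn (lev n : Set Md) f) :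
    SuppIn (lev n : Set Md) (mul a f) :=
  (s03 E F F).1 (mulK a) l n f hln ((s03 E F F).2.2.2.2.1 l a ha) hf

theorem supp_mul_Cl {l j : ℕ} (hlj : l < j) {a : Md → (E →L[ℂ] F)} {f : Md → E}
    (ha : SuppIn (lev l : Set Md) a) (hf : SuppIn (Cl j) f) :
    SuppIn (Cl j) (mul a f) :=
  (s03 E F F).2.1 (mulK a) l j f hlj ((s03 E F F).2.2.2.2.1 l a ha) hf

/-- a coefficient of class `j` times a function of level `l < j` -/
theorem supp_mul_Cl' {l j : ℕ} (hlj : l < j) {a : Md → (E →L[ℂ] F)} {f : Md → E}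
    (ha : SuppIn (Cl j) a) (hf : SuppIn (lev l : Set Md) f) :
    SuppIn (Cl j) (mul a f) :=
  ((s03 (E →L[ℂ] F) E F).2.2.2.2.2.2 (ContinuousLinearMap.id ℂ (E →L[ℂ] F)) l j a f hlj).2 ha hf

/-! ### congruence on `[0,T]` -/

theorem CM_congr {T : ℝ} {f g : ℝ → Md → E} (h : ∀ t ∈ Icc 0 T, f t = g t) (hf : CM T f) :
    CM T g := fun m => (hf m).congr fun t ht => (congrFun (h t ht) m).symm

theorem SuppT_congr {T : ℝ} {S : Set Md} {f g : ℝ → Md → E} (h : ∀ t ∈ Icc 0 T, f t = g t)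
    (hf : SuppT T S f) : SuppT T S g := fun t ht => by rw [← h t ht]; exact hf t ht

theorem Src_congr {T c γ : ℝ} {ρ : ℝ → ℝ} {f g : ℝ → Md → E} (h : ∀ t ∈ Icc 0 T, f t = g t) :
    Src T c γ ρ f = Src T c γ ρ g := by
  unfold Src
  refine tsum_congr fun m => ?_
  refine iSup_congr fun t => iSup_congr fun ht => ?_
  refine setLIntegral_congr_fun measurableSet_Ioc fun s hs => ?_
  have hs' : s ∈ Icc 0 T := Conv.mem_Icc ht hs
  simp only [h s hs']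

theorem Nrm_congr {T c γ : ℝ} {ρ : ℝ → ℝ} {f g : ℝ → Md → E} (h : ∀ t ∈ Icc 0 T, f t = g t) :
    Nrm T c γ ρ f = Nrm T c γ ρ g := by
  unfold Nrm
  refine tsum_congr fun m => ?_
  refine iSup_congr fun t => iSup_congr fun ht => ?_
  rw [h t ht]

end gen

/-! ### the data -/

section dat

variable {D : Dat}

theorem par (h : D.Hyp) : Par D.T D.c D.γ := by
  have hT := h.T_pos
  have hc := h.c_pos
  have hg := h.γ_eq
  refine ⟨hT, ?_, ?_⟩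
  · rw [hg]; positivity
  · have h1 : D.c / (2 * D.T) * D.T = D.c / 2 := by field_simp
    rw [hg, h1]
    linarith

theorem par0 (h : D.Hyp) : Par D.T D.c 0 :=
  ⟨h.T_pos, le_rfl, by rw [zero_mul]; exact h.c_pos.le⟩

theorem Pl_supp (h16 : W16) (h : D.Hyp) {l : ℕ} (h1 : D.m ≤ l) (h2 : l ≤ D.n) {t : ℝ}
    (ht : t ∈ Icc 0 D.T) : ∀ p q, p - q ∉ lev l → D.Pl l t p q = 0 := by
  intro p q hpq
  obtain ⟨c, b, e, hF⟩ := h.fd l h1 h2 t ht
  exact ((h16 Md (lev l) c b e (D.F l t) (D.Fi l t) (xi D.K) hF).2.2.1 p q hpq).2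

theorem Pl_fin (h : D.Hyp) {l : ℕ} (h1 : D.m ≤ l) (h2 : l ≤ D.n) : KN D.T D.c (D.Pl l) ≠ ∞ :=
  ne_top_of_le_ne_top ENNReal.ofReal_ne_top (h.P_le l h1 h2).1

theorem Pl_sfin (h : D.Hyp) {l : ℕ} (h1 : D.m ≤ l) (h2 : l ≤ D.n) {t : ℝ}
    (ht : t ∈ Icc 0 D.T) : sK 0 (D.Pl l t) ≠ ∞ :=
  sK_ne_top h.c_pos.le (Pl_fin h h1 h2) ht

theorem M_fin (h : D.Hyp) {l : ℕ} (h1 : D.m ≤ l) (h2 : l ≤ D.n) :
    Nrm D.T D.c 0 Dat.one' (D.M l) ≠ ∞ :=
  ne_top_of_le_ne_top ENNReal.ofReal_ne_top (h.F_le l h1 h2).2.2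

theorem M_sfin (h : D.Hyp) {l : ℕ} (h1 : D.m ≤ l) (h2 : l ≤ D.n) {t : ℝ}
    (ht : t ∈ Icc 0 D.T) : sN 0 (D.M l t) ≠ ∞ :=
  sN_ne_top (par0 h) (wt1 _) (M_fin h h1 h2) ht

/-- bookkeeping of constants -/
theorem ofReal3 {a b c : ℝ} (ha : 0 ≤ a) (hb : 0 ≤ b) (X : ℝ≥0∞) :
    ENNReal.ofReal a * (ENNReal.ofReal b * (ENNReal.ofReal c * X)) =
      ENNReal.ofReal (a * b * c) * X := by
  rw [ENNReal.ofReal_mul (mul_nonneg ha hb), ENNReal.ofReal_mul ha]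
  ring

theorem G_pow {D : Dat} (h : D.Hyp) : 1 ≤ D.G ∧ 2 * D.G ^ 14 ≤ D.G ^ 15 ∧
    2 * D.G ^ 15 ≤ D.G ^ 16 ∧ 1 + 2 * D.G ≤ D.G ^ 3 ∧ 3 * D.G ^ 16 ≤ D.G ^ 18 := by
  have hG := h.G_two
  have h1 : (1 : ℝ) ≤ D.G := by linarith
  refine ⟨h1, ?_, ?_, ?_, ?_⟩
  · calc 2 * D.G ^ 14 ≤ D.G * D.G ^ 14 := by gcongr
      _ = D.G ^ 15 := by ring
  · calc 2 * D.G ^ 15 ≤ D.G * D.G ^ 15 := by gcongr
      _ = D.G ^ 16 := by ring
  · nlinarith [mul_nonneg (sub_nonneg.2 hG) (sub_nonneg.2 hG),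
      mul_nonneg (mul_nonneg (sub_nonneg.2 hG) (sub_nonneg.2 hG)) (by linarith : 0 ≤ D.G)]
  · have : (3 : ℝ) ≤ D.G ^ 2 := by nlinarith
    calc 3 * D.G ^ 16 ≤ D.G ^ 2 * D.G ^ 16 := by gcongr
      _ = D.G ^ 18 := by ring

end dat

end Pool.Agent.Work.MP_b0497c_an.Unf.S.G57

end

section

set_option autoImplicit false
set_option linter.unusedSectionVars false

/-!
# Facts on `rM`, `tsF a`, `rw` for S12, S13 (helper57)
-/

open scoped ENNReal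
open Set MeasureTheory

namespace Pool.Agent.Work.MP_b0497c_an.Unf.S.G57

open W

theorem enorm_ts (v : C3) : ‖ts v‖ₑ = ‖v‖ₑ := by
  rw [← ofReal_norm, ← ofReal_norm]
  unfold ts
  rw [ContinuousLinearMap.norm_toSpanSingleton]

theorem continuous_ts : Continuous ts :=
  (ContinuousLinearMap.toSpanSingletonLIE ℂ C3).continuous

theorem Nrm_tsF {T c γ : ℝ} {ρ : ℝ → ℝ} (a : ℝ → Md → C3) :
    Nrm T c γ ρ (fun t => tsF (a t)) = Nrm T c γ ρ a := by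
  unfold Nrm tsF
  simp only [enorm_ts]

theorem CM_tsF {T : ℝ} {a : ℝ → Md → C3} (ha : CM T a) : CM T (fun t => tsF (a t)) :=
  fun m => continuous_ts.comp_continuousOn (ha m)

theorem supp_tsF {S : Set Md} {a : Md → C3} (ha : SuppIn S a) : SuppIn S (tsF a) := by
  intro q hq
  unfold tsF ts
  rw [ha q hq, ContinuousLinearMap.toSpanSingleton_zero]

variable {D : Dat}

theorem wα (h : D.Hyp) {l : ℕ} (h1 : D.m < l) (h2 : l ≤ D.n) : Wt D.T (D.α l) :=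
  h.α_wt l h1 (by omega)

theorem a_fin (h : D.Hyp) {l : ℕ} (h1 : D.m < l) (h2 : l ≤ D.n) :
    Nrm D.T D.c 0 (D.α l) (fun t => tsF (D.a l t)) ≠ ∞ := by
  rw [Nrm_tsF]
  exact ne_top_of_le_ne_top ENNReal.ofReal_ne_top (h.z_le l h1 h2).2

theorem rM_fin (h : D.Hyp) {l : ℕ} (h1 : D.m < l) (h2 : l ≤ D.n) :
    Nrm D.T D.c 0 (D.α l) (D.rM l) ≠ ∞ :=
  ne_top_of_le_ne_top ENNReal.ofReal_ne_top (h.rM_le l h1 h2)

/-- the facts on the row taken from S15 -/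
theorem rw_facts (h15 : S15) (h : D.Hyp) {l : ℕ} (h1 : D.m < l) (h2 : l ≤ D.n + 1) :
    Nrm D.T D.c 0 Dat.one' (D.rw l) ≤ ENNReal.ofReal (D.G * D.N l) ∧ CM D.T (D.rw l) ∧
    SuppT D.T (lev (l - 1) : Set Md) (D.rw l) ∧ Nrm D.T D.c 0 Dat.one' (D.rw l) ≠ ∞ := by
  obtain ⟨-, hrwN, -, -, -, hrwc, -, -, -, hrws, -⟩ := h15 D h l h1 h2
  exact ⟨hrwN, hrwc, hrws, ne_top_of_le_ne_top ENNReal.ofReal_ne_top hrwN⟩

theorem rM_cm (h15 : S15) (h : D.Hyp) {l : ℕ} (h1 : D.m < l) (h2 : l ≤ D.n) :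
    CM D.T (D.rM l) := by
  have hMc := h.F_cm (l - 1) (by omega) (by omega)
  have hMc' := h.F_cm l h1.le h2
  obtain ⟨-, hrwc, -, hrwf⟩ := rw_facts h15 h h1 (by omega)
  have h3 := (pr_W12 Md (ℂ →L[ℂ] C3) (C3 →L[ℂ] ℂ) Mat D.T D.c 0 (D.α l) Dat.one' (par0 h)
    (wα h h1 h2) (wt1 _)).2.2 (ContinuousLinearMap.compL ℂ C3 ℂ C3) (fun t => tsF (D.a l t))
    (D.rw l) (CM_tsF (h.z_cm l h1 h2).2) hrwc (a_fin h h1 h2) hrwf
  exact CM_sub (CM_sub hMc'.2.2 hMc.2.2) h3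

theorem rM_supp (h15 : S15) (h : D.Hyp) {l : ℕ} (h1 : D.m < l) (h2 : l ≤ D.n) :
    SuppT D.T (lev l : Set Md) (D.rM l) := by
  intro t ht
  have hMs := (h.F_supp (l - 1) (by omega) (by omega)).2.2 t ht
  have hMs' := (h.F_supp l h1.le h2).2.2 t ht
  obtain ⟨-, -, hrws, -⟩ := rw_facts h15 h h1 (by omega)
  have hsub : (lev (l - 1) : Set Md) ⊆ (lev l : Set Md) := lev_mono (Nat.sub_le _ _)
  refine supp_sub (supp_sub hMs' (supp_mono hsub hMs)) ?_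
  exact (s03 (ℂ →L[ℂ] C3) (C3 →L[ℂ] ℂ) Mat).2.2.2.2.2.1 (ContinuousLinearMap.compL ℂ C3 ℂ C3) l _ _
    (supp_tsF (supp_mono Cl_sub_lev ((h.z_supp l h1 h2).2 t ht))) (supp_mono hsub (hrws t ht))

/-- `M_l f = M_{l-1} f + a (k · f) + r^M f` -/
theorem M_split (h15 : S15) (h : D.Hyp) {l : ℕ} (h1 : D.m < l) (h2 : l ≤ D.n) {t : ℝ}
    (ht : t ∈ Icc 0 D.T) {f : Md → C3} (hf : sN 0 f ≠ ∞) :
    mul (D.M l t) f = mul (D.M (l - 1) t) f + mul (tsF (D.a l t)) (mul (D.rw l t) f) +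
      mul (D.rM l t) f ∧ sN 0 (mul (D.M (l - 1) t) f) ≠ ∞ ∧
      sN 0 (mul (tsF (D.a l t)) (mul (D.rw l t) f)) ≠ ∞ ∧ sN 0 (mul (D.rM l t) f) ≠ ∞ := by
  have hM : sN 0 (D.M (l - 1) t) ≠ ∞ := M_sfin h (by omega) (by omega) ht
  have ha : sN 0 (tsF (D.a l t)) ≠ ∞ :=
    sN_ne_top (f := fun t => tsF (D.a l t)) (par0 h) (wα h h1 h2) (a_fin h h1 h2) ht
  have hr : sN 0 (D.rw l t) ≠ ∞ :=
    sN_ne_top (par0 h) (wt1 _) (rw_facts h15 h h1 (by omega)).2.2.2 ht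
  have hrM : sN 0 (D.rM l t) ≠ ∞ := sN_ne_top (par0 h) (wα h h1 h2) (rM_fin h h1 h2) ht
  have hmm : sN 0 (mm (tsF (D.a l t)) (D.rw l t)) ≠ ∞ := by
    rw [← sK_mulK, mulK_mm]
    refine ne_top_of_le_ne_top (ENNReal.mul_ne_top ?_ ?_)
      ((pr_W10 Md C3 ℂ C3 0 le_rfl).1 (mulK (tsF (D.a l t))) (mulK (D.rw l t)))
    · rwa [sK_mulK]
    · rwa [sK_mulK]
  have hM' : D.M l t = D.M (l - 1) t + mm (tsF (D.a l t)) (D.rw l t) + D.rM l t := by
    unfold Dat.rM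
    abel
  refine ⟨?_, sN_mul_ne hM hf, sN_mul_ne ha (sN_mul_ne hr hf), sN_mul_ne hrM hf⟩
  conv_lhs => rw [hM']
  rw [mul_add_left (sN_add_ne hM hmm) hrM hf, mul_add_left hM hmm hf, mul_mm ha hr hf]

/-- The exact generator of level `l`, split. -/
theorem gen_split (h15 : S15) (h : D.Hyp) {l : ℕ} (h1 : D.m < l) (h2 : l ≤ D.n) {t : ℝ}
    (ht : t ∈ Icc 0 D.T) {f : Md → C3} (hf : sN 0 f ≠ ∞) :
    let g := mul (D.M (l - 1) t) f
    let w := mul (tsF (D.a l t)) (mul (D.rw l t) f)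
    let r := mul (D.rM l t) f
    act (D.gen l t) f = -(g + w + r - (2 : ℂ) • (act (D.Pl l t) g + act (D.Pl l t) w +
      act (D.Pl l t) r)) := by
  intro g w r
  obtain ⟨hs, hg, hw, hr⟩ := M_split h15 h h1 h2 ht hf
  have hP := Pl_sfin h h1.le h2 ht
  have h3 : act (D.gen l t) f = _ := act_genP hP (M_sfin h h1.le h2 ht) hf
  rw [h3, hs, act_add' hP (sN_add_ne hg hw) hr, act_add' hP hg hw]

/-- change of the weight `α_l` to `1` for coefficients -/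
theorem Nrm_one_le (h : D.Hyp) {l : ℕ} (h1 : D.m < l) (h2 : l ≤ D.n) {E : Type}
    [NormedAddCommGroup E] [NormedSpace ℂ E] (f : ℝ → Md → E) :
    Nrm D.T D.c 0 Dat.one' f ≤ ENNReal.ofReal D.G * Nrm D.T D.c 0 (D.α l) f := by
  have h3 := (pr_W05 Md E D.T D.c 0 (D.α l) Dat.one' f f (par0 h) (wα h h1 h2) (wt1 _)).2.1 D.G
    (by linarith [h.G_two]) (fun t ht => by
      show D.α l t ≤ D.G * 1
      rw [mul_one]
      exact h.α_le l h1 (by omega) t ht)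
  exact h3.1

end Pool.Agent.Work.MP_b0497c_an.Unf.S.G57

end
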