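import Pool.Agent.Work.MP_b0497c_an.Unf.SStmts2
import Pool.Agent.Work.MP_b0497c_an.Bd.B03
import Pool.Agent.Work.MP_b0497c_an.Unf.W10
import Pool.Agent.Work.MP_b0497c_an.Bd.B04
import Pool.Agent.Work.MP_b0497c_an.Unf.W21
import Pool.Agent.Work.MP_b0497c_an.Unf.SAlg
import Pool.Agent.Work.MP_b0497c_an.Unf.S23
import Pool.Agent.Work.MP_b0497c_an.Bd.B06

/-! Bundle of small proof modules (one section per former module). -/

section

set_option autoImplicit false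
set_option linter.unusedSectionVars false

/-!
# General lemmas for S08 - S11 (helper61)
-/

open scoped ENNReal
open Set MeasureTheory

namespace Pool.Agent.Work.MP_b0497c_an.Unf.S

open W

section general

variable {Γ : Type} [AddCommGroup Γ] [Len Γ]
  {E F G : Type} [NormedAddCommGroup E] [NormedSpace ℂ E] [NormedAddCommGroup F] [NormedSpace ℂ F]
  [NormedAddCommGroup G] [NormedSpace ℂ G]

/-- one point of the weights -/
theorem sa_wt {x s a : ℝ} (hs : 0 < s) (ha : 0 < a) (hx : 0 ≤ x) (v : E) :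
    ENNReal.ofReal (x / (s * a)) * ‖v‖ₑ = ENNReal.ofReal (x / s) * ‖((a : ℂ))⁻¹ • v‖ₑ := by
  have h1 : ‖((a : ℂ))⁻¹ • v‖ₑ = ENNReal.ofReal a⁻¹ * ‖v‖ₑ := by
    rw [enorm_smul]
    congr 1
    rw [enorm_inv (by exact_mod_cast ha.ne'), ENNReal.ofReal_inv_of_pos ha]
    congr 1
    rw [← ofReal_norm, Complex.norm_real, Real.norm_of_nonneg ha.le]
  rw [h1, ← mul_assoc, ← ENNReal.ofReal_mul (div_nonneg hx hs.le)]
  congr 2
  field_simp

theorem sa_nrm_congr {T c γ : ℝ} {ρ ρ' : ℝ → ℝ} {f g : ℝ → Γ → E} (h : ∀ t ∈ Icc 0 T, f t = g t)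
    (hρ : ∀ t ∈ Icc 0 T, ρ t = ρ' t) : Nrm T c γ ρ f = Nrm T c γ ρ' g := by
  unfold Nrm
  refine tsum_congr fun m => iSup_congr fun t => iSup_congr fun ht => ?_
  rw [h t ht, hρ t ht]

theorem sa_src_congr {T c γ : ℝ} {ρ ρ' : ℝ → ℝ} {f g : ℝ → Γ → E} (h : ∀ t ∈ Icc 0 T, f t = g t)
    (hρ : ∀ t ∈ Icc 0 T, ρ t = ρ' t) : Src T c γ ρ f = Src T c γ ρ' g := by
  unfold Src
  refine tsum_congr fun m => iSup_congr fun t => iSup_congr fun ht => ?_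
  refine setLIntegral_congr_fun measurableSet_Ioc fun s hs => ?_
  have hs' : s ∈ Icc 0 T := ⟨hs.1.le, hs.2.trans ht.2⟩
  simp only [h s hs', hρ s hs']

theorem sa_cm_congr {T : ℝ} {f g : ℝ → Γ → E} (h : ∀ t ∈ Icc 0 T, f t = g t) (hf : CM T f) :
    CM T g := fun m => (hf m).congr fun t ht => (congrFun (h t ht) m).symm

theorem sa_nrm_rescale {T c γ : ℝ} {σ α : ℝ → ℝ} (hσ : ∀ t ∈ Icc 0 T, 0 < σ t)
    (hα : ∀ t ∈ Icc 0 T, 0 < α t) (f : ℝ → Γ → E) :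
    Nrm T c γ (fun t => σ t * α t) f = Nrm T c γ σ (fun t => ((α t : ℂ))⁻¹ • f t) := by
  unfold Nrm
  refine tsum_congr fun m => iSup_congr fun t => iSup_congr fun ht => ?_
  exact sa_wt (hσ t ht) (hα t ht) (Real.exp_pos _).le _

theorem sa_src_rescale {T c γ : ℝ} {σ α : ℝ → ℝ} (hσ : ∀ t ∈ Icc 0 T, 0 < σ t)
    (hα : ∀ t ∈ Icc 0 T, 0 < α t) (f : ℝ → Γ → E) :
    Src T c γ (fun t => σ t * α t) f = Src T c γ σ (fun t => ((α t : ℂ))⁻¹ • f t) := by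
  unfold Src
  refine tsum_congr fun m => iSup_congr fun t => iSup_congr fun ht => ?_
  refine setLIntegral_congr_fun measurableSet_Ioc fun s hs => ?_
  have hs' : s ∈ Icc 0 T := ⟨hs.1.le, hs.2.trans ht.2⟩
  exact sa_wt (hσ s hs') (hα s hs') (Real.exp_pos _).le _

omit [Len Γ] in
theorem sa_act_smul (A : Γ → Γ → (E →L[ℂ] F)) (f : Γ → E) (z : ℂ) :
    act (z • A) f = z • act A f := by
  funext m
  show (∑' l, (z • A m l) (f l)) = z • ∑' l, A m l (f l)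
  exact tsum_const_smul'' z

theorem sa_nrm_act {T c γ : ℝ} {σ α : ℝ → ℝ} (hP : Par T c γ) (hσ : Wt T σ)
    (hα : ∀ t ∈ Icc 0 T, 0 < α t) (A : ℝ → Γ → Γ → (E →L[ℂ] F)) (f : ℝ → Γ → E) :
    Nrm T c γ (fun t => σ t * α t) (fun t => act (A t) (f t)) ≤
      KN T c (fun t => ((α t : ℂ))⁻¹ • A t) * Nrm T c γ σ f := by
  rw [sa_nrm_rescale hσ.pos hα]
  have h := pr_W01 Γ E F T c γ σ (fun t => ((α t : ℂ))⁻¹ • A t) f hP hσ
  simp only [sa_act_smul] at h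
  exact h

theorem sa_src_act [Countable Γ] {T c γ : ℝ} {σ α : ℝ → ℝ} (hP : Par T c γ) (hσ : Wt T σ)
    (hα : ∀ t ∈ Icc 0 T, 0 < α t) (A : ℝ → Γ → Γ → (E →L[ℂ] F)) (f : ℝ → Γ → E)
    (hf : CM T f) :
    Src T c γ (fun t => σ t * α t) (fun t => act (A t) (f t)) ≤
      KN T c (fun t => ((α t : ℂ))⁻¹ • A t) * Src T c γ σ f := by
  rw [sa_src_rescale hσ.pos hα]
  have h := pr_W03 Γ E F T c γ σ (fun t => ((α t : ℂ))⁻¹ • A t) f hP hσ hf
  simp only [sa_act_smul] at h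
  exact h

/-- the norm of a multiplication operator -/
theorem sa_KN_mulK {T c : ℝ} (hc : 0 ≤ c) (a : ℝ → Γ → (E →L[ℂ] F)) :
    KN T c (fun t => mulK (a t)) = Nrm T c 0 (fun _ => 1) a :=
  (pr_W09 Γ E F F T c hc).2.2.2.1 a

theorem sa_KN_mulK' {T c : ℝ} (hc : 0 ≤ c) {α : ℝ → ℝ} (hα : ∀ t ∈ Icc 0 T, 0 < α t)
    (a : ℝ → Γ → (E →L[ℂ] F)) :
    KN T c (fun t => ((α t : ℂ))⁻¹ • mulK (a t)) = Nrm T c 0 α a := by
  have h := sa_KN_mulK (T := T) hc (fun t => ((α t : ℂ))⁻¹ • a t)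
  have h2 := sa_nrm_rescale (T := T) (c := c) (γ := 0) (σ := fun _ => 1) (α := α)
    (fun _ _ => one_pos) hα a
  simp only [one_mul] at h2
  rw [h2]
  exact h

theorem sa_c_nonneg {T c γ : ℝ} (hP : Par T c γ) : 0 ≤ c :=
  le_trans (mul_nonneg hP.γ_nonneg hP.T_pos.le) hP.le

theorem sa_par0 {T c γ : ℝ} (hP : Par T c γ) : Par T c 0 :=
  ⟨hP.T_pos, le_rfl, by rw [zero_mul]; exact sa_c_nonneg hP⟩

theorem sa_wt1 (T : ℝ) : Wt T (fun _ => (1 : ℝ)) :=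
  ⟨fun _ _ => one_pos, continuousOn_const, fun _ _ _ _ _ => le_rfl⟩

theorem sa_wt_mul {T : ℝ} {σ α : ℝ → ℝ} (hσ : Wt T σ) (hα : Wt T α) :
    Wt T (fun t => σ t * α t) :=
  ⟨fun t ht => mul_pos (hσ.pos t ht) (hα.pos t ht), hσ.cont.mul hα.cont,
    fun s hs t ht hst => mul_le_mul (hσ.mono hs ht hst) (hα.mono hs ht hst) (hα.pos s hs).le
      (hσ.pos t ht).le⟩

theorem sa_KN_add {T c : ℝ} (hc : 0 ≤ c) (A B : ℝ → Γ → Γ → (E →L[ℂ] F)) :
    KN T c (fun t => A t + B t) ≤ KN T c A + KN T c B :=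
  (pr_W09 Γ E F F T c hc).2.1 A B

theorem sa_KN_smul {T c : ℝ} (hc : 0 ≤ c) (z : ℂ) (A : ℝ → Γ → Γ → (E →L[ℂ] F)) :
    KN T c (fun t => z • A t) = ‖z‖ₑ * KN T c A :=
  (pr_W09 Γ E F F T c hc).2.2.1 z A

theorem sa_KN_neg {T c : ℝ} (hc : 0 ≤ c) (A : ℝ → Γ → Γ → (E →L[ℂ] F)) :
    KN T c (fun t => - A t) = KN T c A := by
  have h := sa_KN_smul (T := T) hc (-1) A
  simp only [neg_smul, one_smul, enorm_neg, enorm_one, one_mul] at h
  exact h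

theorem sa_KN_sub {T c : ℝ} (hc : 0 ≤ c) (A B : ℝ → Γ → Γ → (E →L[ℂ] F)) :
    KN T c (fun t => A t - B t) ≤ KN T c A + KN T c B := by
  have h := sa_KN_add (T := T) hc A (fun t => - B t)
  rw [sa_KN_neg hc] at h
  simpa only [sub_eq_add_neg] using h

theorem sa_CK_sub {T : ℝ} {A B : ℝ → Γ → Γ → (E →L[ℂ] F)} (hA : CK T A) (hB : CK T B) :
    CK T (fun t => A t - B t) := fun m l => (hA m l).sub (hB m l)

theorem sa_KN_diag {T c : ℝ} (hc : 0 ≤ c) (a : ℝ → Γ → (E →L[ℂ] F)) (b : ℝ≥0∞)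
    (h : ∀ t ∈ Icc 0 T, ∀ m, ‖a t m‖ₑ ≤ b) : KN T c (fun t => diagK (a t)) ≤ b :=
  (pr_W09 Γ E F F T c hc).2.2.2.2.1 a b h

theorem sa_cm_act [CompleteSpace F] {T c γ : ℝ} {σ : ℝ → ℝ} (hP : Par T c γ) (hσ : Wt T σ)
    {A : ℝ → Γ → Γ → (E →L[ℂ] F)} {f : ℝ → Γ → E} (hA : CK T A) (hf : CM T f)
    (hAn : KN T c A ≠ ∞) (hfn : Nrm T c γ σ f ≠ ∞) : CM T (fun t => act (A t) (f t)) :=
  (pr_W12 Γ E F F T c γ σ σ hP hσ hσ).1 A f hA hf hAn hfn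

theorem sa_nrm_act1 {T c γ : ℝ} {σ : ℝ → ℝ} (hP : Par T c γ) (hσ : Wt T σ)
    (A : ℝ → Γ → Γ → (E →L[ℂ] F)) (f : ℝ → Γ → E) :
    Nrm T c γ σ (fun t => act (A t) (f t)) ≤ KN T c A * Nrm T c γ σ f :=
  pr_W01 Γ E F T c γ σ A f hP hσ

theorem sa_src_act1 [Countable Γ] {T c γ : ℝ} {σ : ℝ → ℝ} (hP : Par T c γ) (hσ : Wt T σ)
    (A : ℝ → Γ → Γ → (E →L[ℂ] F)) (f : ℝ → Γ → E) (hf : CM T f) :
    Src T c γ σ (fun t => act (A t) (f t)) ≤ KN T c A * Src T c γ σ f :=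
  pr_W03 Γ E F T c γ σ A f hP hσ hf

end general

section modes

variable {E F G : Type} [NormedAddCommGroup E] [NormedSpace ℂ E] [NormedAddCommGroup F]
  [NormedSpace ℂ F] [NormedAddCommGroup G] [NormedSpace ℂ G]
  {T c γ : ℝ} {σ α β : ℝ → ℝ}

theorem sa_nrm_mul (hP : Par T c γ) (hσ : Wt T σ) (hα : Wt T α)
    (a : ℝ → Md → (E →L[ℂ] F)) (f : ℝ → Md → E) :
    Nrm T c γ (fun t => σ t * α t) (fun t => mul (a t) (f t)) ≤
      Nrm T c 0 α a * Nrm T c γ σ f := by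
  have h := sa_nrm_act hP hσ hα.pos (fun t => mulK (a t)) f
  rwa [sa_KN_mulK' (sa_c_nonneg hP) hα.pos] at h

theorem sa_src_mul (hP : Par T c γ) (hσ : Wt T σ) (hα : Wt T α)
    (a : ℝ → Md → (E →L[ℂ] F)) (f : ℝ → Md → E) (hf : CM T f) :
    Src T c γ (fun t => σ t * α t) (fun t => mul (a t) (f t)) ≤
      Nrm T c 0 α a * Src T c γ σ f := by
  have h := sa_src_act hP hσ hα.pos (fun t => mulK (a t)) f hf
  rwa [sa_KN_mulK' (sa_c_nonneg hP) hα.pos] at h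

theorem sa_nrm_mul1 (hP : Par T c γ) (hσ : Wt T σ) (a : ℝ → Md → (E →L[ℂ] F))
    (f : ℝ → Md → E) :
    Nrm T c γ σ (fun t => mul (a t) (f t)) ≤ Nrm T c 0 (fun _ => 1) a * Nrm T c γ σ f := by
  have h := sa_nrm_act1 hP hσ (fun t => mulK (a t)) f
  rwa [sa_KN_mulK (sa_c_nonneg hP)] at h

theorem sa_src_mul1 (hP : Par T c γ) (hσ : Wt T σ) (a : ℝ → Md → (E →L[ℂ] F))
    (f : ℝ → Md → E) (hf : CM T f) :
    Src T c γ σ (fun t => mul (a t) (f t)) ≤ Nrm T c 0 (fun _ => 1) a * Src T c γ σ f := by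
  have h := sa_src_act1 hP hσ (fun t => mulK (a t)) f hf
  rwa [sa_KN_mulK (sa_c_nonneg hP)] at h

theorem sa_cm_mul [CompleteSpace F] (hP : Par T c γ) (hσ : Wt T σ)
    {a : ℝ → Md → (E →L[ℂ] F)} {f : ℝ → Md → E} (ha : CM T a) (hf : CM T f)
    (han : Nrm T c 0 (fun _ => 1) a ≠ ∞) (hfn : Nrm T c γ σ f ≠ ∞) :
    CM T (fun t => mul (a t) (f t)) := by
  refine sa_cm_act hP hσ (A := fun t => mulK (a t)) (fun m l => ha (m - l)) hf ?_ hfn
  rwa [sa_KN_mulK (sa_c_nonneg hP)]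

/-- change of the weight -/
theorem sa_nrm_wt (hP : Par T c γ) (hσ : Wt T σ) (hα : Wt T α) {b : ℝ} (hb : 0 ≤ b)
    (h : ∀ t ∈ Icc 0 T, σ t ≤ b * α t) (f : ℝ → Md → E) :
    Nrm T c γ α f ≤ ENNReal.ofReal b * Nrm T c γ σ f :=
  ((pr_W05 Md E T c γ σ α f f hP hσ hα).2.1 b hb h).1

theorem sa_src_le (hP : Par T c γ) (hσ : Wt T σ) (hT : T ≤ 1) (f : ℝ → Md → E) :
    Src T c γ σ f ≤ Nrm T c γ σ f := by
  refine (pr_W05 Md E T c γ σ σ f f hP hσ hσ).1.trans ?_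
  calc ENNReal.ofReal T * Nrm T c γ σ f ≤ 1 * Nrm T c γ σ f :=
        mul_le_mul_left (ENNReal.ofReal_le_one.mpr hT) _
    _ = _ := one_mul _

theorem sa_src_add (hP : Par T c γ) (hσ : Wt T σ) {f : ℝ → Md → E} (g : ℝ → Md → E)
    (hf : CM T f) :
    Src T c γ σ (fun t => f t + g t) ≤ Src T c γ σ f + Src T c γ σ g :=
  (pr_W05 Md E T c γ σ σ f g hP hσ hσ).2.2.2.1 hf

theorem sa_nrm_add (hP : Par T c γ) (hσ : Wt T σ) (f g : ℝ → Md → E) :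
    Nrm T c γ σ (fun t => f t + g t) ≤ Nrm T c γ σ f + Nrm T c γ σ g :=
  (pr_W05 Md E T c γ σ σ f g hP hσ hσ).2.2.1

theorem sa_nrm_neg (f : ℝ → Md → E) : Nrm T c γ σ (fun t => - f t) = Nrm T c γ σ f := by
  unfold Nrm
  simp only [Pi.neg_apply, enorm_neg]

theorem sa_src_neg (f : ℝ → Md → E) : Src T c γ σ (fun t => - f t) = Src T c γ σ f := by
  unfold Src
  simp only [Pi.neg_apply, enorm_neg]

theorem sa_nrm_sub (hP : Par T c γ) (hσ : Wt T σ) (f g : ℝ → Md → E) :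
    Nrm T c γ σ (fun t => f t - g t) ≤ Nrm T c γ σ f + Nrm T c γ σ g := by
  have h := sa_nrm_add hP hσ f (fun t => - g t)
  rw [sa_nrm_neg] at h
  simpa only [sub_eq_add_neg] using h

/-- the radius is smaller for larger `γ` -/
theorem sa_nrm_gamma (hP : Par T c γ) (f : ℝ → Md → E) (hα : ∀ t ∈ Icc 0 T, 0 < α t) :
    Nrm T c γ α f ≤ Nrm T c 0 α f := by
  unfold Nrm
  refine ENNReal.tsum_le_tsum fun m => iSup₂_mono fun t ht => ?_
  refine mul_le_mul_left (ENNReal.ofReal_le_ofReal ?_) _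
  refine div_le_div_of_nonneg_right (Real.exp_le_exp.mpr ?_) (hα t ht).le
  refine mul_le_mul_of_nonneg_right ?_ (len_nonneg m)
  have := mul_nonneg hP.γ_nonneg ht.1
  linarith

theorem sa_nrm_mm (hP : Par T c γ) (hα : Wt T α) (hβ : Wt T β)
    (a : ℝ → Md → (F →L[ℂ] G)) (b : ℝ → Md → (E →L[ℂ] F)) :
    Nrm T c 0 (fun t => α t * β t) (fun t => mm (a t) (b t)) ≤
      Nrm T c 0 α a * Nrm T c 0 β b := by
  have h := pr_W02 Md (F →L[ℂ] G) (E →L[ℂ] F) (E →L[ℂ] G) T c 0 α β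
    (ContinuousLinearMap.compL ℂ E F G) a b (sa_par0 hP) hα hβ
  refine h.trans ?_
  rw [mul_assoc]
  refine (mul_le_mul' ?_ le_rfl).trans (one_mul _).le
  rw [← ofReal_norm]
  exact ENNReal.ofReal_le_one.mpr (ContinuousLinearMap.norm_compL_le ℂ E F G)

theorem sa_nrm_mm1 (hP : Par T c γ) (a : ℝ → Md → (F →L[ℂ] G)) (b : ℝ → Md → (E →L[ℂ] F)) :
    Nrm T c 0 (fun _ => 1) (fun t => mm (a t) (b t)) ≤
      Nrm T c 0 (fun _ => 1) a * Nrm T c 0 (fun _ => 1) b := by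
  have h := sa_nrm_mm hP (sa_wt1 T) (sa_wt1 T) a b
  simpa only [one_mul] using h

theorem sa_cm_mm [CompleteSpace F] [CompleteSpace G] (hP : Par T c γ)
    {a : ℝ → Md → (F →L[ℂ] G)} {b : ℝ → Md → (E →L[ℂ] F)} (ha : CM T a) (hb : CM T b)
    (han : Nrm T c 0 (fun _ => 1) a ≠ ∞) (hbn : Nrm T c 0 (fun _ => 1) b ≠ ∞) :
    CM T (fun t => mm (a t) (b t)) :=
  (pr_W12 Md (F →L[ℂ] G) (E →L[ℂ] F) (E →L[ℂ] G) T c 0 (fun _ => 1) (fun _ => 1)
    (sa_par0 hP) (sa_wt1 T) (sa_wt1 T)).2.2 (ContinuousLinearMap.compL ℂ E F G) a b ha hb han hbn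

end modes

section tools

variable {E F G H : Type} [NormedAddCommGroup E] [NormedSpace ℂ E] [NormedAddCommGroup F]
  [NormedSpace ℂ F] [NormedAddCommGroup G] [NormedSpace ℂ G] [NormedAddCommGroup H]
  [NormedSpace ℂ H]
  {T c γ : ℝ} {σ α β : ℝ → ℝ}

/-! ### chains of estimates -/

theorem sa_chain {A B N0 : ℝ≥0∞} {a b : ℝ} (ha : 0 ≤ a) (h1 : A ≤ ENNReal.ofReal a * B)
    (h2 : B ≤ ENNReal.ofReal b * N0) : A ≤ ENNReal.ofReal (a * b) * N0 := by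
  rw [ENNReal.ofReal_mul ha, mul_assoc]
  exact h1.trans (mul_le_mul' le_rfl h2)

theorem sa_chain' {A B X N0 : ℝ≥0∞} {a b : ℝ} (ha : 0 ≤ a) (h1 : A ≤ X * B)
    (hX : X ≤ ENNReal.ofReal a) (h2 : B ≤ ENNReal.ofReal b * N0) :
    A ≤ ENNReal.ofReal (a * b) * N0 :=
  sa_chain ha (h1.trans (mul_le_mul' hX le_rfl)) h2

theorem sa_sum {A B C N0 : ℝ≥0∞} {a b : ℝ} (ha : 0 ≤ a) (hb : 0 ≤ b) (h : A ≤ B + C)
    (h1 : B ≤ ENNReal.ofReal a * N0) (h2 : C ≤ ENNReal.ofReal b * N0) :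
    A ≤ ENNReal.ofReal (a + b) * N0 := by
  rw [ENNReal.ofReal_add ha hb, add_mul]
  exact h.trans (add_le_add h1 h2)

theorem sa_up {A N0 : ℝ≥0∞} {a b : ℝ} (h : A ≤ ENNReal.ofReal a * N0) (hab : a ≤ b) :
    A ≤ ENNReal.ofReal b * N0 :=
  h.trans (mul_le_mul' (ENNReal.ofReal_le_ofReal hab) le_rfl)

theorem sa_fin {A N0 : ℝ≥0∞} {a : ℝ} (h : A ≤ ENNReal.ofReal a * N0) (hN : N0 ≠ ∞) : A ≠ ∞ :=
  ne_top_of_le_ne_top (ENNReal.mul_ne_top ENNReal.ofReal_ne_top hN) h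

theorem sa_fin0 {A : ℝ≥0∞} {a : ℝ} (h : A ≤ ENNReal.ofReal a) : A ≠ ∞ :=
  ne_top_of_le_ne_top ENNReal.ofReal_ne_top h

/-! ### pointwise bounds -/

/-- pointwise bound -/
theorem sa_nrm_le {B : ℝ} (hB : 0 ≤ B) {f : ℝ → Md → E} {g : ℝ → Md → F}
    (h : ∀ t ∈ Icc 0 T, ∀ q, ‖g t q‖ ≤ B * ‖f t q‖) :
    Nrm T c γ σ g ≤ ENNReal.ofReal B * Nrm T c γ σ f := by
  unfold Nrm
  rw [← ENNReal.tsum_mul_left]
  refine ENNReal.tsum_le_tsum fun m => ?_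
  refine iSup₂_le fun t ht => ?_
  have h1 : ‖g t m‖ₑ ≤ ENNReal.ofReal B * ‖f t m‖ₑ := by
    rw [← ofReal_norm, ← ofReal_norm, ← ENNReal.ofReal_mul hB]
    exact ENNReal.ofReal_le_ofReal (h t ht m)
  calc ENNReal.ofReal (Real.exp ((c - γ * t) * len m) / σ t) * ‖g t m‖ₑ
      ≤ ENNReal.ofReal (Real.exp ((c - γ * t) * len m) / σ t) * (ENNReal.ofReal B * ‖f t m‖ₑ) :=
        mul_le_mul' le_rfl h1
    _ = ENNReal.ofReal B *
        (ENNReal.ofReal (Real.exp ((c - γ * t) * len m) / σ t) * ‖f t m‖ₑ) := by ring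
    _ ≤ _ := mul_le_mul' le_rfl (le_iSup₂ (f := fun t (_ : t ∈ Icc 0 T) =>
        ENNReal.ofReal (Real.exp ((c - γ * t) * len m) / σ t) * ‖f t m‖ₑ) t ht)

theorem sa_nrm_le1 {f : ℝ → Md → E} {g : ℝ → Md → F}
    (h : ∀ t ∈ Icc 0 T, ∀ q, ‖g t q‖ ≤ ‖f t q‖) :
    Nrm T c γ σ g ≤ Nrm T c γ σ f := by
  have := sa_nrm_le (T := T) (c := c) (γ := γ) (σ := σ) (f := f) (g := g) zero_le_one
    (fun t ht q => by rw [one_mul]; exact h t ht q)
  rwa [ENNReal.ofReal_one, one_mul] at this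

theorem sa_nrm_le_neg {f : ℝ → Md → E} {g : ℝ → Md → F}
    (h : ∀ t ∈ Icc 0 T, ∀ q, ‖g t q‖ ≤ ‖f t (-q)‖) : Nrm T c γ σ g ≤ Nrm T c γ σ f := by
  unfold Nrm
  rw [← (Equiv.neg Md).tsum_eq (fun m => ⨆ t ∈ Icc 0 T,
    ENNReal.ofReal (Real.exp ((c - γ * t) * len m) / σ t) * ‖f t m‖ₑ)]
  refine ENNReal.tsum_le_tsum fun m => iSup₂_mono fun t ht => ?_
  simp only [Equiv.neg_apply, len_neg]
  refine mul_le_mul' le_rfl ?_
  rw [← ofReal_norm, ← ofReal_norm]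
  exact ENNReal.ofReal_le_ofReal (h t ht m)

/-- static norms at one time -/
theorem sa_static (hσ : Wt T σ) (f : ℝ → Md → E) {t : ℝ} (ht : t ∈ Icc 0 T) :
    sN (c - γ * t) (f t) ≤ ENNReal.ofReal (σ t) * Nrm T c γ σ f := by
  unfold sN Nrm
  rw [← ENNReal.tsum_mul_left]
  refine ENNReal.tsum_le_tsum fun m => ?_
  have hs := hσ.pos t ht
  calc ENNReal.ofReal (Real.exp ((c - γ * t) * len m)) * ‖f t m‖ₑ
      = ENNReal.ofReal (σ t) *
        (ENNReal.ofReal (Real.exp ((c - γ * t) * len m) / σ t) * ‖f t m‖ₑ) := by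
        rw [← mul_assoc, ← ENNReal.ofReal_mul hs.le]
        congr 2
        field_simp
    _ ≤ _ := mul_le_mul' le_rfl (le_iSup₂ (f := fun t (_ : t ∈ Icc 0 T) =>
        ENNReal.ofReal (Real.exp ((c - γ * t) * len m) / σ t) * ‖f t m‖ₑ) t ht)

theorem sa_static_fin (hσ : Wt T σ) {f : ℝ → Md → E} (hf : Nrm T c γ σ f ≠ ∞) {t : ℝ}
    (ht : t ∈ Icc 0 T) : sN (c - γ * t) (f t) ≠ ∞ :=
  ne_top_of_le_ne_top (ENNReal.mul_ne_top ENNReal.ofReal_ne_top hf) (sa_static hσ f ht)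

theorem sa_radius (hP : Par T c γ) {t : ℝ} (ht : t ∈ Icc 0 T) : 0 ≤ c - γ * t := by
  have := mul_le_mul_of_nonneg_left ht.2 hP.γ_nonneg
  have := hP.le
  linarith

theorem sa_radius' (hP : Par T c γ) (h : γ * T < c) {t : ℝ} (ht : t ∈ Icc 0 T) :
    0 < c - γ * t := by
  have := mul_le_mul_of_nonneg_left ht.2 hP.γ_nonneg
  linarith

theorem sa_static0 (hP : Par T c γ) (hσ : Wt T σ) {f : ℝ → Md → E} (hf : Nrm T c γ σ f ≠ ∞)
    {t : ℝ} (ht : t ∈ Icc 0 T) : sN 0 (f t) ≠ ∞ :=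
  fin_mono (sa_radius hP ht) (sa_radius hP ht) (sa_static_fin hσ hf ht)

theorem sa_static_c (hσ : Wt T σ) {f : ℝ → Md → E} (hf : Nrm T c 0 σ f ≠ ∞)
    {t : ℝ} (ht : t ∈ Icc 0 T) : sN c (f t) ≠ ∞ := by
  have := sa_static_fin hσ hf ht
  rwa [zero_mul, sub_zero] at this

theorem sa_KN_static (hc : 0 ≤ c) {A : ℝ → Md → Md → (E →L[ℂ] F)} (hA : KN T c A ≠ ∞) {t : ℝ}
    (ht : t ∈ Icc 0 T) : sK 0 (A t) ≠ ∞ :=
  finK_mono hc hc (ne_top_of_le_ne_top hA ((pr_W09 Md E F F T c hc).2.2.2.2.2.2 A t ht))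

theorem sa_KN_mono {c' : ℝ} (hc : 0 ≤ c) (h : c' ≤ c) (A : ℝ → Md → Md → (E →L[ℂ] F)) :
    KN T c' A ≤ KN T c A := (pr_W09 Md E F F T c hc).2.2.2.2.2.1 c' h A

/-- monotonicity in the radius -/
theorem sa_nrm_cmono {c' : ℝ} (h : c' ≤ c) (hσ : ∀ t ∈ Icc 0 T, 0 < σ t) (f : ℝ → Md → E) :
    Nrm T c' γ σ f ≤ Nrm T c γ σ f := by
  unfold Nrm
  refine ENNReal.tsum_le_tsum fun m => iSup₂_mono fun t ht => ?_
  refine mul_le_mul_left (ENNReal.ofReal_le_ofReal ?_) _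
  refine div_le_div_of_nonneg_right (Real.exp_le_exp.mpr ?_) (hσ t ht).le
  exact mul_le_mul_of_nonneg_right (by linarith) (len_nonneg m)

/-! ### one derivative -/

/-- gain of one derivative -/
theorem sa_gain (hP : Par T c γ) (hγ : 0 < γ) (hσ : Wt T σ) {B : ℝ} (hB : 0 ≤ B)
    {f : ℝ → Md → E} {g : ℝ → Md → F}
    (h : ∀ t ∈ Icc 0 T, ∀ q, ‖g t q‖ ≤ B * len q * ‖f t q‖) :
    Src T c γ σ g ≤ ENNReal.ofReal (B / γ) * Nrm T c γ σ f := by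
  have h1 := pr_W06 Md E F T c γ σ (fun t => (B : ℂ) • f t) g hP hγ hσ (fun t ht m => by
    rw [Pi.smul_apply, norm_smul, Complex.norm_real, Real.norm_of_nonneg hB]
    calc ‖g t m‖ ≤ B * len m * ‖f t m‖ := h t ht m
      _ = _ := by ring)
  refine h1.trans ?_
  have h2 : Nrm T c γ σ (fun t => (B : ℂ) • f t) ≤ ENNReal.ofReal B * Nrm T c γ σ f :=
    sa_nrm_le hB fun t _ q => by
      rw [Pi.smul_apply, norm_smul, Complex.norm_real, Real.norm_of_nonneg hB]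
  calc _ ≤ ENNReal.ofReal (1 / γ) * (ENNReal.ofReal B * Nrm T c γ σ f) := mul_le_mul' le_rfl h2
    _ = _ := by
      rw [← mul_assoc, ← ENNReal.ofReal_mul (by positivity)]
      congr 2
      ring

/-- one derivative costs a little bit of the radius -/
theorem sa_len_fin {c' : ℝ} (hc : c' < c) (hσ : ∀ t ∈ Icc 0 T, 0 < σ t) {B : ℝ} (hB : 0 ≤ B)
    {f : ℝ → Md → E} {g : ℝ → Md → F}
    (h : ∀ t ∈ Icc 0 T, ∀ q, ‖g t q‖ ≤ B * len q * ‖f t q‖) :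
    Nrm T c' γ σ g ≤ ENNReal.ofReal (B / (c - c')) * Nrm T c γ σ f := by
  have hd : 0 < c - c' := sub_pos.2 hc
  unfold Nrm
  rw [← ENNReal.tsum_mul_left]
  refine ENNReal.tsum_le_tsum fun q => ?_
  refine iSup₂_le fun t ht => ?_
  have hs := hσ t ht
  have h1 : len q ≤ Real.exp ((c - c') * len q) / (c - c') := by
    rw [le_div_iff₀ hd]
    have := Real.add_one_le_exp ((c - c') * len q)
    nlinarith
  have h2 : Real.exp ((c' - γ * t) * len q) / σ t * ‖g t q‖ ≤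
      B / (c - c') * (Real.exp ((c - γ * t) * len q) / σ t * ‖f t q‖) := by
    have e : Real.exp ((c - γ * t) * len q) =
        Real.exp ((c' - γ * t) * len q) * Real.exp ((c - c') * len q) := by
      rw [← Real.exp_add]
      congr 1
      ring
    have h0 : 0 ≤ Real.exp ((c' - γ * t) * len q) / σ t := by positivity
    calc Real.exp ((c' - γ * t) * len q) / σ t * ‖g t q‖
        ≤ Real.exp ((c' - γ * t) * len q) / σ t * (B * len q * ‖f t q‖) :=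
          mul_le_mul_of_nonneg_left (h t ht q) h0
      _ ≤ Real.exp ((c' - γ * t) * len q) / σ t *
          (B * (Real.exp ((c - c') * len q) / (c - c')) * ‖f t q‖) := by
          refine mul_le_mul_of_nonneg_left ?_ h0
          refine mul_le_mul_of_nonneg_right ?_ (norm_nonneg _)
          exact mul_le_mul_of_nonneg_left h1 hB
      _ = _ := by
          rw [e]
          ring
  have h3 : ENNReal.ofReal (Real.exp ((c' - γ * t) * len q) / σ t) * ‖g t q‖ₑ ≤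
      ENNReal.ofReal (B / (c - c')) *
        (ENNReal.ofReal (Real.exp ((c - γ * t) * len q) / σ t) * ‖f t q‖ₑ) := by
    rw [← ofReal_norm, ← ofReal_norm, ← ENNReal.ofReal_mul (by positivity),
      ← ENNReal.ofReal_mul (by positivity), ← ENNReal.ofReal_mul (by positivity)]
    exact ENNReal.ofReal_le_ofReal h2
  exact h3.trans (mul_le_mul' le_rfl (le_iSup₂ (f := fun t (_ : t ∈ Icc 0 T) =>
        ENNReal.ofReal (Real.exp ((c - γ * t) * len q) / σ t) * ‖f t q‖ₑ) t ht))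

/-- The workhorse: `P (a w)` where `w` is one derivative of `y`. -/
theorem sa_term [CompleteSpace F] [CompleteSpace G] (hP : Par T c γ) (hγ : 0 < γ)
    (hlt : γ * T < c) (hσ : Wt T σ)
    {P : ℝ → Md → Md → (F →L[ℂ] G)} {a : ℝ → Md → (E →L[ℂ] F)} {w : ℝ → Md → E}
    {y : ℝ → Md → H} {p b B : ℝ} (hp : 0 ≤ p) (hb : 0 ≤ b) (hB : 0 ≤ B)
    (hPn : KN T c P ≤ ENNReal.ofReal p) (hPc : CK T P)
    (han : Nrm T c 0 (fun _ => 1) a ≤ ENNReal.ofReal b) (hac : CM T a) (hw : CM T w)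
    (hwy : ∀ t ∈ Icc 0 T, ∀ q, ‖w t q‖ ≤ B * len q * ‖y t q‖) (hy : Nrm T c γ σ y ≠ ∞) :
    CM T (fun t => mul (a t) (w t)) ∧ CM T (fun t => act (P t) (mul (a t) (w t))) ∧
    Src T c γ σ (fun t => act (P t) (mul (a t) (w t))) ≤
      ENNReal.ofReal (p * b * (B / γ)) * Nrm T c γ σ y := by
  have hc := sa_c_nonneg hP
  set c' := (c + γ * T) / 2 with hc'
  have h1 : c' < c := by rw [hc']; linarith
  have hP' : Par T c' γ := ⟨hP.T_pos, hP.γ_nonneg, by rw [hc']; linarith⟩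
  have hwn : Nrm T c' γ σ w ≠ ∞ := sa_fin (sa_len_fin h1 hσ.pos hB hwy) hy
  have han' : Nrm T c' 0 (fun _ => 1) a ≠ ∞ :=
    ne_top_of_le_ne_top (sa_fin0 han) (sa_nrm_cmono h1.le (sa_wt1 T).pos a)
  have hPn' : KN T c' P ≠ ∞ := ne_top_of_le_ne_top (sa_fin0 hPn) (sa_KN_mono hc h1.le P)
  have hm : CM T (fun t => mul (a t) (w t)) := sa_cm_mul hP' hσ hac hw han' hwn
  have hmn : Nrm T c' γ σ (fun t => mul (a t) (w t)) ≠ ∞ :=
    ne_top_of_le_ne_top (ENNReal.mul_ne_top han' hwn) (sa_nrm_mul1 hP' hσ a w)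
  refine ⟨hm, sa_cm_act hP' hσ hPc hm hPn' hmn, ?_⟩
  have s1 := sa_src_act1 hP hσ P _ hm
  have s2 := sa_src_mul1 hP hσ a w hw
  have s3 := sa_gain hP hγ hσ hB hwy
  have s4 := sa_chain' hb s2 han s3
  have s5 := sa_chain' hp s1 hPn s4
  rwa [← mul_assoc] at s5

/-! ### special symbols -/

theorem sa_cm_map {L : E → F} (hL : Continuous L) {f : ℝ → Md → E} (hf : CM T f) :
    CM T (fun t q => L (f t q)) := fun q => hL.comp_continuousOn (hf q)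

theorem sa_cm_neg {f : ℝ → Md → E} (hf : CM T f) : CM T (fun t q => f t (-q)) := fun q => hf (-q)

theorem sa_cm_add {f g : ℝ → Md → E} (hf : CM T f) (hg : CM T g) :
    CM T (fun t => f t + g t) := fun q => (hf q).add (hg q)

theorem sa_cm_sub {f g : ℝ → Md → E} (hf : CM T f) (hg : CM T g) :
    CM T (fun t => f t - g t) := fun q => (hf q).sub (hg q)

theorem sa_cm_const (f : Md → E) : CM T (fun _ => f) := fun _ => continuousOn_const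

theorem sa_ts_cont : Continuous ts := by
  have h : ts = fun v => ContinuousLinearMap.smulRightL ℂ ℂ C3 (ContinuousLinearMap.id ℂ ℂ) v := by
    funext v
    ext
    simp [ts]
  rw [h]
  exact ContinuousLinearMap.continuous _

theorem sa_cm_tsF {a : ℝ → Md → C3} (ha : CM T a) : CM T (fun t => tsF (a t)) :=
  sa_cm_map sa_ts_cont ha

theorem sa_N_tsF (a : ℝ → Md → C3) : Nrm T c γ σ (fun t => tsF (a t)) ≤ Nrm T c γ σ a :=
  sa_nrm_le1 fun t _ q => by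
    unfold tsF ts
    rw [ContinuousLinearMap.norm_toSpanSingleton]

theorem sa_cm_adR {z : ℝ → Md → C3} (hz : CM T z) : CM T (fun t => adR (z t)) :=
  sa_cm_map (L := fun v : C3 => innerSL ℂ v) (innerSL ℂ).continuous (sa_cm_neg hz)

theorem sa_N_adR (z : ℝ → Md → C3) : Nrm T c γ σ (fun t => adR (z t)) ≤ Nrm T c γ σ z :=
  sa_nrm_le_neg fun t _ q => by
    unfold adR
    rw [innerSL_apply_norm]

theorem sa_cm_adjC {a : ℝ → Md → Mat} (ha : CM T a) : CM T (fun t => adjC (a t)) :=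
  sa_cm_map (L := fun v : Mat => ContinuousLinearMap.adjoint v)
    (LinearIsometryEquiv.continuous _) (sa_cm_neg ha)

theorem sa_N_adjC (a : ℝ → Md → Mat) : Nrm T c γ σ (fun t => adjC (a t)) ≤ Nrm T c γ σ a :=
  sa_nrm_le_neg fun t _ q => by
    unfold adjC
    rw [LinearIsometryEquiv.norm_map]

theorem sa_cm_rwF (k : C3) {Fi : ℝ → Md → Mat} (hF : CM T Fi) : CM T (fun t => rwF k (Fi t)) :=
  sa_cm_map (L := fun v : Mat => (innerSL ℂ k).comp v)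
    (ContinuousLinearMap.continuous (ContinuousLinearMap.compL ℂ C3 C3 ℂ (innerSL ℂ k))) hF

theorem sa_N_rwF (k : C3) (Fi : ℝ → Md → Mat) :
    Nrm T c γ σ (fun t => rwF k (Fi t)) ≤ ENNReal.ofReal ‖k‖ * Nrm T c γ σ Fi :=
  sa_nrm_le (norm_nonneg k) fun t _ q => by
    unfold rwF
    refine (ContinuousLinearMap.opNorm_comp_le _ _).trans ?_
    rw [innerSL_apply_norm]

theorem sa_cm_kcF (k : C3) {Fi : ℝ → Md → Mat} (hF : CM T Fi) : CM T (fun t => kcF k (Fi t)) :=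
  sa_cm_map (L := fun v : Mat => v k)
    (ContinuousLinearMap.continuous (ContinuousLinearMap.apply ℂ C3 k)) (sa_cm_adjC hF)

theorem sa_N_kcF (k : C3) (Fi : ℝ → Md → Mat) :
    Nrm T c γ σ (fun t => kcF k (Fi t)) ≤ ENNReal.ofReal ‖k‖ * Nrm T c γ σ Fi := by
  refine (sa_nrm_le (f := fun t => adjC (Fi t)) (norm_nonneg k) fun t _ q => ?_).trans
    (mul_le_mul' le_rfl (sa_N_adjC Fi))
  unfold kcF
  rw [mul_comm]
  exact ContinuousLinearMap.le_opNorm _ _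

theorem sa_cm_scF {s : ℝ → Md → ℂ} (hs : CM T s) : CM T (fun t => scF (s t)) :=
  sa_cm_map (L := fun v : ℂ => v • ContinuousLinearMap.id ℂ ℂ)
    (continuous_id.smul continuous_const) hs

theorem sa_N_scF (s : ℝ → Md → ℂ) : Nrm T c γ σ (fun t => scF (s t)) ≤ Nrm T c γ σ s :=
  sa_nrm_le1 fun t _ q => by
    unfold scF
    rw [norm_smul, ContinuousLinearMap.norm_id, mul_one]

theorem sa_N_oneM : Nrm T c 0 (fun _ => 1) (fun _ => oneM) ≤ 1 := by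
  unfold Nrm
  rw [tsum_eq_single (0 : Md)]
  · refine iSup₂_le fun t _ => ?_
    have h : ‖oneM 0‖ₑ ≤ 1 := by
      rw [← ofReal_norm]
      refine ENNReal.ofReal_le_one.mpr ?_
      simp only [oneM, if_true]
      exact ContinuousLinearMap.norm_id_le
    have h1 : ENNReal.ofReal (Real.exp ((c - 0 * t) * len (0 : Md)) / 1) = 1 := by
      rw [len_zero]
      simp
    rw [h1, one_mul]
    exact h
  · intro q hq
    have h : oneM q = 0 := by simp [oneM, hq]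
    simp [h]

theorem sa_cm_sh (k : C3) {z : ℝ → Md → C3} (hz : CM T z) :
    CM T (fun t => shP (z t) k) ∧ CM T (fun t => shM (z t) k) := by
  have h : CM T (fun t q => (innerSL ℂ k).smulRight (z t q)) :=
    sa_cm_map (L := fun v : C3 => (innerSL ℂ k).smulRight v)
      (ContinuousLinearMap.continuous (ContinuousLinearMap.smulRightL ℂ C3 C3 (innerSL ℂ k))) hz
  exact ⟨fun q => continuousOn_const.add (h q), fun q => continuousOn_const.sub (h q)⟩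

theorem sa_N_sh (hP : Par T c γ) (k : C3) (z : ℝ → Md → C3) :
    Nrm T c 0 (fun _ => 1) (fun t => shP (z t) k) ≤
      1 + ENNReal.ofReal ‖k‖ * Nrm T c 0 (fun _ => 1) z ∧
    Nrm T c 0 (fun _ => 1) (fun t => shM (z t) k) ≤
      1 + ENNReal.ofReal ‖k‖ * Nrm T c 0 (fun _ => 1) z := by
  have h0 := sa_N_oneM (T := T) (c := c)
  have h1 : Nrm T c 0 (fun _ => 1) (fun t (q : Md) => (innerSL ℂ k).smulRight (z t q)) ≤
      ENNReal.ofReal ‖k‖ * Nrm T c 0 (fun _ => 1) z :=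
    sa_nrm_le (norm_nonneg k) fun t _ q => by
      rw [ContinuousLinearMap.norm_smulRight_apply, innerSL_apply_norm]
  exact ⟨(sa_nrm_add (sa_par0 hP) (sa_wt1 T) (fun _ => oneM) _).trans (add_le_add h0 h1),
    (sa_nrm_sub (sa_par0 hP) (sa_wt1 T) (fun _ => oneM) _).trans (add_le_add h0 h1)⟩

theorem sa_KN_idK (hc : 0 ≤ c) : KN T c (fun _ => idK) ≤ 1 := by
  refine sa_KN_diag hc (fun _ _ => ContinuousLinearMap.id ℂ C3) 1 fun t _ m => ?_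
  rw [← ofReal_norm]
  exact ENNReal.ofReal_le_one.mpr ContinuousLinearMap.norm_id_le

theorem sa_CK_idK : CK T (fun _ => idK) := fun _ _ => continuousOn_const

theorem sa_id_sub (hc : 0 ≤ c) {P : ℝ → Md → Md → Mat} {b : ℝ} (hb : 1 ≤ b)
    (h : KN T c P ≤ ENNReal.ofReal b) (hP : CK T P) :
    KN T c (fun t => idK - P t) ≤ ENNReal.ofReal (2 * b) ∧ CK T (fun t => idK - P t) := by
  refine ⟨(sa_KN_sub hc (fun _ => idK) P).trans ?_, sa_CK_sub sa_CK_idK hP⟩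
  calc KN T c (fun _ => idK) + KN T c P ≤ ENNReal.ofReal 1 + ENNReal.ofReal b := by
        rw [ENNReal.ofReal_one]
        exact add_le_add (sa_KN_idK hc) h
    _ = ENNReal.ofReal (1 + b) := (ENNReal.ofReal_add zero_le_one (by linarith)).symm
    _ ≤ _ := ENNReal.ofReal_le_ofReal (by linarith)

theorem sa_cm_PK (ξ : Md → C3) {x : ℝ → Md → C3} (hx : CM T x) :
    CM T (fun t => act (PK ξ) (x t)) := by
  intro q
  have h : (fun t => act (PK ξ) (x t) q) = fun t => pr (ξ q) (x t q) := by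
    funext t
    exact act_diag _ _ _
  rw [h]
  exact (pr (ξ q)).continuous.comp_continuousOn (hx q)

/-- The wave lemma as a bound for `P x`. -/
theorem sa_PK_le (h02 : S02) {K : ℕ → Fin 3 → ℤ} {j : ℕ} {B : ℝ} (hB : 0 ≤ B)
    (hK : ∀ i < j, ‖kv (K i)‖ ≤ B) (hj : 0 < ‖kv (K j)‖) {x : Md → C3} (hx : SuppIn (Cl j) x)
    (ho : ∀ q, inner ℂ (kv (K j)) (x q) = 0) (q : Md) :
    ‖act (PK (xi K)) x q‖ ≤ 2 * (B / ‖kv (K j)‖) * len q * ‖x q‖ := by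
  have h : act (PK (xi K)) x q = pr (xi K q) (x q) := act_diag _ _ _
  rw [h]
  by_cases hq : q ∈ Cl j
  · exact (h02 K j B q (x q) hq hB hK hj (ho q)).1
  · rw [hx q hq]
    simp

theorem sa_PK_le' (h02 : S02) {K : ℕ → Fin 3 → ℤ} {j : ℕ} {B : ℝ} (hB : 0 ≤ B)
    (hK : ∀ i < j, ‖kv (K i)‖ ≤ B) (hj : 0 < ‖kv (K j)‖) {x : Md → C3} (hx : SuppIn (Cl j) x)
    (ho : ∀ q, inner ℂ (kv (K j)) (x q) = 0) (q : Md) :
    ‖act (PK (xi K)) (fun q => (q j : ℂ) • x q) q‖ ≤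
      2 * (B / ‖kv (K j)‖) * len q * ‖x q‖ := by
  have h : act (PK (xi K)) (fun q => (q j : ℂ) • x q) q = pr (xi K q) ((q j : ℂ) • x q) :=
    act_diag _ _ _
  rw [h]
  by_cases hq : q ∈ Cl j
  · exact (h02 K j B q (x q) hq hB hK hj (ho q)).2
  · rw [hx q hq]
    simp

theorem sa_gdp_le (h01 : S01) {K : ℕ → Fin 3 → ℤ} {j : ℕ} {B : ℝ} (hB : 0 ≤ B)
    (hK : ∀ i < j, ‖kv (K i)‖ ≤ B) {ψ : Md → ℂ} (hψ : SuppIn (Cl j) ψ) (q : Md) :
    ‖gdp K j ψ q‖ ≤ B * len q * ‖ψ q‖ := by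
  unfold gdp
  by_cases hq : q ∈ Cl j
  · have h1 := (h01 K).2.2.2.1 q j B hq.1 hK hB
    have h2 : (1 : ℝ) ≤ ‖(q j : ℂ)‖ := by
      rw [Complex.norm_intCast]
      have : (1 : ℤ) ≤ |q j| := Int.one_le_abs hq.2
      exact_mod_cast this
    rw [norm_smul, norm_div]
    calc ‖ψ q‖ / ‖(q j : ℂ)‖ * ‖xi' K j q‖ ≤ ‖ψ q‖ * (B * len q) := by
          refine mul_le_mul (div_le_self (norm_nonneg _) h2) h1 (norm_nonneg _) (norm_nonneg _)
      _ = _ := by ring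
  · rw [hψ q hq]
    simp

theorem sa_xi'_le (h01 : S01) {K : ℕ → Fin 3 → ℤ} {j : ℕ} {B : ℝ} (hB : 0 ≤ B)
    (hK : ∀ i < j, ‖kv (K i)‖ ≤ B) {ψ : Md → ℂ} (hψ : SuppIn (Cl j) ψ) (q : Md) :
    ‖ψ q • xi' K j q‖ ≤ B * len q * ‖ψ q‖ := by
  by_cases hq : q ∈ Cl j
  · have h1 := (h01 K).2.2.2.1 q j B hq.1 hK hB
    rw [norm_smul, mul_comm]
    exact mul_le_mul_of_nonneg_right h1 (norm_nonneg _)
  · rw [hψ q hq]
    simp

theorem sa_cm_gdp (K : ℕ → Fin 3 → ℤ) (j : ℕ) {ψ : ℝ → Md → ℂ} (hψ : CM T ψ) :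
    CM T (fun t => gdp K j (ψ t)) := fun q =>
  ((hψ q).div_const _).smul continuousOn_const

end tools

end Pool.Agent.Work.MP_b0497c_an.Unf.S

end

section

set_option autoImplicit false
set_option linter.unusedSectionVars false

/-!
# S16: `k_j . w` is constant under the Kelvin flow (helper90)
-/

open scoped ENNReal
open Set MeasureTheory

namespace Pool.Agent.Work.MP_b0497c_an.Unf.S

open W

namespace S16p

section gen

variable {E F : Type} [NormedAddCommGroup E] [NormedSpace ℂ E] [NormedAddCommGroup F]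
  [NormedSpace ℂ F]

/-- Product rule for one term. -/
theorem term_deriv {I : Set ℝ} {a : ℝ → (E →L[ℂ] F)} {a' : E →L[ℂ] F} {f : ℝ → E} {f' : E}
    {t : ℝ} (ha : HasDerivWithinAt a a' I t) (hf : HasDerivWithinAt f f' I t) :
    HasDerivWithinAt (fun t => a t (f t)) (a' (f t) + a t f') I t := by
  have h1 : HasDerivWithinAt (fun t => ContinuousLinearMap.restrictScalarsL ℂ E F ℝ ℝ (a t))
      (ContinuousLinearMap.restrictScalarsL ℂ E F ℝ ℝ a') I t :=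
    (ContinuousLinearMap.restrictScalarsL ℂ E F ℝ ℝ).hasFDerivAt.comp_hasDerivWithinAt t ha
  exact h1.clm_apply hf

/-- Product rule for multiplications. -/
theorem mul_deriv [CompleteSpace F] {T : ℝ} {a a' : ℝ → Md → (E →L[ℂ] F)}
    {f f' : ℝ → Md → E} {A A' : ℝ≥0∞}
    {fb fb' : Md → ℝ≥0∞} (hA : A ≠ ∞) (hA' : A' ≠ ∞) (hfb : ∑' l, fb l ≠ ∞)
    (hfb' : ∑' l, fb' l ≠ ∞)
    (ha : ∀ t ∈ Icc 0 T, ∀ q, ‖a t q‖ₑ ≤ A) (ha' : ∀ t ∈ Icc 0 T, ∀ q, ‖a' t q‖ₑ ≤ A')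
    (hf : ∀ t ∈ Icc 0 T, ∀ q, ‖f t q‖ₑ ≤ fb q) (hf' : ∀ t ∈ Icc 0 T, ∀ q, ‖f' t q‖ₑ ≤ fb' q)
    (hda : ∀ q, ∀ t ∈ Icc 0 T, HasDerivWithinAt (fun t => a t q) (a' t q) (Icc 0 T) t)
    (hdf : ∀ q, ∀ t ∈ Icc 0 T, HasDerivWithinAt (fun t => f t q) (f' t q) (Icc 0 T) t)
    (q : Md) {t : ℝ} (ht : t ∈ Icc 0 T) :
    HasDerivWithinAt (fun t => mul (a t) (f t) q) (mul (a' t) (f t) q + mul (a t) (f' t) q)
      (Icc 0 T) t := by
  have b1 : ∀ {x : E →L[ℂ] F} {y : E} {X Y : ℝ≥0∞}, ‖x‖ₑ ≤ X → ‖y‖ₑ ≤ Y → ‖x y‖ₑ ≤ X * Y := by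
    intro x y X Y hx hy
    exact (x.le_opENorm y).trans (mul_le_mul' hx hy)
  have s1 : ∑' l, A * fb l ≠ ∞ := by
    rw [ENNReal.tsum_mul_left]
    exact ENNReal.mul_ne_top hA hfb
  have s2 : ∑' l, A' * fb l ≠ ∞ := by
    rw [ENNReal.tsum_mul_left]
    exact ENNReal.mul_ne_top hA' hfb
  have s3 : ∑' l, A * fb' l ≠ ∞ := by
    rw [ENNReal.tsum_mul_left]
    exact ENNReal.mul_ne_top hA hfb'
  have s4 : ∑' l, (A' * fb l + A * fb' l) ≠ ∞ := by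
    rw [ENNReal.tsum_add]
    exact ENNReal.add_ne_top.2 ⟨s2, s3⟩
  have m2 : ∀ t ∈ Icc 0 T, Summable fun l => a' t (q - l) (f t l) := fun t ht =>
    (ENNReal.summable_toReal s2).of_norm_bounded fun l =>
      S23p.enorm_le_toReal (ENNReal.ne_top_of_tsum_ne_top s2 l) (b1 (ha' t ht _) (hf t ht l))
  have m3 : ∀ t ∈ Icc 0 T, Summable fun l => a t (q - l) (f' t l) := fun t ht =>
    (ENNReal.summable_toReal s3).of_norm_bounded fun l =>
      S23p.enorm_le_toReal (ENNReal.ne_top_of_tsum_ne_top s3 l) (b1 (ha t ht _) (hf' t ht l))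
  have h := S23p.hasDerivWithinAt_tsum (T := T) (g := fun t l => a t (q - l) (f t l))
    (g' := fun t l => a' t (q - l) (f t l) + a t (q - l) (f' t l))
    (ENNReal.summable_toReal s1) (ENNReal.summable_toReal s4)
    (fun t ht l => term_deriv (hda (q - l) t ht) (hdf l t ht))
    (fun t ht l => S23p.enorm_le_toReal (ENNReal.ne_top_of_tsum_ne_top s1 l)
      (b1 (ha t ht _) (hf t ht l)))
    (fun t ht l => S23p.enorm_le_toReal (ENNReal.ne_top_of_tsum_ne_top s4 l)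
      ((enorm_add_le _ _).trans (add_le_add (b1 (ha' t ht _) (hf t ht l))
        (b1 (ha t ht _) (hf' t ht l))))) ht
  rw [(m2 t ht).tsum_add (m3 t ht)] at h
  exact h

/-- The row of a product. -/
theorem mul_rwF {k : C3} {A : Md → Mat} {f : Md → C3} (hA : sN 0 A ≠ ∞) (hf : sN 0 f ≠ ∞)
    (q : Md) : mul (rwF k A) f q = innerSL ℂ k (mul A f q) := by
  have h := map_act (innerSL ℂ k) (A := mulK A) (finK_mulK le_rfl hA) hf q
  unfold mul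
  rw [h]
  rfl

end gen

end S16p

theorem s16 (h15 : S15) : S16 := by
  intro D hD j hmj hjn ρ w Q hρ hw hQ hwN hQN hd q t ht
  obtain ⟨c', hc', hQf⟩ := hQN
  have hp := G57.par hD
  have hp0 := G57.par0 hD
  have hp' : Par D.T c' D.γ := ⟨hp.T_pos, hp.γ_nonneg, hc'.le⟩
  have hm1 : D.m ≤ j - 1 := by omega
  have hn1 : j - 1 ≤ D.n := by omega
  obtain ⟨-, hrwN, hpN, hKN, -, hrwc, -, -, -, -, -, halg, -⟩ := h15 D hD j hmj hjn
  have hrwf : Nrm D.T D.c 0 Dat.one' (D.rw j) ≠ ∞ := ne_top_of_le_ne_top ENNReal.ofReal_ne_top hrwN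
  have hFif : Nrm D.T D.c 0 Dat.one' (D.Fi (j - 1)) ≠ ∞ :=
    ne_top_of_le_ne_top ENNReal.ofReal_ne_top (hD.F_le (j - 1) hm1 hn1).2.1
  have hMf : Nrm D.T D.c 0 Dat.one' (D.M (j - 1)) ≠ ∞ := G57.M_fin hD hm1 hn1
  have hpf : Nrm D.T D.c 0 Dat.one' (D.p j) ≠ ∞ := ne_top_of_le_ne_top ENNReal.ofReal_ne_top hpN
  set FM : ℝ → Md → Mat := fun t => mm (D.Fi (j - 1) t) (D.M (j - 1) t) with hFM
  have hFMf : Nrm D.T D.c 0 Dat.one' FM ≠ ∞ := by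
    have h1 := pr_W02 Md Mat Mat Mat D.T D.c 0 Dat.one' Dat.one'
      (ContinuousLinearMap.compL ℂ C3 C3 C3) (D.Fi (j - 1)) (D.M (j - 1)) hp0
      (G57.wt1 _) (G57.wt1 _)
    have h2 : (fun t => Dat.one' t * Dat.one' t) = Dat.one' := by
      funext t; exact mul_one _
    rw [h2] at h1
    exact ne_top_of_le_ne_top (ENNReal.mul_ne_top (ENNReal.mul_ne_top enorm_ne_top hFif) hMf) h1
  set Mw : ℝ → Md → C3 := fun t => mul (D.M (j - 1) t) (w t) with hMw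
  have hMwf : Nrm D.T D.c D.γ ρ Mw ≠ ∞ :=
    ne_top_of_le_ne_top (ENNReal.mul_ne_top hMf hwN) (G57.Nrm_mul_le1 hp hρ _ _)
  set P : ℝ → Md → C3 := fun t => mul (oneM - (2 : ℂ) • D.p j t) (Mw t) with hP
  have hPf : Nrm D.T D.c D.γ ρ P ≠ ∞ :=
    ne_top_of_le_ne_top (ENNReal.mul_ne_top
      (ne_top_of_le_ne_top ENNReal.ofReal_ne_top hKN) hMwf)
      (pr_W01 Md C3 C3 D.T D.c D.γ ρ _ Mw hp hρ)
  have hgK : ∀ t ∈ Icc 0 D.T, mul (D.gK j t) (w t) = - P t := by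
    intro t ht
    have h1 : sN 0 (D.p j t) ≠ ∞ := G57.sN_ne_top hp0 (G57.wt1 _) hpf ht
    have h2 : sN 0 (D.M (j - 1) t) ≠ ∞ := G57.M_sfin hD hm1 hn1 ht
    have h3 : sN 0 (w t) ≠ ∞ := G57.sN_ne_top hp hρ hwN ht
    have h4 : mul (genK (D.p j t) (D.M (j - 1) t)) (w t) = _ := G57.mul_genK h1 h2 h3
    have h5 : sN 0 (Mw t) ≠ ∞ := G57.sN_ne_top hp hρ hMwf ht
    show mul (genK (D.p j t) (D.M (j - 1) t)) (w t) = - mul (oneM - (2 : ℂ) • D.p j t) (Mw t)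
    rw [h4, G57.mul_one_sub h1 h5]
  have key := S16p.mul_deriv (T := D.T) (a := D.rw j) (a' := fun t => -(rwF (D.kk j) (FM t)))
    (f := w) (f' := fun t => mul (D.gK j t) (w t) + Q t)
    (A := ENNReal.ofReal (Dat.one' D.T) * Nrm D.T D.c 0 Dat.one' (D.rw j))
    (A' := ‖innerSL ℂ (D.kk j)‖ₑ * (ENNReal.ofReal (Dat.one' D.T) * Nrm D.T D.c 0 Dat.one' FM))
    (fb := fun l => ENNReal.ofReal (ρ D.T) * ⨆ t ∈ Icc 0 D.T,
      ENNReal.ofReal (Real.exp ((D.c - D.γ * t) * len l) / ρ t) * ‖w t l‖ₑ)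
    (fb' := fun l => (ENNReal.ofReal (ρ D.T) * ⨆ t ∈ Icc 0 D.T,
      ENNReal.ofReal (Real.exp ((D.c - D.γ * t) * len l) / ρ t) * ‖P t l‖ₑ) +
      (ENNReal.ofReal (ρ D.T) * ⨆ t ∈ Icc 0 D.T,
      ENNReal.ofReal (Real.exp ((c' - D.γ * t) * len l) / ρ t) * ‖Q t l‖ₑ))
    (ENNReal.mul_ne_top ENNReal.ofReal_ne_top hrwf)
    (ENNReal.mul_ne_top enorm_ne_top (ENNReal.mul_ne_top ENNReal.ofReal_ne_top hFMf))
    (by
      rw [ENNReal.tsum_mul_left]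
      exact ENNReal.mul_ne_top ENNReal.ofReal_ne_top hwN)
    (by
      rw [ENNReal.tsum_add, ENNReal.tsum_mul_left, ENNReal.tsum_mul_left]
      exact ENNReal.add_ne_top.2 ⟨ENNReal.mul_ne_top ENNReal.ofReal_ne_top hPf,
        ENNReal.mul_ne_top ENNReal.ofReal_ne_top hQf⟩)
    (fun t ht q => W12.mode_le_Nrm hp0 (G57.wt1 _) _ ht q)
    (fun t ht q => by
      rw [Pi.neg_apply, enorm_neg]
      refine (ContinuousLinearMap.opENorm_comp_le _ _).trans ?_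
      gcongr
      exact W12.mode_le_Nrm hp0 (G57.wt1 _) FM ht q)
    (fun t ht q => W12.mode_le hp hρ w ht q)
    (fun t ht q => by
      rw [hgK t ht]
      refine (enorm_add_le _ _).trans (add_le_add ?_ (W12.mode_le hp' hρ Q ht q))
      rw [Pi.neg_apply, enorm_neg]
      exact W12.mode_le hp hρ P ht q)
    (fun q t ht => by
      have h1 := hD.Fi_der (j - 1) hm1 hn1 q t ht
      have h2 := ((ContinuousLinearMap.compL ℂ C3 C3 ℂ (innerSL ℂ (D.kk j))).restrictScalars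
        ℝ).hasFDerivAt.comp_hasDerivWithinAt t h1
      have h3 : (-(rwF (D.kk j) (FM t))) q = (innerSL ℂ (D.kk j)).comp
          (-(mm (D.Fi (j - 1) t) (D.M (j - 1) t) q)) := by
        rw [ContinuousLinearMap.comp_neg]
        rfl
      rw [h3]
      exact h2)
    hd q ht
  have h1 : sN 0 (w t) ≠ ∞ := G57.sN_ne_top hp hρ hwN ht
  have h2 : sN 0 (Q t) ≠ ∞ := G57.sN_ne_top hp' hρ hQf ht
  have h3 : sN 0 (D.rw j t) ≠ ∞ := G57.sN_ne_top hp0 (G57.wt1 _) hrwf ht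
  have h4 : sN 0 (D.Fi (j - 1) t) ≠ ∞ := G57.sN_ne_top hp0 (G57.wt1 _) hFif ht
  have h5 : sN 0 (D.M (j - 1) t) ≠ ∞ := G57.sN_ne_top hp0 (G57.wt1 _) hMf ht
  have h6 : sN 0 (FM t) ≠ ∞ := G57.sN_ne_top hp0 (G57.wt1 _) hFMf ht
  have h7 : sN 0 (Mw t) ≠ ∞ := G57.sN_ne_top hp hρ hMwf ht
  have h8 : sN 0 (P t) ≠ ∞ := G57.sN_ne_top hp hρ hPf ht
  have e1 : mul (-(rwF (D.kk j) (FM t))) (w t) q = - mul (D.rw j t) (Mw t) q := by
    have e2 : mul (-(rwF (D.kk j) (FM t))) (w t) = - mul (rwF (D.kk j) (FM t)) (w t) :=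
      act_negK (mulK (rwF (D.kk j) (FM t))) (w t)
    rw [e2, Pi.neg_apply, S16p.mul_rwF h6 h1]
    have e3 : mul (FM t) (w t) = mul (D.Fi (j - 1) t) (Mw t) := mul_mm h4 h5 h1
    rw [e3, ← S16p.mul_rwF h4 h7]
    rfl
  have e4 : mul (D.rw j t) (mul (D.gK j t) (w t) + Q t) q =
      mul (D.rw j t) (Mw t) q + mul (D.rw j t) (Q t) q := by
    rw [hgK t ht, mul_add h3 (fin_neg h8) h2, mul_neg, (halg t ht (Mw t) h7).2, neg_neg]
    rfl
  have e5 : mul (-(rwF (D.kk j) (FM t))) (w t) q +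
      mul (D.rw j t) (mul (D.gK j t) (w t) + Q t) q = mul (D.rw j t) (Q t) q := by
    rw [e1, e4]
    abel
  rw [← e5]
  exact key

end Pool.Agent.Work.MP_b0497c_an.Unf.S

end

section

set_option autoImplicit false
set_option linter.unusedSectionVars false

/-!
# Consequences of `D.Hyp` used by S08 - S14 (helper61)
-/

open scoped ENNReal
open Set MeasureTheory

namespace Pool.Agent.Work.MP_b0497c_an.Unf.S

open W

theorem sh_mm_one (F : Md → Mat) : mm F oneM = F := by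
  refine mulK_inj ?_
  rw [← kcomp_mulK, mulK_oneM]
  exact ((pr_W11 Md C3 C3 C3 C3).2.2.2.2.1 (mulK F)).1

theorem sh_one_mm (F : Md → Mat) : mm oneM F = F := by
  refine mulK_inj ?_
  rw [← kcomp_mulK, mulK_oneM]
  exact ((pr_W11 Md C3 C3 C3 C3).2.2.2.2.1 (mulK F)).2

theorem sh_shP_zero (k : C3) : shP 0 k = oneM := by
  funext q
  simp [shP]

theorem sh_shM_zero (k : C3) : shM 0 k = oneM := by
  funext q
  simp [shM]

theorem sh_left {Λ : AddSubgroup Md} {c b e : ℝ} {F Fi : Md → Mat} (h : FData Λ c b e F Fi) :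
    mm Fi F = oneM ∧ mm F Fi = oneM := by
  constructor
  · refine mulK_inj ?_
    rw [← kcomp_mulK, mulK_oneM]
    exact h.left
  · refine mulK_inj ?_
    rw [← kcomp_mulK, mulK_oneM]
    exact h.right

theorem sh_lev_mono {i j : ℕ} (h : i ≤ j) {q : Md} (hq : q ∈ lev i) : q ∈ lev j :=
  fun k hk => hq k (lt_of_le_of_lt h hk)

theorem sh_FData_lev {n : ℕ} {c b e : ℝ} {F Fi : Md → Mat} (h : FData (lev n) c b e F Fi)
    {n' : ℕ} (hn : n ≤ n') : FData (lev n') c b e F Fi :=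
  { c_pos := h.c_pos
    b_one := h.b_one
    e_one := h.e_one
    sum := fun x hx => (pr_W21.2 n' x hx).1
    F_supp := fun k hk => h.F_supp k fun h' => hk (sh_lev_mono hn h')
    Fi_supp := fun k hk => h.Fi_supp k fun h' => hk (sh_lev_mono hn h')
    F_le := h.F_le
    Fi_le := h.Fi_le
    left := h.left
    right := h.right }

variable {D : Dat}

theorem sh_gT (hD : D.Hyp) : D.γ * D.T = D.c / 2 := by
  rw [hD.γ_eq]
  have := hD.T_pos.ne'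
  field_simp

theorem sh_par (hD : D.Hyp) : Par D.T D.c D.γ := by
  refine ⟨hD.T_pos, ?_, ?_⟩
  · rw [hD.γ_eq]
    have := hD.c_pos
    have := hD.T_pos
    positivity
  · rw [sh_gT hD]
    linarith [hD.c_pos]

theorem sh_gpos (hD : D.Hyp) : 0 < D.γ := by
  rw [hD.γ_eq]
  have := hD.c_pos
  have := hD.T_pos
  positivity

theorem sh_lt (hD : D.Hyp) : D.γ * D.T < D.c := by
  rw [sh_gT hD]
  linarith [hD.c_pos]

theorem sh_G1 (hD : D.Hyp) : 1 ≤ D.G := by linarith [hD.G_two]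

theorem sh_G0 (hD : D.Hyp) : 0 ≤ D.G := by linarith [hD.G_two]

/-- `1 / γ ≤ G`. -/
theorem sh_inv (hD : D.Hyp) {B : ℝ} (hB : 0 ≤ B) : B / D.γ ≤ D.G * B := by
  rw [hD.γ_eq, div_le_iff₀ (by have := hD.c_pos; have := hD.T_pos; positivity)]
  have hc := hD.c_pos
  have hT := hD.T_pos
  have h1 : 1 ≤ D.G * (D.c / (2 * D.T)) := by
    rw [mul_div_assoc', le_div_iff₀ (by positivity), one_mul]
    linarith [hD.T_le, hD.c_G]
  calc B = B * 1 := (mul_one B).symm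
    _ ≤ B * (D.G * (D.c / (2 * D.T))) := mul_le_mul_of_nonneg_left h1 hB
    _ = _ := by ring

theorem sh_N_step (hD : D.Hyp) {j : ℕ} (hj : j ≤ D.n) : D.N j ≤ D.N (j + 1) := by
  have := hD.N_sep j hj
  have := hD.N_pos j (by omega)
  linarith

theorem sh_N_mono (hD : D.Hyp) {i j : ℕ} (hij : i ≤ j) (hj : j ≤ D.n + 1) : D.N i ≤ D.N j := by
  induction j, hij using Nat.le_induction with
  | base => exact le_rfl
  | succ k hk ih => exact (ih (by omega)).trans (sh_N_step hD (by omega))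

theorem sh_K_le (hD : D.Hyp) {j : ℕ} (hj : j ≤ D.n + 1) :
    ∀ i < j, ‖kv (D.K i)‖ ≤ D.N (j - 1) := fun i hi =>
  sh_N_mono hD (show i ≤ j - 1 by omega) (by omega)

theorem sh_N0 (hD : D.Hyp) {j : ℕ} (hj : j ≤ D.n + 1) : 0 < D.N j :=
  lt_of_lt_of_le one_pos (hD.N_pos j hj)

theorem sh_mu (hD : D.Hyp) {j : ℕ} (hj : D.m < j) (hj' : j ≤ D.n + 1) :
    D.N (j - 1) / D.N j ≤ D.u j ^ 512 ∧ D.u j ^ 512 ≤ D.u j ^ 256 ∧ D.u j ^ 256 ≤ 1 ∧
      0 ≤ D.N (j - 1) / D.N j := by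
  have h0 := (hD.u_pos j).le
  have h1 := (hD.u_lt j).le
  refine ⟨hD.mu_le j hj hj', pow_le_pow_of_le_one h0 h1 (by norm_num), pow_le_one₀ h0 h1, ?_⟩
  exact div_nonneg (sh_N0 hD (by omega)).le (sh_N0 hD hj').le

/-- norms of `F`, `Fi`, `M` -/
theorem sh_F (hD : D.Hyp) {l : ℕ} (hl : D.m ≤ l) (hl' : l ≤ D.n) :
    Nrm D.T D.c 0 (fun _ => 1) (D.F l) ≤ ENNReal.ofReal D.G ∧
    Nrm D.T D.c 0 (fun _ => 1) (D.Fi l) ≤ ENNReal.ofReal D.G ∧
    Nrm D.T D.c 0 (fun _ => 1) (D.M l) ≤ ENNReal.ofReal D.G := hD.F_le l hl hl'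

theorem sh_c0 (hD : D.Hyp) : 0 ≤ D.c := hD.c_pos.le

/-- from the weight `α j` to the weight one -/
theorem sh_to_one (hD : D.Hyp) {E : Type} [NormedAddCommGroup E] [NormedSpace ℂ E] {j : ℕ}
    (hj : D.m < j) (hj' : j ≤ D.n + 1) (f : ℝ → Md → E) :
    Nrm D.T D.c 0 (fun _ => 1) f ≤ ENNReal.ofReal D.G * Nrm D.T D.c 0 (D.α j) f :=
  sa_nrm_wt (sa_par0 (sh_par hD)) (hD.α_wt j hj hj') (sa_wt1 D.T) (sh_G0 hD)
    (fun t ht => by rw [mul_one]; exact hD.α_le j hj hj' t ht) f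

theorem sh_z (hD : D.Hyp) {j : ℕ} (hj : D.m < j) (hj' : j ≤ D.n) :
    Nrm D.T D.c 0 (fun _ => 1) (D.z j) ≤ ENNReal.ofReal (D.G ^ 2 / D.N j) ∧
    Nrm D.T D.c 0 (fun _ => 1) (D.a j) ≤ ENNReal.ofReal (D.G ^ 2 / D.N j) := by
  have e : D.G ^ 2 / D.N j = D.G * (D.G / D.N j) := by ring
  rw [e, ENNReal.ofReal_mul (sh_G0 hD)]
  exact ⟨(sh_to_one hD hj (by omega) _).trans (mul_le_mul' le_rfl (hD.z_le j hj hj').1),
    (sh_to_one hD hj (by omega) _).trans (mul_le_mul' le_rfl (hD.z_le j hj hj').2)⟩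

/-- `1 + |k| |z| ≤ 2 G²` -/
theorem sh_sh (hD : D.Hyp) {j : ℕ} (hj : D.m < j) (hj' : j ≤ D.n) :
    Nrm D.T D.c 0 (fun _ => 1) (fun t => shP (D.z j t) (D.kk j)) ≤
      ENNReal.ofReal (2 * D.G ^ 2) ∧
    Nrm D.T D.c 0 (fun _ => 1) (fun t => shM (D.z j t) (D.kk j)) ≤
      ENNReal.ofReal (2 * D.G ^ 2) := by
  have h := sa_N_sh (sh_par hD) (D.kk j) (D.z j)
  have hN := sh_N0 hD (show j ≤ D.n + 1 by omega)
  have h1 : 1 + ENNReal.ofReal ‖D.kk j‖ * Nrm D.T D.c 0 (fun _ => 1) (D.z j) ≤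
      ENNReal.ofReal (2 * D.G ^ 2) := by
    calc 1 + ENNReal.ofReal ‖D.kk j‖ * Nrm D.T D.c 0 (fun _ => 1) (D.z j)
        ≤ ENNReal.ofReal 1 + ENNReal.ofReal (D.N j) * ENNReal.ofReal (D.G ^ 2 / D.N j) := by
          rw [ENNReal.ofReal_one]
          exact add_le_add le_rfl (mul_le_mul' le_rfl (sh_z hD hj hj').1)
      _ = ENNReal.ofReal (1 + D.G ^ 2) := by
          rw [← ENNReal.ofReal_mul hN.le, ← ENNReal.ofReal_add zero_le_one (by positivity)]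
          congr 2
          field_simp
      _ ≤ _ := ENNReal.ofReal_le_ofReal (by nlinarith [sh_G1 hD])
  exact ⟨h.1.trans h1, h.2.trans h1⟩

/-- `F°` and its inverse -/
theorem sh_Fo (hD : D.Hyp) {j : ℕ} (hj : D.m < j) (hj' : j ≤ D.n) :
    Nrm D.T D.c 0 (fun _ => 1) (D.Fo j) ≤ ENNReal.ofReal (2 * D.G ^ 3) ∧
    Nrm D.T D.c 0 (fun _ => 1) (D.Fio j) ≤ ENNReal.ofReal (2 * D.G ^ 3) ∧
    CM D.T (D.Fo j) ∧ CM D.T (D.Fio j) := by
  obtain ⟨h1, h2, -⟩ := sh_F hD (show D.m ≤ j - 1 by omega) (by omega)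
  obtain ⟨c1, c2, -⟩ := hD.F_cm (j - 1) (by omega) (by omega)
  obtain ⟨h3, h4⟩ := sh_sh hD hj hj'
  obtain ⟨c3, c4⟩ := sa_cm_sh (D.kk j) (hD.z_cm j hj hj').1
  have hG := sh_G0 hD
  refine ⟨?_, ?_, ?_, ?_⟩
  · refine (sa_nrm_mm1 (sh_par hD) _ _).trans ((mul_le_mul' h1 h3).trans ?_)
    rw [← ENNReal.ofReal_mul hG]
    exact ENNReal.ofReal_le_ofReal (by ring_nf; rfl)
  · refine (sa_nrm_mm1 (sh_par hD) _ _).trans ((mul_le_mul' h4 h2).trans ?_)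
    rw [← ENNReal.ofReal_mul (by positivity)]
    exact ENNReal.ofReal_le_ofReal (by ring_nf; rfl)
  · exact sa_cm_mm (sh_par hD) c1 c3 (sa_fin0 h1) (sa_fin0 h3)
  · exact sa_cm_mm (sh_par hD) c4 c2 (sa_fin0 h4) (sa_fin0 h2)

/-- `k_j`, `s_j`, `p_j` -/
theorem sh_rw (hD : D.Hyp) {j : ℕ} (hj : D.m < j) (hj' : j ≤ D.n + 1) :
    Nrm D.T D.c 0 (fun _ => 1) (D.rw j) ≤ ENNReal.ofReal (D.G * D.N j) ∧
    Nrm D.T D.c 0 (fun _ => 1) (D.kc j) ≤ ENNReal.ofReal (D.G * D.N j) ∧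
    CM D.T (D.rw j) ∧ CM D.T (D.kc j) := by
  obtain ⟨h1, h2, -⟩ := sh_F hD (show D.m ≤ j - 1 by omega) (by omega)
  obtain ⟨c1, c2, -⟩ := hD.F_cm (j - 1) (by omega) (by omega)
  have hN := sh_N0 hD hj'
  have e : ENNReal.ofReal (D.G * D.N j) = ENNReal.ofReal ‖D.kk j‖ * ENNReal.ofReal D.G := by
    rw [mul_comm, ← ENNReal.ofReal_mul (norm_nonneg _)]
    rfl
  refine ⟨?_, ?_, sa_cm_rwF _ c2, sa_cm_kcF _ c2⟩
  · rw [e]
    exact (sa_N_rwF (D.kk j) (D.Fi (j - 1))).trans (mul_le_mul' le_rfl h2)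
  · rw [e]
    exact (sa_N_kcF (D.kk j) (D.Fi (j - 1))).trans (mul_le_mul' le_rfl h2)

theorem sh_s (hD : D.Hyp) {j : ℕ} (hj : D.m < j) (hj' : j ≤ D.n + 1) :
    Nrm D.T D.c 0 (fun _ => 1) (fun t => scF (D.s j t)) ≤ ENNReal.ofReal (D.G / D.N j ^ 2) ∧
    CM D.T (fun t => scF (D.s j t)) :=
  ⟨(sa_N_scF (D.s j)).trans (hD.s_le j hj hj').1, sa_cm_scF (hD.s_le j hj hj').2.1⟩

theorem sh_srw (hD : D.Hyp) {j : ℕ} (hj : D.m < j) (hj' : j ≤ D.n + 1) :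
    Nrm D.T D.c 0 (fun _ => 1) (fun t => mm (scF (D.s j t)) (D.rw j t)) ≤
      ENNReal.ofReal (D.G ^ 2 / D.N j) ∧
    CM D.T (fun t => mm (scF (D.s j t)) (D.rw j t)) := by
  obtain ⟨h1, -, c1, -⟩ := sh_rw hD hj hj'
  obtain ⟨h2, c2⟩ := sh_s hD hj hj'
  have hN := sh_N0 hD hj'
  refine ⟨?_, sa_cm_mm (sh_par hD) c2 c1 (sa_fin0 h2) (sa_fin0 h1)⟩
  refine (sa_nrm_mm1 (sh_par hD) _ _).trans ((mul_le_mul' h2 h1).trans ?_)
  rw [← ENNReal.ofReal_mul (by have := sh_G0 hD; positivity)]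
  refine ENNReal.ofReal_le_ofReal (le_of_eq ?_)
  field_simp

theorem sh_p (hD : D.Hyp) {j : ℕ} (hj : D.m < j) (hj' : j ≤ D.n + 1) :
    Nrm D.T D.c 0 (fun _ => 1) (D.p j) ≤ ENNReal.ofReal (D.G ^ 3) ∧ CM D.T (D.p j) := by
  obtain ⟨-, h1, -, c1⟩ := sh_rw hD hj hj'
  obtain ⟨h2, c2⟩ := sh_srw hD hj hj'
  have hN := sh_N0 hD hj'
  have h1' := (sa_N_tsF (T := D.T) (c := D.c) (γ := 0) (σ := fun _ => 1) (D.kc j)).trans h1
  refine ⟨?_, sa_cm_mm (sh_par hD) (sa_cm_tsF c1) c2 (sa_fin0 h1') (sa_fin0 h2)⟩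
  refine (sa_nrm_mm1 (sh_par hD) _ _).trans ((mul_le_mul' h1' h2).trans ?_)
  rw [← ENNReal.ofReal_mul (by have := sh_G0 hD; positivity)]
  refine ENNReal.ofReal_le_ofReal (le_of_eq ?_)
  field_simp

/-! ### the sheet -/

/-- The sheet of class `l`, `m < l ≤ n`. -/
theorem sh_sheet (hD : D.Hyp) {l : ℕ} (hl : D.m < l) (hl' : l ≤ D.n) {t : ℝ}
    (ht : t ∈ Icc 0 D.T) :
    Sheet D.K l (D.F (l - 1) t) (D.Fi (l - 1) t) (D.z l t) (D.s l t) := by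
  have hm : D.m ≤ l - 1 := by omega
  have hn : l - 1 ≤ D.n := by omega
  obtain ⟨h1, h2, -⟩ := sh_F hD hm hn
  obtain ⟨s1, s2, -⟩ := hD.F_supp (l - 1) hm hn
  obtain ⟨cc, b, e, hfd⟩ := hD.fd (l - 1) hm hn t ht
  have hW := sa_wt1 D.T
  refine
    { j_pos := by omega
      k_pos := sh_N0 hD (by omega)
      F_supp := s1 t ht
      Fi_supp := s2 t ht
      z_supp := (hD.z_supp l hl hl').1 t ht
      s_supp := (hD.s_le l hl (by omega)).2.2 t ht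
      z_orth := hD.z_orth l hl hl' t ht
      fin := ⟨D.c, hD.c_pos, sa_static_c hW (sa_fin0 h1) ht, sa_static_c hW (sa_fin0 h2) ht,
        sa_static_c hW (sa_fin0 (sh_z hD hl hl').1) ht,
        sa_static_c hW (sa_fin0 (hD.s_le l hl (by omega)).1) ht⟩
      left := (sh_left hfd).1
      right := (sh_left hfd).2
      s_eq := hD.s_eq l hl (by omega) t ht
      fd := ⟨cc, b, e, hfd⟩
      fdo := hD.fdo l hl hl' t ht }

/-- The sheet of the new class, with `z = 0`. -/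
theorem sh_sheet0 (hD : D.Hyp) {t : ℝ} (ht : t ∈ Icc 0 D.T) :
    Sheet D.K (D.n + 1) (D.F D.n t) (D.Fi D.n t) 0 (D.s (D.n + 1) t) := by
  have hm : D.m ≤ D.n := hD.hmn
  obtain ⟨h1, h2, -⟩ := sh_F hD hm le_rfl
  obtain ⟨s1, s2, -⟩ := hD.F_supp D.n hm le_rfl
  obtain ⟨cc, b, e, hfd⟩ := hD.fd D.n hm le_rfl t ht
  have hW := sa_wt1 D.T
  refine
    { j_pos := by omega
      k_pos := sh_N0 hD le_rfl
      F_supp := s1 t ht
      Fi_supp := s2 t ht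
      z_supp := fun _ _ => rfl
      s_supp := (hD.s_le (D.n + 1) (by omega) le_rfl).2.2 t ht
      z_orth := fun q => by simp
      fin := ⟨D.c, hD.c_pos, sa_static_c hW (sa_fin0 h1) ht, sa_static_c hW (sa_fin0 h2) ht,
        fin_zero, sa_static_c hW (sa_fin0 (hD.s_le (D.n + 1) (by omega) le_rfl).1) ht⟩
      left := (sh_left hfd).1
      right := (sh_left hfd).2
      s_eq := hD.s_eq (D.n + 1) (by omega) le_rfl t ht
      fd := ⟨cc, b, e, hfd⟩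
      fdo := ?_ }
  rw [sh_shP_zero, sh_shM_zero, sh_mm_one, sh_one_mm]
  exact ⟨cc, b, e, sh_FData_lev hfd (by omega)⟩

end Pool.Agent.Work.MP_b0497c_an.Unf.S

end

section

set_option autoImplicit false
set_option linter.unusedSectionVars false

/-!
# The projector `Π°` on class `j` (common core of S09 and S10)
-/

open scoped ENNReal
open Set MeasureTheory

namespace Pool.Agent.Work.MP_b0497c_an.Unf.S

open W

variable {D : Dat}

theorem sh_core (hD : D.Hyp) (h01 : S01) (h02 : S02) (h05 : S05) {j : ℕ} (hj : D.m < j)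
    (hj' : j ≤ D.n + 1) {z : ℝ → Md → C3}
    (hS : ∀ t ∈ Icc 0 D.T, Sheet D.K j (D.F (j - 1) t) (D.Fi (j - 1) t) (z t) (D.s j t))
    (hFo : Nrm D.T D.c 0 (fun _ => 1) (fun t => mm (D.F (j - 1) t) (shP (z t) (D.kk j))) ≤
      ENNReal.ofReal (2 * D.G ^ 3))
    (hFoc : CM D.T (fun t => mm (D.F (j - 1) t) (shP (z t) (D.kk j))))
    (hFi : Nrm D.T D.c 0 (fun _ => 1) (fun t => mm (shM (z t) (D.kk j)) (D.Fi (j - 1) t)) ≤
      ENNReal.ofReal (2 * D.G ^ 3))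
    (hFic : CM D.T (fun t => mm (shM (z t) (D.kk j)) (D.Fi (j - 1) t)))
    (hP : KN D.T D.c (fun t => PiK (xi D.K) (mm (shM (z t) (D.kk j)) (D.Fi (j - 1) t))) ≤
      ENNReal.ofReal D.G)
    (hPc : CK D.T (fun t => PiK (xi D.K) (mm (shM (z t) (D.kk j)) (D.Fi (j - 1) t))))
    {σ : ℝ → ℝ} (hσ : Wt D.T σ) {f : ℝ → Md → C3} (hf : CM D.T f) (hs : SuppT D.T (Cl j) f)
    (hfn : Nrm D.T D.c D.γ σ f ≠ ∞) :
    Src D.T D.c D.γ σ (fun t =>
      act (PiK (xi D.K) (mm (shM (z t) (D.kk j)) (D.Fi (j - 1) t))) (f t) -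
        mul (D.p j t) (f t)) ≤
      ENNReal.ofReal (12 * D.G ^ 9 * (D.N (j - 1) / D.N j)) * Nrm D.T D.c D.γ σ f := by
  have hPar := sh_par hD
  have hG0 := sh_G0 hD
  have hG1 := sh_G1 hD
  have hc0 := sh_c0 hD
  have hNj := sh_N0 hD hj'
  have hNm := sh_N0 hD (show j - 1 ≤ D.n + 1 by omega)
  have hN0 : (0 : ℝ) ≤ D.N (j - 1) := hNm.le
  obtain ⟨-, hFi1, -⟩ := sh_F hD (show D.m ≤ j - 1 by omega) (by omega)
  obtain ⟨-, cFi, -⟩ := hD.F_cm (j - 1) (by omega) (by omega)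
  obtain ⟨hp, cp⟩ := sh_p hD hj hj'
  obtain ⟨hsr, csr⟩ := sh_srw hD hj hj'
  set N0 := Nrm D.T D.c D.γ σ f with hN0def
  have hf1 : Nrm D.T D.c D.γ σ f ≤ ENNReal.ofReal 1 * N0 := by
    rw [ENNReal.ofReal_one, one_mul]
  -- the two functions
  let g : ℝ → Md → C3 := fun t => f t - mul (D.p j t) (f t)
  let x : ℝ → Md → C3 := fun t => mul (D.Fi (j - 1) t) (g t)
  let ψ : ℝ → Md → ℂ := fun t => mul (mm (scF (D.s j t)) (D.rw j t)) (f t)
  have cpf : CM D.T (fun t => mul (D.p j t) (f t)) := sa_cm_mul hPar hσ cp hf (sa_fin0 hp) hfn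
  have npf : Nrm D.T D.c D.γ σ (fun t => mul (D.p j t) (f t)) ≤
      ENNReal.ofReal (D.G ^ 3 * 1) * N0 :=
    sa_chain' (by positivity) (sa_nrm_mul1 hPar hσ (D.p j) f) hp hf1
  have cg : CM D.T g := sa_cm_sub hf cpf
  have ng : Nrm D.T D.c D.γ σ g ≤ ENNReal.ofReal (1 + D.G ^ 3 * 1) * N0 :=
    sa_sum zero_le_one (by positivity) (sa_nrm_sub hPar hσ f _) hf1 npf
  have cx : CM D.T x := sa_cm_mul hPar hσ cFi cg (sa_fin0 hFi1) (sa_fin ng hfn)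
  have nx : Nrm D.T D.c D.γ σ x ≤ ENNReal.ofReal (D.G * (1 + D.G ^ 3 * 1)) * N0 :=
    sa_chain' hG0 (sa_nrm_mul1 hPar hσ (D.Fi (j - 1)) g) hFi1 ng
  have cψ : CM D.T ψ := sa_cm_mul hPar hσ csr hf (sa_fin0 hsr) hfn
  have nψ : Nrm D.T D.c D.γ σ ψ ≤ ENNReal.ofReal (D.G ^ 2 / D.N j * 1) * N0 :=
    sa_chain' (by positivity)
      (sa_nrm_mul1 hPar hσ (fun t => mm (scF (D.s j t)) (D.rw j t)) f) hsr hf1
  -- the identity
  have hfs : ∀ t ∈ Icc 0 D.T, ∃ c : ℝ, 0 < c ∧ sN c (f t) ≠ ∞ := fun t ht =>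
    ⟨D.c - D.γ * t, sa_radius' hPar (sh_lt hD) ht, sa_static_fin hσ hfn ht⟩
  have hid := fun t (ht : t ∈ Icc 0 D.T) =>
    h05 D.K j (D.F (j - 1) t) (D.Fi (j - 1) t) (z t) (D.s j t) (f t) (hS t ht) (hs t ht)
      (hfs t ht)
  have hkj : 0 < ‖kv (D.K j)‖ := hNj
  -- first term
  have hA := sa_term hPar (sh_gpos hD) (sh_lt hD) hσ
    (P := fun t => PiK (xi D.K) (mm (shM (z t) (D.kk j)) (D.Fi (j - 1) t)))
    (a := fun t => mm (D.F (j - 1) t) (shP (z t) (D.kk j)))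
    (w := fun t => act (PK (xi D.K)) (x t)) (y := x) (p := D.G) (b := 2 * D.G ^ 3)
    (B := 2 * (D.N (j - 1) / ‖kv (D.K j)‖)) hG0 (by positivity) (by positivity)
    hP hPc hFo hFoc (sa_cm_PK _ cx)
    (fun t ht q => sa_PK_le h02 hN0 (sh_K_le hD hj') hkj (hid t ht).2.1 (hid t ht).2.2.2 q)
    (sa_fin nx hfn)
  obtain ⟨-, cA, sA⟩ := hA
  have hB' := sa_id_sub hc0 hG1 hP hPc
  have hFia : Nrm D.T D.c 0 (fun _ => 1) (fun t =>
      adjC (mm (shM (z t) (D.kk j)) (D.Fi (j - 1) t))) ≤ ENNReal.ofReal (2 * D.G ^ 3) :=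
    (sa_N_adjC _).trans hFi
  have hB := sa_term hPar (sh_gpos hD) (sh_lt hD) hσ
    (P := fun t => idK - PiK (xi D.K) (mm (shM (z t) (D.kk j)) (D.Fi (j - 1) t)))
    (a := fun t => adjC (mm (shM (z t) (D.kk j)) (D.Fi (j - 1) t)))
    (w := fun t => gdp D.K j (ψ t)) (y := ψ) (p := 2 * D.G) (b := 2 * D.G ^ 3)
    (B := D.N (j - 1)) (by positivity) (by positivity) hN0
    hB'.1 hB'.2 hFia (sa_cm_adjC hFic) (sa_cm_gdp _ _ cψ)
    (fun t ht q => sa_gdp_le h01 hN0 (sh_K_le hD hj') (hid t ht).2.2.1 q)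
    (sa_fin nψ hfn)
  obtain ⟨-, -, sB⟩ := hB
  have hμ : 0 ≤ D.N (j - 1) / D.N j := by positivity
  have hγ0 := sh_gpos hD
  have sA' := sa_chain (by positivity) sA nx
  have sB' := sa_chain (by positivity) sB nψ
  have hsum := (sa_src_add hPar hσ (fun t =>
    act (idK - PiK (xi D.K) (mm (shM (z t) (D.kk j)) (D.Fi (j - 1) t)))
      (mul (adjC (mm (shM (z t) (D.kk j)) (D.Fi (j - 1) t))) (gdp D.K j (ψ t)))) cA)
  have hcongr := sa_src_congr (T := D.T) (c := D.c) (γ := D.γ) (ρ := σ) (ρ' := σ)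
    (f := fun t => act (PiK (xi D.K) (mm (shM (z t) (D.kk j)) (D.Fi (j - 1) t))) (f t) -
        mul (D.p j t) (f t))
    (g := fun t => act (PiK (xi D.K) (mm (shM (z t) (D.kk j)) (D.Fi (j - 1) t)))
      (mul (mm (D.F (j - 1) t) (shP (z t) (D.kk j))) (act (PK (xi D.K)) (x t))) +
      act (idK - PiK (xi D.K) (mm (shM (z t) (D.kk j)) (D.Fi (j - 1) t)))
      (mul (adjC (mm (shM (z t) (D.kk j)) (D.Fi (j - 1) t))) (gdp D.K j (ψ t))))
    (fun t ht => (hid t ht).1) (fun _ _ => rfl)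
  rw [hcongr]
  refine sa_up (sa_sum (by positivity) (by positivity) hsum sA' sB') ?_
  -- constants
  set μ := D.N (j - 1) / D.N j with hμdef
  have e1 : 2 * (D.N (j - 1) / ‖kv (D.K j)‖) = 2 * μ := rfl
  rw [e1]
  have i1 := sh_inv hD (B := 2 * μ) (by positivity)
  have i2 := sh_inv hD (B := D.N (j - 1)) hN0
  have hG3 : 1 ≤ D.G ^ 3 := one_le_pow₀ hG1
  have t1 : D.G * (2 * D.G ^ 3) * (2 * μ / D.γ) * (D.G * (1 + D.G ^ 3 * 1)) ≤ 8 * D.G ^ 9 * μ := by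
    calc D.G * (2 * D.G ^ 3) * (2 * μ / D.γ) * (D.G * (1 + D.G ^ 3 * 1))
        ≤ D.G * (2 * D.G ^ 3) * (D.G * (2 * μ)) * (D.G * (2 * D.G ^ 3)) := by
          gcongr
          linarith
      _ = 8 * D.G ^ 9 * μ := by ring
  have t2 : 2 * D.G * (2 * D.G ^ 3) * (D.N (j - 1) / D.γ) * (D.G ^ 2 / D.N j * 1) ≤
      4 * D.G ^ 9 * μ := by
    calc 2 * D.G * (2 * D.G ^ 3) * (D.N (j - 1) / D.γ) * (D.G ^ 2 / D.N j * 1)
        ≤ 2 * D.G * (2 * D.G ^ 3) * (D.G * D.N (j - 1)) * (D.G ^ 2 / D.N j * 1) := by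
          gcongr
      _ = 4 * D.G ^ 7 * μ := by rw [hμdef]; ring
      _ ≤ 4 * D.G ^ 9 * μ := by
          have : D.G ^ 7 ≤ D.G ^ 9 := pow_le_pow_right₀ hG1 (by norm_num)
          gcongr
  linarith

end Pool.Agent.Work.MP_b0497c_an.Unf.S

end

section

set_option autoImplicit false
set_option linter.unusedSectionVars false

/-!
# S09 (P2): the projector of level `l` on class `l`
-/

open scoped ENNReal
open Set MeasureTheory

namespace Pool.Agent.Work.MP_b0497c_an.Unf.S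

open W

variable {D : Dat}

theorem sh_P (hD : D.Hyp) {l : ℕ} (hl : D.m ≤ l) (hl' : l ≤ D.n) {t : ℝ} (ht : t ∈ Icc 0 D.T) :
    sK 0 (D.Pl l t) ≠ ∞ :=
  sa_KN_static (sh_c0 hD) (sa_fin0 (hD.P_le l hl hl').1) ht

theorem sh_Po (hD : D.Hyp) {l : ℕ} (hl : D.m < l) (hl' : l ≤ D.n) {t : ℝ} (ht : t ∈ Icc 0 D.T) :
    sK 0 (D.Po l t) ≠ ∞ :=
  sa_KN_static (sh_c0 hD) (sa_fin0 (hD.Po_le l hl hl').1) ht

/-- `(Π_l - Π_l°) f` -/
theorem sh_dif (hD : D.Hyp) {l : ℕ} (hl : D.m < l) (hl' : l ≤ D.n) {σ : ℝ → ℝ} (hσ : Wt D.T σ)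
    {f : ℝ → Md → C3} (hf : CM D.T f) (hfn : Nrm D.T D.c D.γ σ f ≠ ∞) :
    CM D.T (fun t => act (D.Pl l t - D.Po l t) (f t)) ∧
    Src D.T D.c D.γ (fun t => σ t * D.α l t) (fun t => act (D.Pl l t - D.Po l t) (f t)) ≤
      ENNReal.ofReal (D.G * D.u l ^ 256) * Nrm D.T D.c D.γ σ f := by
  have hPar := sh_par hD
  have hP := hD.P_le l hl.le hl'
  have hPo := hD.Po_le l hl hl'
  refine ⟨?_, ?_⟩
  · refine sa_cm_act hPar hσ (A := fun t => D.Pl l t - D.Po l t) (sa_CK_sub hP.2 hPo.2) hf ?_ hfn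
    exact ne_top_of_le_ne_top (ENNReal.add_ne_top.2 ⟨sa_fin0 hP.1, sa_fin0 hPo.1⟩)
      (sa_KN_sub (sh_c0 hD) _ _)
  · have h1 := sa_src_act hPar hσ (hD.α_wt l hl (by omega)).pos
      (fun t => D.Pl l t - D.Po l t) f hf
    exact h1.trans (mul_le_mul' (hD.P_dif l hl hl') (sa_src_le hPar hσ hD.T_le f))

theorem sh_CM_p (hD : D.Hyp) {l j : ℕ} (hl : D.m ≤ l) (hl' : l ≤ D.n) (hj : D.m < j)
    (hj' : j ≤ D.n + 1) {σ : ℝ → ℝ} (hσ : Wt D.T σ)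
    {f : ℝ → Md → C3} (hf : CM D.T f) (hfn : Nrm D.T D.c D.γ σ f ≠ ∞) :
    CM D.T (fun t => act (D.Pl l t) (f t) - mul (D.p j t) (f t)) := by
  have hPar := sh_par hD
  have hP := hD.P_le l hl hl'
  obtain ⟨hp, cp⟩ := sh_p hD hj hj'
  exact sa_cm_sub (sa_cm_act hPar hσ (A := D.Pl l) hP.2 hf (sa_fin0 hP.1) hfn)
    (sa_cm_mul hPar hσ cp hf (sa_fin0 hp) hfn)

theorem s09 (h01 : S01) (h02 : S02) (h05 : S05) : S09 := by
  intro D hD l σ f hl hl' hσ hf hs hfn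
  refine ⟨sh_CM_p hD hl.le hl' hl (by omega) hσ hf hfn, ?_⟩
  have hPar := sh_par hD
  have hG0 := sh_G0 hD
  have hG1 := sh_G1 hD
  have hG2 := hD.G_two
  have hu := (hD.u_pos l).le
  obtain ⟨hm1, hm2, hm3, hm0⟩ := sh_mu hD hl (show l ≤ D.n + 1 by omega)
  obtain ⟨hFo, hFi, cFo, cFi⟩ := sh_Fo hD hl hl'
  have hPo := hD.Po_le l hl hl'
  have hcore := sh_core hD h01 h02 h05 hl (show l ≤ D.n + 1 by omega)
    (fun t ht => sh_sheet hD hl hl' ht) hFo cFo hFi cFi hPo.1 hPo.2 hσ hf hs hfn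
  obtain ⟨cd, sd⟩ := sh_dif hD hl hl' hσ hf hfn
  have hα := hD.α_wt l hl (show l ≤ D.n + 1 by omega)
  have sd' : Src D.T D.c D.γ σ (fun t => act (D.Pl l t - D.Po l t) (f t)) ≤
      ENNReal.ofReal D.G * Src D.T D.c D.γ (fun t => σ t * D.α l t)
        (fun t => act (D.Pl l t - D.Po l t) (f t)) :=
    ((pr_W05 Md C3 D.T D.c D.γ (fun t => σ t * D.α l t) σ
      (fun t => act (D.Pl l t - D.Po l t) (f t)) (fun t => act (D.Pl l t - D.Po l t) (f t))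
      hPar (sa_wt_mul hσ hα) hσ).2.1 D.G hG0 (fun t ht => by
        rw [mul_comm]
        exact mul_le_mul_of_nonneg_right (hD.α_le l hl (by omega) t ht) (hσ.pos t ht).le)).2
  have sd2 := sa_chain hG0 sd' sd
  have hcongr := sa_src_congr (T := D.T) (c := D.c) (γ := D.γ) (ρ := σ) (ρ' := σ)
    (f := fun t => act (D.Pl l t) (f t) - mul (D.p l t) (f t))
    (g := fun t => act (D.Pl l t - D.Po l t) (f t) +
      (act (D.Po l t) (f t) - mul (D.p l t) (f t)))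
    (fun t ht => by
      show act (D.Pl l t) (f t) - mul (D.p l t) (f t) = act (D.Pl l t - D.Po l t) (f t) +
        (act (D.Po l t) (f t) - mul (D.p l t) (f t))
      rw [act_subK (sh_P hD hl.le hl' ht) (sh_Po hD hl hl' ht) (sa_static0 hPar hσ hfn ht)]
      abel) (fun _ _ => rfl)
  rw [hcongr]
  have hsum := sa_src_add hPar hσ (fun t => act (D.Po l t) (f t) - mul (D.p l t) (f t)) cd
  have hμ : D.N (l - 1) / D.N l ≤ D.u l ^ 256 := hm1.trans hm2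
  have hv : 0 ≤ D.u l ^ 256 := pow_nonneg hu 256
  generalize D.u l ^ 256 = v at sd2 hμ hv ⊢
  refine sa_up (sa_sum (by positivity) (by positivity) hsum sd2 hcore) ?_
  have h4 : (16 : ℝ) ≤ D.G ^ 4 := by
    calc (16 : ℝ) = 2 ^ 4 := by norm_num
      _ ≤ D.G ^ 4 := pow_le_pow_left₀ (by norm_num) hG2 4
  have h2 : D.G ^ 2 ≤ D.G ^ 9 := pow_le_pow_right₀ hG1 (by norm_num)
  calc D.G * (D.G * v) + 12 * D.G ^ 9 * (D.N (l - 1) / D.N l)
      ≤ D.G ^ 2 * v + 12 * D.G ^ 9 * v := by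
        refine add_le_add (le_of_eq (by ring)) ?_
        gcongr
    _ ≤ D.G ^ 9 * v + 12 * D.G ^ 9 * v := by gcongr
    _ = 13 * (D.G ^ 9 * v) := by ring
    _ ≤ D.G ^ 4 * (D.G ^ 9 * v) := by
        gcongr
        linarith
    _ = _ := by ring

end Pool.Agent.Work.MP_b0497c_an.Unf.S

end
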