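import Pool.Agent.Work.MP_b0497c_an.Forced.Ode.Stmts

/-! Bundle of small proof modules (one section per former module). -/

section

set_option autoImplicit false

/-!
# ODE module of the forced Euler blow-up: growth of solutions of linear ODEs
-/

open scoped ContDiff
open Set ContinuousLinearMap

namespace Pool.Agent.Work.MP_b0497c_an.Forced.Ode

namespace Grow

theorem exp_sub_one_le (x : ℝ) : Real.exp x - 1 ≤ x * Real.exp x := by
  have h1 := Real.add_one_le_exp (-x)
  have h2 := Real.exp_pos x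
  have h3 : Real.exp (-x) * Real.exp x = 1 := by
    rw [← Real.exp_add]
    simp
  nlinarith [mul_le_mul_of_nonneg_right h1 h2.le]

theorem bound_le (δ K L τ : ℝ) (hK : 0 ≤ K) (hL : 0 ≤ L) :
    gronwallBound δ K L τ ≤ Real.exp (K * τ) * (δ + L * τ) := by
  rcases eq_or_lt_of_le hK with h | h
  · subst h
    rw [gronwallBound_K0]
    simp
  · rw [gronwallBound_of_K_ne_0 h.ne']
    have h1 := exp_sub_one_le (K * τ)
    have h2 : L / K * (Real.exp (K * τ) - 1) ≤ L / K * (K * τ * Real.exp (K * τ)) :=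
      mul_le_mul_of_nonneg_left h1 (div_nonneg hL h.le)
    have h3 : L / K * (K * τ * Real.exp (K * τ)) = Real.exp (K * τ) * (L * τ) := by
      field_simp
    rw [h3] at h2
    calc δ * Real.exp (K * τ) + L / K * (Real.exp (K * τ) - 1)
        ≤ δ * Real.exp (K * τ) + Real.exp (K * τ) * (L * τ) := by linarith
      _ = Real.exp (K * τ) * (δ + L * τ) := by ring

end Grow

theorem prf_StGrow : StGrow := by
  intro E _ _ y y' s t K L hst hK hL hy hb
  have h1 := norm_le_gronwallBound_of_norm_deriv_right_le (f := y) (f' := y') (δ := ‖y s‖)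
    (K := K) (ε := L) (a := s) (b := t)
    (fun u hu => (hy u hu).continuousAt.continuousWithinAt)
    (fun u hu => (hy u ⟨hu.1, hu.2.le⟩).hasDerivWithinAt) le_rfl
    (fun u hu => hb u ⟨hu.1, hu.2.le⟩) t ⟨hst, le_rfl⟩
  exact h1.trans (Grow.bound_le ‖y s‖ K L (t - s) hK hL)

theorem prf_StGrowBack : StGrowBack := by
  intro E _ _ y y' s t K L hst hK hL hy hb
  have h := prf_StGrow E (fun u => y (s + t - u)) (fun u => -(y' (s + t - u))) s t K L hst hK hL
    (fun u hu => by
      have h1 : s + t - u ∈ Icc s t := ⟨by linarith [hu.2], by linarith [hu.1]⟩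
      have h2 : HasDerivAt (fun u : ℝ => s + t - u) (-1) u := by
        simpa using (hasDerivAt_id u).const_sub (s + t)
      have h3 : HasDerivAt (fun u => y (s + t - u)) ((-1 : ℝ) • y' (s + t - u)) u :=
        (hy _ h1).scomp u h2
      rwa [neg_one_smul] at h3)
    (fun u hu => by
      have h1 : s + t - u ∈ Icc s t := ⟨by linarith [hu.2], by linarith [hu.1]⟩
      have h2 := hb _ h1
      simpa using h2)
  simpa using h

end Pool.Agent.Work.MP_b0497c_an.Forced.Ode

end

section

set_option autoImplicit false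

/-!
# ODE module, item W4: three orthogonal vectors span
-/

open scoped ContDiff
open Set ContinuousLinearMap

namespace Pool.Agent.Work.MP_b0497c_an.Forced.Ode

theorem prf_StSpan : StSpan := by
  intro u1 u2 u3 X h1 h2 h3 h12 h13 h23
  have hne : ∀ i : Fin 3, (![u1, u2, u3] : Fin 3 → E3) i ≠ 0 := by
    intro i
    fin_cases i
    · exact h1
    · exact h2
    · exact h3
  have h21 : inner ℝ u2 u1 = 0 := by rw [real_inner_comm]; exact h12
  have h31 : inner ℝ u3 u1 = 0 := by rw [real_inner_comm]; exact h13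
  have h32 : inner ℝ u3 u2 = 0 := by rw [real_inner_comm]; exact h23
  have horth : Pairwise fun i j : Fin 3 =>
      inner ℝ ((![u1, u2, u3] : Fin 3 → E3) i) ((![u1, u2, u3] : Fin 3 → E3) j) = 0 := by
    intro i j hij
    fin_cases i <;> fin_cases j
    · exact absurd rfl hij
    · exact h12
    · exact h13
    · exact h21
    · exact absurd rfl hij
    · exact h23
    · exact h31
    · exact h32
    · exact absurd rfl hij
  have hli : LinearIndependent ℝ (![u1, u2, u3] : Fin 3 → E3) :=
    linearIndependent_of_ne_zero_of_inner_eq_zero hne horth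
  have hcard : Fintype.card (Fin 3) = Module.finrank ℝ E3 := by
    rw [finrank_euclideanSpace]
  let b := basisOfLinearIndependentOfCardEqFinrank hli hcard
  have hb : ∀ i, b i = (![u1, u2, u3] : Fin 3 → E3) i := fun i => by
    show basisOfLinearIndependentOfCardEqFinrank hli hcard i = _
    rw [coe_basisOfLinearIndependentOfCardEqFinrank]
  have n1 : ‖u1‖ ^ 2 ≠ 0 := pow_ne_zero 2 (norm_ne_zero_iff.2 h1)
  have n2 : ‖u2‖ ^ 2 ≠ 0 := pow_ne_zero 2 (norm_ne_zero_iff.2 h2)
  have n3 : ‖u3‖ ^ 2 ≠ 0 := pow_ne_zero 2 (norm_ne_zero_iff.2 h3)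
  refine InnerProductSpace.ext_inner_left_basis b ?_
  intro i
  rw [hb i, inner_add_right, inner_add_right, real_inner_smul_right, real_inner_smul_right,
    real_inner_smul_right]
  fin_cases i
  · show inner ℝ u1 X = inner ℝ u1 X / ‖u1‖ ^ 2 * inner ℝ u1 u1 +
      inner ℝ u2 X / ‖u2‖ ^ 2 * inner ℝ u1 u2 + inner ℝ u3 X / ‖u3‖ ^ 2 * inner ℝ u1 u3
    rw [h12, h13, real_inner_self_eq_norm_sq, div_mul_cancel₀ _ n1]
    ring
  · show inner ℝ u2 X = inner ℝ u1 X / ‖u1‖ ^ 2 * inner ℝ u2 u1 +
      inner ℝ u2 X / ‖u2‖ ^ 2 * inner ℝ u2 u2 + inner ℝ u3 X / ‖u3‖ ^ 2 * inner ℝ u2 u3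
    rw [h21, h23, real_inner_self_eq_norm_sq, div_mul_cancel₀ _ n2]
    ring
  · show inner ℝ u3 X = inner ℝ u1 X / ‖u1‖ ^ 2 * inner ℝ u3 u1 +
      inner ℝ u2 X / ‖u2‖ ^ 2 * inner ℝ u3 u2 + inner ℝ u3 X / ‖u3‖ ^ 2 * inner ℝ u3 u3
    rw [h31, h32, real_inner_self_eq_norm_sq, div_mul_cancel₀ _ n3]
    ring

end Pool.Agent.Work.MP_b0497c_an.Forced.Ode

end

section

set_option autoImplicit false

/-!
# Uniqueness for linear differential equations
-/

open Set

namespace Pool.Agent.Work.MP_b0497c_an.Forced.Ode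

/-- Uniqueness of solutions of `y' = A y + r` with `A` continuous. -/
theorem prf_StUnique : StUnique := by
  intro E _ _ A r hA t0 y z h0 hy hz
  funext t
  set R : ℝ := |t - t0| + 1 with hR
  have hR0 : 0 < R := by positivity
  have hcomp : IsCompact (Icc (t0 - R) (t0 + R)) := isCompact_Icc
  obtain ⟨C, hC⟩ := hcomp.exists_bound_of_continuousOn hA.continuousOn
  have hmem0 : t0 ∈ Ioo (t0 - R) (t0 + R) := ⟨by linarith, by linarith⟩
  have hmem : t ∈ Ioo (t0 - R) (t0 + R) := by
    have := abs_lt.1 (show |t - t0| < R by linarith)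
    exact ⟨by linarith [this.1], by linarith [this.2]⟩
  have key := ODE_solution_unique_of_mem_Ioo (v := fun s x => A s x + r s) (s := fun _ => univ)
    (K := C.toNNReal) (a := t0 - R) (b := t0 + R) (t₀ := t0) (f := y) (g := z) ?_ hmem0 ?_ ?_ h0
  · exact key hmem
  · intro s hs
    apply LipschitzWith.lipschitzOnWith
    refine LipschitzWith.of_dist_le_mul ?_
    intro p q
    rw [dist_eq_norm, dist_eq_norm, add_sub_add_right_eq_sub, ← map_sub]
    refine ((A s).le_opNorm _).trans ?_
    refine mul_le_mul_of_nonneg_right ?_ (norm_nonneg _)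
    exact (hC s (Ioo_subset_Icc_self hs)).trans (Real.le_coe_toNNReal C)
  · intro s _
    exact ⟨hy s, mem_univ _⟩
  · intro s _
    exact ⟨hz s, mem_univ _⟩

end Pool.Agent.Work.MP_b0497c_an.Forced.Ode

end
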