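import Pool.Agent.Work.MP_b0497c_an.Unf.SStmts
import Pool.Agent.Work.MP_b0497c_an.Unf.CStmts
import Pool.Agent.Work.MP_b0497c_an.Unf.W17
import Pool.Agent.Work.MP_b0497c_an.Unf.DDefs

/-! Bundle of small proof modules (one section per former module). -/

section

set_option autoImplicit false

/-!
# S04: decomposition into classes
-/

open scoped ENNReal
open Set MeasureTheory

namespace Pool.Agent.Work.MP_b0497c_an.Unf.S

open W

theorem cs_coarse (m : ℕ) : Cs m m = (lev m : Set Md) := by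
  unfold Cs
  rw [if_pos le_rfl]

theorem cs_fine {m o : ℕ} (h : m < o) : Cs m o = Cl o := by
  unfold Cs
  rw [if_neg (by omega)]

private theorem lev_mono {m n : ℕ} (h : m ≤ n) {q : Md} (hq : q ∈ lev m) : q ∈ lev n := fun i hi =>
  hq i (by omega)

theorem cs_sub_lev {m o : ℕ} (h : m ≤ o) {q : Md} (hq : q ∈ Cs m o) : q ∈ lev o := by
  rcases h.eq_or_lt with h | h
  · subst h
    rw [cs_coarse] at hq
    exact hq
  · rw [cs_fine h] at hq
    exact hq.1

theorem lev_pred {n : ℕ} {q : Md} (hq : q ∈ lev (n + 1)) (h0 : q (n + 1) = 0) : q ∈ lev n := by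
  intro i hi
  rcases (Nat.succ_le_of_lt hi).eq_or_lt with h | h
  · rw [← h]
    exact h0
  · exact hq i h

theorem exists_unique_class {m n : ℕ} (hmn : m ≤ n) (q : Md) (hq : q ∈ lev n) :
    ∃! o, o ∈ Finset.Icc m n ∧ q ∈ Cs m o := by
  induction n, hmn using Nat.le_induction with
  | base =>
    refine ⟨m, ⟨by simp, by rw [cs_coarse]; exact hq⟩, ?_⟩
    rintro o ⟨ho, -⟩
    rw [Finset.mem_Icc] at ho
    omega
  | succ n hmn ih =>
    by_cases h0 : q (n + 1) = 0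
    · obtain ⟨o, ⟨ho, hqo⟩, hu⟩ := ih (lev_pred hq h0)
      rw [Finset.mem_Icc] at ho
      refine ⟨o, ⟨Finset.mem_Icc.2 ⟨ho.1, by omega⟩, hqo⟩, ?_⟩
      rintro o' ⟨ho', hqo'⟩
      rw [Finset.mem_Icc] at ho'
      rcases ho'.2.eq_or_lt with h | h
      · exfalso
        rw [h, cs_fine (by omega)] at hqo'
        exact hqo'.2 h0
      · exact hu o' ⟨Finset.mem_Icc.2 ⟨ho'.1, by omega⟩, hqo'⟩
    · refine ⟨n + 1, ⟨Finset.mem_Icc.2 ⟨by omega, le_rfl⟩, ?_⟩, ?_⟩
      · rw [cs_fine (by omega)]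
        exact ⟨hq, h0⟩
      · rintro o ⟨ho, hqo⟩
        rw [Finset.mem_Icc] at ho
        rcases ho.2.eq_or_lt with h | h
        · exact h
        · exfalso
          exact h0 (cs_sub_lev ho.1 hqo (n + 1) h)

theorem res_mem {E : Type} [Zero E] {S : Set Md} (f : Md → E) {q : Md} (h : q ∈ S) :
    res S f q = f q := by
  unfold res
  rw [if_pos h]

theorem res_not_mem {E : Type} [Zero E] {S : Set Md} (f : Md → E) {q : Md} (h : q ∉ S) :
    res S f q = 0 := by
  unfold res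
  rw [if_neg h]

theorem res_enorm_le {E : Type} [NormedAddCommGroup E] (S : Set Md) (f : Md → E) (q : Md) :
    ‖res S f q‖ₑ ≤ ‖f q‖ₑ := by
  by_cases h : q ∈ S
  · rw [res_mem f h]
  · rw [res_not_mem f h, enorm_zero]
    exact bot_le

theorem s04 : S04 := by
  intro E _ _ m n hmn
  refine ⟨fun q hq => exists_unique_class hmn q hq, ?_, ?_, ?_⟩
  · intro f hf
    funext q
    rw [Finset.sum_apply]
    by_cases hq : q ∈ lev n
    · obtain ⟨o, ⟨ho, hqo⟩, hu⟩ := exists_unique_class hmn q hq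
      rw [Finset.sum_eq_single_of_mem o ho, res_mem f hqo]
      intro o' ho' hne
      exact res_not_mem f fun h => hne (hu o' ⟨ho', h⟩)
    · rw [hf q hq, Finset.sum_eq_zero]
      intro o ho
      rw [Finset.mem_Icc] at ho
      exact res_not_mem f fun h => hq (lev_mono ho.2 (cs_sub_lev ho.1 h))
  · intro T c γ ρ S f
    constructor
    · unfold Nrm
      refine ENNReal.tsum_le_tsum fun q => iSup₂_mono fun t ht => ?_
      gcongr
      exact res_enorm_le S (f t) q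
    · unfold Src
      refine ENNReal.tsum_le_tsum fun q => iSup₂_mono fun t ht => ?_
      refine lintegral_mono fun s => ?_
      dsimp only
      gcongr
      exact res_enorm_le S (f s) q
  · intro T c γ ρ f hf hT
    unfold Nrm
    rw [← (Summable.tsum_finsetSum fun o _ => ENNReal.summable)]
    refine tsum_congr fun q => ?_
    by_cases hq : q ∈ lev n
    · obtain ⟨o, ⟨ho, hqo⟩, hu⟩ := exists_unique_class hmn q hq
      rw [Finset.sum_eq_single_of_mem o ho]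
      · refine iSup_congr fun t => iSup_congr fun ht => ?_
        show _ = _ * ‖res (Cs m o) (f t) q‖ₑ
        rw [res_mem (f t) hqo]
      · intro o' ho' hne
        have h0 : ∀ t, res (Cs m o') (f t) q = 0 := fun t =>
          res_not_mem (f t) fun h => hne (hu o' ⟨ho', h⟩)
        simp [h0]
    · have h1 : ∀ t ∈ Icc 0 T, f t q = 0 := fun t ht => hf t ht q hq
      have h2 : ∀ o ∈ Finset.Icc m n, ∀ t, res (Cs m o) (f t) q = 0 := by
        intro o ho t
        rw [Finset.mem_Icc] at ho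
        exact res_not_mem (f t) fun h => hq (lev_mono ho.2 (cs_sub_lev ho.1 h))
      rw [Finset.sum_eq_zero]
      · refine le_antisymm (iSup₂_le fun t ht => ?_) bot_le
        rw [h1 t ht, enorm_zero, mul_zero]
      · intro o ho
        refine le_antisymm (iSup₂_le fun t ht => ?_) bot_le
        show _ * ‖res (Cs m o) (f t) q‖ₑ ≤ 0
        rw [h2 o ho t, enorm_zero, mul_zero]

end Pool.Agent.Work.MP_b0497c_an.Unf.S

end

section

set_option autoImplicit false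

/-!
# C02: the gentle lemma on `lev n`
-/

open scoped ENNReal
open Set MeasureTheory

namespace Pool.Agent.Work.MP_b0497c_an.Unf.S

open W

theorem c02 (h21 : W21) : C02 := by
  intro n a c B b hc hc1 hB hb ha hsupp hab hae
  have hcB : 0 < c / (2 * B) := by positivity
  have key : ∀ q, a q ≤ Real.exp 1 * b * Real.exp (-(c / (2 * B)) * len q) := by
    intro q
    have hl : 0 ≤ len q := len_nonneg q
    by_cases h : c * len q ≤ 2 * B
    · have h1 : c / (2 * B) * len q ≤ 1 := by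
        rw [div_mul_eq_mul_div, div_le_one (by linarith)]
        exact h
      have h2 : 1 ≤ Real.exp 1 * Real.exp (-(c / (2 * B)) * len q) := by
        rw [← Real.exp_add]
        apply Real.one_le_exp
        linarith
      calc a q ≤ b := hab q
        _ = 1 * b := (one_mul b).symm
        _ ≤ (Real.exp 1 * Real.exp (-(c / (2 * B)) * len q)) * b :=
          mul_le_mul_of_nonneg_right h2 hb.le
        _ = _ := by ring
    · push Not at h
      have h1 : c / (2 * B) * len q ≤ c * len q / 2 := by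
        rw [div_mul_eq_mul_div, div_le_div_iff₀ (by linarith) (by norm_num)]
        have : 0 ≤ c * len q := by positivity
        nlinarith
      have h2 : Real.exp (B - c * len q) ≤ Real.exp (-(c / (2 * B)) * len q) := by
        apply Real.exp_le_exp.2
        linarith
      have h3 : (1 : ℝ) ≤ Real.exp 1 := Real.one_le_exp (by norm_num)
      calc a q ≤ b * Real.exp (B - c * len q) := hae q
        _ ≤ b * Real.exp (-(c / (2 * B)) * len q) := mul_le_mul_of_nonneg_left h2 hb.le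
        _ = 1 * (b * Real.exp (-(c / (2 * B)) * len q)) := (one_mul _).symm
        _ ≤ Real.exp 1 * (b * Real.exp (-(c / (2 * B)) * len q)) :=
          mul_le_mul_of_nonneg_right h3 (by positivity)
        _ = _ := by ring
  refine ⟨key, ?_⟩
  have hx : 0 < c / (4 * B) := by positivity
  have hx1 : c / (4 * B) ≤ 1 := by
    rw [div_le_one (by linarith)]
    linarith
  have hterm : ∀ q : Md, ENNReal.ofReal (Real.exp (c / (4 * B) * len q) * a q) ≤
      ENNReal.ofReal (Real.exp 1 * b) * ((lev n : Set Md).indicator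
        (fun q => ENNReal.ofReal (Real.exp (-(c / (4 * B)) * len q))) q) := by
    intro q
    by_cases hq : q ∈ (lev n : Set Md)
    · rw [Set.indicator_of_mem hq, ← ENNReal.ofReal_mul (by positivity)]
      apply ENNReal.ofReal_le_ofReal
      calc Real.exp (c / (4 * B) * len q) * a q
          ≤ Real.exp (c / (4 * B) * len q) *
            (Real.exp 1 * b * Real.exp (-(c / (2 * B)) * len q)) :=
            mul_le_mul_of_nonneg_left (key q) (Real.exp_pos _).le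
        _ = Real.exp 1 * b * (Real.exp (c / (4 * B) * len q) *
            Real.exp (-(c / (2 * B)) * len q)) := by ring
        _ = Real.exp 1 * b * Real.exp (-(c / (4 * B)) * len q) := by
          rw [← Real.exp_add]
          congr 2
          field_simp
          ring
    · rw [hsupp q hq, mul_zero, ENNReal.ofReal_zero]
      exact bot_le
  have hsum : ∑' q : Md, ((lev n : Set Md).indicator
      (fun q => ENNReal.ofReal (Real.exp (-(c / (4 * B)) * len q))) q) =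
      eSL (lev n) (c / (4 * B)) := by
    rw [← tsum_subtype]
    rfl
  calc (∑' q, ENNReal.ofReal (Real.exp (c / (4 * B) * len q) * a q))
      ≤ ∑' q : Md, ENNReal.ofReal (Real.exp 1 * b) * ((lev n : Set Md).indicator
        (fun q => ENNReal.ofReal (Real.exp (-(c / (4 * B)) * len q))) q) :=
        ENNReal.tsum_le_tsum hterm
    _ = ENNReal.ofReal (Real.exp 1 * b) * eSL (lev n) (c / (4 * B)) := by
        rw [ENNReal.tsum_mul_left, hsum]
    _ ≤ ENNReal.ofReal (Real.exp 1 * b) * ENNReal.ofReal ((3 / (c / (4 * B))) ^ (n + 1)) :=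
        mul_le_mul_right ((h21.2 n (c / (4 * B)) hx).2 hx1) _
    _ ≤ ENNReal.ofReal (3 * b * (12 * B / c) ^ (n + 1)) := by
        rw [← ENNReal.ofReal_mul (by positivity)]
        apply ENNReal.ofReal_le_ofReal
        have h1 : (3 : ℝ) / (c / (4 * B)) = 12 * B / c := by
          field_simp
          ring
        rw [h1]
        have h2 : Real.exp 1 ≤ 3 := by
          have := Real.exp_one_lt_d9
          linarith
        have h3 : 0 ≤ (12 * B / c) ^ (n + 1) := by positivity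
        exact mul_le_mul_of_nonneg_right (mul_le_mul_of_nonneg_right h2 hb.le) h3

end Pool.Agent.Work.MP_b0497c_an.Unf.S

end

section

set_option autoImplicit false

/-!
# C03: the gentle lemma for time dependent functions
-/

open scoped ENNReal
open Set MeasureTheory

namespace Pool.Agent.Work.MP_b0497c_an.Unf.S

open W

theorem c03_term {E : Type} [NormedAddCommGroup E] (T c : ℝ) (α : ℝ → ℝ) (f : ℝ → Md → E) (q : Md) :
    (⨆ t ∈ Icc 0 T, ENNReal.ofReal (Real.exp ((c - 0 * t) * len q) / α t) * ‖f t q‖ₑ) =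
      ENNReal.ofReal (Real.exp (c * len q)) * ⨆ t ∈ Icc 0 T, ENNReal.ofReal (1 / α t) * ‖f t q‖ₑ := by
  rw [ENNReal.mul_iSup]
  congr 1
  funext t
  rw [ENNReal.mul_iSup]
  congr 1
  funext ht
  rw [← mul_assoc, ← ENNReal.ofReal_mul (Real.exp_pos _).le]
  congr 2
  rw [zero_mul, sub_zero, mul_one_div]

theorem c03 (h1 : C01) (h2 : C02) : C03 := by
  intro E _ _ _ n T c B b α f hc hc1 hB hb hT hα hsupp hev hN
  set A : Md → ℝ≥0∞ := fun q => ⨆ t ∈ Icc 0 T, ENNReal.ofReal (1 / α t) * ‖f t q‖ₑ with hA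
  have hsum : ∑' q, ENNReal.ofReal (Real.exp (c * len q)) * A q ≤
      ENNReal.ofReal (b * Real.exp B) := by
    refine le_trans (le_of_eq ?_) hN
    unfold Nrm
    refine tsum_congr (fun q => ?_)
    rw [c03_term]
  have hle : ∀ q, ENNReal.ofReal (Real.exp (c * len q)) * A q ≤ ENNReal.ofReal (b * Real.exp B) :=
    fun q => (ENNReal.le_tsum q).trans hsum
  have hone : ∀ q : Md, 1 ≤ ENNReal.ofReal (Real.exp (c * len q)) := by
    intro q
    rw [← ENNReal.ofReal_one]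
    exact ENNReal.ofReal_le_ofReal (Real.one_le_exp (mul_nonneg hc.le (len_nonneg q)))
  have hA1 : ∀ q, A q ≤ ENNReal.ofReal (Real.exp (c * len q)) * A q := by
    intro q
    calc A q = 1 * A q := (one_mul _).symm
      _ ≤ _ := mul_le_mul_left (hone q) _
  have hAfin : ∀ q, A q ≠ ∞ := fun q =>
    ne_top_of_le_ne_top ENNReal.ofReal_ne_top ((hA1 q).trans (hle q))
  have hAsum : ∑' q, A q ≠ ∞ := ne_top_of_le_ne_top ENNReal.ofReal_ne_top
    ((ENNReal.tsum_le_tsum hA1).trans hsum)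
  have hfle : ∀ t ∈ Icc 0 T, ∀ q, ‖f t q‖ₑ ≤ ENNReal.ofReal (α t) * A q := by
    intro t ht q
    have h3 : ENNReal.ofReal (1 / α t) * ‖f t q‖ₑ ≤ A q := by
      simp only [hA]
      exact le_iSup₂_of_le t ht le_rfl
    have h4 := mul_le_mul_right h3 (ENNReal.ofReal (α t))
    rw [← mul_assoc, ← ENNReal.ofReal_mul (hα t ht).le, mul_one_div_cancel (hα t ht).ne',
      ENNReal.ofReal_one, one_mul] at h4
    exact h4
  have hsm : ∀ t ∈ Icc 0 T, Summable fun q => ‖f t q‖ := by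
    intro t ht
    have h3 : ∑' q, ‖f t q‖ₑ ≠ ∞ := by
      refine ne_top_of_le_ne_top ?_ (ENNReal.tsum_le_tsum (hfle t ht))
      rw [ENNReal.tsum_mul_left]
      exact ENNReal.mul_ne_top ENNReal.ofReal_ne_top hAsum
    have h4 := ENNReal.summable_toReal h3
    refine h4.congr (fun q => ?_)
    simp
  set a : Md → ℝ := fun q => (A q).toReal with ha
  have hAa : ∀ q, A q = ENNReal.ofReal (a q) := fun q => (ENNReal.ofReal_toReal (hAfin q)).symm
  have hfb : ∀ t ∈ Icc 0 T, ∀ q, ‖f t q‖ ≤ b * α t := by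
    intro t ht q
    exact h1 E n (f t) (b * α t) (hsupp t ht) (hsm t ht) (hev t ht) q
  have hab : ∀ q, a q ≤ b := by
    intro q
    refine ENNReal.toReal_le_of_le_ofReal hb.le ?_
    simp only [hA]
    refine iSup₂_le (fun t ht => ?_)
    have h3 : ‖f t q‖ₑ ≤ ENNReal.ofReal (b * α t) := by
      rw [← ofReal_norm]
      exact ENNReal.ofReal_le_ofReal (hfb t ht q)
    refine (mul_le_mul_right h3 _).trans ?_
    rw [← ENNReal.ofReal_mul (one_div_pos.2 (hα t ht)).le]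
    refine ENNReal.ofReal_le_ofReal (le_of_eq ?_)
    have := (hα t ht).ne'
    field_simp
  have hac : ∀ q, a q ≤ b * Real.exp (B - c * len q) := by
    intro q
    have h3 := hle q
    rw [hAa q, ← ENNReal.ofReal_mul (Real.exp_pos _).le] at h3
    have h4 := (ENNReal.ofReal_le_ofReal_iff (mul_nonneg hb.le (Real.exp_pos _).le)).1 h3
    rw [Real.exp_sub]
    have h5 := Real.exp_pos (c * len q)
    rw [mul_div_assoc', le_div_iff₀ h5]
    linarith
  have h0 : ∀ q, 0 ≤ a q := fun q => ENNReal.toReal_nonneg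
  have hz : ∀ q, q ∉ lev n → a q = 0 := by
    intro q hq
    have : A q = 0 := by
      simp only [hA]
      refine le_antisymm (iSup₂_le (fun t ht => ?_)) bot_le
      rw [hsupp t ht q hq]
      simp
    simp only [ha]
    rw [this]
    simp
  have hfin := (h2 n a c B b hc hc1 hB hb h0 hz hab hac).2
  refine le_trans (le_of_eq ?_) hfin
  unfold Nrm
  refine tsum_congr (fun q => ?_)
  rw [c03_term, ENNReal.ofReal_mul (Real.exp_pos _).le, ← hAa q]

end Pool.Agent.Work.MP_b0497c_an.Unf.S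

end

section

set_option autoImplicit false

/-!
# C05: real bound of the propagator implies the weighted kernel bound
-/

open scoped ENNReal
open Set MeasureTheory

namespace Pool.Agent.Work.MP_b0497c_an.Unf.S

open W

theorem c05 (h01 : C01) (h02 : C02) : C05 := by
  intro n T c β Ec α Φ hT hT1 hc hc1 hβ hE hα hsupp hN hev
  have hαp : ∀ t ∈ Icc 0 T, 0 < α t := hα.pos
  -- the sequence
  set A : Md → ℝ≥0∞ := fun k => ⨆ t ∈ Icc 0 T, ⨆ s ∈ Icc 0 t,
    ENNReal.ofReal (α s / α t) * ‖Φ t s k‖ₑ with hA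
  have hpt : ∀ t ∈ Icc 0 T, ∀ s ∈ Icc 0 t, ∀ k,
      (α s / α t) * ‖Φ t s k‖ ≤ Ec ∧
      (α s / α t) * ‖Φ t s k‖ ≤ Ec * Real.exp ((β + 1) - c * len k) := by
    intro t ht s hs k
    have hsT : s ∈ Icc 0 T := ⟨hs.1, hs.2.trans ht.2⟩
    have hαs := hαp s hsT
    have hαt := hαp t ht
    have hNs := hN s hsT t ht
    have hfin : sN c (Φ t s) ≠ ∞ := (hNs.trans_lt ENNReal.ofReal_lt_top).ne
    have hterm : ∀ q, ENNReal.ofReal (Real.exp (c * len q)) * ‖Φ t s q‖ₑ ≤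
        ENNReal.ofReal (Real.exp (β * |t - s|)) := fun q => (ENNReal.le_tsum q).trans hNs
    have hreal : ∀ q, Real.exp (c * len q) * ‖Φ t s q‖ ≤ Real.exp (β * |t - s|) := by
      intro q
      have h1 := hterm q
      rw [← ofReal_norm, ← ENNReal.ofReal_mul (Real.exp_nonneg _)] at h1
      exact (ENNReal.ofReal_le_ofReal_iff (Real.exp_nonneg _)).mp h1
    have hsum : Summable fun q => ‖Φ t s q‖ := by
      have h1 : ∑' q, ‖Φ t s q‖ₑ ≠ ∞ := by
        refine ((ENNReal.tsum_le_tsum fun q => ?_).trans_lt hfin.lt_top).ne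
        calc ‖Φ t s q‖ₑ = 1 * ‖Φ t s q‖ₑ := (one_mul _).symm
          _ ≤ ENNReal.ofReal (Real.exp (c * len q)) * ‖Φ t s q‖ₑ := by
            gcongr
            rw [← ENNReal.ofReal_one]
            exact ENNReal.ofReal_le_ofReal (Real.one_le_exp (mul_nonneg hc.le (len_nonneg q)))
      have h2 := ENNReal.summable_toReal h1
      simpa only [toReal_enorm] using h2
    have h1 := h01 Mat n (Φ t s) (Ec * (α t / α s)) (hsupp s hsT t ht) hsum
      (fun θ => hev s hsT t ⟨hs.2, ht.2⟩ θ) k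
    constructor
    · calc (α s / α t) * ‖Φ t s k‖ ≤ (α s / α t) * (Ec * (α t / α s)) :=
            mul_le_mul_of_nonneg_left h1 (div_nonneg hαs.le hαt.le)
        _ = Ec := by field_simp
    · have h2 := hreal k
      have hts : |t - s| ≤ 1 := by
        rw [abs_of_nonneg (sub_nonneg.mpr hs.2)]
        linarith [hs.1, ht.2]
      have h3 : ‖Φ t s k‖ ≤ Real.exp (β - c * len k) := by
        have h4 : Real.exp (β * |t - s|) ≤ Real.exp β := by
          apply Real.exp_le_exp.mpr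
          nlinarith
        have h5 := h2.trans h4
        rw [Real.exp_sub, le_div_iff₀ (Real.exp_pos _), mul_comm]
        exact h5
      have h6 : α s / α t ≤ 1 := (div_le_one hαt).mpr (hα.mono hsT ht hs.2)
      calc (α s / α t) * ‖Φ t s k‖ ≤ 1 * Real.exp (β - c * len k) :=
            mul_le_mul h6 h3 (norm_nonneg _) zero_le_one
        _ ≤ Ec * Real.exp ((β + 1) - c * len k) := by
            apply mul_le_mul hE _ (Real.exp_nonneg _) (by linarith)
            apply Real.exp_le_exp.mpr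
            linarith
  have hAle : ∀ k, ∀ b : ℝ, 0 ≤ b → (∀ t ∈ Icc 0 T, ∀ s ∈ Icc 0 t,
      (α s / α t) * ‖Φ t s k‖ ≤ b) → A k ≤ ENNReal.ofReal b := by
    intro k b _ hb
    refine iSup₂_le fun t ht => iSup₂_le fun s hs => ?_
    have hsT : s ∈ Icc 0 T := ⟨hs.1, hs.2.trans ht.2⟩
    rw [← ofReal_norm, ← ENNReal.ofReal_mul (div_nonneg (hαp s hsT).le (hαp t ht).le)]
    exact ENNReal.ofReal_le_ofReal (hb t ht s hs)
  have hE0 : 0 < Ec := by linarith
  have hA1 : ∀ k, A k ≤ ENNReal.ofReal Ec := fun k =>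
    hAle k Ec hE0.le fun t ht s hs => (hpt t ht s hs k).1
  have hA2 : ∀ k, A k ≤ ENNReal.ofReal (Ec * Real.exp ((β + 1) - c * len k)) := fun k =>
    hAle k _ (by positivity) fun t ht s hs => (hpt t ht s hs k).2
  have hAfin : ∀ k, A k ≠ ∞ := fun k => ((hA1 k).trans_lt ENNReal.ofReal_lt_top).ne
  have hA0 : ∀ k, k ∉ lev n → A k = 0 := by
    intro k hk
    have h1 := hAle k 0 le_rfl (fun t ht s hs => by
      rw [hsupp s ⟨hs.1, hs.2.trans ht.2⟩ t ht k hk, norm_zero, mul_zero])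
    rw [ENNReal.ofReal_zero] at h1
    exact le_antisymm h1 bot_le
  have hmain := (h02 n (fun k => (A k).toReal) c (β + 1) Ec hc hc1 (by linarith) hE0
    (fun k => ENNReal.toReal_nonneg)
    (fun k hk => by simp only [hA0 k hk, ENNReal.toReal_zero])
    (fun k => by
      have := ENNReal.toReal_mono ENNReal.ofReal_ne_top (hA1 k)
      rwa [ENNReal.toReal_ofReal hE0.le] at this)
    (fun k => by
      have := ENNReal.toReal_mono ENNReal.ofReal_ne_top (hA2 k)
      rwa [ENNReal.toReal_ofReal (by positivity)] at this)).2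
  refine le_trans ?_ hmain
  refine ENNReal.tsum_le_tsum fun k => ?_
  rw [ENNReal.ofReal_mul (Real.exp_nonneg _), ENNReal.ofReal_toReal (hAfin k)]
  refine mul_le_mul_right (iSup_le fun l => ?_) _
  simp only [mulK, add_sub_cancel_left]
  exact le_rfl

end Pool.Agent.Work.MP_b0497c_an.Unf.S

end

section

set_option autoImplicit false

/-!
# C07: weighted Lipschitz bound of the projector (helper69)
-/

open scoped ENNReal
open Set MeasureTheory

namespace Pool.Agent.Work.MP_b0497c_an.Unf.S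

open W

namespace IC07

open W.P17

section gen

variable {Γ : Type} [AddCommGroup Γ] [Len Γ]

omit [Len Γ] in
theorem smul_kcomp (z : ℂ) (A B : Ker Γ) : kcomp (z • A) B = z • kcomp A B := by
  funext m l
  show ∑' j, (z • A m j).comp (B j l) = z • ∑' j, (A m j).comp (B j l)
  rw [← tsum_const_smul'']
  refine tsum_congr fun j => ?_
  rw [ContinuousLinearMap.smul_comp]

omit [Len Γ] in
theorem kcomp_smul (z : ℂ) (A B : Ker Γ) : kcomp A (z • B) = z • kcomp A B := by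
  funext m l
  show ∑' j, (A m j).comp (z • B j l) = z • ∑' j, (A m j).comp (B j l)
  rw [← tsum_const_smul'']
  refine tsum_congr fun j => ?_
  rw [ContinuousLinearMap.comp_smul]

theorem static (h10 : W10) (h11 : W11) (h16 : W16) (Λ : AddSubgroup Γ) (c b e : ℝ)
    (F Fi F1 Fi1 : Γ → Mat) (ξ : Γ → C3) (hF : FData Λ c b e F Fi)
    (hF1 : FData Λ c b e F1 Fi1) (z : ℂ) :
    z • (PiK ξ Fi - PiK ξ Fi1) =
      kcomp (z • mulK (adjC (Fi - Fi1))) (kcomp (RK ξ Fi) (mulK Fi)) +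
      kcomp (mulK (adjC Fi1)) (kcomp (kcomp (kcomp (RK ξ Fi) (kcomp (PK ξ)
        (kcomp (z • mulK (Fi1 - Fi)) (kcomp (mulK (adjC Fi1)) (PK ξ)) +
          kcomp (mulK Fi) (kcomp (z • mulK (adjC (Fi1 - Fi))) (PK ξ))))) (RK ξ Fi1)) (mulK Fi)) +
      kcomp (mulK (adjC Fi1)) (kcomp (RK ξ Fi1) (z • mulK (Fi - Fi1))) := by
  have hb := hF.b_one
  have he := hF.e_one
  have hc := hF.c_pos
  set κ := c / (2 * b ^ 2 * e ^ 2) / 2 with hκ
  have hκ0 : 0 < κ := by positivity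
  have hκc : κ ≤ c := by
    rw [hκ, div_div]
    apply div_le_self hc.le
    have h1 : 1 ≤ b ^ 2 := one_le_pow₀ hb
    have h2 : 1 ≤ e ^ 2 := one_le_pow₀ he
    nlinarith
  have hSt : eSL Λ κ ≠ ∞ := hF.sum κ hκ0
  have hsNm : ∀ f : Γ → Mat, sN κ f ≤ sN c f := fun f =>
    ((h10 Γ Mat C3 C3 c hc.le).2.2.2.2.2.2.1 κ hκc).2 f
  have hmulK : ∀ a : Γ → Mat, sK κ (mulK a) = sN κ a := fun a =>
    (h10 Γ C3 C3 C3 κ hκ0.le).2.2.2.1 a
  obtain ⟨⟨p1, p2, p3, p4⟩, p5, p6, -⟩ := h16 Γ Λ c b e F Fi ξ hF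
  obtain ⟨⟨q1, q2, q3, q4⟩, q5, q6, -⟩ := h16 Γ Λ c b e F1 Fi1 ξ hF1
  have hκ2 : c / (2 * b ^ 2 * e ^ 2) = 2 * κ := by rw [hκ]; ring
  rw [hκ2] at p5 q5
  have nM0 : sK κ (mulK Fi) ≤ ENNReal.ofReal e := by
    rw [hmulK]; exact (hsNm _).trans hF.Fi_le
  have nM1 : sK κ (mulK Fi1) ≤ ENNReal.ofReal e := by
    rw [hmulK]; exact (hsNm _).trans hF1.Fi_le
  have nN0 : sK κ (mulK (adjC Fi)) ≤ ENNReal.ofReal e := by
    rw [hmulK, sN_adjC]; exact (hsNm _).trans hF.Fi_le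
  have nN1 : sK κ (mulK (adjC Fi1)) ≤ ENNReal.ofReal e := by
    rw [hmulK, sN_adjC]; exact (hsNm _).trans hF1.Fi_le
  have nP : sK κ (PK ξ) ≤ 1 := (h10 Γ C3 C3 C3 κ hκ0.le).2.2.2.2.1 _ 1 fun m => norm_pr_le _
  have nR0 : sK κ (RK ξ Fi) ≤ ENNReal.ofReal (2 * b ^ 2) * eSL Λ κ :=
    sK_le_of_entries (by positivity) p5 fun m l h => (p6 m l h).1
  have nR1 : sK κ (RK ξ Fi1) ≤ ENNReal.ofReal (2 * b ^ 2) * eSL Λ κ :=
    sK_le_of_entries (by positivity) q5 fun m l h => (q6 m l h).1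
  have fin : ∀ {A : Ker Γ} {x : ℝ≥0∞}, sK κ A ≤ x → x ≠ ∞ → sK 0 A ≠ ∞ := fun h hx =>
    fin_of h10 hκ0.le (h.trans_lt (lt_top_iff_ne_top.2 hx)).ne
  have fM0 := fin nM0 ENNReal.ofReal_ne_top
  have fM1 := fin nM1 ENNReal.ofReal_ne_top
  have fN0 := fin nN0 ENNReal.ofReal_ne_top
  have fN1 := fin nN1 ENNReal.ofReal_ne_top
  have fP := fin nP ENNReal.one_ne_top
  have fR0 := fin nR0 (ENNReal.mul_ne_top ENNReal.ofReal_ne_top hSt)
  have fR1 := fin nR1 (ENNReal.mul_ne_top ENNReal.ofReal_ne_top hSt)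
  have cl : ∀ {A C : Ker Γ}, sK 0 A ≠ ∞ → sK 0 C ≠ ∞ → sK 0 (kcomp A C) ≠ ∞ :=
    fun hA hC => fin_mul h10 hA hC
  have fA0 : sK 0 (AK ξ Fi) ≠ ∞ := cl fP (cl fM0 (cl fN0 fP))
  have fA1 : sK 0 (AK ξ Fi1) ≠ ∞ := cl fP (cl fM1 (cl fN1 fP))
  have dA : AK ξ Fi1 - AK ξ Fi =
      kcomp (PK ξ) (kcomp (mulK Fi1 - mulK Fi) (kcomp (mulK (adjC Fi1)) (PK ξ)) +
        kcomp (mulK Fi) (kcomp (mulK (adjC Fi1) - mulK (adjC Fi)) (PK ξ))) := by
    have e1 : kcomp (mulK Fi1 - mulK Fi) (kcomp (mulK (adjC Fi1)) (PK ξ)) =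
        kcomp (mulK Fi1) (kcomp (mulK (adjC Fi1)) (PK ξ)) -
          kcomp (mulK Fi) (kcomp (mulK (adjC Fi1)) (PK ξ)) :=
      sub_mul' h10 h11 fM1 fM0 (cl fN1 fP)
    have e2 : kcomp (mulK (adjC Fi1) - mulK (adjC Fi)) (PK ξ) =
        kcomp (mulK (adjC Fi1)) (PK ξ) - kcomp (mulK (adjC Fi)) (PK ξ) :=
      sub_mul' h10 h11 fN1 fN0 fP
    have e3 : kcomp (mulK Fi) (kcomp (mulK (adjC Fi1)) (PK ξ) - kcomp (mulK (adjC Fi)) (PK ξ)) =
        kcomp (mulK Fi) (kcomp (mulK (adjC Fi1)) (PK ξ)) -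
          kcomp (mulK Fi) (kcomp (mulK (adjC Fi)) (PK ξ)) :=
      mul_sub' h10 h11 fM0 (cl fN1 fP) (cl fN0 fP)
    rw [e1, e2, e3, sub_add_sub_cancel,
      mul_sub' h10 h11 fP (cl fM1 (cl fN1 fP)) (cl fM0 (cl fN0 fP))]
    rfl
  have dR : RK ξ Fi - RK ξ Fi1 = kcomp (kcomp (RK ξ Fi) (AK ξ Fi1 - AK ξ Fi)) (RK ξ Fi1) := by
    have e1 : kcomp (kcomp (RK ξ Fi) (AK ξ Fi1)) (RK ξ Fi1) = RK ξ Fi := by
      rw [assoc h11 fR0 fA1 fR1, q3, p2]
    have e2 : kcomp (kcomp (RK ξ Fi) (AK ξ Fi)) (RK ξ Fi1) = RK ξ Fi1 := by rw [p4, q1]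
    rw [mul_sub' h10 h11 fR0 fA1 fA0, sub_mul' h10 h11 (cl fR0 fA1) (cl fR0 fA0) fR1, e1, e2]
  have dPi : PiK ξ Fi - PiK ξ Fi1 =
      kcomp (mulK (adjC Fi) - mulK (adjC Fi1)) (kcomp (RK ξ Fi) (mulK Fi)) +
      kcomp (mulK (adjC Fi1)) (kcomp (RK ξ Fi - RK ξ Fi1) (mulK Fi)) +
      kcomp (mulK (adjC Fi1)) (kcomp (RK ξ Fi1) (mulK Fi - mulK Fi1)) := by
    rw [sub_mul' h10 h11 fN0 fN1 (cl fR0 fM0), sub_mul' h10 h11 fR0 fR1 fM0,
      mul_sub' h10 h11 fN1 (cl fR0 fM0) (cl fR1 fM0), mul_sub' h10 h11 fR1 fM0 fM1,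
      mul_sub' h10 h11 fN1 (cl fR1 fM0) (cl fR1 fM1), sub_add_sub_cancel, sub_add_sub_cancel]
    rfl
  rw [dPi, dR, dA]
  simp only [smul_kcomp, kcomp_smul, mulK_sub, adjC_sub, ← smul_add]

/-! ### time dependent norms -/

theorem KN_congr (T c : ℝ) {A B : ℝ → Ker Γ} (h : ∀ t ∈ Icc 0 T, A t = B t) :
    KN T c A = KN T c B := by
  unfold KN
  refine tsum_congr fun k => ?_
  congr 1
  refine iSup_congr fun l => iSup_congr fun t => iSup_congr fun ht => ?_
  rw [h t ht]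

theorem Nrm_weight (T c : ℝ) (α : ℝ → ℝ) (hα : ∀ t ∈ Icc 0 T, 0 < α t) (a : ℝ → Γ → Mat) :
    Nrm T c 0 (fun _ => 1) (fun t => ((α t : ℂ))⁻¹ • a t) = Nrm T c 0 α a := by
  unfold Nrm
  refine tsum_congr fun m => iSup_congr fun t => iSup_congr fun ht => ?_
  have h0 := hα t ht
  show ENNReal.ofReal (Real.exp ((c - 0 * t) * len m) / 1) * ‖((α t : ℂ))⁻¹ • a t m‖ₑ =
    ENNReal.ofReal (Real.exp ((c - 0 * t) * len m) / α t) * ‖a t m‖ₑ
  rw [enorm_smul, ← mul_assoc]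
  congr 1
  have h1 : ‖((α t : ℂ))⁻¹‖ₑ = ENNReal.ofReal (α t)⁻¹ := by
    rw [← ofReal_norm, norm_inv, Complex.norm_real, Real.norm_of_nonneg h0.le]
  rw [h1, ← ENNReal.ofReal_mul (by positivity), div_one, div_eq_mul_inv]

theorem Nrm_adj (T c : ℝ) (α : ℝ → ℝ) (a : ℝ → Γ → Mat) :
    Nrm T c 0 α (fun t => adjC (a t)) = Nrm T c 0 α a := by
  unfold Nrm
  rw [← (Equiv.neg Γ).tsum_eq]
  refine tsum_congr fun m => ?_
  simp only [Equiv.neg_apply, adjC, neg_neg, len_neg]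
  refine iSup_congr fun t => iSup_congr fun _ => ?_
  congr 1
  exact enorm_adj _

theorem Nrm_sub_comm (T c : ℝ) (α : ℝ → ℝ) (a a' : ℝ → Γ → Mat) :
    Nrm T c 0 α (fun t => a t - a' t) = Nrm T c 0 α (fun t => a' t - a t) := by
  unfold Nrm
  refine tsum_congr fun m => iSup_congr fun t => iSup_congr fun _ => ?_
  show _ * ‖a t m - a' t m‖ₑ = _ * ‖a' t m - a t m‖ₑ
  rw [enorm_sub_rev]

theorem KN_le_of_entries {Λ : AddSubgroup Γ} {T κ B : ℝ} (hB : 0 ≤ B) {R : ℝ → Ker Γ}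
    (h : ∀ t ∈ Icc 0 T, ∀ m l, ‖R t m l‖ ≤ B * Real.exp (-(2 * κ) * len (m - l)))
    (h0 : ∀ t ∈ Icc 0 T, ∀ m l, m - l ∉ Λ → R t m l = 0) :
    KN T κ R ≤ ENNReal.ofReal B * eSL Λ κ := by
  have h1 : eSL Λ κ = ∑' k : Γ, (Λ : Set Γ).indicator
      (fun k => ENNReal.ofReal (Real.exp (-κ * len k))) k := by
    rw [← tsum_subtype]; rfl
  rw [h1, ← ENNReal.tsum_mul_left, KN]
  refine ENNReal.tsum_le_tsum fun k => ?_
  by_cases hk : k ∈ Λ
  · rw [Set.indicator_of_mem (show k ∈ (Λ : Set Γ) from hk)]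
    have h2 : (⨆ l, ⨆ t ∈ Icc 0 T, ‖R t (l + k) l‖ₑ) ≤
        ENNReal.ofReal (B * Real.exp (-(2 * κ) * len k)) := by
      refine iSup_le fun l => iSup₂_le fun t ht => ?_
      rw [← ofReal_norm]
      apply ENNReal.ofReal_le_ofReal
      have := h t ht (l + k) l
      rwa [add_sub_cancel_left] at this
    refine (mul_le_mul_right h2 _).trans ?_
    rw [← ENNReal.ofReal_mul (Real.exp_pos _).le, ← ENNReal.ofReal_mul hB]
    apply ENNReal.ofReal_le_ofReal
    rw [mul_left_comm, ← Real.exp_add]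
    apply le_of_eq
    congr 2
    ring
  · rw [Set.indicator_of_notMem (show k ∉ (Λ : Set Γ) from hk)]
    have h2 : (⨆ l, ⨆ t ∈ Icc 0 T, ‖R t (l + k) l‖ₑ) = 0 := by
      rw [ENNReal.iSup_eq_zero]
      intro l
      rw [ENNReal.iSup_eq_zero]
      intro t
      rw [ENNReal.iSup_eq_zero]
      intro ht
      rw [h0 t ht (l + k) l (by rwa [add_sub_cancel_left]), ← ofReal_norm, norm_zero,
        ENNReal.ofReal_zero]
    rw [h2, mul_zero, mul_zero]

end gen

end IC07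

open IC07 W.P17 in
theorem c07 (h09 : W09) (h10 : W10) (h11 : W11) (h16 : W16) : C07 := by
  intro Λ T c b e F Fi F1 Fi1 ξ α hT hα hF hF1 hN hN1
  have hD := hF 0 ⟨le_rfl, hT⟩
  have hb := hD.b_one
  have he := hD.e_one
  have hc := hD.c_pos
  set κ := c / (2 * b ^ 2 * e ^ 2) / 2 with hκ
  have hκ0 : 0 < κ := by positivity
  have hκc : κ ≤ c := by
    rw [hκ, div_div]
    apply div_le_self hc.le
    have h1 : 1 ≤ b ^ 2 := one_le_pow₀ hb
    have h2 : 1 ≤ e ^ 2 := one_le_pow₀ he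
    nlinarith
  have hκ2 : c / (2 * b ^ 2 * e ^ 2) = 2 * κ := by rw [hκ]; ring
  obtain ⟨k1, k2, -, -, k5, -, -⟩ := h09 Md C3 C3 C3 T κ hκ0.le
  obtain ⟨-, -, -, k4, -, k6, -⟩ := h09 Md C3 C3 C3 T c hc.le
  set S := eSL Λ κ with hS
  have hS1 : 1 ≤ S := one_le_eSL Λ κ
  set B := ENNReal.ofReal b with hB
  set E := ENNReal.ofReal e with hE
  have hB1 : 1 ≤ B := by rw [hB, ← ENNReal.ofReal_one]; exact ENNReal.ofReal_le_ofReal hb
  have hE1 : 1 ≤ E := by rw [hE, ← ENNReal.ofReal_one]; exact ENNReal.ofReal_le_ofReal he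
  have hBB : ENNReal.ofReal (2 * b ^ 2) = 2 * B ^ 2 := by
    rw [ENNReal.ofReal_mul (by norm_num), ENNReal.ofReal_pow (by linarith), ENNReal.ofReal_ofNat]
  set d := Nrm T c 0 α (fun t => Fi t - Fi1 t) with hd
  -- norms of the factors
  have mN : ∀ a : ℝ → Md → Mat, KN T κ (fun t => mulK (a t)) ≤ Nrm T c 0 (fun _ => 1) a :=
    fun a => (k6 κ hκc _).trans (le_of_eq (k4 a))
  have nM0 : KN T κ (fun t => mulK (Fi t)) ≤ E := (mN _).trans hN
  have nN1 : KN T κ (fun t => mulK (adjC (Fi1 t))) ≤ E := by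
    refine (mN (fun t => adjC (Fi1 t))).trans ?_
    rw [Nrm_adj]
    exact hN1
  have nP : KN T κ (fun _ => PK ξ) ≤ 1 := k5 (fun _ m => pr (ξ m)) 1 fun t _ m => norm_pr_le _
  have nR0 : KN T κ (fun t => RK ξ (Fi t)) ≤ 2 * B ^ 2 * S := by
    rw [← hBB]
    refine KN_le_of_entries (by positivity) ?_ ?_
    · intro t ht m l
      have := (h16 Md Λ c b e (F t) (Fi t) ξ (hF t ht)).2.1 m l
      rwa [hκ2] at this
    · intro t ht m l h
      exact ((h16 Md Λ c b e (F t) (Fi t) ξ (hF t ht)).2.2.1 m l h).1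
  have nR1 : KN T κ (fun t => RK ξ (Fi1 t)) ≤ 2 * B ^ 2 * S := by
    rw [← hBB]
    refine KN_le_of_entries (by positivity) ?_ ?_
    · intro t ht m l
      have := (h16 Md Λ c b e (F1 t) (Fi1 t) ξ (hF1 t ht)).2.1 m l
      rwa [hκ2] at this
    · intro t ht m l h
      exact ((h16 Md Λ c b e (F1 t) (Fi1 t) ξ (hF1 t ht)).2.2.1 m l h).1
  have nw : ∀ a : ℝ → Md → Mat, KN T κ (fun t => ((α t : ℂ))⁻¹ • mulK (a t)) ≤
      Nrm T c 0 α a := by
    intro a
    rw [← Nrm_weight T c α hα a]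
    exact mN (fun t => ((α t : ℂ))⁻¹ • a t)
  have nM : KN T κ (fun t => ((α t : ℂ))⁻¹ • mulK (Fi t - Fi1 t)) ≤ d := nw _
  have nM' : KN T κ (fun t => ((α t : ℂ))⁻¹ • mulK (Fi1 t - Fi t)) ≤ d := by
    rw [hd, Nrm_sub_comm]
    exact nw _
  have nA : KN T κ (fun t => ((α t : ℂ))⁻¹ • mulK (adjC (Fi t - Fi1 t))) ≤ d := by
    rw [hd, ← Nrm_adj]
    exact nw _
  have nA' : KN T κ (fun t => ((α t : ℂ))⁻¹ • mulK (adjC (Fi1 t - Fi t))) ≤ d := by
    rw [hd, Nrm_sub_comm, ← Nrm_adj]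
    exact nw _
  have mk : ∀ {A C : ℝ → Ker Md} {x y : ℝ≥0∞}, KN T κ A ≤ x → KN T κ C ≤ y →
      KN T κ (fun t => kcomp (A t) (C t)) ≤ x * y :=
    fun hA hC => (k1 _ _).trans (mul_le_mul' hA hC)
  have ad : ∀ {A C : ℝ → Ker Md} {x y : ℝ≥0∞}, KN T κ A ≤ x → KN T κ C ≤ y →
      KN T κ (fun t => A t + C t) ≤ x + y :=
    fun hA hC => (k2 _ _).trans (add_le_add hA hC)
  rw [KN_congr T κ (fun t ht => static h10 h11 h16 Λ c b e (F t) (Fi t) (F1 t) (Fi1 t) ξ
    (hF t ht) (hF1 t ht) ((α t : ℂ))⁻¹)]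
  have step := ad (ad (mk nA (mk nR0 nM0)) (mk nN1 (mk (mk (mk nR0 (mk nP
    (ad (mk nM' (mk nN1 nP)) (mk nM0 (mk nA' nP))))) nR1) nM0))) (mk nN1 (mk nR1 nM))
  refine step.trans ?_
  have hcoef : ENNReal.ofReal (12 * b ^ 4 * e ^ 3) = 12 * B ^ 4 * E ^ 3 := by
    rw [ENNReal.ofReal_mul (by positivity), ENNReal.ofReal_mul (by norm_num),
      ENNReal.ofReal_pow (by linarith), ENNReal.ofReal_pow (by linarith), ENNReal.ofReal_ofNat]
  rw [hcoef]
  have hmono : B ^ 2 * E * S ≤ B ^ 4 * E ^ 3 * S ^ 2 := by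
    refine mul_le_mul' (mul_le_mul' (pow_le_pow_right' hB1 (by norm_num)) ?_) ?_
    · calc E = E ^ 1 := (pow_one E).symm
        _ ≤ E ^ 3 := pow_le_pow_right' hE1 (by norm_num)
    · calc S = S ^ 1 := (pow_one S).symm
        _ ≤ S ^ 2 := pow_le_pow_right' hS1 (by norm_num)
  calc d * (2 * B ^ 2 * S * E) + E * (2 * B ^ 2 * S * (1 * (d * (E * 1) + E * (d * 1))) *
        (2 * B ^ 2 * S) * E) + E * (2 * B ^ 2 * S * d)
      = 4 * (B ^ 2 * E * S) * d + 8 * (B ^ 4 * E ^ 3 * S ^ 2) * d := by ring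
    _ ≤ 4 * (B ^ 4 * E ^ 3 * S ^ 2) * d + 8 * (B ^ 4 * E ^ 3 * S ^ 2) * d :=
        add_le_add (mul_le_mul' (mul_le_mul' le_rfl hmono) le_rfl) le_rfl
    _ = 12 * B ^ 4 * E ^ 3 * S ^ 2 * d := by ring

end Pool.Agent.Work.MP_b0497c_an.Unf.S

end

section

set_option autoImplicit false

/-!
# Block D: pointwise meaning of the coefficient operations
-/

open scoped ENNReal
open Set MeasureTheory Filter Topology RealInnerProductSpace

namespace Pool.Agent.Work.MP_b0497c_an.Unf.S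

open W

section gen

variable {Γ : Type} [AddCommGroup Γ]
  {E F G : Type} [NormedAddCommGroup E] [NormedSpace ℂ E] [NormedAddCommGroup F] [NormedSpace ℂ F]
  [NormedAddCommGroup G] [NormedSpace ℂ G]

/-- Summability of the modes from a finite norm. -/
theorem bound_of_Nrm [Len Γ] {T c : ℝ} {f : ℝ → Γ → E}
    (h : Nrm T c 0 (fun _ => 1) f ≠ ∞) :
    ∃ u : Γ → ℝ, Summable u ∧ (∀ q, 0 ≤ u q) ∧ (∑' q, u q ≤ (Nrm T c 0 (fun _ => 1) f).toReal) ∧
      ∀ t ∈ Icc 0 T, ∀ q, Real.exp (c * len q) * ‖f t q‖ ≤ u q := by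
  set g : Γ → ℝ≥0∞ := fun m => ⨆ t ∈ Icc 0 T,
    ENNReal.ofReal (Real.exp ((c - 0 * t) * len m) / 1) * ‖f t m‖ₑ with hg
  have h1 : (∑' m, g m) ≠ ∞ := h
  have h2 : ∀ m, g m ≠ ∞ := ENNReal.ne_top_of_tsum_ne_top h1
  refine ⟨fun m => (g m).toReal, ENNReal.summable_toReal h1, fun q => ENNReal.toReal_nonneg,
    ?_, ?_⟩
  · rw [← ENNReal.tsum_toReal_eq h2]
    exact le_rfl
  · intro t ht q
    have h3 : ENNReal.ofReal (Real.exp ((c - 0 * t) * len q) / 1) * ‖f t q‖ₑ ≤ g q :=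
      le_iSup₂_of_le t ht le_rfl
    have h4 := ENNReal.toReal_mono (h2 q) h3
    rw [ENNReal.toReal_mul, ENNReal.toReal_ofReal (by positivity), toReal_enorm] at h4
    simpa using h4

theorem ev_apply [CompleteSpace E] [CompleteSpace F] (θ : Γ →+ ℝ) {a : Γ → (E →L[ℂ] F)}
    (ha : Summable fun q => ‖a q‖) (v : E) : ev θ (fun q => a q v) = ev θ a v := by
  have h := ev_map θ ha (ContinuousLinearMap.apply ℂ F v)
  simpa using h

theorem conv_id (a : Γ → (E →L[ℂ] F)) (f : Γ → E) :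
    conv (ContinuousLinearMap.id ℂ (E →L[ℂ] F)) a f = act (mulK a) f := rfl

end gen

section md

variable {E F G : Type} [NormedAddCommGroup E] [NormedSpace ℂ E] [NormedAddCommGroup F]
  [NormedSpace ℂ F] [NormedAddCommGroup G] [NormedSpace ℂ G]

theorem ev_mul [CompleteSpace E] [CompleteSpace F] (θ : Md →+ ℝ)
    {a : Md → (E →L[ℂ] F)} {f : Md → E} (ha : Summable fun q => ‖a q‖)
    (hf : Summable fun q => ‖f q‖) : ev θ (mul a f) = ev θ a (ev θ f) := by
  have h := ev_conv θ (ContinuousLinearMap.id ℂ (E →L[ℂ] F)) ha hf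
  exact h

theorem ev_mm [CompleteSpace E] [CompleteSpace F] [CompleteSpace G] (θ : Md →+ ℝ)
    {a : Md → (F →L[ℂ] G)} {b : Md → (E →L[ℂ] F)} (ha : Summable fun q => ‖a q‖)
    (hb : Summable fun q => ‖b q‖) : ev θ (mm a b) = (ev θ a).comp (ev θ b) := by
  have h := ev_conv θ (ContinuousLinearMap.compL ℂ E F G) ha hb
  exact h

theorem ev_oneM (θ : Md →+ ℝ) : ev θ oneM = ContinuousLinearMap.id ℂ C3 := by
  rw [ev, tsum_eq_single 0]
  · simp [oneM, ch_zero]
  · intro q hq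
    simp [oneM, hq]

theorem ev_adjC (θ : Md →+ ℝ) {a : Md → Mat} (ha : Summable fun q => ‖a q‖) :
    ev θ (adjC a) = ContinuousLinearMap.adjoint (ev θ a) := by
  have h1 := summable_ch θ ha
  have h2 : ContinuousLinearMap.adjoint (ev θ a)
      = ∑' q, ContinuousLinearMap.adjoint (ch θ q • a q) :=
    (ContinuousLinearMap.adjoint (𝕜 := ℂ) (E := C3) (F := C3)).toContinuousLinearEquiv.map_tsum
  rw [h2, ev, ← (Equiv.neg Md).tsum_eq]
  congr 1
  funext q
  simp only [adjC, Equiv.neg_apply, neg_neg, map_smulₛₗ, ch_neg]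

/-- The integer wave vector. -/
theorem xi_eq (K : ℕ → Fin 3 → ℤ) (q : Md) : xi K q = kv (xiZ K q) := by
  ext j
  simp only [xi, xiZ, kv, Finsupp.liftAddHom_apply, Finsupp.sum]
  simp only [WithLp.ofLp_sum, Finset.sum_apply]
  simp

theorem inner_xi (K : ℕ → Fin 3 → ℤ) (q : Md) (z : E3) :
    inner ℂ (xi K q) (ofC z) = ((phL (xiZ K) q z : ℝ) : ℂ) := by
  rw [xi_eq, phL_apply, PiLp.inner_apply, Fin.sum_univ_three]
  simp only [ofC_apply, kv, ph]
  simp
  ring

theorem gradV_apply (K : ℕ → Fin 3 → ℤ) (x : Md → C3) (q : Md) (z : E3) :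
    gradV K x q (ofC z) = gr (xiZ K) x q z := by
  simp only [gradV, gr, smul_apply, ContinuousLinearMap.smulRight_apply, innerSL_apply_apply,
    inner_xi]
  rw [smul_comm]
  rfl

/-- Coordinates of an evaluation. -/
theorem ev_coord (θ : Md →+ ℝ) {f : Md → C3} (hf : Summable fun q => ‖f q‖) (j : Fin 3) :
    (ev θ f) j = ∑' q, ch θ q * f q j := by
  have h := ev_map θ hf (EuclideanSpace.proj j : C3 →L[ℂ] ℂ)
  have h1 : (ev θ f) j = ev θ (fun q => (EuclideanSpace.proj j : C3 →L[ℂ] ℂ) (f q)) := by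
    rw [h]; rfl
  rw [h1]
  rfl

/-- Real coefficient families have real values. -/
theorem ev_real (θ : Md →+ ℝ) {f : Md → C3} (hf : Summable fun q => ‖f q‖)
    (hr : ∀ q, f (-q) = cjv (f q)) : ofC (reC (ev θ f)) = ev θ f := by
  ext j
  rw [ofC_apply, reC_apply]
  have h1 := ev_coord θ hf j
  have h2 : (starRingEnd ℂ) ((ev θ f) j) = (ev θ f) j := by
    rw [h1, Complex.conj_tsum, ← (Equiv.neg Md).tsum_eq]
    congr 1
    funext q
    simp only [Equiv.neg_apply, ch_neg, hr, cjv, map_mul, Complex.conj_conj]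
  exact Complex.conj_eq_iff_re.mp h2

/-- Frequencies of level `n` are controlled by the length. -/
theorem nx_le (K : ℕ → Fin 3 → ℤ) (n : ℕ) {κ : ℝ}
    (hκ : ∀ i ≤ n, |(K i 0 : ℝ)| + |(K i 1 : ℝ)| + |(K i 2 : ℝ)| ≤ κ) :
    ∀ q ∈ lev n, nx (xiZ K) q ≤ κ * len q := by
  intro q hq
  have hlen : (len q : ℝ) = ∑ i ∈ q.support, |((q i : ℤ) : ℝ)| := rfl
  have hxi : ∀ j : Fin 3, ((xiZ K q j : ℤ) : ℝ) = ∑ i ∈ q.support, (q i : ℝ) * (K i j : ℝ) := by
    intro j
    simp only [xiZ, Finsupp.liftAddHom_apply, Finsupp.sum]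
    simp only [Finset.sum_apply]
    push_cast
    simp
  have hj : ∀ j : Fin 3, |((xiZ K q j : ℤ) : ℝ)| ≤ ∑ i ∈ q.support, |(q i : ℝ)| * |(K i j : ℝ)| := by
    intro j
    rw [hxi j]
    refine (Finset.abs_sum_le_sum_abs _ _).trans (Finset.sum_le_sum fun i _ => ?_)
    rw [abs_mul]
  rw [hlen, Finset.mul_sum]
  unfold nx
  calc _ ≤ (∑ i ∈ q.support, |(q i : ℝ)| * |(K i 0 : ℝ)|)
        + (∑ i ∈ q.support, |(q i : ℝ)| * |(K i 1 : ℝ)|)
        + ∑ i ∈ q.support, |(q i : ℝ)| * |(K i 2 : ℝ)| := by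
        gcongr <;> apply hj
    _ = ∑ i ∈ q.support, |(q i : ℝ)| * (|(K i 0 : ℝ)| + |(K i 1 : ℝ)| + |(K i 2 : ℝ)|) := by
        rw [← Finset.sum_add_distrib, ← Finset.sum_add_distrib]
        refine Finset.sum_congr rfl fun i _ => ?_
        ring
    _ ≤ ∑ i ∈ q.support, κ * |((q i : ℤ) : ℝ)| := by
        refine Finset.sum_le_sum fun i hi => ?_
        have h1 : i ≤ n := by
          by_contra hc
          push Not at hc
          have := hq i hc
          rw [Finsupp.mem_support_iff] at hi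
          exact hi this
        rw [mul_comm κ]
        exact mul_le_mul_of_nonneg_left (hκ i h1) (abs_nonneg _)

theorem exists_kappa (K : ℕ → Fin 3 → ℤ) (n : ℕ) : ∃ κ : ℝ, 0 ≤ κ ∧
    ∀ i ≤ n, |(K i 0 : ℝ)| + |(K i 1 : ℝ)| + |(K i 2 : ℝ)| ≤ κ := by
  refine ⟨∑ i ∈ Finset.range (n + 1), (|(K i 0 : ℝ)| + |(K i 1 : ℝ)| + |(K i 2 : ℝ)|),
    by positivity, ?_⟩
  intro i hi
  exact Finset.single_le_sum (f := fun i => |(K i 0 : ℝ)| + |(K i 1 : ℝ)| + |(K i 2 : ℝ)|)
    (fun _ _ => by positivity) (Finset.mem_range.mpr (by omega))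

/-- Powers against exponentials. -/
theorem pow_le_exp {c κ : ℝ} (hc : 0 < c) (hκ : 0 ≤ κ) (k : ℕ) :
    ∃ C : ℝ, 0 ≤ C ∧ ∀ L : ℝ, 0 ≤ L → (1 + κ * L) ^ k ≤ C * Real.exp (c * L) := by
  set a : ℝ := c / (κ + 1) with ha
  have ha0 : 0 < a := by positivity
  have haκ : a * κ ≤ c := by
    rw [ha, div_mul_eq_mul_div, div_le_iff₀ (by positivity)]
    nlinarith
  refine ⟨(a ^ k)⁻¹ * (k.factorial * Real.exp a), by positivity, fun L hL => ?_⟩
  have h1 := Real.pow_div_factorial_le_exp (a * (1 + κ * L)) (by positivity) k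
  rw [div_le_iff₀ (by positivity), mul_pow] at h1
  have h2 : Real.exp (a * (1 + κ * L)) ≤ Real.exp a * Real.exp (c * L) := by
    rw [← Real.exp_add]
    apply Real.exp_le_exp.mpr
    nlinarith
  have h3 : (1 + κ * L) ^ k = (a ^ k)⁻¹ * (a ^ k * (1 + κ * L) ^ k) := by
    field_simp
  rw [h3]
  calc (a ^ k)⁻¹ * (a ^ k * (1 + κ * L) ^ k)
      ≤ (a ^ k)⁻¹ * ((Real.exp a * Real.exp (c * L)) * k.factorial) := by
        apply mul_le_mul_of_nonneg_left _ (by positivity)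
        exact h1.trans (mul_le_mul_of_nonneg_right h2 (by positivity))
    _ = _ := by ring

/-- Finite norm with a positive radius: all weighted sums converge. -/
theorem sBd_of_Nrm {K : ℕ → Fin 3 → ℤ} {n : ℕ} {s c : ℝ} {f : ℝ → Md → E} (hc : 0 < c)
    (hs : SuppT s (lev n : Set Md) f) (hf : Nrm s c 0 (fun _ => 1) f ≠ ∞) (k : ℕ) :
    SBd (xiZ K) s k f := by
  obtain ⟨κ, hκ0, hκ⟩ := exists_kappa K n
  obtain ⟨u, hu, hu0, -, hb⟩ := bound_of_Nrm hf
  obtain ⟨C, hC0, hC⟩ := pow_le_exp hc hκ0 k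
  refine ⟨fun q => C * u q, hu.mul_left C, fun t ht q => ?_⟩
  by_cases hq : q ∈ lev n
  · have h1 := nx_le K n hκ q hq
    have h2 := nx_nonneg (xiZ K) q
    calc (1 + nx (xiZ K) q) ^ k * ‖f t q‖ ≤ (1 + κ * len q) ^ k * ‖f t q‖ := by gcongr
      _ ≤ (C * Real.exp (c * len q)) * ‖f t q‖ := by
        gcongr
        exact hC _ (len_nonneg q)
      _ = C * (Real.exp (c * len q) * ‖f t q‖) := by ring
      _ ≤ C * u q := mul_le_mul_of_nonneg_left (hb t ht q) hC0
  · rw [hs t ht q hq, norm_zero, mul_zero]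
    exact mul_nonneg hC0 (hu0 q)

/-- Finite norm with a nonnegative radius: the modes are summable. -/
theorem summable_of_Nrm {s c : ℝ} {f : ℝ → Md → E} (hc : 0 ≤ c)
    (hf : Nrm s c 0 (fun _ => 1) f ≠ ∞) {t : ℝ} (ht : t ∈ Icc 0 s) :
    Summable fun q => ‖f t q‖ := by
  obtain ⟨u, hu, hu0, -, hb⟩ := bound_of_Nrm hf
  refine Summable.of_nonneg_of_le (fun _ => norm_nonneg _) (fun q => le_trans ?_ (hb t ht q)) hu
  refine le_mul_of_one_le_left (norm_nonneg _) ?_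
  rw [← Real.exp_zero]
  exact Real.exp_le_exp.mpr (mul_nonneg hc (len_nonneg q))

end md

end Pool.Agent.Work.MP_b0497c_an.Unf.S

end
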