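import Pool.Agent.Work.MP_b0497c_an.Unf.LStmts
import Pool.Agent.Work.MP_b0497c_an.Unf.SAlg
import Pool.Agent.Work.MP_b0497c_an.Bd.B26
import Pool.Agent.Work.MP_b0497c_an.Bd.B08
import Pool.Agent.Work.MP_b0497c_an.Bd.B05
import Pool.Agent.Work.MP_b0497c_an.Unf.S29
import Pool.Agent.Work.MP_b0497c_an.Unf.L20

/-! Bundle of small proof modules (one section per former module). -/

section

set_option autoImplicit false
set_option linter.dupNamespace false
set_option linter.unusedSectionVars false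

/-!
# L10: algebra of compositions with a change of phases
-/

open scoped ENNReal
open Set MeasureTheory

namespace Pool.Agent.Work.MP_b0497c_an.Unf.L

open W S

namespace L10

section gen

variable {E F G : Type} [NormedAddCommGroup E] [NormedSpace ℂ E]
  [NormedAddCommGroup F] [NormedSpace ℂ F] [NormedAddCommGroup G] [NormedSpace ℂ G]

theorem summable_fin0 {c : ℝ} (hc : 0 ≤ c) {f : Md → E} (hf : sN c f ≠ ∞) :
    Summable fun q => ‖f q‖ := by
  have h : (∑' q, ‖f q‖ₑ) ≠ ∞ := by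
    refine ne_top_of_le_ne_top hf (ENNReal.tsum_le_tsum fun q => ?_)
    refine le_mul_of_one_le_left zero_le ?_
    rw [← ENNReal.ofReal_one]
    exact ENNReal.ofReal_le_ofReal (Real.one_le_exp (mul_nonneg hc (len_nonneg q)))
  have := ENNReal.summable_toReal h
  simpa using this

theorem supp_cv {n : ℕ} {β : E →L[ℂ] F →L[ℂ] G} {f : Md → E} {g : Md → F}
    (hf : SuppIn (lev n : Set Md) f) (hg : SuppIn (lev n : Set Md) g) :
    SuppIn (lev n : Set Md) (conv β f g) := by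
  intro q hq
  refine (tsum_congr fun l => ?_).trans tsum_zero
  by_cases hl : l ∈ lev n
  · have h1 : q - l ∉ (lev n : Set Md) := fun h => hq (by
      have := (lev n).add_mem h hl
      simpa using this)
    rw [hf _ h1]
    simp
  · rw [hg _ hl, map_zero]

theorem supp_mul {n : ℕ} {a : Md → (E →L[ℂ] F)} {f : Md → E}
    (ha : SuppIn (lev n : Set Md) a) (hf : SuppIn (lev n : Set Md) f) :
    SuppIn (lev n : Set Md) (mul a f) :=
  supp_cv (β := ContinuousLinearMap.id ℂ (E →L[ℂ] F)) ha hf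

theorem supp_mm {n : ℕ} {a : Md → (F →L[ℂ] G)} {b : Md → (E →L[ℂ] F)}
    (ha : SuppIn (lev n : Set Md) a) (hb : SuppIn (lev n : Set Md) b) :
    SuppIn (lev n : Set Md) (mm a b) := supp_cv ha hb

theorem supp_add {S : Set Md} {f g : Md → E} (hf : SuppIn S f) (hg : SuppIn S g) :
    SuppIn S (f + g) := fun q hq => by rw [Pi.add_apply, hf q hq, hg q hq, add_zero]

theorem supp_adjC {n : ℕ} {a : Md → Mat} (ha : SuppIn (lev n : Set Md) a) :
    SuppIn (lev n : Set Md) (adjC a) := by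
  intro q hq
  have h : -q ∉ (lev n : Set Md) := fun h => hq (by
    have := (lev n).neg_mem h
    simpa using this)
  rw [adjC, ha _ h, map_zero]

/-- Only the phases of the level matter. -/
theorem ev_congr_lev {n : ℕ} {θ θ' : Md →+ ℝ} (h : ∀ q ∈ lev n, θ q = θ' q) {f : Md → E}
    (hf : SuppIn (lev n : Set Md) f) : ev θ f = ev θ' f := by
  refine tsum_congr fun q => ?_
  by_cases hq : q ∈ lev n
  · rw [ch, ch, h q hq]
  · rw [hf q hq, smul_zero, smul_zero]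

theorem phF_zero_left (q : Md) : phF (fun _ => (0 : Md → ℂ)) q = 0 := by
  funext r
  simp [phF]

theorem phF_zero_right (x : ℕ → Md → ℂ) : phF x 0 = 0 := by
  funext r
  simp [phF]

theorem expC_ph_zero (h03 : L03) (x : ℕ → Md → ℂ) (q : Md) (h : phF x q = 0) :
    expC (fun r => Complex.I * phF x q r) = cst 1 := by
  rw [← h03.2.2.2.1]
  congr 1
  funext r
  rw [h]
  simp

theorem comp_neg (x : ℕ → Md → ℂ) (f : Md → E) : comp x (-f) = - comp x f := by
  funext p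
  simp only [comp, Pi.neg_apply, smul_neg]
  exact tsum_neg

end gen

/-- The displaced point of the reflected point. -/
theorem sh_neg (h09 : L09) {n : ℕ} {c1 B : ℝ} {x : ℕ → Md → ℂ} (hx : XH n c1 B x)
    (ho : ∀ i ≤ n, OddF (x i)) (θ : Md →+ ℝ) : ∀ q ∈ lev n, sh (-θ) x q = (-(sh θ x)) q := by
  intro q hq
  have h1 : ∀ i ∈ q.support, ev (-θ) (x i) = - ev θ (x i) := by
    intro i hi
    have hin : i ≤ n := by
      by_contra hc
      rw [Finsupp.mem_support_iff] at hi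
      exact hi (hq i (by omega))
    have hf : sN 0 (x i) ≠ ∞ :=
      fin_mono hx.c_nn hx.c_nn (ne_top_of_le_ne_top ENNReal.ofReal_ne_top (hx.le i hin))
    exact ((h09.2.2.2 ℂ n (x i) (hx.supp i hin) hf).1.1 (ho i hin)) θ
  show (-θ) q + (q.sum fun i z => (z : ℝ) * (ev (-θ) (x i)).re) =
    -(θ q + q.sum fun i z => (z : ℝ) * (ev θ (x i)).re)
  rw [neg_add, AddMonoidHom.neg_apply]
  congr 1
  rw [Finsupp.sum, Finsupp.sum, ← Finset.sum_neg_distrib]
  refine Finset.sum_congr rfl fun i hi => ?_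
  rw [h1 i hi]
  simp

end L10

open L10

/-- **L10.** -/
theorem l10 (h03 : L03) (h07 : L07) (h08 : L08) (h09 : L09) : L10 := by
  refine ⟨fun E _ _ f => ?_, fun n c c1 B x hx hc => ?_⟩
  · funext p
    have h : ∀ q, expC (fun r => Complex.I * phF (fun _ => (0 : Md → ℂ)) q r) = cst 1 :=
      fun q => expC_ph_zero h03 _ q (phF_zero_left q)
    rw [comp, tsum_eq_single p]
    · rw [h]
      simp [cst]
    · intro q hq
      rw [h, cst, if_neg (fun h0 => hq (sub_eq_zero.1 h0).symm), zero_smul]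
  have hc0 : 0 ≤ c := (add_nonneg hx.c_nn hx.B_nn).trans hc
  -- uniqueness
  have huniq : ∀ (E : Type) [NormedAddCommGroup E] [NormedSpace ℂ E] [CompleteSpace E]
      (f g : Md → E), SuppIn (lev n : Set Md) f → SuppIn (lev n : Set Md) g → sN 0 f ≠ ∞ →
      sN 0 g ≠ ∞ → (∀ θ : Md →+ ℝ, ev θ f = ev θ g) → f = g := fun E _ _ _ f g => h08.1 E n f g
  have hsupp : ∀ (E : Type) [NormedAddCommGroup E] [NormedSpace ℂ E] [CompleteSpace E]
      (f : Md → E), SuppIn (lev n : Set Md) f → sN c f ≠ ∞ →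
      SuppIn (lev n : Set Md) (comp x f) := fun E _ _ _ f h1 h2 =>
    (h07 E n c c1 B x f hx hc h1 h2).2.1
  have hfin : ∀ (E : Type) [NormedAddCommGroup E] [NormedSpace ℂ E] [CompleteSpace E]
      (f : Md → E), SuppIn (lev n : Set Md) f → sN c f ≠ ∞ → sN 0 (comp x f) ≠ ∞ :=
    fun E _ _ _ f h1 h2 => fin_mono hx.c_nn hx.c_nn
      (ne_top_of_le_ne_top h2 (h07 E n c c1 B x f hx hc h1 h2).1)
  have hev : ∀ (E : Type) [NormedAddCommGroup E] [NormedSpace ℂ E] [CompleteSpace E]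
      (f : Md → E), SuppIn (lev n : Set Md) f → sN c f ≠ ∞ →
      ∀ θ : Md →+ ℝ, ev θ (comp x f) = ev (sh θ x) f := fun E _ _ _ f h1 h2 =>
    (h07 E n c c1 B x f hx hc h1 h2).2.2
  have hsum : ∀ (E : Type) [NormedAddCommGroup E] [NormedSpace ℂ E]
      (f : Md → E), sN c f ≠ ∞ → Summable fun q => ‖f q‖ := fun E _ _ f h => summable_fin0 hc0 h
  have hsum0 : ∀ (E : Type) [NormedAddCommGroup E] [NormedSpace ℂ E]
      (f : Md → E), sN 0 f ≠ ∞ → Summable fun q => ‖f q‖ := fun E _ _ f h =>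
    summable_fin0 le_rfl h
  have h0c : ∀ (E : Type) [NormedAddCommGroup E] [NormedSpace ℂ E]
      (f : Md → E), sN c f ≠ ∞ → sN 0 f ≠ ∞ := fun E _ _ f h => fin_mono hc0 hc0 h
  -- reflected points
  have hrefl : ∀ (E : Type) [NormedAddCommGroup E] [NormedSpace ℂ E] [CompleteSpace E]
      (f : Md → E), SuppIn (lev n : Set Md) f → sN c f ≠ ∞ → (∀ i ≤ n, OddF (x i)) →
      ∀ θ : Md →+ ℝ, ev (-θ) (comp x f) = ev (-(sh θ x)) f := fun E _ _ _ f h1 h2 ho θ => by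
    rw [hev E f h1 h2 (-θ)]
    exact ev_congr_lev (sh_neg h09 hx ho θ) h1
  have heven : ∀ (E : Type) [NormedAddCommGroup E] [NormedSpace ℂ E] [CompleteSpace E]
      (f : Md → E), SuppIn (lev n : Set Md) f → sN c f ≠ ∞ → (∀ i ≤ n, OddF (x i)) →
      EvenF f → EvenF (comp x f) := fun E _ _ _ f h1 h2 ho he => by
    rw [(h09.2.2.2 E n (comp x f) (hsupp E f h1 h2) (hfin E f h1 h2)).2]
    intro θ
    rw [hrefl E f h1 h2 ho θ, hev E f h1 h2 θ]
    exact ((h09.2.2.2 E n f h1 (h0c E f h2)).2.1 he) (sh θ x)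
  have hodd : ∀ (E : Type) [NormedAddCommGroup E] [NormedSpace ℂ E] [CompleteSpace E]
      (f : Md → E), SuppIn (lev n : Set Md) f → sN c f ≠ ∞ → (∀ i ≤ n, OddF (x i)) →
      OddF f → OddF (comp x f) := fun E _ _ _ f h1 h2 ho he => by
    rw [(h09.2.2.2 E n (comp x f) (hsupp E f h1 h2) (hfin E f h1 h2)).1]
    intro θ
    rw [hrefl E f h1 h2 ho θ, hev E f h1 h2 θ]
    exact ((h09.2.2.2 E n f h1 (h0c E f h2)).1.1 he) (sh θ x)
  refine ⟨?_, ?_, ?_, ?_, ?_, ?_, ?_, ?_⟩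
  · -- mul
    intro E F _ _ _ _ _ _ a f hsa hsf ha hf
    refine huniq F _ _ (hsupp F _ (supp_mul hsa hsf) (fin_mul hc0 ha hf))
      (supp_mul (hsupp _ a hsa ha) (hsupp _ f hsf hf)) (hfin F _ (supp_mul hsa hsf)
      (fin_mul hc0 ha hf)) (fin_mul le_rfl (hfin _ a hsa ha) (hfin _ f hsf hf)) fun θ => ?_
    rw [hev F _ (supp_mul hsa hsf) (fin_mul hc0 ha hf) θ,
      ev_mul _ (hsum _ a ha) (hsum _ f hf),
      ev_mul _ (hsum0 _ _ (hfin _ a hsa ha)) (hsum0 _ _ (hfin _ f hsf hf)),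
      hev _ a hsa ha, hev _ f hsf hf]
  · -- mm
    intro E F G _ _ _ _ _ _ _ _ _ a b hsa hsb ha hb
    refine huniq (E →L[ℂ] G) _ _ (hsupp _ _ (supp_mm hsa hsb) (fin_mm hc0 ha hb))
      (supp_mm (hsupp _ a hsa ha) (hsupp _ b hsb hb)) (hfin _ _ (supp_mm hsa hsb)
      (fin_mm hc0 ha hb)) (fin_mm le_rfl (hfin _ a hsa ha) (hfin _ b hsb hb)) fun θ => ?_
    rw [hev _ _ (supp_mm hsa hsb) (fin_mm hc0 ha hb) θ,
      ev_mm _ (hsum _ a ha) (hsum _ b hb),
      ev_mm _ (hsum0 _ _ (hfin _ a hsa ha)) (hsum0 _ _ (hfin _ b hsb hb)),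
      hev _ a hsa ha, hev _ b hsb hb]
  · -- add, neg
    intro E _ _ _ f g hsf hsg hf hg
    refine ⟨?_, comp_neg x f⟩
    refine huniq E _ _ (hsupp _ _ (supp_add hsf hsg) (fin_add hf hg))
      (supp_add (hsupp _ f hsf hf) (hsupp _ g hsg hg)) (hfin _ _ (supp_add hsf hsg)
      (fin_add hf hg)) (fin_add (hfin _ f hsf hf) (hfin _ g hsg hg)) fun θ => ?_
    rw [hev _ _ (supp_add hsf hsg) (fin_add hf hg) θ, ev_add _ (hsum _ f hf) (hsum _ g hg),
      ev_add _ (hsum0 _ _ (hfin _ f hsf hf)) (hsum0 _ _ (hfin _ g hsg hg)),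
      hev _ f hsf hf, hev _ g hsg hg]
  · -- linear maps
    intro E F _ _ _ _ _ _ L f hsf hf
    have hL : SuppIn (lev n : Set Md) fun q => L (f q) := fun q hq => by
      show L (f q) = 0
      rw [hsf q hq, map_zero]
    have hLf : sN c (fun q => L (f q)) ≠ ∞ := fin_of_le ‖L‖ (fun q => L.le_opNorm _) hf
    have hL' : SuppIn (lev n : Set Md) fun q => L (comp x f q) := fun q hq => by
      show L (comp x f q) = 0
      rw [hsupp _ f hsf hf q hq, map_zero]
    refine huniq F _ _ (hsupp _ _ hL hLf) hL' (hfin _ _ hL hLf)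
      (fin_of_le ‖L‖ (fun q => L.le_opNorm _) (hfin _ f hsf hf)) fun θ => ?_
    rw [hev _ _ hL hLf θ, ev_map _ (hsum _ f hf) L, ev_map _ (hsum0 _ _ (hfin _ f hsf hf)) L,
      hev _ f hsf hf]
  · -- adjoint, parity
    intro a hsa ha
    refine ⟨?_, fun ho he => ⟨?_, heven _ a hsa ha ho he.2⟩⟩
    · refine huniq Mat _ _ (hsupp _ _ (supp_adjC hsa) (fin_adjC ha))
        (supp_adjC (hsupp _ a hsa ha)) (hfin _ _ (supp_adjC hsa) (fin_adjC ha))
        (fin_adjC (hfin _ a hsa ha)) fun θ => ?_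
      rw [hev _ _ (supp_adjC hsa) (fin_adjC ha) θ, ev_adjC _ (hsum _ a ha),
        ev_adjC _ (hsum0 _ _ (hfin _ a hsa ha)), hev _ a hsa ha]
    · rw [h09.2.2.1 n (comp x a) (hsupp _ a hsa ha) (hfin _ a hsa ha)]
      intro θ v
      rw [hev _ a hsa ha θ]
      exact ((h09.2.2.1 n a hsa (h0c _ a ha)).1 he.1) (sh θ x) v
  · -- vectors
    intro f hsf hf ho he
    refine ⟨?_, hodd _ f hsf hf ho he.2⟩
    rw [h09.2.1 n (comp x f) (hsupp _ f hsf hf) (hfin _ f hsf hf)]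
    intro θ
    rw [hev _ f hsf hf θ]
    exact ((h09.2.1 n f hsf (h0c _ f hf)).1 he.1) (sh θ x)
  · -- scalars
    intro f hsf hf ho he
    refine ⟨?_, heven _ f hsf hf ho he.2⟩
    rw [h09.1 n (comp x f) (hsupp _ f hsf hf) (hfin _ f hsf hf)]
    intro θ
    rw [hev _ f hsf hf θ]
    exact ((h09.1 n f hsf (h0c _ f hf)).1 he.1) (sh θ x)
  · -- the constant `1`
    funext p
    rw [comp, tsum_eq_single 0]
    · rw [expC_ph_zero h03 x 0 (phF_zero_right x), sub_zero]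
      by_cases hp : p = 0
      · simp [cst, oneM, hp]
      · simp [cst, oneM, hp]
    · intro q hq
      simp [oneM, hq]

end Pool.Agent.Work.MP_b0497c_an.Unf.L

end

section

set_option autoImplicit false

/-!
# L15, L15b: derivatives cost a part of the radius; the gradient
-/

open scoped ENNReal
open Set MeasureTheory

namespace Pool.Agent.Work.MP_b0497c_an.Unf.L

open W S

theorem l15 : L15 := by
  intro E _ _ T c c1 ρ f hT hc hρ
  refine ⟨fun F _ _ g B hB h => sa_len_fin hc hρ.pos hB h, fun j => ?_⟩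
  refine sa_len_fin hc hρ.pos zero_le_one (fun t _ q => ?_)
  rw [dj, norm_smul, norm_mul, Complex.norm_I, one_mul, one_mul]
  exact mul_le_mul_of_nonneg_right ((s01 (fun _ => 0)).2.1 q j) (norm_nonneg _)

theorem norm_gradV_le (K : ℕ → Fin 3 → ℤ) (f : Md → C3) (q : Md) :
    ‖gradV K f q‖ ≤ ‖xi K q‖ * ‖f q‖ := by
  rw [gradV, norm_smul, Complex.norm_I, one_mul]
  refine ContinuousLinearMap.opNorm_le_bound _ (by positivity) fun x => ?_
  rw [ContinuousLinearMap.smulRight_apply, norm_smul, innerSL_apply_apply]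
  calc ‖inner ℂ (xi K q) x‖ * ‖f q‖ ≤ (‖xi K q‖ * ‖x‖) * ‖f q‖ := by
        gcongr
        exact norm_inner_le_norm _ _
    _ = _ := by ring

theorem norm_gradS_le (K : ℕ → Fin 3 → ℤ) (r : Md → ℂ) (q : Md) :
    ‖gradS K r q‖ ≤ ‖xi K q‖ * ‖r q‖ := by
  rw [gradS, norm_smul, norm_mul, Complex.norm_I, one_mul, mul_comm]

theorem cjv_smul' (z : ℂ) (v : C3) : cjv (z • v) = (starRingEnd ℂ) z • cjv v := by
  ext i
  simp [cjv]

theorem inner_xi_cjv (K : ℕ → Fin 3 → ℤ) (q : Md) (x : C3) :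
    inner ℂ (xi K q) (cjv x) = (starRingEnd ℂ) (inner ℂ (xi K q) x) := by
  have h := (s01 K).2.2.2.2.1 q
  have h1 : ∀ i, (starRingEnd ℂ) (xi K q i) = xi K q i := by
    intro i
    have := congrArg (fun v : C3 => v i) h.1
    simpa [cjv] using this
  simp only [PiLp.inner_apply, map_sum, RCLike.inner_apply, map_mul, h1, cjv]

theorem l15b : L15b := by
  intro n K T c c1 B ρ hT hc hρ hB hK
  have hxi : ∀ q ∈ (lev n : Set Md), ‖xi K q‖ ≤ B * len q := fun q hq =>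
    (s01 K).2.2.1 q n B hq hK
  have hneg : ∀ q, xi K (-q) = - xi K q := fun q => ((s01 K).1 q q).2
  refine ⟨fun f hf => ⟨?_, ?_, ?_, ?_⟩, fun r hr => ⟨?_, ?_, ?_, ?_⟩⟩
  · refine sa_len_fin hc hρ.pos hB (fun t ht q => ?_)
    by_cases hq : q ∈ (lev n : Set Md)
    · exact (norm_gradV_le K (f t) q).trans
        (mul_le_mul_of_nonneg_right (hxi q hq) (norm_nonneg _))
    · have h0 := hf t ht q hq
      have h1 := norm_gradV_le K (f t) q
      rw [h0, norm_zero, mul_zero] at h1 ⊢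
      exact h1
  · intro t ht q hq
    show Complex.I • (innerSL ℂ (xi K q)).smulRight (f t q) = 0
    rw [hf t ht q hq]
    ext x
    simp
  · intro hcm q
    have h1 : (fun t => gradV K (f t) q) = fun t =>
        Complex.I • ((ContinuousLinearMap.smulRightL ℂ C3 C3 (innerSL ℂ (xi K q))) (f t q)) := by
      funext t
      rfl
    rw [h1]
    exact (((ContinuousLinearMap.smulRightL ℂ C3 C3 (innerSL ℂ (xi K q))).continuous
      ).comp_continuousOn (hcm q)).const_smul Complex.I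
  · intro hodd t ht
    obtain ⟨h1, h2⟩ := hodd t ht
    constructor
    · intro q v
      simp only [gradV, smul_apply, ContinuousLinearMap.smulRight_apply, innerSL_apply_apply]
      rw [hneg, inner_neg_left, inner_xi_cjv, h1 q, cjv_smul', cjv_smul', Complex.conj_I, smul_smul,
        smul_smul]
      congr 1
      ring
    · intro q
      rw [gradV, gradV, hneg, h2 q]
      ext x
      simp
  · refine sa_len_fin hc hρ.pos hB (fun t ht q => ?_)
    by_cases hq : q ∈ (lev n : Set Md)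
    · exact (norm_gradS_le K (r t) q).trans
        (mul_le_mul_of_nonneg_right (hxi q hq) (norm_nonneg _))
    · have h0 := hr t ht q hq
      have h1 := norm_gradS_le K (r t) q
      rw [h0, norm_zero, mul_zero] at h1 ⊢
      exact h1
  · intro t ht q hq
    show (Complex.I * r t q) • xi K q = 0
    rw [hr t ht q hq]
    simp
  · intro hcm q
    show ContinuousOn (fun t => (Complex.I * r t q) • xi K q) (Icc 0 T)
    exact ((continuousOn_const.mul (hcm q))).smul continuousOn_const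
  · intro hev t ht
    obtain ⟨h1, h2⟩ := hev t ht
    constructor
    · intro q
      rw [gradS, gradS, hneg, h1 q, cjv_smul', ((s01 K).2.2.2.2.1 q).1, map_mul, Complex.conj_I,
        smul_neg, ← neg_smul]
      congr 1
      ring
    · intro q
      rw [gradS, gradS, hneg, h2 q, smul_neg]

end Pool.Agent.Work.MP_b0497c_an.Unf.L

end

section

set_option autoImplicit false
set_option linter.dupNamespace false
set_option linter.unusedSectionVars false

/-!
# Block L, common tools: parity and reality of products, numbers of the step, displacements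
-/

open scoped ENNReal
open Set MeasureTheory

namespace Pool.Agent.Work.MP_b0497c_an.Unf.L

open W S

/-! ### Parity and reality -/

section parity

variable {E F G : Type} [NormedAddCommGroup E] [NormedSpace ℂ E] [NormedAddCommGroup F]
  [NormedSpace ℂ F] [NormedAddCommGroup G] [NormedSpace ℂ G]

theorem lc_even_mm {a : Md → (F →L[ℂ] G)} {b : Md → (E →L[ℂ] F)} (ha : EvenF a) (hb : EvenF b) :
    EvenF (mm a b) := by
  intro q
  unfold mm conv
  rw [← (Equiv.neg Md).tsum_eq]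
  refine tsum_congr fun l => ?_
  have h1 : -q - (Equiv.neg Md) l = -(q - l) := by
    show -q - -l = _
    abel
  rw [h1, ha]
  show ContinuousLinearMap.compL ℂ E F G (a (q - l)) (b (-l)) = _
  rw [hb]

theorem lc_even_mul {a : Md → (E →L[ℂ] F)} {f : Md → E} (ha : EvenF a) (hf : EvenF f) :
    EvenF (mul a f) := by
  intro q
  unfold mul act mulK
  rw [← (Equiv.neg Md).tsum_eq]
  refine tsum_congr fun l => ?_
  have h1 : -q - (Equiv.neg Md) l = -(q - l) := by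
    show -q - -l = _
    abel
  rw [h1, ha]
  show a (q - l) (f (-l)) = _
  rw [hf]

theorem lc_odd_mul {a : Md → (E →L[ℂ] F)} {f : Md → E} (ha : EvenF a) (hf : OddF f) :
    OddF (mul a f) := by
  intro q
  unfold mul act mulK
  rw [← (Equiv.neg Md).tsum_eq, ← tsum_neg]
  refine tsum_congr fun l => ?_
  have h1 : -q - (Equiv.neg Md) l = -(q - l) := by
    show -q - -l = _
    abel
  rw [h1, ha]
  show a (q - l) (f (-l)) = _
  rw [hf, map_neg]

theorem lc_even_adjC {a : Md → Mat} (ha : EvenF a) : EvenF (adjC a) := by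
  intro q
  rw [adjC, adjC, neg_neg, ha q]

theorem lc_real_mul {a : Md → Mat} {f : Md → C3} (ha : RealM a) (hf : RealV f) :
    RealV (mul a f) := by
  have h1 := IS29.mul_rg IS29.cjI IS29.cjI (a := a) (a' := a) (fun q v => ha q v) f
  have h2 : IS29.rg IS29.cjI f = f := by
    funext q
    show cjv (f (-q)) = f q
    rw [← hf (-q), neg_neg]
  rw [h2] at h1
  intro q
  have h3 := congrFun h1 (-q)
  rw [h3]
  show cjv (mul a f (- -q)) = _
  rw [neg_neg]

theorem lc_summable {f : Md → E} (hf : sN 0 f ≠ ∞) : Summable fun q => ‖f q‖ := by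
  have h1 := ENNReal.summable_toReal hf
  refine h1.congr fun q => ?_
  rw [ENNReal.toReal_mul, ENNReal.toReal_ofReal (Real.exp_pos _).le, toReal_enorm, zero_mul,
    Real.exp_zero, one_mul]

theorem lc_real_mm {a b : Md → Mat} (ha : RealM a) (hb : RealM b) (han : sN 0 a ≠ ∞)
    (hbn : sN 0 b ≠ ∞) : RealM (mm a b) := by
  have hap : ∀ (q : Md) (v : C3), mm a b q v = mul a (mul b (IS29.dl v)) q := by
    intro q v
    rw [← mul_mm han hbn (IS29.sN_dl v), IS29.mul_dl]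
  have hdl : ∀ v : C3, IS29.rg IS29.cjI (IS29.dl v) = IS29.dl (cjv v) := fun v =>
    IS29.rg_dl IS29.cjI v
  intro q v
  rw [hap, hap, ← hdl]
  rw [IS29.mul_rg IS29.cjI IS29.cjI (a := b) (a' := b) (fun q v => hb q v),
    IS29.mul_rg IS29.cjI IS29.cjI (a := a) (a' := a) (fun q v => ha q v)]
  show cjv (mul a (mul b (IS29.dl v)) (- -q)) = _
  rw [neg_neg]

theorem lc_inner_cjv (v w : C3) : inner ℂ (cjv v) w = starRingEnd ℂ (inner ℂ v (cjv w)) :=
  W20.cj_inner v w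

theorem lc_cjv_cjv (v : C3) : cjv (cjv v) = v := by
  ext i
  simp [cjv]

theorem lc_real_adjC {a : Md → Mat} (ha : RealM a) : RealM (adjC a) := by
  intro q v
  rw [adjC, adjC, neg_neg]
  refine ext_inner_left ℂ fun x => ?_
  rw [ContinuousLinearMap.adjoint_inner_right]
  have h1 : inner ℂ x (cjv (ContinuousLinearMap.adjoint (a (-q)) v)) =
      starRingEnd ℂ (inner ℂ (cjv x) (ContinuousLinearMap.adjoint (a (-q)) v)) := by
    rw [lc_inner_cjv, Complex.conj_conj]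
  rw [h1, ContinuousLinearMap.adjoint_inner_right, ha q x, lc_inner_cjv, Complex.conj_conj]

theorem lc_evenM_mm {a b : Md → Mat} (ha : A.EvenM a) (hb : A.EvenM b) (han : sN 0 a ≠ ∞)
    (hbn : sN 0 b ≠ ∞) : A.EvenM (mm a b) :=
  ⟨lc_real_mm ha.1 hb.1 han hbn, lc_even_mm ha.2 hb.2⟩

theorem lc_evenM_adjC {a : Md → Mat} (ha : A.EvenM a) : A.EvenM (adjC a) :=
  ⟨lc_real_adjC ha.1, lc_even_adjC ha.2⟩

theorem lc_oddV_mul {a : Md → Mat} {f : Md → C3} (ha : A.EvenM a) (hf : A.OddV f) :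
    A.OddV (mul a f) := ⟨lc_real_mul ha.1 hf.1, lc_odd_mul ha.2 hf.2⟩

theorem lc_cjv_add (v w : C3) : cjv (v + w) = cjv v + cjv w := by
  ext i
  simp [cjv]

theorem lc_cjv_neg (v : C3) : cjv (-v) = -cjv v := by
  ext i
  simp [cjv]

theorem lc_evenM_add {a b : Md → Mat} (ha : A.EvenM a) (hb : A.EvenM b) : A.EvenM (a + b) := by
  refine ⟨fun q v => ?_, fun q => ?_⟩
  · rw [Pi.add_apply, Pi.add_apply]
    show a (-q) (cjv v) + b (-q) (cjv v) = cjv (a q v + b q v)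
    rw [ha.1, hb.1, lc_cjv_add]
  · rw [Pi.add_apply, Pi.add_apply, ha.2, hb.2]

theorem lc_evenM_oneM : A.EvenM oneM := by
  refine ⟨fun q v => ?_, fun q => ?_⟩
  · by_cases h : q = 0
    · simp [oneM, h]
    · have h' : -q ≠ 0 := neg_ne_zero.2 h
      simp only [oneM, if_neg h, if_neg h', zero_apply]
      ext i
      simp [cjv]
  · simp [oneM]

theorem lc_oddV_add {a b : Md → C3} (ha : A.OddV a) (hb : A.OddV b) : A.OddV (a + b) := by
  refine ⟨fun q => ?_, fun q => ?_⟩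
  · rw [Pi.add_apply, Pi.add_apply, ha.1, hb.1, lc_cjv_add]
  · rw [Pi.add_apply, Pi.add_apply, ha.2, hb.2, neg_add]

theorem lc_oddV_neg {a : Md → C3} (ha : A.OddV a) : A.OddV (-a) := by
  refine ⟨fun q => ?_, fun q => ?_⟩
  · rw [Pi.neg_apply, Pi.neg_apply, ha.1, lc_cjv_neg]
  · rw [Pi.neg_apply, Pi.neg_apply, ha.2]

theorem lc_evenS_add {a b : Md → ℂ} (ha : A.EvenS a) (hb : A.EvenS b) : A.EvenS (a + b) := by
  refine ⟨fun q => ?_, fun q => ?_⟩
  · rw [Pi.add_apply, Pi.add_apply, ha.1, hb.1, map_add]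
  · rw [Pi.add_apply, Pi.add_apply, ha.2, hb.2]

end parity

/-! ### Supports -/

section supp

variable {E F G : Type} [NormedAddCommGroup E] [NormedSpace ℂ E] [NormedAddCommGroup F]
  [NormedSpace ℂ F] [NormedAddCommGroup G] [NormedSpace ℂ G] {n : ℕ}

theorem lc_supp_mm {a : Md → (F →L[ℂ] G)} {b : Md → (E →L[ℂ] F)}
    (ha : SuppIn (lev n : Set Md) a) (hb : SuppIn (lev n : Set Md) b) :
    SuppIn (lev n : Set Md) (mm a b) := by
  intro q hq
  unfold mm conv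
  rw [← tsum_zero]
  refine tsum_congr fun l => ?_
  rw [ContinuousLinearMap.compL_apply]
  by_cases hl : l ∈ (lev n : Set Md)
  · rw [ha (q - l)]
    · simp
    · intro h
      apply hq
      have := (lev n).add_mem h hl
      rwa [sub_add_cancel] at this
  · rw [hb l hl]
    simp

theorem lc_supp_mul {a : Md → (E →L[ℂ] F)} {f : Md → E}
    (ha : SuppIn (lev n : Set Md) a) (hb : SuppIn (lev n : Set Md) f) :
    SuppIn (lev n : Set Md) (mul a f) := by
  intro q hq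
  unfold mul act mulK
  rw [← tsum_zero]
  refine tsum_congr fun l => ?_
  by_cases hl : l ∈ (lev n : Set Md)
  · rw [ha (q - l)]
    · simp
    · intro h
      apply hq
      have := (lev n).add_mem h hl
      rwa [sub_add_cancel] at this
  · rw [hb l hl]
    simp

theorem lc_supp_adjC {a : Md → Mat} (ha : SuppIn (lev n : Set Md) a) :
    SuppIn (lev n : Set Md) (adjC a) := by
  intro q hq
  rw [adjC, ha (-q)]
  · simp
  · intro h
    apply hq
    have := (lev n).neg_mem h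
    rwa [neg_neg] at this

theorem lc_supp_mono {S S' : Set Md} (h : S ⊆ S') {f : Md → E} (hf : SuppIn S f) :
    SuppIn S' f := fun q hq => hf q fun h' => hq (h h')

theorem lc_lev_mono {m n : ℕ} (h : m ≤ n) : (lev m : Set Md) ⊆ (lev n : Set Md) := by
  intro q hq i hi
  exact hq i (by omega)

theorem lc_supp_add {S : Set Md} {f g : Md → E} (hf : SuppIn S f) (hg : SuppIn S g) :
    SuppIn S (f + g) := fun q hq => by rw [Pi.add_apply, hf q hq, hg q hq, add_zero]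

theorem lc_supp_sub {S : Set Md} {f g : Md → E} (hf : SuppIn S f) (hg : SuppIn S g) :
    SuppIn S (f - g) := fun q hq => by rw [Pi.sub_apply, hf q hq, hg q hq, sub_zero]

theorem lc_supp_neg {S : Set Md} {f : Md → E} (hf : SuppIn S f) :
    SuppIn S (-f) := fun q hq => by rw [Pi.neg_apply, hf q hq, neg_zero]

theorem lc_supp_oneM : SuppIn (lev n : Set Md) oneM := by
  intro q hq
  have h : q ≠ 0 := fun h => hq (by rw [h]; exact (lev n).zero_mem)
  simp [oneM, h]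

end supp

/-! ### Numbers of the step -/

section nums

variable {D : Dat}

theorem lc_par {T c : ℝ} (hT : 0 < T) (hc : 0 ≤ c) : Par T c 0 :=
  ⟨hT, le_rfl, by rw [zero_mul]; exact hc⟩

theorem lc_u_le (hD : D.Hyp) : D.u (D.n + 1) ≤ D.u (D.m + 1) := by
  have h : ∀ j, D.m + 1 ≤ j → j ≤ D.n + 1 → D.u j ≤ D.u (D.m + 1) := by
    intro j hj
    induction j, hj using Nat.le_induction with
    | base => intro _; exact le_rfl
    | succ j hj ih =>
      intro hj'
      have h1 := hD.u_step j (by omega) (by omega)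
      have h2 : D.u j ^ 16 ≤ D.u j :=
        pow_le_of_le_one (hD.u_pos j).le (hD.u_lt j).le (by norm_num)
      exact (h1.trans h2).trans (ih (by omega))
  exact h _ (by have := hD.hmn; omega) le_rfl

theorem lc_u_pos (hD : D.Hyp) : 0 < u1 D := hD.u_pos _

theorem lc_u_lt (hD : D.Hyp) : u1 D < 1 := hD.u_lt _

theorem lc_u_small (hD : D.Hyp) : D.G ^ 100 * u1 D ≤ 1 := by
  have h1 := hD.small
  have h2 : D.G ^ 400 * D.u (D.m + 1) ^ 4 = (D.G ^ 100 * D.u (D.m + 1)) ^ 4 := by ring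
  rw [h2] at h1
  have h0 : 0 ≤ D.G ^ 100 * D.u (D.m + 1) :=
    mul_nonneg (pow_nonneg (sh_G0 hD) _) (hD.u_pos _).le
  have h3 : D.G ^ 100 * D.u (D.m + 1) ≤ 1 := by
    by_contra hc
    push Not at hc
    have h4 : 1 < (D.G ^ 100 * D.u (D.m + 1)) ^ 4 := one_lt_pow₀ hc (by norm_num)
    linarith
  exact (mul_le_mul_of_nonneg_left (lc_u_le hD) (pow_nonneg (sh_G0 hD) _)).trans h3

/-- `G ^ a u ^ b ≤ u ^ k` -/
theorem lc_gu (hD : D.Hyp) {a b k : ℕ} (ha : a ≤ 100) (hb : k + 1 ≤ b) :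
    D.G ^ a * u1 D ^ b ≤ u1 D ^ k := by
  have hu := (lc_u_pos hD).le
  have h1 : u1 D ^ b ≤ u1 D ^ (k + 1) := pow_le_pow_of_le_one hu (lc_u_lt hD).le hb
  have h2 : D.G ^ a ≤ D.G ^ 100 := pow_le_pow_right₀ (sh_G1 hD) ha
  calc D.G ^ a * u1 D ^ b ≤ D.G ^ 100 * u1 D ^ (k + 1) := by
        refine mul_le_mul h2 h1 (pow_nonneg hu _) (pow_nonneg (sh_G0 hD) _)
    _ = (D.G ^ 100 * u1 D) * u1 D ^ k := by ring
    _ ≤ 1 * u1 D ^ k := mul_le_mul_of_nonneg_right (lc_u_small hD) (pow_nonneg hu _)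
    _ = u1 D ^ k := one_mul _

theorem lc_inv_c (hD : D.Hyp) : 1 / D.c ≤ D.G / 2 := by
  rw [div_le_div_iff₀ hD.c_pos two_pos]
  linarith [hD.c_G]

theorem lc_N1_pos (hD : D.Hyp) : 0 < N1 D := sh_N0 hD le_rfl

theorem lc_wt (hD : D.Hyp) : Wt D.T (α1 D) :=
  hD.α_wt _ (by have := hD.hmn; omega) le_rfl

theorem lc_α_le (hD : D.Hyp) : ∀ t ∈ Icc 0 D.T, α1 D t ≤ D.G :=
  hD.α_le _ (by have := hD.hmn; omega) le_rfl

/-- the displacement bound `B = 2 G u ^ 120` -/
theorem lc_B (hD : D.Hyp) : 0 ≤ 2 * D.G * u1 D ^ 120 ∧ 2 * D.G * u1 D ^ 120 ≤ D.c / 8 := by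
  have hG := hD.G_two
  have hu := (lc_u_pos hD).le
  refine ⟨by have := sh_G0 hD; positivity, ?_⟩
  have h1 := lc_gu hD (a := 5) (b := 120) (k := 0) (by norm_num) (by norm_num)
  rw [pow_zero] at h1
  have h2 := hD.c_G
  have h3 : 8 * (2 * D.G * u1 D ^ 120) * D.G ≤ 2 := by
    have h4 : 16 * D.G ^ 2 ≤ 2 * D.G ^ 5 := by
      have h5 : (2:ℝ) ^ 3 ≤ D.G ^ 3 := pow_le_pow_left₀ (by norm_num) hG 3
      have h6 : 0 ≤ D.G ^ 2 := by positivity
      nlinarith
    calc 8 * (2 * D.G * u1 D ^ 120) * D.G = 16 * D.G ^ 2 * u1 D ^ 120 := by ring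
      _ ≤ 2 * D.G ^ 5 * u1 D ^ 120 := mul_le_mul_of_nonneg_right h4 (pow_nonneg hu _)
      _ = 2 * (D.G ^ 5 * u1 D ^ 120) := by ring
      _ ≤ 2 := by linarith
  have h7 : 8 * (2 * D.G * u1 D ^ 120) * D.G ≤ D.c * D.G := by linarith
  have h8 := le_of_mul_le_mul_right h7 (by linarith : 0 < D.G)
  linarith

/-- from the weight `α` to the weight one, any radius -/
theorem lc_to_one (hD : D.Hyp) {E : Type} [NormedAddCommGroup E] [NormedSpace ℂ E] {c : ℝ}
    (hc : 0 ≤ c) (f : ℝ → Md → E) :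
    Nrm D.T c 0 Dat.one' f ≤ ENNReal.ofReal D.G * Nrm D.T c 0 (α1 D) f :=
  sa_nrm_wt (lc_par hD.T_pos hc) (lc_wt hD) (sa_wt1 D.T) (sh_G0 hD)
    (fun t ht => by rw [mul_one]; exact lc_α_le hD t ht) f

end nums

/-! ### The displacements of the phases -/

section disp

variable {D : Dat} {w ζ : ℝ → Md → C3}

theorem lc_sN_le {E : Type} [NormedAddCommGroup E] [NormedSpace ℂ E] {T c c' : ℝ} (h : c' ≤ c)
    (f : ℝ → Md → E) {t : ℝ} (ht : t ∈ Icc 0 T) : sN c' (f t) ≤ Nrm T c 0 Dat.one' f := by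
  unfold sN Nrm
  refine ENNReal.tsum_le_tsum (fun q => ?_)
  refine le_iSup₂_of_le t ht ?_
  refine mul_le_mul_left (ENNReal.ofReal_le_ofReal ?_) _
  rw [Dat.one', div_one, zero_mul, sub_zero]
  exact Real.exp_le_exp.2 (mul_le_mul_of_nonneg_right h (len_nonneg q))

theorem lc_lab_real {K : ℕ → Fin 3 → ℤ} {f : Md → C3} (hf : RealV f) (i : ℕ) :
    RealS (lab K f i) := by
  intro q
  show inner ℂ (kv (K i)) (f (-q)) = starRingEnd ℂ (inner ℂ (kv (K i)) (f q))
  have h1 : cjv (kv (K i)) = kv (K i) := by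
    ext j
    simp [cjv, kv]
  have h2 := lc_inner_cjv (kv (K i)) (f q)
  rw [h1] at h2
  rw [hf q, h2, Complex.conj_conj]

theorem lc_lab_odd {K : ℕ → Fin 3 → ℤ} {f : Md → C3} (hf : OddF f) (i : ℕ) :
    OddF (lab K f i) := by
  intro q
  show innerSL ℂ (kv (K i)) (f (-q)) = -(innerSL ℂ (kv (K i)) (f q))
  rw [hf q, map_neg]

theorem lc_lab_supp {K : ℕ → Fin 3 → ℤ} {n : ℕ} {f : Md → C3}
    (hf : SuppIn (lev n : Set Md) f) (i : ℕ) : SuppIn (lev n : Set Md) (lab K f i) := by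
  intro q hq
  show innerSL ℂ (kv (K i)) (f q) = 0
  rw [hf q hq, map_zero]

theorem lc_XH (hD : D.Hyp) (hz : LabD D w ζ) {t : ℝ} (ht : t ∈ Icc 0 D.T) :
    XH (D.n + 1) (D.c / 8) (2 * D.G * u1 D ^ 120) (lab D.K (ζ t)) where
  c_nn := by have := hD.c_pos; positivity
  B_nn := (lc_B hD).1
  le i hi := (lc_sN_le (by have := hD.c_pos; linarith) (fun t => lab D.K (ζ t) i) ht).trans
    (hz.lab_le' i hi)
  supp i hi := lc_lab_supp (hz.supp t ht) i
  real i hi := lc_lab_real (hz.odd t ht).1 i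

theorem lc_lab_one (hD : D.Hyp) (hz : LabD D w ζ) : ∀ i ≤ D.n + 1,
    Nrm D.T (D.c / 8) 0 Dat.one' (fun t => lab D.K (ζ t) i) ≤
      ENNReal.ofReal (2 * D.G * u1 D ^ 120) := fun i hi =>
  (sa_nrm_cmono (by have := hD.c_pos; linarith) (fun _ _ => one_pos) _).trans (hz.lab_le' i hi)

theorem lc_lab_cm (hz : LabD D w ζ) : ∀ i ≤ D.n + 1, CM D.T (fun t => lab D.K (ζ t) i) :=
  fun i _ q => (innerSL ℂ (kv (D.K i))).continuous.comp_continuousOn (hz.cm q)

/-- norm, continuity, support of a composition with the displacement of the step -/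
theorem lc_comp (h05 : L05) (hD : D.Hyp) (hz : LabD D w ζ) {E : Type} [NormedAddCommGroup E]
    [NormedSpace ℂ E] [CompleteSpace E] {f : ℝ → Md → E} {c : ℝ} (hc : D.c / 4 ≤ c)
    (hf : SuppT D.T (lev (D.n + 1) : Set Md) f) {ρ : ℝ → ℝ} (hρ : Wt D.T ρ) :
    Nrm D.T (D.c / 8) 0 ρ (fun t => comp (lab D.K (ζ t)) (f t)) ≤ Nrm D.T c 0 ρ f ∧
    (CM D.T f → Nrm D.T c 0 ρ f ≠ ∞ → CM D.T (fun t => comp (lab D.K (ζ t)) (f t))) ∧
    SuppT D.T (lev (D.n + 1) : Set Md) (fun t => comp (lab D.K (ζ t)) (f t)) := by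
  have hc0 := hD.c_pos
  obtain ⟨hB0, hB⟩ := lc_B hD
  obtain ⟨h1, h2, h3⟩ := h05 E (D.n + 1) D.T c (D.c / 8) (2 * D.G * u1 D ^ 120) ρ
    (fun t => lab D.K (ζ t)) f hD.T_pos (by positivity) hB0 (by linarith) hρ hf
    (lc_lab_one hD hz)
  exact ⟨h1, fun a b => h2 a (lc_lab_cm hz) b, h3 fun i _ t ht => lc_lab_supp (hz.supp t ht) i⟩

theorem lc_lab_zero {K : ℕ → Fin 3 → ℤ} : (lab K (0 : Md → C3)) = fun _ => 0 := by
  funext i q
  show innerSL ℂ (kv (K i)) 0 = 0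
  rw [map_zero]

/-- `[f o M - f]_α ≤ 8 G u ^ 120 [f]_1` -/
theorem lc_comp_sub (h06 : L06) (h10 : L10) (hD : D.Hyp) (hz : LabD D w ζ) {E : Type}
    [NormedAddCommGroup E] [NormedSpace ℂ E] [CompleteSpace E] {f : ℝ → Md → E} {c : ℝ}
    (hc : 3 * D.c / 8 ≤ c) (hf : SuppT D.T (lev (D.n + 1) : Set Md) f)
    (hfin : Nrm D.T c 0 Dat.one' f ≠ ∞) :
    Nrm D.T (D.c / 8) 0 (α1 D) (fun t => comp (lab D.K (ζ t)) (f t) - f t) ≤
      ENNReal.ofReal (8 * D.G * u1 D ^ 120) * Nrm D.T c 0 Dat.one' f := by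
  have hc0 := hD.c_pos
  obtain ⟨hB0, hB⟩ := lc_B hD
  have hu := (lc_u_pos hD).le
  have h1 := h06 E (D.n + 1) D.T c (D.c / 8) (2 * D.G * u1 D ^ 120) (2 * u1 D ^ 120) Dat.one'
    (α1 D) (fun t => lab D.K (ζ t)) (fun _ _ => 0) f hD.T_pos (by positivity) hB0
    (by positivity) (by linarith) (sa_wt1 D.T) (lc_wt hD) hf hfin (lc_lab_one hD hz)
    (fun i _ => by
      have h0 : Nrm D.T (D.c / 8) 0 Dat.one' (fun _ => (0 : Md → ℂ)) = 0 := by
        unfold Nrm
        simp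
      exact (le_of_eq h0).trans bot_le)
    (fun i hi => by
      simp only [sub_zero]
      exact (sa_nrm_cmono (by linarith) (lc_wt hD).pos _).trans (hz.lab_le i hi))
  have h2 : (fun t => α1 D t * Dat.one' t) = α1 D := by
    funext t
    simp [Dat.one']
  have h3 : (fun t => comp (lab D.K (ζ t)) (f t) - comp (fun _ => (0 : Md → ℂ)) (f t)) =
      fun t => comp (lab D.K (ζ t)) (f t) - f t := by
    funext t
    rw [h10.1]
  rw [h2, h3] at h1
  refine h1.trans (mul_le_mul' (ENNReal.ofReal_le_ofReal ?_) le_rfl)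
  have h4 : D.c / 8 ≤ c - D.c / 8 - 2 * D.G * u1 D ^ 120 := by linarith
  have h5 := lc_inv_c hD
  calc 2 * u1 D ^ 120 / (c - D.c / 8 - 2 * D.G * u1 D ^ 120)
      ≤ 2 * u1 D ^ 120 / (D.c / 8) :=
        div_le_div_of_nonneg_left (by positivity) (by positivity) h4
    _ = 16 * u1 D ^ 120 * (1 / D.c) := by field_simp; ring
    _ ≤ 16 * u1 D ^ 120 * (D.G / 2) := mul_le_mul_of_nonneg_left h5 (by positivity)
    _ = 8 * D.G * u1 D ^ 120 := by ring

end disp

end Pool.Agent.Work.MP_b0497c_an.Unf.L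

end

section

set_option autoImplicit false
set_option linter.dupNamespace false
set_option linter.unusedSectionVars false

/-!
# L22: the table for `F_{n+1}`
-/

open scoped ENNReal
open Set MeasureTheory

namespace Pool.Agent.Work.MP_b0497c_an.Unf.L

open W S

namespace L22

open L10

variable {D : Dat}

/-- `u_{n+1}` is tiny compared with `G`. -/
theorem u1_le (h : D.Hyp) : D.G ^ 100 * u1 D ≤ 1 := by
  have hG := h.G_two
  have hu := h.u_pos
  have hu1 := h.u_lt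
  have hmono : ∀ k, D.m + 1 + k ≤ D.n + 1 → D.u (D.m + 1 + k) ≤ D.u (D.m + 1) := by
    intro k
    induction k with
    | zero => intro _; exact le_rfl
    | succ k ih =>
      intro hk
      have h1 := h.u_step (D.m + 1 + k) (by omega) (by omega)
      have h2 : D.u (D.m + 1 + k) ^ 16 ≤ D.u (D.m + 1 + k) :=
        pow_le_of_le_one (hu _).le (hu1 _).le (by norm_num)
      exact (h1.trans h2).trans (ih (by omega))
  have h3 : D.u (D.n + 1) ≤ D.u (D.m + 1) := by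
    obtain ⟨k, hk⟩ := Nat.exists_eq_add_of_le (show D.m + 1 ≤ D.n + 1 by have := h.hmn; omega)
    rw [hk]
    exact hmono k (by omega)
  have h5 : (D.G ^ 100 * D.u (D.m + 1)) ^ 4 ≤ 1 := by
    rw [mul_pow, ← pow_mul]
    exact h.small
  have h6 : D.G ^ 100 * D.u (D.m + 1) ≤ 1 := by
    by_contra hc
    push Not at hc
    have := one_lt_pow₀ hc (by norm_num : (4 : ℕ) ≠ 0)
    linarith
  calc D.G ^ 100 * u1 D ≤ D.G ^ 100 * D.u (D.m + 1) := by
        unfold u1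
        exact mul_le_mul_of_nonneg_left h3 (by positivity)
    _ ≤ 1 := h6

theorem u1_pos (h : D.Hyp) : 0 < u1 D := h.u_pos _

theorem u1_lt (h : D.Hyp) : u1 D < 1 := h.u_lt _

/-- Powers of `G` are absorbed. -/
theorem Gu_le (h : D.Hyp) {k : ℕ} (hk : k ≤ 100) : D.G ^ k * u1 D ^ 120 ≤ u1 D ^ 119 := by
  have hG : 1 ≤ D.G := by have := h.G_two; linarith
  have hu := u1_pos h
  have h1 : D.G ^ k * u1 D ≤ 1 :=
    (mul_le_mul_of_nonneg_right (pow_le_pow_right₀ hG hk) hu.le).trans (u1_le h)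
  calc D.G ^ k * u1 D ^ 120 = (D.G ^ k * u1 D) * u1 D ^ 119 := by ring
    _ ≤ 1 * u1 D ^ 119 := mul_le_mul_of_nonneg_right h1 (by positivity)
    _ = u1 D ^ 119 := one_mul _

theorem Gu_le32 (h : D.Hyp) {k : ℕ} (hk : k ≤ 100) : D.G ^ k * u1 D ^ 120 ≤ u1 D ^ 32 :=
  (Gu_le h hk).trans (pow_le_pow_of_le_one (u1_pos h).le (u1_lt h).le (by norm_num))

theorem par8 (h : D.Hyp) : Par D.T (D.c / 8) 0 :=
  ⟨h.T_pos, le_rfl, by rw [zero_mul]; have := h.c_pos; positivity⟩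

theorem wtα (h : D.Hyp) : Wt D.T (α1 D) := h.α_wt (D.n + 1) (by have := h.hmn; omega) le_rfl

theorem α_le (h : D.Hyp) : ∀ t ∈ Icc 0 D.T, α1 D t ≤ D.G :=
  h.α_le (D.n + 1) (by have := h.hmn; omega) le_rfl

/-- from the weight `α` to the weight `1` -/
theorem nrm_one {E : Type} [NormedAddCommGroup E] [NormedSpace ℂ E] (h : D.Hyp)
    (f : ℝ → Md → E) : Nrm D.T (D.c / 8) 0 Dat.one' f ≤
      ENNReal.ofReal D.G * Nrm D.T (D.c / 8) 0 (α1 D) f :=
  sa_nrm_wt (par8 h) (wtα h) (sa_wt1 D.T) (by have := h.G_two; linarith)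
    (fun t ht => by rw [mul_one]; exact α_le h t ht) f

theorem lev_mono {n : ℕ} {E : Type} [Zero E] {f : Md → E} (h : SuppIn (lev n : Set Md) f) :
    SuppIn (lev (n + 1) : Set Md) f := fun q hq => h q fun hq' => hq fun i hi => hq' i (by omega)

section lab

variable {K : ℕ → Fin 3 → ℤ}

theorem lab_cm {T : ℝ} {ζ : ℝ → Md → C3} (h : CM T ζ) (i : ℕ) :
    CM T (fun t => lab K (ζ t) i) :=
  sa_cm_map (L := fun v : C3 => innerSL ℂ (kv (K i)) v) (ContinuousLinearMap.continuous _) h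

theorem lab_supp {S : Set Md} {ζ : Md → C3} (h : SuppIn S ζ) (i : ℕ) :
    SuppIn S (lab K ζ i) := fun q hq => by
  rw [lab, h q hq, map_zero]

theorem lab_real {ζ : Md → C3} (h : RealV ζ) (i : ℕ) : RealS (lab K ζ i) := by
  intro q
  have h1 := h q
  simp only [lab, h1, innerSL_apply_apply, PiLp.inner_apply, Fin.sum_univ_three, cjv, kv]
  simp

theorem lab_odd {ζ : Md → C3} (h : OddF ζ) (i : ℕ) : OddF (lab K ζ i) := by
  intro q
  rw [lab, h q, map_neg]
  rfl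

end lab

/-- The displacements of the phases. -/
theorem xh (h : D.Hyp) {w ζ : ℝ → Md → C3} (hL : LabD D w ζ) {t : ℝ} (ht : t ∈ Icc 0 D.T) :
    XH (D.n + 1) (D.c / 8) (2 * D.G * u1 D ^ 120) (lab D.K (ζ t)) where
  c_nn := by have := h.c_pos; positivity
  B_nn := by have := h.G_two; have := u1_pos h; positivity
  le i hi := by
    have h1 := sa_static (γ := 0) (c := D.c / 8) (sa_wt1 D.T) (fun t => lab D.K (ζ t) i) ht
    rw [zero_mul, sub_zero, ENNReal.ofReal_one, one_mul] at h1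
    exact h1.trans ((sa_nrm_cmono (by have := h.c_pos; linarith) (fun _ _ => one_pos) _).trans
      (hL.lab_le' i hi))
  supp i _ := lab_supp (hL.supp t ht) i
  real i _ := lab_real (hL.odd t ht).1 i

theorem B_le (h : D.Hyp) : 8 * (2 * D.G * u1 D ^ 120) ≤ D.c := by
  have hG := h.G_two
  have hu := u1_pos h
  have h1 : D.G ^ 5 * u1 D ^ 120 ≤ 1 :=
    (Gu_le h (by norm_num)).trans (pow_le_one₀ hu.le (u1_lt h).le)
  have hc := h.c_G
  have h2 : 16 * D.G * u1 D ^ 120 * D.G ≤ 2 := by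
    have h3 : 16 * D.G * D.G ≤ 2 * D.G ^ 5 := by
      have h4 : (2:ℝ) ^ 3 ≤ D.G ^ 3 := pow_le_pow_left₀ (by norm_num) hG 3
      nlinarith [mul_pos (show (0:ℝ) < D.G by linarith) (show (0:ℝ) < D.G by linarith)]
    calc 16 * D.G * u1 D ^ 120 * D.G = (16 * D.G * D.G) * u1 D ^ 120 := by ring
      _ ≤ (2 * D.G ^ 5) * u1 D ^ 120 := mul_le_mul_of_nonneg_right h3 (by positivity)
      _ = 2 * (D.G ^ 5 * u1 D ^ 120) := by ring
      _ ≤ 2 := by linarith
  have h5 : (8 * (2 * D.G * u1 D ^ 120)) * D.G ≤ D.c * D.G := by nlinarith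
  exact le_of_mul_le_mul_right h5 (by linarith)

/-- Everything about `f ∘ M` for `f` of level `n`. -/
theorem comp_facts (h05 : L05) (h06 : L06) (h10 : L10) (h : D.Hyp) {w ζ : ℝ → Md → C3}
    (hL : LabD D w ζ) {f : ℝ → Md → Mat} (hcm : CM D.T f)
    (hs : SuppT D.T (lev D.n : Set Md) f)
    (hf : Nrm D.T D.c 0 Dat.one' f ≤ ENNReal.ofReal D.G)
    (hev : ∀ t ∈ Icc 0 D.T, A.EvenM (f t)) :
    CM D.T (fun t => comp (lab D.K (ζ t)) (f t)) ∧
    SuppT D.T (lev (D.n + 1) : Set Md) (fun t => comp (lab D.K (ζ t)) (f t)) ∧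
    (∀ t ∈ Icc 0 D.T, A.EvenM (comp (lab D.K (ζ t)) (f t))) ∧
    Nrm D.T (D.c / 8) 0 Dat.one' (fun t => comp (lab D.K (ζ t)) (f t)) ≤
      ENNReal.ofReal D.G ∧
    Nrm D.T (D.c / 8) 0 (α1 D) (fun t => comp (lab D.K (ζ t)) (f t) - f t) ≤
      ENNReal.ofReal (2 * D.G ^ 2 * u1 D ^ 120) := by
  have hc := h.c_pos
  have hG := h.G_two
  have hu := u1_pos h
  have hB := B_le h
  have hB0 : 0 ≤ 2 * D.G * u1 D ^ 120 := by positivity
  have hs' : SuppT D.T (lev (D.n + 1) : Set Md) f := fun t ht => lev_mono (hs t ht)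
  have hlab : ∀ i ≤ D.n + 1, Nrm D.T (D.c / 8) 0 Dat.one' (fun t => lab D.K (ζ t) i) ≤
      ENNReal.ofReal (2 * D.G * u1 D ^ 120) := fun i hi =>
    (sa_nrm_cmono (by linarith) (fun _ _ => one_pos) _).trans (hL.lab_le' i hi)
  have hfin : Nrm D.T D.c 0 Dat.one' f ≠ ∞ := ne_top_of_le_ne_top ENNReal.ofReal_ne_top hf
  obtain ⟨g1, g2, g3⟩ := h05 Mat (D.n + 1) D.T D.c (D.c / 8) (2 * D.G * u1 D ^ 120) Dat.one'
    (fun t => lab D.K (ζ t)) f h.T_pos (by positivity) hB0 (by linarith) (sa_wt1 D.T) hs' hlab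
  refine ⟨g2 hcm (fun i _ => lab_cm hL.cm i) hfin, g3 fun i _ t ht => lab_supp (hL.supp t ht) i,
    fun t ht => ?_, g1.trans hf, ?_⟩
  · have hsf : sN D.c (f t) ≠ ∞ := sa_static_c (sa_wt1 D.T) hfin ht
    exact ((h10.2 (D.n + 1) D.c (D.c / 8) (2 * D.G * u1 D ^ 120) (lab D.K (ζ t)) (xh h hL ht)
      (by linarith)).2.2.2.2.1 (f t) (hs' t ht) hsf).2
      (fun i _ => lab_odd (hL.odd t ht).2 i) (hev t ht)
  · have h2 := h06 Mat (D.n + 1) D.T D.c (D.c / 8) (2 * D.G * u1 D ^ 120) (2 * u1 D ^ 120)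
      Dat.one' (α1 D) (fun t => lab D.K (ζ t)) (fun _ _ => 0) f h.T_pos (by positivity) hB0
      (by positivity) (by linarith) (sa_wt1 D.T) (wtα h) hs' hfin hlab (fun i _ => by
        have : Nrm D.T (D.c / 8) 0 Dat.one' (fun (_ : ℝ) (_ : Md) => (0 : ℂ)) = 0 := by
          simp [Nrm]
        rw [show (fun t : ℝ => (fun (_ : ℝ) (_ : ℕ) => (0 : Md → ℂ)) t i) =
          (fun (_ : ℝ) (_ : Md) => (0 : ℂ)) from rfl, this]
        exact zero_le) (fun i hi => by
        have : (fun t => lab D.K (ζ t) i - (fun (_ : ℝ) (_ : ℕ) => (0 : Md → ℂ)) t i) =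
            fun t => lab D.K (ζ t) i := by
          funext t
          simp
        rw [this]
        exact (sa_nrm_cmono (by linarith) (wtα h).pos _).trans (hL.lab_le i hi))
    have e1 : (fun t => α1 D t * Dat.one' t) = α1 D := by
      funext t
      simp [Dat.one']
    have e2 : (fun t => comp (lab D.K (ζ t)) (f t) - comp ((fun (_ : ℝ) (_ : ℕ) =>
        (0 : Md → ℂ)) t) (f t)) = fun t => comp (lab D.K (ζ t)) (f t) - f t := by
      funext t
      rw [show ((fun (_ : ℝ) (_ : ℕ) => (0 : Md → ℂ)) t) = (fun _ : ℕ => (0 : Md → ℂ)) from rfl,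
        h10.1 Mat (f t)]
    rw [e1, e2] at h2
    refine h2.trans ((mul_le_mul_right hf _).trans ?_)
    rw [← ENNReal.ofReal_mul (by
      have : 0 ≤ D.c - D.c / 8 - 2 * D.G * u1 D ^ 120 := by linarith
      positivity)]
    refine ENNReal.ofReal_le_ofReal ?_
    have h3 : 0 < D.c / 2 := by positivity
    have h4 : D.c / 2 ≤ D.c - D.c / 8 - 2 * D.G * u1 D ^ 120 := by linarith
    have h5 : 2 * u1 D ^ 120 / (D.c - D.c / 8 - 2 * D.G * u1 D ^ 120) ≤
        2 * u1 D ^ 120 / (D.c / 2) := by gcongr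
    have h6 : 2 * u1 D ^ 120 / (D.c / 2) ≤ 2 * D.G * u1 D ^ 120 := by
      rw [div_le_iff₀ h3]
      have := h.c_G
      have h7 : 0 < u1 D ^ 120 := by positivity
      nlinarith
    calc 2 * u1 D ^ 120 / (D.c - D.c / 8 - 2 * D.G * u1 D ^ 120) * D.G
        ≤ (2 * D.G * u1 D ^ 120) * D.G := by
          exact mul_le_mul_of_nonneg_right (h5.trans h6) (by linarith)
      _ = 2 * D.G ^ 2 * u1 D ^ 120 := by ring

/-- Products of real even matrix functions. -/
theorem even_mm (h09 : L09) {n : ℕ} {a b : Md → Mat} (hsa : SuppIn (lev n : Set Md) a)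
    (hsb : SuppIn (lev n : Set Md) b) (ha : sN 0 a ≠ ∞) (hb : sN 0 b ≠ ∞) (ea : A.EvenM a)
    (eb : A.EvenM b) : A.EvenM (mm a b) := by
  refine ⟨(h09.2.2.1 n (mm a b) (supp_mm hsa hsb) (fin_mm le_rfl ha hb)).2 fun θ v => ?_, ?_⟩
  · rw [ev_mm θ (summable_fin0 le_rfl ha) (summable_fin0 le_rfl hb),
      ContinuousLinearMap.comp_apply, ContinuousLinearMap.comp_apply,
      (h09.2.2.1 n b hsb hb).1 eb.1 θ v, (h09.2.2.1 n a hsa ha).1 ea.1]
  · intro q
    show (∑' l, ContinuousLinearMap.compL ℂ C3 C3 C3 (a (-q - l)) (b l)) =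
      ∑' l, ContinuousLinearMap.compL ℂ C3 C3 C3 (a (q - l)) (b l)
    rw [← (Equiv.neg Md).tsum_eq]
    refine tsum_congr fun l => ?_
    have h1 : -q - -l = -(q - l) := by abel
    rw [Equiv.neg_apply, h1, ea.2, eb.2]

theorem mm_sub_left {a a' b : Md → Mat} (ha : sN 0 a ≠ ∞) (ha' : sN 0 a' ≠ ∞)
    (hb : sN 0 b ≠ ∞) : mm (a - a') b = mm a b - mm a' b := by
  funext q
  have hS : ∀ {x y : Md → Mat}, sN 0 x ≠ ∞ → sN 0 y ≠ ∞ →
      Summable fun l => (x (q - l)).comp (y l) := by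
    intro x y hx hy
    have h1 := summable_fin0 le_rfl hx
    have h2 := summable_fin0 le_rfl hy
    refine Summable.of_norm_bounded (g := fun l => (∑' p, ‖x p‖) * ‖y l‖) (h2.mul_left _)
      fun l => ?_
    refine (ContinuousLinearMap.opNorm_comp_le _ _).trans ?_
    exact mul_le_mul_of_nonneg_right (h1.le_tsum _ fun _ _ => norm_nonneg _) (norm_nonneg _)
  show (∑' l, ((a - a') (q - l)).comp (b l)) = (∑' l, (a (q - l)).comp (b l)) -
    ∑' l, (a' (q - l)).comp (b l)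
  rw [← (hS ha hb).tsum_sub (hS ha' hb)]
  refine tsum_congr fun l => ?_
  rw [Pi.sub_apply, ContinuousLinearMap.sub_comp]

theorem mm_sub_right {a b b' : Md → Mat} (ha : sN 0 a ≠ ∞) (hb : sN 0 b ≠ ∞)
    (hb' : sN 0 b' ≠ ∞) : mm a (b - b') = mm a b - mm a b' := by
  funext q
  have hS : ∀ {x y : Md → Mat}, sN 0 x ≠ ∞ → sN 0 y ≠ ∞ →
      Summable fun l => (x (q - l)).comp (y l) := by
    intro x y hx hy
    have h1 := summable_fin0 le_rfl hx
    have h2 := summable_fin0 le_rfl hy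
    refine Summable.of_norm_bounded (g := fun l => (∑' p, ‖x p‖) * ‖y l‖) (h2.mul_left _)
      fun l => ?_
    refine (ContinuousLinearMap.opNorm_comp_le _ _).trans ?_
    exact mul_le_mul_of_nonneg_right (h1.le_tsum _ fun _ _ => norm_nonneg _) (norm_nonneg _)
  show (∑' l, (a (q - l)).comp ((b - b') l)) = (∑' l, (a (q - l)).comp (b l)) -
    ∑' l, (a (q - l)).comp (b' l)
  rw [← (hS ha hb).tsum_sub (hS ha hb')]
  refine tsum_congr fun l => ?_
  rw [Pi.sub_apply, ContinuousLinearMap.comp_sub]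

end L22

open L10 L22

/-- **L22.** -/
theorem l22 (h05 : L05) (h06 : L06) (h09 : L09) (h10 : L10) (h21 : L21) : L22 := by
  intro D X U a p w0 w ζ Li h hv hW hL hLi
  have hc := h.c_pos
  have hG := h.G_two
  have hu := u1_pos h
  have hG1 : 1 ≤ D.G := by linarith
  have hP := par8 h
  have hn0 : D.m ≤ D.n := h.hmn
  obtain ⟨⟨l1, l2, l3, l4⟩, ⟨z1c, z1s, z1r, z1o, z1n⟩, l5, -⟩ := h21 D X U a p w0 w ζ h hv hW hL
  obtain ⟨f1, f2, f3, f4, f5⟩ := comp_facts h05 h06 h10 h hL (h.F_cm D.n hn0 le_rfl).1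
    (h.F_supp D.n hn0 le_rfl).1 (h.F_le D.n hn0 le_rfl).1 hv.F_even
  obtain ⟨i1, i2, i3, i4, i5⟩ := comp_facts h05 h06 h10 h hL (h.F_cm D.n hn0 le_rfl).2.1
    (h.F_supp D.n hn0 le_rfl).2.1 (h.F_le D.n hn0 le_rfl).2.1 hv.Fi_even
  have hF8 : Nrm D.T (D.c / 8) 0 Dat.one' (D.F D.n) ≤ ENNReal.ofReal D.G :=
    (sa_nrm_cmono (by linarith) (fun _ _ => one_pos) _).trans (h.F_le D.n hn0 le_rfl).1
  have hFi8 : Nrm D.T (D.c / 8) 0 Dat.one' (D.Fi D.n) ≤ ENNReal.ofReal D.G :=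
    (sa_nrm_cmono (by linarith) (fun _ _ => one_pos) _).trans (h.F_le D.n hn0 le_rfl).2.1
  have fin1 : ∀ {f : ℝ → Md → Mat} {r : ℝ}, Nrm D.T (D.c / 8) 0 Dat.one' f ≤ ENNReal.ofReal r →
      Nrm D.T (D.c / 8) 0 (fun _ => 1) f ≠ ∞ := fun hf => sa_fin0 hf
  have st0 : ∀ {f : ℝ → Md → Mat} {r : ℝ}, Nrm D.T (D.c / 8) 0 Dat.one' f ≤ ENNReal.ofReal r →
      ∀ t ∈ Icc 0 D.T, sN 0 (f t) ≠ ∞ := fun hf t ht => sa_static0 hP (sa_wt1 D.T) (fin1 hf) ht
  -- bound of `1 - z Kᵀ`, `1 + z Kᵀ`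
  have hN : 0 < N1 D := lt_of_lt_of_le one_pos (h.N_pos (D.n + 1) le_rfl)
  have hz1 : ENNReal.ofReal ‖K1 D‖ * Nrm D.T (D.c / 8) 0 Dat.one' (z1 D ζ) ≤
      ENNReal.ofReal (D.G ^ 9) := by
    refine (mul_le_mul_right ((nrm_one h _).trans (mul_le_mul_right z1n _)) _).trans ?_
    rw [← ENNReal.ofReal_mul (by linarith), ← ENNReal.ofReal_mul (norm_nonneg _)]
    refine ENNReal.ofReal_le_ofReal (le_of_eq ?_)
    have : ‖K1 D‖ = N1 D := rfl
    rw [this]
    field_simp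
  have hsh := sa_N_sh hP (K1 D) (z1 D ζ)
  have hG9 : (1 : ℝ≥0∞) + ENNReal.ofReal (D.G ^ 9) ≤ ENNReal.ofReal (D.G ^ 10) := by
    rw [← ENNReal.ofReal_one, ← ENNReal.ofReal_add zero_le_one (by positivity)]
    refine ENNReal.ofReal_le_ofReal ?_
    have : 1 ≤ D.G ^ 9 := one_le_pow₀ hG1
    calc 1 + D.G ^ 9 ≤ D.G ^ 9 * 2 := by linarith
      _ ≤ D.G ^ 9 * D.G := by gcongr
      _ = D.G ^ 10 := by ring
  have hshP : Nrm D.T (D.c / 8) 0 Dat.one' (fun t => shP (z1 D ζ t) (K1 D)) ≤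
      ENNReal.ofReal (D.G ^ 10) := hsh.1.trans ((add_le_add_right hz1 1).trans hG9)
  have hshM : Nrm D.T (D.c / 8) 0 Dat.one' (fun t => shM (z1 D ζ t) (K1 D)) ≤
      ENNReal.ofReal (D.G ^ 10) := hsh.2.trans ((add_le_add_right hz1 1).trans hG9)
  -- products in the weight `α`
  have prodL : ∀ {x y : ℝ → Md → Mat} {r s : ℝ}, 0 ≤ r →
      Nrm D.T (D.c / 8) 0 (α1 D) x ≤ ENNReal.ofReal r →
      Nrm D.T (D.c / 8) 0 Dat.one' y ≤ ENNReal.ofReal s →
      Nrm D.T (D.c / 8) 0 (α1 D) (fun t => mm (x t) (y t)) ≤ ENNReal.ofReal (r * s) := by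
    intro x y r s hr hx hy
    have h1 := sa_nrm_mm hP (wtα h) (sa_wt1 D.T) x y
    simp only [mul_one] at h1
    rw [ENNReal.ofReal_mul hr]
    exact h1.trans (mul_le_mul' hx hy)
  have prodR : ∀ {x y : ℝ → Md → Mat} {r s : ℝ}, 0 ≤ r →
      Nrm D.T (D.c / 8) 0 Dat.one' x ≤ ENNReal.ofReal r →
      Nrm D.T (D.c / 8) 0 (α1 D) y ≤ ENNReal.ofReal s →
      Nrm D.T (D.c / 8) 0 (α1 D) (fun t => mm (x t) (y t)) ≤ ENNReal.ofReal (r * s) := by
    intro x y r s hr hx hy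
    have h1 := sa_nrm_mm hP (sa_wt1 D.T) (wtα h) x y
    simp only [one_mul] at h1
    rw [ENNReal.ofReal_mul hr]
    exact h1.trans (mul_le_mul' hx hy)
  have prod1 : ∀ {x y : ℝ → Md → Mat} {r s : ℝ}, 0 ≤ r →
      Nrm D.T (D.c / 8) 0 Dat.one' x ≤ ENNReal.ofReal r →
      Nrm D.T (D.c / 8) 0 Dat.one' y ≤ ENNReal.ofReal s →
      Nrm D.T (D.c / 8) 0 Dat.one' (fun t => mm (x t) (y t)) ≤ ENNReal.ofReal (r * s) := by
    intro x y r s hr hx hy
    have h1 := sa_nrm_mm1 hP x y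
    rw [ENNReal.ofReal_mul hr]
    exact h1.trans (mul_le_mul' hx hy)
  have hpow : ∀ {k : ℕ}, k ≤ 20 → ENNReal.ofReal (D.G ^ k) ≤ ENNReal.ofReal (D.G ^ 20) :=
    fun hk => ENNReal.ofReal_le_ofReal (pow_le_pow_right₀ hG1 hk)
  refine ⟨⟨?_, ?_, ?_, ?_⟩, ⟨?_, ?_, ?_, ?_⟩, ?_, ?_⟩
  · exact sa_cm_mm hP f1 l1 (fin1 f4) (fin1 l4)
  · exact fun t ht => supp_mm (f2 t ht) (l2 t ht)
  · exact fun t ht => even_mm h09 (f2 t ht) (l2 t ht) (st0 f4 t ht) (st0 l4 t ht) (f3 t ht)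
      (l3 t ht)
  · refine (prod1 (by linarith) f4 l4).trans ?_
    rw [show D.G * D.G ^ 10 = D.G ^ 11 by ring]
    exact hpow (by norm_num)
  · exact sa_cm_mm hP hLi.cm i1 (fin1 hLi.le) (fin1 i4)
  · exact fun t ht => supp_mm (hLi.supp t ht) (i2 t ht)
  · exact fun t ht => even_mm h09 (hLi.supp t ht) (i2 t ht) (st0 hLi.le t ht) (st0 i4 t ht)
      (hLi.even t ht) (i3 t ht)
  · refine (prod1 (by positivity) hLi.le i4).trans ?_
    rw [show D.G ^ 12 * D.G = D.G ^ 13 by ring]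
    exact hpow (by norm_num)
  · have e1 : Nrm D.T (D.c / 8) 0 (α1 D) (fun t => F1 D ζ t -
        mm (D.F D.n t) (shP (z1 D ζ t) (K1 D))) = Nrm D.T (D.c / 8) 0 (α1 D)
        (fun t => mm (comp (lab D.K (ζ t)) (D.F D.n t) - D.F D.n t) (Lm D ζ t) +
          mm (D.F D.n t) (Lm D ζ t - shP (z1 D ζ t) (K1 D))) := by
      refine sa_nrm_congr (fun t ht => ?_) fun _ _ => rfl
      rw [mm_sub_left (st0 f4 t ht) (st0 hF8 t ht) (st0 l4 t ht),
        mm_sub_right (st0 hF8 t ht) (st0 l4 t ht) (st0 hshP t ht), F1]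
      abel
    rw [e1]
    refine (sa_nrm_add hP (wtα h) _ _).trans ((add_le_add (prodL (by positivity) f5 l4)
      (prodR (by linarith) hF8 l5)).trans ?_)
    rw [← ENNReal.ofReal_add (by positivity) (by positivity)]
    refine ENNReal.ofReal_le_ofReal (le_trans ?_ (Gu_le32 h (k := 14) (by norm_num)))
    have h7 : D.G * D.G ^ 5 ≤ D.G ^ 12 := by
      rw [show D.G * D.G ^ 5 = D.G ^ 6 by ring]
      exact pow_le_pow_right₀ hG1 (by norm_num)
    have h8 : 3 * D.G ^ 12 ≤ D.G ^ 14 := by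
      have : 3 ≤ D.G ^ 2 := by nlinarith
      calc 3 * D.G ^ 12 ≤ D.G ^ 2 * D.G ^ 12 := by gcongr
        _ = D.G ^ 14 := by ring
    calc 2 * D.G ^ 2 * u1 D ^ 120 * D.G ^ 10 + D.G * (D.G ^ 5 * u1 D ^ 120)
        = (2 * D.G ^ 12 + D.G * D.G ^ 5) * u1 D ^ 120 := by ring
      _ ≤ (3 * D.G ^ 12) * u1 D ^ 120 := by
        refine mul_le_mul_of_nonneg_right ?_ (by positivity)
        linarith
      _ ≤ D.G ^ 14 * u1 D ^ 120 := mul_le_mul_of_nonneg_right h8 (by positivity)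
  · have e1 : Nrm D.T (D.c / 8) 0 (α1 D) (fun t => Fi1 D ζ Li t -
        mm (shM (z1 D ζ t) (K1 D)) (D.Fi D.n t)) = Nrm D.T (D.c / 8) 0 (α1 D)
        (fun t => mm (Li t - shM (z1 D ζ t) (K1 D)) (comp (lab D.K (ζ t)) (D.Fi D.n t)) +
          mm (shM (z1 D ζ t) (K1 D)) (comp (lab D.K (ζ t)) (D.Fi D.n t) - D.Fi D.n t)) := by
      refine sa_nrm_congr (fun t ht => ?_) fun _ _ => rfl
      rw [mm_sub_left (st0 hLi.le t ht) (st0 hshM t ht) (st0 i4 t ht),
        mm_sub_right (st0 hshM t ht) (st0 i4 t ht) (st0 hFi8 t ht), Fi1]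
      abel
    rw [e1]
    refine (sa_nrm_add hP (wtα h) _ _).trans ((add_le_add (prodL (by positivity) hLi.dif i4)
      (prodR (by positivity) hshM i5)).trans ?_)
    rw [← ENNReal.ofReal_add (by positivity) (by positivity)]
    refine ENNReal.ofReal_le_ofReal (le_trans ?_ (Gu_le32 h (k := 33) (by norm_num)))
    have h7 : 2 * D.G ^ 12 ≤ 2 * D.G ^ 31 := by
      have := pow_le_pow_right₀ hG1 (show 12 ≤ 31 by norm_num)
      linarith
    have h8 : 3 * D.G ^ 31 ≤ D.G ^ 33 := by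
      have : 3 ≤ D.G ^ 2 := by nlinarith
      calc 3 * D.G ^ 31 ≤ D.G ^ 2 * D.G ^ 31 := by gcongr
        _ = D.G ^ 33 := by ring
    calc D.G ^ 30 * u1 D ^ 120 * D.G + D.G ^ 10 * (2 * D.G ^ 2 * u1 D ^ 120)
        = (D.G ^ 31 + 2 * D.G ^ 12) * u1 D ^ 120 := by ring
      _ ≤ (3 * D.G ^ 31) * u1 D ^ 120 := by
        refine mul_le_mul_of_nonneg_right ?_ (by positivity)
        linarith
      _ ≤ D.G ^ 33 * u1 D ^ 120 := mul_le_mul_of_nonneg_right h8 (by positivity)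

end Pool.Agent.Work.MP_b0497c_an.Unf.L

end

section

set_option autoImplicit false
set_option linter.dupNamespace false
set_option linter.unusedSectionVars false

/-!
# L23: the table for `M_{n+1}` (helper90)
-/

open scoped ENNReal
open Set MeasureTheory

namespace Pool.Agent.Work.MP_b0497c_an.Unf.L

open W S

namespace L23p

open L20p

theorem summ {a b : Md → Mat} (ha : sN 0 a ≠ ∞) (hb : sN 0 b ≠ ∞) (q : Md) :
    Summable fun l => (ContinuousLinearMap.compL ℂ C3 C3 C3) (a (q - l)) (b l) := by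
  have h1 := lc_summable hb
  have h2 := lc_summable ha
  refine Summable.of_norm_bounded (g := fun l => (∑' p, ‖a p‖) * ‖b l‖) (h1.mul_left _)
    fun l => ?_
  refine (ContinuousLinearMap.opNorm_comp_le _ _).trans ?_
  exact mul_le_mul_of_nonneg_right (h2.le_tsum (q - l) fun _ _ => norm_nonneg _)
    (norm_nonneg _)

theorem mm_subL {a a' b : Md → Mat} (ha : sN 0 a ≠ ∞) (ha' : sN 0 a' ≠ ∞) (hb : sN 0 b ≠ ∞) :
    mm (a - a') b = mm a b - mm a' b := by
  funext q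
  simp only [mm, conv, Pi.sub_apply, map_sub, _root_.sub_apply]
  exact (summ ha hb q).tsum_sub (summ ha' hb q)

/-- The matrix `x ↦ (k · x) a`. -/
noncomputable def ot (k : C3) (a : Md → C3) (q : Md) : Mat := (innerSL ℂ k).smulRight (a q)

theorem mm_ts (k : C3) (a : Md → C3) (Fi : Md → Mat) :
    mm (tsF a) (rwF k Fi) = mm (ot k a) Fi := by
  funext q
  unfold mm conv
  refine tsum_congr fun l => ?_
  refine ContinuousLinearMap.ext fun v => ?_
  simp [tsF, rwF, ot, ts]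

theorem ot_norm (k : C3) (a : Md → C3) (q : Md) : ‖ot k a q‖ = ‖k‖ * ‖a q‖ := by
  unfold ot
  rw [ContinuousLinearMap.norm_smulRight_apply, innerSL_apply_norm]

theorem dj_norm (j : ℕ) (f : Md → C3) (q : Md) : ‖dj j f q‖ ≤ len q * ‖f q‖ := by
  unfold dj
  rw [norm_smul, norm_mul, Complex.norm_I, one_mul]
  exact mul_le_mul_of_nonneg_right ((s01 (fun _ _ => 0)).2.1 q j) (norm_nonneg _)

/-- the part of the gradient without the phase `θ j` -/
noncomputable def gp (K : ℕ → Fin 3 → ℤ) (j : ℕ) (f : Md → C3) (q : Md) : Mat :=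
  Complex.I • (innerSL ℂ (xi' K j q)).smulRight (f q)

theorem gp_norm (K : ℕ → Fin 3 → ℤ) (j : ℕ) (f : Md → C3) (q : Md) :
    ‖gp K j f q‖ = ‖xi' K j q‖ * ‖f q‖ := by
  unfold gp
  rw [norm_smul, Complex.norm_I, one_mul, ContinuousLinearMap.norm_smulRight_apply,
    innerSL_apply_norm]

theorem gradV_norm (K : ℕ → Fin 3 → ℤ) (f : Md → C3) (q : Md) :
    ‖gradV K f q‖ = ‖xi K q‖ * ‖f q‖ := by
  unfold gradV
  rw [norm_smul, Complex.norm_I, one_mul, ContinuousLinearMap.norm_smulRight_apply,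
    innerSL_apply_norm]

theorem gradV_split (K : ℕ → Fin 3 → ℤ) (j : ℕ) (f : Md → C3) :
    gradV K f = ot (kv (K j)) (dj j f) + gp K j f := by
  funext q
  refine ContinuousLinearMap.ext fun v => ?_
  have h1 : xi K q = (q j : ℂ) • kv (K j) + xi' K j q := by
    unfold xi'
    abel
  have h2 : inner ℂ (xi K q) v = (q j : ℂ) * inner ℂ (kv (K j)) v + inner ℂ (xi' K j q) v := by
    rw [h1, inner_add_left, inner_smul_left]
    simp
  rw [Pi.add_apply]
  simp only [gradV, ot, gp, dj, _root_.add_apply, _root_.smul_apply,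
    ContinuousLinearMap.smulRight_apply, innerSL_apply_apply, h2]
  rw [smul_smul, smul_smul, smul_smul, ← add_smul]
  congr 1
  ring

theorem gradV_add (K : ℕ → Fin 3 → ℤ) (f g : Md → C3) :
    gradV K (f + g) = gradV K f + gradV K g := by
  funext q
  refine ContinuousLinearMap.ext fun v => ?_
  simp only [gradV, Pi.add_apply, _root_.add_apply, _root_.smul_apply,
    ContinuousLinearMap.smulRight_apply, smul_add]

theorem ot_dj_sub (k : C3) (j : ℕ) (f g : Md → C3) :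
    ot k (dj j f) - ot k (dj j g) = ot k (dj j (f - g)) := by
  funext q
  refine ContinuousLinearMap.ext fun v => ?_
  simp only [ot, dj, Pi.sub_apply, _root_.sub_apply,
    ContinuousLinearMap.smulRight_apply, smul_sub]

section est

variable {D : Dat} {w0 : Md → C3} {w : ℝ → Md → C3}

/-- `grad w - a ⊗ K` in pieces -/
theorem pieces (hw : WIn D w0 w) {t : ℝ} (ht : t ∈ Icc 0 D.T) :
    gradV D.K (w t) - ot (K1 D) (a1 D w0 t) =
      ot (K1 D) (dj (D.n + 1) (res (Cl (D.n + 1)) (w t) - lw D w0 t)) +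
        (gp D.K (D.n + 1) (res (Cl (D.n + 1)) (w t)) +
          gradV D.K (res (lev D.n : Set Md) (w t))) := by
  have h1 : gradV D.K (w t) = gradV D.K (res (Cl (D.n + 1)) (w t)) +
      gradV D.K (res (lev D.n : Set Md) (w t)) := by
    rw [← gradV_add, ← res_split (hw.supp t ht)]
  have h2 : gradV D.K (res (Cl (D.n + 1)) (w t)) =
      ot (K1 D) (dj (D.n + 1) (res (Cl (D.n + 1)) (w t))) +
      gp D.K (D.n + 1) (res (Cl (D.n + 1)) (w t)) := gradV_split D.K (D.n + 1) _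
  rw [h1, h2, ← ot_dj_sub]
  unfold a1
  abel

/-- `grad w - a ⊗ K` is small. -/
theorem small (hD : D.Hyp) (hw : WIn D w0 w) :
    Nrm D.T (3 * D.c / 8) 0 (α1 D) (fun t => gradV D.K (w t) - ot (K1 D) (a1 D w0 t)) ≤
      ENNReal.ofReal (12 * D.G * u1 D ^ 64) := by
  have hc := hD.c_pos
  have hP : Par D.T (3 * D.c / 8) 0 := lc_par hD.T_pos (by positivity)
  have hα := lc_wt hD
  have hN := lc_N1_pos hD
  have hNn : 0 < D.N D.n := Nn_pos hD
  have hG0 : 0 < D.G := by linarith [hD.G_two]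
  have hu := lc_u_pos hD
  have hlt : 3 * D.c / 8 < D.c / 2 := by linarith
  have e8 : D.c / 2 - 3 * D.c / 8 = D.c / 8 := by ring
  rw [sa_nrm_congr (T := D.T) (c := 3 * D.c / 8) (γ := 0) (ρ := α1 D) (ρ' := α1 D)
    (fun t ht => pieces hw ht) fun _ _ => rfl]
  have g1 : Nrm D.T (3 * D.c / 8) 0 (α1 D) (fun t => ot (K1 D) (dj (D.n + 1)
      (res (Cl (D.n + 1)) (w t) - lw D w0 t))) ≤
      ENNReal.ofReal (N1 D / (D.c / 2 - 3 * D.c / 8)) * ENNReal.ofReal (u1 D ^ 64 / N1 D) := by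
    refine (sa_len_fin (f := fun t => res (Cl (D.n + 1)) (w t) - lw D w0 t) hlt hα.pos hN.le
      fun t _ q => ?_).trans (mul_le_mul' le_rfl hw.w_dif)
    rw [ot_norm, mul_assoc]
    exact mul_le_mul_of_nonneg_left (dj_norm _ _ _) (norm_nonneg _)
  have g2 : Nrm D.T (3 * D.c / 8) 0 (α1 D) (fun t => gp D.K (D.n + 1)
      (res (Cl (D.n + 1)) (w t))) ≤
      ENNReal.ofReal (D.N D.n / (D.c / 2 - 3 * D.c / 8)) * ENNReal.ofReal (D.G ^ 3 / N1 D) := by
    refine (sa_len_fin (f := fun t => res (Cl (D.n + 1)) (w t)) hlt hα.pos hNn.le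
      fun t _ q => ?_).trans (mul_le_mul' le_rfl hw.w_le)
    rw [gp_norm]
    by_cases hq : q ∈ Cl (D.n + 1)
    · exact mul_le_mul_of_nonneg_right ((s01 D.K).2.2.2.1 q (D.n + 1) (D.N D.n) hq.1
        (fun i hi => K_low hD (by omega)) hNn.le) (norm_nonneg _)
    · rw [supp_res (S := Cl (D.n + 1)) (w t) q hq]
      simp
  have g3 : Nrm D.T (3 * D.c / 8) 0 (α1 D) (fun t => gradV D.K
      (res (lev D.n : Set Md) (w t))) ≤
      ENNReal.ofReal (D.N D.n / (D.c / 2 - 3 * D.c / 8)) *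
        ENNReal.ofReal (u1 D ^ 256 / N1 D) := by
    refine (sa_len_fin (f := fun t => res (lev D.n : Set Md) (w t)) hlt hα.pos hNn.le
      fun t _ q => ?_).trans (mul_le_mul' le_rfl hw.w_low)
    rw [gradV_norm]
    by_cases hq : q ∈ (lev D.n : Set Md)
    · exact mul_le_mul_of_nonneg_right ((s01 D.K).2.2.1 q D.n (D.N D.n) hq
        (fun i hi => K_low hD hi)) (norm_nonneg _)
    · rw [supp_res (S := (lev D.n : Set Md)) (w t) q hq]
      simp
  refine (sa_nrm_add hP hα _ _).trans ((add_le_add g1 ((sa_nrm_add hP hα _ _).trans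
    (add_le_add g2 g3))).trans ?_)
  rw [e8, ← ENNReal.ofReal_mul (by positivity), ← ENNReal.ofReal_mul (by positivity),
    ← ENNReal.ofReal_mul (by positivity), ← ENNReal.ofReal_add (by positivity) (by positivity),
    ← ENNReal.ofReal_add (by positivity) (by positivity)]
  refine ENNReal.ofReal_le_ofReal ?_
  have hr := N_ratio hD
  have i1 : N1 D / (D.c / 8) * (u1 D ^ 64 / N1 D) = 8 * (1 / D.c) * u1 D ^ 64 := by
    field_simp
  have hr' : D.N D.n / N1 D ≤ u1 D ^ 512 := (div_le_iff₀ hN).2 hr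
  have i2 : D.N D.n / (D.c / 8) * (D.G ^ 3 / N1 D) ≤ 8 * (1 / D.c) * (D.G ^ 3 * u1 D ^ 512) := by
    have : D.N D.n / (D.c / 8) * (D.G ^ 3 / N1 D) =
        8 * (1 / D.c) * (D.G ^ 3 * (D.N D.n / N1 D)) := by field_simp
    rw [this]
    gcongr
  have i3 : D.N D.n / (D.c / 8) * (u1 D ^ 256 / N1 D) ≤
      8 * (1 / D.c) * (u1 D ^ 256 * u1 D ^ 512) := by
    have : D.N D.n / (D.c / 8) * (u1 D ^ 256 / N1 D) =
        8 * (1 / D.c) * (u1 D ^ 256 * (D.N D.n / N1 D)) := by field_simp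
    rw [this]
    gcongr
  have j2 : D.G ^ 3 * u1 D ^ 512 ≤ u1 D ^ 64 := lc_gu hD (by norm_num) (by norm_num)
  have j3 : u1 D ^ 256 * u1 D ^ 512 ≤ u1 D ^ 64 := by
    rw [← pow_add]
    exact pow_le_pow_of_le_one hu.le (lc_u_lt hD).le (by norm_num)
  have hc1 : 0 < 1 / D.c := by positivity
  calc N1 D / (D.c / 8) * (u1 D ^ 64 / N1 D) + (D.N D.n / (D.c / 8) * (D.G ^ 3 / N1 D) +
        D.N D.n / (D.c / 8) * (u1 D ^ 256 / N1 D))
      ≤ 8 * (1 / D.c) * u1 D ^ 64 + (8 * (1 / D.c) * u1 D ^ 64 + 8 * (1 / D.c) * u1 D ^ 64) := by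
        refine add_le_add i1.le (add_le_add (i2.trans ?_) (i3.trans ?_))
        · exact mul_le_mul_of_nonneg_left j2 (by positivity)
        · exact mul_le_mul_of_nonneg_left j3 (by positivity)
    _ = (1 / D.c) * (24 * u1 D ^ 64) := by ring
    _ ≤ (D.G / 2) * (24 * u1 D ^ 64) :=
        mul_le_mul_of_nonneg_right (lc_inv_c hD) (by positivity)
    _ = _ := by ring

end est

end L23p

open L20p L23p in
/-- L23. -/
theorem l23 (h05 : L05) (h06 : L06) (h10 : L10) (h15b : L15b) : L23 := by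
  intro D X U a p w0 w ζ hD hL hw hz
  have hc := hD.c_pos
  have hG := hD.G_two
  have hG0 := sh_G0 hD
  have hG1 := sh_G1 hD
  have hN := lc_N1_pos hD
  have hu := lc_u_pos hD
  have hu1 := lc_u_lt hD
  have hmn := hD.hmn
  have hP : Par D.T (3 * D.c / 8) 0 := lc_par hD.T_pos (by positivity)
  have hα := lc_wt hD
  have hFiN : Nrm D.T (3 * D.c / 8) 0 (fun _ => 1) (D.Fi D.n) ≤ ENNReal.ofReal D.G :=
    (sa_nrm_cmono (by linarith) (sa_wt1 D.T).pos _).trans (hD.F_le D.n hmn le_rfl).2.1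
  have hMN : Nrm D.T (3 * D.c / 8) 0 (fun _ => 1) (D.M D.n) ≤ ENNReal.ofReal D.G :=
    (sa_nrm_cmono (by linarith) (sa_wt1 D.T).pos _).trans (hD.F_le D.n hmn le_rfl).2.2
  have hFic := (hD.F_cm D.n hmn le_rfl).2.1
  have hMc := (hD.F_cm D.n hmn le_rfl).2.2
  have hFis : SuppT D.T (lev (D.n + 1) : Set Md) (D.Fi D.n) := fun t ht =>
    lc_supp_mono (lc_lev_mono (Nat.le_succ _)) ((hD.F_supp D.n hmn le_rfl).2.1 t ht)
  have hMs : SuppT D.T (lev (D.n + 1) : Set Md) (D.M D.n) := fun t ht =>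
    lc_supp_mono (lc_lev_mono (Nat.le_succ _)) ((hD.F_supp D.n hmn le_rfl).2.2 t ht)
  -- the gradient of w
  obtain ⟨w1, w2, w3, w4⟩ := (h15b (D.n + 1) D.K D.T (D.c / 2) (3 * D.c / 8) (N1 D) (α1 D)
    hD.T_pos (by linarith) hα hN.le (fun i hi => sh_N_mono hD hi le_rfl)).1 w hw.supp
  have hW : Nrm D.T (3 * D.c / 8) 0 (α1 D) (fun t => gradV D.K (w t)) ≤
      ENNReal.ofReal (4 * D.G ^ 5) := by
    refine w1.trans ((mul_le_mul' le_rfl (w_all hD hw)).trans ?_)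
    rw [← ENNReal.ofReal_mul (by
      refine div_nonneg hN.le ?_
      linarith)]
    refine ENNReal.ofReal_le_ofReal ?_
    have e1 : N1 D / (D.c / 2 - 3 * D.c / 8) * (D.G ^ 4 / N1 D) = (1 / D.c) * (8 * D.G ^ 4) := by
      have : D.c / 2 - 3 * D.c / 8 = D.c / 8 := by ring
      rw [this]
      field_simp
    rw [e1]
    calc (1 / D.c) * (8 * D.G ^ 4) ≤ (D.G / 2) * (8 * D.G ^ 4) :=
          mul_le_mul_of_nonneg_right (lc_inv_c hD) (by positivity)
      _ = _ := by ring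
  have hW1 : Nrm D.T (3 * D.c / 8) 0 (fun _ => 1) (fun t => gradV D.K (w t)) ≤
      ENNReal.ofReal (4 * D.G ^ 6) := by
    refine (lc_to_one hD (by positivity) _).trans ((mul_le_mul' le_rfl hW).trans ?_)
    rw [← ENNReal.ofReal_mul hG0]
    exact ENNReal.ofReal_le_ofReal (le_of_eq (by ring))
  have hWc : CM D.T (fun t => gradV D.K (w t)) := w3 hw.cm
  -- the function H
  have hWF1 : Nrm D.T (3 * D.c / 8) 0 (fun _ => 1) (fun t => mm (gradV D.K (w t)) (D.Fi D.n t)) ≤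
      ENNReal.ofReal (4 * D.G ^ 7) := by
    refine (sa_nrm_mm1 hP _ _).trans ((mul_le_mul' hW1 hFiN).trans ?_)
    rw [← ENNReal.ofReal_mul (by positivity)]
    exact ENNReal.ofReal_le_ofReal (le_of_eq (by ring))
  have hWFc : CM D.T (fun t => mm (gradV D.K (w t)) (D.Fi D.n t)) :=
    sa_cm_mm hP hWc hFic (sa_fin0 hW1) (sa_fin0 hFiN)
  have hH1 : Nrm D.T (3 * D.c / 8) 0 (fun _ => 1)
      (fun t => D.M D.n t + mm (gradV D.K (w t)) (D.Fi D.n t)) ≤
      ENNReal.ofReal (D.G + 4 * D.G ^ 7) := by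
    rw [ENNReal.ofReal_add hG0 (by positivity)]
    exact (sa_nrm_add hP (sa_wt1 D.T) _ _).trans (add_le_add hMN hWF1)
  have hHc : CM D.T (fun t => D.M D.n t + mm (gradV D.K (w t)) (D.Fi D.n t)) :=
    sa_cm_add hMc hWFc
  have hHs : SuppT D.T (lev (D.n + 1) : Set Md)
      (fun t => D.M D.n t + mm (gradV D.K (w t)) (D.Fi D.n t)) := fun t ht =>
    lc_supp_add (hMs t ht) (lc_supp_mm (w2 t ht) (hFis t ht))
  have hHe : ∀ t ∈ Icc 0 D.T, A.EvenM (D.M D.n t + mm (gradV D.K (w t)) (D.Fi D.n t)) :=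
    fun t ht => lc_evenM_add (hL.M_even t ht) (lc_evenM_mm (w4 hw.odd t ht) (hL.Fi_even t ht)
      (sa_static0 hP (sa_wt1 D.T) (sa_fin0 hW1) ht)
      (sa_static0 hP (sa_wt1 D.T) (sa_fin0 hFiN) ht))
  obtain ⟨c1, c2, c3⟩ := lc_comp h05 hD hz (c := 3 * D.c / 8) (by linarith) hHs (sa_wt1 D.T)
  refine ⟨⟨c2 hHc (sa_fin0 hH1), c3, fun t ht => ?_, ?_⟩, ?_⟩
  · -- even
    have hx := lc_XH hD hz ht
    have hB := (lc_B hD).2
    refine ((h10.2 (D.n + 1) (3 * D.c / 8) (D.c / 8) _ _ hx (by linarith)).2.2.2.2.1 _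
      (hHs t ht) (sa_static_c (sa_wt1 D.T) (sa_fin0 hH1) ht)).2
      (fun i _ => lc_lab_odd (hz.odd t ht).2 i) (hHe t ht)
  · -- norm
    refine (c1.trans hH1).trans (ENNReal.ofReal_le_ofReal ?_)
    have h1 : D.G ≤ D.G ^ 7 := le_self_pow₀ hG1 (by norm_num)
    calc D.G + 4 * D.G ^ 7 ≤ 2 ^ 3 * D.G ^ 7 := by linarith
      _ ≤ D.G ^ 3 * D.G ^ 7 :=
        mul_le_mul_of_nonneg_right (pow_le_pow_left₀ (by norm_num) hG 3) (by positivity)
      _ = D.G ^ 10 := by ring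
      _ ≤ D.G ^ 20 := pow_le_pow_right₀ hG1 (by norm_num)
  · -- the difference
    have hZ : Nrm D.T (3 * D.c / 8) 0 (α1 D) (fun t => ot (K1 D) (a1 D w0 t)) ≠ ∞ := by
      refine sa_fin (sa_len_fin (f := fun t => lw D w0 t) (c := D.c) (by linarith) hα.pos
        hN.le fun t _ q => ?_) (sa_fin0 hw.lin_le)
      rw [ot_norm, mul_assoc]
      exact mul_le_mul_of_nonneg_left (dj_norm _ _ _) (norm_nonneg _)
    have hd := lc_comp_sub h06 h10 hD hz (c := 3 * D.c / 8) le_rfl hHs (sa_fin0 hH1)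
    have e : ∀ t ∈ Icc 0 D.T, M1 D w ζ t - D.M D.n t -
        mm (tsF (a1 D w0 t)) (rwF (K1 D) (D.Fi D.n t)) =
        (comp (lab D.K (ζ t)) (D.M D.n t + mm (gradV D.K (w t)) (D.Fi D.n t)) -
          (D.M D.n t + mm (gradV D.K (w t)) (D.Fi D.n t))) +
        mm (gradV D.K (w t) - ot (K1 D) (a1 D w0 t)) (D.Fi D.n t) := by
      intro t ht
      rw [mm_ts, mm_subL (sa_static0 hP (sa_wt1 D.T) (sa_fin0 hW1) ht)
        (sa_static0 hP hα hZ ht) (sa_static0 hP (sa_wt1 D.T) (sa_fin0 hFiN) ht)]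
      unfold M1
      abel
    rw [sa_nrm_congr (T := D.T) (c := D.c / 8) (γ := 0) (ρ := α1 D) (ρ' := α1 D) e
      fun _ _ => rfl]
    have hP8 : Par D.T (D.c / 8) 0 := lc_par hD.T_pos (by positivity)
    have k1 : Nrm D.T (D.c / 8) 0 (α1 D)
        (fun t => mm (gradV D.K (w t) - ot (K1 D) (a1 D w0 t)) (D.Fi D.n t)) ≤
        ENNReal.ofReal (12 * D.G * u1 D ^ 64 * D.G) := by
      refine (sa_nrm_cmono (c := 3 * D.c / 8) (by linarith) hα.pos _).trans ?_
      have h1 := sa_nrm_mm hP hα (sa_wt1 D.T)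
        (fun t => gradV D.K (w t) - ot (K1 D) (a1 D w0 t)) (D.Fi D.n)
      simp only [mul_one] at h1
      refine h1.trans ((mul_le_mul' (small hD hw) hFiN).trans ?_)
      rw [← ENNReal.ofReal_mul (by positivity)]
    have k2 : Nrm D.T (D.c / 8) 0 (α1 D)
        (fun t => comp (lab D.K (ζ t)) (D.M D.n t + mm (gradV D.K (w t)) (D.Fi D.n t)) -
          (D.M D.n t + mm (gradV D.K (w t)) (D.Fi D.n t))) ≤
        ENNReal.ofReal (8 * D.G * u1 D ^ 120 * (D.G + 4 * D.G ^ 7)) := by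
      refine (hd.trans (mul_le_mul' le_rfl hH1)).trans ?_
      rw [← ENNReal.ofReal_mul (by positivity)]
    refine (sa_nrm_add hP8 hα _ _).trans ((add_le_add k2 k1).trans ?_)
    rw [← ENNReal.ofReal_add (by positivity) (by positivity)]
    refine ENNReal.ofReal_le_ofReal ?_
    have m1 : D.G ^ 15 * u1 D ^ 120 ≤ u1 D ^ 32 := lc_gu hD (by norm_num) (by norm_num)
    have m2 : D.G ^ 7 * u1 D ^ 64 ≤ u1 D ^ 32 := lc_gu hD (by norm_num) (by norm_num)
    have n1 : 8 * D.G * u1 D ^ 120 * (D.G + 4 * D.G ^ 7) ≤ 1 / 2 * u1 D ^ 32 := by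
      have h1 : D.G ≤ D.G ^ 7 := le_self_pow₀ hG1 (by norm_num)
      have h2 : 8 * D.G * (D.G + 4 * D.G ^ 7) ≤ 1 / 2 * D.G ^ 15 := by
        calc 8 * D.G * (D.G + 4 * D.G ^ 7) ≤ 8 * D.G * (8 * D.G ^ 7) := by
              refine mul_le_mul_of_nonneg_left ?_ (by positivity)
              linarith
          _ = 1 / 2 * (2 ^ 7 * D.G ^ 8) := by ring
          _ ≤ 1 / 2 * (D.G ^ 7 * D.G ^ 8) := by
              refine mul_le_mul_of_nonneg_left ?_ (by norm_num)
              exact mul_le_mul_of_nonneg_right (pow_le_pow_left₀ (by norm_num) hG 7)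
                (by positivity)
          _ = _ := by ring
      calc 8 * D.G * u1 D ^ 120 * (D.G + 4 * D.G ^ 7) =
            8 * D.G * (D.G + 4 * D.G ^ 7) * u1 D ^ 120 := by ring
        _ ≤ 1 / 2 * D.G ^ 15 * u1 D ^ 120 := mul_le_mul_of_nonneg_right h2 (by positivity)
        _ = 1 / 2 * (D.G ^ 15 * u1 D ^ 120) := by ring
        _ ≤ _ := mul_le_mul_of_nonneg_left m1 (by norm_num)
    have n2 : 12 * D.G * u1 D ^ 64 * D.G ≤ 1 / 2 * u1 D ^ 32 := by
      have h2 : 12 * D.G * D.G ≤ 1 / 2 * D.G ^ 7 := by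
        calc 12 * D.G * D.G ≤ 1 / 2 * (2 ^ 5 * D.G ^ 2) := by nlinarith
          _ ≤ 1 / 2 * (D.G ^ 5 * D.G ^ 2) := by
              refine mul_le_mul_of_nonneg_left ?_ (by norm_num)
              exact mul_le_mul_of_nonneg_right (pow_le_pow_left₀ (by norm_num) hG 5)
                (by positivity)
          _ = _ := by ring
      calc 12 * D.G * u1 D ^ 64 * D.G = 12 * D.G * D.G * u1 D ^ 64 := by ring
        _ ≤ 1 / 2 * D.G ^ 7 * u1 D ^ 64 := mul_le_mul_of_nonneg_right h2 (by positivity)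
        _ = 1 / 2 * (D.G ^ 7 * u1 D ^ 64) := by ring
        _ ≤ _ := mul_le_mul_of_nonneg_left m2 (by norm_num)
    linarith

end Pool.Agent.Work.MP_b0497c_an.Unf.L

end
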