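import Pool.Agent.Work.MP_b0497c_an.Unf.LStmts
import Pool.Agent.Work.MP_b0497c_an.Unf.Ev
import Pool.Agent.Work.MP_b0497c_an.Unf.C01
import Pool.Agent.Work.MP_b0497c_an.Bd.B26

/-! Bundle of small proof modules (one section per former module). -/

section

set_option autoImplicit false
set_option linter.dupNamespace false

/-!
# L04: the displacement of a phase
-/

open scoped ENNReal
open Set MeasureTheory

namespace Pool.Agent.Work.MP_b0497c_an.Unf.L

open W S

namespace L04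

variable {E : Type} [NormedAddCommGroup E] [NormedSpace ℂ E]

theorem enorm_int (z : ℤ) : ‖(z : ℂ)‖ₑ = ENNReal.ofReal |(z : ℝ)| := by
  rw [← ofReal_norm, Complex.norm_intCast]

theorem le_of_mem {n : ℕ} {q : Md} (hq : q ∈ lev n) {i : ℕ} (hi : i ∈ q.support) : i ≤ n := by
  by_contra h
  exact Finsupp.mem_support_iff.1 hi (hq i (not_le.1 h))

theorem len_eq (q : Md) : len q = ∑ i ∈ q.support, |(q i : ℝ)| := rfl

/-- The norm of a finite sum. -/
theorem nrm_sum {ι : Type} (s : Finset ι) (T c : ℝ) (σ : ℝ → ℝ) (z : ι → ℂ)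
    (x : ℝ → ι → Md → E) :
    Nrm T c 0 σ (fun t p => ∑ i ∈ s, z i • x t i p) ≤
      ∑ i ∈ s, ‖z i‖ₑ * Nrm T c 0 σ (fun t => x t i) := by
  have h1 : ∀ m : Md, (⨆ t ∈ Icc 0 T, ENNReal.ofReal (Real.exp ((c - 0 * t) * len m) / σ t) *
      ‖∑ i ∈ s, z i • x t i m‖ₑ) ≤ ∑ i ∈ s, ‖z i‖ₑ * ⨆ t ∈ Icc 0 T,
        ENNReal.ofReal (Real.exp ((c - 0 * t) * len m) / σ t) * ‖x t i m‖ₑ := by
    intro m
    refine iSup₂_le fun t ht => ?_
    calc ENNReal.ofReal (Real.exp ((c - 0 * t) * len m) / σ t) * ‖∑ i ∈ s, z i • x t i m‖ₑ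
        ≤ ENNReal.ofReal (Real.exp ((c - 0 * t) * len m) / σ t) *
          ∑ i ∈ s, ‖z i • x t i m‖ₑ := by
          gcongr
          exact enorm_sum_le _ _
      _ = ∑ i ∈ s, ‖z i‖ₑ * (ENNReal.ofReal (Real.exp ((c - 0 * t) * len m) / σ t) *
          ‖x t i m‖ₑ) := by
          rw [Finset.mul_sum]
          refine Finset.sum_congr rfl fun i _ => ?_
          rw [enorm_smul, mul_left_comm]
      _ ≤ _ := by
          refine Finset.sum_le_sum fun i _ => ?_
          gcongr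
          exact le_iSup₂ (f := fun t (_ : t ∈ Icc 0 T) =>
            ENNReal.ofReal (Real.exp ((c - 0 * t) * len m) / σ t) * ‖x t i m‖ₑ) t ht
  unfold Nrm
  refine (ENNReal.tsum_le_tsum h1).trans ?_
  rw [Summable.tsum_finsetSum fun _ _ => ENNReal.summable]
  refine Finset.sum_le_sum fun i _ => ?_
  rw [ENNReal.tsum_mul_left]

theorem sN_sum {ι : Type} (s : Finset ι) (c : ℝ) (z : ι → ℂ) (x : ι → Md → E) :
    sN c (fun p => ∑ i ∈ s, z i • x i p) ≤ ∑ i ∈ s, ‖z i‖ₑ * sN c (x i) := by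
  unfold sN
  have h1 : ∀ m : Md, ENNReal.ofReal (Real.exp (c * len m)) * ‖∑ i ∈ s, z i • x i m‖ₑ ≤
      ∑ i ∈ s, ‖z i‖ₑ * (ENNReal.ofReal (Real.exp (c * len m)) * ‖x i m‖ₑ) := by
    intro m
    calc ENNReal.ofReal (Real.exp (c * len m)) * ‖∑ i ∈ s, z i • x i m‖ₑ
        ≤ ENNReal.ofReal (Real.exp (c * len m)) * ∑ i ∈ s, ‖z i • x i m‖ₑ := by
          gcongr
          exact enorm_sum_le _ _
      _ = _ := by
          rw [Finset.mul_sum]
          refine Finset.sum_congr rfl fun i _ => ?_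
          rw [enorm_smul, mul_left_comm]
  refine (ENNReal.tsum_le_tsum h1).trans ?_
  rw [Summable.tsum_finsetSum fun _ _ => ENNReal.summable]
  refine Finset.sum_le_sum fun i _ => ?_
  rw [ENNReal.tsum_mul_left]

theorem phF_eq (x : ℕ → Md → ℂ) (q : Md) :
    phF x q = fun p => ∑ i ∈ q.support, ((q i : ℤ) : ℂ) • x i p := by
  funext p
  rfl

theorem ofReal_len (B : ℝ) (hB : 0 ≤ B) (q : Md) :
    ∑ i ∈ q.support, ENNReal.ofReal |(q i : ℝ)| * ENNReal.ofReal B =
      ENNReal.ofReal (B * len q) := by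
  rw [← Finset.sum_mul, ← ENNReal.ofReal_sum_of_nonneg fun _ _ => abs_nonneg _, ← len_eq,
    ← ENNReal.ofReal_mul (len_nonneg q), mul_comm]

theorem nrm_phF (n : ℕ) (T c B : ℝ) (σ : ℝ → ℝ) (x : ℝ → ℕ → Md → ℂ) (q : Md) (hB : 0 ≤ B)
    (hq : q ∈ lev n) (h : ∀ i ≤ n, Nrm T c 0 σ (fun t => x t i) ≤ ENNReal.ofReal B) :
    Nrm T c 0 σ (fun t => phF (x t) q) ≤ ENNReal.ofReal (B * len q) := by
  rw [← ofReal_len B hB q]
  refine le_trans (le_of_eq ?_) ((nrm_sum q.support T c σ (fun i => ((q i : ℤ) : ℂ)) x).trans ?_)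
  · rfl
  · refine Finset.sum_le_sum fun i hi => ?_
    rw [enorm_int]
    gcongr
    exact h i (le_of_mem hq hi)

theorem sN_phF (n : ℕ) (c B : ℝ) (x : ℕ → Md → ℂ) (q : Md) (hB : 0 ≤ B)
    (hq : q ∈ lev n) (h : ∀ i ≤ n, sN c (x i) ≤ ENNReal.ofReal B) :
    sN c (phF x q) ≤ ENNReal.ofReal (B * len q) := by
  rw [← ofReal_len B hB q]
  refine le_trans (le_of_eq ?_) ((sN_sum q.support c (fun i => ((q i : ℤ) : ℂ)) x).trans ?_)
  · rfl
  · refine Finset.sum_le_sum fun i hi => ?_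
    rw [enorm_int]
    gcongr
    exact h i (le_of_mem hq hi)

theorem phF_lab (K : ℕ → Fin 3 → ℤ) (ζ : Md → C3) (q p : Md) :
    phF (lab K ζ) q p = innerSL ℂ (xi K q) (ζ p) := by
  unfold phF lab xi Finsupp.sum
  simp only [innerSL_apply_apply]
  rw [sum_inner]
  refine Finset.sum_congr rfl fun i _ => ?_
  rw [inner_smul_left]
  simp

theorem phF_add (x : ℕ → Md → ℂ) (q q' p : Md) : phF x (q + q') p = phF x q p + phF x q' p := by
  unfold phF
  rw [Finsupp.sum_add_index' (fun i => by simp) (fun i a b => by push_cast; ring)]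

theorem summable_of_sN {f : Md → E} (hf : sN 0 f ≠ ∞) : Summable fun q => ‖f q‖ := by
  have h : (∑' q, ‖f q‖ₑ) ≠ ∞ := by
    unfold sN at hf
    simpa using hf
  simpa [toReal_enorm] using ENNReal.summable_toReal h

theorem ev_phF (n : ℕ) (x : ℕ → Md → ℂ) (θ : Md →+ ℝ) (q : Md) (hq : q ∈ lev n)
    (h : ∀ i ≤ n, sN 0 (x i) ≠ ∞) :
    ev θ (phF x q) = q.sum fun i z => (z : ℂ) * ev θ (x i) := by
  unfold ev phF Finsupp.sum
  have h1 : ∀ p, ch θ p • ∑ i ∈ q.support, ((q i : ℤ) : ℂ) * x i p =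
      ∑ i ∈ q.support, ((q i : ℤ) : ℂ) * (ch θ p • x i p) := by
    intro p
    rw [Finset.smul_sum]
    refine Finset.sum_congr rfl fun i _ => ?_
    simp only [smul_eq_mul]
    ring
  simp only [h1]
  rw [Summable.tsum_finsetSum]
  · refine Finset.sum_congr rfl fun i hi => ?_
    rw [tsum_mul_left]
  · intro i hi
    exact (summable_ch θ (summable_of_sN (h i (le_of_mem hq hi)))).mul_left _

end L04

theorem l04 : L04 :=
  ⟨fun n T c B σ x q _ hB _ hq h => L04.nrm_phF n T c B σ x q hB hq h,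
    fun n c B x q hB hq h => L04.sN_phF n c B x q hB hq h, L04.phF_lab, L04.phF_add,
    L04.ev_phF⟩

end Pool.Agent.Work.MP_b0497c_an.Unf.L

end

section

set_option autoImplicit false
set_option linter.dupNamespace false
set_option linter.unusedSectionVars false

/-!
# L08: functions of level `n` are determined by their values at the real labels; time derivatives of
the coefficients and of the values (helper59)
-/

open scoped ENNReal Interval
open Set MeasureTheory

namespace Pool.Agent.Work.MP_b0497c_an.Unf.L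

open W S

namespace L08a

section basic

variable {E : Type} [NormedAddCommGroup E]

/-- Finite static norm with a nonnegative radius: the modes are summable. -/
theorem sum_sN {c : ℝ} (hc : 0 ≤ c) {f : Md → E} (h : sN c f ≠ ∞) : Summable fun q => ‖f q‖ := by
  have h1 : (∑' q, ‖f q‖ₑ) ≠ ∞ := by
    refine ne_top_of_le_ne_top h (ENNReal.tsum_le_tsum fun q => ?_)
    have h2 : (1 : ℝ≥0∞) ≤ ENNReal.ofReal (Real.exp (c * len q)) := by
      rw [← ENNReal.ofReal_one]
      refine ENNReal.ofReal_le_ofReal ?_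
      rw [← Real.exp_zero]
      exact Real.exp_le_exp.mpr (mul_nonneg hc (len_nonneg q))
    calc ‖f q‖ₑ = 1 * ‖f q‖ₑ := (one_mul _).symm
      _ ≤ _ := mul_le_mul_left h2 _
  have h3 := ENNReal.summable_toReal h1
  simpa using h3

/-- The converse for the radius zero. -/
theorem sN_zero {f : Md → E} (h : Summable fun q => ‖f q‖) : sN 0 f ≠ ∞ := by
  have h1 : sN 0 f = ∑' q, ENNReal.ofReal ‖f q‖ := by
    refine tsum_congr fun q => ?_
    rw [zero_mul, Real.exp_zero, ENNReal.ofReal_one, one_mul, ofReal_norm]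
  rw [h1]
  exact h.tsum_ofReal_ne_top

/-- From the norm of a time dependent function to the static norm. -/
theorem sN_of_Nrm {T c : ℝ} {f : ℝ → Md → E} (h : Nrm T c 0 Dat.one' f ≠ ∞) {t : ℝ}
    (ht : t ∈ Icc 0 T) : sN c (f t) ≠ ∞ := by
  refine ne_top_of_le_ne_top h (ENNReal.tsum_le_tsum fun q => ?_)
  refine le_iSup₂_of_le t ht ?_
  simp [Dat.one']

end basic

section val

variable {E : Type} [NormedAddCommGroup E] [NormedSpace ℂ E] [CompleteSpace E]

theorem ev_sub (θ : Md →+ ℝ) {f g : Md → E} (hf : Summable fun q => ‖f q‖)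
    (hg : Summable fun q => ‖g q‖) : ev θ (fun q => f q - g q) = ev θ f - ev θ g := by
  simp only [ev, smul_sub]
  exact (summable_ch θ hf).tsum_sub (summable_ch θ hg)

/-- Uniqueness from the values. -/
theorem uniq {n : ℕ} {f g : Md → E} (hf : SuppIn (lev n : Set Md) f)
    (hg : SuppIn (lev n : Set Md) g) (sf : Summable fun q => ‖f q‖) (sg : Summable fun q => ‖g q‖)
    (h : ∀ θ : Md →+ ℝ, ev θ f = ev θ g) : f = g := by
  funext q
  have h1 : ‖f q - g q‖ ≤ 0 := by
    refine c01 E n (fun q => f q - g q) 0 ?_ ?_ ?_ q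
    · intro q hq
      simp only [hf q hq, hg q hq, sub_zero]
    · exact Summable.of_nonneg_of_le (fun _ => norm_nonneg _) (fun q => norm_sub_le _ _)
        (sf.add sg)
    · intro θ
      rw [ev_sub θ sf sg, h θ, sub_self, norm_zero]
  exact sub_eq_zero.mp (norm_le_zero_iff.mp h1)

end val

section ftc

variable {E : Type} [NormedAddCommGroup E] [NormedSpace ℝ E] [CompleteSpace E]

theorem ftc {T : ℝ} {h g : ℝ → E} (hg : ContinuousOn g (Icc 0 T)) :
    (∀ t ∈ Icc 0 T, HasDerivWithinAt h (g t) (Icc 0 T) t) ↔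
      ∀ t ∈ Icc 0 T, h t = h 0 + ∫ s in (0 : ℝ)..t, g s := by
  have hint : ∀ t ∈ Icc 0 T, IntervalIntegrable g volume 0 t := by
    intro t ht
    apply ContinuousOn.intervalIntegrable
    rw [uIcc_of_le ht.1]
    exact hg.mono (Icc_subset_Icc_right ht.2)
  constructor
  · intro hd t ht
    have h1 : ∫ s in (0 : ℝ)..t, g s = h t - h 0 := by
      refine intervalIntegral.integral_eq_sub_of_hasDerivAt_of_le ht.1 ?_ ?_ (hint t ht)
      · intro s hs
        exact ((hd s ⟨hs.1, hs.2.trans ht.2⟩).continuousWithinAt).mono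
          (Icc_subset_Icc_right ht.2)
      · intro s hs
        exact (hd s ⟨hs.1.le, hs.2.le.trans ht.2⟩).hasDerivAt
          (Icc_mem_nhds hs.1 (hs.2.trans_le ht.2))
    rw [h1]
    abel
  · intro he t ht
    have : Fact (t ∈ Icc 0 T) := ⟨ht⟩
    have h1 : HasDerivWithinAt (fun u => ∫ s in (0 : ℝ)..u, g s) (g t) (Icc 0 T) t := by
      refine intervalIntegral.integral_hasDerivWithinAt_right (hint t ht) ?_ (hg t ht)
      exact ⟨Icc 0 T, self_mem_nhdsWithin, hg.aestronglyMeasurable measurableSet_Icc⟩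
    have h2 := h1.const_add (h 0)
    refine h2.congr ?_ (he t ht)
    intro s hs
    exact he s hs

end ftc

section time

variable {E : Type} [NormedAddCommGroup E] [NormedSpace ℂ E] [NormedSpace ℝ E]
  [IsScalarTower ℝ ℂ E] [CompleteSpace E]

/-- Summable bounds of the modes. -/
theorem bd {n : ℕ} {T : ℝ} {f : ℝ → Md → E} (h : Fn n T 0 f) :
    ∃ u : Md → ℝ, Summable u ∧ (∀ q, 0 ≤ u q) ∧ ∀ t ∈ Icc 0 T, ∀ q, ‖f t q‖ ≤ u q := by
  obtain ⟨u, hu, hu0, -, hb⟩ := bound_of_Nrm h.fin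
  refine ⟨u, hu, hu0, fun t ht q => ?_⟩
  have := hb t ht q
  rwa [zero_mul, Real.exp_zero, one_mul] at this

theorem ev_cont (θ : Md →+ ℝ) {T : ℝ} {f : ℝ → Md → E} (hc : CM T f) {u : Md → ℝ}
    (hu : Summable u) (hb : ∀ t ∈ Icc 0 T, ∀ q, ‖f t q‖ ≤ u q) :
    ContinuousOn (fun t => ev θ (f t)) (Icc 0 T) := by
  refine continuousOn_tsum (u := u) ?_ hu ?_
  · intro q
    exact (hc q).const_smul (ch θ q)
  · intro q t ht
    rw [norm_ch_smul]
    exact hb t ht q

/-- Integrals of the modes are summable. -/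
theorem int_le {T : ℝ} {f : ℝ → Md → E} {u : Md → ℝ}
    (hb : ∀ t ∈ Icc 0 T, ∀ q, ‖f t q‖ ≤ u q) {t : ℝ} (ht : t ∈ Icc 0 T) (q : Md) :
    ‖∫ s in (0 : ℝ)..t, f s q‖ ≤ T * u q := by
  have h1 : ‖∫ s in (0 : ℝ)..t, f s q‖ ≤ u q * |t - 0| := by
    refine intervalIntegral.norm_integral_le_of_norm_le_const fun s hs => ?_
    rw [uIoc_of_le ht.1] at hs
    exact hb s ⟨hs.1.le, hs.2.trans ht.2⟩ q
  rw [sub_zero, abs_of_nonneg ht.1, mul_comm] at h1
  refine h1.trans (mul_le_mul_of_nonneg_right ht.2 ?_)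
  exact (norm_nonneg _).trans (hb t ht q)

/-- Evaluation and integration commute. -/
theorem ev_int (θ : Md →+ ℝ) {T : ℝ} {f : ℝ → Md → E} (hc : CM T f) {u : Md → ℝ}
    (hu : Summable u) (hb : ∀ t ∈ Icc 0 T, ∀ q, ‖f t q‖ ≤ u q) {t : ℝ} (ht : t ∈ Icc 0 T) :
    ev θ (fun q => ∫ s in (0 : ℝ)..t, f s q) = ∫ s in (0 : ℝ)..t, ev θ (f s) := by
  have hsub : ∀ s ∈ Ι (0 : ℝ) t, s ∈ Icc 0 T := by
    intro s hs
    rw [uIoc_of_le ht.1] at hs
    exact ⟨hs.1.le, hs.2.trans ht.2⟩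
  have h1 := intervalIntegral.hasSum_integral_of_dominated_convergence (μ := volume)
    (a := 0) (b := t) (F := fun (q : Md) (s : ℝ) => ch θ q • f s q) (f := fun s => ev θ (f s))
    (fun q _ => u q)
    (fun q => by
      have h2 : ContinuousOn (fun s => ch θ q • f s q) (Icc 0 T) := (hc q).const_smul (ch θ q)
      refine (h2.mono ?_).aestronglyMeasurable measurableSet_uIoc
      exact fun s hs => hsub s hs)
    (fun q => Filter.Eventually.of_forall fun s hs => by
      rw [norm_ch_smul]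
      exact hb s (hsub s hs) q)
    (Filter.Eventually.of_forall fun s _ => hu)
    (intervalIntegrable_const)
    (Filter.Eventually.of_forall fun s hs => by
      refine (summable_ch θ ?_).hasSum
      exact Summable.of_nonneg_of_le (fun _ => norm_nonneg _) (fun q => hb s (hsub s hs) q) hu)
  rw [← h1.tsum_eq]
  refine tsum_congr fun q => ?_
  rw [intervalIntegral.integral_smul]

theorem deriv_iff {n : ℕ} {T : ℝ} {f f' : ℝ → Md → E} (hT : 0 < T) (hf : Fn n T 0 f)
    (hf' : Fn n T 0 f') :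
    (∀ q, ∀ t ∈ Icc 0 T, HasDerivWithinAt (fun t => f t q) (f' t q) (Icc 0 T) t) ↔
      ∀ θ : Md →+ ℝ, ∀ t ∈ Icc 0 T,
        HasDerivWithinAt (fun t => ev θ (f t)) (ev θ (f' t)) (Icc 0 T) t := by
  obtain ⟨u, hu, hu0, hb⟩ := bd hf
  obtain ⟨v, hv, hv0, hb'⟩ := bd hf'
  have h0 : (0 : ℝ) ∈ Icc 0 T := ⟨le_rfl, hT.le⟩
  have sf : ∀ t ∈ Icc 0 T, Summable fun q => ‖f t q‖ := fun t ht =>
    Summable.of_nonneg_of_le (fun _ => norm_nonneg _) (fun q => hb t ht q) hu
  have si : ∀ t ∈ Icc 0 T, Summable fun q => ‖∫ s in (0 : ℝ)..t, f' s q‖ := fun t ht =>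
    Summable.of_nonneg_of_le (fun _ => norm_nonneg _) (fun q => int_le hb' ht q) (hv.mul_left T)
  have key : ∀ (θ : Md →+ ℝ), ∀ t ∈ Icc 0 T,
      ev θ (fun q => f 0 q + ∫ s in (0 : ℝ)..t, f' s q) =
        ev θ (f 0) + ∫ s in (0 : ℝ)..t, ev θ (f' s) := by
    intro θ t ht
    rw [← ev_int θ hf'.cm hv hb' ht]
    exact ev_add θ (sf 0 h0) (si t ht)
  constructor
  · intro hd θ
    refine (ftc (ev_cont θ hf'.cm hv hb')).mpr fun t ht => ?_
    rw [← key θ t ht]
    congr 1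
    funext q
    exact (ftc (hf'.cm q)).mp (hd q) t ht
  · intro hd q
    refine (ftc (hf'.cm q)).mpr fun t ht => ?_
    have h1 : f t = fun q => f 0 q + ∫ s in (0 : ℝ)..t, f' s q := by
      refine uniq (hf.supp t ht) ?_ (sf t ht) ?_ fun θ => ?_
      · intro q hq
        have h2 : ∫ s in (0 : ℝ)..t, f' s q = 0 := by
          rw [intervalIntegral.integral_congr (g := fun _ => (0 : E))]
          · simp
          · intro s hs
            rw [uIcc_of_le ht.1] at hs
            exact hf'.supp s ⟨hs.1, hs.2.trans ht.2⟩ q hq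
        show f 0 q + ∫ s in (0 : ℝ)..t, f' s q = 0
        rw [h2, hf.supp 0 h0 q hq, add_zero]
      · exact Summable.of_nonneg_of_le (fun _ => norm_nonneg _) (fun q => norm_add_le _ _)
          ((sf 0 h0).add (si t ht))
      · rw [key θ t ht]
        exact (ftc (ev_cont θ hf'.cm hv hb')).mp (hd θ) t ht
    exact congrFun h1 q

end time

end L08a

theorem l08 : L08 := by
  refine ⟨?_, ?_⟩
  · intro E _ _ _ n f g hf hg sf sg h
    exact L08a.uniq hf hg (L08a.sum_sN le_rfl sf) (L08a.sum_sN le_rfl sg) h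
  · intro E _ _ _ _ _ n T f f' hT hf hf'
    exact L08a.deriv_iff hT hf hf'

end Pool.Agent.Work.MP_b0497c_an.Unf.L

end
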