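import Pool.Agent.Work.MP_b0497c_an.Unf.LStmts
import Pool.Agent.Work.MP_b0497c_an.Bd.B26
import Pool.Agent.Work.MP_b0497c_an.Bd.B05
import Pool.Agent.Work.MP_b0497c_an.Unf.LComp
import Pool.Agent.Work.MP_b0497c_an.Bd.B03

/-! Bundle of small proof modules (one section per former module). -/

section

set_option autoImplicit false
set_option linter.unusedSectionVars false

/-!
# L07: norm, support and evaluation of a composition (helper50)
-/

open scoped ENNReal
open Set MeasureTheory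

namespace Pool.Agent.Work.MP_b0497c_an.Unf.L

open W S

namespace P07

variable {E : Type} [NormedAddCommGroup E] [NormedSpace ℂ E]

theorem sN_zero (f : Md → E) : sN 0 f = ∑' q, ‖f q‖ₑ := by simp [sN]

theorem summ {f : Md → E} (hf : sN 0 f ≠ ∞) : Summable fun q => ‖f q‖ := by
  rw [sN_zero] at hf
  have h := ENNReal.summable_toReal hf
  simpa using h

theorem mono {c c' : ℝ} (h : c' ≤ c) (f : Md → E) : sN c' f ≤ sN c f := by
  refine ENNReal.tsum_le_tsum fun q => mul_le_mul' (ENNReal.ofReal_le_ofReal ?_) le_rfl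
  exact Real.exp_le_exp.mpr (mul_le_mul_of_nonneg_right h (len_nonneg q))

theorem ev_re {f : Md → ℂ} (hr : RealS f) (θ : Md →+ ℝ) : ((ev θ f).re : ℂ) = ev θ f := by
  have h : starRingEnd ℂ (ev θ f) = ev θ f := by
    rw [ev, Complex.conj_tsum, ← (Equiv.neg Md).tsum_eq]
    congr 1
    funext q
    simp only [Equiv.neg_apply, smul_eq_mul, map_mul, ch_neg, hr q, Complex.conj_conj]
  exact Complex.conj_eq_iff_re.mp h

/-- The coefficients of `exp (i ∑ q_i x_i)`. -/
noncomputable def Ex (x : ℕ → Md → ℂ) (q : Md) : Md → ℂ := expC fun r => Complex.I * phF x q r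

theorem enorm_I_mul (z : ℂ) : ‖Complex.I * z‖ₑ = ‖z‖ₑ := by
  rw [← ofReal_norm, ← ofReal_norm, norm_mul, Complex.norm_I, one_mul]

theorem sN_I (c : ℝ) (f : Md → ℂ) : sN c (fun r => Complex.I * f r) = sN c f := by
  unfold sN
  simp only [enorm_I_mul]

variable {n : ℕ} {c c1 B : ℝ} {x : ℕ → Md → ℂ} {f : Md → E}

theorem Ex_sN (h3 : L03) (h4 : L04) (hx : XH n c1 B x) {q : Md} (hq : q ∈ lev n) :
    sN c1 (Ex x q) ≤ ENNReal.ofReal (Real.exp (B * len q)) := by
  refine h3.1 c1 (B * len q) _ hx.c_nn (mul_nonneg hx.B_nn (len_nonneg q)) ?_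
  rw [sN_I]
  exact h4.2.1 n c1 B x q hx.B_nn hq hx.le

theorem phF_supp (hs : ∀ i ≤ n, SuppIn (lev n : Set Md) (x i)) {q : Md} (hq : q ∈ lev n) :
    SuppIn (lev n : Set Md) (phF x q) := by
  intro p hp
  refine Finset.sum_eq_zero fun i hi => ?_
  have hin : i ≤ n := by
    by_contra h
    exact (Finsupp.mem_support_iff.mp hi) (hq i (by omega))
  simp only
  rw [hs i hin p hp, mul_zero]

theorem Ex_supp (h3 : L03) (hx : XH n c1 B x) {q : Md} (hq : q ∈ lev n) :
    SuppIn (lev n : Set Md) (Ex x q) := by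
  refine h3.2.1 n _ fun p hp => ?_
  rw [phF_supp hx.supp hq p hp, mul_zero]

theorem comp_supp (h3 : L03) (hx : XH n c1 B x) (hf : SuppIn (lev n : Set Md) f) :
    SuppIn (lev n : Set Md) (comp x f) := by
  intro p hp
  show ∑' q, Ex x q (p - q) • f q = 0
  rw [← tsum_zero (β := Md)]
  congr 1
  funext q
  by_cases hq : q ∈ lev n
  · rw [Ex_supp h3 hx hq (p - q) (fun h => hp ?_), zero_smul]
    have := (lev n).add_mem h hq
    rwa [sub_add_cancel] at this
  · rw [hf q hq, smul_zero]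

theorem comp_sN [CompleteSpace E] (h3 : L03) (h4 : L04) (hx : XH n c1 B x) (hc : c1 + B ≤ c)
    (hf : SuppIn (lev n : Set Md) f) : sN c1 (comp x f) ≤ sN c f := by
  calc sN c1 (comp x f)
      ≤ ∑' p, ∑' q, ENNReal.ofReal (Real.exp (c1 * len (p - q))) * ‖Ex x q (p - q)‖ₑ *
          (ENNReal.ofReal (Real.exp (c1 * len q)) * ‖f q‖ₑ) := by
        refine ENNReal.tsum_le_tsum fun p => ?_
        have h1 : ‖comp x f p‖ₑ ≤ ∑' q, ‖Ex x q (p - q)‖ₑ * ‖f q‖ₑ := by
          refine (enorm_tsum_le_tsum_enorm).trans (le_of_eq ?_)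
          congr 1
          funext q
          rw [enorm_smul]
          rfl
        calc _ ≤ ENNReal.ofReal (Real.exp (c1 * len p)) * ∑' q, ‖Ex x q (p - q)‖ₑ * ‖f q‖ₑ :=
              mul_le_mul' le_rfl h1
          _ = ∑' q, ENNReal.ofReal (Real.exp (c1 * len p)) * (‖Ex x q (p - q)‖ₑ * ‖f q‖ₑ) :=
              ENNReal.tsum_mul_left.symm
          _ ≤ _ := by
              refine ENNReal.tsum_le_tsum fun q => ?_
              have h2 : ENNReal.ofReal (Real.exp (c1 * len p)) ≤
                  ENNReal.ofReal (Real.exp (c1 * len (p - q))) *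
                    ENNReal.ofReal (Real.exp (c1 * len q)) := by
                rw [← ENNReal.ofReal_mul (Real.exp_nonneg _), ← Real.exp_add]
                apply ENNReal.ofReal_le_ofReal
                apply Real.exp_le_exp.mpr
                have h5 := len_add (p - q) q
                rw [sub_add_cancel] at h5
                have h6 := mul_le_mul_of_nonneg_left h5 hx.c_nn
                linarith
              calc _ ≤ (ENNReal.ofReal (Real.exp (c1 * len (p - q))) *
                    ENNReal.ofReal (Real.exp (c1 * len q))) * (‖Ex x q (p - q)‖ₑ * ‖f q‖ₑ) :=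
                    mul_le_mul' h2 le_rfl
                _ = _ := by ring
    _ = ∑' q, ∑' p, ENNReal.ofReal (Real.exp (c1 * len (p - q))) * ‖Ex x q (p - q)‖ₑ *
          (ENNReal.ofReal (Real.exp (c1 * len q)) * ‖f q‖ₑ) := ENNReal.tsum_comm
    _ = ∑' q, sN c1 (Ex x q) * (ENNReal.ofReal (Real.exp (c1 * len q)) * ‖f q‖ₑ) := by
        congr 1
        funext q
        rw [ENNReal.tsum_mul_right]
        congr 1
        exact (Equiv.subRight q).tsum_eq
          (fun p => ENNReal.ofReal (Real.exp (c1 * len p)) * ‖Ex x q p‖ₑ)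
    _ ≤ sN c f := by
        refine ENNReal.tsum_le_tsum fun q => ?_
        by_cases hq : q ∈ lev n
        · calc _ ≤ ENNReal.ofReal (Real.exp (B * len q)) *
                (ENNReal.ofReal (Real.exp (c1 * len q)) * ‖f q‖ₑ) :=
                mul_le_mul' (Ex_sN h3 h4 hx hq) le_rfl
            _ = ENNReal.ofReal (Real.exp ((c1 + B) * len q)) * ‖f q‖ₑ := by
                rw [← mul_assoc, ← ENNReal.ofReal_mul (Real.exp_nonneg _), ← Real.exp_add]
                congr 3
                ring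
            _ ≤ _ := by
                refine mul_le_mul' (ENNReal.ofReal_le_ofReal (Real.exp_le_exp.mpr ?_)) le_rfl
                exact mul_le_mul_of_nonneg_right hc (len_nonneg q)
        · rw [hf q hq]
          simp

theorem ev_Ex (h3 : L03) (h4 : L04) (hx : XH n c1 B x) {q : Md} (hq : q ∈ lev n) (θ : Md →+ ℝ) :
    ev θ (Ex x q) * ch θ q = ch (sh θ x) q := by
  have hph : sN 0 (phF x q) ≠ ∞ := by
    have h := h4.2.1 n c1 B x q hx.B_nn hq hx.le
    exact ne_top_of_le_ne_top ENNReal.ofReal_ne_top ((mono hx.c_nn _).trans h)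
  have h0 : ∀ i ≤ n, sN 0 (x i) ≠ ∞ := fun i hi =>
    ne_top_of_le_ne_top ENNReal.ofReal_ne_top ((mono hx.c_nn _).trans (hx.le i hi))
  have h1 : ev θ (Ex x q) = Complex.exp (Complex.I * ev θ (phF x q)) := by
    rw [Ex, h3.2.2.1 _ (by rw [sN_I]; exact hph) θ]
    congr 1
    rw [ev, ev, ← tsum_mul_left]
    congr 1
    funext p
    simp only [smul_eq_mul]
    ring
  have h2 : ev θ (phF x q) = ((q.sum fun i z => (z : ℝ) * (ev θ (x i)).re : ℝ) : ℂ) := by
    rw [h4.2.2.2.2 n x θ q hq h0]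
    unfold Finsupp.sum
    rw [Complex.ofReal_sum]
    refine Finset.sum_congr rfl fun i hi => ?_
    have hin : i ≤ n := by
      by_contra h
      exact (Finsupp.mem_support_iff.mp hi) (hq i (by omega))
    rw [Complex.ofReal_mul, ev_re (hx.real i hin)]
    simp
  rw [h1, h2, ch, ch, ← Complex.exp_add]
  congr 1
  show _ = Complex.I * ((θ q + q.sum fun i z => (z : ℝ) * (ev θ (x i)).re : ℝ) : ℂ)
  push_cast
  ring

theorem comp_ev [CompleteSpace E] (h3 : L03) (h4 : L04) (hx : XH n c1 B x) (hc : c1 + B ≤ c)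
    (hf : SuppIn (lev n : Set Md) f) (hfin : sN c f ≠ ∞) (θ : Md →+ ℝ) :
    ev θ (comp x f) = ev (sh θ x) f := by
  have hE : ∀ q ∈ lev n, Summable fun r => ‖Ex x q r‖ := fun q hq => summ
    (ne_top_of_le_ne_top ENNReal.ofReal_ne_top ((mono hx.c_nn _).trans (Ex_sN h3 h4 hx hq)))
  -- the double sum
  set G : Md → Md → E := fun p q => ch θ p • Ex x q (p - q) • f q with hGdef
  have hGfin : ∑' z : Md × Md, ‖G z.1 z.2‖ₑ ≠ ∞ := by
    rw [ENNReal.tsum_prod', ENNReal.tsum_comm]
    refine ne_top_of_le_ne_top hfin (ENNReal.tsum_le_tsum fun q => ?_)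
    have h1 : ∀ p, ‖G p q‖ₑ = ‖Ex x q (p - q)‖ₑ * ‖f q‖ₑ := by
      intro p
      simp only [hGdef]
      rw [enorm_smul, enorm_smul, ← ofReal_norm (ch θ p), ch_norm, ENNReal.ofReal_one, one_mul]
    simp only [h1]
    rw [ENNReal.tsum_mul_right]
    by_cases hq : q ∈ lev n
    · refine mul_le_mul' ?_ le_rfl
      have h2 : ∑' p, ‖Ex x q (p - q)‖ₑ = sN 0 (Ex x q) := by
        rw [sN_zero]
        exact (Equiv.subRight q).tsum_eq (fun p => ‖Ex x q p‖ₑ)
      rw [h2]
      refine ((mono hx.c_nn _).trans (Ex_sN h3 h4 hx hq)).trans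
        (ENNReal.ofReal_le_ofReal (Real.exp_le_exp.mpr ?_))
      refine mul_le_mul_of_nonneg_right ?_ (len_nonneg q)
      linarith [hx.c_nn]
    · rw [hf q hq]
      simp
  have hG : Summable fun z : Md × Md => G z.1 z.2 := by
    apply Summable.of_norm
    have h := ENNReal.summable_toReal hGfin
    simpa using h
  calc ev θ (comp x f) = ∑' p, ∑' q, G p q := by
        rw [ev]
        congr 1
        funext p
        show ch θ p • ∑' q, Ex x q (p - q) • f q = _
        rw [← tsum_const_smul'']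
    _ = ∑' q, ∑' p, G p q := (Summable.tsum_comm (f := G) hG).symm
    _ = ev (sh θ x) f := by
        rw [ev]
        congr 1
        funext q
        by_cases hq : q ∈ lev n
        · have h1 : ∑' p, G p q = ∑' r, (ch θ r • Ex x q r) • (ch θ q • f q) := by
            rw [← (Equiv.addRight q).tsum_eq]
            congr 1
            funext r
            simp only [hGdef, Equiv.coe_addRight, add_sub_cancel_right]
            rw [ch_add, smul_smul, smul_smul, smul_eq_mul]
            congr 1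
            ring
          rw [h1, (summable_ch θ (hE q hq)).tsum_smul_const]
          show ev θ (Ex x q) • ch θ q • f q = _
          rw [smul_smul, ev_Ex h3 h4 hx hq θ]
        · simp only [hGdef, hf q hq, smul_zero, tsum_zero]

end P07

/-- L07. -/
theorem l07 (h3 : L03) (h4 : L04) : L07 := by
  intro E _ _ _ n c c1 B x f hx hc hf hfin
  exact ⟨P07.comp_sN h3 h4 hx hc hf, P07.comp_supp h3 hx hf,
    fun θ => P07.comp_ev h3 h4 hx hc hf hfin θ⟩

end Pool.Agent.Work.MP_b0497c_an.Unf.L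

end

section

set_option autoImplicit false
set_option linter.dupNamespace false

/-!
# Block L, item L29: the increment of the velocity gradient at every real label
-/

open scoped ENNReal
open Set MeasureTheory

namespace Pool.Agent.Work.MP_b0497c_an.Unf.L

open W S

namespace L29p

/-- Modes from a weighted norm, the sup over the time inside. -/
theorem bound_wt {E : Type} [NormedAddCommGroup E] [NormedSpace ℂ E] {T c B : ℝ} {α : ℝ → ℝ}
    {f : ℝ → Md → E} (hB : 0 ≤ B) (h : Nrm T c 0 α f ≤ ENNReal.ofReal B)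
    (hα : ∀ t ∈ Icc 0 T, 0 < α t) :
    ∃ u : Md → ℝ, Summable u ∧ (∀ q, 0 ≤ u q) ∧ ∑' q, u q ≤ B ∧
      ∀ t ∈ Icc 0 T, ∀ q, Real.exp (c * len q) * ‖f t q‖ ≤ α t * u q := by
  set g : Md → ℝ≥0∞ := fun m => ⨆ t ∈ Icc 0 T,
    ENNReal.ofReal (Real.exp ((c - 0 * t) * len m) / α t) * ‖f t m‖ₑ with hg
  have h1 : (∑' m, g m) ≠ ∞ := ne_top_of_le_ne_top ENNReal.ofReal_ne_top h
  have h2 : ∀ m, g m ≠ ∞ := ENNReal.ne_top_of_tsum_ne_top h1
  refine ⟨fun m => (g m).toReal, ENNReal.summable_toReal h1, fun q => ENNReal.toReal_nonneg,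
    ?_, ?_⟩
  · rw [← ENNReal.tsum_toReal_eq h2]
    have := ENNReal.toReal_mono ENNReal.ofReal_ne_top h
    rwa [ENNReal.toReal_ofReal hB] at this
  · intro t ht q
    have h0 := hα t ht
    have h3 : ENNReal.ofReal (Real.exp ((c - 0 * t) * len q) / α t) * ‖f t q‖ₑ ≤ g q :=
      le_iSup₂_of_le t ht le_rfl
    have h4 := ENNReal.toReal_mono (h2 q) h3
    rw [ENNReal.toReal_mul, ENNReal.toReal_ofReal (by positivity), toReal_enorm] at h4
    have h5 : Real.exp (c * len q) * ‖f t q‖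
        = α t * (Real.exp ((c - 0 * t) * len q) / α t * ‖f t q‖) := by
      rw [zero_mul, sub_zero]
      field_simp
    rw [h5]
    exact mul_le_mul_of_nonneg_left h4 h0.le

theorem gradV_sub_norm (K : ℕ → Fin 3 → ℤ) (f g : Md → C3) (q : Md) :
    ‖gradV K f q - gradV K g q‖ = ‖xi K q‖ * ‖f q - g q‖ := by
  have h : gradV K f q - gradV K g q = Complex.I • (innerSL ℂ (xi K q)).smulRight (f q - g q) := by
    ext1 v
    simp only [gradV, sub_apply, smul_apply, ContinuousLinearMap.smulRight_apply, smul_sub]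
  rw [h, norm_smul, Complex.norm_I, one_mul, ContinuousLinearMap.norm_smulRight_apply,
    innerSL_apply_norm]

theorem gradV_norm' (K : ℕ → Fin 3 → ℤ) (f : Md → C3) (q : Md) :
    ‖gradV K f q‖ = ‖xi K q‖ * ‖f q‖ := by
  rw [gradV, norm_smul, Complex.norm_I, one_mul, ContinuousLinearMap.norm_smulRight_apply,
    innerSL_apply_norm]

theorem len_le {c : ℝ} (hc : 0 < c) (q : Md) : len q ≤ c⁻¹ * Real.exp (c * len q) := by
  have h := Real.add_one_le_exp (c * len q)
  rw [inv_mul_eq_div, le_div_iff₀ hc]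
  linarith

end L29p

open L29p

theorem l29 : L29 := by
  intro D X U a p w0 w hD hLv hw θ
  have hG := hD.G_two
  have hG0 : 0 < D.G := by linarith
  have hc := hD.c_pos
  have hcG := hD.c_G
  have hα : ∀ t ∈ Icc 0 D.T, 0 < α1 D t :=
    (hD.α_wt (D.n + 1) (by have := hD.hmn; omega) le_rfl).pos
  have hαG : ∀ t ∈ Icc 0 D.T, α1 D t ≤ D.G :=
    hD.α_le (D.n + 1) (by have := hD.hmn; omega) le_rfl
  have hN1 : 1 ≤ N1 D := hD.N_pos (D.n + 1) le_rfl
  have hN0 : 0 < N1 D := by linarith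
  -- wave vectors
  have hNi : ∀ k, ∀ i, i + k = D.n + 1 → ‖kv (D.K i)‖ ≤ N1 D := by
    intro k
    induction k with
    | zero => intro i hi; rw [show i = D.n + 1 by omega]; exact le_rfl
    | succ k ih =>
      intro i hi
      have h1 := ih (i + 1) (by omega)
      have h2 := hD.N_sep i (by omega)
      have h3 : 0 ≤ D.N i := norm_nonneg _
      have h4 : D.N (i + 1) ≤ N1 D := h1
      have h5 : D.N i ≤ N1 D := by linarith
      exact h5
  have hxi : ∀ q ∈ lev (D.n + 1), ‖xi D.K q‖ ≤ N1 D * len q := fun q hq =>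
    (s01 D.K).2.2.1 q (D.n + 1) (N1 D) hq fun i hi => hNi (D.n + 1 - i) i (by omega)
  -- bounds for `w`
  have hu1 : u1 D ≤ 1 := (hD.u_lt _).le
  have hu0 : 0 < u1 D := hD.u_pos _
  have hc2 : 0 < D.c / 2 := by linarith
  have hc4 : 0 < D.c / 4 := by linarith
  obtain ⟨b1, hb1, hb10, hb1s, hb1b⟩ := bound_wt (by positivity) hw.w_le hα
  obtain ⟨b2, hb2, hb20, hb2s, hb2b⟩ := bound_wt (by positivity) hw.w_low hα
  have hwb : ∀ t ∈ Icc 0 D.T, ∀ q, Real.exp (D.c / 2 * len q) * ‖w t q‖ ≤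
      α1 D t * (b1 q + b2 q) := by
    intro t ht q
    have h0 := hα t ht
    have h1 := hb1b t ht q
    have h2 := hb2b t ht q
    by_cases hq : q ∈ Cl (D.n + 1)
    · have e1 : res (Cl (D.n + 1)) (w t) q = w t q := by simp [res, hq]
      rw [e1] at h1
      have := mul_nonneg h0.le (hb20 q)
      linarith
    · by_cases hq2 : q ∈ (lev D.n : Set Md)
      · have e1 : res (lev D.n : Set Md) (w t) q = w t q := by simp only [res, hq2, if_true]
        rw [e1] at h2
        have := mul_nonneg h0.le (hb10 q)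
        linarith
      · have e1 : w t q = 0 := by
          refine hw.supp t ht q fun hc1 => ?_
          by_cases h3 : q (D.n + 1) = 0
          · refine hq2 fun i hi => ?_
            rcases Nat.lt_or_ge (D.n + 1) i with h4 | h4
            · exact hc1 i h4
            · rw [show i = D.n + 1 by omega]; exact h3
          · exact hq ⟨hc1, h3⟩
        rw [e1, norm_zero, mul_zero]
        have := hb10 q
        have := hb20 q
        positivity
  have hgr : ∀ t ∈ Icc 0 D.T, ∀ q, ‖gradV D.K (w t) q‖ ≤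
      (N1 D * (D.c / 2)⁻¹ * D.G) * (b1 q + b2 q) := by
    intro t ht q
    rw [gradV_norm']
    have hbb : 0 ≤ b1 q + b2 q := add_nonneg (hb10 q) (hb20 q)
    by_cases hq : q ∈ lev (D.n + 1)
    · calc ‖xi D.K q‖ * ‖w t q‖ ≤ (N1 D * len q) * ‖w t q‖ := by
            gcongr
            exact hxi q hq
        _ ≤ (N1 D * ((D.c / 2)⁻¹ * Real.exp (D.c / 2 * len q))) * ‖w t q‖ := by
            gcongr
            exact len_le hc2 q
        _ = N1 D * (D.c / 2)⁻¹ * (Real.exp (D.c / 2 * len q) * ‖w t q‖) := by ring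
        _ ≤ N1 D * (D.c / 2)⁻¹ * (α1 D t * (b1 q + b2 q)) :=
            mul_le_mul_of_nonneg_left (hwb t ht q) (by positivity)
        _ ≤ N1 D * (D.c / 2)⁻¹ * (D.G * (b1 q + b2 q)) := by
            gcongr
            exact hαG t ht
        _ = _ := by ring
    · rw [hw.supp t ht q hq, norm_zero, mul_zero]
      positivity
  have hsum : Summable fun q => (N1 D * (D.c / 2)⁻¹ * D.G) * (b1 q + b2 q) :=
    (hb1.add hb2).mul_left _
  have hgs : ∀ t ∈ Icc 0 D.T, Summable fun q => ‖gradV D.K (w t) q‖ := fun t ht =>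
    Summable.of_nonneg_of_le (fun _ => norm_nonneg _) (hgr t ht) hsum
  have hcinv : (D.c / 2)⁻¹ ≤ D.G := by
    rw [inv_le_comm₀ hc2 hG0, ← one_div, div_le_iff₀ hG0]
    linarith
  have hcinv4 : (D.c / 4)⁻¹ ≤ 2 * D.G := by
    rw [inv_le_comm₀ hc4 (by positivity), ← one_div, div_le_iff₀ (by positivity)]
    linarith
  refine ⟨fun t ht => ?_, ?_⟩
  · refine (norm_ev_le θ (hgs t ht)).trans (((hgs t ht).tsum_le_tsum (hgr t ht) hsum).trans ?_)
    rw [tsum_mul_left, hb1.tsum_add hb2]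
    have h1 : ∑' q, b1 q + ∑' q, b2 q ≤ 2 * D.G ^ 3 / N1 D := by
      have h2 : u1 D ^ 256 ≤ D.G ^ 3 :=
        (pow_le_one₀ hu0.le hu1).trans (one_le_pow₀ (by linarith))
      have h3 : u1 D ^ 256 / N1 D ≤ D.G ^ 3 / N1 D := by gcongr
      have h4 : 2 * D.G ^ 3 / N1 D = D.G ^ 3 / N1 D + D.G ^ 3 / N1 D := by ring
      linarith
    have h0 : 0 ≤ ∑' q, b1 q + ∑' q, b2 q := add_nonneg (tsum_nonneg hb10) (tsum_nonneg hb20)
    calc N1 D * (D.c / 2)⁻¹ * D.G * (∑' q, b1 q + ∑' q, b2 q)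
        ≤ N1 D * D.G * D.G * (2 * D.G ^ 3 / N1 D) := by gcongr
      _ = 2 * D.G ^ 5 := by field_simp
      _ ≤ D.G * D.G ^ 5 := by gcongr
      _ = D.G ^ 6 := by ring
      _ ≤ D.G ^ 10 := pow_le_pow_right₀ (by linarith) (by norm_num)
  · intro s hs t ht
    obtain ⟨d, hd, hd0, hds, hdb⟩ := bound_wt (by positivity) hw.dot_le hα
    have hlip : ∀ q, ‖w t q - w s q‖ ≤ (D.G * d q * Real.exp (-(D.c / 4 * len q))) * |t - s| := by
      intro q
      have h1 := Convex.norm_image_sub_le_of_norm_hasDerivWithin_le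
        (f := fun r => w r q) (f' := fun r => RHS D w r q) (s := Icc 0 D.T)
        (C := D.G * d q * Real.exp (-(D.c / 4 * len q))) (x := s) (y := t)
        (fun r hr => hw.der q r hr)
        (fun r hr => by
          have h2 := hdb r hr q
          have h3 : ‖RHS D w r q‖ = (Real.exp (D.c / 4 * len q) * ‖RHS D w r q‖) *
              Real.exp (-(D.c / 4 * len q)) := by
            rw [mul_comm, ← mul_assoc, ← Real.exp_add]
            simp
          rw [h3]
          refine mul_le_mul_of_nonneg_right (h2.trans ?_) (Real.exp_pos _).le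
          exact mul_le_mul_of_nonneg_right (hαG r hr) (hd0 q))
        (convex_Icc 0 D.T) hs ht
      simpa using h1
    have hgd : ∀ q, ‖gradV D.K (w t) q - gradV D.K (w s) q‖ ≤
        (N1 D * (D.c / 4)⁻¹ * D.G * |t - s|) * d q := by
      intro q
      rw [gradV_sub_norm]
      by_cases hq : q ∈ lev (D.n + 1)
      · have hdq := hd0 q
        calc ‖xi D.K q‖ * ‖w t q - w s q‖
            ≤ (N1 D * len q) * ((D.G * d q * Real.exp (-(D.c / 4 * len q))) * |t - s|) := by
              have := hxi q hq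
              have := hlip q
              have := len_nonneg q
              gcongr
          _ ≤ (N1 D * ((D.c / 4)⁻¹ * Real.exp (D.c / 4 * len q))) *
              ((D.G * d q * Real.exp (-(D.c / 4 * len q))) * |t - s|) := by
              gcongr
              exact len_le hc4 q
          _ = (N1 D * (D.c / 4)⁻¹ * D.G * |t - s|) * d q *
              (Real.exp (D.c / 4 * len q) * Real.exp (-(D.c / 4 * len q))) := by ring
          _ = (N1 D * (D.c / 4)⁻¹ * D.G * |t - s|) * d q := by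
              rw [← Real.exp_add]; simp
      · rw [hw.supp t ht q hq, hw.supp s hs q hq, sub_self, norm_zero, mul_zero]
        have := hd0 q
        positivity
    have hsd : Summable fun q => (N1 D * (D.c / 4)⁻¹ * D.G * |t - s|) * d q := hd.mul_left _
    have hsd' : Summable fun q => ‖gradV D.K (w t) q - gradV D.K (w s) q‖ :=
      Summable.of_nonneg_of_le (fun _ => norm_nonneg _) hgd hsd
    have e1 : ev θ (gradV D.K (w t)) - ev θ (gradV D.K (w s))
        = ev θ (fun q => gradV D.K (w t) q - gradV D.K (w s) q) := by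
      rw [ev, ev, ev, ← (summable_ch _ (hgs t ht)).tsum_sub (summable_ch _ (hgs s hs))]
      simp only [smul_sub]
    rw [e1]
    refine (norm_ev_le θ hsd').trans ((hsd'.tsum_le_tsum hgd hsd).trans ?_)
    rw [tsum_mul_left]
    have h0 : 0 ≤ ∑' q, d q := tsum_nonneg hd0
    calc N1 D * (D.c / 4)⁻¹ * D.G * |t - s| * ∑' q, d q
        ≤ N1 D * (2 * D.G) * D.G * |t - s| * (D.G ^ 18 / N1 D) := by gcongr
      _ = 2 * D.G ^ 20 * |t - s| := by field_simp
      _ ≤ D.G * D.G ^ 20 * |t - s| := by gcongr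
      _ = D.G ^ 21 * |t - s| := by ring
      _ ≤ D.G ^ 24 * |t - s| := by
        gcongr
        · linarith
        · norm_num

end Pool.Agent.Work.MP_b0497c_an.Unf.L

end

section

set_option autoImplicit false
set_option linter.dupNamespace false

/-!
# L01: norm, continuity and support of the exponential
-/

open scoped ENNReal
open Set MeasureTheory

namespace Pool.Agent.Work.MP_b0497c_an.Unf.L

open W S

namespace L01p

variable {E : Type} [NormedAddCommGroup E] [NormedSpace ℂ E]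

/-- norm of a series -/
theorem nrm_series {T c : ℝ} {σ : ℝ → ℝ} (a : ℕ → ℂ) (f : ℕ → ℝ → Md → ℂ) :
    Nrm T c 0 σ (fun t q => ∑' k, a k * f k t q) ≤ ∑' k, ‖a k‖ₑ * Nrm T c 0 σ (f k) := by
  unfold Nrm
  calc ∑' m, ⨆ t ∈ Icc 0 T, ENNReal.ofReal (Real.exp ((c - 0 * t) * len m) / σ t) *
        ‖∑' k, a k * f k t m‖ₑ
      ≤ ∑' m, ∑' k, ‖a k‖ₑ * ⨆ t ∈ Icc 0 T,
          ENNReal.ofReal (Real.exp ((c - 0 * t) * len m) / σ t) * ‖f k t m‖ₑ := by
        refine ENNReal.tsum_le_tsum fun m => iSup₂_le fun t ht => ?_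
        refine (mul_le_mul' le_rfl enorm_tsum_le_tsum_enorm).trans ?_
        rw [← ENNReal.tsum_mul_left]
        refine ENNReal.tsum_le_tsum fun k => ?_
        rw [enorm_mul, mul_left_comm]
        refine mul_le_mul' le_rfl ?_
        exact le_iSup₂ (f := fun t (_ : t ∈ Icc 0 T) =>
          ENNReal.ofReal (Real.exp ((c - 0 * t) * len m) / σ t) * ‖f k t m‖ₑ) t ht
    _ = ∑' k, ∑' m, ‖a k‖ₑ * ⨆ t ∈ Icc 0 T,
          ENNReal.ofReal (Real.exp ((c - 0 * t) * len m) / σ t) * ‖f k t m‖ₑ := ENNReal.tsum_comm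
    _ = _ := by
        refine tsum_congr fun k => ?_
        rw [ENNReal.tsum_mul_left]

theorem nrm_cst {T c : ℝ} : Nrm T c 0 Dat.one' (fun _ => cst (1 : ℂ)) ≤ 1 := by
  unfold Nrm
  rw [tsum_eq_single (0 : Md)]
  · refine iSup₂_le fun t _ => ?_
    have h1 : ENNReal.ofReal (Real.exp ((c - 0 * t) * len (0 : Md)) / Dat.one' t) = 1 := by
      rw [len_zero]
      simp [Dat.one']
    rw [h1, one_mul]
    simp [cst]
  · intro q hq
    have h : cst (1 : ℂ) q = 0 := by simp [cst, hq]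
    simp [h]

theorem par {T c : ℝ} (hT : 0 < T) (hc : 0 ≤ c) : Par T c 0 :=
  ⟨hT, le_rfl, by rw [zero_mul]; exact hc⟩

theorem wt1 (T : ℝ) : Wt T Dat.one' :=
  ⟨fun _ _ => one_pos, continuousOn_const, fun _ _ _ _ _ => le_rfl⟩

theorem enorm_mulL : ‖ContinuousLinearMap.mul ℂ ℂ‖ₑ = 1 := by
  rw [← ofReal_norm, ContinuousLinearMap.opNorm_mul, ENNReal.ofReal_one]

/-- product with the constant weight on the left -/
theorem nrm_conv {T c : ℝ} (hT : 0 < T) (hc : 0 ≤ c) {σ : ℝ → ℝ} (hσ : Wt T σ)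
    (f g : ℝ → Md → ℂ) :
    Nrm T c 0 σ (fun t => conv (ContinuousLinearMap.mul ℂ ℂ) (f t) (g t)) ≤
      Nrm T c 0 Dat.one' f * Nrm T c 0 σ g := by
  have h := pr_W02 Md ℂ ℂ ℂ T c 0 Dat.one' σ (ContinuousLinearMap.mul ℂ ℂ) f g (par hT hc)
    (wt1 T) hσ
  have h2 : (fun t => Dat.one' t * σ t) = σ := by
    funext t
    simp [Dat.one']
  rwa [h2, enorm_mulL, one_mul] at h

theorem nrm_cpow {T c B : ℝ} (hT : 0 < T) (hc : 0 ≤ c) (hB : 0 ≤ B) {φ : ℝ → Md → ℂ}
    (h : Nrm T c 0 Dat.one' φ ≤ ENNReal.ofReal B) (k : ℕ) :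
    Nrm T c 0 Dat.one' (fun t => cpow (φ t) k) ≤ ENNReal.ofReal (B ^ k) := by
  induction k with
  | zero =>
    rw [pow_zero, ENNReal.ofReal_one]
    exact nrm_cst
  | succ k ih =>
    refine (nrm_conv hT hc (wt1 T) φ (fun t => cpow (φ t) k)).trans ?_
    rw [pow_succ', ENNReal.ofReal_mul hB]
    exact mul_le_mul' h ih

theorem cm_cpow {T c B : ℝ} (hT : 0 < T) (hc : 0 ≤ c) (hB : 0 ≤ B) {φ : ℝ → Md → ℂ}
    (h : Nrm T c 0 Dat.one' φ ≤ ENNReal.ofReal B) (hφ : CM T φ) (k : ℕ) :
    CM T (fun t => cpow (φ t) k) := by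
  induction k with
  | zero => exact fun _ => continuousOn_const
  | succ k ih =>
    exact (pr_W12 Md ℂ ℂ ℂ T c 0 Dat.one' Dat.one' (par hT hc) (wt1 T) (wt1 T)).2.2
      (ContinuousLinearMap.mul ℂ ℂ) φ _ hφ ih (ne_top_of_le_ne_top ENNReal.ofReal_ne_top h)
      (ne_top_of_le_ne_top ENNReal.ofReal_ne_top (nrm_cpow hT hc hB h k))

theorem supp_cpow {n : ℕ} {φ : Md → ℂ} (h : SuppIn (lev n : Set Md) φ) (k : ℕ) :
    SuppIn (lev n : Set Md) (cpow φ k) := by
  induction k with
  | zero =>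
    intro q hq
    have : q ≠ 0 := by
      rintro rfl
      exact hq (lev n).zero_mem
    simp [cpow, cst, this]
  | succ k ih =>
    intro q hq
    show ∑' l, ContinuousLinearMap.mul ℂ ℂ (φ (q - l)) (cpow φ k l) = 0
    have h0 : ∀ l, ContinuousLinearMap.mul ℂ ℂ (φ (q - l)) (cpow φ k l) = 0 := by
      intro l
      by_cases hl : l ∈ lev n
      · have h1 : φ (q - l) = 0 := by
          refine h _ fun h2 => hq ?_
          have h3 := (lev n).add_mem h2 hl
          rwa [sub_add_cancel] at h3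
        simp [h1]
      · rw [ih l hl, map_zero]
    simp only [h0, tsum_zero]

theorem supp_expC {n : ℕ} {φ : Md → ℂ} (h : SuppIn (lev n : Set Md) φ) :
    SuppIn (lev n : Set Md) (expC φ) := by
  intro q hq
  have h0 : ∀ k : ℕ, ((k.factorial : ℂ))⁻¹ * cpow φ k q = 0 := by
    intro k
    rw [supp_cpow h k q hq, mul_zero]
  simp only [expC, h0, tsum_zero]

theorem enorm_fac (k : ℕ) : ‖((k.factorial : ℂ))⁻¹‖ₑ = ENNReal.ofReal (1 / k.factorial) := by
  rw [← ofReal_norm, norm_inv, Complex.norm_natCast, one_div]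

theorem sum_exp {B : ℝ} (hB : 0 ≤ B) :
    ∑' k : ℕ, ‖((k.factorial : ℂ))⁻¹‖ₑ * ENNReal.ofReal (B ^ k) = ENNReal.ofReal (Real.exp B) := by
  have h1 : ∀ k : ℕ, ‖((k.factorial : ℂ))⁻¹‖ₑ * ENNReal.ofReal (B ^ k) =
      ENNReal.ofReal (B ^ k / k.factorial) := by
    intro k
    rw [enorm_fac, ← ENNReal.ofReal_mul (by positivity)]
    congr 1
    ring
  simp only [h1]
  rw [← ENNReal.ofReal_tsum_of_nonneg (fun k => by positivity) (Real.summable_pow_div_factorial B),
    Real.exp_eq_exp_ℝ, NormedSpace.exp_eq_tsum_div]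

theorem nrm_expC {T c B : ℝ} (hT : 0 < T) (hc : 0 ≤ c) (hB : 0 ≤ B) {φ : ℝ → Md → ℂ}
    (h : Nrm T c 0 Dat.one' φ ≤ ENNReal.ofReal B) :
    Nrm T c 0 Dat.one' (fun t => expC (φ t)) ≤ ENNReal.ofReal (Real.exp B) := by
  refine (nrm_series (fun k : ℕ => ((k.factorial : ℂ))⁻¹) (fun k t => cpow (φ t) k)).trans ?_
  rw [← sum_exp hB]
  exact ENNReal.tsum_le_tsum fun k => mul_le_mul' le_rfl (nrm_cpow hT hc hB h k)

theorem cm_expC {T c B : ℝ} (hT : 0 < T) (hc : 0 ≤ c) (hB : 0 ≤ B) {φ : ℝ → Md → ℂ}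
    (h : Nrm T c 0 Dat.one' φ ≤ ENNReal.ofReal B) (hφ : CM T φ) : CM T (fun t => expC (φ t)) := by
  intro q
  refine W12.continuousOn_tsum_enorm
    (g := fun t (k : ℕ) => ((k.factorial : ℂ))⁻¹ * cpow (φ t) k q)
    (u := fun k => ‖((k.factorial : ℂ))⁻¹‖ₑ * ENNReal.ofReal (B ^ k)) ?_ ?_ ?_
  · intro k
    exact continuousOn_const.mul (cm_cpow hT hc hB h hφ k q)
  · intro t ht k
    rw [enorm_mul]
    exact mul_le_mul' le_rfl ((LComp.enorm_le_nrm hc (fun t => cpow (φ t) k) q ht).trans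
      (nrm_cpow hT hc hB h k))
  · rw [sum_exp hB]
    exact ENNReal.ofReal_ne_top

end L01p

theorem l01 : L01 := by
  intro T c B φ hT hc hB h
  exact ⟨L01p.nrm_expC hT hc hB h, fun hφ => L01p.cm_expC hT hc hB h hφ,
    fun n hn t ht => L01p.supp_expC (hn t ht)⟩

end Pool.Agent.Work.MP_b0497c_an.Unf.L

end

section

set_option autoImplicit false
set_option linter.dupNamespace false

/-!
# L05: norm, continuity, support of a composition
-/

open scoped ENNReal
open Set MeasureTheory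

namespace Pool.Agent.Work.MP_b0497c_an.Unf.L

open W S LComp

theorem l05 (h01 : L01) : L05 := by
  intro E _ _ _ n T c c1 B ρ x f hT hc1 hB hc hρ hf hx
  refine ⟨?_, ?_, ?_⟩
  · have h1 := engine (T := T) hc1 (σ := Dat.one') (ρ := ρ) (fun t _ => by simp [Dat.one'])
      (fun t q => Eq (x t) q) f
    have h2 : (fun t => Dat.one' t * ρ t) = ρ := by
      funext t
      simp [Dat.one']
    rw [h2] at h1
    refine h1.trans ?_
    rw [nrm_eq T c ρ f]
    refine ENNReal.tsum_le_tsum fun q => ?_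
    by_cases hq : q ∈ lev n
    · rw [← mul_assoc]
      gcongr
      refine (mul_le_mul' (nrm_Eq h01 hT hc1 hB hq hx) le_rfl).trans ?_
      rw [← ENNReal.ofReal_mul (Real.exp_nonneg _), ← Real.exp_add]
      apply ENNReal.ofReal_le_ofReal
      apply Real.exp_le_exp.2
      have := len_nonneg q
      nlinarith
    · rw [sp_zero ρ fun t ht => hf t ht q hq]
      simp
  · intro hfc hxc hfin p
    simp only [comp_eq]
    refine W12.continuousOn_tsum_enorm (g := fun t q => Eq (x t) q (p - q) • f t q)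
      (u := fun q => ENNReal.ofReal (ρ T) * (ENNReal.ofReal (Real.exp (c * len q)) * sp T ρ f q))
      ?_ ?_ (sum_fin hfin)
    · intro q
      by_cases hq : q ∈ lev n
      · exact ContinuousOn.smul (cm_Eq h01 hT hc1 hB hq hx hxc (p - q)) (hfc q)
      · refine (continuousOn_const (c := (0 : E))).congr fun t ht => ?_
        show Eq (x t) q (p - q) • f t q = 0
        rw [hf t ht q hq, smul_zero]
    · intro t ht q
      exact term_le h01 hT hc1 hB hc hρ hf hx ht p q
  · intro hxs t ht p hp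
    show comp (x t) (f t) p = 0
    rw [comp_eq]
    have h0 : ∀ q, Eq (x t) q (p - q) • f t q = 0 := by
      intro q
      by_cases hq : q ∈ lev n
      · have h1 : Eq (x t) q (p - q) = 0 := by
          refine supp_Eq h01 hT hc1 hB hq hx hxs t ht (p - q) fun h2 => hp ?_
          have h3 := (lev n).add_mem h2 hq
          rwa [sub_add_cancel] at h3
        rw [h1, zero_smul]
      · rw [hf t ht q hq, smul_zero]
    simp only [h0, tsum_zero]

end Pool.Agent.Work.MP_b0497c_an.Unf.L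

end

section

set_option autoImplicit false
set_option linter.dupNamespace false

/-!
# L06: difference of two compositions
-/

open scoped ENNReal
open Set MeasureTheory

namespace Pool.Agent.Work.MP_b0497c_an.Unf.L

open W S LComp

theorem l06 (h01 : L01) (h02 : L02) : L06 := by
  intro E _ _ _ n T c c1 B δ ρ σ x y f hT hc1 hB hδ hc hρ hσ hf hfin hx hy hxy
  have hsum : ∀ (z : ℝ → ℕ → Md → ℂ),
      (∀ i ≤ n, Nrm T c1 0 Dat.one' (fun t => z t i) ≤ ENNReal.ofReal B) →
      ∀ t ∈ Icc 0 T, ∀ p : Md, Summable fun q => Eq (z t) q (p - q) • f t q := by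
    intro z hz t ht p
    apply Summable.of_norm
    have h1 : (∑' q, ‖Eq (z t) q (p - q) • f t q‖ₑ) ≠ ∞ :=
      ne_top_of_le_ne_top (sum_fin hfin)
        (ENNReal.tsum_le_tsum fun q => term_le h01 hT hc1 hB hc.le hρ hf hz ht p q)
    simpa [toReal_enorm] using ENNReal.summable_toReal h1
  have hEq : ∀ t ∈ Icc 0 T, comp (x t) (f t) - comp (y t) (f t) =
      fun p => ∑' q, (Eq (x t) q (p - q) - Eq (y t) q (p - q)) • f t q := by
    intro t ht
    funext p
    rw [Pi.sub_apply, comp_eq, comp_eq, ← (hsum x hx t ht p).tsum_sub (hsum y hy t ht p)]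
    refine tsum_congr fun q => ?_
    rw [sub_smul]
  have hN : Nrm T c1 0 (fun t => σ t * ρ t) (fun t => comp (x t) (f t) - comp (y t) (f t)) =
      Nrm T c1 0 (fun t => σ t * ρ t)
        (fun t p => ∑' q, (Eq (x t) q (p - q) - Eq (y t) q (p - q)) • f t q) := by
    unfold Nrm
    refine tsum_congr fun m => ?_
    refine iSup_congr fun t => iSup_congr fun ht => ?_
    simp only [hEq t ht]
  rw [hN]
  refine (engine hc1 (σ := σ) (ρ := ρ) hσ.pos (fun t q k => Eq (x t) q k - Eq (y t) q k) f).trans ?_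
  rw [nrm_eq T c ρ f, ← ENNReal.tsum_mul_left]
  refine ENNReal.tsum_le_tsum fun q => ?_
  by_cases hq : q ∈ lev n
  · have hl := len_nonneg q
    have h1 : Nrm T c1 0 σ (fun t k => Eq (x t) q k - Eq (y t) q k) ≤
        ENNReal.ofReal (δ * len q * Real.exp (B * len q)) := by
      refine h02 T c1 (B * len q) (δ * len q) σ (fun t r => Complex.I * phF (x t) q r)
        (fun t r => Complex.I * phF (y t) q r) hT hc1 (mul_nonneg hB hl) (mul_nonneg hδ hl) hσ
        (nrm_Iph hB hq hx) (nrm_Iph hB hq hy) ?_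
      have h2 := nrm_Iph (x := fun t i => x t i - y t i) hδ hq hxy
      refine le_trans (le_of_eq ?_) h2
      congr 1
      funext t r
      show Complex.I * phF (x t) q r - Complex.I * phF (y t) q r = _
      rw [← mul_sub]
      congr 1
      unfold phF Finsupp.sum
      rw [← Finset.sum_sub_distrib]
      refine Finset.sum_congr rfl fun i _ => ?_
      show ((q i : ℤ) : ℂ) * x t i r - ((q i : ℤ) : ℂ) * y t i r =
        ((q i : ℤ) : ℂ) * (x t i r - y t i r)
      ring
    rw [← mul_assoc, ← mul_assoc]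
    refine mul_le_mul' ?_ le_rfl
    refine (mul_le_mul' h1 le_rfl).trans ?_
    have hk : 0 < c - c1 - B := by linarith
    rw [← ENNReal.ofReal_mul (by positivity), ← ENNReal.ofReal_mul (by positivity)]
    apply ENNReal.ofReal_le_ofReal
    have h3 : (c - c1 - B) * len q ≤ Real.exp ((c - c1 - B) * len q) := by
      have := Real.add_one_le_exp ((c - c1 - B) * len q)
      linarith
    have h4 : Real.exp (c * len q) = Real.exp ((c - c1 - B) * len q) * Real.exp (B * len q) *
        Real.exp (c1 * len q) := by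
      rw [← Real.exp_add, ← Real.exp_add]
      congr 1
      ring
    have h5 : len q ≤ Real.exp ((c - c1 - B) * len q) / (c - c1 - B) := by
      rw [le_div_iff₀ hk]
      linarith
    calc δ * len q * Real.exp (B * len q) * Real.exp (c1 * len q)
        ≤ δ * (Real.exp ((c - c1 - B) * len q) / (c - c1 - B)) * Real.exp (B * len q) *
          Real.exp (c1 * len q) := by gcongr
      _ = δ / (c - c1 - B) * Real.exp (c * len q) := by
          rw [h4]
          ring
  · rw [sp_zero ρ fun t ht => hf t ht q hq]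
    simp

end Pool.Agent.Work.MP_b0497c_an.Unf.L

end

section

set_option autoImplicit false
set_option linter.dupNamespace false

/-!
# L02: difference of exponentials in a weight
-/

open scoped ENNReal
open Set MeasureTheory

namespace Pool.Agent.Work.MP_b0497c_an.Unf.L

open W S

namespace L02p

open L01p

theorem nrm_congr {T c : ℝ} {σ : ℝ → ℝ} {f g : ℝ → Md → ℂ} (h : ∀ t ∈ Icc 0 T, f t = g t) :
    Nrm T c 0 σ f = Nrm T c 0 σ g := by
  unfold Nrm
  refine tsum_congr fun m => iSup_congr fun t => iSup_congr fun ht => ?_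
  rw [h t ht]

theorem static_fin {T c : ℝ} (hc : 0 ≤ c) {f : ℝ → Md → ℂ} (hf : Nrm T c 0 Dat.one' f ≠ ∞) {t : ℝ}
    (ht : t ∈ Icc 0 T) : sN 0 (f t) ≠ ∞ := by
  refine ne_top_of_le_ne_top hf ?_
  unfold sN Nrm
  refine ENNReal.tsum_le_tsum fun m => ?_
  refine le_trans ?_ (le_iSup₂ (f := fun t (_ : t ∈ Icc 0 T) =>
    ENNReal.ofReal (Real.exp ((c - 0 * t) * len m) / Dat.one' t) * ‖f t m‖ₑ) t ht)
  refine mul_le_mul' (ENNReal.ofReal_le_ofReal ?_) le_rfl
  have h1 := len_nonneg m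
  simp only [zero_mul, sub_zero, Dat.one', div_one]
  exact Real.exp_le_exp.2 (by positivity)

theorem summ {f g : Md → ℂ} (hf : sN 0 f ≠ ∞) (hg : sN 0 g ≠ ∞) (q : Md) :
    Summable fun l => f (q - l) * g l := by
  have h : ∑' l, ‖f (q - l) * g l‖ₑ ≠ ∞ := by
    refine ne_top_of_le_ne_top (ENNReal.mul_ne_top hf hg) ?_
    rw [show sN 0 f * sN 0 g = ∑' l, sN 0 f * (ENNReal.ofReal (Real.exp (0 * len l)) * ‖g l‖ₑ)
      from ENNReal.tsum_mul_left.symm]
    refine ENNReal.tsum_le_tsum fun l => ?_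
    rw [enorm_mul]
    refine mul_le_mul' ?_ ?_
    · exact (le_mul_of_one_le_left zero_le (W12.one_le_exp_len le_rfl (q - l))).trans
        (ENNReal.le_tsum (f := fun l => ENNReal.ofReal (Real.exp (0 * len l)) * ‖f l‖ₑ) (q - l))
    · exact le_mul_of_one_le_left zero_le (W12.one_le_exp_len le_rfl l)
  have h2 := ENNReal.summable_toReal h
  simp only [toReal_enorm] at h2
  exact h2.of_norm

/-- product rule for differences -/
theorem conv_dif {f f' g g' : Md → ℂ} (hf : sN 0 f ≠ ∞) (hf' : sN 0 f' ≠ ∞) (hg : sN 0 g ≠ ∞)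
    (hg' : sN 0 g' ≠ ∞) :
    conv (ContinuousLinearMap.mul ℂ ℂ) f g - conv (ContinuousLinearMap.mul ℂ ℂ) f' g' =
      conv (ContinuousLinearMap.mul ℂ ℂ) f (g - g') +
        conv (ContinuousLinearMap.mul ℂ ℂ) (f - f') g' := by
  funext q
  simp only [Pi.sub_apply, Pi.add_apply, conv, ContinuousLinearMap.mul_apply']
  have s1 := summ hf hg q
  have s2 := summ hf hg' q
  have s3 := summ hf' hg' q
  have e1 : ∀ l, f (q - l) * (g l - g' l) = f (q - l) * g l - f (q - l) * g' l := fun l => by ring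
  have e2 : ∀ l, (f (q - l) - f' (q - l)) * g' l = f (q - l) * g' l - f' (q - l) * g' l :=
    fun l => by ring
  simp only [e1, e2]
  rw [s1.tsum_sub s2, s2.tsum_sub s3]
  ring

/-- product with the constant weight on the right -/
theorem nrm_conv' {T c : ℝ} (hT : 0 < T) (hc : 0 ≤ c) {σ : ℝ → ℝ} (hσ : Wt T σ)
    (f g : ℝ → Md → ℂ) :
    Nrm T c 0 σ (fun t => conv (ContinuousLinearMap.mul ℂ ℂ) (f t) (g t)) ≤
      Nrm T c 0 σ f * Nrm T c 0 Dat.one' g := by
  have h := pr_W02 Md ℂ ℂ ℂ T c 0 σ Dat.one' (ContinuousLinearMap.mul ℂ ℂ) f g (par hT hc)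
    hσ (wt1 T)
  have h2 : (fun t => σ t * Dat.one' t) = σ := by
    funext t
    simp [Dat.one']
  rwa [h2, enorm_mulL, one_mul] at h

section

variable {T c B δ : ℝ} {σ : ℝ → ℝ} {φ ψ : ℝ → Md → ℂ}

theorem nrm_dif (hT : 0 < T) (hc : 0 ≤ c) (hB : 0 ≤ B) (hδ : 0 ≤ δ) (hσ : Wt T σ)
    (h1 : Nrm T c 0 Dat.one' φ ≤ ENNReal.ofReal B) (h2 : Nrm T c 0 Dat.one' ψ ≤ ENNReal.ofReal B)
    (h3 : Nrm T c 0 σ (fun t => φ t - ψ t) ≤ ENNReal.ofReal δ) (k : ℕ) :
    Nrm T c 0 σ (fun t => cpow (φ t) k - cpow (ψ t) k) ≤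
      ENNReal.ofReal (k * B ^ (k - 1) * δ) := by
  induction k with
  | zero =>
    have h4 : ∀ t : ℝ, cpow (φ t) 0 - cpow (ψ t) 0 = 0 := fun t => by simp [cpow]
    simp only [h4]
    simp [Nrm]
  | succ k ih =>
    have f1 := ne_top_of_le_ne_top ENNReal.ofReal_ne_top h1
    have f2 := ne_top_of_le_ne_top ENNReal.ofReal_ne_top h2
    have g1 := ne_top_of_le_ne_top ENNReal.ofReal_ne_top (nrm_cpow hT hc hB h1 k)
    have g2 := ne_top_of_le_ne_top ENNReal.ofReal_ne_top (nrm_cpow hT hc hB h2 k)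
    have e : ∀ t ∈ Icc 0 T, cpow (φ t) (k + 1) - cpow (ψ t) (k + 1) =
        conv (ContinuousLinearMap.mul ℂ ℂ) (φ t) (cpow (φ t) k - cpow (ψ t) k) +
          conv (ContinuousLinearMap.mul ℂ ℂ) (φ t - ψ t) (cpow (ψ t) k) := fun t ht =>
      conv_dif (static_fin hc f1 ht) (static_fin hc f2 ht) (static_fin hc g1 ht)
        (static_fin hc g2 ht)
    rw [nrm_congr e]
    have h5 := (pr_W05 Md ℂ T c 0 σ σ
      (fun t => conv (ContinuousLinearMap.mul ℂ ℂ) (φ t) (cpow (φ t) k - cpow (ψ t) k))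
      (fun t => conv (ContinuousLinearMap.mul ℂ ℂ) (φ t - ψ t) (cpow (ψ t) k))
      (par hT hc) hσ hσ).2.2.1
    refine le_trans h5 ?_
    have h6 : Nrm T c 0 σ
        (fun t => conv (ContinuousLinearMap.mul ℂ ℂ) (φ t) (cpow (φ t) k - cpow (ψ t) k)) ≤
        ENNReal.ofReal (k * B ^ k * δ) := by
      refine (nrm_conv hT hc hσ φ _).trans ((mul_le_mul' h1 ih).trans ?_)
      rw [← ENNReal.ofReal_mul hB]
      refine ENNReal.ofReal_le_ofReal (le_of_eq ?_)
      cases k with
      | zero => simp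
      | succ j =>
        simp only [Nat.add_sub_cancel]
        ring
    have h7 : Nrm T c 0 σ
        (fun t => conv (ContinuousLinearMap.mul ℂ ℂ) (φ t - ψ t) (cpow (ψ t) k)) ≤
        ENNReal.ofReal (B ^ k * δ) := by
      refine (nrm_conv' hT hc hσ (fun t => φ t - ψ t) _).trans
        ((mul_le_mul' h3 (nrm_cpow hT hc hB h2 k)).trans ?_)
      rw [← ENNReal.ofReal_mul hδ, mul_comm]
    refine (add_le_add h6 h7).trans ?_
    rw [← ENNReal.ofReal_add (by positivity) (by positivity)]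
    refine ENNReal.ofReal_le_ofReal (le_of_eq ?_)
    push_cast
    ring

theorem summ_exp (hT : 0 < T) (hc : 0 ≤ c) (hB : 0 ≤ B)
    (h1 : Nrm T c 0 Dat.one' φ ≤ ENNReal.ofReal B) {t : ℝ} (ht : t ∈ Icc 0 T) (q : Md) :
    Summable fun k : ℕ => ((k.factorial : ℂ))⁻¹ * cpow (φ t) k q := by
  have h : ∑' k : ℕ, ‖((k.factorial : ℂ))⁻¹ * cpow (φ t) k q‖ₑ ≠ ∞ := by
    refine ne_top_of_le_ne_top ENNReal.ofReal_ne_top (le_trans ?_ (sum_exp hB).le)
    refine ENNReal.tsum_le_tsum fun k => ?_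
    rw [enorm_mul]
    exact mul_le_mul' le_rfl ((LComp.enorm_le_nrm hc (fun t => cpow (φ t) k) q ht).trans
      (nrm_cpow hT hc hB h1 k))
  have h2 := ENNReal.summable_toReal h
  simp only [toReal_enorm] at h2
  exact h2.of_norm

theorem sum_dif (hB : 0 ≤ B) (hδ : 0 ≤ δ) :
    ∑' k : ℕ, ‖((k.factorial : ℂ))⁻¹‖ₑ * ENNReal.ofReal (k * B ^ (k - 1) * δ) =
      ENNReal.ofReal (δ * Real.exp B) := by
  rw [tsum_eq_zero_add' ENNReal.summable]
  have h0 : ‖(((0 : ℕ).factorial : ℂ))⁻¹‖ₑ * ENNReal.ofReal ((0 : ℕ) * B ^ (0 - 1) * δ) = 0 := by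
    simp
  rw [h0, zero_add, ENNReal.ofReal_mul hδ, ← sum_exp hB, ← ENNReal.tsum_mul_left]
  refine tsum_congr fun k => ?_
  rw [enorm_fac, enorm_fac, ← ENNReal.ofReal_mul (by positivity),
    ← ENNReal.ofReal_mul (by positivity), ← ENNReal.ofReal_mul hδ]
  congr 1
  rw [Nat.factorial_succ]
  have h1 : (0 : ℝ) < (k.factorial : ℝ) := by exact_mod_cast k.factorial_pos
  push_cast
  field_simp

end

end L02p

open L01p L02p in
theorem l02 : L02 := by
  intro T c B δ σ φ ψ hT hc hB hδ hσ h1 h2 h3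
  have e : ∀ t ∈ Icc 0 T, expC (φ t) - expC (ψ t) =
      fun q => ∑' k : ℕ, ((k.factorial : ℂ))⁻¹ * (cpow (φ t) k - cpow (ψ t) k) q := by
    intro t ht
    funext q
    have s1 := summ_exp hT hc hB h1 ht q
    have s2 := summ_exp hT hc hB h2 ht q
    simp only [Pi.sub_apply, expC, mul_sub]
    rw [s1.tsum_sub s2]
  rw [nrm_congr e]
  refine (nrm_series (fun k : ℕ => ((k.factorial : ℂ))⁻¹)
    (fun k t => cpow (φ t) k - cpow (ψ t) k)).trans ?_
  rw [← sum_dif hB hδ]
  exact ENNReal.tsum_le_tsum fun k => mul_le_mul' le_rfl (nrm_dif hT hc hB hδ hσ h1 h2 h3 k)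

end Pool.Agent.Work.MP_b0497c_an.Unf.L

end
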