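import Pool.Agent.Work.MP_b0497c_an.Unf.LStmts
import Pool.Agent.Work.MP_b0497c_an.Bd.B08
import Pool.Agent.Work.MP_b0497c_an.Bd.B03
import Pool.Agent.Work.MP_b0497c_an.Unf.W13
import Pool.Agent.Work.MP_b0497c_an.Bd.B26
import Pool.Agent.Work.MP_b0497c_an.Unf.DLag
import Pool.Agent.Work.MP_b0497c_an.Unf.AMono

/-! Bundle of small proof modules (one section per former module). -/

section

set_option autoImplicit false
set_option linter.dupNamespace false
set_option linter.unusedSectionVars false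

/-!
# L13: the label ODE `ζ' = V ∘ M`
-/

open scoped ENNReal
open Set MeasureTheory

namespace Pool.Agent.Work.MP_b0497c_an.Unf.L

open W S

section prim

variable {E F : Type} [NormedAddCommGroup E] [NormedSpace ℂ E] [CompleteSpace E]
  [NormedAddCommGroup F] [NormedSpace ℂ F] [CompleteSpace F] {T c : ℝ}

/-- the primitive -/
noncomputable def l13_prim (g : ℝ → Md → E) (t : ℝ) (q : Md) : E := ∫ s in (0 : ℝ)..t, g s q

theorem l13_prim_zero (g : ℝ → Md → E) : l13_prim g 0 = 0 := by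
  funext q
  simp [l13_prim]

theorem l13_prim_int {g : ℝ → Md → E} (hg : CM T g) (q : Md) {t : ℝ} (ht : t ∈ Icc 0 T) :
    IntervalIntegrable (fun s => g s q) volume 0 t :=
  ((hg q).mono (Icc_subset_Icc_right ht.2)).intervalIntegrable_of_Icc ht.1

theorem l13_prim_der {g : ℝ → Md → E} (hg : CM T g) (q : Md) {t : ℝ}
    (ht : t ∈ Icc 0 T) : HasDerivWithinAt (fun t => l13_prim g t q) (g t q) (Icc 0 T) t := by
  have hI := l13_prim_int hg q ht
  have : intervalIntegral.FTCFilter t (nhdsWithin t (Icc 0 T)) (nhdsWithin t (Icc 0 T)) := by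
    have : Fact (t ∈ Icc 0 T) := ⟨ht⟩
    infer_instance
  refine intervalIntegral.integral_hasDerivWithinAt_right hI ?_ (hg q t ht)
  exact (hg q).stronglyMeasurableAtFilter_nhdsWithin measurableSet_Icc t

theorem l13_prim_cm {g : ℝ → Md → E} (hg : CM T g) : CM T (l13_prim g) :=
  fun q _ ht => (l13_prim_der hg q ht).continuousWithinAt

theorem l13_prim_le {α : ℝ → ℝ} (hP : Par T c 0) (hα : Wt T α) (hT : T ≤ 1) {g : ℝ → Md → E}
    (hg : CM T g) : Nrm T c 0 α (l13_prim g) ≤ Nrm T c 0 α g :=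
  (pr_W08 Md E T c 0 α g hP hα hg).trans (sa_src_le hP hα hT g)

theorem l13_prim_congr {g h : ℝ → Md → E} {t : ℝ} (ht : t ∈ Icc 0 T) {q p : Md}
    (hgh : ∀ s ∈ Icc 0 T, g s q = h s p) : l13_prim g t q = l13_prim h t p := by
  refine intervalIntegral.integral_congr fun s hs => ?_
  rw [uIcc_of_le ht.1] at hs
  exact hgh s ⟨hs.1, hs.2.trans ht.2⟩

theorem l13_prim_map (L : E →L[ℂ] F) {g : ℝ → Md → E} (hg : CM T g) {t : ℝ} (ht : t ∈ Icc 0 T)
    (q : Md) : l13_prim (fun s q => L (g s q)) t q = L (l13_prim g t q) :=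
  L.intervalIntegral_comp_comm (l13_prim_int hg q ht)

theorem l13_prim_neg (g : ℝ → Md → E) (t : ℝ) (q : Md) : l13_prim (fun s q => -g s q) t q = -l13_prim g t q :=
  intervalIntegral.integral_neg

theorem l13_prim_sub {g h : ℝ → Md → E} (hg : CM T g) (hh : CM T h) {t : ℝ} (ht : t ∈ Icc 0 T) :
    l13_prim (fun s => g s - h s) t = l13_prim g t - l13_prim h t := by
  funext q
  exact intervalIntegral.integral_sub (l13_prim_int hg q ht) (l13_prim_int hh q ht)

theorem l13_prim_eq_zero {g : ℝ → Md → E} {t : ℝ} (ht : t ∈ Icc 0 T) {q : Md}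
    (h : ∀ s ∈ Icc 0 T, g s q = 0) : l13_prim g t q = 0 := by
  rw [l13_prim_congr (h := fun _ _ => (0 : E)) (p := q) ht h]
  simp [l13_prim]

theorem l13_prim_conj {g : ℝ → Md → ℂ} (hg : CM T g) {t : ℝ} (ht : t ∈ Icc 0 T)
    (q : Md) : l13_prim (fun s q => starRingEnd ℂ (g s q)) t q = starRingEnd ℂ (l13_prim g t q) :=
  (Complex.conjCLE : ℂ →L[ℝ] ℂ).intervalIntegral_comp_comm (l13_prim_int hg q ht)

end prim

section cg

variable {E : Type} [NormedAddCommGroup E] [NormedSpace ℂ E] {n : ℕ}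

theorem l13_phF_congr {x y : ℕ → Md → ℂ} (h : ∀ i ≤ n, x i = y i) {q : Md} (hq : q ∈ lev n) :
    phF x q = phF y q := by
  funext p
  unfold phF
  refine Finsupp.sum_congr fun i hi => ?_
  have h1 : i ≤ n := by
    by_contra h2
    exact (Finsupp.mem_support_iff.mp hi) (hq i (not_le.mp h2))
  rw [h i h1]

theorem l13_comp_congr {x y : ℕ → Md → ℂ} (h : ∀ i ≤ n, x i = y i) {f : Md → E}
    (hf : SuppIn (lev n : Set Md) f) : comp x f = comp y f := by
  funext p
  unfold comp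
  refine tsum_congr fun q => ?_
  by_cases hq : q ∈ lev n
  · rw [l13_phF_congr h hq]
  · rw [hf q hq, smul_zero, smul_zero]

end cg

section sym

variable {n : ℕ}

/-- the displacements of the unknown -/
noncomputable def l13_extd (n : ℕ) (y : Md → (Fin (n + 1) → ℂ)) (i : ℕ) (q : Md) : ℂ :=
  if h : i < n + 1 then y q ⟨i, h⟩ else 0

theorem l13_extd_norm (y : Md → (Fin (n + 1) → ℂ)) (i : ℕ) (q : Md) : ‖l13_extd n y i q‖ ≤ ‖y q‖ := by
  unfold l13_extd
  split_ifs with h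
  · exact norm_le_pi_norm (y q) _
  · simp

theorem l13_extd_sub (y z : Md → (Fin (n + 1) → ℂ)) (i : ℕ) :
    l13_extd n y i - l13_extd n z i = l13_extd n (y - z) i := by
  funext q
  simp only [l13_extd, Pi.sub_apply]
  split_ifs with h
  · rfl
  · simp

/-- the first part of the symmetrisation -/
noncomputable def l13_symA (u : Md → (Fin (n + 1) → ℂ)) (q : Md) (i : Fin (n + 1)) : ℂ :=
  (1 / 4) * (u q i - starRingEnd ℂ (u q i))

/-- the symmetrisation (real and odd part) -/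
noncomputable def l13_sym (u : Md → (Fin (n + 1) → ℂ)) (q : Md) : Fin (n + 1) → ℂ :=
  l13_symA u q - l13_symA u (-q)

theorem l13_symA_norm (u : Md → (Fin (n + 1) → ℂ)) (q : Md) : ‖l13_symA u q‖ ≤ 1 / 2 * ‖u q‖ := by
  refine (pi_norm_le_iff_of_nonneg (by positivity)).mpr fun i => ?_
  have h1 : ‖u q i‖ ≤ ‖u q‖ := norm_le_pi_norm _ _
  calc ‖l13_symA u q i‖ = 1 / 4 * ‖u q i - starRingEnd ℂ (u q i)‖ := by
        unfold l13_symA
        rw [norm_mul]
        norm_num
    _ ≤ 1 / 4 * (‖u q i‖ + ‖starRingEnd ℂ (u q i)‖) := by gcongr; exact norm_sub_le _ _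
    _ = 1 / 2 * ‖u q i‖ := by rw [RCLike.norm_conj]; ring
    _ ≤ _ := by gcongr

theorem l13_sym_sub (u v : Md → (Fin (n + 1) → ℂ)) : l13_sym (u - v) = l13_sym u - l13_sym v := by
  funext q i
  simp only [l13_sym, l13_symA, Pi.sub_apply, map_sub]
  ring

theorem l13_sym_odd (u : Md → (Fin (n + 1) → ℂ)) (q : Md) (i : Fin (n + 1)) :
    l13_sym u (-q) i = - l13_sym u q i := by
  simp only [l13_sym, Pi.sub_apply, neg_neg]
  ring

theorem l13_sym_real (u : Md → (Fin (n + 1) → ℂ)) (q : Md) (i : Fin (n + 1)) :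
    l13_sym u (-q) i = starRingEnd ℂ (l13_sym u q i) := by
  simp only [l13_sym, l13_symA, Pi.sub_apply, neg_neg, map_sub, map_mul, Complex.conj_conj, map_div₀,
    map_one, map_ofNat]
  ring

theorem l13_sym_fix {u : Md → (Fin (n + 1) → ℂ)} (h1 : ∀ q i, u (-q) i = - u q i)
    (h2 : ∀ q i, u (-q) i = starRingEnd ℂ (u q i)) : l13_sym u = u := by
  funext q i
  have e1 : starRingEnd ℂ (u q i) = - u q i := by rw [← h2, h1]
  have e2 : starRingEnd ℂ (u (-q) i) = u q i := by rw [← h2, neg_neg]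
  simp only [l13_sym, l13_symA, Pi.sub_apply]
  rw [e1, e2, h1]
  ring

theorem l13_sym_nrm {T c : ℝ} (hP : Par T c 0) (u : ℝ → Md → (Fin (n + 1) → ℂ)) :
    Nrm T c 0 Dat.one' (fun t => l13_sym (u t)) ≤ Nrm T c 0 Dat.one' u := by
  have h1 : Nrm T c 0 Dat.one' (fun t => l13_symA (u t)) ≤
      ENNReal.ofReal (1 / 2) * Nrm T c 0 Dat.one' u :=
    sa_nrm_le (by norm_num) fun t _ q => l13_symA_norm (u t) q
  have h2 : Nrm T c 0 Dat.one' (fun t q => l13_symA (u t) (-q)) ≤
      Nrm T c 0 Dat.one' (fun t => l13_symA (u t)) :=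
    sa_nrm_le_neg fun t _ q => le_rfl
  have h3 := sa_nrm_sub hP (sa_wt1 T) (fun t => l13_symA (u t)) (fun t q => l13_symA (u t) (-q))
  refine (h3.trans (add_le_add h1 (h2.trans h1))).trans ?_
  rw [← add_mul, ← ENNReal.ofReal_add (by norm_num) (by norm_num)]
  norm_num

theorem l13_sym_cm {T : ℝ} {u : ℝ → Md → (Fin (n + 1) → ℂ)} (hu : CM T u) :
    CM T (fun t => l13_sym (u t)) := by
  intro q
  have h1 : ∀ q, ContinuousOn (fun t => l13_symA (u t) q) (Icc 0 T) := by
    intro q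
    refine continuousOn_pi.mpr fun i => ?_
    have h2 : ContinuousOn (fun t => u t q i) (Icc 0 T) := continuousOn_pi.mp (hu q) i
    unfold l13_symA
    exact continuousOn_const.mul (h2.sub (Complex.continuous_conj.comp_continuousOn h2))
  exact (h1 q).sub (h1 (-q))

end sym

section res

variable {E : Type} [NormedAddCommGroup E] [NormedSpace ℂ E] {T c : ℝ} {n : ℕ}

theorem l13_res_le {α : ℝ → ℝ} (S : Set Md) (f : ℝ → Md → E) :
    Nrm T c 0 α (fun t => res S (f t)) ≤ Nrm T c 0 α f := by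
  refine sa_nrm_le1 fun t _ q => ?_
  by_cases hq : q ∈ S
  · simp [res, hq]
  · simp [res, hq]

theorem l13_cm_res {f : ℝ → Md → E} (S : Set Md) (hf : CM T f) :
    CM T (fun t => res S (f t)) := by
  intro q
  by_cases hq : q ∈ S
  · simpa [res, hq] using hf q
  · simpa [res, hq] using (continuousOn_const : ContinuousOn (fun _ : ℝ => (0 : E)) (Icc 0 T))

theorem l13_res_sub (S : Set Md) (f g : Md → E) : res S (f - g) = res S f - res S g := by
  funext q
  by_cases hq : q ∈ S <;> simp [res, hq]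

theorem l13_res_self {S : Set Md} {f : Md → E} (h : SuppIn S f) : res S f = f := by
  funext q
  by_cases hq : q ∈ S
  · simp [res, hq]
  · simp [res, hq, h q hq]

theorem l13_res_in (f : Md → E) {q : Md} (h : q ∈ lev n) : res (lev n : Set Md) f q = f q := by
  unfold res
  exact if_pos h

theorem l13_res_out (f : Md → E) {q : Md} (h : q ∉ lev n) : res (lev n : Set Md) f q = 0 := by
  unfold res
  exact if_neg h

end res

theorem l13_inner_cjv (k : Fin 3 → ℤ) (v : C3) :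
    innerSL ℂ (kv k) (cjv v) = starRingEnd ℂ (innerSL ℂ (kv k) v) := by
  rw [innerSL_apply_apply, innerSL_apply_apply, PiLp.inner_apply, PiLp.inner_apply, map_sum]
  refine Finset.sum_congr rfl fun i _ => ?_
  simp [kv, cjv]

theorem l13 (h05 : L05) (h06 : L06) (h10 : L10) : L13 := by
  intro n K T c c1 B V hT hT1 hc1 hB hcB hV hVodd hkapn
  have hPar1 : Par T c1 0 := ⟨hT, le_rfl, by simpa using hc1⟩
  have hc1B : c1 + B ≤ c := by linarith
  have hc1B' : c1 + B < c := by linarith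
  have hcc : c1 ≤ c := by linarith
  have hPar : Par T c 0 := ⟨hT, le_rfl, by simpa using hc1.trans hcc⟩
  have hw1 : Wt T Dat.one' := sa_wt1 T
  set kap : ℝ → Md → (Fin (n + 1) → ℂ) := fun t q => fun i : Fin (n + 1) => lab K (V t) i q
    with hkap
  have hlabcm : ∀ (i : ℕ), CM T (fun t => lab K (V t) i) := fun i q =>
    (innerSL ℂ (kv (K i))).continuous.comp_continuousOn (hV.cm q)
  have hlabsupp : ∀ (i : ℕ), SuppT T (lev n : Set Md) (fun t => lab K (V t) i) := by
    intro i t ht q hq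
    show innerSL ℂ (kv (K i)) (V t q) = 0
    rw [hV.supp t ht q hq, map_zero]
  have hkapcm : CM T kap := fun q => continuousOn_pi.mpr fun i => hlabcm i q
  have hkapsupp : SuppT T (lev n : Set Md) kap := by
    intro t ht q hq
    funext i
    exact hlabsupp i t ht q hq
  have hkapfin : Nrm T c 0 Dat.one' kap ≠ ∞ := sa_fin0 hkapn
  have hextle : ∀ (y : ℝ → Md → (Fin (n + 1) → ℂ)) (i : ℕ),
      Nrm T c1 0 Dat.one' (fun t => l13_extd n (y t) i) ≤ Nrm T c1 0 Dat.one' y :=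
    fun y i => sa_nrm_le1 fun t _ q => l13_extd_norm (y t) i q
  have hextcm : ∀ {y : ℝ → Md → (Fin (n + 1) → ℂ)}, CM T y → ∀ i,
      CM T (fun t => l13_extd n (y t) i) := by
    intro y hy i q
    unfold l13_extd
    split_ifs with h
    · exact continuousOn_pi.mp (hy q) ⟨i, h⟩
    · exact continuousOn_const
  -- the integrand and the map
  set g : (ℝ → Md → (Fin (n + 1) → ℂ)) → ℝ → Md → (Fin (n + 1) → ℂ) :=
    fun y s => comp (l13_extd n (y s)) (kap s) with hg
  set Φ : (ℝ → Md → (Fin (n + 1) → ℂ)) → ℝ → Md → (Fin (n + 1) → ℂ) :=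
    fun y t => res (lev n : Set Md) (l13_sym (l13_prim (g y) t)) with hΦ
  have hgcm : ∀ {y : ℝ → Md → (Fin (n + 1) → ℂ)}, CM T y →
      Nrm T c1 0 Dat.one' y ≤ ENNReal.ofReal B → CM T (g y) := by
    intro y hy hyn
    exact (h05 (Fin (n + 1) → ℂ) n T c c1 B Dat.one' (fun t => l13_extd n (y t)) kap hT hc1 hB hc1B hw1
      hkapsupp (fun i _ => (hextle y i).trans hyn)).2.1 hkapcm (fun i _ => hextcm hy i) hkapfin
  have hgn : ∀ {y : ℝ → Md → (Fin (n + 1) → ℂ)},
      Nrm T c1 0 Dat.one' y ≤ ENNReal.ofReal B → Nrm T c1 0 Dat.one' (g y) ≤ ENNReal.ofReal B := by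
    intro y hyn
    exact ((h05 (Fin (n + 1) → ℂ) n T c c1 B Dat.one' (fun t => l13_extd n (y t)) kap hT hc1 hB hc1B
      hw1 hkapsupp (fun i _ => (hextle y i).trans hyn)).1).trans hkapn
  obtain ⟨y, hycm, hyn, hyfix, -⟩ := pr_W13 Md (fun _ => Fin (n + 1) → ℂ) T
    (fun t q => ENNReal.ofReal (Real.exp ((c1 - 0 * t) * len q) / Dat.one' t))
    (ENNReal.ofReal B) Φ hT.le ENNReal.ofReal_ne_top
    (fun q => ⟨ENNReal.ofReal (Real.exp (c1 * len q)), by
      simp only [ne_eq, ENNReal.ofReal_eq_zero, not_le]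
      exact Real.exp_pos _, fun t _ => by simp [Dat.one']⟩)
    (fun _ _ _ => ENNReal.ofReal_ne_top)
    (by
      intro y hycm hyn
      have hyn' : Nrm T c1 0 Dat.one' y ≤ ENNReal.ofReal B := hyn
      have h1 := hgcm hycm hyn'
      constructor
      · exact l13_cm_res (lev n : Set Md) (l13_sym_cm (l13_prim_cm h1))
      · exact (l13_res_le (lev n : Set Md) _).trans ((l13_sym_nrm hPar1 _).trans
          ((l13_prim_le hPar1 hw1 hT1 h1).trans (hgn hyn'))))
    (by
      intro y z hycm hzcm hyn hzn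
      have hyn' : Nrm T c1 0 Dat.one' y ≤ ENNReal.ofReal B := hyn
      have hzn' : Nrm T c1 0 Dat.one' z ≤ ENNReal.ofReal B := hzn
      have hy1 := hgcm hycm hyn'
      have hz1 := hgcm hzcm hzn'
      have e1 : ∀ t ∈ Icc 0 T, Φ y t - Φ z t =
          res (lev n : Set Md) (l13_sym (l13_prim (fun s => g y s - g z s) t)) := by
        intro t ht
        rw [l13_prim_sub hy1 hz1 ht, l13_sym_sub, l13_res_sub]
      have hfin : Nrm T c1 0 Dat.one' (fun t => y t - z t) ≠ ∞ :=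
        ne_top_of_le_ne_top (ENNReal.add_ne_top.mpr ⟨sa_fin0 hyn', sa_fin0 hzn'⟩)
          (sa_nrm_sub hPar1 hw1 y z)
      set δ := (Nrm T c1 0 Dat.one' (fun t => y t - z t)).toReal with hδ
      have hδ0 : 0 ≤ δ := ENNReal.toReal_nonneg
      have hδe : ENNReal.ofReal δ = Nrm T c1 0 Dat.one' (fun t => y t - z t) :=
        ENNReal.ofReal_toReal hfin
      have h2 := h06 (Fin (n + 1) → ℂ) n T c c1 B δ Dat.one' Dat.one' (fun t => l13_extd n (y t))
        (fun t => l13_extd n (z t)) kap hT hc1 hB hδ0 hc1B' hw1 hw1 hkapsupp hkapfin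
        (fun i _ => (hextle y i).trans hyn') (fun i _ => (hextle z i).trans hzn')
        (fun i _ => by
          rw [hδe]
          have e2 : (fun t => l13_extd n (y t) i - l13_extd n (z t) i) =
              fun t => l13_extd n (y t - z t) i := by
            funext t
            exact l13_extd_sub _ _ _
          rw [e2]
          exact hextle (fun t => y t - z t) i)
      have e3 : (fun t => Dat.one' t * Dat.one' t) = Dat.one' := by
        funext t
        simp [Dat.one']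
      rw [e3] at h2
      have e4 : Nrm T c1 0 Dat.one' (fun t => Φ y t - Φ z t) ≤
          (1 / 2) * Nrm T c1 0 Dat.one' (fun t => y t - z t) := by
        rw [sa_nrm_congr e1 (fun _ _ => rfl)]
        refine (l13_res_le (lev n : Set Md) _).trans ((l13_sym_nrm hPar1 _).trans
          ((l13_prim_le hPar1 hw1 hT1 (sa_cm_sub hy1 hz1)).trans (h2.trans ?_)))
        rw [← hδe]
        refine (mul_le_mul' le_rfl hkapn).trans ?_
        have hd : 0 < c - c1 - B := by linarith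
        have e5 : (1 / 2 : ℝ≥0∞) = ENNReal.ofReal (1 / 2) := by
          rw [ENNReal.ofReal_div_of_pos (by norm_num)]
          simp
        rw [e5, ← ENNReal.ofReal_mul (by positivity), ← ENNReal.ofReal_mul (by positivity)]
        refine ENNReal.ofReal_le_ofReal ?_
        rw [div_mul_eq_mul_div, div_le_iff₀ hd]
        nlinarith
      exact e4)
  have hyn' : Nrm T c1 0 Dat.one' y ≤ ENNReal.ofReal B := hyn
  have hfix : ∀ t ∈ Icc 0 T, y t = res (lev n : Set Md) (l13_sym (l13_prim (g y) t)) :=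
    fun t ht => funext fun q => (hyfix t ht q).symm
  -- the displacements
  set x : ℝ → ℕ → Md → ℂ := fun t => l13_extd n (y t) with hx
  have hxn : ∀ i ≤ n, Nrm T c1 0 Dat.one' (fun t => x t i) ≤ ENNReal.ofReal B :=
    fun i _ => (hextle y i).trans hyn'
  have hxcm : ∀ i ≤ n, CM T (fun t => x t i) := fun i _ => hextcm hycm i
  have hneg : ∀ q : Md, -q ∈ lev n ↔ q ∈ lev n := fun q => neg_mem_iff
  have hysupp : ∀ t ∈ Icc 0 T, ∀ q, q ∉ lev n → y t q = 0 := by
    intro t ht q hq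
    rw [hfix t ht]
    exact l13_res_out _ hq
  have hyodd : ∀ t ∈ Icc 0 T, ∀ q i, y t (-q) i = - y t q i := by
    intro t ht q i
    rw [hfix t ht]
    by_cases hq : q ∈ lev n
    · rw [l13_res_in _ ((hneg q).mpr hq), l13_res_in _ hq]
      exact l13_sym_odd _ _ _
    · rw [l13_res_out _ (fun h => hq ((hneg q).mp h)), l13_res_out _ hq]
      simp
  have hyreal : ∀ t ∈ Icc 0 T, ∀ q i, y t (-q) i = starRingEnd ℂ (y t q i) := by
    intro t ht q i
    rw [hfix t ht]
    by_cases hq : q ∈ lev n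
    · rw [l13_res_in _ ((hneg q).mpr hq), l13_res_in _ hq]
      exact l13_sym_real _ _ _
    · rw [l13_res_out _ (fun h => hq ((hneg q).mp h)), l13_res_out _ hq]
      simp
  have hxsupp : ∀ i ≤ n, SuppT T (lev n : Set Md) (fun t => x t i) := by
    intro i hi t ht q hq
    show l13_extd n (y t) i q = 0
    unfold l13_extd
    rw [hysupp t ht q hq]
    split_ifs <;> rfl
  have hxodd : ∀ t ∈ Icc 0 T, ∀ i ≤ n, OddF (x t i) := by
    intro t ht i hi q
    show l13_extd n (y t) i (-q) = - l13_extd n (y t) i q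
    unfold l13_extd
    rw [dif_pos (Nat.lt_succ_of_le hi), dif_pos (Nat.lt_succ_of_le hi)]
    exact hyodd t ht q _
  have hXH : ∀ t ∈ Icc 0 T, XH n c1 B (x t) := by
    intro t ht
    refine ⟨hc1, hB, fun i hi => ?_, fun i hi => hxsupp i hi t ht, fun i hi q => ?_⟩
    · have h1 := sa_static hw1 (c := c1) (γ := 0) (fun t => x t i) ht
      have h2 : ENNReal.ofReal (Dat.one' t) = 1 := by simp [Dat.one']
      rw [h2, one_mul, zero_mul, sub_zero] at h1
      exact h1.trans (hxn i hi)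
    · show l13_extd n (y t) i (-q) = starRingEnd ℂ (l13_extd n (y t) i q)
      unfold l13_extd
      rw [dif_pos (Nat.lt_succ_of_le hi), dif_pos (Nat.lt_succ_of_le hi)]
      exact hyreal t ht q _
  have hVs : ∀ t ∈ Icc 0 T, sN c (V t) ≠ ∞ := fun t ht => sa_static_c hw1 hV.fin ht
  have hks : ∀ t ∈ Icc 0 T, sN c (kap t) ≠ ∞ := fun t ht => sa_static_c hw1 hkapfin ht
  -- the label displacement
  set W : ℝ → Md → C3 := fun s => comp (x s) (V s) with hW
  have hWcm : CM T W := (h05 C3 n T c c1 B Dat.one' x V hT hc1 hB hc1B hw1 hV.supp hxn).2.1 hV.cm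
    hxcm hV.fin
  have hWsupp : SuppT T (lev n : Set Md) W :=
    (h05 C3 n T c c1 B Dat.one' x V hT hc1 hB hc1B hw1 hV.supp hxn).2.2 hxsupp
  have hWodd : ∀ s ∈ Icc 0 T, A.OddV (W s) := fun s hs =>
    (h10.2 n c c1 B (x s) (hXH s hs) hc1B).2.2.2.2.2.1 (V s) (hV.supp s hs) (hVs s hs)
      (hxodd s hs) (hVodd s hs)
  -- scalar products
  have hWlab : ∀ s ∈ Icc 0 T, ∀ i q, innerSL ℂ (kv (K i)) (W s q) =
      comp (x s) (lab K (V s) i) q := by
    intro s hs i q
    have h1 := (h10.2 n c c1 B (x s) (hXH s hs) hc1B).2.2.2.1 C3 ℂ (innerSL ℂ (kv (K i))) (V s)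
      (hV.supp s hs) (hVs s hs)
    exact (congrFun h1 q).symm
  have hgi : ∀ s ∈ Icc 0 T, ∀ (i : Fin (n + 1)) q, g y s q i =
      comp (x s) (lab K (V s) i) q := by
    intro s hs i q
    have h1 := (h10.2 n c c1 B (x s) (hXH s hs) hc1B).2.2.2.1 (Fin (n + 1) → ℂ) ℂ
      (ContinuousLinearMap.proj i) (kap s) (hkapsupp s hs) (hks s hs)
    exact (congrFun h1 q).symm
  set ζ : ℝ → Md → C3 := l13_prim W with hζ
  have hζlab : ∀ t ∈ Icc 0 T, ∀ i q, lab K (ζ t) i q =
      l13_prim (fun s => comp (x s) (lab K (V s) i)) t q := by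
    intro t ht i q
    show innerSL ℂ (kv (K i)) (l13_prim W t q) = _
    rw [← l13_prim_map (innerSL ℂ (kv (K i))) hWcm ht q]
    exact l13_prim_congr ht fun s hs => hWlab s hs i q
  have hgcm' := hgcm hycm hyn'
  have hu : ∀ t ∈ Icc 0 T, ∀ q (i : Fin (n + 1)), l13_prim (g y) t q i = lab K (ζ t) i q := by
    intro t ht q i
    rw [hζlab t ht]
    have h1 := l13_prim_map (ContinuousLinearMap.proj i : (Fin (n + 1) → ℂ) →L[ℂ] ℂ) hgcm' ht q
    refine Eq.trans h1.symm ?_
    exact l13_prim_congr ht fun s hs => hgi s hs i q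
  -- the symmetries of ζ
  have hζodd : ∀ t ∈ Icc 0 T, A.OddV (ζ t) := by
    intro t ht
    constructor
    · intro q
      ext j
      have hj : ∀ q, ζ t q j = l13_prim (fun s q => W s q j) t q := by
        intro q
        exact (l13_prim_map (EuclideanSpace.proj j : C3 →L[ℂ] ℂ) hWcm ht q).symm
      have hWj : CM T (fun s q => W s q j) := fun q =>
        (EuclideanSpace.proj j : C3 →L[ℂ] ℂ).continuous.comp_continuousOn (hWcm q)
      show ζ t (-q) j = starRingEnd ℂ (ζ t q j)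
      rw [hj, hj, ← l13_prim_conj hWj ht]
      refine l13_prim_congr ht fun s hs => ?_
      rw [(hWodd s hs).1 q]
      rfl
    · intro q
      show l13_prim W t (-q) = - l13_prim W t q
      rw [← l13_prim_neg]
      exact l13_prim_congr ht fun s hs => (hWodd s hs).2 q
  -- the fixed point without symmetrisation
  have hyu : ∀ t ∈ Icc 0 T, ∀ q (i : Fin (n + 1)), y t q i = lab K (ζ t) i q := by
    intro t ht q i
    have h1 : l13_sym (l13_prim (g y) t) = l13_prim (g y) t := by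
      refine l13_sym_fix (fun q i => ?_) (fun q i => ?_)
      · rw [hu t ht, hu t ht]
        show innerSL ℂ (kv (K i)) (ζ t (-q)) = - innerSL ℂ (kv (K i)) (ζ t q)
        rw [(hζodd t ht).2 q, map_neg]
      · rw [hu t ht, hu t ht]
        show innerSL ℂ (kv (K i)) (ζ t (-q)) = starRingEnd ℂ (innerSL ℂ (kv (K i)) (ζ t q))
        rw [(hζodd t ht).1 q, l13_inner_cjv]
    have h2 : SuppIn (lev n : Set Md) (l13_prim (g y) t) := by
      intro q hq
      refine l13_prim_eq_zero ht fun s hs => ?_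
      exact (h05 (Fin (n + 1) → ℂ) n T c c1 B Dat.one' x kap hT hc1 hB hc1B
        hw1 hkapsupp hxn).2.2 hxsupp s hs q hq
    rw [hfix t ht, h1, l13_res_self h2]
    exact hu t ht q i
  have hxlab : ∀ t ∈ Icc 0 T, ∀ i ≤ n, x t i = lab K (ζ t) i := by
    intro t ht i hi
    funext q
    show l13_extd n (y t) i q = _
    unfold l13_extd
    rw [dif_pos (Nat.lt_succ_of_le hi)]
    exact hyu t ht q ⟨i, Nat.lt_succ_of_le hi⟩
  refine ⟨ζ, l13_prim_cm hWcm, ?_, hζodd, l13_prim_zero W, ?_, ?_, ?_⟩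
  · intro t ht q hq
    exact l13_prim_eq_zero ht fun s hs => hWsupp s hs q hq
  · intro q t ht
    rw [← l13_comp_congr (hxlab t ht) (hV.supp t ht)]
    exact l13_prim_der hWcm q ht
  · intro i hi
    rw [← sa_nrm_congr (f := fun t => x t i) (fun t ht => hxlab t ht i hi) (fun _ _ => rfl)]
    exact hxn i hi
  · intro α hα
    refine ⟨(l13_prim_le hPar1 hα hT1 hWcm).trans
      (h05 C3 n T c c1 B α x V hT hc1 hB hc1B hα hV.supp hxn).1, fun i hi => ?_⟩
    have hlf : Nrm T c 0 Dat.one' (fun t => lab K (V t) i) ≠ ∞ := by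
      refine ne_top_of_le_ne_top hkapfin (sa_nrm_le1 fun t _ q => ?_)
      exact norm_le_pi_norm (kap t q) ⟨i, Nat.lt_succ_of_le hi⟩
    have hcm : CM T (fun s => comp (x s) (lab K (V s) i)) :=
      (h05 ℂ n T c c1 B Dat.one' x (fun t => lab K (V t) i) hT hc1 hB hc1B hw1 (hlabsupp i)
        hxn).2.1 (hlabcm i) hxcm hlf
    rw [sa_nrm_congr (f := fun t => lab K (ζ t) i) (g := l13_prim (fun s => comp (x s) (lab K (V s) i)))
      (fun t ht => funext fun q => hζlab t ht i q) (fun _ _ => rfl)]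
    exact (l13_prim_le hPar1 hα hT1 hcm).trans
      (h05 ℂ n T c c1 B α x (fun t => lab K (V t) i) hT hc1 hB hc1B hα (hlabsupp i) hxn).1

end Pool.Agent.Work.MP_b0497c_an.Unf.L

end

section

set_option autoImplicit false
set_option linter.dupNamespace false
set_option linter.unusedSectionVars false

/-!
# L14: inverse of a small perturbation of an invertible matrix function
-/

open scoped ENNReal
open Set MeasureTheory

namespace Pool.Agent.Work.MP_b0497c_an.Unf.L

open W S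

section aux

variable {E F G : Type} [NormedAddCommGroup E] [NormedSpace ℂ E] [NormedAddCommGroup F]
  [NormedSpace ℂ F] [NormedAddCommGroup G] [NormedSpace ℂ G] {T c : ℝ} {n : ℕ}

theorem l14_sum {f : Md → E} (hf : sN 0 f ≠ ∞) : Summable fun q => ‖f q‖ := by
  have h1 : ∑' m, ‖f m‖ₑ ≠ ∞ := by
    have : sN 0 f = ∑' m, ‖f m‖ₑ := by
      unfold sN
      simp
    rwa [← this]
  have h4 := ENNReal.summable_toReal h1
  simpa using h4

theorem l14_conv_sub [CompleteSpace F] [CompleteSpace G] (β : E →L[ℂ] F →L[ℂ] G) {a : Md → E}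
    {b b' : Md → F} (ha : sN 0 a ≠ ∞) (hb : sN 0 b ≠ ∞) (hb' : sN 0 b' ≠ ∞) :
    conv β a (b - b') = conv β a b - conv β a b' := by
  have h1 : sN 0 (fun q => β (a q)) ≠ ∞ := fin_of_le ‖β‖ (fun q => β.le_opNorm _) ha
  exact S.mul_sub h1 hb hb'

theorem l14_mm_sub [CompleteSpace F] [CompleteSpace G] {a : Md → (F →L[ℂ] G)}
    {b b' : Md → (E →L[ℂ] F)} (ha : sN 0 a ≠ ∞) (hb : sN 0 b ≠ ∞) (hb' : sN 0 b' ≠ ∞) :
    mm a (b - b') = mm a b - mm a b' := l14_conv_sub _ ha hb hb'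

/-- truncation does not increase the norm -/
theorem l14_res_le {α : ℝ → ℝ} (S : Set Md) (f : ℝ → Md → E) :
    Nrm T c 0 α (fun t => res S (f t)) ≤ Nrm T c 0 α f := by
  refine sa_nrm_le1 fun t _ q => ?_
  by_cases hq : q ∈ S
  · simp [res, hq]
  · simp [res, hq]

theorem l14_cm_res {f : ℝ → Md → E} (S : Set Md) (hf : CM T f) :
    CM T (fun t => res S (f t)) := by
  intro q
  by_cases hq : q ∈ S
  · simpa [res, hq] using hf q
  · simpa [res, hq] using (continuousOn_const : ContinuousOn (fun _ : ℝ => (0 : E)) (Icc 0 T))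

theorem l14_res_sub (S : Set Md) (f g : Md → E) : res S (f - g) = res S f - res S g := by
  funext q
  by_cases hq : q ∈ S <;> simp [res, hq]

theorem l14_res_self {S : Set Md} {f : Md → E} (h : SuppIn S f) : res S f = f := by
  funext q
  by_cases hq : q ∈ S
  · simp [res, hq]
  · simp [res, hq, h q hq]

theorem l14_supp_mm {a : Md → (F →L[ℂ] G)} {b : Md → (E →L[ℂ] F)}
    (ha : SuppIn (lev n : Set Md) a) (hb : SuppIn (lev n : Set Md) b) :
    SuppIn (lev n : Set Md) (mm a b) := by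
  refine supp_conv (fun p q h1 h2 => ?_) ha hb
  have := (lev n).add_mem h1 h2
  rwa [sub_add_cancel] at this

end aux

section main

variable {T c b δ : ℝ} {n : ℕ} {P Q R : ℝ → Md → Mat}

theorem l14_one : Dat.one' = fun _ => (1 : ℝ) := rfl

/-- the norm of `Q R Y` -/
theorem l14_QRY (hP : Par T c 0) {α : ℝ → ℝ} (hα : Wt T α)
    (hQn : Nrm T c 0 Dat.one' Q ≤ ENNReal.ofReal b) (Y : ℝ → Md → Mat) :
    Nrm T c 0 α (fun t => mm (Q t) (mm (R t) (Y t))) ≤
      ENNReal.ofReal b * (Nrm T c 0 α R * Nrm T c 0 Dat.one' Y) := by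
  have h1 := sa_nrm_mm hP (sa_wt1 T) hα Q (fun t => mm (R t) (Y t))
  have h2 := sa_nrm_mm hP hα (sa_wt1 T) R Y
  simp only [one_mul, mul_one] at h1 h2
  exact h1.trans (mul_le_mul' hQn h2)

end main

theorem l14 (h08 : L08) (h09 : L09) : L14 := by
  intro n T c b δ P Q R hT hc hb hδ hbδ hP hQ hR hQn hRn hinv
  have hPar : Par T c 0 := ⟨hT, le_rfl, by simpa using hc⟩
  have hb0 : 0 ≤ b := by linarith
  have h1n : ∀ f : ℝ → Md → Mat, Nrm T c 0 Dat.one' f ≠ ∞ → ∀ t ∈ Icc 0 T, sN 0 (f t) ≠ ∞ :=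
    fun f hf t ht => sa_static0 hPar (sa_wt1 T) hf ht
  have hQf : ∀ t ∈ Icc 0 T, sN 0 (Q t) ≠ ∞ := h1n Q hQ.fin
  have hRf : ∀ t ∈ Icc 0 T, sN 0 (R t) ≠ ∞ := h1n R hR.fin
  have hPf : ∀ t ∈ Icc 0 T, sN 0 (P t) ≠ ∞ := h1n P hP.fin
  -- the map
  set Φ : (ℝ → Md → Mat) → ℝ → Md → Mat :=
    fun Y t => res (lev n : Set Md) (Q t - mm (Q t) (mm (R t) (Y t))) with hΦ
  have hQRY : ∀ Y : ℝ → Md → Mat, Nrm T c 0 Dat.one' (fun t => mm (Q t) (mm (R t) (Y t))) ≤
      ENNReal.ofReal (b * δ) * Nrm T c 0 Dat.one' Y := by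
    intro Y
    refine (l14_QRY hPar (sa_wt1 T) hQn Y).trans ?_
    rw [ENNReal.ofReal_mul hb0, mul_assoc]
    gcongr
    exact hRn
  obtain ⟨Y, hYc, hYn, hYfix, -⟩ := pr_W13 Md (fun _ => Mat) T
    (fun t q => ENNReal.ofReal (Real.exp ((c - 0 * t) * len q) / Dat.one' t))
    (ENNReal.ofReal (2 * b)) Φ hT.le ENNReal.ofReal_ne_top
    (fun q => ⟨ENNReal.ofReal (Real.exp (c * len q)), by
      simp only [ne_eq, ENNReal.ofReal_eq_zero, not_le]
      exact Real.exp_pos _, fun t _ => by simp [Dat.one']⟩)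
    (fun _ _ _ => ENNReal.ofReal_ne_top)
    (by
      intro Y hYc hYn
      have hYn' : Nrm T c 0 Dat.one' Y ≤ ENNReal.ofReal (2 * b) := hYn
      have hYfin : Nrm T c 0 Dat.one' Y ≠ ∞ := sa_fin0 hYn'
      constructor
      · refine l14_cm_res (lev n : Set Md) (sa_cm_sub hQ.cm ?_)
        have h1 : CM T (fun t => mm (R t) (Y t)) := sa_cm_mm hPar hR.cm hYc hR.fin hYfin
        refine sa_cm_mm hPar hQ.cm h1 hQ.fin ?_
        exact ne_top_of_le_ne_top (ENNReal.mul_ne_top hR.fin hYfin) (sa_nrm_mm1 hPar R Y)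
      · refine (l14_res_le (lev n : Set Md) _).trans ?_
        refine (sa_nrm_sub hPar (sa_wt1 T) Q _).trans ?_
        refine (add_le_add hQn ((hQRY Y).trans (mul_le_mul' le_rfl hYn'))).trans ?_
        rw [← ENNReal.ofReal_mul (by positivity), ← ENNReal.ofReal_add (by positivity)
          (by positivity)]
        refine ENNReal.ofReal_le_ofReal ?_
        nlinarith)
    (by
      intro Y Z hYc hZc hYn hZn
      have hYfin : Nrm T c 0 Dat.one' Y ≠ ∞ := sa_fin0 hYn
      have hZfin : Nrm T c 0 Dat.one' Z ≠ ∞ := sa_fin0 hZn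
      have e1 : ∀ t ∈ Icc 0 T, Φ Y t - Φ Z t =
          -(res (lev n : Set Md) (mm (Q t) (mm (R t) (Y t - Z t)))) := by
        intro t ht
        have hY0 := h1n Y hYfin t ht
        have hZ0 := h1n Z hZfin t ht
        rw [hΦ, l14_mm_sub (hRf t ht) hY0 hZ0, l14_mm_sub (hQf t ht)
          (fin_mm le_rfl (hRf t ht) hY0) (fin_mm le_rfl (hRf t ht) hZ0)]
        simp only [l14_res_sub]
        abel
      have e2 : Nrm T c 0 Dat.one' (fun t => Φ Y t - Φ Z t) ≤
          (1 / 2) * Nrm T c 0 Dat.one' (fun t => Y t - Z t) := by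
        rw [sa_nrm_congr e1 (fun _ _ => rfl)]
        rw [sa_nrm_neg]
        refine (l14_res_le (lev n : Set Md) _).trans ((hQRY _).trans ?_)
        gcongr
        calc ENNReal.ofReal (b * δ) ≤ ENNReal.ofReal (1 / 2) := ENNReal.ofReal_le_ofReal hbδ
          _ = 1 / 2 := by
            rw [ENNReal.ofReal_div_of_pos (by norm_num)]
            simp
      exact e2)
  have hYn' : Nrm T c 0 Dat.one' Y ≤ ENNReal.ofReal (2 * b) := hYn
  have hYfin : Nrm T c 0 Dat.one' Y ≠ ∞ := sa_fin0 hYn'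
  have hYf : ∀ t ∈ Icc 0 T, sN 0 (Y t) ≠ ∞ := h1n Y hYfin
  have hfix : ∀ t ∈ Icc 0 T, Y t = res (lev n : Set Md) (Q t - mm (Q t) (mm (R t) (Y t))) :=
    fun t ht => funext fun q => (hYfix t ht q).symm
  have hYsupp : SuppT T (lev n : Set Md) Y := by
    intro t ht q hq
    rw [hfix t ht]
    simp only [res]
    rw [if_neg hq]
  have hY : ∀ t ∈ Icc 0 T, Y t = Q t - mm (Q t) (mm (R t) (Y t)) := by
    intro t ht
    have h1 : SuppIn (lev n : Set Md) (Q t - mm (Q t) (mm (R t) (Y t))) := by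
      intro q hq
      have h2 := l14_supp_mm (hQ.supp t ht) (l14_supp_mm (hR.supp t ht) (hYsupp t ht)) q hq
      rw [Pi.sub_apply, hQ.supp t ht q hq, h2, sub_zero]
    conv_lhs => rw [hfix t ht, l14_res_self h1]
  -- the inverse, pointwise
  have hSY : ∀ t ∈ Icc 0 T, Summable fun q => ‖Y t q‖ := fun t ht => l14_sum (hYf t ht)
  have hSP : ∀ t ∈ Icc 0 T, Summable fun q => ‖P t q‖ := fun t ht => l14_sum (hPf t ht)
  have hSQ : ∀ t ∈ Icc 0 T, Summable fun q => ‖Q t q‖ := fun t ht => l14_sum (hQf t ht)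
  have hSR : ∀ t ∈ Icc 0 T, Summable fun q => ‖R t q‖ := fun t ht => l14_sum (hRf t ht)
  have hPRf : ∀ t ∈ Icc 0 T, sN 0 (P t + R t) ≠ ∞ := fun t ht => fin_add (hPf t ht) (hRf t ht)
  have hSPR : ∀ t ∈ Icc 0 T, Summable fun q => ‖(P t + R t) q‖ :=
    fun t ht => l14_sum (hPRf t ht)
  have hPRs : ∀ t ∈ Icc 0 T, SuppIn (lev n : Set Md) (P t + R t) := by
    intro t ht q hq
    rw [Pi.add_apply, hP.supp t ht q hq, hR.supp t ht q hq, add_zero]
  have hr : ∀ t ∈ Icc 0 T, ∀ θ : Md →+ ℝ, ev θ (P t + R t) * ev θ (Y t) = 1 := by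
    intro t ht θ
    have h1 : ev θ (Y t) = ev θ (Q t) - ev θ (Q t) * (ev θ (R t) * ev θ (Y t)) := by
      have e : Q t - mm (Q t) (mm (R t) (Y t)) = Q t + -(mm (Q t) (mm (R t) (Y t))) := by abel
      conv_lhs => rw [hY t ht, e]
      have hf1 := fin_mm le_rfl (hRf t ht) (hYf t ht)
      have hf2 := fin_mm le_rfl (hQf t ht) hf1
      rw [ev_add θ (hSQ t ht) (by simpa using l14_sum (fin_neg hf2)), ev_neg,
        ev_mm θ (hSQ t ht) (l14_sum hf1), ev_mm θ (hSR t ht) (hSY t ht)]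
      rfl
    have h2 : ev θ (P t) * ev θ (Q t) = 1 := by
      have := congrArg (ev θ) (hinv t ht).2
      rw [ev_mm θ (hSP t ht) (hSQ t ht), ev_oneM] at this
      exact this
    rw [ev_add θ (hSP t ht) (hSR t ht), add_mul]
    have h3 : ev θ (P t) * ev θ (Y t) = 1 - ev θ (R t) * ev θ (Y t) := by
      conv_lhs => rw [h1]
      rw [_root_.mul_sub, h2, ← mul_assoc (ev θ (P t)), h2, one_mul]
    rw [h3]
    exact sub_add_cancel _ _
  have hl : ∀ t ∈ Icc 0 T, ∀ θ : Md →+ ℝ, ev θ (Y t) * ev θ (P t + R t) = 1 := by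
    intro t ht θ
    have h1 := hr t ht θ
    have h2 : ((ev θ (P t + R t) : Mat) : C3 →ₗ[ℂ] C3) * ((ev θ (Y t) : Mat) : C3 →ₗ[ℂ] C3) =
        1 := by
      refine LinearMap.ext fun v => ?_
      exact congrArg (fun A : Mat => A v) h1
    have h3 := mul_eq_one_comm.mp h2
    refine ContinuousLinearMap.ext fun v => ?_
    exact congrArg (fun A : C3 →ₗ[ℂ] C3 => A v) h3
  have hone : SuppIn (lev n : Set Md) oneM := by
    intro q hq
    simp only [oneM]
    rw [if_neg]
    rintro rfl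
    exact hq (lev n).zero_mem
  refine ⟨Y, hYc, hYsupp, hYn', ?_, ?_, ?_⟩
  · intro t ht
    constructor
    · refine h08.1 Mat n _ _ (l14_supp_mm (hYsupp t ht) (hPRs t ht)) hone
        (fin_mm le_rfl (hYf t ht) (hPRf t ht)) fin_oneM fun θ => ?_
      rw [ev_mm θ (hSY t ht) (hSPR t ht), ev_oneM]
      exact hl t ht θ
    · refine h08.1 Mat n _ _ (l14_supp_mm (hPRs t ht) (hYsupp t ht)) hone
        (fin_mm le_rfl (hPRf t ht) (hYf t ht)) fin_oneM fun θ => ?_
      rw [ev_mm θ (hSPR t ht) (hSY t ht), ev_oneM]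
      exact hr t ht θ
  · intro α hα
    have e1 : ∀ t ∈ Icc 0 T, Y t - Q t = -(mm (Q t) (mm (R t) (Y t))) := by
      intro t ht
      conv_lhs => rw [hY t ht]
      abel
    rw [sa_nrm_congr e1 (fun _ _ => rfl), sa_nrm_neg]
    refine (l14_QRY hPar hα hQn Y).trans ?_
    calc ENNReal.ofReal b * (Nrm T c 0 α R * Nrm T c 0 Dat.one' Y)
        ≤ ENNReal.ofReal b * (Nrm T c 0 α R * ENNReal.ofReal (2 * b)) := by gcongr
      _ = ENNReal.ofReal b * ENNReal.ofReal (2 * b) * Nrm T c 0 α R := by ring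
      _ = _ := by
        rw [← ENNReal.ofReal_mul hb0]
        congr 2
        ring
  · intro hev t ht
    have hA : A.EvenM (P t + R t) := by
      obtain ⟨⟨h1, h2⟩, h3, h4⟩ := hev t ht
      refine ⟨fun q v => ?_, fun q => ?_⟩
      · rw [Pi.add_apply, Pi.add_apply, _root_.add_apply, _root_.add_apply, h1 q v, h3 q v]
        simp only [cjv]
        ext i
        simp
      · rw [Pi.add_apply, Pi.add_apply, h2 q, h4 q]
    obtain ⟨hA1, hA2⟩ := hA
    have hA1' := (h09.2.2.1 n _ (hPRs t ht) (hPRf t ht)).mp hA1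
    have hA2' := ((h09.2.2.2 Mat n _ (hPRs t ht) (hPRf t ht)).2).mp hA2
    constructor
    · refine (h09.2.2.1 n _ (hYsupp t ht) (hYf t ht)).mpr fun θ v => ?_
      have h1 : ev θ (P t + R t) (ev θ (Y t) v) = v :=
        congrArg (fun A : Mat => A v) (hr t ht θ)
      have h2 : ∀ w, ev θ (Y t) (ev θ (P t + R t) w) = w := fun w =>
        congrArg (fun A : Mat => A w) (hl t ht θ)
      calc ev θ (Y t) (cjv v) = ev θ (Y t) (cjv (ev θ (P t + R t) (ev θ (Y t) v))) := by rw [h1]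
        _ = ev θ (Y t) (ev θ (P t + R t) (cjv (ev θ (Y t) v))) := by rw [hA1']
        _ = _ := h2 _
    · refine ((h09.2.2.2 Mat n _ (hYsupp t ht) (hYf t ht)).2).mpr fun θ => ?_
      have h1 := hl t ht (-θ)
      rw [hA2' θ] at h1
      have h2 := hr t ht θ
      calc ev (-θ) (Y t) = ev (-θ) (Y t) * (ev θ (P t + R t) * ev θ (Y t)) := by
            rw [h2, mul_one]
        _ = _ := by rw [← mul_assoc, h1, one_mul]

end Pool.Agent.Work.MP_b0497c_an.Unf.L

end

section

set_option autoImplicit false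
set_option linter.dupNamespace false

/-!
# Block L, item L17: determinants and traces
-/

open scoped ENNReal
open Set MeasureTheory

namespace Pool.Agent.Work.MP_b0497c_an.Unf.L

open W S

namespace L17aux

/-- The entries of a matrix. -/
noncomputable def ent (B : Mat) (i j : Fin 3) : ℂ := (B (EuclideanSpace.single j 1)) i

theorem detM_eq (B : Mat) : detM B =
    ent B 0 0 * ent B 1 1 * ent B 2 2 - ent B 0 0 * ent B 1 2 * ent B 2 1
      - ent B 0 1 * ent B 1 0 * ent B 2 2 + ent B 0 1 * ent B 1 2 * ent B 2 0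
      + ent B 0 2 * ent B 1 0 * ent B 2 1 - ent B 0 2 * ent B 1 1 * ent B 2 0 := by
  have h := LinearMap.det_toMatrix (EuclideanSpace.basisFun (Fin 3) ℂ).toBasis (B : C3 →ₗ[ℂ] C3)
  rw [detM, ← h, Matrix.det_fin_three]
  simp only [LinearMap.toMatrix_apply, ent, OrthonormalBasis.coe_toBasis,
    OrthonormalBasis.coe_toBasis_repr_apply, EuclideanSpace.basisFun_apply,
    EuclideanSpace.basisFun_repr, ContinuousLinearMap.coe_coe]

theorem trM_eq (B : Mat) : trM B = ent B 0 0 + ent B 1 1 + ent B 2 2 := by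
  rw [trM, trace_C3, Fin.sum_univ_three]; rfl

theorem decomp (v : C3) : v = v 0 • EuclideanSpace.single 0 (1:ℂ) +
    v 1 • EuclideanSpace.single 1 (1:ℂ) + v 2 • EuclideanSpace.single 2 (1:ℂ) := by
  ext i
  fin_cases i <;> simp

theorem ent_comp (H P : Mat) (i j : Fin 3) : ent (H.comp P) i j =
    ent H i 0 * ent P 0 j + ent H i 1 * ent P 1 j + ent H i 2 * ent P 2 j := by
  unfold ent
  rw [ContinuousLinearMap.comp_apply]
  conv_lhs => rw [decomp (P (EuclideanSpace.single j 1))]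
  simp only [map_add, map_smul, PiLp.add_apply, PiLp.smul_apply, smul_eq_mul]
  ring

/-- The entry as a continuous linear functional. -/
noncomputable def entL (i j : Fin 3) : Mat →L[ℂ] ℂ :=
  (EuclideanSpace.proj i : C3 →L[ℂ] ℂ).comp
    (ContinuousLinearMap.apply ℂ C3 (EuclideanSpace.single j (1:ℂ)))

theorem entL_apply (i j : Fin 3) (B : Mat) : entL i j B = ent B i j := rfl

theorem ent_deriv {P : ℝ → Mat} {P' : Mat} {s : Set ℝ} {t : ℝ} (h : HasDerivWithinAt P P' s t)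
    (i j : Fin 3) : HasDerivWithinAt (fun t => ent (P t) i j) (ent P' i j) s t := by
  have h1 := ((entL i j).restrictScalars ℝ).hasFDerivAt.comp_hasDerivWithinAt t h
  exact h1

/-- The derivative of the determinant. -/
theorem detM_deriv {P : ℝ → Mat} {H : Mat} {s : Set ℝ} {t : ℝ}
    (h : HasDerivWithinAt P (H.comp (P t)) s t) :
    HasDerivWithinAt (fun t => detM (P t)) (trM H * detM (P t)) s t := by
  have e : ∀ i j : Fin 3, HasDerivWithinAt (fun t => ent (P t) i j)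
      (ent H i 0 * ent (P t) 0 j + ent H i 1 * ent (P t) 1 j + ent H i 2 * ent (P t) 2 j) s t := by
    intro i j
    have h1 := ent_deriv h i j
    rwa [ent_comp] at h1
  have h2 := (((((((e 0 0).mul (e 1 1)).mul (e 2 2)).sub (((e 0 0).mul (e 1 2)).mul (e 2 1))).sub
      (((e 0 1).mul (e 1 0)).mul (e 2 2))).add (((e 0 1).mul (e 1 2)).mul (e 2 0))).add
      (((e 0 2).mul (e 1 0)).mul (e 2 1))).sub (((e 0 2).mul (e 1 1)).mul (e 2 0))
  have h3 : (fun t => detM (P t)) = fun t =>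
    ent (P t) 0 0 * ent (P t) 1 1 * ent (P t) 2 2 - ent (P t) 0 0 * ent (P t) 1 2 * ent (P t) 2 1
      - ent (P t) 0 1 * ent (P t) 1 0 * ent (P t) 2 2
      + ent (P t) 0 1 * ent (P t) 1 2 * ent (P t) 2 0
      + ent (P t) 0 2 * ent (P t) 1 0 * ent (P t) 2 1
      - ent (P t) 0 2 * ent (P t) 1 1 * ent (P t) 2 0 := by
    funext t; exact detM_eq (P t)
  rw [h3]
  refine h2.congr_deriv ?_
  rw [detM_eq, trM_eq]
  simp only [Pi.mul_apply]
  ring

/-- Summability from a finite static norm. -/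
theorem summable_of_sN {E : Type} [NormedAddCommGroup E] {f : Md → E}
    (hf : sN 0 f ≠ ∞) : Summable fun q => ‖f q‖ := by
  have h1 : (∑' q, ‖f q‖ₑ) ≠ ∞ := by
    have h2 : sN 0 f = ∑' q, ‖f q‖ₑ := by
      unfold sN
      refine tsum_congr fun q => ?_
      rw [zero_mul, Real.exp_zero, ENNReal.ofReal_one, one_mul]
    rwa [← h2]
  have h3 := ENNReal.summable_toReal h1
  simpa [toReal_enorm] using h3

theorem detM_id : detM (ContinuousLinearMap.id ℂ C3) = 1 := by
  rw [detM]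
  simp

end L17aux

open L17aux in
/-- L17. -/
theorem l17 : L17 := by
  refine ⟨?_, ?_, ?_, ?_⟩
  · intro T P H h t ht
    exact detM_deriv (h t ht)
  · intro T P H hT h0 h
    have hd : ∀ t ∈ Icc 0 T, HasDerivWithinAt (fun t => detM (P t)) (trM (H t) * detM (P t))
        (Icc 0 T) t := fun t ht => detM_deriv (h t ht)
    constructor
    · intro h1 t ht
      have h2 : HasDerivWithinAt (fun _ : ℝ => (1 : ℂ)) 0 (Icc 0 T) t :=
        hasDerivWithinAt_const t _ _
      have h3 : HasDerivWithinAt (fun t => detM (P t)) 0 (Icc 0 T) t :=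
        h2.congr (fun s hs => h1 s hs) (h1 t ht)
      have h4 := (uniqueDiffOn_Icc hT t ht).eq_deriv _ (hd t ht) h3
      rw [h1 t ht, mul_one] at h4
      exact h4
    · intro h1
      have h2 : ∀ t ∈ Icc 0 T, detM (P t) = detM (P 0) := by
        apply constant_of_derivWithin_zero
        · intro t ht
          exact (hd t ht).differentiableWithinAt
        · intro t ht
          have ht' : t ∈ Icc 0 T := ⟨ht.1, ht.2.le⟩
          rw [(hd t ht').derivWithin (uniqueDiffOn_Icc hT t ht'), h1 t ht', zero_mul]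
      intro t ht
      rw [h2 t ht, h0, detM_id]
  · intro θ a ha
    have hs : Summable fun q => ‖a q‖ := summable_of_sN ha
    have e : ∀ i j : Fin 3, ent (ev θ a) i j = ev θ (fun q => ent (a q) i j) := by
      intro i j
      exact (ev_map θ hs (entL i j)).symm
    have hse : ∀ i j : Fin 3, Summable fun q => ‖ent (a q) i j‖ := by
      intro i j
      refine Summable.of_nonneg_of_le (fun _ => norm_nonneg _) (fun q => ?_)
        (hs.mul_left ‖entL i j‖)
      exact (entL i j).le_opNorm (a q)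
    rw [trM_eq, e, e, e]
    have h1 : (fun q => trM (a q)) = (fun q => ent (a q) 0 0) + (fun q => ent (a q) 1 1) +
        (fun q => ent (a q) 2 2) := by
      funext q; exact trM_eq (a q)
    have h2 : Summable fun q => ‖((fun q => ent (a q) 0 0) + (fun q => ent (a q) 1 1)) q‖ := by
      refine Summable.of_nonneg_of_le (fun _ => norm_nonneg _) (fun q => ?_)
        ((hse 0 0).add (hse 1 1))
      exact norm_add_le _ _
    rw [h1, ev_add θ h2 (hse 2 2), ev_add θ (hse 0 0) (hse 1 1)]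
  · intro K f q
    rw [trM_eq]
    simp only [ent, gradV, smul_apply, ContinuousLinearMap.smulRight_apply, innerSL_apply_apply]
    have hin : inner ℂ (xi K q) (f q) = (starRingEnd ℂ) (xi K q 0) * f q 0 +
        (starRingEnd ℂ) (xi K q 1) * f q 1 + (starRingEnd ℂ) (xi K q 2) * f q 2 := by
      rw [PiLp.inner_apply, Fin.sum_univ_three]
      simp
      ring
    rw [hin]
    simp [EuclideanSpace.inner_single_right]
    ring

end Pool.Agent.Work.MP_b0497c_an.Unf.L

end

section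

set_option autoImplicit false
set_option linter.dupNamespace false
set_option linter.unusedSectionVars false
set_option linter.unusedVariables false

/-!
# L18: determinants of `F_n` and of the new label map (helper64)
-/

open scoped ENNReal
open Set MeasureTheory

namespace Pool.Agent.Work.MP_b0497c_an.Unf.L

open W S

namespace PL18

section gen

variable {E F : Type} [NormedAddCommGroup E] [NormedSpace ℂ E] [NormedAddCommGroup F]
  [NormedSpace ℂ F]

theorem summ {c : ℝ} (hc : 0 ≤ c) {f : Md → E} (hf : sN c f ≠ ∞) : Summable fun q => ‖f q‖ := by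
  have h1 : ∑' m, ‖f m‖ₑ ≤ sN c f := by
    unfold sN
    refine ENNReal.tsum_le_tsum fun m => ?_
    have h2 : (1 : ℝ≥0∞) ≤ ENNReal.ofReal (Real.exp (c * len m)) := by
      rw [ENNReal.one_le_ofReal]
      exact Real.one_le_exp (mul_nonneg hc (len_nonneg m))
    calc ‖f m‖ₑ = 1 * ‖f m‖ₑ := (one_mul _).symm
      _ ≤ _ := by gcongr
  have h3 : ∑' m, ‖f m‖ₑ ≠ ∞ := ne_top_of_le_ne_top hf h1
  have h4 := ENNReal.summable_toReal h3
  simpa using h4

theorem supp_mul {l n : ℕ} (hln : l ≤ n) {a : Md → (E →L[ℂ] F)} {f : Md → E}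
    (ha : SuppIn (lev l : Set Md) a) (hf : SuppIn (lev n : Set Md) f) :
    SuppIn (lev n : Set Md) (mul a f) := by
  intro q hq
  have h : ∀ l', mulK a q l' (f l') = 0 := by
    intro l'
    by_cases hl : l' ∈ (lev n : Set Md)
    · have h1 : q - l' ∉ (lev l : Set Md) := by
        intro h'
        apply hq
        have h2 := (lev n).add_mem (sh_lev_mono hln h') hl
        rw [sub_add_cancel] at h2
        exact h2
      rw [mulK, ha _ h1, zero_apply]
    · rw [hf _ hl, map_zero]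
  show (∑' l', mulK a q l' (f l')) = 0
  simp only [h, tsum_zero]

theorem supp_mm {n : ℕ} {a b : Md → Mat}
    (ha : SuppIn (lev n : Set Md) a) (hb : SuppIn (lev n : Set Md) b) :
    SuppIn (lev n : Set Md) (mm a b) := by
  intro q hq
  have h : ∀ l', ContinuousLinearMap.compL ℂ C3 C3 C3 (a (q - l')) (b l') = 0 := by
    intro l'
    by_cases hl : l' ∈ (lev n : Set Md)
    · have h1 : q - l' ∉ (lev n : Set Md) := by
        intro h'
        apply hq
        have h2 := (lev n).add_mem h' hl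
        rw [sub_add_cancel] at h2
        exact h2
      rw [ha _ h1, map_zero, zero_apply]
    · rw [hb _ hl, map_zero]
  show (∑' l', ContinuousLinearMap.compL ℂ C3 C3 C3 (a (q - l')) (b l')) = 0
  simp only [h, tsum_zero]

theorem supp_mono {l n : ℕ} (hln : l ≤ n) {f : Md → E} (hf : SuppIn (lev l : Set Md) f) :
    SuppIn (lev n : Set Md) f := fun q hq => hf q fun h => hq (sh_lev_mono hln h)

end gen

theorem fin_one {c : ℝ} {f : ℝ → Md → C3} {D : Dat} (hD : D.Hyp) (hc : 0 ≤ c)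
    (hf : Nrm D.T c 0 (α1 D) f ≠ ∞) : Nrm D.T c 0 Dat.one' f ≠ ∞ := by
  have hP : Par D.T c 0 := ⟨hD.T_pos, le_rfl, by rw [zero_mul]; exact hc⟩
  have hmn := hD.hmn
  have hα : Wt D.T (α1 D) := hD.α_wt (D.n + 1) (by omega) le_rfl
  have h1 : Nrm D.T c 0 (fun _ => (1 : ℝ)) f ≤ ENNReal.ofReal D.G * Nrm D.T c 0 (α1 D) f :=
    sa_nrm_wt hP hα (sa_wt1 D.T) (sh_G0 hD)
      (fun t ht => by rw [mul_one]; exact hD.α_le (D.n + 1) (by omega) le_rfl t ht) f
  exact ne_top_of_le_ne_top (ENNReal.mul_ne_top ENNReal.ofReal_ne_top hf) h1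

theorem res_split {n : ℕ} {f : Md → C3} (hf : SuppIn (lev (n + 1) : Set Md) f) :
    f = res (Cl (n + 1)) f + res (lev n : Set Md) f := by
  funext q
  rw [Pi.add_apply]
  by_cases h1 : q ∈ (lev (n + 1) : Set Md)
  · by_cases h2 : q (n + 1) = 0
    · have h3 : q ∈ (lev n : Set Md) := by
        intro i hi
        rcases (show i = n + 1 ∨ n + 1 < i by omega) with h | h
        · rw [h]; exact h2
        · exact h1 i h
      have h4 : q ∉ Cl (n + 1) := fun h => h.2 h2
      rw [res, if_neg h4, res, if_pos h3, zero_add]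
    · have h3 : q ∉ (lev n : Set Md) := fun h => h2 (h (n + 1) (by omega))
      have h4 : q ∈ Cl (n + 1) := ⟨h1, h2⟩
      rw [res, if_pos h4, res, if_neg h3, add_zero]
  · have h3 : q ∉ (lev n : Set Md) := fun h => h1 (sh_lev_mono (by omega) h)
    have h4 : q ∉ Cl (n + 1) := fun h => h1 h.1
    rw [res, if_neg h4, res, if_neg h3, add_zero]
    exact hf q h1

variable {D : Dat} {w0 : Md → C3} {w ζ : ℝ → Md → C3}

theorem w_fin (hD : D.Hyp) (hW : WIn D w0 w) : Nrm D.T (D.c / 2) 0 (α1 D) w ≠ ∞ := by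
  have hP : Par D.T (D.c / 2) 0 := ⟨hD.T_pos, le_rfl, by rw [zero_mul]; linarith [hD.c_pos]⟩
  have hmn := hD.hmn
  have hα : Wt D.T (α1 D) := hD.α_wt (D.n + 1) (by omega) le_rfl
  have h1 : Nrm D.T (D.c / 2) 0 (α1 D) w = Nrm D.T (D.c / 2) 0 (α1 D)
      (fun t => res (Cl (D.n + 1)) (w t) + res (lev D.n : Set Md) (w t)) :=
    sa_nrm_congr (fun t ht => res_split (hW.supp t ht)) fun _ _ => rfl
  rw [h1]
  refine ne_top_of_le_ne_top (ENNReal.add_ne_top.2 ⟨?_, ?_⟩) (sa_nrm_add hP hα _ _)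
  · exact sa_fin0 hW.w_le
  · exact sa_fin0 hW.w_low

theorem V_fn (hD : D.Hyp) (hW : WIn D w0 w) : Fn (D.n + 1) D.T (D.c / 2) (VV D w) := by
  have hP : Par D.T (D.c / 2) 0 := ⟨hD.T_pos, le_rfl, by rw [zero_mul]; linarith [hD.c_pos]⟩
  have hmn := hD.hmn
  have hα : Wt D.T (α1 D) := hD.α_wt (D.n + 1) (by omega) le_rfl
  have h1 := fin_one hD (by linarith [hD.c_pos]) (w_fin hD hW)
  obtain ⟨-, hFi, -⟩ := hD.F_le D.n hmn le_rfl
  obtain ⟨-, sFi, -⟩ := hD.F_supp D.n hmn le_rfl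
  obtain ⟨-, cFi, -⟩ := hD.F_cm D.n hmn le_rfl
  have h2 : Nrm D.T (D.c / 2) 0 (fun _ => (1 : ℝ)) (D.Fi D.n) ≠ ∞ :=
    ne_top_of_le_ne_top (sa_fin0 hFi)
      (sa_nrm_cmono (by linarith [hD.c_pos]) (fun _ _ => one_pos) _)
  refine ⟨?_, ?_, ?_⟩
  · exact sa_cm_mul hP (sa_wt1 D.T) cFi hW.cm h2 h1
  · intro t ht
    exact supp_mul (Nat.le_succ _) (sFi t ht) (hW.supp t ht)
  · exact ne_top_of_le_ne_top (ENNReal.mul_ne_top h2 h1)
      (sa_nrm_mul1 hP (sa_wt1 D.T) (D.Fi D.n) w)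

/-- the size of the displacement of the phases -/
theorem B_small (hD : D.Hyp) : D.c / 4 + 2 * D.G * u1 D ^ 120 < D.c / 2 := by
  have hmn := hD.hmn
  have hG := hD.G_two
  have hc := hD.c_G
  have hu0 := hD.u_pos (D.n + 1)
  have hu1 := hD.u_lt (D.n + 1)
  have hm0 := hD.u_pos (D.m + 1)
  have hm1 := hD.u_lt (D.m + 1)
  -- `u_{n+1} ≤ u_{m+1}`
  have h1 : ∀ j, D.m + 1 ≤ j → j ≤ D.n + 1 → D.u j ≤ D.u (D.m + 1) := by
    intro j hj
    induction j, hj using Nat.le_induction with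
    | base => exact fun _ => le_rfl
    | succ k hk ih =>
      intro hk'
      have h2 := hD.u_step k (by omega) (by omega)
      have h3 : D.u k ^ 16 ≤ D.u k := by
        have := pow_le_pow_of_le_one (hD.u_pos k).le (hD.u_lt k).le (show 1 ≤ 16 by norm_num)
        rwa [pow_one] at this
      exact h2.trans (h3.trans (ih (by omega)))
  have h2 := h1 (D.n + 1) (by omega) le_rfl
  have h3 : u1 D ^ 120 ≤ D.u (D.m + 1) ^ 4 := by
    calc u1 D ^ 120 ≤ u1 D ^ 4 := pow_le_pow_of_le_one hu0.le hu1.le (by norm_num)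
      _ ≤ _ := pow_le_pow_left₀ hu0.le h2 4
  have h4 := hD.small
  have h5 : D.G ^ 400 * u1 D ^ 120 ≤ 1 :=
    (mul_le_mul_of_nonneg_left h3 (by positivity)).trans h4
  -- `8 G² < G^400`
  have h6 : D.G * (16 * D.G) ≤ D.G ^ 400 := by
    calc D.G * (16 * D.G) = (2 : ℝ) ^ 4 * D.G ^ 2 := by ring
      _ ≤ D.G ^ 4 * D.G ^ 2 := by gcongr
      _ = D.G ^ 6 := by ring
      _ ≤ _ := pow_le_pow_right₀ (by linarith) (by norm_num)
  have hx0 : 0 < u1 D ^ 120 := pow_pos hu0 120
  have h7 : D.G * (16 * D.G) * u1 D ^ 120 ≤ 1 :=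
    (mul_le_mul_of_nonneg_right h6 hx0.le).trans h5
  have hG0 : 0 < D.G := by linarith
  have h8 : D.G * (2 * D.G * u1 D ^ 120) < D.G * (D.c / 4) := by
    have e : D.G * (2 * D.G * u1 D ^ 120) = D.G * (16 * D.G) * u1 D ^ 120 / 8 := by ring
    rw [e]
    have e2 : D.G * (D.c / 4) = D.G * D.c / 4 := by ring
    rw [e2]
    linarith
  have h9 := lt_of_mul_lt_mul_left h8 hG0.le
  linarith

theorem inner_cjv (k : Fin 3 → ℤ) (v : C3) :
    inner ℂ (kv k) (cjv v) = starRingEnd ℂ (inner ℂ (kv k) v) := by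
  rw [PiLp.inner_apply, PiLp.inner_apply, map_sum]
  refine Finset.sum_congr rfl fun i _ => ?_
  simp [kv, cjv]

theorem xh (hD : D.Hyp) (hZ : LabD D w ζ) {t : ℝ} (ht : t ∈ Icc 0 D.T) :
    XH (D.n + 1) (D.c / 4) (2 * D.G * u1 D ^ 120) (lab D.K (ζ t)) where
  c_nn := by linarith [hD.c_pos]
  B_nn := by
    have := sh_G0 hD
    have : 0 < u1 D := hD.u_pos _
    positivity
  le i hi := by
    have h1 := sa_static (sa_wt1 D.T) (fun t => lab D.K (ζ t) i) (c := D.c / 4) (γ := 0) ht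
    rw [zero_mul, sub_zero, ENNReal.ofReal_one, one_mul] at h1
    exact h1.trans (hZ.lab_le' i hi)
  supp i _ q hq := by
    show innerSL ℂ (kv (D.K i)) (ζ t q) = 0
    rw [hZ.supp t ht q hq, map_zero]
  real i _ q := by
    show innerSL ℂ (kv (D.K i)) (ζ t (-q)) = starRingEnd ℂ (innerSL ℂ (kv (D.K i)) (ζ t q))
    rw [(hZ.odd t ht).1 q, innerSL_apply_apply, innerSL_apply_apply, inner_cjv]

theorem K_le (hD : D.Hyp) : ∀ i ≤ D.n + 1, ‖kv (D.K i)‖ ≤ N1 D := fun i hi =>
  sh_N_mono hD hi le_rfl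

end PL18

open PL18 in
theorem l18 (h05 : L05) (h07 : L07) (h08 : L08) (h11 : L11) (h15b : L15b) (h17 : L17) : L18 := by
  intro D X U a p w0 w ζ hD hL hW hZ
  obtain ⟨h17a, h17b, h17c, h17d⟩ := h17
  have hT := hD.T_pos
  have hmn := hD.hmn
  have hc := hD.c_pos
  have h0 : (0 : ℝ) ∈ Icc 0 D.T := ⟨le_rfl, hT.le⟩
  have hder := (h08.2 Mat)
  -- first part
  have part1 : ∀ θ : Md →+ ℝ, ∀ t ∈ Icc 0 D.T, detM (ev θ (D.F D.n t)) = 1 := by
    intro θ
    have sF : ∀ t ∈ Icc 0 D.T, Summable fun q => ‖D.F D.n t q‖ := fun t ht => hL.sum_F ht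
    have sM : ∀ t ∈ Icc 0 D.T, Summable fun q => ‖D.M D.n t q‖ := fun t ht => hL.sum_M ht
    have hP0 : Par D.T 0 0 := ⟨hT, le_rfl, by simp⟩
    have fF : Nrm D.T 0 0 (fun _ => (1 : ℝ)) (D.F D.n) ≠ ∞ :=
      ne_top_of_le_ne_top hL.F_fin (sa_nrm_cmono hc.le (fun _ _ => one_pos) _)
    have fM : Nrm D.T 0 0 (fun _ => (1 : ℝ)) (D.M D.n) ≠ ∞ :=
      ne_top_of_le_ne_top hL.M_fin (sa_nrm_cmono hc.le (fun _ _ => one_pos) _)
    have hFn : Fn D.n D.T 0 (D.F D.n) := ⟨hL.F_cm, hL.F_supp, fF⟩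
    have hFn' : Fn D.n D.T 0 (fun t => mm (D.M D.n t) (D.F D.n t)) := by
      refine ⟨sa_cm_mm hP0 hL.M_cm hL.F_cm fM fF, ?_, ?_⟩
      · intro t ht
        exact supp_mm (hL.M_supp t ht) (hL.F_supp t ht)
      · exact ne_top_of_le_ne_top (ENNReal.mul_ne_top fM fF) (sa_nrm_mm1 hP0 _ _)
    have h1 := (hder D.n D.T (D.F D.n) (fun t => mm (D.M D.n t) (D.F D.n t)) hT hFn hFn').1
      hL.F_der θ
    refine (h17b D.T (fun t => ev θ (D.F D.n t)) (fun t => ev θ (D.M D.n t)) hT ?_ ?_).2 ?_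
    · show ev θ (D.F D.n 0) = _
      have h2 : D.F D.n 0 = oneM := by
        rw [hL.F_eq 0 h0, hL.x_zero]
        funext q
        rw [Pi.add_apply, gradV]
        simp
      rw [h2, ev_oneM]
    · intro t ht
      have h2 := h1 t ht
      rwa [ev_mm θ (sM t ht) (sF t ht)] at h2
    · intro t ht
      exact trace_ev θ (sM t ht) (hL.tr_M t ht)
  intro t ht θ
  refine ⟨part1 θ t ht, ?_⟩
  -- second part
  set B : ℝ := 2 * D.G * u1 D ^ 120 with hB
  have hBs : D.c / 4 + B < D.c / 2 := B_small hD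
  have hV := V_fn hD hW
  have hx := fun t (ht : t ∈ Icc 0 D.T) => xh hD hZ ht
  have hB0 : 0 ≤ B := (hx 0 h0).B_nn
  have hN0 : 0 ≤ N1 D := norm_nonneg _
  have w1 := sa_wt1 D.T
  -- `ζ'`
  set y : ℝ → Md → C3 := fun t => comp (lab D.K (ζ t)) (VV D w t) with hy
  have cx : ∀ i ≤ D.n + 1, CM D.T (fun t => lab D.K (ζ t) i) := by
    intro i _ q
    exact (innerSL ℂ (kv (D.K i))).continuous.comp_continuousOn (hZ.cm q)
  have sx : ∀ i ≤ D.n + 1, SuppT D.T (lev (D.n + 1) : Set Md) (fun t => lab D.K (ζ t) i) :=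
    fun i hi t ht => (hx t ht).supp i hi
  obtain ⟨y1, y2, y3⟩ := h05 C3 (D.n + 1) D.T (D.c / 2) (D.c / 4) B (fun _ => 1)
    (fun t => lab D.K (ζ t)) (VV D w) hT (by linarith) hB0 hBs.le w1 hV.supp hZ.lab_le'
  have hyf : Nrm D.T (D.c / 4) 0 (fun _ => (1 : ℝ)) y ≠ ∞ := ne_top_of_le_ne_top hV.fin y1
  have hζf : Nrm D.T (D.c / 4) 0 (fun _ => (1 : ℝ)) ζ ≠ ∞ :=
    fin_one hD (by linarith) (sa_fin0 hZ.le)
  obtain ⟨hg, -⟩ := h15b (D.n + 1) D.K D.T (D.c / 4) 0 (N1 D) (fun _ => 1) hT (by linarith) w1 hN0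
    (K_le hD)
  obtain ⟨gy1, gy2, gy3, -⟩ := hg y (y3 sx)
  obtain ⟨gz1, gz2, gz3, -⟩ := hg ζ hZ.supp
  have hfy : Fn (D.n + 1) D.T 0 (fun t => gradV D.K (y t)) :=
    ⟨gy3 (y2 hV.cm cx hV.fin), gy2,
      ne_top_of_le_ne_top (ENNReal.mul_ne_top ENNReal.ofReal_ne_top hyf) gy1⟩
  have hP0 : Par D.T 0 0 := ⟨hT, le_rfl, by simp⟩
  have hfz : Fn (D.n + 1) D.T 0 (Lm D ζ) := by
    refine ⟨sa_cm_add (sa_cm_const oneM) (gz3 hZ.cm), ?_, ?_⟩
    · intro t ht q hq
      have hg0 : gradV D.K (ζ t) q = 0 := gz2 t ht q hq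
      show oneM q + gradV D.K (ζ t) q = 0
      rw [hg0, add_zero, oneM, if_neg]
      rintro rfl
      exact hq (lev (D.n + 1)).zero_mem
    · refine ne_top_of_le_ne_top (ENNReal.add_ne_top.2 ⟨?_, ?_⟩)
        (sa_nrm_add hP0 w1 (fun _ => oneM) (fun t => gradV D.K (ζ t)))
      · exact ne_top_of_le_ne_top ENNReal.one_ne_top sa_N_oneM
      · exact ne_top_of_le_ne_top (ENNReal.mul_ne_top ENNReal.ofReal_ne_top hζf) gz1
  have hcoef : ∀ q, ∀ t ∈ Icc 0 D.T,
      HasDerivWithinAt (fun t => Lm D ζ t q) (gradV D.K (y t) q) (Icc 0 D.T) t := by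
    intro q t ht
    have h1 := LevSol.gradV_der (K := D.K) (x := ζ) (U := y) (q := q) (t := t) (hZ.der q t ht)
    exact h1.const_add (oneM q)
  have h1 := (hder (D.n + 1) D.T (Lm D ζ) (fun t => gradV D.K (y t)) hT hfz hfy).1 hcoef θ
  -- the gradient of `V`
  obtain ⟨hg2, -⟩ := h15b (D.n + 1) D.K D.T (D.c / 2) (D.c / 4 + B) (N1 D) (fun _ => 1) hT
    (by linarith) w1 hN0 (K_le hD)
  obtain ⟨gv1, gv2, -, -⟩ := hg2 (VV D w) hV.supp
  have hgv : Nrm D.T (D.c / 4 + B) 0 (fun _ => (1 : ℝ)) (fun t => gradV D.K (VV D w t)) ≠ ∞ :=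
    ne_top_of_le_ne_top (ENNReal.mul_ne_top ENNReal.ofReal_ne_top hV.fin) gv1
  have hgvs : ∀ t ∈ Icc 0 D.T, sN (D.c / 4 + B) (gradV D.K (VV D w t)) ≠ ∞ :=
    fun t ht => sa_static_c w1 hgv ht
  have h07' : ∀ t ∈ Icc 0 D.T, sN (D.c / 4) (comp (lab D.K (ζ t)) (gradV D.K (VV D w t))) ≤
      sN (D.c / 4 + B) (gradV D.K (VV D w t)) ∧ _ ∧ _ := fun t ht =>
    h07 Mat (D.n + 1) (D.c / 4 + B) (D.c / 4) B (lab D.K (ζ t)) (gradV D.K (VV D w t)) (hx t ht)
      le_rfl (gv2 t ht) (hgvs t ht)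
  refine (h17b D.T (fun t => ev θ (Lm D ζ t))
    (fun t => ev θ (comp (lab D.K (ζ t)) (gradV D.K (VV D w t)))) hT ?_ ?_).2 ?_ t ht
  · show ev θ (Lm D ζ 0) = _
    have h2 : Lm D ζ 0 = oneM := by
      rw [Lm, hZ.zero]
      funext q
      rw [Pi.add_apply, gradV]
      simp
    rw [h2, ev_oneM]
  · intro r hr
    have h2 := h1 r hr
    have h3 := (h11 (D.n + 1) D.K (D.c / 2) (D.c / 4) B (ζ r) (by linarith) hBs (hZ.supp r hr)
      (sa_static_c w1 hζf hr) (hZ.odd r hr).1 (hx r hr)).1 (VV D w r) (hV.supp r hr)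
      (sa_static_c w1 hV.fin hr)
    have h4 : gradV D.K (y r) = mm (comp (lab D.K (ζ r)) (gradV D.K (VV D w r))) (Lm D ζ r) := h3
    rw [h4, ev_mm θ (summ (by linarith) (ne_top_of_le_ne_top (hgvs r hr) (h07' r hr).1))
      (summ le_rfl (sa_static_c w1 hfz.fin hr))] at h2
    exact h2
  · intro r hr
    show trM (ev θ (comp (lab D.K (ζ r)) (gradV D.K (VV D w r)))) = 0
    rw [(h07' r hr).2.2 θ, h17c _ _ (fin_mono (by linarith) (by linarith) (hgvs r hr))]
    have h5 : (fun q => trM (gradV D.K (VV D w r) q)) = fun _ => (0 : ℂ) := by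
      funext q
      rw [h17d, hW.div r hr q, mul_zero]
    rw [h5, ev]
    simp

end Pool.Agent.Work.MP_b0497c_an.Unf.L

end

section

set_option autoImplicit false
set_option linter.dupNamespace false

/-!
# L24: the table for `a_{n+1}`
-/

open scoped ENNReal
open Set MeasureTheory

namespace Pool.Agent.Work.MP_b0497c_an.Unf.L

open W S

namespace L24aux

lemma u_le {D : Dat} (hD : D.Hyp) : D.u (D.n + 1) ≤ D.u (D.m + 1) := by
  have h : ∀ j, D.m + 1 ≤ j → j ≤ D.n + 1 → D.u j ≤ D.u (D.m + 1) := by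
    intro j hj
    induction j, hj using Nat.le_induction with
    | base => intro _; exact le_rfl
    | succ j hj ih =>
      intro h2
      have h3 := hD.u_step j (by omega) (by omega)
      have h4 : D.u j ^ 16 ≤ D.u j :=
        pow_le_of_le_one (hD.u_pos j).le (hD.u_lt j).le (by norm_num)
      exact (h3.trans h4).trans (ih (by omega))
  exact h _ (by have := hD.hmn; omega) le_rfl

lemma cjv_smul (z : ℂ) (v : C3) : cjv (z • v) = (starRingEnd ℂ z) • cjv v := by
  unfold cjv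
  ext i
  simp

lemma realV_dj {f : Md → C3} (j : ℕ) (hf : RealV f) : RealV (dj j f) := by
  intro q
  unfold dj
  rw [hf q, cjv_smul]
  congr 1
  simp

/-- multiplication by a function of level `n` commutes with `∂_{n+1}` -/
lemma mul_dj {E F : Type} [NormedAddCommGroup E] [NormedSpace ℂ E] [NormedAddCommGroup F]
    [NormedSpace ℂ F] {n : ℕ} {a : Md → (E →L[ℂ] F)} (ha : SuppIn (lev n : Set Md) a)
    (f : Md → E) : mul a (dj (n + 1) f) = dj (n + 1) (mul a f) := by
  funext q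
  unfold mul act mulK dj
  rw [← tsum_const_smul'']
  refine tsum_congr fun l => ?_
  by_cases h : q - l ∈ lev n
  · have h1 : (q - l) (n + 1) = 0 := h (n + 1) (by omega)
    have h2 : q (n + 1) = l (n + 1) := by
      rw [Finsupp.sub_apply] at h1
      omega
    rw [h2, map_smul]
  · rw [ha (q - l) h, zero_apply, zero_apply, smul_zero]

/-- the norm of a constant function -/
lemma nrm_const {E : Type} [NormedAddCommGroup E] [NormedSpace ℂ E] {T c : ℝ} {α : ℝ → ℝ}
    (hT : 0 < T) (hα : Wt T α) (κ : Md → E) {B : ℝ}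
    (h : sN c κ ≤ ENNReal.ofReal (B * α 0)) : Nrm T c 0 α (fun _ => κ) ≤ ENNReal.ofReal B := by
  have h0 : (0 : ℝ) ∈ Icc 0 T := ⟨le_rfl, hT.le⟩
  have hp : 0 < α 0 := hα.pos 0 h0
  have h1 : Nrm T c 0 α (fun _ => κ) ≤ ENNReal.ofReal (α 0)⁻¹ * sN c κ := by
    unfold Nrm sN
    rw [← ENNReal.tsum_mul_left]
    refine ENNReal.tsum_le_tsum fun m => iSup₂_le fun t ht => ?_
    rw [← mul_assoc, ← ENNReal.ofReal_mul (inv_nonneg.2 hp.le)]
    refine mul_le_mul' (ENNReal.ofReal_le_ofReal ?_) le_rfl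
    rw [zero_mul, sub_zero, div_eq_mul_inv, mul_comm]
    refine mul_le_mul_of_nonneg_right ?_ (Real.exp_pos _).le
    exact inv_anti₀ hp (hα.mono h0 ht ht.1)
  refine h1.trans ((mul_le_mul' le_rfl h).trans ?_)
  rw [← ENNReal.ofReal_mul (inv_nonneg.2 hp.le)]
  refine ENNReal.ofReal_le_ofReal (le_of_eq ?_)
  field_simp

end L24aux

open L24aux

theorem l24 (h15 : L15) : L24 := by
  intro D w0 w hD hw
  have hG := hD.G_two
  have hcG := hD.c_G
  have hc := hD.c_pos
  have hα : Wt D.T (α1 D) := hD.α_wt (D.n + 1) (by have := hD.hmn; omega) le_rfl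
  have hN : 1 ≤ N1 D := hD.N_pos (D.n + 1) le_rfl
  have hk : 1 / (D.c - D.c / 8) ≤ D.G := by
    rw [div_le_iff₀ (by linarith)]
    nlinarith
  have hk0 : 0 ≤ 1 / (D.c - D.c / 8) := div_nonneg zero_le_one (by linarith)
  refine ⟨?_, ?_, ?_, ?_, ?_⟩
  · intro q
    exact (hw.lin_cm q).const_smul (Complex.I * ((q (D.n + 1) : ℤ) : ℂ))
  · intro t ht q hq
    show dj (D.n + 1) (lw D w0 t) q = 0
    unfold dj
    rw [hw.lin_supp t ht q hq, smul_zero]
  · intro t ht
    exact realV_dj _ (hw.lin_odd t ht).1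
  · have h1 := (h15 C3 D.T D.c (D.c / 8) (α1 D) (lw D w0) hD.T_pos (by linarith) hα).2 (D.n + 1)
    refine h1.trans ((mul_le_mul' le_rfl hw.lin_le).trans ?_)
    rw [← ENNReal.ofReal_mul hk0]
    refine ENNReal.ofReal_le_ofReal ?_
    rw [← mul_div_assoc]
    refine div_le_div_of_nonneg_right ?_ (by linarith)
    calc 1 / (D.c - D.c / 8) * D.G ^ 2 ≤ D.G * D.G ^ 2 :=
          mul_le_mul_of_nonneg_right hk (by positivity)
      _ = D.G ^ 3 := by ring
      _ ≤ D.G ^ 20 := pow_le_pow_right₀ (by linarith) (by norm_num)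
  · have h0 : (0 : ℝ) ∈ Icc 0 D.T := ⟨le_rfl, hD.T_pos.le⟩
    set κ : Md → ℂ := fun q => innerSL ℂ (K1 D) (w0 q) with hκ
    have e : ∀ t ∈ Icc 0 D.T, mul (rwF (K1 D) (D.Fi D.n t)) (a1 D w0 t) = dj (D.n + 1) κ := by
      intro t ht
      have hs : SuppIn (lev D.n : Set Md) (rwF (K1 D) (D.Fi D.n t)) := by
        intro q hq
        have := (hD.F_supp D.n hD.hmn le_rfl).2.1 t ht q hq
        unfold rwF
        rw [this, ContinuousLinearMap.comp_zero]
      unfold a1
      rw [mul_dj hs]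
      have h2 := hw.lin_k t ht
      have h3 : D.rw (D.n + 1) t = rwF (K1 D) (D.Fi D.n t) := rfl
      rw [h3] at h2
      rw [h2]
    have e1 : Nrm D.T (D.c / 8) 0 (α1 D) (fun t => mul (rwF (K1 D) (D.Fi D.n t)) (a1 D w0 t)) =
        Nrm D.T (D.c / 8) 0 (α1 D) (fun _ => dj (D.n + 1) κ) :=
      sa_nrm_congr e fun _ _ => rfl
    rw [e1]
    have h1 := (h15 ℂ D.T D.c (D.c / 8) (α1 D) (fun _ => κ) hD.T_pos (by linarith) hα).2 (D.n + 1)
    have h2 : Nrm D.T D.c 0 (α1 D) (fun _ : ℝ => κ) ≤ ENNReal.ofReal (u1 D ^ 256) :=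
      nrm_const hD.T_pos hα κ hw.w0_k
    refine h1.trans ((mul_le_mul' le_rfl h2).trans ?_)
    rw [← ENNReal.ofReal_mul hk0]
    refine ENNReal.ofReal_le_ofReal ?_
    have hu0 : 0 < u1 D := hD.u_pos _
    have hu1 : u1 D ≤ 1 := (hD.u_lt _).le
    have h3 : D.G * u1 D ^ 4 ≤ 1 := by
      have h4 : D.G ≤ D.G ^ 400 := le_self_pow₀ (by linarith) (by norm_num)
      have h5 : u1 D ^ 4 ≤ D.u (D.m + 1) ^ 4 := pow_le_pow_left₀ hu0.le (u_le hD) 4
      exact (mul_le_mul h4 h5 (by positivity) (by positivity)).trans hD.small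
    calc 1 / (D.c - D.c / 8) * u1 D ^ 256 ≤ D.G * u1 D ^ 256 :=
          mul_le_mul_of_nonneg_right hk (by positivity)
      _ = (D.G * u1 D ^ 4) * u1 D ^ 252 := by ring
      _ ≤ 1 * u1 D ^ 252 := mul_le_mul_of_nonneg_right h3 (by positivity)
      _ = u1 D ^ 252 := one_mul _
      _ ≤ u1 D ^ 32 := pow_le_pow_of_le_one hu0.le hu1 (by norm_num)

end Pool.Agent.Work.MP_b0497c_an.Unf.L

end

section

set_option autoImplicit false
set_option linter.dupNamespace false

/-!
# Block L, item L27: restriction of `Lvl` and `Sht`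
-/

open scoped ENNReal
open Set MeasureTheory

namespace Pool.Agent.Work.MP_b0497c_an.Unf.L

open W S A

theorem l27 : L27 := by
  refine ⟨?_, ?_⟩
  · intro K T r R T' r' R' l X U a p F Fi M h hT0 hT hr0 hr hR hRr
    have hI : ∀ t, t ∈ Icc 0 T' → t ∈ Icc 0 T := fun t ht => ⟨ht.1, ht.2.trans hT⟩
    have hII : Icc 0 T' ⊆ Icc 0 T := hI
    have h1 : ∀ t ∈ Icc 0 T', (0:ℝ) < (fun _ : ℝ => (1:ℝ)) t := fun _ _ => one_pos
    have hRR : ENNReal.ofReal R ≤ ENNReal.ofReal R' := ENNReal.ofReal_le_ofReal hR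
    exact
    { s_pos := hT0
      c_pos := hr0
      x_supp := fun t ht => h.x_supp t (hI t ht)
      U_supp := fun t ht => h.U_supp t (hI t ht)
      A_supp := fun t ht => h.A_supp t (hI t ht)
      r_supp := fun t ht => h.r_supp t (hI t ht)
      x_fin := ne_top_of_le_ne_top h.x_fin (Nrm_mono hT hr h1 _)
      U_fin := ne_top_of_le_ne_top h.U_fin (Nrm_mono hT hr h1 _)
      A_fin := ne_top_of_le_ne_top h.A_fin (Nrm_mono hT hr h1 _)
      r_fin := ne_top_of_le_ne_top h.r_fin (Nrm_mono hT hr h1 _)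
      F_fin := ne_top_of_le_ne_top h.F_fin (Nrm_mono hT hr h1 _)
      Fi_fin := ne_top_of_le_ne_top h.Fi_fin (Nrm_mono hT hr h1 _)
      M_fin := ne_top_of_le_ne_top h.M_fin (Nrm_mono hT hr h1 _)
      x_cm := CM_mono hT h.x_cm
      U_cm := CM_mono hT h.U_cm
      A_cm := CM_mono hT h.A_cm
      x_der := fun q t ht => (h.x_der q t (hI t ht)).mono hII
      U_der := fun q t ht => (h.U_der q t (hI t ht)).mono hII
      x_zero := h.x_zero
      x_real := fun t ht => h.x_real t (hI t ht)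
      F_eq := fun t ht => h.F_eq t (hI t ht)
      F_der := fun q t ht => (h.F_der q t (hI t ht)).mono hII
      tr_M := fun t ht => h.tr_M t (hI t ht)
      inv := fun t ht => h.inv t (hI t ht)
      mom := fun t ht => h.mom t (hI t ht)
      T_le := hT.trans h.T_le
      r_le := hr.trans h.r_le
      R_two := h.R_two.trans hR
      r_R := hRr
      p_cm := CM_mono hT h.p_cm
      F_cm := CM_mono hT h.F_cm
      Fi_cm := CM_mono hT h.Fi_cm
      M_cm := CM_mono hT h.M_cm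
      F_supp := SuppT_mono hT h.F_supp
      Fi_supp := SuppT_mono hT h.Fi_supp
      M_supp := SuppT_mono hT h.M_supp
      F_le := ((Nrm_mono hT hr h1 _).trans h.F_le).trans hRR
      Fi_le := ((Nrm_mono hT hr h1 _).trans h.Fi_le).trans hRR
      M_le := ((Nrm_mono hT hr h1 _).trans h.M_le).trans hRR
      X_odd := fun t ht => h.X_odd t (hI t ht)
      U_odd := fun t ht => h.U_odd t (hI t ht)
      A_odd := fun t ht => h.A_odd t (hI t ht)
      p_even := fun t ht => h.p_even t (hI t ht)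
      F_even := fun t ht => h.F_even t (hI t ht)
      Fi_even := fun t ht => h.Fi_even t (hI t ht)
      M_even := fun t ht => h.M_even t (hI t ht)
      Fi_der := fun q t ht => (h.Fi_der q t (hI t ht)).mono hII
      MF_eq := fun t ht => h.MF_eq t (hI t ht)
      FFi := fun t ht => h.FFi t (hI t ht) }
  · intro K T r R u T' r' R' u' α j F' Fi' M' F Fi M z a s Φ w h hT0 hT hr0 hr hR hu hu1
    have hI : ∀ t, t ∈ Icc 0 T' → t ∈ Icc 0 T := fun t ht => ⟨ht.1, ht.2.trans hT⟩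
    have h1 : ∀ t ∈ Icc 0 T', (0:ℝ) < (fun _ : ℝ => (1:ℝ)) t := fun _ _ => one_pos
    have hα : ∀ t ∈ Icc 0 T', 0 < α t := fun t ht => h.α_wt.pos t (hI t ht)
    have hu0 := h.u_pos
    have hK := h.K_pos
    have hRK : ENNReal.ofReal (R / ‖kv (K j)‖) ≤ ENNReal.ofReal (R' / ‖kv (K j)‖) :=
      ENNReal.ofReal_le_ofReal (by gcongr)
    have huu : ENNReal.ofReal (u ^ 256) ≤ ENNReal.ofReal (u' ^ 256) :=
      ENNReal.ofReal_le_ofReal (pow_le_pow_left₀ hu0.le hu 256)
    exact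
    { j_pos := h.j_pos
      u_pos := hu0.trans_le hu
      u_lt := hu1
      K_pos := h.K_pos
      α_wt := Wt_mono hT h.α_wt
      α_le := fun t ht => (h.α_le t (hI t ht)).trans hR
      z_supp := SuppT_mono hT h.z_supp
      a_supp := SuppT_mono hT h.a_supp
      z_cm := CM_mono hT h.z_cm
      a_cm := CM_mono hT h.a_cm
      z_orth := fun t ht => h.z_orth t (hI t ht)
      z_le := ((Nrm_mono hT hr hα _).trans h.z_le).trans hRK
      a_le := ((Nrm_mono hT hr hα _).trans h.a_le).trans hRK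
      z_real := fun t ht => h.z_real t (hI t ht)
      a_real := fun t ht => h.a_real t (hI t ht)
      ka_le := ((Nrm_mono hT hr hα _).trans h.ka_le).trans huu
      rF_le := ((Nrm_mono hT hr hα _).trans h.rF_le).trans huu
      rFi_le := ((Nrm_mono hT hr hα _).trans h.rFi_le).trans huu
      rM_le := ((Nrm_mono hT hr hα _).trans h.rM_le).trans huu
      a_eq := fun t ht => h.a_eq t (hI t ht)
      s_cm := CM_mono hT h.s_cm
      s_supp := SuppT_mono hT h.s_supp
      s_le := ((Nrm_mono hT hr h1 _).trans h.s_le).trans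
        (ENNReal.ofReal_le_ofReal (by gcongr))
      s_eq := fun t ht => h.s_eq t (hI t ht)
      Φ_prop := IsProp_mono hT h.Φ_prop
      Φ_le := ((PN_mono hT hr _).trans h.Φ_le).trans (ENNReal.ofReal_le_ofReal hR)
      Φ_supp := fun s hs t ht => h.Φ_supp s (hI s hs) t (hI t ht)
      w_supp := h.w_supp
      w_real := h.w_real }

end Pool.Agent.Work.MP_b0497c_an.Unf.L

end
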