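import Pool.Agent.Work.MP_b0497c_an.Unf.LDefs
import Pool.Agent.Work.MP_b0497c_an.Unf.AMono
import Pool.Agent.Work.MP_b0497c_an.Unf.LStmts
import Pool.Agent.Work.MP_b0497c_an.Bd.B08
import Pool.Agent.Work.MP_b0497c_an.Unf.W20
import Pool.Agent.Work.MP_b0497c_an.Unf.DLag
import Pool.Agent.Work.MP_b0497c_an.Unf.SAlg
import Pool.Agent.Work.MP_b0497c_an.Bd.B26
import Pool.Agent.Work.MP_b0497c_an.Bd.B04
import Pool.Agent.Work.MP_b0497c_an.Bd.B29

/-! Bundle of small proof modules (one section per former module). -/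

section

set_option autoImplicit false
set_option linter.dupNamespace false

/-!
# Block L: numerical facts of the record `D`, small lemmas used by several items
-/

open scoped ENNReal
open Set MeasureTheory

namespace Pool.Agent.Work.MP_b0497c_an.Unf.L

open W S

section num

variable {D : Dat}

theorem u1_pos (hD : D.Hyp) : 0 < u1 D := hD.u_pos _

theorem u1_lt (hD : D.Hyp) : u1 D < 1 := hD.u_lt _

theorem G_pos (hD : D.Hyp) : 0 < D.G := by linarith [hD.G_two]

theorem one_le_G (hD : D.Hyp) : 1 ≤ D.G := by linarith [hD.G_two]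

theorem u1_le (hD : D.Hyp) : u1 D ≤ D.u (D.m + 1) := by
  have h : ∀ j, D.m + 1 ≤ j → j ≤ D.n + 1 → D.u j ≤ D.u (D.m + 1) := by
    intro j hj
    induction j, hj using Nat.le_induction with
    | base => intro _; exact le_rfl
    | succ j hj ih =>
      intro hj2
      refine (hD.u_step j (by omega) (by omega)).trans (le_trans ?_ (ih (by omega)))
      exact pow_le_of_le_one (hD.u_pos j).le (hD.u_lt j).le (by norm_num)
  exact h (D.n + 1) (by have := hD.hmn; omega) le_rfl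

/-- `G^100 u_{n+1} ≤ 1`. -/
theorem G100_u1 (hD : D.Hyp) : D.G ^ 100 * u1 D ≤ 1 := by
  have h1 := hD.small
  have hG := G_pos hD
  have hu := hD.u_pos (D.m + 1)
  have h2 : (D.G ^ 100 * D.u (D.m + 1)) ^ 4 ≤ 1 := by
    calc (D.G ^ 100 * D.u (D.m + 1)) ^ 4 = D.G ^ 400 * D.u (D.m + 1) ^ 4 := by ring
      _ ≤ 1 := h1
  have h3 : D.G ^ 100 * D.u (D.m + 1) ≤ 1 := by
    by_contra hc
    push Not at hc
    have := one_lt_pow₀ hc (n := 4) (by norm_num)
    linarith
  calc D.G ^ 100 * u1 D ≤ D.G ^ 100 * D.u (D.m + 1) := by gcongr; exact u1_le hD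
    _ ≤ 1 := h3

/-- `G^k u^j ≤ 1` for `k ≤ 100 j`. -/
theorem Gk_uj (hD : D.Hyp) {k j : ℕ} (h : k ≤ 100 * j) : D.G ^ k * u1 D ^ j ≤ 1 := by
  have h1 := G100_u1 hD
  have hG := G_pos hD
  have hu := u1_pos hD
  calc D.G ^ k * u1 D ^ j ≤ D.G ^ (100 * j) * u1 D ^ j := by
        gcongr
        exact one_le_G hD
    _ = (D.G ^ 100 * u1 D) ^ j := by rw [mul_pow, ← pow_mul]
    _ ≤ 1 := pow_le_one₀ (by positivity) h1

/-- `G^k u^(i+j) ≤ u^i` for `k ≤ 100 j`. -/
theorem Gk_uij (hD : D.Hyp) {k i j : ℕ} (h : k ≤ 100 * j) :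
    D.G ^ k * u1 D ^ (i + j) ≤ u1 D ^ i := by
  have h1 := Gk_uj hD h
  have hu := u1_pos hD
  calc D.G ^ k * u1 D ^ (i + j) = (D.G ^ k * u1 D ^ j) * u1 D ^ i := by ring
    _ ≤ 1 * u1 D ^ i := by gcongr
    _ = u1 D ^ i := one_mul _

theorem N1_one (hD : D.Hyp) : 1 ≤ N1 D := hD.N_pos (D.n + 1) le_rfl

theorem N1_pos (hD : D.Hyp) : 0 < N1 D := by linarith [N1_one hD]

theorem K1_norm : ‖K1 D‖ = N1 D := rfl

/-- `N_n ≤ u^512 N_{n+1}`. -/
theorem Nn_le (hD : D.Hyp) : D.N D.n ≤ u1 D ^ 512 * N1 D := by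
  have h := hD.mu_le (D.n + 1) (by have := hD.hmn; omega) le_rfl
  rw [Nat.add_sub_cancel] at h
  have h2 := N1_pos hD
  exact (div_le_iff₀ h2).mp h

/-- `|K_i| ≤ N_n` for `i ≤ n`. -/
theorem kv_le (hD : D.Hyp) {i : ℕ} (hi : i ≤ D.n) : ‖kv (D.K i)‖ ≤ D.N D.n := by
  have h : ∀ k, i + k ≤ D.n → D.N i ≤ D.N (i + k) := by
    intro k
    induction k with
    | zero => intro _; exact le_rfl
    | succ k ih =>
      intro hk
      have h1 := ih (by omega)
      have h2 := hD.N_sep (i + k) (by omega)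
      have h3 : 0 ≤ D.N (i + k) := norm_nonneg _
      have h4 : D.N (i + (k + 1)) = D.N (i + k + 1) := rfl
      rw [h4]
      linarith
  have := h (D.n - i) (by omega)
  rwa [Nat.add_sub_cancel' hi] at this

/-- `|K_i| ≤ N_{n+1}` for `i ≤ n + 1`. -/
theorem kv_le1 (hD : D.Hyp) {i : ℕ} (hi : i ≤ D.n + 1) : ‖kv (D.K i)‖ ≤ N1 D := by
  rcases Nat.lt_or_ge i (D.n + 1) with h | h
  · have h1 := kv_le hD (Nat.lt_succ_iff.mp h)
    have h2 := hD.N_sep D.n le_rfl
    have h3 : 0 ≤ D.N D.n := norm_nonneg _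
    have h4 : N1 D = D.N (D.n + 1) := rfl
    linarith
  · have : i = D.n + 1 := le_antisymm hi h
    subst this
    exact le_rfl

theorem Nn_nonneg : 0 ≤ D.N D.n := norm_nonneg _

theorem c_pos (hD : D.Hyp) : 0 < D.c := hD.c_pos

/-- `1/c ≤ G/2`. -/
theorem inv_c (hD : D.Hyp) : 1 / D.c ≤ D.G / 2 := by
  rw [div_le_div_iff₀ hD.c_pos (by norm_num)]
  linarith [hD.c_G]

/-- `B = 2 G u^120` is small: `B ≤ c / 100`. -/
theorem B_le (hD : D.Hyp) : 2 * D.G * u1 D ^ 120 ≤ D.c / 100 := by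
  have h1 := Gk_uj hD (k := 100) (j := 120) (by norm_num)
  have h2 := hD.c_G
  have hG := G_pos hD
  have hu := u1_pos hD
  have hc := hD.c_pos
  have h3 : (100:ℝ) ≤ D.G ^ 7 := by
    have : (2:ℝ) ^ 7 ≤ D.G ^ 7 := pow_le_pow_left₀ (by norm_num) hD.G_two 7
    linarith
  have h4 : D.G ^ 2 * D.G ^ 7 * u1 D ^ 120 ≤ 1 := by
    refine le_trans ?_ (Gk_uj hD (k := 9) (j := 120) (by norm_num))
    apply le_of_eq; ring
  -- `2 G B' ≤ c / 100` iff `200 G u^120 ≤ c`
  have h5 : 100 * (D.G ^ 2 * u1 D ^ 120) ≤ 1 := by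
    calc 100 * (D.G ^ 2 * u1 D ^ 120) ≤ D.G ^ 7 * (D.G ^ 2 * u1 D ^ 120) := by gcongr
      _ = D.G ^ 2 * D.G ^ 7 * u1 D ^ 120 := by ring
      _ ≤ 1 := h4
  have h6 : 2 * D.G * u1 D ^ 120 ≤ (D.G * D.c) * (D.G * u1 D ^ 120) := by
    have : 0 ≤ D.G * u1 D ^ 120 := by positivity
    nlinarith
  calc 2 * D.G * u1 D ^ 120 ≤ (D.G * D.c) * (D.G * u1 D ^ 120) := h6
    _ = D.c * (D.G ^ 2 * u1 D ^ 120) := by ring
    _ ≤ D.c * (1 / 100) := by
      gcongr
      linarith
    _ = D.c / 100 := by ring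

theorem B_nonneg (hD : D.Hyp) : 0 ≤ 2 * D.G * u1 D ^ 120 := by
  have := G_pos hD
  have := u1_pos hD
  positivity

theorem α1_wt (hD : D.Hyp) : Wt D.T (α1 D) :=
  hD.α_wt (D.n + 1) (by have := hD.hmn; omega) le_rfl

theorem α1_le (hD : D.Hyp) : ∀ t ∈ Icc 0 D.T, α1 D t ≤ D.G :=
  hD.α_le (D.n + 1) (by have := hD.hmn; omega) le_rfl

theorem one_wt (T : ℝ) : Wt T Dat.one' := ⟨fun _ _ => one_pos, continuousOn_const,
  fun _ _ _ _ _ => le_rfl⟩

theorem par0 (hD : D.Hyp) {c : ℝ} (hc : 0 ≤ c) : Par D.T c 0 :=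
  ⟨hD.T_pos, le_rfl, by simpa using hc⟩

end num

section nrm

variable {E : Type} [NormedAddCommGroup E] [NormedSpace ℂ E]

/-- Comparison of weights. -/
theorem Nrm_wt {T c a : ℝ} {ρ ρ' : ℝ → ℝ} (ha : 0 ≤ a) (hρ : ∀ t ∈ Icc 0 T, 0 < ρ t)
    (hρ' : ∀ t ∈ Icc 0 T, 0 < ρ' t) (h : ∀ t ∈ Icc 0 T, ρ t ≤ a * ρ' t) (f : ℝ → Md → E) :
    Nrm T c 0 ρ' f ≤ ENNReal.ofReal a * Nrm T c 0 ρ f := by
  unfold Nrm
  rw [← ENNReal.tsum_mul_left]
  refine ENNReal.tsum_le_tsum fun m => ?_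
  rw [ENNReal.mul_iSup]
  refine iSup_mono fun t => ?_
  rw [ENNReal.mul_iSup]
  refine iSup_mono fun ht => ?_
  rw [← mul_assoc, ← ENNReal.ofReal_mul ha]
  gcongr
  have h1 := hρ t ht
  have h2 := hρ' t ht
  have h3 := h t ht
  rw [div_eq_mul_one_div, div_eq_mul_one_div (Real.exp _) (ρ t), ← mul_assoc,
    mul_comm a, mul_assoc]
  refine mul_le_mul_of_nonneg_left ?_ (Real.exp_pos _).le
  rw [← div_eq_mul_one_div, div_le_div_iff₀ h2 h1]
  linarith

/-- From the weight `α` to the weight one. -/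
theorem Nrm_one_le {D : Dat} (hD : D.Hyp) {c : ℝ} (f : ℝ → Md → E) :
    Nrm D.T c 0 Dat.one' f ≤ ENNReal.ofReal D.G * Nrm D.T c 0 (α1 D) f :=
  Nrm_wt (G_pos hD).le (α1_wt hD).pos (fun _ _ => one_pos)
    (fun t ht => by simpa [Dat.one'] using α1_le hD t ht) f

/-- A bound in the weight `α` gives a bound in the weight one. -/
theorem Nrm_one_of {D : Dat} (hD : D.Hyp) {c b : ℝ} {f : ℝ → Md → E}
    (h : Nrm D.T c 0 (α1 D) f ≤ ENNReal.ofReal b) :
    Nrm D.T c 0 Dat.one' f ≤ ENNReal.ofReal (D.G * b) := by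
  refine (Nrm_one_le hD f).trans ?_
  rw [ENNReal.ofReal_mul (G_pos hD).le]
  gcongr

theorem Nrm_fin_one {D : Dat} (hD : D.Hyp) {c : ℝ} {f : ℝ → Md → E}
    (h : Nrm D.T c 0 (α1 D) f ≠ ∞) : Nrm D.T c 0 Dat.one' f ≠ ∞ :=
  ne_top_of_le_ne_top (ENNReal.mul_ne_top ENNReal.ofReal_ne_top h) (Nrm_one_le hD f)

theorem Fn.mono {n : ℕ} {T c c' : ℝ} {f : ℝ → Md → E} (h : Fn n T c f) (hc : c' ≤ c) :
    Fn n T c' f :=
  ⟨h.cm, h.supp, ne_top_of_le_ne_top h.fin (A.Nrm_mono le_rfl hc (fun _ _ => one_pos) f)⟩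

theorem Fn.sN {n : ℕ} {T c : ℝ} {f : ℝ → Md → E} (h : Fn n T c f) {t : ℝ} (ht : t ∈ Icc 0 T) :
    sN c (f t) ≠ ∞ :=
  ne_top_of_le_ne_top h.fin (A.sN_le_Nrm1 ht)

theorem summable_of_sN {f : Md → E} (h : sN 0 f ≠ ∞) : Summable fun q => ‖f q‖ := by
  have h1 := ENNReal.summable_toReal h
  refine h1.congr fun q => ?_
  simp

/-- The norm of a value. -/
theorem norm_ev_le_sN (θ : Md →+ ℝ) {f : Md → E} {b : ℝ} (hb : 0 ≤ b)
    (h : sN 0 f ≤ ENNReal.ofReal b) : ‖ev θ f‖ ≤ b := by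
  have hf : sN 0 f ≠ ∞ := ne_top_of_le_ne_top ENNReal.ofReal_ne_top h
  refine (norm_ev_le θ (summable_of_sN hf)).trans ?_
  have h1 : ENNReal.ofReal (∑' q, ‖f q‖) = sN 0 f := by
    rw [ENNReal.ofReal_tsum_of_nonneg (fun _ => norm_nonneg _) (summable_of_sN hf)]
    unfold W.sN
    refine tsum_congr fun q => ?_
    simp
  rw [← h1] at h
  exact (ENNReal.ofReal_le_ofReal_iff hb).mp h

end nrm

section lab

variable {D : Dat} {w ζ : ℝ → Md → C3}

theorem lab_supp {K : ℕ → Fin 3 → ℤ} {S : Set Md} {ζ : Md → C3} (h : SuppIn S ζ) (i : ℕ) :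
    SuppIn S (lab K ζ i) := fun q hq => by simp [lab, h q hq]

theorem inner_kv_cjv (k : Fin 3 → ℤ) (v : C3) :
    innerSL ℂ (kv k) (cjv v) = starRingEnd ℂ (innerSL ℂ (kv k) v) := by
  simp only [innerSL_apply_apply, PiLp.inner_apply, Fin.sum_univ_three, kv, cjv]
  simp

theorem lab_real {K : ℕ → Fin 3 → ℤ} {ζ : Md → C3} (h : RealV ζ) (i : ℕ) :
    RealS (lab K ζ i) := fun q => by
  simp only [lab]
  rw [h q, inner_kv_cjv]

theorem lab_odd {K : ℕ → Fin 3 → ℤ} {ζ : Md → C3} (h : OddF ζ) (i : ℕ) :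
    OddF (lab K ζ i) := fun q => by
  simp only [lab]
  rw [h q, map_neg]

theorem lab_zero (K : ℕ → Fin 3 → ℤ) : lab K 0 = fun _ => (0 : Md → ℂ) := by
  funext i p
  simp [lab]

theorem lab_cm {K : ℕ → Fin 3 → ℤ} {T : ℝ} {ζ : ℝ → Md → C3} (h : CM T ζ) (i : ℕ) :
    CM T (fun t => lab K (ζ t) i) := fun q =>
  (innerSL ℂ (kv (K i))).continuous.comp_continuousOn (h q)

/-- The displacements at a fixed time. -/
theorem LabD.xh (hD : D.Hyp) (h : LabD D w ζ) {t : ℝ} (ht : t ∈ Icc 0 D.T) :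
    XH (D.n + 1) (D.c / 4) (2 * D.G * u1 D ^ 120) (lab D.K (ζ t)) where
  c_nn := by linarith [hD.c_pos]
  B_nn := B_nonneg hD
  le i hi := (A.sN_le_Nrm1 (f := fun t => lab D.K (ζ t) i) ht).trans (h.lab_le' i hi)
  supp i _ := lab_supp (h.supp t ht) i
  real i _ := lab_real (h.odd t ht).1 i

/-- A smaller radius. -/
theorem XH.mono {n : ℕ} {c c' B : ℝ} {x : ℕ → Md → ℂ} (h : XH n c B x) (h0 : 0 ≤ c')
    (hc : c' ≤ c) : XH n c' B x where
  c_nn := h0
  B_nn := h.B_nn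
  le i hi := (A.sN_mono' hc _).trans (h.le i hi)
  supp := h.supp
  real := h.real

theorem LabD.fn (hD : D.Hyp) (h : LabD D w ζ) : Fn (D.n + 1) D.T (D.c / 4) ζ :=
  ⟨h.cm, h.supp, Nrm_fin_one hD (ne_top_of_le_ne_top ENNReal.ofReal_ne_top h.le)⟩

end lab

end Pool.Agent.Work.MP_b0497c_an.Unf.L

end

section

set_option autoImplicit false
set_option linter.dupNamespace false

/-!
# L00: the solution of the step
-/

open scoped ENNReal
open Set MeasureTheory

namespace Pool.Agent.Work.MP_b0497c_an.Unf.L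

open W S

section L00aux

variable {E : Type} [NormedAddCommGroup E] [NormedSpace ℂ E]

/-- a smaller radius instead of a shrinking one -/
theorem L00_rad {T c' c γ : ℝ} {σ : ℝ → ℝ} (hσ : ∀ t ∈ Icc 0 T, 0 < σ t)
    (h : ∀ t ∈ Icc 0 T, c' ≤ c - γ * t) (f : ℝ → Md → E) :
    Nrm T c' 0 σ f ≤ Nrm T c γ σ f := by
  unfold Nrm
  refine ENNReal.tsum_le_tsum fun m => iSup₂_mono fun t ht => ?_
  refine mul_le_mul_left (ENNReal.ofReal_le_ofReal ?_) _
  refine div_le_div_of_nonneg_right (Real.exp_le_exp.mpr ?_) (hσ t ht).le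
  refine mul_le_mul_of_nonneg_right ?_ (len_nonneg m)
  have := h t ht
  linarith

theorem L00_smul {T c γ : ℝ} {σ : ℝ → ℝ} (z : ℂ) (f : ℝ → Md → E) :
    Nrm T c γ σ (fun t => z • f t) = ‖z‖ₑ * Nrm T c γ σ f := by
  unfold Nrm
  rw [← ENNReal.tsum_mul_left]
  refine tsum_congr fun m => ?_
  simp only [ENNReal.mul_iSup]
  refine iSup_congr fun t => iSup_congr fun ht => ?_
  rw [Pi.smul_apply, enorm_smul]
  ring

theorem L00_wt {T c γ N : ℝ} {ρ α : ℝ → ℝ} (hN : 0 < N) (hρ : ∀ t ∈ Icc 0 T, ρ t = α t / N)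
    (f : ℝ → Md → E) : Nrm T c γ ρ f = ENNReal.ofReal N * Nrm T c γ α f := by
  unfold Nrm
  rw [← ENNReal.tsum_mul_left]
  refine tsum_congr fun m => ?_
  simp only [ENNReal.mul_iSup]
  refine iSup_congr fun t => iSup_congr fun ht => ?_
  rw [hρ t ht, ← mul_assoc, ← ENNReal.ofReal_mul hN.le]
  congr 2
  rw [div_div_eq_mul_div]
  ring

theorem L00_div {N B : ℝ} {A : ℝ≥0∞} (hN : 0 < N)
    (h : ENNReal.ofReal N * A ≤ ENNReal.ofReal B) : A ≤ ENNReal.ofReal (B / N) := by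
  rw [ENNReal.ofReal_div_of_pos hN, ENNReal.le_div_iff_mul_le
    (Or.inl (by simpa using hN)) (Or.inl ENNReal.ofReal_ne_top), mul_comm]
  exact h

theorem L00_enorm {N : ℝ} (hN : 0 < N) : ‖(N : ℂ)‖ₑ = ENNReal.ofReal N := by
  rw [← ofReal_norm, Complex.norm_real, Real.norm_of_nonneg hN.le]

/-- Conjugation of vectors as a real isometry. -/
noncomputable def L00_cjI : C3 ≃ₗᵢ[ℝ] C3 where
  toFun := cjv
  invFun := cjv
  left_inv := W20.cj_cj
  right_inv := W20.cj_cj
  map_add' := W20.cj_add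
  map_smul' := by
    intro r v
    ext i
    simp [cjv]
  norm_map' := W20.cj_norm

theorem L00_real {a : Md → Mat} {f : Md → C3} (ha : RealM a) (hf : RealV f) :
    RealV (mul a f) := by
  intro q
  show ∑' l, a (-q - l) (f l) = cjv (∑' l, a (q - l) (f l))
  have h1 : cjv (∑' l, a (q - l) (f l)) = ∑' l, cjv (a (q - l) (f l)) :=
    (L00_cjI.toContinuousLinearEquiv).map_tsum
  rw [h1, ← (Equiv.neg Md).tsum_eq (fun l => a (-q - l) (f l))]
  refine tsum_congr fun l => ?_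
  rw [Equiv.neg_apply, ← ha (q - l) (f l), hf l]
  congr 2
  abel

theorem L00_odd {a : Md → Mat} {f : Md → C3} (ha : EvenF a) (hf : OddF f) :
    OddF (mul a f) := by
  intro q
  show ∑' l, a (-q - l) (f l) = - ∑' l, a (q - l) (f l)
  rw [← tsum_neg, ← (Equiv.neg Md).tsum_eq (fun l => a (-q - l) (f l))]
  refine tsum_congr fun l => ?_
  rw [Equiv.neg_apply, hf l, map_neg, ← ha (q - l)]
  congr 3
  abel

theorem L00_split {n : ℕ} {f : Md → C3} (hf : SuppIn (lev (n + 1) : Set Md) f) :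
    f = res (Cl (n + 1)) f + res (lev n : Set Md) f := by
  funext q
  rw [Pi.add_apply]
  unfold res
  by_cases hq : q ∈ (lev (n + 1) : Set Md)
  · by_cases h0 : q (n + 1) = 0
    · have h1 : q ∉ Cl (n + 1) := fun h => h.2 h0
      have h2 : q ∈ (lev n : Set Md) := by
        intro i hi
        rcases Nat.lt_or_ge (n + 1) i with h | h
        · exact hq i h
        · have : i = n + 1 := by omega
          rw [this]
          exact h0
      rw [if_neg h1, if_pos h2, zero_add]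
    · have h1 : q ∈ Cl (n + 1) := ⟨hq, h0⟩
      have h2 : q ∉ (lev n : Set Md) := fun h => h0 (h (n + 1) (Nat.lt_succ_self n))
      rw [if_pos h1, if_neg h2, add_zero]
  · have h1 : q ∉ Cl (n + 1) := fun h => hq h.1
    have h2 : q ∉ (lev n : Set Md) := fun h => hq fun i hi => h i (by omega)
    rw [if_neg h1, if_neg h2, add_zero, hf q hq]

end L00aux

theorem l00 (h24 : S24) (h25 : S25) (h28 : S28) (h29 : S29) (h30 : S30) (h31 : S31) : L00 := by
  intro D ρ Str w0 hD hW hS hodd hE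
  obtain ⟨w, hcm, hsupp, hzero, hder, hcls, hdif, hk, hlow⟩ := h24 D ρ Str w0 hD hW hS
  obtain ⟨h30a, h30cm, h30supp, h30le, -, h30k⟩ := h30 D ρ Str w0 hD hW hS
  have hfin : Nrm D.T D.c D.γ Dat.one' w ≠ ∞ :=
    h30a w hsupp fun o h1 h2 => sa_fin0 (hcls o h1 h2)
  have hN := N1_pos hD
  have hmn := hD.hmn
  have hT := hD.T_pos
  have hc := hD.c_pos
  have hG := G_pos hD
  have hG2 := hD.G_two
  have hu := u1_pos hD
  have hα := α1_wt hD
  have hCs : Cs D.m (D.n + 1) = Cl (D.n + 1) := if_neg (by omega)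
  have hγT : D.γ * D.T = D.c / 2 := by
    rw [hD.γ_eq]
    field_simp
  have hγ : 0 ≤ D.γ := by
    rw [hD.γ_eq]
    positivity
  have hP : Par D.T D.c D.γ := ⟨hT, hγ, by rw [hγT]; linarith⟩
  have hγt : ∀ t ∈ Icc 0 D.T, D.γ * t ≤ D.c / 2 := fun t ht => by
    rw [← hγT]
    exact mul_le_mul_of_nonneg_left ht.2 hγ
  have hr1 : ∀ t ∈ Icc 0 D.T, D.c / 2 ≤ D.c - D.γ * t := fun t ht => by
    have := hγt t ht
    linarith
  have hr2 : ∀ t ∈ Icc 0 D.T, D.c / 4 ≤ 3 * D.c / 4 - D.γ * t := fun t ht => by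
    have := hγt t ht
    linarith
  have hnew : ∀ t ∈ Icc 0 D.T, ρ (D.n + 1) t = α1 D t / N1 D := hW.new
  -- the new class
  have hw1 : Nrm D.T D.c D.γ (α1 D) (fun t => res (Cl (D.n + 1)) (w t)) ≤
      ENNReal.ofReal (D.G ^ 3 / N1 D) := by
    refine L00_div hN ?_
    rw [← L00_wt hN hnew]
    have h := hcls (D.n + 1) (by omega) le_rfl
    rwa [hCs] at h
  have hw2 : Nrm D.T D.c D.γ (α1 D) (fun t => res (Cl (D.n + 1)) (w t) - lw D w0 t) ≤
      ENNReal.ofReal (u1 D ^ 64 / N1 D) := by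
    refine L00_div hN ?_
    rw [← L00_wt hN hnew]
    exact hdif
  have hw3 : Nrm D.T D.c D.γ (α1 D) (fun t => mul (D.rw (D.n + 1) t)
      (res (Cl (D.n + 1)) (w t))) ≤ ENNReal.ofReal (u1 D ^ 120) := by
    have h : Nrm D.T D.c D.γ (ρ (D.n + 1)) (fun t => ((N1 D : ℂ)⁻¹) •
        mul (D.rw (D.n + 1) t) (res (Cl (D.n + 1)) (w t))) ≤ ENNReal.ofReal (u1 D ^ 120) := hk
    rw [L00_wt hN hnew, L00_smul, ← mul_assoc, enorm_inv (by exact_mod_cast hN.ne'),
      L00_enorm hN, ENNReal.mul_inv_cancel (by simpa using hN) ENNReal.ofReal_ne_top,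
      one_mul] at h
    exact h
  have hlow' : ENNReal.ofReal (N1 D) *
      Nrm D.T D.c D.γ (α1 D) (fun t => res (lev D.n : Set Md) (w t)) ≤
      ENNReal.ofReal (u1 D ^ 256) := by
    rw [← L00_enorm hN, ← L00_smul]
    exact hlow
  have hw4 := L00_div hN hlow'
  -- the bound for S31
  have hsum : Nrm D.T D.c D.γ (α1 D) (fun t => (N1 D : ℂ) • w t) ≤ ENNReal.ofReal (D.G ^ 4) := by
    rw [L00_smul, L00_enorm hN]
    have h1 : Nrm D.T D.c D.γ (α1 D) w ≤
        Nrm D.T D.c D.γ (α1 D) (fun t => res (Cl (D.n + 1)) (w t)) +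
        Nrm D.T D.c D.γ (α1 D) (fun t => res (lev D.n : Set Md) (w t)) := by
      have h2 : Nrm D.T D.c D.γ (α1 D) w = Nrm D.T D.c D.γ (α1 D)
          (fun t => res (Cl (D.n + 1)) (w t) + res (lev D.n : Set Md) (w t)) :=
        sa_nrm_congr (fun t ht => L00_split (hsupp t ht)) fun _ _ => rfl
      rw [h2]
      exact sa_nrm_add hP hα _ _
    have h3 : ENNReal.ofReal (N1 D) *
        Nrm D.T D.c D.γ (α1 D) (fun t => res (Cl (D.n + 1)) (w t)) ≤
        ENNReal.ofReal (D.G ^ 3) := by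
      rw [← L00_wt hN hnew]
      have h := hcls (D.n + 1) (by omega) le_rfl
      rwa [hCs] at h
    calc ENNReal.ofReal (N1 D) * Nrm D.T D.c D.γ (α1 D) w
        ≤ ENNReal.ofReal (N1 D) * (Nrm D.T D.c D.γ (α1 D) (fun t => res (Cl (D.n + 1)) (w t)) +
          Nrm D.T D.c D.γ (α1 D) (fun t => res (lev D.n : Set Md) (w t))) :=
          mul_le_mul' le_rfl h1
      _ ≤ ENNReal.ofReal (D.G ^ 3) + ENNReal.ofReal (u1 D ^ 256) := by
          rw [_root_.mul_add]
          exact add_le_add h3 hlow'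
      _ = ENNReal.ofReal (D.G ^ 3 + u1 D ^ 256) :=
          (ENNReal.ofReal_add (by positivity) (by positivity)).symm
      _ ≤ ENNReal.ofReal (D.G ^ 4) := by
          refine ENNReal.ofReal_le_ofReal ?_
          have h5 : u1 D ^ 256 ≤ 1 := pow_le_one₀ hu.le (u1_lt hD).le
          have h6 : (1 : ℝ) ≤ D.G ^ 3 := one_le_pow₀ (one_le_G hD)
          nlinarith
  obtain ⟨hdcm, hdle⟩ := h31 D w hD hcm hsupp hsum
  have hdle' : Nrm D.T (3 * D.c / 4) D.γ (α1 D) (RHS D w) ≤ ENNReal.ofReal (D.G ^ 18 / N1 D) := by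
    refine L00_div hN ?_
    rw [← L00_enorm hN, ← L00_smul]
    exact hdle
  -- reality and parity
  have hRM : ∀ t ∈ Icc 0 D.T, RealM (D.F D.n t) ∧ RealM (D.Fi D.n t) ∧ RealM (D.M D.n t) :=
    fun t ht => ⟨(hE t ht).1.1, (hE t ht).2.1.1, (hE t ht).2.2.1⟩
  have hEM : ∀ t ∈ Icc 0 D.T, EvenF (D.Fi D.n t) ∧ EvenF (D.M D.n t) :=
    fun t ht => ⟨(hE t ht).2.1.2, (hE t ht).2.2.2⟩
  obtain ⟨h28r, h28o⟩ := h28 D w hD hcm hsupp hfin hder
  obtain ⟨h29r, h29e⟩ := h29 D hD (D.n + 1) (by omega) le_rfl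
  have h0 : (0 : ℝ) ∈ Icc 0 D.T := ⟨le_rfl, hT.le⟩
  refine ⟨w, ?_⟩
  exact {
    cm := hcm
    supp := hsupp
    zero := hzero
    w0_supp := hS.supp
    w0_odd := hodd
    der := hder
    w_le := (L00_rad hα.pos hr1 _).trans hw1
    w_dif := (L00_rad hα.pos hr1 _).trans hw2
    w_k := (L00_rad hα.pos hr1 _).trans hw3
    w_low := (L00_rad hα.pos hr1 _).trans hw4
    div := h25 D w hD hcm hsupp hfin (fun q => by rw [hzero]; exact hS.div q) hder
    odd := fun t ht => ⟨h28r hRM (by rw [hzero]; exact hodd.1) t ht,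
      h28o hEM (by rw [hzero]; exact hodd.2) t ht⟩
    dot_cm := hdcm
    dot_le := (L00_rad hα.pos hr2 _).trans hdle'
    lin_cm := h30cm
    lin_supp := h30supp
    lin_le := h30le
    lin_k := h30k
    w0_k := hS.k_le
    lin_odd := fun t ht =>
      ⟨L00_real (h29r (fun t ht => ⟨(hRM t ht).2.1, (hRM t ht).2.2⟩) 0 h0 t ht).2.2 hodd.1,
        L00_odd (h29e hEM 0 h0 t ht).2.2 hodd.2⟩ }

end Pool.Agent.Work.MP_b0497c_an.Unf.L

end

section

set_option autoImplicit false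
set_option linter.dupNamespace false

/-!
# Tools for compositions with a change of phases (used by L11)

Every identity is checked at the real labels (L07, L08).
-/

open scoped ENNReal
open Set MeasureTheory

namespace Pool.Agent.Work.MP_b0497c_an.Unf.L

open W S

namespace L10h

section tools

variable {E F G : Type} [NormedAddCommGroup E] [NormedSpace ℂ E] [NormedAddCommGroup F]
  [NormedSpace ℂ F] [NormedAddCommGroup G] [NormedSpace ℂ G]

omit [NormedSpace ℂ E] in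
/-- Finite norm at the radius zero: absolutely summable. -/
theorem lsum {f : Md → E} (hf : sN 0 f ≠ ∞) : Summable fun q => ‖f q‖ := by
  have h : (∑' q, ‖f q‖ₑ) ≠ ∞ := by
    have h1 : sN 0 f = ∑' q, ‖f q‖ₑ := by simp [sN]
    rwa [h1] at hf
  have h2 := ENNReal.summable_toReal h
  simpa [toReal_enorm] using h2

/-- Products of functions of level `n` are of level `n`. -/
theorem supp_conv {n : ℕ} (β : E →L[ℂ] F →L[ℂ] G) {f : Md → E} {g : Md → F}
    (hf : SuppIn (lev n : Set Md) f) (hg : SuppIn (lev n : Set Md) g) :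
    SuppIn (lev n : Set Md) (conv β f g) := by
  intro q hq
  unfold conv
  refine (tsum_congr fun l => ?_).trans tsum_zero
  by_cases hl : l ∈ lev n
  · have h1 : q - l ∉ (lev n : Set Md) := by
      intro h
      have h2 := (lev n).add_mem h hl
      rw [sub_add_cancel] at h2
      exact hq h2
    rw [hf _ h1]
    simp
  · rw [hg _ hl]
    simp

theorem supp_mul {n : ℕ} {a : Md → (E →L[ℂ] F)} {f : Md → E}
    (ha : SuppIn (lev n : Set Md) a) (hf : SuppIn (lev n : Set Md) f) :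
    SuppIn (lev n : Set Md) (mul a f) :=
  supp_conv (ContinuousLinearMap.id ℂ (E →L[ℂ] F)) ha hf

theorem supp_mm {n : ℕ} {a : Md → (F →L[ℂ] G)} {b : Md → (E →L[ℂ] F)}
    (ha : SuppIn (lev n : Set Md) a) (hb : SuppIn (lev n : Set Md) b) :
    SuppIn (lev n : Set Md) (mm a b) :=
  supp_conv (ContinuousLinearMap.compL ℂ E F G) ha hb

omit [NormedSpace ℂ E] in
theorem supp_add {S : Set Md} {f g : Md → E} (hf : SuppIn S f) (hg : SuppIn S g) :
    SuppIn S (f + g) := fun q hq => by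
  rw [Pi.add_apply, hf q hq, hg q hq, add_zero]

omit [NormedSpace ℂ E] in
theorem supp_neg {S : Set Md} {f : Md → E} (hf : SuppIn S f) : SuppIn S (-f) := fun q hq => by
  rw [Pi.neg_apply, hf q hq, neg_zero]

theorem supp_adjC {n : ℕ} {a : Md → Mat} (ha : SuppIn (lev n : Set Md) a) :
    SuppIn (lev n : Set Md) (adjC a) := fun q hq => by
  have h : -q ∉ (lev n : Set Md) := fun h => hq (by
    have := (lev n).neg_mem h
    rwa [neg_neg] at this)
  simp [adjC, ha _ h]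

theorem supp_oneM (n : ℕ) : SuppIn (lev n : Set Md) oneM := fun q hq => by
  have h : q ≠ 0 := fun h => hq (by rw [h]; exact (lev n).zero_mem)
  simp [oneM, h]

omit [NormedSpace ℂ E] in
theorem fin_neg' {c : ℝ} {f : Md → E} (hf : sN c f ≠ ∞) : sN c (-f) ≠ ∞ := fin_neg hf

/-- The value of a function of level `n` depends on the phases up to `n` only. -/
theorem ev_congr_lev {n : ℕ} {f : Md → E} (hf : SuppIn (lev n : Set Md) f) {θ θ' : Md →+ ℝ}
    (h : ∀ q ∈ lev n, θ q = θ' q) : ev θ f = ev θ' f := by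
  unfold ev
  refine tsum_congr fun q => ?_
  by_cases hq : q ∈ lev n
  · rw [ch, ch, h q hq]
  · rw [hf q hq, smul_zero, smul_zero]

end tools

section comp

variable {E : Type} [NormedAddCommGroup E] [NormedSpace ℂ E]
variable {n : ℕ} {c c1 B : ℝ} {x : ℕ → Md → ℂ}

theorem comp_zero (h03 : L03) (f : Md → E) : comp (fun _ => (0 : Md → ℂ)) f = f := by
  have hph : ∀ q : Md, (fun r => Complex.I * phF (fun _ => (0 : Md → ℂ)) q r) = 0 := by
    intro q
    funext r
    simp [phF]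
  funext p
  unfold comp
  simp only [hph]
  rw [h03.2.2.2.1, tsum_eq_single p]
  · simp [cst]
  · intro q hq
    have h1 : p - q ≠ 0 := sub_ne_zero.2 (Ne.symm hq)
    simp [cst, h1]

theorem x_fin (hx : XH n c1 B x) {i : ℕ} (hi : i ≤ n) : sN 0 (x i) ≠ ∞ :=
  fin_mono hx.c_nn hx.c_nn (ne_top_of_le_ne_top ENNReal.ofReal_ne_top (hx.le i hi))

theorem c_le (hx : XH n c1 B x) (hc : c1 + B ≤ c) : 0 ≤ c := by
  have h1 := hx.c_nn
  have h2 := hx.B_nn
  linarith

theorem f_fin (hx : XH n c1 B x) (hc : c1 + B ≤ c) {f : Md → E} (hf : sN c f ≠ ∞) :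
    sN 0 f ≠ ∞ := fin_mono (c_le hx hc) (c_le hx hc) hf

theorem comp_fin [CompleteSpace E] (h07 : L07) (hx : XH n c1 B x) (hc : c1 + B ≤ c) {f : Md → E}
    (hs : SuppIn (lev n : Set Md) f) (hf : sN c f ≠ ∞) : sN 0 (comp x f) ≠ ∞ :=
  fin_mono hx.c_nn hx.c_nn (ne_top_of_le_ne_top hf (h07 E n c c1 B x f hx hc hs hf).1)

theorem comp_supp [CompleteSpace E] (h07 : L07) (hx : XH n c1 B x) (hc : c1 + B ≤ c) {f : Md → E}
    (hs : SuppIn (lev n : Set Md) f) (hf : sN c f ≠ ∞) : SuppIn (lev n : Set Md) (comp x f) :=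
  (h07 E n c c1 B x f hx hc hs hf).2.1

theorem comp_ev [CompleteSpace E] (h07 : L07) (hx : XH n c1 B x) (hc : c1 + B ≤ c) {f : Md → E}
    (hs : SuppIn (lev n : Set Md) f) (hf : sN c f ≠ ∞) (θ : Md →+ ℝ) :
    ev θ (comp x f) = ev (sh θ x) f := (h07 E n c c1 B x f hx hc hs hf).2.2 θ

/-- Odd displacements: the displaced point of `-θ`. -/
theorem sh_neg (h09 : L09) (hx : XH n c1 B x) (ho : ∀ i ≤ n, OddF (x i)) (θ : Md →+ ℝ) {q : Md}
    (hq : q ∈ lev n) : sh (-θ) x q = (-(sh θ x)) q := by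
  have h1 : ∀ i ≤ n, ev (-θ) (x i) = - ev θ (x i) := fun i hi =>
    ((h09.2.2.2 ℂ n (x i) (hx.supp i hi) (x_fin hx hi)).1.mp (ho i hi)) θ
  show (-θ) q + (q.sum fun i z => (z : ℝ) * (ev (-θ) (x i)).re) =
    -(θ q + q.sum fun i z => (z : ℝ) * (ev θ (x i)).re)
  have h2 : (q.sum fun i z => (z : ℝ) * (ev (-θ) (x i)).re) =
      -(q.sum fun i z => (z : ℝ) * (ev θ (x i)).re) := by
    unfold Finsupp.sum
    rw [← Finset.sum_neg_distrib]
    refine Finset.sum_congr rfl fun i hi => ?_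
    have hin : i ≤ n := by
      by_contra hc
      push Not at hc
      exact (Finsupp.mem_support_iff.mp hi) (hq i hc)
    show ((q i : ℤ) : ℝ) * (ev (-θ) (x i)).re = -(((q i : ℤ) : ℝ) * (ev θ (x i)).re)
    rw [h1 i hin, Complex.neg_re]
    ring
  rw [h2, AddMonoidHom.neg_apply]
  ring

theorem ev_sh_neg (h09 : L09) (hx : XH n c1 B x) (ho : ∀ i ≤ n, OddF (x i)) {f : Md → E}
    (hs : SuppIn (lev n : Set Md) f) (θ : Md →+ ℝ) : ev (sh (-θ) x) f = ev (-(sh θ x)) f :=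
  ev_congr_lev hs fun _ hq => sh_neg h09 hx ho θ hq

theorem comp_even [CompleteSpace E] (h07 : L07) (h09 : L09) (hx : XH n c1 B x) (hc : c1 + B ≤ c)
    (ho : ∀ i ≤ n, OddF (x i)) {f : Md → E} (hs : SuppIn (lev n : Set Md) f) (hf : sN c f ≠ ∞)
    (he : EvenF f) : EvenF (comp x f) := by
  refine (h09.2.2.2 E n (comp x f) (comp_supp h07 hx hc hs hf) (comp_fin h07 hx hc hs hf)).2.mpr
    fun θ => ?_
  rw [comp_ev h07 hx hc hs hf, comp_ev h07 hx hc hs hf, ev_sh_neg h09 hx ho hs]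
  exact (h09.2.2.2 E n f hs (f_fin hx hc hf)).2.mp he (sh θ x)

theorem comp_odd [CompleteSpace E] (h07 : L07) (h09 : L09) (hx : XH n c1 B x) (hc : c1 + B ≤ c)
    (ho : ∀ i ≤ n, OddF (x i)) {f : Md → E} (hs : SuppIn (lev n : Set Md) f) (hf : sN c f ≠ ∞)
    (he : OddF f) : OddF (comp x f) := by
  refine (h09.2.2.2 E n (comp x f) (comp_supp h07 hx hc hs hf) (comp_fin h07 hx hc hs hf)).1.mpr
    fun θ => ?_
  rw [comp_ev h07 hx hc hs hf, comp_ev h07 hx hc hs hf, ev_sh_neg h09 hx ho hs]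
  exact (h09.2.2.2 E n f hs (f_fin hx hc hf)).1.mp he (sh θ x)

end comp

end L10h

open L10h

theorem l10h (h03 : L03) (h07 : L07) (h08 : L08) (h09 : L09) : L10 := by
  refine ⟨fun E _ _ f => comp_zero h03 f, ?_⟩
  intro n c c1 B x hx hc
  have hc0 : 0 ≤ c := c_le hx hc
  refine ⟨?_, ?_, ?_, ?_, ?_, ?_, ?_, ?_⟩
  · -- mul
    intro E F _ _ _ _ _ _ a f sa sf fa ff
    refine h08.1 F n _ _ (comp_supp h07 hx hc (supp_mul sa sf) (fin_mul hc0 fa ff))
      (supp_mul (comp_supp h07 hx hc sa fa) (comp_supp h07 hx hc sf ff))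
      (comp_fin h07 hx hc (supp_mul sa sf) (fin_mul hc0 fa ff))
      (fin_mul le_rfl (comp_fin h07 hx hc sa fa) (comp_fin h07 hx hc sf ff)) fun θ => ?_
    rw [comp_ev h07 hx hc (supp_mul sa sf) (fin_mul hc0 fa ff),
      ev_mul _ (lsum (f_fin hx hc fa)) (lsum (f_fin hx hc ff)),
      ev_mul _ (lsum (comp_fin h07 hx hc sa fa)) (lsum (comp_fin h07 hx hc sf ff)),
      comp_ev h07 hx hc sa fa, comp_ev h07 hx hc sf ff]
  · -- mm
    intro E F G _ _ _ _ _ _ _ _ _ a b sa sb fa fb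
    refine h08.1 (E →L[ℂ] G) n _ _ (comp_supp h07 hx hc (supp_mm sa sb) (fin_mm hc0 fa fb))
      (supp_mm (comp_supp h07 hx hc sa fa) (comp_supp h07 hx hc sb fb))
      (comp_fin h07 hx hc (supp_mm sa sb) (fin_mm hc0 fa fb))
      (fin_mm le_rfl (comp_fin h07 hx hc sa fa) (comp_fin h07 hx hc sb fb)) fun θ => ?_
    rw [comp_ev h07 hx hc (supp_mm sa sb) (fin_mm hc0 fa fb),
      ev_mm _ (lsum (f_fin hx hc fa)) (lsum (f_fin hx hc fb)),
      ev_mm _ (lsum (comp_fin h07 hx hc sa fa)) (lsum (comp_fin h07 hx hc sb fb)),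
      comp_ev h07 hx hc sa fa, comp_ev h07 hx hc sb fb]
  · -- addition
    intro E _ _ _ f g sf sg ff fg
    constructor
    · refine h08.1 E n _ _ (comp_supp h07 hx hc (supp_add sf sg) (fin_add ff fg))
        (supp_add (comp_supp h07 hx hc sf ff) (comp_supp h07 hx hc sg fg))
        (comp_fin h07 hx hc (supp_add sf sg) (fin_add ff fg))
        (fin_add (comp_fin h07 hx hc sf ff) (comp_fin h07 hx hc sg fg)) fun θ => ?_
      rw [comp_ev h07 hx hc (supp_add sf sg) (fin_add ff fg),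
        ev_add _ (lsum (f_fin hx hc ff)) (lsum (f_fin hx hc fg)),
        ev_add _ (lsum (comp_fin h07 hx hc sf ff)) (lsum (comp_fin h07 hx hc sg fg)),
        comp_ev h07 hx hc sf ff, comp_ev h07 hx hc sg fg]
    · refine h08.1 E n _ _ (comp_supp h07 hx hc (supp_neg sf) (fin_neg ff))
        (supp_neg (comp_supp h07 hx hc sf ff)) (comp_fin h07 hx hc (supp_neg sf) (fin_neg ff))
        (fin_neg (comp_fin h07 hx hc sf ff)) fun θ => ?_
      rw [comp_ev h07 hx hc (supp_neg sf) (fin_neg ff), ev_neg, ev_neg, comp_ev h07 hx hc sf ff]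
  · -- linear maps
    intro E F _ _ _ _ _ _ T f sf ff
    have sT : ∀ {g : Md → E}, SuppIn (lev n : Set Md) g →
        SuppIn (lev n : Set Md) (fun q => T (g q)) := fun h q hq => by
      show T _ = 0
      rw [h q hq, map_zero]
    have fT : ∀ {r : ℝ} {g : Md → E}, sN r g ≠ ∞ → sN r (fun q => T (g q)) ≠ ∞ :=
      fun h => fin_of_le ‖T‖ (fun q => T.le_opNorm _) h
    refine h08.1 F n _ _ (comp_supp h07 hx hc (sT sf) (fT ff))
      (sT (comp_supp h07 hx hc sf ff)) (comp_fin h07 hx hc (sT sf) (fT ff))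
      (fT (comp_fin h07 hx hc sf ff)) fun θ => ?_
    rw [comp_ev h07 hx hc (sT sf) (fT ff), ev_map _ (lsum (f_fin hx hc ff)),
      ev_map _ (lsum (comp_fin h07 hx hc sf ff)), comp_ev h07 hx hc sf ff]
  · -- adjoints, even matrices
    intro a sa fa
    constructor
    · refine h08.1 Mat n _ _ (comp_supp h07 hx hc (supp_adjC sa) (fin_adjC fa))
        (supp_adjC (comp_supp h07 hx hc sa fa)) (comp_fin h07 hx hc (supp_adjC sa) (fin_adjC fa))
        (fin_adjC (comp_fin h07 hx hc sa fa)) fun θ => ?_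
      rw [comp_ev h07 hx hc (supp_adjC sa) (fin_adjC fa), ev_adjC _ (lsum (f_fin hx hc fa)),
        ev_adjC _ (lsum (comp_fin h07 hx hc sa fa)), comp_ev h07 hx hc sa fa]
    · intro ho ha
      refine ⟨?_, comp_even h07 h09 hx hc ho sa fa ha.2⟩
      refine (h09.2.2.1 n (comp x a) (comp_supp h07 hx hc sa fa)
        (comp_fin h07 hx hc sa fa)).mpr fun θ v => ?_
      rw [comp_ev h07 hx hc sa fa]
      exact (h09.2.2.1 n a sa (f_fin hx hc fa)).mp ha.1 (sh θ x) v
  · intro f sf ff ho hf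
    refine ⟨?_, comp_odd h07 h09 hx hc ho sf ff hf.2⟩
    refine (h09.2.1 n (comp x f) (comp_supp h07 hx hc sf ff)
      (comp_fin h07 hx hc sf ff)).mpr fun θ => ?_
    rw [comp_ev h07 hx hc sf ff]
    exact (h09.2.1 n f sf (f_fin hx hc ff)).mp hf.1 (sh θ x)
  · intro f sf ff ho hf
    refine ⟨?_, comp_even h07 h09 hx hc ho sf ff hf.2⟩
    refine (h09.1 n (comp x f) (comp_supp h07 hx hc sf ff)
      (comp_fin h07 hx hc sf ff)).mpr fun θ => ?_
    rw [comp_ev h07 hx hc sf ff]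
    exact (h09.1 n f sf (f_fin hx hc ff)).mp hf.1 (sh θ x)
  · refine h08.1 Mat n _ _ (comp_supp h07 hx hc (supp_oneM n) fin_oneM) (supp_oneM n)
      (comp_fin h07 hx hc (supp_oneM n) fin_oneM) fin_oneM fun θ => ?_
    rw [comp_ev h07 hx hc (supp_oneM n) fin_oneM, ev_oneM, ev_oneM]

end Pool.Agent.Work.MP_b0497c_an.Unf.L

end

section

set_option autoImplicit false
set_option linter.dupNamespace false

/-!
# L19: time derivative of an inverse (helper10)
-/

open scoped ENNReal Topology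
open Set MeasureTheory Filter

namespace Pool.Agent.Work.MP_b0497c_an.Unf.L

open W S

namespace L19aux

/-- Support of a product of operator valued functions. -/
theorem supp_mm {E F G : Type} [NormedAddCommGroup E] [NormedSpace ℂ E] [NormedAddCommGroup F]
    [NormedSpace ℂ F] [NormedAddCommGroup G] [NormedSpace ℂ G] {n : ℕ}
    {a : Md → (F →L[ℂ] G)} {b : Md → (E →L[ℂ] F)}
    (ha : SuppIn (lev n : Set Md) a) (hb : SuppIn (lev n : Set Md) b) :
    SuppIn (lev n : Set Md) (mm a b) := by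
  intro q hq
  unfold mm conv
  rw [← tsum_zero (α := E →L[ℂ] G) (β := Md)]
  refine tsum_congr fun l => ?_
  by_cases hl : l ∈ (lev n : Set Md)
  · have : q - l ∉ (lev n : Set Md) := by
      intro h
      apply hq
      have := (lev n).add_mem h hl
      rwa [sub_add_cancel] at this
    rw [ha _ this, map_zero]
    rfl
  · rw [hb _ hl, map_zero]

/-- Products of functions of level `n`. -/
theorem Fn_mm {n : ℕ} {T : ℝ} (hT : 0 < T) {a b : ℝ → Md → Mat} (ha : Fn n T 0 a)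
    (hb : Fn n T 0 b) : Fn n T 0 (fun t => mm (a t) (b t)) := by
  have hP : Par T 0 0 := ⟨hT, le_rfl, by simp⟩
  refine ⟨sa_cm_mm hP ha.cm hb.cm ha.fin hb.fin, fun t ht => supp_mm (ha.supp t ht) (hb.supp t ht),
    ?_⟩
  refine ne_top_of_le_ne_top (ENNReal.mul_ne_top ha.fin hb.fin) ?_
  exact sa_nrm_mm1 hP a b

theorem Fn_neg {n : ℕ} {T : ℝ} {a : ℝ → Md → Mat} (ha : Fn n T 0 a) :
    Fn n T 0 (fun t => -(a t)) := by
  refine ⟨fun q => (ha.cm q).neg, fun t ht q hq => ?_, ?_⟩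
  · rw [Pi.neg_apply, ha.supp t ht q hq, neg_zero]
  · rw [sa_nrm_neg]
    exact ha.fin

theorem ev_cont {n : ℕ} {T : ℝ} {f : ℝ → Md → Mat} (hf : Fn n T 0 f) (θ : Md →+ ℝ) :
    ContinuousOn (fun t => ev θ (f t)) (Icc 0 T) := by
  obtain ⟨u, hu, hu0, -, hb⟩ := bound_of_Nrm hf.fin
  unfold ev
  refine continuousOn_tsum (u := u) (fun q => ?_) hu fun q t ht => ?_
  · exact (hf.cm q).const_smul (ch θ q)
  rw [norm_ch_smul]
  have := hb t ht q
  simpa using this

theorem ev_neg' (θ : Md →+ ℝ) (f : Md → Mat) : ev θ (-f) = - ev θ f := by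
  unfold ev
  rw [← tsum_neg]
  refine tsum_congr fun q => ?_
  rw [Pi.neg_apply, smul_neg]

theorem cont2 : Continuous fun p : Mat × Mat => p.1.comp p.2 := by
  exact (((ContinuousLinearMap.compL ℂ C3 C3 C3).continuous.comp continuous_fst).clm_apply
    continuous_snd)

theorem lim3 {l : Filter ℝ} {Q S : ℝ → Mat} {A B : Mat} (C : Mat) (h1 : Tendsto Q l (𝓝 A))
    (h2 : Tendsto S l (𝓝 B)) :
    Tendsto (fun s => -(((Q s).comp (S s)).comp C)) l (𝓝 (-((A.comp B).comp C))) := by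
  have h3 : Tendsto (fun s => (Q s).comp (S s)) l (𝓝 (A.comp B)) :=
    (cont2.tendsto (A, B)).comp (h1.prodMk_nhds h2)
  have h4 : Tendsto (fun s => ((Q s).comp (S s)).comp C) l (𝓝 ((A.comp B).comp C)) :=
    (cont2.tendsto (A.comp B, C)).comp (h3.prodMk_nhds tendsto_const_nhds)
  exact h4.neg

theorem real_smul_comp (r : ℝ) (A B C : Mat) :
    -((A.comp (r • B)).comp C) = r • (-((A.comp B).comp C)) := by
  ext v : 1
  rw [neg_apply, smul_apply, neg_apply]
  rw [ContinuousLinearMap.comp_apply, ContinuousLinearMap.comp_apply, smul_apply,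
    ContinuousLinearMap.comp_apply, ContinuousLinearMap.comp_apply]
  rw [smul_neg]
  congr 1
  rw [← Complex.coe_smul, map_smul, Complex.coe_smul]

theorem alg1 (A C P P' : Mat) (h1 : A.comp P = ContinuousLinearMap.id ℂ C3)
    (h2 : P'.comp C = ContinuousLinearMap.id ℂ C3) :
    A - C = -((A.comp (P - P')).comp C) := by
  rw [ContinuousLinearMap.comp_sub, ContinuousLinearMap.sub_comp, h1,
      ContinuousLinearMap.comp_assoc, h2, ContinuousLinearMap.id_comp, ContinuousLinearMap.comp_id,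
      neg_sub]

theorem alg2 (A C H P : Mat) (h2 : P.comp C = ContinuousLinearMap.id ℂ C3) :
    -((A.comp (H.comp P)).comp C) = -(A.comp H) := by
  rw [ContinuousLinearMap.comp_assoc, ContinuousLinearMap.comp_assoc, h2,
    ContinuousLinearMap.comp_id]

/-- The derivative of the inverse of an operator valued function. -/
theorem inv_deriv {T : ℝ} {P Q H : ℝ → Mat} {t : ℝ} (ht : t ∈ Icc 0 T)
    (hP : HasDerivWithinAt P ((H t).comp (P t)) (Icc 0 T) t)
    (hPQ : ∀ s ∈ Icc 0 T, (P s).comp (Q s) = ContinuousLinearMap.id ℂ C3 ∧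
      (Q s).comp (P s) = ContinuousLinearMap.id ℂ C3)
    (hQ : ContinuousWithinAt Q (Icc 0 T) t) :
    HasDerivWithinAt Q (-((Q t).comp (H t))) (Icc 0 T) t := by
  rw [hasDerivWithinAt_iff_tendsto_slope] at hP ⊢
  have h1 : Tendsto Q (𝓝[Icc 0 T \ {t}] t) (𝓝 (Q t)) :=
    hQ.tendsto.mono_left (nhdsWithin_mono _ sdiff_subset)
  have h2 : Tendsto (fun s => -(((Q s).comp (slope P t s)).comp (Q t)))
      (𝓝[Icc 0 T \ {t}] t) (𝓝 (-(((Q t).comp ((H t).comp (P t))).comp (Q t)))) :=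
    lim3 (Q t) h1 hP
  rw [alg2 _ _ _ _ (hPQ t ht).1] at h2
  refine h2.congr' ?_
  filter_upwards [self_mem_nhdsWithin] with s hs
  have hs1 : s ∈ Icc 0 T := hs.1
  rw [slope_def_module, slope_def_module]
  rw [alg1 (Q s) (Q t) (P s) (P t) (hPQ s hs1).2 (hPQ t ht).1]
  exact real_smul_comp _ _ _ _

end L19aux

open L19aux in
theorem l19 (h08 : L08) : L19 := by
  intro n T F Fi M hT hF hFi hM hinv hder
  have hG : Fn n T 0 (fun t => -(mm (Fi t) (M t))) := Fn_neg (Fn_mm hT hFi hM)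
  have hMF : Fn n T 0 (fun t => mm (M t) (F t)) := Fn_mm hT hM hF
  have h1 := (h08.2 Mat n T F (fun t => mm (M t) (F t)) hT hF hMF).1 hder
  refine (h08.2 Mat n T Fi (fun t => -(mm (Fi t) (M t))) hT hFi hG).2 fun θ t ht => ?_
  have sF : ∀ s ∈ Icc 0 T, Summable fun q => ‖F s q‖ := fun s hs =>
    summable_of_Nrm le_rfl hF.fin hs
  have sFi : ∀ s ∈ Icc 0 T, Summable fun q => ‖Fi s q‖ := fun s hs =>
    summable_of_Nrm le_rfl hFi.fin hs
  have sM : ∀ s ∈ Icc 0 T, Summable fun q => ‖M s q‖ := fun s hs =>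
    summable_of_Nrm le_rfl hM.fin hs
  have h2 := h1 θ t ht
  rw [ev_mm θ (sM t ht) (sF t ht)] at h2
  have h3 : ∀ s ∈ Icc 0 T, (ev θ (F s)).comp (ev θ (Fi s)) = ContinuousLinearMap.id ℂ C3 ∧
      (ev θ (Fi s)).comp (ev θ (F s)) = ContinuousLinearMap.id ℂ C3 := fun s hs => by
    rw [← ev_mm θ (sF s hs) (sFi s hs), ← ev_mm θ (sFi s hs) (sF s hs), (hinv s hs).1,
      (hinv s hs).2]
    exact ⟨ev_oneM θ, ev_oneM θ⟩
  have h4 := inv_deriv (H := fun t => ev θ (M t)) ht h2 h3 ((ev_cont hFi θ) t ht)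
  rw [ev_neg', ev_mm θ (sFi t ht) (sM t ht)]
  exact h4

end Pool.Agent.Work.MP_b0497c_an.Unf.L

end

section

set_option autoImplicit false
set_option linter.dupNamespace false

/-!
# L30: the records of level `n + 1`
-/

open scoped ENNReal
open Set MeasureTheory

namespace Pool.Agent.Work.MP_b0497c_an.Unf.L

open W S

namespace P30

theorem ev_zero_odd {f : Md → ℂ} (hf : OddF f) : ev 0 f = 0 := by
  have h1 : ev 0 f = - ev 0 f := by
    conv_lhs => rw [ev, ← (Equiv.neg Md).tsum_eq]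
    rw [ev, ← tsum_neg]
    congr 1
    funext q
    simp only [Equiv.neg_apply, hf q, ch_neg]
    simp [ch]
  have h2 : (2:ℂ) * ev 0 f = 0 := by linear_combination h1
  simpa using h2

theorem u32_le {D : Dat} {u' : ℝ} (hD : D.Hyp) (h : D.u (D.n + 1) ≤ u' ^ 8) :
    u1 D ^ 32 ≤ u' ^ 256 := by
  calc u1 D ^ 32 ≤ (u' ^ 8) ^ 32 := by
        gcongr
        · exact (u1_pos hD).le
        · exact h
    _ = u' ^ 256 := by ring

/-- The norm of the solution. -/
theorem w_norm {D : Dat} {w0 : Md → C3} {w : ℝ → Md → C3} (hD : D.Hyp) (hw : WIn D w0 w) :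
    Nrm D.T (D.c / 2) 0 (α1 D) w ≤ ENNReal.ofReal (D.G ^ 4 / N1 D) := by
  have h1 : Nrm D.T (D.c / 2) 0 (α1 D) w ≤
      Nrm D.T (D.c / 2) 0 (α1 D) (fun t => res (Cl (D.n + 1)) (w t)) +
      Nrm D.T (D.c / 2) 0 (α1 D) (fun t => res (lev D.n : Set Md) (w t)) := by
    unfold Nrm
    rw [← ENNReal.tsum_add]
    refine ENNReal.tsum_le_tsum fun q => ?_
    by_cases h1 : q ∈ Cl (D.n + 1)
    · refine le_trans ?_ le_self_add
      refine iSup₂_mono fun t ht => ?_
      simp only [res, h1, if_true]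
      exact le_rfl
    · by_cases h2 : q ∈ (lev D.n : Set Md)
      · refine le_trans ?_ le_add_self
        refine iSup₂_mono fun t ht => ?_
        simp only [res, h2, if_true]
        exact le_rfl
      · refine le_trans (iSup₂_le fun t ht => ?_) (zero_le)
        have h3 : w t q = 0 := by
          refine hw.supp t ht q fun h4 => ?_
          by_cases h5 : q (D.n + 1) = 0
          · apply h2
            intro i hi
            rcases Nat.lt_or_ge (D.n + 1) i with h6 | h6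
            · exact h4 i h6
            · have : i = D.n + 1 := by omega
              rw [this]; exact h5
          · exact h1 ⟨h4, h5⟩
        rw [h3]
        simp
  refine h1.trans ((add_le_add hw.w_le hw.w_low).trans ?_)
  have hN := N1_pos hD
  have hG := hD.G_two
  have hu := u1_pos hD
  have hu1 := u1_lt hD
  rw [← ENNReal.ofReal_add (by positivity) (by positivity), ← add_div]
  refine ENNReal.ofReal_le_ofReal (div_le_div_of_nonneg_right ?_ hN.le)
  have h2 : u1 D ^ 256 ≤ 1 := pow_le_one₀ hu.le hu1.le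
  have h3 : (1:ℝ) ≤ D.G ^ 3 := one_le_pow₀ (by linarith)
  nlinarith [pow_pos (by linarith : 0 < D.G) 3]

theorem w_fn {D : Dat} {w0 : Md → C3} {w : ℝ → Md → C3} (hD : D.Hyp) (hw : WIn D w0 w) :
    Fn (D.n + 1) D.T (D.c / 2) w :=
  ⟨hw.cm, hw.supp, Nrm_fin_one hD (ne_top_of_le_ne_top ENNReal.ofReal_ne_top (w_norm hD hw))⟩

theorem supp_up {E : Type} [Zero E] {n : ℕ} {f : Md → E} (h : SuppIn (lev n : Set Md) f) :
    SuppIn (lev (n + 1) : Set Md) f := by
  intro q hq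
  refine h q fun hq2 => hq fun i hi => hq2 i (by omega)

theorem supp_add {E : Type} [NormedAddCommGroup E] {S : Set Md} {f g : Md → E}
    (hf : SuppIn S f) (hg : SuppIn S g) : SuppIn S (f + g) := fun q hq => by
  rw [Pi.add_apply, hf q hq, hg q hq, add_zero]

end P30

open P30

theorem l30 (h07 : L07) (h08 : L08) (h16 : L16) (h17 : L17) (h18 : L18) (h19 : L19) (h20 : L20)
    (h21 : L21) (h22 : L22) (h23 : L23) (h24 : L24) (h25 : L25) (h26 : L26) (h15b : L15b) :
    L30 := by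
  intro D X U a p w0 w u' hD hL hw hu0 hu1 huu
  obtain ⟨_, ζ, hζ⟩ := h20 D X U a p w0 w hD hL hw
  obtain ⟨⟨Lcm, Lsupp, Leven, Lle⟩, ⟨zcm, zsupp, zreal, zorth, zle⟩, -, Li, hLi⟩ :=
    h21 D X U a p w0 w ζ hD hL hw hζ
  obtain ⟨s, hs⟩ := h16 D X U a p w0 w hD hL hw
  obtain ⟨⟨Fcm, Fsupp, Feven, Fle⟩, ⟨Icm, Isupp, Ieven, Ile⟩, Fdif, Idif⟩ :=
    h22 D X U a p w0 w ζ Li hD hL hw hζ hLi
  obtain ⟨⟨Mcm, Msupp, Meven, Mle⟩, Mdif⟩ := h23 D X U a p w0 w ζ hD hL hw hζ
  obtain ⟨acm, asupp, areal, ale, kale⟩ := h24 D w0 w hD hw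
  obtain ⟨⟨FX, FU, odd⟩, Feq, Xder, MF, inv, X0, U0⟩ := h25 D X U a p w0 w ζ Li hD hL hw hζ hLi
  obtain ⟨⟨FP, FA, evPA⟩, Uder⟩ := h26 D X U a p s w0 w ζ Li hD hL hw hζ hLi hs
  have hT := hD.T_pos
  have hc := hD.c_pos
  have hG := G_pos hD
  have hG1 := one_le_G hD
  have hN := N1_pos hD
  have hu32 := u32_le hD huu
  have hm : D.m < D.n + 1 := by have := hD.hmn; omega
  have z0 : (0:ℝ) ∈ Icc 0 D.T := ⟨le_rfl, hT.le⟩
  have hpos1 : ∀ t ∈ Icc 0 D.T, 0 < Dat.one' t := fun _ _ => one_pos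
  have hα := α1_wt hD
  have hGp : ∀ k, k ≤ 20 → D.G ^ k ≤ D.G ^ 20 := fun k hk => pow_le_pow_right₀ hG1 hk
  have hG20 : D.G ≤ D.G ^ 20 := by simpa using hGp 1 (by norm_num)
  have c8 : D.c / 8 ≤ D.c := by linarith
  -- the three matrix families
  have FF : Fn (D.n + 1) D.T (D.c / 8) (F1 D ζ) :=
    ⟨Fcm, Fsupp, ne_top_of_le_ne_top ENNReal.ofReal_ne_top Fle⟩
  have FI : Fn (D.n + 1) D.T (D.c / 8) (Fi1 D ζ Li) :=
    ⟨Icm, Isupp, ne_top_of_le_ne_top ENNReal.ofReal_ne_top Ile⟩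
  have FM : Fn (D.n + 1) D.T (D.c / 8) (M1 D w ζ) :=
    ⟨Mcm, Msupp, ne_top_of_le_ne_top ENNReal.ofReal_ne_top Mle⟩
  have c80 : (0:ℝ) ≤ D.c / 8 := by linarith
  have FF0 := FF.mono c80
  have FI0 := FI.mono c80
  have FM0 := FM.mono c80
  -- the derivative of F
  have Fder : ∀ q, ∀ t ∈ Icc 0 D.T, HasDerivWithinAt (fun t => F1 D ζ t q)
      (mm (M1 D w ζ t) (F1 D ζ t) q) (Icc 0 D.T) t := by
    intro q t ht
    rw [MF t ht]
    have h1 := (LevSol.gradV_der (K := D.K) (Xder q t ht)).const_add (oneM q)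
    refine h1.congr (fun r hr => ?_) ?_
    · rw [Feq r hr]; rfl
    · rw [Feq t ht]; rfl
  have Ider := h19 (D.n + 1) D.T (F1 D ζ) (Fi1 D ζ Li) (M1 D w ζ) hT FF0 FI0 FM0 inv Fder
  -- products of finite families
  have fmm : ∀ {a b : ℝ → Md → Mat}, Fn (D.n + 1) D.T 0 a → Fn (D.n + 1) D.T 0 b →
      Fn (D.n + 1) D.T 0 (fun t => mm (a t) (b t)) := by
    intro a b ha hb
    refine ⟨sa_cm_mm (par0 hD le_rfl) ha.cm hb.cm ha.fin hb.fin, ?_, ?_⟩
    · intro t ht
      exact S15aux.supp_mm (ha.supp t ht) (hb.supp t ht)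
    · refine ne_top_of_le_ne_top ?_ (sa_nrm_mm1 (par0 hD le_rfl) a b)
      exact ENNReal.mul_ne_top ha.fin hb.fin
  -- determinant and trace
  have tr0 : ∀ t ∈ Icc 0 D.T, ∀ q, trM (M1 D w ζ t q) = 0 := by
    have hv : ∀ θ : Md →+ ℝ, ∀ t ∈ Icc 0 D.T, HasDerivWithinAt (fun t => ev θ (F1 D ζ t))
        ((ev θ (M1 D w ζ t)).comp (ev θ (F1 D ζ t))) (Icc 0 D.T) t := by
      intro θ t ht
      have h1 := ((h08.2 Mat (D.n + 1) D.T (F1 D ζ) (fun t => mm (M1 D w ζ t) (F1 D ζ t)) hT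
        FF0 (fmm FM0 FF0)).mp Fder) θ t ht
      rwa [ev_mm θ (summable_of_sN (FM0.sN ht)) (summable_of_sN (FF0.sN ht))] at h1
    have hdet : ∀ θ : Md →+ ℝ, ∀ t ∈ Icc 0 D.T, detM (ev θ (F1 D ζ t)) = 1 := by
      intro θ t ht
      have hX := (hζ.xh hD ht).mono c80 (by linarith)
      have hB := B_le hD
      have hFn : sN D.c (D.F D.n t) ≠ ∞ :=
        ne_top_of_le_ne_top ENNReal.ofReal_ne_top
          ((A.sN_le_Nrm1 (f := D.F D.n) ht).trans (hD.F_le D.n hD.hmn le_rfl).1)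
      have hFs : SuppIn (lev (D.n + 1) : Set Md) (D.F D.n t) := by
        intro q hq
        refine (hD.F_supp D.n hD.hmn le_rfl).1 t ht q ?_
        intro hq2
        exact hq (fun i hi => hq2 i (by omega))
      obtain ⟨e1, e2, e3⟩ := h07 Mat (D.n + 1) D.c (D.c / 8) (2 * D.G * u1 D ^ 120)
        (lab D.K (ζ t)) (D.F D.n t) hX (by linarith) hFs hFn
      have e4 : sN 0 (comp (lab D.K (ζ t)) (D.F D.n t)) ≠ ∞ :=
        ne_top_of_le_ne_top hFn ((A.sN_mono' c80 _).trans e1)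
      have e5 : sN 0 (Lm D ζ t) ≠ ∞ := by
        exact ne_top_of_le_ne_top (ENNReal.ofReal_ne_top (r := D.G ^ 10))
          ((A.sN_mono' c80 _).trans ((A.sN_le_Nrm1 (f := Lm D ζ) ht).trans Lle))
      have e6 : ev θ (F1 D ζ t) = (ev (sh θ (lab D.K (ζ t))) (D.F D.n t)).comp
          (ev θ (Lm D ζ t)) := by
        rw [F1, ev_mm θ (summable_of_sN e4) (summable_of_sN e5), e3 θ]
      have e7 := (h18 D X U a p w0 w ζ hD hL hw hζ t ht (sh θ (lab D.K (ζ t)))).1
      have e8 := (h18 D X U a p w0 w ζ hD hL hw hζ t ht θ).2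
      rw [e6]
      unfold detM at e7 e8 ⊢
      have e9 : ∀ A B : Mat, LinearMap.det ((A.comp B : Mat) : C3 →ₗ[ℂ] C3) =
          LinearMap.det (A : C3 →ₗ[ℂ] C3) * LinearMap.det (B : C3 →ₗ[ℂ] C3) :=
        fun A B => LinearMap.det_comp (A : C3 →ₗ[ℂ] C3) (B : C3 →ₗ[ℂ] C3)
      rw [e9, e7, e8, one_mul]
    have hF0 : F1 D ζ 0 = oneM := by
      rw [Feq 0 z0, X0]
      funext q
      ext v
      simp [gradV]
    have htr : ∀ θ : Md →+ ℝ, ∀ t ∈ Icc 0 D.T, trM (ev θ (M1 D w ζ t)) = 0 := by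
      intro θ
      refine ((h17.2.1 D.T (fun t => ev θ (F1 D ζ t)) (fun t => ev θ (M1 D w ζ t)) hT ?_
        (hv θ)).mp (hdet θ))
      show ev θ (F1 D ζ 0) = _
      rw [hF0, ev_oneM]
    intro t ht q
    have hMs := FM0.sN ht
    have hle : ∀ B : Mat, ‖trM B‖ ≤ 3 * ‖B‖ := by
      intro B
      unfold trM
      rw [trace_C3]
      refine (norm_sum_le _ _).trans ?_
      refine (Finset.sum_le_sum (g := fun _ => ‖B‖) fun j _ => ?_).trans (by simp)
      have h2 := PiLp.norm_apply_le (B (EuclideanSpace.single j 1)) j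
      have h3 := B.le_opNorm (EuclideanSpace.single j (1:ℂ))
      have h4 : ‖(EuclideanSpace.single j (1:ℂ) : C3)‖ = 1 := by simp
      rw [h4, mul_one] at h3
      exact h2.trans h3
    have h5 : sN 0 (fun q => trM (M1 D w ζ t q)) ≠ ∞ := fin_of_le 3 (fun q => hle _) hMs
    have h6 := h08.1 ℂ (D.n + 1) (fun q => trM (M1 D w ζ t q)) 0 (fun q hq => by
      show trM (M1 D w ζ t q) = 0
      rw [Msupp t ht q hq]
      simp [trM]) (fun q _ => rfl) h5 fin_zero (fun θ => by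
        rw [← h17.2.2.1 θ (M1 D w ζ t) hMs, htr θ t ht]
        simp [ev])
    exact congrFun h6 q
  refine ⟨X1 D X ζ, U1 D U w ζ, A1 D p s ζ Li, P1 D p s ζ, F1 D ζ, Fi1 D ζ Li, M1 D w ζ, z1 D ζ,
    a1 D w0, fun t θ => sh θ (lab D.K (ζ t)), ?_, ?_, U0, ?_, ?_⟩
  · -- Lvl
    exact
    { s_pos := hT
      c_pos := by linarith
      x_supp := FX.supp
      U_supp := FU.supp
      A_supp := FA.supp
      r_supp := FP.supp
      x_fin := FX.fin
      U_fin := FU.fin
      A_fin := FA.fin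
      r_fin := FP.fin
      F_fin := FF.fin
      Fi_fin := FI.fin
      M_fin := FM.fin
      x_cm := FX.cm
      U_cm := FU.cm
      A_cm := FA.cm
      x_der := Xder
      U_der := Uder
      x_zero := X0
      x_real := fun t ht => (odd t ht).1.1
      F_eq := Feq
      F_der := Fder
      tr_M := tr0
      inv := fun t ht => (inv t ht).1
      mom := fun t _ => rfl
      T_le := hD.T_le
      r_le := by linarith [hD.c_le]
      R_two := hD.G_two.trans hG20
      r_R := by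
        have h1 := hD.c_G
        have h2 : D.G ^ 4 ≤ D.G ^ 19 := pow_le_pow_right₀ hG1 (by norm_num)
        have h3 : (2:ℝ) ^ 4 ≤ D.G ^ 4 := pow_le_pow_left₀ (by norm_num) hD.G_two 4
        have h4 : D.G ^ 20 * (D.c / 8) = D.G ^ 19 * ((D.G * D.c) / 8) := by ring
        rw [h4]
        have h5 : (16:ℝ) * (2 / 8) ≤ D.G ^ 19 * (D.G * D.c / 8) := by
          apply mul_le_mul
          · linarith
          · linarith
          · norm_num
          · positivity
        linarith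
      p_cm := FP.cm
      F_cm := Fcm
      Fi_cm := Icm
      M_cm := Mcm
      F_supp := Fsupp
      Fi_supp := Isupp
      M_supp := Msupp
      F_le := Fle
      Fi_le := Ile
      M_le := Mle
      X_odd := fun t ht => (odd t ht).1
      U_odd := fun t ht => (odd t ht).2
      A_odd := fun t ht => (evPA t ht).2
      p_even := fun t ht => (evPA t ht).1
      F_even := Feven
      Fi_even := Ieven
      M_even := Meven
      Fi_der := Ider
      MF_eq := MF
      FFi := fun t ht => (inv t ht).2 }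
  · -- Sht
    have hsle := hD.s_le (D.n + 1) hm le_rfl
    exact
    { j_pos := by omega
      u_pos := hu0
      u_lt := hu1
      K_pos := hN
      α_wt := hα
      α_le := fun t ht => (α1_le hD t ht).trans hG20
      z_supp := zsupp
      a_supp := asupp
      z_cm := zcm
      a_cm := acm
      z_orth := zorth
      z_le := zle.trans (ENNReal.ofReal_le_ofReal (by
        have := hGp 8 (by norm_num)
        exact div_le_div_of_nonneg_right this hN.le))
      a_le := ale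
      z_real := zreal
      a_real := areal
      ka_le := kale.trans (ENNReal.ofReal_le_ofReal hu32)
      rF_le := Fdif.trans (ENNReal.ofReal_le_ofReal hu32)
      rFi_le := Idif.trans (ENNReal.ofReal_le_ofReal hu32)
      rM_le := Mdif.trans (ENNReal.ofReal_le_ofReal hu32)
      a_eq := fun t _ q => rfl
      s_cm := hsle.2.1
      s_supp := hsle.2.2
      s_le := by
        refine (A.Nrm_mono le_rfl c8 hpos1 _).trans (hsle.1.trans (ENNReal.ofReal_le_ofReal ?_))
        exact div_le_div_of_nonneg_right hG20 (by positivity)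
      s_eq := fun t ht => hD.s_eq (D.n + 1) hm le_rfl t ht
      Φ_prop := hD.Φ_prop (D.n + 1) hm le_rfl
      Φ_le := (A.PN_mono le_rfl c8 _).trans ((hD.Φ_le (D.n + 1) hm le_rfl).trans
        (ENNReal.ofReal_le_ofReal hG20))
      Φ_supp := hD.Φ_supp (D.n + 1) hm le_rfl
      w_supp := hw.w0_supp
      w_real := hw.w0_odd }
  · -- the shift at the centre
    intro t ht
    have hodd : ∀ i, ev 0 (lab D.K (ζ t) i) = 0 := fun i =>
      ev_zero_odd (lab_odd (hζ.odd t ht).2 i)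
    refine DFunLike.ext _ _ fun q => ?_
    show (0 : Md →+ ℝ) q + q.sum (fun i z => (z : ℝ) * (ev 0 (lab D.K (ζ t) i)).re) = 0
    simp [hodd]
  · intro t ht θ
    have hX := hζ.xh hD ht
    have hB := B_le hD
    have hG' := one_wt D.T
    have hwf := w_fn hD hw
    have hgr := ((h15b (D.n + 1) D.K D.T (D.c / 2) (3 * D.c / 8) (N1 D) Dat.one' hT (by linarith)
      (one_wt _) hN.le (fun i hi => kv_le1 hD hi)).1 w hwf.supp)
    have hgrf : Nrm D.T (3 * D.c / 8) 0 Dat.one' (fun t => gradV D.K (w t)) ≠ ∞ :=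
      ne_top_of_le_ne_top (ENNReal.mul_ne_top ENNReal.ofReal_ne_top hwf.fin) hgr.1
    have hFi := (hD.F_le D.n hD.hmn le_rfl).2.1
    have hMn := (hD.F_le D.n hD.hmn le_rfl).2.2
    have hFi1 : sN (3 * D.c / 8) (D.Fi D.n t) ≠ ∞ :=
      ne_top_of_le_ne_top ENNReal.ofReal_ne_top
        ((A.sN_mono' (by linarith) _).trans ((A.sN_le_Nrm1 (f := D.Fi D.n) ht).trans hFi))
    have hMn1 : sN (3 * D.c / 8) (D.M D.n t) ≠ ∞ :=
      ne_top_of_le_ne_top ENNReal.ofReal_ne_top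
        ((A.sN_mono' (by linarith) _).trans ((A.sN_le_Nrm1 (f := D.M D.n) ht).trans hMn))
    have hgr1 : sN (3 * D.c / 8) (gradV D.K (w t)) ≠ ∞ :=
      ne_top_of_le_ne_top hgrf (A.sN_le_Nrm1 (f := fun t => gradV D.K (w t)) ht)
    have hFis : SuppIn (lev (D.n + 1) : Set Md) (D.Fi D.n t) :=
      supp_up ((hD.F_supp D.n hD.hmn le_rfl).2.1 t ht)
    have hMns : SuppIn (lev (D.n + 1) : Set Md) (D.M D.n t) :=
      supp_up ((hD.F_supp D.n hD.hmn le_rfl).2.2 t ht)
    have c38 : (0:ℝ) ≤ 3 * D.c / 8 := by linarith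
    have c2 : (0:ℝ) ≤ D.c / 2 := by linarith
    have hmm1 : sN (3 * D.c / 8) (mm (gradV D.K (w t)) (D.Fi D.n t)) ≠ ∞ := fin_mm c38 hgr1 hFi1
    have s0 : ∀ {E : Type} [NormedAddCommGroup E] [NormedSpace ℂ E] {c : ℝ} {f : Md → E},
        0 ≤ c → sN c f ≠ ∞ → Summable fun q => ‖f q‖ := fun h0 hf =>
      summable_of_sN (ne_top_of_le_ne_top hf (A.sN_mono' h0 _))
    refine ⟨?_, ?_, ?_⟩
    · intro i hi
      have h1 : sh θ (lab D.K (ζ t)) (Finsupp.single i 1) - θ (Finsupp.single i 1) =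
          (ev θ (lab D.K (ζ t) i)).re := by
        show θ (Finsupp.single i 1) + (Finsupp.single i (1:ℤ)).sum
          (fun i z => (z : ℝ) * (ev θ (lab D.K (ζ t) i)).re) - θ (Finsupp.single i 1) = _
        rw [Finsupp.sum_single_index (by simp)]
        simp
      rw [h1]
      refine (Complex.abs_re_le_norm _).trans ?_
      refine norm_ev_le_sN θ (B_nonneg hD) ?_
      exact (A.sN_mono' (by linarith) _).trans (hX.le i hi)
    · have h1 := (h07 Mat (D.n + 1) (3 * D.c / 8) (D.c / 4) (2 * D.G * u1 D ^ 120)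
        (lab D.K (ζ t)) (D.M D.n t + mm (gradV D.K (w t)) (D.Fi D.n t)) hX (by linarith)
        (supp_add hMns (S15aux.supp_mm (hgr.2.1 t ht) hFis)) (fin_add hMn1 hmm1)).2.2 θ
      show ev θ (comp (lab D.K (ζ t)) (D.M D.n t + mm (gradV D.K (w t)) (D.Fi D.n t))) = _
      rw [h1, ev_add _ (s0 c38 hMn1) (s0 c38 hmm1), ev_mm _ (s0 c38 hgr1) (s0 c38 hFi1)]
    · have hU1 : sN (D.c / 2) (U t) ≠ ∞ :=
        ne_top_of_le_ne_top hL.U_fin
          ((A.sN_mono' (by linarith) _).trans (A.sN_le_Nrm1 (f := U) ht))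
      have hw1 : sN (D.c / 2) (w t) ≠ ∞ := hwf.sN ht
      have h1 := (h07 C3 (D.n + 1) (D.c / 2) (D.c / 4) (2 * D.G * u1 D ^ 120)
        (lab D.K (ζ t)) (U t + w t) hX (by linarith)
        (supp_add (supp_up (hL.U_supp t ht)) (hwf.supp t ht)) (fin_add hU1 hw1)).2.2 θ
      show ev θ (comp (lab D.K (ζ t)) (U t + w t)) = _
      rw [h1, ev_add _ (s0 c2 hU1) (s0 c2 hw1)]

end Pool.Agent.Work.MP_b0497c_an.Unf.L

end

section

set_option autoImplicit false
set_option linter.dupNamespace false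

/-!
# L31: from the seed to the records of level `n + 1`
-/

open scoped ENNReal
open Set MeasureTheory

namespace Pool.Agent.Work.MP_b0497c_an.Unf.L

open W S

theorem l31 (h00 : L00) (h27 : L27) (h29 : L29) (h30 : L30) : L31 := by
  intro D ρ Str X U a p w0 u' r1 R1 hD hW hS hw0 hL hu0 hu1 huu hr1 hr1' hR1 hRr
  obtain ⟨w, hw⟩ := h00 D ρ Str w0 hD hW hS hw0
    (fun t ht => ⟨hL.F_even t ht, hL.Fi_even t ht, hL.M_even t ht⟩)
  obtain ⟨X', U', a', p', F', Fi', M', z, b, sg, h1, h2, h3, h4, h5⟩ :=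
    h30 D X U a p w0 w u' hD hL hw hu0 hu1 huu
  refine ⟨w, X', U', a', p', F', Fi', M', z, b, sg, hw, ?_, ?_, h3, h4, h5, fun θ =>
    h29 D X U a p w0 w hD hL hw θ⟩
  · exact h27.1 D.K D.T (D.c / 8) (D.G ^ 20) D.T r1 R1 (D.n + 1) X' U' a' p' F' Fi' M' h1
      hD.T_pos le_rfl hr1 hr1' hR1 hRr
  · exact h27.2 D.K D.T (D.c / 8) (D.G ^ 20) u' D.T r1 R1 u' (D.α (D.n + 1)) (D.n + 1) _ _ _ _ _ _
      z b _ _ w0 h2 hD.T_pos le_rfl hr1 hr1' hR1 le_rfl hu1

end Pool.Agent.Work.MP_b0497c_an.Unf.L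

end

section

set_option autoImplicit false
set_option linter.dupNamespace false

/-!
# Block L: evaluation at shifted labels (tools for L11, L12)
-/

open scoped ENNReal
open Set MeasureTheory Filter Topology RealInnerProductSpace

namespace Pool.Agent.Work.MP_b0497c_an.Unf.L

open W S

section tw

variable {Γ : Type} [AddCommGroup Γ] (ξ : Γ →+ (Fin 3 → ℤ))
  {E : Type} [NormedAddCommGroup E] [NormedSpace ℂ E]

/-- Coefficients of the shifted function. -/
noncomputable def tw (θ : Γ →+ ℝ) (f : Γ → E) (q : Γ) : E := ch θ q • f q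

theorem lp_ch_add (θ φ : Γ →+ ℝ) (q : Γ) : ch (θ + φ) q = ch θ q * ch φ q := by
  rw [ch, ch, ch, ← Complex.exp_add, AddMonoidHom.add_apply]
  push_cast
  ring_nf

theorem lp_ev_tw (θ φ : Γ →+ ℝ) (f : Γ → E) : ev φ (tw θ f) = ev (θ + φ) f := by
  unfold ev tw
  refine tsum_congr fun q => ?_
  rw [smul_smul, lp_ch_add, mul_comm]

theorem lp_norm_tw (θ : Γ →+ ℝ) (f : Γ → E) (q : Γ) : ‖tw θ f q‖ = ‖f q‖ := by
  unfold tw
  rw [norm_ch_smul]

theorem lp_ph_add (y z : E3) : ph ξ (y + z) = ph ξ y + ph ξ z := by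
  ext q
  rw [AddMonoidHom.add_apply, ← phL_apply, ← phL_apply, ← phL_apply, map_add]

theorem lp_ph_zero : ph ξ (0 : E3) = 0 := by
  ext q
  rw [← phL_apply, map_zero]
  rfl

variable [NormedSpace ℝ E] [IsScalarTower ℝ ℂ E]

theorem lp_gr_tw (θ : Γ →+ ℝ) (f : Γ → E) : gr ξ (tw θ f) = tw θ (gr ξ f) := by
  funext q
  unfold gr tw
  ext z
  simp only [ContinuousLinearMap.smulRight_apply, smul_apply]
  rw [smul_comm (ch θ q) (phL ξ q z), smul_comm (ch θ q) Complex.I]

/-- Derivative of an evaluation in the label, at a shifted phase. -/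
theorem lp_hasFDerivAt [CompleteSpace E] (θ : Γ →+ ℝ) {f : Γ → E}
    (h0 : Summable fun q => ‖f q‖) (h1 : Summable fun q => nx ξ q * ‖f q‖) (y : E3) :
    HasFDerivAt (fun y => ev (θ + ph ξ y) f) (ev (θ + ph ξ y) (gr ξ f)) y := by
  have h := ev_hasFDerivAt ξ (f := tw θ f) (by simpa only [lp_norm_tw] using h0)
    (by simpa only [lp_norm_tw] using h1) y
  rw [lp_gr_tw, lp_ev_tw] at h
  simpa only [lp_ev_tw] using h

end tw

section md

variable {E F : Type} [NormedAddCommGroup E] [NormedAddCommGroup F]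

theorem lp_summable {c : ℝ} (hc : 0 ≤ c) {f : Md → E} (hf : sN c f ≠ ∞) :
    Summable fun q => ‖f q‖ := by
  have h1 : ∑' m, ‖f m‖ₑ ≤ sN c f := by
    unfold sN
    refine ENNReal.tsum_le_tsum fun m => ?_
    have h2 : (1 : ℝ≥0∞) ≤ ENNReal.ofReal (Real.exp (c * len m)) := by
      rw [ENNReal.one_le_ofReal]
      exact Real.one_le_exp (mul_nonneg hc (len_nonneg m))
    calc ‖f m‖ₑ = 1 * ‖f m‖ₑ := (one_mul _).symm
      _ ≤ _ := by gcongr
  have h3 : ∑' m, ‖f m‖ₑ ≠ ∞ := ne_top_of_le_ne_top hf h1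
  have h4 := ENNReal.summable_toReal h3
  simpa using h4

theorem lp_fin_of_summable {f : Md → E} (hf : Summable fun q => ‖f q‖) : sN 0 f ≠ ∞ := by
  have h1 : sN 0 f = ENNReal.ofReal (∑' q, ‖f q‖) := by
    unfold sN
    rw [ENNReal.ofReal_tsum_of_nonneg (fun _ => norm_nonneg _) hf]
    refine tsum_congr fun q => ?_
    rw [zero_mul, Real.exp_zero, ENNReal.ofReal_one, one_mul, ofReal_norm]
  rw [h1]
  exact ENNReal.ofReal_ne_top

/-- One derivative costs a little bit of the radius. -/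
theorem lp_summable_nx (K : ℕ → Fin 3 → ℤ) {n : ℕ} {c : ℝ} (hc : 0 < c) {f : Md → E}
    (hs : SuppIn (lev n : Set Md) f) (hf : sN c f ≠ ∞) :
    Summable fun q => nx (xiZ K) q * ‖f q‖ := by
  obtain ⟨κ, hκ0, hκ⟩ := exists_kappa K n
  have h := fin_of_le_len (c' := 0) (c := c) hc (f := f) (g := fun q => nx (xiZ K) q * ‖f q‖) κ
    (fun q => by
      rw [Real.norm_of_nonneg (mul_nonneg (nx_nonneg _ _) (norm_nonneg _))]
      by_cases hq : q ∈ lev n
      · exact mul_le_mul_of_nonneg_right (nx_le K n hκ q hq) (norm_nonneg _)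
      · rw [hs q hq, norm_zero, mul_zero, mul_zero]) hf
  have h2 := lp_summable (le_refl (0 : ℝ)) h
  refine h2.congr fun q => ?_
  rw [Real.norm_of_nonneg (mul_nonneg (nx_nonneg _ _) (norm_nonneg _))]

end md

/-- The displaced phase of a displacement of the labels. -/
theorem lp_sh_lab (K : ℕ → Fin 3 → ℤ) (θ : Md →+ ℝ) {ζ : Md → C3}
    (hζ : Summable fun q => ‖ζ q‖) :
    sh θ (lab K ζ) = θ + ph (xiZ K) (reC (ev θ ζ)) := by
  have h1 : ∀ i, (ev θ (lab K ζ i)).re = (K i 0 : ℝ) * (reC (ev θ ζ)) 0 +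
      (K i 1 : ℝ) * (reC (ev θ ζ)) 1 + (K i 2 : ℝ) * (reC (ev θ ζ)) 2 := by
    intro i
    have h2 : ev θ (lab K ζ i) = innerSL ℂ (kv (K i)) (ev θ ζ) := ev_map θ hζ _
    rw [h2, innerSL_apply_apply, PiLp.inner_apply, Fin.sum_univ_three]
    simp only [reC_apply, kv]
    simp
    ring
  refine AddMonoidHom.ext fun q => ?_
  rw [AddMonoidHom.add_apply]
  show θ q + (q.sum fun i z => (z : ℝ) * (ev θ (lab K ζ i)).re) = _
  congr 1
  simp only [h1]
  simp only [ph, AddMonoidHom.coe_mk, ZeroHom.coe_mk, xiZ, Finsupp.liftAddHom_apply, Finsupp.sum,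
    Finset.sum_apply]
  simp only [zmultiplesHom_apply, Pi.smul_apply, smul_eq_mul]
  push_cast
  rw [Finset.sum_mul, Finset.sum_mul, Finset.sum_mul, ← Finset.sum_add_distrib,
    ← Finset.sum_add_distrib]
  refine Finset.sum_congr rfl fun i _ => ?_
  ring

/-- Real families have real gradients. -/
theorem lp_gr_real (K : ℕ → Fin 3 → ℤ) (θ : Md →+ ℝ) {ζ : Md → C3}
    (hζ : Summable fun q => nx (xiZ K) q * ‖ζ q‖) (hr : RealV ζ) (z : E3) :
    ofC (reC (ev θ (gr (xiZ K) ζ) z)) = ev θ (gr (xiZ K) ζ) z := by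
  have h2 : ev θ (gr (xiZ K) ζ) z = ev θ (fun q => gr (xiZ K) ζ q z) := by
    have h1 := summable_ch θ (summable_gr hζ)
    have h2 : (ev θ (gr (xiZ K) ζ)) z
        = (ContinuousLinearMap.apply ℝ C3 z) (ev θ (gr (xiZ K) ζ)) := rfl
    rw [h2, ev, (ContinuousLinearMap.apply ℝ C3 z).map_tsum h1]
    rfl
  rw [h2]
  apply ev_real
  · refine Summable.of_nonneg_of_le (fun _ => norm_nonneg _)
      (fun q => ((gr (xiZ K) ζ q).le_opNorm z)) ?_
    exact (summable_gr hζ).mul_right _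
  · intro q
    simp only [gr, ContinuousLinearMap.smulRight_apply]
    rw [hr q]
    have h3 : phL (xiZ K) (-q) z = - phL (xiZ K) q z := by
      rw [phL_apply, phL_apply, map_neg]
    rw [h3]
    ext j
    simp [cjv]

/-- Complex linear maps are determined by the real vectors. -/
theorem lp_ext_ofC {F : Type} [NormedAddCommGroup F] [NormedSpace ℂ F] {A B : C3 →L[ℂ] F}
    (h : ∀ z : E3, A (ofC z) = B (ofC z)) : A = B := by
  have hb : ∀ j : Fin 3, A (EuclideanSpace.single j 1) = B (EuclideanSpace.single j 1) := by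
    intro j
    rw [← ofC_e j]
    exact h _
  ext v
  have hv : v = ∑ j : Fin 3, v j • (EuclideanSpace.single j (1 : ℂ) : C3) := by
    ext i
    simp [Finset.sum_apply, Pi.single_apply]
  rw [hv, map_sum, map_sum]
  refine Finset.sum_congr rfl fun j _ => ?_
  rw [map_smul, map_smul, hb]

section comp

variable {E : Type} [NormedAddCommGroup E] [NormedSpace ℂ E] [CompleteSpace E]
  [NormedSpace ℝ E] [IsScalarTower ℝ ℂ E]

/-- The chain rule, pointwise. -/
theorem lp_chain (h07 : L07) {n : ℕ} {K : ℕ → Fin 3 → ℤ} {c c1 B : ℝ} {ζ : Md → C3}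
    (hc1 : 0 < c1) (hc : c1 + B < c) (hζs : SuppIn (lev n : Set Md) ζ) (hζ : sN c1 ζ ≠ ∞)
    (hx : XH n c1 B (lab K ζ)) {f : Md → E} (hfs : SuppIn (lev n : Set Md) f)
    (hf : sN c f ≠ ∞) (θ : Md →+ ℝ) :
    ev θ (gr (xiZ K) (comp (lab K ζ) f)) = (ev (sh θ (lab K ζ)) (gr (xiZ K) f)).comp
      (ContinuousLinearMap.id ℝ E3 + reC.comp (ev θ (gr (xiZ K) ζ))) := by
  have hc0 : 0 < c := by have := hx.B_nn; linarith
  obtain ⟨hg, hgs, hge⟩ := h07 E n c c1 B (lab K ζ) f hx hc.le hfs hf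
  have hgf : sN c1 (comp (lab K ζ) f) ≠ ∞ := ne_top_of_le_ne_top hf hg
  have s0 := lp_summable hc1.le hgf
  have s1 := lp_summable_nx K hc1 hgs hgf
  have t0 := lp_summable hc0.le hf
  have t1 := lp_summable_nx K hc0 hfs hf
  have r0 := lp_summable hc1.le hζ
  have r1 := lp_summable_nx K hc1 hζs hζ
  have d1 := lp_hasFDerivAt (xiZ K) θ s0 s1 0
  rw [lp_ph_zero, add_zero] at d1
  have d2 := lp_hasFDerivAt (xiZ K) θ r0 r1 0
  rw [lp_ph_zero, add_zero] at d2
  have d3 : HasFDerivAt (fun y : E3 => y + reC (ev (θ + ph (xiZ K) y) ζ))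
      (ContinuousLinearMap.id ℝ E3 + reC.comp (ev θ (gr (xiZ K) ζ))) 0 :=
    (hasFDerivAt_id (0 : E3)).add (reC.hasFDerivAt.comp (0 : E3) d2)
  have e0 : (fun y : E3 => ev (θ + ph (xiZ K) y) (comp (lab K ζ) f)) =
      fun y => ev (θ + ph (xiZ K) (y + reC (ev (θ + ph (xiZ K) y) ζ))) f := by
    funext y
    rw [hge, lp_sh_lab K _ r0, lp_ph_add, add_assoc]
  have d4 := lp_hasFDerivAt (xiZ K) θ t0 t1
    ((0 : E3) + reC (ev (θ + ph (xiZ K) (0 : E3)) ζ))
  have d5 := HasFDerivAt.comp (0 : E3) d4 d3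
  rw [e0] at d1
  have h := d1.unique d5
  rw [h]
  congr 2
  rw [lp_ph_zero, add_zero, zero_add, lp_sh_lab K _ r0]

end comp

section supp

variable {E F G : Type} [NormedAddCommGroup E] [NormedSpace ℂ E] [NormedAddCommGroup F]
  [NormedSpace ℂ F] [NormedAddCommGroup G] [NormedSpace ℂ G]

theorem lp_supp_conv {n : ℕ} {β : E →L[ℂ] F →L[ℂ] G} {a : Md → E} {b : Md → F}
    (ha : SuppIn (lev n : Set Md) a) (hb : SuppIn (lev n : Set Md) b) :
    SuppIn (lev n : Set Md) (conv β a b) := by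
  intro q hq
  unfold conv
  rw [← tsum_zero (α := G) (β := Md)]
  refine tsum_congr fun l => ?_
  by_cases hl : l ∈ (lev n : Set Md)
  · have : q - l ∉ (lev n : Set Md) := by
      intro h
      apply hq
      have := (lev n).add_mem h hl
      rwa [sub_add_cancel] at this
    rw [ha _ this]
    simp
  · rw [hb _ hl]
    simp

theorem lp_supp_mm {n : ℕ} {a : Md → (F →L[ℂ] G)} {b : Md → (E →L[ℂ] F)}
    (ha : SuppIn (lev n : Set Md) a) (hb : SuppIn (lev n : Set Md) b) :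
    SuppIn (lev n : Set Md) (mm a b) := lp_supp_conv ha hb

theorem lp_supp_mul {n : ℕ} {a : Md → (E →L[ℂ] F)} {b : Md → E}
    (ha : SuppIn (lev n : Set Md) a) (hb : SuppIn (lev n : Set Md) b) :
    SuppIn (lev n : Set Md) (mul a b) :=
  lp_supp_conv (β := ContinuousLinearMap.id ℂ (E →L[ℂ] F)) ha hb

end supp

theorem lp_supp_oneM (n : ℕ) : SuppIn (lev n : Set Md) oneM := by
  intro q hq
  have : q ≠ 0 := by
    rintro rfl
    exact hq (zero_mem _)
  simp [oneM, this]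

theorem lp_supp_adjC {n : ℕ} {a : Md → Mat} (ha : SuppIn (lev n : Set Md) a) :
    SuppIn (lev n : Set Md) (adjC a) := by
  intro q hq
  have : -q ∉ (lev n : Set Md) := fun h => hq (by simpa using (lev n).neg_mem h)
  unfold adjC
  rw [ha _ this, map_zero]

theorem lp_supp_gradV {n : ℕ} (K : ℕ → Fin 3 → ℤ) {f : Md → C3}
    (hf : SuppIn (lev n : Set Md) f) : SuppIn (lev n : Set Md) (gradV K f) := by
  intro q hq
  ext v
  simp [gradV, hf q hq]

theorem lp_supp_gradS {n : ℕ} (K : ℕ → Fin 3 → ℤ) {f : Md → ℂ}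
    (hf : SuppIn (lev n : Set Md) f) : SuppIn (lev n : Set Md) (gradS K f) := by
  intro q hq
  simp [gradS, hf q hq]

/-- The gradient at a smaller radius. -/
theorem lp_fin_gradV (K : ℕ → Fin 3 → ℤ) {n : ℕ} {c c' : ℝ} (hc : c' < c) {f : Md → C3}
    (hs : SuppIn (lev n : Set Md) f) (hf : sN c f ≠ ∞) : sN c' (gradV K f) ≠ ∞ := by
  obtain ⟨κ, hκ0, hκ⟩ := exists_kappa K n
  refine fin_of_le_len hc κ (fun q => ?_) hf
  by_cases hq : q ∈ lev n
  · exact (gradV_norm f q).trans (mul_le_mul_of_nonneg_right (nx_le K n hκ q hq) (norm_nonneg _))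
  · rw [lp_supp_gradV K hs q hq, hs q hq, norm_zero, norm_zero, mul_zero]

theorem lp_fin_gradS (K : ℕ → Fin 3 → ℤ) {n : ℕ} {c c' : ℝ} (hc : c' < c) {f : Md → ℂ}
    (hs : SuppIn (lev n : Set Md) f) (hf : sN c f ≠ ∞) : sN c' (gradS K f) ≠ ∞ := by
  obtain ⟨κ, hκ0, hκ⟩ := exists_kappa K n
  refine fin_of_le_len hc κ (fun q => ?_) hf
  by_cases hq : q ∈ lev n
  · exact (gradS_norm f q).trans (mul_le_mul_of_nonneg_right (nx_le K n hκ q hq) (norm_nonneg _))
  · rw [lp_supp_gradS K hs q hq, hs q hq, norm_zero, norm_zero, mul_zero]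

/-- The gradient of a function against a real vector, complex version. -/
theorem lp_ev_gradS (K : ℕ → Fin 3 → ℤ) (θ : Md →+ ℝ) {f : Md → ℂ}
    (hf : Summable fun q => nx (xiZ K) q * ‖f q‖) (z : E3) :
    inner ℂ (ofC z) (ev θ (gradS K f)) = ev θ (gr (xiZ K) f) z := by
  have hs : Summable fun q => ‖gradS K f q‖ :=
    Summable.of_nonneg_of_le (fun _ => norm_nonneg _) (fun q => gradS_norm f q) hf
  have hs2 : Summable fun q => ‖gr (xiZ K) f q‖ :=
    Summable.of_nonneg_of_le (fun _ => norm_nonneg _) (fun q => gr_norm (xiZ K) f q) hf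
  have h1 := summable_ch θ hs2
  have h3 : (ev θ (gr (xiZ K) f)) z = ∑' q, ch θ q • (gr (xiZ K) f q z) := by
    have h2 : (ev θ (gr (xiZ K) f)) z = (ContinuousLinearMap.apply ℝ ℂ z) (ev θ (gr (xiZ K) f)) :=
      rfl
    rw [h2, ev, (ContinuousLinearMap.apply ℝ ℂ z).map_tsum h1]
    rfl
  have h4 : inner ℂ (ofC z) (ev θ (gradS K f)) = innerSL ℂ (ofC z) (ev θ (gradS K f)) := rfl
  rw [h4, ← ev_map θ hs (innerSL ℂ (ofC z)), h3, ev]
  refine tsum_congr fun q => ?_
  congr 1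
  rw [innerSL_apply_apply, gradS, inner_smul_right]
  have h5 : inner ℂ (ofC z) (xi K q) = ((phL (xiZ K) q z : ℝ) : ℂ) := by
    rw [← inner_conj_symm, inner_xi, Complex.conj_ofReal]
  rw [h5]
  simp only [gr, ContinuousLinearMap.smulRight_apply, smul_eq_mul]
  rw [show (phL (xiZ K) q z) • (Complex.I * f q) = ((phL (xiZ K) q z : ℝ) : ℂ) * (Complex.I * f q)
    from rfl]
  ring

/-- Vectors are determined by the inner products with the real vectors. -/
theorem lp_ext_inner {a b : C3} (h : ∀ z : E3, inner ℂ (ofC z) a = inner ℂ (ofC z) b) : a = b := by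
  ext j
  have := h (e j)
  rw [ofC_e] at this
  simpa [EuclideanSpace.inner_single_left] using this

end Pool.Agent.Work.MP_b0497c_an.Unf.L

end

section

set_option autoImplicit false
set_option linter.dupNamespace false
set_option linter.unusedSectionVars false

/-!
# L09: reality and parity through the values (helper59)
-/

open scoped ENNReal
open Set MeasureTheory

namespace Pool.Agent.Work.MP_b0497c_an.Unf.L

open W S

namespace L09a

theorem cjv_cjv (v : C3) : cjv (cjv v) = v := by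
  ext i
  simp [cjv]

theorem norm_cjv (v : C3) : ‖cjv v‖ = ‖v‖ := by
  simp [cjv, EuclideanSpace.norm_eq]

section refl

variable {E : Type} [NormedAddCommGroup E]

theorem supp_neg {n : ℕ} {f : Md → E} (h : SuppIn (lev n : Set Md) f) :
    SuppIn (lev n : Set Md) (fun q => f (-q)) := by
  intro q hq
  exact h (-q) fun h1 => hq (by simpa using h1)

theorem sum_neg {f : Md → E} (h : Summable fun q => ‖f q‖) : Summable fun q => ‖f (-q)‖ :=
  (Equiv.neg Md).summable_iff.mpr h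

variable [NormedSpace ℂ E]

theorem ev_negθ (θ : Md →+ ℝ) (f : Md → E) : ev (-θ) f = ev θ (fun q => f (-q)) := by
  rw [ev, ev, ← (Equiv.neg Md).tsum_eq]
  refine tsum_congr fun q => ?_
  simp only [Equiv.neg_apply]
  congr 1
  rw [ch, ch]
  simp

end refl

theorem conj_ev (θ : Md →+ ℝ) (f : Md → ℂ) :
    starRingEnd ℂ (ev θ f) = ev θ (fun q => starRingEnd ℂ (f (-q))) := by
  rw [ev, ev, Complex.conj_tsum, ← (Equiv.neg Md).tsum_eq]
  refine tsum_congr fun q => ?_
  simp only [Equiv.neg_apply, smul_eq_mul, map_mul, ch_neg, Complex.conj_conj]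

theorem sum_cj {f : Md → C3} (h : Summable fun q => ‖f q‖) :
    Summable fun q => ‖cjv (f (-q))‖ := by
  simp only [norm_cjv]
  exact sum_neg h

theorem cjv_ev (θ : Md →+ ℝ) {f : Md → C3} (h : Summable fun q => ‖f q‖) :
    cjv (ev θ f) = ev θ (fun q => cjv (f (-q))) := by
  ext j
  have h1 := conj_ev θ (fun q => f q j)
  have h2 : cjv (ev θ f) j = starRingEnd ℂ ((ev θ f) j) := rfl
  rw [h2, ev_coord θ h j, ev_coord θ (sum_cj h) j]
  exact h1

theorem supp_cj {n : ℕ} {f : Md → C3} (h : SuppIn (lev n : Set Md) f) :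
    SuppIn (lev n : Set Md) (fun q => cjv (f (-q))) := by
  intro q hq
  have h1 : f (-q) = 0 := supp_neg h q hq
  show cjv (f (-q)) = 0
  rw [h1]
  ext j
  simp [cjv]

/-- Vector families: `g` is the conjugate reflection of `f` iff this holds for the values. -/
theorem cj_iff {n : ℕ} {f g : Md → C3} (hf : SuppIn (lev n : Set Md) f)
    (hg : SuppIn (lev n : Set Md) g) (sf : Summable fun q => ‖f q‖)
    (sg : Summable fun q => ‖g q‖) :
    (∀ q, g (-q) = cjv (f q)) ↔ ∀ θ : Md →+ ℝ, ev θ g = cjv (ev θ f) := by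
  have h1 : (∀ q, g (-q) = cjv (f q)) ↔ g = fun q => cjv (f (-q)) := by
    constructor
    · intro h
      funext q
      have := h (-q)
      rwa [neg_neg] at this
    · intro h q
      rw [h]
      simp
  rw [h1]
  constructor
  · intro h θ
    rw [cjv_ev θ sf, h]
  · intro h
    refine L08a.uniq hg (supp_cj hf) sg (sum_cj sf) fun θ => ?_
    rw [h θ, cjv_ev θ sf]

end L09a

open L09a in
theorem l09 : L09 := by
  refine ⟨?_, ?_, ?_, ?_⟩
  · intro n f hf sf
    have s1 := L08a.sum_sN le_rfl sf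
    have hs : Summable fun q => ‖(starRingEnd ℂ) (f (-q))‖ := by
      simp only [RCLike.norm_conj]
      exact sum_neg s1
    constructor
    · intro h θ
      rw [conj_ev]
      congr 1
      funext q
      have := h (-q)
      rw [neg_neg] at this
      rw [this]
    · intro h
      have h1 : (fun q => (starRingEnd ℂ) (f (-q))) = f := by
        refine L08a.uniq ?_ hf hs s1 fun θ => ?_
        · intro q hq
          have h2 : f (-q) = 0 := supp_neg hf q hq
          show (starRingEnd ℂ) (f (-q)) = 0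
          rw [h2, map_zero]
        · rw [← conj_ev]
          exact h θ
      intro q
      have h2 := congrFun h1 (-q)
      simp only [neg_neg] at h2
      exact h2.symm
  · intro n f hf sf
    have s1 := L08a.sum_sN le_rfl sf
    have h1 := cj_iff hf hf s1 s1
    constructor
    · intro h θ
      exact (h1.mp h θ).symm
    · intro h
      exact h1.mpr fun θ => (h θ).symm
  · intro n f hf sf
    have s1 := L08a.sum_sN le_rfl sf
    have s2 : ∀ v : C3, Summable fun q => ‖f q v‖ := fun v =>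
      Summable.of_nonneg_of_le (fun _ => norm_nonneg _) (fun q => (f q).le_opNorm v)
        (s1.mul_right _)
    have h2 : ∀ v : C3, SuppIn (lev n : Set Md) (fun q => f q v) := by
      intro v q hq
      show f q v = 0
      rw [hf q hq]
      rfl
    have h1 : ∀ v : C3, (∀ q, f (-q) (cjv v) = cjv (f q v)) ↔
        ∀ θ : Md →+ ℝ, ev θ f (cjv v) = cjv (ev θ f v) := by
      intro v
      have h3 := cj_iff (h2 v) (h2 (cjv v)) (s2 v) (s2 (cjv v))
      rw [h3]
      refine forall_congr' fun θ => ?_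
      rw [ev_apply θ s1, ev_apply θ s1]
    constructor
    · intro h θ v
      exact (h1 v).mp (fun q => h q v) θ
    · intro h q v
      exact (h1 v).mpr (fun θ => h θ v) q
  · intro E _ _ _ n f hf sf
    have s1 := L08a.sum_sN le_rfl sf
    refine ⟨⟨?_, ?_⟩, ⟨?_, ?_⟩⟩
    · intro h θ
      rw [ev_negθ, ← ev_neg]
      congr 1
      funext q
      exact h q
    · intro h
      have h1 : (fun q => f (-q)) = -f := by
        refine L08a.uniq (supp_neg hf) ?_ (sum_neg s1) (by simpa using s1) fun θ => ?_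
        · intro q hq
          rw [Pi.neg_apply, hf q hq, neg_zero]
        · rw [← ev_negθ, h θ, ev_neg]
      intro q
      exact congrFun h1 q
    · intro h θ
      rw [ev_negθ]
      congr 1
      funext q
      exact h q
    · intro h
      have h1 : (fun q => f (-q)) = f := by
        refine L08a.uniq (supp_neg hf) hf (sum_neg s1) s1 fun θ => ?_
        rw [← ev_negθ, h θ]
      intro q
      exact congrFun h1 q

end Pool.Agent.Work.MP_b0497c_an.Unf.L

end

section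

set_option autoImplicit false
set_option linter.dupNamespace false

/-!
# L11: the chain rule for the gradient of a composition

At the label `θ + ph y` the composition is `ev (θ + ph (y + Z y)) f` with
`Z y = Re ev (θ + ph y) ζ`; both gradients are read off at `y = 0`.
-/

open scoped ENNReal RealInnerProductSpace
open Set MeasureTheory

namespace Pool.Agent.Work.MP_b0497c_an.Unf.L

open W S

namespace L11

open L10h

section shift

variable (ξ : Md →+ (Fin 3 → ℤ))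
variable {E : Type} [NormedAddCommGroup E] [NormedSpace ℂ E]

theorem ph_zero : ph ξ 0 = 0 := by
  ext q
  simp [ph]

theorem ph_add (y z : E3) : ph ξ (y + z) = ph ξ y + ph ξ z := by
  ext q
  simp only [← phL_apply, AddMonoidHom.add_apply, map_add, AddMonoidHom.comp_apply]

theorem ch_add_left (θ φ : Md →+ ℝ) (q : Md) : ch (θ + φ) q = ch φ q * ch θ q := by
  rw [ch, ch, ch, ← Complex.exp_add, AddMonoidHom.add_apply]
  push_cast
  ring_nf

theorem ev_shift (θ φ : Md →+ ℝ) (f : Md → E) :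
    ev (θ + φ) f = ev φ (fun q => ch θ q • f q) := by
  unfold ev
  refine tsum_congr fun q => ?_
  rw [ch_add_left, smul_smul]

variable [NormedSpace ℝ E] [IsScalarTower ℝ ℂ E]

theorem gr_ch (θ : Md →+ ℝ) (f : Md → E) (q : Md) :
    gr ξ (fun q => ch θ q • f q) q = ch θ q • gr ξ f q := by
  ext z
  simp only [gr, ContinuousLinearMap.smulRight_apply, smul_apply]
  rw [smul_comm (ch θ q), smul_comm (ch θ q)]

/-- The derivative of the values in the label, at a shifted label. -/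
theorem hasFDerivAt_shift [CompleteSpace E] (θ : Md →+ ℝ) {f : Md → E}
    (h0 : Summable fun q => ‖f q‖) (h1 : Summable fun q => nx ξ q * ‖f q‖) (y : E3) :
    HasFDerivAt (fun y => ev (θ + ph ξ y) f) (ev (θ + ph ξ y) (gr ξ f)) y := by
  have h2 : ∀ q, ‖ch θ q • f q‖ = ‖f q‖ := fun q => norm_ch_smul θ q (f q)
  have h := ev_hasFDerivAt ξ (f := fun q => ch θ q • f q) (by simpa only [h2] using h0)
    (by simpa only [h2] using h1) y
  have h3 : (fun y => ev (θ + ph ξ y) f) = fun y => ev (ph ξ y) (fun q => ch θ q • f q) := by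
    funext y
    exact ev_shift θ (ph ξ y) f
  have h4 : ev (θ + ph ξ y) (gr ξ f) = ev (ph ξ y) (gr ξ fun q => ch θ q • f q) := by
    rw [ev_shift]
    congr 1
    funext q
    exact (gr_ch ξ θ f q).symm
  rw [h3, h4]
  exact h

end shift

/-- The displaced point in terms of the wave vectors. -/
theorem sh_eq (K : ℕ → Fin 3 → ℤ) {ζ : Md → C3} (hζ : Summable fun q => ‖ζ q‖) (θ : Md →+ ℝ) :
    sh θ (lab K ζ) = θ + ph (xiZ K) (reC (ev θ ζ)) := by
  have h1 : ∀ i, (ev θ (lab K ζ i)).re = (K i 0 : ℝ) * (reC (ev θ ζ)) 0 +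
      (K i 1 : ℝ) * (reC (ev θ ζ)) 1 + (K i 2 : ℝ) * (reC (ev θ ζ)) 2 := by
    intro i
    have h2 : ev θ (lab K ζ i) = innerSL ℂ (kv (K i)) (ev θ ζ) :=
      ev_map θ hζ (innerSL ℂ (kv (K i)))
    rw [h2, innerSL_apply_apply, PiLp.inner_apply, Fin.sum_univ_three]
    simp only [reC_apply, kv]
    simp
    ring
  refine Finsupp.addHom_ext fun i z => ?_
  show θ (Finsupp.single i z) + ((Finsupp.single i z : Md).sum fun i z =>
    (z : ℝ) * (ev θ (lab K ζ i)).re) = θ (Finsupp.single i z) +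
      ph (xiZ K) (reC (ev θ ζ)) (Finsupp.single i z)
  rw [Finsupp.sum_single_index (by simp), h1 i]
  have h3 : xiZ K (Finsupp.single i z) = z • K i := by
    simp [xiZ]
  show _ = _ + (((xiZ K (Finsupp.single i z) 0 : ℤ) : ℝ) * _ +
    ((xiZ K (Finsupp.single i z) 1 : ℤ) : ℝ) * _ + ((xiZ K (Finsupp.single i z) 2 : ℤ) : ℝ) * _)
  rw [h3]
  simp only [Pi.smul_apply, smul_eq_mul]
  push_cast
  ring

/-- The chain rule at one label, for real directions. -/
theorem chain {E : Type} [NormedAddCommGroup E] [NormedSpace ℂ E] [NormedSpace ℝ E]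
    [IsScalarTower ℝ ℂ E] [CompleteSpace E] (K : ℕ → Fin 3 → ℤ) {ζ : Md → C3} {f g : Md → E}
    (ζ0 : Summable fun q => ‖ζ q‖) (ζ1 : Summable fun q => nx (xiZ K) q * ‖ζ q‖)
    (f0 : Summable fun q => ‖f q‖) (f1 : Summable fun q => nx (xiZ K) q * ‖f q‖)
    (g0 : Summable fun q => ‖g q‖) (g1 : Summable fun q => nx (xiZ K) q * ‖g q‖)
    (hg : ∀ θ : Md →+ ℝ, ev θ g = ev (sh θ (lab K ζ)) f) (θ : Md →+ ℝ) (z : E3) :
    ev θ (gr (xiZ K) g) z =
      ev (sh θ (lab K ζ)) (gr (xiZ K) f) (z + reC (ev θ (gr (xiZ K) ζ) z)) := by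
  set ξ := xiZ K with hξ
  have H1 := hasFDerivAt_shift ξ θ g0 g1 0
  have H2 : HasFDerivAt (fun y : E3 => y + reC (ev (θ + ph ξ y) ζ))
      (ContinuousLinearMap.id ℝ E3 + reC.comp (ev (θ + ph ξ 0) (gr ξ ζ))) 0 :=
    (hasFDerivAt_id (0 : E3)).add
      (reC.hasFDerivAt.comp (0 : E3) (hasFDerivAt_shift ξ θ ζ0 ζ1 0))
  have H3 := hasFDerivAt_shift ξ θ f0 f1 ((0 : E3) + reC (ev (θ + ph ξ 0) ζ))
  have H4 : HasFDerivAt (fun y : E3 => ev (θ + ph ξ (y + reC (ev (θ + ph ξ y) ζ))) f)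
      ((ev (θ + ph ξ ((0 : E3) + reC (ev (θ + ph ξ 0) ζ))) (gr ξ f)).comp
        (ContinuousLinearMap.id ℝ E3 + reC.comp (ev (θ + ph ξ 0) (gr ξ ζ)))) 0 :=
    HasFDerivAt.comp (g := fun y : E3 => ev (θ + ph ξ y) f) (0 : E3) H3 H2
  have H5 : (fun y : E3 => ev (θ + ph ξ y) g) =
      fun y : E3 => ev (θ + ph ξ (y + reC (ev (θ + ph ξ y) ζ))) f := by
    funext y
    rw [hg, sh_eq K ζ0, ph_add, ← hξ, add_assoc]
  rw [← H5] at H4
  have H6 := H1.unique H4
  have H7 := congrArg (fun A : E3 →L[ℝ] E => A z) H6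
  simp only [ContinuousLinearMap.comp_apply, add_apply,
    ContinuousLinearMap.id_apply, ph_zero, add_zero, zero_add] at H7
  rw [sh_eq K ζ0, ← hξ]
  exact H7

section sums

variable {E : Type} [NormedAddCommGroup E] [NormedSpace ℂ E] {n : ℕ} {K : ℕ → Fin 3 → ℤ}
  {c c' : ℝ}

omit [NormedSpace ℂ E] in
theorem fin_nx {F : Type} [NormedAddCommGroup F] (h : c' < c) {f : Md → E} {g : Md → F}
    (hs : SuppIn (lev n : Set Md) f) (hf : sN c f ≠ ∞)
    (hg : ∀ q, ‖g q‖ ≤ nx (xiZ K) q * ‖f q‖) : sN c' g ≠ ∞ := by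
  obtain ⟨κ, hκ0, hκ⟩ := exists_kappa K n
  refine fin_of_le_len h κ (fun q => (hg q).trans ?_) hf
  by_cases hq : q ∈ lev n
  · exact mul_le_mul_of_nonneg_right (nx_le K n hκ q hq) (norm_nonneg _)
  · rw [hs q hq, norm_zero, mul_zero, mul_zero]

omit [NormedSpace ℂ E] in
theorem sum_nx (h : 0 < c) {f : Md → E} (hs : SuppIn (lev n : Set Md) f) (hf : sN c f ≠ ∞) :
    Summable fun q => nx (xiZ K) q * ‖f q‖ := by
  have h1 : sN 0 (fun q => nx (xiZ K) q * ‖f q‖) ≠ ∞ :=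
    fin_nx (F := ℝ) (K := K) h hs hf fun q => by
      rw [Real.norm_of_nonneg (mul_nonneg (nx_nonneg _ q) (norm_nonneg _))]
  have h2 := lsum h1
  refine h2.congr fun q => ?_
  rw [Real.norm_of_nonneg (mul_nonneg (nx_nonneg _ q) (norm_nonneg _))]

theorem fin_gradV (h : c' < c) {f : Md → C3} (hs : SuppIn (lev n : Set Md) f)
    (hf : sN c f ≠ ∞) : sN c' (gradV K f) ≠ ∞ := fin_nx h hs hf fun q => gradV_norm f q

theorem fin_gradS (h : c' < c) {f : Md → ℂ} (hs : SuppIn (lev n : Set Md) f)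
    (hf : sN c f ≠ ∞) : sN c' (gradS K f) ≠ ∞ := fin_nx h hs hf fun q => gradS_norm f q

theorem supp_gradV {f : Md → C3} (hs : SuppIn (lev n : Set Md) f) :
    SuppIn (lev n : Set Md) (gradV K f) := fun q hq => by
  unfold gradV
  rw [hs q hq, ContinuousLinearMap.smulRight_zero, smul_zero]

theorem supp_gradS {f : Md → ℂ} (hs : SuppIn (lev n : Set Md) f) :
    SuppIn (lev n : Set Md) (gradS K f) := fun q hq => by
  unfold gradS
  rw [hs q hq, mul_zero, zero_smul]

end sums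

/-- Complex linear maps are determined by their values on the real vectors. -/
theorem ext_ofC {A B : Mat} (h : ∀ z : E3, A (ofC z) = B (ofC z)) : A = B := by
  ext v : 1
  have hv : v = ∑ j : Fin 3, v j • ofC (e j) := by
    ext i
    simp only [ofC_e, PiLp.smul_apply, smul_eq_mul, WithLp.ofLp_sum, Finset.sum_apply]
    simp
  rw [hv, map_sum, map_sum]
  refine Finset.sum_congr rfl fun j _ => ?_
  rw [map_smul, map_smul, h]

theorem ext_inner {u v : C3} (h : ∀ z : E3, inner ℂ (ofC z) u = inner ℂ (ofC z) v) : u = v := by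
  ext j
  have h1 := h (e j)
  rw [ofC_e, EuclideanSpace.inner_single_left, EuclideanSpace.inner_single_left] at h1
  simpa using h1

/-- The value of the gradient of a real vector field on a real vector is real. -/
theorem ev_gradV_real (K : ℕ → Fin 3 → ℤ) {ζ : Md → C3}
    (ζ1 : Summable fun q => nx (xiZ K) q * ‖ζ q‖) (hr : RealV ζ) (θ : Md →+ ℝ) (z : E3) :
    ofC (reC (ev θ (gradV K ζ) (ofC z))) = ev θ (gradV K ζ) (ofC z) := by
  rw [← ev_apply θ (summable_gradV ζ1) (ofC z)]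
  apply ev_real
  · refine Summable.of_nonneg_of_le (fun _ => norm_nonneg _)
      (fun q => ((gradV K ζ q).le_opNorm (ofC z))) ?_
    exact (summable_gradV ζ1).mul_right _
  · intro q
    simp only [gradV_apply, gr, ContinuousLinearMap.smulRight_apply]
    rw [hr q]
    have h3 : phL (xiZ K) (-q) z = - phL (xiZ K) q z := by
      rw [phL_apply, phL_apply, map_neg]
    rw [h3]
    ext j
    simp [cjv]

/-- The gradient of a scalar function against a real vector. -/
theorem inner_gradS (K : ℕ → Fin 3 → ℤ) {r : Md → ℂ}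
    (r1 : Summable fun q => nx (xiZ K) q * ‖r q‖) (θ : Md →+ ℝ) (z : E3) :
    inner ℂ (ofC z) (ev θ (gradS K r)) = ev θ (gr (xiZ K) r) z := by
  have hs : Summable fun q => ‖gradS K r q‖ :=
    Summable.of_nonneg_of_le (fun _ => norm_nonneg _) (fun q => gradS_norm r q) r1
  have hs2 : Summable fun q => ‖gr (xiZ K) r q‖ :=
    Summable.of_nonneg_of_le (fun _ => norm_nonneg _) (fun q => gr_norm (xiZ K) r q) r1
  have h1 := summable_ch θ hs2
  have h2 : (ev θ (gr (xiZ K) r)) z = (ContinuousLinearMap.apply ℝ ℂ z) (ev θ (gr (xiZ K) r)) :=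
    rfl
  have h3 : (ev θ (gr (xiZ K) r)) z = ∑' q, ch θ q • (gr (xiZ K) r q z) := by
    rw [h2, ev, (ContinuousLinearMap.apply ℝ ℂ z).map_tsum h1]
    rfl
  have h4 := ev_map θ hs (innerSL ℂ (ofC z))
  rw [innerSL_apply_apply] at h4
  rw [← h4, h3, ev]
  refine tsum_congr fun q => ?_
  congr 1
  rw [innerSL_apply_apply, gradS, inner_smul_right, ← inner_conj_symm, inner_xi]
  simp only [gr, ContinuousLinearMap.smulRight_apply, smul_eq_mul, Complex.conj_ofReal]
  rw [show (phL (xiZ K) q z) • (Complex.I * r q) = ((phL (xiZ K) q z : ℝ) : ℂ) * (Complex.I * r q)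
    from rfl]
  ring

end L11

open L10h L11

theorem l11 (_h03 : L03) (_h04 : L04) (h07 : L07) (h08 : L08) : L11 := by
  intro n K c c1 B ζ hc1 hc sζ fζ rζ hx
  have hB := hx.B_nn
  set c2 : ℝ := (c1 + B + c) / 2 with hc2
  have h12 : c1 + B ≤ c2 := by rw [hc2]; linarith
  have h2c : c2 < c := by rw [hc2]; linarith
  have hcc : c1 + B ≤ c := hc.le
  have hc0 : 0 < c := by linarith
  have ζ0 : Summable fun q => ‖ζ q‖ := lsum (fin_mono hc1.le hc1.le fζ)
  have ζ1 : Summable fun q => nx (xiZ K) q * ‖ζ q‖ := sum_nx hc1 sζ fζ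
  have fgζ : sN 0 (gradV K ζ) ≠ ∞ := fin_gradV hc1 sζ fζ
  have sL : SuppIn (lev n : Set Md) (oneM + gradV K ζ) := supp_add (supp_oneM n) (supp_gradV sζ)
  have fL : sN 0 (oneM + gradV K ζ) ≠ ∞ := fin_add fin_oneM fgζ
  have eL : ∀ (θ : Md →+ ℝ) (z : E3), ev θ (oneM + gradV K ζ) (ofC z) =
      ofC (z + reC (ev θ (gr (xiZ K) ζ) z)) := by
    intro θ z
    rw [ev_add θ (lsum fin_oneM) (lsum fgζ), ev_oneM, add_apply, ContinuousLinearMap.id_apply,
      map_add, ← ev_gradV θ ζ1, ev_gradV_real K ζ1 rζ]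
  refine ⟨?_, ?_⟩
  · intro f sf ff
    have sC := comp_supp h07 hx hcc sf ff
    have fC : sN c1 (comp (lab K ζ) f) ≠ ∞ :=
      ne_top_of_le_ne_top ff (h07 C3 n c c1 B _ f hx hcc sf ff).1
    have fg : sN c2 (gradV K f) ≠ ∞ := fin_gradV h2c sf ff
    have sg : SuppIn (lev n : Set Md) (gradV K f) := supp_gradV sf
    have sCg := comp_supp h07 hx h12 sg fg
    have fCg := comp_fin h07 hx h12 sg fg
    refine h08.1 Mat n _ _ (supp_gradV sC) (supp_mm sCg sL) (fin_gradV hc1 sC fC)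
      (fin_mm le_rfl fCg fL) fun θ => ?_
    rw [ev_mm θ (lsum fCg) (lsum fL), comp_ev h07 hx h12 sg fg]
    refine ext_ofC fun z => ?_
    have f1 : Summable fun q => nx (xiZ K) q * ‖f q‖ := sum_nx hc0 sf ff
    have g1 : Summable fun q => nx (xiZ K) q * ‖comp (lab K ζ) f q‖ := sum_nx hc1 sC fC
    rw [ContinuousLinearMap.comp_apply, eL θ z, ev_gradV θ g1, ev_gradV _ f1]
    exact chain K ζ0 ζ1 (lsum (f_fin hx hcc ff)) f1 (lsum (comp_fin h07 hx hcc sf ff)) g1
      (fun θ => comp_ev h07 hx hcc sf ff θ) θ z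
  · intro r sr fr
    have sC := comp_supp h07 hx hcc sr fr
    have fC : sN c1 (comp (lab K ζ) r) ≠ ∞ :=
      ne_top_of_le_ne_top fr (h07 ℂ n c c1 B _ r hx hcc sr fr).1
    have fg : sN c2 (gradS K r) ≠ ∞ := fin_gradS h2c sr fr
    have sg : SuppIn (lev n : Set Md) (gradS K r) := supp_gradS sr
    have sCg := comp_supp h07 hx h12 sg fg
    have fCg := comp_fin h07 hx h12 sg fg
    refine h08.1 C3 n _ _ (supp_gradS sC) (supp_mul (supp_adjC sL) sCg) (fin_gradS hc1 sC fC)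
      (fin_mul le_rfl (fin_adjC fL) fCg) fun θ => ?_
    rw [ev_mul θ (lsum (fin_adjC fL)) (lsum fCg), ev_adjC θ (lsum fL), comp_ev h07 hx h12 sg fg]
    refine ext_inner fun z => ?_
    have r1 : Summable fun q => nx (xiZ K) q * ‖r q‖ := sum_nx hc0 sr fr
    have g1 : Summable fun q => nx (xiZ K) q * ‖comp (lab K ζ) r q‖ := sum_nx hc1 sC fC
    rw [ContinuousLinearMap.adjoint_inner_right, eL θ z, inner_gradS K g1, inner_gradS K r1]
    exact chain K ζ0 ζ1 (lsum (f_fin hx hcc fr)) r1 (lsum (comp_fin h07 hx hcc sr fr)) g1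
      (fun θ => comp_ev h07 hx hcc sr fr θ) θ z

end Pool.Agent.Work.MP_b0497c_an.Unf.L

end
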