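import Pool.Agent.Work.MP_b0497c_an.Unf.WConv
import Pool.Agent.Work.MP_b0497c_an.Unf.W14
import Pool.Agent.Work.MP_b0497c_an.Unf.ST81
import Pool.Agent.Work.MP_b0497c_an.Bd.B06
import Pool.Agent.Work.MP_b0497c_an.Unf.SStmts3
import Pool.Agent.Work.MP_b0497c_an.Bd.B05

/-! Bundle of small proof modules (one section per former module). -/

section

set_option autoImplicit false

/-!
# W04: product of a solution and a source
-/

open scoped ENNReal
open Set MeasureTheory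

namespace Pool.Agent.Work.MP_b0497c_an.Unf.W

theorem pr_W04 : W04 := by
  intro Γ E F G _ _ _ _ _ _ _ _ _ T c γ ρ ρ' β f g hP hρ hρ'
  -- the weights
  have hw : ∀ (t s : ℝ), t ∈ Icc 0 T → s ∈ Ioc 0 t → ∀ m l : Γ,
      Real.exp ((c - γ * t) * len m) / (ρ s * ρ' s) ≤
        (Real.exp ((c - γ * s) * len (m - l)) / ρ s) *
          (Real.exp ((c - γ * t) * len l) / ρ' s) ∧
      Real.exp ((c - γ * t) * len m) / (ρ s * ρ' s) ≤
        (Real.exp ((c - γ * t) * len (m - l)) / ρ s) *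
          (Real.exp ((c - γ * s) * len l) / ρ' s) := by
    intro t s ht hs m l
    have hs' := Conv.mem_Icc ht hs
    have hρs := hρ.pos s hs'
    have hρs' := hρ'.pos s hs'
    have hx := Conv.c_sub_nonneg hP ht
    have hts : c - γ * t ≤ c - γ * s := by
      have := mul_le_mul_of_nonneg_left hs.2 hP.γ_nonneg
      linarith
    constructor
    · rw [div_mul_div_comm]
      refine div_le_div_of_nonneg_right ?_ (by positivity)
      exact (Conv.exp_le hx m l).trans (mul_le_mul_of_nonneg_right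
        (Conv.exp_mono hts (m - l)) (Real.exp_nonneg _))
    · rw [div_mul_div_comm]
      refine div_le_div_of_nonneg_right ?_ (by positivity)
      exact (Conv.exp_le hx m l).trans (mul_le_mul_of_nonneg_left
        (Conv.exp_mono hts l) (Real.exp_nonneg _))
  constructor
  · intro hg
    have key : ∀ m, (⨆ t ∈ Icc 0 T, ∫⁻ s in Ioc 0 t,
        ENNReal.ofReal (Real.exp ((c - γ * t) * len m) / (ρ s * ρ' s)) *
          ‖conv β (f s) (g s) m‖ₑ) ≤
        ∑' l, (‖β‖ₑ * Conv.nt T c γ ρ f (m - l)) * Conv.st T c γ ρ' g l := by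
      intro m
      refine iSup₂_le fun t ht => ?_
      calc ∫⁻ s in Ioc 0 t,
            ENNReal.ofReal (Real.exp ((c - γ * t) * len m) / (ρ s * ρ' s)) *
              ‖conv β (f s) (g s) m‖ₑ
          ≤ ∫⁻ s in Ioc 0 t, ∑' l, (‖β‖ₑ * Conv.nt T c γ ρ f (m - l)) *
              (ENNReal.ofReal (Real.exp ((c - γ * t) * len l) / ρ' s) * ‖g s l‖ₑ) := by
            refine setLIntegral_mono' measurableSet_Ioc fun s hs => ?_
            have hs' := Conv.mem_Icc ht hs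
            have hρs := hρ.pos s hs'
            calc ENNReal.ofReal (Real.exp ((c - γ * t) * len m) / (ρ s * ρ' s)) *
                  ‖conv β (f s) (g s) m‖ₑ
                ≤ ENNReal.ofReal (Real.exp ((c - γ * t) * len m) / (ρ s * ρ' s)) *
                    ∑' l, ‖β‖ₑ * ‖f s (m - l)‖ₑ * ‖g s l‖ₑ := by
                  gcongr
                  exact Conv.enorm_conv _ _ _ _
              _ = ∑' l, ENNReal.ofReal (Real.exp ((c - γ * t) * len m) / (ρ s * ρ' s)) *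
                    (‖β‖ₑ * ‖f s (m - l)‖ₑ * ‖g s l‖ₑ) := by rw [ENNReal.tsum_mul_left]
              _ ≤ _ := by
                  refine ENNReal.tsum_le_tsum fun l => ?_
                  calc ENNReal.ofReal (Real.exp ((c - γ * t) * len m) / (ρ s * ρ' s)) *
                        (‖β‖ₑ * ‖f s (m - l)‖ₑ * ‖g s l‖ₑ)
                      ≤ ENNReal.ofReal ((Real.exp ((c - γ * s) * len (m - l)) / ρ s) *
                          (Real.exp ((c - γ * t) * len l) / ρ' s)) *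
                          (‖β‖ₑ * ‖f s (m - l)‖ₑ * ‖g s l‖ₑ) := by
                        gcongr
                        exact (hw t s ht hs m l).1
                    _ = (‖β‖ₑ * (ENNReal.ofReal (Real.exp ((c - γ * s) * len (m - l)) / ρ s) *
                          ‖f s (m - l)‖ₑ)) *
                        (ENNReal.ofReal (Real.exp ((c - γ * t) * len l) / ρ' s) *
                          ‖g s l‖ₑ) := by
                        rw [ENNReal.ofReal_mul (by positivity)]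
                        ring
                    _ ≤ _ := mul_le_mul'
                        (mul_le_mul' le_rfl (Conv.le_nt f hs' (m - l))) le_rfl
        _ = ∑' l, ∫⁻ s in Ioc 0 t, (‖β‖ₑ * Conv.nt T c γ ρ f (m - l)) *
              (ENNReal.ofReal (Real.exp ((c - γ * t) * len l) / ρ' s) * ‖g s l‖ₑ) := by
            rw [lintegral_tsum]
            intro l
            exact (Conv.aem hρ' hg ht _ l).const_mul _
        _ ≤ ∑' l, (‖β‖ₑ * Conv.nt T c γ ρ f (m - l)) * Conv.st T c γ ρ' g l := by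
            refine ENNReal.tsum_le_tsum fun l => ?_
            rw [lintegral_const_mul'' _ (Conv.aem hρ' hg ht _ l)]
            exact mul_le_mul' le_rfl (Conv.le_st g ht l)
    calc Src T c γ (fun t => ρ t * ρ' t) (fun t => conv β (f t) (g t))
        ≤ ∑' m, ∑' l, (‖β‖ₑ * Conv.nt T c γ ρ f (m - l)) * Conv.st T c γ ρ' g l :=
          ENNReal.tsum_le_tsum key
      _ = (∑' k, ‖β‖ₑ * Conv.nt T c γ ρ f k) * ∑' l, Conv.st T c γ ρ' g l :=
          Conv.tsum_conv (fun k => ‖β‖ₑ * Conv.nt T c γ ρ f k) _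
      _ = ‖β‖ₑ * Nrm T c γ ρ f * Src T c γ ρ' g := by
          rw [ENNReal.tsum_mul_left]
          rfl
  · intro hf
    have key : ∀ m, (⨆ t ∈ Icc 0 T, ∫⁻ s in Ioc 0 t,
        ENNReal.ofReal (Real.exp ((c - γ * t) * len m) / (ρ s * ρ' s)) *
          ‖conv β (f s) (g s) m‖ₑ) ≤
        ∑' l, (‖β‖ₑ * Conv.st T c γ ρ f (m - l)) * Conv.nt T c γ ρ' g l := by
      intro m
      refine iSup₂_le fun t ht => ?_
      calc ∫⁻ s in Ioc 0 t,
            ENNReal.ofReal (Real.exp ((c - γ * t) * len m) / (ρ s * ρ' s)) *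
              ‖conv β (f s) (g s) m‖ₑ
          ≤ ∫⁻ s in Ioc 0 t, ∑' l, (‖β‖ₑ * Conv.nt T c γ ρ' g l) *
              (ENNReal.ofReal (Real.exp ((c - γ * t) * len (m - l)) / ρ s) *
                ‖f s (m - l)‖ₑ) := by
            refine setLIntegral_mono' measurableSet_Ioc fun s hs => ?_
            have hs' := Conv.mem_Icc ht hs
            have hρs := hρ.pos s hs'
            calc ENNReal.ofReal (Real.exp ((c - γ * t) * len m) / (ρ s * ρ' s)) *
                  ‖conv β (f s) (g s) m‖ₑ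
                ≤ ENNReal.ofReal (Real.exp ((c - γ * t) * len m) / (ρ s * ρ' s)) *
                    ∑' l, ‖β‖ₑ * ‖f s (m - l)‖ₑ * ‖g s l‖ₑ := by
                  gcongr
                  exact Conv.enorm_conv _ _ _ _
              _ = ∑' l, ENNReal.ofReal (Real.exp ((c - γ * t) * len m) / (ρ s * ρ' s)) *
                    (‖β‖ₑ * ‖f s (m - l)‖ₑ * ‖g s l‖ₑ) := by rw [ENNReal.tsum_mul_left]
              _ ≤ _ := by
                  refine ENNReal.tsum_le_tsum fun l => ?_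
                  calc ENNReal.ofReal (Real.exp ((c - γ * t) * len m) / (ρ s * ρ' s)) *
                        (‖β‖ₑ * ‖f s (m - l)‖ₑ * ‖g s l‖ₑ)
                      ≤ ENNReal.ofReal ((Real.exp ((c - γ * t) * len (m - l)) / ρ s) *
                          (Real.exp ((c - γ * s) * len l) / ρ' s)) *
                          (‖β‖ₑ * ‖f s (m - l)‖ₑ * ‖g s l‖ₑ) := by
                        gcongr
                        exact (hw t s ht hs m l).2
                    _ = (‖β‖ₑ * (ENNReal.ofReal (Real.exp ((c - γ * s) * len l) / ρ' s) *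
                          ‖g s l‖ₑ)) *
                        (ENNReal.ofReal (Real.exp ((c - γ * t) * len (m - l)) / ρ s) *
                          ‖f s (m - l)‖ₑ) := by
                        rw [ENNReal.ofReal_mul (by positivity)]
                        ring
                    _ ≤ _ := mul_le_mul'
                        (mul_le_mul' le_rfl (Conv.le_nt g hs' l)) le_rfl
        _ = ∑' l, ∫⁻ s in Ioc 0 t, (‖β‖ₑ * Conv.nt T c γ ρ' g l) *
              (ENNReal.ofReal (Real.exp ((c - γ * t) * len (m - l)) / ρ s) *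
                ‖f s (m - l)‖ₑ) := by
            rw [lintegral_tsum]
            intro l
            exact (Conv.aem hρ hf ht _ (m - l)).const_mul _
        _ ≤ ∑' l, (‖β‖ₑ * Conv.st T c γ ρ f (m - l)) * Conv.nt T c γ ρ' g l := by
            refine ENNReal.tsum_le_tsum fun l => ?_
            rw [lintegral_const_mul'' _ (Conv.aem hρ hf ht _ (m - l))]
            calc (‖β‖ₑ * Conv.nt T c γ ρ' g l) * _
                ≤ (‖β‖ₑ * Conv.nt T c γ ρ' g l) * Conv.st T c γ ρ f (m - l) :=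
                  mul_le_mul' le_rfl (Conv.le_st f ht (m - l))
              _ = _ := by ring
    calc Src T c γ (fun t => ρ t * ρ' t) (fun t => conv β (f t) (g t))
        ≤ ∑' m, ∑' l, (‖β‖ₑ * Conv.st T c γ ρ f (m - l)) * Conv.nt T c γ ρ' g l :=
          ENNReal.tsum_le_tsum key
      _ = (∑' k, ‖β‖ₑ * Conv.st T c γ ρ f k) * ∑' l, Conv.nt T c γ ρ' g l :=
          Conv.tsum_conv (fun k => ‖β‖ₑ * Conv.st T c γ ρ f k) _
      _ = ‖β‖ₑ * Src T c γ ρ f * Nrm T c γ ρ' g := by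
          rw [ENNReal.tsum_mul_left]
          rfl

end Pool.Agent.Work.MP_b0497c_an.Unf.W

end

section

set_option autoImplicit false

/-!
# W16: the exact gradient projector
-/

open scoped ENNReal
open Set MeasureTheory

namespace Pool.Agent.Work.MP_b0497c_an.Unf.W

section pr

theorem pr_apply (v w : C3) :
    pr v w = ((‖v‖ : ℂ) ^ 2)⁻¹ • (inner ℂ v w • v) := by
  simp [pr]

theorem norm_pr_le (v : C3) : ‖pr v‖ ≤ 1 := by
  refine ContinuousLinearMap.opNorm_le_bound _ zero_le_one fun w => ?_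
  rw [pr_apply, norm_smul, norm_smul, norm_inv, norm_pow, Complex.norm_real,
    Real.norm_of_nonneg (norm_nonneg _), one_mul]
  rcases eq_or_ne v 0 with rfl | hv
  · simp
  · have h1 : 0 < ‖v‖ := norm_pos_iff.2 hv
    have h2 := norm_inner_le_norm (𝕜 := ℂ) v w
    rw [inv_mul_le_iff₀ (by positivity)]
    calc ‖inner ℂ v w‖ * ‖v‖ ≤ (‖v‖ * ‖w‖) * ‖v‖ := by gcongr
      _ = ‖v‖ ^ 2 * ‖w‖ := by ring

theorem pr_idem (v : C3) : (pr v).comp (pr v) = pr v := by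
  refine ContinuousLinearMap.ext fun w => ?_
  rw [ContinuousLinearMap.comp_apply, pr_apply, pr_apply]
  rcases eq_or_ne v 0 with rfl | hv
  · simp
  · have h1 : (‖v‖ : ℂ) ≠ 0 := by
      simpa using hv
    rw [inner_smul_right, inner_smul_right, inner_self_eq_norm_sq_to_K]
    congr 2
    field_simp
    simp
    ring

theorem pr_adj (v : C3) : ContinuousLinearMap.adjoint (pr v) = pr v := by
  symm
  rw [ContinuousLinearMap.eq_adjoint_iff]
  intro x y
  rw [pr_apply, pr_apply, inner_smul_left, inner_smul_right, inner_smul_left, inner_smul_right,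
    inner_conj_symm, map_inv₀, map_pow, Complex.conj_ofReal]
  ring

end pr

section

variable {Γ : Type} [AddCommGroup Γ]

omit [AddCommGroup Γ] in
theorem PK_adj (ξ : Γ → C3) :
    (fun m l => ContinuousLinearMap.adjoint (PK ξ l m)) = PK ξ := by
  funext m l
  show ContinuousLinearMap.adjoint (diagK (fun m => pr (ξ m)) l m) =
    diagK (fun m => pr (ξ m)) m l
  unfold diagK
  by_cases h : m = l
  · rw [if_pos h.symm, if_pos h, h, pr_adj]
  · rw [if_neg (Ne.symm h), if_neg h, map_zero]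

theorem mulK_adj (Fi : Γ → Mat) :
    (fun m l => ContinuousLinearMap.adjoint (mulK Fi l m)) = mulK (adjC Fi) := by
  funext m l
  show ContinuousLinearMap.adjoint (Fi (l - m)) = ContinuousLinearMap.adjoint (Fi (-(m - l)))
  rw [neg_sub]

omit [AddCommGroup Γ] in
theorem PK_PK (ξ : Γ → C3) : kcomp (PK ξ) (PK ξ) = PK ξ := by
  funext m l
  show kcomp (diagK (fun m => pr (ξ m))) (PK ξ) m l = _
  rw [diag_kcomp]
  show (pr (ξ m)).comp (diagK (fun m => pr (ξ m)) m l) = diagK (fun m => pr (ξ m)) m l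
  unfold diagK
  by_cases h : m = l
  · rw [if_pos h, h, pr_idem]
  · rw [if_neg h, ContinuousLinearMap.comp_zero]

theorem supp_kcomp (Λ : AddSubgroup Γ) {A B : Γ → Γ → Mat} (hA : ∀ m l, m - l ∉ Λ → A m l = 0)
    (hB : ∀ m l, m - l ∉ Λ → B m l = 0) (m l : Γ) (h : m - l ∉ Λ) : kcomp A B m l = 0 := by
  have h0 : ∀ j, (A m j).comp (B j l) = 0 := by
    intro j
    by_cases h1 : m - j ∈ Λ
    · have h2 : j - l ∉ Λ := by
        intro h2
        apply h
        have := Λ.add_mem h1 h2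
        rwa [sub_add_sub_cancel] at this
      rw [hB j l h2, ContinuousLinearMap.comp_zero]
    · rw [hA m j h1, ContinuousLinearMap.zero_comp]
  show ∑' j, (A m j).comp (B j l) = 0
  simp_rw [h0, tsum_zero]

theorem mulK_supp (Λ : AddSubgroup Γ) {a : Γ → Mat} (ha : ∀ k, k ∉ Λ → a k = 0) (m l : Γ)
    (h : m - l ∉ Λ) : mulK a m l = 0 := ha _ h

theorem adjC_supp (Λ : AddSubgroup Γ) {a : Γ → Mat} (ha : ∀ k, k ∉ Λ → a k = 0) (k : Γ)
    (h : k ∉ Λ) : adjC a k = 0 := by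
  show ContinuousLinearMap.adjoint (a (-k)) = 0
  rw [ha (-k) (fun h' => h (neg_neg k ▸ Λ.neg_mem h')), map_zero]

theorem diagK_supp (Λ : AddSubgroup Γ) (a : Γ → Mat) (m l : Γ) (h : m - l ∉ Λ) :
    diagK a m l = 0 := by
  unfold diagK
  rw [if_neg]
  rintro rfl
  apply h
  rw [sub_self]
  exact Λ.zero_mem

theorem AK_supp (Λ : AddSubgroup Γ) (ξ : Γ → C3) {Fi : Γ → Mat} (hFi : ∀ k, k ∉ Λ → Fi k = 0)
    (m l : Γ) (h : m - l ∉ Λ) : AK ξ Fi m l = 0 := by
  have hP := diagK_supp Λ (fun m => pr (ξ m))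
  exact supp_kcomp Λ hP (supp_kcomp Λ (mulK_supp Λ hFi)
    (supp_kcomp Λ (mulK_supp Λ (adjC_supp Λ hFi)) hP)) m l h

variable [Len Γ]

theorem sN_adjC (c : ℝ) (Fi : Γ → Mat) : sN c (adjC Fi) = sN c Fi := by
  unfold sN
  rw [← (Equiv.neg Γ).tsum_eq]
  congr 1
  funext m
  show ENNReal.ofReal (Real.exp (c * len (-m))) * ‖ContinuousLinearMap.adjoint (Fi (- -m))‖ₑ = _
  rw [len_neg, neg_neg, ← ofReal_norm, ← ofReal_norm, LinearIsometryEquiv.norm_map]

theorem R_unique {P A R R' : Γ → Γ → Mat} (hA : sK 0 A ≠ ∞) (hR : sK 0 R ≠ ∞)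
    (hR' : sK 0 R' ≠ ∞) (h1 : kcomp R P = R) (h2 : kcomp P R' = R') (h3 : kcomp R A = P)
    (h4 : kcomp A R' = P) : R = R' := by
  calc R = kcomp R P := h1.symm
    _ = kcomp R (kcomp A R') := by rw [h4]
    _ = kcomp (kcomp R A) R' := (kcomp_assoc' hR hA hR').symm
    _ = kcomp P R' := by rw [h3]
    _ = R' := h2

theorem RK_spec {ξ : Γ → C3} {Fi : Γ → Mat}
    (h : ∃ R : Γ → Γ → Mat, sK 0 R ≠ ∞ ∧ kcomp (PK ξ) R = R ∧ kcomp R (PK ξ) = R ∧
      kcomp (AK ξ Fi) R = PK ξ ∧ kcomp R (AK ξ Fi) = PK ξ) :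
    sK 0 (RK ξ Fi) ≠ ∞ ∧ kcomp (PK ξ) (RK ξ Fi) = RK ξ Fi ∧ kcomp (RK ξ Fi) (PK ξ) = RK ξ Fi ∧
      kcomp (AK ξ Fi) (RK ξ Fi) = PK ξ ∧ kcomp (RK ξ Fi) (AK ξ Fi) = PK ξ := by
  unfold RK
  rw [dif_pos h]
  exact h.choose_spec

end

/-- All the facts on one deformation. -/
theorem core16 (h10 : W10) (h15 : W15) (Γ : Type) [AddCommGroup Γ] [Len Γ] (Λ : AddSubgroup Γ)
    (c b e : ℝ) (F Fi : Γ → Mat) (ξ : Γ → C3) (hF : FData Λ c b e F Fi) :
    sK 0 (PK ξ) ≠ ∞ ∧ sK 0 (mulK Fi) ≠ ∞ ∧ sK 0 (mulK (adjC Fi)) ≠ ∞ ∧ sK 0 (AK ξ Fi) ≠ ∞ ∧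
    sK c (mulK Fi) ≤ ENNReal.ofReal e ∧ sK c (mulK (adjC Fi)) ≤ ENNReal.ofReal e ∧
    (sK 0 (RK ξ Fi) ≠ ∞ ∧ kcomp (PK ξ) (RK ξ Fi) = RK ξ Fi ∧ kcomp (RK ξ Fi) (PK ξ) = RK ξ Fi ∧
      kcomp (AK ξ Fi) (RK ξ Fi) = PK ξ ∧ kcomp (RK ξ Fi) (AK ξ Fi) = PK ξ) ∧
    (∀ m l, ‖RK ξ Fi m l‖ ≤
      2 * b ^ 2 * Real.exp (-(c / (2 * b ^ 2 * e ^ 2)) * len (m - l))) ∧
    (∀ m l, m - l ∉ Λ → RK ξ Fi m l = 0) ∧
    sK (c / (2 * b ^ 2 * e ^ 2) / 2) (RK ξ Fi) ≤
      ENNReal.ofReal (2 * b ^ 2) * eSL Λ (c / (2 * b ^ 2 * e ^ 2) / 2) := by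
  have hc := hF.c_pos
  have hb := hF.b_one
  have he := hF.e_one
  have hb0 : 0 < b := by linarith
  have he0 : 0 < e := by linarith
  obtain ⟨c1, -, -, c4, c5, -, c7, -⟩ := h10 Γ C3 C3 C3 c hc.le
  obtain ⟨z1, -, -, z4, -, -, -, -⟩ := h10 Γ C3 C3 C3 0 le_rfl
  have le0 : ∀ A : Γ → Γ → Mat, sK 0 A ≤ sK c A := (c7 0 hc.le).1
  have hPc : sK c (PK ξ) ≤ 1 := by
    refine c5 _ 1 fun m => ?_
    rw [← ofReal_norm, ← ENNReal.ofReal_one]
    exact ENNReal.ofReal_le_ofReal (norm_pr_le _)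
  have hMic : sK c (mulK Fi) ≤ ENNReal.ofReal e := by
    rw [c4]
    exact hF.Fi_le
  have hMtc : sK c (mulK (adjC Fi)) ≤ ENNReal.ofReal e := by
    rw [c4, sN_adjC]
    exact hF.Fi_le
  have hM0 : sK 0 (mulK F) ≤ ENNReal.ofReal b := by
    rw [z4]
    exact hF.F_le
  have hP : sK 0 (PK ξ) ≠ ∞ := ne_top_of_le_ne_top ENNReal.one_ne_top ((le0 _).trans hPc)
  have hMi : sK 0 (mulK Fi) ≠ ∞ :=
    ne_top_of_le_ne_top ENNReal.ofReal_ne_top ((le0 _).trans hMic)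
  have hMt : sK 0 (mulK (adjC Fi)) ≠ ∞ :=
    ne_top_of_le_ne_top ENNReal.ofReal_ne_top ((le0 _).trans hMtc)
  have hM : sK 0 (mulK F) ≠ ∞ := ne_top_of_le_ne_top ENNReal.ofReal_ne_top hM0
  have fin2 : ∀ {A B : Γ → Γ → Mat}, sK 0 A ≠ ∞ → sK 0 B ≠ ∞ → sK 0 (kcomp A B) ≠ ∞ :=
    fun {A B} hA hB => ne_top_of_le_ne_top (ENNReal.mul_ne_top hA hB) (z1 A B)
  have hA : sK 0 (AK ξ Fi) ≠ ∞ := fin2 hP (fin2 hMi (fin2 hMt hP))
  have hAc : sK c (AK ξ Fi) ≤ ENNReal.ofReal (e ^ 2) := by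
    calc sK c (AK ξ Fi) ≤ sK c (PK ξ) * (sK c (mulK Fi) * (sK c (mulK (adjC Fi)) *
          sK c (PK ξ))) := by
          refine (c1 _ _).trans (mul_le_mul' le_rfl ?_)
          refine (c1 _ _).trans (mul_le_mul' le_rfl ?_)
          exact c1 _ _
      _ ≤ 1 * (ENNReal.ofReal e * (ENNReal.ofReal e * 1)) := by gcongr
      _ = ENNReal.ofReal (e ^ 2) := by
          rw [mul_one, one_mul, ← ENNReal.ofReal_mul he0.le, sq]
  have hPA : kcomp (PK ξ) (AK ξ Fi) = AK ξ Fi := by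
    unfold AK
    rw [← kcomp_assoc' hP hP (fin2 hMi (fin2 hMt hP)), PK_PK]
  have hAP : kcomp (AK ξ Fi) (PK ξ) = AK ξ Fi := by
    unfold AK
    rw [kcomp_assoc' hP (fin2 hMi (fin2 hMt hP)) hP, kcomp_assoc' hMi (fin2 hMt hP) hP,
      kcomp_assoc' hMt hP hP, PK_PK]
  -- coercivity
  have hco : ∀ f : H2 Γ, opK (PK ξ) f = f →
      1 / b ^ 2 * ‖f‖ ^ 2 ≤ (inner ℂ (opK (AK ξ Fi) f) f).re := by
    intro f hf
    have hPs : opK (PK ξ) = ContinuousLinearMap.adjoint (opK (PK ξ)) := by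
      rw [← opK_adj hP, PK_adj]
    have hMs : opK (mulK (adjC Fi)) = ContinuousLinearMap.adjoint (opK (mulK Fi)) := by
      rw [← opK_adj hMi, mulK_adj]
    have e1 : opK (AK ξ Fi) f = opK (PK ξ) (opK (mulK Fi) (opK (mulK (adjC Fi)) f)) := by
      unfold AK
      rw [opK_kcomp hP (fin2 hMi (fin2 hMt hP)), opK_kcomp hMi (fin2 hMt hP),
        opK_kcomp hMt hP]
      simp only [ContinuousLinearMap.comp_apply]
      rw [hf]
    have e2 : inner ℂ (opK (AK ξ Fi) f) f =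
        inner ℂ (opK (mulK (adjC Fi)) f) (opK (mulK (adjC Fi)) f) := by
      rw [e1, hPs, ContinuousLinearMap.adjoint_inner_left, hf, hMs,
        ContinuousLinearMap.adjoint_inner_right]
    have e3 : (inner ℂ (opK (AK ξ Fi) f) f).re = ‖opK (mulK (adjC Fi)) f‖ ^ 2 := by
      rw [e2]
      exact (norm_sq_eq_re_inner (𝕜 := ℂ) _).symm
    have e4 : (opK (mulK Fi)).comp (opK (mulK F)) = ContinuousLinearMap.id ℂ (H2 Γ) := by
      rw [← opK_kcomp hMi hM, hF.left, opK_id]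
    have e5 : ContinuousLinearMap.adjoint (opK (mulK F)) (opK (mulK (adjC Fi)) f) = f := by
      rw [hMs, ← ContinuousLinearMap.comp_apply, ← ContinuousLinearMap.adjoint_comp, e4]
      refine ext_inner_left ℂ fun w => ?_
      rw [ContinuousLinearMap.adjoint_inner_right]
      rfl
    have e6 : ‖opK (mulK F)‖ ≤ b := by
      have := (opK_norm hM).trans hM0
      exact (ENNReal.ofReal_le_ofReal_iff hb0.le).1 this
    have e7 : ‖f‖ ≤ b * ‖opK (mulK (adjC Fi)) f‖ := by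
      calc ‖f‖ = ‖ContinuousLinearMap.adjoint (opK (mulK F)) (opK (mulK (adjC Fi)) f)‖ := by
            rw [e5]
        _ ≤ ‖ContinuousLinearMap.adjoint (opK (mulK F))‖ * ‖opK (mulK (adjC Fi)) f‖ :=
            ContinuousLinearMap.le_opNorm _ _
        _ = ‖opK (mulK F)‖ * ‖opK (mulK (adjC Fi)) f‖ := by
            rw [LinearIsometryEquiv.norm_map]
        _ ≤ b * ‖opK (mulK (adjC Fi)) f‖ := by gcongr
    rw [e3, div_mul_eq_mul_div, one_mul, div_le_iff₀ (by positivity)]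
    calc ‖f‖ ^ 2 ≤ (b * ‖opK (mulK (adjC Fi)) f‖) ^ 2 := by gcongr
      _ = _ := by ring
  obtain ⟨R, r1, r2, r3, r4, r7, r5, r6⟩ := h15 Γ Λ c (1 / b ^ 2) (e ^ 2) (fun m => pr (ξ m))
    (AK ξ Fi) hc (by positivity) (by
      calc 1 / b ^ 2 ≤ 1 := by
            rw [div_le_one (by positivity)]
            exact one_le_pow₀ hb
        _ ≤ e ^ 2 := one_le_pow₀ he) hAc hF.sum (AK_supp Λ ξ hF.Fi_supp)
    (fun m => pr_idem _) (fun m => pr_adj _) hPA hAP hco
  have k1 : c * (1 / b ^ 2) / (2 * e ^ 2) = c / (2 * b ^ 2 * e ^ 2) := by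
    field_simp
  have k2 : 2 / (1 / b ^ 2) = 2 * b ^ 2 := by
    field_simp
  rw [k1, k2] at r6
  have hη : 0 < c / (2 * b ^ 2 * e ^ 2) / 2 := by positivity
  have hR : sK 0 R ≠ ∞ := by
    refine ne_top_of_le_ne_top ?_ (((h10 Γ C3 C3 C3 _ hη.le).2.2.2.2.2.2.1 0 hη.le).1 R)
    exact ne_top_of_le_ne_top (ENNReal.mul_ne_top ENNReal.ofReal_ne_top (hF.sum _ hη)) r6
  have hRK := RK_spec ⟨R, hR, r1, r2, r3, r4⟩
  have hE : RK ξ Fi = R := R_unique hA hRK.1 hR hRK.2.2.1 r1 hRK.2.2.2.2 r3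
  refine ⟨hP, hMi, hMt, hA, hMic, hMtc, hRK, ?_, ?_, ?_⟩
  · intro m l
    rw [hE]
    have := r5 m l
    rwa [k1, k2] at this
  · rw [hE]
    exact r7
  · rw [hE]
    exact r6

theorem pr_W16 (h10 : W10) (_h11 : W11) (_h14 : W14) (h15 : W15) : W16 := by
  intro Γ _ _ Λ c b e F Fi ξ hF
  obtain ⟨hP, hMi, hMt, hA, hMic, hMtc, ⟨hR, r1, r2, r3, r4⟩, r5, r7, r6⟩ :=
    core16 h10 h15 Γ Λ c b e F Fi ξ hF
  have hc := hF.c_pos
  have hb := hF.b_one
  have he := hF.e_one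
  have hb0 : 0 < b := by linarith
  have he0 : 0 < e := by linarith
  obtain ⟨z1, -, -, -, -, -, -, -⟩ := h10 Γ C3 C3 C3 0 le_rfl
  have fin2 : ∀ {A B : Γ → Γ → Mat}, sK 0 A ≠ ∞ → sK 0 B ≠ ∞ → sK 0 (kcomp A B) ≠ ∞ :=
    fun {A B} hA hB => ne_top_of_le_ne_top (ENNReal.mul_ne_top hA hB) (z1 A B)
  have hη : 0 < c / (2 * b ^ 2 * e ^ 2) / 2 := by positivity
  have hηc : c / (2 * b ^ 2 * e ^ 2) / 2 ≤ c := by
    rw [div_div, div_le_iff₀ (by positivity)]
    have h1 : (1 : ℝ) ≤ b ^ 2 := one_le_pow₀ hb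
    have h2 : (1 : ℝ) ≤ e ^ 2 := one_le_pow₀ he
    have h3 : 1 ≤ b ^ 2 * e ^ 2 := one_le_mul_of_one_le_of_one_le h1 h2
    nlinarith
  have hPi0 : sK 0 (PiK ξ Fi) ≠ ∞ := fin2 hMt (fin2 hR hMi)
  have hR' : kcomp (RK ξ Fi) (kcomp (mulK Fi) (kcomp (mulK (adjC Fi)) (PK ξ))) = PK ξ := by
    calc kcomp (RK ξ Fi) (kcomp (mulK Fi) (kcomp (mulK (adjC Fi)) (PK ξ)))
        = kcomp (kcomp (RK ξ Fi) (PK ξ)) (kcomp (mulK Fi) (kcomp (mulK (adjC Fi)) (PK ξ))) := by
          rw [r2]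
      _ = kcomp (RK ξ Fi) (AK ξ Fi) := by
          rw [kcomp_assoc' hR hP (fin2 hMi (fin2 hMt hP))]
          rfl
      _ = PK ξ := r4
  have hR'' : kcomp (PK ξ) (kcomp (mulK Fi) (kcomp (mulK (adjC Fi)) (RK ξ Fi))) = PK ξ := by
    calc kcomp (PK ξ) (kcomp (mulK Fi) (kcomp (mulK (adjC Fi)) (RK ξ Fi)))
        = kcomp (PK ξ) (kcomp (mulK Fi) (kcomp (mulK (adjC Fi)) (kcomp (PK ξ) (RK ξ Fi)))) := by
          rw [r1]
      _ = kcomp (AK ξ Fi) (RK ξ Fi) := by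
          unfold AK
          rw [kcomp_assoc' hP (fin2 hMi (fin2 hMt hP)) hR, kcomp_assoc' hMi (fin2 hMt hP) hR,
            kcomp_assoc' hMt hP hR]
      _ = PK ξ := r3
  refine ⟨⟨r1, r2, r3, r4⟩, r5, ?_, ?_, ?_, ?_, ?_, ?_⟩
  · intro m l hml
    refine ⟨r7 m l hml, ?_⟩
    exact supp_kcomp Λ (mulK_supp Λ (adjC_supp Λ hF.Fi_supp))
      (supp_kcomp Λ r7 (mulK_supp Λ hF.Fi_supp)) m l hml
  · obtain ⟨c1, -⟩ := h10 Γ C3 C3 C3 _ hη.le
    obtain ⟨-, -, -, -, -, -, c7, -⟩ := h10 Γ C3 C3 C3 c hc.le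
    calc sK (c / (2 * b ^ 2 * e ^ 2) / 2) (PiK ξ Fi)
        ≤ sK (c / (2 * b ^ 2 * e ^ 2) / 2) (mulK (adjC Fi)) *
          (sK (c / (2 * b ^ 2 * e ^ 2) / 2) (RK ξ Fi) *
            sK (c / (2 * b ^ 2 * e ^ 2) / 2) (mulK Fi)) :=
          (c1 _ _).trans (mul_le_mul' le_rfl (c1 _ _))
      _ ≤ ENNReal.ofReal e * (ENNReal.ofReal (2 * b ^ 2) *
            eSL Λ (c / (2 * b ^ 2 * e ^ 2) / 2) * ENNReal.ofReal e) :=
          mul_le_mul' (((c7 _ hηc).1 _).trans hMtc)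
            (mul_le_mul' r6 (((c7 _ hηc).1 _).trans hMic))
      _ = (ENNReal.ofReal e * ENNReal.ofReal (2 * b ^ 2) * ENNReal.ofReal e) *
            eSL Λ (c / (2 * b ^ 2 * e ^ 2) / 2) := by ring
      _ = ENNReal.ofReal (2 * b ^ 2 * e ^ 2) * eSL Λ (c / (2 * b ^ 2 * e ^ 2) / 2) := by
          rw [← ENNReal.ofReal_mul he0.le, ← ENNReal.ofReal_mul (by positivity)]
          congr 2
          ring
  · -- idempotent
    show kcomp (kcomp (mulK (adjC Fi)) (kcomp (RK ξ Fi) (mulK Fi)))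
      (kcomp (mulK (adjC Fi)) (kcomp (RK ξ Fi) (mulK Fi))) = _
    rw [kcomp_assoc' hMt (fin2 hR hMi) (fin2 hMt (fin2 hR hMi)),
      kcomp_assoc' hR hMi (fin2 hMt (fin2 hR hMi)),
      ← kcomp_assoc' hMt hR hMi, ← kcomp_assoc' hMi (fin2 hMt hR) hMi,
      ← kcomp_assoc' hR (fin2 hMi (fin2 hMt hR)) hMi]
    have : kcomp (RK ξ Fi) (kcomp (mulK Fi) (kcomp (mulK (adjC Fi)) (RK ξ Fi))) = RK ξ Fi := by
      calc kcomp (RK ξ Fi) (kcomp (mulK Fi) (kcomp (mulK (adjC Fi)) (RK ξ Fi)))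
          = kcomp (kcomp (RK ξ Fi) (PK ξ))
            (kcomp (mulK Fi) (kcomp (mulK (adjC Fi)) (RK ξ Fi))) := by rw [r2]
        _ = kcomp (RK ξ Fi) (PK ξ) := by
            rw [kcomp_assoc' hR hP (fin2 hMi (fin2 hMt hR)), hR'']
        _ = RK ξ Fi := r2
    rw [this]
    rfl
  · show kcomp (kcomp (mulK (adjC Fi)) (kcomp (RK ξ Fi) (mulK Fi)))
      (kcomp (mulK (adjC Fi)) (PK ξ)) = _
    rw [kcomp_assoc' hMt (fin2 hR hMi) (fin2 hMt hP), kcomp_assoc' hR hMi (fin2 hMt hP), hR']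
  · show kcomp (PK ξ) (kcomp (mulK Fi) (kcomp (mulK (adjC Fi)) (kcomp (RK ξ Fi) (mulK Fi)))) = _
    rw [← kcomp_assoc' hMt hR hMi, ← kcomp_assoc' hMi (fin2 hMt hR) hMi,
      ← kcomp_assoc' hP (fin2 hMi (fin2 hMt hR)) hMi, hR'']
  · show kcomp (mulK (adjC Fi)) (kcomp (RK ξ Fi) (mulK Fi)) = _
    rw [← kcomp_assoc' hP hR hMi, r1]

end Pool.Agent.Work.MP_b0497c_an.Unf.W

end

section

set_option autoImplicit false

/-!
# S06 (F7b): the exact projector on level `j - 1` (helper81)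
-/

open scoped ENNReal
open Set MeasureTheory

namespace Pool.Agent.Work.MP_b0497c_an.Unf.S

open W T81

theorem s06 (h01 : S01) (h03 : S03) (h16 : W16) : S06 := by
  intro K j F Fi z s f H hf hfin k Fo Fio Pi Pm ψ y sig
  obtain ⟨c0, hc0, hF1, hFi1, hz1, -⟩ := H.fin
  obtain ⟨c1, hc1, hf1⟩ := hfin
  obtain ⟨cf, bf, ef, hfd⟩ := H.fd
  obtain ⟨cg, bg, eg, hfdo⟩ := H.fdo
  have fm : Facts (xi K) Fi := facts h16 (xi K) hfd
  have fo : Facts (xi K) Fio := facts h16 (xi K) hfdo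
  obtain ⟨c2, hc2, hPm2⟩ := fm.Pi_fin
  -- a common radius
  set c : ℝ := min (min c0 c1) c2 with hc
  have hcpos : 0 < c := lt_min (lt_min hc0 hc1) hc2
  have hF : sN c F ≠ ∞ := sN_fin_mono ((min_le_left _ _).trans (min_le_left _ _)) hF1
  have hFi : sN c Fi ≠ ∞ := sN_fin_mono ((min_le_left _ _).trans (min_le_left _ _)) hFi1
  have hz : sN c z ≠ ∞ := sN_fin_mono ((min_le_left _ _).trans (min_le_left _ _)) hz1
  have hfc : sN c f ≠ ∞ := sN_fin_mono ((min_le_left _ _).trans (min_le_right _ _)) hf1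
  have hPm : sK c Pm ≠ ∞ := sK_fin_mono (min_le_right _ _) hPm2
  have hF0 : sN 0 F ≠ ∞ := sN_fin_mono hcpos.le hF
  have hFi0 : sN 0 Fi ≠ ∞ := sN_fin_mono hcpos.le hFi
  have hz0 : sN 0 z ≠ ∞ := sN_fin_mono hcpos.le hz
  have hf0 : sN 0 f ≠ ∞ := sN_fin_mono hcpos.le hfc
  have hPmf : sN c (act Pm f) ≠ ∞ := act_fin hcpos.le hPm hfc
  have hPmf0 : sN 0 (act Pm f) ≠ ∞ := sN_fin_mono hcpos.le hPmf
  have hh0 : sN 0 (f - act Pm f) ≠ ∞ := sN_sub_fin hf0 hPmf0
  have hψ0 : sN 0 ψ ≠ ∞ := mul_fin le_rfl (rwF_fin k hFi0) hh0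
  have hy0 : sN 0 y ≠ ∞ := mul_fin le_rfl (tsF_fin hz0) hψ0
  have hsig : sN c sig ≠ ∞ := mul_fin hcpos.le (adR_fin hz) (mul_fin hcpos.le (adjC_fin hF) hPmf)
  have hsig0 : sN 0 sig ≠ ∞ := sN_fin_mono hcpos.le hsig
  have hFo0 : sN 0 Fo ≠ ∞ := mm_fin le_rfl hF0 (shP_fin k hz0)
  have hFio0 : sN 0 Fio ≠ ∞ := mm_fin le_rfl (shM_fin k hz0) hFi0
  -- supports
  have hj : j - 1 < j := Nat.sub_lt H.j_pos one_pos
  have hPmsupp : ∀ p q, p - q ∉ lev (j - 1) → Pm p q = 0 := fun p q hpq =>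
    ((h16 Md (lev (j - 1)) cf bf ef F Fi (xi K) hfd).2.2.1 p q hpq).2
  have s1 : SuppIn (lev (j - 1) : Set Md) (act Pm f) :=
    (h03 C3 C3 C3).1 Pm (j - 1) (j - 1) f le_rfl hPmsupp hf
  have s2 : SuppIn (lev (j - 1) : Set Md) (f - act Pm f) := by
    intro q hq
    rw [_root_.Pi.sub_apply, hf q hq, s1 q hq, sub_zero]
  have s3 : SuppIn (lev (j - 1) : Set Md) (rwF k Fi) := by
    intro q hq
    unfold rwF
    rw [H.Fi_supp q hq, ContinuousLinearMap.comp_zero]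
  have s4 : SuppIn (lev (j - 1) : Set Md) ψ :=
    (h03 C3 ℂ ℂ).1 _ (j - 1) (j - 1) _ le_rfl
      ((h03 C3 ℂ ℂ).2.2.2.2.1 (j - 1) (rwF k Fi) s3) s2
  have s5 : SuppIn (Cl j) (tsF z) := by
    intro q hq
    unfold tsF ts
    rw [H.z_supp q hq, ContinuousLinearMap.toSpanSingleton_zero]
  have s6 : SuppIn (Cl j) y :=
    ((h03 (ℂ →L[ℂ] C3) ℂ C3).2.2.2.2.2.2 (ContinuousLinearMap.id ℂ (ℂ →L[ℂ] C3))
      (j - 1) j (tsF z) ψ hj).2 s5 s4
  have s7 : SuppIn (Cl j) (adR z) := by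
    intro q hq
    have : -q ∉ Cl j := by
      intro h
      apply hq
      refine ⟨?_, ?_⟩
      · have := (lev j).neg_mem h.1
        rwa [neg_neg] at this
      · intro h0
        apply h.2
        rw [Finsupp.neg_apply, h0, neg_zero]
    unfold adR
    rw [H.z_supp _ this, map_zero]
  have s8 : SuppIn (lev (j - 1) : Set Md) (adjC F) := by
    intro q hq
    have : -q ∉ (lev (j - 1) : Set Md) := by
      intro h
      apply hq
      have := (lev (j - 1)).neg_mem h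
      rwa [neg_neg] at this
    unfold adjC
    rw [H.F_supp _ this, map_zero]
  have s9 : SuppIn (lev (j - 1) : Set Md) (mul (adjC F) (act Pm f)) :=
    (h03 C3 C3 C3).1 _ (j - 1) (j - 1) _ le_rfl
      ((h03 C3 C3 C3).2.2.2.2.1 (j - 1) (adjC F) s8) s1
  have s10 : SuppIn (Cl j) sig :=
    ((h03 (C3 →L[ℂ] ℂ) C3 ℂ).2.2.2.2.2.2 (ContinuousLinearMap.id ℂ (C3 →L[ℂ] ℂ))
      (j - 1) j (adR z) _ hj).2 s7 s9
  refine ⟨?_, s6, s10, ?_⟩
  swap
  · intro q
    have h := (innerSL ℂ k).map_tsum (summable_act' (mulK_fin le_rfl (tsF_fin hz0)) hψ0 q)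
    refine Eq.trans h ?_
    refine Eq.trans (tsum_congr fun l => ?_) tsum_zero
    show inner ℂ k (ψ l • z (q - l)) = 0
    rw [inner_smul_right, H.z_orth, mul_zero]
  -- C1
  have C1 : ∀ v : Md → C3, sN 0 v ≠ ∞ →
      mul Fio v = mul Fi v - mul (tsF z) (mul (rwF k Fi) v) := by
    intro v hv
    have e1 : mul Fio v = mul (shM z k) (mul Fi v) := mul_mm (shM_fin k hz0) hFi0 hv
    rw [e1, mul_shM k hz0 (mul_fin le_rfl hFi0 hv)]
    congr 2
    funext q
    exact inner_mul k hFi0 hv q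
  -- C2
  have C2 : act (PK (xi K)) (mul Fi (f - act Pm f)) = 0 := by
    have e1 : mul Fi (f - act Pm f) = mul Fi f - mul Fi (act Pm f) :=
      act_sub_right fm.M0 hf0 hPmf0
    rw [e1, act_sub_right fm.P0 (mul_fin le_rfl hFi0 hf0) (mul_fin le_rfl hFi0 hPmf0),
      fm.P_Fi_Pi hf0, sub_self]
  -- C3
  have hFy : sN 0 (mul Fi (f - act Pm f)) ≠ ∞ := mul_fin le_rfl hFi0 hh0
  have hPy : sN 0 (act (PK (xi K)) y) ≠ ∞ := act_fin le_rfl fo.P0 hy0
  have C3a : act Pi (f - act Pm f) = - mul (adjC Fio) (act (RK (xi K) Fio) (act (PK (xi K)) y)) := by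
    have e1 : act Pi (f - act Pm f) = _ := fo.act_Pi hh0
    have e2 : mul Fio (f - act Pm f) = mul Fi (f - act Pm f) - y := C1 _ hh0
    rw [e1, e2, ← fo.act_R (sN_sub_fin hFy hy0), act_sub_right fo.P0 hFy hy0, C2, zero_sub,
      act_neg_right]
    unfold mul
    rw [act_neg_right]
  have hFF : ∀ v : Md → C3, sN 0 v ≠ ∞ → mul Fio (mul Fo v) = v := by
    intro v hv
    have e1 := kcomp_act (mulK_fin le_rfl hFio0) (mulK_fin le_rfl hFo0) hv
    have e2 : kcomp (mulK Fio) (mulK Fo) = idK := hfdo.left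
    rw [e2, act_idK] at e1
    exact e1.symm
  have C3b : act Pi (mul Fo (act (PK (xi K)) y)) =
      mul (adjC Fio) (act (RK (xi K) Fio) (act (PK (xi K)) y)) := by
    have e1 : act Pi (mul Fo (act (PK (xi K)) y)) = _ := fo.act_Pi (mul_fin le_rfl hFo0 hPy)
    rw [e1, hFF _ hPy]
  -- C4
  set G0 : Md → C3 := act (RK (xi K) Fi) (mul Fi f) with hG0
  have hFf : sN 0 (mul Fi f) ≠ ∞ := mul_fin le_rfl hFi0 hf0
  have hG00 : sN 0 G0 ≠ ∞ := act_fin le_rfl fm.R0 hFf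
  have hPG : act (PK (xi K)) G0 = G0 := fm.P_act_R hFf
  have hPmE : act Pm f = mul (adjC Fi) G0 := fm.act_Pi hf0
  have hE0 : sN 0 (adjC Fi) ≠ ∞ := adjC_fin hFi0
  have hEo0 : sN 0 (adjC Fio) ≠ ∞ := adjC_fin hFio0
  have hGF : mul (adjC F) (act Pm f) = G0 := by
    rw [hPmE, ← mul_mm (adjC_fin hF0) hE0 hG00, ← adjC_mm, H.left, adjC_oneM, mul_oneM]
  have hsigG : sig = mul (adR z) G0 := by
    show mul (adR z) (mul (adjC F) (act Pm f)) = _
    rw [hGF]
  have hEo : ∀ v : Md → C3, sN 0 v ≠ ∞ →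
      mul (adjC Fio) v = mul (adjC Fi) (v - fun q => (mul (adR z) v q) • k) := by
    intro v hv
    have e1 : adjC Fio = mm (adjC Fi) (adjC (shM z k)) := adjC_mm _ _
    rw [e1, mul_mm hE0 (adjC_fin (shM_fin k hz0)) hv, mul_adjC_shM k hz0 hv]
  have hsc : ∀ {φ : Md → ℂ}, sN 0 φ ≠ ∞ → sN 0 (fun q => φ q • k) ≠ ∞ := by
    intro φ hφ
    refine sN_fin_of_le (f := φ) ‖k‖ₑ enorm_ne_top (fun q => ?_) hφ
    rw [enorm_smul, mul_comm]
  set Ks : Md → C3 := fun q => sig q • k with hKs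
  have hKs0 : sN 0 Ks ≠ ∞ := hsc hsig0
  have hKs1 : mul (adR z) Ks = 0 := by
    funext q
    refine Eq.trans (tsum_congr fun l => ?_) tsum_zero
    show inner ℂ (z (-(q - l))) (sig l • k) = 0
    rw [inner_smul_right, ← inner_conj_symm, H.z_orth, map_zero, mul_zero]
  have C4a : mul (adjC Fio) G0 = mul (adjC Fi) G0 - mul (adjC Fi) Ks := by
    rw [hEo G0 hG00, ← hsigG]
    exact act_sub_right (mulK_fin le_rfl hE0) hG00 hKs0
  have C4b : mul (adjC Fio) Ks = mul (adjC Fi) Ks := by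
    rw [hEo Ks hKs0, hKs1]
    congr 1
    funext q
    simp
  -- C5
  set v : Md → C3 := fun q => (sig q / (q j : ℂ)) • xi K q with hv
  have hPv : act (PK (xi K)) v = v := by
    funext q
    rw [act_PK]
    exact pr_smul_self _ _
  have hv0 : sN 0 v ≠ ∞ := by
    refine sN_fin_len hcpos (f := sig) (∑ i ∈ Finset.range (j + 1), ‖kv (K i)‖)
      (Finset.sum_nonneg fun i _ => norm_nonneg _) (fun q => ?_) hsig
    by_cases hq : q ∈ Cl j
    · have h1 : (1 : ℝ) ≤ ‖(q j : ℂ)‖ := by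
        rw [Complex.norm_intCast]
        exact_mod_cast Int.one_le_abs hq.2
      have h2 : ‖xi K q‖ ≤ (∑ i ∈ Finset.range (j + 1), ‖kv (K i)‖) * len q :=
        (h01 K).2.2.1 q j _ hq.1 fun i hi => Finset.single_le_sum
          (f := fun i => ‖kv (K i)‖) (fun i _ => norm_nonneg _) (Finset.mem_range.2 (by omega))
      show ‖(sig q / (q j : ℂ)) • xi K q‖ ≤ _
      rw [norm_smul, norm_div, mul_comm]
      refine mul_le_mul h2 (div_le_self (norm_nonneg _) h1) (by positivity) ?_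
      exact (norm_nonneg _).trans h2
    · have h1 : v q = 0 := by
        show (sig q / (q j : ℂ)) • xi K q = 0
        rw [s10 q hq, zero_div, zero_smul]
      rw [h1, norm_zero, s10 q hq, norm_zero, mul_zero]
  have hKg : Ks = v - gdp K j sig := by
    funext q
    show sig q • k = (sig q / (q j : ℂ)) • xi K q - (sig q / (q j : ℂ)) • xi' K j q
    by_cases hq : q ∈ Cl j
    · have h1 : (q j : ℂ) ≠ 0 := by exact_mod_cast hq.2
      unfold xi'
      rw [smul_sub, sub_sub_cancel, smul_smul, div_mul_cancel₀ _ h1]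
    · rw [s10 q hq]
      simp
  have hg0 : sN 0 (gdp K j sig) ≠ ∞ := by
    have : gdp K j sig = v - Ks := by rw [hKg]; abel
    rw [this]
    exact sN_sub_fin hv0 hKs0
  have C5a : act Pi (mul (adjC Fio) G0) = mul (adjC Fio) G0 := by
    have := fo.Pi_E_P hG00
    rwa [hPG] at this
  have C5b : act Pi (mul (adjC Fio) v) = mul (adjC Fio) v := by
    have := fo.Pi_E_P hv0
    rwa [hPv] at this
  have C5c : mul (adjC Fio) Ks = mul (adjC Fio) v - mul (adjC Fio) (gdp K j sig) := by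
    rw [hKg]
    exact act_sub_right (mulK_fin le_rfl hEo0) hv0 hg0
  -- assembly
  have hX : sN 0 (mul (adjC Fio) G0) ≠ ∞ := mul_fin le_rfl hEo0 hG00
  have hY : sN 0 (mul (adjC Fio) v) ≠ ∞ := mul_fin le_rfl hEo0 hv0
  have hZ : sN 0 (mul (adjC Fio) (gdp K j sig)) ≠ ∞ := mul_fin le_rfl hEo0 hg0
  have D1 : act Pm f = mul (adjC Fio) G0 + mul (adjC Fio) v - mul (adjC Fio) (gdp K j sig) := by
    rw [add_sub_assoc, ← C5c, C4b, C4a, hPmE, sub_add_cancel]
  have D2 : act Pi (act Pm f) = mul (adjC Fio) G0 + mul (adjC Fio) v -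
      act Pi (mul (adjC Fio) (gdp K j sig)) := by
    rw [D1, act_sub_right fo.Pi0 (sN_add_fin hX hY) hZ, act_add_right fo.Pi0 hX hY, C5a, C5b]
  have D3 : act Pi f = act Pi (f - act Pm f) + act Pi (act Pm f) := by
    rw [← act_add_right fo.Pi0 hh0 hPmf0, sub_add_cancel]
  have D4 : act (idK - Pi) (mul (adjC Fio) (gdp K j sig)) =
      mul (adjC Fio) (gdp K j sig) - act Pi (mul (adjC Fio) (gdp K j sig)) :=
    act_id_sub fo.Pi0 hZ
  rw [D3, D2, D4, C3a, C3b]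
  nth_rewrite 1 [D1]
  abel

end Pool.Agent.Work.MP_b0497c_an.Unf.S

end

section

set_option autoImplicit false

/-!
# S14 (L3): exact generator of level `n` on the new class (helper57)
-/

open scoped ENNReal
open Set MeasureTheory

namespace Pool.Agent.Work.MP_b0497c_an.Unf.S

open W G57

theorem s14 (h16 : W16) (h10 : S10) (h15 : S15) : S14 := by
  intro D hD σ f hσ hf hfs hfN e
  have hp := par hD
  have hmn := hD.hmn
  have hG0 : (0 : ℝ) ≤ D.G := by linarith [hD.G_two]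
  have hu := hD.u_pos (D.n + 1)
  set g : ℝ → Md → C3 := fun t => mul (D.M D.n t) (f t) with hg
  have hM := hD.F_le D.n hmn le_rfl
  have hMc := hD.F_cm D.n hmn le_rfl
  have hMs := hD.F_supp D.n hmn le_rfl
  have hgc : CM D.T g := CM_mul hp hσ (wt1 _) hMc.2.2 hf (M_fin hD hmn le_rfl) hfN
  have hgs : SuppT D.T (Cl (D.n + 1)) g := fun t ht =>
    supp_mul_Cl (Nat.lt_succ_self _) (hMs.2.2 t ht) (hfs t ht)
  have hgN : Nrm D.T D.c D.γ σ g ≤ ENNReal.ofReal D.G * Nrm D.T D.c D.γ σ f :=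
    (Nrm_mul_le1 hp hσ _ _).trans (by gcongr; exact hM.2.2)
  have hgN' : Nrm D.T D.c D.γ σ g ≠ ∞ :=
    ne_top_of_le_ne_top (ENNReal.mul_ne_top ENNReal.ofReal_ne_top hfN) hgN
  obtain ⟨hc10, hs10⟩ := h10 D hD σ g hσ hgc hgs hgN'
  obtain ⟨-, -, hpN, -, -, -, hpc, -, hps, -⟩ := h15 D hD (D.n + 1) (by omega) le_rfl
  have hpfin : ∀ t ∈ Icc 0 D.T, sN 0 (D.p (D.n + 1) t) ≠ ∞ := fun t ht =>
    sN_ne_top (par0 hD) (wt1 _) (ne_top_of_le_ne_top ENNReal.ofReal_ne_top hpN) ht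
  have key : ∀ t ∈ Icc 0 D.T, (2 : ℂ) • (act (D.Pl D.n t) (g t) - mul (D.p (D.n + 1) t) (g t)) =
      e t := by
    intro t ht
    have hft : sN 0 (f t) ≠ ∞ := sN_ne_top hp hσ hfN ht
    have h1 : act (D.gen D.n t) (f t) = -(g t - (2 : ℂ) • act (D.Pl D.n t) (g t)) :=
      act_genP (Pl_sfin hD hmn le_rfl ht) (M_sfin hD hmn le_rfl ht) hft
    have h2 : mul (D.gK (D.n + 1) t) (f t) = -(g t - (2 : ℂ) • mul (D.p (D.n + 1) t) (g t)) :=
      mul_genK (hpfin t ht) (M_sfin hD hmn le_rfl ht) hft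
    show _ = act (D.gen D.n t) (f t) - mul (D.gK (D.n + 1) t) (f t)
    rw [h1, h2]
    module
  have hcm : CM D.T (fun t => (2 : ℂ) •
      (act (D.Pl D.n t) (g t) - mul (D.p (D.n + 1) t) (g t))) := CM_smul 2 hc10
  refine ⟨CM_congr key hcm, SuppT_congr key ?_, ?_⟩
  · intro t ht
    refine supp_smul _ (supp_sub ?_ ?_)
    · exact (s03 C3 C3 C3).2.1 _ D.n (D.n + 1) (g t) (Nat.lt_succ_self _)
        (Pl_supp h16 hD hmn le_rfl ht) (hgs t ht)
    · exact supp_mul_Cl (Nat.lt_succ_self _) (hps t ht) (hgs t ht)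
  · rw [← Src_congr key, Src_smul hp hσ, two_enorm]
    calc ENNReal.ofReal 2 * Src D.T D.c D.γ σ
          (fun t => act (D.Pl D.n t) (g t) - mul (D.p (D.n + 1) t) (g t))
        ≤ ENNReal.ofReal 2 * (ENNReal.ofReal (D.G ^ 13 * D.u (D.n + 1) ^ 512) *
          (ENNReal.ofReal D.G * Nrm D.T D.c D.γ σ f)) := by
          gcongr
          exact hs10.trans (by gcongr)
      _ = ENNReal.ofReal (2 * (D.G ^ 13 * D.u (D.n + 1) ^ 512) * D.G) *
          Nrm D.T D.c D.γ σ f := ofReal3 (by norm_num) (by positivity) _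
      _ ≤ _ := by
          obtain ⟨h1, h2, -, -, -⟩ := G_pow hD
          gcongr ENNReal.ofReal ?_ * _
          calc 2 * (D.G ^ 13 * D.u (D.n + 1) ^ 512) * D.G
              = (2 * D.G ^ 14) * D.u (D.n + 1) ^ 512 := by ring
            _ ≤ D.G ^ 18 * D.u (D.n + 1) ^ 512 := by
                gcongr
                exact h2.trans (pow_le_pow_right₀ h1 (by norm_num))

end Pool.Agent.Work.MP_b0497c_an.Unf.S

end

section

set_option autoImplicit false

/-!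
# S31: crude bound of the time derivative of the new wave (helper63)
-/

open scoped ENNReal
open Set MeasureTheory

namespace Pool.Agent.Work.MP_b0497c_an.Unf.S

open W G57

namespace I31

section gen

variable {E F : Type} [NormedAddCommGroup E] [NormedSpace ℂ E] [NormedAddCommGroup F]
  [NormedSpace ℂ F]

omit [NormedSpace ℂ E] in
theorem Nrm_mono_c {T c c' γ : ℝ} {ρ : ℝ → ℝ} (hρ : Wt T ρ) (h : c' ≤ c) (f : ℝ → Md → E) :
    Nrm T c' γ ρ f ≤ Nrm T c γ ρ f := by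
  unfold Nrm
  refine ENNReal.tsum_le_tsum fun m => iSup₂_mono fun t ht => ?_
  have := hρ.pos t ht
  have h1 : Real.exp ((c' - γ * t) * len m) ≤ Real.exp ((c - γ * t) * len m) := by
    apply Real.exp_le_exp.2
    have h2 := len_nonneg m
    nlinarith
  gcongr

omit [NormedSpace ℂ E] [NormedSpace ℂ F] in
/-- One factor `len m` costs a little bit of the radius. -/
theorem Nrm_len {T c γ d : ℝ} {ρ : ℝ → ℝ} (hρ : Wt T ρ) (hd : 0 < d) (f : ℝ → Md → E)
    (h : ℝ → Md → F) (hh : ∀ t ∈ Icc 0 T, ∀ m, ‖h t m‖ ≤ len m * ‖f t m‖) :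
    Nrm T (c - d) γ ρ h ≤ ENNReal.ofReal (1 / d) * Nrm T c γ ρ f := by
  unfold Nrm
  rw [← ENNReal.tsum_mul_left]
  refine ENNReal.tsum_le_tsum fun m => ?_
  rw [← W05aux.iSup_mul]
  refine iSup₂_mono fun t ht => ?_
  have hr := hρ.pos t ht
  have hL := len_nonneg m
  have h1 : ‖h t m‖ₑ ≤ ENNReal.ofReal (len m) * ‖f t m‖ₑ := by
    rw [← ofReal_norm, ← ofReal_norm, ← ENNReal.ofReal_mul hL]
    exact ENNReal.ofReal_le_ofReal (hh t ht m)
  have h2 : Real.exp ((c - d - γ * t) * len m) / ρ t * len m ≤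
      1 / d * (Real.exp ((c - γ * t) * len m) / ρ t) := by
    have e : Real.exp ((c - γ * t) * len m) =
        Real.exp ((c - d - γ * t) * len m) * Real.exp (d * len m) := by
      rw [← Real.exp_add]
      congr 1
      ring
    have h3 : d * len m ≤ Real.exp (d * len m) := by
      have := Real.add_one_le_exp (d * len m)
      linarith
    rw [e]
    have h4 : len m ≤ 1 / d * Real.exp (d * len m) := by
      rw [one_div_mul_eq_div, le_div_iff₀ hd]
      linarith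
    calc Real.exp ((c - d - γ * t) * len m) / ρ t * len m
        ≤ Real.exp ((c - d - γ * t) * len m) / ρ t * (1 / d * Real.exp (d * len m)) := by
          gcongr
      _ = _ := by ring
  calc ENNReal.ofReal (Real.exp ((c - d - γ * t) * len m) / ρ t) * ‖h t m‖ₑ
      ≤ ENNReal.ofReal (Real.exp ((c - d - γ * t) * len m) / ρ t) *
        (ENNReal.ofReal (len m) * ‖f t m‖ₑ) := by gcongr
    _ = ENNReal.ofReal (Real.exp ((c - d - γ * t) * len m) / ρ t * len m) * ‖f t m‖ₑ := by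
        rw [ENNReal.ofReal_mul (by positivity), mul_assoc]
    _ ≤ ENNReal.ofReal (1 / d * (Real.exp ((c - γ * t) * len m) / ρ t)) * ‖f t m‖ₑ := by
        gcongr
    _ = _ := by
        rw [ENNReal.ofReal_mul (by positivity), mul_assoc]

theorem Nrm_sub {T c γ : ℝ} {ρ : ℝ → ℝ} (hp : Par T c γ) (hρ : Wt T ρ)
    (f g : ℝ → Md → E) :
    Nrm T c γ ρ (fun t => f t - g t) ≤ Nrm T c γ ρ f + Nrm T c γ ρ g := by
  have h1 : (fun t => f t - g t) = fun t => f t + (-1 : ℂ) • g t := by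
    funext t
    rw [neg_smul, one_smul, sub_eq_add_neg]
  have h2 : ‖(-1 : ℂ)‖ₑ = 1 := by
    rw [← ofReal_norm]; norm_num
  rw [h1]
  refine (Nrm_add hp hρ _ _).trans ?_
  rw [Nrm_smul hp hρ, h2, one_mul]

end gen

theorem enorm_bil_le {E F G : Type} [NormedAddCommGroup E] [NormedSpace ℂ E]
    [NormedAddCommGroup F] [NormedSpace ℂ F] [NormedAddCommGroup G] [NormedSpace ℂ G]
    (β : E →L[ℂ] F →L[ℂ] G) {C : ℝ} (hC : 0 ≤ C) (h : ∀ x y, ‖β x y‖ ≤ C * ‖x‖ * ‖y‖) :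
    ‖β‖ₑ ≤ ENNReal.ofReal C := by
  rw [← ofReal_norm]
  exact ENNReal.ofReal_le_ofReal (ContinuousLinearMap.opNorm_le_bound₂ β hC h)

theorem norm_bdot_le (v x : C3) : ‖bdot v x‖ ≤ 3 * ‖v‖ * ‖x‖ := by
  have h1 : bdot v x = ∑ i : Fin 3, v i * x i := by
    unfold bdot
    simp only [sum_apply, ContinuousLinearMap.smulRight_apply, smul_apply, smul_eq_mul]
    rfl
  rw [h1]
  refine (norm_sum_le _ _).trans ?_
  have h2 : ∀ i ∈ (Finset.univ : Finset (Fin 3)), ‖v i * x i‖ ≤ ‖v‖ * ‖x‖ := by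
    intro i _
    rw [norm_mul]
    exact mul_le_mul (PiLp.norm_apply_le v i) (PiLp.norm_apply_le x i) (norm_nonneg _)
      (norm_nonneg _)
  refine (Finset.sum_le_sum h2).trans ?_
  rw [Finset.sum_const, Finset.card_univ, Fintype.card_fin, nsmul_eq_mul]
  push_cast
  linarith

theorem outerB_apply (w v x : C3) : outerB w v x = bdot v x • w := rfl

theorem norm_outerB_le (w v : C3) : ‖outerB w v‖ ≤ 3 * ‖w‖ * ‖v‖ := by
  refine ContinuousLinearMap.opNorm_le_bound _ (by positivity) fun x => ?_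
  rw [outerB_apply, norm_smul]
  calc ‖bdot v x‖ * ‖w‖ ≤ (3 * ‖v‖ * ‖x‖) * ‖w‖ := by
        gcongr
        exact norm_bdot_le v x
    _ = 3 * ‖w‖ * ‖v‖ * ‖x‖ := by ring

end I31

open I31 in
theorem s31 : S31 := by
  intro D w hD hw hws hwN
  have hmn := hD.hmn
  have hT := hD.T_pos
  have hc := hD.c_pos
  have hG2 := hD.G_two
  have hG1 : (1 : ℝ) ≤ D.G := by linarith
  have hG0 : (0 : ℝ) ≤ D.G := by linarith
  have hp := par hD
  have hγT : D.γ * D.T = D.c / 2 := by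
    rw [hD.γ_eq]
    field_simp
  have hp' : Par D.T (3 * D.c / 4) D.γ := ⟨hT, hp.γ_nonneg, by rw [hγT]; linarith⟩
  have hA : Wt D.T (D.α (D.n + 1)) := hD.α_wt (D.n + 1) (by omega) le_rfl
  have hN1 : 1 ≤ D.N (D.n + 1) := hD.N_pos _ le_rfl
  have hN0 : 0 < D.N (D.n + 1) := by linarith
  have hNe : ‖(D.N (D.n + 1) : ℂ)‖ₑ = ENNReal.ofReal (D.N (D.n + 1)) := by
    rw [← ofReal_norm, Complex.norm_real, Real.norm_of_nonneg hN0.le]
  -- the data of level `n`
  have hM := (hD.F_le D.n hmn le_rfl).2.2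
  have hFi := (hD.F_le D.n hmn le_rfl).2.1
  have hMc := (hD.F_cm D.n hmn le_rfl).2.2
  have hFic := (hD.F_cm D.n hmn le_rfl).2.1
  have hFis := (hD.F_supp D.n hmn le_rfl).2.1
  have hFifin : Nrm D.T D.c 0 Dat.one' (D.Fi D.n) ≠ ∞ :=
    ne_top_of_le_ne_top ENNReal.ofReal_ne_top hFi
  have hP := hD.P_le D.n hmn le_rfl
  have hP' : KN D.T (3 * D.c / 4) (D.Pl D.n) ≤ ENNReal.ofReal D.G :=
    ((pr_W09 Md C3 C3 C3 D.T D.c hc.le).2.2.2.2.2.1 (3 * D.c / 4) (by linarith) _).trans hP.1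
  have hP'fin : KN D.T (3 * D.c / 4) (D.Pl D.n) ≠ ∞ :=
    ne_top_of_le_ne_top ENNReal.ofReal_ne_top hP'
  -- the norm of `w`
  have hwfin : Nrm D.T D.c D.γ (D.α (D.n + 1)) w ≠ ∞ := by
    have h1 : Nrm D.T D.c D.γ (D.α (D.n + 1)) w ≤
        Nrm D.T D.c D.γ (D.α (D.n + 1)) (fun t => (D.N (D.n + 1) : ℂ) • w t) := by
      rw [Nrm_smul hp hA, hNe]
      refine le_mul_of_one_le_left zero_le ?_
      rw [← ENNReal.ofReal_one]
      exact ENNReal.ofReal_le_ofReal hN1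
    exact ne_top_of_le_ne_top ENNReal.ofReal_ne_top (h1.trans hwN)
  set f : ℝ → Md → C3 := fun t => (D.N (D.n + 1) : ℂ) • w t with hf
  have hffin : Nrm D.T D.c D.γ (D.α (D.n + 1)) f ≠ ∞ :=
    ne_top_of_le_ne_top ENNReal.ofReal_ne_top hwN
  have hfc : CM D.T f := CM_smul _ hw
  -- the nonlinearity
  set v : ℝ → Md → C3 := fun t => mul (D.Fi D.n t) (w t) with hv
  have hvc : CM D.T v := CM_mul hp hA (wt1 _) hFic hw hFifin hwfin
  have hvN : Nrm D.T D.c D.γ (D.α (D.n + 1)) v ≤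
      ENNReal.ofReal D.G * Nrm D.T D.c D.γ (D.α (D.n + 1)) w :=
    (Nrm_mul_le1 hp hA _ _).trans (by gcongr)
  have hvfin : Nrm D.T D.c D.γ (D.α (D.n + 1)) v ≠ ∞ :=
    ne_top_of_le_ne_top (ENNReal.mul_ne_top ENNReal.ofReal_ne_top hwfin) hvN
  have hvs : SuppT D.T (lev (D.n + 1) : Set Md) v := fun t ht =>
    supp_mul_lev (Nat.le_succ _) (hFis t ht) (hws t ht)
  set B : ℝ → Md → Mat := fun t => conv outerB (w t) (v t) with hB
  have hBc : CM D.T B := (pr_W12 Md C3 C3 Mat D.T D.c D.γ _ _ hp hA hA).2.2 outerB w v hw hvc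
    hwfin hvfin
  have hBs : SuppT D.T (lev (D.n + 1) : Set Md) B := fun t ht =>
    (s03 C3 C3 Mat).2.2.2.2.2.1 outerB (D.n + 1) (w t) (v t) (hws t ht) (hvs t ht)
  set NL : ℝ → Md → C3 := fun t q => Complex.I • (B t q) (xi D.K q) with hNL
  have hNLc : CM D.T NL := fun q =>
    (((hBc q).clm_apply continuousOn_const).const_smul Complex.I)
  -- the norm of `B`
  have hB2 : Nrm D.T D.c D.γ (fun t => D.α (D.n + 1) t * D.α (D.n + 1) t) B ≤
      ENNReal.ofReal 3 * Nrm D.T D.c D.γ (D.α (D.n + 1)) w *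
        (ENNReal.ofReal D.G * Nrm D.T D.c D.γ (D.α (D.n + 1)) w) := by
    refine (pr_W02 Md C3 C3 Mat D.T D.c D.γ _ _ outerB w v hp hA hA).trans ?_
    exact mul_le_mul' (mul_le_mul' (enorm_bil_le outerB (by norm_num) norm_outerB_le) le_rfl) hvN
  have hB3 : Nrm D.T D.c D.γ (D.α (D.n + 1)) B ≤
      ENNReal.ofReal D.G * Nrm D.T D.c D.γ (fun t => D.α (D.n + 1) t * D.α (D.n + 1) t) B := by
    refine ((pr_W05 Md Mat D.T D.c D.γ (fun t => D.α (D.n + 1) t * D.α (D.n + 1) t)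
      (D.α (D.n + 1)) B B hp (wtmul hA hA) hA).2.1 D.G hG0 fun t ht => ?_).1
    exact mul_le_mul_of_nonneg_right (hD.α_le (D.n + 1) (by omega) le_rfl t ht)
      (hA.pos t ht).le
  -- the wave vectors
  have hNmono : ∀ i, i ≤ D.n + 1 → ‖kv (D.K i)‖ ≤ D.N (D.n + 1) := by
    have h1 : ∀ k, k ≤ D.n + 1 → ∀ i, i ≤ k → D.N i ≤ D.N k := by
      intro k
      induction k with
      | zero =>
        intro _ i hi
        have : i = 0 := by omega
        rw [this]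
      | succ k ih =>
        intro hk i hi
        rcases Nat.lt_or_ge i (k + 1) with h | h
        · have h2 := ih (by omega) i (by omega)
          have h3 := hD.N_sep k (by omega)
          have h4 := hD.N_pos k (by omega)
          linarith
        · have : i = k + 1 := by omega
          rw [this]
    intro i hi
    exact h1 (D.n + 1) le_rfl i hi
  have hxi : ∀ q : Md, q ∈ lev (D.n + 1) → ‖xi D.K q‖ ≤ D.N (D.n + 1) * len q := fun q hq =>
    (s01 D.K).2.2.1 q (D.n + 1) _ hq hNmono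
  have hNLle : ∀ t ∈ Icc 0 D.T, ∀ q, ‖NL t q‖ ≤
      len q * ‖((D.N (D.n + 1) : ℂ) • B t) q‖ := by
    intro t ht q
    by_cases hq : q ∈ lev (D.n + 1)
    · have h1 : ‖NL t q‖ = ‖(B t q) (xi D.K q)‖ := by
        rw [hNL]
        simp only [norm_smul, Complex.norm_I, one_mul]
      have h2 : ‖((D.N (D.n + 1) : ℂ) • B t) q‖ = D.N (D.n + 1) * ‖B t q‖ := by
        rw [Pi.smul_apply, norm_smul, Complex.norm_real, Real.norm_of_nonneg hN0.le]
      rw [h1, h2]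
      calc ‖(B t q) (xi D.K q)‖ ≤ ‖B t q‖ * ‖xi D.K q‖ := (B t q).le_opNorm _
        _ ≤ ‖B t q‖ * (D.N (D.n + 1) * len q) := by
            gcongr
            exact hxi q hq
        _ = _ := by ring
    · have h1 : B t q = 0 := hBs t ht q hq
      have h2 : NL t q = 0 := by
        rw [hNL]
        simp only [h1]
        simp
      rw [h2, norm_zero]
      exact mul_nonneg (len_nonneg q) (norm_nonneg _)
  have hd : 0 < D.c / 4 := by positivity
  have hcd : D.c - D.c / 4 = 3 * D.c / 4 := by ring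
  have hdG : 1 / (D.c / 4) ≤ 2 * D.G := by
    rw [one_div_div, div_le_iff₀ hc]
    have := hD.c_G
    nlinarith
  have hNLN : Nrm D.T (3 * D.c / 4) D.γ (D.α (D.n + 1)) NL ≤
      ENNReal.ofReal (2 * D.G) * (ENNReal.ofReal (D.N (D.n + 1)) *
        Nrm D.T D.c D.γ (D.α (D.n + 1)) B) := by
    have h1 := Nrm_len (T := D.T) (c := D.c) (γ := D.γ) hA hd
      (fun t => (D.N (D.n + 1) : ℂ) • B t) NL hNLle
    rw [hcd, Nrm_smul hp hA, hNe] at h1
    refine h1.trans ?_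
    gcongr
  -- the total norm of the nonlinearity
  have hwN' : ENNReal.ofReal (D.N (D.n + 1)) * Nrm D.T D.c D.γ (D.α (D.n + 1)) w ≤
      ENNReal.ofReal (D.G ^ 4) := by
    rw [← hNe, ← Nrm_smul hp hA]
    exact hwN
  have hBfin : Nrm D.T D.c D.γ (D.α (D.n + 1)) B ≠ ∞ := by
    refine ne_top_of_le_ne_top ?_ (hB3.trans (mul_le_mul' le_rfl hB2))
    exact ENNReal.mul_ne_top ENNReal.ofReal_ne_top (ENNReal.mul_ne_top
      (ENNReal.mul_ne_top ENNReal.ofReal_ne_top hwfin)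
      (ENNReal.mul_ne_top ENNReal.ofReal_ne_top hwfin))
  have hNLfin : Nrm D.T (3 * D.c / 4) D.γ (D.α (D.n + 1)) NL ≠ ∞ :=
    ne_top_of_le_ne_top (ENNReal.mul_ne_top ENNReal.ofReal_ne_top
      (ENNReal.mul_ne_top ENNReal.ofReal_ne_top hBfin)) hNLN
  have hY : ENNReal.ofReal (D.N (D.n + 1)) * Nrm D.T (3 * D.c / 4) D.γ (D.α (D.n + 1)) NL ≤
      ENNReal.ofReal (6 * D.G ^ 11) := by
    set N := ENNReal.ofReal (D.N (D.n + 1))
    set W := Nrm D.T D.c D.γ (D.α (D.n + 1)) w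
    calc N * Nrm D.T (3 * D.c / 4) D.γ (D.α (D.n + 1)) NL
        ≤ N * (ENNReal.ofReal (2 * D.G) * (N * (ENNReal.ofReal D.G *
          (ENNReal.ofReal 3 * W * (ENNReal.ofReal D.G * W))))) := by
          refine mul_le_mul' le_rfl (hNLN.trans (mul_le_mul' le_rfl (mul_le_mul' le_rfl
            (hB3.trans (mul_le_mul' le_rfl hB2)))))
      _ = ENNReal.ofReal (2 * D.G) * (ENNReal.ofReal D.G * (ENNReal.ofReal 3 *
            ENNReal.ofReal D.G)) * ((N * W) * (N * W)) := by ring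
      _ ≤ ENNReal.ofReal (2 * D.G) * (ENNReal.ofReal D.G * (ENNReal.ofReal 3 *
            ENNReal.ofReal D.G)) * (ENNReal.ofReal (D.G ^ 4) * ENNReal.ofReal (D.G ^ 4)) := by
          gcongr
      _ = ENNReal.ofReal (6 * D.G ^ 11) := by
          rw [← ENNReal.ofReal_mul (by norm_num), ← ENNReal.ofReal_mul hG0,
            ← ENNReal.ofReal_mul (by positivity), ← ENNReal.ofReal_mul (by positivity),
            ← ENNReal.ofReal_mul (by positivity)]
          congr 1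
          ring
  -- formulas
  have hwsf : ∀ t ∈ Icc 0 D.T, sN 0 (w t) ≠ ∞ := fun t ht => sN_ne_top hp hA hwfin ht
  have hNLsf : ∀ t ∈ Icc 0 D.T, sN 0 (NL t) ≠ ∞ := fun t ht => sN_ne_top hp' hA hNLfin ht
  have hPsf : ∀ t ∈ Icc 0 D.T, sK 0 (D.Pl D.n t) ≠ ∞ := fun t ht => Pl_sfin hD hmn le_rfl ht
  have hMsf : ∀ t ∈ Icc 0 D.T, sN 0 (D.M D.n t) ≠ ∞ := fun t ht => M_sfin hD hmn le_rfl ht
  set g : ℝ → Md → C3 := fun t => mul (D.M D.n t) (w t) with hg
  have hgc : CM D.T g := CM_mul hp hA (wt1 _) hMc hw (M_fin hD hmn le_rfl) hwfin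
  have hgN : Nrm D.T D.c D.γ (D.α (D.n + 1)) g ≤
      ENNReal.ofReal D.G * Nrm D.T D.c D.γ (D.α (D.n + 1)) w :=
    (Nrm_mul_le1 hp hA _ _).trans (by gcongr)
  have hgN' : Nrm D.T (3 * D.c / 4) D.γ (D.α (D.n + 1)) g ≤
      ENNReal.ofReal D.G * Nrm D.T D.c D.γ (D.α (D.n + 1)) w :=
    (Nrm_mono_c hA (by linarith) g).trans hgN
  have hgfin : Nrm D.T D.c D.γ (D.α (D.n + 1)) g ≠ ∞ :=
    ne_top_of_le_ne_top (ENNReal.mul_ne_top ENNReal.ofReal_ne_top hwfin) hgN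
  have key : ∀ t ∈ Icc 0 D.T, ((2 : ℂ) • act (D.Pl D.n t) (g t) - g t) -
      (NL t - act (D.Pl D.n t) (NL t)) = RHS D w t := by
    intro t ht
    have h1 : act (D.gen D.n t) (w t) = -(g t - (2 : ℂ) • act (D.Pl D.n t) (g t)) :=
      act_genP (hPsf t ht) (hMsf t ht) (hwsf t ht)
    have h2 : act (idK - D.Pl D.n t) (NL t) = NL t - act (D.Pl D.n t) (NL t) := by
      rw [G57.act_sub sK_idK (hPsf t ht) (hNLsf t ht), G57.act_idK]
    show _ = act (D.gen D.n t) (w t) - act (idK - D.Pl D.n t) (NL t)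
    rw [h1, h2]
    abel
  have hc1 : CM D.T (fun t => act (D.Pl D.n t) (g t)) :=
    CM_act hp hA hP.2 hgc (Pl_fin hD hmn le_rfl) hgfin
  have hc2 : CM D.T (fun t => act (D.Pl D.n t) (NL t)) :=
    CM_act hp' hA hP.2 hNLc hP'fin hNLfin
  refine ⟨CM_congr key (CM_sub (CM_sub (CM_smul 2 hc1) hgc) (CM_sub hNLc hc2)), ?_⟩
  have hR : Nrm D.T (3 * D.c / 4) D.γ (D.α (D.n + 1)) (RHS D w) ≤
      (ENNReal.ofReal (2 * D.G + 1) * (ENNReal.ofReal D.G *
        Nrm D.T D.c D.γ (D.α (D.n + 1)) w)) +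
      ENNReal.ofReal (1 + D.G) * Nrm D.T (3 * D.c / 4) D.γ (D.α (D.n + 1)) NL := by
    rw [← Nrm_congr key]
    refine (Nrm_sub hp' hA _ _).trans ?_
    refine add_le_add ?_ ?_
    · refine (Nrm_sub hp' hA _ _).trans ?_
      rw [Nrm_smul hp' hA, two_enorm]
      have h1 := pr_W01 Md C3 C3 D.T (3 * D.c / 4) D.γ (D.α (D.n + 1)) (D.Pl D.n) g hp' hA
      calc _ ≤ ENNReal.ofReal 2 * (ENNReal.ofReal D.G * (ENNReal.ofReal D.G *
            Nrm D.T D.c D.γ (D.α (D.n + 1)) w)) + ENNReal.ofReal D.G *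
            Nrm D.T D.c D.γ (D.α (D.n + 1)) w := by
            refine add_le_add (mul_le_mul' le_rfl (h1.trans (mul_le_mul' hP' hgN'))) hgN'
        _ = _ := by
            rw [ENNReal.ofReal_add (by positivity) zero_le_one, ENNReal.ofReal_one,
              ENNReal.ofReal_mul (by norm_num)]
            ring
    · refine (Nrm_sub hp' hA _ _).trans ?_
      have h1 := pr_W01 Md C3 C3 D.T (3 * D.c / 4) D.γ (D.α (D.n + 1)) (D.Pl D.n) NL hp' hA
      rw [ENNReal.ofReal_add zero_le_one hG0, ENNReal.ofReal_one, add_mul, one_mul]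
      exact add_le_add le_rfl (h1.trans (mul_le_mul' hP' le_rfl))
  have hfin : Nrm D.T (3 * D.c / 4) D.γ (D.α (D.n + 1))
      (fun t => (D.N (D.n + 1) : ℂ) • RHS D w t) =
      ENNReal.ofReal (D.N (D.n + 1)) * Nrm D.T (3 * D.c / 4) D.γ (D.α (D.n + 1)) (RHS D w) := by
    rw [Nrm_smul hp' hA, hNe]
  rw [hfin]
  set N := ENNReal.ofReal (D.N (D.n + 1))
  set W := Nrm D.T D.c D.γ (D.α (D.n + 1)) w
  calc N * Nrm D.T (3 * D.c / 4) D.γ (D.α (D.n + 1)) (RHS D w)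
      ≤ N * ((ENNReal.ofReal (2 * D.G + 1) * (ENNReal.ofReal D.G * W)) +
        ENNReal.ofReal (1 + D.G) * Nrm D.T (3 * D.c / 4) D.γ (D.α (D.n + 1)) NL) := by
        exact mul_le_mul' le_rfl hR
    _ = ENNReal.ofReal (2 * D.G + 1) * (ENNReal.ofReal D.G * (N * W)) +
        ENNReal.ofReal (1 + D.G) *
          (N * Nrm D.T (3 * D.c / 4) D.γ (D.α (D.n + 1)) NL) := by ring
    _ ≤ ENNReal.ofReal (2 * D.G + 1) * (ENNReal.ofReal D.G * ENNReal.ofReal (D.G ^ 4)) +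
        ENNReal.ofReal (1 + D.G) * ENNReal.ofReal (6 * D.G ^ 11) := by
        gcongr
    _ = ENNReal.ofReal ((2 * D.G + 1) * (D.G * D.G ^ 4) + (1 + D.G) * (6 * D.G ^ 11)) := by
        rw [← ENNReal.ofReal_mul hG0, ← ENNReal.ofReal_mul (by positivity),
          ← ENNReal.ofReal_mul (by positivity), ← ENNReal.ofReal_add (by positivity)
          (by positivity)]
    _ ≤ ENNReal.ofReal (D.G ^ 18) := by
        refine ENNReal.ofReal_le_ofReal ?_
        have e1 : (2 * D.G + 1) * (D.G * D.G ^ 4) ≤ D.G ^ 17 := by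
          calc (2 * D.G + 1) * (D.G * D.G ^ 4) ≤ D.G ^ 3 * (D.G * D.G ^ 4) := by
                gcongr
                have := (G_pow hD).2.2.2.1
                linarith
            _ = D.G ^ 8 := by ring
            _ ≤ D.G ^ 17 := pow_le_pow_right₀ hG1 (by norm_num)
        have e2 : (1 + D.G) * (6 * D.G ^ 11) ≤ D.G ^ 17 := by
          have h1 : 1 + D.G ≤ D.G ^ 2 := by nlinarith
          have h2 : (6 : ℝ) ≤ D.G ^ 4 := by
            calc (6 : ℝ) ≤ 2 ^ 4 := by norm_num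
              _ ≤ D.G ^ 4 := by gcongr
          calc (1 + D.G) * (6 * D.G ^ 11) ≤ D.G ^ 2 * (D.G ^ 4 * D.G ^ 11) := by gcongr
            _ = D.G ^ 17 := by ring
        calc _ ≤ D.G ^ 17 + D.G ^ 17 := add_le_add e1 e2
          _ = 2 * D.G ^ 17 := by ring
          _ ≤ D.G * D.G ^ 17 := by gcongr
          _ = D.G ^ 18 := by ring

end Pool.Agent.Work.MP_b0497c_an.Unf.S

end

section

set_option autoImplicit false

/-!
# S12 (L1): exact generators of levels `l` and `l - 1` on level `l - 1` (helper57)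
-/

open scoped ENNReal
open Set MeasureTheory

namespace Pool.Agent.Work.MP_b0497c_an.Unf.S

open W G57

theorem s12 (h16 : W16) (h8 : S08) (h9 : S09) (h15 : S15) : S12 := by
  intro D hD l σ f hml hln hσ hf hfs hfN e
  have hp := par hD
  have hp0 := par0 hD
  have hG0 : (0 : ℝ) ≤ D.G := by linarith [hD.G_two]
  have hu := hD.u_pos l
  have hl0 : D.m ≤ l := hml.le
  have hm1 : D.m ≤ l - 1 := by omega
  have hn1 : l - 1 ≤ D.n := by omega
  have hll : l - 1 < l := by omega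
  have hα := wα hD hml hln
  have hσα : Wt D.T (fun t => σ t * D.α l t) := wtmul hσ hα
  have hNl : 0 < D.N l := lt_of_lt_of_le one_pos (hD.N_pos l (by omega))
  have hsub : (lev (l - 1) : Set Md) ⊆ (lev l : Set Md) := lev_mono (Nat.sub_le _ _)
  set g : ℝ → Md → C3 := fun t => mul (D.M (l - 1) t) (f t) with hg
  set r : ℝ → Md → C3 := fun t => mul (D.rM l t) (f t) with hr
  set v : ℝ → Md → ℂ := fun t => mul (D.rw l t) (f t) with hv
  set w : ℝ → Md → C3 := fun t => mul (tsF (D.a l t)) (v t) with hw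
  have hM := hD.F_le (l - 1) hm1 hn1
  have hMc := hD.F_cm (l - 1) hm1 hn1
  have hMs := hD.F_supp (l - 1) hm1 hn1
  obtain ⟨hrwN, hrwc, hrws, hrwf⟩ := rw_facts h15 hD hml (by omega)
  -- `g`
  have hgc : CM D.T g := CM_mul hp hσ (wt1 _) hMc.2.2 hf (M_fin hD hm1 hn1) hfN
  have hgs : SuppT D.T (lev (l - 1) : Set Md) g := fun t ht =>
    supp_mul_lev le_rfl (hMs.2.2 t ht) (hfs t ht)
  have hgN : Nrm D.T D.c D.γ σ g ≤ ENNReal.ofReal D.G * Nrm D.T D.c D.γ σ f :=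
    (Nrm_mul_le1 hp hσ _ _).trans (by gcongr; exact hM.2.2)
  have hgN' : Nrm D.T D.c D.γ σ g ≠ ∞ :=
    ne_top_of_le_ne_top (ENNReal.mul_ne_top ENNReal.ofReal_ne_top hfN) hgN
  obtain ⟨hc8, hs8⟩ := h8 D hD l σ g hml hln hσ hgc hgs hgN'
  -- `v`
  have hvc : CM D.T v := CM_mul hp hσ (wt1 _) hrwc hf hrwf hfN
  have hvs : SuppT D.T (lev (l - 1) : Set Md) v := fun t ht =>
    supp_mul_lev le_rfl (hrws t ht) (hfs t ht)
  have hvN : Nrm D.T D.c D.γ σ v ≤ ENNReal.ofReal (D.G * D.N l) * Nrm D.T D.c D.γ σ f :=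
    (Nrm_mul_le1 hp hσ _ _).trans (by gcongr)
  have hvN' : Nrm D.T D.c D.γ σ v ≠ ∞ :=
    ne_top_of_le_ne_top (ENNReal.mul_ne_top ENNReal.ofReal_ne_top hfN) hvN
  -- `w`
  have hwc : CM D.T w := CM_mul hp hσ hα (CM_tsF (hD.z_cm l hml hln).2) hvc (a_fin hD hml hln) hvN'
  have hws : SuppT D.T (Cl l) w := fun t ht =>
    supp_mul_Cl' hll (supp_tsF ((hD.z_supp l hml hln).2 t ht)) (hvs t ht)
  have hwN : Nrm D.T D.c D.γ (fun t => σ t * D.α l t) w ≤
      ENNReal.ofReal (D.G ^ 2) * Nrm D.T D.c D.γ σ f := by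
    refine (Nrm_mul_le hp hσ hα (fun t => tsF (D.a l t)) v).trans ?_
    rw [Nrm_tsF]
    refine (mul_le_mul' (hD.z_le l hml hln).2 hvN).trans ?_
    rw [← mul_assoc, ← ENNReal.ofReal_mul (by positivity)]
    have : D.G / D.N l * (D.G * D.N l) = D.G ^ 2 := by
      field_simp
    rw [this]
  have hwN' : Nrm D.T D.c D.γ (fun t => σ t * D.α l t) w ≠ ∞ :=
    ne_top_of_le_ne_top (ENNReal.mul_ne_top ENNReal.ofReal_ne_top hfN) hwN
  obtain ⟨hc9, hs9⟩ := h9 D hD l (fun t => σ t * D.α l t) w hml hln hσα hwc hws hwN'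
  obtain ⟨-, -, hpN, -, -, -, hpc, -, hps, -⟩ := h15 D hD l hml (by omega)
  have hpfin : ∀ t ∈ Icc 0 D.T, sN 0 (D.p l t) ≠ ∞ := fun t ht =>
    sN_ne_top hp0 (wt1 _) (ne_top_of_le_ne_top ENNReal.ofReal_ne_top hpN) ht
  -- `r`
  have hrN : Nrm D.T D.c D.γ (fun t => σ t * D.α l t) r ≤
      ENNReal.ofReal (D.u l ^ 256) * Nrm D.T D.c D.γ σ f := by
    refine (Nrm_mul_le hp hσ hα (D.rM l) f).trans ?_
    gcongr
    exact hD.rM_le l hml hln
  have hrN' : Nrm D.T D.c D.γ (fun t => σ t * D.α l t) r ≠ ∞ :=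
    ne_top_of_le_ne_top (ENNReal.mul_ne_top ENNReal.ofReal_ne_top hfN) hrN
  have hrc : CM D.T r := CM_mul hp hσ hα (rM_cm h15 hD hml hln) hf (rM_fin hD hml hln) hfN
  have hPr : CM D.T (fun t => act (D.Pl l t) (r t)) :=
    CM_act hp hσα (hD.P_le l hl0 hln).2 hrc (Pl_fin hD hl0 hln) hrN'
  have hrs : SuppT D.T (lev l : Set Md) r := fun t ht =>
    supp_mul_lev le_rfl (rM_supp h15 hD hml hln t ht) (supp_mono hsub (hfs t ht))
  have key : ∀ t ∈ Icc 0 D.T, (2 : ℂ) • act (D.Pl l t - D.Pl (l - 1) t) (g t) +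
      ((2 : ℂ) • (act (D.Pl l t) (w t) - mul (D.p l t) (w t)) +
      ((-1 : ℂ) • r t + (2 : ℂ) • act (D.Pl l t) (r t))) = e t := by
    intro t ht
    have hft : sN 0 (f t) ≠ ∞ := sN_ne_top hp hσ hfN ht
    have h1 := gen_split h15 hD hml hln ht hft
    have h2 : act (D.gen (l - 1) t) (f t) = -(g t - (2 : ℂ) • act (D.Pl (l - 1) t) (g t)) :=
      act_genP (Pl_sfin hD hm1 hn1 ht) (M_sfin hD hm1 hn1 ht) hft
    obtain ⟨-, hgt, hwt, -⟩ := M_split h15 hD hml hln ht hft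
    have h3 : D.Cp l t (f t) = -(w t - (2 : ℂ) • mul (D.p l t) (w t)) := by
      unfold Dat.Cp
      rw [mul_one_sub (hpfin t ht) hwt]
    have h4 : act (D.Pl l t - D.Pl (l - 1) t) (g t) =
        act (D.Pl l t) (g t) - act (D.Pl (l - 1) t) (g t) :=
      act_sub (Pl_sfin hD hl0 hln ht) (Pl_sfin hD hm1 hn1 ht) hgt
    show _ = act (D.gen l t) (f t) - act (D.gen (l - 1) t) (f t) - D.Cp l t (f t)
    rw [h1, h2, h3, h4]
    module
  have hcm1 : CM D.T (fun t => (2 : ℂ) • act (D.Pl l t - D.Pl (l - 1) t) (g t)) :=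
    CM_smul 2 hc8
  have hcm2 : CM D.T (fun t => (2 : ℂ) • (act (D.Pl l t) (w t) - mul (D.p l t) (w t))) :=
    CM_smul 2 hc9
  refine ⟨CM_congr key (CM_add hcm1 (CM_add hcm2 (CM_add (CM_smul _ hrc) (CM_smul _ hPr)))),
    SuppT_congr key ?_, ?_⟩
  · intro t ht
    have hPl := Pl_supp h16 hD hl0 hln ht
    have hPl' := Pl_supp h16 hD hm1 hn1 ht
    refine supp_add (supp_smul _ ?_) (supp_add (supp_smul _ (supp_sub ?_ ?_))
      (supp_add (supp_smul _ (hrs t ht)) (supp_smul _ ?_)))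
    · refine (s03 C3 C3 C3).1 _ l l (g t) le_rfl (fun p q hpq => ?_) (supp_mono hsub (hgs t ht))
      show D.Pl l t p q - D.Pl (l - 1) t p q = 0
      rw [hPl p q hpq, hPl' p q (fun h => hpq (hsub h)), sub_zero]
    · exact (s03 C3 C3 C3).1 _ l l (w t) le_rfl hPl (supp_mono Cl_sub_lev (hws t ht))
    · exact supp_mono Cl_sub_lev (supp_mul_Cl hll (hps t ht) (hws t ht))
    · exact (s03 C3 C3 C3).1 _ l l (r t) le_rfl hPl (hrs t ht)
  · rw [← Src_congr key]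
    refine (Src_add hp hσα hcm1).trans ?_
    refine (add_le_add le_rfl (Src_add hp hσα hcm2)).trans ?_
    rw [Src_smul hp hσα, Src_smul hp hσα, two_enorm]
    have hA : ENNReal.ofReal 2 * Src D.T D.c D.γ (fun t => σ t * D.α l t)
        (fun t => act (D.Pl l t - D.Pl (l - 1) t) (g t)) ≤
        ENNReal.ofReal (2 * (D.G ^ 13 * D.u l ^ 256) * D.G) * Nrm D.T D.c D.γ σ f := by
      rw [← ofReal3 (by norm_num) (by positivity)]
      gcongr
      exact hs8.trans (by gcongr)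
    have hC : ENNReal.ofReal 2 * Src D.T D.c D.γ (fun t => σ t * D.α l t)
        (fun t => act (D.Pl l t) (w t) - mul (D.p l t) (w t)) ≤
        ENNReal.ofReal (2 * (D.G ^ 13 * D.u l ^ 256) * D.G ^ 2) * Nrm D.T D.c D.γ σ f := by
      rw [← ofReal3 (by norm_num) (by positivity)]
      gcongr
      exact hs9.trans (by gcongr)
    have hB := Src_one_sub hp hD.T_le hσα hG0 (P := D.Pl l) (r := r) (hD.P_le l hl0 hln).1
    have hB' : Src D.T D.c D.γ (fun t => σ t * D.α l t)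
        (fun t => (-1 : ℂ) • r t + (2 : ℂ) • act (D.Pl l t) (r t)) ≤
        ENNReal.ofReal ((1 + 2 * D.G) * D.u l ^ 256) * Nrm D.T D.c D.γ σ f := by
      refine hB.trans ?_
      rw [ENNReal.ofReal_mul (by positivity), mul_assoc]
      gcongr
    refine (add_le_add hA (add_le_add hC hB')).trans ?_
    rw [← add_mul, ← ENNReal.ofReal_add (by positivity) (by positivity), ← add_mul,
      ← ENNReal.ofReal_add (by positivity) (by positivity)]
    gcongr ENNReal.ofReal ?_ * _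
    obtain ⟨g1, g2, g3, g4, g5⟩ := G_pow hD
    have hu' : 0 ≤ D.u l ^ 256 := by positivity
    have e1 : D.G ^ 15 ≤ D.G ^ 16 := pow_le_pow_right₀ g1 (by norm_num)
    have e2 : D.G ^ 3 ≤ D.G ^ 16 := pow_le_pow_right₀ g1 (by norm_num)
    calc 2 * (D.G ^ 13 * D.u l ^ 256) * D.G + (2 * (D.G ^ 13 * D.u l ^ 256) * D.G ^ 2 +
          (1 + 2 * D.G) * D.u l ^ 256)
        = (2 * D.G ^ 14 + 2 * D.G ^ 15 + (1 + 2 * D.G)) * D.u l ^ 256 := by ring
      _ ≤ D.G ^ 18 * D.u l ^ 256 := mul_le_mul_of_nonneg_right (by linarith) hu'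

end Pool.Agent.Work.MP_b0497c_an.Unf.S

end

section

set_option autoImplicit false

/-!
# S13 (L2): exact generator of level `l` on class `l` (helper57)
-/

open scoped ENNReal
open Set MeasureTheory

namespace Pool.Agent.Work.MP_b0497c_an.Unf.S

open W G57

theorem s13 (h16 : W16) (h9 : S09) (h15 : S15) : S13 := by
  intro D hD l σ f hml hln hσ hf hfs hfN e
  have hp := par hD
  have hp0 := par0 hD
  have hG0 : (0 : ℝ) ≤ D.G := by linarith [hD.G_two]
  have hu := hD.u_pos l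
  have hl0 : D.m ≤ l := hml.le
  have hm1 : D.m ≤ l - 1 := by omega
  have hn1 : l - 1 ≤ D.n := by omega
  have hll : l - 1 < l := by omega
  have hα := hD.α_wt l hml (by omega)
  set g : ℝ → Md → C3 := fun t => mul (D.M (l - 1) t) (f t) with hg
  set r : ℝ → Md → C3 := fun t => mul (D.rM l t) (f t) with hr
  have hM := hD.F_le (l - 1) hm1 hn1
  have hMc := hD.F_cm (l - 1) hm1 hn1
  have hMs := hD.F_supp (l - 1) hm1 hn1
  have hMc' := hD.F_cm l hl0 hln
  have hMs' := hD.F_supp l hl0 hln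
  have hgc : CM D.T g := CM_mul hp hσ (wt1 _) hMc.2.2 hf (M_fin hD hm1 hn1) hfN
  have hgs : SuppT D.T (Cl l) g := fun t ht => supp_mul_Cl hll (hMs.2.2 t ht) (hfs t ht)
  have hgN : Nrm D.T D.c D.γ σ g ≤ ENNReal.ofReal D.G * Nrm D.T D.c D.γ σ f :=
    (Nrm_mul_le1 hp hσ _ _).trans (by gcongr; exact hM.2.2)
  have hgN' : Nrm D.T D.c D.γ σ g ≠ ∞ :=
    ne_top_of_le_ne_top (ENNReal.mul_ne_top ENNReal.ofReal_ne_top hfN) hgN
  obtain ⟨hc9, hs9⟩ := h9 D hD l σ g hml hln hσ hgc hgs hgN'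
  obtain ⟨-, hrwN, hpN, -, -, hrwc, hpc, -, hps, hrws, -⟩ := h15 D hD l hml (by omega)
  have hpfin : ∀ t ∈ Icc 0 D.T, sN 0 (D.p l t) ≠ ∞ := fun t ht =>
    sN_ne_top hp0 (wt1 _) (ne_top_of_le_ne_top ENNReal.ofReal_ne_top hpN) ht
  have hrN : Nrm D.T D.c D.γ σ r ≤ ENNReal.ofReal (D.G * D.u l ^ 256) * Nrm D.T D.c D.γ σ f := by
    refine (Nrm_mul_le1 hp hσ _ _).trans ?_
    gcongr ?_ * _
    refine (Nrm_one_le hD hml hln (D.rM l)).trans ?_
    rw [ENNReal.ofReal_mul hG0]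
    gcongr
    exact hD.rM_le l hml hln
  have hrN' : Nrm D.T D.c D.γ σ r ≠ ∞ :=
    ne_top_of_le_ne_top (ENNReal.mul_ne_top ENNReal.ofReal_ne_top hfN) hrN
  have hrc : CM D.T r := CM_mul hp hσ hα (rM_cm h15 hD hml hln) hf (rM_fin hD hml hln) hfN
  have hPr : CM D.T (fun t => act (D.Pl l t) (r t)) :=
    CM_act hp hσ (hD.P_le l hl0 hln).2 hrc (Pl_fin hD hl0 hln) hrN'
  have hrs : SuppT D.T (lev l : Set Md) r := fun t ht =>
    supp_mul_lev le_rfl (rM_supp h15 hD hml hln t ht) (supp_mono Cl_sub_lev (hfs t ht))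
  have key : ∀ t ∈ Icc 0 D.T, (2 : ℂ) • (act (D.Pl l t) (g t) - mul (D.p l t) (g t)) +
      ((-1 : ℂ) • r t + (2 : ℂ) • act (D.Pl l t) (r t)) = e t := by
    intro t ht
    have hft : sN 0 (f t) ≠ ∞ := sN_ne_top hp hσ hfN ht
    have h1 := gen_split h15 hD hml hln ht hft
    have h2 : mul (D.gK l t) (f t) = -(g t - (2 : ℂ) • mul (D.p l t) (g t)) :=
      mul_genK (hpfin t ht) (M_sfin hD hm1 hn1 ht) hft
    obtain ⟨-, -, hw, -⟩ := M_split h15 hD hml hln ht hft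
    have h3 := act_one_sub (Pl_sfin hD hl0 hln ht) hw
    show _ = act (D.gen l t) (f t) - mul (D.gK l t) (f t) +
      act (idK - (2 : ℂ) • D.Pl l t) (mul (tsF (D.a l t)) (mul (D.rw l t) (f t)))
    rw [h1, h2, h3]
    module
  have hcm1 : CM D.T (fun t => (2 : ℂ) • (act (D.Pl l t) (g t) - mul (D.p l t) (g t))) :=
    CM_smul 2 hc9
  refine ⟨CM_congr key (CM_add hcm1 (CM_add (CM_smul _ hrc) (CM_smul _ hPr))),
    SuppT_congr key ?_, ?_⟩
  · intro t ht
    refine supp_add (supp_smul _ (supp_sub ?_ ?_)) (supp_add (supp_smul _ (hrs t ht))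
      (supp_smul _ ?_))
    · exact (s03 C3 C3 C3).1 _ l l (g t) le_rfl (Pl_supp h16 hD hl0 hln ht)
        (supp_mono Cl_sub_lev (hgs t ht))
    · exact supp_mono Cl_sub_lev (supp_mul_Cl hll (hps t ht) (hgs t ht))
    · exact (s03 C3 C3 C3).1 _ l l (r t) le_rfl (Pl_supp h16 hD hl0 hln ht) (hrs t ht)
  · rw [← Src_congr key]
    refine (Src_add hp hσ hcm1).trans ?_
    rw [Src_smul hp hσ, two_enorm]
    have hA : ENNReal.ofReal 2 * Src D.T D.c D.γ σ
        (fun t => act (D.Pl l t) (g t) - mul (D.p l t) (g t)) ≤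
        ENNReal.ofReal (2 * (D.G ^ 13 * D.u l ^ 256) * D.G) * Nrm D.T D.c D.γ σ f := by
      rw [← ofReal3 (by norm_num) (by positivity)]
      gcongr
      exact hs9.trans (by gcongr)
    have hB := Src_one_sub hp hD.T_le hσ hG0 (P := D.Pl l) (r := r) (hD.P_le l hl0 hln).1
    have hB' : Src D.T D.c D.γ σ (fun t => (-1 : ℂ) • r t + (2 : ℂ) • act (D.Pl l t) (r t)) ≤
        ENNReal.ofReal ((1 + 2 * D.G) * (D.G * D.u l ^ 256)) * Nrm D.T D.c D.γ σ f := by
      refine hB.trans ?_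
      rw [ENNReal.ofReal_mul (by positivity), mul_assoc]
      gcongr
    refine (add_le_add hA hB').trans ?_
    rw [← add_mul, ← ENNReal.ofReal_add (by positivity) (by positivity)]
    gcongr ENNReal.ofReal ?_ * _
    obtain ⟨g1, g2, g3, g4, g5⟩ := G_pow hD
    have hu' : 0 ≤ D.u l ^ 256 := by positivity
    calc 2 * (D.G ^ 13 * D.u l ^ 256) * D.G + (1 + 2 * D.G) * (D.G * D.u l ^ 256)
        = (2 * D.G ^ 14 + (1 + 2 * D.G) * D.G) * D.u l ^ 256 := by ring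
      _ ≤ (D.G ^ 15 + D.G ^ 3 * D.G) * D.u l ^ 256 := by gcongr
      _ ≤ (D.G ^ 16 + D.G ^ 16) * D.u l ^ 256 := by
          have e1 : D.G ^ 15 ≤ D.G ^ 16 := pow_le_pow_right₀ g1 (by norm_num)
          have e2 : D.G ^ 3 * D.G ≤ D.G ^ 16 := by
            rw [← pow_succ]
            exact pow_le_pow_right₀ g1 (by norm_num)
          exact mul_le_mul_of_nonneg_right (add_le_add e1 e2) hu'
      _ ≤ D.G ^ 18 * D.u l ^ 256 := by
          gcongr
          have : 0 ≤ D.G ^ 16 := by positivity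
          linarith

end Pool.Agent.Work.MP_b0497c_an.Unf.S

end
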