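import Pool.Agent.Work.MP_b0497c_an.Bd.B03
import Pool.Agent.Work.MP_b0497c_an.Bd.B07
import Pool.Agent.Work.MP_b0497c_an.Unf.W10
import Pool.Agent.Work.MP_b0497c_an.Bd.B04
import Pool.Agent.Work.MP_b0497c_an.Unf.W13
import Pool.Agent.Work.MP_b0497c_an.Unf.W14
import Pool.Agent.Work.MP_b0497c_an.Unf.W15
import Pool.Agent.Work.MP_b0497c_an.Unf.W17
import Pool.Agent.Work.MP_b0497c_an.Unf.W19
import Pool.Agent.Work.MP_b0497c_an.Unf.W20
import Pool.Agent.Work.MP_b0497c_an.Unf.W21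
import Pool.Agent.Work.MP_b0497c_an.Unf.W23
import Pool.Agent.Work.MP_b0497c_an.Unf.CStmts

/-! Bundle of small proof modules (one section per former module). -/

section

set_option autoImplicit false

/-!
# Block W, assembled: all items without hypotheses
-/

namespace Pool.Agent.Work.MP_b0497c_an.Unf.W

theorem w01 : W01 := pr_W01
theorem w02 : W02 := pr_W02
theorem w03 : W03 := pr_W03
theorem w04 : W04 := pr_W04
theorem w05 : W05 := pr_W05
theorem w06 : W06 := pr_W06
theorem w07 : W07 := pr_W07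
theorem w08 : W08 := pr_W08
theorem w09 : W09 := pr_W09
theorem w10 : W10 := pr_W10
theorem w11 : W11 := pr_W11
theorem w12 : W12 := pr_W12
theorem w13 : W13 := pr_W13
theorem w14 : W14 := pr_W14
theorem w15 : W15 := pr_W15 w10 w11 w14
theorem w16 : W16 := pr_W16 w10 w11 w14 w15
theorem w17 : W17 := pr_W17 w10 w11 w16
theorem w18 : W18 := pr_W18 w09 w10 w11 w12 w16 w17
theorem w19 : W19 := pr_W19 w10 w11 w16
theorem w20 : W20 := pr_W20 w10 w11 w16
theorem w21 : W21 := pr_W21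
theorem w23 : W23 := pr_W23

end Pool.Agent.Work.MP_b0497c_an.Unf.W

end

section

set_option autoImplicit false

/-!
# C06: the bound `PB` for the real pointwise generator bounds the complex propagator
-/

open scoped ENNReal
open Set MeasureTheory

namespace Pool.Agent.Work.MP_b0497c_an.Unf.S

open W

namespace I06

/-- affine extension beyond the interval -/
theorem extend {V : Type} [NormedAddCommGroup V] [NormedSpace ℝ V] {T : ℝ} (hT : 0 < T)
    {u u' : ℝ → V} (hu : ∀ t ∈ Icc 0 T, HasDerivWithinAt u (u' t) (Icc 0 T) t) :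
    ∃ v : ℝ → V, (∀ t ∈ Icc 0 T, v t = u t) ∧ ∀ t ∈ Icc 0 T, HasDerivAt v (u' t) t := by
  set v : ℝ → V := fun t => if t < 0 then u 0 + t • u' 0 else
    if t ≤ T then u t else u T + (t - T) • u' T with hv
  have hvI : ∀ t ∈ Icc 0 T, v t = u t := by
    intro t ht
    simp only [hv]
    rw [if_neg (not_lt.2 ht.1), if_pos ht.2]
  have hin : ∀ t ∈ Icc 0 T, HasDerivWithinAt v (u' t) (Icc 0 T) t := fun t ht =>
    (hu t ht).congr hvI (hvI t ht)
  refine ⟨v, hvI, fun t ht => ?_⟩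
  have hL : HasDerivWithinAt v (u' t) (Iic t) t := by
    rcases eq_or_lt_of_le ht.1 with h0 | h0
    · subst h0
      have h1 : HasDerivAt (fun r : ℝ => u 0 + r • u' 0) (u' 0) 0 := by
        have h2 := ((hasDerivAt_id (0 : ℝ)).smul_const (u' 0)).const_add (u 0)
        simpa using h2
      refine h1.hasDerivWithinAt.congr ?_ ?_
      · intro r hr
        rcases eq_or_lt_of_le (show r ≤ 0 from hr) with h3 | h3
        · subst h3
          rw [hvI 0 ht, zero_smul, add_zero]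
        · simp only [hv]
          rw [if_pos h3]
      · rw [hvI 0 ht, zero_smul, add_zero]
    · refine (hin t ht).mono_of_mem_nhdsWithin ?_
      rw [mem_nhdsWithin_iff_exists_mem_nhds_inter]
      exact ⟨Ioi 0, Ioi_mem_nhds h0, fun r hr => ⟨(show (0:ℝ) < r from hr.1).le,
        (show r ≤ t from hr.2).trans ht.2⟩⟩
  have hR : HasDerivWithinAt v (u' t) (Ici t) t := by
    rcases eq_or_lt_of_le ht.2 with h0 | h0
    · subst h0
      have h1 : HasDerivAt (fun r : ℝ => u t + (r - t) • u' t) (u' t) t := by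
        have h2 := (((hasDerivAt_id t).sub_const t).smul_const (u' t)).const_add (u t)
        simpa using h2
      refine h1.hasDerivWithinAt.congr ?_ ?_
      · intro r hr
        rcases eq_or_lt_of_le (show t ≤ r from hr) with h3 | h3
        · subst h3
          rw [hvI t ht, sub_self, zero_smul, add_zero]
        · simp only [hv]
          rw [if_neg (by linarith), if_neg (by linarith)]
      · rw [hvI t ht, sub_self, zero_smul, add_zero]
    · refine (hin t ht).mono_of_mem_nhdsWithin ?_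
      rw [mem_nhdsWithin_iff_exists_mem_nhds_inter]
      exact ⟨Iio T, Iio_mem_nhds h0, fun r hr => ⟨ht.1.trans (show t ≤ r from hr.2),
        (show r < T from hr.1).le⟩⟩
  have h := hL.union hR
  rw [Iic_union_Ici] at h
  exact h.hasDerivAt Filter.univ_mem

/-- the real part -/
noncomputable def reL : C3 →ₗ[ℝ] EuclideanSpace ℝ (Fin 3) where
  toFun w := WithLp.toLp 2 fun i => (w i).re
  map_add' w w' := by
    ext i
    simp
  map_smul' a w := by
    ext i
    simp

/-- the imaginary part -/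
noncomputable def imL : C3 →ₗ[ℝ] EuclideanSpace ℝ (Fin 3) where
  toFun w := WithLp.toLp 2 fun i => (w i).im
  map_add' w w' := by
    ext i
    simp
  map_smul' a w := by
    ext i
    simp

theorem decomp (w : C3) : w = cx (reL w) + Complex.I • cx (imL w) := by
  ext i
  simp only [PiLp.add_apply, PiLp.smul_apply, cx, reL, imL, LinearMap.coe_mk, AddHom.coe_mk,
    smul_eq_mul]
  rw [mul_comm]
  exact (Complex.re_add_im _).symm

theorem reL_cx (x y : EuclideanSpace ℝ (Fin 3)) : reL (cx x + Complex.I • cx y) = x := by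
  ext i
  simp [cx, reL]

theorem imL_cx (x y : EuclideanSpace ℝ (Fin 3)) : imL (cx x + Complex.I • cx y) = y := by
  ext i
  simp [cx, imL]

theorem norm_sq_eq (w : C3) : ‖w‖ ^ 2 = ‖reL w‖ ^ 2 + ‖imL w‖ ^ 2 := by
  rw [EuclideanSpace.norm_sq_eq, EuclideanSpace.norm_sq_eq, EuclideanSpace.norm_sq_eq,
    ← Finset.sum_add_distrib]
  refine Finset.sum_congr rfl fun i _ => ?_
  rw [Complex.sq_norm, Complex.normSq_apply, Real.norm_eq_abs, Real.norm_eq_abs, sq_abs, sq_abs]
  simp only [reL, imL, LinearMap.coe_mk, AddHom.coe_mk]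
  ring

/-- one component of the solution -/
theorem comp_bound {T Ec : ℝ} {α : ℝ → ℝ} (hT : 0 < T)
    {A : ℝ → EuclideanSpace ℝ (Fin 3) →L[ℝ] EuclideanSpace ℝ (Fin 3)} (hPB : K.PB A 0 T Ec α)
    {M B : ℝ → Mat} (hM : ∀ t ∈ Icc 0 T, HasDerivWithinAt M ((B t).comp (M t)) (Icc 0 T) t)
    (L : C3 →L[ℝ] EuclideanSpace ℝ (Fin 3)) (hL : ∀ t ∈ Icc 0 T, ∀ w, L (B t w) = A t (L w))
    {s t : ℝ} (hs : s ∈ Icc 0 T) (ht : t ∈ Icc s T) (v : C3) :
    ‖L (M t v)‖ ≤ Ec * (α t / α s) * ‖L (M s v)‖ := by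
  have hd : ∀ r ∈ Icc 0 T, HasDerivWithinAt (fun r => L (M r v)) (A r (L (M r v)))
      (Icc 0 T) r := by
    intro r hr
    have h1 := ((L.comp ((ContinuousLinearMap.apply ℂ C3 v).restrictScalars ℝ)).hasFDerivAt
      (x := M r)).comp_hasDerivWithinAt r (hM r hr)
    refine h1.congr_deriv ?_
    exact hL r hr _
  obtain ⟨u, hu1, hu2⟩ := extend (u' := fun r => A r (L (M r v))) hT hd
  have hsub : ∀ r ∈ Icc s t, r ∈ Icc 0 T := fun r hr => ⟨hs.1.trans hr.1, hr.2.trans ht.2⟩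
  have h := hPB s hs t ht u (fun r hr => by
    rw [hu1 r (hsub r hr)]
    exact hu2 r (hsub r hr))
  rw [hu1 s hs, hu1 t ⟨hs.1.trans ht.1, ht.2⟩] at h
  exact h

end I06

open I06 in
theorem c06 : C06 := by
  intro T Ec α θ h Φ A hT hα hEc hreal hPB hder hid s hs t ht
  have htT : t ∈ Icc 0 T := ⟨hs.1.trans ht.1, ht.2⟩
  have hC : 0 ≤ Ec * (α t / α s) := mul_nonneg hEc (div_pos (hα t htT) (hα s hs)).le
  have hB : ∀ r ∈ Icc 0 T, ∀ w : C3,
      ev θ (h r) w = cx (A r (reL w)) + Complex.I • cx (A r (imL w)) := by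
    intro r hr w
    conv_lhs => rw [decomp w]
    rw [map_add, map_smul, hreal r hr, hreal r hr]
  refine ContinuousLinearMap.opNorm_le_bound _ hC fun v => ?_
  have h1 := comp_bound hT hPB (fun r hr => hder s hs r hr) (LinearMap.toContinuousLinearMap reL)
    (fun r hr w => by
      rw [hB r hr w]
      exact reL_cx _ _) hs ht v
  have h2 := comp_bound hT hPB (fun r hr => hder s hs r hr) (LinearMap.toContinuousLinearMap imL)
    (fun r hr w => by
      rw [hB r hr w]
      exact imL_cx _ _) hs ht v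
  simp only [hid s hs, ContinuousLinearMap.coe_id', id_eq,
    LinearMap.coe_toContinuousLinearMap'] at h1 h2
  refine le_of_sq_le_sq ?_ (mul_nonneg hC (norm_nonneg v))
  rw [norm_sq_eq, mul_pow, norm_sq_eq v, mul_add, ← mul_pow, ← mul_pow]
  exact add_le_add (pow_le_pow_left₀ (norm_nonneg _) h1 2)
    (pow_le_pow_left₀ (norm_nonneg _) h2 2)

end Pool.Agent.Work.MP_b0497c_an.Unf.S

end

section

set_option autoImplicit false

/-!
# C09: the data of `F (1 + z Kᵀ)`
-/

open scoped ENNReal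
open Set MeasureTheory

namespace Pool.Agent.Work.MP_b0497c_an.Unf.S

open W

namespace IC09

section gen

variable {Γ : Type} [AddCommGroup Γ] [Len Γ]
  {E F G : Type} [NormedAddCommGroup E] [NormedSpace ℂ E] [NormedAddCommGroup F] [NormedSpace ℂ F]
  [NormedAddCommGroup G] [NormedSpace ℂ G]

omit [Len Γ] in
theorem mulK_conv (a : Γ → (F →L[ℂ] G)) (b : Γ → (E →L[ℂ] F)) :
    mulK (conv (ContinuousLinearMap.compL ℂ E F G) a b) = kcomp (mulK a) (mulK b) := by
  funext m l
  unfold mulK conv kcomp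
  rw [← (Equiv.subRight l).tsum_eq fun j => (ContinuousLinearMap.compL ℂ E F G) (a (m - l - j)) (b j)]
  refine tsum_congr fun j => ?_
  rw [Equiv.subRight_apply, ContinuousLinearMap.compL_apply, sub_sub_sub_cancel_right]

end gen

theorem mulK_add (a b : Md → Mat) : mulK (a + b) = mulK a + mulK b := rfl

theorem mulK_sub (a b : Md → Mat) : mulK (a - b) = mulK a - mulK b := rfl

theorem mulK_one : mulK oneM = (diagK fun _ => ContinuousLinearMap.id ℂ C3 : Md → Md → Mat) := by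
  funext m l
  unfold mulK oneM diagK
  by_cases h : m = l
  · subst h
    simp
  · rw [if_neg h, if_neg (fun h' => h (sub_eq_zero.1 h'))]

/-- `z Kᵀ`. -/
noncomputable def zK (z : Md → C3) (k : C3) (q : Md) : Mat := (innerSL ℂ k).smulRight (z q)

theorem shP_eq (z : Md → C3) (k : C3) : shP z k = oneM + zK z k := rfl

theorem shM_eq (z : Md → C3) (k : C3) : shM z k = oneM - zK z k := rfl

theorem zK_zK {z : Md → C3} {k : C3} (h : ∀ q, inner ℂ k (z q) = 0) :
    kcomp (mulK (zK z k)) (mulK (zK z k)) = 0 := by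
  funext m l
  unfold kcomp
  show (∑' j, (zK z k (m - j)).comp (zK z k (j - l))) = 0
  have h0 : ∀ j, (zK z k (m - j)).comp (zK z k (j - l)) = 0 := by
    intro j
    ext x : 1
    show zK z k (m - j) (zK z k (j - l) x) = 0
    have e1 : zK z k (j - l) x = (inner ℂ k x) • z (j - l) := rfl
    have e2 : ∀ y, zK z k (m - j) y = (inner ℂ k y) • z (m - j) := fun _ => rfl
    rw [e1, map_smul, e2, h, zero_smul, smul_zero]
  rw [tsum_congr h0, tsum_zero]

theorem norm_zK (z : Md → C3) (k : C3) (q : Md) : ‖zK z k q‖ₑ = ‖z q‖ₑ * ‖k‖ₑ := by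
  unfold zK
  rw [enorm_eq_nnnorm, enorm_eq_nnnorm, enorm_eq_nnnorm, ← ENNReal.coe_mul, ENNReal.coe_inj]
  apply NNReal.coe_injective
  push_cast
  rw [ContinuousLinearMap.norm_smulRight_apply, innerSL_apply_norm, mul_comm]

theorem sN_zK (c : ℝ) (z : Md → C3) (k : C3) : sN c (zK z k) = sN c z * ‖k‖ₑ := by
  unfold sN
  rw [← ENNReal.tsum_mul_right]
  refine tsum_congr fun q => ?_
  rw [norm_zK, mul_assoc]

theorem sN_one (c : ℝ) : sN c (oneM : Md → Mat) ≤ 1 := by
  unfold sN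
  rw [tsum_eq_single 0]
  · rw [len_zero, mul_zero, Real.exp_zero, ENNReal.ofReal_one, one_mul]
    unfold oneM
    rw [if_pos rfl, enorm_eq_nnnorm]
    have h : ‖ContinuousLinearMap.id ℂ C3‖₊ ≤ 1 := ContinuousLinearMap.norm_id_le
    exact_mod_cast h
  · intro q hq
    unfold oneM
    rw [if_neg hq]
    simp

theorem sN_add (c : ℝ) (a b : Md → Mat) : sN c (a + b) ≤ sN c a + sN c b := by
  unfold sN
  rw [← ENNReal.tsum_add]
  refine ENNReal.tsum_le_tsum fun q => ?_
  rw [← mul_add]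
  exact mul_le_mul_right (enorm_add_le _ _) _

theorem sN_sub (c : ℝ) (a b : Md → Mat) : sN c (a - b) ≤ sN c a + sN c b := by
  unfold sN
  rw [← ENNReal.tsum_add]
  refine ENNReal.tsum_le_tsum fun q => ?_
  rw [← mul_add]
  exact mul_le_mul_right (enorm_sub_le) _

end IC09

open IC09

theorem c09 (h10 : W10) (h11 : W11) (h21 : W21) : C09 := by
  intro j c b e g k F Fi z hj hF hz ho hg hzg
  have hc := hF.c_pos
  obtain ⟨w1, -, -, w4, -, w6, w7', -⟩ := h10 Md C3 C3 C3 c hc.le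
  obtain ⟨-, -, w3, -, -, -, w7, -⟩ := h10 Md Mat Mat Mat c hc.le
  obtain ⟨v1, -, -, v4, -, v6, -, -⟩ := h10 Md C3 C3 C3 0 le_rfl
  obtain ⟨-, -, v3, -, -, -, -, -⟩ := h10 Md Mat Mat Mat 0 le_rfl
  obtain ⟨assoc, -, dist, -, idm, -⟩ := h11 Md C3 C3 C3 C3
  have hlev : lev (j - 1) ≤ lev j := by
    intro q hq i hi
    exact hq i (by omega)
  -- norms
  have hzc : sN c (zK z (kv k)) ≤ ENNReal.ofReal g := by rw [sN_zK]; exact hzg
  have hz0 : sN 0 (zK z (kv k)) ≤ ENNReal.ofReal g := ((w7 0 hc.le).2 _).trans hzc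
  have h1g : (1 : ℝ≥0∞) + ENNReal.ofReal g = ENNReal.ofReal (1 + g) := by
    rw [ENNReal.ofReal_add zero_le_one hg, ENNReal.ofReal_one]
  have hP0 : sN 0 (shP z (kv k)) ≤ ENNReal.ofReal (1 + g) := by
    rw [shP_eq, ← h1g]
    exact (sN_add _ _ _).trans (add_le_add (sN_one 0) hz0)
  have hMc : sN c (shM z (kv k)) ≤ ENNReal.ofReal (1 + g) := by
    rw [shM_eq, ← h1g]
    exact (sN_sub _ _ _).trans (add_le_add (sN_one c) hzc)
  have hcL : ‖ContinuousLinearMap.compL ℂ C3 C3 C3‖ₑ ≤ 1 := by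
    rw [enorm_eq_nnnorm]
    have h : ‖ContinuousLinearMap.compL ℂ C3 C3 C3‖₊ ≤ 1 := ContinuousLinearMap.norm_compL_le ℂ C3 C3 C3
    exact_mod_cast h
  -- supports
  have hsh : ∀ q, q ∉ lev j → shP z (kv k) q = 0 ∧ shM z (kv k) q = 0 := by
    intro q hq
    have hq0 : q ≠ 0 := fun h => hq (h ▸ (lev j).zero_mem)
    have hzq : z q = 0 := hz q (fun h => hq h.1)
    unfold shP shM oneM
    rw [if_neg hq0, hzq]
    constructor
    · ext x : 1
      simp
    · ext x : 1
      simp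
  -- finiteness
  have fF : sK 0 (mulK F) ≠ ∞ := by
    rw [v4]; exact ne_top_of_le_ne_top ENNReal.ofReal_ne_top hF.F_le
  have fFi : sK 0 (mulK Fi) ≠ ∞ := by
    rw [v4]
    exact ne_top_of_le_ne_top ENNReal.ofReal_ne_top (((w7 0 hc.le).2 _).trans hF.Fi_le)
  have fZ : sK 0 (mulK (zK z (kv k))) ≠ ∞ := by
    rw [v4]; exact ne_top_of_le_ne_top ENNReal.ofReal_ne_top hz0
  have f1 : sK 0 (mulK (oneM : Md → Mat)) ≠ ∞ := by
    rw [v4]; exact ne_top_of_le_ne_top ENNReal.one_ne_top (sN_one 0)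
  have fP : sK 0 (mulK (shP z (kv k))) ≠ ∞ := by
    rw [v4]; exact ne_top_of_le_ne_top ENNReal.ofReal_ne_top hP0
  have fM : sK 0 (mulK (shM z (kv k))) ≠ ∞ := by
    rw [v4]
    exact ne_top_of_le_ne_top ENNReal.ofReal_ne_top (((w7 0 hc.le).2 _).trans hMc)
  have fnZ : sK 0 (mulK (-(zK z (kv k)))) ≠ ∞ := by
    rw [v4]
    have : sN 0 (-(zK z (kv k))) = sN 0 (zK z (kv k)) := by
      unfold sN
      refine tsum_congr fun q => ?_
      rw [Pi.neg_apply, enorm_neg]
    rw [this]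
    exact ne_top_of_le_ne_top ENNReal.ofReal_ne_top hz0
  -- the two sheared matrices are inverse to each other
  have hnegl : ∀ A B : Md → Md → Mat, kcomp (-A) B = -(kcomp A B) := by
    intro A B
    funext m l
    show (∑' j, (-(A m j)).comp (B j l)) = -(∑' j, (A m j).comp (B j l))
    rw [← tsum_neg]
    refine tsum_congr fun j => ?_
    rw [ContinuousLinearMap.neg_comp]
  have hnegr : ∀ A B : Md → Md → Mat, kcomp A (-B) = -(kcomp A B) := by
    intro A B
    funext m l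
    show (∑' j, (A m j).comp (-(B j l))) = -(∑' j, (A m j).comp (B j l))
    rw [← tsum_neg]
    refine tsum_congr fun j => ?_
    rw [ContinuousLinearMap.comp_neg]
  have eP : mulK (shP z (kv k)) = mulK oneM + mulK (zK z (kv k)) := rfl
  have eM : mulK (shM z (kv k)) = mulK oneM + mulK (-(zK z (kv k))) := by
    rw [shM_eq, sub_eq_add_neg]
    rfl
  have eN : mulK (-(zK z (kv k))) = -(mulK (zK z (kv k))) := rfl
  have hMP : kcomp (mulK (shM z (kv k))) (mulK (shP z (kv k))) =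
      diagK fun _ => ContinuousLinearMap.id ℂ C3 := by
    rw [eM, (dist _ _ _ (mulK (shP z (kv k))) f1 fnZ fP fP).1, eP,
      (dist (mulK oneM) (mulK oneM) (mulK oneM) (mulK (zK z (kv k))) f1 f1 f1 fZ).2,
      (dist (mulK (-(zK z (kv k)))) (mulK (-(zK z (kv k)))) (mulK oneM) (mulK (zK z (kv k)))
        fnZ fnZ f1 fZ).2, eN, hnegl, hnegl, zK_zK ho, mulK_one, (idm _).2, (idm _).2, (idm _).1]
    abel
  have hPM : kcomp (mulK (shP z (kv k))) (mulK (shM z (kv k))) =
      diagK fun _ => ContinuousLinearMap.id ℂ C3 := by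
    rw [eP, (dist _ _ _ (mulK (shM z (kv k))) f1 fZ fM fM).1, eM,
      (dist (mulK oneM) (mulK oneM) (mulK oneM) (mulK (-(zK z (kv k)))) f1 f1 f1 fnZ).2,
      (dist (mulK (zK z (kv k))) (mulK (zK z (kv k))) (mulK oneM) (mulK (-(zK z (kv k))))
        fZ fZ f1 fnZ).2, eN, hnegr, hnegr, zK_zK ho, mulK_one, (idm _).2, (idm _).2, (idm _).1]
    abel
  have fF' : sK 0 (kcomp (mulK F) (mulK (shP z (kv k)))) ≠ ∞ :=
    ne_top_of_le_ne_top (ENNReal.mul_ne_top fF fP) (v1 _ _)
  have fFi' : sK 0 (kcomp (mulK Fi) (mulK F)) ≠ ∞ :=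
    ne_top_of_le_ne_top (ENNReal.mul_ne_top fFi fF) (v1 _ _)
  have fPM : sK 0 (kcomp (mulK (shP z (kv k))) (mulK (shM z (kv k)))) ≠ ∞ :=
    ne_top_of_le_ne_top (ENNReal.mul_ne_top fP fM) (v1 _ _)
  have hmm : ∀ a b : Md → Mat, mulK (mm a b) = kcomp (mulK a) (mulK b) := fun a b => mulK_conv a b
  have hsm : ∀ (a b : Md → Mat), (∀ q, q ∉ lev j → a q = 0) → (∀ q, q ∉ lev j → b q = 0) →
      ∀ q, q ∉ lev j → mm a b q = 0 := by
    intro a b ha hb q hq
    show (∑' l, (a (q - l)).comp (b l)) = 0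
    have h0 : ∀ l, (a (q - l)).comp (b l) = 0 := by
      intro l
      by_cases hl : l ∈ lev j
      · have h1 : q - l ∉ lev j := fun h => hq (by
          have := (lev j).add_mem h hl
          rwa [sub_add_cancel] at this)
        rw [ha _ h1, ContinuousLinearMap.zero_comp]
      · rw [hb _ hl, ContinuousLinearMap.comp_zero]
    rw [tsum_congr h0, tsum_zero]
  have hg1 : (1 : ℝ) ≤ 1 + g := by linarith
  refine ⟨hc, ?_, ?_, ?_, ?_, ?_, ?_, ?_, ?_, ?_⟩
  · nlinarith [hF.b_one]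
  · nlinarith [hF.e_one]
  · intro x hx
    exact (h21.2 j x hx).1
  · exact hsm _ _ (fun q hq => hF.F_supp q fun h => hq (hlev h)) fun q hq => (hsh q hq).1
  · exact hsm _ _ (fun q hq => (hsh q hq).2) fun q hq => hF.Fi_supp q fun h => hq (hlev h)
  · have h := v3 (ContinuousLinearMap.compL ℂ C3 C3 C3) F (shP z (kv k))
    calc sN 0 (mm F (shP z (kv k)))
        ≤ ‖ContinuousLinearMap.compL ℂ C3 C3 C3‖ₑ * sN 0 F * sN 0 (shP z (kv k)) := h
      _ ≤ 1 * ENNReal.ofReal b * ENNReal.ofReal (1 + g) :=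
        mul_le_mul' (mul_le_mul' hcL hF.F_le) hP0
      _ = ENNReal.ofReal (b * (1 + g)) := by
        rw [one_mul, ← ENNReal.ofReal_mul (by linarith [hF.b_one])]
  · have h := w3 (ContinuousLinearMap.compL ℂ C3 C3 C3) (shM z (kv k)) Fi
    calc sN c (mm (shM z (kv k)) Fi)
        ≤ ‖ContinuousLinearMap.compL ℂ C3 C3 C3‖ₑ * sN c (shM z (kv k)) * sN c Fi := h
      _ ≤ 1 * ENNReal.ofReal (1 + g) * ENNReal.ofReal e :=
        mul_le_mul' (mul_le_mul' hcL hMc) hF.Fi_le
      _ = ENNReal.ofReal (e * (1 + g)) := by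
        rw [one_mul, ← ENNReal.ofReal_mul (by linarith), mul_comm]
  · rw [hmm, hmm, assoc _ _ _ fM fFi fF', ← assoc _ _ _ fFi fF fP, hF.left, (idm _).2, hMP]
  · rw [hmm, hmm, assoc _ _ _ fF fP (ne_top_of_le_ne_top (ENNReal.mul_ne_top fM fFi) (v1 _ _)),
      ← assoc _ _ _ fP fM fFi, hPM, (idm _).2, hF.right]

end Pool.Agent.Work.MP_b0497c_an.Unf.S

end
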