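import Pool.Agent.Work.MP_b0497c_an.Bd.B33
import Pool.Agent.Work.MP_b0497c_an.Bd.B29
import Pool.Agent.Work.MP_b0497c_an.Bd.B08
import Pool.Agent.Work.MP_b0497c_an.Bd.B28
import Pool.Agent.Work.MP_b0497c_an.Bd.B13
import Pool.Agent.Work.MP_b0497c_an.Unf.A1b

/-! Bundle of small proof modules (one section per former module). -/

section

set_option autoImplicit false
set_option linter.dupNamespace false

/-!
# L12: the chain rule in time
-/

open scoped ENNReal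
open Set MeasureTheory RealInnerProductSpace

namespace Pool.Agent.Work.MP_b0497c_an.Unf.L

open W S

namespace L12a

/-- Finite norm from a summable bound. -/
theorem nrm_of_bound {E : Type} [NormedAddCommGroup E] {T : ℝ} {f : ℝ → Md → E} {u : Md → ℝ}
    (hu : Summable u) (h : ∀ t ∈ Icc 0 T, ∀ q, ‖f t q‖ ≤ u q) :
    Nrm T 0 0 Dat.one' f ≠ ∞ := by
  refine ne_top_of_le_ne_top (b := ∑' q, ENNReal.ofReal (u q)) hu.tsum_ofReal_ne_top ?_
  unfold Nrm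
  refine ENNReal.tsum_le_tsum fun q => iSup₂_le fun t ht => ?_
  have e : ENNReal.ofReal (Real.exp ((0 - 0 * t) * len q) / Dat.one' t) = 1 := by
    simp [Dat.one']
  rw [e, one_mul, ← ofReal_norm]
  exact ENNReal.ofReal_le_ofReal (h t ht q)

theorem real_lab (K : ℕ → Fin 3 → ℤ) {ζ : Md → C3} (hr : RealV ζ) (i : ℕ) :
    RealS (lab K ζ i) := by
  intro q
  unfold lab
  rw [hr q]
  simp only [innerSL_apply_apply, PiLp.inner_apply, Fin.sum_univ_three, kv, cjv]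
  simp

theorem supp_lab (K : ℕ → Fin 3 → ℤ) {n : ℕ} {ζ : Md → C3} (hs : SuppIn (lev n : Set Md) ζ)
    (i : ℕ) : SuppIn (lev n : Set Md) (lab K ζ i) := by
  intro q hq
  unfold lab
  rw [hs q hq, map_zero]

theorem xh {n : ℕ} {T c1 B : ℝ} {K : ℕ → Fin 3 → ℤ} {ζ : ℝ → Md → C3} (hc1 : 0 ≤ c1)
    (hB : 0 ≤ B) (hs : SuppT T (lev n : Set Md) ζ) (hr : ∀ t ∈ Icc 0 T, RealV (ζ t))
    (hle : ∀ i ≤ n, Nrm T c1 0 Dat.one' (fun t => lab K (ζ t) i) ≤ ENNReal.ofReal B)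
    {t : ℝ} (ht : t ∈ Icc 0 T) : XH n c1 B (lab K (ζ t)) where
  c_nn := hc1
  B_nn := hB
  le := by
    intro i hi
    have h := sa_static (sa_wt1 T) (fun t => lab K (ζ t) i) (c := c1) (γ := 0) ht
    rw [zero_mul, sub_zero, ENNReal.ofReal_one, one_mul] at h
    exact h.trans (hle i hi)
  supp := fun i _ => supp_lab K (hs t ht) i
  real := fun i _ => real_lab K (hr t ht) i

theorem cm_gradV (K : ℕ → Fin 3 → ℤ) {T : ℝ} {f : ℝ → Md → C3} (hf : CM T f) :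
    CM T (fun t => gradV K (f t)) := by
  intro q
  have h1 : ContinuousOn (fun t => (ContinuousLinearMap.smulRightL ℂ C3 C3)
      (innerSL ℂ (xi K q)) (f t q)) (Icc 0 T) :=
    ((ContinuousLinearMap.smulRightL ℂ C3 C3) (innerSL ℂ (xi K q))).continuous.comp_continuousOn
      (hf q)
  exact h1.const_smul Complex.I

theorem nrm_gradV (K : ℕ → Fin 3 → ℤ) {n : ℕ} {T c c' : ℝ} (hc : c' < c) {f : ℝ → Md → C3}
    (hs : SuppT T (lev n : Set Md) f) (hf : Nrm T c 0 Dat.one' f ≠ ∞) :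
    Nrm T c' 0 Dat.one' (fun t => gradV K (f t)) ≠ ∞ := by
  obtain ⟨κ, hκ0, hκ⟩ := exists_kappa K n
  refine ne_top_of_le_ne_top (ENNReal.mul_ne_top (ENNReal.ofReal_ne_top (r := κ / (c - c'))) hf) ?_
  refine sa_len_fin hc (sa_wt1 T).pos hκ0 fun t ht q => ?_
  by_cases hq : q ∈ lev n
  · exact (gradV_norm (f t) q).trans
      (mul_le_mul_of_nonneg_right (nx_le K n hκ q hq) (norm_nonneg _))
  · rw [lp_supp_gradV K (hs t ht) q hq, hs t ht q hq, norm_zero, norm_zero, mul_zero]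

/-- The derivative of the value at a moving phase. -/
theorem moving {n : ℕ} {K : ℕ → Fin 3 → ℤ} {T c : ℝ} {f f' : ℝ → Md → C3} {X X' : ℝ → E3}
    (hT : 0 < T) (hc : 0 < c) (Ff : Fn n T c f) (Ff' : Fn n T c f') (θ : Md →+ ℝ)
    (df : ∀ q, ∀ t ∈ Icc 0 T, HasDerivWithinAt (fun t => f t q) (f' t q) (Icc 0 T) t)
    (dX : ∀ t ∈ Icc 0 T, HasDerivWithinAt X (X' t) (Icc 0 T) t)
    (cX' : ContinuousOn X' (Icc 0 T)) {C : ℝ} (hC0 : 0 ≤ C) (hC : ∀ t ∈ Icc 0 T, ‖X' t‖ ≤ C) :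
    ∀ t ∈ Icc 0 T, HasDerivWithinAt (fun t => ev (θ + ph (xiZ K) (X t)) (f t))
      (ev (θ + ph (xiZ K) (X t)) (gr (xiZ K) (f t)) (X' t) +
        ev (θ + ph (xiZ K) (X t)) (f' t)) (Icc 0 T) t := by
  have cX : ContinuousOn X (Icc 0 T) := fun t ht => (dX t ht).continuousWithinAt
  have c_ph : ∀ q, ContinuousOn (fun t => ch (θ + ph (xiZ K) (X t)) q) (Icc 0 T) := by
    intro q
    have h1 : (fun t => ch (θ + ph (xiZ K) (X t)) q) = fun t =>
        Complex.exp (Complex.I * (((θ q + phL (xiZ K) q (X t) : ℝ)) : ℂ)) := by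
      funext t
      rw [ch, AddMonoidHom.add_apply, phL_apply]
    rw [h1]
    refine Complex.continuous_exp.comp_continuousOn (continuousOn_const.mul ?_)
    refine Complex.continuous_ofReal.comp_continuousOn (continuousOn_const.add ?_)
    exact (phL (xiZ K) q).continuous.comp_continuousOn cX
  -- the families
  set h : ℝ → Md → C3 := fun t q => ch (θ + ph (xiZ K) (X t)) q • f t q with hh
  set h' : ℝ → Md → C3 := fun t q => ch (θ + ph (xiZ K) (X t)) q •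
    ((phL (xiZ K) q (X' t)) • (Complex.I • f t q) + f' t q) with hh'
  obtain ⟨u, hu, hub⟩ := sBd_of_Nrm (K := K) hc Ff.supp Ff.fin 1
  obtain ⟨v, hv, hv0, -, hvb⟩ := bound_of_Nrm Ff'.fin
  obtain ⟨w, hw, hw0, -, hwb⟩ := bound_of_Nrm Ff.fin
  have hwb' : ∀ t ∈ Icc 0 T, ∀ q, ‖f t q‖ ≤ w q := by
    intro t ht q
    refine le_trans ?_ (hwb t ht q)
    exact le_mul_of_one_le_left (norm_nonneg _)
      (Real.one_le_exp (mul_nonneg hc.le (len_nonneg q)))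
  have hvb' : ∀ t ∈ Icc 0 T, ∀ q, ‖f' t q‖ ≤ v q := by
    intro t ht q
    refine le_trans ?_ (hvb t ht q)
    exact le_mul_of_one_le_left (norm_nonneg _)
      (Real.one_le_exp (mul_nonneg hc.le (len_nonneg q)))
  have hnx : ∀ t ∈ Icc 0 T, ∀ q, nx (xiZ K) q * ‖f t q‖ ≤ u q := by
    intro t ht q
    refine le_trans ?_ (hub t ht q)
    rw [pow_one]
    have := norm_nonneg (f t q)
    nlinarith
  have bh : ∀ t ∈ Icc 0 T, ∀ q, ‖h t q‖ ≤ w q := by
    intro t ht q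
    rw [hh]
    simp only
    rw [norm_ch_smul]
    exact hwb' t ht q
  have bh' : ∀ t ∈ Icc 0 T, ∀ q, ‖h' t q‖ ≤ C * u q + v q := by
    intro t ht q
    rw [hh']
    simp only
    rw [norm_ch_smul]
    refine (norm_add_le _ _).trans (add_le_add ?_ (hvb' t ht q))
    rw [norm_smul, norm_smul, Complex.norm_I, one_mul]
    calc ‖phL (xiZ K) q (X' t)‖ * ‖f t q‖ ≤ (nx (xiZ K) q * C) * ‖f t q‖ := by
          refine mul_le_mul_of_nonneg_right ?_ (norm_nonneg _)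
          refine ((phL (xiZ K) q).le_opNorm _).trans ?_
          exact mul_le_mul (phL_norm _ _) (hC t ht) (norm_nonneg _) (nx_nonneg _ _)
      _ = C * (nx (xiZ K) q * ‖f t q‖) := by ring
      _ ≤ C * u q := mul_le_mul_of_nonneg_left (hnx t ht q) hC0
  have Fh : Fn n T 0 h := by
    refine ⟨fun q => (c_ph q).smul (Ff.cm q), fun t ht q hq => ?_, nrm_of_bound hw bh⟩
    rw [hh]
    simp only
    rw [Ff.supp t ht q hq, smul_zero]
  have Fh' : Fn n T 0 h' := by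
    refine ⟨fun q => (c_ph q).smul (ContinuousOn.add ?_ (Ff'.cm q)), fun t ht q hq => ?_,
      nrm_of_bound ((hu.mul_left C).add hv) bh'⟩
    · have c1' : ContinuousOn (fun t => (phL (xiZ K) q) (X' t)) (Icc 0 T) :=
        (phL (xiZ K) q).continuous.comp_continuousOn cX'
      exact c1'.smul ((Ff.cm q).const_smul Complex.I)
    · rw [hh']
      simp only
      rw [Ff.supp t ht q hq, Ff'.supp t ht q hq, smul_zero, smul_zero, add_zero, smul_zero]
  have dh : ∀ q, ∀ t ∈ Icc 0 T, HasDerivWithinAt (fun t => h t q) (h' t q) (Icc 0 T) t := by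
    intro q t ht
    have h1 : HasDerivWithinAt (fun t => ((θ q + phL (xiZ K) q (X t) : ℝ) : ℂ))
        ((phL (xiZ K) q (X' t) : ℝ) : ℂ) (Icc 0 T) t := by
      have h2 := ((phL (xiZ K) q).hasFDerivAt.comp_hasDerivWithinAt t (dX t ht)).const_add (θ q)
      exact Complex.ofRealCLM.hasFDerivAt.comp_hasDerivWithinAt t h2
    have h3 := (h1.const_mul Complex.I).cexp
    have h4 := h3.smul (df q t ht)
    have h5 : (fun t => h t q) = fun t => Complex.exp (Complex.I *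
        (((θ q + phL (xiZ K) q (X t) : ℝ)) : ℂ)) • f t q := by
      funext t
      rw [hh]
      simp only
      rw [ch, AddMonoidHom.add_apply, phL_apply]
    rw [h5]
    refine h4.congr_deriv ?_
    rw [hh']
    simp only
    rw [ch, AddMonoidHom.add_apply, phL_apply, phL_apply, smul_add, add_comm, mul_smul]
    congr 1
    congr 1
    rw [mul_comm, mul_smul]
    rfl
  have key := (L08a.deriv_iff hT Fh Fh').1 dh 0
  have e0 : ∀ (g : Md → C3) (t : ℝ), ev (0 : Md →+ ℝ) (fun q => ch (θ + ph (xiZ K) (X t)) q • g q) =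
      ev (θ + ph (xiZ K) (X t)) g := by
    intro g t
    unfold ev
    refine tsum_congr fun q => ?_
    have : ch (0 : Md →+ ℝ) q = 1 := by simp [ch]
    rw [this, one_smul]
  intro t ht
  have hk := key t ht
  simp only [hh, hh'] at hk
  simp only [e0] at hk
  refine hk.congr_deriv ?_
  have sf : Summable fun q => ‖f t q‖ :=
    Summable.of_nonneg_of_le (fun _ => norm_nonneg _) (fun q => hwb' t ht q) hw
  have sn : Summable fun q => nx (xiZ K) q * ‖f t q‖ :=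
    Summable.of_nonneg_of_le (fun q => mul_nonneg (nx_nonneg _ _) (norm_nonneg _))
      (fun q => hnx t ht q) hu
  have sf' : Summable fun q => ‖f' t q‖ :=
    Summable.of_nonneg_of_le (fun _ => norm_nonneg _) (fun q => hvb' t ht q) hv
  have sg := summable_gr sn
  have s3 : Summable fun q => ‖(phL (xiZ K) q (X' t)) • (Complex.I • f t q)‖ := by
    refine Summable.of_nonneg_of_le (fun _ => norm_nonneg _) (fun q => ?_)
      (sg.mul_right ‖X' t‖)
    exact (gr (xiZ K) (f t) q).le_opNorm (X' t)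
  have e1 : ev (θ + ph (xiZ K) (X t)) (fun q => (phL (xiZ K) q (X' t)) • (Complex.I • f t q) +
      f' t q) = ev (θ + ph (xiZ K) (X t)) (fun q => (phL (xiZ K) q (X' t)) • (Complex.I • f t q)) +
        ev (θ + ph (xiZ K) (X t)) (f' t) := ev_add _ s3 sf'
  rw [e1]
  congr 1
  have h2 : (ev (θ + ph (xiZ K) (X t)) (gr (xiZ K) (f t))) (X' t) =
      (ContinuousLinearMap.apply ℝ C3 (X' t)) (ev (θ + ph (xiZ K) (X t)) (gr (xiZ K) (f t))) := rfl
  rw [h2, ev, ev, (ContinuousLinearMap.apply ℝ C3 (X' t)).map_tsum (summable_ch _ sg)]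
  rfl

end L12a

open L12a in
theorem l12 (h05 : L05) (h07 : L07) (h08 : L08) : L12 := by
  intro n K T c c1 B ζ ζ' f f' hT hc1 hB hc Fζ Fζ' Ff Ff' hr hle dζ df
  have hc0 : 0 < c := by linarith
  have hX : ∀ {t : ℝ}, t ∈ Icc 0 T → XH n c1 B (lab K (ζ t)) := fun ht =>
    xh hc1.le hB Fζ.supp hr hle ht
  have cmx : ∀ i ≤ n, CM T (fun t => lab K (ζ t) i) := fun i _ =>
    sa_cm_map (innerSL ℂ (kv (K i))).continuous Fζ.cm
  have spx : ∀ i ≤ n, SuppT T (lev n : Set Md) (fun t => lab K (ζ t) i) := fun i _ t ht =>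
    supp_lab K (Fζ.supp t ht) i
  have w1 : Wt T Dat.one' := sa_wt1 T
  -- compositions
  obtain ⟨a1, a2, a3⟩ := h05 C3 n T c c1 B Dat.one' (fun t => lab K (ζ t)) f hT hc1.le hB hc.le w1
    Ff.supp hle
  obtain ⟨b1, b2, b3⟩ := h05 C3 n T c c1 B Dat.one' (fun t => lab K (ζ t)) f' hT hc1.le hB hc.le w1
    Ff'.supp hle
  have gs : SuppT T (lev n : Set Md) (fun t => gradV K (f t)) := fun t ht =>
    lp_supp_gradV K (Ff.supp t ht)
  have gn : Nrm T (c1 + B) 0 Dat.one' (fun t => gradV K (f t)) ≠ ∞ := nrm_gradV K hc Ff.supp Ff.fin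
  obtain ⟨g1, g2, g3⟩ := h05 Mat n T (c1 + B) c1 B Dat.one' (fun t => lab K (ζ t))
    (fun t => gradV K (f t)) hT hc1.le hB le_rfl w1 gs hle
  have gcm := g2 (cm_gradV K Ff.cm) cmx gn
  have gsp := g3 spx
  have gfn : Nrm T c1 0 Dat.one' (fun t => comp (lab K (ζ t)) (gradV K (f t))) ≠ ∞ :=
    ne_top_of_le_ne_top gn g1
  have hP : Par T c1 0 := ⟨hT, le_rfl, by simpa using hc1.le⟩
  have mcm : CM T (fun t => mul (comp (lab K (ζ t)) (gradV K (f t))) (ζ' t)) :=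
    sa_cm_mul hP w1 gcm Fζ'.cm gfn Fζ'.fin
  have mfn : Nrm T c1 0 Dat.one' (fun t => mul (comp (lab K (ζ t)) (gradV K (f t))) (ζ' t)) ≠ ∞ :=
    ne_top_of_le_ne_top (ENNReal.mul_ne_top gfn Fζ'.fin) (sa_nrm_mul1 hP w1 _ _)
  have bfn : Nrm T c1 0 Dat.one' (fun t => comp (lab K (ζ t)) (f' t)) ≠ ∞ :=
    ne_top_of_le_ne_top Ff'.fin b1
  have FF : Fn n T 0 (fun t => comp (lab K (ζ t)) (f t)) := by
    refine ⟨a2 Ff.cm cmx Ff.fin, a3 spx, ?_⟩
    exact ne_top_of_le_ne_top (ne_top_of_le_ne_top Ff.fin a1) (sa_nrm_cmono hc1.le w1.pos _)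
  have FF' : Fn n T 0 (fun t => comp (lab K (ζ t)) (f' t) +
      mul (comp (lab K (ζ t)) (gradV K (f t))) (ζ' t)) := by
    refine ⟨sa_cm_add (b2 Ff'.cm cmx Ff'.fin) mcm, fun t ht => ?_, ?_⟩
    · intro q hq
      have e1 : comp (lab K (ζ t)) (f' t) q = 0 := b3 spx t ht q hq
      rw [Pi.add_apply, e1, lp_supp_mul (gsp t ht) (Fζ'.supp t ht) q hq, add_zero]
    · refine ne_top_of_le_ne_top ?_ (sa_nrm_cmono hc1.le w1.pos _)
      exact ne_top_of_le_ne_top (ENNReal.add_ne_top.2 ⟨bfn, mfn⟩) (sa_nrm_add hP w1 _ _)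
  intro q t ht
  refine (h08.2 C3 n T _ _ hT FF FF').2 (fun θ t ht => ?_) q t ht
  -- the moving phase
  have F0 : Fn n T 0 ζ := ⟨Fζ.cm, Fζ.supp, ne_top_of_le_ne_top Fζ.fin (sa_nrm_cmono hc1.le w1.pos _)⟩
  have F0' : Fn n T 0 ζ' :=
    ⟨Fζ'.cm, Fζ'.supp, ne_top_of_le_ne_top Fζ'.fin (sa_nrm_cmono hc1.le w1.pos _)⟩
  have dev := (L08a.deriv_iff hT F0 F0').1 dζ θ
  have dX : ∀ t ∈ Icc 0 T, HasDerivWithinAt (fun t => reC (ev θ (ζ t))) (reC (ev θ (ζ' t)))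
      (Icc 0 T) t := fun t ht => reC.hasFDerivAt.comp_hasDerivWithinAt t (dev t ht)
  obtain ⟨v, hv, hv0, hvb⟩ := L08a.bd F0'
  have cX' : ContinuousOn (fun t => reC (ev θ (ζ' t))) (Icc 0 T) :=
    reC.continuous.comp_continuousOn (L08a.ev_cont θ F0'.cm hv hvb)
  have sζ' : ∀ t ∈ Icc 0 T, Summable fun q => ‖ζ' t q‖ := fun t ht =>
    Summable.of_nonneg_of_le (fun _ => norm_nonneg _) (fun q => hvb t ht q) hv
  have sζ : ∀ t ∈ Icc 0 T, Summable fun q => ‖ζ t q‖ := fun t ht =>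
    lp_summable hc1.le (L08a.sN_of_Nrm Fζ.fin ht)
  have bX' : ∀ t ∈ Icc 0 T, ‖reC (ev θ (ζ' t))‖ ≤ ‖reC‖ * ∑' q, v q := by
    intro t ht
    refine (reC.le_opNorm _).trans (mul_le_mul_of_nonneg_left ?_ (norm_nonneg _))
    exact (norm_ev_le θ (sζ' t ht)).trans ((sζ' t ht).tsum_le_tsum (fun q => hvb t ht q) hv)
  have hmv := moving (K := K) hT hc0 Ff Ff' θ df dX cX'
    (mul_nonneg (norm_nonneg _) (tsum_nonneg hv0)) bX' t ht
  have ev1 : ∀ s ∈ Icc 0 T, ev θ (comp (lab K (ζ s)) (f s)) =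
      ev (θ + ph (xiZ K) (reC (ev θ (ζ s)))) (f s) := by
    intro s hs
    obtain ⟨-, -, h⟩ := h07 C3 n c c1 B (lab K (ζ s)) (f s) (hX hs) hc.le (Ff.supp s hs)
      (L08a.sN_of_Nrm Ff.fin hs)
    rw [h θ, lp_sh_lab K θ (sζ s hs)]
  refine (hmv.congr_deriv ?_).congr (fun s hs => ev1 s hs) (ev1 t ht)
  -- the value of the derivative
  have sff := L08a.sN_of_Nrm Ff.fin ht
  have sff' := L08a.sN_of_Nrm Ff'.fin ht
  obtain ⟨p1, p2, p3⟩ := h07 C3 n c c1 B (lab K (ζ t)) (f' t) (hX ht) hc.le (Ff'.supp t ht) sff'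
  have sgf := L08a.sN_of_Nrm gn ht
  obtain ⟨r1, r2, r3⟩ := h07 Mat n (c1 + B) c1 B (lab K (ζ t)) (gradV K (f t)) (hX ht) le_rfl
    (gs t ht) sgf
  have scg : Summable fun q => ‖comp (lab K (ζ t)) (gradV K (f t)) q‖ :=
    lp_summable hc1.le (ne_top_of_le_ne_top sgf r1)
  have scf' : Summable fun q => ‖comp (lab K (ζ t)) (f' t) q‖ :=
    lp_summable hc1.le (ne_top_of_le_ne_top sff' p1)
  have smm : Summable fun q => ‖mul (comp (lab K (ζ t)) (gradV K (f t))) (ζ' t) q‖ := by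
    refine lp_summable le_rfl (fin_mul le_rfl (lp_fin_of_summable scg)
      (lp_fin_of_summable (sζ' t ht)))
  have hreal : ofC (reC (ev θ (ζ' t))) = ev θ (ζ' t) := by
    have h1 : HasDerivWithinAt (fun s => ev θ (ζ s)) (ofC (reC (ev θ (ζ' t)))) (Icc 0 T) t := by
      refine (ofC.hasFDerivAt.comp_hasDerivWithinAt t (dX t ht)).congr (fun s hs => ?_) ?_
      · exact (ev_real θ (sζ s hs) (hr s hs)).symm
      · exact (ev_real θ (sζ t ht) (hr t ht)).symm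
    exact (uniqueDiffOn_Icc hT t ht).eq_deriv _ h1 (dev t ht)
  rw [ev_add θ scf' smm, ev_mul θ scg (sζ' t ht), p3 θ, r3 θ, ← hreal,
    ev_gradV _ (lp_summable_nx K hc0 (Ff.supp t ht) sff), lp_sh_lab K θ (sζ t ht), reC_ofC,
    add_comm]

end Pool.Agent.Work.MP_b0497c_an.Unf.L

end

section

set_option autoImplicit false
set_option linter.dupNamespace false
set_option linter.unusedSectionVars false

/-!
# Block L, item L21: the table of `z`, `1 + grad ζ` and its inverse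
-/

open scoped ENNReal
open Set MeasureTheory

namespace Pool.Agent.Work.MP_b0497c_an.Unf.L

open W S

namespace L21aux

variable {D : Dat} {w ζ : ℝ → Md → C3}

/-- The inverse of a shear. -/
theorem shear_inv {n : ℕ} {k : Fin 3 → ℤ} {z : Md → C3} {c : ℝ} (hc : 0 < c)
    (hz : SuppIn (Cl (n + 1)) z)
    (ho : ∀ q, inner ℂ (kv k) (z q) = 0) (hf : sN c z ≠ ∞) :
    mm (shM z (kv k)) (shP z (kv k)) = oneM ∧ mm (shP z (kv k)) (shM z (kv k)) = oneM := by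
  have h0 : FData (lev (n + 1 - 1)) c 1 1 oneM oneM := by
    refine ⟨hc, le_rfl, le_rfl, ?_, ?_, ?_, ?_, ?_, ?_, ?_⟩
    · intro x hx
      exact (w21.2 (n + 1 - 1) x hx).1
    · intro q hq
      exact lc_supp_oneM q hq
    · intro q hq
      exact lc_supp_oneM q hq
    · rw [ENNReal.ofReal_one]; exact IC09.sN_one 0
    · rw [ENNReal.ofReal_one]; exact IC09.sN_one c
    · rw [mulK_oneM]
      exact ((pr_W11 Md C3 C3 C3 C3).2.2.2.2.1 idK).1
    · rw [mulK_oneM]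
      exact ((pr_W11 Md C3 C3 C3 C3).2.2.2.2.1 idK).1
  have hg : sN c z * ‖kv k‖ₑ ≤ ENNReal.ofReal (sN c z * ‖kv k‖ₑ).toReal :=
    (ENNReal.ofReal_toReal (ENNReal.mul_ne_top hf enorm_ne_top)).ge
  have h1 := c09 w10 w11 w21 (n + 1) c 1 1 _ k oneM oneM z (by omega) h0 hz ho
    ENNReal.toReal_nonneg hg
  have h2 := sh_left h1
  rw [sh_mm_one, sh_one_mm] at h2
  exact h2


theorem cjv_K1 : cjv (K1 D) = K1 D := by
  ext i
  simp [cjv, K1, Dat.kk, kv]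

theorem K1_inner_cjv (v : C3) :
    innerSL ℂ (K1 D) (cjv v) = starRingEnd ℂ (innerSL ℂ (K1 D) v) := inner_kv_cjv _ v

theorem dj_real {f : Md → C3} (hf : RealV f) (j : ℕ) : RealV (dj j f) := by
  intro q
  simp only [dj]
  rw [hf q, cjv_smul']
  congr 1
  simp
  

/-- The orthogonal decomposition. -/
theorem z1_decomp (t : ℝ) (q : Md) : dj (D.n + 1) (ζ t) q =
    z1 D ζ t q + (innerSL ℂ (K1 D) (dj (D.n + 1) (ζ t) q) / (N1 D : ℂ) ^ 2) • K1 D := by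
  rw [z1, sub_add_cancel]

theorem inner_K1 : inner ℂ (K1 D) (K1 D) = (N1 D : ℂ) ^ 2 := by
  rw [inner_self_eq_norm_sq_to_K]
  rfl

theorem z1_orth (hD : D.Hyp) (t : ℝ) (q : Md) : inner ℂ (K1 D) (z1 D ζ t q) = 0 := by
  have hN : (N1 D : ℂ) ≠ 0 := by
    exact_mod_cast (N1_pos hD).ne'
  rw [z1, inner_sub_right, inner_smul_right, inner_K1, innerSL_apply_apply]
  field_simp
  ring

theorem z1_norm (hD : D.Hyp) (t : ℝ) (q : Md) : ‖z1 D ζ t q‖ ≤ ‖dj (D.n + 1) (ζ t) q‖ := by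
  have h1 := z1_decomp (D := D) (ζ := ζ) t q
  set x := (innerSL ℂ (K1 D) (dj (D.n + 1) (ζ t) q) / (N1 D : ℂ) ^ 2) • K1 D with hx
  have h2 : inner ℂ (z1 D ζ t q) x = 0 := by
    rw [hx, inner_smul_right, ← inner_conj_symm, z1_orth hD]
    simp
  have h3 := norm_add_sq_eq_norm_sq_add_norm_sq_of_inner_eq_zero (z1 D ζ t q) x h2
  rw [h1]
  have h4 : 0 ≤ ‖x‖ * ‖x‖ := by positivity
  have h5 : ‖z1 D ζ t q‖ * ‖z1 D ζ t q‖ ≤ ‖z1 D ζ t q + x‖ * ‖z1 D ζ t q + x‖ := by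
    rw [h3]; linarith
  exact (mul_self_le_mul_self_iff (norm_nonneg _) (norm_nonneg _)).mpr h5

/-- The remainder of the gradient. -/
noncomputable def rem (D : Dat) (ζ : ℝ → Md → C3) (t : ℝ) (q : Md) : Mat :=
  (innerSL ℂ (K1 D)).smulRight
    ((innerSL ℂ (K1 D) (dj (D.n + 1) (ζ t) q) / (N1 D : ℂ) ^ 2) • K1 D) +
  Complex.I • (innerSL ℂ (xi' D.K (D.n + 1) q)).smulRight (ζ t q)

theorem Lm_eq (t : ℝ) : Lm D ζ t = fun q => shP (z1 D ζ t) (K1 D) q + rem D ζ t q := by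
  funext q
  have h1 : xi D.K q = (q (D.n + 1) : ℂ) • K1 D + xi' D.K (D.n + 1) q := by
    rw [xi']
    simp only [K1, Dat.kk]
    abel
  have h2 := z1_decomp (D := D) (ζ := ζ) t q
  show oneM q + gradV D.K (ζ t) q = oneM q + (innerSL ℂ (K1 D)).smulRight (z1 D ζ t q) + _
  rw [add_assoc]
  congr 1
  rw [rem, ← add_assoc]
  ext1 v
  simp only [gradV, _root_.add_apply, _root_.smul_apply, ContinuousLinearMap.smulRight_apply,
    innerSL_apply_apply]
  rw [h1, inner_add_left, inner_smul_left, ← smul_add, z1]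
  simp only [dj, innerSL_apply_apply]
  have h3 : (starRingEnd ℂ) ((q (D.n + 1) : ℂ)) = (q (D.n + 1) : ℂ) := by simp
  rw [h3, sub_add_cancel, add_smul, smul_add, smul_smul, smul_smul, smul_smul]
  congr 2
  ring

theorem rem_norm (hD : D.Hyp) (t : ℝ) (q : Md) : ‖rem D ζ t q‖ ≤
    ‖dj (D.n + 1) (lab D.K (ζ t) (D.n + 1)) q‖ + ‖xi' D.K (D.n + 1) q‖ * ‖ζ t q‖ := by
  have hN := N1_pos hD
  rw [rem]
  refine (norm_add_le _ _).trans (add_le_add ?_ ?_)
  · rw [ContinuousLinearMap.norm_smulRight_apply, innerSL_apply_norm, norm_smul, K1_norm, norm_div,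
      norm_pow]
    have h1 : ‖(N1 D : ℂ)‖ = N1 D := by
      rw [Complex.norm_real, Real.norm_of_nonneg hN.le]
    rw [h1]
    have h2 : innerSL ℂ (K1 D) (dj (D.n + 1) (ζ t) q) =
        dj (D.n + 1) (lab D.K (ζ t) (D.n + 1)) q := by
      simp only [dj, lab, K1, Dat.kk, map_smul]
    rw [h2]
    apply le_of_eq
    field_simp
  · rw [norm_smul, Complex.norm_I, one_mul, ContinuousLinearMap.norm_smulRight_apply,
      innerSL_apply_norm]


theorem dj_supp (hz : SuppT D.T (lev (D.n + 1) : Set Md) ζ) {t : ℝ} (ht : t ∈ Icc 0 D.T)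
    {q : Md} (hq : q ∉ Cl (D.n + 1)) : dj (D.n + 1) (ζ t) q = 0 := by
  by_cases h : q ∈ (lev (D.n + 1) : Set Md)
  · have h0 : q (D.n + 1) = 0 := by
      by_contra h1
      exact hq ⟨h, h1⟩
    simp [dj, h0]
  · simp [dj, hz t ht q h]

theorem c8 (hD : D.Hyp) : 1 / (D.c / 4 - D.c / 8) ≤ 4 * D.G := by
  have hc := hD.c_pos
  have h1 : D.c / 4 - D.c / 8 = D.c / 8 := by ring
  rw [h1, div_le_iff₀ (by positivity)]
  have := hD.c_G
  nlinarith

theorem z1_le (hD : D.Hyp) (hL : LabD D w ζ) :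
    Nrm D.T (D.c / 8) 0 (α1 D) (z1 D ζ) ≤ ENNReal.ofReal (D.G ^ 8 / N1 D) := by
  have hc := hD.c_pos
  have hG := hD.G_two
  have hN := N1_pos hD
  have h1 := (l15 C3 D.T (D.c / 4) (D.c / 8) (α1 D) ζ hD.T_pos (by linarith) (α1_wt hD)).2 (D.n + 1)
  have h2 : Nrm D.T (D.c / 8) 0 (α1 D) (z1 D ζ) ≤
      Nrm D.T (D.c / 8) 0 (α1 D) (fun t => dj (D.n + 1) (ζ t)) :=
    sa_nrm_le1 fun t _ q => z1_norm hD t q
  refine h2.trans (h1.trans ?_)
  calc ENNReal.ofReal (1 / (D.c / 4 - D.c / 8)) * Nrm D.T (D.c / 4) 0 (α1 D) ζ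
      ≤ ENNReal.ofReal (4 * D.G) * ENNReal.ofReal (D.G ^ 5 / N1 D) := by
        gcongr
        · exact c8 hD
        · exact hL.le
    _ = ENNReal.ofReal (4 * D.G * (D.G ^ 5 / N1 D)) := by
        rw [← ENNReal.ofReal_mul (by positivity)]
    _ ≤ _ := by
        apply ENNReal.ofReal_le_ofReal
        rw [mul_div_assoc']
        gcongr
        calc 4 * D.G * D.G ^ 5 = 4 * D.G ^ 6 := by ring
          _ ≤ D.G ^ 2 * D.G ^ 6 := by
            gcongr
            nlinarith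
          _ = D.G ^ 8 := by ring

theorem rem_le (hD : D.Hyp) (hL : LabD D w ζ) :
    Nrm D.T (D.c / 8) 0 (α1 D) (rem D ζ) ≤ ENNReal.ofReal (D.G ^ 5 * u1 D ^ 120) := by
  have hc := hD.c_pos
  have hG := hD.G_two
  have hN := N1_pos hD
  have hu := u1_pos hD
  have hα := α1_wt hD
  have hNn : 0 ≤ D.N D.n := norm_nonneg _
  have h1 := (l15 ℂ D.T (D.c / 4) (D.c / 8) (α1 D) (fun t => lab D.K (ζ t) (D.n + 1)) hD.T_pos
    (by linarith) hα).2 (D.n + 1)
  have h2 := (l15 C3 D.T (D.c / 4) (D.c / 8) (α1 D) ζ hD.T_pos (by linarith) hα).1 C3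
    (fun t q => (‖xi' D.K (D.n + 1) q‖ : ℂ) • ζ t q) (D.N D.n) hNn (by
      intro t ht q
      rw [norm_smul, Complex.norm_real, norm_norm]
      by_cases hq : q ∈ (lev (D.n + 1) : Set Md)
      · refine mul_le_mul_of_nonneg_right ?_ (norm_nonneg _)
        exact (s01 D.K).2.2.2.1 q (D.n + 1) (D.N D.n) hq
          (fun i hi => kv_le hD (Nat.lt_succ_iff.mp hi)) hNn
      · rw [hL.supp t ht q hq, norm_zero, mul_zero, mul_zero])
  have h3 : Nrm D.T (D.c / 8) 0 (α1 D) (rem D ζ) ≤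
      Nrm D.T (D.c / 8) 0 (α1 D) (fun t q => (‖dj (D.n + 1) (lab D.K (ζ t) (D.n + 1)) q‖ : ℂ)) +
      Nrm D.T (D.c / 8) 0 (α1 D) (fun t q => (‖xi' D.K (D.n + 1) q‖ * ‖ζ t q‖ : ℂ)) := by
    refine le_trans ?_ (sa_nrm_add (par0 hD (by positivity)) hα _ _)
    refine sa_nrm_le1 fun t _ q => ?_
    refine (rem_norm hD t q).trans (le_of_eq ?_)
    show _ = ‖((‖dj (D.n + 1) (lab D.K (ζ t) (D.n + 1)) q‖ : ℂ) +
      (‖xi' D.K (D.n + 1) q‖ * ‖ζ t q‖ : ℂ))‖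
    rw [← Complex.ofReal_mul, ← Complex.ofReal_add, Complex.norm_real, Real.norm_of_nonneg]
    positivity
  have h4 : Nrm D.T (D.c / 8) 0 (α1 D)
      (fun t q => (‖dj (D.n + 1) (lab D.K (ζ t) (D.n + 1)) q‖ : ℂ)) ≤
      ENNReal.ofReal (8 * D.G * u1 D ^ 120) := by
    refine (sa_nrm_le1 (f := fun t => dj (D.n + 1) (lab D.K (ζ t) (D.n + 1))) fun t _ q => by
      rw [Complex.norm_real, norm_norm]).trans (h1.trans ?_)
    calc ENNReal.ofReal (1 / (D.c / 4 - D.c / 8)) *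
        Nrm D.T (D.c / 4) 0 (α1 D) (fun t => lab D.K (ζ t) (D.n + 1))
        ≤ ENNReal.ofReal (4 * D.G) * ENNReal.ofReal (2 * u1 D ^ 120) := by
          gcongr
          · exact c8 hD
          · exact hL.lab_le (D.n + 1) le_rfl
      _ = ENNReal.ofReal (4 * D.G * (2 * u1 D ^ 120)) := by
          rw [← ENNReal.ofReal_mul (by positivity)]
      _ = _ := by ring_nf
  have h5 : Nrm D.T (D.c / 8) 0 (α1 D)
      (fun t q => (‖xi' D.K (D.n + 1) q‖ * ‖ζ t q‖ : ℂ)) ≤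
      ENNReal.ofReal (4 * u1 D ^ 120) := by
    refine (sa_nrm_le1 (f := fun t q => (‖xi' D.K (D.n + 1) q‖ : ℂ) • ζ t q) fun t _ q => by
      rw [norm_mul, norm_smul, Complex.norm_real, Complex.norm_real, norm_norm, norm_norm]).trans
      (h2.trans ?_)
    calc ENNReal.ofReal (D.N D.n / (D.c / 4 - D.c / 8)) * Nrm D.T (D.c / 4) 0 (α1 D) ζ
        ≤ ENNReal.ofReal (D.N D.n * (4 * D.G)) * ENNReal.ofReal (D.G ^ 5 / N1 D) := by
          gcongr
          · rw [div_eq_mul_one_div]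
            gcongr
            exact c8 hD
          · exact hL.le
      _ = ENNReal.ofReal (D.N D.n * (4 * D.G) * (D.G ^ 5 / N1 D)) := by
          rw [← ENNReal.ofReal_mul (by positivity)]
      _ ≤ _ := by
          apply ENNReal.ofReal_le_ofReal
          have h6 := Nn_le hD
          calc D.N D.n * (4 * D.G) * (D.G ^ 5 / N1 D)
              ≤ (u1 D ^ 512 * N1 D) * (4 * D.G) * (D.G ^ 5 / N1 D) := by gcongr
            _ = 4 * (D.G ^ 6 * u1 D ^ (120 + 392)) := by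
                field_simp
            _ ≤ 4 * u1 D ^ 120 := by
                gcongr
                exact Gk_uij hD (by norm_num)
  refine h3.trans ((add_le_add h4 h5).trans ?_)
  rw [← ENNReal.ofReal_add (by positivity) (by positivity)]
  apply ENNReal.ofReal_le_ofReal
  have h6 : 8 * D.G + 4 ≤ D.G ^ 5 := by
    have h7 : (16:ℝ) ≤ D.G ^ 4 := by
      have : (2:ℝ) ^ 4 ≤ D.G ^ 4 := pow_le_pow_left₀ (by norm_num) hG 4
      linarith
    calc 8 * D.G + 4 ≤ 16 * D.G := by linarith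
      _ ≤ D.G ^ 4 * D.G := by gcongr
      _ = D.G ^ 5 := by ring
  calc 8 * D.G * u1 D ^ 120 + 4 * u1 D ^ 120 = (8 * D.G + 4) * u1 D ^ 120 := by ring
    _ ≤ D.G ^ 5 * u1 D ^ 120 := by gcongr


theorem z1_cm (hz : CM D.T ζ) : CM D.T (z1 D ζ) := by
  intro q
  have h : Continuous (fun v : C3 => (Complex.I * (q (D.n + 1) : ℂ)) • v -
      (innerSL ℂ (K1 D) ((Complex.I * (q (D.n + 1) : ℂ)) • v) / (N1 D : ℂ) ^ 2) • K1 D) := by
    fun_prop
  exact h.comp_continuousOn (hz q)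

theorem z1_supp (hz : SuppT D.T (lev (D.n + 1) : Set Md) ζ) : SuppT D.T (Cl (D.n + 1)) (z1 D ζ) := by
  intro t ht q hq
  rw [z1, dj_supp hz ht hq]
  simp

theorem cjv_sub' (v w : C3) : cjv (v - w) = cjv v - cjv w := by
  ext i
  simp [cjv]

theorem z1_real {t : ℝ} (h : RealV (ζ t)) : RealV (z1 D ζ t) := by
  intro q
  rw [z1, z1, dj_real h (D.n + 1) q, K1_inner_cjv, cjv_sub', cjv_smul', cjv_K1]
  simp

theorem z1_even {t : ℝ} (h : OddF (ζ t)) : EvenF (z1 D ζ t) := by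
  intro q
  have h1 : dj (D.n + 1) (ζ t) (-q) = dj (D.n + 1) (ζ t) q := by
    simp only [dj]
    rw [h q]
    simp
  rw [z1, z1, h1]

theorem shP_evenM {z : Md → C3} (h : RealV z) (h' : EvenF z) : A.EvenM (shP z (K1 D)) := by
  have e : shP z (K1 D) = oneM + fun q => (innerSL ℂ (K1 D)).smulRight (z q) := rfl
  rw [e]
  refine lc_evenM_add lc_evenM_oneM ⟨fun q v => ?_, fun q => ?_⟩
  · simp only [ContinuousLinearMap.smulRight_apply]
    rw [K1_inner_cjv, h q, cjv_smul']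
  · simp only
    rw [h' q]

theorem shP_supp {z : Md → C3} {n : ℕ} {k : C3} (h : SuppIn (Cl n) z) :
    SuppIn (lev n : Set Md) (shP z k) ∧ SuppIn (lev n : Set Md) (shM z k) := by
  have h1 : ∀ q, q ∉ (lev n : Set Md) → (innerSL ℂ k).smulRight (z q) = 0 := by
    intro q hq
    rw [h q fun hh => hq hh.1]
    ext1 v
    simp
  constructor
  · intro q hq
    rw [shP, h1 q hq, lc_supp_oneM q hq, add_zero]
  · intro q hq
    rw [shM, h1 q hq, lc_supp_oneM q hq, sub_zero]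

theorem sh_le (hD : D.Hyp) (hL : LabD D w ζ) :
    Nrm D.T (D.c / 8) 0 Dat.one' (fun t => shP (z1 D ζ t) (K1 D)) ≤
      ENNReal.ofReal (1 + D.G ^ 9) ∧
    Nrm D.T (D.c / 8) 0 Dat.one' (fun t => shM (z1 D ζ t) (K1 D)) ≤
      ENNReal.ofReal (1 + D.G ^ 9) := by
  have hc := hD.c_pos
  have hG := G_pos hD
  have hN := N1_pos hD
  have h1 := Nrm_one_of hD (z1_le hD hL)
  have h2 := sa_N_sh (par0 hD (c := D.c / 8) (by positivity)) (K1 D) (z1 D ζ)
  have h3 : 1 + ENNReal.ofReal ‖K1 D‖ * Nrm D.T (D.c / 8) 0 (fun _ => 1) (z1 D ζ) ≤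
      ENNReal.ofReal (1 + D.G ^ 9) := by
    calc 1 + ENNReal.ofReal ‖K1 D‖ * Nrm D.T (D.c / 8) 0 (fun _ => 1) (z1 D ζ)
        ≤ ENNReal.ofReal 1 + ENNReal.ofReal (N1 D) * ENNReal.ofReal (D.G * (D.G ^ 8 / N1 D)) := by
          rw [ENNReal.ofReal_one]
          exact add_le_add le_rfl (mul_le_mul' le_rfl h1)
      _ = ENNReal.ofReal (1 + D.G ^ 9) := by
          rw [← ENNReal.ofReal_mul hN.le, ← ENNReal.ofReal_add zero_le_one (by positivity)]
          congr 2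
          field_simp
  exact ⟨h2.1.trans h3, h2.2.trans h3⟩

theorem G9 (hD : D.Hyp) : 2 + D.G ^ 9 ≤ D.G ^ 10 := by
  have hG := hD.G_two
  have h1 : (1:ℝ) ≤ D.G ^ 9 := one_le_pow₀ (by linarith)
  have h2 : (2:ℝ) ^ 9 ≤ D.G ^ 9 := pow_le_pow_left₀ (by norm_num) hG 9
  have h3 : D.G ^ 10 = D.G ^ 9 * D.G := by ring
  rw [h3]
  nlinarith

theorem rem_one (hD : D.Hyp) (hL : LabD D w ζ) :
    Nrm D.T (D.c / 8) 0 Dat.one' (rem D ζ) ≤ ENNReal.ofReal (D.G ^ 6 * u1 D ^ 120) := by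
  have h := Nrm_one_of hD (rem_le hD hL)
  have e : D.G * (D.G ^ 5 * u1 D ^ 120) = D.G ^ 6 * u1 D ^ 120 := by ring
  rwa [e] at h

end L21aux

open L21aux in
/-- L21. -/
theorem l21 (h14 : L14) : L21 := by
  intro D X U a p w0 w ζ hD hX hW hL
  have hc := hD.c_pos
  have hG := hD.G_two
  have hG0 := G_pos hD
  have hN := N1_pos hD
  have hu := u1_pos hD
  have hα := α1_wt hD
  obtain ⟨-, g2, g3, g4⟩ := (l15b (D.n + 1) D.K D.T (D.c / 4) (D.c / 8) (N1 D) (α1 D) hD.T_pos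
    (by linarith) hα hN.le (fun i hi => kv_le1 hD hi)).1 ζ hL.supp
  have hcmL : CM D.T (Lm D ζ) := fun q => continuousOn_const.add (g3 hL.cm q)
  have hsL : SuppT D.T (lev (D.n + 1) : Set Md) (Lm D ζ) := fun t ht =>
    lc_supp_add lc_supp_oneM (g2 t ht)
  have hsz : SuppT D.T (Cl (D.n + 1)) (z1 D ζ) := z1_supp hL.supp
  have hcz : CM D.T (z1 D ζ) := z1_cm hL.cm
  have hcsh := sa_cm_sh (K1 D) hcz
  have hLeq : ∀ t, shP (z1 D ζ t) (K1 D) + rem D ζ t = Lm D ζ t := fun t => (Lm_eq t).symm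
  have hrem : ∀ t, rem D ζ t = Lm D ζ t - shP (z1 D ζ t) (K1 D) := fun t => by
    rw [← hLeq t, add_sub_cancel_left]
  have hrle := rem_le hD hL
  have hr1 := rem_one hD hL
  obtain ⟨hP, hQ⟩ := sh_le hD hL
  have hpar := par0 hD (c := D.c / 8) (by positivity)
  have hremle1 : D.G ^ 6 * u1 D ^ 120 ≤ 1 := Gk_uj hD (by norm_num)
  refine ⟨⟨hcmL, hsL, fun t ht => lc_evenM_add lc_evenM_oneM (g4 hL.odd t ht), ?_⟩,
    ⟨hcz, hsz, fun t ht => z1_real (hL.odd t ht).1, fun t _ q => z1_orth hD t q, z1_le hD hL⟩,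
    ?_, ?_⟩
  · have h1 : Nrm D.T (D.c / 8) 0 Dat.one' (Lm D ζ) ≤
        Nrm D.T (D.c / 8) 0 Dat.one' (fun t => shP (z1 D ζ t) (K1 D)) +
        Nrm D.T (D.c / 8) 0 Dat.one' (rem D ζ) := by
      have h2 := sa_nrm_add hpar (one_wt D.T) (fun t => shP (z1 D ζ t) (K1 D)) (rem D ζ)
      have h3 : (fun t => shP (z1 D ζ t) (K1 D) + rem D ζ t) = Lm D ζ := by
        funext t; exact hLeq t
      rwa [h3] at h2
    refine h1.trans ((add_le_add hP hr1).trans ?_)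
    rw [← ENNReal.ofReal_add (by positivity) (by positivity)]
    apply ENNReal.ofReal_le_ofReal
    have := G9 hD
    linarith
  · have h3 : (fun t => Lm D ζ t - shP (z1 D ζ t) (K1 D)) = rem D ζ := by
      funext t; exact (hrem t).symm
    rw [h3]
    exact hrle
  · have hfP : Fn (D.n + 1) D.T (D.c / 8) (fun t => shP (z1 D ζ t) (K1 D)) :=
      ⟨hcsh.1, fun t ht => (shP_supp (hsz t ht)).1, sa_fin0 hP⟩
    have hfQ : Fn (D.n + 1) D.T (D.c / 8) (fun t => shM (z1 D ζ t) (K1 D)) :=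
      ⟨hcsh.2, fun t ht => (shP_supp (hsz t ht)).2, sa_fin0 hQ⟩
    have hcr : CM D.T (rem D ζ) := by
      have h1 : rem D ζ = fun t => Lm D ζ t - shP (z1 D ζ t) (K1 D) := by
        funext t; exact hrem t
      rw [h1]
      exact sa_cm_sub hcmL hcsh.1
    have hfR : Fn (D.n + 1) D.T (D.c / 8) (rem D ζ) :=
      ⟨hcr, fun t ht => by rw [hrem t]; exact lc_supp_sub (hsL t ht) (shP_supp (hsz t ht)).1,
        sa_fin0 hr1⟩
    have hb : D.G ^ 10 * (D.G ^ 6 * u1 D ^ 120) ≤ 1 / 2 := by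
      have h1 : D.G ^ 17 * u1 D ^ 120 ≤ 1 := Gk_uj hD (by norm_num)
      have h2 : D.G ^ 17 * u1 D ^ 120 = D.G * (D.G ^ 16 * u1 D ^ 120) := by ring
      have h3 : 2 * (D.G ^ 16 * u1 D ^ 120) ≤ D.G * (D.G ^ 16 * u1 D ^ 120) := by gcongr
      calc D.G ^ 10 * (D.G ^ 6 * u1 D ^ 120) = D.G ^ 16 * u1 D ^ 120 := by ring
        _ ≤ 1 / 2 := by linarith
    have hinv : ∀ t ∈ Icc 0 D.T, mm (shM (z1 D ζ t) (K1 D)) (shP (z1 D ζ t) (K1 D)) = oneM ∧
        mm (shP (z1 D ζ t) (K1 D)) (shM (z1 D ζ t) (K1 D)) = oneM := by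
      intro t ht
      refine shear_inv (c := D.c / 8) (by positivity) (hsz t ht) (fun q => z1_orth hD t q) ?_
      exact ne_top_of_le_ne_top (sa_fin0 (Nrm_one_of hD (z1_le hD hL))) (A.sN_le_Nrm1 ht)
    obtain ⟨Y, y1, y2, y3, y4, y5, y6⟩ := h14 (D.n + 1) D.T (D.c / 8) (D.G ^ 10)
      (D.G ^ 6 * u1 D ^ 120) (fun t => shP (z1 D ζ t) (K1 D)) (fun t => shM (z1 D ζ t) (K1 D))
      (rem D ζ) hD.T_pos (by positivity) (one_le_pow₀ (by linarith)) (by positivity) hb hfP hfQ hfR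
      (hQ.trans (ENNReal.ofReal_le_ofReal (by have := G9 hD; linarith))) hr1 hinv
    have hE : ∀ t ∈ Icc 0 D.T, A.EvenM (shP (z1 D ζ t) (K1 D)) ∧ A.EvenM (rem D ζ t) := by
      intro t ht
      have h1 := shP_evenM (D := D) (z1_real (hL.odd t ht).1) (z1_even (D := D) (hL.odd t ht).2)
      refine ⟨h1, ?_⟩
      have h2 := lc_evenM_add lc_evenM_oneM (g4 hL.odd t ht)
      rw [hrem t]
      refine ⟨fun q v => ?_, fun q => ?_⟩
      · show Lm D ζ t (-q) (cjv v) - shP (z1 D ζ t) (K1 D) (-q) (cjv v) =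
          cjv (Lm D ζ t q v - shP (z1 D ζ t) (K1 D) q v)
        rw [h1.1 q v, cjv_sub']
        congr 1
        exact h2.1 q v
      · show Lm D ζ t (-q) - shP (z1 D ζ t) (K1 D) (-q) = Lm D ζ t q - shP (z1 D ζ t) (K1 D) q
        rw [h1.2 q]
        congr 1
        exact h2.2 q
    refine ⟨Y, y1, y2, y6 hE, fun t ht => ?_, fun t ht => ?_, ?_, ?_⟩
    · have h := (y4 t ht).1
      rwa [hLeq t] at h
    · have h := (y4 t ht).2
      rwa [hLeq t] at h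
    · refine y3.trans (ENNReal.ofReal_le_ofReal ?_)
      calc 2 * D.G ^ 10 ≤ D.G ^ 2 * D.G ^ 10 := by
            gcongr
            nlinarith
        _ = D.G ^ 12 := by ring
    · refine (y5 (α1 D) hα).trans ((mul_le_mul' le_rfl hrle).trans ?_)
      rw [← ENNReal.ofReal_mul (by positivity)]
      apply ENNReal.ofReal_le_ofReal
      have h2 : (2:ℝ) ≤ D.G ^ 5 := by
        have : (2:ℝ) ^ 5 ≤ D.G ^ 5 := pow_le_pow_left₀ (by norm_num) hG 5
        linarith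
      calc 2 * (D.G ^ 10) ^ 2 * (D.G ^ 5 * u1 D ^ 120)
          = 2 * (D.G ^ 25 * u1 D ^ 120) := by ring
        _ ≤ D.G ^ 5 * (D.G ^ 25 * u1 D ^ 120) := by gcongr
        _ = D.G ^ 30 * u1 D ^ 120 := by ring

end Pool.Agent.Work.MP_b0497c_an.Unf.L

end

section

set_option autoImplicit false
set_option linter.dupNamespace false
set_option linter.unusedSectionVars false

/-!
# Block L, item L25: the kinematic identities of the new level
-/

open scoped ENNReal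
open Set MeasureTheory

namespace Pool.Agent.Work.MP_b0497c_an.Unf.L

open W S

namespace I25

variable {D : Dat} {w ζ : ℝ → Md → C3}

theorem mm_add {a b b' : Md → Mat} (ha : sN 0 a ≠ ∞) (hb : sN 0 b ≠ ∞)
    (hb' : sN 0 b' ≠ ∞) : mm a (b + b') = mm a b + mm a b' := by
  have ha := finK_mulK le_rfl ha
  have hb := finK_mulK le_rfl hb
  have hb' := finK_mulK le_rfl hb'
  obtain ⟨_, _, k3, _⟩ := pr_W11 Md C3 C3 C3 C3
  have := (k3 (mulK a) (mulK a) (mulK b) (mulK b') ha ha hb hb').2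
  have h : mulK (mm a (b + b')) = mulK (mm a b + mm a b') := by
    rw [← kcomp_mulK]
    exact this.trans (by rw [kcomp_mulK, kcomp_mulK]; rfl)
  exact mulK_inj h

theorem add_mm {a a' b : Md → Mat} (ha : sN 0 a ≠ ∞) (ha' : sN 0 a' ≠ ∞)
    (hb : sN 0 b ≠ ∞) : mm (a + a') b = mm a b + mm a' b := by
  have ha := finK_mulK le_rfl ha
  have hb := finK_mulK le_rfl hb
  have ha' := finK_mulK le_rfl ha'
  obtain ⟨_, _, k3, _⟩ := pr_W11 Md C3 C3 C3 C3
  have := (k3 (mulK a) (mulK a') (mulK b) (mulK b) ha ha' hb hb).1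
  have h : mulK (mm (a + a') b) = mulK (mm a b + mm a' b) := by
    rw [← kcomp_mulK]
    exact this.trans (by rw [kcomp_mulK, kcomp_mulK]; rfl)
  exact mulK_inj h

theorem oneM_mm (a : Md → Mat) : mm oneM a = a := by
  refine mulK_inj ?_
  rw [← kcomp_mulK, mulK_oneM]
  exact ((pr_W11 Md C3 C3 C3 C3).2.2.2.2.1 (mulK a)).2

theorem mm_oneM' (a : Md → Mat) : mm a oneM = a := by
  refine mulK_inj ?_
  rw [← kcomp_mulK, mulK_oneM]
  exact ((pr_W11 Md C3 C3 C3 C3).2.2.2.2.1 (mulK a)).1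

theorem B_lt (hD : D.Hyp) : 2 * D.G * u1 D ^ 120 < D.c / 8 := by
  have hG := hD.G_two
  have hu := (lc_u_pos hD).le
  have h2 := hD.c_G
  have h1' := lc_gu hD (a := 6) (b := 120) (k := 0) (by norm_num) (by norm_num)
  rw [pow_zero] at h1'
  have h5 : D.G ^ 5 * u1 D ^ 120 ≤ 1 / 2 := by
    have h6 : D.G ^ 6 * u1 D ^ 120 = D.G * (D.G ^ 5 * u1 D ^ 120) := by ring
    rw [h6] at h1'
    have h7 : 0 ≤ D.G ^ 5 * u1 D ^ 120 := by positivity
    nlinarith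
  have h8 : 8 * (2 * D.G * u1 D ^ 120) * D.G ≤ 1 := by
    have h4 : 16 * D.G ^ 2 ≤ 2 * D.G ^ 5 := by
      have h5 : (2:ℝ) ^ 3 ≤ D.G ^ 3 := pow_le_pow_left₀ (by norm_num) hG 3
      have h6 : 0 ≤ D.G ^ 2 := by positivity
      nlinarith
    calc 8 * (2 * D.G * u1 D ^ 120) * D.G = 16 * D.G ^ 2 * u1 D ^ 120 := by ring
      _ ≤ 2 * D.G ^ 5 * u1 D ^ 120 := mul_le_mul_of_nonneg_right h4 (pow_nonneg hu _)
      _ = 2 * (D.G ^ 5 * u1 D ^ 120) := by ring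
      _ ≤ 1 := by linarith
  have h9 : 8 * (2 * D.G * u1 D ^ 120) * D.G < D.c * D.G := by linarith
  have h10 := lt_of_mul_lt_mul_right h9 (by linarith : 0 ≤ D.G)
  linarith

theorem w_split {S : Md → C3} {n : ℕ} (h : SuppIn (lev (n + 1) : Set Md) S) :
    S = res (Cl (n + 1)) S + res (lev n : Set Md) S := by
  classical
  funext q
  rw [Pi.add_apply]
  unfold res
  by_cases h1 : q ∈ (lev n : Set Md)
  · have h2 : q ∉ Cl (n + 1) := by
      intro h3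
      exact h3.2 (h1 (n + 1) (by omega))
    rw [if_neg h2, if_pos h1, zero_add]
  · by_cases h2 : q ∈ Cl (n + 1)
    · rw [if_pos h2, if_neg h1, add_zero]
    · rw [if_neg h2, if_neg h1, add_zero]
      refine h q fun h3 => ?_
      by_cases h4 : q (n + 1) = 0
      · apply h1
        intro i hi
        rcases Nat.lt_or_ge (n + 1) i with h5 | h5
        · exact h3 i h5
        · obtain rfl : i = n + 1 := by omega
          exact h4
      · exact h2 ⟨h3, h4⟩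

/-- `w` is finite at the radius `c / 2` -/
theorem w_fin (hD : D.Hyp) {w0 : Md → C3} (hw : WIn D w0 w) :
    Nrm D.T (D.c / 2) 0 Dat.one' w ≠ ∞ := by
  have hc0 : 0 ≤ D.c / 2 := by have := hD.c_pos; positivity
  have h1 : Nrm D.T (D.c / 2) 0 (α1 D) w ≠ ∞ := by
    have h2 : Nrm D.T (D.c / 2) 0 (α1 D) w = Nrm D.T (D.c / 2) 0 (α1 D)
        (fun t => res (Cl (D.n + 1)) (w t) + res (lev D.n : Set Md) (w t)) :=
      sa_nrm_congr (fun t ht => w_split (hw.supp t ht)) fun _ _ => rfl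
    rw [h2]
    exact ne_top_of_le_ne_top (ENNReal.add_ne_top.2 ⟨sa_fin0 hw.w_le, sa_fin0 hw.w_low⟩)
      (sa_nrm_add (lc_par hD.T_pos hc0) (lc_wt hD) _ _)
  exact ne_top_of_le_ne_top (ENNReal.mul_ne_top ENNReal.ofReal_ne_top h1)
    (lc_to_one hD hc0 w)

theorem cmono {E : Type} [NormedAddCommGroup E] [NormedSpace ℂ E] {T c c' : ℝ} (h : c' ≤ c)
    {f : ℝ → Md → E} (hf : Nrm T c 0 Dat.one' f ≠ ∞) : Nrm T c' 0 Dat.one' f ≠ ∞ :=
  ne_top_of_le_ne_top hf (sa_nrm_cmono h (fun _ _ => one_pos) f)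

theorem fin0 {E : Type} [NormedAddCommGroup E] [NormedSpace ℂ E] {T c : ℝ} (hc : 0 ≤ c)
    {f : ℝ → Md → E} (hf : Nrm T c 0 Dat.one' f ≠ ∞) {t : ℝ} (ht : t ∈ Icc 0 T) :
    sN 0 (f t) ≠ ∞ := ne_top_of_le_ne_top hf (lc_sN_le hc f ht)

theorem finc {E : Type} [NormedAddCommGroup E] [NormedSpace ℂ E] {T c c' : ℝ} (hc : c' ≤ c)
    {f : ℝ → Md → E} (hf : Nrm T c 0 Dat.one' f ≠ ∞) {t : ℝ} (ht : t ∈ Icc 0 T) :
    sN c' (f t) ≠ ∞ := ne_top_of_le_ne_top hf (lc_sN_le hc f ht)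

theorem gradV_add (K : ℕ → Fin 3 → ℤ) (f g : Md → C3) :
    gradV K (f + g) = gradV K f + gradV K g := by
  funext q
  ext1 x
  rw [Pi.add_apply]
  simp [gradV, smul_add]

end I25

open I25 in
/-- **L25.** -/
theorem l25 (h05 : L05) (h10 : L10) (h11 : L11) (h12 : L12) (h15 : L15b) : L25 := by
  intro D X U a p w0 w ζ Li hD hL hw hz hLi
  have hc0 := hD.c_pos
  have hT := hD.T_pos
  have hBlt := B_lt hD
  obtain ⟨hB0, hB⟩ := lc_B hD
  have hT0 : (0:ℝ) ∈ Icc 0 D.T := ⟨le_rfl, hT.le⟩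
  have p8 : Par D.T (D.c / 8) 0 := lc_par hT (by positivity)
  have p4 : Par D.T (D.c / 4) 0 := lc_par hT (by positivity)
  have p2 : Par D.T (D.c / 2) 0 := lc_par hT (by positivity)
  have wt1 := sa_wt1 D.T
  have hlm : (lev D.n : Set Md) ⊆ (lev (D.n + 1) : Set Md) := lc_lev_mono (by omega)
  have hK : ∀ i ≤ D.n + 1, ‖kv (D.K i)‖ ≤ N1 D := fun i hi => kv_le1 hD hi
  have hN := (N1_pos hD).le
  -- finiteness
  have fX : Nrm D.T D.c 0 Dat.one' X ≠ ∞ := hL.x_fin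
  have fF : Nrm D.T D.c 0 Dat.one' (D.F D.n) ≠ ∞ := hL.F_fin
  have fI : Nrm D.T D.c 0 Dat.one' (D.Fi D.n) ≠ ∞ := hL.Fi_fin
  have fM : Nrm D.T D.c 0 Dat.one' (D.M D.n) ≠ ∞ := hL.M_fin
  have fU : Nrm D.T D.c 0 Dat.one' U ≠ ∞ := hL.U_fin
  have fw := w_fin hD hw
  have fV : Nrm D.T (D.c / 2) 0 Dat.one' (VV D w) ≠ ∞ :=
    ne_top_of_le_ne_top (ENNReal.mul_ne_top (cmono (by linarith) fI) fw)
      (sa_nrm_mul1 p2 wt1 (D.Fi D.n) w)
  have sX : SuppT D.T (lev (D.n + 1) : Set Md) X := fun t ht => lc_supp_mono hlm (hL.x_supp t ht)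
  have sU : SuppT D.T (lev (D.n + 1) : Set Md) U := fun t ht => lc_supp_mono hlm (hL.U_supp t ht)
  have sF : SuppT D.T (lev (D.n + 1) : Set Md) (D.F D.n) := fun t ht =>
    lc_supp_mono hlm (hL.F_supp t ht)
  have sM : SuppT D.T (lev (D.n + 1) : Set Md) (D.M D.n) := fun t ht =>
    lc_supp_mono hlm (hL.M_supp t ht)
  have sI : SuppT D.T (lev (D.n + 1) : Set Md) (D.Fi D.n) := fun t ht =>
    lc_supp_mono hlm (hL.Fi_supp t ht)
  have sV : SuppT D.T (lev (D.n + 1) : Set Md) (VV D w) := fun t ht =>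
    lc_supp_mul (sI t ht) (hw.supp t ht)
  have cV : CM D.T (VV D w) := sa_cm_mul p2 wt1 hL.Fi_cm hw.cm (cmono (by linarith) fI) fw
  -- the function f = U + w
  set f : ℝ → Md → C3 := fun t => U t + w t with hf
  have ff : Nrm D.T (D.c / 2) 0 Dat.one' f ≠ ∞ :=
    ne_top_of_le_ne_top (ENNReal.add_ne_top.2 ⟨cmono (by linarith) fU, fw⟩)
      (sa_nrm_add p2 wt1 U w)
  have sf : SuppT D.T (lev (D.n + 1) : Set Md) f := fun t ht =>
    lc_supp_add (sU t ht) (hw.supp t ht)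
  have cf : CM D.T f := sa_cm_add hL.U_cm hw.cm
  have of : ∀ t ∈ Icc 0 D.T, A.OddV (f t) := fun t ht => lc_oddV_add (hL.U_odd t ht) (hw.odd t ht)
  -- the displacement
  have zfin4 : Nrm D.T (D.c / 4) 0 Dat.one' ζ ≠ ∞ :=
    ne_top_of_le_ne_top (ENNReal.mul_ne_top ENNReal.ofReal_ne_top (sa_fin0 hz.le))
      (lc_to_one hD (by positivity) ζ)
  have zfin8 : Nrm D.T (D.c / 8) 0 Dat.one' ζ ≠ ∞ := cmono (by linarith) zfin4
  have zg : Nrm D.T (D.c / 8) 0 Dat.one' (fun t => gradV D.K (ζ t)) ≠ ∞ :=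
    ne_top_of_le_ne_top (ENNReal.mul_ne_top ENNReal.ofReal_ne_top zfin4)
      ((h15 (D.n + 1) D.K D.T (D.c / 4) (D.c / 8) (N1 D) Dat.one' hT (by linarith) wt1 hN
        hK).1 ζ hz.supp).1
  have Lm0 : ∀ t ∈ Icc 0 D.T, sN 0 (Lm D ζ t) ≠ ∞ := fun t ht =>
    fin_add fin_oneM (fin0 (by positivity) zg ht)
  have Li0 : ∀ t ∈ Icc 0 D.T, sN 0 (Li t) ≠ ∞ := fun t ht =>
    fin0 (by positivity) (sa_fin0 hLi.le) ht
  -- gradients
  have gX : Nrm D.T (D.c / 2) 0 Dat.one' (fun t => gradV D.K (X t)) ≠ ∞ :=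
    ne_top_of_le_ne_top (ENNReal.mul_ne_top ENNReal.ofReal_ne_top fX)
      ((h15 (D.n + 1) D.K D.T D.c (D.c / 2) (N1 D) Dat.one' hT (by linarith) wt1 hN hK).1 X
        sX).1
  have sgX : SuppT D.T (lev (D.n + 1) : Set Md) (fun t => gradV D.K (X t)) :=
    ((h15 (D.n + 1) D.K D.T D.c (D.c / 2) (N1 D) Dat.one' hT (by linarith) wt1 hN hK).1 X sX).2.1
  have gw : Nrm D.T (D.c / 4) 0 Dat.one' (fun t => gradV D.K (w t)) ≠ ∞ :=
    ne_top_of_le_ne_top (ENNReal.mul_ne_top ENNReal.ofReal_ne_top fw)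
      ((h15 (D.n + 1) D.K D.T (D.c / 2) (D.c / 4) (N1 D) Dat.one' hT (by linarith) wt1 hN hK).1 w
        hw.supp).1
  have sgw : SuppT D.T (lev (D.n + 1) : Set Md) (fun t => gradV D.K (w t)) :=
    ((h15 (D.n + 1) D.K D.T D.c (D.c / 2) (N1 D) Dat.one' hT (by linarith) wt1 hN hK).1 w
      hw.supp).2.1
  have gU : Nrm D.T (D.c / 4) 0 Dat.one' (fun t => gradV D.K (U t)) ≠ ∞ :=
    ne_top_of_le_ne_top (ENNReal.mul_ne_top ENNReal.ofReal_ne_top fU)
      ((h15 (D.n + 1) D.K D.T D.c (D.c / 4) (N1 D) Dat.one' hT (by linarith) wt1 hN hK).1 U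
        sU).1
  -- compositions
  obtain ⟨x1, x2, x3⟩ := lc_comp h05 hD hz (by linarith : D.c / 4 ≤ D.c) sX wt1
  obtain ⟨n1, n2, n3⟩ := lc_comp h05 hD hz (by linarith : D.c / 4 ≤ D.c / 2) sf wt1
  obtain ⟨v1, v2, v3⟩ := lc_comp h05 hD hz (by linarith : D.c / 4 ≤ D.c / 2) sV wt1
  obtain ⟨F1', -, -⟩ := lc_comp h05 hD hz (by linarith : D.c / 4 ≤ D.c) sF wt1
  obtain ⟨I1', -, -⟩ := lc_comp h05 hD hz (by linarith : D.c / 4 ≤ D.c) sI wt1
  obtain ⟨gX1, -, -⟩ := lc_comp h05 hD hz (by linarith : D.c / 4 ≤ D.c / 2) sgX wt1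
  have cF0 : ∀ t ∈ Icc 0 D.T, sN 0 (comp (lab D.K (ζ t)) (D.F D.n t)) ≠ ∞ := fun t ht =>
    fin0 (by positivity) (ne_top_of_le_ne_top fF F1') ht
  have cI0 : ∀ t ∈ Icc 0 D.T, sN 0 (comp (lab D.K (ζ t)) (D.Fi D.n t)) ≠ ∞ := fun t ht =>
    fin0 (by positivity) (ne_top_of_le_ne_top fI I1') ht
  have cgX0 : ∀ t ∈ Icc 0 D.T, sN 0 (comp (lab D.K (ζ t)) (gradV D.K (X t))) ≠ ∞ := fun t ht =>
    fin0 (by positivity) (ne_top_of_le_ne_top gX gX1) ht
  have hX := fun t ht => lc_XH (ζ := ζ) hD hz (t := t) ht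
  have hXc : D.c / 8 + 2 * D.G * u1 D ^ 120 ≤ D.c / 4 := by linarith
  have hXc2 : D.c / 8 + 2 * D.G * u1 D ^ 120 ≤ D.c / 2 := by linarith
  -- the chain rule for the gradient
  have cr : ∀ t ∈ Icc 0 D.T, ∀ g : Md → C3, SuppIn (lev (D.n + 1) : Set Md) g →
      sN (D.c / 2) g ≠ ∞ → gradV D.K (comp (lab D.K (ζ t)) g) =
        mm (comp (lab D.K (ζ t)) (gradV D.K g)) (Lm D ζ t) := by
    intro t ht g hg1 hg2
    exact (h11 (D.n + 1) D.K (D.c / 2) (D.c / 8) (2 * D.G * u1 D ^ 120) (ζ t)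
      (by positivity) (by linarith) (hz.supp t ht)
      (finc (by linarith) zfin4 ht) (hz.odd t ht).1 (hX t ht)).1 g hg1 hg2
  have hoddlab : ∀ t ∈ Icc 0 D.T, ∀ i ≤ D.n + 1, OddF (lab D.K (ζ t) i) := fun t ht i _ =>
    lc_lab_odd (hz.odd t ht).2 i
  -- `F o M = 1 + (grad X) o M`
  have eF : ∀ t ∈ Icc 0 D.T, comp (lab D.K (ζ t)) (D.F D.n t) =
      oneM + comp (lab D.K (ζ t)) (gradV D.K (X t)) := by
    intro t ht
    obtain ⟨-, -, hadd, -, -, -, -, hone⟩ := h10.2 (D.n + 1) (D.c / 2) (D.c / 8)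
      (2 * D.G * u1 D ^ 120) (lab D.K (ζ t)) (hX t ht) hXc2
    rw [hL.F_eq t ht]
    have e1 := (hadd Mat oneM (gradV D.K (X t)) lc_supp_oneM (sgX t ht) fin_oneM
      (finc le_rfl gX ht)).1
    rw [e1, hone]
  -- the matrix identities
  have eFF : ∀ t ∈ Icc 0 D.T, mm (comp (lab D.K (ζ t)) (D.Fi D.n t))
      (comp (lab D.K (ζ t)) (D.F D.n t)) = oneM ∧
      mm (comp (lab D.K (ζ t)) (D.F D.n t)) (comp (lab D.K (ζ t)) (D.Fi D.n t)) = oneM := by
    intro t ht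
    obtain ⟨-, hmm, -, -, -, -, -, hone⟩ := h10.2 (D.n + 1) (D.c / 2) (D.c / 8)
      (2 * D.G * u1 D ^ 120) (lab D.K (ζ t)) (hX t ht) hXc2
    have e1 := hmm C3 C3 C3 (D.Fi D.n t) (D.F D.n t) (sI t ht) (sF t ht)
      (finc (by linarith) fI ht) (finc (by linarith) fF ht)
    have e2 := hmm C3 C3 C3 (D.F D.n t) (D.Fi D.n t) (sF t ht) (sI t ht)
      (finc (by linarith) fF ht) (finc (by linarith) fI ht)
    rw [← e1, ← e2, hL.inv t ht, hL.FFi t ht, hone]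
    exact ⟨rfl, rfl⟩
  refine ⟨⟨⟨?_, ?_, ?_⟩, ⟨n2 cf ff, n3, ne_top_of_le_ne_top ff n1⟩, ?_⟩, ?_, ?_, ?_, ?_, ?_, ?_⟩
  · exact sa_cm_add hz.cm (x2 hL.x_cm fX)
  · exact fun t ht => lc_supp_add (hz.supp t ht) (x3 t ht)
  · exact ne_top_of_le_ne_top (ENNReal.add_ne_top.2 ⟨zfin8, ne_top_of_le_ne_top fX x1⟩)
      (sa_nrm_add p8 wt1 ζ (fun t => comp (lab D.K (ζ t)) (X t)))
  · intro t ht
    obtain ⟨-, -, -, -, -, hodd, -, -⟩ := h10.2 (D.n + 1) (D.c / 2) (D.c / 8)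
      (2 * D.G * u1 D ^ 120) (lab D.K (ζ t)) (hX t ht) hXc2
    refine ⟨lc_oddV_add (hz.odd t ht) ?_, ?_⟩
    · exact hodd (X t) (sX t ht) (finc (by linarith) fX ht) (hoddlab t ht) (hL.X_odd t ht)
    · exact hodd (f t) (sf t ht) (finc le_rfl ff ht) (hoddlab t ht) (of t ht)
  · -- `F1 = 1 + grad X1`
    intro t ht
    show mm (comp (lab D.K (ζ t)) (D.F D.n t)) (Lm D ζ t) =
      oneM + gradV D.K (ζ t + comp (lab D.K (ζ t)) (X t))
    rw [eF t ht, add_mm fin_oneM (cgX0 t ht) (Lm0 t ht), oneM_mm,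
      ← cr t ht (X t) (sX t ht) (finc (by linarith) fX ht), gradV_add, ← add_assoc]
    rfl
  · -- `X1' = U1`
    have hder := h12 (D.n + 1) D.K D.T (D.c / 2) (D.c / 8) (2 * D.G * u1 D ^ 120) ζ
      (fun t => comp (lab D.K (ζ t)) (VV D w t)) X U hT (by positivity) hB0 (by linarith)
      ⟨hz.cm, hz.supp, zfin8⟩ ⟨v2 cV fV, v3, ne_top_of_le_ne_top fV v1⟩
      ⟨hL.x_cm, sX, cmono (by linarith) fX⟩ ⟨hL.U_cm, sU, cmono (by linarith) fU⟩
      (fun t ht => (hz.odd t ht).1)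
      (lc_lab_one hD hz) hz.der hL.x_der
    intro q t ht
    have h1 := (hz.der q t ht).add (hder q t ht)
    refine h1.congr_deriv ?_
    obtain ⟨hmul, -, hadd, -⟩ := h10.2 (D.n + 1) (D.c / 2) (D.c / 8)
      (2 * D.G * u1 D ^ 120) (lab D.K (ζ t)) (hX t ht) hXc2
    have cV0 : sN 0 (comp (lab D.K (ζ t)) (VV D w t)) ≠ ∞ :=
      fin0 (by positivity) (ne_top_of_le_ne_top fV v1) ht
    have e1 : comp (lab D.K (ζ t)) (VV D w t) +
        mul (comp (lab D.K (ζ t)) (gradV D.K (X t))) (comp (lab D.K (ζ t)) (VV D w t)) =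
        comp (lab D.K (ζ t)) (w t) := by
      have e2 := mul_addL fin_oneM (cgX0 t ht) cV0
      rw [mul_oneM, ← eF t ht] at e2
      rw [← e2, ← hmul C3 C3 (D.F D.n t) (VV D w t) (sF t ht) (sV t ht)
        (finc (by linarith) fF ht) (finc le_rfl fV ht)]
      congr 1
      rw [VV, ← mul_mm (fin0 hc0.le fF ht) (fin0 hc0.le fI ht) (fin0 (by positivity) fw ht),
        hL.FFi t ht, mul_oneM]
    have e3 := (hadd C3 (U t) (w t) (sU t ht) (hw.supp t ht) (finc (by linarith) fU ht)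
      (finc le_rfl fw ht)).1
    show comp (lab D.K (ζ t)) (VV D w t) q + (comp (lab D.K (ζ t)) (U t) q +
      mul (comp (lab D.K (ζ t)) (gradV D.K (X t))) (comp (lab D.K (ζ t)) (VV D w t)) q) =
      comp (lab D.K (ζ t)) (U t + w t) q
    rw [e3, ← e1]
    simp only [Pi.add_apply]
    abel
  · -- `M1 F1 = grad U1`
    intro t ht
    obtain ⟨-, hmm, hadd, -⟩ := h10.2 (D.n + 1) (D.c / 4) (D.c / 8)
      (2 * D.G * u1 D ^ 120) (lab D.K (ζ t)) (hX t ht) hXc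
    set H : Md → Mat := D.M D.n t + mm (gradV D.K (w t)) (D.Fi D.n t) with hH
    have sH : SuppIn (lev (D.n + 1) : Set Md) H :=
      lc_supp_add (sM t ht) (lc_supp_mm (sgw t ht) (sI t ht))
    have fH : sN (D.c / 4) H ≠ ∞ :=
      fin_add (finc (by linarith) fM ht)
        (fin_mm (by positivity) (finc le_rfl gw ht) (finc (by linarith) fI ht))
    have fH' : Nrm D.T (D.c / 4) 0 Dat.one'
        (fun t => D.M D.n t + mm (gradV D.K (w t)) (D.Fi D.n t)) ≠ ∞ :=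
      ne_top_of_le_ne_top (ENNReal.add_ne_top.2 ⟨cmono (by linarith) fM,
        ne_top_of_le_ne_top (ENNReal.mul_ne_top gw (cmono (by linarith) fI))
          (sa_nrm_mm1 p4 (fun t => gradV D.K (w t)) (D.Fi D.n))⟩)
        (sa_nrm_add p4 wt1 (D.M D.n) (fun t => mm (gradV D.K (w t)) (D.Fi D.n t)))
    have sH' : SuppT D.T (lev (D.n + 1) : Set Md)
        (fun t => D.M D.n t + mm (gradV D.K (w t)) (D.Fi D.n t)) := fun t ht =>
      lc_supp_add (sM t ht) (lc_supp_mm (sgw t ht) (sI t ht))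
    obtain ⟨m1, -, -⟩ := lc_comp h05 hD hz (le_refl (D.c / 4)) sH' wt1
    have cH0 : sN 0 (comp (lab D.K (ζ t)) H) ≠ ∞ :=
      fin0 (by positivity) (ne_top_of_le_ne_top fH' m1) ht
    show mm (comp (lab D.K (ζ t)) H) (mm (comp (lab D.K (ζ t)) (D.F D.n t)) (Lm D ζ t)) =
      gradV D.K (comp (lab D.K (ζ t)) (f t))
    rw [cr t ht (f t) (sf t ht) (finc le_rfl ff ht), ← mm_assoc cH0 (cF0 t ht) (Lm0 t ht),
      ← hmm C3 C3 C3 H (D.F D.n t) sH (sF t ht) fH (finc (by linarith) fF ht)]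
    congr 2
    have M0 := fin0 hc0.le fM ht
    have F0 := fin0 hc0.le fF ht
    have I0 := fin0 hc0.le fI ht
    have gw0 := fin0 (by positivity) gw ht
    rw [hH, add_mm M0 (fin_mm le_rfl gw0 I0) F0, hL.MF_eq t ht, mm_assoc gw0 I0 F0,
      hL.inv t ht, mm_oneM', ← gradV_add]
  · -- inverses
    intro t ht
    have Lm0 := Lm0 t ht
    have Li0 := Li0 t ht
    have cF0 := cF0 t ht
    have cI0 := cI0 t ht
    obtain ⟨e1, e2⟩ := eFF t ht
    constructor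
    · show mm (mm (Li t) (comp (lab D.K (ζ t)) (D.Fi D.n t)))
        (mm (comp (lab D.K (ζ t)) (D.F D.n t)) (Lm D ζ t)) = oneM
      rw [mm_assoc Li0 cI0 (fin_mm le_rfl cF0 Lm0), ← mm_assoc cI0 cF0 Lm0, e1, oneM_mm,
        hLi.left t ht]
    · show mm (mm (comp (lab D.K (ζ t)) (D.F D.n t)) (Lm D ζ t))
        (mm (Li t) (comp (lab D.K (ζ t)) (D.Fi D.n t))) = oneM
      rw [mm_assoc cF0 Lm0 (fin_mm le_rfl Li0 cI0), ← mm_assoc Lm0 Li0 cI0, hLi.right t ht,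
        oneM_mm, e2]
  · -- initial value of the displacement
    show ζ 0 + comp (lab D.K (ζ 0)) (X 0) = 0
    rw [hz.zero, lc_lab_zero, h10.1, hL.x_zero, add_zero]
  · show comp (lab D.K (ζ 0)) (U 0 + w 0) = U 0 + w0
    rw [hz.zero, lc_lab_zero, h10.1, hw.zero]

end Pool.Agent.Work.MP_b0497c_an.Unf.L

end

section

set_option autoImplicit false
set_option linter.dupNamespace false
set_option linter.unusedSectionVars false

/-!
# Block L, item L26: the momentum equation of the new level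
-/

open scoped ENNReal
open Set MeasureTheory

namespace Pool.Agent.Work.MP_b0497c_an.Unf.L

open W S

namespace I26

variable {D : Dat} {w ζ : ℝ → Md → C3}

theorem B_lt (hD : D.Hyp) : 2 * D.G * u1 D ^ 120 < D.c / 8 := by
  have hG := hD.G_two
  have hu := (lc_u_pos hD).le
  have h2 := hD.c_G
  have h1' := lc_gu hD (a := 6) (b := 120) (k := 0) (by norm_num) (by norm_num)
  rw [pow_zero] at h1'
  have h5 : D.G ^ 5 * u1 D ^ 120 ≤ 1 / 2 := by
    have h6 : D.G ^ 6 * u1 D ^ 120 = D.G * (D.G ^ 5 * u1 D ^ 120) := by ring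
    rw [h6] at h1'
    have h7 : 0 ≤ D.G ^ 5 * u1 D ^ 120 := by positivity
    nlinarith
  have h8 : 8 * (2 * D.G * u1 D ^ 120) * D.G ≤ 1 := by
    have h4 : 16 * D.G ^ 2 ≤ 2 * D.G ^ 5 := by
      have h5 : (2:ℝ) ^ 3 ≤ D.G ^ 3 := pow_le_pow_left₀ (by norm_num) hG 3
      have h6 : 0 ≤ D.G ^ 2 := by positivity
      nlinarith
    calc 8 * (2 * D.G * u1 D ^ 120) * D.G = 16 * D.G ^ 2 * u1 D ^ 120 := by ring
      _ ≤ 2 * D.G ^ 5 * u1 D ^ 120 := mul_le_mul_of_nonneg_right h4 (pow_nonneg hu _)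
      _ = 2 * (D.G ^ 5 * u1 D ^ 120) := by ring
      _ ≤ 1 := by linarith
  have h9 : 8 * (2 * D.G * u1 D ^ 120) * D.G < D.c * D.G := by linarith
  have h10 := lt_of_mul_lt_mul_right h9 (by linarith : 0 ≤ D.G)
  linarith

theorem w_split {S : Md → C3} {n : ℕ} (h : SuppIn (lev (n + 1) : Set Md) S) :
    S = res (Cl (n + 1)) S + res (lev n : Set Md) S := by
  classical
  funext q
  rw [Pi.add_apply]
  unfold res
  by_cases h1 : q ∈ (lev n : Set Md)
  · have h2 : q ∉ Cl (n + 1) := by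
      intro h3
      exact h3.2 (h1 (n + 1) (by omega))
    rw [if_neg h2, if_pos h1, zero_add]
  · by_cases h2 : q ∈ Cl (n + 1)
    · rw [if_pos h2, if_neg h1, add_zero]
    · rw [if_neg h2, if_neg h1, add_zero]
      refine h q fun h3 => ?_
      by_cases h4 : q (n + 1) = 0
      · apply h1
        intro i hi
        rcases Nat.lt_or_ge (n + 1) i with h5 | h5
        · exact h3 i h5
        · obtain rfl : i = n + 1 := by omega
          exact h4
      · exact h2 ⟨h3, h4⟩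

/-- `w` is finite at the radius `c / 2` -/
theorem w_fin (hD : D.Hyp) {w0 : Md → C3} (hw : WIn D w0 w) :
    Nrm D.T (D.c / 2) 0 Dat.one' w ≠ ∞ := by
  have hc0 : 0 ≤ D.c / 2 := by have := hD.c_pos; positivity
  have h1 : Nrm D.T (D.c / 2) 0 (α1 D) w ≠ ∞ := by
    have h2 : Nrm D.T (D.c / 2) 0 (α1 D) w = Nrm D.T (D.c / 2) 0 (α1 D)
        (fun t => res (Cl (D.n + 1)) (w t) + res (lev D.n : Set Md) (w t)) :=
      sa_nrm_congr (fun t ht => w_split (hw.supp t ht)) fun _ _ => rfl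
    rw [h2]
    exact ne_top_of_le_ne_top (ENNReal.add_ne_top.2 ⟨sa_fin0 hw.w_le, sa_fin0 hw.w_low⟩)
      (sa_nrm_add (lc_par hD.T_pos hc0) (lc_wt hD) _ _)
  exact ne_top_of_le_ne_top (ENNReal.mul_ne_top ENNReal.ofReal_ne_top h1)
    (lc_to_one hD hc0 w)

theorem cmono {E : Type} [NormedAddCommGroup E] [NormedSpace ℂ E] {T c c' : ℝ} (h : c' ≤ c)
    {f : ℝ → Md → E} (hf : Nrm T c 0 Dat.one' f ≠ ∞) : Nrm T c' 0 Dat.one' f ≠ ∞ :=
  ne_top_of_le_ne_top hf (sa_nrm_cmono h (fun _ _ => one_pos) f)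

theorem fin0 {E : Type} [NormedAddCommGroup E] [NormedSpace ℂ E] {T c : ℝ} (hc : 0 ≤ c)
    {f : ℝ → Md → E} (hf : Nrm T c 0 Dat.one' f ≠ ∞) {t : ℝ} (ht : t ∈ Icc 0 T) :
    sN 0 (f t) ≠ ∞ := ne_top_of_le_ne_top hf (lc_sN_le hc f ht)

theorem finc {E : Type} [NormedAddCommGroup E] [NormedSpace ℂ E] {T c c' : ℝ} (hc : c' ≤ c)
    {f : ℝ → Md → E} (hf : Nrm T c 0 Dat.one' f ≠ ∞) {t : ℝ} (ht : t ∈ Icc 0 T) :
    sN c' (f t) ≠ ∞ := ne_top_of_le_ne_top hf (lc_sN_le hc f ht)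

theorem gradV_add (K : ℕ → Fin 3 → ℤ) (f g : Md → C3) :
    gradV K (f + g) = gradV K f + gradV K g := by
  funext q
  ext1 x
  rw [Pi.add_apply]
  simp [gradV, smul_add]

theorem gradS_add (K : ℕ → Fin 3 → ℤ) (f g : Md → ℂ) :
    gradS K (f + g) = gradS K f + gradS K g := by
  funext q
  rw [Pi.add_apply]
  simp only [gradS, Pi.add_apply]
  rw [_root_.mul_add, add_smul]

end I26

open I26 in
theorem l26 (h05 : L05) (h10 : L10) (h11 : L11) (h12 : L12) (h15 : L15b) : L26 := by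
  intro D X U a p s w0 w ζ Li hD hL hw hz hLi hP
  have hc0 := hD.c_pos
  have hT := hD.T_pos
  have hBlt := B_lt hD
  obtain ⟨hB0, hB⟩ := lc_B hD
  have hmn := hD.hmn
  have p8 : Par D.T (D.c / 8) 0 := lc_par hT (by positivity)
  have p4 : Par D.T (D.c / 4) 0 := lc_par hT (by positivity)
  have p2 : Par D.T (D.c / 2) 0 := lc_par hT (by positivity)
  have wt1 := sa_wt1 D.T
  have hlm : (lev D.n : Set Md) ⊆ (lev (D.n + 1) : Set Md) := lc_lev_mono (by omega)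
  have hK : ∀ i ≤ D.n + 1, ‖kv (D.K i)‖ ≤ N1 D := fun i hi => kv_le1 hD hi
  have hN := (N1_pos hD).le
  -- finiteness
  have fF : Nrm D.T D.c 0 Dat.one' (D.F D.n) ≠ ∞ := hL.F_fin
  have fI : Nrm D.T D.c 0 Dat.one' (D.Fi D.n) ≠ ∞ := hL.Fi_fin
  have fM : Nrm D.T D.c 0 Dat.one' (D.M D.n) ≠ ∞ := hL.M_fin
  have fU : Nrm D.T D.c 0 Dat.one' U ≠ ∞ := hL.U_fin
  have fa : Nrm D.T D.c 0 Dat.one' a ≠ ∞ := hL.A_fin
  have fp : Nrm D.T D.c 0 Dat.one' p ≠ ∞ := hL.r_fin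
  have fw := w_fin hD hw
  have fs := hP.fin
  have fR : Nrm D.T (D.c / 4) 0 Dat.one' (RHS D w) ≠ ∞ :=
    ne_top_of_le_ne_top (ENNReal.mul_ne_top ENNReal.ofReal_ne_top (sa_fin0 hw.dot_le))
      (lc_to_one hD (by positivity) _)
  have fV : Nrm D.T (D.c / 2) 0 Dat.one' (VV D w) ≠ ∞ :=
    ne_top_of_le_ne_top (ENNReal.mul_ne_top (cmono (by linarith) fI) fw)
      (sa_nrm_mul1 p2 wt1 (D.Fi D.n) w)
  have sU : SuppT D.T (lev (D.n + 1) : Set Md) U := fun t ht => lc_supp_mono hlm (hL.U_supp t ht)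
  have sI : SuppT D.T (lev (D.n + 1) : Set Md) (D.Fi D.n) := fun t ht =>
    lc_supp_mono hlm (hL.Fi_supp t ht)
  have sa : SuppT D.T (lev (D.n + 1) : Set Md) a := fun t ht => lc_supp_mono hlm (hL.A_supp t ht)
  have sp : SuppT D.T (lev (D.n + 1) : Set Md) p := fun t ht => lc_supp_mono hlm (hL.r_supp t ht)
  have sV : SuppT D.T (lev (D.n + 1) : Set Md) (VV D w) := fun t ht =>
    lc_supp_mul (sI t ht) (hw.supp t ht)
  have cV : CM D.T (VV D w) := sa_cm_mul p2 wt1 hL.Fi_cm hw.cm (cmono (by linarith) fI) fw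
  -- the function f = U + w
  set f : ℝ → Md → C3 := fun t => U t + w t with hf
  have ff : Nrm D.T (D.c / 2) 0 Dat.one' f ≠ ∞ :=
    ne_top_of_le_ne_top (ENNReal.add_ne_top.2 ⟨cmono (by linarith) fU, fw⟩)
      (sa_nrm_add p2 wt1 U w)
  have sf : SuppT D.T (lev (D.n + 1) : Set Md) f := fun t ht =>
    lc_supp_add (sU t ht) (hw.supp t ht)
  have cf : CM D.T f := sa_cm_add hL.U_cm hw.cm
  -- its derivative
  set f' : ℝ → Md → C3 := fun t => a t + RHS D w t with hf'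
  have ff' : Nrm D.T (D.c / 4) 0 Dat.one' f' ≠ ∞ :=
    ne_top_of_le_ne_top (ENNReal.add_ne_top.2 ⟨cmono (by linarith) fa, fR⟩)
      (sa_nrm_add p4 wt1 a (RHS D w))
  have sNL : ∀ t ∈ Icc 0 D.T, SuppIn (lev (D.n + 1) : Set Md) (gradV D.K (w t)) := fun t ht =>
    ((h15 (D.n + 1) D.K D.T D.c (D.c / 2) (N1 D) Dat.one' hT (by linarith) wt1 hN hK).1 w
      hw.supp).2.1 t ht
  have sgs : ∀ t ∈ Icc 0 D.T, SuppIn (lev (D.n + 1) : Set Md) (gradS D.K (s t)) := fun t ht =>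
    ((h15 (D.n + 1) D.K D.T D.c (D.c / 2) (N1 D) Dat.one' hT (by linarith) wt1 hN hK).2 s
      hP.supp).2.1 t ht
  have sR : SuppT D.T (lev (D.n + 1) : Set Md) (RHS D w) := by
    intro t ht
    rw [hP.eq t ht]
    refine lc_supp_sub (lc_supp_sub (lc_supp_neg (lc_supp_mul ?_ (hw.supp t ht))) ?_) ?_
    · exact lc_supp_mono hlm (hL.M_supp t ht)
    · exact lc_supp_mul (sNL t ht) (sV t ht)
    · exact lc_supp_mul (lc_supp_adjC (sI t ht)) (sgs t ht)
  have sf' : SuppT D.T (lev (D.n + 1) : Set Md) f' := fun t ht =>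
    lc_supp_add (sa t ht) (sR t ht)
  have cf' : CM D.T f' := sa_cm_add hL.A_cm hw.dot_cm
  -- gradients at the radius `c / 4`
  have gf : Nrm D.T (D.c / 4) 0 Dat.one' (fun t => gradV D.K (f t)) ≠ ∞ :=
    ne_top_of_le_ne_top (ENNReal.mul_ne_top ENNReal.ofReal_ne_top ff)
      ((h15 (D.n + 1) D.K D.T (D.c / 2) (D.c / 4) (N1 D) Dat.one' hT (by linarith) wt1 hN hK).1 f
        sf).1
  have gw : Nrm D.T (D.c / 4) 0 Dat.one' (fun t => gradV D.K (w t)) ≠ ∞ :=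
    ne_top_of_le_ne_top (ENNReal.mul_ne_top ENNReal.ofReal_ne_top fw)
      ((h15 (D.n + 1) D.K D.T (D.c / 2) (D.c / 4) (N1 D) Dat.one' hT (by linarith) wt1 hN hK).1 w
        hw.supp).1
  have gU : Nrm D.T (D.c / 4) 0 Dat.one' (fun t => gradV D.K (U t)) ≠ ∞ :=
    ne_top_of_le_ne_top (ENNReal.mul_ne_top ENNReal.ofReal_ne_top fU)
      ((h15 (D.n + 1) D.K D.T D.c (D.c / 4) (N1 D) Dat.one' hT (by linarith) wt1 hN hK).1 U
        sU).1
  have sgf : SuppT D.T (lev (D.n + 1) : Set Md) (fun t => gradV D.K (f t)) :=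
    ((h15 (D.n + 1) D.K D.T D.c (D.c / 2) (N1 D) Dat.one' hT (by linarith) wt1 hN hK).1 f sf).2.1
  -- the pressure
  set r : ℝ → Md → ℂ := fun t => p t + s t with hr
  have p38 : Par D.T (3 * D.c / 8) 0 := lc_par hT (by positivity)
  have fr : Nrm D.T (3 * D.c / 8) 0 Dat.one' r ≠ ∞ :=
    ne_top_of_le_ne_top (ENNReal.add_ne_top.2 ⟨cmono (by linarith) fp, fs⟩)
      (sa_nrm_add p38 wt1 p s)
  have sr : SuppT D.T (lev (D.n + 1) : Set Md) r := fun t ht =>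
    lc_supp_add (sp t ht) (hP.supp t ht)
  have cr : CM D.T r := sa_cm_add hL.p_cm hP.cm
  have er : ∀ t ∈ Icc 0 D.T, A.EvenS (r t) := fun t ht =>
    lc_evenS_add (hL.p_even t ht) (hP.even t ht)
  obtain ⟨gr1, gr2, gr3, gr4⟩ := (h15 (D.n + 1) D.K D.T (3 * D.c / 8) (D.c / 4) (N1 D) Dat.one' hT
    (by linarith) wt1 hN hK).2 r sr
  have fgr : Nrm D.T (D.c / 4) 0 Dat.one' (fun t => gradS D.K (r t)) ≠ ∞ :=
    ne_top_of_le_ne_top (ENNReal.mul_ne_top ENNReal.ofReal_ne_top fr) gr1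
  have cgr := gr3 cr
  have ogr := gr4 er
  -- the function g
  set g : ℝ → Md → C3 := fun t => -(mul (adjC (D.Fi D.n t)) (gradS D.K (r t))) with hg
  have fadj : Nrm D.T (D.c / 4) 0 Dat.one' (fun t => adjC (D.Fi D.n t)) ≠ ∞ :=
    ne_top_of_le_ne_top (cmono (by linarith) fI) (sa_N_adjC (D.Fi D.n))
  have cadj : CM D.T (fun t => adjC (D.Fi D.n t)) := sa_cm_adjC hL.Fi_cm
  have fg0 : Nrm D.T (D.c / 4) 0 Dat.one' (fun t => mul (adjC (D.Fi D.n t)) (gradS D.K (r t)))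
      ≠ ∞ := ne_top_of_le_ne_top (ENNReal.mul_ne_top fadj fgr)
      (sa_nrm_mul1 p4 wt1 (fun t => adjC (D.Fi D.n t)) (fun t => gradS D.K (r t)))
  have fg : Nrm D.T (D.c / 4) 0 Dat.one' g ≠ ∞ := by
    rw [hg, sa_nrm_neg]
    exact fg0
  have cg : CM D.T g := by
    have h1 := sa_cm_mul p4 wt1 cadj cgr fadj fgr
    exact fun q => (h1 q).neg
  have sg : SuppT D.T (lev (D.n + 1) : Set Md) g := fun t ht =>
    lc_supp_neg (lc_supp_mul (lc_supp_adjC (sI t ht)) (gr2 t ht))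
  have og : ∀ t ∈ Icc 0 D.T, A.OddV (g t) := fun t ht =>
    lc_oddV_neg (lc_oddV_mul (lc_evenM_adjC (hL.Fi_even t ht)) (ogr t ht))
  -- Claim A
  have claimA : ∀ t ∈ Icc 0 D.T, f' t + mul (gradV D.K (f t)) (VV D w t) = g t := by
    intro t ht
    have a0 : sN 0 (a t) ≠ ∞ := fin0 hc0.le fa ht
    have F0 : sN 0 (D.F D.n t) ≠ ∞ := fin0 hc0.le fF ht
    have I0 : sN 0 (D.Fi D.n t) ≠ ∞ := fin0 hc0.le fI ht
    have M0 : sN 0 (D.M D.n t) ≠ ∞ := fin0 hc0.le fM ht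
    have W0 : sN 0 (w t) ≠ ∞ := fin0 (by positivity) fw ht
    have V0 : sN 0 (VV D w t) ≠ ∞ := fin0 (by positivity) fV ht
    have gU0 : sN 0 (gradV D.K (U t)) ≠ ∞ := fin0 (by positivity) gU ht
    have gw0 : sN 0 (gradV D.K (w t)) ≠ ∞ := fin0 (by positivity) gw ht
    have A0 : sN 0 (adjC (D.Fi D.n t)) ≠ ∞ := fin_adjC I0
    have hgp : Nrm D.T (D.c / 4) 0 Dat.one' (fun t => gradS D.K (p t)) ≠ ∞ :=
      ne_top_of_le_ne_top (ENNReal.mul_ne_top ENNReal.ofReal_ne_top fp)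
        ((h15 (D.n + 1) D.K D.T D.c (D.c / 4) (N1 D) Dat.one' hT (by linarith) wt1 hN hK).2 p
          sp).1
    have hgs : Nrm D.T (D.c / 4) 0 Dat.one' (fun t => gradS D.K (s t)) ≠ ∞ :=
      ne_top_of_le_ne_top (ENNReal.mul_ne_top ENNReal.ofReal_ne_top fs)
        ((h15 (D.n + 1) D.K D.T (3 * D.c / 8) (D.c / 4) (N1 D) Dat.one' hT (by linarith) wt1 hN
          hK).2 s hP.supp).1
    have gp0 : sN 0 (gradS D.K (p t)) ≠ ∞ := fin0 (by positivity) hgp ht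
    have gs0 : sN 0 (gradS D.K (s t)) ≠ ∞ := fin0 (by positivity) hgs ht
    have e1 : mul (gradV D.K (U t)) (VV D w t) = mul (D.M D.n t) (w t) := by
      rw [← hL.MF_eq t ht, mul_mm M0 F0 V0]
      congr 1
      rw [VV, ← mul_mm F0 I0 W0, hL.FFi t ht, mul_oneM]
    have e2 : mul (gradV D.K (f t)) (VV D w t) = mul (D.M D.n t) (w t) + NL D w t := by
      rw [hf]
      show mul (gradV D.K (U t + w t)) (VV D w t) = _
      rw [gradV_add, mul_addL gU0 gw0 V0, e1]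
      rfl
    have e3 : g t = -(mul (adjC (D.Fi D.n t)) (gradS D.K (p t))) -
        mul (adjC (D.Fi D.n t)) (gradS D.K (s t)) := by
      show -(mul (adjC (D.Fi D.n t)) (gradS D.K (p t + s t))) = _
      rw [gradS_add, S.mul_add A0 gp0 gs0]
      abel
    rw [e2, e3]
    show a t + RHS D w t + _ = _
    rw [hP.eq t ht, hL.mom t ht]
    abel
  -- Claim B
  have claimB : ∀ t ∈ Icc 0 D.T, A1 D p s ζ Li t = comp (lab D.K (ζ t)) (g t) := by
    intro t ht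
    have hX := lc_XH hD hz ht
    have hXc : D.c / 8 + 2 * D.G * u1 D ^ 120 ≤ D.c / 4 := by linarith
    obtain ⟨hmul, -, hadd, -, hadj, -⟩ := h10.2 (D.n + 1) (D.c / 4) (D.c / 8)
      (2 * D.G * u1 D ^ 120) (lab D.K (ζ t)) hX hXc
    have zfin : Nrm D.T (D.c / 4) 0 Dat.one' ζ ≠ ∞ :=
      ne_top_of_le_ne_top (ENNReal.mul_ne_top ENNReal.ofReal_ne_top (sa_fin0 hz.le))
        (lc_to_one hD (by positivity) ζ)
    have h1 := (h11 (D.n + 1) D.K (3 * D.c / 8) (D.c / 8) (2 * D.G * u1 D ^ 120) (ζ t)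
      (by positivity) (by linarith) (hz.supp t ht)
      (finc (by linarith) zfin ht) (hz.odd t ht).1 hX).2 (r t) (sr t ht)
      (finc le_rfl fr ht)
    set cFi : Md → Mat := comp (lab D.K (ζ t)) (D.Fi D.n t) with hcFi
    set Y : Md → C3 := comp (lab D.K (ζ t)) (gradS D.K (r t)) with hY
    have hcFi0 : sN 0 cFi ≠ ∞ := by
      have h2 := (lc_comp h05 hD hz (by linarith : D.c / 4 ≤ D.c) sI wt1).1
      exact fin0 (by positivity) (ne_top_of_le_ne_top fI h2) ht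
    have hY0 : sN 0 Y ≠ ∞ := by
      have h2 := (lc_comp h05 hD hz (le_refl (D.c / 4)) gr2 wt1).1
      exact fin0 (by positivity) (ne_top_of_le_ne_top fgr h2) ht
    have hLi0 : sN 0 (Li t) ≠ ∞ := fin0 (by positivity) (sa_fin0 hLi.le) ht
    have hLm0 : sN 0 (Lm D ζ t) ≠ ∞ := by
      have h2 : Nrm D.T (D.c / 8) 0 Dat.one' (fun t => gradV D.K (ζ t)) ≠ ∞ :=
        ne_top_of_le_ne_top (ENNReal.mul_ne_top ENNReal.ofReal_ne_top zfin)
          ((h15 (D.n + 1) D.K D.T (D.c / 4) (D.c / 8) (N1 D) Dat.one' hT (by linarith) wt1 hN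
            hK).1 ζ hz.supp).1
      exact fin_add fin_oneM (fin0 (by positivity) h2 ht)
    have e1 : A1 D p s ζ Li t = -(mul (adjC cFi) Y) := by
      show -(mul (adjC (mm (Li t) cFi)) (gradS D.K (comp (lab D.K (ζ t)) (r t)))) = _
      rw [h1, adjC_mm]
      show -(mul (mm (adjC cFi) (adjC (Li t))) (mul (adjC (Lm D ζ t)) Y)) = _
      rw [mul_mm (fin_adjC hcFi0) (fin_adjC hLi0) (fin_mul le_rfl (fin_adjC hLm0) hY0),
        ← mul_mm (fin_adjC hLi0) (fin_adjC hLm0) hY0, ← adjC_mm, hLi.right t ht, adjC_oneM,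
        mul_oneM]
    rw [e1]
    have e2 : comp (lab D.K (ζ t)) (mul (adjC (D.Fi D.n t)) (gradS D.K (r t))) =
        mul (adjC cFi) Y := by
      rw [hmul C3 C3 (adjC (D.Fi D.n t)) (gradS D.K (r t)) (lc_supp_adjC (sI t ht)) (gr2 t ht)
        (finc le_rfl fadj ht) (finc le_rfl fgr ht)]
      rw [(hadj (D.Fi D.n t) (sI t ht) (finc (by linarith) fI ht)).1]
    have e3 := (hadd C3 (mul (adjC (D.Fi D.n t)) (gradS D.K (r t)))
      (mul (adjC (D.Fi D.n t)) (gradS D.K (r t)))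
      (lc_supp_mul (lc_supp_adjC (sI t ht)) (gr2 t ht))
      (lc_supp_mul (lc_supp_adjC (sI t ht)) (gr2 t ht))
      (finc le_rfl fg0 ht) (finc le_rfl fg0 ht)).2
    show _ = comp (lab D.K (ζ t)) (-(mul (adjC (D.Fi D.n t)) (gradS D.K (r t))))
    rw [e3, e2]
  -- the composition of `r` and `g`
  obtain ⟨n1, n2, n3⟩ := lc_comp h05 hD hz (by linarith : D.c / 4 ≤ 3 * D.c / 8) sr wt1
  obtain ⟨m1, m2, m3⟩ := lc_comp h05 hD hz (le_refl (D.c / 4)) sg wt1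
  have hoddlab : ∀ t ∈ Icc 0 D.T, ∀ i ≤ D.n + 1, OddF (lab D.K (ζ t) i) := fun t ht i _ =>
    lc_lab_odd (hz.odd t ht).2 i
  refine ⟨⟨⟨n2 cr fr, n3, ne_top_of_le_ne_top fr n1⟩, ⟨?_, ?_, ?_⟩, ?_⟩, ?_⟩
  · intro q
    exact ((m2 cg fg) q).congr fun t ht => by rw [claimB t ht]
  · intro t ht
    rw [claimB t ht]
    exact m3 t ht
  · have h1 : Nrm D.T (D.c / 8) 0 Dat.one' (A1 D p s ζ Li) =
        Nrm D.T (D.c / 8) 0 Dat.one' (fun t => comp (lab D.K (ζ t)) (g t)) :=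
      sa_nrm_congr claimB fun _ _ => rfl
    rw [h1]
    exact ne_top_of_le_ne_top fg m1
  · intro t ht
    have hX := lc_XH hD hz ht
    have hXc : D.c / 8 + 2 * D.G * u1 D ^ 120 ≤ D.c / 4 := by linarith
    obtain ⟨-, -, -, -, -, hodd, heven, -⟩ := h10.2 (D.n + 1) (D.c / 4) (D.c / 8)
      (2 * D.G * u1 D ^ 120) (lab D.K (ζ t)) hX hXc
    refine ⟨?_, ?_⟩
    · exact heven (r t) (sr t ht) (finc (by linarith) fr ht) (hoddlab t ht) (er t ht)
    · rw [claimB t ht]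
      exact hodd (g t) (sg t ht) (finc le_rfl fg ht) (hoddlab t ht) (og t ht)
  · -- the derivative
    have zfin8 : Nrm D.T (D.c / 8) 0 Dat.one' ζ ≠ ∞ :=
      ne_top_of_le_ne_top (ENNReal.mul_ne_top ENNReal.ofReal_ne_top (sa_fin0 hz.le))
        ((sa_nrm_cmono (by linarith) (fun _ _ => one_pos) ζ).trans
          (lc_to_one hD (by positivity) ζ))
    obtain ⟨v1, v2, v3⟩ := lc_comp h05 hD hz (by linarith : D.c / 4 ≤ D.c / 2) sV wt1
    have hder := h12 (D.n + 1) D.K D.T (D.c / 4) (D.c / 8) (2 * D.G * u1 D ^ 120) ζ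
      (fun t => comp (lab D.K (ζ t)) (VV D w t)) f f' hT (by positivity) hB0 (by linarith)
      ⟨hz.cm, hz.supp, zfin8⟩ ⟨v2 cV fV, v3, ne_top_of_le_ne_top fV v1⟩
      ⟨cf, sf, cmono (by linarith) ff⟩ ⟨cf', sf', ff'⟩ (fun t ht => (hz.odd t ht).1)
      (lc_lab_one hD hz) hz.der
      (fun q t ht => (hL.U_der q t ht).add (hw.der q t ht))
    intro q t ht
    have h1 := hder q t ht
    refine h1.congr_deriv ?_
    have hX := lc_XH hD hz ht
    have hXc : D.c / 8 + 2 * D.G * u1 D ^ 120 ≤ D.c / 4 := by linarith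
    obtain ⟨hmul, -, hadd, -⟩ := h10.2 (D.n + 1) (D.c / 4) (D.c / 8)
      (2 * D.G * u1 D ^ 120) (lab D.K (ζ t)) hX hXc
    have fV4 := cmono (T := D.T) (by linarith : D.c / 4 ≤ D.c / 2) fV
    have e1 := hmul C3 C3 (gradV D.K (f t)) (VV D w t) (sgf t ht) (sV t ht)
      (finc le_rfl gf ht) (finc le_rfl fV4 ht)
    have fm : Nrm D.T (D.c / 4) 0 Dat.one' (fun t => mul (gradV D.K (f t)) (VV D w t)) ≠ ∞ :=
      ne_top_of_le_ne_top (ENNReal.mul_ne_top gf fV4)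
        (sa_nrm_mul1 p4 wt1 (fun t => gradV D.K (f t)) (VV D w))
    have e2 := (hadd C3 (f' t) (mul (gradV D.K (f t)) (VV D w t)) (sf' t ht)
      (lc_supp_mul (sgf t ht) (sV t ht)) (finc le_rfl ff' ht) (finc le_rfl fm ht)).1
    rw [claimB t ht, ← claimA t ht, e2, e1]
    rfl

end Pool.Agent.Work.MP_b0497c_an.Unf.L

end

section

set_option autoImplicit false
set_option linter.unusedSectionVars false

/-!
# Block A: the weights `α_j`, conditions (A6), (A7)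

`α_j(s) = a_j exp (√2 ∑_{1 ≤ k < j} (σ_k(s) - σ_k(t_j)))`.
-/

open Set MeasureTheory Finset

namespace Pool.Agent.Work.MP_b0497c_an.Unf.A

open W S

/-- The weights. -/
noncomputable def alf (a t : ℕ → ℝ) (σ : ℕ → ℝ → ℝ) (j : ℕ) (s : ℝ) : ℝ :=
  a j * Real.exp (Real.sqrt 2 * ∑ k ∈ Finset.Ico 1 j, (σ k s - σ k (t j)))

/-- The growth functions of the windows `1 .. n` on `[0,T]`. -/
structure SigSys (n : ℕ) (T : ℝ) (t : ℕ → ℝ) (σ : ℕ → ℝ → ℝ) : Prop where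
  T_pos : 0 < T
  t_mem : ∀ k, 1 ≤ k → k ≤ n + 1 → t k ∈ Set.Icc 0 T
  t_mono : ∀ k, 1 ≤ k → k ≤ n → t k ≤ t (k + 1)
  cont : ∀ k, 1 ≤ k → k ≤ n → ContinuousOn (σ k) (Set.Icc 0 T)
  mono : ∀ k, 1 ≤ k → k ≤ n → MonotoneOn (σ k) (Set.Icc 0 T)
  late : ∀ k, 1 ≤ k → k ≤ n → ∀ s ∈ Set.Icc (t (k + 1)) T, σ k s - σ k (t (k + 1)) ≤ 1

section

variable {n : ℕ} {T : ℝ} {a t : ℕ → ℝ} {σ : ℕ → ℝ → ℝ}

theorem SigSys.t_le (H : SigSys n T t σ) {i : ℕ} (hi : 1 ≤ i) : ∀ k, i + k ≤ n + 1 → t i ≤ t (i + k) := by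
  intro k
  induction k with
  | zero => intro _; exact le_rfl
  | succ k ih => intro h; exact (ih (by omega)).trans (H.t_mono (i + k) (by omega) (by omega))

theorem SigSys.t_le' (H : SigSys n T t σ) {i j : ℕ} (hi : 1 ≤ i) (hij : i ≤ j) (hj : j ≤ n + 1) :
    t i ≤ t j := by
  obtain ⟨k, rfl⟩ := Nat.exists_eq_add_of_le hij
  exact H.t_le hi k hj

/-- `σ_k(s) - σ_k(t_j) ≤ 1` for `k < j`. -/
theorem SigSys.dif_le (H : SigSys n T t σ) {k j : ℕ} (hk : 1 ≤ k) (hkj : k < j) (hj : j ≤ n + 1)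
    {s : ℝ} (hs : s ∈ Set.Icc 0 T) : σ k s - σ k (t j) ≤ 1 := by
  have hkn : k ≤ n := by omega
  have h1 := H.t_mem j (by omega) hj
  have h2 := H.t_mem (k + 1) (by omega) (by omega)
  have h3 := H.t_le' (show 1 ≤ k + 1 by omega) (show k + 1 ≤ j by omega) hj
  have h4 := H.mono k hk hkn h2 h1 h3
  rcases le_total s (t (k + 1)) with h | h
  · have h5 := H.mono k hk hkn hs h2 h
    linarith
  · have h5 := H.late k hk hkn s ⟨h, hs.2⟩
    linarith

theorem SigSys.sum_le (H : SigSys n T t σ) {i j : ℕ} (hi : 1 ≤ i) (hj : j ≤ n + 1)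
    {s : ℝ} (hs : s ∈ Set.Icc 0 T) : ∑ k ∈ Finset.Ico i j, (σ k s - σ k (t j)) ≤ n := by
  rcases le_total i j with hij | hij
  · have h1 : ∑ k ∈ Finset.Ico i j, (σ k s - σ k (t j)) ≤ ∑ _k ∈ Finset.Ico i j, (1:ℝ) := by
      refine Finset.sum_le_sum fun k hk => ?_
      rw [Finset.mem_Ico] at hk
      exact H.dif_le (by omega) hk.2 hj hs
    refine h1.trans ?_
    rw [Finset.sum_const, Nat.card_Ico, nsmul_eq_mul, mul_one]
    exact_mod_cast (by omega : j - i ≤ n)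
  · rw [Finset.Ico_eq_empty_of_le hij, Finset.sum_empty]
    exact Nat.cast_nonneg n

theorem sqrt2_pos : 0 < Real.sqrt 2 := Real.sqrt_pos.2 (by norm_num)

theorem sqrt2_le : Real.sqrt 2 ≤ 2 := by
  rw [Real.sqrt_le_left (by norm_num)]; norm_num

theorem alf_pos' {j : ℕ} (ha : 0 < a j) (s : ℝ) : 0 < alf a t σ j s :=
  mul_pos ha (Real.exp_pos _)

theorem SigSys.alf_wt (H : SigSys n T t σ) {j : ℕ} (ha : 0 < a j) (hj : j ≤ n + 1) :
    Wt T (alf a t σ j) where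
  pos := fun s _ => alf_pos' ha s
  cont := by
    unfold alf
    refine continuousOn_const.mul (Real.continuous_exp.comp_continuousOn
      (continuousOn_const.mul (continuousOn_finset_sum _ fun k hk => ?_)))
    rw [Finset.mem_Ico] at hk
    exact (H.cont k hk.1 (by omega)).sub continuousOn_const
  mono := by
    intro x hx y hy hxy
    unfold alf
    have h1 : ∑ k ∈ Finset.Ico 1 j, (σ k x - σ k (t j)) ≤ ∑ k ∈ Finset.Ico 1 j, (σ k y - σ k (t j)) := by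
      refine Finset.sum_le_sum fun k hk => ?_
      rw [Finset.mem_Ico] at hk
      have := H.mono k hk.1 (by omega) hx hy hxy
      linarith
    have := sqrt2_pos
    gcongr

theorem SigSys.alf_le (H : SigSys n T t σ) {j : ℕ} (ha : 0 < a j) (hj : j ≤ n + 1) {s : ℝ}
    (hs : s ∈ Set.Icc 0 T) : alf a t σ j s ≤ a j * Real.exp (2 * n) := by
  unfold alf
  have h1 := H.sum_le (i := 1) (j := j) le_rfl hj hs
  have h2 : Real.sqrt 2 * ∑ k ∈ Finset.Ico 1 j, (σ k s - σ k (t j)) ≤ 2 * n := by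
    calc Real.sqrt 2 * ∑ k ∈ Finset.Ico 1 j, (σ k s - σ k (t j)) ≤ Real.sqrt 2 * n :=
          mul_le_mul_of_nonneg_left h1 sqrt2_pos.le
      _ ≤ 2 * n := mul_le_mul_of_nonneg_right sqrt2_le (Nat.cast_nonneg n)
  gcongr

/-- The ratio of two weights. -/
theorem alf_ratio {i j : ℕ} (hj : 1 ≤ j) (hij : j ≤ i) (s : ℝ) :
    alf a t σ i s = alf a t σ j s * (a i / a j * Real.exp (Real.sqrt 2 *
      (∑ k ∈ Finset.Ico 1 j, (σ k (t j) - σ k (t i)) + ∑ k ∈ Finset.Ico j i, (σ k s - σ k (t i))))) ∨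
      a j = 0 := by
  rcases eq_or_ne (a j) 0 with h0 | h0
  · exact Or.inr h0
  left
  unfold alf
  have h1 : ∑ k ∈ Finset.Ico 1 i, (σ k s - σ k (t i)) =
      ∑ k ∈ Finset.Ico 1 j, (σ k s - σ k (t j)) + (∑ k ∈ Finset.Ico 1 j, (σ k (t j) - σ k (t i)) +
        ∑ k ∈ Finset.Ico j i, (σ k s - σ k (t i))) := by
    rw [← add_assoc, ← Finset.sum_add_distrib, ← Finset.sum_Ico_consecutive _ hj hij]
    congr 1
    refine Finset.sum_congr rfl fun k _ => ?_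
    ring
  rw [h1, _root_.mul_add, Real.exp_add]
  field_simp

theorem SigSys.alf_cmp (H : SigSys n T t σ) {i j : ℕ} (ha : ∀ k, 0 < a k) (hj : 1 ≤ j) (hij : j ≤ i)
    (hi : i ≤ n + 1) {s : ℝ} (hs : s ∈ Set.Icc 0 T) :
    alf a t σ i s ≤ alf a t σ j s * (a i / a j * Real.exp (2 * n)) := by
  rcases alf_ratio (a := a) (t := t) (σ := σ) hj hij s with h | h
  · rw [h]
    have h1 : ∑ k ∈ Finset.Ico 1 j, (σ k (t j) - σ k (t i)) ≤ 0 := by
      refine Finset.sum_nonpos fun k hk => ?_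
      rw [Finset.mem_Ico] at hk
      have := H.mono k hk.1 (by omega) (H.t_mem j hj (by omega)) (H.t_mem i (by omega) hi)
        (H.t_le' hj hij hi)
      linarith
    have h2 := H.sum_le (i := j) (j := i) hj hi hs
    have h3 : Real.sqrt 2 * (∑ k ∈ Finset.Ico 1 j, (σ k (t j) - σ k (t i)) +
        ∑ k ∈ Finset.Ico j i, (σ k s - σ k (t i))) ≤ 2 * n := by
      calc _ ≤ Real.sqrt 2 * (n : ℝ) := mul_le_mul_of_nonneg_left (by linarith) sqrt2_pos.le
        _ ≤ 2 * n := mul_le_mul_of_nonneg_right sqrt2_le (Nat.cast_nonneg n)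
    have h4 := (alf_pos' (t := t) (σ := σ) (ha j) s).le
    have h5 := ha i
    have h6 := ha j
    gcongr
  · exact absurd h (ha j).ne'

/-- (A7) -/
theorem SigSys.ratio_mono (H : SigSys n T t σ) {j : ℕ} (ha : ∀ k, 0 < a k) (hj : 1 ≤ j)
    (hjn : j ≤ n) :
    MonotoneOn (fun s => alf a t σ (n + 1) s / alf a t σ j s) (Set.Icc 0 T) := by
  intro x hx y hy hxy
  have key : ∀ s, alf a t σ (n + 1) s / alf a t σ j s = a (n + 1) / a j * Real.exp (Real.sqrt 2 *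
      (∑ k ∈ Finset.Ico 1 j, (σ k (t j) - σ k (t (n + 1))) +
        ∑ k ∈ Finset.Ico j (n + 1), (σ k s - σ k (t (n + 1))))) := by
    intro s
    rcases alf_ratio (a := a) (t := t) (σ := σ) hj (show j ≤ n + 1 by omega) s with h | h
    · rw [h]
      have := (alf_pos' (t := t) (σ := σ) (ha j) s).ne'
      field_simp
    · exact absurd h (ha j).ne'
  simp only
  rw [key, key]
  have h5 := ha (n + 1)
  have h6 := ha j
  have h7 := sqrt2_pos
  have h8 : ∑ k ∈ Finset.Ico j (n + 1), (σ k x - σ k (t (n + 1))) ≤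
      ∑ k ∈ Finset.Ico j (n + 1), (σ k y - σ k (t (n + 1))) := by
    refine Finset.sum_le_sum fun k hk => ?_
    rw [Finset.mem_Ico] at hk
    have := H.mono k (by omega) (by omega) hx hy hxy
    linarith
  gcongr

/-- Before the window `n` the weight `α_{n+1}` is tiny. -/
theorem SigSys.alf_early (H : SigSys n T t σ) (ha : ∀ k, 0 < a k) (hn : 1 ≤ n) {s : ℝ}
    (hs : s ∈ Set.Icc 0 T) (hs' : s ≤ t (n + 1)) :
    alf a t σ (n + 1) s ≤ a (n + 1) * Real.exp (-(Real.sqrt 2 * (σ n (t (n + 1)) - σ n s))) := by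
  unfold alf
  have h1 : ∑ k ∈ Finset.Ico 1 (n + 1), (σ k s - σ k (t (n + 1))) ≤ σ n s - σ n (t (n + 1)) := by
    rw [Finset.sum_Ico_succ_top hn]
    have : ∑ k ∈ Finset.Ico 1 n, (σ k s - σ k (t (n + 1))) ≤ 0 := by
      refine Finset.sum_nonpos fun k hk => ?_
      rw [Finset.mem_Ico] at hk
      have := H.mono k hk.1 (by omega) hs (H.t_mem (n + 1) (by omega) le_rfl) hs'
      linarith
    linarith
  have h2 := ha (n + 1)
  have h3 := sqrt2_pos
  have h4 : Real.sqrt 2 * ∑ k ∈ Finset.Ico 1 (n + 1), (σ k s - σ k (t (n + 1))) ≤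
      -(Real.sqrt 2 * (σ n (t (n + 1)) - σ n s)) := by
    calc _ ≤ Real.sqrt 2 * (σ n s - σ n (t (n + 1))) := mul_le_mul_of_nonneg_left h1 h3.le
      _ = _ := by ring
  gcongr

/-- (A6), (A7) for the step `n → n + 1` from the growth functions. -/
theorem wgt_of {C : Chain} {G β : ℝ} (H : SigSys n (C.τ (n + 1)) t σ) (ha : ∀ k, 0 < a k)
    (hα : ∀ j, 1 ≤ j → j ≤ n + 1 → ∀ s ∈ Set.Icc 0 (C.τ (n + 1)), C.α j s = alf a t σ j s)
    (hG : ∀ i j, 1 ≤ j → j ≤ i → i ≤ n + 1 → a i / a j * Real.exp (2 * n) ≤ G)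
    (hexp : ∀ s ∈ Set.Icc 0 (C.τ (n + 1)), ∀ r ∈ Set.Icc 0 (C.τ (n + 1)), s ≤ r →
      Real.exp (2 * β * (r - s)) * alf a t σ (n + 1) s ≤ G) : Wgt C n G β where
  cmp := by
    intro i j h1 h2 h3 s hs
    rw [hα i (by omega) h3 s hs, hα j (by omega) (by omega) s hs]
    have h4 := H.alf_cmp ha (show 1 ≤ j by omega) h2.le h3 hs
    have h5 := hG i j (by omega) h2.le h3
    have h6 := alf_pos' (t := t) (σ := σ) (ha j) s
    calc alf a t σ i s ≤ alf a t σ j s * (a i / a j * Real.exp (2 * n)) := h4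
      _ ≤ alf a t σ j s * G := by gcongr
      _ = G * alf a t σ j s := mul_comm _ _
  ratio := by
    intro j h1 h2
    have h3 := H.ratio_mono ha (show 1 ≤ j by omega) h2
    intro x hx y hy hxy
    simp only
    rw [hα _ (by omega) le_rfl x hx, hα _ (by omega) le_rfl y hy, hα j (by omega) (by omega) x hx,
      hα j (by omega) (by omega) y hy]
    exact h3 hx hy hxy
  exp := by
    intro s hs r hr hsr
    rw [hα _ (by omega) le_rfl s hs]
    exact hexp s hs r hr hsr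

end

end Pool.Agent.Work.MP_b0497c_an.Unf.A

end
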