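import Pool.Agent.Work.MP_b0497c_an.Bd.B39
import Pool.Agent.Work.MP_b0497c_an.Bd.B33
import Pool.Agent.Work.MP_b0497c_an.Bd.B30
import Pool.Agent.Work.MP_b0497c_an.Unf.L03
import Pool.Agent.Work.MP_b0497c_an.Bd.B29
import Pool.Agent.Work.MP_b0497c_an.Bd.B28
import Pool.Agent.Work.MP_b0497c_an.Bd.B34
import Pool.Agent.Work.MP_b0497c_an.Bd.B31
import Pool.Agent.Work.MP_b0497c_an.Unf.L20
import Pool.Agent.Work.MP_b0497c_an.Unf.L28
import Pool.Agent.Work.MP_b0497c_an.Unf.OKin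
import Pool.Agent.Work.MP_b0497c_an.Unf.P6

/-! Bundle of small proof modules (one section per former module). -/

section

set_option autoImplicit false

/-!
# Block L, assembled: all items without hypotheses (except L16)
-/

namespace Pool.Agent.Work.MP_b0497c_an.Unf.L.All

open W S

theorem l01 : L01 := L.l01
theorem l02 : L02 := L.l02
theorem l03 : L03 := L.l03
theorem l04 : L04 := L.l04
theorem l05 : L05 := L.l05 l01
theorem l06 : L06 := L.l06 l01 l02
theorem l07 : L07 := L.l07 l03 l04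
theorem l08 : L08 := L.l08
theorem l09 : L09 := L.l09
theorem l10 : L10 := L.l10 l03 l07 l08 l09
theorem l11 : L11 := L.l11 l03 l04 l07 l08
theorem l12 : L12 := L.l12 l05 l07 l08
theorem l13 : L13 := L.l13 l05 l06 l10
theorem l14 : L14 := L.l14 l08 l09
theorem l15 : L15 := L.l15
theorem l15b : L15b := L.l15b
theorem l17 : L17 := L.l17
theorem l18 : L18 := L.l18 l05 l07 l08 l11 l15b l17
theorem l19 : L19 := L.l19 l08
theorem l20 : L20 := L.l20 l13
theorem l21 : L21 := L.l21 l14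
theorem l22 : L22 := L.l22 l05 l06 l09 l10 l21
theorem l23 : L23 := L.l23 l05 l06 l10 l15b
theorem l24 : L24 := L.l24 l15
theorem l25 : L25 := L.l25 l05 l10 l11 l12 l15b
theorem l26 : L26 := L.l26 l05 l10 l11 l12 l15b
theorem l27 : L27 := L.l27
theorem l28 : L28 := L.l28 l08
theorem l29 : L29 := L.l29
theorem l00 : L00 := L.l00 S.All.s24 S.All.s25 S.All.s28 S.All.s29 S.All.s30 S.All.s31
theorem l30 (h16 : L16) : L30 :=
  L.l30 l07 l08 h16 l17 l18 l19 l20 l21 l22 l23 l24 l25 l26 l15b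
theorem l31 (h16 : L16) : L31 := L.l31 l00 l27 l29 (l30 h16)

end Pool.Agent.Work.MP_b0497c_an.Unf.L.All

end

section

set_option autoImplicit false
set_option linter.dupNamespace false

/-!
# Block A, `LSh`: the velocity gradient of level `n` at the centre (helper65)
-/

open scoped ENNReal
open Set MeasureTheory

namespace Pool.Agent.Work.MP_b0497c_an.Unf.A

open W S P
open Unf.O (LevD NextD)
open Unf.K (rM rV rMt kR dj kelS covec CoL refM)
open Forced.Ode (Op ro)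

namespace LShP

/-- The centre family at `al = 1` is the reference flow of the seed. -/
theorem fam_eq {D : LevD} {b' : ℝ} (h : D.Flo b') {k : E3} (hk : k ≠ 0)
    (hl : (‖D.l‖)⁻¹ • D.l = (‖k‖)⁻¹ • k) (hl0 : D.l ≠ 0) (t : ℝ) (hA : Continuous D.A) :
    D.fam.M 1 t = refM D.A k ((‖D.l‖ / ‖k‖) • D.v 0) t := by
  have hk' : 0 < ‖k‖ := norm_pos_iff.2 hk
  have hl' : 0 < ‖D.l‖ := norm_pos_iff.2 hl0
  set c : ℝ := ‖D.l‖ / ‖k‖ with hc
  have hc0 : c ≠ 0 := (div_pos hl' hk').ne'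
  have hlk : D.l = c • k := by
    have h1 : D.l = ‖D.l‖ • ((‖D.l‖)⁻¹ • D.l) := by
      rw [smul_smul, mul_inv_cancel₀ hl'.ne', one_smul]
    rw [h1, hl, smul_smul, hc, div_eq_mul_inv]
  -- the covector
  have hn : D.n = covec D.A D.l := by
    refine K.ode_unique (K.dg_cont hA) 0 ?_ (fun s => ?_) (K.covec_deriv hA D.l)
    · rw [LSeP.n_zero h, K.covec_zero]
    · exact h.n_der s
  have hn' : ∀ s, D.n s = c • covec D.A k s := by
    intro s
    rw [hn, hlk, K.covec_smul hA]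
  -- the Kelvin solution
  have hv : D.v = kelS D.A D.l (D.v 0) := by
    refine K.ode_unique (K.kelG_cont hA hl0) 0 ?_ (fun s => ?_) (K.kelS_deriv hA hl0 _)
    · rw [K.kelS_zero]
    · have h1 := h.v_der s
      rw [hn] at h1
      exact h1
  have hv' : ∀ s, kelS D.A k (c • D.v 0) s = c • D.v s := by
    intro s
    rw [K.kelS_smul hA hk]
    congr 1
    conv_rhs => rw [hv, hlk, K.kelS_K_smul hA hc0]
  rw [refM, hv']
  show D.A t + (1 : ℝ) • ro (D.v t) (D.n t) = _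
  rw [one_smul, hn']
  congr 1
  ext1 x
  simp only [ro, ContinuousLinearMap.smulRight_apply, innerSL_apply_apply, inner_smul_left,
    conj_trivial, smul_smul]
  congr 1
  ring

/-- `Vseed` times the wave vector: sizes. -/
theorem size {D : LevD} (H : D.HL) {t : ℝ} (ht : t ∈ Icc 0 D.T) :
    D.al t / D.al 0 * ‖D.v 0‖ ≤ D.b ^ 3 * D.a ∧ D.al t / D.al D.t0 ≤ D.b ^ 2 := by
  have h0 : (0 : ℝ) ∈ Icc 0 D.T := ⟨le_rfl, ht.1.trans ht.2⟩
  have hb : 0 < D.b := by have := H.b_ge; linarith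
  have ha : 0 < D.a := H.toFlo.a_pos
  have h1 := H.al_pos t ht
  have h2 := H.al_pos 0 h0
  have h3 := H.al_pos D.t0 H.toFlo.t0_mem
  have e1 := (H.v_size t ht).1
  have e2 := H.v_le t ht
  have e3 := (H.v_size 0 h0).2
  have k1 : D.al t / D.al D.t0 ≤ D.b ^ 2 := by
    have h4 : (D.b)⁻¹ ≤ D.b * (D.al D.t0 / D.al t) := by
      refine e1.trans ?_
      have h5 : ‖D.v t‖ / D.a ≤ D.b := by
        rw [div_le_iff₀ ha]
        exact e2
      gcongr
    rw [div_le_iff₀ h3]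
    rw [inv_le_iff_one_le_mul₀ hb] at h4
    have h6 : D.b * (D.al D.t0 / D.al t) * D.b * D.al t = D.b ^ 2 * D.al D.t0 := by
      field_simp
    calc D.al t = 1 * D.al t := (one_mul _).symm
      _ ≤ (D.b * (D.al D.t0 / D.al t) * D.b) * D.al t := by gcongr
      _ = D.b ^ 2 * D.al D.t0 := h6
  refine ⟨?_, k1⟩
  calc D.al t / D.al 0 * ‖D.v 0‖
      = (D.al t / D.al D.t0) * (‖D.v 0‖ / D.a * (D.al D.t0 / D.al 0)) * D.a := by field_simp
    _ ≤ D.b ^ 2 * D.b * D.a := by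
        gcongr
    _ = D.b ^ 3 * D.a := by ring

/-- The final number. -/
theorem fin {C x : ℝ} (B : Big C x) (n : ℕ) :
    (aa x n * bb x n ^ 2 + bb x n ^ 6 * aa x n) * Real.exp (-(Lr x n) / 32) ≤
      (hh x n ^ (10 ^ 9))⁻¹ := by
  have hh1 := B.hh_one n
  have hb1 := B.bb_one n
  have hh0 := hh_pos x n
  have e1 : Real.exp (-(Lr x n) / 32) ≤ (hh x n ^ (10 ^ 9 + 26))⁻¹ := by
    refine B.exp_L_le_h (by norm_num) ?_
    have := B.C_one
    push_cast
    nlinarith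
  have hb6 : bb x n ^ 6 ≤ hh x n := B.b_pow_le (K := 6) (by norm_num)
  have hb2 : bb x n ^ 2 ≤ bb x n ^ 6 := pow_le_pow_right₀ hb1 (by norm_num)
  have h2 : 2 ≤ hh x n := by
    have := B.hh_ge n
    have h3 : (2 : ℝ) ≤ 10 ^ 100 := by norm_num
    linarith
  have e2 : aa x n * bb x n ^ 2 + bb x n ^ 6 * aa x n ≤ hh x n ^ 26 := by
    rw [aa_eq]
    have h4 : 0 ≤ hh x n ^ 24 := by positivity
    calc hh x n ^ 24 * bb x n ^ 2 + bb x n ^ 6 * hh x n ^ 24
        ≤ hh x n ^ 24 * hh x n + hh x n * hh x n ^ 24 := by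
          gcongr
          exact hb2.trans hb6
      _ = 2 * (hh x n * hh x n ^ 24) := by ring
      _ ≤ hh x n * (hh x n * hh x n ^ 24) := by gcongr
      _ = hh x n ^ 26 := by ring
  calc (aa x n * bb x n ^ 2 + bb x n ^ 6 * aa x n) * Real.exp (-(Lr x n) / 32)
      ≤ hh x n ^ 26 * (hh x n ^ (10 ^ 9 + 26))⁻¹ := by gcongr
    _ = (hh x n ^ (10 ^ 9))⁻¹ := by
        rw [pow_add, mul_inv, mul_comm ((hh x n ^ (10 ^ 9))⁻¹), ← mul_assoc,
          mul_inv_cancel₀ (pow_pos hh0 26).ne', one_mul]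

end LShP

open LShP

theorem lsh (hLSe : LSe) : LSh := by
  intro x R0 c₀ X0 n C D hn hP hD hAn t ht
  have B := hP.big
  have H := hD.hl n hn le_rfl
  obtain ⟨-, hws, hdws, hseed⟩ := hLSe x R0 c₀ X0 n C D hn hP hD
  have hlow := hD.K_size.low n hn le_rfl
  have hE := Real.exp_pos (Lr x n)
  have hkv : 0 < ‖kv (C.K n)‖ := lt_of_lt_of_le (by linarith) hlow
  have hkR : ‖kv (C.K n)‖ = ‖kR (C.K n)‖ := by rw [K.KDict.kv_eq, K.KDict.norm_ofC]
  have hk0 : 0 < ‖kR (C.K n)‖ := by rw [← hkR]; exact hkv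
  have hkne : kR (C.K n) ≠ 0 := norm_pos_iff.1 hk0
  have hb := hD.b_eq n hn le_rfl
  have hh' := hD.h_eq n hn le_rfl
  have hb0 : 0 < bb x n := bb_pos x n
  have ha : (D n).a = aa x n := by rw [LevD.a, hh', aa_eq]
  have haa := aa_pos x n
  have hT1 : (D n).T ≤ 1 := H.T_one
  have h0T : (0 : ℝ) ∈ Icc 0 (D n).T := ⟨le_rfl, ht.1.trans ht.2⟩
  have htτ : t ∈ Icc 0 (C.τ n) := ⟨ht.1, ht.2.trans hD.T_le⟩
  -- the label `0`
  have hl0 : 0 < ‖(D n).l‖ := by
    have h1 := H.toFlo.l_ge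
    by_contra h
    have h2 : ‖(D n).l‖ = 0 := le_antisymm (not_lt.1 h) (norm_nonneg _)
    rw [h2, mul_zero] at h1
    linarith
  have hlne : (D n).l ≠ 0 := norm_pos_iff.1 hl0
  have hkb := hD.kb 0
  rw [← hD.A_eq] at hkb
  have hAc : Continuous (D n).A := hkb.cont
  -- `d7`
  have hlv := hAn.lvl n le_rfl
  have hlv' := hAn.lvl (n - 1) (Nat.sub_le _ _)
  have hsh := hAn.sht n hn le_rfl
  have hr : 0 < C.r n := by
    have h1 := hlv.r_R
    have h2 := hlv.R_two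
    by_contra h
    have : C.R n * C.r n ≤ 0 := mul_nonpos_of_nonneg_of_nonpos (by linarith) (not_lt.1 h)
    linarith
  have hMs : ∀ s ∈ Icc 0 (C.τ n), Summable fun q => ‖C.M n s q‖ := fun s hs =>
    ((K.d2 0 (C.τ n) (C.r n) (C.R n) Dat.one' hr.le (by have := hlv.R_two; linarith)
      (fun _ _ => one_pos)).1 (C.M n) hlv.M_le s hs).1
  have key := K.d7 C.K (C.τ (n - 1)) (C.τ n) (C.r n) (C.r (n - 1)) (C.R n) (C.R (n - 1))
    (uOld x n) (C.α n) n _ _ _ _ _ _ _ _ _ _ _ _ _ _ _ hlv' hsh hD.τ_le hr.le hMs hws hdws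
    (C.τ n) hD.τ_pos le_rfl 0 t htτ
  rw [← hD.A_eq] at key
  have eM' : rM 0 (C.M (n - 1) t) = (D n).A t := by
    rw [hD.A_eq, rMt, K.KDict.clT_of_mem htτ]
  rw [eM'] at key
  -- the seed
  have hs0 := hseed 0
  have e0 : Real.cos ((0 : Md →+ ℝ) (em n)) * envR (Aex x n) n 0 = 1 := by
    simp [envR]
  rw [e0, one_smul] at hs0
  set V := Vseed C n (D n) with hV
  set V' := rV 0 (dj n (C.w n)) with hV'
  have hVn : ‖V‖ * ‖kR (C.K n)‖ = ‖(D n).l‖ * ‖(D n).v 0‖ := by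
    rw [hV, Vseed, norm_smul, norm_div, norm_norm, norm_norm]
    field_simp
  have hsd : ∀ s ∈ Icc 0 (D n).T, C.α n s / C.α n 0 * ‖V' - V‖ * ‖kR (C.K n)‖ ≤
      bb x n ^ 4 * aa x n * Real.exp (-(Lr x n) / 4) := by
    intro s hs
    obtain ⟨h1, -⟩ := size H hs
    rw [hb, ha] at h1
    have h2 := H.al_pos s hs
    have h3 := H.al_pos 0 h0T
    have h4 := H.al_pos (D n).t0 H.toFlo.t0_mem
    have h5 : C.α n s / C.α n 0 = (D n).al s / (D n).al 0 := by
      rw [hD.α_eq n hn le_rfl]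
      field_simp
    have h6 := H.toFlo.l_le
    rw [hb] at h6
    have h7 : 0 ≤ (D n).al s / (D n).al 0 := by positivity
    rw [h5]
    calc (D n).al s / (D n).al 0 * ‖V' - V‖ * ‖kR (C.K n)‖
        ≤ (D n).al s / (D n).al 0 * (Real.exp (-(Lr x n) / 4) * ‖V‖) * ‖kR (C.K n)‖ := by
          gcongr
      _ = Real.exp (-(Lr x n) / 4) * ((D n).al s / (D n).al 0) * (‖V‖ * ‖kR (C.K n)‖) := by ring
      _ = Real.exp (-(Lr x n) / 4) * ‖(D n).l‖ *
          ((D n).al s / (D n).al 0 * ‖(D n).v 0‖) := by rw [hVn]; ring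
      _ ≤ Real.exp (-(Lr x n) / 4) * bb x n * (bb x n ^ 3 * aa x n) := by gcongr
      _ = bb x n ^ 4 * aa x n * Real.exp (-(Lr x n) / 4) := by ring
  have key2 := K.refM_seed (hkb.mono_T hD.T_le) hkne hb0.le hsd ht
  have e1 : (D n).fam.M 1 t = refM (D n).A (kR (C.K n)) V t :=
    fam_eq H.toFlo hkne hD.l_eq hlne t hAc
  -- the weight
  have hα : C.α n t ≤ aa x n * bb x n ^ 2 := by
    rw [hD.α_eq n hn le_rfl]
    have := (size H ht).2
    rw [hb] at this
    show aa x n * ((D n).al t / (D n).al (D n).t0) ≤ _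
    gcongr
  have hu : uOld x n ^ 256 = Real.exp (-(Lr x n) / 32) := B.uOld_pow n
  have h4 : Real.exp (-(Lr x n) / 4) ≤ Real.exp (-(Lr x n) / 32) :=
    Real.exp_le_exp.2 (by have := Lr_pos x n; linarith)
  rw [hu] at key
  have e2 : C.Mc n t - (D n).fam.M 1 t =
      (rM 0 (C.M n t) - (D n).A t - ro (kelS (D n).A (kR (C.K n)) V' t)
        (covec (D n).A (kR (C.K n)) t)) +
      (refM (D n).A (kR (C.K n)) V' t - refM (D n).A (kR (C.K n)) V t) := by
    rw [e1]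
    show rM 0 (C.M n t) - _ = _
    rw [refM, refM]
    abel
  rw [e2]
  refine (norm_add_le _ _).trans ((add_le_add key key2).trans ?_)
  calc C.α n t * Real.exp (-(Lr x n) / 32) +
        bb x n ^ 2 * (bb x n ^ 4 * aa x n * Real.exp (-(Lr x n) / 4))
      ≤ aa x n * bb x n ^ 2 * Real.exp (-(Lr x n) / 32) +
        bb x n ^ 2 * (bb x n ^ 4 * aa x n * Real.exp (-(Lr x n) / 32)) := by gcongr
    _ = (aa x n * bb x n ^ 2 + bb x n ^ 6 * aa x n) * Real.exp (-(Lr x n) / 32) := by ring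
    _ ≤ _ := fin B n

end Pool.Agent.Work.MP_b0497c_an.Unf.A

end
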