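import Pool.Agent.Work.MP_b0497c_an.Bd.B05
import Pool.Agent.Work.MP_b0497c_an.Unf.SStmts3
import Pool.Agent.Work.MP_b0497c_an.Bd.B06
import Pool.Agent.Work.MP_b0497c_an.Unf.SAlg
import Pool.Agent.Work.MP_b0497c_an.Bd.B08

/-! Bundle of small proof modules (one section per former module). -/

section

set_option autoImplicit false

/-!
# Block P: the parameter part of `Dat.Hyp` from `Big`
-/

open Filter

namespace Pool.Agent.Work.MP_b0497c_an.Unf.P

namespace Big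

variable {C x : ℝ} (B : Big C x)
include B

theorem Lr_gap (n : ℕ) : (10 : ℝ) ^ 100 * Lr x n ≤ Lr x (n + 1) := by
  have h1 := B.ell_gap n
  have h2 := B.ell_pos n
  calc (10 : ℝ) ^ 100 * Lr x n ≤ Lr x n * Lr x n := by
        have := B.Lr_ge n
        have := (Lr_pos x n).le
        gcongr
    _ = Real.exp (2 * ell x n) := by rw [Lr, ← Real.exp_add]; ring_nf
    _ ≤ Lr x (n + 1) := by rw [Lr]; exact Real.exp_le_exp.2 (by linarith)

theorem Lr_one (n : ℕ) : 1 ≤ Lr x n := le_trans (by norm_num) (B.Lr_ge n)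

/-- `1 ≤ N_j`, `N_j ≤ 2 exp(L_j)`, `4 N_j ≤ N_{j+1}`, `N_j/N_{j+1} ≤ exp(-L_{j+1}/2)`. -/
theorem NN_all {N : ℕ → ℝ} (hN : NN x N) (j : ℕ) :
    1 ≤ N j ∧ N j ≤ 2 * Real.exp (Lr x j) ∧ 4 * N j ≤ N (j + 1) ∧
      N j / N (j + 1) ≤ Real.exp (-(Lr x (j + 1)) / 2) := by
  have hL : ∀ j, 8 * Lr x j ≤ Lr x (j + 1) := fun j => by
    have h := B.Lr_gap j
    have := Lr_pos x j
    have h2 : 8 * Lr x j ≤ (10 : ℝ) ^ 100 * Lr x j := by gcongr; norm_num
    linarith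
  have hL1 : ∀ j, 1 ≤ Lr x j := fun j => B.Lr_one j
  have h14 : 1 ≤ Real.sqrt 14 ∧ Real.sqrt 14 ≤ 4 :=
    ⟨Real.le_sqrt_of_sq_le (by norm_num), Real.sqrt_le_iff.2 ⟨by norm_num, by norm_num⟩⟩
  have hge : ∀ j, 1 ≤ N j := by
    intro j
    rcases Nat.eq_zero_or_pos j with rfl | hj
    · rw [hN.zero]; exact h14.1
    · have := hN.low j hj
      have h2 := Real.add_one_le_exp (Lr x j)
      have h3 := hL1 j
      linarith
  have hup : ∀ j, N j ≤ 2 * Real.exp (Lr x j) := by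
    intro j
    rcases Nat.eq_zero_or_pos j with rfl | hj
    · rw [hN.zero]
      have h2 := Real.add_one_le_exp (Lr x 0)
      have h3 := hL1 0
      linarith [h14.2]
    · exact hN.upp j hj
  have h16 : Real.exp 1 * Real.exp 1 * Real.exp 1 ≥ 16 := by
    have := Real.exp_one_gt_d9
    nlinarith [mul_pos (Real.exp_pos 1) (Real.exp_pos 1)]
  have hlow := hN.low (j + 1) (Nat.succ_pos j)
  have h0 := hup j
  have h8 := hL j
  have hj1 := hL1 j
  have hpos : 0 < N (j + 1) := by linarith [hge (j + 1)]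
  have e1 : 16 * Real.exp (Lr x j) ≤ Real.exp (Lr x (j + 1) / 2) := by
    calc 16 * Real.exp (Lr x j) ≤ (Real.exp 1 * Real.exp 1 * Real.exp 1) *
          Real.exp (Lr x j) := by gcongr
      _ = Real.exp (3 + Lr x j) := by
          rw [← Real.exp_add, ← Real.exp_add, ← Real.exp_add]; ring_nf
      _ ≤ Real.exp (Lr x (j + 1) / 2) := Real.exp_le_exp.2 (by linarith)
  have e2 : Real.exp (Lr x (j + 1)) = Real.exp (Lr x (j + 1) / 2) *
      Real.exp (Lr x (j + 1) / 2) := by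
    rw [← Real.exp_add]; ring_nf
  have e3 : Real.exp (-(Lr x (j + 1)) / 2) * Real.exp (Lr x (j + 1) / 2) = 1 := by
    rw [← Real.exp_add]; ring_nf; simp
  have e4 : 1 ≤ Real.exp (Lr x (j + 1) / 2) := Real.one_le_exp (by linarith [hL1 (j + 1)])
  refine ⟨hge j, h0, ?_, ?_⟩
  · calc 4 * N j ≤ 8 * Real.exp (Lr x j) := by linarith
      _ ≤ Real.exp (Lr x (j + 1) / 2) / 2 := by linarith [Real.exp_pos (Lr x j)]
      _ ≤ Real.exp (Lr x (j + 1)) / 2 := by
          rw [e2]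
          have := mul_le_mul_of_nonneg_right e4 (Real.exp_pos (Lr x (j + 1) / 2)).le
          linarith
      _ ≤ N (j + 1) := hlow
  · rw [div_le_iff₀ hpos]
    calc N j ≤ 2 * Real.exp (Lr x j) := h0
      _ ≤ Real.exp (Lr x (j + 1) / 2) / 2 := by linarith [Real.exp_pos (Lr x j)]
      _ = Real.exp (-(Lr x (j + 1)) / 2) * (Real.exp (Lr x (j + 1)) / 2) := by
          rw [e2]; linear_combination (-(Real.exp (Lr x (j + 1) / 2) / 2)) * e3
      _ ≤ Real.exp (-(Lr x (j + 1)) / 2) * N (j + 1) := by gcongr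

/-- `mu_le` of `Dat.Hyp`. -/
theorem mu_le {N : ℕ → ℝ} (hN : NN x N) (n : ℕ) {j : ℕ} (hj : 1 ≤ j) :
    N (j - 1) / N j ≤ uu x n j ^ 512 := by
  obtain ⟨i, rfl⟩ : ∃ i, j = i + 1 := ⟨j - 1, by omega⟩
  have h := (B.NN_all hN i).2.2.2
  rw [← uNew_pow] at h
  rw [Nat.add_sub_cancel]
  refine h.trans ?_
  unfold uu
  split_ifs
  · exact le_rfl
  · exact pow_le_pow_left₀ (uNew_pos _ _).le (uNew_le_uOld _ _) _

/-- `u_step` of `Dat.Hyp`. -/
theorem u_step (n : ℕ) {j : ℕ} (hj : j ≤ n) : uu x n (j + 1) ≤ uu x n j ^ 16 := by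
  have hne : j ≠ n + 1 := by omega
  have e1 : uu x n j = uOld x j := by rw [uu, if_neg hne]
  have e2 : uu x n (j + 1) ≤ uOld x (j + 1) := by
    unfold uu; split_ifs
    · exact uNew_le_uOld _ _
    · exact le_rfl
  rw [e1]
  refine e2.trans ?_
  rw [uOld, uOld, ← Real.exp_nat_mul]
  refine Real.exp_le_exp.2 ?_
  have h := B.Lr_gap j
  have := Lr_pos x j
  have h2 : 16 * Lr x j ≤ (10 : ℝ) ^ 100 * Lr x j := by gcongr; norm_num
  push_cast
  linarith

/-- `small` of `Dat.Hyp`, with room (`G^4000`). -/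
theorem small' (n : ℕ) : GG x n ^ 4000 * uu x n (mm n + 1) ^ 4 ≤ 1 := by
  have key : ∀ i : ℕ, uu x n i ^ 4 ≤ Real.exp (-(Lr x i) / 2048) := by
    intro i
    unfold uu
    split_ifs
    · rw [uNew, ← Real.exp_nat_mul]
      refine Real.exp_le_exp.2 ?_
      push_cast
      linarith [B.Lr_one i]
    · rw [uOld, ← Real.exp_nat_mul]
      refine Real.exp_le_exp.2 ?_
      push_cast
      linarith [B.Lr_one i]
  have hmain : 280000000 * ell x (n + 3) ≤ 1 / 2048 * Lr x (mm n + 1) := by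
    have hC := B.C_one
    have hD : (280000000 * 2048 : ℝ) ≤ (10 : ℝ) ^ 30 * C := by nlinarith
    have gen : ∀ i j : ℕ, j ≤ 5 → 280000000 * ell x (i + j) ≤ 1 / 2048 * Lr x i := by
      intro i j hj
      have := B.poly_L' (n := i) hj (by norm_num) hD
      linarith
    rcases Nat.lt_or_ge n 2 with hn | hn
    · interval_cases n
      · simpa [mm] using gen 1 2 (by norm_num)
      · simpa [mm] using gen 1 3 (by norm_num)
    · obtain ⟨i, rfl⟩ : ∃ i, n = i + 2 := ⟨n - 2, by omega⟩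
      have := gen (i + 1) 4 (by norm_num)
      simp only [mm, Nat.add_sub_cancel]
      have e : i + 1 + 4 = i + 2 + 3 := by ring
      rw [e] at this
      exact this
  calc GG x n ^ 4000 * uu x n (mm n + 1) ^ 4
      ≤ Real.exp (280000000 * ell x (n + 3)) * Real.exp (-(Lr x (mm n + 1)) / 2048) := by
        gcongr
        · rw [GG, ← Real.exp_nat_mul]
          refine Real.exp_le_exp.2 (le_of_eq ?_)
          push_cast
          ring
        · exact key _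
    _ = Real.exp (280000000 * ell x (n + 3) - 1 / 2048 * Lr x (mm n + 1)) := by
        rw [← Real.exp_add]; ring_nf
    _ ≤ 1 := by rw [Real.exp_le_one_iff]; linarith

theorem GG_one (n : ℕ) : 1 ≤ GG x n := Real.one_le_exp (by have := B.ell_pos (n + 3); linarith)

theorem GG_two (n : ℕ) : 2 ≤ GG x n := by
  have h := B.num_exp (B.ell_ge (n + 3))
  have h2 : Real.exp (ell x (n + 3)) ≤ GG x n :=
    Real.exp_le_exp.2 (by have := B.ell_pos (n + 3); linarith)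
  exact le_trans (by norm_num) (h.trans h2)

theorem small (n : ℕ) : GG x n ^ 400 * uu x n (mm n + 1) ^ 4 ≤ 1 := by
  refine le_trans ?_ (B.small' n)
  have h0 := (uu_pos x n (mm n + 1)).le
  have := pow_le_pow_right₀ (B.GG_one n) (show 400 ≤ 4000 by norm_num)
  gcongr

/-- `uu^4 ≤ G^(-4000)` for every sharp level. -/
theorem uu_le_G (n : ℕ) {j : ℕ} (hj : mm n < j) (hj2 : j ≤ n + 1) :
    GG x n ^ 4000 * uu x n j ^ 4 ≤ 1 := by
  have hu : ∀ i, mm n + 1 + i ≤ n + 1 → uu x n (mm n + 1 + i) ≤ uu x n (mm n + 1) := by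
    intro i
    induction i with
    | zero => intro _; exact le_rfl
    | succ i ih =>
      intro hi
      have h1 := B.u_step n (j := mm n + 1 + i) (by omega)
      have h2 := uu_pos x n (mm n + 1 + i)
      have h3 := uu_lt x n (mm n + 1 + i)
      have h4 : uu x n (mm n + 1 + i) ^ 16 ≤ uu x n (mm n + 1 + i) :=
        pow_le_of_le_one h2.le h3.le (by norm_num)
      exact (h1.trans h4).trans (ih (by omega))
  obtain ⟨i, rfl⟩ : ∃ i, j = mm n + 1 + i := ⟨j - (mm n + 1), by omega⟩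
  refine le_trans ?_ (B.small' n)
  have h0 := (uu_pos x n (mm n + 1 + i)).le
  have h1 := hu i hj2
  have := B.GG_one n
  gcongr

end Big

end Pool.Agent.Work.MP_b0497c_an.Unf.P

end

section

set_option autoImplicit false

/-!
# S27: the projector of an even deformation gradient is even

For a kernel `A` put `kneg A m l = A (-m) (-l)`. The map `kneg` commutes with `kcomp`, preserves
`sK`, fixes `mulK Fi`, `mulK (adjC Fi)` and `PK ξ`, hence `AK ξ Fi`, hence `RK ξ Fi`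
(uniqueness), hence `PiK ξ Fi`.
-/

open scoped ENNReal
open Set MeasureTheory

namespace Pool.Agent.Work.MP_b0497c_an.Unf.S

open W

namespace S27

theorem pr_neg (v : C3) : pr (-v) = pr v := by
  ext1 w
  simp [pr]

theorem pr_norm_le (v : C3) : ‖pr v‖ ≤ 1 := by
  unfold pr
  rw [norm_smul, ContinuousLinearMap.norm_smulRight_apply, innerSL_apply_norm]
  rcases eq_or_ne v 0 with h | h
  · simp [h]
  · have h1 : 0 < ‖v‖ := norm_pos_iff.2 h
    have h2 : ‖(((‖v‖ ^ 2 : ℝ)⁻¹ : ℂ))‖ = (‖v‖ ^ 2)⁻¹ := by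
      rw [norm_inv, Complex.norm_real, Real.norm_of_nonneg (by positivity)]
    rw [h2]
    apply le_of_eq
    field_simp

/-- The reflected kernel. -/
noncomputable def kneg (A : Md → Md → Mat) (m l : Md) : Mat := A (-m) (-l)

theorem kneg_kcomp (A B : Md → Md → Mat) : kneg (kcomp A B) = kcomp (kneg A) (kneg B) := by
  funext m l
  unfold kneg kcomp
  rw [← (Equiv.neg Md).tsum_eq (fun j => ((A (-m) j).comp (B j (-l))))]
  rfl

theorem kneg_mulK (a : Md → Mat) : kneg (mulK a) = mulK (fun k => a (-k)) := by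
  funext m l
  unfold kneg mulK
  have : -m - -l = -(m - l) := by abel
  rw [this]

theorem kneg_diagK (a : Md → Mat) : kneg (diagK a) = diagK (fun k => a (-k)) := by
  funext m l
  unfold kneg diagK
  by_cases h : m = l
  · subst h
    simp
  · have h' : ¬ (-m = -l) := fun h1 => h (neg_injective h1)
    rw [if_neg h, if_neg h']

theorem kneg_sK (c : ℝ) (A : Md → Md → Mat) : sK c (kneg A) = sK c A := by
  unfold sK
  rw [← (Equiv.neg Md).tsum_eq (fun k => ENNReal.ofReal (Real.exp (c * len k)) *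
    ⨆ l, ‖A (l + k) l‖ₑ)]
  refine tsum_congr fun k => ?_
  simp only [Equiv.neg_apply]
  rw [len_neg]
  congr 1
  refine Equiv.iSup_congr (Equiv.neg Md) fun l => ?_
  simp only [Equiv.neg_apply, kneg, neg_add]

end S27

open S27 in
theorem s27 (h10 : W10) (h11 : W11) : S27 := by
  intro Λ c b e F Fi ξ hF hξ hFi
  have hFi' : (fun k => Fi (-k)) = Fi := funext hFi
  have hadj : (fun k => adjC Fi (-k)) = adjC Fi := by
    funext k
    unfold adjC
    rw [hFi (-k)]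
  have hP : kneg (PK ξ) = PK ξ := by
    unfold PK
    rw [kneg_diagK]
    congr 1
    funext k
    rw [hξ, pr_neg]
  have hA : kneg (AK ξ Fi) = AK ξ Fi := by
    unfold AK
    rw [kneg_kcomp, kneg_kcomp, kneg_kcomp, hP, kneg_mulK, kneg_mulK, hFi', hadj]
  -- finiteness
  obtain ⟨hcomp, -, -, hmul, hdiag, -, -, -⟩ := h10 Md C3 C3 C3 0 le_rfl
  obtain ⟨-, -, -, -, -, -, hmono, -⟩ := h10 Md Mat C3 C3 c hF.c_pos.le
  have hPf : sK 0 (PK ξ) ≠ ∞ := by
    refine ne_top_of_le_ne_top ENNReal.one_ne_top (hdiag (fun m => pr (ξ m)) 1 fun m => ?_)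
    rw [← ofReal_norm, ← ENNReal.ofReal_one]
    exact ENNReal.ofReal_le_ofReal (pr_norm_le _)
  have hFf0 : sN 0 Fi ≠ ∞ := by
    refine ne_top_of_le_ne_top ENNReal.ofReal_ne_top (((hmono 0 hF.c_pos.le).2 Fi).trans hF.Fi_le)
  have hFf : sK 0 (mulK Fi) ≠ ∞ := by
    rw [hmul]
    exact hFf0
  have hGf : sK 0 (mulK (adjC Fi)) ≠ ∞ := by
    rw [hmul]
    have h1 : sN 0 (adjC Fi) = sN 0 Fi := by
      unfold sN
      rw [← (Equiv.neg Md).tsum_eq (fun k => ENNReal.ofReal (Real.exp (0 * len k)) * ‖Fi k‖ₑ)]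
      refine tsum_congr fun k => ?_
      simp only [Equiv.neg_apply, adjC]
      rw [len_neg]
      congr 1
      rw [← ofReal_norm, ← ofReal_norm]
      congr 1
      exact LinearIsometryEquiv.norm_map ContinuousLinearMap.adjoint (Fi (-k))
    rw [h1]
    exact hFf0
  have hAf : sK 0 (AK ξ Fi) ≠ ∞ := by
    unfold AK
    refine ne_top_of_le_ne_top (ENNReal.mul_ne_top hPf (ENNReal.mul_ne_top hFf
      (ENNReal.mul_ne_top hGf hPf))) ?_
    refine (hcomp _ _).trans (mul_le_mul_right ?_ _)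
    refine (hcomp _ _).trans (mul_le_mul_right ?_ _)
    exact hcomp _ _
  -- uniqueness
  have hR : kneg (RK ξ Fi) = RK ξ Fi := by
    unfold RK
    split_ifs with h
    · obtain ⟨h1, h2, h3, h4, h5⟩ := h.choose_spec
      set R := h.choose with hRdef
      have hassoc := (h11 Md C3 C3 C3 C3).1
      have h1' : sK 0 (kneg R) ≠ ∞ := by
        rw [kneg_sK]
        exact h1
      have h3' : kcomp (kneg R) (PK ξ) = kneg R := by
        conv_lhs => rw [← hP]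
        rw [← kneg_kcomp, h3]
      have h5' : kcomp (kneg R) (AK ξ Fi) = PK ξ := by
        conv_lhs => rw [← hA]
        rw [← kneg_kcomp, h5, hP]
      calc kneg R = kcomp (kneg R) (PK ξ) := h3'.symm
        _ = kcomp (kneg R) (kcomp (AK ξ Fi) R) := by rw [h4]
        _ = kcomp (kcomp (kneg R) (AK ξ Fi)) R := (hassoc _ _ _ h1' hAf h1).symm
        _ = kcomp (PK ξ) R := by rw [h5']
        _ = R := h2
    · rfl
  have hPi : kneg (PiK ξ Fi) = PiK ξ Fi := by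
    unfold PiK
    rw [kneg_kcomp, kneg_kcomp, hR, kneg_mulK, kneg_mulK, hFi', hadj]
  intro m l
  exact congrFun (congrFun hPi m) l

end Pool.Agent.Work.MP_b0497c_an.Unf.S

end

section

set_option autoImplicit false

/-!
# S30: the seed wave (norms, the Kelvin equation, `k · w` is constant)
-/

open scoped ENNReal Topology
open Set MeasureTheory Filter

namespace Pool.Agent.Work.MP_b0497c_an.Unf.S

open W

namespace IS30

/-- Termwise differentiation of a series on a convex set (one sided derivatives at the ends). -/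
theorem derW_tsum {ι E : Type} [NormedAddCommGroup E] [NormedSpace ℝ E] [CompleteSpace E]
    {s : Set ℝ} (hs : Convex ℝ s) {u : ι → ℝ} (hu : Summable u) {f f' : ι → ℝ → E}
    (hf : ∀ i, ∀ x ∈ s, HasDerivWithinAt (f i) (f' i x) s x)
    (hb : ∀ i, ∀ x ∈ s, ‖f' i x‖ ≤ u i) (hsum : ∀ y ∈ s, Summable fun i => f i y)
    {x : ℝ} (hx : x ∈ s) :
    HasDerivWithinAt (fun y => ∑' i, f i y) (∑' i, f' i x) s x := by
  rw [hasDerivWithinAt_iff_tendsto_slope]
  have h1 : Tendsto (fun y => ∑' i, slope (f i) x y) (𝓝[s \ {x}] x) (𝓝 (∑' i, f' i x)) := by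
    refine tendsto_tsum_of_dominated_convergence hu (fun i => ?_) ?_
    · exact hasDerivWithinAt_iff_tendsto_slope.1 (hf i x hx)
    · filter_upwards [self_mem_nhdsWithin] with y hy i
      have h2 := hs.norm_image_sub_le_of_norm_hasDerivWithin_le (fun z hz => hf i z hz)
        (fun z hz => hb i z hz) hx hy.1
      rw [slope_def_module, norm_smul, norm_inv]
      have h3 : 0 < ‖y - x‖ := norm_pos_iff.2 (sub_ne_zero.2 hy.2)
      rw [inv_mul_le_iff₀ h3]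
      linarith [h2]
  refine h1.congr' ?_
  filter_upwards [self_mem_nhdsWithin] with y hy
  simp only [slope_def_module]
  rw [tsum_const_smul'', (hsum y hy.1).tsum_sub (hsum x hx)]

theorem mulK_mm {E F G : Type} [NormedAddCommGroup E] [NormedSpace ℂ E]
    [NormedAddCommGroup F] [NormedSpace ℂ F] [NormedAddCommGroup G] [NormedSpace ℂ G]
    (a : Md → (F →L[ℂ] G)) (b : Md → (E →L[ℂ] F)) :
    mulK (mm a b) = kcomp (mulK a) (mulK b) := by
  funext m l
  show ∑' j, (a (m - l - j)).comp (b j) = ∑' j, (a (m - j)).comp (b (j - l))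
  rw [← (Equiv.addRight l).tsum_eq (fun j => (a (m - j)).comp (b (j - l)))]
  refine tsum_congr fun j => ?_
  simp only [Equiv.coe_addRight, add_sub_cancel_right]
  rw [sub_sub, add_comm l j]

theorem KN_neg {E F : Type} [NormedAddCommGroup E] [NormedSpace ℂ E]
    [NormedAddCommGroup F] [NormedSpace ℂ F] (T c : ℝ) (A : ℝ → Md → Md → (E →L[ℂ] F)) :
    KN T c (fun t => -A t) = KN T c A := by
  simp [KN, enorm_neg]

theorem mulK_genK (p M : Md → Mat) :
    mulK (genK p M) = -(kcomp (mulK (oneM - (2 : ℂ) • p)) (mulK M)) := by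
  rw [← mulK_mm]
  rfl

theorem Nrm_le_zero {E : Type} [NormedAddCommGroup E] (T c γ : ℝ) (hγ : 0 ≤ γ) (ρ : ℝ → ℝ)
    (hρ : ∀ t ∈ Icc 0 T, 0 < ρ t) (f : ℝ → Md → E) : Nrm T c γ ρ f ≤ Nrm T c 0 ρ f := by
  unfold Nrm
  refine ENNReal.tsum_le_tsum fun m => iSup₂_mono fun t ht => ?_
  gcongr
  · exact (hρ t ht).le
  · exact len_nonneg m
  · exact ht.1

end IS30

open IS30 in
theorem s30 (h04 : S04) (h15 : S15) (h16 : S16) (hW02 : W02) (hW05 : W05) (hW09 : W09)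
    (hW10 : W10) (hW11 : W11) : S30 := by
  intro D ρ Str w0 hD hW hS
  have hmn := hD.hmn
  have hT := hD.T_pos
  have hT0 : (0 : ℝ) ∈ Icc 0 D.T := ⟨le_rfl, hT.le⟩
  have hTT : D.T ∈ Icc 0 D.T := ⟨hT.le, le_rfl⟩
  have hm1 : D.m < D.n + 1 := Nat.lt_succ_of_le hmn
  have hγ : 0 < D.γ := by
    rw [hD.γ_eq]
    exact div_pos hD.c_pos (by linarith)
  have hγT : D.γ * D.T = D.c / 2 := by
    rw [hD.γ_eq]
    field_simp
  have hpar : Par D.T D.c D.γ := ⟨hT, hγ.le, by rw [hγT]; linarith [hD.c_pos]⟩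
  have hpar0 : Par D.T D.c 0 := ⟨hT, le_rfl, by rw [zero_mul]; exact hD.c_pos.le⟩
  have hone : Wt D.T Dat.one' :=
    ⟨fun t _ => one_pos, continuousOn_const, fun _ _ _ _ _ => le_rfl⟩
  have hα := hD.α_wt (D.n + 1) hm1 le_rfl
  have hΦ := hD.Φ_prop (D.n + 1) hm1 le_rfl
  obtain ⟨h15a, h15b, h15c, h15d, h15e, h15f, h15g, h15h, -, -, -, -, -⟩ :=
    h15 D hD (D.n + 1) hm1 le_rfl
  have hN : 0 < D.N (D.n + 1) := lt_of_lt_of_le one_pos (hD.N_pos _ le_rfl)
  -- finiteness of the seed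
  have hw0c : sN D.c w0 ≠ ∞ := ne_top_of_le_ne_top ENNReal.ofReal_ne_top hS.le
  obtain ⟨k1, k2, k3, k4, -, -, k7, k8⟩ := hW10 Md C3 C3 C3 0 le_rfl
  obtain ⟨-, -, -, -, -, -, c7, c8⟩ := hW10 Md C3 C3 C3 D.c hD.c_pos.le
  have hw00 : sN 0 w0 ≠ ∞ := ne_top_of_le_ne_top hw0c ((c7 0 hD.c_pos.le).2 w0)
  -- the generator
  obtain ⟨K1, K2, K3, K4, -, K6, K7⟩ := hW09 Md C3 C3 C3 D.T D.c hD.c_pos.le
  have hgK : KN D.T D.c (fun t => mulK (D.gK (D.n + 1) t)) ≠ ∞ := by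
    have e1 : (fun t => mulK (D.gK (D.n + 1) t)) = fun t =>
        -(kcomp (mulK (oneM - (2 : ℂ) • D.p (D.n + 1) t)) (mulK (D.M D.n t))) := by
      funext t
      exact mulK_genK _ _
    rw [e1, KN_neg]
    refine ne_top_of_le_ne_top ?_ (K1 _ _)
    refine ENNReal.mul_ne_top (ne_top_of_le_ne_top ENNReal.ofReal_ne_top h15d) ?_
    rw [K4]
    exact ne_top_of_le_ne_top ENNReal.ofReal_ne_top (hD.F_le D.n hmn le_rfl).2.2
  obtain ⟨B, hB, cB, hcB, hBle⟩ := hΦ.bdd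
  have hgt : ∀ t ∈ Icc 0 D.T, sK 0 (mulK (D.gK (D.n + 1) t)) ≤
      KN D.T D.c (fun t => mulK (D.gK (D.n + 1) t)) := fun t ht =>
    ((c7 0 hD.c_pos.le).1 (mulK (D.gK (D.n + 1) t))).trans
      (K7 (fun t => mulK (D.gK (D.n + 1) t)) t ht)
  have hΦt : ∀ t ∈ Icc 0 D.T, sK 0 (mulK (D.Φ (D.n + 1) t 0)) ≤ B := by
    intro t ht
    obtain ⟨-, -, -, -, -, -, b7, -⟩ := hW10 Md C3 C3 C3 cB hcB.le
    exact ((b7 0 hcB.le).1 (mulK (D.Φ (D.n + 1) t 0))).trans (hBle 0 hT0 t ht)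
  -- (E)
  have hE : ∀ q, ∀ t ∈ Icc 0 D.T, HasDerivWithinAt (fun t => mul (D.Φ (D.n + 1) t 0) w0 q)
      (mul (D.gK (D.n + 1) t) (mul (D.Φ (D.n + 1) t 0) w0) q) (Icc 0 D.T) t := by
    intro q t ht
    obtain ⟨-, wact, -, -, -, -⟩ := hW11 Md C3 C3 C3 C3
    have hgt' := ne_top_of_le_ne_top hgK (hgt t ht)
    have hΦt' := ne_top_of_le_ne_top hB (hΦt t ht)
    have e1 : mul (D.gK (D.n + 1) t) (mul (D.Φ (D.n + 1) t 0) w0) q =
        ∑' l, kcomp (mulK (D.gK (D.n + 1) t)) (mulK (D.Φ (D.n + 1) t 0)) q l (w0 l) := by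
      have := wact (mulK (D.gK (D.n + 1) t)) (mulK (D.Φ (D.n + 1) t 0)) w0 hgt' hΦt' hw00
      exact (congrFun this q).symm
    rw [e1]
    have hs : Summable fun l => ‖w0 l‖ := by
      refine Summable.of_enorm ?_
      have : ∑' l, ‖‖w0 l‖‖ₑ = sN 0 w0 := by simp [sN]
      rw [this]
      exact hw00
    set C : ℝ≥0∞ := KN D.T D.c (fun t => mulK (D.gK (D.n + 1) t)) * B with hC
    have hCt : C ≠ ∞ := ENNReal.mul_ne_top hgK hB
    have hent : ∀ (A : Md → Md → Mat) (b : ℝ≥0∞), b ≠ ∞ → sK 0 A ≤ b → ∀ l,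
        ‖A q l (w0 l)‖ ≤ b.toReal * ‖w0 l‖ := by
      intro A b hb hA l
      have h1 : ‖A q l‖ₑ ≤ b := by
        have := k8 A q l
        simp only [zero_mul, Real.exp_zero, ENNReal.ofReal_one, one_mul] at this
        exact this.trans hA
      have h2 : ‖A q l‖ ≤ b.toReal := by
        rw [← toReal_enorm]
        exact ENNReal.toReal_mono hb h1
      exact ((A q l).le_opNorm _).trans (mul_le_mul_of_nonneg_right h2 (norm_nonneg _))
    refine derW_tsum (convex_Icc 0 D.T) (u := fun l => C.toReal * ‖w0 l‖) (hs.mul_left _)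
      (f := fun l t => mulK (D.Φ (D.n + 1) t 0) q l (w0 l))
      (f' := fun l t => kcomp (mulK (D.gK (D.n + 1) t)) (mulK (D.Φ (D.n + 1) t 0)) q l (w0 l))
      ?_ ?_ ?_ ht
    · intro l x hx
      have h1 := hΦ.der 0 hT0 x hx q l
      exact ((ContinuousLinearMap.apply ℂ C3 (w0 l)).restrictScalars ℝ).hasFDerivAt.comp_hasDerivWithinAt
        x h1
    · intro l x hx
      refine hent _ C hCt ?_ l
      exact (k1 _ _).trans (mul_le_mul' (hgt x hx) (hΦt x hx))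
    · intro y hy
      refine Summable.of_norm_bounded (hs.mul_left B.toReal) fun l => ?_
      exact hent _ B hB (hΦt y hy) l
  have hBc : CM D.T (fun t => mul (D.Φ (D.n + 1) t 0) w0) := fun q t ht =>
    (hE q t ht).continuousWithinAt
  -- (D)
  have hDn : Nrm D.T D.c 0 (D.α (D.n + 1)) (fun t => mul (D.Φ (D.n + 1) t 0) w0) ≤
      ENNReal.ofReal (D.G ^ 2 / D.N (D.n + 1)) := by
    have hα0 : 0 < D.α (D.n + 1) 0 := hα.pos 0 hT0
    have hwt1 : Wt D.T (fun t => D.α (D.n + 1) t / D.α (D.n + 1) 0) :=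
      ⟨fun t ht => div_pos (hα.pos t ht) hα0, hα.cont.div_const _,
        fun x hx y hy hxy => div_le_div_of_nonneg_right (hα.mono hx hy hxy) hα0.le⟩
    have hwt2 : Wt D.T (fun _ => D.α (D.n + 1) 0) :=
      ⟨fun _ _ => hα0, continuousOn_const, fun _ _ _ _ _ => le_rfl⟩
    have h1 := hW02 Md Mat C3 C3 D.T D.c 0 _ _ (ContinuousLinearMap.id ℂ Mat)
      (fun t => D.Φ (D.n + 1) t 0) (fun _ => w0) hpar0 hwt1 hwt2
    have h2 : (fun t => D.α (D.n + 1) t / D.α (D.n + 1) 0 * D.α (D.n + 1) 0) =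
        D.α (D.n + 1) := by
      funext t
      field_simp
    rw [h2] at h1
    have h3 : ‖ContinuousLinearMap.id ℂ Mat‖ₑ ≤ 1 := by
      rw [← ofReal_norm, ← ENNReal.ofReal_one]
      exact ENNReal.ofReal_le_ofReal ContinuousLinearMap.norm_id_le
    have h4 : Nrm D.T D.c 0 (fun t => D.α (D.n + 1) t / D.α (D.n + 1) 0)
        (fun t => D.Φ (D.n + 1) t 0) ≤ ENNReal.ofReal D.G := by
      refine le_trans ?_ (hD.Φ_le (D.n + 1) hm1 le_rfl)
      unfold Nrm PN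
      refine ENNReal.tsum_le_tsum fun k => iSup₂_le fun t ht => ?_
      have hαt := hα.pos t ht
      have e1 : Real.exp ((D.c - 0 * t) * len k) / (D.α (D.n + 1) t / D.α (D.n + 1) 0) =
          Real.exp (D.c * len k) * (D.α (D.n + 1) 0 / D.α (D.n + 1) t) := by
        rw [zero_mul, sub_zero]
        field_simp
      rw [e1, ENNReal.ofReal_mul (Real.exp_pos _).le, mul_assoc]
      refine mul_le_mul' le_rfl ?_
      refine le_trans ?_ (le_iSup _ (0 : Md))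
      refine le_trans ?_ (le_iSup₂ t ht)
      refine le_trans ?_ (le_iSup₂ (0 : ℝ) (⟨le_rfl, ht.1⟩ : (0 : ℝ) ∈ Icc 0 t))
      simp [mulK]
    have h5 : Nrm D.T D.c 0 (fun _ => D.α (D.n + 1) 0) (fun _ => w0) ≤
        ENNReal.ofReal (D.G / D.N (D.n + 1)) := by
      have e1 : Nrm D.T D.c 0 (fun _ => D.α (D.n + 1) 0) (fun _ => w0) ≤
          ENNReal.ofReal (1 / D.α (D.n + 1) 0) * sN D.c w0 := by
        unfold Nrm sN
        rw [← ENNReal.tsum_mul_left]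
        refine ENNReal.tsum_le_tsum fun k => iSup₂_le fun t _ => ?_
        rw [← mul_assoc, ← ENNReal.ofReal_mul (by positivity)]
        refine mul_le_mul' (le_of_eq ?_) le_rfl
        rw [zero_mul, sub_zero, div_mul_eq_mul_div, one_mul]
      refine e1.trans ?_
      refine (mul_le_mul' le_rfl hS.le).trans ?_
      rw [← ENNReal.ofReal_mul (by positivity)]
      refine ENNReal.ofReal_le_ofReal (le_of_eq ?_)
      field_simp
    have h6 : (fun t => mul (D.Φ (D.n + 1) t 0) w0) =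
        fun t => conv (ContinuousLinearMap.id ℂ Mat) (D.Φ (D.n + 1) t 0) w0 := rfl
    rw [h6]
    refine h1.trans ?_
    refine (mul_le_mul' (mul_le_mul' h3 h4) h5).trans ?_
    have hG : 0 ≤ D.G := by linarith [hD.G_two]
    rw [one_mul, ← ENNReal.ofReal_mul hG]
    refine ENNReal.ofReal_le_ofReal (le_of_eq ?_)
    ring
  refine ⟨?_, hBc, ?_, hDn, hE, ?_⟩
  · intro w hw hf
    obtain ⟨-, -, -, s4⟩ := h04 C3 D.m (D.n + 1) hm1.le
    rw [s4 D.T D.c D.γ Dat.one' w hw hT.le]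
    refine (ENNReal.sum_lt_top.2 fun o ho => lt_top_iff_ne_top.2 ?_).ne
    obtain ⟨ho1, ho2⟩ := Finset.mem_Icc.1 ho
    have hρ := hW.wt o ho1 ho2
    obtain ⟨-, w5, -, -, -⟩ := hW05 Md C3 D.T D.c D.γ (ρ o) Dat.one'
      (fun t => res (Cs D.m o) (w t)) (fun t => res (Cs D.m o) (w t)) hpar hρ hone
    refine ne_top_of_le_ne_top ?_ (w5 (ρ o D.T) (hρ.pos _ hTT).le (fun t ht => ?_)).1
    · exact ENNReal.mul_ne_top ENNReal.ofReal_ne_top (hf o ho1 ho2)
    · rw [show Dat.one' t = 1 from rfl, mul_one]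
      exact hρ.mono ht hTT ht.2
  · intro t ht
    obtain ⟨-, s2, -, -, s5, -, -⟩ := s03 C3 C3 C3
    exact s2 (mulK (D.Φ (D.n + 1) t 0)) D.n (D.n + 1) w0 (Nat.lt_succ_self _)
      (s5 D.n (D.Φ (D.n + 1) t 0) (hD.Φ_supp (D.n + 1) hm1 le_rfl 0 hT0 t ht)) hS.supp
  · have hfin : Nrm D.T D.c D.γ (D.α (D.n + 1)) (fun t => mul (D.Φ (D.n + 1) t 0) w0) ≠ ∞ :=
      ne_top_of_le_ne_top ENNReal.ofReal_ne_top ((Nrm_le_zero _ _ _ hγ.le _ hα.pos _).trans hDn)
    have hder := h16 D hD (D.n + 1) hm1 le_rfl (D.α (D.n + 1))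
      (fun t => mul (D.Φ (D.n + 1) t 0) w0) (fun _ _ => 0) hα hBc
      (fun _ => continuousOn_const) hfin
      ⟨D.c, by rw [hγT]; linarith [hD.c_pos], by simp [Nrm]⟩
      (fun q t ht => by
        rw [add_zero]
        exact hE q t ht)
    intro t ht
    funext q
    have h0 : ∀ t, mul (D.rw (D.n + 1) t) (fun _ => (0 : C3)) q = 0 := by
      intro t
      show ∑' l, (mulK (D.rw (D.n + 1) t) q l) 0 = 0
      simp
    have h1 := (convex_Icc (0 : ℝ) D.T).norm_image_sub_le_of_norm_hasDerivWithin_le (C := 0)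
      (f := fun t => mul (D.rw (D.n + 1) t) (mul (D.Φ (D.n + 1) t 0) w0) q)
      (fun x hx => hder q x hx) (fun x hx => by rw [h0 x, norm_zero]) hT0 ht
    rw [zero_mul] at h1
    have h2 := sub_eq_zero.1 (norm_le_zero_iff.1 h1)
    refine h2.trans ?_
    have e1 : mul (D.Φ (D.n + 1) 0 0) w0 = w0 := by
      have hd := hΦ.diag 0 hT0
      show act (mulK (D.Φ (D.n + 1) 0 0)) w0 = w0
      rw [hd]
      obtain ⟨-, -, -, -, -, w6⟩ := hW11 Md C3 C3 C3 C3
      funext m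
      exact w6 _ w0 m
    have e2 : D.rw (D.n + 1) 0 = rwF (D.kk (D.n + 1)) oneM := by
      show rwF (D.kk (D.n + 1)) (D.Fi D.n 0) = _
      rw [(hD.F_zero D.n hmn le_rfl).2]
    simp only [e1, e2]
    show ∑' l, (rwF (D.kk (D.n + 1)) oneM (q - l)) (w0 l) = _
    rw [tsum_eq_single q]
    · simp [rwF, oneM]
    · intro l hl
      have : q - l ≠ 0 := fun h => hl (sub_eq_zero.1 h).symm
      simp [rwF, oneM, this]

end Pool.Agent.Work.MP_b0497c_an.Unf.S

end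

section

set_option autoImplicit false
set_option linter.unusedSectionVars false

/-!
# The static sheet: auxiliary lemmas for S05, S06, S07
-/

open scoped ENNReal
open Set MeasureTheory

namespace Pool.Agent.Work.MP_b0497c_an.Unf.S

open W

/-! ### sheets -/

section sheet

/-- `ψ ↦ K ψ`. -/
noncomputable def Kp (k : C3) (ψ : Md → ℂ) (q : Md) : C3 := ψ q • k

theorem fin_Kp {c : ℝ} (k : C3) {ψ : Md → ℂ} (h : sN c ψ ≠ ∞) : sN c (Kp k ψ) ≠ ∞ := by
  refine fin_of_le ‖k‖ (fun q => ?_) h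
  unfold Kp
  rw [norm_smul, mul_comm]

theorem fin_zk {c : ℝ} (k : C3) {z : Md → C3} (h : sN c z ≠ ∞) :
    sN c (fun q => (innerSL ℂ k).smulRight (z q)) ≠ ∞ := by
  refine fin_of_le ‖k‖ (fun q => ?_) h
  rw [ContinuousLinearMap.norm_smulRight_apply, innerSL_apply_norm]

theorem fin_shP {c : ℝ} (k : C3) {z : Md → C3} (h : sN c z ≠ ∞) : sN c (shP z k) ≠ ∞ :=
  fin_add fin_oneM (fin_zk k h)

theorem fin_shM {c : ℝ} (k : C3) {z : Md → C3} (h : sN c z ≠ ∞) : sN c (shM z k) ≠ ∞ :=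
  fin_sub fin_oneM (fin_zk k h)

theorem fin_rwF {c : ℝ} (k : C3) {Fi : Md → Mat} (h : sN c Fi ≠ ∞) : sN c (rwF k Fi) ≠ ∞ := by
  refine fin_of_le ‖k‖ (fun q => ?_) h
  unfold rwF
  refine (ContinuousLinearMap.opNorm_comp_le _ _).trans ?_
  rw [innerSL_apply_norm]

theorem fin_kcF {c : ℝ} (k : C3) {Fi : Md → Mat} (h : sN c Fi ≠ ∞) : sN c (kcF k Fi) ≠ ∞ := by
  refine fin_of_le ‖k‖ (fun q => ?_) (fin_adjC h)
  unfold kcF
  rw [mul_comm]
  exact ContinuousLinearMap.le_opNorm _ _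

theorem fin_tsF {c : ℝ} {a : Md → C3} (h : sN c a ≠ ∞) : sN c (tsF a) ≠ ∞ := by
  refine fin_of_le 1 (fun q => ?_) h
  unfold tsF ts
  rw [one_mul, ContinuousLinearMap.norm_toSpanSingleton]

theorem fin_scF {c : ℝ} {s : Md → ℂ} (h : sN c s ≠ ∞) : sN c (scF s) ≠ ∞ := by
  refine fin_of_le ‖ContinuousLinearMap.id ℂ ℂ‖ (fun q => ?_) h
  unfold scF
  rw [norm_smul, mul_comm]

theorem fin_pF {c : ℝ} (hc : 0 ≤ c) (k : C3) {Fi : Md → Mat} {s : Md → ℂ} (h : sN c Fi ≠ ∞)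
    (hs : sN c s ≠ ∞) : sN c (pF k Fi s) ≠ ∞ :=
  fin_mm hc (fin_tsF (fin_kcF k h)) (fin_mm hc (fin_scF hs) (fin_rwF k h))

/-- `p f = k ψ = E (K ψ)`. -/
theorem mul_pF (k : C3) {Fi : Md → Mat} {s : Md → ℂ} {f : Md → C3} (h : sN 0 Fi ≠ ∞)
    (hs : sN 0 s ≠ ∞) (hf : sN 0 f ≠ ∞) :
    mul (pF k Fi s) f = mul (adjC Fi) (Kp k (mul (mm (scF s) (rwF k Fi)) f)) := by
  unfold pF
  rw [mul_mm (fin_tsF (fin_kcF k h)) (fin_mm le_rfl (fin_scF hs) (fin_rwF k h)) hf]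
  funext q
  unfold mul act mulK
  refine tsum_congr fun l => ?_
  unfold tsF ts kcF Kp
  rw [ContinuousLinearMap.toSpanSingleton_apply, map_smul]

/-- `K · (F⁻¹ f)_q = (row f)_q`. -/
theorem inner_mul (k : C3) {Fi : Md → Mat} {f : Md → C3} (h : sN 0 Fi ≠ ∞) (hf : sN 0 f ≠ ∞)
    (q : Md) : inner ℂ k (mul Fi f q) = mul (rwF k Fi) f q := by
  have := map_act (innerSL ℂ k) (finK_mulK le_rfl h) hf q
  exact this

theorem mul_zk {z : Md → C3} {k : C3} {x : Md → C3} (hx : ∀ q, inner ℂ k (x q) = 0) :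
    mul (fun q => (innerSL ℂ k).smulRight (z q)) x = 0 := by
  funext q
  unfold mul act mulK
  rw [show (fun l => ((innerSL ℂ k).smulRight (z (q - l)) : Mat) (x l)) = fun _ => (0 : C3) from ?_]
  · exact tsum_zero
  · funext l
    rw [ContinuousLinearMap.smulRight_apply, innerSL_apply_apply, hx l, zero_smul]

/-- `(1 - z Kᵀ) x = x` if `K · x = 0`. -/
theorem mul_shM {z : Md → C3} {k : C3} {x : Md → C3} (hz : sN 0 z ≠ ∞) (hx : sN 0 x ≠ ∞)
    (h : ∀ q, inner ℂ k (x q) = 0) : mul (shM z k) x = x := by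
  have e : shM z k = oneM - fun q => (innerSL ℂ k).smulRight (z q) := rfl
  rw [e, mul_subL fin_oneM (fin_zk k hz) hx, mul_zk h, mul_oneM, sub_zero]

theorem adj_zk (z : Md → C3) (k : C3) (hz : ∀ q, inner ℂ k (z q) = 0) (ψ : Md → ℂ) :
    mul (adjC (fun q => (innerSL ℂ k).smulRight (z q))) (Kp k ψ) = 0 := by
  funext q
  unfold mul act mulK
  rw [show (fun l => adjC (fun q => ((innerSL ℂ k).smulRight (z q) : Mat)) (q - l) (Kp k ψ l)) =
    fun _ => (0 : C3) from ?_]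
  · exact tsum_zero
  · funext l
    have h0 : adjC (fun q => ((innerSL ℂ k).smulRight (z q) : Mat)) (q - l) k = 0 := by
      refine ext_inner_left ℂ fun w => ?_
      unfold adjC
      rw [ContinuousLinearMap.adjoint_inner_right, ContinuousLinearMap.smulRight_apply,
        inner_smul_left, inner_zero_right]
      have : inner ℂ (z (-(q - l))) k = 0 := by
        rw [← inner_conj_symm, hz, map_zero]
      rw [this, mul_zero]
    unfold Kp
    rw [map_smul, h0, smul_zero]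

/-- `(1 - K z*) (K ψ) = K ψ`. -/
theorem adj_shM {z : Md → C3} {k : C3} (hz : ∀ q, inner ℂ k (z q) = 0) (hzf : sN 0 z ≠ ∞)
    {ψ : Md → ℂ} (hψ : sN 0 ψ ≠ ∞) : mul (adjC (shM z k)) (Kp k ψ) = Kp k ψ := by
  have e : shM z k = oneM - fun q => (innerSL ℂ k).smulRight (z q) := rfl
  rw [e, adjC_sub, adjC_oneM, mul_subL fin_oneM (fin_adjC (fin_zk k hzf)) (fin_Kp k hψ),
    adj_zk z k hz, mul_oneM, sub_zero]

/-- `E° (K ψ) = E (K ψ)`. -/
theorem adjFio_Kp {z : Md → C3} {k : C3} {Fi : Md → Mat} (hz : ∀ q, inner ℂ k (z q) = 0)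
    (hzf : sN 0 z ≠ ∞) (hFi : sN 0 Fi ≠ ∞) {ψ : Md → ℂ} (hψ : sN 0 ψ ≠ ∞) :
    mul (adjC (mm (shM z k) Fi)) (Kp k ψ) = mul (adjC Fi) (Kp k ψ) := by
  rw [adjC_mm, mul_mm (fin_adjC hFi) (fin_adjC (fin_shM k hzf)) (fin_Kp k hψ),
    adj_shM hz hzf hψ]

theorem pr_self (v : C3) (a : ℂ) : pr v (a • v) = a • v := by
  have h2 : inner ℂ v v = ((‖v‖ : ℝ) : ℂ) ^ 2 := inner_self_eq_norm_sq_to_K v
  unfold pr
  rw [_root_.smul_apply, ContinuousLinearMap.smulRight_apply, innerSL_apply_apply,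
    inner_smul_right, h2]
  by_cases hv : v = 0
  · simp [hv]
  · have hn : (‖v‖ : ℂ) ≠ 0 := by
      exact_mod_cast norm_ne_zero_iff.2 hv
    rw [smul_smul]
    congr 1
    push_cast
    field_simp

/-- `K ψ = ξ ψ / q_j - grad' ∂_j⁻¹ ψ` on class `j`. -/
theorem Kp_eq (K : ℕ → Fin 3 → ℤ) (j : ℕ) {ψ : Md → ℂ} (hψ : SuppIn (Cl j) ψ) :
    Kp (kv (K j)) ψ = (fun q => (ψ q / (q j : ℂ)) • xi K q) - gdp K j ψ := by
  funext q
  rw [Pi.sub_apply]
  unfold Kp gdp xi'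
  by_cases h : q ∈ Cl j
  · have hq : (q j : ℂ) ≠ 0 := by exact_mod_cast h.2
    rw [← smul_sub, sub_sub_cancel, smul_smul]
    congr 1
    field_simp
  · rw [hψ q h]
    simp

theorem PK_xi (K : ℕ → Fin 3 → ℤ) (a : Md → ℂ) :
    act (PK (xi K)) (fun q => a q • xi K q) = fun q => a q • xi K q := by
  funext q
  unfold PK
  rw [act_diag, pr_self]

/-- `(1 - Π) E P v = 0`. -/
theorem one_sub_Pi (h16 : W16) {c b e : ℝ} {Λ : AddSubgroup Md} {F Fi : Md → Mat} (ξ : Md → C3)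
    (fd : FData Λ c b e F Fi) (hFi : sN 0 Fi ≠ ∞) {v : Md → C3} (hv : sN 0 v ≠ ∞)
    (hPv : act (PK ξ) v = v) : act (idK - PiK ξ Fi) (mul (adjC Fi) v) = 0 := by
  have h1 := (h16 Md Λ c b e F Fi ξ fd).2.2.2.2.2.1
  have hA : sN 0 (adjC Fi) ≠ ∞ := fin_adjC hFi
  have hE : sN 0 (mul (adjC Fi) v) ≠ ∞ := fin_mul le_rfl hA hv
  rw [act_subK (finK_idK le_rfl) (finK_PiK ξ hFi) hE, act_idK]
  have h2 : mul (adjC Fi) v = act (kcomp (mulK (adjC Fi)) (PK ξ)) v := by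
    rw [act_comp (finK_mulK le_rfl hA) (finK_PK le_rfl ξ) hv, hPv]
    rfl
  have h3 : act (PiK ξ Fi) (mul (adjC Fi) v) = mul (adjC Fi) v := by
    rw [h2, ← act_comp (finK_PiK ξ hFi) (finK_kcomp le_rfl (finK_mulK le_rfl hA)
      (finK_PK le_rfl ξ)) hv, h1]
  rw [h3, sub_self]

theorem kv_norm_xi' (K : ℕ → Fin 3 → ℤ) (h01 : S01) {j : ℕ} {q : Md} (hq : q ∈ lev j) :
    ‖xi' K j q‖ ≤ (∑ i ∈ Finset.range j, ‖kv (K i)‖) * len q := by
  refine (h01 K).2.2.2.1 q j _ hq (fun i hi => ?_) (Finset.sum_nonneg fun i _ => norm_nonneg _)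
  exact Finset.single_le_sum (f := fun i => ‖kv (K i)‖) (fun i _ => norm_nonneg _)
    (Finset.mem_range.2 hi)

theorem fin_gdp (K : ℕ → Fin 3 → ℤ) (h01 : S01) {j : ℕ} {ψ : Md → ℂ} (hψ : SuppIn (Cl j) ψ)
    {c c' : ℝ} (hc : c' < c) (hf : sN c ψ ≠ ∞) : sN c' (gdp K j ψ) ≠ ∞ := by
  refine fin_of_le_len hc (∑ i ∈ Finset.range j, ‖kv (K i)‖) (fun q => ?_) hf
  unfold gdp
  by_cases h : q ∈ Cl j
  · rw [norm_smul, norm_div, mul_comm]
    have h1 : (1 : ℝ) ≤ ‖(q j : ℂ)‖ := by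
      rw [Complex.norm_intCast]
      have : (1 : ℤ) ≤ |q j| := Int.one_le_abs h.2
      exact_mod_cast this
    refine mul_le_mul (kv_norm_xi' K h01 h.1) (div_le_self (norm_nonneg _) h1)
      (div_nonneg (norm_nonneg _) (norm_nonneg _)) ?_
    exact mul_nonneg (Finset.sum_nonneg fun i _ => norm_nonneg _) (len_nonneg _)
  · rw [hψ q h]
    simp

/-- `(1 - Π) E° (K ψ) = - (1 - Π) E° grad' ∂_j⁻¹ ψ`. -/
theorem one_sub_Pi_Kp (h01 : S01) (h16 : W16) {c b e : ℝ} {Λ : AddSubgroup Md}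
    {Fo Fio : Md → Mat} (K : ℕ → Fin 3 → ℤ) {j : ℕ} (fd : FData Λ c b e Fo Fio)
    (hFi : sN 0 Fio ≠ ∞) {ψ : Md → ℂ} (hψ : SuppIn (Cl j) ψ) {c' : ℝ} (hc' : 0 < c')
    (hf : sN c' ψ ≠ ∞) :
    act (idK - PiK (xi K) Fio) (mul (adjC Fio) (Kp (kv (K j)) ψ)) =
      - act (idK - PiK (xi K) Fio) (mul (adjC Fio) (gdp K j ψ)) := by
  have hψ0 : sN 0 ψ ≠ ∞ := fin_mono hc'.le hc'.le hf
  have hg : sN 0 (gdp K j ψ) ≠ ∞ := fin_gdp K h01 hψ hc' hf
  have hv : sN 0 (fun q => (ψ q / (q j : ℂ)) • xi K q) ≠ ∞ := by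
    have : (fun q => (ψ q / (q j : ℂ)) • xi K q) = Kp (kv (K j)) ψ + gdp K j ψ := by
      rw [Kp_eq K j hψ]
      abel
    rw [this]
    exact fin_add (fin_Kp _ hψ0) hg
  have hA : sN 0 (adjC Fio) ≠ ∞ := fin_adjC hFi
  have hP : sK 0 (idK - PiK (xi K) Fio) ≠ ∞ :=
    finK_sub le_rfl (finK_idK le_rfl) (finK_PiK (xi K) hFi)
  rw [Kp_eq K j hψ, mul_sub hA hv hg, act_sub hP (fin_mul le_rfl hA hv) (fin_mul le_rfl hA hg),
    one_sub_Pi h16 (xi K) fd hFi hv (PK_xi K _), zero_sub]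

/-- `Π h = Π F° P x` if `F°⁻¹ h = x`, and more generally `Π h = E° R P (F°⁻¹ h)`. -/
theorem Pi_eq (h16 : W16) {c b e : ℝ} {Λ : AddSubgroup Md} {Fo Fio : Md → Mat} (ξ : Md → C3)
    (fd : FData Λ c b e Fo Fio) (hFi : sN 0 Fio ≠ ∞) (hF : sN 0 Fo ≠ ∞) {h : Md → C3}
    (hh : sN 0 h ≠ ∞) :
    act (PiK ξ Fio) h = act (PiK ξ Fio) (mul Fo (act (PK ξ) (mul Fio h))) := by
  have h2 := (h16 Md Λ c b e Fo Fio ξ fd).1.2.1
  have hx : sN 0 (mul Fio h) ≠ ∞ := fin_mul le_rfl hFi hh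
  have hPx : sN 0 (act (PK ξ) (mul Fio h)) ≠ ∞ := fin_act le_rfl (finK_PK le_rfl ξ) hx
  have hFP : sN 0 (mul Fo (act (PK ξ) (mul Fio h))) ≠ ∞ := fin_mul le_rfl hF hPx
  have hA := finK_mulK le_rfl (fin_adjC hFi)
  have hR := finK_RK ξ Fio
  have hM := finK_mulK le_rfl hFi
  have e1 : ∀ g : Md → C3, sN 0 g ≠ ∞ → act (PiK ξ Fio) g =
      act (mulK (adjC Fio)) (act (RK ξ Fio) (mul Fio g)) := by
    intro g hg
    unfold PiK
    rw [act_comp hA (finK_kcomp le_rfl hR hM) hg, act_comp hR hM hg]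
    rfl
  have e2 : mul Fio (mul Fo (act (PK ξ) (mul Fio h))) = act (PK ξ) (mul Fio h) := by
    have := fd.left
    have h3 : act (kcomp (mulK Fio) (mulK Fo)) (act (PK ξ) (mul Fio h)) =
        act (PK ξ) (mul Fio h) := by
      rw [this]
      exact act_idK _
    rw [act_comp hM (finK_mulK le_rfl hF) hPx] at h3
    exact h3
  rw [e1 h hh, e1 _ hFP, e2, ← act_comp hR (finK_PK le_rfl ξ) hx, h2]

/-! ### supports -/

theorem supp_adjC {l : ℕ} {a : Md → Mat} (h : SuppIn (lev l : Set Md) a) :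
    SuppIn (lev l : Set Md) (adjC a) := by
  intro q hq
  unfold adjC
  rw [h (-q) (fun h' => hq (by simpa using (lev l).neg_mem h')), map_zero]

theorem supp_kcF {l : ℕ} (k : C3) {a : Md → Mat} (h : SuppIn (lev l : Set Md) a) :
    SuppIn (lev l : Set Md) (kcF k a) := by
  intro q hq
  unfold kcF
  rw [supp_adjC h q hq]
  rfl

theorem supp_rwF {l : ℕ} (k : C3) {a : Md → Mat} (h : SuppIn (lev l : Set Md) a) :
    SuppIn (lev l : Set Md) (rwF k a) := by
  intro q hq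
  unfold rwF
  rw [h q hq, ContinuousLinearMap.comp_zero]

theorem supp_tsF {S : Set Md} {a : Md → C3} (h : SuppIn S a) : SuppIn S (tsF a) := by
  intro q hq
  unfold tsF ts
  rw [h q hq]
  ext
  simp

theorem supp_scF {S : Set Md} {a : Md → ℂ} (h : SuppIn S a) : SuppIn S (scF a) := by
  intro q hq
  unfold scF
  rw [h q hq]
  ext
  simp

section

variable {E F G : Type} [NormedAddCommGroup E] [NormedSpace ℂ E] [NormedAddCommGroup F]
  [NormedSpace ℂ F] [NormedAddCommGroup G] [NormedSpace ℂ G]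

theorem supp_mm_lev {l : ℕ} {a : Md → (F →L[ℂ] G)} {b : Md → (E →L[ℂ] F)}
    (ha : SuppIn (lev l : Set Md) a) (hb : SuppIn (lev l : Set Md) b) :
    SuppIn (lev l : Set Md) (mm a b) :=
  supp_conv (fun _ _ h1 h2 => (lev_iff_of_sub_mem le_rfl h1).2 h2) ha hb

theorem supp_mul_lev {l : ℕ} {a : Md → (E →L[ℂ] F)} {f : Md → E}
    (ha : SuppIn (lev l : Set Md) a) (hf : SuppIn (lev l : Set Md) f) :
    SuppIn (lev l : Set Md) (mul a f) :=
  supp_act_of_iff (Λ := lev l) (fun _ _ => lev_iff_of_sub_mem le_rfl) (fun _ _ h => ha _ h) hf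

theorem supp_mul_Cl {l j : ℕ} (hlj : l < j) {a : Md → (E →L[ℂ] F)} {f : Md → E}
    (ha : SuppIn (lev l : Set Md) a) (hf : SuppIn (Cl j) f) : SuppIn (Cl j) (mul a f) :=
  supp_act_of_iff (Λ := lev l) (fun _ _ => Cl_iff_of_sub_mem hlj) (fun _ _ h => ha _ h) hf

/-- Class `j` times level `l`, `l < j`. -/
theorem supp_mul_Cl' {l j : ℕ} (hlj : l < j) {a : Md → (E →L[ℂ] F)} {f : Md → E}
    (ha : SuppIn (Cl j) a) (hf : SuppIn (lev l : Set Md) f) : SuppIn (Cl j) (mul a f) := by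
  intro p hp
  unfold mul act mulK
  rw [show (fun q => a (p - q) (f q)) = fun _ => (0 : F) from ?_]
  · exact tsum_zero
  · funext q
    by_cases h2 : q ∈ (lev l : Set Md)
    · have h3 : p - (p - q) ∈ lev l := by simpa using h2
      rw [ha (p - q) (fun h => hp ((Cl_iff_of_sub_mem hlj h3).2 h))]
      rfl
    · rw [hf q h2, map_zero]

end

theorem supp_sub {E : Type} [AddGroup E] {S : Set Md} {f g : Md → E} (hf : SuppIn S f)
    (hg : SuppIn S g) : SuppIn S (f - g) := by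
  intro q hq
  rw [Pi.sub_apply, hf q hq, hg q hq, sub_zero]

theorem supp_pF {l : ℕ} (k : C3) {Fi : Md → Mat} {s : Md → ℂ} (h : SuppIn (lev l : Set Md) Fi)
    (hs : SuppIn (lev l : Set Md) s) : SuppIn (lev l : Set Md) (pF k Fi s) :=
  supp_mm_lev (supp_tsF (supp_kcF k h)) (supp_mm_lev (supp_scF hs) (supp_rwF k h))

/-! ### `row (p f) = row f` -/

/-- Scalar functions commute. -/
theorem scal_comm {a b : Md → ℂ} : conv (ContinuousLinearMap.mul ℂ ℂ) a b =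
    conv (ContinuousLinearMap.mul ℂ ℂ) b a := by
  funext q
  unfold conv
  rw [← (Equiv.subLeft q).tsum_eq]
  refine tsum_congr fun l => ?_
  simp only [Equiv.subLeft_apply, ContinuousLinearMap.mul_apply', sub_sub_cancel]
  ring

theorem mul_scF (s g : Md → ℂ) : mul (scF s) g = conv (ContinuousLinearMap.mul ℂ ℂ) s g := by
  funext q
  unfold mul act mulK conv scF
  refine tsum_congr fun l => ?_
  simp

/-- `r (a g) = (r a) g` for a row `r` and a column `a`. -/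
theorem mm_row_ts (r : Md → (C3 →L[ℂ] ℂ)) (a : Md → C3) : mm r (tsF a) = scF (mul r a) := by
  funext q
  unfold mm conv scF mul act mulK
  have h3 : ∀ l, (ContinuousLinearMap.compL ℂ ℂ C3 ℂ (r (q - l))) (tsF a l) =
      (ContinuousLinearMap.toSpanSingletonCLE (𝕜 := ℂ) (E := ℂ)) ((r (q - l)) (a l)) := by
    intro l
    ext
    simp [tsF, ts]
  simp_rw [h3]
  rw [← (ContinuousLinearMap.toSpanSingletonCLE (𝕜 := ℂ) (E := ℂ)).map_tsum]
  ext
  simp

theorem row_ts {r : Md → (C3 →L[ℂ] ℂ)} {a : Md → C3} (hr : sN 0 r ≠ ∞) (ha : sN 0 a ≠ ∞)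
    {g : Md → ℂ} (hg : sN 0 g ≠ ∞) :
    mul r (mul (tsF a) g) = mul (scF (mul r a)) g := by
  rw [← mm_row_ts, mul_mm hr (fin_tsF ha) hg]

theorem mm_scF_comm (a b : Md → ℂ) : mm (scF a) (scF b) = mm (scF b) (scF a) := by
  funext q
  unfold mm conv
  rw [← (Equiv.subLeft q).tsum_eq]
  refine tsum_congr fun l => ?_
  simp only [Equiv.subLeft_apply, ContinuousLinearMap.compL_apply, sub_sub_cancel]
  ext
  simp [scF]
  ring

theorem scF_comm {a b g : Md → ℂ} (ha : sN 0 a ≠ ∞) (hb : sN 0 b ≠ ∞) (hg : sN 0 g ≠ ∞) :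
    mul (scF a) (mul (scF b) g) = mul (scF b) (mul (scF a) g) := by
  rw [← mul_mm (fin_scF ha) (fin_scF hb) hg, mm_scF_comm, mul_mm (fin_scF hb) (fin_scF ha) hg]

theorem mul_delta (g : Md → ℂ) : mul (scF (fun q => if q = 0 then 1 else 0)) g = g := by
  funext q
  unfold mul act mulK scF
  rw [tsum_eq_single q]
  · simp
  · intro l hl
    have : q - l ≠ 0 := sub_ne_zero.2 (Ne.symm hl)
    simp [this]

/-- `row (p f) = row f`. -/
theorem row_pF {k : C3} {Fi : Md → Mat} {s : Md → ℂ} {f : Md → C3} (hFi : sN 0 Fi ≠ ∞)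
    (hs : sN 0 s ≠ ∞) (hf : sN 0 f ≠ ∞)
    (h : mul (mm (scF s) (rwF k Fi)) (kcF k Fi) = fun q => if q = 0 then 1 else 0) :
    mul (rwF k Fi) (mul (pF k Fi s) f) = mul (rwF k Fi) f := by
  have hr : sN 0 (rwF k Fi) ≠ ∞ := fin_rwF k hFi
  have hk : sN 0 (kcF k Fi) ≠ ∞ := fin_kcF k hFi
  have hsr : sN 0 (mm (scF s) (rwF k Fi)) ≠ ∞ := fin_mm le_rfl (fin_scF hs) hr
  have hg : sN 0 (mul (rwF k Fi) f) ≠ ∞ := fin_mul le_rfl hr hf
  have hρ : sN 0 (mul (rwF k Fi) (kcF k Fi)) ≠ ∞ := fin_mul le_rfl hr hk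
  unfold pF
  rw [mul_mm (fin_tsF hk) hsr hf, row_ts hr hk (fin_mul le_rfl hsr hf),
    mul_mm (fin_scF hs) hr hf, scF_comm hρ hs hg, ← row_ts hr hk hg,
    ← mul_mm (fin_scF hs) hr (fin_mul le_rfl (fin_tsF hk) hg), row_ts hsr hk hg, h, mul_delta]

end sheet

end Pool.Agent.Work.MP_b0497c_an.Unf.S

end

section

set_option autoImplicit false

/-!
# S05 (F7a): the exact identity for the projector on class `j`
-/

open scoped ENNReal
open Set MeasureTheory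

namespace Pool.Agent.Work.MP_b0497c_an.Unf.S

open W

theorem s05 (h01 : S01) (h16 : W16) : S05 := by
  intro K j F Fi z s f hS hf hfin
  obtain ⟨c0, hc0, hfc⟩ := hfin
  obtain ⟨c1, hc1, hF, hFi, hz, hs⟩ := hS.fin
  obtain ⟨cc, hcc, h0, h1⟩ : ∃ cc : ℝ, 0 < cc ∧ cc ≤ c0 ∧ cc ≤ c1 :=
    ⟨min c0 c1, lt_min hc0 hc1, min_le_left _ _, min_le_right _ _⟩
  replace hfc : sN cc f ≠ ∞ := fin_mono hc0.le h0 hfc
  replace hF : sN cc F ≠ ∞ := fin_mono hc1.le h1 hF
  replace hFi : sN cc Fi ≠ ∞ := fin_mono hc1.le h1 hFi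
  replace hz : sN cc z ≠ ∞ := fin_mono hc1.le h1 hz
  replace hs : sN cc s ≠ ∞ := fin_mono hc1.le h1 hs
  intro k Fo Fio Pi p x ψ
  have hψ : sN cc ψ ≠ ∞ := fin_mul hcc.le (fin_mm hcc.le (fin_scF hs) (fin_rwF k hFi)) hfc
  have hp : sN cc p ≠ ∞ := fin_pF hcc.le k hFi hs
  have hpf : sN cc (mul p f) ≠ ∞ := fin_mul hcc.le hp hfc
  have hh : sN cc (f - mul p f) ≠ ∞ := fin_sub hfc hpf
  have z0 : ∀ {E : Type} [NormedAddCommGroup E] [NormedSpace ℂ E] {g : Md → E}, sN cc g ≠ ∞ → sN 0 g ≠ ∞ :=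
    fun hg => fin_mono hcc.le hcc.le hg
  have hxf : sN cc x ≠ ∞ := fin_mul hcc.le hFi hh
  have hlt : j - 1 < j := by
    have := hS.j_pos
    omega
  have hFio : sN cc Fio ≠ ∞ := fin_mm hcc.le (fin_shM k hz) hFi
  have hFo : sN cc Fo ≠ ∞ := fin_mm hcc.le hF (fin_shP k hz)
  -- supports
  have sp : SuppIn (lev (j - 1) : Set Md) p := supp_pF k hS.Fi_supp hS.s_supp
  have sx : SuppIn (Cl j) x := supp_mul_Cl hlt hS.Fi_supp (supp_sub hf (supp_mul_Cl hlt sp hf))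
  have sψ : SuppIn (Cl j) ψ :=
    supp_mul_Cl hlt (supp_mm_lev (supp_scF hS.s_supp) (supp_rwF k hS.Fi_supp)) hf
  -- `K · x = 0`
  have orth : ∀ q, inner ℂ k (x q) = 0 := by
    intro q
    have e1 : inner ℂ k (x q) = mul (rwF k Fi) (f - mul p f) q := inner_mul k (z0 hFi) (z0 hh) q
    rw [e1, mul_sub (z0 (fin_rwF k hFi)) (z0 hfc) (z0 hpf),
      row_pF (z0 hFi) (z0 hs) (z0 hfc) hS.s_eq, sub_self]
    rfl
  refine ⟨?_, sx, sψ, orth⟩
  obtain ⟨c2, b2, e2, fdo⟩ := hS.fdo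
  have hPi : sK 0 Pi ≠ ∞ := finK_PiK (xi K) (z0 hFio)
  have hFioh : mul Fio (f - mul p f) = x := by
    have : mul Fio (f - mul p f) = mul (shM z k) (mul Fi (f - mul p f)) :=
      mul_mm (z0 (fin_shM k hz)) (z0 hFi) (z0 hh)
    rw [this]
    exact mul_shM (z0 hz) (z0 hxf) orth
  have e3 : act Pi (f - mul p f) = act Pi (mul Fo (act (PK (xi K)) x)) := by
    have := Pi_eq h16 (xi K) fdo (z0 hFio) (z0 hFo) (z0 hh)
    rw [hFioh] at this
    exact this
  have e4 : act (idK - Pi) (mul p f) = - act (idK - Pi) (mul (adjC Fio) (gdp K j ψ)) := by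
    have e5 : mul p f = mul (adjC Fio) (Kp k ψ) := by
      rw [show mul p f = mul (adjC Fi) (Kp k ψ) from mul_pF k (z0 hFi) (z0 hs) (z0 hfc)]
      exact (adjFio_Kp hS.z_orth (z0 hz) (z0 hFi) (z0 hψ)).symm
    rw [e5]
    exact one_sub_Pi_Kp h01 h16 K fdo (z0 hFio) sψ hcc hψ
  have e6 : act (idK - Pi) (mul p f) = mul p f - act Pi (mul p f) := by
    rw [act_subK (finK_idK le_rfl) hPi (z0 hpf), act_idK]
  rw [← e3, act_sub hPi (z0 hfc) (z0 hpf)]
  have e7 : act (idK - Pi) (mul (adjC Fio) (gdp K j ψ)) = - act (idK - Pi) (mul p f) := by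
    rw [e4, neg_neg]
  rw [e7, e6]
  abel

end Pool.Agent.Work.MP_b0497c_an.Unf.S

end

section

set_option autoImplicit false

/-!
# S07 (F7'): `(Π - p) ∂_j h` costs one derivative in total
-/

open scoped ENNReal
open Set MeasureTheory

namespace Pool.Agent.Work.MP_b0497c_an.Unf.S

open W

theorem mm_oneM_left (a : Md → Mat) : mm oneM a = a := by
  refine mulK_inj ?_
  rw [← kcomp_mulK, mulK_oneM]
  exact ((pr_W11 Md C3 C3 C3 C3).2.2.2.2.1 (mulK a)).2

theorem mm_oneM_right (a : Md → Mat) : mm a oneM = a := by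
  refine mulK_inj ?_
  rw [← kcomp_mulK, mulK_oneM]
  exact ((pr_W11 Md C3 C3 C3 C3).2.2.2.2.1 (mulK a)).1

theorem shM_zero (k : C3) : shM 0 k = oneM := by
  funext q
  unfold shM
  ext v i
  simp

theorem shP_zero (k : C3) : shP 0 k = oneM := by
  funext q
  unfold shP
  ext v i
  simp

/-- Multiplication by a function of level `l < j` commutes with multiplication by `q_j`. -/
theorem mul_dj {E F : Type} [NormedAddCommGroup E] [NormedSpace ℂ E] [NormedAddCommGroup F]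
    [NormedSpace ℂ F] {l j : ℕ} (hlj : l < j) {a : Md → (E →L[ℂ] F)}
    (ha : SuppIn (lev l : Set Md) a) (f : Md → E) :
    mul a (fun q => (q j : ℂ) • f q) = fun q => (q j : ℂ) • mul a f q := by
  funext q
  unfold mul act mulK
  rw [← tsum_const_smul'']
  refine tsum_congr fun l' => ?_
  by_cases h : q - l' ∈ (lev l : Set Md)
  · have h2 : q j = l' j := by
      have := h j hlj
      rw [Finsupp.sub_apply] at this
      omega
    rw [map_smul, h2]
  · rw [ha _ h]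
    simp

theorem s07 (h01 : S01) (h05 : S05) : S07 := by
  intro K j F Fi s h hS hh hfin k Pi p x ψ dh
  have hlt : j - 1 < j := by
    have := hS.j_pos
    omega
  have sp : SuppIn (lev (j - 1) : Set Md) p := supp_pF k hS.Fi_supp hS.s_supp
  have sx : SuppIn (Cl j) x := supp_mul_Cl hlt hS.Fi_supp (supp_sub hh (supp_mul_Cl hlt sp hh))
  have sr : SuppIn (lev (j - 1) : Set Md) (mm (scF s) (rwF k Fi)) :=
    supp_mm_lev (supp_scF hS.s_supp) (supp_rwF k hS.Fi_supp)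
  have sψ : SuppIn (Cl j) ψ := supp_mul_Cl hlt sr hh
  have sd : SuppIn (Cl j) dh := by
    intro q hq
    show (q j : ℂ) • h q = 0
    rw [hh q hq, smul_zero]
  have fd : ∃ c : ℝ, 0 < c ∧ sN c dh ≠ ∞ := by
    obtain ⟨c, hc, hc'⟩ := hfin
    refine ⟨c / 2, by linarith, fin_of_le_len (by linarith : c / 2 < c) 1 (fun q => ?_) hc'⟩
    show ‖(q j : ℂ) • h q‖ ≤ 1 * len q * ‖h q‖
    rw [norm_smul, one_mul]
    exact mul_le_mul_of_nonneg_right ((h01 K).2.1 q j) (norm_nonneg _)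
  have key := h05 K j F Fi 0 s dh hS sd fd
  have key0 := h05 K j F Fi 0 s h hS hh hfin
  simp only [shM_zero, shP_zero, mm_oneM_left, mm_oneM_right] at key key0
  obtain ⟨k1, -, -, -⟩ := key
  have dp : mul p dh = fun q => (q j : ℂ) • mul p h q := mul_dj hlt sp h
  have dx : mul Fi (dh - mul p dh) = fun q => (q j : ℂ) • x q := by
    have e : dh - mul p dh = fun q => (q j : ℂ) • (h - mul p h) q := by
      rw [dp]
      funext q
      show (q j : ℂ) • h q - (q j : ℂ) • mul p h q = (q j : ℂ) • (h q - mul p h q)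
      rw [smul_sub]
    rw [e]
    exact mul_dj hlt hS.Fi_supp _
  have dψ : gdp K j (mul (mm (scF s) (rwF k Fi)) dh) = fun q => ψ q • xi' K j q := by
    have e : mul (mm (scF s) (rwF k Fi)) dh = fun q => (q j : ℂ) • ψ q := mul_dj hlt sr h
    rw [e]
    funext q
    show ((q j : ℂ) • ψ q / (q j : ℂ)) • xi' K j q = ψ q • xi' K j q
    by_cases hq : q ∈ Cl j
    · have hq0 : (q j : ℂ) ≠ 0 := by exact_mod_cast hq.2
      congr 1
      rw [smul_eq_mul]
      field_simp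
    · rw [sψ q hq]
      simp
  refine ⟨?_, sx, sψ, key0.2.2.2⟩
  rw [show kv (K j) = k from rfl, show pF k Fi s = p from rfl, dx, dψ] at k1
  exact k1

end Pool.Agent.Work.MP_b0497c_an.Unf.S

end

section

set_option autoImplicit false
set_option linter.unusedSectionVars false

/-!
# S08 (P1): the projectors of levels `l` and `l - 1` on functions of level `l - 1`
-/

open scoped ENNReal
open Set MeasureTheory

namespace Pool.Agent.Work.MP_b0497c_an.Unf.S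

open W

variable {D : Dat}

theorem s08 (h01 : S01) (h02 : S02) (h06 : S06) : S08 := by
  intro D hD l σ f hl hl' hσ hf hs hfn
  have hPar := sh_par hD
  have hG0 := sh_G0 hD
  have hG1 := sh_G1 hD
  have hG2 := hD.G_two
  have hc0 := sh_c0 hD
  have hln : l ≤ D.n + 1 := by omega
  have hm1 : D.m ≤ l - 1 := by omega
  have hn1 : l - 1 ≤ D.n := by omega
  have hPl := hD.P_le l hl.le hl'
  have hPm := hD.P_le (l - 1) hm1 hn1
  have hPo := hD.Po_le l hl hl'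
  refine ⟨?_, ?_⟩
  · refine sa_cm_act hPar hσ (A := fun t => D.Pl l t - D.Pl (l - 1) t)
      (sa_CK_sub hPl.2 hPm.2) hf ?_ hfn
    exact ne_top_of_le_ne_top (ENNReal.add_ne_top.2 ⟨sa_fin0 hPl.1, sa_fin0 hPm.1⟩)
      (sa_KN_sub hc0 _ _)
  have hu := (hD.u_pos l).le
  obtain ⟨hmu1, hmu2, -, hμ0⟩ := sh_mu hD hl hln
  obtain ⟨hFo, hFi, cFo, cFi⟩ := sh_Fo hD hl hl'
  obtain ⟨hF1, hFi1, -⟩ := sh_F hD hm1 hn1
  obtain ⟨cF1, cFi1, -⟩ := hD.F_cm (l - 1) hm1 hn1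
  obtain ⟨hrw, -, crw, -⟩ := sh_rw hD hl hln
  obtain ⟨hz1, -⟩ := sh_z hD hl hl'
  have hzα := (hD.z_le l hl hl').1
  have cz := (hD.z_cm l hl hl').1
  have hα := hD.α_wt l hl hln
  have hσα := sa_wt_mul hσ hα
  have hNl := sh_N0 hD hln
  have hNm := sh_N0 hD (show l - 1 ≤ D.n + 1 by omega)
  have hN0 : (0 : ℝ) ≤ D.N (l - 1) := hNm.le
  set N0 := Nrm D.T D.c D.γ σ f with hN0def
  have hf1 : Nrm D.T D.c D.γ σ f ≤ ENNReal.ofReal 1 * N0 := by
    rw [ENNReal.ofReal_one, one_mul]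
  -- the functions
  let pm : ℝ → Md → C3 := fun t => act (D.Pl (l - 1) t) (f t)
  let g : ℝ → Md → C3 := fun t => f t - pm t
  let ψ : ℝ → Md → ℂ := fun t => mul (D.rw l t) (g t)
  let y : ℝ → Md → C3 := fun t => mul (tsF (D.z l t)) (ψ t)
  let b1 : ℝ → Md → C3 := fun t => mul (adjC (D.F (l - 1) t)) (pm t)
  let sg : ℝ → Md → ℂ := fun t => mul (adR (D.z l t)) (b1 t)
  have cpm : CM D.T pm := sa_cm_act hPar hσ (A := D.Pl (l - 1)) hPm.2 hf (sa_fin0 hPm.1) hfn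
  have npm : Nrm D.T D.c D.γ σ pm ≤ ENNReal.ofReal (D.G * 1) * N0 :=
    sa_chain' hG0 (sa_nrm_act1 hPar hσ (D.Pl (l - 1)) f) hPm.1 hf1
  have cg : CM D.T g := sa_cm_sub hf cpm
  have ng : Nrm D.T D.c D.γ σ g ≤ ENNReal.ofReal (1 + D.G * 1) * N0 :=
    sa_sum zero_le_one (by positivity) (sa_nrm_sub hPar hσ f pm) hf1 npm
  have cψ : CM D.T ψ := sa_cm_mul hPar hσ crw cg (sa_fin0 hrw) (sa_fin ng hfn)
  have nψ : Nrm D.T D.c D.γ σ ψ ≤ ENNReal.ofReal (D.G * D.N l * (1 + D.G * 1)) * N0 :=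
    sa_chain' (by positivity) (sa_nrm_mul1 hPar hσ (D.rw l) g) hrw ng
  have htz1 : Nrm D.T D.c 0 (fun _ => 1) (fun t => tsF (D.z l t)) ≠ ∞ :=
    sa_fin0 ((sa_N_tsF (D.z l)).trans hz1)
  have haz1 : Nrm D.T D.c 0 (fun _ => 1) (fun t => adR (D.z l t)) ≠ ∞ :=
    sa_fin0 ((sa_N_adR (D.z l)).trans hz1)
  have cy : CM D.T y := sa_cm_mul hPar hσ (sa_cm_tsF cz) cψ htz1 (sa_fin nψ hfn)
  have ny : Nrm D.T D.c D.γ (fun t => σ t * D.α l t) y ≤
      ENNReal.ofReal (D.G / D.N l * (D.G * D.N l * (1 + D.G * 1))) * N0 :=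
    sa_chain' (by positivity) (sa_nrm_mul hPar hσ hα (fun t => tsF (D.z l t)) ψ)
      ((sa_N_tsF (D.z l)).trans hzα) nψ
  have cb1 : CM D.T b1 := sa_cm_mul hPar hσ (sa_cm_adjC cF1) cpm
    (sa_fin0 ((sa_N_adjC _).trans hF1)) (sa_fin npm hfn)
  have nb1 : Nrm D.T D.c D.γ σ b1 ≤ ENNReal.ofReal (D.G * (D.G * 1)) * N0 :=
    sa_chain' hG0 (sa_nrm_mul1 hPar hσ (fun t => adjC (D.F (l - 1) t)) pm)
      ((sa_N_adjC _).trans hF1) npm
  have csg : CM D.T sg := sa_cm_mul hPar hσ (sa_cm_adR cz) cb1 haz1 (sa_fin nb1 hfn)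
  have nsg : Nrm D.T D.c D.γ (fun t => σ t * D.α l t) sg ≤
      ENNReal.ofReal (D.G / D.N l * (D.G * (D.G * 1))) * N0 :=
    sa_chain' (by positivity) (sa_nrm_mul hPar hσ hα (fun t => adR (D.z l t)) b1)
      ((sa_N_adR (D.z l)).trans hzα) nb1
  -- the identity
  have hfs : ∀ t ∈ Icc 0 D.T, ∃ c : ℝ, 0 < c ∧ sN c (f t) ≠ ∞ := fun t ht =>
    ⟨D.c - D.γ * t, sa_radius' hPar (sh_lt hD) ht, sa_static_fin hσ hfn ht⟩
  have hid := fun t (ht : t ∈ Icc 0 D.T) =>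
    h06 D.K l (D.F (l - 1) t) (D.Fi (l - 1) t) (D.z l t) (D.s l t) (f t)
      (sh_sheet hD hl hl' ht) (hs t ht) (hfs t ht)
  have hkj : 0 < ‖kv (D.K l)‖ := hNl
  -- the terms
  have hA := sa_term hPar (sh_gpos hD) (sh_lt hD) hσα
    (P := D.Po l) (a := D.Fo l)
    (w := fun t => act (PK (xi D.K)) (y t)) (y := y) (p := D.G) (b := 2 * D.G ^ 3)
    (B := 2 * (D.N (l - 1) / ‖kv (D.K l)‖)) hG0 (by positivity) (by positivity)
    hPo.1 hPo.2 hFo cFo (sa_cm_PK _ cy)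
    (fun t ht q => sa_PK_le h02 hN0 (sh_K_le hD hln) hkj (hid t ht).2.1 (hid t ht).2.2.2 q)
    (sa_fin ny hfn)
  obtain ⟨-, cA, sA⟩ := hA
  have hB' := sa_id_sub hc0 hG1 hPo.1 hPo.2
  have hFia : Nrm D.T D.c 0 (fun _ => 1) (fun t => adjC (D.Fio l t)) ≤
      ENNReal.ofReal (2 * D.G ^ 3) := (sa_N_adjC _).trans hFi
  have hB := sa_term hPar (sh_gpos hD) (sh_lt hD) hσα
    (P := fun t => idK - D.Po l t) (a := fun t => adjC (D.Fio l t))
    (w := fun t => gdp D.K l (sg t)) (y := sg) (p := 2 * D.G) (b := 2 * D.G ^ 3)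
    (B := D.N (l - 1)) (by positivity) (by positivity) hN0
    hB'.1 hB'.2 hFia (sa_cm_adjC cFi) (sa_cm_gdp _ _ csg)
    (fun t ht q => sa_gdp_le h01 hN0 (sh_K_le hD hln) (hid t ht).2.2.1 q)
    (sa_fin nsg hfn)
  obtain ⟨-, -, sB⟩ := hB
  have hγ0 := sh_gpos hD
  have sA' := sa_chain (by positivity) sA ny
  have sB' := sa_chain (by positivity) sB nsg
  rw [← sa_src_neg] at sA'
  obtain ⟨cd, sd⟩ := sh_dif hD hl hl' hσ hf hfn
  have cAn : CM D.T (fun t => -act (D.Po l t) (mul (D.Fo l t) (act (PK (xi D.K)) (y t)))) :=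
    fun q => (cA q).neg
  have hsum1 := sa_src_add hPar hσα
    (fun t => act (idK - D.Po l t) (mul (adjC (D.Fio l t)) (gdp D.K l (sg t)))) cAn
  have hsum2 := sa_src_add hPar hσα
    (fun t => -act (D.Po l t) (mul (D.Fo l t) (act (PK (xi D.K)) (y t))) +
      act (idK - D.Po l t) (mul (adjC (D.Fio l t)) (gdp D.K l (sg t)))) cd
  have hcongr := sa_src_congr (T := D.T) (c := D.c) (γ := D.γ) (ρ := fun t => σ t * D.α l t)
    (ρ' := fun t => σ t * D.α l t)
    (f := fun t => act (D.Pl l t - D.Pl (l - 1) t) (f t))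
    (g := fun t => act (D.Pl l t - D.Po l t) (f t) +
      (-act (D.Po l t) (mul (D.Fo l t) (act (PK (xi D.K)) (y t))) +
      act (idK - D.Po l t) (mul (adjC (D.Fio l t)) (gdp D.K l (sg t)))))
    (fun t ht => by
      have hf0 := sa_static0 hPar hσ hfn ht
      have hP0 := sh_P hD hl.le hl' ht
      have e : act (D.Po l t) (f t) - act (D.Pl (l - 1) t) (f t) =
          -act (D.Po l t) (mul (D.Fo l t) (act (PK (xi D.K)) (y t))) +
          act (idK - D.Po l t) (mul (adjC (D.Fio l t)) (gdp D.K l (sg t))) := (hid t ht).1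
      show act (D.Pl l t - D.Pl (l - 1) t) (f t) = act (D.Pl l t - D.Po l t) (f t) +
        (-act (D.Po l t) (mul (D.Fo l t) (act (PK (xi D.K)) (y t))) +
        act (idK - D.Po l t) (mul (adjC (D.Fio l t)) (gdp D.K l (sg t))))
      rw [← e, act_subK hP0 (sh_Po hD hl hl' ht) hf0, act_subK hP0 (sh_P hD hm1 hn1 ht) hf0]
      abel) (fun _ _ => rfl)
  rw [hcongr]
  have hμ : D.N (l - 1) / D.N l ≤ D.u l ^ 256 := hmu1.trans hmu2
  have hv : 0 ≤ D.u l ^ 256 := pow_nonneg hu 256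
  generalize D.u l ^ 256 = v at sd hμ hv ⊢
  have hAB := sa_sum (by positivity) (by positivity) hsum1 sA' sB'
  refine sa_up (sa_sum (by positivity) (by positivity) hsum2 sd hAB) ?_
  -- constants
  set μ := D.N (l - 1) / D.N l with hμdef
  have e1 : 2 * (D.N (l - 1) / ‖kv (D.K l)‖) = 2 * μ := rfl
  rw [e1]
  have i1 := sh_inv hD (B := 2 * μ) (by positivity)
  have i2 := sh_inv hD (B := D.N (l - 1)) hN0
  have h8 : 1 * D.G ≤ D.G ^ 8 := by
    rw [one_mul]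
    calc D.G = D.G ^ 1 := (pow_one _).symm
      _ ≤ D.G ^ 8 := pow_le_pow_right₀ hG1 (by norm_num)
  have t1 : D.G * (2 * D.G ^ 3) * (2 * μ / D.γ) *
      (D.G / D.N l * (D.G * D.N l * (1 + D.G * 1))) ≤ 8 * D.G ^ 8 * v := by
    calc D.G * (2 * D.G ^ 3) * (2 * μ / D.γ) * (D.G / D.N l * (D.G * D.N l * (1 + D.G * 1)))
        ≤ D.G * (2 * D.G ^ 3) * (D.G * (2 * μ)) *
          (D.G / D.N l * (D.G * D.N l * (2 * D.G))) := by
          gcongr
          linarith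
      _ = 8 * D.G ^ 8 * μ := by
          field_simp
          ring
      _ ≤ 8 * D.G ^ 8 * v := by gcongr
  have t2 : 2 * D.G * (2 * D.G ^ 3) * (D.N (l - 1) / D.γ) *
      (D.G / D.N l * (D.G * (D.G * 1))) ≤ 4 * D.G ^ 8 * v := by
    calc 2 * D.G * (2 * D.G ^ 3) * (D.N (l - 1) / D.γ) * (D.G / D.N l * (D.G * (D.G * 1)))
        ≤ 2 * D.G * (2 * D.G ^ 3) * (D.G * D.N (l - 1)) *
          (D.G / D.N l * (D.G * (D.G * 1))) := by
          gcongr
      _ = 4 * D.G ^ 8 * μ := by rw [hμdef]; ring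
      _ ≤ 4 * D.G ^ 8 * v := by gcongr
  have t3 : D.G * v ≤ D.G ^ 8 * v := by
    have := mul_le_mul_of_nonneg_right h8 hv
    rwa [one_mul] at this
  have h5 : (13 : ℝ) ≤ D.G ^ 5 := by
    calc (13 : ℝ) ≤ 2 ^ 5 := by norm_num
      _ ≤ D.G ^ 5 := pow_le_pow_left₀ (by norm_num) hG2 5
  calc _ ≤ D.G ^ 8 * v + (8 * D.G ^ 8 * v + 4 * D.G ^ 8 * v) :=
        add_le_add t3 (add_le_add t1 t2)
    _ = 13 * (D.G ^ 8 * v) := by ring
    _ ≤ D.G ^ 5 * (D.G ^ 8 * v) := by gcongr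
    _ = _ := by ring

end Pool.Agent.Work.MP_b0497c_an.Unf.S

end

section

set_option autoImplicit false
set_option linter.unusedSectionVars false

/-!
# S10 (P3): the projector of level `n` on the new class
-/

open scoped ENNReal
open Set MeasureTheory

namespace Pool.Agent.Work.MP_b0497c_an.Unf.S

open W

variable {D : Dat}

theorem s10 (h01 : S01) (h02 : S02) (h05 : S05) : S10 := by
  intro D hD σ f hσ hf hs hfn
  have hm := hD.hmn
  refine ⟨sh_CM_p hD hm le_rfl (by omega) le_rfl hσ hf hfn, ?_⟩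
  have hG0 := sh_G0 hD
  have hG1 := sh_G1 hD
  have hG2 := hD.G_two
  have hu := (hD.u_pos (D.n + 1)).le
  obtain ⟨hm1, hm2, hm3, hm0⟩ := sh_mu hD (show D.m < D.n + 1 by omega) le_rfl
  obtain ⟨hF, hFi, -⟩ := sh_F hD hm le_rfl
  obtain ⟨cF, cFi, -⟩ := hD.F_cm D.n hm le_rfl
  have hP := hD.P_le D.n hm le_rfl
  have e1 : ∀ t, mm (D.F (D.n + 1 - 1) t) (shP (0 : Md → C3) (D.kk (D.n + 1))) = D.F D.n t :=
    fun t => by
      rw [sh_shP_zero, sh_mm_one]
      rfl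
  have e2 : ∀ t, mm (shM (0 : Md → C3) (D.kk (D.n + 1))) (D.Fi (D.n + 1 - 1) t) = D.Fi D.n t :=
    fun t => by
      rw [sh_shM_zero, sh_one_mm]
      rfl
  have hle : ENNReal.ofReal D.G ≤ ENNReal.ofReal (2 * D.G ^ 3) := by
    refine ENNReal.ofReal_le_ofReal ?_
    have : D.G ^ 1 ≤ D.G ^ 3 := pow_le_pow_right₀ hG1 (by norm_num)
    rw [pow_one] at this
    linarith
  have hcore := sh_core hD h01 h02 h05 (show D.m < D.n + 1 by omega) le_rfl
    (z := fun _ => 0) (fun t ht => sh_sheet0 hD ht)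
    (by simp only [e1]; exact hF.trans hle) (by simp only [e1]; exact cF)
    (by simp only [e2]; exact hFi.trans hle) (by simp only [e2]; exact cFi)
    (by simp only [e2]; exact hP.1) (by simp only [e2]; exact hP.2) hσ hf hs hfn
  simp only [e2] at hcore
  refine sa_up hcore ?_
  have h4 : (16 : ℝ) ≤ D.G ^ 4 := by
    calc (16 : ℝ) = 2 ^ 4 := by norm_num
      _ ≤ D.G ^ 4 := pow_le_pow_left₀ (by norm_num) hG2 4
  have hμ : D.N (D.n + 1 - 1) / D.N (D.n + 1) ≤ D.u (D.n + 1) ^ 512 := hm1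
  have hv : 0 ≤ D.u (D.n + 1) ^ 512 := pow_nonneg hu 512
  generalize D.u (D.n + 1) ^ 512 = v at hμ hv ⊢
  calc 12 * D.G ^ 9 * (D.N (D.n + 1 - 1) / D.N (D.n + 1))
      ≤ 12 * D.G ^ 9 * v := by gcongr
    _ ≤ D.G ^ 4 * D.G ^ 9 * v := by
        gcongr
        linarith
    _ = _ := by ring

end Pool.Agent.Work.MP_b0497c_an.Unf.S

end
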