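import Pool.Agent.Work.MP_b0497c_an.Bd.B41
import Pool.Agent.Work.MP_b0497c_an.Unf.AStmts
import Pool.Agent.Work.MP_b0497c_an.Unf.AFin1
import Pool.Agent.Work.MP_b0497c_an.Unf.A00
import Pool.Agent.Work.MP_b0497c_an.Unf.A7P
import Pool.Agent.Work.MP_b0497c_an.Unf.KPert
import Pool.Agent.Work.MP_b0497c_an.Bd.B40
import Pool.Agent.Work.MP_b0497c_an.Unf.L16

/-! Bundle of small proof modules (one section per former module). -/

section

set_option autoImplicit false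

/-!
# Block A, item LS2: `s` and `Φ` of the new class
-/

open scoped ENNReal
open Set MeasureTheory

namespace Pool.Agent.Work.MP_b0497c_an.Unf.A

open W S P
open Unf.O (LevD NextD)
open Unf.K (rM rV rMt kR dj kelS covec CoL)

/-- Everything of the level `n ≥ 1` is `≤ Gm`, with exponents of order `n²`. -/
theorem master_sq {C x : ℝ} (B : Big C x) {n : ℕ} :
    ((10 : ℝ) ^ 6 * RR x n) ^ (4000 * (n + 2) ^ 2) ≤ Gm x n := by
  have hR : (10 : ℝ) ^ 6 ≤ RR x n := by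
    have h := B.ell_ge (n + 1)
    have h1 : ell x (n + 1) ≤ ell x (n + 1) ^ 3 := le_self_pow₀ (by linarith) (by norm_num)
    calc (10 : ℝ) ^ 6 ≤ (10 : ℝ) ^ 100 := by norm_num
      _ ≤ Real.exp (ell x (n + 1)) := B.num_exp h
      _ ≤ RR x n := Real.exp_le_exp.2 h1
  have hR0 : 0 ≤ RR x n := (Real.exp_pos _).le
  calc ((10 : ℝ) ^ 6 * RR x n) ^ (4000 * (n + 2) ^ 2)
      ≤ (RR x n * RR x n) ^ (4000 * (n + 2) ^ 2) := by gcongr
    _ = Real.exp (8000 * ((n : ℝ) + 2) ^ 2 * ell x (n + 1) ^ 3) := by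
        rw [RR, ← Real.exp_add, ← Real.exp_nat_mul]; push_cast; ring_nf
    _ ≤ Gm x n := by
        rw [Gm]
        refine Real.exp_le_exp.2 ?_
        have e : ell x (n + 3) = ell x (n + 1) ^ 4 := by
          rw [show n + 3 = n + 1 + 2 by ring, ell_add]; norm_num
        have h1 := B.nat n
        have h2 := B.ell_gap n
        have h3 := B.ell_pos n
        have hn : (0 : ℝ) ≤ n := n.cast_nonneg
        have h5 : ((n : ℝ) + 1) ^ 2 ≤ ((n : ℝ) + 1) ^ 16 :=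
          pow_le_pow_right₀ (by linarith) (by norm_num)
        have h6 : 1000 * ((n : ℝ) + 1) ^ 16 ≤ ell x n := by
          refine le_trans ?_ h1
          have := B.C_one
          have h7 : (0 : ℝ) ≤ ((n : ℝ) + 1) ^ 16 := by positivity
          nlinarith
        have h4 : 8000 * ((n : ℝ) + 2) ^ 2 ≤ ell x (n + 1) / 100 := by
          have h8 : ((n : ℝ) + 2) ^ 2 ≤ 4 * ((n : ℝ) + 1) ^ 2 := by nlinarith
          linarith
        have hp : 0 ≤ ell x (n + 1) ^ 3 := by have := B.ell_pos (n + 1); positivity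
        rw [e]
        calc 8000 * ((n : ℝ) + 2) ^ 2 * ell x (n + 1) ^ 3
            ≤ ell x (n + 1) / 100 * ell x (n + 1) ^ 3 := by gcongr
          _ = ell x (n + 1) ^ 4 / 100 := by ring

/-- The same for the level `0`. -/
theorem master_zero {x R0 c₀ X0 : ℝ} (P : Par0 x R0 c₀ X0) :
    ((10 : ℝ) ^ 6 * R0) ^ 16000 ≤ Gm x 0 := by
  have B := P.big
  have h2 := P.R0_two
  have hX := P.X0_one
  have h1 : ((10 : ℝ) ^ 6 * R0) ^ 16000 ≤ X0 ^ 8 := by
    have e : ((10 : ℝ) ^ 6 * R0) ^ 16000 = (((10 : ℝ) ^ 6 * R0) ^ 2000) ^ 8 := by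
      rw [← pow_mul]
    rw [e]
    exact pow_le_pow_left₀ (by positivity) P.X0_ge 8
  have h3 : X0 ^ 8 ≤ c₀ ^ 3 := by
    calc X0 ^ 8 ≤ X0 ^ 9 := pow_le_pow_right₀ hX (by norm_num)
      _ = (X0 ^ 3) ^ 3 := by ring
      _ ≤ c₀ ^ 3 := pow_le_pow_left₀ (by positivity) P.X0_le 3
  have h4 : c₀ ≤ ell x 0 := by
    have := B.nat 0
    have := B.C_one
    norm_num at *
    linarith
  have h5 : c₀ ^ 3 ≤ ell x 0 ^ 3 := pow_le_pow_left₀ (by linarith [B.C_one]) h4 3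
  have h6 : ell x 0 ^ 3 ≤ Real.exp (ell x 0) ^ 3 :=
    pow_le_pow_left₀ (B.ell_pos 0).le (by linarith [Real.add_one_le_exp (ell x 0)]) 3
  refine h1.trans (h3.trans (h5.trans (h6.trans ?_)))
  rw [Gm, ← Real.exp_nat_mul]
  refine Real.exp_le_exp.2 ?_
  have g0 := B.ell_gap 0
  have g1 := B.ell_gap 1
  have g2 := B.ell_gap 2
  have p0 := B.ell_pos 0
  have p1 := B.ell_pos 1
  have p2 := B.ell_pos 2
  simp only [Nat.zero_add, Nat.reduceAdd] at *
  push_cast
  linarith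

/-- The master inequality for the constant of the level `m` of the chain. -/
theorem R_master {x R0 c₀ X0 : ℝ} (P : Par0 x R0 c₀ X0) {m : ℕ} {C : Chain} {D : ℕ → LevD}
    (h : PreD x R0 (m + 1) C D) :
    ((10 : ℝ) ^ 6 * C.R m) ^ (4000 * (m + 2) ^ 2) ≤ Gm x m := by
  rcases Nat.eq_zero_or_pos m with rfl | hm
  · rw [h.R0_eq]
    exact master_zero P
  · rw [h.R_eq m hm (by omega)]
    exact master_sq P.big

theorem three_bb_Gm {C x : ℝ} (B : Big C x) (m : ℕ) : 3 * bb x (m + 1) * Gm x m ≤ GG x m := by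
  have h3 : (3 : ℝ) ≤ Real.exp (ell x (m + 3)) := by
    have := Real.add_one_le_exp (ell x (m + 3))
    have := B.ell_ge (m + 3)
    linarith
  calc 3 * bb x (m + 1) * Gm x m ≤ Real.exp (ell x (m + 3)) * bb x (m + 1) * Gm x m := by
        have := (bb_pos x (m + 1)).le
        have : 0 ≤ Gm x m := (Real.exp_pos _).le
        gcongr
    _ = Real.exp (ell x (m + 3) + 25000000 * ell x (m + 1 + 1) + ell x (m + 3) / 100) := by
        rw [bb, Gm, ← Real.exp_add, ← Real.exp_add]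
    _ ≤ GG x m := by
        rw [GG]
        refine Real.exp_le_exp.2 ?_
        have g := B.ell_gap' (m + 2)
        have p := B.ell_pos (m + 2)
        have e1 : m + 1 + 1 = m + 2 := rfl
        have e2 : m + 2 + 1 = m + 3 := rfl
        rw [e1]
        rw [e2] at g
        linarith

theorem cc_Gm {C x : ℝ} (B : Big C x) (m : ℕ) : cc x m * Gm x m ≤ 1 := by
  have h1 : (1 : ℝ) ≤ Gm x m := Real.one_le_exp (by have := B.ell_pos (m + 3); linarith)
  have h2 : Gm x m ≤ Gm x m ^ 1000 := le_self_pow₀ h1 (by norm_num)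
  have h3 : Gm x m ^ 1000 * cc x m ≤ 1 := by
    rw [Gm, cc, ← Real.exp_nat_mul, ← Real.exp_add, Real.exp_le_one_iff]
    have := B.ell_pos (m + 3)
    push_cast
    linarith
  have h4 : 0 ≤ cc x m := (Real.exp_pos _).le
  calc cc x m * Gm x m ≤ cc x m * Gm x m ^ 1000 := by gcongr
    _ = Gm x m ^ 1000 * cc x m := mul_comm _ _
    _ ≤ 1 := h3

theorem two_aa_GG {C x : ℝ} (B : Big C x) (m : ℕ) : 2 * aa x (m + 1) ≤ GG x m := by
  refine le_trans ?_ (B.expC_le' m)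
  have h1 := B.C_one
  have h2 : (2 : ℝ) ≤ Real.exp (2 * C) := by
    have := Real.add_one_le_exp (2 * C)
    linarith
  have := (aa_pos x (m + 1)).le
  gcongr

theorem ls2 (h1 : LS1) : LS2 := by
  intro x R0 c₀ X0 m C D P h
  obtain ⟨-, hWt, hal⟩ := h1 x R0 c₀ X0 m C D P h
  have B := P.big
  have hl := h.an.lvl m (by omega)
  have hK : 0 < ‖kv (C.K (m + 1))‖ :=
    lt_of_lt_of_le (by positivity) (h.K_size.low (m + 1) (by omega) le_rfl)
  have hM := R_master P h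
  have hbb : 0 ≤ 3 * bb x (m + 1) := by have := bb_pos x (m + 1); positivity
  refine exists_new (E := bb x (m + 1)) hl h.τ_pos h.τ_le hK hWt
    (fun t ht => (hal t ht).trans (two_aa_GG B m)) (B.bb_one (m + 1))
    (fun θ => (h.kb θ).kb) ?_ (Real.exp_pos _) ?_
  · exact (mul_le_mul_of_nonneg_left hM hbb).trans (three_bb_Gm B m)
  · exact (mul_le_mul_of_nonneg_left hM (Real.exp_pos _).le).trans (cc_Gm B m)

end Pool.Agent.Work.MP_b0497c_an.Unf.A

end

section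

set_option autoImplicit false
set_option linter.dupNamespace false

/-!
# Block A (assembly): the infinite chain and the conclusion
-/

open scoped ENNReal
open Set MeasureTheory Filter

namespace Pool.Agent.Work.MP_b0497c_an.Unf.A

open W S P
open Unf.O (LevD NextD ThmO)

/-- The constants of the construction. -/
theorem Par0.RR0 {x R0 c₀ X0 : ℝ} (P0 : Par0 x R0 c₀ X0) : R0 ≤ RR x 0 := by
  have B := P0.big
  have h2 := P0.R0_two
  have h1 : R0 ≤ X0 := by
    refine le_trans ?_ P0.X0_ge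
    have h3 : (1:ℝ) ≤ 10 ^ 6 * R0 := by nlinarith
    calc R0 ≤ 10 ^ 6 * R0 := by nlinarith
      _ ≤ _ := le_self_pow₀ h3 (by norm_num)
  have h3 : X0 ≤ c₀ := le_trans (le_self_pow₀ P0.X0_one (by norm_num)) P0.X0_le
  have h4 := B.nat_mul_le (n := 0) (s := 1)
  have h5 := B.ell_pos (0 + 1)
  have h6 : c₀ ≤ ell x (0 + 1) := by
    have : ((0 : ℕ) : ℝ) + 1 = 1 := by norm_num
    rw [this] at h4
    linarith
  have h7 : (1 : ℝ) ≤ ell x (0 + 1) := one_le_ell B.one_le _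
  have h8 : ell x (0 + 1) ≤ ell x (0 + 1) ^ 3 := le_self_pow₀ h7 (by norm_num)
  have h9 := Real.add_one_le_exp (ell x (0 + 1) ^ 3)
  show R0 ≤ Real.exp (ell x (0 + 1) ^ 3)
  linarith

/-- Parameters exist. -/
theorem par0_ex (R0 : ℝ) (hR : 2 ≤ R0) (x₀ : ℝ) : ∃ x ≥ x₀, ∃ c₀ X0, Par0 x R0 c₀ X0 := by
  have h1 : (1 : ℝ) ≤ (10 ^ 6 * R0) ^ 2000 := one_le_pow₀ (by nlinarith)
  have h2 : (1 : ℝ) ≤ ((10 ^ 6 * R0) ^ 2000) ^ 3 := one_le_pow₀ h1
  obtain ⟨x, hx1, hx2, hx3⟩ :=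
    ((eventually_ge_atTop x₀).and ((ev_Big _ h2).and ev_PU)).exists
  exact ⟨x, hx1, _, (10 ^ 6 * R0) ^ 2000, hx2, hx3, hR, h1, le_rfl, le_rfl⟩

/-- The conclusion from the stages. -/
theorem finalP_of {x R0 c₀ X0 : ℝ} (P0 : Par0 x R0 c₀ X0) {C : Chain}
    (h : ∀ n, 1 ≤ n → Stage x R0 n C) : FinalP C x where
  lvl l := by
    obtain ⟨D, H⟩ := h (l + 1) (by omega)
    exact H.an.lvl l (by omega)
  U_seed l := by
    obtain ⟨D, H⟩ := h (l + 1) (by omega)
    exact H.an.U_seed l (by omega)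
  w_supp j hj := by
    obtain ⟨D, H⟩ := h j hj
    exact (H.an.sht j hj le_rfl).w_supp
  τ_anti l := by
    obtain ⟨D, H⟩ := h (l + 1) (by omega)
    exact H.an.τ_anti l (by omega)
  tn_pos n hn := by
    obtain ⟨D, H⟩ := h n hn
    rw [H.pre.tn_eq n hn le_rfl]
    exact (H.pre.hl n hn le_rfl).t0_pos
  tn_le n hn := by
    obtain ⟨D, H⟩ := h n hn
    rw [H.pre.tn_eq n hn le_rfl]
    exact (H.pre.hl n hn le_rfl).t0_lt.le.trans H.pre.T_le
  R_le l := by
    rcases Nat.eq_zero_or_pos l with rfl | hl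
    · obtain ⟨D, H⟩ := h 1 le_rfl
      rw [H.pre.R0_eq]
      exact P0.RR0
    · obtain ⟨D, H⟩ := h l hl
      exact H.R_eq.le
  K_le l := by
    rcases Nat.eq_zero_or_pos l with rfl | hl
    · obtain ⟨D, H⟩ := h 1 le_rfl
      rw [H.pre.K_size.zero]
      have h1 : Real.sqrt 14 ≤ 4 := Real.sqrt_le_iff.2 ⟨by norm_num, by norm_num⟩
      have h2 := Real.add_one_le_exp (Lr x 0)
      have h3 := P0.big.Lr_ge 0
      have h4 : (4 : ℝ) ≤ 10 ^ 100 := by norm_num
      linarith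
    · obtain ⟨D, H⟩ := h l hl
      exact H.pre.K_size.upp l hl le_rfl
  w_one := by
    obtain ⟨D, H⟩ := h 1 le_rfl
    rw [H.pre.w_eq]
    exact ne_top_of_le_ne_top ENNReal.ofReal_ne_top
      (sN_seed C.K (H.an.lvl 1 le_rfl).c_pos.le _ _ _)
  w_le n hn := by
    obtain ⟨D, H⟩ := h (n + 1) (by omega)
    have h1 := H.r_eq
    rw [Nat.add_sub_cancel] at h1
    rw [h1]
    exact H.pre.w_le n hn (by omega)
  M_ge n hn := by
    obtain ⟨D, H⟩ := h n hn
    exact H.M_ge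

/-- **The assembly.** -/
theorem blowup_of (hB : Base) (hS : HalfS) (hH : HalfH) : Blowup := by
  obtain ⟨R0, hR0, x₀, hb⟩ := hB
  obtain ⟨x, hx, c₀, X0, P0⟩ := par0_ex R0 hR0 x₀
  obtain ⟨C1, D1, hP⟩ := hb x hx
  have hmain : ∃ C : Chain, ∀ n, 1 ≤ n → (1 ≤ n → Stage x R0 n C) := by
    refine Chain.exists_chain (fun n C => 1 ≤ n → Stage x R0 n C) 1 ?_ ?_ ?_
    · intro n C C' hA hC hn
      exact loc x R0 n C C' hn hA (hC hn)
    · obtain ⟨C', -, h⟩ := hS x R0 c₀ X0 1 C1 D1 le_rfl P0 hP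
      exact ⟨C', fun _ => ⟨D1, h⟩⟩
    · intro n hn C hC
      obtain ⟨D, hD⟩ := hC hn
      obtain ⟨C', D', hA, hP'⟩ := hH x R0 c₀ X0 n C D hn P0 hD
      obtain ⟨C'', hA', hD'⟩ := hS x R0 c₀ X0 (n + 1) C' D' (by omega) P0 hP'
      rw [Nat.add_sub_cancel] at hA'
      exact ⟨C'', hA.trans hA', fun _ => ⟨D', hD'⟩⟩
  obtain ⟨C, hC⟩ := hmain
  exact (finalP_of P0 fun n hn => hC n hn hn).blowup P0.big

/-- **The assembly from the items.** -/
theorem blowup_items (hB : Base) (s1 : LS1) (s2 : LS2) (s4 : LS4) (s5 : LS5) (s7 : LS7)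
    (h1 : LH1) (hG : GlobEx) (hO : ThmO) (h3 : LH3) (h5 : LH5) (h8 : LH8) : Blowup :=
  blowup_of hB (halfS s1 s2 s4 s5 s7) (halfH h1 hG hO h3 h5 h8)

end Pool.Agent.Work.MP_b0497c_an.Unf.A

end

section

set_option autoImplicit false

/-!
# Block A: the global flow of the centre path exists
-/

open Set

namespace Pool.Agent.Work.MP_b0497c_an.Unf.A

/-- Existence of the flow of a continuous path. -/
theorem globEx : GlobEx := by
  intro A hA
  obtain ⟨Y, Z, hY, -, hZY, hYZ⟩ := Unf.K.PB.exists_fund hA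
  have e1 : ∀ t, (Z t) * (Y t) = 1 := hZY
  have e2 : ∀ t, (Y t) * (Z t) = 1 := hYZ
  refine ⟨fun t => (Y t).comp (Z 0), fun t => (Y 0).comp (Z t), ⟨fun t => ?_, e2 0, fun t => ?_,
    fun t => ?_⟩⟩
  · have h := (hY t).clm_comp (hasDerivAt_const t (Z 0))
    refine h.congr_deriv ?_
    ext x
    simp
  · change (Y t * Z 0) * (Y 0 * Z t) = 1
    rw [mul_assoc, ← mul_assoc (Z 0), e1, one_mul, e2]
  · change (Y 0 * Z t) * (Y t * Z 0) = 1
    rw [mul_assoc, ← mul_assoc (Z t), e1, one_mul, e2]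

end Pool.Agent.Work.MP_b0497c_an.Unf.A

end

section

set_option autoImplicit false

/-!
# Block L, assembled: all items without hypotheses
-/

namespace Pool.Agent.Work.MP_b0497c_an.Unf.L.Fin

open W S

theorem l16 : L16 := L.l16
theorem l30 : L30 := L.All.l30 l16
theorem l31 : L31 := L.All.l31 l16

end Pool.Agent.Work.MP_b0497c_an.Unf.L.Fin

end

section

set_option autoImplicit false
set_option linter.dupNamespace false

/-!
# Block A, `LS7`: size of the velocity gradient of level `n` at the centre, at the time `t_n`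
(helper43)
-/

open scoped ENNReal
open Set MeasureTheory

namespace Pool.Agent.Work.MP_b0497c_an.Unf.A

open W S P
open Unf.O (LevD NextD)
open Forced.Ode (Op ro)

namespace LS7P

/-- `|M^1(t0)| ≥ a - b`. -/
theorem fam_ge {D : LevD} (H : D.HL) : D.a - D.b ≤ ‖D.fam.M 1 D.t0‖ := by
  have he : ‖D.n D.t0‖ = 1 := H.n_one
  have hA : ‖D.A D.t0‖ ≤ D.b := H.A_le _
  have hM : D.fam.M 1 D.t0 (D.n D.t0) = D.A D.t0 (D.n D.t0) + D.v D.t0 := by
    show (D.A D.t0 + (1 : ℝ) • ro (D.v D.t0) (D.n D.t0)) (D.n D.t0) = _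
    rw [one_smul, ContinuousLinearMap.add_apply]
    congr 1
    simp only [ro, ContinuousLinearMap.smulRight_apply, innerSL_apply_apply,
      real_inner_self_eq_norm_sq, he, one_pow, one_smul]
  have h1 : ‖D.fam.M 1 D.t0 (D.n D.t0)‖ ≤ ‖D.fam.M 1 D.t0‖ := by
    have := (D.fam.M 1 D.t0).le_opNorm (D.n D.t0)
    rwa [he, mul_one] at this
  have h2 : ‖D.A D.t0 (D.n D.t0)‖ ≤ D.b := by
    have := (D.A D.t0).le_opNorm (D.n D.t0)
    rw [he, mul_one] at this
    exact this.trans hA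
  have h3 : ‖D.v D.t0‖ ≤ ‖D.A D.t0 (D.n D.t0) + D.v D.t0‖ + ‖D.A D.t0 (D.n D.t0)‖ := by
    have := norm_sub_le (D.A D.t0 (D.n D.t0) + D.v D.t0) (D.A D.t0 (D.n D.t0))
    rwa [add_sub_cancel_left] at this
  rw [← hM] at h3
  have h4 : ‖D.v D.t0‖ = D.a := H.v_a
  linarith

/-- the numbers. -/
theorem num {C x : ℝ} (B : Big C x) (n : ℕ) :
    Lr x n + bb x n + (hh x n ^ (10 ^ 9))⁻¹ ≤ hh x n ^ 24 := by
  have h0 := hh_pos x n
  have h1 := B.hh_one n
  have h2 : (10 : ℝ) ^ 100 ≤ hh x n := B.hh_ge n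
  have h3 : (3 : ℝ) ≤ hh x n := le_trans (by norm_num) h2
  have hL : Lr x n ≤ hh x n := by
    rw [Lr, hh]
    refine Real.exp_le_exp.2 ?_
    have e1 := ell_mono B.one_le (Nat.le_add_right n 2)
    have e2 := B.ell_pos (n + 2)
    linarith
  have hb : bb x n ≤ hh x n := by
    have := B.b_pow_le (n := n) (K := 1) (by norm_num)
    rwa [pow_one] at this
  have hi : (hh x n ^ (10 ^ 9))⁻¹ ≤ hh x n := (inv_le_one_of_one_le₀ (one_le_pow₀ h1)).trans h1
  calc Lr x n + bb x n + (hh x n ^ (10 ^ 9))⁻¹ ≤ 3 * hh x n := by linarith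
    _ ≤ hh x n * hh x n := mul_le_mul_of_nonneg_right h3 h0.le
    _ = hh x n ^ 2 := (pow_two _).symm
    _ ≤ hh x n ^ 24 := pow_le_pow_right₀ h1 (by norm_num)

end LS7P

/-- LS7 from LSh. -/
theorem ls7 (hLSh : LSh) : LS7 := by
  intro x R0 c₀ X0 n C D hn hP hD hAn
  have B := hP.big
  have H := hD.hl n hn le_rfl
  have ht0 : (D n).t0 ∈ Icc 0 (D n).T := H.toFlo.t0_mem
  rw [hD.tn_eq n hn le_rfl]
  have h1 := hLSh x R0 c₀ X0 n C D hn hP hD hAn (D n).t0 ht0
  have h2 := LS7P.fam_ge H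
  have h3 := LS7P.num B n
  have h4 : ‖(D n).fam.M 1 (D n).t0‖ ≤ ‖C.Mc n (D n).t0‖ + (hh x n ^ (10 ^ 9))⁻¹ := by
    have e1 := norm_sub_le (C.Mc n (D n).t0) (C.Mc n (D n).t0 - (D n).fam.M 1 (D n).t0)
    rw [sub_sub_cancel] at e1
    linarith
  have h5 : (D n).a = hh x n ^ 24 := by
    rw [LevD.a, hD.h_eq n hn le_rfl]
  rw [h5, hD.b_eq n hn le_rfl] at h2
  linarith

end Pool.Agent.Work.MP_b0497c_an.Unf.A

end
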