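import Pool.Agent.Work.MP_b0497c_an.Forced.W.StmtsA
import Pool.Agent.Work.MP_b0497c_an.Forced.W.StmtsB

/-! Bundle of small proof modules (one section per former module). -/

section

set_option autoImplicit false

/-! MP_b0497c_an, WKB module, item A1: products of moderate coefficients. -/

open scoped ContDiff
open Set

namespace Pool.Agent.Work.MP_b0497c_an.Forced.W

namespace ItemA1

theorem nonneg {ι : Type} {Lam : ι → ℝ} {I : ι → Set ℝ} {mu : ι → ℝ → ℝ} {c : ι → ℝ → ℝ}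
    (hL : ∀ i, 2 ≤ Lam i) (h : Mod Lam I mu c) (i : ι) (t : ℝ) (ht : t ∈ I i) : 0 ≤ mu i t := by
  obtain ⟨n, hn⟩ := h.2 0
  have h1 := (abs_nonneg _).trans (hn i t ht)
  have h2 : 0 < Lam i ^ n := pow_pos (by linarith [hL i]) n
  exact nonneg_of_mul_nonneg_right h1 h2

end ItemA1

open ItemA1 in
theorem prfA1 : claimA1 := by
  intro ι Lam I mu nu c d hL hc hd
  refine ⟨fun i => (hc.1 i).mul (hd.1 i), ?_⟩
  intro m
  choose nc hnc using hc.2
  choose nd hnd using hd.2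
  refine ⟨m + ((∑ k ∈ Finset.range (m + 1), nc k) + ∑ k ∈ Finset.range (m + 1), nd k), ?_⟩
  intro i t ht
  have h2 := hL i
  have hL1 : (1 : ℝ) ≤ Lam i := by linarith
  have hmu := nonneg hL hc i t ht
  have hnu := nonneg hL hd i t ht
  have hf : ContDiffAt ℝ m (c i) t := ((hc.1 i).of_le (by exact_mod_cast le_top)).contDiffAt
  have hg : ContDiffAt ℝ m (d i) t := ((hd.1 i).of_le (by exact_mod_cast le_top)).contDiffAt
  have e := iteratedDeriv_mul (n := m) hf hg
  have e' : iteratedDeriv m (fun t => c i t * d i t) t = ∑ k ∈ Finset.range (m + 1),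
      (m.choose k : ℝ) * iteratedDeriv k (c i) t * iteratedDeriv (m - k) (d i) t := e
  rw [e']
  set S1 := ∑ k ∈ Finset.range (m + 1), nc k with hS1
  set S2 := ∑ k ∈ Finset.range (m + 1), nd k with hS2
  have hterm : ∀ k ∈ Finset.range (m + 1),
      |(m.choose k : ℝ) * iteratedDeriv k (c i) t * iteratedDeriv (m - k) (d i) t| ≤
        (m.choose k : ℝ) * (Lam i ^ (S1 + S2) * (mu i t * nu i t)) := by
    intro k hk
    rw [abs_mul, abs_mul, Nat.abs_cast, mul_assoc]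
    refine mul_le_mul_of_nonneg_left ?_ (Nat.cast_nonneg _)
    have h3 : |iteratedDeriv k (c i) t| ≤ Lam i ^ S1 * mu i t := by
      refine (hnc k i t ht).trans (mul_le_mul_of_nonneg_right ?_ hmu)
      refine pow_le_pow_right₀ hL1 ?_
      exact Finset.single_le_sum (f := nc) (fun _ _ => Nat.zero_le _) hk
    have h4 : |iteratedDeriv (m - k) (d i) t| ≤ Lam i ^ S2 * nu i t := by
      refine (hnd (m - k) i t ht).trans (mul_le_mul_of_nonneg_right ?_ hnu)
      refine pow_le_pow_right₀ hL1 ?_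
      exact Finset.single_le_sum (f := nd) (fun _ _ => Nat.zero_le _)
        (Finset.mem_range.2 (by omega))
    calc |iteratedDeriv k (c i) t| * |iteratedDeriv (m - k) (d i) t|
        ≤ (Lam i ^ S1 * mu i t) * (Lam i ^ S2 * nu i t) :=
          mul_le_mul h3 h4 (abs_nonneg _) (by positivity)
      _ = Lam i ^ (S1 + S2) * (mu i t * nu i t) := by rw [pow_add]; ring
  calc |∑ k ∈ Finset.range (m + 1),
        (m.choose k : ℝ) * iteratedDeriv k (c i) t * iteratedDeriv (m - k) (d i) t|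
      ≤ ∑ k ∈ Finset.range (m + 1), (m.choose k : ℝ) * (Lam i ^ (S1 + S2) * (mu i t * nu i t)) :=
        (Finset.abs_sum_le_sum_abs _ _).trans (Finset.sum_le_sum hterm)
    _ = (2 : ℝ) ^ m * (Lam i ^ (S1 + S2) * (mu i t * nu i t)) := by
        rw [← Finset.sum_mul]
        congr 1
        exact_mod_cast Nat.sum_range_choose m
    _ ≤ Lam i ^ m * (Lam i ^ (S1 + S2) * (mu i t * nu i t)) := by
        refine mul_le_mul_of_nonneg_right ?_ (by positivity)
        exact pow_le_pow_left₀ (by norm_num) h2 m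
    _ = Lam i ^ (m + (S1 + S2)) * (mu i t * nu i t) := by rw [pow_add (Lam i) m]; ring

end Pool.Agent.Work.MP_b0497c_an.Forced.W

end

section

set_option autoImplicit false

/-!
# WKB module, items A2 and A3: closure properties of `Mod`
-/

open scoped ContDiff
open Set

namespace Pool.Agent.Work.MP_b0497c_an.Forced.W

namespace ItemA2

variable {ι : Type} {Lam : ι → ℝ} {I : ι → Set ℝ} {mu : ι → ℝ → ℝ} {c : ι → ℝ → ℝ}

theorem mu_nonneg (hL : ∀ i, 2 ≤ Lam i) (hc : Mod Lam I mu c) (i : ι) {t : ℝ} (ht : t ∈ I i) :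
    0 ≤ mu i t := by
  obtain ⟨n, hn⟩ := hc.2 0
  have h1 := (abs_nonneg _).trans (hn i t ht)
  have h2 : 0 < Lam i ^ n := pow_pos (by linarith [hL i]) n
  exact nonneg_of_mul_nonneg_right h1 h2

theorem mod_add (hL : ∀ i, 2 ≤ Lam i) (hc : Mod Lam I mu c) {d : ι → ℝ → ℝ}
    (hd : Mod Lam I mu d) : Mod Lam I mu (fun i t => c i t + d i t) := by
  refine ⟨fun i => (hc.1 i).add (hd.1 i), fun k => ?_⟩
  obtain ⟨n, hn⟩ := hc.2 k
  obtain ⟨m, hm⟩ := hd.2 k
  refine ⟨n + m + 1, fun i t ht => ?_⟩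
  have h0 := mu_nonneg hL hc i ht
  have h2 := hL i
  have h3 : iteratedDeriv k (fun t => c i t + d i t) t =
      iteratedDeriv k (c i) t + iteratedDeriv k (d i) t := by
    have := iteratedDeriv_add (n := k) (x := t)
      ((hc.1 i).contDiffAt.of_le (by exact_mod_cast le_top))
      ((hd.1 i).contDiffAt.of_le (by exact_mod_cast le_top))
    exact this
  rw [h3]
  refine (abs_add_le _ _).trans ((add_le_add (hn i t ht) (hm i t ht)).trans ?_)
  have h4 : Lam i ^ n ≤ Lam i ^ (n + m) := pow_le_pow_right₀ (by linarith) (by omega)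
  have h5 : Lam i ^ m ≤ Lam i ^ (n + m) := pow_le_pow_right₀ (by linarith) (by omega)
  have h6 : 2 * Lam i ^ (n + m) ≤ Lam i ^ (n + m + 1) := by
    rw [pow_succ, mul_comm]
    exact mul_le_mul_of_nonneg_left h2 (by positivity)
  rw [← add_mul]
  exact mul_le_mul_of_nonneg_right (by linarith) h0

theorem mod_const_mul (hL : ∀ i, 2 ≤ Lam i) (hc : Mod Lam I mu c) (r : ℝ) :
    Mod Lam I mu (fun i t => r * c i t) := by
  refine ⟨fun i => contDiff_const.mul (hc.1 i), fun k => ?_⟩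
  obtain ⟨n, hn⟩ := hc.2 k
  obtain ⟨m, hm⟩ := pow_unbounded_of_one_lt |r| (by norm_num : (1 : ℝ) < 2)
  refine ⟨m + n, fun i t ht => ?_⟩
  have h0 := mu_nonneg hL hc i ht
  have h2 := hL i
  rw [iteratedDeriv_const_mul_field, abs_mul, pow_add, mul_assoc]
  refine mul_le_mul (hm.le.trans ?_) (hn i t ht) (abs_nonneg _) (by positivity)
  exact pow_le_pow_left₀ (by norm_num) h2 m

theorem mod_mono (hc : Mod Lam I mu c) (hL : ∀ i, 2 ≤ Lam i) {nu : ι → ℝ → ℝ}
    (h : ∀ i, ∀ t ∈ I i, mu i t ≤ nu i t) : Mod Lam I nu c := by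
  refine ⟨hc.1, fun k => ?_⟩
  obtain ⟨n, hn⟩ := hc.2 k
  refine ⟨n, fun i t ht => (hn i t ht).trans ?_⟩
  exact mul_le_mul_of_nonneg_left (h i t ht) (pow_nonneg (by linarith [hL i]) n)

theorem mod_deriv (hc : Mod Lam I mu c) : Mod Lam I mu (fun i t => deriv (c i) t) := by
  refine ⟨fun i => (contDiff_infty_iff_deriv.1 (hc.1 i)).2, fun k => ?_⟩
  obtain ⟨n, hn⟩ := hc.2 (k + 1)
  refine ⟨n, fun i t ht => ?_⟩
  have h := hn i t ht
  rw [iteratedDeriv_succ'] at h
  exact h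

theorem mod_idx_mul (hc : Mod Lam I mu c) {k : ι → ℝ} (hk : ∀ i, 0 ≤ k i) :
    Mod Lam I (fun i t => k i * mu i t) (fun i t => k i * c i t) := by
  refine ⟨fun i => contDiff_const.mul (hc.1 i), fun m => ?_⟩
  obtain ⟨n, hn⟩ := hc.2 m
  refine ⟨n, fun i t ht => ?_⟩
  rw [iteratedDeriv_const_mul_field, abs_mul, abs_of_nonneg (hk i)]
  have h := mul_le_mul_of_nonneg_left (hn i t ht) (hk i)
  calc k i * |iteratedDeriv m (c i) t| ≤ k i * (Lam i ^ n * mu i t) := h
    _ = Lam i ^ n * (k i * mu i t) := by ring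

end ItemA2

/-- A2: sums, real multiples, monotonicity, derivatives. -/
theorem prfA2 : claimA2 := by
  intro ι Lam I mu c hL hc
  exact ⟨fun d hd => ItemA2.mod_add hL hc hd, fun r => ItemA2.mod_const_mul hL hc r,
    fun nu h => ItemA2.mod_mono hc hL h, ItemA2.mod_deriv hc,
    fun k hk => ItemA2.mod_idx_mul hc hk⟩

/-- A3: constants. -/
theorem prfA3 : claimA3 := by
  intro ι Lam I mu k hL ⟨n, hn⟩
  refine ⟨fun i => contDiff_const, fun d => ⟨n, fun i t ht => ?_⟩⟩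
  rw [iteratedDeriv_const]
  split_ifs with h
  · exact hn i t ht
  · rw [abs_zero]
    exact (abs_nonneg _).trans (hn i t ht)

end Pool.Agent.Work.MP_b0497c_an.Forced.W

end

section

set_option autoImplicit false

open scoped ContDiff
open Set

namespace Pool.Agent.Work.MP_b0497c_an.Forced.W

theorem prfC2 : claimC2 := by
  intro ι c psi g f v hc hpsi hg hf i z
  rw [dd_apply]
  have hfi : f.1 i = fun z : Z => c i z.1 * psi z.2.1 * g z.2.2 := by
    funext z
    exact hf i z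
  rw [hfi]
  have h1 : HasFDerivAt (fun z : Z => c i z.1)
      ((fderiv ℝ (c i) z.1).comp (ContinuousLinearMap.fst ℝ ℝ (V3 × ℝ))) z := by
    have h := (((hc i).differentiable (by simp)) z.1).hasFDerivAt
    exact h.comp z (hasFDerivAt_fst (𝕜 := ℝ) (p := z))
  have h2 : HasFDerivAt (fun z : Z => psi z.2.1)
      ((fderiv ℝ psi z.2.1).comp ((ContinuousLinearMap.fst ℝ V3 ℝ).comp
        (ContinuousLinearMap.snd ℝ ℝ (V3 × ℝ)))) z := by
    have h := ((hpsi.differentiable (by simp)) z.2.1).hasFDerivAt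
    have h' : HasFDerivAt (fun z : Z => z.2.1) ((ContinuousLinearMap.fst ℝ V3 ℝ).comp
        (ContinuousLinearMap.snd ℝ ℝ (V3 × ℝ))) z :=
      ((ContinuousLinearMap.fst ℝ V3 ℝ).comp
        (ContinuousLinearMap.snd ℝ ℝ (V3 × ℝ))).hasFDerivAt
    exact HasFDerivAt.comp z h h'
  have h3 : HasFDerivAt (fun z : Z => g z.2.2)
      ((fderiv ℝ g z.2.2).comp ((ContinuousLinearMap.snd ℝ V3 ℝ).comp
        (ContinuousLinearMap.snd ℝ ℝ (V3 × ℝ)))) z := by
    have h := ((hg.differentiable (by simp)) z.2.2).hasFDerivAt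
    have h' : HasFDerivAt (fun z : Z => z.2.2) ((ContinuousLinearMap.snd ℝ V3 ℝ).comp
        (ContinuousLinearMap.snd ℝ ℝ (V3 × ℝ))) z :=
      ((ContinuousLinearMap.snd ℝ V3 ℝ).comp
        (ContinuousLinearMap.snd ℝ ℝ (V3 × ℝ))).hasFDerivAt
    exact HasFDerivAt.comp z h h'
  have h4 := (h1.mul h2).mul h3
  have h5 : fderiv ℝ (fun z : Z => c i z.1 * psi z.2.1 * g z.2.2) z = _ := h4.fderiv
  rw [h5]
  have e1 : fderiv ℝ (c i) z.1 (v i).1 = (v i).1 * deriv (c i) z.1 := by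
    rw [fderiv_eq_smul_deriv, smul_eq_mul]
  have e3 : fderiv ℝ g z.2.2 (v i).2.2 = (v i).2.2 * deriv g z.2.2 := by
    rw [fderiv_eq_smul_deriv, smul_eq_mul]
  simp only [add_apply, smul_apply, Pi.mul_apply,
    ContinuousLinearMap.comp_apply,
    ContinuousLinearMap.coe_fst', ContinuousLinearMap.coe_snd', smul_eq_mul, e1, e3]
  ring

end Pool.Agent.Work.MP_b0497c_an.Forced.W

end

section

set_option autoImplicit false

/-!
# WKB module, item I3: profiles have bounded derivatives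
-/

open scoped ContDiff
open Set

namespace Pool.Agent.Work.MP_b0497c_an.Forced.W

namespace I3

theorem pb {psi : V3 → ℝ} (h : Pb psi) (m : ℕ) : ∃ C : ℝ, ∀ x,
    ‖iteratedFDeriv ℝ m psi x‖ ≤ C := by
  obtain ⟨hs, hz⟩ := h
  have hc : HasCompactSupport psi := by
    refine HasCompactSupport.intro (isCompact_closedBall (0 : V3) 1) ?_
    intro x hx
    apply hz
    rw [Metric.mem_closedBall, dist_zero_right, not_le] at hx
    exact hx.le
  have hcont : Continuous (iteratedFDeriv ℝ m psi) :=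
    hs.continuous_iteratedFDeriv (by exact_mod_cast le_top)
  exact hcont.bounded_above_of_compact_support (hc.iteratedFDeriv m)

theorem per {g : ℝ → ℝ} (hg : ∀ x, g (x + 1) = g x) (m : ℕ) (x : ℝ) :
    iteratedFDeriv ℝ m g (x + 1) = iteratedFDeriv ℝ m g x := by
  have h := iteratedFDeriv_comp_add_right (𝕜 := ℝ) (f := g) m (1 : ℝ) x
  rw [← h]
  congr 1
  funext y
  exact hg y

theorem qp {g : ℝ → ℝ} (hs : ContDiff ℝ ∞ g) (hg : ∀ x, g (x + 1) = g x) (m : ℕ) :
    ∃ C : ℝ, ∀ x, ‖iteratedFDeriv ℝ m g x‖ ≤ C := by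
  have hcont : Continuous (fun x => ‖iteratedFDeriv ℝ m g x‖) :=
    (hs.continuous_iteratedFDeriv (by exact_mod_cast le_top)).norm
  have hper : Function.Periodic (fun x => ‖iteratedFDeriv ℝ m g x‖) (1 : ℝ) := by
    intro x
    show ‖iteratedFDeriv ℝ m g (x + 1)‖ = ‖iteratedFDeriv ℝ m g x‖
    rw [per hg m x]
  obtain ⟨C, hC⟩ := (isCompact_Icc (a := (0 : ℝ)) (b := 1)).exists_bound_of_continuousOn
    hcont.continuousOn
  refine ⟨C, fun x => ?_⟩
  obtain ⟨y, hy, hxy⟩ := hper.exists_mem_Ico₀ one_pos x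
  have h1 := hC y ⟨hy.1, hy.2.le⟩
  rw [norm_norm] at h1
  have h2 : ‖iteratedFDeriv ℝ m g x‖ = ‖iteratedFDeriv ℝ m g y‖ := hxy
  rw [h2]
  exact h1

end I3

theorem prfI3 : claimI3 := by
  refine ⟨fun psi h m => I3.pb h m, fun g h m => I3.qp h.1 (fun x => ?_) m⟩
  exact h.2 x

end Pool.Agent.Work.MP_b0497c_an.Forced.W

end

section

set_option autoImplicit false

open scoped ContDiff
open Set

namespace Pool.Agent.Work.MP_b0497c_an.Forced.W

namespace I6

theorem comp_apply {E : Type} [NormedAddCommGroup E] [NormedSpace ℝ E] (f : E → V3)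
    (hf : ContDiff ℝ ∞ f) (m : ℕ) (z : E) (v : Fin m → E) (k : Fin 3) :
    iteratedFDeriv ℝ m f z v k = iteratedFDeriv ℝ m (fun w => f w k) z v := by
  have h := ContinuousLinearMap.iteratedFDeriv_comp_left
    (ContinuousLinearMap.proj (R := ℝ) (φ := fun _ : Fin 3 => ℝ) k)
    (hf.contDiffAt (x := z)) (i := m) (by exact_mod_cast le_top)
  have h2 : (fun w => f w k) = (ContinuousLinearMap.proj (R := ℝ) (φ := fun _ : Fin 3 => ℝ) k) ∘ f := by
    funext w; rfl
  rw [h2, h]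
  rfl

end I6

theorem prfI6 : claimI6 := by
  intro ι E _ _ Lam Om N mu f hLam hN hmu hf
  have hsm : ∀ i, ContDiff ℝ ∞ (f i) := fun i => contDiff_pi.mpr fun k => (hf k).1 i
  refine ⟨hsm, fun m => ?_⟩
  choose n hn using fun k => (hf k).2 m
  refine ⟨n 0 + n 1 + n 2, fun i z hz => ?_⟩
  have hL1 : 1 ≤ Lam i := by linarith [hLam i]
  have hR : 0 ≤ N i ^ m * mu i := mul_nonneg (pow_nonneg (hN i) m) (hmu i)
  have hle : ∀ k : Fin 3, n k ≤ n 0 + n 1 + n 2 := by
    intro k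
    fin_cases k <;> simp <;> omega
  have hk : ∀ k : Fin 3, ‖iteratedFDeriv ℝ m (fun w => f i w k) z‖
      ≤ Lam i ^ (n 0 + n 1 + n 2) * N i ^ m * mu i := by
    intro k
    refine (hn k i z hz).trans ?_
    rw [mul_assoc, mul_assoc]
    exact mul_le_mul_of_nonneg_right (pow_le_pow_right₀ hL1 (hle k)) hR
  have hC : 0 ≤ Lam i ^ (n 0 + n 1 + n 2) * N i ^ m * mu i := (norm_nonneg _).trans (hk 0)
  refine ContinuousMultilinearMap.opNorm_le_bound hC fun v => ?_
  have hprod : 0 ≤ ∏ j, ‖v j‖ := Finset.prod_nonneg fun j _ => norm_nonneg _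
  refine (pi_norm_le_iff_of_nonneg (mul_nonneg hC hprod)).mpr fun k => ?_
  rw [I6.comp_apply (f i) (hsm i) m z v k]
  exact (ContinuousMultilinearMap.le_opNorm _ v).trans
    (mul_le_mul_of_nonneg_right (hk k) hprod)

end Pool.Agent.Work.MP_b0497c_an.Forced.W

end

section

set_option autoImplicit false

/-!
# WKB module: item D8, switching on
-/

open scoped ContDiff Matrix
open Set

namespace Pool.Agent.Work.MP_b0497c_an.Forced.W

namespace D8

variable {ι : Type}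

theorem Pb_mul (f g : V3 → ℝ) (hf : Pb f) (hg : Pb g) : Pb (fun y => f y * g y) :=
  ⟨hf.1.mul hg.1, fun y hy => by
    show f y * g y = 0
    rw [hf.2 y hy, zero_mul]⟩

theorem Qp_mul (f g : ℝ → ℝ) (hf : Qp f) (hg : Qp g) : Qp (fun y => f y * g y) :=
  ⟨hf.1.mul hg.1, fun y => by
    show f (y + 1) * g (y + 1) = f y * g y
    rw [hf.2 y, hg.2 y]⟩

theorem cf_apply (c : ι → ℝ → ℝ) (hc : ∀ i, ContDiff ℝ ∞ (c i)) (i : ι) (z : Z) :
    (cf c hc).1 i z = c i z.1 := rfl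

theorem fderiv_cf (c : ι → ℝ → ℝ) (hc : ∀ i, ContDiff ℝ ∞ (c i)) (i : ι) (z v : Z) :
    fderiv ℝ ((cf c hc).1 i) z v = v.1 * deriv (c i) z.1 := by
  have h1 : HasDerivAt (c i) (deriv (c i) z.1) z.1 :=
    ((hc i).differentiable (by simp) z.1).hasDerivAt
  have h2 : HasFDerivAt (fun z : Z => z.1) (ContinuousLinearMap.fst ℝ ℝ (V3 × ℝ)) z :=
    hasFDerivAt_fst
  have h3 : HasFDerivAt ((cf c hc).1 i)
      (deriv (c i) z.1 • ContinuousLinearMap.fst ℝ ℝ (V3 × ℝ)) z :=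
    h1.comp_hasFDerivAt z h2
  rw [h3.fderiv]
  show deriv (c i) z.1 * v.1 = _
  ring

theorem D_cf (S : Data ι) (c : ι → ℝ → ℝ) (hc : ∀ i, ContDiff ℝ ∞ (c i)) (k : Fin 3) :
    S.D k (cf c hc) = 0 := by
  apply Subtype.ext
  funext i z
  show fderiv ℝ ((cf c hc).1 i) z (0, Pi.single k 1, S.N i * S.kap i k) = 0
  rw [fderiv_cf]
  simp

theorem dt_cf (c : ι → ℝ → ℝ) (hc : ∀ i, ContDiff ℝ ∞ (c i))
    (hc' : ∀ i, ContDiff ℝ ∞ (fun t => deriv (c i) t)) :
    dt (cf c hc) = cf (fun i t => deriv (c i) t) hc' := by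
  apply Subtype.ext
  funext i z
  show fderiv ℝ ((cf c hc).1 i) z (1, 0, 0) = deriv (c i) z.1
  rw [fderiv_cf]
  simp

section weights

variable (S : Data ι) (i : ι) (t : ℝ) (ht : t ∈ S.I i)

theorem N_pos : 0 < S.N i := by
  have h1 := S.a_nonneg i
  have h2 := S.a_le i
  linarith

theorem one_le_N : 1 ≤ S.N i := by
  have h1 := S.a_nonneg i
  have h2 := S.a_le i
  linarith

theorem eps_nonneg : 0 ≤ (1 + S.a i) / S.N i := by
  have h1 := S.a_nonneg i
  have h2 := N_pos S i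
  positivity

theorem eps_le : (1 + S.a i) / S.N i ≤ 1 := by
  rw [div_le_one (N_pos S i)]
  exact S.a_le i

include ht in
theorem Np_le : (S.N i)⁻¹ * S.p i t ≤ 1 := by
  rw [inv_mul_le_iff₀ (N_pos S i)]
  have h1 := S.a_nonneg i
  have h2 := S.a_le i
  have h3 := S.p_le i t ht
  linarith

theorem Np_nonneg : 0 ≤ (S.N i)⁻¹ * S.p i t :=
  mul_nonneg (inv_nonneg.mpr (N_pos S i).le) (S.p_nonneg i t)

include ht in
theorem w0 : 1 * wt S.N S.a S.p 0 i t ≤ 1 := by
  unfold wt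
  rw [pow_zero, one_mul, one_mul]
  exact Np_le S i t ht

include ht in
theorem w1 : 1 * wt S.N S.a S.p 1 i t ≤ (1 + S.a i) ^ 2 * (S.N i ^ 2)⁻¹ := by
  unfold wt
  have h1 := S.a_nonneg i
  have h3 := S.p_le i t ht
  have h4 := N_pos S i
  have h5 : (S.N i)⁻¹ * S.p i t ≤ (S.N i)⁻¹ * (1 + S.a i) :=
    mul_le_mul_of_nonneg_left (by linarith) (inv_nonneg.mpr h4.le)
  calc 1 * (((1 + S.a i) / S.N i) ^ 1 * (S.N i)⁻¹ * S.p i t)
      = ((1 + S.a i) / S.N i) * ((S.N i)⁻¹ * S.p i t) := by ring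
    _ ≤ ((1 + S.a i) / S.N i) * ((S.N i)⁻¹ * (1 + S.a i)) :=
        mul_le_mul_of_nonneg_left h5 (eps_nonneg S i)
    _ = (1 + S.a i) ^ 2 * (S.N i ^ 2)⁻¹ := by
        field_simp

include ht in
theorem wJ (J : ℕ) : wt S.N S.a S.p (J + 1) i t ≤ ((1 + S.a i) / S.N i) ^ J := by
  unfold wt
  have h1 := eps_nonneg S i
  have h2 := eps_le S i
  have h3 := Np_le S i t ht
  have h4 := Np_nonneg S i t
  calc ((1 + S.a i) / S.N i) ^ (J + 1) * (S.N i)⁻¹ * S.p i t
      = ((1 + S.a i) / S.N i) ^ J * (((1 + S.a i) / S.N i) * ((S.N i)⁻¹ * S.p i t)) := by ring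
    _ ≤ ((1 + S.a i) / S.N i) ^ J * 1 := by
        refine mul_le_mul_of_nonneg_left ?_ (by positivity)
        exact mul_le_one₀ h2 h4 h3
    _ = _ := mul_one _

theorem wb (b : ℝ) (hb : S.p i t ≤ b) : wt S.N S.a S.p 0 i t ≤ b ∧ wt S.N S.a S.p 1 i t ≤ b := by
  have h1 := eps_nonneg S i
  have h2 := eps_le S i
  have h4 := Np_nonneg S i t
  have h5 : (S.N i)⁻¹ ≤ 1 := inv_le_one_of_one_le₀ (one_le_N S i)
  have h6 : (S.N i)⁻¹ * S.p i t ≤ b :=
    (mul_le_of_le_one_left (S.p_nonneg i t) h5).trans hb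
  unfold wt
  refine ⟨by rw [pow_zero, one_mul]; exact h6, ?_⟩
  rw [pow_one, mul_assoc]
  exact (mul_le_of_le_one_left h4 h2).trans h6

end weights

end D8

theorem prfD8 (_hA1 : claimA1) (_hA2 : claimA2) (hB3 : claimB3) (hB4 : claimB4) (_hB5 : claimB5)
    (hB7 : claimB7) (hD1 : claimD1) (hD2 : claimD2) (hD6 : claimD6) : claimD8 := by
  intro ι S J h b sig eta V q s m o e1 e2 e3 e4 e5 e6 e7 e8 e9 hb hpb meta1 meta2 meta3
  obtain ⟨d1, -, -⟩ := hD1 ι S
  obtain ⟨c1, c2, c3, c4, c5, c6, c7, c8, c9⟩ := hD2 ι S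
  obtain ⟨f1, f2, -⟩ := hD6 ι S V V q q s e4 c9 d1
  set et : Sm ι := cf eta meta1.1 with het
  set et' : Sm ι := cf (fun i t => deriv (eta i) t) meta2.1 with het'
  have hDet : ∀ k, S.D k et = 0 := fun k => D8.D_cf S eta meta1.1 k
  have hdt : dt et = et' := D8.dt_cf eta meta1.1 meta2.1
  set et2 : Sm ι := cf (fun i t => eta i t * eta i t - eta i t) meta3.1 with het2
  have hsq : et2 = et * et - et := by
    apply Subtype.ext
    funext i z
    rfl
  have hw : ∀ i, ∀ t ∈ S.I i, ∀ j l : ℕ, wt S.N S.a S.p j i t * wt S.N S.a S.p l i t ≤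
      wt S.N S.a S.p (j + l + 1) i t := fun i t ht j l =>
    (hB7 ι S.I S.N S.a S.p S.a_nonneg S.a_le S.p_nonneg S.p_le i t ht j l).1
  -- the quadratic term
  have hquad : ∀ a, ∑ b, S.Gs a b * ∑ k, V k * S.D k (V b) ∈ S.O 1 := by
    intro a
    refine (S.O 1).sum_mem fun b _ => ?_
    refine ((c6 1 _ ?_).2.2 a b).1
    rw [f1]
    have hprod : ∀ f g, f ∈ S.O 0 → g ∈ S.O 0 → f * g ∈ S.O 1 := by
      intro f g hf hg
      exact hB3 ι S.Lam S.I (wt S.N S.a S.p 0) (wt S.N S.a S.p 0) (wt S.N S.a S.p 1) Pb Pb Pb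
        Qp Qp Qp f g S.two_le_Lam D8.Pb_mul D8.Qp_mul (fun i t ht => hw i t ht 0 0) hf hg
    refine (S.O 1).add_mem ((S.O 1).sum_mem fun k _ => ?_) ?_
    · exact hprod _ _ (e1 k) ((c4 0 _ (e1 b)).2.2 k)
    · exact hprod _ _ e3 (c4 0 _ (e1 b)).2.1
  have hlin : ∀ a, ∑ b, S.Gs a b * V b ∈ S.O 0 := fun a =>
    (S.O 0).sum_mem fun b _ => ((c6 0 _ (e1 b)).2.2 a b).1
  -- coefficient times symbol of the class `O 0`
  have hmul0 : ∀ f ∈ S.O 0, et * f ∈ Sym S.Lam S.I (fun _ _ => 1) Pb Qp := by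
    intro f hf
    exact (hB4 ι S.Lam S.I (wt S.N S.a S.p 0) (fun _ _ => 1) (fun _ _ => 1) Pb Pb Qp Qp f
      S.two_le_Lam (fun _ hx => hx) (fun _ hx => hx) hf).2 eta et meta1 (fun i z => rfl)
      (fun i t ht => D8.w0 S i t ht)
  refine ⟨fun k => et * V k, et * q, fun a => et * m a,
    fun a => et * o a + et' * ∑ b, S.Gs a b * V b +
      et2 * ∑ b, S.Gs a b * ∑ k, V k * S.D k (V b), ?_, ?_, ?_, ?_, ?_, ?_, ?_, ?_⟩
  · exact fun k => hmul0 _ (e1 k)
  · exact hmul0 _ e2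
  · have : ∀ k, S.D k (et * V k) = et * S.D k (V k) := by
      intro k
      rw [Derivation.leibniz, hDet, smul_zero, add_zero, smul_eq_mul]
    rw [Finset.sum_congr rfl fun k _ => this k, ← Finset.mul_sum, e5, mul_zero]
  · intro a
    exact (hB4 ι S.Lam S.I (wt S.N S.a S.p 1) (fun _ _ => 1)
      (fun i _ => (1 + S.a i) ^ 2 * (S.N i ^ 2)⁻¹) Pf Pb Q1 Q1 (m a)
      S.two_le_Lam (fun _ hx => hx.1) (fun _ hx => hx) (e6 a)).2 eta et meta1 (fun i z => rfl)
      (fun i t ht => D8.w1 S i t ht)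
  · intro a
    refine Submodule.add_mem _ (Submodule.add_mem _ ?_ ?_) ?_
    · refine (hB4 ι S.Lam S.I (wt S.N S.a S.p (J + 1)) (fun _ _ => 1)
        (fun i _ => b i + ((1 + S.a i) / S.N i) ^ J) Pf Pb Qz Qp (o a)
        S.two_le_Lam (fun _ hx => hx.1) (fun _ hx => hx.1) (e7 a)).2 eta et meta1
        (fun i z => rfl) (fun i t ht => ?_)
      have h1 := D8.wJ S i t ht J
      have h2 := hb i
      linarith
    · refine (hB4 ι S.Lam S.I (wt S.N S.a S.p 0) (fun i t => if t ≤ sig i then 1 else 0)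
        (fun i _ => b i + ((1 + S.a i) / S.N i) ^ J) Pb Pb Qp Qp _
        S.two_le_Lam (fun _ hx => hx) (fun _ hx => hx) (hlin a)).2 _ et' meta2
        (fun i z => rfl) (fun i t ht => ?_)
      have h3 : 0 ≤ ((1 + S.a i) / S.N i) ^ J := pow_nonneg (D8.eps_nonneg S i) J
      have h2 := hb i
      split_ifs with hts
      · have h4 := (D8.wb S i t (b i) (hpb i t ht hts)).1
        linarith
      · linarith
    · refine (hB4 ι S.Lam S.I (wt S.N S.a S.p 1) (fun i t => if t ≤ sig i then 1 else 0)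
        (fun i _ => b i + ((1 + S.a i) / S.N i) ^ J) Pb Pb Qp Qp _
        S.two_le_Lam (fun _ hx => hx) (fun _ hx => hx) (hquad a)).2 _ et2 meta3
        (fun i z => rfl) (fun i t ht => ?_)
      have h3 : 0 ≤ ((1 + S.a i) / S.N i) ^ J := pow_nonneg (D8.eps_nonneg S i) J
      have h2 := hb i
      split_ifs with hts
      · have h4 := (D8.wb S i t (b i) (hpb i t ht hts)).2
        linarith
      · linarith
  · intro a
    have h1 := e8 a
    rw [f2 a] at h1
    unfold Data.L LL at h1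
    unfold Data.E EE
    have k1 : ∀ b, dt (et * V b) = et * dt (V b) + V b * et' := by
      intro b
      rw [Derivation.leibniz, hdt, smul_eq_mul, smul_eq_mul]
    have k2 : ∀ k (f : Sm ι), S.D k (et * f) = et * S.D k f := by
      intro k f
      rw [Derivation.leibniz, hDet, smul_zero, add_zero, smul_eq_mul]
    simp only [k1, k2, hsq]
    simp only [Fin.sum_univ_three] at h1 ⊢
    linear_combination et * h1
  · intro i t z h0 hz
    refine ⟨fun k => ?_, ?_⟩
    · show eta i z.1 * (V k).1 i z = 0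
      rw [hz, h0, zero_mul]
    · show eta i z.1 * q.1 i z = 0
      rw [hz, h0, zero_mul]
  · intro k i z hz
    show eta i z.1 * (V k).1 i z = _
    rw [e9 k i z hz]

end Pool.Agent.Work.MP_b0497c_an.Forced.W

end

section

set_option autoImplicit false

open scoped ContDiff Matrix
open Set

namespace Pool.Agent.Work.MP_b0497c_an.Forced.W

namespace R3

variable {ι : Type} (S : Lev ι)

theorem K_eq (i : ι) (t : ℝ) : S.K i t = (S.Fi i t)ᵀ *ᵥ S.kap i := by
  rw [← S.K_kap i t, Matrix.mulVec_mulVec, ← Matrix.transpose_mul, S.F_Fi i t,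
    Matrix.transpose_one, Matrix.one_mulVec]

theorem Fi_smooth (i : ι) (j k : Fin 3) : ContDiff ℝ ∞ (fun t => S.Fi i t j k) :=
  (S.mod_Fi j k).1 i

theorem K_smooth (i : ι) (j : Fin 3) : ContDiff ℝ ∞ (fun t => S.K i t j) := by
  have h : (fun t => S.K i t j) = fun t => ∑ k, S.Fi i t k j * S.kap i k := by
    funext t
    rw [K_eq S i t]
    rfl
  rw [h]
  exact ContDiff.sum fun k _ => (Fi_smooth S i k j).mul contDiff_const

theorem FiX_smooth (i : ι) :
    ContDiff ℝ ∞ (fun z : ℝ × V3 => S.Fi i z.1 *ᵥ z.2) := by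
  rw [contDiff_pi]
  intro j
  have h : (fun z : ℝ × V3 => (S.Fi i z.1 *ᵥ z.2) j) =
      fun z : ℝ × V3 => ∑ k, S.Fi i z.1 j k * z.2 k := by
    funext z
    rfl
  rw [h]
  refine ContDiff.sum fun k _ => ?_
  refine ((Fi_smooth S i j k).comp contDiff_fst).mul ?_
  exact (contDiff_apply ℝ ℝ k).comp contDiff_snd

theorem Phi_smooth (i : ι) : ContDiff ℝ ∞ (Phi S i) := by
  have h3 : ContDiff ℝ ∞ (fun z : ℝ × V3 => S.Nf i * (S.K i z.1 ⬝ᵥ z.2)) := by
    have h : (fun z : ℝ × V3 => S.Nf i * (S.K i z.1 ⬝ᵥ z.2)) =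
        fun z : ℝ × V3 => S.Nf i * ∑ k, S.K i z.1 k * z.2 k := by
      funext z
      rfl
    rw [h]
    refine contDiff_const.mul (ContDiff.sum fun k _ => ?_)
    refine ((K_smooth S i k).comp contDiff_fst).mul ?_
    exact (contDiff_apply ℝ ℝ k).comp contDiff_snd
  exact contDiff_fst.prodMk (((FiX_smooth S i).const_smul _).prodMk h3)

theorem outside (i : ι) (t : ℝ) (ht : t ∈ S.I i) (x : V3) (hx : S.R i < ‖x‖) :
    S.rho i < ‖S.Fi i t *ᵥ x‖ := by
  by_contra hcon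
  have h1 := S.F_ball i t ht (S.Fi i t *ᵥ x) (not_lt.mp hcon)
  rw [Matrix.mulVec_mulVec, S.F_Fi i t, Matrix.one_mulVec] at h1
  exact absurd h1 (not_le.mpr hx)

theorem vanish (mu : ι → ℝ → ℝ) (Q : (ℝ → ℝ) → Prop) (f : Sm ι)
    (hf : f ∈ Sym S.Lam S.I mu Pb Q) (i : ι) (t : ℝ) (x : V3)
    (h : S.rho i ≤ ‖S.Fi i t *ᵥ x‖) : f.1 i (Phi S i (t, x)) = 0 := by
  have hy : 1 ≤ ‖(S.rho i)⁻¹ • (S.Fi i t *ᵥ x)‖ := by
    rw [norm_smul, Real.norm_eq_abs, abs_of_pos (inv_pos.mpr (S.rho_pos i))]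
    have := S.rho_pos i
    rw [inv_mul_eq_div, le_div_iff₀ this, one_mul]
    exact h
  unfold Sym at hf
  induction hf using Submodule.span_induction with
  | mem g hg =>
    obtain ⟨c, psi, q, _, hpsi, _, hfe⟩ := hg
    rw [hfe]
    have : psi (Phi S i (t, x)).2.1 = 0 := hpsi.2 _ hy
    rw [this]
    ring
  | zero => rfl
  | add a b _ _ ha hb =>
    show a.1 i _ + b.1 i _ = 0
    rw [ha, hb, add_zero]
  | smul r a _ ha =>
    show r * a.1 i _ = 0
    rw [ha, mul_zero]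

end R3

theorem prfR3 : claimR3 := by
  intro ι S mu Q f hf
  refine ⟨fun i => (f.2 i).comp (R3.Phi_smooth S i), fun i t x h => R3.vanish S mu Q f hf i t x h,
    fun i t ht x hx => R3.outside S i t ht x hx, fun i t ht x hx => ?_⟩
  have h := R3.outside S i t ht x hx
  have hc : Continuous (fun z : ℝ × V3 => ‖S.Fi i z.1 *ᵥ z.2‖) :=
    (R3.FiX_smooth S i).continuous.norm
  exact (hc.tendsto (t, x)).eventually (lt_mem_nhds h)

end Pool.Agent.Work.MP_b0497c_an.Forced.W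

end
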