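import Pool.Agent.Work.MP_b0497c_an.Forced.W.StmtsA
import Pool.Agent.Work.MP_b0497c_an.Forced.W.StmtsB
import Pool.Agent.Work.MP_b0497c_an.Bd.B01

/-! Bundle of small proof modules (one section per former module). -/

section

set_option autoImplicit false

open scoped ContDiff
open Set

namespace Pool.Agent.Work.MP_b0497c_an.Forced.W

namespace B1

theorem smooth_fd {f : V3 → ℝ} (hf : ContDiff ℝ ∞ f) (v : V3) :
    ContDiff ℝ ∞ (fun y => fderiv ℝ f y v) := by
  have h1 : ContDiff ℝ ∞ (fderiv ℝ f) := hf.fderiv_right (m := ∞) (by simp)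
  exact h1.clm_apply contDiff_const

/-- a function which is constant on an open set has zero derivative there -/
theorem fd_zero {f : V3 → ℝ} {U : Set V3} (hU : IsOpen U) {c : ℝ} (h : ∀ y ∈ U, f y = c)
    {y : V3} (hy : y ∈ U) : fderiv ℝ f y = 0 := by
  have h1 : f =ᶠ[nhds y] fun _ => c := by
    filter_upwards [hU.mem_nhds hy] with z hz using h z hz
  rw [h1.fderiv_eq, fderiv_fun_const]
  rfl

theorem fd_zero_out {f : V3 → ℝ} (hf : Pb f) {y : V3} (hy : 1 ≤ ‖y‖) : fderiv ℝ f y = 0 := by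
  have hc : Continuous (fderiv ℝ f) := hf.1.continuous_fderiv (by simp)
  have hcl : IsClosed {z : V3 | fderiv ℝ f z = 0} := isClosed_eq hc continuous_const
  have hsub : (Metric.closedBall (0 : V3) 1)ᶜ ⊆ {z : V3 | fderiv ℝ f z = 0} := by
    intro z hz
    refine fd_zero (U := (Metric.closedBall (0 : V3) 1)ᶜ) (c := 0)
      Metric.isClosed_closedBall.isOpen_compl ?_ hz
    intro w hw
    apply hf.2
    rw [mem_compl_iff, mem_closedBall_zero_iff, not_le] at hw
    exact hw.le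
  have h2 := closure_minimal hsub hcl
  apply h2
  rw [closure_compl, interior_closedBall _ one_ne_zero, mem_compl_iff, mem_ball_zero_iff, not_lt]
  exact hy

theorem pb_fd {f : V3 → ℝ} (hf : Pb f) (v : V3) : Pb (fun y => fderiv ℝ f y v) := by
  refine ⟨smooth_fd hf.1 v, ?_⟩
  intro y hy
  show fderiv ℝ f y v = 0
  rw [fd_zero_out hf hy]
  rfl

theorem fd_zero_in {f : V3 → ℝ} {c : ℝ} (h : ∀ y : V3, ‖y‖ < 1 / 2 → f y = c) {y : V3}
    (hy : ‖y‖ < 1 / 2) : fderiv ℝ f y = 0 := by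
  refine fd_zero (U := Metric.ball (0 : V3) (1 / 2)) (c := c) Metric.isOpen_ball ?_ ?_
  · intro z hz
    exact h z (mem_ball_zero_iff.1 hz)
  · exact mem_ball_zero_iff.2 hy

end B1

theorem prfB1 : claimB1 := by
  refine ⟨?_, ?_, ?_, ?_, ?_⟩
  · intro f g hf hg
    refine ⟨hf.1.mul hg.1, fun y hy => ?_⟩
    show f y * g y = 0
    rw [hf.2 y hy, zero_mul]
  · intro f g hf hg
    refine ⟨⟨hf.1.mul hg.1.1, fun y hy => ?_⟩, fun y hy => ?_⟩
    · show f y * g y = 0
      rw [hf.2 y hy, zero_mul]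
    · show f y * g y = 0
      rw [hg.2 y hy, mul_zero]
  · intro f k hf
    exact B1.pb_fd hf _
  · intro f k hf
    refine ⟨B1.pb_fd hf.1 _, fun y hy => ?_⟩
    show fderiv ℝ f y (Pi.single k 1) = 0
    rw [B1.fd_zero_in hf.2 hy]
    rfl
  · intro f k hf h1
    refine ⟨B1.pb_fd hf _, fun y hy => ?_⟩
    show fderiv ℝ f y (Pi.single k 1) = 0
    rw [B1.fd_zero_in h1 hy]
    rfl

end Pool.Agent.Work.MP_b0497c_an.Forced.W

end

section

set_option autoImplicit false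

open scoped ContDiff
open Set

namespace Pool.Agent.Work.MP_b0497c_an.Forced.W

namespace B2

theorem qp_mul (f g : ℝ → ℝ) (hf : Qp f) (hg : Qp g) : Qp (fun y => f y * g y) := by
  refine ⟨hf.1.mul hg.1, fun θ => ?_⟩
  show f (θ + 1) * g (θ + 1) = f θ * g θ
  rw [hf.2, hg.2]

theorem qp_deriv (f : ℝ → ℝ) (hf : Qp f) : Qp (deriv f) := by
  refine ⟨(contDiff_infty_iff_deriv.mp hf.1).2, fun θ => ?_⟩
  rw [← deriv_comp_add_const f 1 θ]
  congr 1
  funext x
  exact hf.2 x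

theorem qz_deriv (f : ℝ → ℝ) (hf : Qp f) : Qz (deriv f) := by
  refine ⟨qp_deriv f hf, ?_⟩
  have hc : Continuous (deriv f) := (qp_deriv f hf).1.continuous
  rw [intervalIntegral.integral_deriv_eq_sub (fun x _ => (hf.1.differentiable (by simp)) x)
    (hc.intervalIntegrable _ _)]
  have h := hf.2 0
  rw [zero_add] at h
  rw [h, sub_self]

theorem qz_sub_mean (f : ℝ → ℝ) (hf : Qp f) :
    Qz (fun x => f x - ∫ θ in (0 : ℝ)..1, f θ) := by
  refine ⟨⟨hf.1.sub contDiff_const, fun θ => ?_⟩, ?_⟩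
  · show f (θ + 1) - _ = f θ - _
    rw [hf.2]
  · rw [intervalIntegral.integral_sub (hf.1.continuous.intervalIntegrable _ _)
      (continuous_const.intervalIntegrable _ _), intervalIntegral.integral_const]
    simp

theorem hasDeriv_prim (f : ℝ → ℝ) (hf : Continuous f) (C : ℝ) (x : ℝ) :
    HasDerivAt (fun x => (∫ t in (0 : ℝ)..x, f t) - C) (f x) x :=
  (hf.integral_hasStrictDerivAt 0 x).hasDerivAt.sub_const C

theorem prim (f : ℝ → ℝ) (hf : Qz f) : ∃ g : ℝ → ℝ, Qz g ∧ deriv g = f := by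
  have hfc : Continuous f := hf.1.1.continuous
  -- the primitive starting at `0`
  have hper : ∀ x : ℝ, (∫ t in (0 : ℝ)..(x + 1), f t) = ∫ t in (0 : ℝ)..x, f t := by
    intro x
    have hP : Function.Periodic f 1 := hf.1.2
    have h1 : (∫ t in x..(x + 1), f t) = ∫ t in (0 : ℝ)..(0 + 1), f t :=
      hP.intervalIntegral_add_eq x 0
    rw [zero_add, hf.2] at h1
    rw [← intervalIntegral.integral_add_adjacent_intervals
      (hfc.intervalIntegrable 0 x) (hfc.intervalIntegrable x (x + 1)), h1, add_zero]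
  have hcd : ∀ C : ℝ, ContDiff ℝ ∞ (fun x => (∫ t in (0 : ℝ)..x, f t) - C) := by
    intro C
    rw [contDiff_infty_iff_deriv]
    refine ⟨fun x => (hasDeriv_prim f hfc C x).differentiableAt, ?_⟩
    have : deriv (fun x => (∫ t in (0 : ℝ)..x, f t) - C) = f := by
      funext x
      exact (hasDeriv_prim f hfc C x).deriv
    rw [this]
    exact hf.1.1
  have hp : Qp (fun x => ∫ t in (0 : ℝ)..x, f t) := by
    refine ⟨?_, hper⟩
    have := hcd 0
    simpa using this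
  refine ⟨fun x => (∫ t in (0 : ℝ)..x, f t) - ∫ θ in (0 : ℝ)..1, ∫ t in (0 : ℝ)..θ, f t,
    qz_sub_mean _ hp, ?_⟩
  funext x
  exact (hasDeriv_prim f hfc _ x).deriv

end B2

theorem prfB2 : claimB2 :=
  ⟨B2.qp_mul, B2.qz_deriv, B2.qz_sub_mean, B2.prim⟩

end Pool.Agent.Work.MP_b0497c_an.Forced.W

end

section

set_option autoImplicit false

/-!
# WKB module: items B3, B4 (products of symbols, multiplication by a coefficient)
-/

open scoped ContDiff
open Set

namespace Pool.Agent.Work.MP_b0497c_an.Forced.W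

theorem prfB3 (hA1 : claimA1) (hA2 : claimA2) : claimB3 := by
  intro ι Lam I mu nu rho P P' P'' Q Q' Q'' f g hLam hP hQ hmn hf hg
  unfold Sym at hf hg ⊢
  induction hf using Submodule.span_induction with
  | zero =>
    rw [zero_mul]
    exact Submodule.zero_mem _
  | add x y _ _ ihx ihy =>
    rw [add_mul]
    exact Submodule.add_mem _ ihx ihy
  | smul a x _ ihx =>
    rw [smul_mul_assoc]
    exact Submodule.smul_mem _ a ihx
  | mem x hx =>
    obtain ⟨c, psi, h, hc, hpsi, hh, hx⟩ := hx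
    induction hg using Submodule.span_induction with
    | zero =>
      rw [mul_zero]
      exact Submodule.zero_mem _
    | add u v _ _ ihu ihv =>
      rw [mul_add]
      exact Submodule.add_mem _ ihu ihv
    | smul a u _ ihu =>
      rw [mul_smul_comm]
      exact Submodule.smul_mem _ a ihu
    | mem y hy =>
      obtain ⟨c', psi', h', hc', hpsi', hh', hy⟩ := hy
      have h1 := hA1 ι Lam I mu nu c c' hLam hc hc'
      have h2 := (hA2 ι Lam I _ _ hLam h1).2.2.1 rho hmn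
      refine Submodule.subset_span ⟨_, _, _, h2, hP psi psi' hpsi hpsi', hQ h h' hh hh', ?_⟩
      intro i z
      have h3 : (x * y).1 i z = x.1 i z * y.1 i z := rfl
      rw [h3, hx i z, hy i z]
      ring

theorem prfB4 (hA1 : claimA1) (hA2 : claimA2) : claimB4 := by
  intro ι Lam I mu nu rho P P' Q Q' g hLam hP hQ hg
  constructor
  · intro hmr
    unfold Sym at hg ⊢
    induction hg using Submodule.span_induction with
    | zero => exact Submodule.zero_mem _
    | add x y _ _ ihx ihy => exact Submodule.add_mem _ ihx ihy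
    | smul a x _ ihx => exact Submodule.smul_mem _ a ihx
    | mem x hx =>
      obtain ⟨c, psi, h, hc, hpsi, hh, hx⟩ := hx
      exact Submodule.subset_span ⟨c, psi, h, (hA2 ι Lam I _ _ hLam hc).2.2.1 rho hmr,
        hP psi hpsi, hQ h hh, hx⟩
  · intro c f hc hf hnm
    unfold Sym at hg ⊢
    induction hg using Submodule.span_induction with
    | zero =>
      rw [mul_zero]
      exact Submodule.zero_mem _
    | add x y _ _ ihx ihy =>
      rw [mul_add]
      exact Submodule.add_mem _ ihx ihy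
    | smul a x _ ihx =>
      rw [mul_smul_comm]
      exact Submodule.smul_mem _ a ihx
    | mem x hx =>
      obtain ⟨c', psi, h, hc', hpsi, hh, hx⟩ := hx
      have h1 := hA1 ι Lam I nu mu c c' hLam hc hc'
      have h2 := (hA2 ι Lam I _ _ hLam h1).2.2.1 rho hnm
      refine Submodule.subset_span ⟨_, _, _, h2, hP psi hpsi, hQ h hh, ?_⟩
      intro i z
      have h3 : (f * x).1 i z = f.1 i z * x.1 i z := rfl
      rw [h3, hf i z, hx i z]
      ring

end Pool.Agent.Work.MP_b0497c_an.Forced.W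

end

section

set_option autoImplicit false

/-!
# B5: derivatives of symbols

A derivation which maps atoms (products `c(t) ψ(y) g(θ)`) into a submodule maps all symbols
into it; on atoms the three partial derivatives are computed by C2.
-/

open scoped ContDiff
open Set

namespace Pool.Agent.Work.MP_b0497c_an.Forced.W

namespace B5

/-- A linear derivation is determined on symbols by its values on atoms. -/
theorem der_mem {ι : Type} (Lam : ι → ℝ) (I : ι → Set ℝ) (mu : ι → ℝ → ℝ)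
    (P : (V3 → ℝ) → Prop) (Q : (ℝ → ℝ) → Prop) (D : Derivation ℝ (Sm ι) (Sm ι))
    (T : Submodule ℝ (Sm ι))
    (h : ∀ (f : Sm ι) (c : ι → ℝ → ℝ) (psi : V3 → ℝ) (g : ℝ → ℝ),
      Mod Lam I mu c → P psi → Q g →
      (∀ i z, f.1 i z = c i z.1 * psi z.2.1 * g z.2.2) → D f ∈ T)
    (g : Sm ι) (hg : g ∈ Sym Lam I mu P Q) : D g ∈ T := by
  unfold Sym at hg
  induction hg using Submodule.span_induction with
  | mem x hx =>
    obtain ⟨c, psi, g', hc, hpsi, hg', hx'⟩ := hx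
    exact h x c psi g' hc hpsi hg' hx'
  | zero =>
    rw [map_zero]
    exact T.zero_mem
  | add x y _ _ hx hy =>
    rw [map_add]
    exact T.add_mem hx hy
  | smul a x _ hx =>
    have h1 : D (a • x) = a • D x := D.map_smul a x
    rw [h1]
    exact T.smul_mem a hx

/-- Atoms are symbols. -/
theorem atom_mem {ι : Type} (Lam : ι → ℝ) (I : ι → Set ℝ) (mu : ι → ℝ → ℝ)
    (P : (V3 → ℝ) → Prop) (Q : (ℝ → ℝ) → Prop) (f : Sm ι) (c : ι → ℝ → ℝ) (psi : V3 → ℝ)
    (g : ℝ → ℝ) (hc : Mod Lam I mu c) (hpsi : P psi) (hg : Q g)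
    (hf : ∀ i z, f.1 i z = c i z.1 * psi z.2.1 * g z.2.2) : f ∈ Sym Lam I mu P Q :=
  Submodule.subset_span ⟨c, psi, g, hc, hpsi, hg, hf⟩

end B5

theorem prfB5 (hA2 : claimA2) (hC2 : claimC2) : claimB5 := by
  intro ι Lam I mu P Q g hLam hP hQ hg
  refine ⟨?_, ?_, ?_⟩
  · refine B5.der_mem Lam I mu P Q dt (Sym Lam I mu P Q) ?_ g hg
    intro f c psi h hc hpsi hh hf
    have hd : Mod Lam I mu (fun i t => deriv (c i) t) := (hA2 ι Lam I mu c hLam hc).2.2.2.1
    refine B5.atom_mem Lam I mu P Q _ (fun i t => deriv (c i) t) psi h hd hpsi hh ?_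
    intro i z
    have h1 := hC2 ι c psi h f (fun _ => ((1 : ℝ), (0 : V3), (0 : ℝ))) hc.1 (hP psi hpsi)
      (hQ h hh) hf i z
    have h2 : (dt f).1 i z = (dd (fun _ => ((1 : ℝ), (0 : V3), (0 : ℝ))) f).1 i z := rfl
    rw [h2, h1]
    simp only [map_zero]
    ring
  · intro k hk
    refine B5.der_mem Lam I mu P Q (dy k) (Sym Lam I mu P Q) ?_ g hg
    intro f c psi h hc hpsi hh hf
    refine B5.atom_mem Lam I mu P Q _ c (fun y => fderiv ℝ psi y (Pi.single k 1)) h hc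
      (hk psi hpsi) hh ?_
    intro i z
    have h1 := hC2 ι c psi h f (fun _ => ((0 : ℝ), (Pi.single k 1 : V3), (0 : ℝ))) hc.1
      (hP psi hpsi) (hQ h hh) hf i z
    have h2 : (dy k f).1 i z =
        (dd (fun _ => ((0 : ℝ), (Pi.single k 1 : V3), (0 : ℝ))) f).1 i z := rfl
    rw [h2, h1]
    ring
  · intro hk
    refine B5.der_mem Lam I mu P Q dth (Sym Lam I mu P Q) ?_ g hg
    intro f c psi h hc hpsi hh hf
    refine B5.atom_mem Lam I mu P Q _ c psi (deriv h) hc hpsi (hk h hh) ?_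
    intro i z
    have h1 := hC2 ι c psi h f (fun _ => ((0 : ℝ), (0 : V3), (1 : ℝ))) hc.1 (hP psi hpsi)
      (hQ h hh) hf i z
    have h2 : (dth f).1 i z = (dd (fun _ => ((0 : ℝ), (0 : V3), (1 : ℝ))) f).1 i z := rfl
    rw [h2, h1]
    simp only [map_zero]
    ring

end Pool.Agent.Work.MP_b0497c_an.Forced.W

end

section

set_option autoImplicit false

/-!
# WKB module: item B6 (mean and oscillating part)
-/

open scoped ContDiff
open Set

namespace Pool.Agent.Work.MP_b0497c_an.Forced.W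

theorem prfB6 (hA2 : claimA2) (hB2 : claimB2) : claimB6 := by
  intro ι Lam I mu P g hLam hg
  unfold Sym at hg
  induction hg using Submodule.span_induction with
  | zero => exact ⟨0, Submodule.zero_mem _, 0, Submodule.zero_mem _, by rw [add_zero]⟩
  | add x y _ _ ihx ihy =>
    obtain ⟨m, hm, o, ho, rfl⟩ := ihx
    obtain ⟨m', hm', o', ho', rfl⟩ := ihy
    exact ⟨m + m', Submodule.add_mem _ hm hm', o + o', Submodule.add_mem _ ho ho', by abel⟩
  | smul a x _ ihx =>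
    obtain ⟨m, hm, o, ho, rfl⟩ := ihx
    exact ⟨a • m, Submodule.smul_mem _ a hm, a • o, Submodule.smul_mem _ a ho, by
      rw [smul_add]⟩
  | mem x hx =>
    obtain ⟨c, psi, h, hc, hpsi, hh, hx⟩ := hx
    by_cases h0 : ∀ θ, h θ = 0
    · have hx0 : x = 0 := by
        apply Subtype.ext
        funext i z
        rw [hx i z, h0, mul_zero]
        rfl
      exact ⟨0, Submodule.zero_mem _, 0, Submodule.zero_mem _, by rw [hx0, add_zero]⟩
    · push Not at h0
      obtain ⟨θ0, hθ0⟩ := h0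
      set r : ℝ := ∫ θ in (0 : ℝ)..1, h θ with hr
      let m : Sm ι := ⟨fun i z => r / h θ0 * x.1 i (z.1, z.2.1, θ0), fun i => by
        have h1 : ContDiff ℝ ∞ (fun z : Z => ((z.1, z.2.1, θ0) : Z)) :=
          contDiff_fst.prodMk ((contDiff_fst.comp contDiff_snd).prodMk contDiff_const)
        exact contDiff_const.mul ((x.2 i).comp h1)⟩
      have hm : ∀ i z, m.1 i z = (r * c i z.1) * psi z.2.1 * 1 := by
        intro i z
        change r / h θ0 * x.1 i (z.1, z.2.1, θ0) = _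
        rw [hx i]
        field_simp
      refine ⟨m, Submodule.subset_span ⟨_, psi, fun _ => 1,
        (hA2 ι Lam I mu c hLam hc).2.1 r, hpsi, rfl, hm⟩, x - m, ?_, by abel⟩
      refine Submodule.subset_span ⟨c, psi, _, hc, hpsi, hB2.2.2.1 h hh, ?_⟩
      intro i z
      have h2 : (x - m).1 i z = x.1 i z - m.1 i z := rfl
      rw [h2, hx i z, hm i z]
      ring

end Pool.Agent.Work.MP_b0497c_an.Forced.W

end

section

set_option autoImplicit false

open scoped ContDiff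
open Set

namespace Pool.Agent.Work.MP_b0497c_an.Forced.W

theorem prfB7 : claimB7 := by
  intro ι I N a p ha hN hp hpa i t ht j l
  have ha' := ha i
  have hN' := hN i
  have hp' := hp i t
  have hpa' := hpa i t ht
  have hN1 : 1 ≤ N i := by linarith
  have hN0 : 0 < N i := by linarith
  have hNi : 0 < (N i)⁻¹ := inv_pos.mpr hN0
  set e : ℝ := (1 + a i) / N i with he
  have he0 : 0 < e := div_pos (by linarith) hN0
  have he1 : e ≤ 1 := (div_le_one hN0).mpr hN'
  have hee : e = (1 + a i) * (N i)⁻¹ := by rw [he, div_eq_mul_inv]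
  have hNe : (N i)⁻¹ ≤ e := by
    rw [hee]
    nlinarith
  unfold wt
  rw [← he]
  refine ⟨?_, ?_, ?_, ?_, ?_⟩
  · have h1 : e ^ (j + l + 1) * (N i)⁻¹ * p i t
        = (e ^ j * e ^ l * (N i)⁻¹ * (N i)⁻¹) * ((1 + a i) * p i t) := by
      rw [pow_succ, pow_add]
      nth_rewrite 3 [hee]
      ring
    have h2 : e ^ j * (N i)⁻¹ * p i t * (e ^ l * (N i)⁻¹ * p i t)
        = (e ^ j * e ^ l * (N i)⁻¹ * (N i)⁻¹) * (p i t * p i t) := by ring
    rw [h1, h2]
    have h3 : 0 ≤ e ^ j * e ^ l * (N i)⁻¹ * (N i)⁻¹ := by positivity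
    exact mul_le_mul_of_nonneg_left
      (mul_le_mul_of_nonneg_right (by linarith) hp') h3
  · have h1 : e ^ (j + 1) * (N i)⁻¹ * p i t = e * (e ^ j * (N i)⁻¹ * p i t) := by
      rw [pow_succ]; ring
    rw [h1]
    exact mul_le_mul_of_nonneg_right hNe (by positivity)
  · have h1 : e ^ (j + 1) * (N i)⁻¹ * p i t = e * (e ^ j * (N i)⁻¹ * p i t) := by
      rw [pow_succ]; ring
    rw [h1]
    have h2 : 0 ≤ e ^ j * (N i)⁻¹ * p i t := by positivity
    nlinarith
  · positivity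
  · rw [pow_zero, one_mul]
    field_simp

end Pool.Agent.Work.MP_b0497c_an.Forced.W

end

section

set_option autoImplicit false

/-!
# WKB module: item C1 (commutation of directional derivatives, additivity in the direction)
-/

open scoped ContDiff
open Set

namespace Pool.Agent.Work.MP_b0497c_an.Forced.W

namespace C1

theorem comm {g : Z → ℝ} (hg : ContDiff ℝ ∞ g) (z v w : Z) :
    fderiv ℝ (fun z => fderiv ℝ g z w) z v = fderiv ℝ (fun z => fderiv ℝ g z v) z w := by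
  have h1 : ContDiff ℝ ∞ (fderiv ℝ g) := hg.fderiv_right (m := ∞) (by simp)
  have hd : DifferentiableAt ℝ (fderiv ℝ g) z := h1.differentiable (by simp) z
  have e : ∀ u x : Z, fderiv ℝ (fun z => fderiv ℝ g z u) z x =
      (fderiv ℝ (fderiv ℝ g) z x) u := by
    intro u x
    rw [fderiv_clm_apply hd (differentiableAt_const u)]
    simp
  rw [e, e]
  have hs : IsSymmSndFDerivAt ℝ g z := hg.contDiffAt.isSymmSndFDerivAt (by
    rw [minSmoothness_of_isRCLikeNormedField]; exact WithTop.coe_le_coe.2 le_top)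
  exact hs v w

end C1

theorem prfC1 : claimC1 := by
  intro ι v w f
  refine ⟨?_, ?_, ?_⟩
  · apply Subtype.ext
    funext i z
    exact C1.comm (f.2 i) z (v i) (w i)
  · apply Subtype.ext
    funext i z
    show fderiv ℝ (f.1 i) z (v i + w i) = fderiv ℝ (f.1 i) z (v i) + fderiv ℝ (f.1 i) z (w i)
    exact map_add _ _ _
  · intro r
    apply Subtype.ext
    funext i z
    show fderiv ℝ (f.1 i) z (r i • v i) = r i * fderiv ℝ (f.1 i) z (v i)
    rw [map_smul, smul_eq_mul]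

end Pool.Agent.Work.MP_b0497c_an.Forced.W

end

section

set_option autoImplicit false

/-!
# WKB module, item I1: sums, products, multiples and monotonicity for the class `Bd`
-/

open scoped ContDiff
open Set

namespace Pool.Agent.Work.MP_b0497c_an.Forced.W

namespace I1

theorem le_two_pow (r : ℝ) : ∃ k : ℕ, r ≤ 2 ^ k := by
  obtain ⟨k, hk⟩ := pow_unbounded_of_one_lt r (one_lt_two (α := ℝ))
  exact ⟨k, hk.le⟩

theorem le_pow_of_two_le (r : ℝ) : ∃ k : ℕ, ∀ x : ℝ, 2 ≤ x → r ≤ x ^ k := by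
  obtain ⟨k, hk⟩ := le_two_pow r
  exact ⟨k, fun x hx => hk.trans (pow_le_pow_left₀ (by norm_num) hx k)⟩

end I1

theorem prfI1 : claimI1 := by
  intro ι E _ _ Lam Om N mu f g hLam hN hmu hf
  have hL1 : ∀ i, 1 ≤ Lam i := fun i => by linarith [hLam i]
  have hL0 : ∀ i, 0 < Lam i := fun i => by linarith [hLam i]
  refine ⟨?_, ?_, ?_, ?_⟩
  · -- sums
    intro hg
    refine ⟨fun i => (hf.1 i).add (hg.1 i), ?_⟩
    intro m
    obtain ⟨n1, h1⟩ := hf.2 m
    obtain ⟨n2, h2⟩ := hg.2 m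
    refine ⟨n1 + n2 + 1, ?_⟩
    intro i z hz
    have hfm : ContDiffAt ℝ m (f i) z := ((hf.1 i).of_le (by exact_mod_cast le_top)).contDiffAt
    have hgm : ContDiffAt ℝ m (g i) z := ((hg.1 i).of_le (by exact_mod_cast le_top)).contDiffAt
    have e1 : iteratedFDeriv ℝ m (fun z => f i z + g i z) z =
        iteratedFDeriv ℝ m (f i) z + iteratedFDeriv ℝ m (g i) z :=
      iteratedFDeriv_add_apply hfm hgm
    rw [e1]
    refine (norm_add_le _ _).trans ?_
    have hB : 0 ≤ N i ^ m * mu i := mul_nonneg (pow_nonneg (hN i) _) (hmu i)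
    have a1 : Lam i ^ n1 ≤ Lam i ^ (n1 + n2) := pow_le_pow_right₀ (hL1 i) (by omega)
    have a2 : Lam i ^ n2 ≤ Lam i ^ (n1 + n2) := pow_le_pow_right₀ (hL1 i) (by omega)
    have b1 : Lam i ^ n1 * (N i ^ m * mu i) ≤ Lam i ^ (n1 + n2) * (N i ^ m * mu i) :=
      mul_le_mul_of_nonneg_right a1 hB
    have b2 : Lam i ^ n2 * (N i ^ m * mu i) ≤ Lam i ^ (n1 + n2) * (N i ^ m * mu i) :=
      mul_le_mul_of_nonneg_right a2 hB
    have c1 := h1 i z hz
    have c2 := h2 i z hz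
    have d1 : 2 * (Lam i ^ (n1 + n2) * (N i ^ m * mu i)) ≤
        Lam i * (Lam i ^ (n1 + n2) * (N i ^ m * mu i)) :=
      mul_le_mul_of_nonneg_right (hLam i) (mul_nonneg (pow_nonneg (hL0 i).le _) hB)
    have d2 : Lam i ^ (n1 + n2 + 1) * N i ^ m * mu i =
        Lam i * (Lam i ^ (n1 + n2) * (N i ^ m * mu i)) := by
      rw [pow_succ]; ring
    rw [d2]
    nlinarith
  · -- products
    intro nu hg
    refine ⟨fun i => (hf.1 i).mul (hg.1 i), ?_⟩
    intro m
    choose nf hnf using hf.2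
    choose ng hng using hg.2
    refine ⟨m + ∑ j ∈ Finset.range (m + 1), nf j + ∑ j ∈ Finset.range (m + 1), ng j, ?_⟩
    intro i z hz
    set A := ∑ j ∈ Finset.range (m + 1), nf j with hA
    set B := ∑ j ∈ Finset.range (m + 1), ng j with hB
    have hnu : 0 ≤ nu i := by
      have h0 := (norm_nonneg _).trans (hng 0 i z hz)
      rw [pow_zero, mul_one] at h0
      exact nonneg_of_mul_nonneg_right h0 (pow_pos (hL0 i) _)
    have h1 := norm_iteratedFDeriv_mul_le (𝕜 := ℝ) (hf.1 i) (hg.1 i) z (n := m)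
      (by exact_mod_cast le_top)
    refine h1.trans ?_
    have h2 : ∀ j ∈ Finset.range (m + 1),
        (m.choose j : ℝ) * ‖iteratedFDeriv ℝ j (f i) z‖ * ‖iteratedFDeriv ℝ (m - j) (g i) z‖ ≤
        (m.choose j : ℝ) * (Lam i ^ (A + B) * N i ^ m * (mu i * nu i)) := by
      intro j hj
      have hj' : j ≤ m := by
        have := Finset.mem_range.1 hj
        omega
      have a1 : nf j ≤ A := Finset.single_le_sum (f := nf) (fun _ _ => Nat.zero_le _) hj
      have a2 : ng (m - j) ≤ B := Finset.single_le_sum (f := ng) (fun _ _ => Nat.zero_le _)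
        (Finset.mem_range.2 (by omega))
      have b1 : ‖iteratedFDeriv ℝ j (f i) z‖ ≤ Lam i ^ A * N i ^ j * mu i :=
        (hnf j i z hz).trans (mul_le_mul_of_nonneg_right (mul_le_mul_of_nonneg_right
          (pow_le_pow_right₀ (hL1 i) a1) (pow_nonneg (hN i) _)) (hmu i))
      have b2 : ‖iteratedFDeriv ℝ (m - j) (g i) z‖ ≤ Lam i ^ B * N i ^ (m - j) * nu i :=
        (hng (m - j) i z hz).trans (mul_le_mul_of_nonneg_right (mul_le_mul_of_nonneg_right
          (pow_le_pow_right₀ (hL1 i) a2) (pow_nonneg (hN i) _)) hnu)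
      have c1 : ‖iteratedFDeriv ℝ j (f i) z‖ * ‖iteratedFDeriv ℝ (m - j) (g i) z‖ ≤
          (Lam i ^ A * N i ^ j * mu i) * (Lam i ^ B * N i ^ (m - j) * nu i) :=
        mul_le_mul b1 b2 (norm_nonneg _) ((norm_nonneg _).trans b1)
      have c2 : (Lam i ^ A * N i ^ j * mu i) * (Lam i ^ B * N i ^ (m - j) * nu i) =
          Lam i ^ (A + B) * N i ^ m * (mu i * nu i) := by
        have : N i ^ m = N i ^ j * N i ^ (m - j) := by rw [← pow_add]; congr 1; omega
        rw [this, pow_add]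
        ring
      rw [c2] at c1
      rw [mul_assoc]
      exact mul_le_mul_of_nonneg_left c1 (Nat.cast_nonneg _)
    refine (Finset.sum_le_sum h2).trans ?_
    rw [← Finset.sum_mul]
    have h3 : ∑ j ∈ Finset.range (m + 1), (m.choose j : ℝ) = 2 ^ m := by
      exact_mod_cast Nat.sum_range_choose m
    rw [h3]
    have h4 : (2 : ℝ) ^ m ≤ Lam i ^ m := pow_le_pow_left₀ (by norm_num) (hLam i) m
    have h5 : 0 ≤ Lam i ^ (A + B) * N i ^ m * (mu i * nu i) :=
      mul_nonneg (mul_nonneg (pow_nonneg (hL0 i).le _) (pow_nonneg (hN i) _))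
        (mul_nonneg (hmu i) hnu)
    refine (mul_le_mul_of_nonneg_right h4 h5).trans (le_of_eq ?_)
    rw [show m + A + B = m + (A + B) by omega, pow_add (Lam i) m]
    ring
  · -- multiples
    intro r
    obtain ⟨k, hk⟩ := I1.le_pow_of_two_le |r|
    refine ⟨fun i => contDiff_const.mul (hf.1 i), ?_⟩
    intro m
    obtain ⟨n1, h1⟩ := hf.2 m
    refine ⟨k + n1, ?_⟩
    intro i z hz
    have hfm : ContDiffAt ℝ m (f i) z := ((hf.1 i).of_le (by exact_mod_cast le_top)).contDiffAt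
    have e1 : iteratedFDeriv ℝ m (fun z => r * f i z) z = r • iteratedFDeriv ℝ m (f i) z :=
      iteratedFDeriv_const_smul_apply (a := r) hfm
    rw [e1, norm_smul, Real.norm_eq_abs]
    have e2 : Lam i ^ (k + n1) * N i ^ m * mu i = Lam i ^ k * (Lam i ^ n1 * N i ^ m * mu i) := by
      rw [pow_add]; ring
    rw [e2]
    exact mul_le_mul (hk _ (hLam i)) (h1 i z hz) (norm_nonneg _) (pow_nonneg (hL0 i).le _)
  · -- monotonicity
    intro N' nu hNN hmn
    refine ⟨hf.1, ?_⟩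
    intro m
    obtain ⟨n1, h1⟩ := hf.2 m
    refine ⟨n1, ?_⟩
    intro i z hz
    refine (h1 i z hz).trans ?_
    apply mul_le_mul
    · exact mul_le_mul_of_nonneg_left (pow_le_pow_left₀ (hN i) (hNN i) m)
        (pow_nonneg (hL0 i).le _)
    · exact hmn i
    · exact hmu i
    · exact mul_nonneg (pow_nonneg (hL0 i).le _) (pow_nonneg ((hN i).trans (hNN i)) _)

end Pool.Agent.Work.MP_b0497c_an.Forced.W

end

section

set_option autoImplicit false

/-!
# WKB module, item I2: composition with a fixed function with bounded derivatives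
-/

open scoped ContDiff
open Set

namespace Pool.Agent.Work.MP_b0497c_an.Forced.W

theorem prfI2 : claimI2 := by
  intro ι E F _ _ _ _ Lam Om N f g hLam hN hg hgb hf hfb
  have hL1 : ∀ i, 1 ≤ Lam i := fun i => by linarith [hLam i]
  have hL0 : ∀ i, 0 < Lam i := fun i => by linarith [hLam i]
  refine ⟨fun i => hg.comp (hf i), ?_⟩
  intro m
  choose C hC using hgb
  choose n hn using hfb
  -- a common exponent
  obtain ⟨A, hA⟩ : ∃ A : ℕ, ∀ j (hj : 1 ≤ j), j ≤ m → n j hj ≤ A := by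
    refine ⟨∑ j ∈ Finset.range (m + 1), if h : 1 ≤ j then n j h else 0, ?_⟩
    intro j hj hjm
    have h1 := Finset.single_le_sum (f := fun j => if h : 1 ≤ j then n j h else 0)
      (s := Finset.range (m + 1)) (fun _ _ => Nat.zero_le _) (Finset.mem_range.2 (by omega : j < m + 1))
    simpa [hj] using h1
  set K : ℝ := ∑ j ∈ Finset.range (m + 1), |C j| with hK
  obtain ⟨k, hk⟩ := pow_unbounded_of_one_lt ((m.factorial : ℝ) * K) (one_lt_two (α := ℝ))
  refine ⟨k + A * m, ?_⟩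
  intro i z hz
  have h1 := norm_iteratedFDeriv_comp_le (𝕜 := ℝ) hg (hf i) (n := m)
    (by exact_mod_cast le_top) z (C := K) (D := Lam i ^ A * N i) ?_ ?_
  · refine h1.trans ?_
    have e1 : (Lam i ^ A * N i) ^ m = Lam i ^ (A * m) * N i ^ m := by
      rw [mul_pow, ← pow_mul]
    rw [e1, mul_one, pow_add]
    have e2 : (m.factorial : ℝ) * K ≤ Lam i ^ k :=
      hk.le.trans (pow_le_pow_left₀ (by norm_num) (hLam i) k)
    have e3 : 0 ≤ Lam i ^ (A * m) * N i ^ m :=
      mul_nonneg (pow_nonneg (hL0 i).le _) (pow_nonneg (by linarith [hN i]) _)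
    refine (mul_le_mul_of_nonneg_right e2 e3).trans (le_of_eq (by ring))
  · intro j hj
    refine (hC j _).trans ((le_abs_self _).trans ?_)
    exact Finset.single_le_sum (f := fun j => |C j|) (fun _ _ => abs_nonneg _)
      (Finset.mem_range.2 (by omega))
  · intro j hj1 hjm
    refine (hn j hj1 i z hz).trans ?_
    rw [mul_pow, ← pow_mul]
    apply mul_le_mul_of_nonneg_right _ (pow_nonneg (by linarith [hN i]) _)
    apply pow_le_pow_right₀ (hL1 i)
    calc n j hj1 ≤ A := hA j hj1 hjm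
      _ = A * 1 := (mul_one A).symm
      _ ≤ A * j := Nat.mul_le_mul_left A hj1

end Pool.Agent.Work.MP_b0497c_an.Forced.W

end

section

set_option autoImplicit false

/-! Item J2: the cut-off functions in time. -/

open scoped ContDiff
open Set

namespace Pool.Agent.Work.MP_b0497c_an.Forced.W

namespace J2

/-- Derivatives are bounded. -/
theorem bdd (G : ℝ → ℝ) (hG : ContDiff ℝ ∞ G) (a b : ℝ) (h0 : ∀ x ≤ 0, G x = a)
    (h1 : ∀ x, 1 ≤ x → G x = b) (d : ℕ) : ∃ C : ℝ, ∀ x, |iteratedDeriv d G x| ≤ C := by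
  have hc : Continuous (iteratedDeriv d G) := hG.continuous_iteratedDeriv d (by exact_mod_cast le_top)
  obtain ⟨C, hC⟩ := isCompact_Icc.exists_bound_of_continuousOn (s := Icc (0 : ℝ) 1) hc.continuousOn
  refine ⟨max C (max |a| |b|), fun x => ?_⟩
  rcases lt_or_ge x 0 with hx | hx
  · have hev : G =ᶠ[nhds x] fun _ => a := by
      filter_upwards [isOpen_Iio.mem_nhds hx] with y hy
      exact h0 y (le_of_lt hy)
    rw [hev.iteratedDeriv_eq, iteratedDeriv_const]
    split_ifs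
    · exact le_trans (le_max_left _ _) (le_max_right _ _)
    · rw [abs_zero]
      exact le_trans (abs_nonneg a) (le_trans (le_max_left _ _) (le_max_right _ _))
  · rcases le_or_gt x 1 with hx1 | hx1
    · exact le_trans (hC x ⟨hx, hx1⟩) (le_max_left _ _)
    · have hev : G =ᶠ[nhds x] fun _ => b := by
        filter_upwards [isOpen_Ioi.mem_nhds hx1] with y hy
        exact h1 y (le_of_lt hy)
      rw [hev.iteratedDeriv_eq, iteratedDeriv_const]
      split_ifs
      · exact le_trans (le_max_right _ _) (le_max_right _ _)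
      · rw [abs_zero]
        exact le_trans (abs_nonneg a) (le_trans (le_max_left _ _) (le_max_right _ _))

/-- Rescaling. -/
theorem scal (G : ℝ → ℝ) (hG : ContDiff ℝ ∞ G) (s del : ℝ) (d : ℕ) :
    iteratedDeriv d (fun t => G ((t - s) / del)) =
      fun t => (del⁻¹) ^ d * iteratedDeriv d G ((t - s) / del) := by
  induction d with
  | zero => funext t; simp
  | succ d ih =>
    rw [iteratedDeriv_succ, ih]
    funext t
    have hd : DifferentiableAt ℝ (iteratedDeriv d G) ((t - s) / del) :=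
      (hG.differentiable_iteratedDeriv d (by exact_mod_cast WithTop.coe_lt_top _)) _
    have h1 : HasDerivAt (fun t : ℝ => (t - s) / del) (1 / del) t :=
      ((hasDerivAt_id t).sub_const s).div_const del
    have h2 := (hd.hasDerivAt.comp t h1).const_mul ((del⁻¹) ^ d)
    rw [iteratedDeriv_succ]
    have h3 := h2.deriv
    have h4 : (fun t => del⁻¹ ^ d * iteratedDeriv d G ((t - s) / del)) =
        (fun y => del⁻¹ ^ d * (iteratedDeriv d G ∘ fun t => (t - s) / del) y) := rfl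
    rw [h4, h3, pow_succ, one_div]
    ring

theorem scal_contDiff (G : ℝ → ℝ) (hG : ContDiff ℝ ∞ G) (s del : ℝ) :
    ContDiff ℝ ∞ (fun t => G ((t - s) / del)) :=
  hG.comp ((contDiff_id.sub contDiff_const).div_const del)

/-- Uniform bound. -/
theorem unif {ι : Type} (Lam s del : ι → ℝ) (hL : ∀ i, 2 ≤ Lam i) (hdel : ∀ i, 0 < del i)
    (hn : ∃ n : ℕ, ∀ i, (del i)⁻¹ ≤ Lam i ^ n)
    (G : ℝ → ℝ) (hG : ContDiff ℝ ∞ G) (a b : ℝ) (h0 : ∀ x ≤ 0, G x = a)
    (h1 : ∀ x, 1 ≤ x → G x = b) (d : ℕ) :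
    ∃ n : ℕ, ∀ i t, |iteratedDeriv d (fun t => G ((t - s i) / del i)) t| ≤ Lam i ^ n := by
  obtain ⟨C, hC⟩ := bdd G hG a b h0 h1 d
  obtain ⟨n, hn⟩ := hn
  obtain ⟨m, hm⟩ := pow_unbounded_of_one_lt C (one_lt_two : (1 : ℝ) < 2)
  refine ⟨n * d + m, fun i t => ?_⟩
  rw [scal G hG (s i) (del i) d]
  simp only
  have hd : 0 < (del i)⁻¹ := inv_pos.mpr (hdel i)
  have hL0 : 0 < Lam i := by linarith [hL i]
  rw [abs_mul, abs_pow, abs_of_pos hd, pow_add, pow_mul]
  apply mul_le_mul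
  · exact pow_le_pow_left₀ hd.le (hn i) d
  · calc |iteratedDeriv d G ((t - s i) / del i)| ≤ C := hC _
      _ ≤ 2 ^ m := hm.le
      _ ≤ Lam i ^ m := pow_le_pow_left₀ (by norm_num) (hL i) m
  · exact abs_nonneg _
  · positivity

/-- After the transition. -/
theorem after (G : ℝ → ℝ) (b s del : ℝ) (hdel : 0 < del) (h1 : ∀ x, 1 ≤ x → G x = b) (d : ℕ)
    (hb : d = 0 → b = 0) (t : ℝ) (ht : ¬ t ≤ s + del) :
    iteratedDeriv d (fun t => G ((t - s) / del)) t = 0 := by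
  push Not at ht
  have hev : (fun t => G ((t - s) / del)) =ᶠ[nhds t] fun _ => b := by
    filter_upwards [isOpen_Ioi.mem_nhds ht] with y hy
    have hy' : s + del < y := hy
    apply h1
    rw [le_div_iff₀ hdel]
    linarith
  rw [hev.iteratedDeriv_eq, iteratedDeriv_const]
  split_ifs with h
  · exact hb h
  · rfl

end J2

theorem prfJ2 : claimJ2 := by
  intro ι Lam I s del hL hdel hn
  set g : ℝ → ℝ := Real.smoothTransition with hg
  have hgc : ContDiff ℝ ∞ g := Real.smoothTransition.contDiff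
  have g0 : ∀ x ≤ 0, g x = 0 := fun x hx => Real.smoothTransition.zero_of_nonpos hx
  have g1 : ∀ x, 1 ≤ x → g x = 1 := fun x hx => Real.smoothTransition.one_of_one_le hx
  have hG2 : ContDiff ℝ ∞ (fun x => g x * g x - g x) := (hgc.mul hgc).sub hgc
  refine ⟨fun i t => g ((t - s i) / del i), ⟨fun i => J2.scal_contDiff g hgc _ _, ?_⟩,
    fun i t => ⟨Real.smoothTransition.nonneg _, Real.smoothTransition.le_one _⟩, ?_, ?_,
    ⟨?_, ?_⟩, ⟨?_, ?_⟩⟩
  · intro d
    obtain ⟨n, h⟩ := J2.unif Lam s del hL hdel hn g hgc 0 1 g0 g1 d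
    exact ⟨n, fun i t _ => by rw [mul_one]; exact h i t⟩
  · intro i t ht
    exact g0 _ (div_nonpos_of_nonpos_of_nonneg (by linarith) (hdel i).le)
  · intro i t ht
    apply g1
    rw [le_div_iff₀ (hdel i)]
    linarith
  · intro i
    have h := J2.scal_contDiff g hgc (s i) (del i)
    exact ((contDiff_infty_iff_deriv).mp h).2
  · intro d
    obtain ⟨n, h⟩ := J2.unif Lam s del hL hdel hn g hgc 0 1 g0 g1 (d + 1)
    refine ⟨n, fun i t _ => ?_⟩
    have e : iteratedDeriv d (fun t => deriv (fun t => g ((t - s i) / del i)) t) t =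
        iteratedDeriv (d + 1) (fun t => g ((t - s i) / del i)) t := by
      rw [iteratedDeriv_succ']
    rw [e]
    show |iteratedDeriv (d + 1) (fun t => g ((t - s i) / del i)) t| ≤
      Lam i ^ n * (if t ≤ s i + del i then 1 else 0)
    split_ifs with ht
    · rw [mul_one]; exact h i t
    · rw [J2.after g 1 (s i) (del i) (hdel i) g1 (d + 1) (fun h => by omega) t ht]
      simp
  · intro i
    exact J2.scal_contDiff (fun x => g x * g x - g x) hG2 (s i) (del i)
  · intro d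
    have k0 : ∀ x ≤ 0, (fun x => g x * g x - g x) x = 0 := fun x hx => by
      simp only [g0 x hx]; ring
    have k1 : ∀ x, 1 ≤ x → (fun x => g x * g x - g x) x = 0 := fun x hx => by
      simp only [g1 x hx]; ring
    obtain ⟨n, h⟩ := J2.unif Lam s del hL hdel hn (fun x => g x * g x - g x) hG2 0 0 k0 k1 d
    refine ⟨n, fun i t _ => ?_⟩
    show |iteratedDeriv d (fun t => (fun x => g x * g x - g x) ((t - s i) / del i)) t| ≤
      Lam i ^ n * (if t ≤ s i + del i then 1 else 0)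
    split_ifs with ht
    · rw [mul_one]; exact h i t
    · have := J2.after (fun x => g x * g x - g x) 0 (s i) (del i) (hdel i) k1 d (fun _ => rfl) t ht
      rw [this]
      simp

end Pool.Agent.Work.MP_b0497c_an.Forced.W

end

section

set_option autoImplicit false

/-!
# WKB module: item D1
-/

open scoped ContDiff Matrix
open Set

namespace Pool.Agent.Work.MP_b0497c_an.Forced.W

namespace D1

theorem split (hC1 : claimC1) (ι : Type) (S : Data ι) (k : Fin 3) (f : Sm ι) :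
    S.D k f = dy k f + S.Ns * S.ks k * dth f := by
  obtain ⟨_, h2, _⟩ := hC1 ι (fun _ => ((0 : ℝ), (Pi.single k (1 : ℝ) : V3), (0 : ℝ)))
    (fun i => (S.N i * S.kap i k) • ((0 : ℝ), (0 : V3), (1 : ℝ))) f
  obtain ⟨_, _, h3⟩ := hC1 ι (fun _ => ((0 : ℝ), (0 : V3), (1 : ℝ)))
    (fun _ => ((0 : ℝ), (0 : V3), (1 : ℝ))) f
  have h4 := h3 (fun i => S.N i * S.kap i k)
  have h5 : (fun i => ((0 : ℝ), (Pi.single k (1 : ℝ) : V3), S.N i * S.kap i k)) =
      fun i => ((0 : ℝ), (Pi.single k (1 : ℝ) : V3), (0 : ℝ)) +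
        (S.N i * S.kap i k) • ((0 : ℝ), (0 : V3), (1 : ℝ)) := by
    funext i
    refine Prod.ext ?_ (Prod.ext ?_ ?_)
    · simp
    · simp
    · simp
  have h6 : S.Ns * S.ks k = cst (fun i => S.N i * S.kap i k) := rfl
  show dd (fun i => ((0 : ℝ), (Pi.single k (1 : ℝ) : V3), S.N i * S.kap i k)) f =
    dd (fun _ => ((0 : ℝ), (Pi.single k (1 : ℝ) : V3), (0 : ℝ))) f +
      S.Ns * S.ks k * dd (fun _ => ((0 : ℝ), (0 : V3), (1 : ℝ))) f
  rw [h5, h2, h6, ← h4]

theorem comm (hC1 : claimC1) (ι : Type) (S : Data ι) (k l : Fin 3) (f : Sm ι) :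
    S.D k (S.D l f) = S.D l (S.D k f) := (hC1 ι _ _ f).1

end D1

theorem prfD1 (hC1 : claimC1) : claimD1 := by
  intro ι S
  refine ⟨fun k f => D1.split hC1 ι S k f, fun k l f => D1.comm hC1 ι S k l f, fun A => ?_⟩
  rw [Fin.sum_univ_three]
  have e1 : curlD S.D A 0 = S.D 1 (A 2) - S.D 2 (A 1) := rfl
  have e2 : curlD S.D A 1 = S.D 2 (A 0) - S.D 0 (A 2) := rfl
  have e3 : curlD S.D A 2 = S.D 0 (A 1) - S.D 1 (A 0) := rfl
  rw [e1, e2, e3, map_sub, map_sub, map_sub, D1.comm hC1 ι S 1 0, D1.comm hC1 ι S 2 0,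
    D1.comm hC1 ι S 2 1]
  abel

end Pool.Agent.Work.MP_b0497c_an.Forced.W

end

section

set_option autoImplicit false

/-!
# WKB module: item D2
-/

open scoped ContDiff Matrix
open Set

namespace Pool.Agent.Work.MP_b0497c_an.Forced.W

namespace D2

theorem N_pos {ι : Type} (S : Data ι) (i : ι) : 0 < S.N i := by
  have h1 := S.a_le i
  have h2 := S.a_nonneg i
  linarith

theorem wt_anti (hB7 : claimB7) {ι : Type} (S : Data ι) (i : ι) (t : ℝ) (ht : t ∈ S.I i)
    {j l : ℕ} (h : j ≤ l) : wt S.N S.a S.p l i t ≤ wt S.N S.a S.p j i t := by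
  induction l, h using Nat.le_induction with
  | base => exact le_rfl
  | succ l _ ih =>
    exact ((hB7 ι S.I S.N S.a S.p S.a_nonneg S.a_le S.p_nonneg S.p_le i t ht l l).2.2.1).trans ih

theorem Q1_Qp (g : ℝ → ℝ) (h : Q1 g) : Qp g := by
  rw [Q1] at h
  subst h
  exact ⟨contDiff_const, fun _ => rfl⟩

theorem mod_Ninv (hA3 : claimA3) {ι : Type} (S : Data ι) :
    Mod S.Lam S.I (fun i _ => (S.N i)⁻¹) (fun i _ => (S.N i)⁻¹) := by
  refine hA3 ι S.Lam S.I (fun i _ => (S.N i)⁻¹) (fun i => (S.N i)⁻¹) S.two_le_Lam ⟨0, ?_⟩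
  intro i t _
  have h := inv_pos.mpr (N_pos S i)
  rw [abs_of_pos h]
  simp

theorem mod_kap (hA3 : claimA3) {ι : Type} (S : Data ι) (k : Fin 3) :
    Mod S.Lam S.I (fun _ _ => 1) (fun i _ => S.kap i k) := by
  obtain ⟨n, hn⟩ := S.kap_le
  refine hA3 ι S.Lam S.I (fun _ _ => 1) (fun i => S.kap i k) S.two_le_Lam ⟨n, ?_⟩
  intro i t _
  simpa using hn i k

/-- Multiplications by coefficients in the class with general profiles. -/
theorem mults (hA3 : claimA3) (hB4 : claimB4) (hB7 : claimB7) {ι : Type} (S : Data ι)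
    (P : (V3 → ℝ) → Prop) (j : ℕ) (f : Sm ι)
    (hf : f ∈ Sym S.Lam S.I (wt S.N S.a S.p j) P Qp) :
    S.Nis * f ∈ Sym S.Lam S.I (wt S.N S.a S.p (j + 1)) P Qp ∧
      (∀ a, S.ks a * f ∈ Sym S.Lam S.I (wt S.N S.a S.p j) P Qp) ∧
      ∀ a b, S.Gs a b * f ∈ Sym S.Lam S.I (wt S.N S.a S.p j) P Qp ∧
        S.Bs a b * f ∈ Sym S.Lam S.I (wt S.N S.a S.p j) P Qp := by
  have key : ∀ (nu rho : ι → ℝ → ℝ) (c : ι → ℝ → ℝ) (g : Sm ι), Mod S.Lam S.I nu c →
      IsCoef c g → (∀ i, ∀ t ∈ S.I i, nu i t * wt S.N S.a S.p j i t ≤ rho i t) →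
      g * f ∈ Sym S.Lam S.I rho P Qp := fun nu rho c g h1 h2 h3 =>
    (hB4 ι S.Lam S.I (wt S.N S.a S.p j) nu rho P P Qp Qp f S.two_le_Lam (fun _ h => h)
      (fun _ h => h) hf).2 c g h1 h2 h3
  have one : ∀ i, ∀ t ∈ S.I i, (1 : ℝ) * wt S.N S.a S.p j i t ≤ wt S.N S.a S.p j i t := by
    intro i t _
    rw [one_mul]
  refine ⟨?_, fun a => ?_, fun a b => ⟨?_, ?_⟩⟩
  · refine key (fun i _ => (S.N i)⁻¹) _ (fun i _ => (S.N i)⁻¹) S.Nis (mod_Ninv hA3 S)
      (fun _ _ => rfl) ?_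
    intro i t ht
    exact (hB7 ι S.I S.N S.a S.p S.a_nonneg S.a_le S.p_nonneg S.p_le i t ht j j).2.1
  · exact key (fun _ _ => 1) _ (fun i _ => S.kap i a) (S.ks a) (mod_kap hA3 S a)
      (fun _ _ => rfl) one
  · exact key (fun _ _ => 1) _ (S.G a b) (S.Gs a b) (S.mod_G a b) (fun _ _ => rfl) one
  · exact key (fun _ _ => 1) _ (S.B a b) (S.Bs a b) (S.mod_B a b) (fun _ _ => rfl) one

end D2

theorem prfD2 (_hA2 : claimA2) (hA3 : claimA3) (hB1 : claimB1) (hB2 : claimB2)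
    (hB3 : claimB3) (hB4 : claimB4) (hB5 : claimB5) (hB6 : claimB6) (hB7 : claimB7) :
    claimD2 := by
  intro ι S
  have mono : ∀ (P P' : (V3 → ℝ) → Prop) (Q Q' : (ℝ → ℝ) → Prop) (j l : ℕ), j ≤ l →
      (∀ x, P x → P' x) → (∀ x, Q x → Q' x) →
      Sym S.Lam S.I (wt S.N S.a S.p l) P Q ≤ Sym S.Lam S.I (wt S.N S.a S.p j) P' Q' := by
    intro P P' Q Q' j l hjl hP hQ f hf
    exact (hB4 ι S.Lam S.I (wt S.N S.a S.p l) (fun _ _ => 1) (wt S.N S.a S.p j) P P' Q Q' f
      S.two_le_Lam hP hQ hf).1 (fun i t ht => D2.wt_anti hB7 S i t ht hjl)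
  have ders : ∀ (P : (V3 → ℝ) → Prop) (j : ℕ) (f : Sm ι), (∀ x, P x → ContDiff ℝ ∞ x) →
      (∀ (k : Fin 3) x, P x → P (fun y => fderiv ℝ x y (Pi.single k 1))) →
      f ∈ Sym S.Lam S.I (wt S.N S.a S.p j) P Qp →
      dt f ∈ Sym S.Lam S.I (wt S.N S.a S.p j) P Qp ∧
      dth f ∈ Sym S.Lam S.I (wt S.N S.a S.p j) P Qp ∧
      ∀ k, dy k f ∈ Sym S.Lam S.I (wt S.N S.a S.p j) P Qp := by
    intro P j f hP hP' hf
    obtain ⟨h1, h2, h3⟩ := hB5 ι S.Lam S.I (wt S.N S.a S.p j) P Qp f S.two_le_Lam hP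
      (fun x hx => hx.1) hf
    exact ⟨h1, h3 (fun x hx => (hB2.2.1 x hx).1), fun k => h2 k (hP' k)⟩
  refine ⟨?_, ?_, ?_, ?_, ?_, ?_, ?_, ?_, ?_⟩
  · intro j l f g hf hg
    refine hB3 ι S.Lam S.I (wt S.N S.a S.p j) (wt S.N S.a S.p l) (wt S.N S.a S.p (j + l + 1))
      Pb Pf Pf Qp Qp Qp f g S.two_le_Lam (fun x y hx hy => hB1.2.1 x y hx hy)
      (fun x y hx hy => hB2.1 x y hx hy) ?_ hf hg
    intro i t ht
    exact (hB7 ι S.I S.N S.a S.p S.a_nonneg S.a_le S.p_nonneg S.p_le i t ht j l).1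
  · intro j l hjl
    exact ⟨mono _ _ _ _ j l hjl (fun _ h => h) (fun _ h => h),
      mono _ _ _ _ j l hjl (fun _ h => h) (fun _ h => h),
      mono _ _ _ _ j l hjl (fun _ h => h) (fun _ h => h),
      mono _ _ _ _ j l hjl (fun _ h => h) (fun _ h => h)⟩
  · intro j
    exact ⟨mono _ _ _ _ j j le_rfl (fun _ h => h.1) (fun _ h => h),
      mono _ _ _ _ j j le_rfl (fun _ h => h) (fun _ h => h.1),
      mono _ _ _ _ j j le_rfl (fun _ h => h) D2.Q1_Qp⟩
  · intro j f hf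
    exact ders Pb j f (fun x hx => hx.1) (fun k x hx => hB1.2.2.1 x k hx) hf
  · intro j f hf
    exact ders Pf j f (fun x hx => hx.1.1) (fun k x hx => hB1.2.2.2.1 x k hx) hf
  · intro j f hf
    exact D2.mults hA3 hB4 hB7 S Pb j f hf
  · intro j f hf
    exact D2.mults hA3 hB4 hB7 S Pf j f hf
  · intro j f hf
    exact hB6 ι S.Lam S.I (wt S.N S.a S.p j) Pf f S.two_le_Lam hf
  · apply Subtype.ext
    funext i z
    show S.N i * (S.N i)⁻¹ = 1
    exact mul_inv_cancel₀ (D2.N_pos S i).ne'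

end Pool.Agent.Work.MP_b0497c_an.Forced.W

end

section

set_option autoImplicit false

/-!
# D3: one packet of corrector type

The vector potential is `A = N⁻¹ (u × κ)/|κ|² ψ H` with `H' = g`.
-/

open scoped ContDiff Matrix
open Set

namespace Pool.Agent.Work.MP_b0497c_an.Forced.W

namespace D3

/-- A product `c(t) ψ(y) g(θ)` as an element of `Sm ι`. -/
def atom {ι : Type} (c : ι → ℝ → ℝ) (psi : V3 → ℝ) (g : ℝ → ℝ)
    (hc : ∀ i, ContDiff ℝ ∞ (c i)) (hp : ContDiff ℝ ∞ psi) (hg : ContDiff ℝ ∞ g) : Sm ι :=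
  ⟨fun i z => c i z.1 * psi z.2.1 * g z.2.2, fun i => by
    have h1 : ContDiff ℝ ∞ (fun z : Z => c i z.1) := (hc i).comp contDiff_fst
    have h2 : ContDiff ℝ ∞ (fun z : Z => psi z.2.1) := hp.comp (contDiff_fst.comp contDiff_snd)
    have h3 : ContDiff ℝ ∞ (fun z : Z => g z.2.2) := hg.comp (contDiff_snd.comp contDiff_snd)
    exact (h1.mul h2).mul h3⟩

theorem atom_apply {ι : Type} (c : ι → ℝ → ℝ) (psi : V3 → ℝ) (g : ℝ → ℝ)
    (hc : ∀ i, ContDiff ℝ ∞ (c i)) (hp : ContDiff ℝ ∞ psi) (hg : ContDiff ℝ ∞ g) (i : ι) (z : Z) :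
    (atom c psi g hc hp hg).1 i z = c i z.1 * psi z.2.1 * g z.2.2 := rfl

theorem dd_cst {ι : Type} (v : ι → Z) (c : ι → ℝ) : dd v (cst c) = 0 := by
  apply Subtype.ext
  funext i z
  have h : fderiv ℝ (fun _ : Z => c i) z = 0 := by simp
  show fderiv ℝ (fun _ : Z => c i) z (v i) = 0
  rw [h]
  rfl

theorem dd_cst_mul {ι : Type} (v : ι → Z) (c : ι → ℝ) (f : Sm ι) :
    dd v (cst c * f) = cst c * dd v f := by
  rw [Derivation.leibniz, dd_cst, smul_zero, add_zero, smul_eq_mul]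

theorem mul_val {ι : Type} (f g : Sm ι) (i : ι) (z : Z) :
    (f * g).1 i z = f.1 i z * g.1 i z := rfl

theorem add_val {ι : Type} (f g : Sm ι) (i : ι) (z : Z) :
    (f + g).1 i z = f.1 i z + g.1 i z := rfl

theorem sub_val {ι : Type} (f g : Sm ι) (i : ι) (z : Z) :
    (f - g).1 i z = f.1 i z - g.1 i z := rfl

theorem sum_val {ι : Type} (f : Fin 3 → Sm ι) (i : ι) (z : Z) :
    (∑ k, f k).1 i z = ∑ k, (f k).1 i z := by
  rw [Fin.sum_univ_three, Fin.sum_univ_three]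
  rfl

/-- The vector identity `κ × (u × κ) = |κ|² u - (κ·u) κ`. -/
theorem vecid (kap u : Fin 3 → ℝ) (n : ℝ) (hn : n * ∑ k, kap k * kap k = 1)
    (hu : ∑ k, kap k * u k = 0) (k : Fin 3) :
    kap (k + 1) * (n * (u (k + 2 + 1) * kap (k + 2 + 2) - u (k + 2 + 2) * kap (k + 2 + 1)))
      - kap (k + 2) * (n * (u (k + 1 + 1) * kap (k + 1 + 2) - u (k + 1 + 2) * kap (k + 1 + 1)))
      = u k := by
  rw [Fin.sum_univ_three] at hn hu
  fin_cases k
  · have e1 : ((0 : Fin 3) + 1) = 1 := rfl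
    have e2 : ((0 : Fin 3) + 2) = 2 := rfl
    have e3 : ((2 : Fin 3) + 1) = 0 := rfl
    have e4 : ((2 : Fin 3) + 2) = 1 := rfl
    have e5 : ((1 : Fin 3) + 1) = 2 := rfl
    have e6 : ((1 : Fin 3) + 2) = 0 := rfl
    simp only [Fin.zero_eta, e1, e2, e3, e4, e5, e6]
    linear_combination u 0 * hn - n * kap 0 * hu
  · have e3 : ((2 : Fin 3) + 1) = 0 := rfl
    have e4 : ((2 : Fin 3) + 2) = 1 := rfl
    have e5 : ((1 : Fin 3) + 1) = 2 := rfl
    have e6 : ((1 : Fin 3) + 2) = 0 := rfl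
    have e1 : ((0 : Fin 3) + 1) = 1 := rfl
    have e2 : ((0 : Fin 3) + 2) = 2 := rfl
    simp only [Fin.mk_one, e1, e2, e3, e4, e5, e6]
    linear_combination u 1 * hn - n * kap 1 * hu
  · have e3 : ((2 : Fin 3) + 1) = 0 := rfl
    have e4 : ((2 : Fin 3) + 2) = 1 := rfl
    have e5 : ((1 : Fin 3) + 1) = 2 := rfl
    have e6 : ((1 : Fin 3) + 2) = 0 := rfl
    have e1 : ((0 : Fin 3) + 1) = 1 := rfl
    have e2 : ((0 : Fin 3) + 2) = 2 := rfl
    simp only [Fin.reduceFinMk, e1, e2, e3, e4, e5, e6]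
    linear_combination u 2 * hn - n * kap 2 * hu

end D3

theorem prfD3 (hA1 : claimA1) (hA2 : claimA2) (hA3 : claimA3) (hB2 : claimB2)
    (_hB3 : claimB3) (hB4 : claimB4) (hB5 : claimB5) (hC2 : claimC2) (hD1 : claimD1) :
    claimD3 := by
  intro ι S mu u l psi g P' hu hl hku hpsi hg hP'
  obtain ⟨H, hHz, hHg⟩ := hB2.2.2.2 g hg
  have hHc : ContDiff ℝ ∞ H := hHz.1.1
  have hgc : ContDiff ℝ ∞ g := hg.1.1
  have hlc : ∀ i, ContDiff ℝ ∞ (l i) := hl.1
  have huc : ∀ a i, ContDiff ℝ ∞ (u a i) := fun a => (hu a).1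
  have hN : ∀ i, S.N i ≠ 0 := fun i => by
    have h1 := S.a_nonneg i
    have h2 := S.a_le i
    linarith
  -- the reciprocal of `|κ|²`
  set n2 : ι → ℝ := fun i => (∑ k, S.kap i k * S.kap i k)⁻¹ with hn2
  have hn2pos : ∀ i, 0 < ∑ k, S.kap i k * S.kap i k := fun i => by
    have := S.kap_ge i
    linarith
  have hn2id : ∀ i, n2 i * ∑ k, S.kap i k * S.kap i k = 1 := fun i =>
    inv_mul_cancel₀ (hn2pos i).ne'
  have hn2nn : ∀ i, 0 ≤ n2 i := fun i => (inv_pos.mpr (hn2pos i)).le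
  have hn2le : ∀ i, n2 i ≤ 2 := fun i => by
    have h1 := S.kap_ge i
    have h2 : n2 i ≤ (1 / 2 : ℝ)⁻¹ := inv_anti₀ (by norm_num) h1
    norm_num at h2
    linarith
  -- coefficients
  set al : Fin 3 → ι → ℝ → ℝ := fun k i t =>
    n2 i * (u (k + 1) i t * S.kap i (k + 2) - u (k + 2) i t * S.kap i (k + 1)) with hal
  have hmodk : ∀ k, Mod S.Lam S.I (fun _ _ => 1) (fun i _ => n2 i * S.kap i k) := by
    intro k
    refine hA3 ι S.Lam S.I (fun _ _ => 1) (fun i => n2 i * S.kap i k) S.two_le_Lam ?_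
    obtain ⟨n, hn⟩ := S.kap_le
    refine ⟨n + 1, fun i t _ => ?_⟩
    rw [abs_mul, abs_of_nonneg (hn2nn i), pow_succ, mul_one]
    have h1 := hn i k
    have h2 := S.two_le_Lam i
    have h3 : 0 ≤ S.Lam i ^ n := by positivity
    calc n2 i * |S.kap i k| ≤ 2 * S.Lam i ^ n :=
          mul_le_mul (hn2le i) h1 (abs_nonneg _) (by norm_num)
      _ ≤ S.Lam i ^ n * S.Lam i := by nlinarith
  have hone : ∀ (c : ι → ℝ → ℝ), Mod S.Lam S.I (fun i t => 1 * mu i t) c →
      Mod S.Lam S.I mu c := fun c hc =>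
    (hA2 ι S.Lam S.I _ c S.two_le_Lam hc).2.2.1 mu (fun i t _ => by rw [one_mul])
  have hmodal : ∀ k, Mod S.Lam S.I mu (al k) := by
    intro k
    have h1 := hone _ (hA1 ι S.Lam S.I (fun _ _ => 1) mu _ _ S.two_le_Lam (hmodk (k + 2))
      (hu (k + 1)))
    have h2 := hone _ (hA1 ι S.Lam S.I (fun _ _ => 1) mu _ _ S.two_le_Lam (hmodk (k + 1))
      (hu (k + 2)))
    have h3 := (hA2 ι S.Lam S.I mu _ S.two_le_Lam h2).2.1 (-1)
    have h4 := (hA2 ι S.Lam S.I mu _ S.two_le_Lam h1).1 _ h3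
    have h5 : al k = fun i t => n2 i * S.kap i (k + 2) * u (k + 1) i t +
        (-1) * (n2 i * S.kap i (k + 1) * u (k + 2) i t) := by
      funext i t
      simp only [hal]
      ring
    rw [h5]
    exact h4
  have halc : ∀ k i, ContDiff ℝ ∞ (al k i) := fun k => (hmodal k).1
  -- derivatives of the profile
  set dp : Fin 3 → V3 → ℝ := fun k y => fderiv ℝ psi y (Pi.single k 1) with hdp
  have hdpc : ∀ k, ContDiff ℝ ∞ (dp k) := fun k => by
    have h1 : ContDiff ℝ ∞ (fderiv ℝ psi) := hpsi.fderiv_right (m := ∞) (by simp)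
    exact h1.clm_apply contDiff_const
  -- potential, velocity, pressure
  set A : Fin 3 → Sm ι := fun k => S.Nis * D3.atom (al k) psi H (halc k) hpsi hHc with hA
  set q : Sm ι := S.Nis * D3.atom l psi H hlc hpsi hHc with hq
  set U : Fin 3 → Sm ι := fun k => D3.atom (al (k + 2)) (dp (k + 1)) H (halc _) (hdpc _) hHc
    - D3.atom (al (k + 1)) (dp (k + 2)) H (halc _) (hdpc _) hHc with hU
  set X : Fin 3 → Sm ι := fun a => ∑ b, S.Gs a b * dt (U b) + ∑ b, S.Bs a b * U b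
    + D3.atom l (dp a) H hlc (hdpc a) hHc with hX
  -- derivative of an atom with profile `psi`, `H`
  have hder : ∀ (c : ι → ℝ → ℝ) (hc : ∀ i, ContDiff ℝ ∞ (c i)) (j : Fin 3) (i : ι) (z : Z),
      (S.D j (S.Nis * D3.atom c psi H hc hpsi hHc)).1 i z =
        (S.N i)⁻¹ * (c i z.1 * dp j z.2.1 * H z.2.2)
          + S.kap i j * (c i z.1 * psi z.2.1 * g z.2.2) := by
    intro c hc j i z
    have h1 : S.D j (S.Nis * D3.atom c psi H hc hpsi hHc) =
        S.Nis * S.D j (D3.atom c psi H hc hpsi hHc) := D3.dd_cst_mul _ _ _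
    rw [h1, D3.mul_val]
    have h2 : (S.D j (D3.atom c psi H hc hpsi hHc)).1 i z =
        (dd (fun i => ((0 : ℝ), (Pi.single j 1 : V3), S.N i * S.kap i j))
          (D3.atom c psi H hc hpsi hHc)).1 i z := rfl
    rw [h2, hC2 ι c psi H (D3.atom c psi H hc hpsi hHc) _ hc hpsi hHc
      (D3.atom_apply c psi H hc hpsi hHc) i z, hHg]
    have h3 : S.Nis.1 i z = (S.N i)⁻¹ := rfl
    rw [h3]
    have h4 : (S.N i)⁻¹ * S.N i = 1 := inv_mul_cancel₀ (hN i)
    simp only [hdp]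
    linear_combination (S.kap i j * (c i z.1 * psi z.2.1 * g z.2.2)) * h4
  -- the velocity
  have hV : ∀ k i z, (curlD S.D A k).1 i z = u k i z.1 * psi z.2.1 * g z.2.2
      + (S.N i)⁻¹ * (U k).1 i z := by
    intro k i z
    have h1 : (curlD S.D A k).1 i z = (S.D (k + 1) (A (k + 2))).1 i z
        - (S.D (k + 2) (A (k + 1))).1 i z := rfl
    have h2 : (U k).1 i z = al (k + 2) i z.1 * dp (k + 1) z.2.1 * H z.2.2
        - al (k + 1) i z.1 * dp (k + 2) z.2.1 * H z.2.2 := rfl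
    have h3 := hder (al (k + 2)) (halc _) (k + 1) i z
    have h4 := hder (al (k + 1)) (halc _) (k + 2) i z
    have h5 := D3.vecid (S.kap i) (fun k => u k i z.1) (n2 i) (hn2id i) (hku i z.1) k
    rw [h1, h2]
    simp only [hA]
    rw [h3, h4]
    simp only [hal] at h5 ⊢
    linear_combination (psi z.2.1 * g z.2.2) * h5
  set V : Fin 3 → Sm ι := fun k => curlD S.D A k with hVdef
  have hVat : ∀ k, V k = D3.atom (u k) psi g (huc k) hpsi hgc + S.Nis * U k := by
    intro k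
    apply Subtype.ext
    funext i z
    exact hV k i z
  -- membership
  have hatom : ∀ (c : ι → ℝ → ℝ) (hc : Mod S.Lam S.I mu c) (k : Fin 3),
      D3.atom c (dp k) H hc.1 (hdpc k) hHc ∈
        Sym S.Lam S.I mu (fun x => P' x ∧ ContDiff ℝ ∞ x) Qz := by
    intro c hc k
    exact Submodule.subset_span ⟨c, dp k, H, hc, ⟨hP' k, hdpc k⟩, hHz, fun i z => rfl⟩
  have hU'' : ∀ k, U k ∈ Sym S.Lam S.I mu (fun x => P' x ∧ ContDiff ℝ ∞ x) Qz := fun k =>
    Submodule.sub_mem _ (hatom _ (hmodal _) _) (hatom _ (hmodal _) _)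
  have hmono : ∀ f : Sm ι, f ∈ Sym S.Lam S.I mu (fun x => P' x ∧ ContDiff ℝ ∞ x) Qz →
      f ∈ Sym S.Lam S.I mu P' Qz := fun f hf =>
    (hB4 ι S.Lam S.I mu (fun _ _ => 1) mu _ P' Qz Qz f S.two_le_Lam (fun x hx => hx.1)
      (fun x hx => hx) hf).1 (fun i t _ => le_refl _)
  have hdtU : ∀ k, dt (U k) ∈ Sym S.Lam S.I mu (fun x => P' x ∧ ContDiff ℝ ∞ x) Qz := fun k =>
    (hB5 ι S.Lam S.I mu _ Qz (U k) S.two_le_Lam (fun x hx => hx.2) (fun x hx => hx.1.1)
      (hU'' k)).1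
  have hcoef : ∀ (c : ι → ℝ → ℝ) (f g : Sm ι), Mod S.Lam S.I (fun _ _ => 1) c →
      IsCoef c f → g ∈ Sym S.Lam S.I mu (fun x => P' x ∧ ContDiff ℝ ∞ x) Qz →
      f * g ∈ Sym S.Lam S.I mu (fun x => P' x ∧ ContDiff ℝ ∞ x) Qz := by
    intro c f g hc hf hg
    exact (hB4 ι S.Lam S.I mu (fun _ _ => 1) mu _ _ Qz Qz g S.two_le_Lam (fun x hx => hx)
      (fun x hx => hx) hg).2 c f hc hf (fun i t _ => by rw [one_mul])
  have hX'' : ∀ a, X a ∈ Sym S.Lam S.I mu (fun x => P' x ∧ ContDiff ℝ ∞ x) Qz := by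
    intro a
    refine Submodule.add_mem _ (Submodule.add_mem _ ?_ ?_) (hatom l hl a)
    · exact Submodule.sum_mem _ fun b _ =>
        hcoef (S.G a b) _ _ (S.mod_G a b) (fun i z => rfl) (hdtU b)
    · exact Submodule.sum_mem _ fun b _ =>
        hcoef (S.B a b) _ _ (S.mod_B a b) (fun i z => rfl) (hU'' b)
  refine ⟨V, q, U, X, H, hHz, fun k => hmono _ (hU'' k), fun k => hmono _ (hX'' k), ?_, ?_, ?_,
    ?_, ?_⟩
  · intro i z
    rfl
  · intro k i z
    exact hV k i z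
  · apply Subtype.ext
    funext i z
    have h0 : S.Nis.1 i z = (S.N i)⁻¹ := rfl
    have hk : ∀ k, (S.ks k).1 i z = S.kap i k := fun k => rfl
    rw [D3.sum_val, D3.mul_val, D3.sum_val, h0]
    simp only [D3.mul_val, hk]
    have h1 := hku i z.1
    have hVk : ∀ k, (V k).1 i z = u k i z.1 * psi z.2.1 * g z.2.2
      + (S.N i)⁻¹ * (U k).1 i z := fun k => hV k i z
    simp only [hVk]
    rw [Fin.sum_univ_three] at h1 ⊢
    rw [Fin.sum_univ_three]
    linear_combination (psi z.2.1 * g z.2.2) * h1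
  · exact (hD1 ι S).2.2 A
  · intro a i z
    have hdtV : ∀ b, (dt (V b)).1 i z = deriv (u b i) z.1 * psi z.2.1 * g z.2.2
        + (S.N i)⁻¹ * (dt (U b)).1 i z := by
      intro b
      rw [hVat b, map_add, D3.add_val]
      have h1 : dt (S.Nis * U b) = S.Nis * dt (U b) := D3.dd_cst_mul _ _ _
      rw [h1, D3.mul_val]
      have h2 : (dt (D3.atom (u b) psi g (huc b) hpsi hgc)).1 i z =
          (dd (fun _ => ((1 : ℝ), (0 : V3), (0 : ℝ)))
            (D3.atom (u b) psi g (huc b) hpsi hgc)).1 i z := rfl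
      rw [h2, hC2 ι (u b) psi g (D3.atom (u b) psi g (huc b) hpsi hgc) _ (huc b) hpsi hgc
        (D3.atom_apply (u b) psi g (huc b) hpsi hgc) i z]
      have h3 : S.Nis.1 i z = (S.N i)⁻¹ := rfl
      rw [h3]
      simp only [map_zero]
      ring
    have hDq := hder l hlc a i z
    have hVk : ∀ k, (V k).1 i z = u k i z.1 * psi z.2.1 * g z.2.2
      + (S.N i)⁻¹ * (U k).1 i z := fun k => hV k i z
    have hGs : ∀ b, (S.Gs a b).1 i z = S.G a b i z.1 := fun b => rfl
    have hBs : ∀ b, (S.Bs a b).1 i z = S.B a b i z.1 := fun b => rfl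
    have hL : (S.L V q a).1 i z = ∑ b, S.G a b i z.1 * (dt (V b)).1 i z
        + ∑ b, S.B a b i z.1 * (V b).1 i z + (S.D a q).1 i z := by
      have h1 : S.L V q a = ∑ b, S.Gs a b * dt (V b) + ∑ b, S.Bs a b * V b + S.D a q := rfl
      rw [h1, D3.add_val, D3.add_val, D3.sum_val, D3.sum_val]
      simp only [D3.mul_val, hGs, hBs]
    have hXa : (X a).1 i z = ∑ b, S.G a b i z.1 * (dt (U b)).1 i z
        + ∑ b, S.B a b i z.1 * (U b).1 i z + l i z.1 * dp a z.2.1 * H z.2.2 := by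
      have h1 : X a = ∑ b, S.Gs a b * dt (U b) + ∑ b, S.Bs a b * U b
        + D3.atom l (dp a) H hlc (hdpc a) hHc := rfl
      rw [h1, D3.add_val, D3.add_val, D3.sum_val, D3.sum_val]
      simp only [D3.mul_val, hGs, hBs, D3.atom_apply]
    rw [hL, hXa, hq, hDq]
    simp only [hdtV, hVk]
    rw [Fin.sum_univ_three, Fin.sum_univ_three, Fin.sum_univ_three, Fin.sum_univ_three,
      Fin.sum_univ_three, Fin.sum_univ_three]
    ring

end Pool.Agent.Work.MP_b0497c_an.Forced.W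

end

section

set_option autoImplicit false

/-!
# WKB module, item D4: solving away an oscillating error
-/

open scoped ContDiff Matrix
open Set

namespace Pool.Agent.Work.MP_b0497c_an.Forced.W

namespace D4

variable {ι : Type}

/-- The conclusion of D4 for a fixed right hand side. -/
def Sol (S : Data ι) (j : ℕ) (r : Fin 3 → Sm ι) : Prop :=
    ∃ (V : Fin 3 → Sm ι) (q s : Sm ι), (∀ k, V k ∈ S.K j) ∧ q ∈ S.K j ∧ s ∈ S.K j ∧
      (∑ k, S.ks k * V k = S.Nis * s) ∧ (∑ k, S.D k (V k) = 0) ∧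
      ∀ a, S.L V q a + r a ∈ S.K (j + 1)

theorem L_add (S : Data ι) (V V' : Fin 3 → Sm ι) (q q' : Sm ι) (a : Fin 3) :
    S.L (V + V') (q + q') a = S.L V q a + S.L V' q' a := by
  simp only [Data.L, LL, Pi.add_apply, map_add, mul_add, Finset.sum_add_distrib]
  abel

theorem L_smul (S : Data ι) (c : ℝ) (V : Fin 3 → Sm ι) (q : Sm ι) (a : Fin 3) :
    S.L (c • V) (c • q) a = c • S.L V q a := by
  simp only [Data.L, LL, Pi.smul_apply, Derivation.map_smul, mul_smul_comm, smul_add,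
    Finset.smul_sum]

theorem L_zero (S : Data ι) (a : Fin 3) : S.L 0 0 a = 0 := by
  simp only [Data.L, LL, Pi.zero_apply, map_zero, mul_zero, Finset.sum_const_zero, add_zero]

theorem Sol.zero (S : Data ι) (j : ℕ) : Sol S j 0 := by
  refine ⟨0, 0, 0, fun k => (S.K j).zero_mem, (S.K j).zero_mem, (S.K j).zero_mem, ?_, ?_, ?_⟩
  · simp
  · simp
  · intro a
    rw [L_zero]
    simp only [Pi.zero_apply, add_zero]
    exact (S.K (j + 1)).zero_mem

theorem Sol.add {S : Data ι} {j : ℕ} {r r' : Fin 3 → Sm ι} (h : Sol S j r) (h' : Sol S j r') :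
    Sol S j (r + r') := by
  obtain ⟨V, q, s, h1, h2, h3, h4, h5, h6⟩ := h
  obtain ⟨V', q', s', h1', h2', h3', h4', h5', h6'⟩ := h'
  refine ⟨V + V', q + q', s + s', fun k => (S.K j).add_mem (h1 k) (h1' k),
    (S.K j).add_mem h2 h2', (S.K j).add_mem h3 h3', ?_, ?_, ?_⟩
  · simp only [Pi.add_apply, mul_add, Finset.sum_add_distrib, h4, h4']
  · simp only [Pi.add_apply, map_add, Finset.sum_add_distrib, h5, h5', add_zero]
  · intro a
    rw [L_add, Pi.add_apply]
    have := (S.K (j + 1)).add_mem (h6 a) (h6' a)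
    have e : S.L V q a + S.L V' q' a + (r a + r' a) = S.L V q a + r a + (S.L V' q' a + r' a) := by
      abel
    rw [e]
    exact this

theorem Sol.smul {S : Data ι} {j : ℕ} {r : Fin 3 → Sm ι} (c : ℝ) (h : Sol S j r) :
    Sol S j (c • r) := by
  obtain ⟨V, q, s, h1, h2, h3, h4, h5, h6⟩ := h
  refine ⟨c • V, c • q, c • s, fun k => (S.K j).smul_mem c (h1 k),
    (S.K j).smul_mem c h2, (S.K j).smul_mem c h3, ?_, ?_, ?_⟩
  · simp only [Pi.smul_apply, mul_smul_comm, ← Finset.smul_sum, h4]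
  · simp only [Pi.smul_apply, Derivation.map_smul, ← Finset.smul_sum, h5, smul_zero]
  · intro a
    rw [L_smul, Pi.smul_apply, ← smul_add]
    exact (S.K (j + 1)).smul_mem c (h6 a)

theorem Sol.sum {S : Data ι} {j : ℕ} {α : Type} (t : Finset α) (r : α → Fin 3 → Sm ι)
    (h : ∀ b ∈ t, Sol S j (r b)) : Sol S j (∑ b ∈ t, r b) := by
  classical
  induction t using Finset.induction_on with
  | empty => simpa using Sol.zero S j
  | insert b t hb ih =>
    rw [Finset.sum_insert hb]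
    exact (h b (Finset.mem_insert_self _ _)).add
      (ih fun x hx => h x (Finset.mem_insert_of_mem hx))

/-- an atom as element of `Sm ι` -/
def atom (c : ι → ℝ → ℝ) (psi : V3 → ℝ) (g : ℝ → ℝ) (hc : ∀ i, ContDiff ℝ ∞ (c i))
    (hp : ContDiff ℝ ∞ psi) (hg : ContDiff ℝ ∞ g) : Sm ι :=
  ⟨fun i z => c i z.1 * psi z.2.1 * g z.2.2, fun i =>
    (((hc i).comp contDiff_fst).mul (hp.comp (contDiff_fst.comp contDiff_snd))).mul
      (hg.comp (contDiff_snd.comp contDiff_snd))⟩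

/-- one atom in one component -/
theorem Sol.atom (hA2 : claimA2) (hB1 : claimB1) (hD2 : claimD2) (hD3 : claimD3) (S : Data ι)
    (j : ℕ) (a0 : Fin 3) (f : Sm ι) (c : ι → ℝ → ℝ) (psi : V3 → ℝ) (g : ℝ → ℝ)
    (hc : Mod S.Lam S.I (wt S.N S.a S.p j) c) (hpsi : Pf psi) (hg : Qz g)
    (hf : ∀ i z, f.1 i z = c i z.1 * psi z.2.1 * g z.2.2) :
    Sol S j (Pi.single a0 f) := by
  obtain ⟨-, k2, k3, -, -, -, k7, -, -⟩ := hD2 ι S
  have hN0 : ∀ i, 0 < S.N i := fun i => by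
    have h1 := S.a_nonneg i
    have h2 := S.a_le i
    linarith
  have hKz : ∀ f ∈ Sym S.Lam S.I (wt S.N S.a S.p j) Pf Qz, f ∈ S.K j := fun f hf =>
    (k3 j).2.1 hf
  -- solve
  obtain ⟨u, l, hu, hl, hkap, heq⟩ := S.solve
    (fun i => ((1 + S.a i) / S.N i) ^ j * (S.N i)⁻¹)
    (fun i => by
      have h1 := S.a_nonneg i
      have h2 := hN0 i
      positivity)
    (fun b i t => (if b = a0 then (-1 : ℝ) else 0) * c i t)
    (fun b => (hA2 ι S.Lam S.I (wt S.N S.a S.p j) c S.two_le_Lam hc).2.1 _)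
  have hu' : ∀ a, Mod S.Lam S.I (wt S.N S.a S.p j) (u a) := hu
  have hl' : Mod S.Lam S.I (wt S.N S.a S.p j) l := hl
  obtain ⟨V, q, U, X, H, hH, hU, hX, hq, hV, hdiv, hD, hL⟩ := hD3 ι S (wt S.N S.a S.p j) u l psi g
    Pf hu' hl' hkap hpsi.1.1 hg (fun k => hB1.2.2.2.1 psi k hpsi)
  have hgc : ContDiff ℝ ∞ g := hg.1.1
  have hHc : ContDiff ℝ ∞ H := hH.1.1
  have hVK : ∀ k, V k ∈ S.K j := by
    intro k
    have e : V k = D4.atom (u k) psi g (hu' k).1 hpsi.1.1 hgc + S.Nis * U k := by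
      apply Subtype.ext
      funext i z
      rw [hV k i z]
      rfl
    rw [e]
    refine (S.K j).add_mem ?_ ?_
    · exact Submodule.subset_span ⟨u k, psi, g, hu' k, hpsi, hg.1, fun i z => rfl⟩
    · exact (k2 j (j + 1) (Nat.le_succ j)).2.1 ((k7 j _ (hKz _ (hU k))).1)
  refine ⟨V, q, ∑ k, S.ks k * U k, hVK, ?_, ?_, hdiv, hD, ?_⟩
  · have e : q = S.Nis * D4.atom l psi H hl'.1 hpsi.1.1 hHc := by
      apply Subtype.ext
      funext i z
      rw [hq i z]
      rfl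
    rw [e]
    refine (k2 j (j + 1) (Nat.le_succ j)).2.1 ((k7 j _ ?_).1)
    exact Submodule.subset_span ⟨l, psi, H, hl', hpsi, hH.1, fun i z => rfl⟩
  · exact (S.K j).sum_mem fun k _ => (k7 j _ (hKz _ (hU k))).2.1 k
  · intro a
    have e : S.L V q a + (Pi.single a0 f : Fin 3 → Sm ι) a = S.Nis * X a := by
      apply Subtype.ext
      funext i z
      have h1 := hL a i z
      rw [heq i z.1 a] at h1
      have h2 : ((Pi.single a0 f : Fin 3 → Sm ι) a).1 i z =
          (if a = a0 then (1 : ℝ) else 0) * (c i z.1 * psi z.2.1 * g z.2.2) := by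
        by_cases ha : a = a0
        · subst ha
          rw [Pi.single_eq_same, if_pos rfl, one_mul, hf i z]
        · rw [Pi.single_eq_of_ne ha, if_neg ha, zero_mul]
          rfl
      show (S.L V q a).1 i z + ((Pi.single a0 f : Fin 3 → Sm ι) a).1 i z
        = (S.N i)⁻¹ * (X a).1 i z
      rw [h1, h2]
      by_cases ha : a = a0
      · rw [if_pos ha, if_pos ha]; ring
      · rw [if_neg ha, if_neg ha]; ring
    rw [e]
    exact (k7 j _ (hKz _ (hX a))).1

end D4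

/-- D4 from A2, B1, D2, D3. -/
theorem prfD4 (hA2 : claimA2) (hB1 : claimB1) (hD2 : claimD2) (hD3 : claimD3) : claimD4 := by
  intro ι S j r hr
  have hcomp : ∀ a, D4.Sol S j (Pi.single a (r a)) := by
    intro a
    have h := hr a
    unfold Data.Kz Sym at h
    generalize r a = f0 at h
    induction h using Submodule.span_induction with
    | mem f hf =>
      obtain ⟨c, psi, g, hc, hpsi, hg, hf⟩ := hf
      exact D4.Sol.atom hA2 hB1 hD2 hD3 S j a f c psi g hc hpsi hg hf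
    | zero => simpa using D4.Sol.zero S j
    | add f g _ _ hf hg =>
      rw [Pi.single_add]
      exact hf.add hg
    | smul c f _ hf =>
      rw [Pi.single_smul']
      exact hf.smul c
  have e : r = ∑ a, Pi.single a (r a) := by
    rw [Finset.univ_sum_single]
  rw [e]
  exact D4.Sol.sum _ _ fun a _ => hcomp a

end Pool.Agent.Work.MP_b0497c_an.Forced.W

end

section

set_option autoImplicit false
set_option linter.unusedVariables false

open scoped ContDiff Matrix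
open Set

namespace Pool.Agent.Work.MP_b0497c_an.Forced.W

namespace D5

variable {ι : Type}

/-- An atom as an element of `Sm ι`. -/
def atom (c : ι → ℝ → ℝ) (psi : V3 → ℝ) (g : ℝ → ℝ) (hc : ∀ i, ContDiff ℝ ∞ (c i))
    (hpsi : ContDiff ℝ ∞ psi) (hg : ContDiff ℝ ∞ g) : Sm ι :=
  ⟨fun i z => c i z.1 * psi z.2.1 * g z.2.2, fun i =>
    (((hc i).comp contDiff_fst).mul (hpsi.comp (contDiff_fst.comp contDiff_snd))).mul
      (hg.comp (contDiff_snd.comp contDiff_snd))⟩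

theorem atom_mem {Lam : ι → ℝ} {I : ι → Set ℝ} {mu : ι → ℝ → ℝ} {P : (V3 → ℝ) → Prop}
    {Q : (ℝ → ℝ) → Prop} (c : ι → ℝ → ℝ) (psi : V3 → ℝ) (g : ℝ → ℝ)
    (hc : ∀ i, ContDiff ℝ ∞ (c i))
    (hpsi : ContDiff ℝ ∞ psi) (hg : ContDiff ℝ ∞ g) (h1 : Mod Lam I mu c) (h2 : P psi)
    (h3 : Q g) : atom c psi g hc hpsi hg ∈ Sym Lam I mu P Q :=
  Submodule.subset_span ⟨c, psi, g, h1, h2, h3, fun _ _ => rfl⟩

theorem Sym_mono {Lam : ι → ℝ} {I : ι → Set ℝ} {mu : ι → ℝ → ℝ} {P P' : (V3 → ℝ) → Prop}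
    {Q Q' : (ℝ → ℝ) → Prop} (hP : ∀ x, P x → P' x) (hQ : ∀ x, Q x → Q' x) :
    Sym Lam I mu P Q ≤ Sym Lam I mu P' Q' := by
  apply Submodule.span_mono
  rintro f ⟨c, psi, g, h1, h2, h3, h4⟩
  exact ⟨c, psi, g, h1, hP _ h2, hQ _ h3, h4⟩

/-- multiplication by `N⁻¹`. -/
theorem Nis_mul_mem (hA2 : claimA2) (S : Data ι) {P P' : (V3 → ℝ) → Prop}
    {Q Q' : (ℝ → ℝ) → Prop} (hP : ∀ x, P x → P' x) (hQ : ∀ x, Q x → Q' x) (f : Sm ι)
    (hf : f ∈ Sym S.Lam S.I S.p P Q) :
    S.Nis * f ∈ Sym S.Lam S.I (wt S.N S.a S.p 0) P' Q' := by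
  have hN : ∀ i, 0 ≤ (S.N i)⁻¹ := fun i => by
    have h1 := S.a_le i
    have h2 := S.a_nonneg i
    exact inv_nonneg.2 (by linarith)
  induction hf using Submodule.span_induction with
  | mem x hx =>
    obtain ⟨c, psi, g, h1, h2, h3, h4⟩ := hx
    refine Submodule.subset_span ⟨fun i t => (S.N i)⁻¹ * c i t, psi, g, ?_, hP _ h2, hQ _ h3, ?_⟩
    · have := (hA2 ι S.Lam S.I S.p c S.two_le_Lam h1).2.2.2.2 (fun i => (S.N i)⁻¹) hN
      have e : wt S.N S.a S.p 0 = fun i t => (S.N i)⁻¹ * S.p i t := by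
        funext i t
        simp [wt]
      rw [e]
      exact this
    · intro i z
      show (S.N i)⁻¹ * x.1 i z = _
      rw [h4 i z]
      ring
  | zero => rw [mul_zero]; exact Submodule.zero_mem _
  | add x y _ _ hx hy => rw [mul_add]; exact Submodule.add_mem _ hx hy
  | smul r x _ hx =>
    rw [mul_smul_comm]
    exact Submodule.smul_mem _ _ hx

/-- symbols with flat profiles vanish near `0`. -/
theorem flat_zero {Lam : ι → ℝ} {I : ι → Set ℝ} {mu : ι → ℝ → ℝ} {Q : (ℝ → ℝ) → Prop}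
    (f : Sm ι) (hf : f ∈ Sym Lam I mu Pf Q) (i : ι) (z : Z) (hz : ‖z.2.1‖ < 1 / 2) :
    f.1 i z = 0 := by
  induction hf using Submodule.span_induction with
  | mem x hx =>
    obtain ⟨c, psi, g, h1, h2, h3, h4⟩ := hx
    rw [h4 i z, h2.2 z.2.1 hz]
    ring
  | zero => rfl
  | add x y _ _ hx hy =>
    show x.1 i z + y.1 i z = 0
    rw [hx, hy, add_zero]
  | smul r x _ hx =>
    show r • x.1 i z = 0
    rw [hx, smul_zero]

theorem dd_cst (v : ι → Z) (c : ι → ℝ) : dd v (cst c) = 0 := by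
  apply Subtype.ext
  funext i z
  rw [dd_apply]
  show fderiv ℝ (fun _ : Z => c i) z (v i) = 0
  simp

theorem dd_Nis_mul (S : Data ι) (v : ι → Z) (f : Sm ι) :
    dd v (S.Nis * f) = S.Nis * dd v f := by
  have h : dd v (S.Nis * f) = S.Nis • dd v f + f • dd v S.Nis := (dd v).leibniz _ _
  have h0 : dd v S.Nis = 0 := dd_cst v _
  rw [h, h0, smul_zero, add_zero, smul_eq_mul]

theorem dt_Nis_mul (S : Data ι) (f : Sm ι) : dt (S.Nis * f) = S.Nis * dt f := dd_Nis_mul S _ f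

theorem dy_Nis_mul (S : Data ι) (k : Fin 3) (f : Sm ι) :
    dy k (S.Nis * f) = S.Nis * dy k f := dd_Nis_mul S _ f

theorem D_Nis_mul (S : Data ι) (k : Fin 3) (f : Sm ι) :
    S.D k (S.Nis * f) = S.Nis * S.D k f := dd_Nis_mul S _ f

theorem L_Nis_mul (S : Data ι) (V : Fin 3 → Sm ι) (q : Sm ι) (a : Fin 3) :
    S.L (fun k => S.Nis * V k) (S.Nis * q) a = S.Nis * S.L V q a := by
  show LL S.Gs S.Bs S.D (fun k => S.Nis * V k) (S.Nis * q) a = S.Nis * LL S.Gs S.Bs S.D V q a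
  unfold LL
  simp only [dt_Nis_mul, D_Nis_mul, mul_add, Finset.mul_sum]
  congr 1
  congr 1
  · exact Finset.sum_congr rfl fun b _ => by ring
  · exact Finset.sum_congr rfl fun b _ => by ring

end D5

open D5 in
theorem prfD5 (hA2 : claimA2) (hB1 : claimB1) (hB5 : claimB5) (hD1 : claimD1) (hD2 : claimD2)
    (hD3 : claimD3) : claimD5 := by
  intro ι S chi h hchi hchi1 hh
  obtain ⟨V1, q1, U, X, H, hH, hU, hX, hq, hV, hkV, hDV, hL⟩ := hD3 ι S S.p S.v S.lam chi h Pf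
    S.mod_v S.mod_lam S.v_kap hchi.1 hh (fun k => hB1.2.2.2.2 chi k hchi hchi1)
  have hQ : ∀ x, Qz x → Qp x := fun x hx => hx.1
  have hPP : ∀ x, Pf x → Pf x := fun x hx => hx
  have hPf : ∀ x, Pf x → Pb x := fun x hx => hx.1
  have hP : ∀ x, Pb x → Pb x := fun x hx => hx
  obtain ⟨d1, d2, d3, d4, d5, d6, d7, d8, d9⟩ := hD2 ι S
  have K1K0 : S.K 1 ≤ S.K 0 := (d2 0 1 (Nat.zero_le _)).2.1
  have K0O0 : S.K 0 ≤ S.O 0 := (d3 0).1
  have O1O0 : S.O 1 ≤ S.O 0 := (d2 0 1 (Nat.zero_le _)).1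
  -- `N⁻¹ U ∈ K 0`
  have hU0 : ∀ k, S.Nis * U k ∈ S.K 0 := fun k => Nis_mul_mem hA2 S hPP hQ _ (hU k)
  have hX0 : ∀ k, S.Nis * X k ∈ S.K 0 := fun k => Nis_mul_mem hA2 S hPP hQ _ (hX k)
  -- the main atoms
  let A : Fin 3 → Sm ι := fun k => atom (S.v k) chi h (S.mod_v k).1 hchi.1 hh.1.1
  have hA : ∀ k, S.Nis * A k ∈ S.O 0 := fun k =>
    Nis_mul_mem hA2 S hP hQ _ (atom_mem (Q := Qz) _ _ _ _ _ _ (S.mod_v k) hchi hh)
  have hV' : ∀ k, V1 k = A k + S.Nis * U k := by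
    intro k
    apply Subtype.ext
    funext i z
    show (V1 k).1 i z = S.v k i z.1 * chi z.2.1 * h z.2.2 + (S.N i)⁻¹ * (U k).1 i z
    exact hV k i z
  have hV0 : ∀ k, S.Nis * V1 k = S.Nis * A k + S.Nis * (S.Nis * U k) := by
    intro k
    rw [hV' k, mul_add]
  have hNU : ∀ k, S.Nis * (S.Nis * U k) ∈ S.K 1 := fun k => (d7 0 _ (hU0 k)).1
  refine ⟨fun k => S.Nis * V1 k, S.Nis * q1, S.Nis * ∑ k, S.ks k * U k, ?_, ?_, ?_, ?_, ?_, ?_,
    ?_, ?_⟩
  · intro k
    show S.Nis * V1 k ∈ S.O 0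
    rw [hV0 k]
    exact Submodule.add_mem _ (hA k) (K0O0 (K1K0 (hNU k)))
  · let B : Sm ι := atom S.lam chi H S.mod_lam.1 hchi.1 hH.1.1
    have hB : S.Nis * B ∈ S.O 0 :=
      Nis_mul_mem hA2 S hP hQ _ (atom_mem (Q := Qz) _ _ _ _ _ _ S.mod_lam hchi hH)
    have e : q1 = S.Nis * B := by
      apply Subtype.ext
      funext i z
      show q1.1 i z = (S.N i)⁻¹ * (S.lam i z.1 * chi z.2.1 * H z.2.2)
      exact hq i z
    rw [e]
    exact O1O0 (d6 0 _ hB).1
  · rw [Finset.mul_sum]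
    refine Submodule.sum_mem _ fun k _ => ?_
    have e : S.Nis * (S.ks k * U k) = S.ks k * (S.Nis * U k) := by ring
    rw [e]
    exact (d7 0 _ (hU0 k)).2.1 k
  · show ∑ k, S.ks k * (S.Nis * V1 k) = S.Nis * (S.Nis * ∑ k, S.ks k * U k)
    rw [← hkV, Finset.mul_sum]
    exact Finset.sum_congr rfl fun k _ => by ring
  · show ∑ k, S.D k (S.Nis * V1 k) = 0
    simp only [D_Nis_mul]
    rw [← Finset.mul_sum, hDV, mul_zero]
  · intro k l
    show dy l (S.Nis * V1 k) ∈ S.K 0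
    rw [hV0 k, map_add]
    refine Submodule.add_mem _ ?_ (K1K0 ((d5 1 _ (hNU k)).2.2 l))
    rw [dy_Nis_mul]
    refine Nis_mul_mem hA2 S hPP hQ _ (Submodule.subset_span ⟨S.v k,
      fun y => fderiv ℝ chi y (Pi.single l 1), h, S.mod_v k, hB1.2.2.2.2 chi l hchi hchi1, hh, ?_⟩)
    intro i z
    have e := prfC2 ι (S.v k) chi h (A k) (fun _ => (0, Pi.single l 1, 0)) (S.mod_v k).1
      hchi.1 hh.1.1 (fun _ _ => rfl) i z
    show (dd (fun _ => (0, Pi.single l 1, 0)) (A k)).1 i z = _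
    rw [e]
    ring
  · intro a
    show S.L (fun k => S.Nis * V1 k) (S.Nis * q1) a ∈ S.K 1
    rw [L_Nis_mul]
    have e : S.L V1 q1 a = S.Nis * X a := by
      apply Subtype.ext
      funext i z
      show (S.L V1 q1 a).1 i z = (S.N i)⁻¹ * (X a).1 i z
      rw [hL a i z, S.v_eq i z.1 a]
      ring
    rw [e]
    exact (d7 0 _ (hX0 a)).1
  · intro k i z hz
    show (S.N i)⁻¹ * (V1 k).1 i z = _
    rw [hV k i z, flat_zero _ (hU k) i z hz, hchi1 z.2.1 hz]
    ring

end Pool.Agent.Work.MP_b0497c_an.Forced.W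

end

section

set_option autoImplicit false

/-!
# WKB module: item D6, algebra of the quadratic operator
-/

open scoped ContDiff Matrix
open Set

namespace Pool.Agent.Work.MP_b0497c_an.Forced.W

theorem prfD6 : claimD6 := by
  intro ι S V V' q q' s hs hN hD
  refine ⟨fun f => ?_, fun a => ?_, fun a => ?_⟩
  · simp only [Fin.sum_univ_three] at hs ⊢
    rw [hD 0 f, hD 1 f, hD 2 f]
    linear_combination (S.Ns * dth f) * hs + (s * dth f) * hN
  · unfold Data.E Data.L EE LL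
    ring
  · unfold Data.E Data.L EE LL
    simp only [Fin.sum_univ_three, map_add]
    ring

end Pool.Agent.Work.MP_b0497c_an.Forced.W

end

section

set_option autoImplicit false

/-!
# WKB module: item D7, the expansion with `J` correctors
-/

open scoped ContDiff Matrix
open Set

namespace Pool.Agent.Work.MP_b0497c_an.Forced.W

namespace D7

variable {ι : Type}

/-- Flat symbols vanish near the centre. -/
theorem flat_zero (S : Data ι) (j : ℕ) (f : Sm ι) (hf : f ∈ S.K j) (i : ι) (z : Z)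
    (hz : ‖z.2.1‖ < 1 / 2) : f.1 i z = 0 := by
  unfold Data.K Sym at hf
  induction hf using Submodule.span_induction with
  | mem f hf =>
    obtain ⟨c, psi, g, _, hpsi, _, h⟩ := hf
    rw [h, hpsi.2 _ hz]
    ring
  | zero => rfl
  | add f g _ _ hf hg =>
    have : (f + g).1 i z = f.1 i z + g.1 i z := rfl
    rw [this, hf, hg, add_zero]
  | smul r f _ hf =>
    have : (r • f).1 i z = r * f.1 i z := rfl
    rw [this, hf, mul_zero]

end D7

theorem prfD7 (hD1 : claimD1) (hD2 : claimD2) (hD4 : claimD4) (hD5 : claimD5)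
    (hD6 : claimD6) : claimD7 := by
  intro ι S chi h hchi hchi1 hh J
  obtain ⟨d1, -, -⟩ := hD1 ι S
  obtain ⟨c1, c2, c3, c4, c5, c6, c7, c8, c9⟩ := hD2 ι S
  have c1' : ∀ j l f g, f ∈ S.K l → g ∈ S.O j → f * g ∈ S.K (j + l + 1) := by
    intro j l f g hf hg
    rw [mul_comm]
    exact c1 j l g f hg hf
  induction J with
  | zero =>
    obtain ⟨V, q, s, e1, e2, e3, e4, e5, e6, e7, e8⟩ := hD5 ι S chi h hchi hchi1 hh
    obtain ⟨f1, f2, -⟩ := hD6 ι S V V q q s e4 c9 d1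
    have hE : ∀ a, S.E V q a ∈ S.K 1 := by
      intro a
      rw [f2 a]
      refine (S.K 1).add_mem (e7 a) ((S.K 1).sum_mem fun b _ => ?_)
      refine ((c7 1 _ ?_).2.2 a b).1
      rw [f1]
      refine (S.K 1).add_mem ((S.K 1).sum_mem fun k _ => ?_) ?_
      · exact c1 0 0 _ _ (e1 k) (e6 b k)
      · exact c1' 0 0 _ _ e3 (c4 0 _ (e1 b)).2.1
    choose m hm o ho hmo using fun a => c8 1 _ (hE a)
    exact ⟨V, q, s, m, o, e1, e2, (c3 0).1 e3, e4, e5, hm, ho, hmo, e8⟩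
  | succ J ih =>
    obtain ⟨V, q, s, m, o, e1, e2, e3, e4, e5, e6, e7, e8, e9⟩ := ih
    obtain ⟨V', q', s', g1, g2, g3, g4, g5, g6⟩ := hD4 ι S (J + 1) o e7
    obtain ⟨f1, -, f3⟩ := hD6 ι S V V' q q' s e4 c9 d1
    obtain ⟨f1', -, -⟩ := hD6 ι S V' V' q' q' s' g4 c9 d1
    have hO : ∀ f, f ∈ S.K (J + 1) → f ∈ S.O 0 := fun f hf =>
      (c2 0 (J + 1) (Nat.zero_le _)).1 ((c3 (J + 1)).1 hf)
    have hidx : 0 + (J + 1) + 1 = J + 1 + 1 := by omega
    have p1 : ∀ f g, f ∈ S.O 0 → g ∈ S.K (J + 1) → f * g ∈ S.K (J + 1 + 1) := by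
      intro f g hf hg
      have := c1 0 (J + 1) f g hf hg
      rwa [hidx] at this
    have p2 : ∀ f g, f ∈ S.K (J + 1) → g ∈ S.O 0 → f * g ∈ S.K (J + 1 + 1) := by
      intro f g hf hg
      rw [mul_comm]
      exact p1 g f hg hf
    have hR : ∀ a, (S.L V' q' a + o a) + ∑ b, S.Gs a b * (∑ k, V k * S.D k (V' b) +
        ∑ k, V' k * S.D k (V b) + ∑ k, V' k * S.D k (V' b)) ∈ S.K (J + 1 + 1) := by
      intro a
      refine (S.K (J + 1 + 1)).add_mem (g6 a) ((S.K (J + 1 + 1)).sum_mem fun b _ => ?_)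
      refine ((c7 (J + 1 + 1) _ ?_).2.2 a b).1
      rw [f1, f1', f1']
      refine (S.K (J + 1 + 1)).add_mem ((S.K (J + 1 + 1)).add_mem ?_ ?_) ?_
      · refine (S.K (J + 1 + 1)).add_mem ((S.K (J + 1 + 1)).sum_mem fun k _ => ?_) ?_
        · exact p1 _ _ (e1 k) ((c5 (J + 1) _ (g1 b)).2.2 k)
        · exact p1 _ _ e3 (c5 (J + 1) _ (g1 b)).2.1
      · refine (S.K (J + 1 + 1)).add_mem ((S.K (J + 1 + 1)).sum_mem fun k _ => ?_) ?_
        · exact p2 _ _ (g1 k) ((c4 0 _ (e1 b)).2.2 k)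
        · exact p2 _ _ g3 (c4 0 _ (e1 b)).2.1
      · refine (S.K (J + 1 + 1)).add_mem ((S.K (J + 1 + 1)).sum_mem fun k _ => ?_) ?_
        · exact p1 _ _ (hO _ (g1 k)) ((c5 (J + 1) _ (g1 b)).2.2 k)
        · exact p1 _ _ (hO _ g3) (c5 (J + 1) _ (g1 b)).2.1
    choose m' hm' o' ho' hmo' using fun a => c8 (J + 1 + 1) _ (hR a)
    refine ⟨fun k => V k + V' k, q + q', s + s', fun a => m a + m' a, o', ?_, ?_, ?_, ?_, ?_, ?_,
      ho', ?_, ?_⟩
    · intro k
      exact (S.O 0).add_mem (e1 k) (hO _ (g1 k))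
    · exact (S.O 0).add_mem e2 (hO _ g2)
    · exact (S.O 0).add_mem e3 (hO _ g3)
    · simp only [mul_add, Finset.sum_add_distrib]
      rw [e4, g4]
    · simp only [map_add, Finset.sum_add_distrib]
      rw [e5, g5, add_zero]
    · intro a
      exact (S.Km 1).add_mem (e6 a) ((c2 1 (J + 1 + 1) (by omega)).2.2.1 (hm' a))
    · intro a
      rw [f3 a, e8 a]
      have := hmo' a
      calc m a + o a + S.L V' q' a + ∑ b, S.Gs a b * (∑ k, V k * S.D k (V' b) +
            ∑ k, V' k * S.D k (V b) + ∑ k, V' k * S.D k (V' b))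
          = m a + ((S.L V' q' a + o a) + ∑ b, S.Gs a b * (∑ k, V k * S.D k (V' b) +
            ∑ k, V' k * S.D k (V b) + ∑ k, V' k * S.D k (V' b))) := by ring
        _ = m a + (m' a + o' a) := by rw [this]
        _ = m a + m' a + o' a := by ring
    · intro k i z hz
      have h1 : (V k + V' k).1 i z = (V k).1 i z + (V' k).1 i z := rfl
      rw [h1, e9 k i z hz, D7.flat_zero S (J + 1) (V' k) (g1 k) i z hz, add_zero]

end Pool.Agent.Work.MP_b0497c_an.Forced.W

end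

section

set_option autoImplicit false

/-!
# WKB module, item R1: the chain rule for the change of variables `Phi`.
-/

open scoped ContDiff Matrix
open Set

namespace Pool.Agent.Work.MP_b0497c_an.Forced.W

namespace R1

variable {ι : Type}

/-- the basic direction -/
theorem dir (S : Lev ι) (i : ι) (Fi : Matrix (Fin 3) (Fin 3) ℝ) (K v : V3)
    (hK : K = Fiᵀ *ᵥ S.kap i) :
    ((0 : ℝ), (S.rho i)⁻¹ • (Fi *ᵥ v), S.Nf i * (K ⬝ᵥ v)) =
      (S.rho i)⁻¹ • ∑ k, (Fi *ᵥ v) k •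
        (((0 : ℝ), (Pi.single k 1 : V3), S.Nf i * S.rho i * S.kap i k) : Z) := by
  have hr : S.rho i ≠ 0 := (S.rho_pos i).ne'
  have e1 : K ⬝ᵥ v = ∑ k, (Fi *ᵥ v) k * S.kap i k := by
    rw [hK]
    simp only [Matrix.mulVec, dotProduct, Fin.sum_univ_three, Matrix.transpose_apply]
    ring
  apply Prod.ext
  · simp [Fin.sum_univ_three]
  apply Prod.ext
  · funext j
    fin_cases j <;> simp [Fin.sum_univ_three]
  · rw [e1]
    simp only [Fin.sum_univ_three, smul_eq_mul, Prod.smul_mk, Prod.mk_add_mk]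
    field_simp

theorem app (S : Lev ι) (T : Data ι) (h : Rel S T) (f : Sm ι) (i : ι) (z : Z) (K v : V3)
    (Fi : Matrix (Fin 3) (Fin 3) ℝ) (hK : K = Fiᵀ *ᵥ S.kap i) :
    fderiv ℝ (f.1 i) z ((0 : ℝ), (S.rho i)⁻¹ • (Fi *ᵥ v), S.Nf i * (K ⬝ᵥ v)) =
      (S.rho i)⁻¹ * ∑ k, (Fi *ᵥ v) k * (T.D k f).1 i z := by
  rw [dir S i Fi K v hK, map_smul, map_sum, smul_eq_mul]
  congr 1
  apply Finset.sum_congr rfl
  intro k _
  rw [map_smul, smul_eq_mul]
  congr 1
  show _ = fderiv ℝ (f.1 i) z (0, Pi.single k 1, T.N i * T.kap i k)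
  rw [h.N, h.kap]

end R1

theorem prfR1 (hT4 : claimT4) : claimR1 := by
  intro ι S T hR f i
  obtain ⟨_, hK, _, hKd, hKc, _, hFid, _, _⟩ := hT4 ι S
  have hf : ContDiff ℝ ∞ (f.1 i) := f.2 i
  have hfd : Differentiable ℝ (f.1 i) := hf.differentiable (by simp)
  refine ⟨?_, ?_, ?_⟩
  · have h2 : ContDiff ℝ ∞ (fun z : ℝ × V3 => (S.rho i)⁻¹ • (S.Fi i z.1 *ᵥ z.2)) := by
      apply contDiff_pi.mpr
      intro j
      have : (fun z : ℝ × V3 => ((S.rho i)⁻¹ • (S.Fi i z.1 *ᵥ z.2)) j) =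
          fun z : ℝ × V3 => (S.rho i)⁻¹ * ∑ k, S.Fi i z.1 j k * z.2 k := by
        funext z
        simp [Matrix.mulVec, dotProduct]
      rw [this]
      apply contDiff_const.mul
      apply ContDiff.sum
      intro k _
      exact (((S.mod_Fi j k).1 i).comp contDiff_fst).mul
        ((contDiff_apply ℝ ℝ k).comp contDiff_snd)
    have h3 : ContDiff ℝ ∞ (fun z : ℝ × V3 => S.Nf i * (S.K i z.1 ⬝ᵥ z.2)) := by
      apply contDiff_const.mul
      have : (fun z : ℝ × V3 => S.K i z.1 ⬝ᵥ z.2) = fun z : ℝ × V3 => ∑ k, S.K i z.1 k * z.2 k := rfl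
      rw [this]
      apply ContDiff.sum
      intro k _
      exact (((contDiff_pi.mp (hKc i)) k).comp contDiff_fst).mul
        ((contDiff_apply ℝ ℝ k).comp contDiff_snd)
    exact contDiff_fst.prodMk (h2.prodMk h3)
  · intro t x j
    have hin : HasFDerivAt (fun y : V3 => Phi S i (t, y))
        ((0 : V3 →L[ℝ] ℝ).prod
          (((S.rho i)⁻¹ • (Matrix.mulVecLin (S.Fi i t)).toContinuousLinearMap).prod
            (S.Nf i • ∑ k, S.K i t k • (ContinuousLinearMap.proj k : V3 →L[ℝ] ℝ)))) x := by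
      apply HasFDerivAt.prodMk
      · exact hasFDerivAt_const _ _
      apply HasFDerivAt.prodMk
      · exact ((S.rho i)⁻¹ • (Matrix.mulVecLin (S.Fi i t)).toContinuousLinearMap).hasFDerivAt
      · have h := (S.Nf i • ∑ k, S.K i t k • (ContinuousLinearMap.proj k : V3 →L[ℝ] ℝ)).hasFDerivAt
          (x := x)
        have e : (fun y : V3 => S.Nf i * (S.K i t ⬝ᵥ y)) =
            ⇑(S.Nf i • ∑ k, S.K i t k • (ContinuousLinearMap.proj k : V3 →L[ℝ] ℝ)) := by
          funext y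
          simp [dotProduct]
        show HasFDerivAt (fun y : V3 => S.Nf i * (S.K i t ⬝ᵥ y)) _ x
        rw [e]
        exact h
    have hc := ((hfd (Phi S i (t, x))).hasFDerivAt).comp x hin
    refine ⟨hc.differentiableAt.hasFDerivAt, ?_⟩
    have e : fderiv ℝ (fun y => f.1 i (Phi S i (t, y))) x = _ := hc.fderiv
    rw [e]
    have happ := R1.app S T hR f i (Phi S i (t, x)) (S.K i t) (Pi.single j 1) (S.Fi i t)
      (hK i t)
    have e2 : ∀ k, (S.Fi i t *ᵥ (Pi.single j 1 : V3)) k = S.Fi i t k j := by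
      intro k
      simp
    simp only [e2] at happ
    rw [← happ]
    show fderiv ℝ (f.1 i) (Phi S i (t, x)) _ = _
    congr 1
  · intro t x
    have h2 : HasDerivAt (fun τ => (S.rho i)⁻¹ • (S.Fi i τ *ᵥ x))
        (- ((S.rho i)⁻¹ • (S.Fi i t *ᵥ (S.M i t *ᵥ x)))) t := by
      apply hasDerivAt_pi.mpr
      intro j
      have e : (fun τ => ((S.rho i)⁻¹ • (S.Fi i τ *ᵥ x)) j) =
          fun τ => (S.rho i)⁻¹ * ∑ k, S.Fi i τ j k * x k := by
        funext τ
        simp [Matrix.mulVec, dotProduct]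
      rw [e]
      have h := (HasDerivAt.fun_sum (u := Finset.univ) (fun k _ =>
        ((hFid i t j k).mul_const (x k)))).const_mul ((S.rho i)⁻¹)
      have e3 : (- ((S.rho i)⁻¹ • (S.Fi i t *ᵥ (S.M i t *ᵥ x)))) j =
          (S.rho i)⁻¹ * ∑ k, - (S.Fi i t * S.M i t) j k * x k := by
        rw [Matrix.mulVec_mulVec]
        simp only [Pi.neg_apply, Pi.smul_apply, smul_eq_mul, Matrix.mulVec, dotProduct,
          Fin.sum_univ_three]
        ring
      rw [e3]
      exact h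
    have h3 : HasDerivAt (fun τ => S.Nf i * (S.K i τ ⬝ᵥ x))
        (- (S.Nf i * (S.K i t ⬝ᵥ (S.M i t *ᵥ x)))) t := by
      have hk := hasDerivAt_pi.mp (hKd i t)
      have h := (HasDerivAt.fun_sum (u := Finset.univ) (fun k _ =>
        ((hk k).mul_const (x k)))).const_mul (S.Nf i)
      have e3 : - (S.Nf i * (S.K i t ⬝ᵥ (S.M i t *ᵥ x))) =
          S.Nf i * ∑ k, (- ((S.M i t)ᵀ *ᵥ S.K i t)) k * x k := by
        simp only [Pi.neg_apply, Matrix.mulVec, dotProduct, Matrix.transpose_apply,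
          Fin.sum_univ_three]
        ring
      rw [e3]
      exact h
    have hin : HasDerivAt (fun τ => Phi S i (τ, x))
        ((1 : ℝ), - ((S.rho i)⁻¹ • (S.Fi i t *ᵥ (S.M i t *ᵥ x))),
          - (S.Nf i * (S.K i t ⬝ᵥ (S.M i t *ᵥ x)))) t :=
      (hasDerivAt_id t).prodMk (h2.prodMk h3)
    have hc := ((hfd (Phi S i (t, x))).hasFDerivAt).comp_hasDerivAt t hin
    have happ := R1.app S T hR f i (Phi S i (t, x)) (S.K i t) (S.M i t *ᵥ x) (S.Fi i t)
      (hK i t)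
    have e4 : (dt f).1 i (Phi S i (t, x)) - (S.rho i)⁻¹ *
        ∑ k, (S.Fi i t *ᵥ (S.M i t *ᵥ x)) k * (T.D k f).1 i (Phi S i (t, x)) =
        fderiv ℝ (f.1 i) (Phi S i (t, x)) ((1 : ℝ), - ((S.rho i)⁻¹ • (S.Fi i t *ᵥ (S.M i t *ᵥ x))),
          - (S.Nf i * (S.K i t ⬝ᵥ (S.M i t *ᵥ x)))) := by
      rw [← happ]
      show fderiv ℝ (f.1 i) (Phi S i (t, x)) (1, 0, 0) - _ = _
      rw [← map_sub]
      congr 1
      apply Prod.ext
      · simp
      apply Prod.ext
      · simp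
      · simp
    rw [e4]
    exact hc

end Pool.Agent.Work.MP_b0497c_an.Forced.W

end

section

set_option autoImplicit false

/-!
# WKB module: item T1, inverse of a moderate coefficient
-/

open scoped ContDiff Matrix
open Set

namespace Pool.Agent.Work.MP_b0497c_an.Forced.W

namespace T1

theorem rec_bound {ι : Type} (Lam : ι → ℝ) (I : ι → Set ℝ) (c g : ι → ℝ → ℝ)
    (hL : ∀ i, 2 ≤ Lam i) (hc : Mod Lam I (fun _ _ => 1) c) (hg : ∀ i, ContDiff ℝ ∞ (g i))
    (hcg : ∀ i t, c i t * g i t = 1) (n0 : ℕ) (hn0 : ∀ i, ∀ t ∈ I i, |g i t| ≤ Lam i ^ n0) :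
    ∀ d : ℕ, ∃ n : ℕ, ∀ e ≤ d, ∀ i, ∀ t ∈ I i, |iteratedDeriv e (g i) t| ≤ Lam i ^ n := by
  choose nc hnc using hc.2
  intro d
  induction d with
  | zero =>
    refine ⟨n0, fun e he i t ht => ?_⟩
    have : e = 0 := Nat.le_zero.mp he
    rw [this, iteratedDeriv_zero]
    exact hn0 i t ht
  | succ d ih =>
    obtain ⟨n, hn⟩ := ih
    set S := ∑ k ∈ Finset.range (d + 2), nc k with hS
    refine ⟨n0 + (d + 1 + (S + n)), fun e he i t ht => ?_⟩
    have h2 := hL i
    have hL1 : (1 : ℝ) ≤ Lam i := by linarith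
    rcases Nat.lt_or_ge e (d + 1) with hlt | hge
    · refine (hn e (Nat.lt_succ_iff.mp hlt) i t ht).trans (pow_le_pow_right₀ hL1 ?_)
      omega
    · have hed : e = d + 1 := le_antisymm he hge
      rw [hed]
      have hf' : ContDiffAt ℝ ((d + 1 : ℕ) : WithTop ℕ∞) (c i) t :=
        ((hc.1 i).of_le (by exact_mod_cast le_top)).contDiffAt
      have hg' : ContDiffAt ℝ ((d + 1 : ℕ) : WithTop ℕ∞) (g i) t :=
        ((hg i).of_le (by exact_mod_cast le_top)).contDiffAt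
      have e1 := iteratedDeriv_mul (n := d + 1) hf' hg'
      have e2 : (c i * g i : ℝ → ℝ) = fun _ => (1 : ℝ) := by
        funext τ
        exact hcg i τ
      rw [e2, iteratedDeriv_const, if_neg (Nat.succ_ne_zero d), Finset.sum_range_succ'] at e1
      simp only [Nat.choose_zero_right, Nat.cast_one, one_mul, iteratedDeriv_zero, Nat.sub_zero,
        Nat.add_sub_add_right] at e1
      have e3 : iteratedDeriv (d + 1) (g i) t = -(g i t * ∑ k ∈ Finset.range (d + 1),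
          ((d + 1).choose (k + 1) : ℝ) * iteratedDeriv (k + 1) (c i) t *
            iteratedDeriv (d - k) (g i) t) := by
        have h5 := hcg i t
        have h6 : c i t * iteratedDeriv (d + 1) (g i) t = -∑ k ∈ Finset.range (d + 1),
          ((d + 1).choose (k + 1) : ℝ) * iteratedDeriv (k + 1) (c i) t *
            iteratedDeriv (d - k) (g i) t := by
          linarith
        calc iteratedDeriv (d + 1) (g i) t = g i t * (c i t * iteratedDeriv (d + 1) (g i) t) := by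
              rw [← mul_assoc, mul_comm (g i t), h5, one_mul]
          _ = _ := by rw [h6]; ring
      rw [e3, abs_neg, abs_mul]
      have hterm : ∀ k ∈ Finset.range (d + 1),
          |((d + 1).choose (k + 1) : ℝ) * iteratedDeriv (k + 1) (c i) t *
            iteratedDeriv (d - k) (g i) t| ≤ ((d + 1).choose (k + 1) : ℝ) * Lam i ^ (S + n) := by
        intro k hk
        rw [Finset.mem_range] at hk
        rw [abs_mul, abs_mul, Nat.abs_cast, mul_assoc]
        refine mul_le_mul_of_nonneg_left ?_ (Nat.cast_nonneg _)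
        have h3 : |iteratedDeriv (k + 1) (c i) t| ≤ Lam i ^ S := by
          have h4 := hnc (k + 1) i t ht
          rw [mul_one] at h4
          refine h4.trans (pow_le_pow_right₀ hL1 ?_)
          exact Finset.single_le_sum (f := nc) (fun _ _ => Nat.zero_le _)
            (Finset.mem_range.2 (by omega))
        have h4 : |iteratedDeriv (d - k) (g i) t| ≤ Lam i ^ n := hn (d - k) (Nat.sub_le d k) i t ht
        calc |iteratedDeriv (k + 1) (c i) t| * |iteratedDeriv (d - k) (g i) t|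
            ≤ Lam i ^ S * Lam i ^ n := mul_le_mul h3 h4 (abs_nonneg _) (by positivity)
          _ = Lam i ^ (S + n) := by rw [pow_add]
      have hsum : |∑ k ∈ Finset.range (d + 1), ((d + 1).choose (k + 1) : ℝ) *
          iteratedDeriv (k + 1) (c i) t * iteratedDeriv (d - k) (g i) t| ≤
          Lam i ^ (d + 1) * Lam i ^ (S + n) := by
        refine (Finset.abs_sum_le_sum_abs _ _).trans ((Finset.sum_le_sum hterm).trans ?_)
        rw [← Finset.sum_mul]
        refine mul_le_mul_of_nonneg_right ?_ (by positivity)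
        have h7 : ∑ k ∈ Finset.range (d + 1), ((d + 1).choose (k + 1) : ℝ) ≤ (2 : ℝ) ^ (d + 1) := by
          have h8 := Nat.sum_range_choose (d + 1)
          rw [Finset.sum_range_succ'] at h8
          have h9 : ∑ k ∈ Finset.range (d + 1), (d + 1).choose (k + 1) ≤ 2 ^ (d + 1) := by omega
          exact_mod_cast h9
        exact h7.trans (pow_le_pow_left₀ (by norm_num) h2 _)
      calc |g i t| * |∑ k ∈ Finset.range (d + 1), ((d + 1).choose (k + 1) : ℝ) *
          iteratedDeriv (k + 1) (c i) t * iteratedDeriv (d - k) (g i) t|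
          ≤ Lam i ^ n0 * (Lam i ^ (d + 1) * Lam i ^ (S + n)) :=
            mul_le_mul (hn0 i t ht) hsum (abs_nonneg _) (by positivity)
        _ = _ := by rw [← pow_add, ← pow_add]

end T1

theorem prfT1 (_hA1 : claimA1) (_hA2 : claimA2) : claimT1 := by
  intro ι Lam I c hL hc hne hinv
  obtain ⟨n0, hn0⟩ := hinv
  have hg : ∀ i, ContDiff ℝ ∞ (fun t => (c i t)⁻¹) := fun i => (hc.1 i).inv (hne i)
  refine ⟨hg, fun d => ?_⟩
  obtain ⟨n, hn⟩ := T1.rec_bound Lam I c (fun i t => (c i t)⁻¹) hL hc hg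
    (fun i t => mul_inv_cancel₀ (hne i t)) n0 hn0 d
  refine ⟨n, fun i t ht => ?_⟩
  rw [mul_one]
  exact hn d le_rfl i t ht

end Pool.Agent.Work.MP_b0497c_an.Forced.W

end

section

set_option autoImplicit false

/-! MP_b0497c_an, WKB module, item T2: bootstrapping for linear ODEs. -/

open scoped ContDiff
open Set

namespace Pool.Agent.Work.MP_b0497c_an.Forced.W

namespace ItemT2

/-- derivative of order `m` of a product, from bounds up to order `m` -/
theorem mul_bound {f g : ℝ → ℝ} (hf : ContDiff ℝ ∞ f) (hg : ContDiff ℝ ∞ g) {t L mu : ℝ}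
    (hL : 2 ≤ L) (hmu : 0 ≤ mu) {m a b : ℕ}
    (h1 : ∀ k ≤ m, |iteratedDeriv k f t| ≤ L ^ a)
    (h2 : ∀ k ≤ m, |iteratedDeriv k g t| ≤ L ^ b * mu) :
    |iteratedDeriv m (fun t => f t * g t) t| ≤ L ^ (m + a + b) * mu := by
  have hf' : ContDiffAt ℝ m f t := (hf.of_le (by exact_mod_cast le_top)).contDiffAt
  have hg' : ContDiffAt ℝ m g t := (hg.of_le (by exact_mod_cast le_top)).contDiffAt
  have e := iteratedDeriv_mul (n := m) hf' hg'
  have e' : iteratedDeriv m (fun t => f t * g t) t = ∑ k ∈ Finset.range (m + 1),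
      (m.choose k : ℝ) * iteratedDeriv k f t * iteratedDeriv (m - k) g t := e
  rw [e']
  have hterm : ∀ k ∈ Finset.range (m + 1),
      |(m.choose k : ℝ) * iteratedDeriv k f t * iteratedDeriv (m - k) g t| ≤
        (m.choose k : ℝ) * (L ^ (a + b) * mu) := by
    intro k hk
    rw [abs_mul, abs_mul, Nat.abs_cast, mul_assoc]
    refine mul_le_mul_of_nonneg_left ?_ (Nat.cast_nonneg _)
    have h3 := h1 k (by have := Finset.mem_range.1 hk; omega)
    have h4 := h2 (m - k) (by omega)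
    calc |iteratedDeriv k f t| * |iteratedDeriv (m - k) g t|
        ≤ L ^ a * (L ^ b * mu) := mul_le_mul h3 h4 (abs_nonneg _) (by positivity)
      _ = L ^ (a + b) * mu := by rw [pow_add]; ring
  calc |∑ k ∈ Finset.range (m + 1),
        (m.choose k : ℝ) * iteratedDeriv k f t * iteratedDeriv (m - k) g t|
      ≤ ∑ k ∈ Finset.range (m + 1), (m.choose k : ℝ) * (L ^ (a + b) * mu) :=
        (Finset.abs_sum_le_sum_abs _ _).trans (Finset.sum_le_sum hterm)
    _ = (2 : ℝ) ^ m * (L ^ (a + b) * mu) := by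
        rw [← Finset.sum_mul]
        congr 1
        exact_mod_cast Nat.sum_range_choose m
    _ ≤ L ^ m * (L ^ (a + b) * mu) := by
        refine mul_le_mul_of_nonneg_right ?_ (by positivity)
        exact pow_le_pow_left₀ (by norm_num) hL m
    _ = L ^ (m + a + b) * mu := by rw [add_assoc, pow_add L m]; ring

theorem add_bound {f g : ℝ → ℝ} (hf : ContDiff ℝ ∞ f) (hg : ContDiff ℝ ∞ g) {t L mu : ℝ}
    (hL : 2 ≤ L) (hmu : 0 ≤ mu) {m a b : ℕ}
    (h1 : |iteratedDeriv m f t| ≤ L ^ a * mu) (h2 : |iteratedDeriv m g t| ≤ L ^ b * mu) :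
    |iteratedDeriv m (fun t => f t + g t) t| ≤ L ^ (a + b + 1) * mu := by
  have h3 : iteratedDeriv m (fun t => f t + g t) t = iteratedDeriv m f t + iteratedDeriv m g t :=
    iteratedDeriv_add (n := m) (x := t) (hf.contDiffAt.of_le (by exact_mod_cast le_top))
      (hg.contDiffAt.of_le (by exact_mod_cast le_top))
  rw [h3]
  refine (abs_add_le _ _).trans ((add_le_add h1 h2).trans ?_)
  have h4 : L ^ a ≤ L ^ (a + b) := pow_le_pow_right₀ (by linarith) (by omega)
  have h5 : L ^ b ≤ L ^ (a + b) := pow_le_pow_right₀ (by linarith) (by omega)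
  have h6 : 2 * L ^ (a + b) ≤ L ^ (a + b + 1) := by
    rw [pow_succ, mul_comm]
    exact mul_le_mul_of_nonneg_left hL (by positivity)
  rw [← add_mul]
  exact mul_le_mul_of_nonneg_right (by linarith) hmu

end ItemT2

open ItemT2 in
theorem prfT2 : claimT2 := by
  intro ι Lam I mu A X r hL hA hr hmu hX hder hb
  have hA' : ∀ m : ℕ, ∃ a : ℕ, ∀ j k i, ∀ t ∈ I i, ∀ l ≤ m,
      |iteratedDeriv l (A j k i) t| ≤ Lam i ^ a := by
    intro m
    choose nA hnA using fun j k => (hA j k).2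
    refine ⟨∑ j, ∑ k, ∑ l ∈ Finset.range (m + 1), nA j k l, ?_⟩
    intro j k i t ht l hl
    have h1 := hnA j k l i t ht
    rw [mul_one] at h1
    refine h1.trans (pow_le_pow_right₀ (by linarith [hL i]) ?_)
    calc nA j k l ≤ ∑ l ∈ Finset.range (m + 1), nA j k l :=
          Finset.single_le_sum (f := nA j k) (fun _ _ => Nat.zero_le _)
            (Finset.mem_range.2 (by omega))
      _ ≤ ∑ k, ∑ l ∈ Finset.range (m + 1), nA j k l :=
          Finset.single_le_sum (f := fun k => ∑ l ∈ Finset.range (m + 1), nA j k l)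
            (fun _ _ => Nat.zero_le _) (Finset.mem_univ k)
      _ ≤ ∑ j, ∑ k, ∑ l ∈ Finset.range (m + 1), nA j k l :=
          Finset.single_le_sum (f := fun j => ∑ k, ∑ l ∈ Finset.range (m + 1), nA j k l)
            (fun _ _ => Nat.zero_le _) (Finset.mem_univ j)
  have hr' : ∀ m : ℕ, ∃ a : ℕ, ∀ j i, ∀ t ∈ I i,
      |iteratedDeriv m (r j i) t| ≤ Lam i ^ a * mu i t := by
    intro m
    choose nr hnr using fun j => (hr j).2 m
    refine ⟨∑ j, nr j, ?_⟩
    intro j i t ht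
    refine (hnr j i t ht).trans (mul_le_mul_of_nonneg_right ?_ (hmu i t))
    refine pow_le_pow_right₀ (by linarith [hL i]) ?_
    exact Finset.single_le_sum (f := nr) (fun _ _ => Nat.zero_le _) (Finset.mem_univ j)
  have hderiv : ∀ j i, deriv (X j i) = fun t => ((A j 0 i t * X 0 i t + A j 1 i t * X 1 i t)
      + A j 2 i t * X 2 i t) + r j i t := by
    intro j i
    funext t
    rw [(hder j i t).deriv, Fin.sum_univ_three]
  have main : ∀ m : ℕ, ∃ n : ℕ, ∀ l ≤ m, ∀ j i, ∀ t ∈ I i,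
      |iteratedDeriv l (X j i) t| ≤ Lam i ^ n * mu i t := by
    intro m
    induction m with
    | zero =>
      obtain ⟨n, hn⟩ := hb
      refine ⟨n, ?_⟩
      intro l hl j i t ht
      have : l = 0 := by omega
      subst this
      rw [iteratedDeriv_zero]
      exact hn j i t ht
    | succ m ih =>
      obtain ⟨n, hn⟩ := ih
      obtain ⟨a, ha⟩ := hA' m
      obtain ⟨b, hb'⟩ := hr' m
      set N := m + a + n with hN
      refine ⟨((N + N + 1) + N + 1) + b + 1, ?_⟩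
      intro l hl j i t ht
      have h2 := hL i
      have hm := hmu i t
      rcases Nat.lt_or_ge l (m + 1) with hlt | hge
      · refine (hn l (by omega) j i t ht).trans (mul_le_mul_of_nonneg_right ?_ hm)
        exact pow_le_pow_right₀ (by linarith) (by omega)
      · have hl' : l = m + 1 := by omega
        subst hl'
        rw [iteratedDeriv_succ', hderiv j i]
        have hp : ∀ k : Fin 3, |iteratedDeriv m (fun t => A j k i t * X k i t) t| ≤
            Lam i ^ N * mu i t := fun k =>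
          mul_bound ((hA j k).1 i) (hX k i) h2 hm (fun l hl => ha j k i t ht l hl)
            (fun l hl => hn l hl k i t ht)
        have hs : ∀ k : Fin 3, ContDiff ℝ ∞ (fun t => A j k i t * X k i t) := fun k =>
          ((hA j k).1 i).mul (hX k i)
        have q1 := add_bound (hs 0) (hs 1) h2 hm (hp 0) (hp 1)
        have q2 := add_bound ((hs 0).add (hs 1)) (hs 2) h2 hm q1 (hp 2)
        exact add_bound (((hs 0).add (hs 1)).add (hs 2)) ((hr j).1 i) h2 hm q2 (hb' j i t ht)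
  intro j
  refine ⟨hX j, fun d => ?_⟩
  obtain ⟨n, hn⟩ := main d
  exact ⟨n, fun i t ht => hn d le_rfl j i t ht⟩

end Pool.Agent.Work.MP_b0497c_an.Forced.W

end

section

set_option autoImplicit false

/-!
# WKB module: item T4, elementary consequences of the hypotheses of `Lev`
-/

open scoped ContDiff Matrix
open Set

namespace Pool.Agent.Work.MP_b0497c_an.Forced.W

namespace T4

variable {ι : Type} (S : Lev ι)

theorem Fi_F (i : ι) (t : ℝ) : S.Fi i t * S.F i t = 1 := mul_eq_one_comm.mp (S.F_Fi i t)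

theorem K_eq (i : ι) (t : ℝ) : S.K i t = (S.Fi i t)ᵀ *ᵥ S.kap i := by
  rw [← S.K_kap i t, Matrix.mulVec_mulVec, ← Matrix.transpose_mul, S.F_Fi, Matrix.transpose_one,
    Matrix.one_mulVec]

theorem KK_pos (i : ι) (t : ℝ) : 0 < S.K i t ⬝ᵥ S.K i t := by
  have h0 : 0 ≤ S.K i t ⬝ᵥ S.K i t := Finset.sum_nonneg fun k _ => mul_self_nonneg _
  rcases h0.eq_or_lt with h | h
  · exfalso
    have h1 : S.K i t = 0 := dotProduct_self_eq_zero.mp h.symm
    have h2 := S.K_kap i t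
    rw [h1, Matrix.mulVec_zero] at h2
    have h3 := S.kap_ge i
    rw [← h2] at h3
    simp at h3
    linarith
  · exact h

theorem Fi_smooth (i : ι) (j k : Fin 3) : ContDiff ℝ ∞ (fun t => S.Fi i t j k) :=
  (S.mod_Fi j k).1 i

theorem Fi_deriv (i : ι) (t : ℝ) (j k : Fin 3) :
    HasDerivAt (fun t => S.Fi i t j k) (- (S.Fi i t * S.M i t) j k) t := by
  have hd : ∀ j k, HasDerivAt (fun t => S.Fi i t j k) (deriv (fun t => S.Fi i t j k) t) t :=
    fun j k => ((Fi_smooth S i j k).differentiable (by simp) t).hasDerivAt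
  obtain ⟨D, hD⟩ : ∃ D : Matrix (Fin 3) (Fin 3) ℝ, D = Matrix.of fun j k =>
      deriv (fun t => S.Fi i t j k) t := ⟨_, rfl⟩
  have hD' : ∀ j k, deriv (fun t => S.Fi i t j k) t = D j k := fun j k => by rw [hD]; rfl
  have h1 : ∀ j k, (S.M i t * S.F i t * S.Fi i t + S.F i t * D) j k = 0 := by
    intro j k
    have h2 : HasDerivAt (fun t => ∑ l, S.F i t j l * S.Fi i t l k)
        (∑ l, ((S.M i t * S.F i t) j l * S.Fi i t l k + S.F i t j l * D l k)) t := by
      refine HasDerivAt.fun_sum fun l _ => ?_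
      rw [← hD' l k]
      exact (S.F_deriv i t j l).mul (hd l k)
    have h3 : (fun t => ∑ l, S.F i t j l * S.Fi i t l k) =
        fun _ => (1 : Matrix (Fin 3) (Fin 3) ℝ) j k := by
      funext τ
      rw [← S.F_Fi i τ]
      rfl
    rw [h3] at h2
    have h4 := h2.unique (hasDerivAt_const t _)
    rw [Finset.sum_add_distrib] at h4
    rw [Matrix.add_apply, Matrix.mul_apply, Matrix.mul_apply]
    exact h4
  have h2 : S.M i t * S.F i t * S.Fi i t + S.F i t * D = 0 := by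
    ext j k
    exact h1 j k
  rw [Matrix.mul_assoc, S.F_Fi, Matrix.mul_one] at h2
  have h3 : S.F i t * D = - S.M i t := eq_neg_of_add_eq_zero_right h2
  have h4 : D = - (S.Fi i t * S.M i t) := by
    calc D = (S.Fi i t * S.F i t) * D := by rw [Fi_F, Matrix.one_mul]
      _ = S.Fi i t * (S.F i t * D) := Matrix.mul_assoc _ _ _
      _ = _ := by rw [h3, Matrix.mul_neg]
  have h5 := hd j k
  rw [hD' j k, h4] at h5
  exact h5

theorem K_comp (i : ι) (t : ℝ) (j : Fin 3) : S.K i t j = ∑ k, S.Fi i t k j * S.kap i k := by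
  rw [K_eq]
  rfl

theorem K_deriv (i : ι) (t : ℝ) : HasDerivAt (S.K i) (- ((S.M i t)ᵀ *ᵥ S.K i t)) t := by
  rw [hasDerivAt_pi]
  intro j
  have h1 : (fun t => S.K i t j) = fun t => ∑ k, S.Fi i t k j * S.kap i k := by
    funext τ
    exact K_comp S i τ j
  rw [h1]
  have h2 : (- ((S.M i t)ᵀ *ᵥ S.K i t)) j = ∑ k, (- (S.Fi i t * S.M i t) k j) * S.kap i k := by
    rw [K_eq, Matrix.mulVec_mulVec, ← Matrix.transpose_mul, Pi.neg_apply]
    show - ∑ k, (S.Fi i t * S.M i t)ᵀ j k * S.kap i k = _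
    rw [← Finset.sum_neg_distrib]
    refine Finset.sum_congr rfl fun k _ => ?_
    rw [Matrix.transpose_apply, neg_mul]
  rw [h2]
  refine HasDerivAt.fun_sum fun k _ => ?_
  exact (Fi_deriv S i t k j).mul_const _

theorem K_smooth (i : ι) : ContDiff ℝ ∞ (S.K i) := by
  rw [contDiff_pi]
  intro j
  have h1 : (fun t => S.K i t j) = fun t => ∑ k, S.Fi i t k j * S.kap i k := by
    funext τ
    exact K_comp S i τ j
  rw [h1]
  exact ContDiff.sum fun k _ => (Fi_smooth S i k j).mul contDiff_const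

theorem w_smooth (i : ι) : ContDiff ℝ ∞ (S.w i) := by
  rw [contDiff_pi]
  exact fun j => (S.mod_w j).1 i

theorem mod_sum3 (hA2 : claimA2) (c : Fin 3 → ι → ℝ → ℝ)
    (hc : ∀ k, Mod S.Lam S.I (fun _ _ => 1) (c k)) :
    Mod S.Lam S.I (fun _ _ => 1) (fun i t => ∑ k, c k i t) := by
  have h1 := (hA2 ι S.Lam S.I (fun _ _ => 1) (c 0) S.two_le_Lam (hc 0)).1 (c 1) (hc 1)
  have h2 := (hA2 ι S.Lam S.I (fun _ _ => 1) _ S.two_le_Lam h1).1 (c 2) (hc 2)
  have h3 : (fun i t => ∑ k, c k i t) = fun i t => c 0 i t + c 1 i t + c 2 i t := by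
    funext i t
    rw [Fin.sum_univ_three]
  rw [h3]
  exact h2

theorem mod_mul (hA1 : claimA1) (c d : ι → ℝ → ℝ) (hc : Mod S.Lam S.I (fun _ _ => 1) c)
    (hd : Mod S.Lam S.I (fun _ _ => 1) d) :
    Mod S.Lam S.I (fun _ _ => 1) (fun i t => c i t * d i t) := by
  have h1 := hA1 ι S.Lam S.I (fun _ _ => 1) (fun _ _ => 1) c d S.two_le_Lam hc hd
  simp only [mul_one] at h1
  exact h1

theorem K_mod (hA1 : claimA1) (hA2 : claimA2) (hA3 : claimA3) (j : Fin 3) :
    Mod S.Lam S.I (fun _ _ => 1) (fun i t => S.K i t j) := by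
  have h1 : (fun i t => S.K i t j) = fun i t => ∑ k, S.Fi i t k j * S.kap i k := by
    funext i t
    exact K_comp S i t j
  rw [h1]
  obtain ⟨n, hn⟩ := S.kap_le
  refine mod_sum3 S hA2 (fun k i t => S.Fi i t k j * S.kap i k) fun k => ?_
  refine mod_mul S hA1 (fun i t => S.Fi i t k j) (fun i _ => S.kap i k) (S.mod_Fi k j) ?_
  refine hA3 ι S.Lam S.I (fun _ _ => 1) (fun i => S.kap i k) S.two_le_Lam ⟨n, fun i t _ => ?_⟩
  rw [mul_one]
  exact hn i k

theorem KK_mod (hA1 : claimA1) (hA2 : claimA2) (hA3 : claimA3) :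
    Mod S.Lam S.I (fun _ _ => 1) (fun i t => S.K i t ⬝ᵥ S.K i t) := by
  have h1 : (fun i t => S.K i t ⬝ᵥ S.K i t) = fun i t => ∑ k, S.K i t k * S.K i t k := rfl
  rw [h1]
  exact mod_sum3 S hA2 (fun k i t => S.K i t k * S.K i t k) fun k =>
    mod_mul S hA1 (fun i t => S.K i t k) (fun i t => S.K i t k) (K_mod S hA1 hA2 hA3 k)
      (K_mod S hA1 hA2 hA3 k)

theorem KK_inv : ∃ n : ℕ, ∀ i, ∀ t ∈ S.I i, |(S.K i t ⬝ᵥ S.K i t)⁻¹| ≤ S.Lam i ^ n := by
  choose nF hnF using fun j k => (S.mod_F j k).2 0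
  set n := ∑ j, ∑ k, nF j k with hn
  refine ⟨2 * n + 5, fun i t ht => ?_⟩
  have hL2 := S.two_le_Lam i
  have hL1 : (1 : ℝ) ≤ S.Lam i := by linarith
  have hF : ∀ j k, |S.F i t j k| ≤ S.Lam i ^ n := by
    intro j k
    have h1 := hnF j k i t ht
    rw [iteratedDeriv_zero, mul_one] at h1
    refine h1.trans (pow_le_pow_right₀ hL1 ?_)
    calc nF j k ≤ ∑ k, nF j k :=
          Finset.single_le_sum (f := fun k => nF j k) (fun _ _ => Nat.zero_le _)
            (Finset.mem_univ k)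
      _ ≤ n := Finset.single_le_sum (f := fun j => ∑ k, nF j k) (fun _ _ => Nat.zero_le _)
            (Finset.mem_univ j)
  have hF2 : ∀ j k, S.F i t j k ^ 2 ≤ S.Lam i ^ (2 * n) := by
    intro j k
    rw [← sq_abs, mul_comm 2 n, pow_mul]
    exact pow_le_pow_left₀ (abs_nonneg _) (hF j k) 2
  set Q := S.K i t ⬝ᵥ S.K i t with hQ
  have hQ0 : 0 < Q := KK_pos S i t
  have hQ' : Q = ∑ k, S.K i t k ^ 2 := by
    rw [hQ]
    exact Finset.sum_congr rfl fun k _ => (pow_two _).symm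
  have hkap : ∀ j, S.kap i j ^ 2 ≤ 3 * S.Lam i ^ (2 * n) * Q := by
    intro j
    have h1 : S.kap i j = ∑ k, S.F i t k j * S.K i t k := by
      rw [← S.K_kap i t]
      rfl
    rw [h1]
    refine (Finset.sum_mul_sq_le_sq_mul_sq _ _ _).trans ?_
    rw [← hQ']
    refine mul_le_mul_of_nonneg_right ?_ hQ0.le
    rw [Fin.sum_univ_three]
    have := hF2 0 j
    have := hF2 1 j
    have := hF2 2 j
    linarith
  have h1 : 1 / 2 ≤ 9 * S.Lam i ^ (2 * n) * Q := by
    have h2 := S.kap_ge i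
    have h3 : S.kap i ⬝ᵥ S.kap i = ∑ k, S.kap i k ^ 2 :=
      Finset.sum_congr rfl fun k _ => (pow_two _).symm
    rw [h3, Fin.sum_univ_three] at h2
    have := hkap 0
    have := hkap 1
    have := hkap 2
    linarith
  rw [abs_of_pos (inv_pos.mpr hQ0), inv_le_iff_one_le_mul₀ hQ0]
  have h4 : (0 : ℝ) < S.Lam i ^ (2 * n) := by positivity
  have h5 : (32 : ℝ) ≤ S.Lam i ^ 5 := by
    calc (32 : ℝ) = 2 ^ 5 := by norm_num
      _ ≤ S.Lam i ^ 5 := pow_le_pow_left₀ (by norm_num) hL2 5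
  calc (1 : ℝ) ≤ 18 * (S.Lam i ^ (2 * n) * Q) := by linarith
    _ ≤ S.Lam i ^ 5 * (S.Lam i ^ (2 * n) * Q) := by
        refine mul_le_mul_of_nonneg_right (by linarith) (by positivity)
    _ = S.Lam i ^ (2 * n + 5) * Q := by rw [pow_add]; ring

end T4

theorem prfT4 (hA1 : claimA1) (hA2 : claimA2) (hA3 : claimA3) (hT1 : claimT1) : claimT4 := by
  intro ι S
  refine ⟨T4.Fi_F S, T4.K_eq S, T4.KK_pos S, T4.K_deriv S, T4.K_smooth S, T4.w_smooth S,
    T4.Fi_deriv S, T4.K_mod S hA1 hA2 hA3, ?_⟩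
  exact hT1 ι S.Lam S.I (fun i t => S.K i t ⬝ᵥ S.K i t) S.two_le_Lam (T4.KK_mod S hA1 hA2 hA3)
    (fun i t => (T4.KK_pos S i t).ne') (T4.KK_inv S)

end Pool.Agent.Work.MP_b0497c_an.Forced.W

end

section

set_option autoImplicit false

/-!
# WKB module, item T6: the Lagrangian data
-/

open scoped ContDiff Matrix
open Set

namespace Pool.Agent.Work.MP_b0497c_an.Forced.W

namespace T6

section mod

variable {ι : Type} {Lam : ι → ℝ} {I : ι → Set ℝ} {mu : ι → ℝ → ℝ}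

theorem mod_add (hA2 : claimA2) (hL : ∀ i, 2 ≤ Lam i) {c d : ι → ℝ → ℝ} (hc : Mod Lam I mu c)
    (hd : Mod Lam I mu d) : Mod Lam I mu (fun i t => c i t + d i t) :=
  (hA2 ι Lam I mu c hL hc).1 d hd

theorem mod_smul (hA2 : claimA2) (hL : ∀ i, 2 ≤ Lam i) {c : ι → ℝ → ℝ} (hc : Mod Lam I mu c)
    (r : ℝ) : Mod Lam I mu (fun i t => r * c i t) :=
  (hA2 ι Lam I mu c hL hc).2.1 r

theorem mod_mul (hA1 : claimA1) (hA2 : claimA2) (hL : ∀ i, 2 ≤ Lam i) {c d : ι → ℝ → ℝ}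
    (hc : Mod Lam I (fun _ _ => 1) c) (hd : Mod Lam I mu d) :
    Mod Lam I mu (fun i t => c i t * d i t) :=
  (hA2 ι Lam I _ _ hL (hA1 ι Lam I _ _ _ _ hL hc hd)).2.2.1 mu
    (fun i t _ => by show (1 : ℝ) * mu i t ≤ mu i t; rw [one_mul])

theorem mod_mul' (hA1 : claimA1) (hA2 : claimA2) (hL : ∀ i, 2 ≤ Lam i) {c d : ι → ℝ → ℝ}
    (hc : Mod Lam I mu c) (hd : Mod Lam I (fun _ _ => 1) d) :
    Mod Lam I mu (fun i t => c i t * d i t) :=
  (hA2 ι Lam I _ _ hL (hA1 ι Lam I _ _ _ _ hL hc hd)).2.2.1 mu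
    (fun i t _ => by show mu i t * (1 : ℝ) ≤ mu i t; rw [mul_one])

theorem mod_sum (hA2 : claimA2) (hL : ∀ i, 2 ≤ Lam i) {c : Fin 3 → ι → ℝ → ℝ}
    (hc : ∀ k, Mod Lam I mu (c k)) : Mod Lam I mu (fun i t => ∑ k, c k i t) := by
  have h := mod_add hA2 hL (mod_add hA2 hL (hc 0) (hc 1)) (hc 2)
  have e : (fun i t => ∑ k, c k i t) = (fun i t => c 0 i t + c 1 i t + c 2 i t) := by
    funext i t
    rw [Fin.sum_univ_three]
  rw [e]
  exact h

/-- product of a moderate matrix and a vector -/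
theorem mod_mulVec (hA1 : claimA1) (hA2 : claimA2) (hL : ∀ i, 2 ≤ Lam i)
    {A : ι → ℝ → Matrix (Fin 3) (Fin 3) ℝ} {X : ι → ℝ → V3}
    (hA : ∀ j k, Mod Lam I (fun _ _ => 1) (fun i t => A i t j k))
    (hX : ∀ j, Mod Lam I mu (fun i t => X i t j)) (j : Fin 3) :
    Mod Lam I mu (fun i t => (A i t *ᵥ X i t) j) :=
  mod_sum hA2 hL (c := fun k i t => A i t j k * X i t k)
    (fun k => mod_mul hA1 hA2 hL (hA j k) (hX k))

theorem mod_matMul (hA1 : claimA1) (hA2 : claimA2) (hL : ∀ i, 2 ≤ Lam i)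
    {A B : ι → ℝ → Matrix (Fin 3) (Fin 3) ℝ}
    (hA : ∀ j k, Mod Lam I (fun _ _ => 1) (fun i t => A i t j k))
    (hB : ∀ j k, Mod Lam I (fun _ _ => 1) (fun i t => B i t j k)) (j k : Fin 3) :
    Mod Lam I (fun _ _ => 1) (fun i t => (A i t * B i t) j k) := by
  have h := mod_sum hA2 hL (c := fun l i t => A i t j l * B i t l k)
    (fun l => mod_mul hA1 hA2 hL (hA j l) (hB l k))
  have e : (fun i t => (A i t * B i t) j k) = (fun i t => ∑ l, A i t j l * B i t l k) := by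
    funext i t
    rw [Matrix.mul_apply]
  rw [e]
  exact h

end mod

/-- The derivative of `Fi X`. -/
theorem deriv_mulVec {Fi : ℝ → Matrix (Fin 3) (Fin 3) ℝ} {M : Matrix (Fin 3) (Fin 3) ℝ}
    {X : ℝ → V3} {Y : V3} {t : ℝ}
    (hFi : ∀ j k, HasDerivAt (fun t => Fi t j k) (- (Fi t * M) j k) t)
    (hX : ∀ a, HasDerivAt (fun t => X t a) (Y a) t) (b : Fin 3) :
    HasDerivAt (fun t => (Fi t *ᵥ X t) b) ((Fi t *ᵥ (Y - M *ᵥ X t)) b) t := by
  have h : HasDerivAt (fun t => ∑ l, Fi t b l * X t l)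
      (∑ l, (- (Fi t * M) b l * X t l + Fi t b l * Y l)) t :=
    HasDerivAt.fun_sum (fun l _ => (hFi b l).mul (hX l))
  have e : (Fi t *ᵥ (Y - M *ᵥ X t)) b = ∑ l, (- (Fi t * M) b l * X t l + Fi t b l * Y l) := by
    rw [Matrix.mulVec_sub, Matrix.mulVec_mulVec]
    simp only [Matrix.mulVec, dotProduct, Pi.sub_apply]
    rw [Finset.sum_add_distrib]
    simp only [neg_mul, Finset.sum_neg_distrib]
    ring
  rw [e]
  exact h

/-- The algebra of the change of variables. -/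
theorem alg (F Fi M : Matrix (Fin 3) (Fin 3) ℝ) (K X r : V3) (l : ℝ) (h1 : F * Fi = 1)
    (h2 : Fi * F = 1) (a : Fin 3) :
    ∑ b, (Fᵀ * F) a b * (Fi *ᵥ ((-(M *ᵥ X) - l • K + Fiᵀ *ᵥ r) - M *ᵥ X)) b
      + ∑ b, ((2 : ℝ) • (Fᵀ * M * F)) a b * (Fi *ᵥ X) b + l * (Fᵀ *ᵥ K) a = r a := by
  have e1 : (Fᵀ * F) *ᵥ (Fi *ᵥ ((-(M *ᵥ X) - l • K + Fiᵀ *ᵥ r) - M *ᵥ X)) =
      Fᵀ *ᵥ ((-(M *ᵥ X) - l • K + Fiᵀ *ᵥ r) - M *ᵥ X) := by
    rw [Matrix.mulVec_mulVec, Matrix.mul_assoc, h1, Matrix.mul_one]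
  have e2 : ((2 : ℝ) • (Fᵀ * M * F)) *ᵥ (Fi *ᵥ X) = (2 : ℝ) • (Fᵀ *ᵥ (M *ᵥ X)) := by
    rw [Matrix.smul_mulVec, Matrix.mulVec_mulVec, Matrix.mul_assoc, h1, Matrix.mul_one,
      Matrix.mulVec_mulVec]
  have e3 : Fᵀ *ᵥ (Fiᵀ *ᵥ r) = r := by
    rw [Matrix.mulVec_mulVec, ← Matrix.transpose_mul, h2, Matrix.transpose_one, Matrix.one_mulVec]
  have e4 : (Fᵀ * F) *ᵥ (Fi *ᵥ ((-(M *ᵥ X) - l • K + Fiᵀ *ᵥ r) - M *ᵥ X))
      + ((2 : ℝ) • (Fᵀ * M * F)) *ᵥ (Fi *ᵥ X) + l • (Fᵀ *ᵥ K) = r := by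
    rw [e1, e2, Matrix.mulVec_sub, Matrix.mulVec_add, Matrix.mulVec_sub, Matrix.mulVec_neg,
      Matrix.mulVec_smul, e3, two_smul]
    abel
  exact congrFun e4 a

theorem dot_transfer (F Fi : Matrix (Fin 3) (Fin 3) ℝ) (K X : V3) (h1 : F * Fi = 1) :
    ∑ k, (Fᵀ *ᵥ K) k * (Fi *ᵥ X) k = K ⬝ᵥ X := by
  have h : (Fᵀ *ᵥ K) ⬝ᵥ (Fi *ᵥ X) = K ⬝ᵥ X := by
    rw [Matrix.mulVec_transpose, ← Matrix.dotProduct_mulVec, Matrix.mulVec_mulVec, h1,
      Matrix.one_mulVec]
  exact h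

end T6

theorem prfT6 (hA1 : claimA1) (hA2 : claimA2) (hT4 : claimT4) (hT5 : claimT5) : claimT6 := by
  intro ι S
  obtain ⟨t1, t2, t3, t4, t5, t6, t7, t8, t9⟩ := hT4 ι S
  have hL := S.two_le_Lam
  have hwd : ∀ i t a, HasDerivAt (fun t => S.w i t a) (kelvin (S.M i t) (S.K i t) (S.w i t) a) t :=
    fun i t a => (hasDerivAt_pi.1 (S.w_eq i t)) a
  have hFT : ∀ j k, Mod S.Lam S.I (fun _ _ => 1) (fun i t => (S.F i t)ᵀ j k) :=
    fun j k => S.mod_F k j
  have hFiT : ∀ j k, Mod S.Lam S.I (fun _ _ => 1) (fun i t => (S.Fi i t)ᵀ j k) :=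
    fun j k => S.mod_Fi k j
  -- the multiplier
  have hlam : Mod S.Lam S.I S.p
      (fun i t => -(2 * (S.K i t ⬝ᵥ (S.M i t *ᵥ S.w i t)) / (S.K i t ⬝ᵥ S.K i t))) := by
    have h1 : Mod S.Lam S.I S.p (fun i t => S.K i t ⬝ᵥ (S.M i t *ᵥ S.w i t)) :=
      T6.mod_sum hA2 hL (c := fun k i t => S.K i t k * (S.M i t *ᵥ S.w i t) k)
        (fun k => T6.mod_mul hA1 hA2 hL (t8 k) (T6.mod_mulVec hA1 hA2 hL S.mod_M S.mod_w k))
    have h2 := T6.mod_smul hA2 hL (T6.mod_mul' hA1 hA2 hL h1 t9) (-2)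
    have e : (fun i t => -(2 * (S.K i t ⬝ᵥ (S.M i t *ᵥ S.w i t)) / (S.K i t ⬝ᵥ S.K i t))) =
        (fun i t => (-2 : ℝ) * ((S.K i t ⬝ᵥ (S.M i t *ᵥ S.w i t)) * (S.K i t ⬝ᵥ S.K i t)⁻¹)) := by
      funext i t
      rw [div_eq_mul_inv]
      ring
    rw [e]
    exact h2
  refine ⟨{
    Lam := S.Lam
    I := S.I
    N := fun i => S.Nf i * S.rho i
    a := S.a
    p := S.p
    kap := S.kap
    G := fun j k i t => ((S.F i t)ᵀ * S.F i t) j k
    B := fun j k i t => ((2 : ℝ) • ((S.F i t)ᵀ * S.M i t * S.F i t)) j k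
    v := fun j i t => (S.Fi i t *ᵥ S.w i t) j
    lam := fun i t => -(2 * (S.K i t ⬝ᵥ (S.M i t *ᵥ S.w i t)) / (S.K i t ⬝ᵥ S.K i t))
    two_le_Lam := hL
    a_nonneg := S.a_nonneg
    a_le := S.a_le
    p_nonneg := S.p_nonneg
    p_le := S.p_le
    kap_ge := S.kap_ge
    kap_le := S.kap_le
    mod_G := T6.mod_matMul hA1 hA2 hL hFT S.mod_F
    mod_B := fun j k => T6.mod_smul hA2 hL
      (T6.mod_matMul hA1 hA2 hL (T6.mod_matMul hA1 hA2 hL hFT S.mod_M) S.mod_F j k) 2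
    mod_v := T6.mod_mulVec hA1 hA2 hL S.mod_Fi S.mod_w
    mod_lam := hlam
    v_kap := ?_
    v_eq := ?_
    solve := ?_ }, ?_⟩
  · intro i t
    have h := T6.dot_transfer (S.F i t) (S.Fi i t) (S.K i t) (S.w i t) (S.F_Fi i t)
    rw [S.K_kap i t, S.w_K i t] at h
    exact h
  · intro i t a
    have hd : ∀ b, deriv (fun t => (S.Fi i t *ᵥ S.w i t) b) t =
        (S.Fi i t *ᵥ (kelvin (S.M i t) (S.K i t) (S.w i t) - S.M i t *ᵥ S.w i t)) b :=
      fun b => (T6.deriv_mulVec (t7 i t) (hwd i t) b).deriv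
    have h := T6.alg (S.F i t) (S.Fi i t) (S.M i t) (S.K i t) (S.w i t) 0
      (-(2 * (S.K i t ⬝ᵥ (S.M i t *ᵥ S.w i t)) / (S.K i t ⬝ᵥ S.K i t))) (S.F_Fi i t) (t1 i t) a
    rw [S.K_kap i t] at h
    have e : -(S.M i t *ᵥ S.w i t) -
        (-(2 * (S.K i t ⬝ᵥ (S.M i t *ᵥ S.w i t)) / (S.K i t ⬝ᵥ S.K i t))) • S.K i t +
        (S.Fi i t)ᵀ *ᵥ (0 : V3) = kelvin (S.M i t) (S.K i t) (S.w i t) := by
      rw [Matrix.mulVec_zero, add_zero, neg_smul, sub_neg_eq_add]
      rfl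
    rw [e] at h
    simp only [hd]
    exact h
  · intro mu hmu r hr
    obtain ⟨X, l, hX, hl, hKX, hXd⟩ := hT5 ι S mu
      (fun a i t => ((S.Fi i t)ᵀ *ᵥ (fun b => r b i t)) a) hmu
      (T6.mod_mulVec hA1 hA2 hL (X := fun i t b => r b i t) hFiT hr)
    refine ⟨fun a i t => (S.Fi i t *ᵥ X i t) a, l,
      T6.mod_mulVec hA1 hA2 hL S.mod_Fi hX, hl, ?_, ?_⟩
    · intro i t
      have h := T6.dot_transfer (S.F i t) (S.Fi i t) (S.K i t) (X i t) (S.F_Fi i t)
      rw [S.K_kap i t, hKX i t] at h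
      exact h
    · intro i t a
      have hd : ∀ b, deriv (fun t => (S.Fi i t *ᵥ X i t) b) t =
          (S.Fi i t *ᵥ ((-(S.M i t *ᵥ X i t) - l i t • S.K i t +
            (S.Fi i t)ᵀ *ᵥ (fun b => r b i t)) - S.M i t *ᵥ X i t)) b :=
        fun b => (T6.deriv_mulVec (t7 i t) (hXd i t) b).deriv
      have h := T6.alg (S.F i t) (S.Fi i t) (S.M i t) (S.K i t) (X i t) (fun b => r b i t)
        (l i t) (S.F_Fi i t) (t1 i t) a
      rw [S.K_kap i t] at h
      simp only [hd]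
      exact h
  · exact {
      Lam := rfl
      I := rfl
      N := rfl
      a := rfl
      p := rfl
      kap := rfl
      G := fun i t => rfl
      B := fun i t => rfl
      v := fun i t => rfl }

end Pool.Agent.Work.MP_b0497c_an.Forced.W

end
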