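import Pool.Agent.Work.MP_b0497c_an.Forced.Ode.Stmts

/-! Bundle of small proof modules (one section per former module). -/

section

set_option autoImplicit false

/-!
# ODE module: item T1 (first and second order bounds on `b1, k, v`)
-/

open scoped ContDiff
open Set ContinuousLinearMap

namespace Pool.Agent.Work.MP_b0497c_an.Forced.Ode

namespace Bounds

theorem exp_le {x : ℝ} (h0 : 0 ≤ x) (h1 : x ≤ 1 / 2) : Real.exp x ≤ 1 + 2 * x := by
  have h := Real.exp_bound_div_one_sub_of_interval h0 (by linarith)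
  refine h.trans ?_
  rw [div_le_iff₀ (by linarith)]
  nlinarith

theorem mv (hG : StGrow) {E : Type} [NormedAddCommGroup E] [NormedSpace ℝ E] {f f' : ℝ → E}
    {s t C : ℝ} (hst : s ≤ t) (hC : 0 ≤ C) (hd : ∀ u ∈ Icc s t, HasDerivAt f (f' u) u)
    (hb : ∀ u ∈ Icc s t, ‖f' u‖ ≤ C) : ‖f t - f s‖ ≤ C * (t - s) := by
  have h := hG E (fun u => f u - f s) f' s t 0 C hst le_rfl hC
    (fun u hu => (hd u hu).sub_const _) (fun u hu => by simpa using hb u hu)
  simpa using h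

/-- projection on the line of `k` -/
noncomputable def Pr (k x : E3) : E3 := (inner ℝ k x / ‖k‖ ^ 2) • k

theorem Pr_eq (k x : E3) : Pr k x = inner ℝ ((‖k‖)⁻¹ • k) x • ((‖k‖)⁻¹ • k) := by
  unfold Pr
  rw [real_inner_smul_left, smul_smul]
  congr 1
  rw [div_eq_mul_inv, pow_two, mul_inv]
  ring

theorem unit_norm {k : E3} (hk : k ≠ 0) : ‖(‖k‖)⁻¹ • k‖ = 1 := by
  rw [norm_smul, norm_inv, norm_norm, inv_mul_cancel₀ (norm_ne_zero_iff.2 hk)]

theorem Pr_norm (k x : E3) : ‖Pr k x‖ ≤ ‖x‖ := by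
  by_cases hk : k = 0
  · subst hk; simp [Pr]
  · rw [Pr_eq, norm_smul, unit_norm hk, mul_one, Real.norm_eq_abs]
    calc |inner ℝ ((‖k‖)⁻¹ • k) x| ≤ ‖(‖k‖)⁻¹ • k‖ * ‖x‖ := abs_real_inner_le_norm _ _
      _ = ‖x‖ := by rw [unit_norm hk, one_mul]

theorem Pr_sub (k x y : E3) : Pr k x - Pr k y = Pr k (x - y) := by
  unfold Pr
  rw [inner_sub_right, sub_div, sub_smul]

theorem Pr_diff {k k0 : E3} (x : E3) (h0 : ‖k0‖ = 1) (hk : k ≠ 0) :
    ‖Pr k x - Pr k0 x‖ ≤ 4 * ‖k - k0‖ * ‖x‖ := by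
  have e0 : Pr k0 x = inner ℝ k0 x • k0 := by
    unfold Pr; rw [h0]; simp
  set n : E3 := (‖k‖)⁻¹ • k with hn
  have e1 : Pr k x = inner ℝ n x • n := Pr_eq k x
  have hn1 : ‖n‖ = 1 := unit_norm hk
  have hkn : k = ‖k‖ • n := by
    rw [hn, smul_smul, mul_inv_cancel₀ (norm_ne_zero_iff.2 hk), one_smul]
  have h1 : ‖n - k‖ ≤ ‖k - k0‖ := by
    have : n - k = (1 - ‖k‖) • n := by
      rw [sub_smul, one_smul, ← hkn]
    rw [this, norm_smul, hn1, mul_one, Real.norm_eq_abs]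
    calc |1 - ‖k‖| = |‖k‖ - ‖k0‖| := by rw [h0, abs_sub_comm]
      _ ≤ ‖k - k0‖ := abs_norm_sub_norm_le k k0
  have h2 : ‖n - k0‖ ≤ 2 * ‖k - k0‖ := by
    calc ‖n - k0‖ = ‖(n - k) + (k - k0)‖ := by congr 1; abel
      _ ≤ ‖n - k‖ + ‖k - k0‖ := norm_add_le _ _
      _ ≤ 2 * ‖k - k0‖ := by linarith
  have e2 : Pr k x - Pr k0 x = inner ℝ (n - k0) x • n + inner ℝ k0 x • (n - k0) := by
    rw [e0, e1, inner_sub_left, sub_smul, smul_sub]
    abel
  rw [e2]
  calc ‖inner ℝ (n - k0) x • n + inner ℝ k0 x • (n - k0)‖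
      ≤ ‖inner ℝ (n - k0) x • n‖ + ‖inner ℝ k0 x • (n - k0)‖ := norm_add_le _ _
    _ = |inner ℝ (n - k0) x| + |inner ℝ k0 x| * ‖n - k0‖ := by
        rw [norm_smul (inner ℝ (n - k0) x) n, norm_smul (inner ℝ k0 x) (n - k0), hn1, mul_one,
          Real.norm_eq_abs, Real.norm_eq_abs]
    _ ≤ ‖n - k0‖ * ‖x‖ + ‖k0‖ * ‖x‖ * ‖n - k0‖ := by
        refine add_le_add (abs_real_inner_le_norm _ _) ?_
        exact mul_le_mul_of_nonneg_right (abs_real_inner_le_norm _ _) (norm_nonneg _)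
    _ = 2 * ‖n - k0‖ * ‖x‖ := by rw [h0]; ring
    _ ≤ 4 * ‖k - k0‖ * ‖x‖ := by
        refine mul_le_mul_of_nonneg_right ?_ (norm_nonneg _)
        linarith

theorem adj_le (A : Op) (x : E3) : ‖adjoint A x‖ ≤ ‖A‖ * ‖x‖ := by
  have h := (adjoint A).le_opNorm x
  have e : ‖adjoint A‖ = ‖A‖ := LinearIsometryEquiv.norm_map _ _
  rwa [e] at h

end Bounds

open Bounds in
theorem prf_StBounds (hN : StPar) (hG : StGrow) (_hE : StExact) : StBounds := by
  intro D hD t ht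
  obtain ⟨hy, -, -, -, -, ha, -, -, -, -, hLT, -, -, -, -, -, -, -, -, -, -, -, -, hI⟩ := hN D hD
  obtain ⟨h0, hT, -⟩ := hI t ht
  have hL : 1 ≤ D.Lam := hD.L1
  have hL0 : 0 ≤ D.Lam := by linarith
  set τ : ℝ := t - D.t0 with hτ
  -- smallness
  have hsm : D.Lam * τ ≤ 1 / 10 ^ 6 := by
    have h1 : D.Lam * τ ≤ D.Lam * D.T := mul_le_mul_of_nonneg_left hT hL0
    have h2 : (10 : ℝ) ^ 6 ≤ D.y ^ 18 := by
      calc (10 : ℝ) ^ 6 ≤ D.y := by linarith
        _ = D.y ^ 1 := (pow_one _).symm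
        _ ≤ D.y ^ 18 := pow_le_pow_right₀ (by linarith) (by norm_num)
    have h3 : 0 ≤ D.Lam * D.T := mul_nonneg hL0 (h0.trans hT)
    have h4 : (10 : ℝ) ^ 6 * (D.Lam * D.T) ≤ 1 :=
      (mul_le_mul_of_nonneg_right h2 h3).trans hLT
    rw [le_div_iff₀ (by positivity)]
    nlinarith
  have hLτ0 : 0 ≤ D.Lam * τ := mul_nonneg hL0 h0
  have htt : D.t0 ≤ t := by linarith
  -- membership
  have hsub : ∀ u ∈ Icc D.t0 t, u ∈ D.I := fun u hu => ⟨hu.1, hu.2.trans ht.2⟩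
  have hBb : ∀ u ∈ Icc D.t0 t, ‖D.B u‖ ≤ D.Lam := fun u hu => hD.Bb u (hsub u hu)
  have ht0 : D.t0 ∈ Icc D.t0 t := ⟨le_rfl, htt⟩
  have hmono : ∀ u ∈ Icc D.t0 t, u - D.t0 ≤ τ ∧ 0 ≤ u - D.t0 := fun u hu =>
    ⟨by rw [hτ]; linarith [hu.2], by linarith [hu.1]⟩
  have hLu : ∀ u ∈ Icc D.t0 t, D.Lam * (u - D.t0) ≤ 1 / 10 ^ 6 ∧ 0 ≤ D.Lam * (u - D.t0) :=
    fun u hu => ⟨(mul_le_mul_of_nonneg_left (hmono u hu).1 hL0).trans hsm,
      mul_nonneg hL0 (hmono u hu).2⟩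
  -- B
  have hB : ∀ u ∈ Icc D.t0 t, ‖D.B u - D.B D.t0‖ ≤ D.Lam ^ 2 * (u - D.t0) := by
    intro u hu
    refine mv hG (f' := deriv D.B) hu.1 (by positivity) ?_ ?_
    · intro w _
      exact ((hD.flow.smooth.differentiable (by simp)) w).hasDerivAt
    · intro w hw
      exact hD.Bd w (hsub w ⟨hw.1, hw.2.trans hu.2⟩)
  -- b1
  have hb10 : ‖D.b1 D.t0‖ = 1 := by
    rw [hD.b1_init, norm_smul, norm_inv, Real.norm_eq_abs, abs_of_pos ha, hD.va,
      inv_mul_cancel₀ ha.ne']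
  have hb1g : ∀ u ∈ Icc D.t0 t, ‖D.b1 u‖ ≤ 1 + 2 * (D.Lam * (u - D.t0)) := by
    intro u hu
    have h := hG E3 D.b1 (fun u => D.B u (D.b1 u)) D.t0 u D.Lam 0 hu.1 hL0 le_rfl
      (fun w _ => hD.b1_deriv w) (fun w hw => by
        have := (D.B w).le_opNorm (D.b1 w)
        have h2 := mul_le_mul_of_nonneg_right (hBb w ⟨hw.1, hw.2.trans hu.2⟩)
          (norm_nonneg (D.b1 w))
        linarith)
    rw [hb10, zero_mul, add_zero, mul_one] at h
    exact h.trans (exp_le (hLu u hu).2 (by linarith [(hLu u hu).1]))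
  have hb12 : ∀ u ∈ Icc D.t0 t, ‖D.b1 u‖ ≤ 2 := fun u hu =>
    (hb1g u hu).trans (by linarith [(hLu u hu).1])
  have hb1d : ∀ u ∈ Icc D.t0 t, ‖D.b1 u - D.b1 D.t0‖ ≤ 2 * D.Lam * (u - D.t0) := by
    intro u hu
    refine mv hG (f' := fun u => D.B u (D.b1 u)) hu.1 (by positivity)
      (fun w _ => hD.b1_deriv w) ?_
    intro w hw
    have hw' : w ∈ Icc D.t0 t := ⟨hw.1, hw.2.trans hu.2⟩
    calc ‖D.B w (D.b1 w)‖ ≤ ‖D.B w‖ * ‖D.b1 w‖ := (D.B w).le_opNorm _
      _ ≤ D.Lam * 2 := mul_le_mul (hBb w hw') (hb12 w hw') (norm_nonneg _) hL0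
      _ = 2 * D.Lam := by ring
  have hb1s : ‖D.b1 t - D.b1 D.t0 - τ • D.B D.t0 (D.b1 D.t0)‖ ≤ 4 * D.Lam ^ 2 * τ ^ 2 := by
    have h := mv hG (f := fun u => D.b1 u - (u - D.t0) • D.B D.t0 (D.b1 D.t0))
      (f' := fun u => D.B u (D.b1 u) - D.B D.t0 (D.b1 D.t0)) (C := 4 * D.Lam ^ 2 * τ) htt
      (by positivity) ?_ ?_
    · have e : (D.b1 t - (t - D.t0) • D.B D.t0 (D.b1 D.t0))
          - (D.b1 D.t0 - (D.t0 - D.t0) • D.B D.t0 (D.b1 D.t0))
          = D.b1 t - D.b1 D.t0 - τ • D.B D.t0 (D.b1 D.t0) := by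
        rw [sub_self, zero_smul, sub_zero, ← hτ]; abel
      rw [e, ← hτ] at h
      calc _ ≤ _ := h
        _ = _ := by ring
    · intro u _
      have h1 := ((hasDerivAt_id u).sub_const D.t0).smul_const (D.B D.t0 (D.b1 D.t0))
      have h2 := (hD.b1_deriv u).sub h1
      rw [one_smul] at h2
      exact h2
    · intro u hu
      have e : D.B u (D.b1 u) - D.B D.t0 (D.b1 D.t0) =
          (D.B u - D.B D.t0) (D.b1 u) + D.B D.t0 (D.b1 u - D.b1 D.t0) := by
        rw [sub_apply, map_sub]; abel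
      rw [e]
      calc ‖(D.B u - D.B D.t0) (D.b1 u) + D.B D.t0 (D.b1 u - D.b1 D.t0)‖
          ≤ ‖(D.B u - D.B D.t0) (D.b1 u)‖ + ‖D.B D.t0 (D.b1 u - D.b1 D.t0)‖ := norm_add_le _ _
        _ ≤ ‖D.B u - D.B D.t0‖ * ‖D.b1 u‖ + ‖D.B D.t0‖ * ‖D.b1 u - D.b1 D.t0‖ :=
            add_le_add ((D.B u - D.B D.t0).le_opNorm _) ((D.B D.t0).le_opNorm _)
        _ ≤ (D.Lam ^ 2 * τ) * 2 + D.Lam * (2 * D.Lam * τ) := by
            refine add_le_add (mul_le_mul ?_ (hb12 u hu) (norm_nonneg _) (by positivity))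
              (mul_le_mul (hBb _ ht0) ?_ (norm_nonneg _) hL0)
            · exact (hB u hu).trans (mul_le_mul_of_nonneg_left (hmono u hu).1 (by positivity))
            · exact (hb1d u hu).trans (mul_le_mul_of_nonneg_left (hmono u hu).1 (by positivity))
        _ = 4 * D.Lam ^ 2 * τ := by ring
  -- k
  have hkg : ∀ u ∈ Icc D.t0 t, ‖D.k u‖ ≤ 1 + 2 * (D.Lam * (u - D.t0)) := by
    intro u hu
    have h := hG E3 D.k (fun u => -(adjoint (D.B u) (D.k u))) D.t0 u D.Lam 0 hu.1 hL0 le_rfl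
      (fun w _ => hD.wave.q_deriv w) (fun w hw => by
        rw [norm_neg]
        have := adj_le (D.B w) (D.k w)
        have h2 := mul_le_mul_of_nonneg_right (hBb w ⟨hw.1, hw.2.trans hu.2⟩)
          (norm_nonneg (D.k w))
        linarith)
    rw [hD.k1, zero_mul, add_zero, mul_one] at h
    exact h.trans (exp_le (hLu u hu).2 (by linarith [(hLu u hu).1]))
  have hk2 : ∀ u ∈ Icc D.t0 t, ‖D.k u‖ ≤ 2 := fun u hu =>
    (hkg u hu).trans (by linarith [(hLu u hu).1])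
  have hkd : ∀ u ∈ Icc D.t0 t, ‖D.k u - D.k D.t0‖ ≤ 2 * D.Lam * (u - D.t0) := by
    intro u hu
    refine mv hG (f' := fun u => -(adjoint (D.B u) (D.k u))) hu.1 (by positivity)
      (fun w _ => hD.wave.q_deriv w) ?_
    intro w hw
    have hw' : w ∈ Icc D.t0 t := ⟨hw.1, hw.2.trans hu.2⟩
    rw [norm_neg]
    calc ‖adjoint (D.B w) (D.k w)‖ ≤ ‖D.B w‖ * ‖D.k w‖ := adj_le _ _
      _ ≤ D.Lam * 2 := mul_le_mul (hBb w hw') (hk2 w hw') (norm_nonneg _) hL0
      _ = 2 * D.Lam := by ring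
  -- v
  have hvd : ∀ u, -(D.B u (D.v u)) + (2 * inner ℝ (D.k u) (D.B u (D.v u)) / ‖D.k u‖ ^ 2) • D.k u
      = -(D.B u (D.v u)) + (2 : ℝ) • Pr (D.k u) (D.B u (D.v u)) := by
    intro u
    unfold Pr
    rw [smul_smul]
    congr 2
    ring
  have hvb : ∀ u ∈ Icc D.t0 t, ‖-(D.B u (D.v u))
      + (2 * inner ℝ (D.k u) (D.B u (D.v u)) / ‖D.k u‖ ^ 2) • D.k u‖ ≤ 3 * D.Lam * ‖D.v u‖ := by
    intro u hu
    rw [hvd u]
    have h1 : ‖D.B u (D.v u)‖ ≤ D.Lam * ‖D.v u‖ :=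
      ((D.B u).le_opNorm _).trans (mul_le_mul_of_nonneg_right (hBb u hu) (norm_nonneg _))
    have h2 := Pr_norm (D.k u) (D.B u (D.v u))
    calc ‖-(D.B u (D.v u)) + (2 : ℝ) • Pr (D.k u) (D.B u (D.v u))‖
        ≤ ‖-(D.B u (D.v u))‖ + ‖(2 : ℝ) • Pr (D.k u) (D.B u (D.v u))‖ := norm_add_le _ _
      _ = ‖D.B u (D.v u)‖ + 2 * ‖Pr (D.k u) (D.B u (D.v u))‖ := by
          rw [norm_neg, norm_smul, Real.norm_eq_abs, abs_of_pos (by norm_num : (0 : ℝ) < 2)]
      _ ≤ 3 * D.Lam * ‖D.v u‖ := by linarith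
  have hvg : ∀ u ∈ Icc D.t0 t, ‖D.v u‖ ≤ (1 + 6 * (D.Lam * (u - D.t0))) * D.a := by
    intro u hu
    have h := hG E3 D.v (fun u => -(D.B u (D.v u))
      + (2 * inner ℝ (D.k u) (D.B u (D.v u)) / ‖D.k u‖ ^ 2) • D.k u) D.t0 u (3 * D.Lam) 0 hu.1
      (by positivity) le_rfl
      (fun w _ => hD.wave.w_deriv w) (fun w hw => by
        have := hvb w ⟨hw.1, hw.2.trans hu.2⟩
        linarith)
    rw [hD.va, zero_mul, add_zero] at h
    refine h.trans (mul_le_mul_of_nonneg_right ?_ ha.le)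
    have h5 := hLu u hu
    have h3 : 3 * D.Lam * (u - D.t0) = 3 * (D.Lam * (u - D.t0)) := by ring
    have h4 := exp_le (x := 3 * D.Lam * (u - D.t0)) (by rw [h3]; linarith [h5.2])
      (by rw [h3]; linarith [h5.1])
    refine h4.trans (le_of_eq ?_)
    ring
  have hv2 : ∀ u ∈ Icc D.t0 t, ‖D.v u‖ ≤ 2 * D.a := fun u hu =>
    (hvg u hu).trans (mul_le_mul_of_nonneg_right (by linarith [(hLu u hu).1]) ha.le)
  have hvdd : ∀ u ∈ Icc D.t0 t, ‖D.v u - D.v D.t0‖ ≤ 6 * D.a * D.Lam * (u - D.t0) := by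
    intro u hu
    refine mv hG hu.1 (by positivity) (fun w _ => hD.wave.w_deriv w) ?_
    intro w hw
    have hw' : w ∈ Icc D.t0 t := ⟨hw.1, hw.2.trans hu.2⟩
    calc _ ≤ 3 * D.Lam * ‖D.v w‖ := hvb w hw'
      _ ≤ 3 * D.Lam * (2 * D.a) := mul_le_mul_of_nonneg_left (hv2 w hw') (by positivity)
      _ = 6 * D.a * D.Lam := by ring
  have hk0 : D.k D.t0 ≠ 0 := hD.wave.q_ne _
  have hPr0 : (2 * D.a * D.kap) • D.k D.t0 = (2 : ℝ) • Pr (D.k D.t0) (D.B D.t0 (D.v D.t0)) := by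
    unfold Pr
    rw [hD.k1, hD.kapeq, smul_smul]
    congr 1
    ring
  have hvs : ‖D.v t - D.v D.t0 - τ • (-(D.B D.t0 (D.v D.t0)) + (2 * D.a * D.kap) • D.k D.t0)‖
      ≤ 40 * D.a * D.Lam ^ 2 * τ ^ 2 := by
    have h := mv hG (f := fun u => D.v u - (u - D.t0) •
        (-(D.B D.t0 (D.v D.t0)) + (2 * D.a * D.kap) • D.k D.t0))
      (f' := fun u => (-(D.B u (D.v u))
        + (2 * inner ℝ (D.k u) (D.B u (D.v u)) / ‖D.k u‖ ^ 2) • D.k u) -
        (-(D.B D.t0 (D.v D.t0)) + (2 * D.a * D.kap) • D.k D.t0))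
      (C := 40 * D.a * D.Lam ^ 2 * τ) htt (by positivity) ?_ ?_
    · have e : (D.v t - (t - D.t0) • (-(D.B D.t0 (D.v D.t0)) + (2 * D.a * D.kap) • D.k D.t0))
          - (D.v D.t0 - (D.t0 - D.t0) •
            (-(D.B D.t0 (D.v D.t0)) + (2 * D.a * D.kap) • D.k D.t0))
          = D.v t - D.v D.t0 - τ •
            (-(D.B D.t0 (D.v D.t0)) + (2 * D.a * D.kap) • D.k D.t0) := by
        rw [sub_self, zero_smul, sub_zero, ← hτ]; abel
      rw [e, ← hτ] at h
      calc _ ≤ _ := h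
        _ = _ := by ring
    · intro u _
      have h1 := ((hasDerivAt_id u).sub_const D.t0).smul_const
        (-(D.B D.t0 (D.v D.t0)) + (2 * D.a * D.kap) • D.k D.t0)
      have h2 := (hD.wave.w_deriv u).sub h1
      rw [one_smul] at h2
      exact h2
    · intro u hu
      rw [hvd u, hPr0]
      set z : E3 := D.B u (D.v u) with hz
      set z0 : E3 := D.B D.t0 (D.v D.t0) with hz0
      have hz1 : ‖z - z0‖ ≤ 8 * D.a * D.Lam ^ 2 * τ := by
        have e : z - z0 = (D.B u - D.B D.t0) (D.v u) + D.B D.t0 (D.v u - D.v D.t0) := by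
          rw [hz, hz0, sub_apply, map_sub]; abel
        rw [e]
        calc ‖(D.B u - D.B D.t0) (D.v u) + D.B D.t0 (D.v u - D.v D.t0)‖
            ≤ ‖(D.B u - D.B D.t0) (D.v u)‖ + ‖D.B D.t0 (D.v u - D.v D.t0)‖ := norm_add_le _ _
          _ ≤ ‖D.B u - D.B D.t0‖ * ‖D.v u‖ + ‖D.B D.t0‖ * ‖D.v u - D.v D.t0‖ :=
              add_le_add ((D.B u - D.B D.t0).le_opNorm _) ((D.B D.t0).le_opNorm _)
          _ ≤ (D.Lam ^ 2 * τ) * (2 * D.a) + D.Lam * (6 * D.a * D.Lam * τ) := by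
              refine add_le_add (mul_le_mul ?_ (hv2 u hu) (norm_nonneg _) (by positivity))
                (mul_le_mul (hBb _ ht0) ?_ (norm_nonneg _) hL0)
              · exact (hB u hu).trans (mul_le_mul_of_nonneg_left (hmono u hu).1 (by positivity))
              · exact (hvdd u hu).trans
                  (mul_le_mul_of_nonneg_left (hmono u hu).1 (by positivity))
          _ = 8 * D.a * D.Lam ^ 2 * τ := by ring
      have hz2 : ‖z0‖ ≤ D.Lam * D.a := by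
        rw [hz0, ← hD.va]
        exact ((D.B D.t0).le_opNorm _).trans
          (mul_le_mul_of_nonneg_right (hBb _ ht0) (norm_nonneg _))
      have hP1 : ‖Pr (D.k u) z - Pr (D.k u) z0‖ ≤ 8 * D.a * D.Lam ^ 2 * τ := by
        rw [Pr_sub]
        exact (Pr_norm _ _).trans hz1
      have hP2 : ‖Pr (D.k u) z0 - Pr (D.k D.t0) z0‖ ≤ 8 * D.a * D.Lam ^ 2 * τ := by
        refine (Pr_diff z0 hD.k1 (hD.wave.q_ne u)).trans ?_
        have h5 : ‖D.k u - D.k D.t0‖ ≤ 2 * D.Lam * τ :=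
          (hkd u hu).trans (mul_le_mul_of_nonneg_left (hmono u hu).1 (by positivity))
        calc 4 * ‖D.k u - D.k D.t0‖ * ‖z0‖ ≤ 4 * (2 * D.Lam * τ) * (D.Lam * D.a) := by
              refine mul_le_mul (by linarith) hz2 (norm_nonneg _) (by positivity)
          _ = 8 * D.a * D.Lam ^ 2 * τ := by ring
      have e : -z + (2 : ℝ) • Pr (D.k u) z - (-z0 + (2 : ℝ) • Pr (D.k D.t0) z0) =
          -(z - z0) + (2 : ℝ) • ((Pr (D.k u) z - Pr (D.k u) z0)
            + (Pr (D.k u) z0 - Pr (D.k D.t0) z0)) := by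
        rw [smul_add, smul_sub, smul_sub]; abel
      rw [e]
      calc ‖-(z - z0) + (2 : ℝ) • ((Pr (D.k u) z - Pr (D.k u) z0)
            + (Pr (D.k u) z0 - Pr (D.k D.t0) z0))‖
          ≤ ‖-(z - z0)‖ + ‖(2 : ℝ) • ((Pr (D.k u) z - Pr (D.k u) z0)
            + (Pr (D.k u) z0 - Pr (D.k D.t0) z0))‖ := norm_add_le _ _
        _ = ‖z - z0‖ + 2 * ‖(Pr (D.k u) z - Pr (D.k u) z0)
            + (Pr (D.k u) z0 - Pr (D.k D.t0) z0)‖ := by
            rw [norm_neg, norm_smul, Real.norm_eq_abs, abs_of_pos (by norm_num : (0 : ℝ) < 2)]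
        _ ≤ ‖z - z0‖ + 2 * (‖Pr (D.k u) z - Pr (D.k u) z0‖
            + ‖Pr (D.k u) z0 - Pr (D.k D.t0) z0‖) := by
            have := norm_add_le (Pr (D.k u) z - Pr (D.k u) z0)
              (Pr (D.k u) z0 - Pr (D.k D.t0) z0)
            linarith
        _ ≤ 40 * D.a * D.Lam ^ 2 * τ := by linarith
  -- b2
  have hb2 : ‖D.b2 t‖ ≤ 2 + 4 * D.a * τ := by
    have h := hG E3 D.b2 (fun u => D.B u (D.b2 u) + D.v u) D.t0 t D.Lam (2 * D.a) htt hL0
      (by positivity) (fun w _ => hD.b2_deriv w) (fun w hw => by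
        have h1 := norm_add_le (D.B w (D.b2 w)) (D.v w)
        have h2 := (D.B w).le_opNorm (D.b2 w)
        have h3 := mul_le_mul_of_nonneg_right (hBb w hw) (norm_nonneg (D.b2 w))
        have h4 := hv2 w hw
        linarith)
    rw [hD.b2_init, hD.k1, ← hτ] at h
    have h5 : Real.exp (D.Lam * τ) ≤ 2 := (exp_le hLτ0 (by linarith)).trans (by linarith)
    calc ‖D.b2 t‖ ≤ Real.exp (D.Lam * τ) * (1 + 2 * D.a * τ) := h
      _ ≤ 2 * (1 + 2 * D.a * τ) := mul_le_mul_of_nonneg_right h5 (by positivity)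
      _ = 2 + 4 * D.a * τ := by ring
  have htm : t ∈ Icc D.t0 t := ⟨htt, le_rfl⟩
  have hlow : ∀ x x0 : E3, ‖x0‖ = 1 → ‖x - x0‖ ≤ 2 * D.Lam * τ → 1 / 2 ≤ ‖x‖ := by
    intro x x0 h1 h2
    have h3 : ‖x0‖ - ‖x‖ ≤ ‖x0 - x‖ := norm_sub_norm_le x0 x
    rw [norm_sub_rev, h1] at h3
    nlinarith
  refine ⟨hlow _ _ hb10 (hb1d t htm), hb12 t htm, hlow _ _ hD.k1 (hkd t htm), hk2 t htm,
    hv2 t htm, ?_, hb2, hB t htm, hb1d t htm, hb1s, hkd t htm, hvdd t htm, hvs⟩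
  have h1 := hvg t htm
  have h2 := hkg t htm
  rw [← hτ] at h1 h2
  calc ‖D.v t‖ * ‖D.k t‖ ≤ ((1 + 6 * (D.Lam * τ)) * D.a) * (1 + 2 * (D.Lam * τ)) :=
        mul_le_mul h1 h2 (norm_nonneg _) (by positivity)
    _ = ((1 + 6 * (D.Lam * τ)) * (1 + 2 * (D.Lam * τ))) * D.a := by ring
    _ ≤ 11 / 10 * D.a := by
        refine mul_le_mul_of_nonneg_right ?_ ha.le
        nlinarith

end Pool.Agent.Work.MP_b0497c_an.Forced.Ode

end

section

set_option autoImplicit false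

/-!
# ODE module, item R1: invariance of the cone
-/

open scoped ContDiff
open Set ContinuousLinearMap

namespace Pool.Agent.Work.MP_b0497c_an.Forced.Ode

namespace Cone

/-- The elementary facts on the coefficients on the window. -/
theorem coefs (hN : StPar) (hT : StCoef) (hM : StNum) (D : EraD) (hD : D.Ok) :
    ∃ C0 : ℝ, 0 ≤ C0 ∧ 0 < D.om ∧ D.s0 ≤ D.t0 + D.T ∧ ∀ t ∈ D.J,
      0 ≤ D.A12 t ∧ 0 ≤ D.A21 t - 25 / 16 * D.A12 t - 5 / 2 * D.dd t ∧
      0 ≤ 9 / 4 * D.A12 t + 3 * D.dd t - D.A21 t ∧ 0 ≤ 5 / 4 * D.A12 t + D.dd t ∧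
      D.A12 t ≤ 4 * C0 ∧ D.A21 t ≤ 4 * C0 ∧ |D.dd t| ≤ C0 := by
  obtain ⟨-, -, -, -, hXc, -, hom, -, -, -, -, -, -, -, hx0, hx04, -, -, hs0, hs1, hs2, -, -, hI⟩ :=
    hN D hD
  refine ⟨1 / D.x0 ^ 2, by positivity, hom, (hs1.trans hs2).le, fun t ht => ?_⟩
  have htI : t ∈ D.I := ⟨hs0.le.trans ht.1, ht.2⟩
  obtain ⟨-, -, -, hxX, -, -, -, hJ⟩ := hI t htI
  have hx : D.x0 ≤ D.x t := hJ.1 ht
  have hxpos : 0 < D.x t := lt_of_lt_of_le hx0 hx
  have hc : D.c ≤ D.x t ^ 4 := by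
    rw [← hx04]
    exact pow_le_pow_left₀ hx0.le hx 4
  obtain ⟨hA, hG⟩ := hT D hD t htI
  obtain ⟨h1, -, h3, h4, h5, -, h7, h8, h9⟩ := hM D.c D.X D.y (D.x t) (D.Ah t) (D.Gh t) hD.c0 hD.c1
    hD.X1 hD.cX hXc hxpos hc hxX hA hG
  have hle : 1 / D.x t ^ 2 ≤ 1 / D.x0 ^ 2 :=
    one_div_le_one_div_of_le (by positivity) (pow_le_pow_left₀ hx0.le hx 2)
  have h4' : 4 / D.x t ^ 2 = 4 * (1 / D.x t ^ 2) := by ring
  have h6 : (0 : ℝ) ≤ 6 / 5 / D.x t ^ 2 := by positivity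
  unfold EraD.A12 EraD.A21 EraD.dd
  rw [h4'] at h7 h8
  exact ⟨h1, h3, h4, h6.trans h5, by linarith, by linarith, h9.trans hle⟩

end Cone

theorem prf_StCone (hN : StPar) (hT : StCoef) (hM : StNum) (hC : StCoop) : StCone := by
  intro D hD Y W hS hY0 hW0
  obtain ⟨C0, hC0, hom, hst, hco⟩ := Cone.coefs hN hT hM D hD
  have hs0J : D.s0 ∈ D.J := ⟨le_rfl, hst⟩
  -- first cone face
  have hfirst := hC Y (fun t => W t - 5 / 4 * Y t)
    (fun t => D.om * (D.A12 t * W t + D.dd t * Y t))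
    (fun t => D.om * (D.A21 t * Y t - D.dd t * W t)
      - 5 / 4 * (D.om * (D.A12 t * W t + D.dd t * Y t)))
    (fun t => D.om * (5 / 4 * D.A12 t + D.dd t)) (fun t => D.om * D.A12 t)
    (fun t => D.om * (D.A21 t - 25 / 16 * D.A12 t - 5 / 2 * D.dd t))
    (fun t => -(D.om * (5 / 4 * D.A12 t + D.dd t))) D.s0 (D.t0 + D.T) (D.om * (10 * C0))
    (fun t ht => (hS t ht).1) (fun t ht => (hS t ht).2.sub ((hS t ht).1.const_mul _))
    (fun t _ => le_of_eq (by ring)) (fun t _ => le_of_eq (by ring))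
    (fun t ht => by
      obtain ⟨h1, h2, h3, h4, h5, h6, h7⟩ := hco t ht
      have h7' := abs_le.1 h7
      have e1 : |D.om * (5 / 4 * D.A12 t + D.dd t)| ≤ D.om * (10 * C0) := by
        rw [abs_of_nonneg (mul_nonneg hom.le h4)]
        exact mul_le_mul_of_nonneg_left (by linarith) hom.le
      refine ⟨mul_nonneg hom.le h1, mul_nonneg hom.le h2, e1,
        mul_le_mul_of_nonneg_left (by linarith) hom.le,
        mul_le_mul_of_nonneg_left (by linarith) hom.le, ?_⟩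
      show |-(D.om * (5 / 4 * D.A12 t + D.dd t))| ≤ D.om * (10 * C0)
      rw [abs_neg]
      exact e1)
    hY0.le (by show 0 ≤ W D.s0 - 5 / 4 * Y D.s0; linarith)
  -- positivity
  have hmono : MonotoneOn Y (Icc D.s0 (D.t0 + D.T)) := by
    refine monotoneOn_of_deriv_nonneg (convex_Icc _ _)
      (fun t ht => (hS t ht).1.continuousAt.continuousWithinAt)
      (fun t ht => ((hS t (interior_subset ht)).1.differentiableAt).differentiableWithinAt)
      (fun t ht => ?_)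
    have htJ : t ∈ D.J := interior_subset ht
    rw [(hS t htJ).1.deriv]
    obtain ⟨h1, h2, h3, h4, h5, h6, h7⟩ := hco t htJ
    obtain ⟨f1, f2⟩ := hfirst t htJ
    have f2' : 0 ≤ W t - 5 / 4 * Y t := f2
    have : D.A12 t * W t + D.dd t * Y t
        = (5 / 4 * D.A12 t + D.dd t) * Y t + D.A12 t * (W t - 5 / 4 * Y t) := by ring
    rw [this]
    exact mul_nonneg hom.le (add_nonneg (mul_nonneg h4 f1) (mul_nonneg h1 f2'))
  have hpos : ∀ t ∈ D.J, 0 < Y t := fun t ht => lt_of_lt_of_le hY0 (hmono hs0J ht ht.1)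
  -- second cone face
  have hsecond := hC (fun t => 3 / 2 * Y t - W t) (fun _ => 0)
    (fun t => 3 / 2 * (D.om * (D.A12 t * W t + D.dd t * Y t))
      - D.om * (D.A21 t * Y t - D.dd t * W t))
    (fun _ => 0)
    (fun t => -(D.om * (3 / 2 * D.A12 t + D.dd t))) (fun _ => 0) (fun _ => 0) (fun _ => 0)
    D.s0 (D.t0 + D.T) (D.om * (10 * C0))
    (fun t ht => ((hS t ht).1.const_mul _).sub (hS t ht).2) (fun t _ => hasDerivAt_const t 0)
    (fun t ht => by
      obtain ⟨h1, h2, h3, h4, h5, h6, h7⟩ := hco t ht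
      have hp := mul_nonneg hom.le (mul_nonneg h3 (hpos t ht).le)
      show -(D.om * (3 / 2 * D.A12 t + D.dd t)) * (3 / 2 * Y t - W t) + 0 * 0 ≤
        3 / 2 * (D.om * (D.A12 t * W t + D.dd t * Y t)) - D.om * (D.A21 t * Y t - D.dd t * W t)
      nlinarith [hp])
    (fun t _ => by simp)
    (fun t ht => by
      obtain ⟨h1, h2, h3, h4, h5, h6, h7⟩ := hco t ht
      have h7' := abs_le.1 h7
      have hK : 0 ≤ D.om * (10 * C0) := by positivity
      have hnn : 0 ≤ 3 / 2 * D.A12 t + D.dd t := by linarith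
      refine ⟨le_rfl, le_rfl, ?_, hK, hK, ?_⟩
      · show |-(D.om * (3 / 2 * D.A12 t + D.dd t))| ≤ D.om * (10 * C0)
        rw [abs_neg, abs_of_nonneg (mul_nonneg hom.le hnn)]
        exact mul_le_mul_of_nonneg_left (by linarith) hom.le
      · show |(0 : ℝ)| ≤ D.om * (10 * C0)
        rw [abs_zero]
        exact hK)
    (by show 0 ≤ 3 / 2 * Y D.s0 - W D.s0; linarith) le_rfl
  intro t ht
  have f1 : 0 ≤ W t - 5 / 4 * Y t := (hfirst t ht).2
  have f2 : 0 ≤ 3 / 2 * Y t - W t := (hsecond t ht).1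
  exact ⟨hpos t ht, by linarith, by linarith⟩

end Pool.Agent.Work.MP_b0497c_an.Forced.Ode

end

section

set_option autoImplicit false

/-!
# Comparison for two dimensional cooperative systems
-/

open Set

namespace Pool.Agent.Work.MP_b0497c_an.Forced.Ode

namespace Coop

/-- The square of the negative part is differentiable. -/
lemma hasDerivAt_sq_min (y : ℝ) : HasDerivAt (fun x : ℝ => (min x 0) ^ 2) (2 * min y 0) y := by
  rcases lt_trichotomy y 0 with h | h | h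
  · have h1 : HasDerivAt (fun x : ℝ => x ^ 2) (2 * y) y := by
      simpa using hasDerivAt_pow 2 y
    rw [min_eq_left h.le]
    refine h1.congr_of_eventuallyEq ?_
    filter_upwards [Iio_mem_nhds h] with x hx
    rw [min_eq_left (le_of_lt hx)]
  · subst h
    rw [hasDerivAt_iff_isLittleO_nhds_zero]
    simp only [min_self, mul_zero, zero_add, ne_eq, OfNat.ofNat_ne_zero, not_false_eq_true,
      zero_pow, sub_zero, smul_zero]
    have h2 : (fun h : ℝ => (min h 0) ^ 2) =O[nhds 0] fun h : ℝ => h ^ 2 := by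
      refine Asymptotics.isBigO_of_le _ ?_
      intro x
      rw [norm_pow, norm_pow]
      refine pow_le_pow_left₀ (norm_nonneg _) ?_ 2
      rcases le_total x 0 with hx | hx
      · rw [min_eq_left hx]
      · rw [min_eq_right hx]; simp
    refine h2.trans_isLittleO ?_
    have h3 : (fun x : ℝ => x ^ 2) =o[nhds 0] fun x : ℝ => x ^ 1 := by
      exact Asymptotics.isLittleO_pow_pow (by norm_num)
    simpa using h3
  · have h1 : HasDerivAt (fun _ : ℝ => (0 : ℝ)) 0 y := hasDerivAt_const y 0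
    rw [min_eq_right h.le, mul_zero]
    refine h1.congr_of_eventuallyEq ?_
    filter_upwards [Ioi_mem_nhds h] with x hx
    rw [min_eq_right (le_of_lt hx)]
    simp

/-- The quadratic form bound. -/
lemma quad_bound {a11 a12 a21 a22 K u1 u2 d1 d2 : ℝ}
    (h1 : a11 * u1 + a12 * u2 ≤ d1) (h2 : a21 * u1 + a22 * u2 ≤ d2)
    (p12 : 0 ≤ a12) (p21 : 0 ≤ a21) (b11 : |a11| ≤ K) (b12 : a12 ≤ K) (b21 : a21 ≤ K)
    (b22 : |a22| ≤ K) :
    2 * min u1 0 * d1 + 2 * min u2 0 * d2 ≤ 8 * K * ((min u1 0) ^ 2 + (min u2 0) ^ 2) := by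
  set m1 := min u1 0 with hm1
  set m2 := min u2 0 with hm2
  have m1n : m1 ≤ 0 := min_le_right _ _
  have m2n : m2 ≤ 0 := min_le_right _ _
  have e1 : m1 * u1 = m1 ^ 2 := by
    rcases le_total u1 0 with h | h
    · rw [hm1, min_eq_left h]; ring
    · rw [hm1, min_eq_right h]; ring
  have e2 : m2 * u2 = m2 ^ 2 := by
    rcases le_total u2 0 with h | h
    · rw [hm2, min_eq_left h]; ring
    · rw [hm2, min_eq_right h]; ring
  have l1 : m1 ≤ u1 := min_le_left _ _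
  have l2 : m2 ≤ u2 := min_le_left _ _
  have s1 : m1 * d1 ≤ m1 * (a11 * u1 + a12 * u2) := mul_le_mul_of_nonpos_left h1 m1n
  have s2 : m2 * d2 ≤ m2 * (a21 * u1 + a22 * u2) := mul_le_mul_of_nonpos_left h2 m2n
  have t1 : m1 * (a11 * u1 + a12 * u2) ≤ a11 * m1 ^ 2 + a12 * (m1 * m2) := by
    have : a12 * (m1 * u2) ≤ a12 * (m1 * m2) :=
      mul_le_mul_of_nonneg_left (mul_le_mul_of_nonpos_left l2 m1n) p12
    have e : m1 * (a11 * u1 + a12 * u2) = a11 * (m1 * u1) + a12 * (m1 * u2) := by ring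
    rw [e, e1]
    linarith
  have t2 : m2 * (a21 * u1 + a22 * u2) ≤ a22 * m2 ^ 2 + a21 * (m1 * m2) := by
    have : a21 * (m2 * u1) ≤ a21 * (m2 * m1) :=
      mul_le_mul_of_nonneg_left (mul_le_mul_of_nonpos_left l1 m2n) p21
    have e : m2 * (a21 * u1 + a22 * u2) = a22 * (m2 * u2) + a21 * (m2 * u1) := by ring
    have e' : m1 * m2 = m2 * m1 := mul_comm _ _
    rw [e, e2, e']
    linarith
  have mm : 0 ≤ m1 * m2 := mul_nonneg_of_nonpos_of_nonpos m1n m2n
  have mm2 : 2 * (m1 * m2) ≤ m1 ^ 2 + m2 ^ 2 := by nlinarith [sq_nonneg (m1 - m2)]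
  have q1 : a11 * m1 ^ 2 ≤ K * m1 ^ 2 :=
    mul_le_mul_of_nonneg_right ((le_abs_self _).trans b11) (sq_nonneg _)
  have q2 : a22 * m2 ^ 2 ≤ K * m2 ^ 2 :=
    mul_le_mul_of_nonneg_right ((le_abs_self _).trans b22) (sq_nonneg _)
  have q3 : a12 * (m1 * m2) ≤ K * (m1 * m2) := mul_le_mul_of_nonneg_right b12 mm
  have q4 : a21 * (m1 * m2) ≤ K * (m1 * m2) := mul_le_mul_of_nonneg_right b21 mm
  have K0 : 0 ≤ K := (abs_nonneg _).trans b11
  have q5 : K * (2 * (m1 * m2)) ≤ K * (m1 ^ 2 + m2 ^ 2) := mul_le_mul_of_nonneg_left mm2 K0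
  have q6 : 0 ≤ K * (m1 ^ 2 + m2 ^ 2) := by positivity
  nlinarith [s1, s2, t1, t2, q1, q2, q3, q4, q5, q6]

end Coop

open Coop in
/-- Two dimensional cooperative systems preserve the positive quadrant. -/
theorem prf_StCoop : StCoop := by
  intro u1 u2 u1' u2' a11 a12 a21 a22 s t K hu1 hu2 h1 h2 hb hs1 hs2 x hx
  have hst : s ≤ t := hx.1.trans hx.2
  set phi : ℝ → ℝ := fun y => (min (u1 y) 0) ^ 2 + (min (u2 y) 0) ^ 2 with hphi
  set psi : ℝ → ℝ := fun y => phi y * Real.exp (-(8 * K * y)) with hpsi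
  have dphi : ∀ y ∈ Icc s t, HasDerivAt phi
      (2 * min (u1 y) 0 * u1' y + 2 * min (u2 y) 0 * u2' y) y := by
    intro y hy
    have a := (hasDerivAt_sq_min (u1 y)).comp y (hu1 y hy)
    have b := (hasDerivAt_sq_min (u2 y)).comp y (hu2 y hy)
    exact a.add b
  have dexp : ∀ y, HasDerivAt (fun y => Real.exp (-(8 * K * y)))
      (Real.exp (-(8 * K * y)) * (-(8 * K))) y := by
    intro y
    have h : HasDerivAt (fun y : ℝ => -(8 * K) * y) (-(8 * K)) y := by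
      simpa using (hasDerivAt_id y).const_mul (-(8 * K))
    have : HasDerivAt (fun y : ℝ => -(8 * K * y)) (-(8 * K)) y := by
      have e : (fun y : ℝ => -(8 * K * y)) = fun y : ℝ => -(8 * K) * y := by
        funext y; ring
      rw [e]; exact h
    exact this.exp
  have dpsi : ∀ y ∈ Icc s t, HasDerivAt psi
      ((2 * min (u1 y) 0 * u1' y + 2 * min (u2 y) 0 * u2' y) * Real.exp (-(8 * K * y)) +
        phi y * (Real.exp (-(8 * K * y)) * (-(8 * K)))) y := by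
    intro y hy
    exact (dphi y hy).mul (dexp y)
  have anti : AntitoneOn psi (Icc s t) := by
    apply antitoneOn_of_deriv_nonpos (convex_Icc s t)
    · intro y hy
      exact (dpsi y hy).continuousAt.continuousWithinAt
    · intro y hy
      exact (dpsi y (interior_subset hy)).differentiableAt.differentiableWithinAt
    · intro y hy
      have hy' := interior_subset hy
      rw [(dpsi y hy').deriv]
      obtain ⟨p12, p21, b11, b12, b21, b22⟩ := hb y hy'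
      have q := quad_bound (h1 y hy') (h2 y hy') p12 p21 b11 b12 b21 b22
      have e0 : 0 ≤ Real.exp (-(8 * K * y)) := (Real.exp_pos _).le
      have := mul_le_mul_of_nonneg_right q e0
      simp only [hphi]
      nlinarith [this]
  have hle : psi x ≤ psi s := anti (left_mem_Icc.2 hst) hx hx.1
  have hps : psi s = 0 := by
    simp only [hpsi, hphi, min_eq_right hs1, min_eq_right hs2]
    simp
  have hphix : phi x ≤ 0 := by
    have e0 : 0 < Real.exp (-(8 * K * x)) := Real.exp_pos _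
    have : phi x * Real.exp (-(8 * K * x)) ≤ 0 := by rw [← hps]; exact hle
    by_contra hc
    push Not at hc
    have := mul_pos hc e0
    linarith
  have z1 : (min (u1 x) 0) ^ 2 ≤ 0 := by
    have := sq_nonneg (min (u2 x) 0)
    simp only [hphi] at hphix
    linarith
  have z2 : (min (u2 x) 0) ^ 2 ≤ 0 := by
    have := sq_nonneg (min (u1 x) 0)
    simp only [hphi] at hphix
    linarith
  have w1 : min (u1 x) 0 = 0 := by
    have := le_antisymm z1 (sq_nonneg _)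
    exact pow_eq_zero_iff (two_ne_zero) |>.1 this
  have w2 : min (u2 x) 0 = 0 := by
    have := le_antisymm z2 (sq_nonneg _)
    exact pow_eq_zero_iff (two_ne_zero) |>.1 this
  exact ⟨min_eq_right_iff.1 w1, min_eq_right_iff.1 w2⟩

end Pool.Agent.Work.MP_b0497c_an.Forced.Ode

end

section

set_option autoImplicit false

/-!
# ODE module: exact conservation laws
-/

open scoped ContDiff
open Set ContinuousLinearMap

namespace Pool.Agent.Work.MP_b0497c_an.Forced.Ode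

namespace Exact

variable {D : EraD}

theorem ro_apply (v k x : E3) : ro v k x = inner ℝ k x • v := by
  simp [ro]

theorem M_apply (t : ℝ) (x : E3) : D.M t x = D.B t x + inner ℝ (D.k t) x • D.v t := by
  simp [EraD.M, ro_apply]

theorem a_pos (h : D.Ok) : 0 < D.a := by
  have hy : 0 < D.y := by
    unfold EraD.y
    have := h.L1
    have := h.X1
    have := h.c0
    positivity
  exact lt_of_lt_of_le (by positivity) h.big

theorem const_of {f : ℝ → ℝ} (h : ∀ t, HasDerivAt f 0 t) (s t : ℝ) : f s = f t :=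
  is_const_of_deriv_eq_zero (fun t => (h t).differentiableAt) (fun t => (h t).deriv) s t

theorem kb1 (h : D.Ok) (t : ℝ) : inner ℝ (D.k t) (D.b1 t) = 0 := by
  have hd : ∀ t, HasDerivAt (fun s => inner ℝ (D.k s) (D.b1 s)) 0 t := by
    intro t
    have h1 := (h.wave.q_deriv t).inner ℝ (h.b1_deriv t)
    have h2 : inner ℝ (D.k t) (D.B t (D.b1 t))
        + inner ℝ (-(adjoint (D.B t) (D.k t))) (D.b1 t) = 0 := by
      rw [inner_neg_left, adjoint_inner_left]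
      ring
    rwa [h2] at h1
  have h0 : inner ℝ (D.k D.t0) (D.b1 D.t0) = 0 := by
    rw [h.b1_init, inner_smul_right, h.wave.orth, mul_zero]
  rw [← h0]
  exact const_of hd t D.t0

theorem kb2 (h : D.Ok) (t : ℝ) : inner ℝ (D.k t) (D.b2 t) = 1 := by
  have hd : ∀ t, HasDerivAt (fun s => inner ℝ (D.k s) (D.b2 s)) 0 t := by
    intro t
    have h1 := (h.wave.q_deriv t).inner ℝ (h.b2_deriv t)
    have h2 : inner ℝ (D.k t) (D.B t (D.b2 t) + D.v t)
        + inner ℝ (-(adjoint (D.B t) (D.k t))) (D.b2 t) = 0 := by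
      rw [inner_neg_left, adjoint_inner_left, inner_add_right, h.wave.orth t]
      ring
    rwa [h2] at h1
  have h0 : inner ℝ (D.k D.t0) (D.b2 D.t0) = 1 := by
    rw [h.b2_init, real_inner_self_eq_norm_sq, h.k1]
    norm_num
  rw [← h0]
  exact const_of hd t D.t0

theorem b1d (h : D.Ok) (t : ℝ) : HasDerivAt D.b1 (D.M t (D.b1 t)) t := by
  rw [M_apply, kb1 h t, zero_smul, add_zero]
  exact h.b1_deriv t

theorem b2d (h : D.Ok) (t : ℝ) : HasDerivAt D.b2 (D.M t (D.b2 t)) t := by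
  rw [M_apply, kb2 h t, one_smul]
  exact h.b2_deriv t

theorem flowM (hN : StNext) (h : D.Ok) : Flow D.M := hN D.B D.v D.k h.flow h.wave

theorem zconst (hN : StNext) (h : D.Ok) (t : ℝ) : D.z t = D.z D.t0 := by
  have hF := flowM hN h
  have hd : ∀ t, HasDerivAt D.z 0 t := by
    intro t
    have hM : HasDerivAt D.M (deriv D.M t) t :=
      (hF.smooth.differentiable (by simp) t).hasDerivAt
    have e1 := b1d h t
    have e2 := b2d h t
    have e3 := hM.clm_apply e2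
    have e4 := hM.clm_apply e1
    have h1 := (e1.inner ℝ e3).sub (e4.inner ℝ e2)
    have h2 : inner ℝ (D.b1 t) (deriv D.M t (D.b2 t) + D.M t (D.M t (D.b2 t)))
        + inner ℝ (D.M t (D.b1 t)) (D.M t (D.b2 t))
        - (inner ℝ (D.M t (D.b1 t)) (D.M t (D.b2 t))
          + inner ℝ (deriv D.M t (D.b1 t) + D.M t (D.M t (D.b1 t))) (D.b2 t)) = 0 := by
      rw [hF.symm t (D.b1 t) (D.b2 t)]
      ring
    rw [h2] at h1
    exact h1
  exact const_of hd t D.t0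

theorem t0_mem (h : D.Ok) : D.t0 ∈ D.I := by
  have hT : 0 ≤ D.T := by
    unfold EraD.T EraD.om
    have := h.X1
    have := h.c0
    positivity
  exact ⟨le_rfl, by linarith⟩

theorem zinit (h : D.Ok) : |D.z D.t0 - D.a| ≤ 2 * D.Lam := by
  have ha := a_pos h
  have hb1 : ‖D.b1 D.t0‖ = 1 := by
    rw [h.b1_init, norm_smul, h.va, norm_inv, Real.norm_of_nonneg ha.le]
    field_simp
  have hv : inner ℝ (D.b1 D.t0) (D.v D.t0) = D.a := by
    rw [h.b1_init, inner_smul_left, real_inner_self_eq_norm_sq, h.va]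
    simp only [conj_trivial]
    field_simp
  have hB := h.Bb D.t0 (t0_mem h)
  have h1 : |inner ℝ (D.b1 D.t0) (D.B D.t0 (D.k D.t0))| ≤ D.Lam := by
    refine (abs_real_inner_le_norm _ _).trans ?_
    rw [hb1, one_mul]
    refine ((D.B D.t0).le_opNorm _).trans ?_
    rw [h.k1, mul_one]
    exact hB
  have h2 : |inner ℝ (D.B D.t0 (D.b1 D.t0)) (D.k D.t0)| ≤ D.Lam := by
    refine (abs_real_inner_le_norm _ _).trans ?_
    rw [h.k1, mul_one]
    refine ((D.B D.t0).le_opNorm _).trans ?_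
    rw [hb1, mul_one]
    exact hB
  have h3 : D.z D.t0 - D.a = inner ℝ (D.b1 D.t0) (D.B D.t0 (D.k D.t0))
      - inner ℝ (D.B D.t0 (D.b1 D.t0)) (D.k D.t0) := by
    unfold EraD.z
    rw [M_apply, M_apply, kb1 h, kb2 h, zero_smul, one_smul, add_zero, inner_add_right, hv,
      h.b2_init]
    ring
  rw [h3]
  refine (abs_sub _ _).trans ?_
  linarith

end Exact

theorem prf_StExact (hN : StNext) : StExact := fun _ h =>
  ⟨Exact.kb1 h, Exact.kb2 h, Exact.b1d h, Exact.b2d h, Exact.zconst hN h, Exact.zinit h⟩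

theorem prf_StPerp : StPerp := by
  intro D h q hq h1 h2 t
  have key : ∀ b : ℝ → E3, (∀ t, HasDerivAt b (D.M t (b t)) t) →
      inner ℝ (q D.t0) (b D.t0) = 0 → inner ℝ (q t) (b t) = 0 := by
    intro b hb h0
    have hd : ∀ t, HasDerivAt (fun s => inner ℝ (q s) (b s)) 0 t := by
      intro t
      have h1 := (hq t).inner ℝ (hb t)
      have h2 : inner ℝ (q t) (D.M t (b t))
          + inner ℝ (-(adjoint (D.M t) (q t))) (b t) = 0 := by
        rw [inner_neg_left, adjoint_inner_left]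
        ring
      rwa [h2] at h1
    rw [← h0]
    exact Exact.const_of hd t D.t0
  exact ⟨key D.b1 (Exact.b1d h) h1, key D.b2 (Exact.b2d h) h2⟩

end Pool.Agent.Work.MP_b0497c_an.Forced.Ode

end

section

set_option autoImplicit false

/-!
# ODE module of the forced Euler blow-up: growth of the system on the window
-/

open Set

namespace Pool.Agent.Work.MP_b0497c_an.Forced.Ode

namespace Growth

theorem coefs (hN : StPar) (hT : StCoef) (hM : StNum) (D : EraD) (hD : D.Ok) {t : ℝ}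
    (ht : t ∈ D.J) :
    t ∈ D.I ∧ 0 < D.x t ∧ D.x0 ≤ D.x t ∧ 0 < D.om ∧ 0 ≤ D.A12 t ∧ 0 ≤ D.A21 t ∧
      6 / 5 / D.x t ^ 2 ≤ 5 / 4 * D.A12 t + D.dd t ∧
      3 / 2 * D.A12 t + D.dd t ≤ 8 / 5 / D.x t ^ 2 ∧
      D.A12 t ≤ 4 / D.x t ^ 2 ∧ D.A21 t ≤ 4 / D.x t ^ 2 ∧ |D.dd t| ≤ 1 / D.x t ^ 2 := by
  obtain ⟨-, -, -, -, hXc, -, hom, -, -, -, -, -, -, -, hx00, hx04, -, -, hts, -, -, -, -, hI⟩ :=
    hN D hD
  have htI : t ∈ D.I := ⟨hts.le.trans ht.1, ht.2⟩
  obtain ⟨-, -, -, hxX, -, -, -, hJ⟩ := hI t htI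
  have hx0 : D.x0 ≤ D.x t := hJ.1 ht
  have hx : 0 < D.x t := hx00.trans_le hx0
  have hx4 : D.c ≤ D.x t ^ 4 := by
    rw [← hx04]
    exact pow_le_pow_left₀ hx00.le hx0 4
  obtain ⟨h1, h2⟩ := hT D hD t htI
  obtain ⟨a1, a2, -, -, a5, a6, a7, a8, a9⟩ := hM D.c D.X D.y (D.x t) (D.Ah t) (D.Gh t) hD.c0
    hD.c1 hD.X1 hD.cX hXc hx hx4 hxX h1 h2
  exact ⟨htI, hx, hx0, hom, a1, a2, a5, a6, a7, a8, a9⟩

theorem x_deriv (D : EraD) (t : ℝ) : HasDerivAt D.x D.om t := by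
  have h : HasDerivAt (fun t => D.om * (t - D.t0)) (D.om * 1) t :=
    ((hasDerivAt_id t).sub_const D.t0).const_mul D.om
  rw [mul_one] at h
  exact h

theorem exp_deriv (D : EraD) (t κ : ℝ) (hx : 0 < D.x t) :
    HasDerivAt (fun t => Real.exp (κ * (1 / D.x t)))
      (Real.exp (κ * (1 / D.x t)) * (κ * (-D.om / D.x t ^ 2))) t := by
  have h1 : HasDerivAt (fun t => (D.x t)⁻¹) (-D.om / D.x t ^ 2) t :=
    (x_deriv D t).inv hx.ne'
  have h2 : HasDerivAt (fun t => κ * (1 / D.x t)) (κ * (-D.om / D.x t ^ 2)) t := by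
    simpa only [one_div] using h1.const_mul κ
  exact h2.exp

end Growth

open Growth in
/-- R2: growth on the window. -/
theorem prf_StGrowth (hN : StPar) (hT : StCoef) (hM : StNum) : StGrowth := by
  intro D hD Y W hS hC
  -- the differential inequalities
  have key : ∀ t ∈ D.J, 6 / 5 * (D.om / D.x t ^ 2) * Y t ≤
      D.om * (D.A12 t * W t + D.dd t * Y t) ∧
      D.om * (D.A12 t * W t + D.dd t * Y t) ≤ 8 / 5 * (D.om / D.x t ^ 2) * Y t := by
    intro t ht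
    obtain ⟨-, hx, -, hom, h12, -, h5, h6, -, -, -⟩ := coefs hN hT hM D hD ht
    obtain ⟨hY, hl, hu⟩ := hC t ht
    constructor
    · have e1 : 6 / 5 * (D.om / D.x t ^ 2) * Y t = D.om * ((6 / 5 / D.x t ^ 2) * Y t) := by ring
      rw [e1]
      refine mul_le_mul_of_nonneg_left ?_ hom.le
      have := mul_le_mul_of_nonneg_right h5 hY.le
      have := mul_le_mul_of_nonneg_left hl h12
      linarith
    · have e1 : 8 / 5 * (D.om / D.x t ^ 2) * Y t = D.om * ((8 / 5 / D.x t ^ 2) * Y t) := by ring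
      rw [e1]
      refine mul_le_mul_of_nonneg_left ?_ hom.le
      have := mul_le_mul_of_nonneg_right h6 hY.le
      have := mul_le_mul_of_nonneg_left hu h12
      linarith
  have hder : ∀ κ : ℝ, ∀ t ∈ D.J, HasDerivAt (fun t => Y t * Real.exp (κ * (1 / D.x t)))
      (D.om * (D.A12 t * W t + D.dd t * Y t) * Real.exp (κ * (1 / D.x t)) +
        Y t * (Real.exp (κ * (1 / D.x t)) * (κ * (-D.om / D.x t ^ 2)))) t := by
    intro κ t ht
    obtain ⟨-, hx, -⟩ := coefs hN hT hM D hD ht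
    exact (hS t ht).1.mul (exp_deriv D t κ hx)
  have hder' : ∀ κ : ℝ, ∀ t ∈ D.J, HasDerivAt (fun t => Y t * Real.exp (κ * (1 / D.x t)))
      (Real.exp (κ * (1 / D.x t)) * (D.om * (D.A12 t * W t + D.dd t * Y t) -
        κ * (D.om / D.x t ^ 2) * Y t)) t := by
    intro κ t ht
    convert hder κ t ht using 1
    ring
  have hmono : MonotoneOn (fun t => Y t * Real.exp (6 / 5 * (1 / D.x t))) D.J := by
    refine monotoneOn_of_deriv_nonneg (convex_Icc _ _) ?_ ?_ ?_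
    · exact fun t ht => (hder' _ t ht).continuousAt.continuousWithinAt
    · exact fun t ht => (hder' _ t (interior_subset ht)).differentiableAt.differentiableWithinAt
    · intro t ht
      rw [(hder' _ t (interior_subset ht)).deriv]
      refine mul_nonneg (Real.exp_pos _).le ?_
      have := (key t (interior_subset ht)).1
      linarith
  have hanti : AntitoneOn (fun t => Y t * Real.exp (8 / 5 * (1 / D.x t))) D.J := by
    refine antitoneOn_of_deriv_nonpos (convex_Icc _ _) ?_ ?_ ?_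
    · exact fun t ht => (hder' _ t ht).continuousAt.continuousWithinAt
    · exact fun t ht => (hder' _ t (interior_subset ht)).differentiableAt.differentiableWithinAt
    · intro t ht
      rw [(hder' _ t (interior_subset ht)).deriv]
      refine mul_nonpos_of_nonneg_of_nonpos (Real.exp_pos _).le ?_
      have := (key t (interior_subset ht)).2
      linarith
  intro s hs t ht hst
  have h1 := hmono hs ht hst
  have h2 := hanti hs ht hst
  simp only at h1 h2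
  have e : ∀ κ : ℝ, Real.exp (κ * (1 / D.x s - 1 / D.x t)) =
      Real.exp (κ * (1 / D.x s)) * Real.exp (-(κ * (1 / D.x t))) := by
    intro κ
    rw [← Real.exp_add]
    congr 1
    ring
  have e2 : ∀ κ : ℝ, Real.exp (κ * (1 / D.x t)) * Real.exp (-(κ * (1 / D.x t))) = 1 := by
    intro κ
    rw [← Real.exp_add, add_neg_cancel, Real.exp_zero]
  constructor
  · rw [e]
    have := mul_le_mul_of_nonneg_right h1 (Real.exp_pos (-(6 / 5 * (1 / D.x t)))).le
    have e3 := e2 (6 / 5)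
    have e4 : Y t * Real.exp (6 / 5 * (1 / D.x t)) * Real.exp (-(6 / 5 * (1 / D.x t))) = Y t := by
      rw [mul_assoc, e3, mul_one]
    linarith
  · rw [e]
    have := mul_le_mul_of_nonneg_right h2 (Real.exp_pos (-(8 / 5 * (1 / D.x t)))).le
    have e3 := e2 (8 / 5)
    have e4 : Y t * Real.exp (8 / 5 * (1 / D.x t)) * Real.exp (-(8 / 5 * (1 / D.x t))) = Y t := by
      rw [mul_assoc, e3, mul_one]
    linarith

end Pool.Agent.Work.MP_b0497c_an.Forced.Ode

end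

section

set_option autoImplicit false

/-!
# ODE module: the numerical statement N2
-/

namespace Pool.Agent.Work.MP_b0497c_an.Forced.Ode

namespace Num

/-- The defect `d = 1 - x^4 A` and the bounds `|d| <= 10^-7`, `|d| x^2 <= 10^-7`. -/
lemma dbound (c X y x A : ℝ) (hc0 : 0 < c) (hc1 : c ≤ 1 / 10 ^ 8) (hX : 2 ≤ X)
    (hy : X / c ≤ y) (hx : 0 < x) (hcx : c ≤ x ^ 4) (hxX : x ≤ X)
    (hA : |A * (c ^ 2 + x ^ 4) - 1| ≤ 1 / y ^ 12) :
    |1 - x ^ 4 * A| ≤ 1 / 10 ^ 7 ∧ |1 - x ^ 4 * A| * x ^ 2 ≤ 1 / 10 ^ 7 := by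
  have hX0 : 0 < X := by linarith
  have hXcy : X ≤ c * y := by
    rw [div_le_iff₀ hc0] at hy
    linarith [mul_comm y c]
  have hy0 : 0 < y := lt_of_lt_of_le (div_pos hX0 hc0) hy
  have hy1 : 10 ^ 8 ≤ y := by
    by_contra hlt
    push Not at hlt
    have h1 : c * y < 1 := by
      have : c * y ≤ 1 / 10 ^ 8 * y := mul_le_mul_of_nonneg_right hc1 hy0.le
      have h2 : 1 / 10 ^ 8 * y < 1 / 10 ^ 8 * 10 ^ 8 := by
        apply mul_lt_mul_of_pos_left hlt
        positivity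
      norm_num at h2 this ⊢
      linarith
    linarith
  have hyone : 1 ≤ y := by
    have : (1 : ℝ) ≤ 10 ^ 8 := by norm_num
    linarith
  -- bound of the error term
  have he1 : 1 / y ^ 12 ≤ 1 / 10 ^ 16 := by
    have h1 : (10 ^ 8 : ℝ) ^ 2 ≤ y ^ 2 := pow_le_pow_left₀ (by positivity) hy1 2
    have h2 : y ^ 2 ≤ y ^ 12 := pow_le_pow_right₀ hyone (by norm_num)
    apply one_div_le_one_div_of_le (by positivity)
    have h3 : (10 ^ 8 : ℝ) ^ 2 = 10 ^ 16 := by norm_num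
    linarith
  have he2 : x ^ 2 * (1 / y ^ 12) ≤ 1 / 10 ^ 16 := by
    have h1 : x ^ 2 ≤ c ^ 2 * y ^ 2 := by
      have : x ≤ c * y := le_trans hxX hXcy
      calc x ^ 2 ≤ (c * y) ^ 2 := pow_le_pow_left₀ hx.le this 2
        _ = c ^ 2 * y ^ 2 := by ring
    have h2 : x ^ 2 * (1 / y ^ 12) ≤ c ^ 2 * y ^ 2 * (1 / y ^ 12) := by
      apply mul_le_mul_of_nonneg_right h1
      positivity
    have h3 : c ^ 2 * y ^ 2 * (1 / y ^ 12) = c ^ 2 * (1 / y ^ 10) := by
      field_simp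
    have h4 : 1 / y ^ 10 ≤ 1 := by
      rw [div_le_one (by positivity)]
      exact one_le_pow₀ hyone
    have h5 : c ^ 2 ≤ 1 / 10 ^ 16 := by
      calc c ^ 2 ≤ (1 / 10 ^ 8) ^ 2 := pow_le_pow_left₀ hc0.le hc1 2
        _ = 1 / 10 ^ 16 := by norm_num
    have h6 : c ^ 2 * (1 / y ^ 10) ≤ c ^ 2 * 1 := by
      apply mul_le_mul_of_nonneg_left h4
      positivity
    rw [h3] at h2
    linarith
  have hx4 : 0 < x ^ 4 := by positivity
  have hx2 : 0 < x ^ 2 := by positivity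
  have hden : 0 < c ^ 2 + x ^ 4 := by positivity
  set e1 := A * (c ^ 2 + x ^ 4) - 1 with he1def
  have hd : (1 - x ^ 4 * A) * (c ^ 2 + x ^ 4) = c ^ 2 - e1 * x ^ 4 := by
    rw [he1def]; ring
  have hdabs : |1 - x ^ 4 * A| * (c ^ 2 + x ^ 4) ≤ c ^ 2 + |e1| * x ^ 4 := by
    have h1 : |1 - x ^ 4 * A| * (c ^ 2 + x ^ 4) = |c ^ 2 - e1 * x ^ 4| := by
      rw [← hd, abs_mul, abs_of_pos hden]
    rw [h1]
    calc |c ^ 2 - e1 * x ^ 4| ≤ |c ^ 2| + |e1 * x ^ 4| := abs_sub _ _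
      _ = c ^ 2 + |e1| * x ^ 4 := by
        rw [abs_mul, abs_of_pos (by positivity : (0 : ℝ) < c ^ 2), abs_of_pos hx4]
  have hdx4 : |1 - x ^ 4 * A| * x ^ 4 ≤ c ^ 2 + |e1| * x ^ 4 := by
    have : 0 ≤ |1 - x ^ 4 * A| * c ^ 2 := by positivity
    nlinarith [hdabs]
  have hd1 : |1 - x ^ 4 * A| ≤ c + |e1| := by
    have h1 : c ^ 2 ≤ c * x ^ 4 := by
      have := mul_le_mul_of_nonneg_left hcx hc0.le
      nlinarith
    have h2 : |1 - x ^ 4 * A| * x ^ 4 ≤ (c + |e1|) * x ^ 4 := by nlinarith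
    exact le_of_mul_le_mul_right h2 hx4
  have hcx2 : c ^ 2 ≤ 1 / 10 ^ 12 * x ^ 2 := by
    -- c^4 <= c^3 x^4 hence c^2 <= c^(3/2) x^2; use squares
    have h1 : (c ^ 2) ^ 2 ≤ (1 / 10 ^ 12 * x ^ 2) ^ 2 := by
      have h2 : c ^ 4 ≤ c ^ 3 * x ^ 4 := by
        have h3 : c ^ 3 * c ≤ c ^ 3 * x ^ 4 := mul_le_mul_of_nonneg_left hcx (by positivity)
        calc c ^ 4 = c ^ 3 * c := by ring
          _ ≤ _ := h3
      have h4 : c ^ 3 ≤ 1 / 10 ^ 24 := by
        calc c ^ 3 ≤ (1 / 10 ^ 8) ^ 3 := pow_le_pow_left₀ hc0.le hc1 3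
          _ = 1 / 10 ^ 24 := by norm_num
      have h5 : c ^ 3 * x ^ 4 ≤ 1 / 10 ^ 24 * x ^ 4 := mul_le_mul_of_nonneg_right h4 hx4.le
      calc (c ^ 2) ^ 2 = c ^ 4 := by ring
        _ ≤ 1 / 10 ^ 24 * x ^ 4 := le_trans h2 h5
        _ = (1 / 10 ^ 12 * x ^ 2) ^ 2 := by ring
    exact le_of_sq_le_sq h1 (by positivity)
  have hd2 : |1 - x ^ 4 * A| * x ^ 2 ≤ 1 / 10 ^ 12 + |e1| * x ^ 2 := by
    have h2 : (|1 - x ^ 4 * A| * x ^ 2) * x ^ 2 ≤ (1 / 10 ^ 12 + |e1| * x ^ 2) * x ^ 2 := by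
      nlinarith
    exact le_of_mul_le_mul_right h2 hx2
  have he3 : |e1| * x ^ 2 ≤ 1 / 10 ^ 16 := by
    have : |e1| * x ^ 2 ≤ (1 / y ^ 12) * x ^ 2 := mul_le_mul_of_nonneg_right hA hx2.le
    linarith [mul_comm (x ^ 2) (1 / y ^ 12)]
  constructor
  · have : |e1| ≤ 1 / 10 ^ 16 := le_trans hA he1
    norm_num at *
    linarith
  · norm_num at *
    linarith

end Num

theorem prf_StNum : StNum := by
  intro c X y x A G hc0 hc1 hX hcX hy hx hcx hxX hA hG
  obtain ⟨hd1, hd2⟩ := Num.dbound c X y x A hc0 hc1 hX hy hx hcx hxX hA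
  have hX0 : 0 < X := by linarith
  have hy0 : 0 < y := lt_of_lt_of_le (div_pos hX0 hc0) hy
  have hy2 : 2 ≤ y := by
    have h1 : X ≤ X / c := by
      rw [le_div_iff₀ hc0]
      have : c ≤ 1 := by
        have : (1 : ℝ) / 10 ^ 8 ≤ 1 := by norm_num
        linarith
      nlinarith
    linarith
  have he2 : |G - 2 * (1 - x ^ 2)| ≤ 1 / 100 := by
    have h1 : (2 : ℝ) ^ 12 ≤ y ^ 12 := pow_le_pow_left₀ (by norm_num) hy2 12
    have h2 : 1 / y ^ 12 ≤ 1 / 2 ^ 12 := one_div_le_one_div_of_le (by norm_num) h1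
    have h3 : (1 : ℝ) / 2 ^ 12 ≤ 1 / 100 := by norm_num
    linarith
  have hx2 : 0 < x ^ 2 := by positivity
  have hx4 : 0 < x ^ 4 := by positivity
  set d := 1 - x ^ 4 * A with hddef
  set e2 := G - 2 * (1 - x ^ 2) with he2def
  have hu : x ^ 4 * A = 1 - d := by rw [hddef]; ring
  have hxd1 : |d| * x ≤ 1 / 10 ^ 7 := by
    have h1 : x ≤ (1 + x ^ 2) / 2 := by nlinarith [sq_nonneg (x - 1)]
    have h2 : |d| * x ≤ |d| * ((1 + x ^ 2) / 2) := mul_le_mul_of_nonneg_left h1 (abs_nonneg _)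
    nlinarith
  obtain ⟨hda, hdb⟩ := abs_le.mp hd1
  have hdx2 : |d * x ^ 2| ≤ 1 / 10 ^ 7 := by rw [abs_mul, abs_of_pos hx2]; exact hd2
  obtain ⟨hd2a, hd2b⟩ := abs_le.mp hdx2
  have hdx1 : |d * x| ≤ 1 / 10 ^ 7 := by rw [abs_mul, abs_of_pos hx]; exact hxd1
  obtain ⟨hd1a, hd1b⟩ := abs_le.mp hdx1
  obtain ⟨he2a, he2b⟩ := abs_le.mp he2
  -- x^2 * A21
  have hA21 : G / x ^ 2 + 3 - x ^ 4 * A = (2 + e2 + d * x ^ 2) / x ^ 2 := by
    rw [hu, he2def]; field_simp; ring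
  have hxA : x ^ 2 * A = (1 - d) / x ^ 2 := by
    rw [← hu]; field_simp
  have hdx : d / x = d * x / x ^ 2 := by field_simp
  have hsmall : (1 : ℝ) / 10 ^ 7 ≤ 1 / 1000 := by norm_num
  rw [hA21, hxA, hdx]
  refine ⟨?_, ?_, ?_, ?_, ?_, ?_, ?_, ?_, ?_⟩
  · apply div_nonneg _ hx2.le; linarith
  · apply div_nonneg _ hx2.le; linarith
  · have : (2 + e2 + d * x ^ 2) / x ^ 2 - 25 / 16 * ((1 - d) / x ^ 2) - 5 / 2 * (d * x / x ^ 2)
        = (2 + e2 + d * x ^ 2 - 25 / 16 * (1 - d) - 5 / 2 * (d * x)) / x ^ 2 := by ring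
    rw [this]
    apply div_nonneg _ hx2.le; linarith
  · have : 9 / 4 * ((1 - d) / x ^ 2) + 3 * (d * x / x ^ 2) - (2 + e2 + d * x ^ 2) / x ^ 2
        = (9 / 4 * (1 - d) + 3 * (d * x) - (2 + e2 + d * x ^ 2)) / x ^ 2 := by ring
    rw [this]
    apply div_nonneg _ hx2.le; linarith
  · have : 5 / 4 * ((1 - d) / x ^ 2) + d * x / x ^ 2 = (5 / 4 * (1 - d) + d * x) / x ^ 2 := by
      ring
    rw [this]
    apply div_le_div_of_nonneg_right _ hx2.le; linarith
  · have : 3 / 2 * ((1 - d) / x ^ 2) + d * x / x ^ 2 = (3 / 2 * (1 - d) + d * x) / x ^ 2 := by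
      ring
    rw [this]
    apply div_le_div_of_nonneg_right _ hx2.le; linarith
  · apply div_le_div_of_nonneg_right _ hx2.le; linarith
  · apply div_le_div_of_nonneg_right _ hx2.le; linarith
  · rw [abs_div, abs_of_pos hx2]
    apply div_le_div_of_nonneg_right _ hx2.le; linarith

end Pool.Agent.Work.MP_b0497c_an.Forced.Ode

end

section

set_option autoImplicit false

/-!
# ODE module of the forced Euler blow-up: the vector `p`
-/

open scoped ContDiff
open Set ContinuousLinearMap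

namespace Pool.Agent.Work.MP_b0497c_an.Forced.Ode

namespace PBound

/-- A term of the derivative of `p`. -/
theorem beta_bound (b p : E3) (B : Op) (L : ℝ) (hB : ‖B‖ ≤ L) (hb : 0 < ‖b‖) :
    ‖((inner ℝ b (B p) + inner ℝ (B b) p) / ‖b‖ ^ 2) • b‖ ≤ 2 * L * ‖p‖ := by
  have h1 : |inner ℝ b (B p)| ≤ ‖b‖ * (L * ‖p‖) :=
    (abs_real_inner_le_norm _ _).trans (mul_le_mul_of_nonneg_left
      ((B.le_opNorm p).trans (mul_le_mul_of_nonneg_right hB (norm_nonneg _))) (norm_nonneg _))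
  have h2 : |inner ℝ (B b) p| ≤ (L * ‖b‖) * ‖p‖ :=
    (abs_real_inner_le_norm _ _).trans (mul_le_mul_of_nonneg_right
      ((B.le_opNorm b).trans (mul_le_mul_of_nonneg_right hB (norm_nonneg _))) (norm_nonneg _))
  have h3 : |inner ℝ b (B p) + inner ℝ (B b) p| ≤ 2 * L * ‖p‖ * ‖b‖ := by
    refine (abs_add_le _ _).trans ?_
    linarith
  rw [norm_smul, Real.norm_eq_abs, abs_div, abs_of_pos (by positivity : (0 : ℝ) < ‖b‖ ^ 2),
    div_mul_eq_mul_div, div_le_iff₀ (by positivity)]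
  calc |inner ℝ b (B p) + inner ℝ (B b) p| * ‖b‖ ≤ 2 * L * ‖p‖ * ‖b‖ * ‖b‖ :=
        mul_le_mul_of_nonneg_right h3 (norm_nonneg _)
    _ = 2 * L * ‖p‖ * ‖b‖ ^ 2 := by ring

theorem norm_sq_add (u d : E3) : ‖u + d‖ ^ 2 = ‖u‖ ^ 2 + 2 * inner ℝ u d + ‖d‖ ^ 2 :=
  norm_add_sq_real u d

/-- The length of `kh - s e`. -/
theorem norm_ke (k e : E3) (s : ℝ) (hk : ‖k‖ = 1) (he : ‖e‖ = 1) (hek : inner ℝ e k = 0) :
    ‖k - s • e‖ ^ 2 = 1 + s ^ 2 := by
  rw [norm_sub_sq_real, inner_smul_right, real_inner_comm, hek, hk, norm_smul, he,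
    Real.norm_eq_abs, mul_one, sq_abs]
  ring

theorem exp_small {x : ℝ} (h : x ≤ 1 / 2) : Real.exp x ≤ 2 := by
  have h1 : Real.exp x ≤ Real.exp (1 / 2) := Real.exp_le_exp.2 h
  have h2 : Real.exp (1 / 2) ^ 2 = Real.exp 1 := by
    rw [← Real.exp_nat_mul]
    norm_num
  have h3 := Real.exp_one_lt_d9
  have h4 : 0 < Real.exp (1 / 2) := Real.exp_pos _
  nlinarith

theorem num1 {z Y : ℝ} (h0 : 0 ≤ z) (h1 : z * Y ≤ 1) (h2 : 6 ≤ Y) : 3 * z ≤ 1 / 2 := by
  nlinarith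

theorem num2 {L X : ℝ} (h0 : 1 ≤ L) (h1 : 2 ≤ X) : 2 * L ≤ L * X := by nlinarith

theorem num3 {s k kap : ℝ} (h0 : 0 ≤ s) (h1 : 1 / 2 ≤ kap) (h2 : k = s * kap) : s ≤ 2 * k := by
  nlinarith

theorem num4 {u v : ℝ} (h0 : 0 ≤ u) (h1 : v ≤ 1) : u * v ≤ u := by nlinarith

theorem num5 {A K Z : ℝ} (h0 : 0 ≤ A) (h1 : A * Z ≤ 246 * K) (h2 : 246 ≤ Z) :
    A ≤ K := by
  by_contra hcon
  push Not at hcon
  nlinarith

theorem num6 {k : ℝ} (h0 : 0 ≤ k) : 1 + k ^ 2 ≤ (1 + k) ^ 2 := by nlinarith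

theorem num7 {k : ℝ} : 3 * (1 + k) * (1 + k) ≤ 6 * (1 + k ^ 2) := by
  nlinarith [sq_nonneg (k - 1)]

theorem num8 {A K Z : ℝ} (h0 : 0 ≤ A) (h1 : A * Z ≤ 6 * K) (h2 : 6 ≤ Z) :
    A ≤ K := by
  by_contra hcon
  push Not at hcon
  nlinarith

end PBound

open PBound in
theorem prf_StP (hN : StPar) (hG : StGrow) (hD : StPder) (hB : StBounds) (hV : StPiv) : StP := by
  intro D hOk t ht
  obtain ⟨n1, n2, n3, n4, n5, n6, n7, n8, n9, n10, n11, n12, n13, n14, n15, n16, n17, n18, n19, n20,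
    n21, n22, n23, n24⟩ := hN D hOk
  obtain ⟨m1, m2, m3, m4, m5, m6, m7, m8⟩ := n24 t ht
  have hy0 : 0 < D.y := by linarith
  have hc := hOk.c0
  have hkap : 0 < D.kap := by linarith [hOk.kap1]
  have hL : 1 ≤ D.Lam := hOk.L1
  set τ := t - D.t0 with hτ
  have ht0 : D.t0 ≤ t := by linarith
  have hsub : ∀ s ∈ Icc D.t0 t, s ∈ D.I := by
    intro s hs
    exact ⟨hs.1, hs.2.trans ht.2⟩
  have hk2s : ∀ s ∈ Icc D.t0 t, 0 ≤ D.k2 s ∧ D.k2 s ≤ D.k2 t := by
    intro s hs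
    have h1 : 0 ≤ s - D.t0 := by linarith [hs.1]
    have h2 : s - D.t0 ≤ t - D.t0 := by linarith [hs.2]
    have h3 : 0 ≤ D.a * D.c * D.kap := by positivity
    unfold EraD.k2
    exact ⟨by positivity, mul_le_mul_of_nonneg_left (pow_le_pow_left₀ h1 h2 2) h3⟩
  have hb1 : ∀ s ∈ D.I, 0 < ‖D.b1 s‖ := fun s hs => by linarith [(hB D hOk s hs).1]
  have hb1ne : ∀ s ∈ D.I, D.b1 s ≠ 0 := fun s hs => norm_pos_iff.1 (hb1 s hs)
  -- the difference
  set F : ℝ → E3 := fun s => D.p s - (D.k D.t0 - D.k2 s • D.e) with hF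
  have hF0 : F D.t0 = 0 := by
    have h1 : inner ℝ (D.b1 D.t0) (D.b2 D.t0) = 0 := by
      rw [hOk.b1_init, hOk.b2_init, inner_smul_left, real_inner_comm, hOk.wave.orth, mul_zero]
    have h2 : D.mu D.t0 = 0 := by
      unfold EraD.mu
      rw [h1, zero_div]
    have h3 : D.k2 D.t0 = 0 := by
      unfold EraD.k2
      rw [sub_self]; ring
    rw [hF]
    simp only
    unfold EraD.p
    rw [h2, h3, hOk.b2_init, zero_smul, zero_smul, sub_zero, sub_self]
  set β : ℝ → ℝ := fun s =>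
    (inner ℝ (D.b1 s) (D.B s (D.p s)) + inner ℝ (D.B s (D.b1 s)) (D.p s)) / D.g s with hβ
  set U : ℝ → E3 := fun s => D.v s - (inner ℝ (D.b1 s) (D.v s) / D.g s) • D.b1 s
    + (2 * D.a * D.c * D.kap * (s - D.t0)) • D.e with hU
  set F' : ℝ → E3 := fun s => D.B s (D.p s) + U s - β s • D.b1 s with hF'
  have hder : ∀ s ∈ Icc D.t0 t, HasDerivAt F (F' s) s := by
    intro s hs
    have h1 := (hD D hOk s (hb1ne s (hsub s hs))).2.2
    have h2 : HasDerivAt D.k2 (2 * D.a * D.c * D.kap * (s - D.t0)) s := by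
      have h3 := (((hasDerivAt_id' s).sub_const D.t0).fun_pow 2).const_mul (D.a * D.c * D.kap)
      refine HasDerivAt.congr_deriv h3 ?_
      norm_num
      ring
    have h5 := h1.sub ((hasDerivAt_const s (D.k D.t0)).sub (h2.smul_const D.e))
    refine h5.congr_deriv ?_
    rw [hF', hU, hβ]
    simp only
    abel
  set L := 3 * D.Lam * (1 + D.k2 t) + 60 * D.a * D.Lam ^ 2 * τ ^ 2 with hLdef
  have hbd : ∀ s ∈ Icc D.t0 t, ‖F' s‖ ≤ 3 * D.Lam * ‖F s‖ + L := by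
    intro s hs
    have hsI := hsub s hs
    have h1 : ‖D.B s (D.p s)‖ ≤ D.Lam * ‖D.p s‖ :=
      ((D.B s).le_opNorm _).trans (mul_le_mul_of_nonneg_right (hOk.Bb s hsI) (norm_nonneg _))
    have h2 : ‖U s‖ ≤ 60 * D.a * D.Lam ^ 2 * (s - D.t0) ^ 2 := hV D hOk s hsI
    have h3 : ‖β s • D.b1 s‖ ≤ 2 * D.Lam * ‖D.p s‖ :=
      beta_bound (D.b1 s) (D.p s) (D.B s) D.Lam (hOk.Bb s hsI) (hb1 s hsI)
    have h4 : ‖D.p s‖ ≤ ‖F s‖ + (1 + D.k2 t) := by
      have h5 : D.p s = F s + (D.k D.t0 - D.k2 s • D.e) := by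
        rw [hF]; simp only; abel
      have h6 : ‖D.k D.t0 - D.k2 s • D.e‖ ≤ 1 + D.k2 s := by
        refine (norm_sub_le _ _).trans ?_
        rw [hOk.k1, norm_smul, hOk.e1, mul_one, Real.norm_eq_abs, abs_of_nonneg (hk2s s hs).1]
      have h7 : ‖D.p s‖ ≤ ‖F s‖ + ‖D.k D.t0 - D.k2 s • D.e‖ := by
        conv_lhs => rw [h5]
        exact norm_add_le _ _
      linarith [(hk2s s hs).2]
    have h5 : (s - D.t0) ^ 2 ≤ τ ^ 2 :=
      pow_le_pow_left₀ (by linarith [hs.1]) (by rw [hτ]; linarith [hs.2]) 2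
    have h6 : ‖F' s‖ ≤ ‖D.B s (D.p s)‖ + ‖U s‖ + ‖β s • D.b1 s‖ := by
      rw [hF']
      exact (norm_sub_le _ _).trans (add_le_add_left (norm_add_le _ _) _)
    have h7 : 60 * D.a * D.Lam ^ 2 * (s - D.t0) ^ 2 ≤ 60 * D.a * D.Lam ^ 2 * τ ^ 2 :=
      mul_le_mul_of_nonneg_left h5 (by positivity)
    have h8 : 3 * D.Lam * ‖D.p s‖ ≤ 3 * D.Lam * (‖F s‖ + (1 + D.k2 t)) :=
      mul_le_mul_of_nonneg_left h4 (by positivity)
    rw [hLdef]
    linarith
  have hL0 : 0 ≤ L := by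
    rw [hLdef]
    have : 0 ≤ 1 + D.k2 t := by linarith
    positivity
  have hgr := hG E3 F F' D.t0 t (3 * D.Lam) L ht0 (by positivity) hL0 hder hbd
  rw [hF0, norm_zero, zero_add] at hgr
  -- numbers
  have hT : D.T * D.y ^ 18 ≤ 1 := by linarith [n12, mul_comm (D.y ^ 18) D.T]
  have hLT : D.Lam * τ * D.y ^ 18 ≤ 1 := by
    have h1 : D.Lam * τ ≤ D.Lam * D.T := mul_le_mul_of_nonneg_left m2 (by linarith)
    have h2 : D.Lam * τ * D.y ^ 18 ≤ D.Lam * D.T * D.y ^ 18 :=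
      mul_le_mul_of_nonneg_right h1 (by positivity)
    linarith [n11, mul_comm (D.y ^ 18) (D.Lam * D.T)]
  have hy1 : (1 : ℝ) ≤ D.y := by linarith
  have hy16 : (1 : ℝ) ≤ D.y ^ 16 := one_le_pow₀ hy1
  have hy18 : D.y ^ 18 = D.y ^ 16 * D.y ^ 2 := by ring
  have hexp : Real.exp (3 * D.Lam * τ) ≤ 2 := by
    apply exp_small
    have h1 : 0 ≤ D.Lam * τ := by positivity
    have h2 : (6 : ℝ) ≤ D.y ^ 18 := by
      have : D.y ≤ D.y ^ 18 := le_self_pow₀ hy1 (by norm_num)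
      linarith
    rw [mul_assoc]
    exact num1 h1 hLT h2
  -- `Lam² / c * T * y ^ 18 ≤ 1`
  have hLc : D.Lam ^ 2 / D.c * τ * D.y ^ 18 ≤ 1 := by
    have h1 : D.Lam ^ 2 / D.c * τ ≤ D.Lam ^ 2 / D.c * (2 * (D.X / D.c) / D.y ^ 20) :=
      mul_le_mul_of_nonneg_left (m2.trans n13) (by positivity)
    have h2 : D.Lam ^ 2 / D.c * (2 * (D.X / D.c) / D.y ^ 20) * D.y ^ 18 =
        2 * (D.Lam / D.c) * (D.Lam * D.X / D.c) / D.y ^ 2 := by
      field_simp
    have h3 : D.Lam * D.X / D.c = D.y := rfl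
    have h4 : 2 * (D.Lam / D.c) ≤ D.y := by
      rw [← h3, mul_div_assoc', div_le_div_iff_of_pos_right hc]
      exact num2 hL hOk.X1
    calc D.Lam ^ 2 / D.c * τ * D.y ^ 18
        ≤ D.Lam ^ 2 / D.c * (2 * (D.X / D.c) / D.y ^ 20) * D.y ^ 18 :=
          mul_le_mul_of_nonneg_right h1 (by positivity)
      _ = 2 * (D.Lam / D.c) * (D.Lam * D.X / D.c) / D.y ^ 2 := h2
      _ ≤ 1 := by
          rw [h3, div_le_one (by positivity), pow_two]
          exact mul_le_mul_of_nonneg_right h4 hy0.le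
  have hatau : D.a * τ ^ 2 ≤ 2 * D.k2 t / D.c := by
    rw [le_div_iff₀ hc]
    have h1 : D.k2 t = D.a * D.c * D.kap * τ ^ 2 := rfl
    rw [h1]
    have h2 : 0 ≤ D.a * D.c * τ ^ 2 := by positivity
    have h3 := num3 (k := D.a * D.c * D.kap * τ ^ 2) h2 hOk.kap1 (by ring)
    linarith
  have hLτ : L * τ * D.y ^ 18 ≤ 123 * (1 + D.k2 t) := by
    have h1 : 60 * D.a * D.Lam ^ 2 * τ ^ 2 * τ * D.y ^ 18 ≤ 120 * D.k2 t := by
      have h2 : 60 * D.a * D.Lam ^ 2 * τ ^ 2 * τ * D.y ^ 18 =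
          60 * (D.a * τ ^ 2) * (D.Lam ^ 2 * τ * D.y ^ 18) := by ring
      have h3 : 60 * (D.a * τ ^ 2) * (D.Lam ^ 2 * τ * D.y ^ 18) ≤
          60 * (2 * D.k2 t / D.c) * (D.Lam ^ 2 * τ * D.y ^ 18) :=
        mul_le_mul_of_nonneg_right (by linarith) (by positivity)
      have h4 : 60 * (2 * D.k2 t / D.c) * (D.Lam ^ 2 * τ * D.y ^ 18) =
          120 * D.k2 t * (D.Lam ^ 2 / D.c * τ * D.y ^ 18) := by
        field_simp
        ring
      have h5 : 120 * D.k2 t * (D.Lam ^ 2 / D.c * τ * D.y ^ 18) ≤ 120 * D.k2 t * 1 :=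
        mul_le_mul_of_nonneg_left hLc (by positivity)
      linarith
    have h6 : 3 * D.Lam * (1 + D.k2 t) * τ * D.y ^ 18 ≤ 3 * (1 + D.k2 t) := by
      have h7 : 3 * D.Lam * (1 + D.k2 t) * τ * D.y ^ 18 =
          3 * (1 + D.k2 t) * (D.Lam * τ * D.y ^ 18) := by ring
      rw [h7]
      exact num4 (by linarith) hLT
    have h8 : L * τ * D.y ^ 18 = 3 * D.Lam * (1 + D.k2 t) * τ * D.y ^ 18 +
        60 * D.a * D.Lam ^ 2 * τ ^ 2 * τ * D.y ^ 18 := by
      rw [hLdef]; ring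
    rw [h8]
    linarith
  have hFt : ‖F t‖ ≤ (1 + D.k2 t) / D.y ^ 16 := by
    rw [le_div_iff₀ (by positivity)]
    have h1 : ‖F t‖ ≤ 2 * (L * τ) := hgr.trans
      (mul_le_mul_of_nonneg_right hexp (mul_nonneg hL0 m1))
    have h2 : ‖F t‖ * D.y ^ 18 ≤ 246 * (1 + D.k2 t) := by
      have : ‖F t‖ * D.y ^ 18 ≤ 2 * (L * τ) * D.y ^ 18 :=
        mul_le_mul_of_nonneg_right h1 (by positivity)
      linarith
    rw [hy18, ← mul_assoc] at h2
    have h3 : 0 ≤ ‖F t‖ * D.y ^ 16 := by positivity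
    have h4 : (246 : ℝ) ≤ D.y ^ 2 := by
      have : D.y ≤ D.y ^ 2 := le_self_pow₀ hy1 (by norm_num)
      linarith
    exact num5 h3 h2 h4
  have h2 : |‖D.p t‖ ^ 2 - (1 + D.k2 t ^ 2)| ≤ (1 + D.k2 t ^ 2) / D.y ^ 15 := by
    have h5 : D.p t = (D.k D.t0 - D.k2 t • D.e) + F t := by
      rw [hF]; simp only; abel
    have h6 := norm_ke (D.k D.t0) D.e (D.k2 t) hOk.k1 hOk.e1 hOk.ek
    set u := D.k D.t0 - D.k2 t • D.e
    rw [h5, norm_sq_add, h6]
    have h7 : (1 : ℝ) + D.k2 t ^ 2 + 2 * inner ℝ u (F t) + ‖F t‖ ^ 2 - (1 + D.k2 t ^ 2) =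
        2 * inner ℝ u (F t) + ‖F t‖ ^ 2 := by ring
    rw [h7]
    have h8 : |inner ℝ u (F t)| ≤ ‖u‖ * ‖F t‖ := abs_real_inner_le_norm _ _
    have h9 : ‖u‖ ≤ 1 + D.k2 t := by
      apply abs_le_of_sq_le_sq' _ (by linarith) |>.2
      rw [h6]
      exact num6 m6
    have hFn := norm_nonneg (F t)
    have h10 : |2 * inner ℝ u (F t) + ‖F t‖ ^ 2| ≤ 2 * ((1 + D.k2 t) * ‖F t‖) + ‖F t‖ ^ 2 := by
      refine (abs_add_le _ _).trans ?_
      rw [abs_mul, abs_two, abs_of_nonneg (sq_nonneg ‖F t‖)]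
      have : ‖u‖ * ‖F t‖ ≤ (1 + D.k2 t) * ‖F t‖ := mul_le_mul_of_nonneg_right h9 hFn
      linarith
    refine h10.trans ?_
    rw [le_div_iff₀ (by positivity)]
    have h11 : ‖F t‖ * D.y ^ 16 ≤ 1 + D.k2 t := by
      rwa [le_div_iff₀ (by positivity)] at hFt
    have h12 : ‖F t‖ ≤ 1 + D.k2 t := by
      have : ‖F t‖ * 1 ≤ ‖F t‖ * D.y ^ 16 := mul_le_mul_of_nonneg_left hy16 hFn
      linarith
    have h13 : (2 * ((1 + D.k2 t) * ‖F t‖) + ‖F t‖ ^ 2) * D.y ^ 16 ≤ 6 * (1 + D.k2 t ^ 2) := by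
      have e1 : (2 * ((1 + D.k2 t) * ‖F t‖) + ‖F t‖ ^ 2) * D.y ^ 16 =
          (2 * (1 + D.k2 t) + ‖F t‖) * (‖F t‖ * D.y ^ 16) := by ring
      rw [e1]
      have e2 : (2 * (1 + D.k2 t) + ‖F t‖) * (‖F t‖ * D.y ^ 16) ≤
          (3 * (1 + D.k2 t)) * (1 + D.k2 t) :=
        mul_le_mul (by linarith) h11 (by positivity) (by linarith)
      exact e2.trans num7
    have e3 : (2 * ((1 + D.k2 t) * ‖F t‖) + ‖F t‖ ^ 2) * D.y ^ 16 =
        (2 * ((1 + D.k2 t) * ‖F t‖) + ‖F t‖ ^ 2) * D.y ^ 15 * D.y := by ring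
    rw [e3] at h13
    have e4 : 0 ≤ (2 * ((1 + D.k2 t) * ‖F t‖) + ‖F t‖ ^ 2) * D.y ^ 15 := by
      have : 0 ≤ 1 + D.k2 t := by linarith
      positivity
    exact num8 e4 h13 (by linarith)
  refine ⟨hFt, h2, ?_⟩
  have hy15 : (2 : ℝ) ≤ D.y ^ 15 := by
    have : D.y ≤ D.y ^ 15 := le_self_pow₀ hy1 (by norm_num)
    linarith
  have h3 : (1 + D.k2 t ^ 2) / D.y ^ 15 ≤ (1 + D.k2 t ^ 2) / 2 :=
    div_le_div_of_nonneg_left (by positivity) (by norm_num) hy15
  have h4 := (abs_le.1 h2).1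
  have h5 : (1 / 2 : ℝ) ^ 2 ≤ ‖D.p t‖ ^ 2 := by linarith [sq_nonneg (D.k2 t)]
  exact abs_le_of_sq_le_sq' h5 (norm_nonneg _) |>.2

end Pool.Agent.Work.MP_b0497c_an.Forced.Ode

end

section

set_option autoImplicit false

/-!
# Item E4: the exact two dimensional system
-/

open scoped ContDiff
open Set ContinuousLinearMap

namespace Pool.Agent.Work.MP_b0497c_an.Forced.Ode

namespace PQ

theorem ro_apply (v k x : E3) : ro v k x = (inner ℝ k x) • v := by
  simp [ro]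

end PQ

theorem prf_StPQ (hS : StSpan) (hE : StExact) (hD : StPder) : StPQ := by
  intro D hOk t w q r hb1 hp hq hqb1 hqb2 hqw hw
  obtain ⟨hkb1, -, hM1, -, -, -⟩ := hE D hOk
  obtain ⟨hb1p, hkp, hpd⟩ := hD D hOk t hb1
  have hqp : inner ℝ (q t) (D.p t) = 0 := by
    unfold EraD.p
    rw [inner_sub_right, inner_smul_right, hqb1, hqb2]
    simp
  have hgne : D.g t ≠ 0 := by
    unfold EraD.g
    exact pow_ne_zero _ (norm_ne_zero_iff.2 hb1)
  have hMb1 : D.M t (D.b1 t) = D.B t (D.b1 t) := by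
    simp only [EraD.M, add_apply, PQ.ro_apply, hkb1 t, zero_smul, add_zero]
  have hMp : D.M t (D.p t) = D.B t (D.p t) + D.v t := by
    simp only [EraD.M, add_apply, PQ.ro_apply, hkp, one_smul]
  -- decomposition of `w`
  have hdec : w t = (D.P w t / D.g t) • D.b1 t - (D.Q w t / ‖D.p t‖ ^ 2) • D.p t := by
    have h := hS (D.b1 t) (D.p t) (q t) (w t) hb1 hp hq hb1p
      (by rw [real_inner_comm]; exact hqb1) (by rw [real_inner_comm]; exact hqp)
    rw [hqw, zero_div, zero_smul, add_zero] at h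
    simp only [EraD.P, EraD.Q, EraD.g]
    rw [neg_div, neg_smul, sub_neg_eq_add]
    exact h
  refine ⟨hdec, ?_, ?_⟩
  · -- derivative of `P`
    have h1 : HasDerivAt (D.P w) (inner ℝ (D.b1 t)
        (-(D.M t (w t)) + (2 * inner ℝ (q t) (D.M t (w t)) / ‖q t‖ ^ 2) • q t + r)
        + inner ℝ (D.M t (D.b1 t)) (w t)) t := (hM1 t).inner ℝ hw
    convert h1 using 1
    rw [inner_add_right, inner_add_right, inner_neg_right, inner_smul_right,
      real_inner_comm (q t) (D.b1 t), hqb1]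
    have hz : D.z t = inner ℝ (D.b1 t) (D.M t (D.p t)) - inner ℝ (D.M t (D.b1 t)) (D.p t) := by
      unfold EraD.z
      have hb2 : D.b2 t = D.p t + D.mu t • D.b1 t := by
        unfold EraD.p; abel
      rw [hb2, map_add, map_smul, inner_add_right, inner_add_right, inner_smul_right,
        inner_smul_right, real_inner_comm (D.M t (D.b1 t)) (D.b1 t)]
      ring
    have hpn : ‖D.p t‖ ^ 2 ≠ 0 := pow_ne_zero _ (norm_ne_zero_iff.2 hp)
    have e1 : inner ℝ (D.M t (D.b1 t)) (w t) = D.P w t / D.g t * inner ℝ (D.M t (D.b1 t)) (D.b1 t)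
        - D.Q w t / ‖D.p t‖ ^ 2 * inner ℝ (D.M t (D.b1 t)) (D.p t) := by
      conv_lhs => rw [hdec]
      rw [inner_sub_right, inner_smul_right, inner_smul_right]
    have e2 : inner ℝ (D.b1 t) (D.M t (w t)) = D.P w t / D.g t * inner ℝ (D.M t (D.b1 t)) (D.b1 t)
        - D.Q w t / ‖D.p t‖ ^ 2 * inner ℝ (D.b1 t) (D.M t (D.p t)) := by
      conv_lhs => rw [hdec]
      rw [map_sub, map_smul, map_smul, inner_sub_right, inner_smul_right, inner_smul_right,
        real_inner_comm (D.M t (D.b1 t)) (D.b1 t)]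
    rw [e1, e2]
    unfold EraD.al
    rw [hz]
    ring
  · -- derivative of `Q`
    have h1 : HasDerivAt (D.Q w) (-(inner ℝ (D.p t)
        (-(D.M t (w t)) + (2 * inner ℝ (q t) (D.M t (w t)) / ‖q t‖ ^ 2) • q t + r)
        + inner ℝ (D.B t (D.p t) + (D.v t - (inner ℝ (D.b1 t) (D.v t) / D.g t) • D.b1 t)
    - ((inner ℝ (D.b1 t) (D.B t (D.p t)) + inner ℝ (D.B t (D.b1 t)) (D.p t)) / D.g t) • D.b1 t)
        (w t))) t := (hpd.inner ℝ hw).neg
    convert h1 using 1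
    have hpp : D.B t (D.p t) + (D.v t - (inner ℝ (D.b1 t) (D.v t) / D.g t) • D.b1 t)
        - ((inner ℝ (D.b1 t) (D.B t (D.p t)) + inner ℝ (D.B t (D.b1 t)) (D.p t)) / D.g t) • D.b1 t
        = D.M t (D.p t) - ((inner ℝ (D.b1 t) (D.M t (D.p t))
          + inner ℝ (D.M t (D.b1 t)) (D.p t)) / D.g t) • D.b1 t := by
      rw [hMp, hMb1, inner_add_right]
      module
    rw [hpp, inner_add_right, inner_add_right, inner_neg_right, inner_smul_right,
      real_inner_comm (q t) (D.p t), hqp, inner_sub_left, inner_smul_left]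
    have e1 : inner ℝ (D.M t (D.p t)) (w t) = D.P w t / D.g t * inner ℝ (D.M t (D.p t)) (D.b1 t)
        - D.Q w t / ‖D.p t‖ ^ 2 * inner ℝ (D.M t (D.p t)) (D.p t) := by
      conv_lhs => rw [hdec]
      rw [inner_sub_right, inner_smul_right, inner_smul_right]
    have e2 : inner ℝ (D.p t) (D.M t (w t)) = D.P w t / D.g t * inner ℝ (D.p t) (D.M t (D.b1 t))
        - D.Q w t / ‖D.p t‖ ^ 2 * inner ℝ (D.M t (D.p t)) (D.p t) := by
      conv_lhs => rw [hdec]
      rw [map_sub, map_smul, map_smul, inner_sub_right, inner_smul_right, inner_smul_right,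
        real_inner_comm (D.M t (D.p t)) (D.p t)]
    have e3 : inner ℝ (D.b1 t) (w t) = D.P w t := rfl
    rw [e1, e2, e3, real_inner_comm (D.M t (D.p t)) (D.b1 t),
      real_inner_comm (D.p t) (D.M t (D.b1 t))]
    unfold EraD.ga
    rw [← hMb1]
    simp only [conj_trivial]
    ring

end Pool.Agent.Work.MP_b0497c_an.Forced.Ode

end

section

set_option autoImplicit false

/-!
# N1: elementary inequalities between the parameters
-/

open scoped ContDiff
open Set ContinuousLinearMap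

namespace Pool.Agent.Work.MP_b0497c_an.Forced.Ode

namespace Par

theorem y_bounds (D : EraD) (h : D.Ok) : 2 * 10 ^ 8 ≤ D.y ∧ D.Lam ≤ D.y ∧ D.X ≤ D.y ∧
    1 / D.c ≤ D.y ∧ D.X / D.c ≤ D.y := by
  have hc := h.c0
  have hc1 := h.c1
  have hX := h.X1
  have hL := h.L1
  have hcs : D.c ≤ 1 := by linarith [show (1 : ℝ) / 10 ^ 8 ≤ 1 by norm_num]
  have hLX : 2 ≤ D.Lam * D.X := by nlinarith
  refine ⟨?_, ?_, ?_, ?_, ?_⟩
  · unfold EraD.y
    rw [le_div_iff₀ hc]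
    nlinarith
  · unfold EraD.y
    rw [le_div_iff₀ hc]
    nlinarith
  · unfold EraD.y
    rw [le_div_iff₀ hc]
    nlinarith
  · unfold EraD.y
    exact div_le_div_of_nonneg_right (by linarith) hc.le
  · unfold EraD.y
    exact div_le_div_of_nonneg_right (by nlinarith) hc.le

theorem sq_bounds (D : EraD) (h : D.Ok) : 0 < D.a ∧ D.y ^ 20 ≤ Real.sqrt D.a ∧
    D.y ^ 20 ≤ 2 * Real.sqrt (D.a * D.kap) ∧ Real.sqrt D.a ≤ 2 * Real.sqrt (D.a * D.kap) := by
  have hy := (y_bounds D h).1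
  have hy0 : 0 < D.y := by linarith
  have ha : 0 < D.a := lt_of_lt_of_le (pow_pos hy0 40) h.big
  have h1 : D.y ^ 20 ≤ Real.sqrt D.a := by
    apply Real.le_sqrt_of_sq_le
    calc (D.y ^ 20) ^ 2 = D.y ^ 40 := by ring
      _ ≤ D.a := h.big
  have h2 : Real.sqrt D.a ≤ 2 * Real.sqrt (D.a * D.kap) := by
    have h3 : Real.sqrt D.a ≤ Real.sqrt (4 * (D.a * D.kap)) := by
      apply Real.sqrt_le_sqrt
      nlinarith [h.kap1]
    have h4 : Real.sqrt (4 * (D.a * D.kap)) = 2 * Real.sqrt (D.a * D.kap) := by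
      rw [Real.sqrt_mul (by norm_num)]
      have : Real.sqrt 4 = 2 := by
        rw [show (4 : ℝ) = 2 ^ 2 by norm_num]
        exact Real.sqrt_sq (by norm_num)
      rw [this]
    linarith
  exact ⟨ha, h1, h1.trans h2, h2⟩

theorem T_bounds (D : EraD) (h : D.Ok) : 0 < D.om ∧ 0 < D.T ∧
    D.y ^ 18 * (D.Lam * D.T) ≤ 1 ∧ D.y ^ 18 * D.T ≤ 1 ∧
    D.T ≤ 2 * (D.X / D.c) / D.y ^ 20 ∧ D.a * D.T ≤ 2 * D.y * Real.sqrt D.a := by
  obtain ⟨hy, hLy, hXy, hcy, hXcy⟩ := y_bounds D h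
  obtain ⟨ha, hs, hak, hss⟩ := sq_bounds D h
  have hc := h.c0
  have hX := h.X1
  have hL := h.L1
  have hy0 : 0 < D.y := by linarith
  have hy20 : 0 < D.y ^ 20 := pow_pos hy0 20
  have hS : 0 < Real.sqrt (D.a * D.kap) := by linarith
  have hom : 0 < D.om := mul_pos hc hS
  have hT : 0 < D.T := div_pos (by linarith) hom
  have hXc : 0 < D.X / D.c := div_pos (by linarith) hc
  have hTeq : D.T = (D.X / D.c) / Real.sqrt (D.a * D.kap) := by
    unfold EraD.T EraD.om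
    rw [div_div]
  have hT2 : D.T ≤ 2 * (D.X / D.c) / D.y ^ 20 := by
    rw [hTeq, div_le_div_iff₀ hS hy20]
    nlinarith
  have hLT : D.y ^ 18 * (D.Lam * D.T) ≤ 1 := by
    have e1 : D.Lam * (D.X / D.c) = D.y := by
      unfold EraD.y
      ring
    have e2 : D.Lam * D.T ≤ 2 * D.y / D.y ^ 20 := by
      calc D.Lam * D.T ≤ D.Lam * (2 * (D.X / D.c) / D.y ^ 20) :=
            mul_le_mul_of_nonneg_left hT2 (by linarith)
        _ = 2 * (D.Lam * (D.X / D.c)) / D.y ^ 20 := by ring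
        _ = 2 * D.y / D.y ^ 20 := by rw [e1]
    calc D.y ^ 18 * (D.Lam * D.T) ≤ D.y ^ 18 * (2 * D.y / D.y ^ 20) :=
          mul_le_mul_of_nonneg_left e2 (by positivity)
      _ = 2 / D.y := by
          field_simp
      _ ≤ 1 := by
          rw [div_le_one hy0]
          linarith
  refine ⟨hom, hT, hLT, ?_, hT2, ?_⟩
  · refine le_trans ?_ hLT
    apply mul_le_mul_of_nonneg_left _ (by positivity)
    nlinarith
  · -- `a T = a (X/c) / sqrt (a kap)`
    have h1 : D.a * D.T = (D.X / D.c) * (Real.sqrt D.a * Real.sqrt D.a) /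
        Real.sqrt (D.a * D.kap) := by
      rw [hTeq, Real.mul_self_sqrt ha.le]
      ring
    rw [h1, div_le_iff₀ hS]
    have hsa : 0 < Real.sqrt D.a := Real.sqrt_pos.2 ha
    calc (D.X / D.c) * (Real.sqrt D.a * Real.sqrt D.a)
        ≤ D.y * (Real.sqrt D.a * (2 * Real.sqrt (D.a * D.kap))) := by
          apply mul_le_mul hXcy _ (by positivity) hy0.le
          exact mul_le_mul_of_nonneg_left hss hsa.le
      _ = 2 * D.y * Real.sqrt D.a * Real.sqrt (D.a * D.kap) := by ring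

theorem x0_bounds (D : EraD) (h : D.Ok) : 0 < D.x0 ∧ D.x0 ^ 4 = D.c ∧ D.x0 ≤ 1 / 100 ∧
    1 / D.x0 ≤ D.y := by
  obtain ⟨hy, hLy, hXy, hcy, hXcy⟩ := y_bounds D h
  have hc := h.c0
  have h1 : 0 < Real.sqrt D.c := Real.sqrt_pos.2 hc
  have h2 : 0 < D.x0 := Real.sqrt_pos.2 h1
  have h3 : D.x0 ^ 4 = D.c := by
    calc D.x0 ^ 4 = (D.x0 ^ 2) ^ 2 := by ring
      _ = (Real.sqrt D.c) ^ 2 := by
          rw [show D.x0 ^ 2 = Real.sqrt D.c from Real.sq_sqrt h1.le]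
      _ = D.c := Real.sq_sqrt hc.le
  have h4 : D.x0 ≤ 1 / 100 := by
    by_contra hcon
    push Not at hcon
    have : (1 / 100 : ℝ) ^ 4 < D.x0 ^ 4 := pow_lt_pow_left₀ hcon (by norm_num) (by norm_num)
    rw [h3] at this
    have h5 := h.c1
    norm_num at this h5
    linarith
  refine ⟨h2, h3, h4, ?_⟩
  refine le_trans ?_ hcy
  apply one_div_le_one_div_of_le hc
  rw [← h3]
  calc D.x0 ^ 4 ≤ D.x0 ^ 1 := pow_le_pow_of_le_one h2.le (by linarith) (by norm_num)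
    _ = D.x0 := pow_one _

end Par

theorem prf_StPar : StPar := by
  intro D h
  obtain ⟨hy, hLy, hXy, hcy, hXcy⟩ := Par.y_bounds D h
  obtain ⟨ha, hs, hak, hss⟩ := Par.sq_bounds D h
  obtain ⟨hom, hT, hLT, hyT, hT2, haT⟩ := Par.T_bounds D h
  obtain ⟨hx0, hx04, hx0s, hx0i⟩ := Par.x0_bounds D h
  have hc := h.c0
  have hX := h.X1
  have hk := h.kap1
  have homT : D.om * D.T = D.X := by
    unfold EraD.T
    field_simp
  refine ⟨hy, hLy, hXy, hcy, hXcy, ha, hom, hT, hs, hak, hLT, hyT, hT2, haT, hx0, hx04, hx0s,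
    hx0i, ?_, ?_, ?_, ?_, ?_, ?_⟩
  · unfold EraD.s0
    linarith [div_pos hx0 hom]
  · unfold EraD.s0 EraD.tf
    have : D.x0 / D.om < (D.X - 1) / D.om := div_lt_div_of_pos_right (by linarith) hom
    linarith
  · unfold EraD.tf EraD.T
    have : (D.X - 1) / D.om < D.X / D.om := div_lt_div_of_pos_right (by linarith) hom
    linarith
  · unfold EraD.x EraD.s0
    field_simp
    ring
  · unfold EraD.x EraD.tf
    field_simp
    ring
  · intro t ht
    have h1 : 0 ≤ t - D.t0 := by linarith [ht.1]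
    have h2 : t - D.t0 ≤ D.T := by linarith [ht.2]
    have h3 : 0 ≤ D.x t := mul_nonneg hom.le h1
    have h4 : D.x t ≤ D.X := by
      rw [← homT]
      exact mul_le_mul_of_nonneg_left h2 hom.le
    have h5 : D.x t ^ 2 = D.c * D.k2 t := by
      unfold EraD.x EraD.om EraD.k2
      have : Real.sqrt (D.a * D.kap) ^ 2 = D.a * D.kap :=
        Real.sq_sqrt (mul_nonneg ha.le (by linarith))
      calc (D.c * Real.sqrt (D.a * D.kap) * (t - D.t0)) ^ 2
          = D.c ^ 2 * Real.sqrt (D.a * D.kap) ^ 2 * (t - D.t0) ^ 2 := by ring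
        _ = D.c * (D.a * D.c * D.kap * (t - D.t0) ^ 2) := by
            rw [this]
            ring
    have h6 : 0 ≤ D.k2 t := by
      unfold EraD.k2
      have : 0 ≤ D.a * D.c * D.kap := by positivity
      positivity
    refine ⟨h1, h2, h3, h4, h5, h6, ?_, ?_⟩
    · rw [le_div_iff₀ hc]
      have : D.x t ^ 2 ≤ D.X ^ 2 := pow_le_pow_left₀ h3 h4 2
      linarith
    · constructor
      · intro hJ
        have h7 : D.x0 / D.om ≤ t - D.t0 := by
          have := hJ.1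
          unfold EraD.s0 at this
          linarith
        rw [div_le_iff₀ hom] at h7
        unfold EraD.x
        linarith
      · intro h7
        refine ⟨?_, by linarith⟩
        unfold EraD.s0
        have h8 : D.x0 / D.om ≤ t - D.t0 := by
          rw [div_le_iff₀ hom]
          unfold EraD.x at h7
          linarith
        linarith

end Pool.Agent.Work.MP_b0497c_an.Forced.Ode

end

section

set_option autoImplicit false

/-!
# ODE module, item E3: the derivative of `p`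
-/

open scoped ContDiff
open Set ContinuousLinearMap

namespace Pool.Agent.Work.MP_b0497c_an.Forced.Ode

theorem prf_StPder (hE : StExact) : StPder := by
  intro D hD t hb
  obtain ⟨hkb1, hkb2, -, -, -, -⟩ := hE D hD
  have hg : D.g t ≠ 0 := by
    unfold EraD.g
    exact pow_ne_zero 2 (norm_ne_zero_iff.2 hb)
  have hgg : inner ℝ (D.b1 t) (D.b1 t) = D.g t := real_inner_self_eq_norm_sq _
  have hmu : D.mu t * D.g t = inner ℝ (D.b1 t) (D.b2 t) := by
    unfold EraD.mu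
    rw [div_mul_cancel₀ _ hg]
  refine ⟨?_, ?_, ?_⟩
  · unfold EraD.p
    rw [inner_sub_right, inner_smul_right, hgg, hmu, sub_self]
  · unfold EraD.p
    rw [inner_sub_right, inner_smul_right, hkb1 t, hkb2 t, mul_zero, sub_zero]
  · have h1 := hD.b1_deriv t
    have h2 := hD.b2_deriv t
    have h12 : HasDerivAt (fun s => inner ℝ (D.b1 s) (D.b2 s))
        (inner ℝ (D.b1 t) (D.B t (D.b2 t) + D.v t) + inner ℝ (D.B t (D.b1 t)) (D.b2 t)) t :=
      h1.inner ℝ h2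
    have h11 : HasDerivAt D.g (2 * inner ℝ (D.b1 t) (D.B t (D.b1 t))) t := h1.norm_sq
    have hmu' : HasDerivAt D.mu
        (((inner ℝ (D.b1 t) (D.B t (D.b2 t) + D.v t) + inner ℝ (D.B t (D.b1 t)) (D.b2 t)) * D.g t
          - inner ℝ (D.b1 t) (D.b2 t) * (2 * inner ℝ (D.b1 t) (D.B t (D.b1 t)))) / D.g t ^ 2) t :=
      h12.div h11 hg
    have hp : HasDerivAt D.p ((D.B t (D.b2 t) + D.v t) - (D.mu t • (D.B t (D.b1 t)) +
        (((inner ℝ (D.b1 t) (D.B t (D.b2 t) + D.v t) + inner ℝ (D.B t (D.b1 t)) (D.b2 t)) * D.g t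
          - inner ℝ (D.b1 t) (D.b2 t) * (2 * inner ℝ (D.b1 t) (D.B t (D.b1 t)))) / D.g t ^ 2)
          • D.b1 t)) t := h2.sub (hmu'.smul h1)
    convert hp using 1
    have e1 : D.B t (D.p t) = D.B t (D.b2 t) - D.mu t • D.B t (D.b1 t) := by
      unfold EraD.p
      rw [map_sub, map_smul]
    have e2 : inner ℝ (D.B t (D.b1 t)) (D.p t) = inner ℝ (D.B t (D.b1 t)) (D.b2 t) -
        D.mu t * inner ℝ (D.B t (D.b1 t)) (D.b1 t) := by
      unfold EraD.p
      rw [inner_sub_right, inner_smul_right]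
    have e3 : inner ℝ (D.B t (D.b1 t)) (D.b1 t) = inner ℝ (D.b1 t) (D.B t (D.b1 t)) :=
      real_inner_comm _ _
    rw [e2, e1, inner_sub_right, inner_smul_right, inner_add_right, e3, ← hmu]
    set a := inner ℝ (D.b1 t) (D.B t (D.b1 t)) with ha
    set b := inner ℝ (D.b1 t) (D.B t (D.b2 t)) with hb'
    set d := inner ℝ (D.b1 t) (D.v t) with hd
    set c := inner ℝ (D.B t (D.b1 t)) (D.b2 t) with hc
    have e4 : ((b + d + c) * D.g t - D.mu t * D.g t * (2 * a)) / D.g t ^ 2 =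
        d / D.g t + (b - D.mu t * a + (c - D.mu t * a)) / D.g t := by
      field_simp
      ring
    rw [e4, add_smul]
    abel

end Pool.Agent.Work.MP_b0497c_an.Forced.Ode

end

section

set_option autoImplicit false

/-!
# ODE module of the forced Euler blow-up: bounds on the new wave vector
-/

open scoped ContDiff
open Set ContinuousLinearMap

namespace Pool.Agent.Work.MP_b0497c_an.Forced.Ode

namespace QB

theorem M_apply (D : EraD) (t : ℝ) (x : E3) :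
    D.M t x = D.B t x + (inner ℝ (D.k t) x : ℝ) • D.v t := by
  rfl

theorem M_smooth (D : EraD) (hD : D.Ok) : ContDiff ℝ ∞ D.M := by
  rw [contDiff_clm_apply_iff]
  intro x
  have h1 : ContDiff ℝ ∞ (fun t => D.B t x) := hD.flow.smooth.clm_apply contDiff_const
  have h2 : ContDiff ℝ ∞ (fun t => (inner ℝ (D.k t) x : ℝ)) :=
    hD.wave.q_smooth.inner ℝ contDiff_const
  exact h1.add (h2.smul hD.wave.w_smooth)

/-- `⟨q, b⟩` is constant -/
theorem const_pair (M : ℝ → Op) (q b : ℝ → E3)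
    (hq : ∀ t, HasDerivAt q (-(adjoint (M t) (q t))) t) (hb : ∀ t, HasDerivAt b (M t (b t)) t)
    (s t : ℝ) : (inner ℝ (q s) (b s) : ℝ) = inner ℝ (q t) (b t) := by
  have hd : ∀ t, HasDerivAt (fun t => (inner ℝ (q t) (b t) : ℝ)) 0 t := by
    intro t
    have h := (hq t).inner ℝ (hb t)
    have e : (inner ℝ (q t) (M t (b t)) + inner ℝ (-(adjoint (M t) (q t))) (b t) : ℝ) = 0 := by
      rw [inner_neg_left, adjoint_inner_left]
      ring
    rw [e] at h
    exact h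
  exact is_const_of_deriv_eq_zero (fun t => (hd t).differentiableAt) (fun t => (hd t).deriv) s t

/-- `⟨k, b⟩` is constant -/
theorem const_k (D : EraD) (hD : D.Ok) (b : ℝ → E3) (hb : ∀ t, HasDerivAt b (D.M t (b t)) t)
    (s t : ℝ) : (inner ℝ (D.k s) (b s) : ℝ) = inner ℝ (D.k t) (b t) := by
  have hd : ∀ t, HasDerivAt (fun t => (inner ℝ (D.k t) (b t) : ℝ)) 0 t := by
    intro t
    have h := (hD.wave.q_deriv t).inner ℝ (hb t)
    have e : (inner ℝ (D.k t) (D.M t (b t)) + inner ℝ (-(adjoint (D.B t) (D.k t))) (b t) : ℝ)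
        = 0 := by
      rw [inner_neg_left, adjoint_inner_left, M_apply, inner_add_right, inner_smul_right,
        hD.wave.orth t]
      ring
    rw [e] at h
    exact h
  exact is_const_of_deriv_eq_zero (fun t => (hd t).differentiableAt) (fun t => (hd t).deriv) s t

end QB

open QB in
/-- V3: the new wave vector. -/
theorem prf_StQ (hN : StPar) (hL : StLinear) (hG : StGrow) (hDf : StDef) : StQ := by
  intro D hD q hq hq0 t ht
  obtain ⟨hy, -, -, -, -, ha, -, hT, -, -, hLT, -, -, -, -, -, -, -, -, -, -, -, -, -⟩ := hN D hD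
  have ht0 : D.t0 ∈ D.I := ⟨le_rfl, by linarith⟩
  have hy1 : (1 : ℝ) ≤ D.y := by linarith
  have hLTs : D.Lam * D.T ≤ 1 / 2 := by
    have h1 : (2 : ℝ) ≤ D.y ^ 18 := by
      have : D.y ^ 1 ≤ D.y ^ 18 := pow_le_pow_right₀ hy1 (by norm_num)
      rw [pow_one] at this
      linarith
    have h2 : 0 ≤ D.Lam * D.T := mul_nonneg (by linarith [hD.L1]) hT.le
    nlinarith
  obtain ⟨b3, -, hb30, hb3⟩ := hL E3 D.M (fun _ => 0) (M_smooth D hD) contDiff_const D.t0 D.e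
  have hb3' : ∀ t, HasDerivAt b3 (D.M t (b3 t)) t := by
    intro t
    have := hb3 t
    rwa [add_zero] at this
  have hk0 : ∀ t, (inner ℝ (D.k t) (b3 t) : ℝ) = 0 := by
    intro t
    rw [const_k D hD b3 hb3' t D.t0, hb30, real_inner_comm]
    exact hD.ek
  have hb3B : ∀ t, HasDerivAt b3 (D.B t (b3 t)) t := by
    intro t
    have := hb3' t
    rwa [M_apply, hk0, zero_smul, add_zero] at this
  have hgrow := hG E3 b3 (fun t => D.B t (b3 t)) D.t0 t D.Lam 0 ht.1 (by linarith [hD.L1]) le_rfl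
    (fun u _ => hb3B u) (fun u hu => by
      rw [add_zero]
      exact (D.B u).le_of_opNorm_le (hD.Bb u ⟨hu.1, hu.2.trans ht.2⟩) _)
  have hexp : Real.exp (D.Lam * (t - D.t0)) ≤ 2 := by
    have h1 : D.Lam * (t - D.t0) ≤ 1 / 2 := by
      refine le_trans (mul_le_mul_of_nonneg_left ?_ (by linarith [hD.L1])) hLTs
      linarith [ht.2]
    have h2 : Real.exp (1 / 2 : ℝ) ≤ 2 := by
      have h3 := Real.exp_one_lt_d9
      have h4 : Real.exp (1 / 2 : ℝ) ^ 2 = Real.exp 1 := by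
        rw [← Real.exp_nat_mul]
        norm_num
      nlinarith [Real.exp_pos (1 / 2 : ℝ)]
    exact (Real.exp_le_exp.2 h1).trans h2
  have hb3n : ‖b3 t‖ ≤ 2 := by
    rw [hb30, hD.e1, zero_mul, add_zero, mul_one] at hgrow
    exact hgrow.trans hexp
  have hone : (inner ℝ (q t) (b3 t) : ℝ) = 1 := by
    rw [const_pair D.M q b3 hq hb3' t D.t0, hq0, hb30, real_inner_self_eq_norm_sq, hD.e1, one_pow]
  have hlow : 1 / 2 ≤ ‖q t‖ := by
    have h1 : (1 : ℝ) ≤ ‖q t‖ * ‖b3 t‖ := hone ▸ real_inner_le_norm _ _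
    have h2 : ‖q t‖ * ‖b3 t‖ ≤ ‖q t‖ * 2 := mul_le_mul_of_nonneg_left hb3n (norm_nonneg _)
    linarith
  refine ⟨hlow, ?_⟩
  obtain ⟨b, -, hbt, hb⟩ := hL E3 D.M (fun _ => 0) (M_smooth D hD) contDiff_const t (q t)
  have hb' : ∀ t, HasDerivAt b (D.M t (b t)) t := by
    intro t
    have := hb t
    rwa [add_zero] at this
  have h1 := const_pair D.M q b hq hb' t D.t0
  rw [hbt, hq0, real_inner_self_eq_norm_sq] at h1
  have h2 : (inner ℝ D.e (b D.t0) : ℝ) ≤ ‖D.e‖ * ‖b D.t0‖ := real_inner_le_norm _ _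
  rw [hD.e1, one_mul] at h2
  have h3 := hDf D hD b hb' t ht D.t0 ht0
  rw [hbt] at h3
  nlinarith

end Pool.Agent.Work.MP_b0497c_an.Forced.Ode

end

section

set_option autoImplicit false

/-!
# Lower bound for the antisymmetric part
-/

open Set ContinuousLinearMap

namespace Pool.Agent.Work.MP_b0497c_an.Forced.Ode

namespace Vort

/-- The numerical part. -/
lemma num {y r N : ℝ} (hy : 2 * 10 ^ 8 ≤ y) (hr : y ^ 10 ≤ r) (hN : 0 ≤ N)
    (h : r ^ 4 / 2 ≤ N * (2 * (2 + 8 * y * r ^ 2))) : r ≤ N := by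
  by_contra hc
  push Not at hc
  have y1 : (1 : ℝ) ≤ y := by linarith
  have y0 : 0 < y := by linarith
  have r0 : 0 < r := lt_of_lt_of_le (by positivity) hr
  have h9 : (2 * 10 ^ 8 : ℝ) ≤ y ^ 9 := by
    calc (2 * 10 ^ 8 : ℝ) ≤ y := hy
      _ = y ^ 1 := (pow_one y).symm
      _ ≤ y ^ 9 := pow_le_pow_right₀ y1 (by norm_num)
  have hyr : 100 * y ≤ r := by
    calc 100 * y ≤ y ^ 9 * y := by nlinarith
      _ = y ^ 10 := by ring
      _ ≤ r := hr
  have r1 : 100 ≤ r := by linarith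
  have pos : 0 < 2 * (2 + 8 * y * r ^ 2) := by positivity
  have h2 : N * (2 * (2 + 8 * y * r ^ 2)) < r * (2 * (2 + 8 * y * r ^ 2)) :=
    mul_lt_mul_of_pos_right hc pos
  have h3 : r ^ 4 / 2 < 4 * r + 16 * y * r ^ 3 := by nlinarith [h, h2]
  have h4 : 100 * y * r ^ 3 ≤ r ^ 4 := by
    calc 100 * y * r ^ 3 ≤ r * r ^ 3 := mul_le_mul_of_nonneg_right hyr (by positivity)
      _ = r ^ 4 := by ring
  have h5 : 16 * r ≤ y * r ^ 3 := by
    have : 16 ≤ y * r ^ 2 := by nlinarith [mul_self_nonneg r]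
    nlinarith [this, r0]
  nlinarith [h3, h4, h5]

end Vort

open Vort in
/-- Lower bound for the antisymmetric part of the gradient during an era. -/
theorem prf_StVort (hN : StPar) (hE : StExact) (hB : StBounds) : StVort := by
  intro D hD t ht w q h1 h2 A hA
  obtain ⟨y0, hLam, -, -, -, ha, -, hT, hs, -, -, -, -, haT, -, -, -, -, -, -, -, -, -, hI⟩ :=
    hN D hD
  obtain ⟨-, -, -, -, hz, hz0⟩ := hE D hD
  obtain ⟨-, hb1, -, -, -, -, hb2, -⟩ := hB D hD t ht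
  obtain ⟨htt, htT, -⟩ := hI t ht
  set s := Real.sqrt D.a with hsdef
  have s0 : 0 ≤ s := Real.sqrt_nonneg _
  have s2 : s ^ 2 = D.a := Real.sq_sqrt ha.le
  set r := Real.sqrt s with hrdef
  have r0 : 0 ≤ r := Real.sqrt_nonneg _
  have r2 : r ^ 2 = s := Real.sq_sqrt s0
  have y1 : (1 : ℝ) ≤ D.y := by linarith
  have hyr : D.y ^ 10 ≤ r := by
    apply Real.le_sqrt_of_sq_le
    calc (D.y ^ 10) ^ 2 = D.y ^ 20 := by ring
      _ ≤ s := hs
  have hz1 : D.a / 2 ≤ D.z t := by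
    have e := hz t
    rw [abs_le] at hz0
    have : 4 * D.Lam ≤ D.a := by
      have hy2 : D.y ^ 1 ≤ D.y ^ 20 := pow_le_pow_right₀ y1 (by norm_num)
      rw [pow_one] at hy2
      have hys : D.y ≤ s := hy2.trans hs
      have : 4 * D.y ≤ s * s := by nlinarith
      nlinarith [s2]
    rw [e]
    linarith [hz0.1]
  have hAb1 : A (D.b1 t) = D.M t (D.b1 t) := by
    rw [hA]
    simp [ro, h1]
  have hAb2 : A (D.b2 t) = D.M t (D.b2 t) := by
    rw [hA]
    simp [ro, h2]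
  have hzin : inner ℝ (D.b1 t) ((A - adjoint A) (D.b2 t)) = D.z t := by
    rw [sub_apply, inner_sub_right, hAb2, adjoint_inner_right, hAb1]
    rfl
  have hle : D.z t ≤ ‖A - adjoint A‖ * (2 * (2 + 8 * D.y * r ^ 2)) := by
    rw [← hzin]
    refine (real_inner_le_norm _ _).trans ?_
    have e1 : ‖(A - adjoint A) (D.b2 t)‖ ≤ ‖A - adjoint A‖ * ‖D.b2 t‖ := le_opNorm _ _
    have e2 : ‖D.b2 t‖ ≤ 2 + 8 * D.y * r ^ 2 := by
      have : D.a * (t - D.t0) ≤ D.a * D.T := mul_le_mul_of_nonneg_left htT ha.le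
      rw [r2]
      nlinarith [hb2, haT, this]
    calc ‖D.b1 t‖ * ‖(A - adjoint A) (D.b2 t)‖ ≤ 2 * (‖A - adjoint A‖ * (2 + 8 * D.y * r ^ 2)) := by
          apply mul_le_mul hb1 _ (norm_nonneg _) (by norm_num)
          exact e1.trans (mul_le_mul_of_nonneg_left e2 (norm_nonneg _))
      _ = ‖A - adjoint A‖ * (2 * (2 + 8 * D.y * r ^ 2)) := by ring
  apply num y0 hyr (norm_nonneg _)
  have : r ^ 4 = D.a := by rw [← s2, ← r2]; ring
  rw [this]
  exact hz1.trans hle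

end Pool.Agent.Work.MP_b0497c_an.Forced.Ode

end

section

set_option autoImplicit false

/-!
# ODE module, item E5: the system in the variables `Y, W`
-/

open scoped ContDiff
open Set ContinuousLinearMap

namespace Pool.Agent.Work.MP_b0497c_an.Forced.Ode

namespace YW

theorem algY (om x P Q al c s A b1r : ℝ) (hx : x ≠ 0) (hA : c * s * om * A = al) :
    om * P + x * (al * Q + b1r) =
      om * (x ^ 2 * A * (c * s * Q / x + x ^ 2 * P) + (1 - x ^ 4 * A) / x * (x * P)) + x * b1r := by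
  have e1 : x ^ 2 * A * (c * s * Q / x + x ^ 2 * P) + (1 - x ^ 4 * A) / x * (x * P) =
      x * (A * c * s * Q) + P := by
    field_simp
    ring
  rw [e1]
  linear_combination (-(x * Q)) * hA

theorem algW (om x P Q al ga c s A G b1r pr : ℝ) (hx : x ≠ 0) (hA : c * s * om * A = al)
    (hG : om * G = c * s * ga) :
    (c * s * (ga * P - pr) * x - c * s * Q * om) / x ^ 2 +
      (2 * x * om * P + x ^ 2 * (al * Q + b1r)) =
      om * ((G / x ^ 2 + 3 - x ^ 4 * A) * (x * P) -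
        (1 - x ^ 4 * A) / x * (c * s * Q / x + x ^ 2 * P)) +
      (x ^ 2 * b1r - c * s / x * pr) := by
  have e1 : (G / x ^ 2 + 3 - x ^ 4 * A) * (x * P) -
        (1 - x ^ 4 * A) / x * (c * s * Q / x + x ^ 2 * P) =
      G * P / x + 2 * x * P - c * s * Q / x ^ 2 + x ^ 2 * (A * c * s * Q) := by
    field_simp
    ring
  have e2 : (c * s * (ga * P - pr) * x - c * s * Q * om) / x ^ 2 =
      c * s * ga * P / x - c * s / x * pr - c * s * Q * om / x ^ 2 := by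
    field_simp
  rw [e1, e2, ← hG, ← hA]
  ring

end YW

theorem prf_StYW (hN : StPar) : StYW := by
  intro D hD t w r ht hP hQ
  have hpar := hN D hD
  have hy := hpar.1
  have ha : 0 < D.a := hpar.2.2.2.2.2.1
  have hom : 0 < D.om := hpar.2.2.2.2.2.2.1
  have hc : 0 < D.c := hD.c0
  have hk : 0 < D.kap := lt_of_lt_of_le (by norm_num) hD.kap1
  have hx0 : D.x t ≠ 0 := by
    unfold EraD.x
    exact (mul_pos hom (by linarith)).ne'
  have hx : HasDerivAt D.x D.om t := by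
    have h := ((hasDerivAt_id t).sub_const D.t0).const_mul D.om
    rw [mul_one] at h
    exact h
  set s := Real.sqrt (D.a / D.kap) with hs
  have hss : s ^ 2 = D.a / D.kap := Real.sq_sqrt (div_pos ha hk).le
  have hs1 : Real.sqrt (D.a * D.kap) = D.kap * s := by
    have e : D.a * D.kap = D.kap ^ 2 * (D.a / D.kap) := by
      field_simp
    rw [e, Real.sqrt_mul (sq_nonneg _), Real.sqrt_sq hk.le]
  have home : D.om = D.c * (D.kap * s) := by
    unfold EraD.om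
    rw [hs1]
  have hA : D.c * s * D.om * D.Ah t = D.al t := by
    unfold EraD.Ah
    rw [home]
    have e : D.c * s * (D.c * (D.kap * s)) * (D.al t / (D.c ^ 2 * D.a)) =
        D.c ^ 2 * D.kap * s ^ 2 * (D.al t / (D.c ^ 2 * D.a)) := by ring
    rw [e, hss]
    field_simp
  have hG : D.om * D.Gh t = D.c * s * D.ga t := by
    unfold EraD.Gh
    rw [home]
    field_simp
  refine ⟨?_, ?_⟩
  · have h := hx.mul hP
    have e := YW.algY D.om (D.x t) (D.P w t) (D.Q w t) (D.al t) D.c s (D.Ah t)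
      (inner ℝ (D.b1 t) r) hx0 hA
    rw [e] at h
    exact h
  · have hQh : HasDerivAt (fun t => D.c * s * D.Q w t)
        (D.c * s * (D.ga t * D.P w t - inner ℝ (D.p t) r)) t := hQ.const_mul (D.c * s)
    have h1 := hQh.div hx hx0
    have h2 := (hx.pow 2).mul hP
    have h := h1.add h2
    have e := YW.algW D.om (D.x t) (D.P w t) (D.Q w t) (D.al t) (D.ga t) D.c s (D.Ah t) (D.Gh t)
      (inner ℝ (D.b1 t) r) (inner ℝ (D.p t) r) hx0 hA hG
    have e3 : (D.c * s * (D.ga t * D.P w t - inner ℝ (D.p t) r) * D.x t -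
        D.c * s * D.Q w t * D.om) / D.x t ^ 2 +
        (((2 : ℕ) : ℝ) * D.x t ^ (2 - 1) * D.om * D.P w t +
          D.x t ^ 2 * (D.al t * D.Q w t + inner ℝ (D.b1 t) r)) =
        (D.c * s * (D.ga t * D.P w t - inner ℝ (D.p t) r) * D.x t -
        D.c * s * D.Q w t * D.om) / D.x t ^ 2 +
        (2 * D.x t * D.om * D.P w t +
          D.x t ^ 2 * (D.al t * D.Q w t + inner ℝ (D.b1 t) r)) := by
      norm_num
    have h' := h.congr_deriv (e3.trans e)
    exact h'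

end Pool.Agent.Work.MP_b0497c_an.Forced.Ode

end
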