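import Pool.Agent.Work.MP_b0497c_an.Forced.Ode.Stmts
import Pool.Agent.Work.MP_b0497c_an.Forced.Ode.StmtsB
import Pool.Agent.Work.MP_b0497c_an.Bd.B10

/-! Bundle of small proof modules (one section per former module). -/

section

set_option autoImplicit false

/-!
# ODE module of the forced Euler blow-up: the new rotation rate
-/

open scoped ContDiff
open Set ContinuousLinearMap

namespace Pool.Agent.Work.MP_b0497c_an.Forced.Ode

namespace Close1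

theorem ro_apply (v k x : E3) : ro v k x = inner ℝ k x • v := by
  simp [ro]

theorem M_apply (D : EraD) (t : ℝ) (x : E3) : D.M t x = D.B t x + inner ℝ (D.k t) x • D.v t := by
  unfold EraD.M
  rw [ContinuousLinearMap.add_apply, ro_apply]

theorem ne_of_norm {u : E3} (h : ‖u‖ = 1) : u ≠ 0 := by
  rintro rfl
  rw [norm_zero] at h
  exact zero_ne_one h

/-- Expansion in an orthonormal frame. -/
theorem frame (hS : StSpan) {u v e : E3} (q : E3) (hu : ‖u‖ = 1) (hv : ‖v‖ = 1) (he : ‖e‖ = 1)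
    (huv : inner ℝ u v = 0) (hue : inner ℝ u e = 0) (hve : inner ℝ v e = 0) :
    q = inner ℝ u q • u + inner ℝ v q • v + inner ℝ e q • e := by
  have h := hS u v e q (ne_of_norm hu) (ne_of_norm hv) (ne_of_norm he) huv hue hve
  rwa [hu, hv, he, one_pow, div_one, div_one, div_one] at h

/-- The direction of `q`. -/
theorem dir (hS : StSpan) {u v e q : E3} (hu : ‖u‖ = 1) (hv : ‖v‖ = 1) (he : ‖e‖ = 1)
    (huv : inner ℝ u v = 0) (hue : inner ℝ u e = 0) (hve : inner ℝ v e = 0) {δ1 δ2 s : ℝ}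
    (h1 : |inner ℝ q u| ≤ δ1) (h2 : |inner ℝ q (v - s • e)| ≤ δ2) :
    |(|inner ℝ e q| * Real.sqrt (1 + s ^ 2)) - ‖q‖| ≤ δ1 + δ2 := by
  have hq := frame hS q hu hv he huv hue hve
  set α := inner ℝ u q
  set β := inner ℝ v q
  set γ := inner ℝ e q
  have hβ : inner ℝ q (v - s • e) = β - s * γ := by
    rw [inner_sub_right, inner_smul_right, real_inner_comm, real_inner_comm e q]
  rw [hβ] at h2
  rw [real_inner_comm] at h1
  have h3 : ‖γ • (e + s • v)‖ = |γ| * Real.sqrt (1 + s ^ 2) := by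
    rw [norm_smul, Real.norm_eq_abs]
    congr 1
    rw [← Real.sqrt_sq (norm_nonneg (e + s • v)), norm_add_sq_real, inner_smul_right,
      real_inner_comm, hve, norm_smul, he, hv, Real.norm_eq_abs, mul_one, sq_abs]
    congr 1
    ring
  have h4 : γ • (e + s • v) - q = -(α • u) - (β - s * γ) • v := by
    conv_lhs => rw [hq]
    rw [smul_add, sub_smul, smul_smul, mul_comm γ s]
    abel
  rw [← h3]
  refine (abs_norm_sub_norm_le _ _).trans ?_
  rw [h4]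
  refine (norm_sub_le _ _).trans ?_
  rw [norm_neg, norm_smul, norm_smul, hu, hv, mul_one, mul_one, Real.norm_eq_abs, Real.norm_eq_abs]
  exact add_le_add h1 h2

/-- The main term. -/
theorem mainTerm (hS : StSpan) {u v e q : E3} (hu : ‖u‖ = 1) (hv : ‖v‖ = 1) (he : ‖e‖ = 1)
    (huv : inner ℝ u v = 0) (hue : inner ℝ u e = 0) (hve : inner ℝ v e = 0) {δ1 δ2 s : ℝ}
    (h1 : |inner ℝ q u| ≤ δ1) (h2 : |inner ℝ q (v - s • e)| ≤ δ2) (B : Op) {L kap c : ℝ}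
    (hB : ‖B‖ ≤ L) (hkap0 : 0 ≤ kap) (hkap : inner ℝ v (B u) = kap)
    (hc : inner ℝ e (B u) = kap * c) :
    |inner ℝ q (B u) - inner ℝ e q * (kap * (s + c))| ≤ L * δ1 + kap * δ2 := by
  have hq := frame hS q hu hv he huv hue hve
  have hδ1 : 0 ≤ δ1 := (abs_nonneg _).trans h1
  have e1 : inner ℝ q (B u) = inner ℝ u q * inner ℝ u (B u) + inner ℝ v q * kap
      + inner ℝ e q * (kap * c) := by
    conv_lhs => rw [hq]
    rw [inner_add_left, inner_add_left, real_inner_smul_left, real_inner_smul_left,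
      real_inner_smul_left, hkap, hc]
  have hβ : inner ℝ q (v - s • e) = inner ℝ v q - s * inner ℝ e q := by
    rw [inner_sub_right, inner_smul_right, real_inner_comm, real_inner_comm e q]
  rw [hβ] at h2
  rw [real_inner_comm] at h1
  have e2 : inner ℝ q (B u) - inner ℝ e q * (kap * (s + c)) =
      inner ℝ u q * inner ℝ u (B u) + kap * (inner ℝ v q - s * inner ℝ e q) := by
    rw [e1]; ring
  rw [e2]
  refine (abs_add_le _ _).trans (add_le_add ?_ ?_)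
  · rw [abs_mul, mul_comm]
    have h3 : |inner ℝ u (B u)| ≤ L := by
      refine (abs_real_inner_le_norm _ _).trans ?_
      rw [hu, one_mul]
      refine (B.le_opNorm u).trans ?_
      rw [hu, mul_one]
      exact hB
    exact mul_le_mul h3 h1 (abs_nonneg _) ((abs_nonneg _).trans h3)
  · rw [abs_mul, abs_of_nonneg hkap0]
    exact mul_le_mul_of_nonneg_left h2 hkap0

/-- Bounds for `P` and `Q` from the cone condition. -/
theorem q_bounds {P Q Y W x c r : ℝ} (hx : 1 ≤ x) (hY : Y = x * P)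
    (hW : W = c * r * Q / x + x ^ 2 * P) (hY0 : 0 < Y) (h1 : 5 / 4 * Y ≤ W) (h2 : W ≤ 3 / 2 * Y)
    (hc : 0 < c) (hr : 0 < r) : 0 < P ∧ c * r * |Q| ≤ 5 / 2 * x ^ 3 * P := by
  have hx0 : 0 < x := by linarith
  have hP : 0 < P := by
    rw [hY] at hY0
    exact (pos_iff_pos_of_mul_pos hY0).1 hx0
  refine ⟨hP, ?_⟩
  have h3 : c * r * Q = x * W - x ^ 3 * P := by
    rw [hW]; field_simp; ring
  have h4 : c * r * |Q| = |c * r * Q| := by
    rw [abs_mul, abs_of_pos (by positivity : 0 < c * r)]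
  rw [h4, h3]
  have h5 : x ^ 2 * P ≤ x ^ 3 * P := by
    apply mul_le_mul_of_nonneg_right _ hP.le
    nlinarith [sq_nonneg x]
  have h6 : x * W ≤ 3 / 2 * (x ^ 2 * P) := by
    have := mul_le_mul_of_nonneg_left h2 hx0.le
    rw [hY] at this
    linarith
  have h7 : 0 ≤ x * W := by
    apply mul_nonneg hx0.le
    linarith
  have h8 : 0 ≤ x ^ 3 * P := by positivity
  rw [abs_le]
  constructor <;> linarith

theorem inv_close {b δ : ℝ} (h : |b - 1| ≤ δ) (hδ : δ ≤ 1 / 4) :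
    |1 / b ^ 2 - 1| ≤ 6 * δ := by
  have h1 := abs_le.1 h
  have hb : 3 / 4 ≤ b := by linarith
  have hb2 : 9 / 16 ≤ b ^ 2 := by nlinarith
  have h2 : 1 / b ^ 2 - 1 = (1 - b ^ 2) / b ^ 2 := by
    field_simp
  rw [h2, abs_div, abs_of_pos (by positivity : 0 < b ^ 2), div_le_iff₀ (by positivity)]
  have h3 : |1 - b ^ 2| = |b - 1| * (1 + b) := by
    rw [show 1 - b ^ 2 = -((b - 1) * (1 + b)) by ring, abs_neg, abs_mul,
      abs_of_pos (by linarith : 0 < 1 + b)]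
  rw [h3]
  have h4 : |b - 1| * (1 + b) ≤ δ * (9 / 4) := by
    apply mul_le_mul h (by linarith) (by linarith) (by linarith [abs_nonneg (b - 1)])
  have h5 : 0 ≤ δ := (abs_nonneg _).trans h
  nlinarith

theorem inv_close1 {b δ : ℝ} (h : |b - 1| ≤ δ) (hδ : δ ≤ 1 / 4) : |1 / b - 1| ≤ 2 * δ := by
  have h1 := abs_le.1 h
  have hb : 3 / 4 ≤ b := by linarith
  have h2 : 1 / b - 1 = -(b - 1) / b := by
    field_simp
    ring
  rw [h2, abs_div, abs_neg, abs_of_pos (by linarith : 0 < b), div_le_iff₀ (by linarith)]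
  have h5 : 0 ≤ δ := (abs_nonneg _).trans h
  nlinarith

/-- `(s + c) / √(1 + s²)` is close to one. -/
theorem ratio {s c : ℝ} (hs : 1 ≤ c * s) (hc : 0 < c) (hs0 : 0 < s) :
    Real.sqrt (1 + s ^ 2) ≤ s + c ∧ s + c ≤ (1 + c ^ 2) * Real.sqrt (1 + s ^ 2) := by
  constructor
  · rw [Real.sqrt_le_left (by linarith)]
    nlinarith [sq_nonneg c]
  · have h1 : s ≤ Real.sqrt (1 + s ^ 2) := Real.le_sqrt_of_sq_le (by linarith)
    have h2 : s + c ≤ (1 + c ^ 2) * s := by nlinarith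
    exact h2.trans (mul_le_mul_of_nonneg_left h1 (by positivity))

/-- The norm of `w`. -/
theorem w_norm {b p w : E3} {P Q δ ε : ℝ} (hb : |‖b‖ - 1| ≤ δ) (hδ : δ ≤ 1 / 4) (hP : 0 < P)
    (hPw : inner ℝ b w = P) (hp : 1 / 2 ≤ ‖p‖) (hQ : |Q| ≤ ε * P)
    (hw : w = (P / ‖b‖ ^ 2) • b - (Q / ‖p‖ ^ 2) • p) :
    |‖w‖ - P| ≤ (2 * δ + 2 * ε) * P := by
  have h1 := abs_le.1 hb
  have hb0 : 3 / 4 ≤ ‖b‖ := by linarith
  have hbpos : 0 < ‖b‖ := by linarith
  have hppos : 0 < ‖p‖ := by linarith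
  have hic := abs_le.1 (inv_close1 hb hδ)
  have hε : 0 ≤ ε * P := (abs_nonneg _).trans hQ
  have h5 : 0 ≤ δ := (abs_nonneg _).trans hb
  rw [abs_le]
  constructor
  · have h2 : P ≤ ‖b‖ * ‖w‖ := by
      rw [← hPw]
      exact real_inner_le_norm _ _
    have h3 : P * (1 / ‖b‖) ≤ ‖w‖ := by
      rw [mul_one_div, div_le_iff₀ hbpos, mul_comm]
      exact h2
    nlinarith
  · have h2 : ‖w‖ ≤ P * (1 / ‖b‖) + |Q| * (1 / ‖p‖) := by
      conv_lhs => rw [hw]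
      refine (norm_sub_le _ _).trans (le_of_eq ?_)
      rw [norm_smul, norm_smul, Real.norm_eq_abs, Real.norm_eq_abs, abs_div, abs_div,
        abs_of_pos hP, abs_of_pos (by positivity : 0 < ‖b‖ ^ 2),
        abs_of_pos (by positivity : 0 < ‖p‖ ^ 2)]
      field_simp
    have h3 : 1 / ‖p‖ ≤ 2 := by
      rw [div_le_iff₀ hppos]
      linarith
    have h4 : |Q| * (1 / ‖p‖) ≤ (ε * P) * 2 := mul_le_mul hQ h3 (by positivity) hε
    nlinarith

/-- Numbers. -/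
theorem nums {y c Lam X x k2 τ T : ℝ} (hy : 2 * 10 ^ 8 ≤ y) (hL1 : 1 ≤ Lam) (hL : Lam ≤ y)
    (hX : X ≤ y) (hcy : 1 / c ≤ y) (hXc : X / c ≤ y) (hc : 0 < c) (h11 : y ^ 18 * (Lam * T) ≤ 1)
    (hτ0 : 0 ≤ τ) (hτ : τ ≤ T) (hx1 : 1 ≤ x) (hxX : x ≤ X) (hxk : x ^ 2 = c * k2) :
    24 * (Lam * τ) ≤ 1 / y ^ 13 ∧ 24 * (Lam ^ 2 * τ) ≤ 1 / y ^ 13 ∧ 1 / y ^ 13 ≤ 1 / 4 ∧
      1 ≤ c * k2 ∧ (1 + k2) / y ^ 16 ≤ 1 / y ^ 13 ∧ 1000 * (1 / y ^ 13) ≤ c ^ 2 ∧
      x ^ 3 / c ≤ y ^ 3 := by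
  have hy0 : 0 < y := by linarith
  have hy1 : 1 ≤ y := by linarith
  have hyc : 1 ≤ c * y := by
    rwa [div_le_iff₀ hc, mul_comm] at hcy
  have hLτ : y ^ 18 * (Lam * τ) ≤ 1 := by
    refine le_trans ?_ h11
    exact mul_le_mul_of_nonneg_left (mul_le_mul_of_nonneg_left hτ (by linarith)) (by positivity)
  have hx0 : 0 < x := by linarith
  have hk1 : 1 ≤ c * k2 := by rw [← hxk]; nlinarith
  have hLp : 0 ≤ Lam := by linarith
  have hL2 : Lam ^ 2 * τ * y ^ 17 ≤ 1 := by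
    have h1 : Lam ^ 2 * τ * y ^ 17 = Lam * (Lam * τ * y ^ 17) := by ring
    have h2 : Lam * (Lam * τ * y ^ 17) ≤ y * (Lam * τ * y ^ 17) :=
      mul_le_mul_of_nonneg_right hL (by positivity)
    rw [h1]
    refine h2.trans ?_
    have h3 : y * (Lam * τ * y ^ 17) = y ^ 18 * (Lam * τ) := by ring
    rw [h3]; exact hLτ
  have hk : ∀ n : ℕ, n ≠ 0 → (1000 : ℝ) ≤ y ^ n := by
    intro n hn
    have : y ≤ y ^ n := le_self_pow₀ hy1 hn
    linarith
  refine ⟨?_, ?_, ?_, hk1, ?_, ?_, ?_⟩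
  · rw [le_div_iff₀ (by positivity)]
    have h1 : y ^ 18 = y ^ 5 * y ^ 13 := by ring
    rw [h1] at hLτ
    have h2 := hk 5 (by norm_num)
    have h3 : 0 ≤ Lam * τ * y ^ 13 := by positivity
    nlinarith
  · rw [le_div_iff₀ (by positivity)]
    have h1 : y ^ 17 = y ^ 4 * y ^ 13 := by ring
    rw [h1] at hL2
    have h2 := hk 4 (by norm_num)
    have h3 : 0 ≤ Lam ^ 2 * τ * y ^ 13 := by positivity
    nlinarith
  · apply div_le_div_of_nonneg_left (by norm_num) (by norm_num)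
    linarith [hk 13 (by norm_num)]
  · rw [div_le_div_iff₀ (by positivity) (by positivity)]
    have h1 : k2 ≤ y ^ 2 := by
      have h2 : c * k2 ≤ X ^ 2 := by rw [← hxk]; exact pow_le_pow_left₀ hx0.le hxX 2
      have h3 : X ≤ y * c := by rwa [div_le_iff₀ hc] at hXc
      have h4 : X ^ 2 ≤ y * (y * c) := by
        rw [pow_two]
        exact mul_le_mul hX h3 (by linarith) hy0.le
      have h5 : c * k2 ≤ c * y ^ 2 := by linarith
      exact le_of_mul_le_mul_left h5 hc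
    have h6 : 1 + k2 ≤ y ^ 3 := by nlinarith
    have h7 : y ^ 16 = y ^ 3 * y ^ 13 := by ring
    rw [one_mul, h7]
    exact mul_le_mul_of_nonneg_right h6 (by positivity)
  · rw [mul_one_div, div_le_iff₀ (by positivity)]
    have h1 : c ^ 2 * y ^ 13 = (c * y) ^ 2 * y ^ 11 := by ring
    rw [h1]
    have h2 := hk 11 (by norm_num)
    have h3 : 1 ≤ (c * y) ^ 2 := one_le_pow₀ hyc
    nlinarith
  · rw [div_le_iff₀ hc]
    have h3 : X ≤ y * c := by rwa [div_le_iff₀ hc] at hXc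
    have h4 : x ≤ y * c := hxX.trans h3
    have h5 : x ≤ y := hxX.trans hX
    have h6 : x ^ 2 ≤ y ^ 2 := pow_le_pow_left₀ hx0.le h5 2
    calc x ^ 3 = x ^ 2 * x := by ring
      _ ≤ y ^ 2 * (y * c) := mul_le_mul h6 h4 hx0.le (by positivity)
      _ = y ^ 3 * c := by ring

/-- The size of `Q`. -/
theorem q_small {y c r x P Q a kap : ℝ} (hy : 2 * 10 ^ 8 ≤ y) (hc : 0 < c)
    (ha : 0 < a) (hkap1 : 1 / 2 ≤ kap) (hkap2 : kap ≤ 2) (hr : r = Real.sqrt (a / kap))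
    (h9 : y ^ 20 ≤ Real.sqrt a) (hx3 : x ^ 3 / c ≤ y ^ 3) (hP : 0 < P)
    (hQ : c * r * |Q| ≤ 5 / 2 * x ^ 3 * P) : |Q| * y ^ 16 ≤ P := by
  have hy0 : 0 < y := by linarith
  have hr1 : y ^ 20 / 2 ≤ r := by
    rw [hr, Real.sqrt_div ha.le]
    have h1 : Real.sqrt kap ≤ 2 := by
      rw [Real.sqrt_le_left (by norm_num)]
      linarith
    have h2 : 0 < Real.sqrt kap := Real.sqrt_pos.2 (by linarith)
    exact div_le_div₀ (Real.sqrt_nonneg _) h9 h2 h1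
  have h1 : c * (y ^ 20 / 2) * |Q| ≤ c * r * |Q| :=
    mul_le_mul_of_nonneg_right (mul_le_mul_of_nonneg_left hr1 hc.le) (abs_nonneg _)
  have h2 : x ^ 3 ≤ y ^ 3 * c := by rwa [div_le_iff₀ hc] at hx3
  have h3 : 5 / 2 * x ^ 3 * P ≤ 5 / 2 * (y ^ 3 * c) * P :=
    mul_le_mul_of_nonneg_right (mul_le_mul_of_nonneg_left h2 (by norm_num)) hP.le
  have h4 : (c * y ^ 3) * (|Q| * y ^ 16 * y) ≤ (c * y ^ 3) * (5 * P) := by
    nlinarith
  have h5 := le_of_mul_le_mul_left h4 (by positivity)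
  have h6 : 0 ≤ |Q| * y ^ 16 := by positivity
  nlinarith

/-- The time derivative of `k2` times `Q`. -/
theorem q_rot {a c kap x τ r P Q k2 : ℝ} (ha : 0 < a) (hc : 0 < c) (hkap : 0 < kap)
    (hx : x = c * Real.sqrt (a * kap) * τ) (hx0 : 0 ≤ x) (hr : r = Real.sqrt (a / kap))
    (hQ : c * r * |Q| ≤ 5 / 2 * x ^ 3 * P) (hk : x ^ 2 = c * k2) :
    2 * a * c * kap * τ * |Q| ≤ 5 * c * kap * k2 ^ 2 * P := by
  have hr0 : 0 < r := by rw [hr]; exact Real.sqrt_pos.2 (by positivity)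
  have hr2 : r ^ 2 = a / kap := by rw [hr]; exact Real.sq_sqrt (by positivity)
  have har : a = r ^ 2 * kap := by rw [hr2]; field_simp
  have hs : Real.sqrt (a * kap) = r * kap := by
    have : a * kap = (r * kap) ^ 2 := by rw [har]; ring
    rw [this, Real.sqrt_sq (by positivity)]
  rw [hs] at hx
  have h1 : c * (2 * a * c * kap * τ * |Q|) = 2 * kap * x * (c * r * |Q|) := by
    rw [hx, har]; ring
  have h2 : 2 * kap * x * (c * r * |Q|) ≤ 2 * kap * x * (5 / 2 * x ^ 3 * P) :=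
    mul_le_mul_of_nonneg_left hQ (by positivity)
  have h3 : 2 * kap * x * (5 / 2 * x ^ 3 * P) = c * (5 * c * kap * k2 ^ 2 * P) := by
    have : x ^ 4 = c ^ 2 * k2 ^ 2 := by
      calc x ^ 4 = (x ^ 2) ^ 2 := by ring
        _ = _ := by rw [hk]; ring
    linear_combination (5 * kap * P) * this
  have h4 : c * (2 * a * c * kap * τ * |Q|) ≤ c * (5 * c * kap * k2 ^ 2 * P) := by linarith
  exact le_of_mul_le_mul_left h4 hc

/-- The last step. -/
theorem finish {I G K kap n nw P s c θ : ℝ} (hc : 0 < c) (hc1 : c ≤ 1 / 10 ^ 8) (hkap0 : 0 < kap)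
    (hkap2 : kap ≤ 2) (hn : 0 ≤ n) (hP : 0 < P) (hθ0 : 0 ≤ θ) (hθ : 1000 * θ ≤ c ^ 2)
    (hI : |I - P * (G * (kap * K))| ≤ (246 * θ + 40 * c ^ 2) * (n * P))
    (hG : |(|G| * s) - n| ≤ 2 * θ * n) (hs1 : s ≤ K) (hs2 : K ≤ (1 + c ^ 2) * s)
    (hs0 : 0 ≤ s) (hw : |nw - P| ≤ 4 * θ * P) : |(|I|) - kap * (n * nw)| ≤ c * (n * nw) := by
  have hθ1 : θ ≤ 1 / 8 := by nlinarith
  have hw' := abs_le.1 hw
  have hnw : P ≤ 2 * nw := by nlinarith
  have hK0 : 0 ≤ K := hs0.trans hs1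
  have hc2 : 0 ≤ c ^ 2 := sq_nonneg c
  have hG' := abs_le.1 hG
  -- `|G| K` is close to `n`
  have h1 : |(|G| * K) - n| ≤ (c ^ 2 + 4 * θ) * n := by
    have e1 : |G| * s ≤ |G| * K := mul_le_mul_of_nonneg_left hs1 (abs_nonneg _)
    have e2 : |G| * K ≤ |G| * ((1 + c ^ 2) * s) := mul_le_mul_of_nonneg_left hs2 (abs_nonneg _)
    have e3 : |G| * ((1 + c ^ 2) * s) = (1 + c ^ 2) * (|G| * s) := by ring
    have e4 : (1 + c ^ 2) * (|G| * s) ≤ (1 + c ^ 2) * (n + 2 * θ * n) :=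
      mul_le_mul_of_nonneg_left (by linarith) (by linarith)
    have e5 : c ^ 2 ≤ 1 := by nlinarith
    have e6 : c ^ 2 * (2 * θ * n) ≤ 1 * (2 * θ * n) :=
      mul_le_mul_of_nonneg_right e5 (by positivity)
    have e7 : 0 ≤ c ^ 2 * n := by positivity
    have e8 : 0 ≤ θ * n := by positivity
    rw [abs_le]
    constructor <;> linarith
  have h2 : |P * (G * (kap * K))| = P * kap * (|G| * K) := by
    rw [abs_mul, abs_mul, abs_mul, abs_of_pos hP, abs_of_pos hkap0, abs_of_nonneg hK0]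
    ring
  have h3 : |(|I|) - (|P * (G * (kap * K))|)| ≤ (246 * θ + 40 * c ^ 2) * (n * P) :=
    (abs_abs_sub_abs_le _ _).trans hI
  rw [h2] at h3
  have h4 : |(|I|) - kap * (n * nw)| ≤ (246 * θ + 40 * c ^ 2) * (n * P) +
      P * kap * ((c ^ 2 + 4 * θ) * n) + kap * n * (4 * θ * P) := by
    have e1 : (|I|) - kap * (n * nw) = ((|I|) - P * kap * (|G| * K)) +
        P * kap * ((|G| * K) - n) + kap * n * (P - nw) := by ring
    rw [e1]
    refine (abs_add_le _ _).trans (add_le_add ((abs_add_le _ _).trans (add_le_add h3 ?_)) ?_)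
    · rw [abs_mul, abs_of_pos (by positivity : 0 < P * kap)]
      exact mul_le_mul_of_nonneg_left h1 (by positivity)
    · rw [abs_mul, abs_of_nonneg (by positivity : 0 ≤ kap * n), abs_sub_comm]
      exact mul_le_mul_of_nonneg_left hw (by positivity)
  have h5 : (246 * θ + 40 * c ^ 2) * (n * P) + P * kap * ((c ^ 2 + 4 * θ) * n)
      + kap * n * (4 * θ * P) = (246 * θ + 40 * c ^ 2 + kap * (c ^ 2 + 8 * θ)) * (n * P) := by ring
  rw [h5] at h4
  have h6 : 246 * θ + 40 * c ^ 2 + kap * (c ^ 2 + 8 * θ) ≤ 43 * c ^ 2 := by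
    have : kap * (c ^ 2 + 8 * θ) ≤ 2 * (c ^ 2 + 8 * θ) :=
      mul_le_mul_of_nonneg_right hkap2 (by positivity)
    linarith
  have h7 : (246 * θ + 40 * c ^ 2 + kap * (c ^ 2 + 8 * θ)) * (n * P) ≤ 43 * c ^ 2 * (n * (2 * nw)) := by
    apply mul_le_mul h6 (mul_le_mul_of_nonneg_left hnw hn) (by positivity) (by positivity)
  refine h4.trans (h7.trans ?_)
  have h8 : 0 ≤ n * nw := by
    apply mul_nonneg hn
    linarith
  have h9 : 86 * c ^ 2 ≤ c := by nlinarith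
  nlinarith

/-- The third term. -/
theorem third {n Q pn γ τ a c kap Lam k2 P y V : ℝ} (hn : 0 ≤ n) (hP : 0 < P) (hc : 0 < c)
    (hkap0 : 0 < kap) (hkap2 : kap ≤ 2) (hk : 1 ≤ c * k2) (hk1 : 1 ≤ k2)
    (hpn : k2 ^ 2 / 2 ≤ pn ^ 2) (ha : a * τ ^ 2 ≤ 2 * k2 / c)
    (hQ : |Q| * y ^ 16 ≤ P) (hy0 : 0 < y)
    (hrot : 2 * a * c * kap * τ * |Q| ≤ 5 * c * kap * k2 ^ 2 * P) (hγ : |γ| * k2 ≤ 2 * n)
    (hLc : Lam ^ 2 / c ≤ y ^ 3)
    (hV : |V| ≤ n * (60 * a * Lam ^ 2 * τ ^ 2) + (2 * a * c * kap * τ) * |γ|) :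
    |Q| / pn ^ 2 * |V| ≤ (40 * c ^ 2 + 240 * (1 / y ^ 13)) * (n * P) := by
  have hk0 : 0 < k2 := by linarith
  have hq0 := abs_nonneg Q
  have hγ0 := abs_nonneg γ
  have h1 : |Q| / pn ^ 2 ≤ |Q| * (2 / k2 ^ 2) := by
    have : |Q| / pn ^ 2 ≤ |Q| / (k2 ^ 2 / 2) := div_le_div_of_nonneg_left hq0 (by positivity) hpn
    refine this.trans (le_of_eq ?_)
    field_simp
  have h2 : |Q| / pn ^ 2 * |V| ≤ |Q| * (2 / k2 ^ 2) * (n * (60 * a * Lam ^ 2 * τ ^ 2) +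
      (2 * a * c * kap * τ) * |γ|) :=
    mul_le_mul h1 hV (abs_nonneg _) (by positivity)
  refine h2.trans ?_
  have t1 : |Q| * (2 / k2 ^ 2) * (n * (60 * a * Lam ^ 2 * τ ^ 2)) ≤ 240 * (1 / y ^ 13) * (n * P) := by
    have e1 : |Q| * (2 / k2 ^ 2) * (n * (60 * a * Lam ^ 2 * τ ^ 2)) =
        (n * (|Q| * (2 / k2 ^ 2) * 60 * Lam ^ 2)) * (a * τ ^ 2) := by ring
    have e2 : (n * (|Q| * (2 / k2 ^ 2) * 60 * Lam ^ 2)) * (a * τ ^ 2) ≤
        (n * (|Q| * (2 / k2 ^ 2) * 60 * Lam ^ 2)) * (2 * k2 / c) :=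
      mul_le_mul_of_nonneg_left ha (by positivity)
    have e3 : (n * (|Q| * (2 / k2 ^ 2) * 60 * Lam ^ 2)) * (2 * k2 / c) =
        240 * n * |Q| * (Lam ^ 2 / c) * (1 / k2) := by
      field_simp
      ring
    have e4 : 1 / k2 ≤ 1 := by rw [div_le_one hk0]; exact hk1
    have e5 : 240 * n * |Q| * (Lam ^ 2 / c) * (1 / k2) ≤ 240 * n * |Q| * (Lam ^ 2 / c) * 1 :=
      mul_le_mul_of_nonneg_left e4 (by positivity)
    have e6 : 240 * n * |Q| * (Lam ^ 2 / c) ≤ 240 * n * |Q| * y ^ 3 :=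
      mul_le_mul_of_nonneg_left hLc (by positivity)
    have e7 : |Q| * y ^ 3 ≤ 1 / y ^ 13 * P := by
      rw [one_div_mul_eq_div, le_div_iff₀ (by positivity)]
      calc |Q| * y ^ 3 * y ^ 13 = |Q| * y ^ 16 := by ring
        _ ≤ P := hQ
    have e8 : 240 * n * (|Q| * y ^ 3) ≤ 240 * n * (1 / y ^ 13 * P) :=
      mul_le_mul_of_nonneg_left e7 (by positivity)
    have e9 : 240 * n * (1 / y ^ 13 * P) = 240 * (1 / y ^ 13) * (n * P) := by ring
    have e10 : 240 * n * |Q| * y ^ 3 = 240 * n * (|Q| * y ^ 3) := by ring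
    linarith
  have t2 : |Q| * (2 / k2 ^ 2) * ((2 * a * c * kap * τ) * |γ|) ≤ 40 * c ^ 2 * (n * P) := by
    have e1 : |Q| * (2 / k2 ^ 2) * ((2 * a * c * kap * τ) * |γ|) =
        (2 / k2 ^ 2 * |γ|) * (2 * a * c * kap * τ * |Q|) := by ring
    have e2 : (2 / k2 ^ 2 * |γ|) * (2 * a * c * kap * τ * |Q|) ≤
        (2 / k2 ^ 2 * |γ|) * (5 * c * kap * k2 ^ 2 * P) :=
      mul_le_mul_of_nonneg_left hrot (by positivity)
    have e3 : (2 / k2 ^ 2 * |γ|) * (5 * c * kap * k2 ^ 2 * P) = 10 * c * P * (kap * |γ|) := by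
      field_simp
      ring
    have e4 : |γ| ≤ 2 * n * c := by
      have : |γ| * 1 ≤ |γ| * (c * k2) := mul_le_mul_of_nonneg_left hk hγ0
      have : |γ| * (c * k2) = (|γ| * k2) * c := by ring
      have : (|γ| * k2) * c ≤ 2 * n * c := mul_le_mul_of_nonneg_right hγ hc.le
      linarith
    have e5 : kap * |γ| ≤ 2 * (2 * n * c) := mul_le_mul hkap2 e4 hγ0 (by norm_num)
    have e6 : 10 * c * P * (kap * |γ|) ≤ 10 * c * P * (2 * (2 * n * c)) :=
      mul_le_mul_of_nonneg_left e5 (by positivity)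
    have e7 : 10 * c * P * (2 * (2 * n * c)) = 40 * c ^ 2 * (n * P) := by ring
    linarith
  have e : |Q| * (2 / k2 ^ 2) * (n * (60 * a * Lam ^ 2 * τ ^ 2) + (2 * a * c * kap * τ) * |γ|) =
      |Q| * (2 / k2 ^ 2) * (n * (60 * a * Lam ^ 2 * τ ^ 2)) +
      |Q| * (2 / k2 ^ 2) * ((2 * a * c * kap * τ) * |γ|) := by ring
  rw [e]
  linarith

/-- The first term. -/
theorem first {P g X Z n δ ε M : ℝ} (hP : 0 < P) (hg : |1 / g - 1| ≤ δ) (hX : |X| ≤ M)
    (hXZ : |X - Z| ≤ ε) (hn : δ * M + ε ≤ n) : |P / g * X - P * Z| ≤ n * P := by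
  have h1 : P / g * X - P * Z = P * ((1 / g - 1) * X + (X - Z)) := by ring
  rw [h1, abs_mul, abs_of_pos hP, mul_comm]
  apply mul_le_mul_of_nonneg_right _ hP.le
  refine (abs_add_le _ _).trans (le_trans (add_le_add ?_ hXZ) hn)
  rw [abs_mul]
  exact mul_le_mul hg hX (abs_nonneg _) ((abs_nonneg _).trans hg)

/-- The second term. -/
theorem second {Q pn n Lam V P y : ℝ} (hpn : 1 / 2 ≤ pn) (hn : 0 ≤ n) (hL : 0 < Lam)
    (hLy : Lam ≤ y) (hy : 2 * 10 ^ 8 ≤ y) (hV : |V| ≤ n * (Lam * pn)) (hQ : |Q| * y ^ 16 ≤ P) :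
    |Q| / pn ^ 2 * |V| ≤ 1 / y ^ 13 * (n * P) := by
  have hpn0 : 0 < pn := by linarith
  have hy0 : 0 < y := by linarith
  have hq0 := abs_nonneg Q
  have h1 : |Q| / pn ^ 2 * |V| ≤ |Q| / pn ^ 2 * (n * (Lam * pn)) :=
    mul_le_mul_of_nonneg_left hV (by positivity)
  have h2 : |Q| / pn ^ 2 * (n * (Lam * pn)) = n * |Q| * Lam * (1 / pn) := by
    field_simp
  have h3 : 1 / pn ≤ 2 := by
    rw [div_le_iff₀ hpn0]
    linarith
  have h4 : n * |Q| * Lam * (1 / pn) ≤ n * |Q| * Lam * 2 :=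
    mul_le_mul_of_nonneg_left h3 (by positivity)
  have h5 : |Q| * Lam * 2 ≤ 1 / y ^ 13 * P := by
    rw [one_div_mul_eq_div, le_div_iff₀ (by positivity)]
    have e1 : |Q| * Lam * 2 ≤ |Q| * y ^ 3 := by
      have e2 : Lam * 2 ≤ y ^ 3 := by
        have e3 : y * 2 ≤ y ^ 3 := by
          have : y ^ 3 = y * y ^ 2 := by ring
          rw [this]
          apply mul_le_mul_of_nonneg_left _ hy0.le
          nlinarith
        linarith
      have : |Q| * Lam * 2 = |Q| * (Lam * 2) := by ring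
      rw [this]
      exact mul_le_mul_of_nonneg_left e2 hq0
    have e2 : |Q| * Lam * 2 * y ^ 13 ≤ |Q| * y ^ 3 * y ^ 13 :=
      mul_le_mul_of_nonneg_right e1 (by positivity)
    have e3 : |Q| * y ^ 3 * y ^ 13 = |Q| * y ^ 16 := by ring
    linarith
  have h6 : n * (|Q| * Lam * 2) ≤ n * (1 / y ^ 13 * P) := mul_le_mul_of_nonneg_left h5 hn
  calc |Q| / pn ^ 2 * |V| ≤ n * |Q| * Lam * 2 := by linarith
    _ = n * (|Q| * Lam * 2) := by ring
    _ ≤ n * (1 / y ^ 13 * P) := h6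
    _ = _ := by ring

end Close1

open Close1 in
theorem prf_StClose1 (hN : StPar) (hS : StSpan) (hE : StExact) (hD : StPder) (hB : StBounds)
    (hV : StPiv) (hP : StP) : StClose1 := by
  intro D hOk t w q ht hx hq hqb1 hqb2 hqw hY hW1 hW2 hw
  obtain ⟨n1, n2, n3, n4, n5, n6, n7, n8, n9, n10, n11, -, -, -, -, -, -, -, -, -,
    -, -, -, n24⟩ := hN D hOk
  obtain ⟨m1, m2, m3, m4, m5, m6, m7, -⟩ := n24 t ht
  obtain ⟨b1l, b1u, kl, ku, -, -, -, Bdiff, b1diff, -, -, -, -⟩ := hB D hOk t ht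
  obtain ⟨p1, p2, p3⟩ := hP D hOk t ht
  have hpiv := hV D hOk t ht
  obtain ⟨num1, num2, num3, num4, num5, num6, num7⟩ := nums n1 hOk.L1 n2 n3 n4 n5 hOk.c0 n11 m1 m2
    hx m4 m5
  clear n24
  have hy0 : 0 < D.y := by linarith
  have hθ0 : 0 ≤ 1 / D.y ^ 13 := by positivity
  have hc := hOk.c0
  have hkap : 0 < D.kap := by linarith [hOk.kap1]
  have hL : 0 < D.Lam := by linarith [hOk.L1]
  have hn : 0 < ‖q t‖ := norm_pos_iff.2 hq
  have hb1p : 0 < ‖D.b1 t‖ := by linarith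
  have hb1ne : D.b1 t ≠ 0 := norm_pos_iff.1 hb1p
  obtain ⟨dp1, dp2, -⟩ := hD D hOk t hb1ne
  have hτ : 0 ≤ t - D.t0 := m1
  have htI : D.t0 ∈ D.I := ⟨le_rfl, by linarith⟩
  have hqp : inner ℝ (q t) (D.p t) = 0 := by
    unfold EraD.p
    rw [inner_sub_right, inner_smul_right, hqb1, hqb2, mul_zero, sub_zero]
  -- the frame
  have hvh : ‖D.b1 D.t0‖ = 1 := by
    rw [hOk.b1_init, norm_smul, hOk.va, norm_inv, Real.norm_eq_abs, abs_of_pos n6,
      inv_mul_cancel₀ n6.ne']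
  have huv : inner ℝ (D.b1 D.t0) (D.k D.t0) = 0 := by
    rw [hOk.b1_init, real_inner_smul_left, real_inner_comm, hOk.wave.orth, mul_zero]
  have hue : inner ℝ (D.b1 D.t0) D.e = 0 := by
    rw [hOk.b1_init, real_inner_smul_left, real_inner_comm, hOk.ev, mul_zero]
  have hve : inner ℝ (D.k D.t0) D.e = 0 := by
    rw [real_inner_comm, hOk.ek]
  have hka : inner ℝ (D.k D.t0) (D.B D.t0 (D.b1 D.t0)) = D.kap := by
    rw [hOk.b1_init, map_smul, inner_smul_right, hOk.kapeq]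
    field_simp
  have hce : inner ℝ D.e (D.B D.t0 (D.b1 D.t0)) = D.kap * D.c := by
    rw [hOk.b1_init, map_smul, inner_smul_right, hOk.ceq]
    field_simp
  -- the direction of `q`
  have A1 : |inner ℝ (q t) (D.b1 D.t0)| ≤ ‖q t‖ * (2 * D.Lam * (t - D.t0)) := by
    have : inner ℝ (q t) (D.b1 D.t0) = -inner ℝ (q t) (D.b1 t - D.b1 D.t0) := by
      rw [inner_sub_right, hqb1]; ring
    rw [this, abs_neg]
    exact (abs_real_inner_le_norm _ _).trans (mul_le_mul_of_nonneg_left b1diff hn.le)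
  have A2 : |inner ℝ (q t) (D.k D.t0 - D.k2 t • D.e)| ≤ ‖q t‖ * (1 / D.y ^ 13) := by
    have : inner ℝ (q t) (D.k D.t0 - D.k2 t • D.e) =
        -inner ℝ (q t) (D.p t - (D.k D.t0 - D.k2 t • D.e)) := by
      rw [inner_sub_right (q t) (D.p t), hqp]; ring
    rw [this, abs_neg]
    exact (abs_real_inner_le_norm _ _).trans (mul_le_mul_of_nonneg_left (p1.trans num5) hn.le)
  have A3 := dir hS hvh hOk.k1 hOk.e1 huv hue hve A1 A2
  have A4 := mainTerm hS hvh hOk.k1 hOk.e1 huv hue hve A1 A2 (D.B D.t0) (hOk.Bb D.t0 htI) hkap.le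
    hka hce
  have A5 : |inner ℝ (q t) (D.B t (D.b1 t)) - inner ℝ (q t) (D.B D.t0 (D.b1 D.t0))| ≤
      ‖q t‖ * (4 * (D.Lam ^ 2 * (t - D.t0))) := by
    rw [← inner_sub_right]
    refine (abs_real_inner_le_norm _ _).trans (mul_le_mul_of_nonneg_left ?_ hn.le)
    have e1 : D.B t (D.b1 t) - D.B D.t0 (D.b1 D.t0) = (D.B t - D.B D.t0) (D.b1 t) +
        D.B D.t0 (D.b1 t - D.b1 D.t0) := by
      rw [ContinuousLinearMap.sub_apply, map_sub]; abel
    rw [e1]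
    refine (norm_add_le _ _).trans ?_
    have e2 : ‖(D.B t - D.B D.t0) (D.b1 t)‖ ≤ (D.Lam ^ 2 * (t - D.t0)) * 2 :=
      ((D.B t - D.B D.t0).le_opNorm _).trans (mul_le_mul Bdiff b1u (norm_nonneg _) (by positivity))
    have e3 : ‖D.B D.t0 (D.b1 t - D.b1 D.t0)‖ ≤ D.Lam * (2 * D.Lam * (t - D.t0)) :=
      ((D.B D.t0).le_opNorm _).trans (mul_le_mul (hOk.Bb D.t0 htI) b1diff (norm_nonneg _) hL.le)
    have e4 : (D.Lam ^ 2 * (t - D.t0)) * 2 + D.Lam * (2 * D.Lam * (t - D.t0)) =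
        4 * (D.Lam ^ 2 * (t - D.t0)) := by ring
    linarith
  have A6 : |inner ℝ (q t) (D.B t (D.b1 t))| ≤ ‖q t‖ * (D.Lam * 2) :=
    (abs_real_inner_le_norm _ _).trans (mul_le_mul_of_nonneg_left
      (((D.B t).le_opNorm _).trans (mul_le_mul (hOk.Bb t ht) b1u (norm_nonneg _) hL.le)) hn.le)
  have hbn : |‖D.b1 t‖ - 1| ≤ 2 * (D.Lam * (t - D.t0)) := by
    rw [← hvh]
    refine (abs_norm_sub_norm_le _ _).trans (b1diff.trans (le_of_eq (by ring)))
  have hbn4 : 2 * (D.Lam * (t - D.t0)) ≤ 1 / 4 := by linarith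
  -- the amplitude
  set P := D.P w t with hPd
  set Q := D.Q w t with hQd
  set r := Real.sqrt (D.a / D.kap) with hr
  have hr0 : 0 < r := Real.sqrt_pos.2 (by positivity)
  obtain ⟨hP0, hQ1⟩ := q_bounds (P := P) (Q := Q) (Y := D.Y w t) (W := D.W w t) (r := r) hx rfl rfl
    hY hW1 hW2 hc hr0
  have hQ2 := q_small n1 hc n6 hOk.kap1 hOk.kap2 hr n9 num7 hP0 hQ1
  have hrot := q_rot n6 hc hkap (rfl : D.x t = _) m3 hr hQ1 m5
  have hk1 : 1 ≤ D.k2 t := by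
    have h1 : D.c ≤ 1 := hOk.c1.trans (by norm_num)
    have h2 := mul_le_mul_of_nonneg_right h1 m6
    linarith
  have hs2 : D.k2 t ≤ Real.sqrt (1 + D.k2 t ^ 2) := Real.le_sqrt_of_sq_le (by linarith)
  have hγ : |inner ℝ D.e (q t)| * D.k2 t ≤ 2 * ‖q t‖ := by
    have h1 := (abs_le.1 A3).2
    have h2 : |inner ℝ D.e (q t)| * D.k2 t ≤ |inner ℝ D.e (q t)| * Real.sqrt (1 + D.k2 t ^ 2) :=
      mul_le_mul_of_nonneg_left hs2 (abs_nonneg _)
    have h3 : ‖q t‖ * (2 * D.Lam * (t - D.t0)) ≤ ‖q t‖ * (1 / 4) :=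
      mul_le_mul_of_nonneg_left (by linarith) hn.le
    have h4 : ‖q t‖ * (1 / D.y ^ 13) ≤ ‖q t‖ * (1 / 4) := mul_le_mul_of_nonneg_left num3 hn.le
    linarith
  -- the terms of `⟪q, M w⟫`
  have hLc : D.Lam ^ 2 / D.c ≤ D.y ^ 3 := by
    have h1 : D.Lam ^ 2 / D.c = D.Lam ^ 2 * (1 / D.c) := by ring
    rw [h1]
    have h2 : D.Lam ^ 2 ≤ D.y ^ 2 := pow_le_pow_left₀ hL.le n2 2
    calc D.Lam ^ 2 * (1 / D.c) ≤ D.y ^ 2 * D.y := mul_le_mul h2 n4 (by positivity) (by positivity)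
      _ = D.y ^ 3 := by ring
  have hpn : D.k2 t ^ 2 / 2 ≤ ‖D.p t‖ ^ 2 := by
    have h1 := (abs_le.1 p2).1
    have hy15 : (2 : ℝ) ≤ D.y ^ 15 := by
      have : D.y ≤ D.y ^ 15 := le_self_pow₀ (by linarith) (by norm_num)
      linarith
    have h3 : (1 + D.k2 t ^ 2) / D.y ^ 15 ≤ (1 + D.k2 t ^ 2) / 2 :=
      div_le_div_of_nonneg_left (by positivity) (by norm_num) hy15
    linarith
  have hatau : D.a * (t - D.t0) ^ 2 ≤ 2 * D.k2 t / D.c := by
    rw [le_div_iff₀ hc]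
    have h1 : D.k2 t = D.a * D.c * D.kap * (t - D.t0) ^ 2 := rfl
    rw [h1]
    have h2 : 0 ≤ D.a * D.c * (t - D.t0) ^ 2 := by positivity
    have h3 := mul_le_mul_of_nonneg_left hOk.kap1 h2
    linarith
  have hV1 : |inner ℝ (q t) (D.v t)| ≤ ‖q t‖ * (60 * D.a * D.Lam ^ 2 * (t - D.t0) ^ 2) +
      (2 * D.a * D.c * D.kap * (t - D.t0)) * |inner ℝ D.e (q t)| := by
    have e1 : inner ℝ (q t) (D.v t) = inner ℝ (q t) (D.v t - (inner ℝ (D.b1 t) (D.v t) / D.g t) •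
        D.b1 t + (2 * D.a * D.c * D.kap * (t - D.t0)) • D.e) -
        (2 * D.a * D.c * D.kap * (t - D.t0)) * inner ℝ D.e (q t) := by
      rw [inner_add_right, inner_sub_right, inner_smul_right, inner_smul_right, hqb1,
        real_inner_comm D.e (q t)]
      ring
    rw [e1]
    refine (abs_sub _ _).trans (add_le_add ?_ (le_of_eq ?_))
    · exact (abs_real_inner_le_norm _ _).trans (mul_le_mul_of_nonneg_left hpiv hn.le)
    · rw [abs_mul, abs_of_nonneg (by positivity :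
        (0 : ℝ) ≤ 2 * D.a * D.c * D.kap * (t - D.t0))]
  have T3 := third hn.le hP0 hc hkap hOk.kap2 num4 hk1 hpn hatau hQ2 hy0 hrot hγ hLc hV1
  have hV2 : |inner ℝ (q t) (D.B t (D.p t))| ≤ ‖q t‖ * (D.Lam * ‖D.p t‖) :=
    (abs_real_inner_le_norm _ _).trans (mul_le_mul_of_nonneg_left
      (((D.B t).le_opNorm _).trans (mul_le_mul_of_nonneg_right (hOk.Bb t ht) (norm_nonneg _)))
      hn.le)
  have T2 := second p3 hn.le hL n2 n1 hV2 hQ2
  have hgb : D.g t = ‖D.b1 t‖ ^ 2 := rfl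
  have hg1 : |1 / D.g t - 1| ≤ 6 * (2 * (D.Lam * (t - D.t0))) := by
    rw [hgb]; exact inv_close hbn hbn4
  have hXZ : |inner ℝ (q t) (D.B t (D.b1 t)) -
      inner ℝ D.e (q t) * (D.kap * (D.k2 t + D.c))| ≤ ‖q t‖ * (3 * (1 / D.y ^ 13)) := by
    have e1 : inner ℝ (q t) (D.B t (D.b1 t)) - inner ℝ D.e (q t) * (D.kap * (D.k2 t + D.c)) =
        (inner ℝ (q t) (D.B t (D.b1 t)) - inner ℝ (q t) (D.B D.t0 (D.b1 D.t0))) +
        (inner ℝ (q t) (D.B D.t0 (D.b1 D.t0)) -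
          inner ℝ D.e (q t) * (D.kap * (D.k2 t + D.c))) := by ring
    rw [e1]
    refine (abs_add_le _ _).trans ((add_le_add A5 A4).trans ?_)
    have e2 : ‖q t‖ * (4 * (D.Lam ^ 2 * (t - D.t0))) +
        (D.Lam * (‖q t‖ * (2 * D.Lam * (t - D.t0))) + D.kap * (‖q t‖ * (1 / D.y ^ 13))) =
        ‖q t‖ * (6 * (D.Lam ^ 2 * (t - D.t0)) + D.kap * (1 / D.y ^ 13)) := by ring
    rw [e2]
    apply mul_le_mul_of_nonneg_left _ hn.le
    have e3 : D.kap * (1 / D.y ^ 13) ≤ 2 * (1 / D.y ^ 13) :=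
      mul_le_mul_of_nonneg_right hOk.kap2 (by positivity)
    linarith
  have T1 : |P / D.g t * inner ℝ (q t) (D.B t (D.b1 t)) -
      P * (inner ℝ D.e (q t) * (D.kap * (D.k2 t + D.c)))| ≤ (‖q t‖ * (4 * (1 / D.y ^ 13))) * P := by
    refine first hP0 hg1 A6 hXZ ?_
    have e1 : 6 * (2 * (D.Lam * (t - D.t0))) * (‖q t‖ * (D.Lam * 2)) +
        ‖q t‖ * (3 * (1 / D.y ^ 13)) = ‖q t‖ * (24 * (D.Lam ^ 2 * (t - D.t0)) +
          3 * (1 / D.y ^ 13)) := by ring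
    rw [e1]
    apply mul_le_mul_of_nonneg_left _ hn.le
    linarith
  -- the formula
  have hkw : inner ℝ (D.k t) (w t) = -(Q / ‖D.p t‖ ^ 2) := by
    rw [hw, inner_sub_right, inner_smul_right, inner_smul_right, (hE D hOk).1 t, dp2]
    ring
  have hI : inner ℝ (q t) (D.M t (w t)) = P / D.g t * inner ℝ (q t) (D.B t (D.b1 t)) -
      Q / ‖D.p t‖ ^ 2 * inner ℝ (q t) (D.B t (D.p t)) - Q / ‖D.p t‖ ^ 2 * inner ℝ (q t) (D.v t) := by
    rw [M_apply, inner_add_right, inner_smul_right, hkw]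
    have e1 : inner ℝ (q t) (D.B t (w t)) = P / D.g t * inner ℝ (q t) (D.B t (D.b1 t)) -
        Q / ‖D.p t‖ ^ 2 * inner ℝ (q t) (D.B t (D.p t)) := by
      conv_lhs => rw [hw]
      rw [map_sub, map_smul, map_smul, inner_sub_right, inner_smul_right, inner_smul_right]
    rw [e1]
    ring
  have habs : ∀ V : ℝ, |Q / ‖D.p t‖ ^ 2 * V| = |Q| / ‖D.p t‖ ^ 2 * |V| := by
    intro V
    rw [abs_mul, abs_div, abs_of_nonneg (sq_nonneg ‖D.p t‖)]
  have hItot : |inner ℝ (q t) (D.M t (w t)) - P * (inner ℝ D.e (q t) *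
      (D.kap * (D.k2 t + D.c)))| ≤ (246 * (1 / D.y ^ 13) + 40 * D.c ^ 2) * (‖q t‖ * P) := by
    have e1 : inner ℝ (q t) (D.M t (w t)) - P * (inner ℝ D.e (q t) * (D.kap * (D.k2 t + D.c))) =
        (P / D.g t * inner ℝ (q t) (D.B t (D.b1 t)) -
          P * (inner ℝ D.e (q t) * (D.kap * (D.k2 t + D.c)))) -
        Q / ‖D.p t‖ ^ 2 * inner ℝ (q t) (D.B t (D.p t)) -
        Q / ‖D.p t‖ ^ 2 * inner ℝ (q t) (D.v t) := by rw [hI]; ring
    rw [e1]
    rw [← habs] at T2 T3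
    refine (abs_sub _ _).trans ((add_le_add ((abs_sub _ _).trans (add_le_add T1 T2)) T3).trans ?_)
    · have e2 : ‖q t‖ * (4 * (1 / D.y ^ 13)) * P + 1 / D.y ^ 13 * (‖q t‖ * P) +
          (40 * D.c ^ 2 + 240 * (1 / D.y ^ 13)) * (‖q t‖ * P) =
          (245 * (1 / D.y ^ 13) + 40 * D.c ^ 2) * (‖q t‖ * P) := by ring
      rw [e2]
      apply mul_le_mul_of_nonneg_right _ (by positivity)
      have : 0 ≤ 1 / D.y ^ 13 := by positivity
      linarith
  -- the norm of `w`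
  have hPw : inner ℝ (D.b1 t) (w t) = P := rfl
  have hQe : |Q| ≤ (1 / D.y ^ 16) * P := by
    rw [one_div_mul_eq_div, le_div_iff₀ (by positivity)]
    exact hQ2
  have hwn := w_norm hbn hbn4 hP0 hPw p3 hQe hw
  have h16 : 1 / D.y ^ 16 ≤ 1 / D.y ^ 13 :=
    one_div_le_one_div_of_le (by positivity)
      (pow_le_pow_right₀ (by linarith) (by norm_num))
  have hwn' : |‖w t‖ - P| ≤ 4 * (1 / D.y ^ 13) * P := by
    refine hwn.trans (mul_le_mul_of_nonneg_right ?_ hP0.le)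
    linarith
  have hdir : |(|inner ℝ D.e (q t)| * Real.sqrt (1 + D.k2 t ^ 2)) - ‖q t‖| ≤
      2 * (1 / D.y ^ 13) * ‖q t‖ := by
    refine A3.trans ?_
    have e1 : ‖q t‖ * (2 * D.Lam * (t - D.t0)) + ‖q t‖ * (1 / D.y ^ 13) =
        (2 * (D.Lam * (t - D.t0)) + 1 / D.y ^ 13) * ‖q t‖ := by ring
    rw [e1]
    apply mul_le_mul_of_nonneg_right _ hn.le
    linarith
  obtain ⟨r1, r2⟩ := ratio num4 hc (by linarith : 0 < D.k2 t)
  refine ⟨finish hc hOk.c1 hkap hOk.kap2 hn.le hP0 (by positivity) num6 hItot hdir r1 r2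
    (Real.sqrt_nonneg _) hwn', ?_⟩
  intro h0
  rw [h0, norm_zero, zero_sub, abs_neg, abs_of_pos hP0] at hwn'
  have h1 : 4 * (1 / D.y ^ 13) * P ≤ 4 * (1 / 8) * P := by
    apply mul_le_mul_of_nonneg_right _ hP0.le
    have h2 : D.c ^ 2 ≤ 1 := pow_le_one₀ hc.le (hOk.c1.trans (by norm_num))
    linarith
  linarith

end Pool.Agent.Work.MP_b0497c_an.Forced.Ode

end

section

set_option autoImplicit false

/-!
# ODE module, item K2: the new tilt
-/

open scoped ContDiff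
open Set ContinuousLinearMap

namespace Pool.Agent.Work.MP_b0497c_an.Forced.Ode

namespace Close2

theorem ro_apply (v k x : E3) : ro v k x = (inner ℝ k x) • v := rfl

/-- The exact expansion. -/
theorem expand (b p v k w : E3) (B : Op) (P Q : ℝ) (hkb : inner ℝ k b = 0)
    (hkp : inner ℝ k p = 1) (hw : w = (P / ‖b‖ ^ 2) • b - (Q / ‖p‖ ^ 2) • p) :
    inner ℝ (-(P • p + Q • b)) (B w + (inner ℝ k w) • v) =
      -(P ^ 2 / ‖b‖ ^ 2 * inner ℝ p (B b)) + P * Q / ‖p‖ ^ 2 * inner ℝ p (B p)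
      - Q * P / ‖b‖ ^ 2 * inner ℝ b (B b) + Q ^ 2 / ‖p‖ ^ 2 * inner ℝ b (B p)
      + Q * P / ‖p‖ ^ 2 * inner ℝ p v + Q ^ 2 / ‖p‖ ^ 2 * inner ℝ b v := by
  have h1 : inner ℝ k w = -(Q / ‖p‖ ^ 2) := by
    rw [hw, inner_sub_right, inner_smul_right, inner_smul_right, hkb, hkp]
    ring
  rw [h1, hw]
  simp only [map_sub, map_smul, inner_neg_left, inner_add_left, inner_add_right, inner_sub_right,
    inner_smul_left, inner_smul_right, conj_trivial]
  ring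

theorem norm_N (b p : E3) (P Q : ℝ) (hbp : inner ℝ b p = 0) :
    ‖-(P • p + Q • b)‖ ^ 2 = P ^ 2 * ‖p‖ ^ 2 + Q ^ 2 * ‖b‖ ^ 2 := by
  rw [norm_neg, norm_add_sq_real, norm_smul, norm_smul, inner_smul_left, inner_smul_right,
    real_inner_comm, hbp, mul_pow, mul_pow, Real.norm_eq_abs, Real.norm_eq_abs, sq_abs, sq_abs]
  simp

theorem norm_w (b p w : E3) (P Q : ℝ) (hb : b ≠ 0) (hp : p ≠ 0) (hbp : inner ℝ b p = 0)
    (hw : w = (P / ‖b‖ ^ 2) • b - (Q / ‖p‖ ^ 2) • p) :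
    ‖w‖ ^ 2 = P ^ 2 / ‖b‖ ^ 2 + Q ^ 2 / ‖p‖ ^ 2 := by
  have hb' : ‖b‖ ≠ 0 := norm_ne_zero_iff.mpr hb
  have hp' : ‖p‖ ≠ 0 := norm_ne_zero_iff.mpr hp
  rw [hw, norm_sub_sq_real, norm_smul, norm_smul, inner_smul_left, inner_smul_right, hbp,
    mul_pow, mul_pow, Real.norm_eq_abs, Real.norm_eq_abs, sq_abs, sq_abs]
  field_simp
  ring

theorem aux1 (r : ℝ) (h0 : 0 ≤ r) (h1 : r ≤ 3 / 2) : r ^ 2 ≤ 9 / 4 := by nlinarith

theorem aux2 (p : ℝ) (h : 1 / 2 ≤ p) : p ≤ 2 * p ^ 2 := by nlinarith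

theorem aux3 (k n : ℝ) (h : (1 + k ^ 2) * (1 / 2) ≤ n) : 1 + k ≤ 4 * n := by
  nlinarith [sq_nonneg (k - 1), sq_nonneg k]

/-- The main value. -/
theorem mainval (c y x r m : ℝ) (hc : 0 < c) (hc1 : c ≤ 1 / 10 ^ 8)
    (hy : 2 * 10 ^ 8 ≤ y) (hx : 1 ≤ x) (hxy : x ≤ y) (hr : 5 / 4 ≤ r)
    (hr2 : r ≤ 3 / 2) (hm : |m - (c ^ 2 + x ^ 4)| ≤ (c ^ 2 + x ^ 4) / y ^ 15) :
    x ^ 4 / 2 ≤ m ∧ |m - x ^ 4| ≤ x ^ 4 / 10 ^ 8 ∧
    |-(1 - x ^ 2) + 2 * x ^ 3 * (r * x ^ 2 - x ^ 3) / m + (r * x ^ 2 - x ^ 3) ^ 2 / m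
      - (r ^ 2 - 1)| ≤ 1 / 10 ^ 4 := by
  have hy0 : 0 < y := by linarith
  have hy1 : 1 ≤ y := by linarith
  have hx0 : 0 < x := by linarith
  have hx4 : 1 ≤ x ^ 4 := one_le_pow₀ hx
  have hcc : c ^ 2 ≤ 1 / 10 ^ 16 := by
    calc c ^ 2 ≤ (1 / 10 ^ 8) ^ 2 := by gcongr
      _ = 1 / 10 ^ 16 := by norm_num
  have hy15 : (c ^ 2 + x ^ 4) / y ^ 15 ≤ 2 * x ^ 4 / y ^ 15 := by
    gcongr
    linarith
  have hy15' : 1 / y ^ 15 ≤ 1 / (10 ^ 16 * y ^ 13) := by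
    apply one_div_le_one_div_of_le (by positivity)
    have h16 : (10 : ℝ) ^ 16 ≤ y ^ 2 := by
      calc (10 : ℝ) ^ 16 ≤ (2 * 10 ^ 8) ^ 2 := by norm_num
        _ ≤ y ^ 2 := by gcongr
    calc 10 ^ 16 * y ^ 13 ≤ y ^ 2 * y ^ 13 := by
          gcongr
      _ = y ^ 15 := by ring
  have hy13 : 1 / y ^ 13 ≤ 1 / (10 ^ 16 * x ^ 2) := by
    apply one_div_le_one_div_of_le (by positivity)
    calc 10 ^ 16 * x ^ 2 ≤ y ^ 11 * y ^ 2 := by
          have h1 : (10 : ℝ) ^ 16 ≤ y ^ 11 := by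
            calc (10 : ℝ) ^ 16 ≤ (2 * 10 ^ 8) ^ 11 := by norm_num
              _ ≤ y ^ 11 := by gcongr
          gcongr
      _ = y ^ 13 := by ring
  have hyx : 1 / y ^ 15 ≤ 1 / 10 ^ 16 * (1 / 10 ^ 16 * (1 / x ^ 2)) := by
    calc 1 / y ^ 15 ≤ 1 / (10 ^ 16 * y ^ 13) := hy15'
      _ = 1 / 10 ^ 16 * (1 / y ^ 13) := by ring
      _ ≤ 1 / 10 ^ 16 * (1 / (10 ^ 16 * x ^ 2)) := by gcongr
      _ = 1 / 10 ^ 16 * (1 / 10 ^ 16 * (1 / x ^ 2)) := by ring
  have hx2 : 1 / x ^ 2 ≤ 1 := by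
    rw [div_le_one (by positivity)]
    exact one_le_pow₀ hx
  have hd : |m - x ^ 4| ≤ c ^ 2 + 2 * x ^ 4 / y ^ 15 := by
    have h1 : m - x ^ 4 = (m - (c ^ 2 + x ^ 4)) + c ^ 2 := by ring
    rw [h1]
    refine (abs_add_le _ _).trans ?_
    rw [abs_of_nonneg (sq_nonneg c)]
    linarith
  have hd2 : |m - x ^ 4| ≤ x ^ 4 / x ^ 2 * (1 / 10 ^ 8) := by
    refine hd.trans ?_
    have h1 : 2 * x ^ 4 / y ^ 15 ≤ 2 * x ^ 4 * (1 / 10 ^ 16 * (1 / 10 ^ 16 * (1 / x ^ 2))) := by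
      have : 2 * x ^ 4 / y ^ 15 = 2 * x ^ 4 * (1 / y ^ 15) := by ring
      rw [this]
      gcongr
    have h2 : x ^ 4 / x ^ 2 = x ^ 2 := by field_simp
    have h3 : 2 * x ^ 4 * (1 / 10 ^ 16 * (1 / 10 ^ 16 * (1 / x ^ 2))) = 2 / 10 ^ 32 * x ^ 2 := by
      field_simp
    have h4 : 1 ≤ x ^ 2 := one_le_pow₀ hx
    rw [h2]
    rw [h3] at h1
    have h5 : c ^ 2 ≤ 1 / 10 ^ 16 * x ^ 2 := by
      calc c ^ 2 ≤ 1 / 10 ^ 16 * 1 := by linarith
        _ ≤ 1 / 10 ^ 16 * x ^ 2 := by gcongr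
    have h6 : 1 / 10 ^ 16 * x ^ 2 + 2 / 10 ^ 32 * x ^ 2 ≤ x ^ 2 * (1 / 10 ^ 8) := by
      have : 0 ≤ x ^ 2 := by positivity
      linarith
    linarith
  have hd3 : |m - x ^ 4| ≤ x ^ 4 / 10 ^ 8 := by
    refine hd2.trans ?_
    have : x ^ 4 / x ^ 2 * (1 / 10 ^ 8) = x ^ 4 * (1 / x ^ 2) / 10 ^ 8 := by ring
    rw [this]
    have : x ^ 4 * (1 / x ^ 2) ≤ x ^ 4 * 1 := by gcongr
    linarith [this]
  have hmlow : x ^ 4 / 2 ≤ m := by
    have := (abs_le.mp hd3).1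
    have h0 : 0 ≤ x ^ 4 := by positivity
    linarith
  refine ⟨hmlow, hd3, ?_⟩
  have hm0 : 0 < m := by
    have : 0 < x ^ 4 := by positivity
    linarith
  have hid : -(1 - x ^ 2) + 2 * x ^ 3 * (r * x ^ 2 - x ^ 3) / m + (r * x ^ 2 - x ^ 3) ^ 2 / m
      - (r ^ 2 - 1) = (x ^ 2 - r ^ 2) * (m - x ^ 4) / m := by
    field_simp
    ring
  rw [hid, abs_div, abs_mul, abs_of_pos hm0, div_le_iff₀ hm0]
  have h1 : |x ^ 2 - r ^ 2| ≤ 4 * x ^ 2 := by
    rw [abs_le]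
    have : 1 ≤ x ^ 2 := one_le_pow₀ hx
    have := aux1 r (by linarith) hr2
    have := sq_nonneg r
    constructor <;> linarith
  calc |x ^ 2 - r ^ 2| * |m - x ^ 4| ≤ (4 * x ^ 2) * (x ^ 4 / x ^ 2 * (1 / 10 ^ 8)) := by
        gcongr
    _ = 4 / 10 ^ 8 * x ^ 4 := by
        field_simp
    _ ≤ 1 / 10 ^ 4 * (x ^ 4 / 2) := by
        have : 0 ≤ x ^ 4 := by positivity
        linarith
    _ ≤ 1 / 10 ^ 4 * m := by gcongr

/-- All the terms together. -/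
theorem total (c y x r m n2 σ κ a τ Lam k2 h ga g A2 A3 A4 A5 A6 np : ℝ)
    (hc : 0 < c) (hc1 : c ≤ 1 / 10 ^ 8)
    (hy : 2 * 10 ^ 8 ≤ y) (hx : 1 ≤ x) (hxy : x ≤ y) (hr : 5 / 4 ≤ r)
    (hr2 : r ≤ 3 / 2) (hm : |m - (c ^ 2 + x ^ 4)| ≤ (c ^ 2 + x ^ 4) / y ^ 15)
    (hmn : m = c ^ 2 * n2) (hσ : 0 < σ) (hσ1 : σ ≤ 2 / y ^ 19) (hσ2 : σ ^ 2 * a = κ / c ^ 2)
    (hσ3 : σ * a * τ = x / c ^ 2) (hκ1 : 1 / 2 ≤ κ) (hκ2 : κ ≤ 2) (hk2 : k2 = x ^ 2 / c)
    (hh : h = r * x ^ 2 - x ^ 3) (hL0 : 0 ≤ Lam) (hLy : Lam ≤ y) (hτ : 0 ≤ τ)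
    (hLτ : Lam * τ ≤ 1 / y ^ 18) (hcy : 1 / c ≤ y) (hxc : x / c ≤ y)
    (hga : |ga / κ - 2 * (1 - x ^ 2)| ≤ 1 / y ^ 12) (hn2 : n2 = np ^ 2) (hnp : 1 / 2 ≤ np)
    (hg : 0 < g) (hA2 : |A2| ≤ Lam * n2) (hA3 : |A3| ≤ Lam * g) (hA4 : |A4| ≤ 2 * Lam * np)
    (hA5 : |A5 - 2 * a * c * κ * τ * k2| ≤ 2 * a * c * κ * τ * ((1 + k2) / y ^ 16)
      + np * (60 * a * Lam ^ 2 * τ ^ 2))
    (hA6 : |A6 - a| ≤ 10 * a * Lam * τ) :
    |-(ga / 2) + σ * h / n2 * A2 - σ * h / g * A3 + (σ * h) ^ 2 / n2 * A4 + σ * h / n2 * A5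
      + (σ * h) ^ 2 / n2 * A6 - κ * (r ^ 2 - 1)| ≤ κ / 1000 ∧
    (σ * h) ^ 2 / n2 ≤ 1 / 10 ^ 8 := by
  obtain ⟨hm1, hm2, hm3⟩ := mainval c y x r m hc hc1 hy hx hxy hr hr2 hm
  have hy0 : 0 < y := by linarith
  have hy1 : 1 ≤ y := by linarith
  have hx0 : 0 < x := by linarith
  have hx4 : 1 ≤ x ^ 4 := one_le_pow₀ hx
  have hn20 : 0 < n2 := by rw [hn2]; positivity
  have hn2l : 1 / 4 ≤ n2 := by
    rw [hn2]
    calc (1 / 4 : ℝ) = (1 / 2) ^ 2 := by norm_num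
      _ ≤ np ^ 2 := by gcongr
  have hm0 : 0 < m := by linarith
  have hh1 : |h| ≤ 2 * x ^ 3 := by
    have h1 : 1 ≤ x ^ 2 := one_le_pow₀ hx
    have h2 : x ^ 2 ≤ x ^ 3 := by
      calc x ^ 2 = x ^ 2 * 1 := by ring
        _ ≤ x ^ 2 * x := by gcongr
        _ = x ^ 3 := by ring
    have h3 : r * x ^ 2 ≤ 3 / 2 * x ^ 2 := by gcongr
    have h4 : 0 ≤ r * x ^ 2 := mul_nonneg (by linarith) (by positivity)
    have h5 : 0 ≤ x ^ 3 := by positivity
    rw [hh, abs_le]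
    constructor <;> linarith
  have hh2 : |h| ≤ 2 * y ^ 3 := hh1.trans (by gcongr)
  have hs : |σ * h| ≤ 4 / y ^ 16 := by
    rw [abs_mul, abs_of_pos hσ]
    calc σ * |h| ≤ (2 / y ^ 19) * (2 * y ^ 3) := by gcongr
      _ = 4 / y ^ 16 := by field_simp; norm_num
  -- a small number
  obtain ⟨ε, hε⟩ : ∃ ε, ε = 1 / y ^ 12 := ⟨_, rfl⟩
  have hε0 : 0 < ε := by rw [hε]; positivity
  have hε1 : ε ≤ 1 / 10 ^ 20 := by
    rw [hε]
    apply one_div_le_one_div_of_le (by positivity)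
    calc (10 : ℝ) ^ 20 ≤ (2 * 10 ^ 8) ^ 12 := by norm_num
      _ ≤ y ^ 12 := by gcongr
  have hsL : |σ * h| * Lam ≤ 4 * ε := by
    calc |σ * h| * Lam ≤ (4 / y ^ 16) * y := by gcongr
      _ = 4 * (1 / y ^ 15) := by field_simp
      _ ≤ 4 * (1 / y ^ 12) := by
          gcongr
          · norm_num
      _ = 4 * ε := by rw [hε]
  have hs2 : |σ * h| ≤ 4 * ε := by
    calc |σ * h| ≤ 4 / y ^ 16 := hs
      _ = 4 * (1 / y ^ 16) := by ring
      _ ≤ 4 * (1 / y ^ 12) := by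
          gcongr
          · norm_num
      _ = 4 * ε := by rw [hε]
  have hs3 : (σ * h) ^ 2 ≤ 4 * ε := by
    rw [← sq_abs]
    have h1 : |σ * h| ≤ 1 := hs2.trans (by linarith)
    calc |σ * h| ^ 2 = |σ * h| * |σ * h| := by ring
      _ ≤ (4 * ε) * 1 := by gcongr
      _ = 4 * ε := by ring
  refine ⟨?_, ?_⟩
  · -- the terms
    have T0 : |-(ga / 2) - κ * -(1 - x ^ 2)| ≤ κ * ε := by
      have h1 : -(ga / 2) - κ * -(1 - x ^ 2) = -(κ / 2) * (ga / κ - 2 * (1 - x ^ 2)) := by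
        field_simp
        ring
      rw [h1, abs_mul, abs_neg, abs_of_pos (by positivity), hε]
      calc κ / 2 * |ga / κ - 2 * (1 - x ^ 2)| ≤ κ / 2 * (1 / y ^ 12) := by gcongr
        _ ≤ κ * (1 / y ^ 12) := by
            gcongr
            linarith
    have T2 : |σ * h / n2 * A2| ≤ 4 * ε := by
      rw [abs_mul, abs_div, abs_of_pos hn20]
      calc |σ * h| / n2 * |A2| ≤ |σ * h| / n2 * (Lam * n2) := by gcongr
        _ = |σ * h| * Lam := by field_simp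
        _ ≤ 4 * ε := hsL
    have T3 : |σ * h / g * A3| ≤ 4 * ε := by
      rw [abs_mul, abs_div, abs_of_pos hg]
      calc |σ * h| / g * |A3| ≤ |σ * h| / g * (Lam * g) := by gcongr
        _ = |σ * h| * Lam := by field_simp
        _ ≤ 4 * ε := hsL
    have T4 : |(σ * h) ^ 2 / n2 * A4| ≤ 16 * ε := by
      rw [abs_mul, abs_div, abs_of_pos hn20, abs_of_nonneg (sq_nonneg _), ← sq_abs]
      have hnp0 : 0 < np := by linarith
      have h1 : np / n2 ≤ 2 := by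
        rw [hn2, div_le_iff₀ (by positivity)]
        exact aux2 np hnp
      have h2 : |σ * h| ≤ 1 := hs2.trans (by linarith)
      calc |σ * h| ^ 2 / n2 * |A4| ≤ |σ * h| ^ 2 / n2 * (2 * Lam * np) := by gcongr
        _ = 2 * (|σ * h| * Lam) * |σ * h| * (np / n2) := by ring
        _ ≤ 2 * (4 * ε) * 1 * 2 := by gcongr
        _ = 16 * ε := by ring
    have T5 : |σ * h / n2 * A5 - κ * (2 * x ^ 3 * h / m)| ≤ 1000 * ε := by
      have h1 : σ * h / n2 * (2 * a * c * κ * τ * k2) = κ * (2 * x ^ 3 * h / m) := by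
        have : σ * h / n2 * (2 * a * c * κ * τ * k2) = (σ * a * τ) * (2 * c * κ * k2 * h / n2) := by
          ring
        rw [this, hσ3, hk2, hmn]
        field_simp
      rw [← h1, ← mul_sub, abs_mul, abs_div, abs_of_pos hn20]
      have hnp0 : 0 < np := by linarith
      have h2 : |σ * h| / n2 * |A5 - 2 * a * c * κ * τ * k2| ≤
          |σ * h| / n2 * (2 * a * c * κ * τ * ((1 + k2) / y ^ 16)
            + np * (60 * a * Lam ^ 2 * τ ^ 2)) := by gcongr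
      refine h2.trans ?_
      rw [abs_mul, abs_of_pos hσ]
      have h3 : σ * |h| / n2 * (2 * a * c * κ * τ * ((1 + k2) / y ^ 16)
            + np * (60 * a * Lam ^ 2 * τ ^ 2)) =
          (σ * a * τ) * (2 * c * κ * |h| * ((1 + k2) / n2) / y ^ 16)
          + (σ * a * τ) * |h| * (60 * Lam * (Lam * τ)) * (np / n2) := by ring
      rw [h3, hσ3]
      have hk20 : 0 < k2 := by rw [hk2]; positivity
      have h4 : (1 + k2) / n2 ≤ 4 := by
        rw [div_le_iff₀ hn20]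
        have h5 : c ^ 2 * n2 ≥ (c ^ 2 + x ^ 4) * (1 / 2) := by
          rw [← hmn]
          have h6 := (abs_le.mp hm).1
          have h7 : (c ^ 2 + x ^ 4) / y ^ 15 ≤ (c ^ 2 + x ^ 4) * (1 / 2) := by
            rw [div_eq_mul_one_div]
            gcongr
            have : y ≤ y ^ 15 := le_self_pow₀ hy1 (by norm_num)
            linarith
          linarith
        have h6 : c ^ 2 * (1 + k2 ^ 2) = c ^ 2 + x ^ 4 := by
          rw [hk2]
          field_simp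
        rw [← h6] at h5
        have h7 : (1 + k2 ^ 2) * (1 / 2) ≤ n2 := by
          have : c ^ 2 * ((1 + k2 ^ 2) * (1 / 2)) ≤ c ^ 2 * n2 := by linarith
          exact le_of_mul_le_mul_left this (by positivity)
        exact aux3 k2 n2 h7
      have h5 : np / n2 ≤ 2 := by
        rw [hn2, div_le_iff₀ (by positivity)]
        exact aux2 np hnp
      have h6 : x / c ^ 2 * (2 * c * κ * |h| * ((1 + k2) / n2) / y ^ 16) ≤ 32 * ε := by
        calc x / c ^ 2 * (2 * c * κ * |h| * ((1 + k2) / n2) / y ^ 16)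
            = (x / c) * (2 * κ * |h| * ((1 + k2) / n2) / y ^ 16) := by field_simp
          _ ≤ y * (2 * 2 * (2 * y ^ 3) * 4 / y ^ 16) := by gcongr
          _ = 32 * (1 / y ^ 12) := by field_simp; norm_num
          _ = 32 * ε := by rw [hε]
      have h7 : x / c ^ 2 * |h| * (60 * Lam * (Lam * τ)) * (np / n2) ≤ 240 * ε := by
        calc x / c ^ 2 * |h| * (60 * Lam * (Lam * τ)) * (np / n2)
            = (x / c) * (1 / c) * |h| * (60 * Lam * (Lam * τ)) * (np / n2) := by field_simp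
          _ ≤ y * y * (2 * y ^ 3) * (60 * y * (1 / y ^ 18)) * 2 := by gcongr
          _ = 240 * (1 / y ^ 12) := by field_simp; norm_num
          _ = 240 * ε := by rw [hε]
      linarith
    have T6 : |(σ * h) ^ 2 / n2 * A6 - κ * (h ^ 2 / m)| ≤ 1000 * ε := by
      have h1 : (σ * h) ^ 2 / n2 * a = κ * (h ^ 2 / m) := by
        have : (σ * h) ^ 2 / n2 * a = (σ ^ 2 * a) * (h ^ 2 / n2) := by ring
        rw [this, hσ2, hmn]
        field_simp
      rw [← h1, ← mul_sub, abs_mul, abs_div, abs_of_pos hn20, abs_of_nonneg (sq_nonneg _)]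
      have hminv : 1 / m ≤ 2 := by
        rw [div_le_iff₀ hm0]
        linarith
      calc (σ * h) ^ 2 / n2 * |A6 - a| ≤ (σ * h) ^ 2 / n2 * (10 * a * Lam * τ) := by gcongr
        _ = ((σ * h) ^ 2 / n2 * a) * (10 * (Lam * τ)) := by ring
        _ = κ * (|h| ^ 2 * (1 / m)) * (10 * (Lam * τ)) := by
            rw [h1, sq_abs]; ring
        _ ≤ 2 * ((2 * y ^ 3) ^ 2 * 2) * (10 * (1 / y ^ 18)) := by gcongr
        _ = 160 * (1 / y ^ 12) := by field_simp; norm_num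
        _ = 160 * ε := by rw [hε]
        _ ≤ 1000 * ε := by linarith
    have T7 : |κ * -(1 - x ^ 2) + κ * (2 * x ^ 3 * h / m) + κ * (h ^ 2 / m)
        - κ * (r ^ 2 - 1)| ≤ κ * (1 / 10 ^ 4) := by
      have h1 : κ * -(1 - x ^ 2) + κ * (2 * x ^ 3 * h / m) + κ * (h ^ 2 / m)
        - κ * (r ^ 2 - 1) = κ * (-(1 - x ^ 2) + 2 * x ^ 3 * (r * x ^ 2 - x ^ 3) / m
          + (r * x ^ 2 - x ^ 3) ^ 2 / m - (r ^ 2 - 1)) := by
        rw [hh]; ring
      rw [h1, abs_mul, abs_of_pos (by positivity)]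
      gcongr
    have e0 := abs_le.mp T0
    have e2 := abs_le.mp T2
    have e3 := abs_le.mp T3
    have e4 := abs_le.mp T4
    have e5 := abs_le.mp T5
    have e6 := abs_le.mp T6
    have e7 := abs_le.mp T7
    have hκε : κ * ε ≤ 2 * ε := by gcongr
    rw [abs_le]
    constructor <;> linarith
  · rw [div_le_iff₀ hn20]
    linarith

theorem numU (β s2 ρ : ℝ) (hβ : |β - 1| ≤ 1 / 10 ^ 8) (hρ : |ρ ^ 2 - 1| ≤ 1 / 10 ^ 8)
    (hρ0 : 0 < ρ) (hs : 0 ≤ s2) (hs2 : s2 ≤ 1 / 10 ^ 8) :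
    999 / 1000 ≤ ρ * (1 / β + β * s2) ∧ ρ * (1 / β + β * s2) ≤ 1001 / 1000 := by
  obtain ⟨h1, h2⟩ := abs_le.mp hβ
  obtain ⟨h3, h4⟩ := abs_le.mp hρ
  have hβ0 : 0 < β := by linarith
  have hρ1 : 9999 / 10000 ≤ ρ := by
    by_contra h
    push Not at h
    nlinarith
  have hρ2 : ρ ≤ 10001 / 10000 := by
    by_contra h
    push Not at h
    nlinarith
  have hb1 : 9999 / 10000 ≤ 1 / β := by
    rw [le_div_iff₀ hβ0]
    linarith
  have hb2 : 1 / β ≤ 10001 / 10000 := by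
    rw [div_le_iff₀ hβ0]
    linarith
  have hs3 : 0 ≤ β * s2 := by positivity
  have hs4 : β * s2 ≤ 1 / 10 ^ 7 := by
    calc β * s2 ≤ 2 * (1 / 10 ^ 8) := by
          gcongr
          linarith
      _ ≤ 1 / 10 ^ 7 := by norm_num
  constructor
  · calc (999 / 1000 : ℝ) ≤ 9999 / 10000 * (9999 / 10000) := by norm_num
      _ ≤ ρ * (1 / β + β * s2) := by
          gcongr
          linarith
  · calc ρ * (1 / β + β * s2) ≤ 10001 / 10000 * (10001 / 10000 + 1 / 10 ^ 7) := by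
          gcongr
      _ ≤ 1001 / 1000 := by norm_num

theorem numLow (κ r R U : ℝ) (hκ : 0 < κ) (hr : 5 / 4 ≤ r) (hR : |R - κ * (r ^ 2 - 1)| ≤ κ / 1000)
    (hU : U ≤ 1001 / 1000) : 11 / 20 * κ * U ≤ R := by
  have h1 := (abs_le.mp hR).1
  have h2 : 9 / 16 ≤ r ^ 2 - 1 := by nlinarith
  have h3 : κ * (9 / 16) ≤ κ * (r ^ 2 - 1) := by gcongr
  have h4 : 11 / 20 * κ * U ≤ 11 / 20 * κ * (1001 / 1000) := by gcongr
  linarith

theorem numHigh (κ r R U : ℝ) (hκ : 0 < κ) (hr0 : 0 ≤ r) (hr : r ≤ 3 / 2)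
    (hR : |R - κ * (r ^ 2 - 1)| ≤ κ / 1000) (hU : 999 / 1000 ≤ U) : R ≤ 13 / 10 * κ * U := by
  have h1 := (abs_le.mp hR).2
  have h2 : r ^ 2 - 1 ≤ 5 / 4 := by
    have := aux1 r hr0 hr
    linarith
  have h3 : κ * (r ^ 2 - 1) ≤ κ * (5 / 4) := by gcongr
  have h4 : 13 / 10 * κ * (999 / 1000) ≤ 13 / 10 * κ * U := by gcongr
  linarith

end Close2

open Close2 in
/-- K2: closing of the induction, second part: the new tilt. -/
theorem prf_StClose2 (hN : StPar) (hS : StSpan) (hE : StExact) (hD : StPder) (hB : StBounds)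
    (hV : StPiv) (hP : StP) (hT : StCoef) : StClose2 := by
  intro D hOk t w q htI hx1 hq hqb1 hqb2 hqw hY hW1 hW2 hw
  obtain ⟨hy, hLy, hXy, hcy, hXcy, ha, hom, hT0, hya, hyak, hLT, hT1, hT2, haT, hx0, hx04, hx0',
    hx0'', ht0s, hst, htT, hxs0, hxtf, hI⟩ := hN D hOk
  obtain ⟨hτ0, hτT, hx0t, hxX, hxk2, hk20, hk2X, -⟩ := hI t htI
  obtain ⟨hkb, hkb2, -, -, -, -⟩ := hE D hOk
  obtain ⟨hb1, hb2, hk1, hk2, hv1, hv2, hb3, hB1, hb4, hb5, hk3, hv3, hv4⟩ := hB D hOk t htI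
  have hbne : D.b1 t ≠ 0 := by
    intro h
    rw [h, norm_zero] at hb1
    norm_num at hb1
  obtain ⟨hbp, hkp, -⟩ := hD D hOk t hbne
  have hpiv := hV D hOk t htI
  obtain ⟨hp1, hp2, hp3⟩ := hP D hOk t htI
  obtain ⟨-, hGh⟩ := hT D hOk t htI
  have hpne : D.p t ≠ 0 := by
    intro h
    rw [h, norm_zero] at hp3
    norm_num at hp3
  have hc := hOk.c0
  have hc1 := hOk.c1
  have hL1 := hOk.L1
  have hκ1 := hOk.kap1
  have hκ2 := hOk.kap2
  have hκ0 : 0 < D.kap := by linarith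
  have hy0 : 0 < D.y := by linarith
  have hy1 : 1 ≤ D.y := by linarith
  have hxpos : 0 < D.x t := by linarith
  -- real parameters
  obtain ⟨σ, hσ⟩ : ∃ σ, σ = (D.c * Real.sqrt (D.a / D.kap))⁻¹ := ⟨_, rfl⟩
  have hs1 : 0 < Real.sqrt (D.a / D.kap) := Real.sqrt_pos.mpr (by positivity)
  have hs1' : 0 < Real.sqrt (D.a * D.kap) := Real.sqrt_pos.mpr (by positivity)
  have hs2 : Real.sqrt (D.a / D.kap) ^ 2 = D.a / D.kap := Real.sq_sqrt (by positivity)
  have hs3 : Real.sqrt (D.a / D.kap) * Real.sqrt (D.a * D.kap) = D.a := by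
    rw [← Real.sqrt_mul (by positivity)]
    have : D.a / D.kap * (D.a * D.kap) = D.a ^ 2 := by field_simp
    rw [this, Real.sqrt_sq ha.le]
  have hs4 : D.y ^ 20 / 2 ≤ Real.sqrt (D.a / D.kap) := by
    apply Real.le_sqrt_of_sq_le
    rw [div_pow, le_div_iff₀ hκ0]
    have h1 : (D.y ^ 20) ^ 2 = D.y ^ 40 := by ring
    rw [h1]
    have h2 := hOk.big
    calc D.y ^ 40 / 2 ^ 2 * D.kap ≤ D.y ^ 40 / 2 ^ 2 * 2 := by gcongr
      _ ≤ D.y ^ 40 := by
          have : 0 ≤ D.y ^ 40 := by positivity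
          linarith
      _ ≤ D.a := h2
  have hσ0 : 0 < σ := by rw [hσ]; positivity
  have hσ1 : σ ≤ 2 / D.y ^ 19 := by
    rw [hσ, mul_inv]
    have h1 : (Real.sqrt (D.a / D.kap))⁻¹ ≤ (D.y ^ 20 / 2)⁻¹ := by gcongr
    have h2 : D.c⁻¹ ≤ D.y := by rw [← one_div]; exact hcy
    calc D.c⁻¹ * (Real.sqrt (D.a / D.kap))⁻¹ ≤ D.y * (D.y ^ 20 / 2)⁻¹ := by gcongr
      _ = 2 / D.y ^ 19 := by field_simp
  have hσ2 : σ ^ 2 * D.a = D.kap / D.c ^ 2 := by
    rw [hσ, inv_pow, mul_pow, hs2]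
    field_simp
  have hxτ : D.x t = D.c * Real.sqrt (D.a * D.kap) * (t - D.t0) := rfl
  have hσ3 : σ * D.a * (t - D.t0) = D.x t / D.c ^ 2 := by
    rw [hσ, hxτ]
    rw [mul_inv]
    rw [eq_div_iff (by positivity)]
    have h1 : (Real.sqrt (D.a / D.kap))⁻¹ * D.a = Real.sqrt (D.a * D.kap) := by
      rw [inv_mul_eq_div, div_eq_iff hs1.ne', mul_comm]
      exact hs3.symm
    calc D.c⁻¹ * (Real.sqrt (D.a / D.kap))⁻¹ * D.a * (t - D.t0) * D.c ^ 2
        = (D.c⁻¹ * D.c) * D.c * ((Real.sqrt (D.a / D.kap))⁻¹ * D.a) * (t - D.t0) := by ring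
      _ = D.c * Real.sqrt (D.a * D.kap) * (t - D.t0) := by
          rw [h1, inv_mul_cancel₀ hc.ne', one_mul]
  have hk2eq : D.k2 t = D.x t ^ 2 / D.c := by
    rw [hxk2]; field_simp
  -- P, Q, r
  obtain ⟨P, hPd⟩ : ∃ P, P = D.P w t := ⟨_, rfl⟩
  obtain ⟨Q, hQd⟩ : ∃ Q, Q = D.Q w t := ⟨_, rfl⟩
  have hYd : D.Y w t = D.x t * P := by rw [hPd]; rfl
  have hWd : D.W w t = D.c * Real.sqrt (D.a / D.kap) * Q / D.x t + D.x t ^ 2 * P := by
    rw [hPd, hQd]; rfl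
  rw [← hPd, ← hQd] at hw
  have hPpos : 0 < P := by
    rw [hYd] at hY
    exact (mul_pos_iff_of_pos_left hxpos).mp hY
  obtain ⟨r, hr⟩ : ∃ r, r = D.W w t / D.Y w t := ⟨_, rfl⟩
  have hr1 : 5 / 4 ≤ r := by rw [hr, le_div_iff₀ hY]; exact hW1
  have hr2 : r ≤ 3 / 2 := by rw [hr, div_le_iff₀ hY]; exact hW2
  have hWr : D.W w t = r * (D.x t * P) := by rw [hr, ← hYd]; field_simp
  obtain ⟨h, hh⟩ : ∃ h, h = r * D.x t ^ 2 - D.x t ^ 3 := ⟨_, rfl⟩
  have hQh : D.c * Real.sqrt (D.a / D.kap) * Q = P * h := by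
    have h1 : D.c * Real.sqrt (D.a / D.kap) * Q =
        D.x t * (D.c * Real.sqrt (D.a / D.kap) * Q / D.x t) := by
      rw [mul_div_cancel₀ _ hxpos.ne']
    rw [h1]
    have h2 : D.c * Real.sqrt (D.a / D.kap) * Q / D.x t = D.W w t - D.x t ^ 2 * P := by
      rw [hWd]; ring
    rw [h2, hWr, hh]
    ring
  have hQ : Q = P * (σ * h) := by
    have h1 : Q = σ * (D.c * Real.sqrt (D.a / D.kap) * Q) := by
      rw [hσ, ← mul_assoc, inv_mul_cancel₀ (by positivity), one_mul]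
    rw [h1, hQh]; ring
  -- quantities
  have hg0 : 0 < ‖D.b1 t‖ ^ 2 := by positivity
  have hp0 : 0 < ‖D.p t‖ := norm_pos_iff.mpr hpne
  have hLτ : D.Lam * (t - D.t0) ≤ 1 / D.y ^ 18 := by
    have h1 : D.Lam * (t - D.t0) ≤ D.Lam * D.T := by gcongr
    have h2 : D.Lam * D.T ≤ 1 / D.y ^ 18 := by
      rw [le_div_iff₀ (by positivity), mul_comm]
      exact hLT
    exact h1.trans h2
  have hBt : ‖D.B t‖ ≤ D.Lam := hOk.Bb t htI
  have hm : |D.c ^ 2 * ‖D.p t‖ ^ 2 - (D.c ^ 2 + D.x t ^ 4)| ≤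
      (D.c ^ 2 + D.x t ^ 4) / D.y ^ 15 := by
    have h1 : D.c ^ 2 * (1 + D.k2 t ^ 2) = D.c ^ 2 + D.x t ^ 4 := by
      rw [hk2eq]
      field_simp
    have h2 : D.c ^ 2 * ‖D.p t‖ ^ 2 - (D.c ^ 2 + D.x t ^ 4) =
        D.c ^ 2 * (‖D.p t‖ ^ 2 - (1 + D.k2 t ^ 2)) := by
      rw [← h1]; ring
    rw [h2, abs_mul, abs_of_nonneg (sq_nonneg D.c), ← h1, mul_div_assoc]
    exact mul_le_mul_of_nonneg_left hp2 (sq_nonneg _)
  have hcs : ∀ u z : E3, |inner ℝ u (D.B t z)| ≤ D.Lam * (‖u‖ * ‖z‖) := by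
    intro u z
    calc |inner ℝ u (D.B t z)| ≤ ‖u‖ * ‖D.B t z‖ := abs_real_inner_le_norm _ _
      _ ≤ ‖u‖ * (‖D.B t‖ * ‖z‖) := by
          gcongr
          exact le_opNorm _ _
      _ ≤ ‖u‖ * (D.Lam * ‖z‖) := by gcongr
      _ = D.Lam * (‖u‖ * ‖z‖) := by ring
  have hA2 : |inner ℝ (D.p t) (D.B t (D.p t))| ≤ D.Lam * ‖D.p t‖ ^ 2 := by
    have := hcs (D.p t) (D.p t)
    rwa [← sq] at this
  have hA3 : |inner ℝ (D.b1 t) (D.B t (D.b1 t))| ≤ D.Lam * ‖D.b1 t‖ ^ 2 := by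
    have := hcs (D.b1 t) (D.b1 t)
    rwa [← sq] at this
  have hL0 : 0 ≤ D.Lam := by linarith
  have hA4 : |inner ℝ (D.b1 t) (D.B t (D.p t))| ≤ 2 * D.Lam * ‖D.p t‖ := by
    refine (hcs (D.b1 t) (D.p t)).trans ?_
    calc D.Lam * (‖D.b1 t‖ * ‖D.p t‖) ≤ D.Lam * (2 * ‖D.p t‖) := by gcongr
      _ = 2 * D.Lam * ‖D.p t‖ := by ring
  have hA5 : |inner ℝ (D.p t) (D.v t) - 2 * D.a * D.c * D.kap * (t - D.t0) * D.k2 t| ≤
      2 * D.a * D.c * D.kap * (t - D.t0) * ((1 + D.k2 t) / D.y ^ 16)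
      + ‖D.p t‖ * (60 * D.a * D.Lam ^ 2 * (t - D.t0) ^ 2) := by
    obtain ⟨c2, hc2⟩ : ∃ c2, c2 = 2 * D.a * D.c * D.kap * (t - D.t0) := ⟨_, rfl⟩
    have hc20 : 0 ≤ c2 := by rw [hc2]; positivity
    obtain ⟨ν, hν⟩ : ∃ ν, ν = inner ℝ (D.b1 t) (D.v t) / D.g t := ⟨_, rfl⟩
    rw [← hc2, ← hν] at hpiv
    rw [← hc2]
    have h1 : inner ℝ (D.p t) (D.v t) =
        inner ℝ (D.p t) (D.v t - ν • D.b1 t + c2 • D.e) - c2 * inner ℝ (D.p t) D.e := by
      rw [inner_add_right, inner_sub_right, inner_smul_right, inner_smul_right,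
        real_inner_comm (D.b1 t) (D.p t)]
      rw [hbp]
      ring
    have h2 : inner ℝ (D.p t) D.e = -D.k2 t +
        inner ℝ (D.p t - (D.k D.t0 - D.k2 t • D.e)) D.e := by
      rw [inner_sub_left, inner_sub_left, inner_smul_left, real_inner_comm D.e (D.k D.t0), hOk.ek,
        real_inner_self_eq_norm_sq, hOk.e1, conj_trivial]
      ring
    have h3 : |inner ℝ (D.p t) (D.v t - ν • D.b1 t + c2 • D.e)| ≤
        ‖D.p t‖ * (60 * D.a * D.Lam ^ 2 * (t - D.t0) ^ 2) :=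
      (abs_real_inner_le_norm _ _).trans (mul_le_mul_of_nonneg_left hpiv (norm_nonneg _))
    have h4 : |inner ℝ (D.p t - (D.k D.t0 - D.k2 t • D.e)) D.e| ≤ (1 + D.k2 t) / D.y ^ 16 := by
      refine (abs_real_inner_le_norm _ _).trans ?_
      rw [hOk.e1, mul_one]
      exact hp1
    have h5 : inner ℝ (D.p t) (D.v t) - c2 * D.k2 t =
        inner ℝ (D.p t) (D.v t - ν • D.b1 t + c2 • D.e)
        - c2 * inner ℝ (D.p t - (D.k D.t0 - D.k2 t • D.e)) D.e := by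
      rw [h1, h2]; ring
    rw [h5]
    refine (abs_sub _ _).trans ?_
    rw [abs_mul, abs_of_nonneg hc20]
    have h6 := mul_le_mul_of_nonneg_left h4 hc20
    linarith
  have hA6 : |inner ℝ (D.b1 t) (D.v t) - D.a| ≤ 10 * D.a * D.Lam * (t - D.t0) := by
    have h0 : inner ℝ (D.b1 D.t0) (D.v D.t0) = D.a := by
      rw [hOk.b1_init, inner_smul_left, real_inner_self_eq_norm_sq, hOk.va, conj_trivial]
      field_simp
    have h00 : ‖D.b1 D.t0‖ = 1 := by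
      rw [hOk.b1_init, norm_smul, hOk.va, norm_inv, Real.norm_eq_abs, abs_of_pos ha]
      field_simp
    have h1 : inner ℝ (D.b1 t) (D.v t) - D.a = inner ℝ (D.b1 t - D.b1 D.t0) (D.v t)
        + inner ℝ (D.b1 D.t0) (D.v t - D.v D.t0) := by
      rw [inner_sub_left, inner_sub_right, h0]; ring
    rw [h1]
    refine (abs_add_le _ _).trans ?_
    have h2 : |inner ℝ (D.b1 t - D.b1 D.t0) (D.v t)| ≤ (2 * D.Lam * (t - D.t0)) * (2 * D.a) := by
      refine (abs_real_inner_le_norm _ _).trans ?_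
      gcongr
    have h3 : |inner ℝ (D.b1 D.t0) (D.v t - D.v D.t0)| ≤ 1 * (6 * D.a * D.Lam * (t - D.t0)) := by
      refine (abs_real_inner_le_norm _ _).trans ?_
      rw [h00]
      gcongr
    linarith
  have hga : |D.ga t / D.kap - 2 * (1 - D.x t ^ 2)| ≤ 1 / D.y ^ 12 := hGh
  obtain ⟨hR, hsm⟩ := total D.c D.y (D.x t) r (D.c ^ 2 * ‖D.p t‖ ^ 2) (‖D.p t‖ ^ 2) σ D.kap
    D.a (t - D.t0) D.Lam (D.k2 t) h (D.ga t) (‖D.b1 t‖ ^ 2)
    (inner ℝ (D.p t) (D.B t (D.p t))) (inner ℝ (D.b1 t) (D.B t (D.b1 t)))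
    (inner ℝ (D.b1 t) (D.B t (D.p t))) (inner ℝ (D.p t) (D.v t)) (inner ℝ (D.b1 t) (D.v t))
    ‖D.p t‖ hc hc1 hy hx1 (hxX.trans hXy) hr1 hr2 hm rfl hσ0 hσ1 hσ2 hσ3 hκ1 hκ2
    hk2eq hh hL0 hLy hτ0 hLτ hcy (by
      refine le_trans ?_ hXcy
      gcongr) hga rfl hp3 hg0 hA2 hA3 hA4 hA5 hA6
  obtain ⟨hm1, hm2, -⟩ := mainval D.c D.y (D.x t) r (D.c ^ 2 * ‖D.p t‖ ^ 2) hc hc1 hy
    hx1 (hxX.trans hXy) hr1 hr2 hm
  -- the vector
  obtain ⟨n, hn⟩ : ∃ n : E3, n = -(P • D.p t + Q • D.b1 t) := ⟨_, rfl⟩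
  have hnq : inner ℝ n (q t) = 0 := by
    have h1 : inner ℝ (D.p t) (q t) = 0 := by
      have : D.p t = D.b2 t - D.mu t • D.b1 t := rfl
      rw [real_inner_comm, this, inner_sub_right, inner_smul_right, hqb1, hqb2]
      ring
    rw [hn, inner_neg_left, inner_add_left, inner_smul_left, inner_smul_left, h1,
      real_inner_comm, hqb1]
    simp
  have hnw : inner ℝ n (w t) = 0 := by
    have h1 : inner ℝ (D.b1 t) (w t) = P := by rw [hPd]; rfl
    have h2 : inner ℝ (D.p t) (w t) = -Q := by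
      rw [hQd]
      show _ = -(-inner ℝ (D.p t) (w t))
      ring
    rw [hn, inner_neg_left, inner_add_left, inner_smul_left, inner_smul_left, h1, h2,
      conj_trivial, conj_trivial]
    ring
  have hw' : w t = (P / ‖D.b1 t‖ ^ 2) • D.b1 t - (Q / ‖D.p t‖ ^ 2) • D.p t := hw
  have hMw : D.M t (w t) = D.B t (w t) + (inner ℝ (D.k t) (w t)) • D.v t := rfl
  have hval : inner ℝ n (D.M t (w t)) = P ^ 2 * (-(D.ga t / 2)
      + σ * h / ‖D.p t‖ ^ 2 * inner ℝ (D.p t) (D.B t (D.p t))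
      - σ * h / ‖D.b1 t‖ ^ 2 * inner ℝ (D.b1 t) (D.B t (D.b1 t))
      + (σ * h) ^ 2 / ‖D.p t‖ ^ 2 * inner ℝ (D.b1 t) (D.B t (D.p t))
      + σ * h / ‖D.p t‖ ^ 2 * inner ℝ (D.p t) (D.v t)
      + (σ * h) ^ 2 / ‖D.p t‖ ^ 2 * inner ℝ (D.b1 t) (D.v t)) := by
    rw [hMw, hn, expand (D.b1 t) (D.p t) (D.v t) (D.k t) (w t) (D.B t) P Q (hkb t) hkp hw', hQ]
    have : D.ga t = 2 * inner ℝ (D.p t) (D.B t (D.b1 t)) / ‖D.b1 t‖ ^ 2 := rfl
    rw [this]
    ring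
  obtain ⟨R, hRd⟩ : ∃ R, R = -(D.ga t / 2)
      + σ * h / ‖D.p t‖ ^ 2 * inner ℝ (D.p t) (D.B t (D.p t))
      - σ * h / ‖D.b1 t‖ ^ 2 * inner ℝ (D.b1 t) (D.B t (D.b1 t))
      + (σ * h) ^ 2 / ‖D.p t‖ ^ 2 * inner ℝ (D.b1 t) (D.B t (D.p t))
      + σ * h / ‖D.p t‖ ^ 2 * inner ℝ (D.p t) (D.v t)
      + (σ * h) ^ 2 / ‖D.p t‖ ^ 2 * inner ℝ (D.b1 t) (D.v t) := ⟨_, rfl⟩
  rw [← hRd] at hR hval
  have hbp' : inner ℝ (D.b1 t) (D.p t) = 0 := hbp
  have hNn : ‖n‖ ^ 2 = P ^ 2 * ‖D.p t‖ ^ 2 + Q ^ 2 * ‖D.b1 t‖ ^ 2 := by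
    rw [hn]; exact norm_N _ _ _ _ hbp'
  have hNw : ‖w t‖ ^ 2 = P ^ 2 / ‖D.b1 t‖ ^ 2 + Q ^ 2 / ‖D.p t‖ ^ 2 :=
    norm_w _ _ _ _ _ hbne hpne hbp' hw'
  have hb0 : 0 < ‖D.b1 t‖ := norm_pos_iff.mpr hbne
  have hnn : ‖n‖ = ‖D.b1 t‖ * ‖D.p t‖ * ‖w t‖ := by
    rw [← Real.sqrt_sq (norm_nonneg n), ← Real.sqrt_sq (show 0 ≤ ‖D.b1 t‖ * ‖D.p t‖ * ‖w t‖ by
      positivity), hNn, mul_pow, mul_pow, hNw]
    congr 1
    field_simp
  -- the size of the normalisation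
  obtain ⟨β, hβ⟩ : ∃ β, β = ‖D.b1 t‖ := ⟨_, rfl⟩
  obtain ⟨s2, hs2d⟩ : ∃ s2, s2 = (σ * h) ^ 2 / ‖D.p t‖ ^ 2 := ⟨_, rfl⟩
  obtain ⟨ρ, hρ⟩ : ∃ ρ, ρ = D.c * ‖D.p t‖ / D.x t ^ 2 := ⟨_, rfl⟩
  have h00 : ‖D.b1 D.t0‖ = 1 := by
    rw [hOk.b1_init, norm_smul, hOk.va, norm_inv, Real.norm_eq_abs, abs_of_pos ha]
    field_simp
  have hβ1 : |β - 1| ≤ 1 / 10 ^ 8 := by
    have h1 : |‖D.b1 t‖ - ‖D.b1 D.t0‖| ≤ ‖D.b1 t - D.b1 D.t0‖ := abs_norm_sub_norm_le _ _
    rw [h00, ← hβ] at h1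
    refine h1.trans (hb4.trans ?_)
    have h2 : 1 / D.y ^ 18 ≤ 1 / (2 * 10 ^ 8) := by
      apply one_div_le_one_div_of_le (by norm_num)
      exact hy.trans (le_self_pow₀ hy1 (by norm_num))
    have h3 : 2 * D.Lam * (t - D.t0) = 2 * (D.Lam * (t - D.t0)) := by ring
    rw [h3]
    linarith
  have hρ2 : |ρ ^ 2 - 1| ≤ 1 / 10 ^ 8 := by
    have h1 : ρ ^ 2 - 1 = (D.c ^ 2 * ‖D.p t‖ ^ 2 - D.x t ^ 4) / D.x t ^ 4 := by
      rw [hρ]; field_simp
    rw [h1, abs_div, abs_of_pos (show 0 < D.x t ^ 4 by positivity), div_le_iff₀ (by positivity)]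
    linarith
  have hρ0 : 0 < ρ := by rw [hρ]; positivity
  have hs20 : 0 ≤ s2 := by rw [hs2d]; positivity
  rw [← hs2d] at hsm
  obtain ⟨hU1, hU2⟩ := numU β s2 ρ hβ1 hρ2 hρ0 hs20 hsm
  have hβ0 : 0 < β := by rw [hβ]; exact hb0
  have hwpos : 0 < ‖w t‖ := by
    have h1 : 0 < ‖w t‖ ^ 2 := by
      rw [hNw]
      have : 0 < P ^ 2 / ‖D.b1 t‖ ^ 2 := by positivity
      have : 0 ≤ Q ^ 2 / ‖D.p t‖ ^ 2 := by positivity
      linarith
    refine (norm_nonneg _).lt_of_ne' fun h0 => ?_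
    rw [h0] at h1
    norm_num at h1
  have hnpos : 0 < ‖n‖ := by rw [hnn]; positivity
  have hprod : D.c / D.x t ^ 2 * ‖w t‖ * ‖n‖ = P ^ 2 * (ρ * (1 / β + β * s2)) := by
    have h1 : D.c / D.x t ^ 2 * ‖w t‖ * ‖n‖ = ρ * β * ‖w t‖ ^ 2 := by
      rw [hnn, hρ, hβ]; ring
    rw [h1, hNw, hQ, hs2d, ← hβ]
    field_simp
  refine ⟨‖n‖⁻¹ • n, ?_, ?_, ?_, ?_, ?_⟩
  · rw [norm_smul, norm_inv, norm_norm, inv_mul_cancel₀ hnpos.ne']
  · rw [inner_smul_left, hnq, mul_zero]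
  · rw [inner_smul_left, hnw, mul_zero]
  · rw [inner_smul_left, conj_trivial, hval, inv_mul_eq_div, le_div_iff₀ hnpos]
    have h1 : 11 / 20 * D.kap * D.c / D.x t ^ 2 * ‖w t‖ * ‖n‖ =
        11 / 20 * D.kap * (D.c / D.x t ^ 2 * ‖w t‖ * ‖n‖) := by ring
    rw [h1, hprod]
    have h2 := numLow D.kap r R (ρ * (1 / β + β * s2)) hκ0 hr1 hR hU2
    calc 11 / 20 * D.kap * (P ^ 2 * (ρ * (1 / β + β * s2)))
        = P ^ 2 * (11 / 20 * D.kap * (ρ * (1 / β + β * s2))) := by ring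
      _ ≤ P ^ 2 * R := mul_le_mul_of_nonneg_left h2 (sq_nonneg _)
  · rw [inner_smul_left, conj_trivial, hval, inv_mul_eq_div, div_le_iff₀ hnpos]
    have h1 : 13 / 10 * D.kap * D.c / D.x t ^ 2 * ‖w t‖ * ‖n‖ =
        13 / 10 * D.kap * (D.c / D.x t ^ 2 * ‖w t‖ * ‖n‖) := by ring
    rw [h1, hprod]
    have h2 := numHigh D.kap r R (ρ * (1 / β + β * s2)) hκ0 (by linarith) hr2 hR hU1
    calc P ^ 2 * R ≤ P ^ 2 * (13 / 10 * D.kap * (ρ * (1 / β + β * s2))) :=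
          mul_le_mul_of_nonneg_left h2 (sq_nonneg _)
      _ = 13 / 10 * D.kap * (P ^ 2 * (ρ * (1 / β + β * s2))) := by ring

end Pool.Agent.Work.MP_b0497c_an.Forced.Ode

end

section

set_option autoImplicit false

/-!
# ODE module of the forced Euler blow-up: existence of chains
-/

open scoped ContDiff
open Set ContinuousLinearMap Filter Topology

namespace Pool.Agent.Work.MP_b0497c_an.Forced.Ode

theorem prf_StChain (hSt : StStep) (hB : StBase) : StChain := by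
  obtain ⟨L1, h10, h1⟩ := hSt
  obtain ⟨L2, h20, h2⟩ := hB
  refine ⟨max L1 L2, le_max_of_le_left h10, fun L0 hL0 => ?_⟩
  have hL1 : L1 ≤ L0 := (le_max_left _ _).trans hL0
  have hL2 : L2 ≤ L0 := (le_max_right _ _).trans hL0
  have h01 : 1 ≤ L0 := by linarith
  have hk : ∀ k : ℕ, L1 ≤ L0 ^ 2 ^ k := by
    intro k
    have h3 : L0 ^ 1 ≤ L0 ^ 2 ^ k := pow_le_pow_right₀ h01 Nat.one_le_two_pow
    rw [pow_one] at h3
    exact hL1.trans h3
  have hsq : ∀ k : ℕ, (L0 ^ 2 ^ k) ^ 2 = L0 ^ 2 ^ (k + 1) := by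
    intro k
    rw [← pow_mul, pow_succ]
  have step : ∀ (k : ℕ) (D : {D : EraD // Stage D (L0 ^ 2 ^ k)}),
      ∃ (D' : {D : EraD // Stage D (L0 ^ 2 ^ (k + 1))}) (w q : ℝ → E3) (α : ℝ → ℝ),
        Pack D.1 (Real.exp (L0 ^ 2 ^ (k + 1))) w q α ∧ D'.1.t0 = D.1.tf ∧
          ∀ t, D'.1.M t = D.1.M t + ro (w t) (q t) := by
    intro k D
    obtain ⟨D', w, q, α, hs, hp, ht, hM⟩ := h1 (L0 ^ 2 ^ k) (hk k) D.1 D.2
    rw [hsq] at hs hp
    exact ⟨⟨D', hs⟩, w, q, α, hp, ht, hM⟩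
  choose nD nw nq nα hp ht hM using step
  obtain ⟨D0, hD0, hD0t⟩ := h2 L0 hL2
  have hD0' : Stage D0 (L0 ^ 2 ^ 0) := by
    rw [pow_zero, pow_one]
    exact hD0
  let f : (k : ℕ) → {D : EraD // Stage D (L0 ^ 2 ^ k)} := fun k =>
    Nat.rec (motive := fun k => {D : EraD // Stage D (L0 ^ 2 ^ k)}) ⟨D0, hD0'⟩
      (fun k D => nD k D) k
  refine ⟨fun k => (f k).1, fun k => nw k (f k), fun k => nq k (f k), fun k => nα k (f k),
    ⟨hD0t, fun k => (f k).2, fun k => hp k (f k), fun k => ht k (f k), fun k => hM k (f k)⟩⟩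

end Pool.Agent.Work.MP_b0497c_an.Forced.Ode

end

section

set_option autoImplicit false

/-!
# ODE module of the forced Euler blow-up: dominance on the window
-/

open Set

namespace Pool.Agent.Work.MP_b0497c_an.Forced.Ode

namespace Dom

theorem dom_aux (hN : StPar) (hT : StCoef) (hM : StNum) (hC : StCoop) (D : EraD) (hD : D.Ok)
    (Y W : ℝ → ℝ) (hS : D.Sys Y W)
    (hcone : ∀ t ∈ D.J, 0 < Y t ∧ 5 / 4 * Y t ≤ W t ∧ W t ≤ 3 / 2 * Y t)
    (Y1 W1 σ1 σ2 : ℝ → ℝ) (t1 ρ : ℝ) (ht1 : t1 ∈ D.J) (hρ : 0 ≤ ρ)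
    (hY0 : Y1 D.s0 = 0) (hW0 : W1 D.s0 = 0)
    (hder : ∀ t ∈ Icc D.s0 t1,
      HasDerivAt Y1 (D.om * (D.A12 t * W1 t + D.dd t * Y1 t) + σ1 t) t ∧
      HasDerivAt W1 (D.om * (D.A21 t * Y1 t - D.dd t * W1 t) + σ2 t) t ∧
      |σ1 t| ≤ ρ * Y t ∧ |σ2 t| ≤ ρ * Y t) (s : ℝ) (hs : s = 1 ∨ s = -1) :
    0 ≤ ρ * (t1 - D.s0) * Y t1 - s * Y1 t1 ∧ 0 ≤ ρ * (t1 - D.s0) * W t1 - s * W1 t1 := by
  obtain ⟨-, -, -, -, -, -, hom, -, -, -, -, -, -, -, hx00, -, -, -, -, -, -, -, -, -⟩ := hN D hD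
  have hsub : ∀ t ∈ Icc D.s0 t1, t ∈ D.J := fun t ht => ⟨ht.1, ht.2.trans ht1.2⟩
  have hlin : ∀ t : ℝ, HasDerivAt (fun t => ρ * (t - D.s0)) ρ t := by
    intro t
    have h : HasDerivAt (fun t => ρ * (t - D.s0)) (ρ * 1) t :=
      ((hasDerivAt_id t).sub_const D.s0).const_mul ρ
    rw [mul_one] at h
    exact h
  have habs : ∀ t ∈ Icc D.s0 t1, s * σ1 t ≤ ρ * Y t ∧ s * σ2 t ≤ ρ * Y t := by
    intro t ht
    obtain ⟨-, -, h1, h2⟩ := hder t ht
    have h1' := abs_le.1 h1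
    have h2' := abs_le.1 h2
    rcases hs with rfl | rfl
    · exact ⟨by linarith [h1'.2], by linarith [h2'.2]⟩
    · exact ⟨by linarith [h1'.1], by linarith [h2'.1]⟩
  have hres := hC (fun t => ρ * (t - D.s0) * Y t - s * Y1 t)
    (fun t => ρ * (t - D.s0) * W t - s * W1 t)
    (fun t => ρ * Y t + ρ * (t - D.s0) * (D.om * (D.A12 t * W t + D.dd t * Y t))
      - s * (D.om * (D.A12 t * W1 t + D.dd t * Y1 t) + σ1 t))
    (fun t => ρ * W t + ρ * (t - D.s0) * (D.om * (D.A21 t * Y t - D.dd t * W t))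
      - s * (D.om * (D.A21 t * Y1 t - D.dd t * W1 t) + σ2 t))
    (fun t => D.om * D.dd t) (fun t => D.om * D.A12 t) (fun t => D.om * D.A21 t)
    (fun t => -(D.om * D.dd t)) D.s0 t1 (D.om * (4 / D.x0 ^ 2)) ?_ ?_ ?_ ?_ ?_ ?_ ?_ t1
    ⟨ht1.1, le_rfl⟩
  · exact hres
  · intro t ht
    exact ((hlin t).mul (hS t (hsub t ht)).1).sub ((hder t ht).1.const_mul s)
  · intro t ht
    exact ((hlin t).mul (hS t (hsub t ht)).2).sub ((hder t ht).2.1.const_mul s)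
  · intro t ht
    have := (habs t ht).1
    nlinarith [this]
  · intro t ht
    have h1 := (habs t ht).2
    obtain ⟨hY, hl, hu⟩ := hcone t (hsub t ht)
    have h2 : ρ * Y t ≤ ρ * W t := mul_le_mul_of_nonneg_left (by linarith) hρ
    nlinarith [h1, h2]
  · intro t ht
    obtain ⟨-, hx, hx0, -, h12, h21, -, -, h9, h10, h11⟩ :=
      Growth.coefs hN hT hM D hD (hsub t ht)
    have hsq : D.x0 ^ 2 ≤ D.x t ^ 2 := pow_le_pow_left₀ hx00.le hx0 2
    have h4 : 4 / D.x t ^ 2 ≤ 4 / D.x0 ^ 2 := by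
      apply div_le_div_of_nonneg_left (by norm_num) (by positivity) hsq
    have h1 : 1 / D.x t ^ 2 ≤ 4 / D.x0 ^ 2 :=
      (div_le_div_of_nonneg_right (by norm_num) (by positivity)).trans h4
    refine ⟨mul_nonneg hom.le h12, mul_nonneg hom.le h21, ?_, ?_, ?_, ?_⟩
    · rw [abs_mul, abs_of_pos hom]
      exact mul_le_mul_of_nonneg_left (h11.trans h1) hom.le
    · exact mul_le_mul_of_nonneg_left (h9.trans h4) hom.le
    · exact mul_le_mul_of_nonneg_left (h10.trans h4) hom.le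
    · rw [abs_neg, abs_mul, abs_of_pos hom]
      exact mul_le_mul_of_nonneg_left (h11.trans h1) hom.le
  · simp [hY0]
  · simp [hW0]

end Dom

open Dom in
/-- R3: dominance. -/
theorem prf_StDom (hN : StPar) (hT : StCoef) (hM : StNum) (hC : StCoop) : StDom := by
  intro D hD Y W hS hcone Y1 W1 σ1 σ2 t1 ρ ht1 hρ hY0 hW0 hder
  obtain ⟨a1, a2⟩ := dom_aux hN hT hM hC D hD Y W hS hcone Y1 W1 σ1 σ2 t1 ρ ht1 hρ hY0 hW0 hder
    1 (Or.inl rfl)
  obtain ⟨b1, b2⟩ := dom_aux hN hT hM hC D hD Y W hS hcone Y1 W1 σ1 σ2 t1 ρ ht1 hρ hY0 hW0 hder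
    (-1) (Or.inr rfl)
  exact ⟨abs_le.2 ⟨by linarith, by linarith⟩, abs_le.2 ⟨by linarith, by linarith⟩⟩

end Pool.Agent.Work.MP_b0497c_an.Forced.Ode

end

section

set_option autoImplicit false

/-!
# Item M1, M2: bilinear maps and sums of families with moderate derivatives
-/

open scoped ContDiff
open Set ContinuousLinearMap Filter Topology

namespace Pool.Agent.Work.MP_b0497c_an.Forced.Ode

namespace ModBil

/-- constants are absorbed by powers -/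
theorem absorb (C : ℝ) : ∃ p : ℕ, ∀ L : ℝ, 2 ≤ L → C ≤ L ^ p := by
  obtain ⟨p, hp⟩ := pow_unbounded_of_one_lt C (by norm_num : (1 : ℝ) < 2)
  exact ⟨p, fun L hL => hp.le.trans (pow_le_pow_left₀ (by norm_num) hL p)⟩

/-- a uniform exponent for all orders up to `N` -/
theorem unif {E : Type} [NormedAddCommGroup E] [NormedSpace ℝ E] {Lam : ℕ → ℝ} {I : ℕ → Set ℝ}
    {mu : ℕ → ℝ → ℝ} {N : ℕ} {f : ℕ → ℝ → E} (hL : ∀ k, 2 ≤ Lam k)
    (hmu : ∀ k, ∀ t ∈ I k, 0 ≤ mu k t) (h : ModV Lam I mu N f) :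
    ∃ n : ℕ, ∀ d ≤ N, ∀ k, ∀ t ∈ I k, ‖iteratedDeriv d (f k) t‖ ≤ Lam k ^ n * mu k t := by
  choose! n hn using h.2
  refine ⟨∑ i ∈ Finset.range (N + 1), n i, fun d hd k t ht => ?_⟩
  refine (hn d hd k t ht).trans ?_
  apply mul_le_mul_of_nonneg_right _ (hmu k t ht)
  apply pow_le_pow_right₀ (by linarith [hL k])
  exact Finset.single_le_sum (f := n) (fun i _ => Nat.zero_le _)
    (Finset.mem_range.2 (by omega))

end ModBil

open ModBil

theorem prf_StModBil : StModBil := by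
  intro E F G _ _ _ _ _ _ B Lam I mu nu N f g hL hmn hf hg
  have hcd : ∀ k, ContDiff ℝ ∞ (fun t => B (f k t) (g k t)) := by
    intro k
    have := B.isBoundedBilinearMap.contDiff (n := ∞)
    exact this.comp ((hf.1 k).prodMk (hg.1 k))
  refine ⟨hcd, ?_⟩
  intro d hd
  obtain ⟨n, hn⟩ := unif hL (fun k t ht => (hmn k t ht).1) hf
  obtain ⟨m, hm⟩ := unif hL (fun k t ht => (hmn k t ht).2) hg
  obtain ⟨p, hp⟩ := absorb (‖B‖ * ∑ i ∈ Finset.range (d + 1), (d.choose i : ℝ))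
  refine ⟨p + (n + m), ?_⟩
  intro k t ht
  have hL0 : (0 : ℝ) ≤ Lam k := by linarith [hL k]
  obtain ⟨h1, h2⟩ := hmn k t ht
  rw [← norm_iteratedFDeriv_eq_norm_iteratedDeriv]
  have key := B.norm_iteratedFDeriv_le_of_bilinear (hf.1 k) (hg.1 k) t (n := d)
    (by exact_mod_cast le_top)
  refine key.trans ?_
  calc ‖B‖ * ∑ i ∈ Finset.range (d + 1),
      (d.choose i : ℝ) * ‖iteratedFDeriv ℝ i (f k) t‖ * ‖iteratedFDeriv ℝ (d - i) (g k) t‖
      ≤ ‖B‖ * ∑ i ∈ Finset.range (d + 1),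
        (d.choose i : ℝ) * ((Lam k ^ n * mu k t) * (Lam k ^ m * nu k t)) := by
        refine mul_le_mul_of_nonneg_left ?_ B.opNorm_nonneg
        apply Finset.sum_le_sum
        intro i hi
        rw [Finset.mem_range] at hi
        rw [mul_assoc]
        apply mul_le_mul_of_nonneg_left _ (by positivity)
        rw [norm_iteratedFDeriv_eq_norm_iteratedDeriv, norm_iteratedFDeriv_eq_norm_iteratedDeriv]
        apply mul_le_mul (hn i (by omega) k t ht) (hm (d - i) (by omega) k t ht) (norm_nonneg _)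
        positivity
    _ = (‖B‖ * ∑ i ∈ Finset.range (d + 1), (d.choose i : ℝ)) *
        (Lam k ^ (n + m) * (mu k t * nu k t)) := by
        rw [← Finset.sum_mul, pow_add]; ring
    _ ≤ Lam k ^ p * (Lam k ^ (n + m) * (mu k t * nu k t)) := by
        apply mul_le_mul_of_nonneg_right (hp _ (hL k))
        positivity
    _ = Lam k ^ (p + (n + m)) * (mu k t * nu k t) := by
        rw [pow_add (Lam k) p]; ring

theorem prf_StModLin : StModLin := by
  intro E F _ _ _ _ A Lam I mu N f g hL hmu hf hg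
  refine ⟨⟨fun k => (hf.1 k).add (hg.1 k), ?_⟩, ⟨fun k => A.contDiff.comp (hf.1 k), ?_⟩⟩
  · intro d hd
    obtain ⟨n, hn⟩ := unif hL hmu hf
    obtain ⟨m, hm⟩ := unif hL hmu hg
    refine ⟨1 + (n + m), ?_⟩
    intro k t ht
    have hL1 : (1 : ℝ) ≤ Lam k := by linarith [hL k]
    have h1 := hmu k t ht
    have e : iteratedDeriv d (fun s => f k s + g k s) t =
        iteratedDeriv d (f k) t + iteratedDeriv d (g k) t := by
      apply iteratedDeriv_fun_add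
      · exact ((hf.1 k).of_le (by exact_mod_cast le_top)).contDiffAt
      · exact ((hg.1 k).of_le (by exact_mod_cast le_top)).contDiffAt
    rw [e]
    have b1 : Lam k ^ n ≤ Lam k ^ (n + m) := pow_le_pow_right₀ hL1 (by omega)
    have b2 : Lam k ^ m ≤ Lam k ^ (n + m) := pow_le_pow_right₀ hL1 (by omega)
    calc ‖iteratedDeriv d (f k) t + iteratedDeriv d (g k) t‖
        ≤ ‖iteratedDeriv d (f k) t‖ + ‖iteratedDeriv d (g k) t‖ := norm_add_le _ _
      _ ≤ Lam k ^ n * mu k t + Lam k ^ m * mu k t := add_le_add (hn d hd k t ht) (hm d hd k t ht)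
      _ ≤ Lam k ^ (n + m) * mu k t + Lam k ^ (n + m) * mu k t :=
          add_le_add (mul_le_mul_of_nonneg_right b1 h1) (mul_le_mul_of_nonneg_right b2 h1)
      _ = 2 * (Lam k ^ (n + m) * mu k t) := by ring
      _ ≤ Lam k * (Lam k ^ (n + m) * mu k t) :=
          mul_le_mul_of_nonneg_right (hL k) (by positivity)
      _ = Lam k ^ (1 + (n + m)) * mu k t := by rw [pow_add (Lam k) 1, pow_one]; ring
  · intro d hd
    obtain ⟨n, hn⟩ := unif hL hmu hf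
    obtain ⟨p, hp⟩ := absorb ‖A‖
    refine ⟨p + n, ?_⟩
    intro k t ht
    have hL1 : (1 : ℝ) ≤ Lam k := by linarith [hL k]
    have h1 := hmu k t ht
    rw [← norm_iteratedFDeriv_eq_norm_iteratedDeriv]
    have key := A.norm_iteratedFDeriv_comp_left (f := f k) (x := t) (N := ∞) (n := d)
      (hf.1 k).contDiffAt (by exact_mod_cast le_top)
    calc ‖iteratedFDeriv ℝ d (fun s => A (f k s)) t‖
        ≤ ‖A‖ * ‖iteratedFDeriv ℝ d (f k) t‖ := key
      _ ≤ Lam k ^ p * (Lam k ^ n * mu k t) := by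
          rw [norm_iteratedFDeriv_eq_norm_iteratedDeriv]
          apply mul_le_mul (hp _ (hL k)) (hn d hd k t ht) (norm_nonneg _) (by positivity)
      _ = Lam k ^ (p + n) * mu k t := by rw [pow_add]; ring

end Pool.Agent.Work.MP_b0497c_an.Forced.Ode

end

section

set_option autoImplicit false

/-!
# ODE module of the forced Euler blow-up: the flow maps (M7)
-/

open scoped ContDiff
open Set ContinuousLinearMap Filter Topology

namespace Pool.Agent.Work.MP_b0497c_an.Forced.Ode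

namespace ModF

/-- left composition -/
noncomputable def LC : Op →L[ℝ] (Op →L[ℝ] Op) := ContinuousLinearMap.compL ℝ E3 E3 E3

/-- minus right composition -/
noncomputable def RC : Op →L[ℝ] (Op →L[ℝ] Op) := -(ContinuousLinearMap.compL ℝ E3 E3 E3).flip

lemma LC_apply (A G : Op) : LC A G = A ∘L G := rfl

lemma RC_apply (A G : Op) : RC A G = -(G ∘L A) := rfl

/-- a function with zero derivative is constant -/
lemma const_of_deriv {E : Type} [NormedAddCommGroup E] [NormedSpace ℝ E] (f : ℝ → E)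
    (h : ∀ t, HasDerivAt f 0 t) (s t : ℝ) : f s = f t :=
  is_const_of_deriv_eq_zero (fun x => (h x).differentiableAt) (fun x => (h x).deriv) s t

lemma two_le_exp (L0 : ℝ) (h : 1 ≤ L0) (k : ℕ) : 2 ≤ Real.exp (L0 ^ 2 ^ k) := by
  have h1 : (1:ℝ) ≤ L0 ^ 2 ^ k := one_le_pow₀ h
  have h2 := Real.add_one_le_exp (L0 ^ 2 ^ k)
  linarith

lemma mono {E : Type} [NormedAddCommGroup E] [NormedSpace ℝ E] {Lam : ℕ → ℝ} {I : ℕ → Set ℝ}
    {mu : ℕ → ℝ → ℝ} {N : ℕ} {f : ℕ → ℝ → E} (h : ModV Lam I mu (N + 1) f) : ModV Lam I mu N f :=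
  ⟨h.1, fun d hd => h.2 d (by omega)⟩

lemma exists_F (hL : StLinear) (M : ℝ → Op) (hM : ContDiff ℝ ∞ M) (s : ℝ) :
    ∃ F : ℝ → Op, ContDiff ℝ ∞ F ∧ F s = ContinuousLinearMap.id ℝ E3 ∧
      ∀ t, HasDerivAt F (M t ∘L F t) t := by
  have hc : ContDiff ℝ ∞ (fun t => LC (M t)) :=
    contDiff_const.clm_apply hM
  obtain ⟨y, hy, hy0, hyd⟩ := hL Op (fun t => LC (M t)) (fun _ => 0)
    hc contDiff_const s (ContinuousLinearMap.id ℝ E3)
  refine ⟨y, hy, hy0, fun t => ?_⟩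
  have := hyd t
  rw [add_zero, LC_apply] at this
  exact this

lemma exists_Fi (hL : StLinear) (M : ℝ → Op) (hM : ContDiff ℝ ∞ M) (s : ℝ) :
    ∃ F : ℝ → Op, ContDiff ℝ ∞ F ∧ F s = ContinuousLinearMap.id ℝ E3 ∧
      ∀ t, HasDerivAt F (-(F t ∘L M t)) t := by
  have hc : ContDiff ℝ ∞ (fun t => RC (M t)) :=
    contDiff_const.clm_apply hM
  obtain ⟨y, hy, hy0, hyd⟩ := hL Op (fun t => RC (M t)) (fun _ => 0)
    hc contDiff_const s (ContinuousLinearMap.id ℝ E3)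
  refine ⟨y, hy, hy0, fun t => ?_⟩
  have := hyd t
  rw [add_zero, RC_apply] at this
  exact this

lemma Fi_F (M F G : ℝ → Op) (s : ℝ) (hF : ∀ t, HasDerivAt F (M t ∘L F t) t)
    (hG : ∀ t, HasDerivAt G (-(G t ∘L M t)) t) (hF0 : F s = ContinuousLinearMap.id ℝ E3)
    (hG0 : G s = ContinuousLinearMap.id ℝ E3) (t : ℝ) :
    G t ∘L F t = ContinuousLinearMap.id ℝ E3 := by
  have h : ∀ t, HasDerivAt (fun t => G t ∘L F t) 0 t := by
    intro t
    have h1 := (hG t).clm_comp (hF t)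
    convert h1 using 1
    ext x
    simp
  have := const_of_deriv _ h t s
  simp only [hF0, hG0] at this
  rw [this]
  rfl

lemma F_Fi (A B : Op) (h : A ∘L B = ContinuousLinearMap.id ℝ E3) :
    B ∘L A = ContinuousLinearMap.id ℝ E3 := by
  have h1 : (A : E3 →ₗ[ℝ] E3) ∘ₗ (B : E3 →ₗ[ℝ] E3) = LinearMap.id := by
    refine LinearMap.ext fun x => ?_
    simpa using congrArg (fun f : Op => f (x)) h
  have h2 : (B : E3 →ₗ[ℝ] E3) ∘ₗ (A : E3 →ₗ[ℝ] E3) = LinearMap.id :=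
    (LinearMap.comp_eq_id_comm ℝ E3).1 h1
  ext1 x
  have := congrArg (fun f : E3 →ₗ[ℝ] E3 => f x) h2
  simpa using this

lemma adj (M F : ℝ → Op) (q : ℝ → E3) (s : ℝ) (hF : ∀ t, HasDerivAt F (M t ∘L F t) t)
    (hF0 : F s = ContinuousLinearMap.id ℝ E3)
    (hq : ∀ t, HasDerivAt q (-(adjoint (M t) (q t))) t) (t : ℝ) :
    adjoint (F t) (q t) = q s := by
  refine ext_inner_left ℝ fun x => ?_
  rw [ContinuousLinearMap.adjoint_inner_right]
  have h : ∀ t, HasDerivAt (fun t => inner ℝ (F t x) (q t)) 0 t := by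
    intro t
    have h1 : HasDerivAt (fun t => F t x) (M t (F t x)) t := by
      have := (hF t).clm_apply (hasDerivAt_const t x)
      simpa using this
    have h2 := h1.inner ℝ (hq t)
    have h3 : inner ℝ (F t x) (-(adjoint (M t) (q t))) + inner ℝ (M t (F t x)) (q t) = (0:ℝ) := by
      rw [inner_neg_right, ContinuousLinearMap.adjoint_inner_right]
      ring
    rw [← h3]
    exact h2
  have := const_of_deriv _ h t s
  simpa [hF0] using this

end ModF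

open ModF in
theorem prf_StModF (hL : StLinear) (hLi : StModLin) (hO : StModOde) : StModF := by
  intro L0 D w q α hL0 hC hM
  have hsm : ∀ k, ContDiff ℝ ∞ (D k).M := fun k => (hC.pack k).flow.smooth
  choose F hFs hF0 hFd using fun k => exists_F hL (D k).M (hsm k) (D k).s0
  choose G hGs hG0 hGd using fun k => exists_Fi hL (D k).M (hsm k) (D k).s0
  have hGF : ∀ k t, G k t ∘L F k t = ContinuousLinearMap.id ℝ E3 := fun k t =>
    Fi_F (D k).M (F k) (G k) (D k).s0 (hFd k) (hGd k) (hF0 k) (hG0 k) t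
  have hFG : ∀ k t, F k t ∘L G k t = ContinuousLinearMap.id ℝ E3 := fun k t =>
    F_Fi _ _ (hGF k t)
  have hJI : ∀ k, ∀ t ∈ (D k).J, t ∈ (D k).I ∧ (D k).s0 ∈ (D k).I := by
    intro k t ht
    have hc := (hC.stage k).ok.c0
    have h0 : (D k).t0 ≤ (D k).s0 := by
      unfold EraD.s0 EraD.x0 EraD.om
      have : 0 ≤ √√(D k).c / ((D k).c * √((D k).a * (D k).kap)) := by positivity
      linarith
    obtain ⟨h1, h2⟩ := ht
    exact ⟨⟨h0.trans h1, h2⟩, ⟨h0, h1.trans h2⟩⟩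
  have hbd : ∀ k, ∀ t ∈ (D k).J, ‖F k t‖ ≤ Real.exp (L0 ^ 2 ^ k) ∧
      ‖G k t‖ ≤ Real.exp (L0 ^ 2 ^ k) := by
    intro k t ht
    obtain ⟨hI, hs⟩ := hJI k t ht
    have ha : (D k).a = Real.exp (L0 ^ 2 ^ k) := (hC.stage k).a_eq
    have hb : ∀ x : E3, ∀ t, HasDerivAt (fun t => F k t x) ((D k).M t (F k t x)) t := by
      intro x t
      have := (hFd k t).clm_apply (hasDerivAt_const t x)
      simpa using this
    rw [← ha]
    have ha0 : 0 ≤ (D k).a := by rw [ha]; positivity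
    constructor
    · refine ContinuousLinearMap.opNorm_le_bound _ ha0 fun x => ?_
      have := (hC.pack k).defo (fun t => F k t x) (hb x) (D k).s0 hs t hI
      simpa [hF0] using this
    · refine ContinuousLinearMap.opNorm_le_bound _ ha0 fun x => ?_
      have := (hC.pack k).defo (fun t' => F k t' (G k t x)) (hb (G k t x)) t hI (D k).s0 hs
      have h2 : F k t (G k t x) = x := by
        have := congrArg (fun f : Op => f x) (hFG k t)
        simpa using this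
      simpa [hF0, h2] using this
  have h2 : ∀ k, (2:ℝ) ≤ Real.exp (L0 ^ 2 ^ k) := fun k => two_le_exp L0 hL0 k
  have h1 : ∀ k, ∀ t ∈ (D k).J, (0:ℝ) ≤ (fun (_ : ℕ) (_ : ℝ) => (1:ℝ)) k t :=
    fun k t _ => zero_le_one
  refine ⟨F, G, hF0, hFd, hFG, hGF, hbd, fun N => ⟨mono ?_, mono ?_⟩, ?_⟩
  · refine hO Op _ _ (fun _ _ => 1) N (fun k t => LC ((D k).M t)) F h2 h1 ?_ hFs hFd ?_
    · exact (hLi Op (Op →L[ℝ] Op) LC _ _ _ N _ _ h2 h1 (hM N) (hM N)).2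
    · exact ⟨1, fun k t ht => by simpa using (hbd k t ht).1⟩
  · refine hO Op _ _ (fun _ _ => 1) N (fun k t => RC ((D k).M t)) G h2 h1 ?_ hGs hGd ?_
    · exact (hLi Op (Op →L[ℝ] Op) RC _ _ _ N _ _ h2 h1 (hM N) (hM N)).2
    · exact ⟨1, fun k t ht => by simpa using (hbd k t ht).2⟩
  · intro k t
    exact adj (D k).M (F k) (q k) (D k).s0 (hFd k) (hF0 k) (hC.pack k).wave.q_deriv t

end Pool.Agent.Work.MP_b0497c_an.Forced.Ode

end

section

set_option autoImplicit false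

/-!
# Item M4: reciprocals of families with moderate derivatives
-/

open scoped ContDiff
open Set ContinuousLinearMap Filter Topology

namespace Pool.Agent.Work.MP_b0497c_an.Forced.Ode

namespace ModInv

/-- products of real families -/
theorem mul_real (hB : StModBil) {Lam : ℕ → ℝ} {I : ℕ → Set ℝ} {N : ℕ} {f g : ℕ → ℝ → ℝ}
    (hL : ∀ k, 2 ≤ Lam k) (hf : ModV Lam I (fun _ _ => 1) N f)
    (hg : ModV Lam I (fun _ _ => 1) N g) :
    ModV Lam I (fun _ _ => 1) N (fun k t => f k t * g k t) := by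
  have h := hB ℝ ℝ ℝ (ContinuousLinearMap.mul ℝ ℝ) Lam I (fun _ _ => 1) (fun _ _ => 1) N f g hL
    (fun _ _ _ => ⟨zero_le_one, zero_le_one⟩) hf hg
  simpa using h

end ModInv

open ModInv

theorem prf_StModInv (hB : StModBil) : StModInv := by
  intro Lam I N h hL hpos hh hone
  have hsm : ∀ k, ContDiff ℝ ∞ (fun t => (h k t)⁻¹) := fun k =>
    (hh.1 k).inv (fun t => (hpos k t).ne')
  -- derivative of the reciprocal
  have hder : ∀ k, deriv (fun t => (h k t)⁻¹) =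
      fun t => ((-1 : ℝ) * deriv (h k) t) * ((h k t)⁻¹ * (h k t)⁻¹) := by
    intro k
    funext t
    have hd : HasDerivAt (h k) (deriv (h k) t) t :=
      ((hh.1 k).differentiable (by simp)).differentiableAt.hasDerivAt
    have := (hd.inv (hpos k t).ne').deriv
    have e : deriv (fun t => (h k t)⁻¹) t = -deriv (h k) t / h k t ^ 2 := this
    rw [e]
    field_simp
  have key : ∀ d : ℕ, d ≤ N → ModV Lam I (fun _ _ => 1) d (fun k t => (h k t)⁻¹) := by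
    intro d
    induction d with
    | zero =>
      intro _
      refine ⟨hsm, ?_⟩
      intro j hj
      obtain rfl : j = 0 := by omega
      refine ⟨0, ?_⟩
      intro k t ht
      rw [iteratedDeriv_zero, pow_zero, mul_one, Real.norm_eq_abs, abs_inv,
        abs_of_pos (hpos k t)]
      exact inv_le_one_of_one_le₀ (hone k t ht)
    | succ d ih =>
      intro hd
      have ihd := ih (by omega)
      have hh' : ModV Lam I (fun _ _ => 1) d (fun k t => (-1 : ℝ) * deriv (h k) t) := by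
        refine ⟨fun k => ?_, ?_⟩
        · have : ContDiff ℝ ∞ (deriv (h k)) :=
            ((contDiff_infty_iff_deriv).1 (hh.1 k)).2
          exact contDiff_const.mul this
        · intro j hj
          obtain ⟨n, hn⟩ := hh.2 (j + 1) (by omega)
          refine ⟨n, ?_⟩
          intro k t ht
          have e := hn k t ht
          rw [iteratedDeriv_succ'] at e
          have e2 : iteratedDeriv j (fun t => (-1 : ℝ) * deriv (h k) t) t =
              -iteratedDeriv j (deriv (h k)) t := by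
            have : (fun t => (-1 : ℝ) * deriv (h k) t) = -deriv (h k) := by
              funext t; simp
            rw [this, iteratedDeriv_neg]
          rw [e2, norm_neg]
          exact e
      have hprod := mul_real hB hL hh' (mul_real hB hL ihd ihd)
      refine ⟨hsm, ?_⟩
      intro j hj
      rcases Nat.eq_zero_or_pos j with rfl | hj0
      · exact ihd.2 0 (by omega)
      · obtain ⟨i, rfl⟩ : ∃ i, j = i + 1 := ⟨j - 1, by omega⟩
        obtain ⟨n, hn⟩ := hprod.2 i (by omega)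
        refine ⟨n, ?_⟩
        intro k t ht
        rw [iteratedDeriv_succ', hder k]
        exact hn k t ht
  exact key N le_rfl

end Pool.Agent.Work.MP_b0497c_an.Forced.Ode

end

section

set_option autoImplicit false

/-!
# ODE module, item M3: solutions of linear ODEs gain one order
-/

open scoped ContDiff
open Set ContinuousLinearMap Filter Topology

namespace Pool.Agent.Work.MP_b0497c_an.Forced.Ode

theorem prf_StModOde (hB : StModBil) : StModOde := by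
  intro E _ _ Lam I mu N A f hL hmu hA hf hder hb
  have key : ∀ n : ℕ, n ≤ N + 1 → ModV Lam I mu n f := by
    intro n
    induction n with
    | zero =>
      intro _
      refine ⟨hf, fun d hd => ?_⟩
      obtain ⟨n, hn⟩ := hb
      refine ⟨n, fun k t ht => ?_⟩
      have h0 : d = 0 := by omega
      rw [h0, iteratedDeriv_zero]
      exact hn k t ht
    | succ n ih =>
      intro hn
      have ihn := ih (by omega)
      refine ⟨hf, fun d hd => ?_⟩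
      rcases Nat.lt_or_ge d (n + 1) with h | h
      · exact ihn.2 d (by omega)
      · have hd' : d = n + 1 := by omega
        have hAn : ModV Lam I (fun _ _ => 1) n A :=
          ⟨hA.1, fun d hd => hA.2 d (by omega)⟩
        have h1 := hB (E →L[ℝ] E) E E (ContinuousLinearMap.id ℝ (E →L[ℝ] E)) Lam I
          (fun _ _ => 1) mu n A f hL (fun k t ht => ⟨zero_le_one, hmu k t ht⟩) hAn ihn
        obtain ⟨m, hm⟩ := h1.2 n le_rfl
        refine ⟨m, fun k t ht => ?_⟩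
        have h2 : deriv (f k) = fun t => A k t (f k t) := funext fun t => (hder k t).deriv
        rw [hd', iteratedDeriv_succ', h2]
        have h3 : ‖iteratedDeriv n (fun t => A k t (f k t)) t‖ ≤ Lam k ^ m * (1 * mu k t) :=
          hm k t ht
        rw [one_mul] at h3
        exact h3
  exact key (N + 1) le_rfl

end Pool.Agent.Work.MP_b0497c_an.Forced.Ode

end

section

set_option autoImplicit false

/-!
# ODE module, item S1: numerical facts about stages of large size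
-/

namespace Pool.Agent.Work.MP_b0497c_an.Forced.Ode

namespace StageNum

open Filter

theorem ev_pow (n : ℕ) : ∀ᶠ x : ℝ in atTop, x ^ n ≤ Real.exp x := by
  have h := (Real.isLittleO_pow_exp_atTop (n := n)).bound (c := 1) one_pos
  filter_upwards [h] with x hx
  rw [one_mul, Real.norm_of_nonneg (Real.exp_pos x).le] at hx
  exact (le_abs_self _).trans hx

/-- first asymptotic fact -/
theorem ev_one : ∀ᶠ L : ℝ in atTop, Real.exp (80 * Real.sqrt L) * L ^ 760 ≤ Real.exp L := by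
  have h1 : ∀ᶠ m : ℝ in atTop, Real.exp (80 * m) * (m ^ 2) ^ 760 ≤ Real.exp (m ^ 2) := by
    filter_upwards [ev_pow 1520, eventually_ge_atTop (81 : ℝ)] with m hm h81
    calc Real.exp (80 * m) * (m ^ 2) ^ 760 = Real.exp (80 * m) * m ^ 1520 := by rw [← pow_mul]
      _ ≤ Real.exp (80 * m) * Real.exp m := by gcongr
      _ = Real.exp (81 * m) := by rw [← Real.exp_add]; congr 1; ring
      _ ≤ Real.exp (m ^ 2) := by
          apply Real.exp_le_exp.2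
          nlinarith
  have h2 := Real.tendsto_sqrt_atTop.eventually h1
  filter_upwards [h2, eventually_ge_atTop (0 : ℝ)] with L hL h0
  rw [Real.sq_sqrt h0] at hL
  exact hL

/-- second asymptotic fact -/
theorem ev_two : ∀ᶠ L : ℝ in atTop, L ^ 19 ≤ Real.exp (L / 4) := by
  have h1 : Tendsto (fun L : ℝ => L / 4) atTop atTop :=
    tendsto_id.atTop_div_const (by norm_num)
  have h2 := h1.eventually (ev_pow 20)
  filter_upwards [h2, eventually_ge_atTop ((4 : ℝ) ^ 20)] with L hL h4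
  have h0 : (0 : ℝ) < L := lt_of_lt_of_le (by positivity) h4
  have h5 : (L / 4) ^ 20 = L ^ 19 * (L / 4 ^ 20) := by
    rw [div_pow, pow_succ]
    ring
  rw [h5] at hL
  refine le_trans ?_ hL
  have h6 : (1 : ℝ) ≤ L / 4 ^ 20 := by
    rw [le_div_iff₀ (by positivity), one_mul]
    exact h4
  exact le_mul_of_one_le_right (by positivity) h6

/-- bounds for `c` and its roots -/
theorem roots (L c : ℝ) (hL : 10 ≤ L) (h1 : 1 / 2 ≤ c * L ^ 12) (h2 : c * L ^ 12 ≤ 3 / 2) :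
    0 < c ∧ c ≤ 1 / 10 ^ 8 ∧ 1 / c ≤ 2 * L ^ 12 ∧
    1 ≤ Real.sqrt c * L ^ 12 ∧ Real.sqrt c * L ^ 12 + 1 ≤ 2 * L ^ 6 ∧
    0 < Real.sqrt (Real.sqrt c) ∧ Real.sqrt (Real.sqrt c) * L ^ 3 ≤ 6 / 5 ∧
    c ≤ Real.sqrt (Real.sqrt c) := by
  have hL0 : 0 < L := by linarith
  have hp12 : 0 < L ^ 12 := by positivity
  have hc : 0 < c := by
    by_contra h
    push Not at h
    have : c * L ^ 12 ≤ 0 := mul_nonpos_of_nonpos_of_nonneg h hp12.le
    linarith
  have h12 : (10 : ℝ) ^ 12 ≤ L ^ 12 := pow_le_pow_left₀ (by norm_num) hL 12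
  have h6 : (10 : ℝ) ^ 6 ≤ L ^ 6 := pow_le_pow_left₀ (by norm_num) hL 6
  have hc8 : c ≤ 1 / 10 ^ 8 := by
    have h3 : c * 10 ^ 12 ≤ 3 / 2 := (mul_le_mul_of_nonneg_left h12 hc.le).trans h2
    have h4 : c ≤ 3 / 2 / 10 ^ 12 := by
      rw [le_div_iff₀ (by positivity)]
      exact h3
    refine h4.trans ?_
    norm_num
  have hinv : 1 / c ≤ 2 * L ^ 12 := by
    rw [div_le_iff₀ hc]
    nlinarith
  -- the square root
  set r := Real.sqrt c with hr
  have hr0 : 0 < r := Real.sqrt_pos.2 hc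
  have hrr : r ^ 2 = c := Real.sq_sqrt hc.le
  have hy : (r * L ^ 6) ^ 2 = c * L ^ 12 := by
    rw [mul_pow, hrr, ← pow_mul]
  have hy0 : 0 < r * L ^ 6 := by positivity
  have hylo : 7 / 10 ≤ r * L ^ 6 := by
    by_contra h
    push Not at h
    nlinarith
  have hyhi : r * L ^ 6 ≤ 13 / 10 := by
    by_contra h
    push Not at h
    nlinarith
  have hX : r * L ^ 12 = (r * L ^ 6) * L ^ 6 := by ring
  have hX1 : 1 ≤ r * L ^ 12 := by
    rw [hX]
    nlinarith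
  have hX2 : r * L ^ 12 + 1 ≤ 2 * L ^ 6 := by
    rw [hX]
    nlinarith
  -- the fourth root
  set s := Real.sqrt r with hs
  have hs0 : 0 < s := Real.sqrt_pos.2 hr0
  have hss : s ^ 2 = r := Real.sq_sqrt hr0.le
  have hz : (s * L ^ 3) ^ 2 = r * L ^ 6 := by
    rw [mul_pow, hss, ← pow_mul]
  have hz0 : 0 < s * L ^ 3 := by positivity
  have hzhi : s * L ^ 3 ≤ 6 / 5 := by
    by_contra h
    push Not at h
    nlinarith
  have hc4 : c = s ^ 4 := by
    rw [← hrr, ← hss, ← pow_mul]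
  have hs1 : s ≤ 1 := by
    by_contra h
    push Not at h
    have : 1 < s ^ 4 := one_lt_pow₀ h (by norm_num)
    rw [← hc4] at this
    have : c ≤ 1 := hc8.trans (by norm_num)
    linarith
  have hcs : c ≤ s := by
    rw [hc4]
    calc s ^ 4 ≤ s ^ 1 := pow_le_pow_of_le_one hs0.le hs1 (by norm_num)
      _ = s := pow_one s
  exact ⟨hc, hc8, hinv, hX1, hX2, hs0, hzhi, hcs⟩

end StageNum

open StageNum in
theorem prf_StStageNum : StStageNum := by
  obtain ⟨L1, h1⟩ := Filter.eventually_atTop.1 ev_one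
  obtain ⟨L2, h2⟩ := Filter.eventually_atTop.1 ev_two
  refine ⟨max 10 (max L1 L2), le_max_left _ _, fun L hL c kap hc1 hc2 hk1 hk2 => ?_⟩
  have hL10 : 10 ≤ L := (le_max_left _ _).trans hL
  have hLa := h1 L (((le_max_left _ _).trans (le_max_right _ _)).trans hL)
  have hLb := h2 L (((le_max_right _ _).trans (le_max_right _ _)).trans hL)
  have hL0 : 0 < L := by linarith
  obtain ⟨hc, hc8, hinv, hX1, hX2, hs0, hzhi, hcs⟩ := roots L c hL10 hc1 hc2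
  have hE : 0 < Real.exp L := Real.exp_pos L
  have hE11 : 11 ≤ Real.exp L := by
    have := Real.add_one_le_exp L
    linarith
  have hy1 : 1 ≤ Real.exp L * kap := by nlinarith
  have hyhi : Real.exp L * kap ≤ 2 * Real.exp L := by nlinarith
  have hylo : Real.exp L / 2 ≤ Real.exp L * kap := by nlinarith
  have hsqle : Real.sqrt (Real.exp L * kap) ≤ Real.exp L * kap := by
    rw [Real.sqrt_le_left (by linarith)]
    nlinarith
  have hsq0 : 0 < Real.sqrt (Real.exp L * kap) := Real.sqrt_pos.2 (by linarith)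
  set Y := Real.sqrt (Real.exp L * kap) with hY
  set X := Real.sqrt c * L ^ 12 + 1 with hX
  have hX0 : 0 < X := by linarith
  -- lower bound for the square root
  have hYlo : Real.exp (L / 2) / 2 ≤ Y := by
    have e1 : (Real.exp (L / 2) / 2) ^ 2 = Real.exp L / 4 := by
      rw [div_pow, ← Real.exp_nat_mul]
      have : ((2 : ℕ) : ℝ) * (L / 2) = L := by push_cast; ring
      rw [this]
      norm_num
    apply Real.le_sqrt_of_sq_le
    rw [e1]
    linarith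
  have hYhi : Y ≤ 2 * Real.exp (L / 2) := by
    have e1 : (2 * Real.exp (L / 2)) ^ 2 = 4 * Real.exp L := by
      rw [mul_pow, ← Real.exp_nat_mul]
      have : ((2 : ℕ) : ℝ) * (L / 2) = L := by push_cast; ring
      rw [this]
      norm_num
    apply (Real.sqrt_le_left (by positivity)).2
    rw [e1]
    linarith
  refine ⟨hc, hc8, by linarith, ?_, ?_, ?_, ?_, ?_, ?_, ?_, ?_, ?_⟩
  · -- c X
    have h6 : (10 : ℝ) ^ 6 ≤ L ^ 6 := pow_le_pow_left₀ (by norm_num) hL10 6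
    have h7 : c * X ≤ c * (2 * L ^ 6) := mul_le_mul_of_nonneg_left hX2 hc.le
    have h8 : c * (2 * L ^ 6) * L ^ 6 ≤ 3 := by
      have : c * (2 * L ^ 6) * L ^ 6 = 2 * (c * L ^ 12) := by ring
      rw [this]
      linarith
    have h9 : c * (2 * L ^ 6) ≤ 3 / 10 ^ 6 := by
      rw [le_div_iff₀ (by positivity)]
      refine le_trans (mul_le_mul_of_nonneg_left h6 (by positivity)) h8
    refine h7.trans (h9.trans ?_)
    norm_num
  · -- the 40-th power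
    have h3 : Real.exp (2 * Real.sqrt L) * X / c ≤
        Real.exp (2 * Real.sqrt L) * (4 * L ^ 18) := by
      have : Real.exp (2 * Real.sqrt L) * X / c = Real.exp (2 * Real.sqrt L) * (X * (1 / c)) := by
        ring
      rw [this]
      have h4 : X * (1 / c) ≤ (2 * L ^ 6) * (2 * L ^ 12) := by
        apply mul_le_mul hX2 hinv (by positivity) (by positivity)
      have h5 : (2 * L ^ 6) * (2 * L ^ 12) = 4 * L ^ 18 := by ring
      rw [h5] at h4
      exact mul_le_mul_of_nonneg_left h4 (Real.exp_pos _).le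
    have h4 : (Real.exp (2 * Real.sqrt L) * X / c) ^ 40 ≤
        (Real.exp (2 * Real.sqrt L) * (4 * L ^ 18)) ^ 40 :=
      pow_le_pow_left₀ (by positivity) h3 40
    refine h4.trans ?_
    have h5 : (Real.exp (2 * Real.sqrt L) * (4 * L ^ 18)) ^ 40 =
        Real.exp (80 * Real.sqrt L) * (4 ^ 40 * L ^ 720) := by
      rw [mul_pow, mul_pow, ← Real.exp_nat_mul, ← pow_mul]
      congr 2
      push_cast
      ring
    rw [h5]
    have h6 : (4 : ℝ) ^ 40 ≤ L ^ 40 := pow_le_pow_left₀ (by norm_num) (by linarith) 40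
    calc Real.exp (80 * Real.sqrt L) * (4 ^ 40 * L ^ 720)
        ≤ Real.exp (80 * Real.sqrt L) * (L ^ 40 * L ^ 720) := by gcongr
      _ = Real.exp (80 * Real.sqrt L) * L ^ 760 := by rw [← pow_add]
      _ ≤ Real.exp L := hLa
  · -- om
    have h3 : c * Y ≤ 1 / 10 ^ 8 * (2 * Real.exp L) :=
      mul_le_mul hc8 (hsqle.trans hyhi) hsq0.le (by positivity)
    linarith
  · -- om / a
    have h3 : Y * Real.exp (-L) ≤ 1 := by
      have h4 : Y * Real.exp (-L) ≤ 2 * Real.exp (L / 2) * Real.exp (-L) :=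
        mul_le_mul_of_nonneg_right hYhi (Real.exp_pos _).le
      have h5 : 2 * Real.exp (L / 2) * Real.exp (-L) = 2 * Real.exp (-(L / 2)) := by
        rw [mul_assoc, ← Real.exp_add]
        congr 2
        ring
      rw [h5] at h4
      have h6 : 2 * Real.exp (-(L / 2)) ≤ 1 := by
        rw [Real.exp_neg, ← div_eq_mul_inv, div_le_one (Real.exp_pos _)]
        have := Real.add_one_le_exp (L / 2)
        linarith
      linarith
    calc c * Y * Real.exp (-L) = c * (Y * Real.exp (-L)) := by ring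
      _ ≤ c * 1 := mul_le_mul_of_nonneg_left h3 hc.le
      _ = c := mul_one c
      _ ≤ _ := hcs
  · -- X / om
    have h3 : X / (c * Y) ≤ (4 * L ^ 18) * (2 / Real.exp (L / 2)) := by
      have e : X / (c * Y) = (X * (1 / c)) * (1 / Y) := by
        field_simp
      rw [e]
      have h4 : X * (1 / c) ≤ 4 * L ^ 18 := by
        have h5 : (2 * L ^ 6) * (2 * L ^ 12) = 4 * L ^ 18 := by ring
        rw [← h5]
        exact mul_le_mul hX2 hinv (by positivity) (by positivity)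
      have h6 : 1 / Y ≤ 2 / Real.exp (L / 2) := by
        rw [div_le_div_iff₀ hsq0 (Real.exp_pos _)]
        linarith
      exact mul_le_mul h4 h6 (by positivity) (by positivity)
    refine h3.trans ?_
    have h7 : (4 * L ^ 18) * (2 / Real.exp (L / 2)) = (8 * L ^ 18) * Real.exp (-(L / 2)) := by
      rw [Real.exp_neg]
      ring
    rw [h7]
    have h8 : 8 * L ^ 18 ≤ L ^ 19 := by
      have : L ^ 19 = L * L ^ 18 := by ring
      rw [this]
      exact mul_le_mul_of_nonneg_right (by linarith) (by positivity)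
    calc (8 * L ^ 18) * Real.exp (-(L / 2)) ≤ Real.exp (L / 4) * Real.exp (-(L / 2)) :=
          mul_le_mul_of_nonneg_right (h8.trans hLb) (Real.exp_pos _).le
      _ = Real.exp (-(L / 4)) := by rw [← Real.exp_add]; congr 1; ring
  · rw [Real.exp_le_one_iff]
    linarith
  · apply Real.exp_le_exp.2
    nlinarith
  · -- the transition
    set s := Real.sqrt (Real.sqrt c) with hs
    rw [← Real.exp_add, ← Real.exp_add]
    apply Real.exp_le_exp.2
    have h3 : L ^ 3 * (5 / 12) ≤ 1 / (2 * s) := by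
      rw [le_div_iff₀ (by positivity)]
      nlinarith
    have h4 : L + L ^ 2 ≤ 3 / 10 * L ^ 3 := by
      have e1 : L ^ 3 = L * L ^ 2 := by ring
      have e2 : 10 * L ^ 2 ≤ L * L ^ 2 := mul_le_mul_of_nonneg_right hL10 (by positivity)
      have e3 : L ≤ L ^ 2 := by nlinarith
      rw [e1]
      linarith
    have h5 : 0 < L ^ 3 := by positivity
    linarith
  · -- c and 1/L - 1/L^2
    have e : 1 / L - 1 / L ^ 2 = (L - 1) / L ^ 2 := by
      field_simp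
    rw [e, le_div_iff₀ (by positivity)]
    have h3 : L ^ 2 ≤ L ^ 12 := pow_le_pow_right₀ (by linarith) (by norm_num)
    have h4 : c * L ^ 2 ≤ c * L ^ 12 := mul_le_mul_of_nonneg_left h3 hc.le
    linarith

end Pool.Agent.Work.MP_b0497c_an.Forced.Ode

end

section

set_option autoImplicit false

/-!
# ODE module of the forced Euler blow-up: the times of the chain
-/

open scoped ContDiff
open Set ContinuousLinearMap Filter Topology

namespace Pool.Agent.Work.MP_b0497c_an.Forced.Ode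

namespace Times

/-- The facts about one stage. -/
theorem one (hN : StPar) {L : ℝ} (D : EraD) (hD : Stage D L)
    (h5 : D.c * Real.sqrt (Real.exp L * D.kap) ≤ Real.exp L / 2)
    (h6 : D.c * Real.sqrt (Real.exp L * D.kap) * Real.exp (-L) ≤ Real.sqrt (Real.sqrt D.c))
    (h7 : (Real.sqrt D.c * L ^ 12 + 1) / (D.c * Real.sqrt (Real.exp L * D.kap)) ≤
      Real.exp (-(L / 4))) :
    0 < D.T ∧ D.T ≤ Real.exp (-(L / 4)) ∧ D.t0 < D.s0 ∧ D.s0 + Real.exp (-L) ≤ D.tf ∧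
      D.tf + 2 * Real.exp (-L) ≤ D.t0 + D.T ∧
      ∀ t ∈ Icc D.s0 (D.s0 + Real.exp (-L)), D.x t ≤ 2 * D.x0 := by
  obtain ⟨-, -, -, -, -, -, hom, hT, -, -, -, -, -, -, hx0, -, hx01, -, hts, hstf, htf, hxs, hxf,
    -⟩ := hN D hD.ok
  have hom' : D.om = D.c * Real.sqrt (Real.exp L * D.kap) := by
    rw [EraD.om, hD.a_eq]
  rw [← hom'] at h5 h6 h7
  rw [← hD.X_eq] at h7
  have hx0' : Real.sqrt (Real.sqrt D.c) = D.x0 := rfl
  rw [hx0'] at h6
  have hX := hD.ok.X1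
  have he : 0 < Real.exp (-L) := Real.exp_pos _
  have hee : Real.exp L * Real.exp (-L) = 1 := by
    rw [← Real.exp_add]
    simp
  have hinv : Real.exp (-L) ≤ D.x0 / D.om := by
    rw [le_div_iff₀ hom]
    linarith [mul_comm D.om (Real.exp (-L))]
  have hinv2 : 2 * Real.exp (-L) ≤ 1 / D.om := by
    rw [le_div_iff₀ hom]
    nlinarith [mul_le_mul_of_nonneg_right h5 he.le]
  refine ⟨hT, h7, hts, ?_, ?_, ?_⟩
  · have e1 : D.tf - D.s0 = (D.X - 1 - D.x0) / D.om := by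
      rw [EraD.tf, EraD.s0]
      ring
    have e2 : D.x0 / D.om ≤ (D.X - 1 - D.x0) / D.om := by
      apply div_le_div_of_nonneg_right _ hom.le
      linarith
    linarith
  · have e1 : D.t0 + D.T - D.tf = 1 / D.om := by
      rw [EraD.tf, EraD.T]
      ring
    linarith
  · intro t ht
    have e1 : D.x t = D.x D.s0 + D.om * (t - D.s0) := by
      rw [EraD.x, EraD.x]
      ring
    rw [e1, hxs]
    have e2 : D.om * (t - D.s0) ≤ D.om * Real.exp (-L) :=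
      mul_le_mul_of_nonneg_left (by linarith [ht.2]) hom.le
    linarith

end Times

theorem prf_StTimes (hN : StPar) (hS : StStageNum) : StTimes := by
  obtain ⟨Lst, h10, hS⟩ := hS
  refine ⟨Lst, h10, fun L0 hL0 D w q α hC => ?_⟩
  have h01 : 1 ≤ L0 := by linarith
  have hk : ∀ k : ℕ, Lst ≤ L0 ^ 2 ^ k := by
    intro k
    have h3 : L0 ^ 1 ≤ L0 ^ 2 ^ k := pow_le_pow_right₀ h01 Nat.one_le_two_pow
    rw [pow_one] at h3
    exact hL0.trans h3
  have hsq : ∀ k : ℕ, (L0 ^ 2 ^ k) ^ 2 = L0 ^ 2 ^ (k + 1) := by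
    intro k
    rw [← pow_mul, pow_succ]
  have hnum : ∀ k : ℕ, _ := fun k => hS (L0 ^ 2 ^ k) (hk k) (D k).c (D k).kap
    (hC.stage k).c_lo (hC.stage k).c_hi (hC.stage k).ok.kap1 (hC.stage k).ok.kap2
  have hone : ∀ k : ℕ, 0 < (D k).T ∧ (D k).T ≤ Real.exp (-(L0 ^ 2 ^ k / 4)) ∧
      (D k).t0 < (D k).s0 ∧ (D k).s0 + Real.exp (-(L0 ^ 2 ^ k)) ≤ (D k).tf ∧
      (D k).tf + 2 * Real.exp (-(L0 ^ 2 ^ k)) ≤ (D k).t0 + (D k).T ∧
      ∀ t ∈ Icc (D k).s0 ((D k).s0 + Real.exp (-(L0 ^ 2 ^ k))), (D k).x t ≤ 2 * (D k).x0 := by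
    intro k
    obtain ⟨-, -, -, -, -, h5, h6, h7, -⟩ := hnum k
    exact Times.one hN (D k) (hC.stage k) h5 h6 h7
  have hT1 : ∀ k : ℕ, (D k).T ≤ 1 := by
    intro k
    obtain ⟨-, -, -, -, -, -, -, -, h8, -⟩ := hnum k
    exact (hone k).2.1.trans h8
  have hT2 : ∀ k : ℕ, (D (k + 1)).T ≤ Real.exp (-(L0 ^ 2 ^ k)) := by
    intro k
    obtain ⟨-, -, -, -, -, -, -, -, -, h9, -⟩ := hnum k
    have h := (hone (k + 1)).2.1
    rw [← hsq] at h
    exact h.trans h9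
  have hnest : ∀ k : ℕ, (D (k + 1)).t0 + (D (k + 1)).T + Real.exp (-(L0 ^ 2 ^ k)) ≤
      (D k).t0 + (D k).T := by
    intro k
    rw [hC.t0_next k]
    linarith [hT2 k, (hone k).2.2.2.2.1]
  have hnest' : ∀ k : ℕ, (D (k + 1)).t0 + (D (k + 1)).T ≤ (D k).t0 + (D k).T := by
    intro k
    linarith [hnest k, Real.exp_pos (-(L0 ^ 2 ^ k))]
  have hmon1 : ∀ k : ℕ, (D k).s0 < (D (k + 1)).t0 := by
    intro k
    rw [hC.t0_next k]
    linarith [(hone k).2.2.2.1, Real.exp_pos (-(L0 ^ 2 ^ k))]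
  have hmon2 : ∀ k : ℕ, (D k).t0 ≤ (D (k + 1)).t0 := fun k =>
    ((hone k).2.2.1.trans (hmon1 k)).le
  have hmono : Monotone (fun k => (D k).t0) := monotone_nat_of_le_succ hmon2
  have hanti : Antitone (fun k => (D k).t0 + (D k).T) := antitone_nat_of_succ_le hnest'
  have hbd : ∀ j k : ℕ, (D j).t0 ≤ (D k).t0 + (D k).T := by
    intro j k
    have e1 : (D j).t0 ≤ (D (max j k)).t0 := hmono (le_max_left j k)
    have e2 : (D (max j k)).t0 + (D (max j k)).T ≤ (D k).t0 + (D k).T :=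
      hanti (le_max_right j k)
    linarith [(hone (max j k)).1]
  have hbdd : BddAbove (range (fun k => (D k).t0)) :=
    ⟨(D 0).t0 + (D 0).T, by
      rintro _ ⟨j, rfl⟩
      exact hbd j 0⟩
  have hlim := tendsto_atTop_ciSup hmono hbdd
  have hge : ∀ k : ℕ, (D k).t0 ≤ ⨆ k, (D k).t0 := fun k => le_ciSup hbdd k
  have hle : ∀ k : ℕ, (⨆ k, (D k).t0) ≤ (D k).t0 + (D k).T := fun k =>
    ciSup_le fun j => hbd j k
  refine ⟨⨆ k, (D k).t0, fun k => ?_, ?_⟩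
  · have hs1 : (1 : ℝ) ≤ (D k).t0 := by
      have := hmono (Nat.zero_le k)
      simp only [hC.start] at this
      exact this
    refine ⟨hs1, (hone k).2.2.1, ?_, (hmon1 k).trans_le (hge (k + 1)), ?_, hnest' k, hmon2 k,
      (hone k).2.2.2.2.2, ?_, ?_, ?_⟩
    · have e1 := (hone k).2.2.2.1
      have e2 := hC.t0_next k
      have e3 := (hone (k + 1)).2.2.1
      linarith
    · linarith [hle (k + 1), hnest k]
    · have e1 : (D k).t0 + (D k).T ≤ (D 0).t0 + (D 0).T := hanti (Nat.zero_le k)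
      linarith [hC.start, hT1 0]
    · exact Icc_subset_Icc (hmon2 k) (hnest' k)
    · exact Icc_subset_Icc (hone k).2.2.1.le le_rfl
  · refine tendsto_of_tendsto_of_tendsto_of_le_of_le hlim ((tendsto_add_atTop_iff_nat 1).2 hlim)
      (fun k => (hone k).2.2.1.le) (fun k => (hmon1 k).le)

end Pool.Agent.Work.MP_b0497c_an.Forced.Ode

end
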