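import Pool.Agent.Work.MP_b0497c_an.Forced.W.Fin
import Pool.Agent.Work.MP_b0497c_an.Bd.B01
import Pool.Agent.Work.MP_b0497c_an.Bd.B02
import Pool.Agent.Work.MP_b0497c_an.Forced.W.I4
import Pool.Agent.Work.MP_b0497c_an.Forced.W.J1
import Pool.Agent.Work.MP_b0497c_an.Forced.W.R2
import Pool.Agent.Work.MP_b0497c_an.Forced.W.R4
import Pool.Agent.Work.MP_b0497c_an.Forced.W.T3
import Pool.Agent.Work.MP_b0497c_an.Forced.W.T5
import Pool.Agent.Work.MP_b0497c_an.Forced.Ode.StmtsC
import Pool.Agent.Work.MP_b0497c_an.Forced.Ode.Base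
import Pool.Agent.Work.MP_b0497c_an.Bd.B10
import Pool.Agent.Work.MP_b0497c_an.Bd.B12
import Pool.Agent.Work.MP_b0497c_an.Forced.Ode.Coef
import Pool.Agent.Work.MP_b0497c_an.Forced.Ode.Conv2
import Pool.Agent.Work.MP_b0497c_an.Forced.Ode.Era
import Pool.Agent.Work.MP_b0497c_an.Bd.B11
import Pool.Agent.Work.MP_b0497c_an.Forced.Ode.Linear
import Pool.Agent.Work.MP_b0497c_an.Forced.Ode.ModM
import Pool.Agent.Work.MP_b0497c_an.Forced.Ode.ModWave
import Pool.Agent.Work.MP_b0497c_an.Forced.Ode.NewB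
import Pool.Agent.Work.MP_b0497c_an.Forced.Ode.Piv
import Pool.Agent.Work.MP_b0497c_an.Forced.Ode.Step
import Pool.Agent.Work.MP_b0497c_an.Forced.Ode.WaveEx
import Pool.Agent.Work.MP_b0497c_an.Forced.Ode.WaveNext

/-! Bundle of small proof modules (one section per former module). -/

section

set_option autoImplicit false

/-!
# WKB module: everything together
-/

namespace Pool.Agent.Work.MP_b0497c_an.Forced.W

theorem hB3 : claimB3 := prfB3 prfA1 prfA2
theorem hB4 : claimB4 := prfB4 prfA1 prfA2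
theorem hB5 : claimB5 := prfB5 prfA2 prfC2
theorem hB6 : claimB6 := prfB6 prfA2 prfB2
theorem hD1 : claimD1 := prfD1 prfC1
theorem hD2 : claimD2 := prfD2 prfA2 prfA3 prfB1 prfB2 hB3 hB4 hB5 hB6 prfB7
theorem hD3 : claimD3 := prfD3 prfA1 prfA2 prfA3 prfB2 hB3 hB4 hB5 prfC2 hD1
theorem hD4 : claimD4 := prfD4 prfA2 prfB1 hD2 hD3
theorem hD5 : claimD5 := prfD5 prfA2 prfB1 hB5 hD1 hD2 hD3
theorem hD7 : claimD7 := prfD7 hD1 hD2 hD4 hD5 prfD6
theorem hD8 : claimD8 := prfD8 prfA1 prfA2 hB3 hB4 hB5 prfB7 hD1 hD2 prfD6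
theorem hI5 : claimI5 := prfI5 prfI1 prfI4
theorem hT1 : claimT1 := prfT1 prfA1 prfA2
theorem hT4 : claimT4 := prfT4 prfA1 prfA2 prfA3 hT1
theorem hT5 : claimT5 := prfT5 prfA1 prfA2 prfT2 prfT3 hT4
theorem hT6 : claimT6 := prfT6 prfA1 prfA2 hT4 hT5
theorem hR1 : claimR1 := prfR1 hT4
theorem hR2 : claimR2 := prfR2 hT4 hR1
theorem hR4 : claimR4 := prfR4 prfA1 prfA2 prfA3 prfI1 prfI2 prfI3 prfI4 hI5 prfI6 hT4

/-- The WKB module. -/
theorem prfWKB : claimWKB :=
  wkb prfA1 prfA2 prfA3 prfI1 prfI4 prfI6 prfJ1 prfJ2 hD7 hD8 hT6 hR2 prfR3 hR4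

end Pool.Agent.Work.MP_b0497c_an.Forced.W

end

section

set_option autoImplicit false

/-!
# ODE module of the forced Euler blow-up: the cascade exists
-/

open scoped ContDiff Matrix
open Set ContinuousLinearMap Filter Topology

namespace Pool.Agent.Work.MP_b0497c_an.Forced.Ode

namespace CascFin

theorem toV_neg (h1 : StConv1) (x : E3) : toV (-x) = - toV x := by
  obtain ⟨-, -, -, -, -, -, -, -, -, -, -, hs, -⟩ := h1
  have := hs (-1) x
  rwa [neg_one_smul, neg_one_smul] at this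

theorem kelvin_conv (h1 : StConv1) (A : Op) (K X : E3) :
    W.kelvin (toMat A) (toV K) (toV X) =
      toV (-(A X) + (2 * inner ℝ K (A X) / ‖K‖ ^ 2) • K) := by
  have hneg := toV_neg h1
  obtain ⟨hmv, -, -, -, -, -, -, -, hdot, -, hadd, hs, -⟩ := h1
  unfold W.kelvin
  rw [hmv, hdot, hdot, hadd, hs, hneg, real_inner_self_eq_norm_sq]

theorem mod_congr {E : Type} [NormedAddCommGroup E] [NormedSpace ℝ E] {Lam : ℕ → ℝ}
    {I : ℕ → Set ℝ} {mu nu : ℕ → ℝ → ℝ} {N : ℕ} {f : ℕ → ℝ → E} (h : ModV Lam I mu N f)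
    (hmn : ∀ k, ∀ t ∈ I k, mu k t = nu k t) : ModV Lam I nu N f := by
  refine ⟨h.1, fun d hd => ?_⟩
  obtain ⟨n, hn⟩ := h.2 d hd
  exact ⟨n, fun k t ht => by rw [← hmn k t ht]; exact hn k t ht⟩

end CascFin

open CascFin

set_option maxHeartbeats 4000000 in
theorem casc_exists_of (hC : StChain) (hT : StTimes) (hS : StStageNum) (hMW : StModWave)
    (hMM : StModM) (hMF : StModF) (h1 : StConv1) (h2 : StConv2) (hN : StCascNum) :
    Nonempty Casc := by
  obtain ⟨A1, hA1, hC⟩ := hC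
  obtain ⟨A2, hA2, hT⟩ := hT
  obtain ⟨A3, hA3, hS⟩ := hS
  obtain ⟨A4, hA4, hMM⟩ := hMM
  obtain ⟨A5, hA5, hN⟩ := hN
  obtain ⟨L0, hL1, hL2, hL3, hL4, hL5⟩ : ∃ L0 : ℝ, A1 ≤ L0 ∧ A2 ≤ L0 ∧ A3 ≤ L0 ∧ A4 ≤ L0 ∧
      A5 ≤ L0 := by
    refine ⟨A1 ⊔ A2 ⊔ A3 ⊔ A4 ⊔ A5, ?_, ?_, ?_, ?_, ?_⟩ <;> simp
  have hL10 : (10 : ℝ) ≤ L0 := hA1.trans hL1
  obtain ⟨D, w, q, α, hch⟩ := hC L0 hL1
  obtain ⟨Ts, hTs, hTlim⟩ := hT L0 hL2 D w q α hch
  have hmodM := hMM L0 hL4 D w q α hch
  have hmodq := fun N => (hMW L0 D w q α N (by linarith) hch (hmodM N)).1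
  have hmodw := fun N => (hMW L0 D w q α N (by linarith) hch (hmodM N)).2
  obtain ⟨F, Fi, hF0, hFd, hFFi, hFiF, hFb, hFmod, hFq⟩ := hMF L0 D w q α (by linarith) hch hmodM
  obtain ⟨hNk, hNerr⟩ := hN L0 hL5 (fun k => L0 ^ 2 ^ k) (fun _ => rfl)
  have hkel := kelvin_conv h1
  have hneg := toV_neg h1
  have h1' := h1
  obtain ⟨hmv, hmul, hid, hadj, hmadd, hmsmul, hro, htr, hdot, hnorm, hvadd, hvsmul, hsurj, hinj,
    hom⟩ := h1'
  obtain ⟨hder, hcd, hmder, hmodv, hmodm⟩ := h2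
  set L : ℕ → ℝ := fun k => L0 ^ 2 ^ k with hLdef
  have hLk : ∀ k, L0 ≤ L k := fun k => le_self_pow₀ (by linarith) (by positivity)
  have hae : ∀ k, (D k).a = Real.exp (L k) := fun k => (hch.stage k).a_eq
  have hJ : ∀ k, Icc ((D k).s0) ((D k).t0 + (D k).T - Real.exp (-(L k)) + Real.exp (-(L k)))
      = (D k).J := fun k => by rw [sub_add_cancel]; rfl
  have hαpos : ∀ k, ∀ t ∈ (D k).J, 0 < α k t := fun k t ht => (hch.pack k).α_pos t ht
  have habs : ∀ k, ∀ t ∈ (D k).J, α k t = |α k t| := fun k t ht =>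
    (abs_of_pos (hαpos k t ht)).symm
  have hs0J : ∀ k, (D k).s0 ∈ (D k).J := by
    intro k
    have h := hTs k
    refine ⟨le_refl _, ?_⟩
    have := Real.exp_pos (-(L0 ^ 2 ^ k))
    linarith [h.2.2.2.1, h.2.2.2.2.1]
  have hw1 : ∀ N, ModV (fun k => Real.exp (L0 ^ 2 ^ k)) (fun k => (D k).J) (fun k t => |α k t|) N
      w := by
    intro N
    have h3 := hmodw N
    refine mod_congr ⟨h3.1, fun d hd => h3.2 d (by omega)⟩ habs
  have h01 : ∀ k : ℕ, ∀ t ∈ (D k).J, (0 : ℝ) ≤ 1 := fun _ _ _ => zero_le_one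
  refine ⟨{
    Lam := fun k => Real.exp (L k)
    Nf := fun k => Real.exp (2 * L k ^ 2)
    a := fun k => Real.exp (L k ^ 2 + L k)
    b := fun k => Real.exp (-(L k ^ 3 / 10))
    rho := fun k => Real.exp (-(5 * L k))
    R := fun k => Real.exp (-(3 * L k))
    s := fun k => (D k).s0
    e := fun k => (D k).t0 + (D k).T - Real.exp (-(L k))
    del := fun k => Real.exp (-(L k))
    p := fun k t => |α k t|
    kap := fun k => toV (q k (D k).s0)
    M := fun k t => toMat ((D k).M t)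
    F := fun k t => toMat (F k t)
    Fi := fun k t => toMat (Fi k t)
    K := fun k t => toV (q k t)
    w := fun k t => toV (w k t)
    two_le_Lam := fun k => (hNk k).2.2.2.1
    a_nonneg := fun k => (Real.exp_pos _).le
    b_nonneg := fun k => (Real.exp_pos _).le
    a_le := fun k => (hNk k).2.2.2.2.1
    rho_pos := fun k => Real.exp_pos _
    rho_le := fun k => (hNk k).2.2.2.2.2.1
    rho_inv := ⟨5, fun k => (hNk k).2.2.2.2.2.2.1⟩
    R_le := fun k => ((hNk k).2.2.2.2.2.2.2.1).trans (by norm_num)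
    del_pos := fun k => Real.exp_pos _
    del_inv := ⟨1, fun k => (hNk k).2.2.2.2.2.2.2.2.1⟩
    s_le := fun k => ?_
    len_le := ⟨1, fun k => ?_⟩
    p_nonneg := fun k t => abs_nonneg _
    p_le := fun k t ht => ?_
    p_small := fun k t ht => ?_
    kap_ge := fun k => ?_
    kap_le := ⟨2, fun k j => ?_⟩
    F_ball := fun k t ht y hy => ?_
    mod_M := fun j l => ?_
    mod_F := fun j l => ?_
    mod_Fi := fun j l => ?_
    mod_w := fun j => ?_
    F_Fi := fun k t => ?_
    F_deriv := fun k t j l => ?_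
    K_kap := fun k t => ?_
    w_K := fun k t => ?_
    w_eq := fun k t => ?_
    trace_M := fun k t => ?_
    dom := ⟨2, fun k X f hX hf hX0 hKX hKf hXd Dc hDc hfb t ht => ?_⟩
    Ts := Ts
    s_pos := fun k => ?_
    s_next := fun k => (hTs k).2.2.1
    s_lt := fun k => (hTs k).2.2.2.1
    s_lim := hTlim
    Ts_le := fun k => ?_
    e_le := fun k => ?_
    R_zero := (hNk 0).2.2.2.2.2.2.2.1
    R_pos := fun k => Real.exp_pos _
    R_next := fun k => (hNk k).2.2.2.2.2.2.2.2.2.1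
    M_next := fun k t => ?_
    inner := fun k t ht x hx => ?_
    err := hNerr
    vort := fun k t ht σ hσ => ?_ }⟩
  · -- s_le
    have h := hTs k
    show (D k).s0 + Real.exp (-(L k)) ≤ (D k).t0 + (D k).T - Real.exp (-(L k))
    have h3 := h.2.2.1
    have h4 := (hTs (k + 1)).2.2.2.1
    have h5 := h.2.2.2.2.1
    simp only [hLdef]
    linarith
  · -- len_le
    have h := hTs k
    show (D k).t0 + (D k).T - Real.exp (-(L k)) + Real.exp (-(L k)) - (D k).s0 ≤ _
    have h3 : (2 : ℝ) ≤ Real.exp (L k) := (hNk k).2.2.2.1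
    have h4 := h.2.2.2.2.2.2.2.2.1
    have h5 := h.1
    have h6 := h.2.1
    rw [pow_one]
    linarith
  · -- p_le
    rw [hJ k] at ht
    show |α k t| ≤ _
    rw [← habs k t ht]
    have h3 := (hch.pack k).α_le t ht
    have h4 : L0 ^ 2 ^ (k + 1) = L k ^ 2 := by
      simp only [hLdef]
      rw [pow_succ 2 k, pow_mul]
    rw [h4, hae k, ← Real.exp_add] at h3
    rwa [add_comm] at h3
  · -- p_small
    have h3 := (hTs k).2.2.2.2.2.2.2.1 t ht
    have htJ : t ∈ (D k).J := by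
      refine ⟨ht.1, ?_⟩
      have h := hTs k
      have h5 := ht.2
      have h6 := Real.exp_pos (-(L0 ^ 2 ^ k))
      have h7 := (hTs (k + 1)).2.2.2.1
      simp only [hLdef] at h5
      linarith [h.2.2.1, h.2.2.2.2.1]
    show |α k t| ≤ _
    rw [← habs k t htJ]
    have h5 := (hch.pack k).α_small t htJ h3
    have h4 : L0 ^ 2 ^ (k + 1) = L k ^ 2 := by
      simp only [hLdef]
      rw [pow_succ 2 k, pow_mul]
    rw [h4, hae k] at h5
    have hst := hch.stage k
    have h6 := hS (L k) (hL3.trans (hLk k)) (D k).c (D k).kap hst.c_lo hst.c_hi hst.ok.kap1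
      hst.ok.kap2
    exact h5.trans h6.2.2.2.2.2.2.2.2.2.2.1
  · -- kap_ge
    show 1 / 2 ≤ toV (q k (D k).s0) ⬝ᵥ toV (q k (D k).s0)
    rw [hdot, real_inner_self_eq_norm_sq]
    have h3 := (hch.pack k).q_lo (D k).s0 ((hTs k).2.2.2.2.2.2.2.2.2.2 (hs0J k))
    nlinarith
  · -- kap_le
    show |toV (q k (D k).s0) j| ≤ _
    have h3 := (hch.pack k).q_hi (D k).s0 ((hTs k).2.2.2.2.2.2.2.2.2.2 (hs0J k))
    have h4 : |toV (q k (D k).s0) j| ≤ ‖toV (q k (D k).s0)‖ := by
      rw [← Real.norm_eq_abs]; exact norm_le_pi_norm _ j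
    have h5 := (hnorm (q k (D k).s0)).1
    have h6 : (2 : ℝ) ≤ Real.exp (L k) := (hNk k).2.2.2.1
    rw [hae k] at h3
    nlinarith
  · -- F_ball
    rw [hJ k] at ht
    obtain ⟨y', rfl⟩ := hsurj y
    show ‖toMat (F k t) *ᵥ toV y'‖ ≤ _
    rw [hmv]
    have h3 := (hnorm (F k t y')).1
    have h4 := (F k t).le_opNorm y'
    have h5 := (hnorm y').2
    have h6 := (hFb k t ht).1
    have h7 := (hNk k).2.2.2.2.2.2.2.2.2.2.1
    have h8 : ‖F k t‖ * ‖y'‖ ≤ Real.exp (L k) * (2 * Real.exp (-(5 * L k))) :=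
      mul_le_mul h6 (h5.trans (by linarith)) (norm_nonneg _) (Real.exp_pos _).le
    nlinarith
  · -- mod_M
    have h3 := hmodm _ _ _ _ h01 (fun N => hmodM N) j l
    have h4 : (fun k => Icc ((D k).s0) ((D k).t0 + (D k).T - Real.exp (-(L k)) +
      Real.exp (-(L k)))) = fun k => (D k).J := funext hJ
    rw [h4]
    exact h3
  · have h3 := hmodm _ _ _ _ h01 (fun N => (hFmod N).1) j l
    have h4 : (fun k => Icc ((D k).s0) ((D k).t0 + (D k).T - Real.exp (-(L k)) +
      Real.exp (-(L k)))) = fun k => (D k).J := funext hJ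
    rw [h4]
    exact h3
  · have h3 := hmodm _ _ _ _ h01 (fun N => (hFmod N).2) j l
    have h4 : (fun k => Icc ((D k).s0) ((D k).t0 + (D k).T - Real.exp (-(L k)) +
      Real.exp (-(L k)))) = fun k => (D k).J := funext hJ
    rw [h4]
    exact h3
  · have h3 := hmodv _ _ _ _ (fun k t _ => abs_nonneg _) hw1 j
    have h4 : (fun k => Icc ((D k).s0) ((D k).t0 + (D k).T - Real.exp (-(L k)) +
      Real.exp (-(L k)))) = fun k => (D k).J := funext hJ
    rw [h4]
    exact h3
  · -- F_Fi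
    show toMat (F k t) * toMat (Fi k t) = 1
    rw [← hmul, hFFi, hid]
  · -- F_deriv
    show HasDerivAt (fun t => toMat (F k t) j l) ((toMat ((D k).M t) * toMat (F k t)) j l) t
    rw [← hmul]
    exact hmder _ _ _ (hFd k t) j l
  · -- K_kap
    show (toMat (F k t))ᵀ *ᵥ toV (q k t) = _
    rw [← hadj, hmv, hFq]
  · -- w_K
    show toV (q k t) ⬝ᵥ toV (w k t) = 0
    rw [hdot]
    exact (hch.pack k).wave.orth t
  · -- w_eq
    show HasDerivAt (fun s => toV (w k s)) (W.kelvin (toMat ((D k).M t)) (toV (q k t))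
      (toV (w k t))) t
    rw [hkel]
    exact (hder _ _ _).1 ((hch.pack k).wave.w_deriv t)
  · -- trace
    show (toMat ((D k).M t)).trace = 0
    rw [htr]
    exact (hch.pack k).flow.trace t
  · -- dom
    rw [hJ k] at ht hfb
    choose y hy using fun t => hsurj (X t)
    choose z hz using fun t => hsurj (f t)
    have hXy : X = fun t => toV (y t) := funext fun t => (hy t).symm
    have hfz : f = fun t => toV (z t) := funext fun t => (hz t).symm
    have hy0 : y (D k).s0 = 0 := by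
      apply hinj
      rw [hy]
      have h3 : toV (0 : E3) = 0 := by
        have := hvsmul 0 (0 : E3)
        rw [zero_smul, zero_smul] at this
        exact this
      rw [h3]
      exact hX0
    have h3 := (hch.pack k).dom y (fun t => - z t) t (2 * Dc) ht (by linarith) hy0 ?_
    · show ‖X t‖ ≤ Dc * Real.exp (L k) ^ 2 * |α k t|
      rw [← habs k t ht]
      have h4 := (hnorm (y t)).1
      rw [hy t] at h4
      have h6 : (2 : ℝ) ≤ Real.exp (L k) := (hNk k).2.2.2.1
      rw [hae k] at h3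
      have h7 := hαpos k t ht
      have h8 : Real.exp (L k) * (2 * Dc) * α k t ≤ Dc * Real.exp (L k) ^ 2 * α k t := by
        have : 0 ≤ Dc * Real.exp (L k) * α k t := by positivity
        nlinarith
      linarith
    · intro τ hτ
      have hτJ : τ ∈ (D k).J := ⟨hτ.1, hτ.2.trans ht.2⟩
      refine ⟨?_, ?_, ?_⟩
      · rw [← hdot, hy]
        exact hKX τ
      · show ‖- z τ‖ ≤ _
        rw [norm_neg]
        have h4 := (hnorm (z τ)).2
        rw [hz τ] at h4
        have h5 := hfb τ hτJ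
        have h5' : ‖f τ‖ ≤ Dc * |α k τ| := h5
        rw [← habs k τ hτJ] at h5'
        linarith
      · refine (hder _ _ _).2 ?_
        have h4 : HasDerivAt X (W.kelvin (toMat ((D k).M τ)) (toV (q k τ)) (X τ) - f τ) τ :=
          hXd τ
        have h5 : (fun s => toV (y s)) = X := hXy.symm
        rw [h5]
        convert h4 using 1
        rw [hvadd, hneg, hz, ← hy τ, hkel, sub_eq_add_neg]
  · -- s_pos
    have h := hTs k
    show 1 / 2 ≤ (D k).s0
    linarith [h.1, h.2.1]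
  · -- Ts_le
    have h := hTs k
    show Ts ≤ (D k).t0 + (D k).T - Real.exp (-(L k))
    have h3 := h.2.2.2.2.1
    simp only [hLdef]
    linarith
  · -- e_le
    show (D k).t0 + (D k).T - Real.exp (-(L k)) + Real.exp (-(L k)) ≤ 3
    rw [sub_add_cancel]
    exact (hTs k).2.2.2.2.2.2.2.2.1
  · -- M_next
    show toMat ((D (k + 1)).M t) = toMat ((D k).M t) + Matrix.vecMulVec (toV (w k t)) (toV (q k t))
    rw [hch.M_next, hmadd, hro]
  · -- inner
    have htJ : t ∈ (D k).J := by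
      refine ⟨ht.1, ?_⟩
      have h := hTs k
      have h6 := Real.exp_pos (-(L0 ^ 2 ^ k))
      linarith [ht.2, h.2.2.2.2.1]
    have htI := (hTs k).2.2.2.2.2.2.2.2.2.2 htJ
    obtain ⟨x', rfl⟩ := hsurj x
    have hx' : ‖toV x'‖ ≤ Real.exp (-(3 * L (k + 1))) := hx
    have h5 := (hnorm x').2
    constructor
    · show ‖toMat (Fi k t) *ᵥ toV x'‖ < Real.exp (-(5 * L k)) / 2
      rw [hmv]
      have h3 := (hnorm (Fi k t x')).1
      have h4 := (Fi k t).le_opNorm x'
      have h6 := (hFb k t htJ).2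
      have h7 := (hNk k).2.2.2.2.2.2.2.2.2.2.2.1
      have h8 : ‖Fi k t‖ * ‖x'‖ ≤ Real.exp (L k) * (2 * Real.exp (-(3 * L (k + 1)))) :=
        mul_le_mul h6 (h5.trans (by linarith)) (norm_nonneg _) (Real.exp_pos _).le
      have h9 : 2 * Real.exp (L k) * Real.exp (-(3 * L (k + 1))) < Real.exp (-(5 * L k)) / 2 := h7
      nlinarith
    · show Real.exp (2 * L k ^ 2) * |toV (q k t) ⬝ᵥ toV x'| ≤ 1 / 12
      rw [hdot]
      have h3 := abs_real_inner_le_norm (q k t) x'
      have h4 := (hch.pack k).q_hi t htI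
      rw [hae k] at h4
      have h7 := (hNk k).2.2.2.2.2.2.2.2.2.2.2.2.1
      have h8 : ‖q k t‖ * ‖x'‖ ≤ 2 * Real.exp (L k) * (2 * Real.exp (-(3 * L (k + 1)))) :=
        mul_le_mul h4 (h5.trans (by linarith)) (norm_nonneg _) (by positivity)
      exact (mul_le_mul_of_nonneg_left (h3.trans h8) (Real.exp_pos _).le).trans h7
  · -- vort
    have htJ : t ∈ (D k).J := by
      refine ⟨ht.1, ?_⟩
      have h := hTs k
      have h6 := Real.exp_pos (-(L0 ^ 2 ^ k))
      linarith [ht.2, h.2.2.2.2.1, (hTs (k + 1)).2.2.2.1]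
    have htI := (hTs k).2.2.2.2.2.2.2.2.2.2 htJ
    have h3 := (hch.pack k).vort t htI σ _ rfl
    obtain ⟨j, hj⟩ := hom ((D k).M t + σ • ro (w k t) (q k t))
    refine ⟨j, ?_⟩
    show (k : ℝ) ≤ |om (toMat ((D k).M t) + σ • Matrix.vecMulVec (toV (w k t)) (toV (q k t))) j|
    rw [hmadd, hmsmul, hro] at hj
    have h4 := (hNk k).2.2.2.2.2.2.2.2.2.2.2.2.2
    rw [hae k] at h3
    linarith

end Pool.Agent.Work.MP_b0497c_an.Forced.Ode

end

section

set_option autoImplicit false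

/-!
# ODE module, item CN: the numbers of the cascade
-/

open scoped ContDiff Matrix
open Set ContinuousLinearMap Filter Topology

namespace Pool.Agent.Work.MP_b0497c_an.Forced.Ode

namespace CascNum

theorem one_add {L : ℝ} (hL : 10 ≤ L) :
    1 + Real.exp (L ^ 2 + L) ≤ Real.exp (L ^ 2 + 2 * L) := by
  have h1 : (1 : ℝ) ≤ Real.exp (L ^ 2 + L) := Real.one_le_exp (by positivity)
  have h2 : (2 : ℝ) ≤ Real.exp L := by
    have := Real.add_one_le_exp L
    linarith
  calc 1 + Real.exp (L ^ 2 + L) ≤ 2 * Real.exp (L ^ 2 + L) := by linarith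
    _ ≤ Real.exp L * Real.exp (L ^ 2 + L) := by gcongr
    _ = Real.exp (L ^ 2 + 2 * L) := by rw [← Real.exp_add]; ring_nf

theorem err {L : ℝ} {m n k : ℕ} (hL : 10 ≤ L)
    (hL1 : 10 * (2 * m + n + 4) + 20 * (2 * m + 2) ≤ L) (hk : (k : ℝ) ≤ L) :
    Real.exp L ^ n * ((1 + Real.exp (L ^ 2 + L)) ^ 2 *
        ((Real.exp (2 * L ^ 2) * Real.exp (-(5 * L))) ^ 2)⁻¹
      + (Real.exp (2 * L ^ 2) * Real.exp (-(5 * L))) ^ m * (Real.exp (-(L ^ 3 / 10))
        + ((1 + Real.exp (L ^ 2 + L)) /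
          (Real.exp (2 * L ^ 2) * Real.exp (-(5 * L)))) ^ (2 * m + 2))) ≤ (1 / 2) ^ k := by
  have hm0 : (0 : ℝ) ≤ m := Nat.cast_nonneg m
  have hn0 : (0 : ℝ) ≤ n := Nat.cast_nonneg n
  have hN : Real.exp (2 * L ^ 2) * Real.exp (-(5 * L)) = Real.exp (2 * L ^ 2 - 5 * L) := by
    rw [← Real.exp_add]
    ring_nf
  rw [hN]
  have hA := one_add hL
  have hA0 : 0 ≤ 1 + Real.exp (L ^ 2 + L) := by positivity
  have t1 : Real.exp L ^ n * ((1 + Real.exp (L ^ 2 + L)) ^ 2 *
      ((Real.exp (2 * L ^ 2 - 5 * L)) ^ 2)⁻¹) ≤ Real.exp (-L - 2) := by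
    calc Real.exp L ^ n * ((1 + Real.exp (L ^ 2 + L)) ^ 2 *
          ((Real.exp (2 * L ^ 2 - 5 * L)) ^ 2)⁻¹)
        ≤ Real.exp L ^ n * ((Real.exp (L ^ 2 + 2 * L)) ^ 2 *
          ((Real.exp (2 * L ^ 2 - 5 * L)) ^ 2)⁻¹) := by gcongr
      _ = Real.exp (n * L + (2 * (L ^ 2 + 2 * L) + -(2 * (2 * L ^ 2 - 5 * L)))) := by
          have e1 := Real.exp_nat_mul (L ^ 2 + 2 * L) 2
          have e2 := Real.exp_nat_mul (2 * L ^ 2 - 5 * L) 2
          push_cast at e1 e2
          rw [Real.exp_add (n * L) _, Real.exp_add (2 * (L ^ 2 + 2 * L)) _,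
            Real.exp_neg (2 * (2 * L ^ 2 - 5 * L)), Real.exp_nat_mul L n, e1, e2]
      _ ≤ Real.exp (-L - 2) := by
          apply Real.exp_le_exp.2
          nlinarith
  have t2 : Real.exp L ^ n * ((Real.exp (2 * L ^ 2 - 5 * L)) ^ m * Real.exp (-(L ^ 3 / 10)))
      ≤ Real.exp (-L - 2) := by
    calc Real.exp L ^ n * ((Real.exp (2 * L ^ 2 - 5 * L)) ^ m * Real.exp (-(L ^ 3 / 10)))
        = Real.exp (n * L + (m * (2 * L ^ 2 - 5 * L) + -(L ^ 3 / 10))) := by
          rw [Real.exp_add, Real.exp_add, Real.exp_nat_mul, Real.exp_nat_mul]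
      _ ≤ Real.exp (-L - 2) := by
          apply Real.exp_le_exp.2
          have h1 : L ^ 2 * (2 * m + n + 4) ≤ L ^ 3 / 10 := by
            have h2 : (2 * m + n + 4 : ℝ) ≤ L / 10 := by linarith
            calc L ^ 2 * (2 * m + n + 4) ≤ L ^ 2 * (L / 10) := by gcongr
              _ = L ^ 3 / 10 := by ring
          have h3 : (n : ℝ) * L ≤ n * L ^ 2 := by
            apply mul_le_mul_of_nonneg_left _ hn0
            nlinarith
          have h4 : 0 ≤ (m : ℝ) * L := by positivity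
          nlinarith
  have t3 : Real.exp L ^ n * ((Real.exp (2 * L ^ 2 - 5 * L)) ^ m *
      ((1 + Real.exp (L ^ 2 + L)) / Real.exp (2 * L ^ 2 - 5 * L)) ^ (2 * m + 2))
      ≤ Real.exp (-L - 2) := by
    have h1 : (1 + Real.exp (L ^ 2 + L)) / Real.exp (2 * L ^ 2 - 5 * L) ≤
        Real.exp (-L ^ 2 + 7 * L) := by
      rw [div_le_iff₀ (Real.exp_pos _), ← Real.exp_add]
      refine hA.trans (le_of_eq ?_)
      congr 1
      ring
    calc Real.exp L ^ n * ((Real.exp (2 * L ^ 2 - 5 * L)) ^ m *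
          ((1 + Real.exp (L ^ 2 + L)) / Real.exp (2 * L ^ 2 - 5 * L)) ^ (2 * m + 2))
        ≤ Real.exp L ^ n * ((Real.exp (2 * L ^ 2 - 5 * L)) ^ m *
          (Real.exp (-L ^ 2 + 7 * L)) ^ (2 * m + 2)) := by gcongr
      _ = Real.exp (n * L + (m * (2 * L ^ 2 - 5 * L) + ((2 * m + 2 : ℕ) : ℝ) *
          (-L ^ 2 + 7 * L))) := by
          rw [Real.exp_add (n * L) _, Real.exp_add (m * (2 * L ^ 2 - 5 * L)) _,
            Real.exp_nat_mul L n, Real.exp_nat_mul (2 * L ^ 2 - 5 * L) m,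
            Real.exp_nat_mul (-L ^ 2 + 7 * L) (2 * m + 2)]
      _ ≤ Real.exp (-L - 2) := by
          apply Real.exp_le_exp.2
          push_cast
          have h4 : 0 ≤ (m : ℝ) * L := by positivity
          nlinarith
  have hsum : Real.exp (-L - 2) + (Real.exp (-L - 2) + Real.exp (-L - 2)) ≤ Real.exp (-L) := by
    have h1 : Real.exp (-L) = Real.exp 2 * Real.exp (-L - 2) := by
      rw [← Real.exp_add]
      congr 1
      ring
    have h2 : (3 : ℝ) ≤ Real.exp 2 := by
      have := Real.add_one_le_exp (2 : ℝ)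
      linarith
    rw [h1]
    nlinarith [Real.exp_pos (-L - 2)]
  have hfin : Real.exp (-L) ≤ (1 / 2) ^ k := by
    have h1 : Real.exp (-L) ≤ Real.exp (-(k : ℝ)) := Real.exp_le_exp.2 (by linarith)
    have h2 : Real.exp (-(k : ℝ)) = (Real.exp (-1)) ^ k := by
      rw [← Real.exp_nat_mul]
      congr 1
      ring
    rw [h2] at h1
    refine h1.trans (pow_le_pow_left₀ (Real.exp_pos _).le ?_ k)
    rw [Real.exp_neg, one_div]
    refine inv_anti₀ (by norm_num) ?_
    have := Real.add_one_le_exp (1 : ℝ)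
    linarith
  calc _ = Real.exp L ^ n * ((1 + Real.exp (L ^ 2 + L)) ^ 2 *
          ((Real.exp (2 * L ^ 2 - 5 * L)) ^ 2)⁻¹)
        + (Real.exp L ^ n * ((Real.exp (2 * L ^ 2 - 5 * L)) ^ m * Real.exp (-(L ^ 3 / 10)))
        + Real.exp L ^ n * ((Real.exp (2 * L ^ 2 - 5 * L)) ^ m *
      ((1 + Real.exp (L ^ 2 + L)) / Real.exp (2 * L ^ 2 - 5 * L)) ^ (2 * m + 2))) := by ring
    _ ≤ Real.exp (-L - 2) + (Real.exp (-L - 2) + Real.exp (-L - 2)) :=
        add_le_add t1 (add_le_add t2 t3)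
    _ ≤ Real.exp (-L) := hsum
    _ ≤ _ := hfin

theorem ten_pow (k : ℕ) : 8 * (k : ℝ) + 8 ≤ 10 ^ 2 ^ k := by
  have h1 : k + 1 ≤ 2 ^ k := Nat.lt_two_pow_self
  have h2 : (10 : ℝ) ^ (k + 1) ≤ 10 ^ 2 ^ k := pow_le_pow_right₀ (by norm_num) h1
  have h3 : 8 * (k : ℝ) + 8 ≤ 10 ^ (k + 1) := by
    have h4 : ∀ k : ℕ, 8 * (k : ℝ) + 8 ≤ 10 ^ (k + 1) := by
      intro k
      induction k with
      | zero => norm_num
      | succ k ih =>
        rw [pow_succ]
        push_cast
        have : (0 : ℝ) ≤ k := Nat.cast_nonneg k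
        nlinarith
    exact h4 k
  linarith

end CascNum

open CascNum in
theorem prf_StCascNum : StCascNum := by
  refine ⟨10, le_rfl, fun L0 hL0 L hL => ?_⟩
  have hge : ∀ k : ℕ, 8 * (k : ℝ) + 8 ≤ L k := by
    intro k
    rw [hL]
    exact (ten_pow k).trans (pow_le_pow_left₀ (by norm_num) hL0 _)
  have h10 : ∀ k, 10 ≤ L k := by
    intro k
    rw [hL]
    calc (10 : ℝ) ≤ L0 := hL0
      _ = L0 ^ 1 := (pow_one _).symm
      _ ≤ L0 ^ 2 ^ k := pow_le_pow_right₀ (by linarith) Nat.one_le_two_pow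
  have hsq : ∀ k, L (k + 1) = L k ^ 2 := by
    intro k
    rw [hL, hL, pow_succ 2 k, pow_mul]
  have hk : ∀ k : ℕ, (k : ℝ) ≤ L k := by
    intro k
    have := hge k
    have : (0 : ℝ) ≤ k := Nat.cast_nonneg k
    linarith
  refine ⟨fun k => ?_, fun m => ?_⟩
  · have hLk := h10 k
    have hg := hge k
    set x := L k with hx
    have e2 : (2 : ℝ) ≤ Real.exp x := by
      have := Real.add_one_le_exp x
      linarith
    refine ⟨hLk, hsq k, hk k, e2, ?_, ?_, ?_, ?_, ?_, ?_, ?_, ?_, ?_, ?_⟩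
    · rw [← Real.exp_add]
      refine (one_add hLk).trans (Real.exp_le_exp.2 ?_)
      nlinarith
    · rw [Real.exp_le_one_iff]
      linarith
    · rw [← Real.exp_neg, ← Real.exp_nat_mul]
      apply Real.exp_le_exp.2
      push_cast
      linarith
    · rw [Real.exp_neg, one_div]
      refine inv_anti₀ (by norm_num) ?_
      have := Real.add_one_le_exp (3 * x)
      linarith
    · rw [← Real.exp_neg, neg_neg, pow_one]
    · rw [hsq k]
      apply Real.exp_le_exp.2
      nlinarith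
    · have h1 : Real.exp (-(3 * x)) = Real.exp x * (Real.exp x * Real.exp (-(5 * x))) := by
        rw [← Real.exp_add, ← Real.exp_add]
        congr 1
        ring
      rw [h1]
      have h2 : 0 ≤ Real.exp x * Real.exp (-(5 * x)) := by positivity
      nlinarith
    · rw [hsq k]
      have h1 : Real.exp (-(5 * x)) = Real.exp (3 * x ^ 2 - 6 * x) *
          (Real.exp x * Real.exp (-(3 * x ^ 2))) := by
        rw [← Real.exp_add, ← Real.exp_add]
        congr 1
        ring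
      have h2 : 5 ≤ Real.exp (3 * x ^ 2 - 6 * x) := by
        have h3 := Real.add_one_le_exp (3 * x ^ 2 - 6 * x)
        nlinarith
      have h4 : 0 < Real.exp x * Real.exp (-(3 * x ^ 2)) := by positivity
      rw [h1]
      nlinarith
    · rw [hsq k]
      have h1 : Real.exp (2 * x ^ 2) * (2 * Real.exp x * (2 * Real.exp (-(3 * x ^ 2)))) =
          4 * Real.exp (-(x ^ 2 - x)) := by
        have : Real.exp (-(x ^ 2 - x)) = Real.exp (2 * x ^ 2) * (Real.exp x *
            Real.exp (-(3 * x ^ 2))) := by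
          rw [← Real.exp_add, ← Real.exp_add]
          congr 1
          ring
        rw [this]
        ring
      rw [h1, Real.exp_neg]
      have h2 : 48 ≤ Real.exp (x ^ 2 - x) := by
        have h3 := Real.add_one_le_exp (x ^ 2 - x)
        nlinarith
      have h4 : (Real.exp (x ^ 2 - x))⁻¹ ≤ 48⁻¹ := inv_anti₀ (by norm_num) h2
      linarith
    · apply Real.le_sqrt_of_sq_le
      apply Real.le_sqrt_of_sq_le
      have h1 : Real.exp x = (Real.exp (x / 4)) ^ 4 := by
        rw [← Real.exp_nat_mul]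
        congr 1
        push_cast
        ring
      have h2 : 2 * (k : ℝ) ≤ Real.exp (x / 4) := by
        have := Real.add_one_le_exp (x / 4)
        linarith
      rw [h1, ← pow_mul]
      exact pow_le_pow_left₀ (by positivity) h2 4
  · refine ⟨2 * m + 2, fun n => ?_⟩
    filter_upwards [eventually_ge_atTop (10 * (2 * m + n + 4) + 20 * (2 * m + 2))] with k hkk
    refine err (h10 k) ?_ (hk k)
    have h1 : ((10 * (2 * m + n + 4) + 20 * (2 * m + 2) : ℕ) : ℝ) ≤ k := by exact_mod_cast hkk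
    push_cast at h1
    linarith [hk k]

end Pool.Agent.Work.MP_b0497c_an.Forced.Ode

end

section

set_option autoImplicit false

/-!
# Algebra of the conversion to matrices
-/

open scoped ContDiff Matrix
open Set ContinuousLinearMap Filter Topology

namespace Pool.Agent.Work.MP_b0497c_an.Forced.Ode

namespace Conv1

/-- Entries of the image of a vector. -/
lemma apply_eq (A : Op) (x : E3) (j : Fin 3) :
    (A x) j = ∑ k, toMat A j k * x k := by
  have h := (EuclideanSpace.basisFun (Fin 3) ℝ).sum_repr x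
  conv_lhs => rw [← h]
  simp only [map_sum, map_smul, EuclideanSpace.basisFun_repr, EuclideanSpace.basisFun_apply,
    toMat, Matrix.of_apply]
  simp [mul_comm]

lemma mulVec_eq (A : Op) (x : E3) : toMat A *ᵥ toV x = toV (A x) := by
  funext j
  rw [toV, apply_eq]
  rfl

lemma comp_eq (A B : Op) : toMat (A ∘L B) = toMat A * toMat B := by
  ext j k
  rw [Matrix.mul_apply]
  simp only [toMat, Matrix.of_apply]
  rw [ContinuousLinearMap.comp_apply, apply_eq]
  rfl

lemma id_eq : toMat (ContinuousLinearMap.id ℝ E3) = 1 := by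
  ext j k
  simp only [toMat, Matrix.of_apply, ContinuousLinearMap.id_apply, Matrix.one_apply]
  simp

lemma adj_eq (A : Op) : toMat (adjoint A) = (toMat A)ᵀ := by
  ext j k
  rw [Matrix.transpose_apply]
  simp only [toMat, Matrix.of_apply]
  have h1 : inner ℝ (EuclideanSpace.single j (1 : ℝ)) (adjoint A (EuclideanSpace.single k 1)) =
      (adjoint A (EuclideanSpace.single k 1)) j := by
    rw [EuclideanSpace.inner_single_left]; simp
  have h2 : inner ℝ (A (EuclideanSpace.single j (1 : ℝ))) (EuclideanSpace.single k (1 : ℝ)) =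
      (A (EuclideanSpace.single j 1)) k := by
    rw [EuclideanSpace.inner_single_right]; simp
  rw [← h1, ← h2, adjoint_inner_right]

lemma ro_eq (v k : E3) : toMat (ro v k) = Matrix.vecMulVec (toV v) (toV k) := by
  ext j l
  rw [Matrix.vecMulVec_apply]
  simp only [toMat, Matrix.of_apply, ro, ContinuousLinearMap.smulRight_apply, innerSL_apply_apply]
  rw [EuclideanSpace.inner_single_right]
  simp [toV, mul_comm]

lemma trace_eq (A : Op) : (toMat A).trace = LinearMap.trace ℝ E3 A.toLinearMap := by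
  rw [LinearMap.trace_eq_matrix_trace ℝ (EuclideanSpace.basisFun (Fin 3) ℝ).toBasis]
  congr 1

lemma dot_eq (x y : E3) : toV x ⬝ᵥ toV y = inner ℝ x y := by
  simp [toV, dotProduct, PiLp.inner_apply, mul_comm]

lemma norm_bounds (x : E3) : ‖toV x‖ ≤ ‖x‖ ∧ ‖x‖ ≤ 2 * ‖toV x‖ := by
  have hsq : ‖x‖ ^ 2 = x 0 ^ 2 + x 1 ^ 2 + x 2 ^ 2 := by
    rw [EuclideanSpace.norm_sq_eq]
    simp [Fin.sum_univ_three]
  constructor
  · rw [pi_norm_le_iff_of_nonneg (norm_nonneg _)]
    intro j
    exact PiLp.norm_apply_le x j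
  · have hj : ∀ j, x j ^ 2 ≤ ‖toV x‖ ^ 2 := by
      intro j
      have := norm_le_pi_norm (toV x) j
      have h2 : |x j| ≤ ‖toV x‖ := this
      rw [← sq_abs]
      exact pow_le_pow_left₀ (abs_nonneg _) h2 2
    apply le_of_sq_le_sq _ (by positivity)
    rw [hsq]
    have h0 := hj 0
    have h1 := hj 1
    have h2 := hj 2
    nlinarith [sq_nonneg ‖toV x‖]

/-- The antisymmetric part acts as a cross product. -/
lemma anti_sq (A : Op) (x : E3) (m : ℝ) (hm : 0 ≤ m)
    (h0 : |om (toMat A) 0| ≤ m) (h1 : |om (toMat A) 1| ≤ m) (h2 : |om (toMat A) 2| ≤ m) :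
    ‖(A - adjoint A) x‖ ≤ 2 * m * ‖x‖ := by
  set M := toMat A with hM
  have hadj : ∀ j k, toMat (adjoint A) j k = M k j := by
    intro j k; rw [adj_eq]; rfl
  have e : ∀ j, ((A - adjoint A) x) j = ∑ k, (M j k - M k j) * x k := by
    intro j
    have : ((A - adjoint A) x) j = (A x) j - (adjoint A x) j := by simp
    rw [this, apply_eq, apply_eq, ← Finset.sum_sub_distrib]
    refine Finset.sum_congr rfl fun k _ => ?_
    rw [hadj]; ring
  have hsq : ∀ y : E3, ‖y‖ ^ 2 = y 0 ^ 2 + y 1 ^ 2 + y 2 ^ 2 := by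
    intro y
    rw [EuclideanSpace.norm_sq_eq]
    simp [Fin.sum_univ_three]
  have w0 : om M 0 = M 2 1 - M 1 2 := rfl
  have w1 : om M 1 = M 0 2 - M 2 0 := rfl
  have w2 : om M 2 = M 1 0 - M 0 1 := rfl
  have e0 := e 0
  have e1 := e 1
  have e2 := e 2
  rw [Fin.sum_univ_three] at e0 e1 e2
  have s0 : om M 0 ^ 2 ≤ m ^ 2 := by rw [← sq_abs]; exact pow_le_pow_left₀ (abs_nonneg _) h0 2
  have s1 : om M 1 ^ 2 ≤ m ^ 2 := by rw [← sq_abs]; exact pow_le_pow_left₀ (abs_nonneg _) h1 2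
  have s2 : om M 2 ^ 2 ≤ m ^ 2 := by rw [← sq_abs]; exact pow_le_pow_left₀ (abs_nonneg _) h2 2
  apply le_of_sq_le_sq _ (by positivity)
  have g0 : ((A - adjoint A) x) 0 = om M 1 * x 2 - om M 2 * x 1 := by
    rw [e0, w1, w2]; ring
  have g1 : ((A - adjoint A) x) 1 = om M 2 * x 0 - om M 0 * x 2 := by
    rw [e1, w2, w0]; ring
  have g2 : ((A - adjoint A) x) 2 = om M 0 * x 1 - om M 1 * x 0 := by
    rw [e2, w0, w1]; ring
  rw [hsq, g0, g1, g2, mul_pow, hsq x]
  have lag : (om M 1 * x 2 - om M 2 * x 1) ^ 2 + (om M 2 * x 0 - om M 0 * x 2) ^ 2 +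
      (om M 0 * x 1 - om M 1 * x 0) ^ 2 ≤
      (om M 0 ^ 2 + om M 1 ^ 2 + om M 2 ^ 2) * (x 0 ^ 2 + x 1 ^ 2 + x 2 ^ 2) := by
    nlinarith [sq_nonneg (om M 0 * x 0 + om M 1 * x 1 + om M 2 * x 2)]
  refine lag.trans ?_
  have hx : 0 ≤ x 0 ^ 2 + x 1 ^ 2 + x 2 ^ 2 := by positivity
  apply mul_le_mul_of_nonneg_right _ hx
  nlinarith [sq_nonneg m]

lemma exists_max (A : Op) : ∃ j, ‖A - adjoint A‖ ≤ 2 * |om (toMat A) j| := by
  obtain ⟨j, hj⟩ := Finite.exists_max fun j : Fin 3 => |om (toMat A) j|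
  refine ⟨j, ?_⟩
  apply ContinuousLinearMap.opNorm_le_bound _ (by positivity)
  intro x
  exact anti_sq A x _ (abs_nonneg _) (hj 0) (hj 1) (hj 2)

end Conv1

open Conv1 in
/-- Algebra of the conversion. -/
theorem prf_StConv1 : StConv1 := by
  refine ⟨mulVec_eq, comp_eq, id_eq, adj_eq, ?_, ?_, ro_eq, trace_eq, dot_eq, norm_bounds,
    ?_, ?_, ?_, ?_, exists_max⟩
  · intro A B
    ext j k
    simp [toMat]
  · intro s A
    ext j k
    simp [toMat]
  · intro x y
    funext j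
    simp [toV]
  · intro s x
    funext j
    simp [toV]
  · intro x
    exact ⟨WithLp.toLp 2 x, rfl⟩
  · intro x y h
    ext j
    exact congrFun h j

end Pool.Agent.Work.MP_b0497c_an.Forced.Ode

end

section

set_option autoImplicit false

/-!
# ODE module of the forced Euler blow-up: everything together
-/

namespace Pool.Agent.Work.MP_b0497c_an.Forced.Ode

theorem stBounds : StBounds := prf_StBounds prf_StPar prf_StGrow (prf_StExact prf_StNext)

theorem stExact : StExact := prf_StExact prf_StNext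

theorem stPder : StPder := prf_StPder stExact

theorem stPiv : StPiv := prf_StPiv prf_StPar prf_StSpan stBounds

theorem stP : StP := prf_StP prf_StPar prf_StGrow stPder stBounds stPiv

theorem stCoef : StCoef := prf_StCoef prf_StPar stExact stBounds stP

theorem stCone : StCone := prf_StCone prf_StPar stCoef prf_StNum prf_StCoop

theorem stGrowth : StGrowth := prf_StGrowth prf_StPar stCoef prf_StNum

theorem stDom : StDom := prf_StDom prf_StPar stCoef prf_StNum prf_StCoop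

theorem stClose1 : StClose1 :=
  prf_StClose1 prf_StPar prf_StSpan stExact stPder stBounds stPiv stP

theorem stClose2 : StClose2 :=
  prf_StClose2 prf_StPar prf_StSpan stExact stPder stBounds stPiv stP stCoef

theorem stNewB : StNewB := prf_StNewB prf_StPar stBounds

theorem stDef : StDef := prf_StDef prf_StPar stBounds stExact prf_StGrow prf_StGrowBack

theorem stQ : StQ := prf_StQ prf_StPar prf_StLinear prf_StGrow stDef

theorem stVort : StVort := prf_StVort prf_StPar stExact stBounds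

theorem stWave : StWave := prf_StWave prf_StLinear prf_StUnique

theorem stEra : StEra := prf_StEra prf_StPar prf_StUnique stWave prf_StNext prf_StScale prf_StPerp
  stPder (prf_StPQ prf_StSpan stExact stPder) (prf_StYW prf_StPar) stBounds stP stCone stGrowth
  stDom stClose1 stClose2 stNewB stDef stQ stVort

theorem stChain : StChain := prf_StChain
  (prf_StStep stEra prf_StLinear prf_StScale prf_StPar prf_StStageNum)
  (prf_StBase stWave prf_StLinear prf_StStageNum)

theorem stTimes : StTimes := prf_StTimes prf_StPar prf_StStageNum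

theorem stModOde : StModOde := prf_StModOde prf_StModBil

theorem stModWave : StModWave :=
  prf_StModWave prf_StModBil prf_StModLin stModOde (prf_StModInv prf_StModBil)

theorem casc_exists : Nonempty Casc :=
  casc_exists_of stChain stTimes prf_StStageNum stModWave (prf_StModM prf_StModBil stModWave stTimes)
    (prf_StModF prf_StLinear prf_StModLin stModOde) prf_StConv1 prf_StConv2 prf_StCascNum

end Pool.Agent.Work.MP_b0497c_an.Forced.Ode

end
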