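import Pool.Agent.Work.MP_b0497c_an.Forced.Asm.Defs

/-! Bundle of small proof modules (one section per former module). -/

section

set_option autoImplicit false

/-!
# C1: diagonal choice of the number of correctors
-/

open scoped ContDiff Matrix
open Set Filter Topology

namespace Pool.Agent.Work.MP_b0497c_an.Forced

namespace C1

/-- A diagonal argument: if for every `m` the property `P m k` holds eventually in `k`, there is
a choice `mu` such that for every `m` eventually `m ≤ mu k` and `P (mu k) k`. -/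
theorem diagonal (P : ℕ → ℕ → Prop) (hP : ∀ m, ∀ᶠ k in atTop, P m k) :
    ∃ mu : ℕ → ℕ, ∀ m, ∀ᶠ k in atTop, m ≤ mu k ∧ P (mu k) k := by
  classical
  have h1 : ∀ m, ∃ K : ℕ, ∀ k, K ≤ k → P m k := fun m => eventually_atTop.1 (hP m)
  choose K hK using h1
  refine ⟨fun k => Nat.findGreatest (fun m => K m ≤ k) k, fun m => ?_⟩
  filter_upwards [eventually_ge_atTop (max m (K m))] with k hk
  have hm : m ≤ k := le_trans (le_max_left _ _) hk
  have hKm : K m ≤ k := le_trans (le_max_right _ _) hk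
  refine ⟨Nat.le_findGreatest hm hKm, ?_⟩
  have h2 : K (Nat.findGreatest (fun m => K m ≤ k) k) ≤ k :=
    Nat.findGreatest_spec (P := fun m => K m ≤ k) hm hKm
  exact hK _ k h2

theorem bound_mono (S : Casc) (k m' m n J : ℕ) (hm : m' ≤ m) :
    S.Lam k ^ n * ((1 + S.a k) ^ 2 * ((S.Nf k * S.rho k) ^ 2)⁻¹
      + (S.Nf k * S.rho k) ^ m' * (S.b k + ((1 + S.a k) / (S.Nf k * S.rho k)) ^ J)) ≤
    S.Lam k ^ n * ((1 + S.a k) ^ 2 * ((S.Nf k * S.rho k) ^ 2)⁻¹
      + (S.Nf k * S.rho k) ^ m * (S.b k + ((1 + S.a k) / (S.Nf k * S.rho k)) ^ J)) := by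
  have ha := S.a_nonneg k
  have hb := S.b_nonneg k
  have hN : 1 ≤ S.Nf k * S.rho k := by linarith [S.a_le k]
  have hL : 0 ≤ S.Lam k ^ n := pow_nonneg (by linarith [S.two_le_Lam k]) _
  apply mul_le_mul_of_nonneg_left _ hL
  have h1 : (S.Nf k * S.rho k) ^ m' ≤ (S.Nf k * S.rho k) ^ m := pow_le_pow_right₀ hN hm
  have h2 : 0 ≤ S.b k + ((1 + S.a k) / (S.Nf k * S.rho k)) ^ J :=
    add_nonneg hb (pow_nonneg (div_nonneg (by linarith) (by linarith)) _)
  have := mul_le_mul_of_nonneg_right h1 h2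
  linarith

end C1

theorem prfC1 : claimC1 := by
  intro hWKB c
  have h := fun J => hWKB ℕ c.toLev J
  choose W q g hWs hqs hgs hz hsupp hend hdiv heul hin hbd using h
  choose J hJ using c.err
  -- eventually all derivatives of order at most `m` are small
  have hP : ∀ m, ∀ᶠ k in atTop, ∀ m' ≤ m, ∀ z : ℝ × V3,
      ‖iteratedFDeriv ℝ m' (fun z : ℝ × V3 => g (J m) k z.1 z.2) z‖ ≤ (1 / 2) ^ k := by
    intro m
    have h1 : ∀ m', ∀ᶠ k in atTop, m' ≤ m → ∀ z : ℝ × V3,
        ‖iteratedFDeriv ℝ m' (fun z : ℝ × V3 => g (J m) k z.1 z.2) z‖ ≤ (1 / 2) ^ k := by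
      intro m'
      obtain ⟨n, hn⟩ := hbd (J m) m'
      filter_upwards [hJ m n] with k hk hm z
      exact (hn k z).trans ((C1.bound_mono c k m' m n (J m) hm).trans hk)
    have h2 : ∀ᶠ k in atTop, ∀ m' ∈ Finset.range (m + 1), m' ≤ m → ∀ z : ℝ × V3,
        ‖iteratedFDeriv ℝ m' (fun z : ℝ × V3 => g (J m) k z.1 z.2) z‖ ≤ (1 / 2) ^ k :=
      (Filter.eventually_all_finset (Finset.range (m + 1))).2 fun m' _ => h1 m'
    filter_upwards [h2] with k hk m' hm
    exact hk m' (Finset.mem_range.2 (Nat.lt_succ_of_le hm)) hm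
  obtain ⟨mu, hmu⟩ := C1.diagonal _ hP
  choose eta heta1 heta2 heta3 using fun k => hin (J (mu k)) k
  exact ⟨{
    w := fun k => W (J (mu k)) k
    q := fun k => q (J (mu k)) k
    g := fun k => g (J (mu k)) k
    eta := eta
    w_smooth := fun k => hWs (J (mu k)) k
    q_smooth := fun k => hqs (J (mu k)) k
    g_smooth := fun k => hgs (J (mu k)) k
    zero := fun k t x ht => hz (J (mu k)) k t x ht
    supp := fun k t ht x hx => hsupp (J (mu k)) k t ht x hx
    g_end := fun k t x ht => hend (J (mu k)) k t x ht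
    div_free := fun k t x => hdiv (J (mu k)) k t x
    euler := fun k t ht x j => heul (J (mu k)) k t ht x j
    eta_mem := heta1
    eta_one := heta2
    inner := fun k t ht x hx => by
      obtain ⟨h1, h2⟩ := c.inner k t ht x hx
      exact heta3 k t x h1 h2
    small := fun m => by
      filter_upwards [hmu m] with k hk z
      exact hk.2 m hk.1 z }⟩

end Pool.Agent.Work.MP_b0497c_an.Forced

end

section

set_option autoImplicit false

/-!
# Assembly, item C4: the Euler equation for the partial sums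
-/

open scoped ContDiff Matrix
open Set Filter Topology

namespace Pool.Agent.Work.MP_b0497c_an.Forced

namespace C4

theorem Un_succ {c : Casc} (P : Pk c) (w0 : ℝ → V3 → V3) (n : ℕ) (t : ℝ) (x : V3) :
    Un P w0 (n + 1) t x = Un P w0 n t x + P.w n t x := by
  unfold Un
  rw [Finset.sum_range_succ, add_assoc]

theorem Qn_succ {c : Casc} (P : Pk c) (n : ℕ) (t : ℝ) (x : V3) :
    Qn P (n + 1) t x = Qn P n t x + P.q n t x := by
  unfold Qn
  rw [Finset.sum_range_succ]

theorem Un_smooth {c : Casc} (P : Pk c) (w0 : ℝ → V3 → V3) (hB : Base c w0) (n : ℕ) :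
    ContDiff ℝ ∞ (fun z : ℝ × V3 => Un P w0 n z.1 z.2) := by
  induction n with
  | zero =>
    have : (fun z : ℝ × V3 => Un P w0 0 z.1 z.2) = fun z : ℝ × V3 => w0 z.1 z.2 := by
      funext z
      unfold Un
      rw [Finset.range_zero, Finset.sum_empty, add_zero]
    rw [this]
    exact hB.smooth
  | succ n ih =>
    have : (fun z : ℝ × V3 => Un P w0 (n + 1) z.1 z.2) =
        fun z : ℝ × V3 => Un P w0 n z.1 z.2 + P.w n z.1 z.2 := by
      funext z
      exact Un_succ P w0 n z.1 z.2
    rw [this]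
    exact ih.add (P.w_smooth n)

theorem Qn_smooth {c : Casc} (P : Pk c) (n : ℕ) :
    ContDiff ℝ ∞ (fun z : ℝ × V3 => Qn P n z.1 z.2) := by
  induction n with
  | zero =>
    have : (fun z : ℝ × V3 => Qn P 0 z.1 z.2) = fun _ : ℝ × V3 => (0 : ℝ) := by
      funext z
      unfold Qn
      rw [Finset.range_zero, Finset.sum_empty]
    rw [this]
    exact contDiff_const
  | succ n ih =>
    have : (fun z : ℝ × V3 => Qn P (n + 1) z.1 z.2) =
        fun z : ℝ × V3 => Qn P n z.1 z.2 + P.q n z.1 z.2 := by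
      funext z
      exact Qn_succ P n z.1 z.2
    rw [this]
    exact ih.add (P.q_smooth n)

/-- slices of a smooth field -/
theorem slice_x {u : ℝ → V3 → V3} (h : ContDiff ℝ ∞ (fun z : ℝ × V3 => u z.1 z.2)) (t : ℝ)
    (j : Fin 3) : ContDiff ℝ ∞ (fun y => u t y j) := by
  have h1 : ContDiff ℝ ∞ (fun y : V3 => u t y) :=
    h.comp (contDiff_const.prodMk contDiff_id : ContDiff ℝ ∞ (fun y : V3 => (t, y)))
  exact contDiff_pi.1 h1 j

theorem slice_t {u : ℝ → V3 → V3} (h : ContDiff ℝ ∞ (fun z : ℝ × V3 => u z.1 z.2)) (x : V3)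
    (j : Fin 3) : ContDiff ℝ ∞ (fun τ => u τ x j) := by
  have h1 : ContDiff ℝ ∞ (fun τ : ℝ => u τ x) :=
    h.comp (contDiff_id.prodMk contDiff_const : ContDiff ℝ ∞ (fun τ : ℝ => (τ, x)))
  exact contDiff_pi.1 h1 j

theorem slice_q {q : ℝ → V3 → ℝ} (h : ContDiff ℝ ∞ (fun z : ℝ × V3 => q z.1 z.2)) (t : ℝ) :
    ContDiff ℝ ∞ (q t) :=
  h.comp (contDiff_const.prodMk contDiff_id : ContDiff ℝ ∞ (fun y : V3 => (t, y)))

/-- outside the ball the packet vanishes together with its gradient -/
theorem outside {c : Casc} (P : Pk c) (n : ℕ) (t : ℝ) (ht : c.s n < t) (ht' : t < c.Ts)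
    (x : V3) (hx : c.R n ≤ ‖x‖) :
    P.w n t x = 0 ∧ ∀ i j, fderiv ℝ (fun y => P.w n t y j) x (Pi.single i 1) = 0 := by
  have hI : t ∈ Icc (c.s n) (c.e n + c.del n) := by
    have h1 := c.Ts_le n
    have h2 := c.del_pos n
    exact ⟨ht.le, by linarith⟩
  have hcl : x ∈ closure ((Metric.closedBall (0 : V3) (c.R n))ᶜ) := by
    rw [closure_compl, interior_closedBall _ (c.R_pos n).ne']
    simpa using hx
  have hopen : IsOpen ((Metric.closedBall (0 : V3) (c.R n))ᶜ) :=
    Metric.isClosed_closedBall.isOpen_compl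
  have hzero : ∀ y ∈ (Metric.closedBall (0 : V3) (c.R n))ᶜ, P.w n t y = 0 := by
    intro y hy
    have hy' : c.R n < ‖y‖ := by simpa using hy
    exact (P.supp n t hI y hy').1
  have hcont : Continuous (fun y : V3 => P.w n t y) := by
    refine continuous_pi fun j => ?_
    exact (slice_x (P.w_smooth n) t j).continuous
  have hcontd : ∀ i j : Fin 3,
      Continuous (fun y : V3 => fderiv ℝ (fun y => P.w n t y j) y (Pi.single i 1)) := by
    intro i j
    have h1 : ContDiff ℝ ∞ (fderiv ℝ (fun y => P.w n t y j)) :=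
      (slice_x (P.w_smooth n) t j).fderiv_right (m := ∞) (by simp)
    exact h1.continuous.clm_apply continuous_const
  constructor
  · have hclosed : IsClosed {y : V3 | P.w n t y = 0} := isClosed_eq hcont continuous_const
    exact closure_minimal hzero hclosed hcl
  · intro i j
    have hclosed : IsClosed {y : V3 | fderiv ℝ (fun y => P.w n t y j) y (Pi.single i 1) = 0} :=
      isClosed_eq (hcontd i j) continuous_const
    refine closure_minimal (fun y hy => ?_) hclosed hcl
    have h1 : (fun y => P.w n t y j) =ᶠ[𝓝 y] fun _ => (0 : ℝ) := by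
      filter_upwards [hopen.mem_nhds hy] with z hz
      rw [hzero z hz]
      rfl
    show fderiv ℝ (fun y => P.w n t y j) y (Pi.single i 1) = 0
    rw [h1.fderiv_eq, fderiv_fun_const]
    rfl

/-- the interaction terms -/
theorem inter (h3 : claimC3) {c : Casc} (P : Pk c) (w0 : ℝ → V3 → V3) (hB : Base c w0) (n : ℕ)
    (t : ℝ) (ht : t < c.Ts) (x : V3) (j : Fin 3) :
    ∑ i, Un P w0 n t x i * fderiv ℝ (fun y => P.w n t y j) x (Pi.single i 1)
      + ∑ i, P.w n t x i * fderiv ℝ (fun y => Un P w0 n t y j) x (Pi.single i 1)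
    = ∑ i, (c.M n t *ᵥ x) i * fderiv ℝ (fun y => P.w n t y j) x (Pi.single i 1)
      + (c.M n t *ᵥ P.w n t x) j := by
  by_cases hs : t ≤ c.s n
  · have h1 : P.w n t x = 0 := (P.zero n t x hs).1
    have h2 : (fun y => P.w n t y j) = fun _ => (0 : ℝ) := by
      funext y
      rw [(P.zero n t y hs).1]
      rfl
    rw [h1, h2, fderiv_fun_const, Matrix.mulVec_zero]
    simp
  · push Not at hs
    by_cases hx : ‖x‖ < c.R n
    · have h1 : Un P w0 n t x = c.M n t *ᵥ x := h3 c P w0 hB n t ⟨hs.le, ht⟩ x hx.le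
      have h2 : ∀ i, fderiv ℝ (fun y => Un P w0 n t y j) x (Pi.single i 1) = c.M n t j i := by
        intro i
        have h3' : (fun y => Un P w0 n t y j) =ᶠ[𝓝 x] fun y => (c.M n t *ᵥ y) j := by
          have : {y : V3 | ‖y‖ < c.R n} ∈ 𝓝 x :=
            (isOpen_lt continuous_norm continuous_const).mem_nhds hx
          filter_upwards [this] with y hy
          rw [h3 c P w0 hB n t ⟨hs.le, ht⟩ y (le_of_lt hy)]
        rw [h3'.fderiv_eq]
        have h4 : HasFDerivAt (fun y : V3 => (c.M n t *ᵥ y) j)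
            (∑ k, c.M n t j k • (ContinuousLinearMap.proj k : V3 →L[ℝ] ℝ)) x := by
          have h5 : (fun y : V3 => (c.M n t *ᵥ y) j) =
              fun y => (∑ k, c.M n t j k • (ContinuousLinearMap.proj k : V3 →L[ℝ] ℝ)) y := by
            funext y
            simp [Matrix.mulVec, dotProduct]
          rw [h5]
          exact ContinuousLinearMap.hasFDerivAt _
        rw [h4.fderiv]
        simp [Pi.single_apply]
      rw [h1]
      simp only [h2]
      congr 1
      simp only [Matrix.mulVec, dotProduct]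
      exact Finset.sum_congr rfl fun i _ => mul_comm _ _
    · push Not at hx
      obtain ⟨h1, h2⟩ := outside P n t hs ht x hx
      rw [h1, Matrix.mulVec_zero]
      simp [h2]

end C4

theorem prfC4 (h3 : claimC3) : claimC4 := by
  intro c P w0 hB n
  induction n with
  | zero =>
    intro t ht x j
    have h1 : Un P w0 0 = w0 := by
      funext t x
      unfold Un
      rw [Finset.range_zero, Finset.sum_empty, add_zero]
    have h2 : Qn P 0 t = fun _ => (0 : ℝ) := by
      funext x
      unfold Qn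
      rw [Finset.range_zero, Finset.sum_empty]
    rw [h1, h2, fderiv_fun_const, Finset.range_zero, Finset.sum_empty]
    simp
  | succ n ih =>
    intro t ht x j
    have ih' := ih t ht x j
    have hU := C4.Un_smooth P w0 hB n
    have hw := P.w_smooth n
    have d1 : deriv (fun τ => Un P w0 (n + 1) τ x j) t =
        deriv (fun τ => Un P w0 n τ x j) t + deriv (fun τ => P.w n τ x j) t := by
      have e : (fun τ => Un P w0 (n + 1) τ x j) =
          fun τ => Un P w0 n τ x j + P.w n τ x j := by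
        funext τ
        rw [C4.Un_succ]
        rfl
      rw [e]
      exact deriv_fun_add ((C4.slice_t hU x j).differentiable (by simp) t)
        ((C4.slice_t hw x j).differentiable (by simp) t)
    have d2 : ∀ i, fderiv ℝ (fun y => Un P w0 (n + 1) t y j) x (Pi.single i 1) =
        fderiv ℝ (fun y => Un P w0 n t y j) x (Pi.single i 1) +
          fderiv ℝ (fun y => P.w n t y j) x (Pi.single i 1) := by
      intro i
      have e : (fun y => Un P w0 (n + 1) t y j) =
          fun y => Un P w0 n t y j + P.w n t y j := by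
        funext y
        rw [C4.Un_succ]
        rfl
      rw [e, fderiv_fun_add ((C4.slice_x hU t j).differentiable (by simp) x)
        ((C4.slice_x hw t j).differentiable (by simp) x)]
      rfl
    have d3 : fderiv ℝ (Qn P (n + 1) t) x (Pi.single j 1) =
        fderiv ℝ (Qn P n t) x (Pi.single j 1) + fderiv ℝ (fun y => P.q n t y) x (Pi.single j 1) := by
      have e : Qn P (n + 1) t = fun y => Qn P n t y + P.q n t y := by
        funext y
        rw [C4.Qn_succ]
      rw [e, fderiv_fun_add ((C4.slice_q (C4.Qn_smooth P n) t).differentiable (by simp) x)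
        ((C4.slice_q (P.q_smooth n) t).differentiable (by simp) x)]
      rfl
    have hE := P.euler n t (ht.le.trans (c.Ts_le n)) x j
    have hI := C4.inter h3 P w0 hB n t ht x j
    have hval : ∀ i, Un P w0 (n + 1) t x i = Un P w0 n t x i + P.w n t x i := by
      intro i
      rw [C4.Un_succ]
      rfl
    have hsum : ∑ i, Un P w0 (n + 1) t x i *
          fderiv ℝ (fun y => Un P w0 (n + 1) t y j) x (Pi.single i 1)
        = ∑ i, Un P w0 n t x i * fderiv ℝ (fun y => Un P w0 n t y j) x (Pi.single i 1)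
          + (∑ i, Un P w0 n t x i * fderiv ℝ (fun y => P.w n t y j) x (Pi.single i 1)
            + ∑ i, P.w n t x i * fderiv ℝ (fun y => Un P w0 n t y j) x (Pi.single i 1))
          + ∑ i, P.w n t x i * fderiv ℝ (fun y => P.w n t y j) x (Pi.single i 1) := by
      simp only [hval, d2, ← Finset.sum_add_distrib]
      exact Finset.sum_congr rfl fun i _ => by ring
    have hg : (∑ k ∈ Finset.range (n + 1), P.g k t x j) =
        ∑ k ∈ Finset.range n, P.g k t x j + P.g n t x j := Finset.sum_range_succ _ _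
    unfold eu at ih' ⊢
    rw [d1, hsum, d3, hI, hg]
    linarith

end Pool.Agent.Work.MP_b0497c_an.Forced

end

section

set_option autoImplicit false

/-!
# Assembly, item C6: smoothness, supports and divergence of the limit velocity
-/

open scoped ContDiff Matrix
open Set Filter Topology

namespace Pool.Agent.Work.MP_b0497c_an.Forced

namespace C6

variable {c : Casc} (P : Pk c) {w0 : ℝ → V3 → V3}

theorem exists_n (c : Casc) {t : ℝ} (ht : t < c.Ts) : ∃ n, t < c.s n :=
  (c.s_lim.eventually (lt_mem_nhds ht)).exists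

theorem R_le_R0 (c : Casc) (k : ℕ) : c.R k ≤ c.R 0 :=
  antitone_nat_of_succ_le c.R_next (Nat.zero_le k)

theorem Un_smooth (hB : Base c w0) (n : ℕ) :
    ContDiff ℝ ∞ (fun z : ℝ × V3 => Un P w0 n z.1 z.2) := by
  unfold Un
  exact hB.smooth.add (ContDiff.sum fun k _ => P.w_smooth k)

theorem Qn_smooth (n : ℕ) : ContDiff ℝ ∞ (fun z : ℝ × V3 => Qn P n z.1 z.2) := by
  unfold Qn
  exact ContDiff.sum fun k _ => P.q_smooth k

theorem slice {F : Type} [NormedAddCommGroup F] [NormedSpace ℝ F] {f : ℝ → V3 → F}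
    (hf : ContDiff ℝ ∞ (fun z : ℝ × V3 => f z.1 z.2)) (t : ℝ) : ContDiff ℝ ∞ (f t) :=
  hf.comp (contDiff_const.prodMk contDiff_id)

theorem pk_supp {k : ℕ} {t : ℝ} (ht : t < c.Ts) {x : V3} (hx : 1 < ‖x‖) :
    P.w k t x = 0 ∧ P.q k t x = 0 := by
  by_cases h : t ≤ c.s k
  · exact ⟨(P.zero k t x h).1, (P.zero k t x h).2.1⟩
  · push Not at h
    have h1 : c.R k < ‖x‖ := by
      have := R_le_R0 c k
      have := c.R_zero
      linarith
    have h2 : t ∈ Icc (c.s k) (c.e k + c.del k) := by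
      refine ⟨h.le, ?_⟩
      have := c.Ts_le k
      have := c.del_pos k
      linarith
    exact ⟨(P.supp k t h2 x h1).1, (P.supp k t h2 x h1).2.1⟩

end C6

open C6 in
theorem prfC6 (h5 : claimC5) : claimC6 := by
  intro c P w0 hB
  refine ⟨?_, ?_, ?_, ?_, ?_⟩
  · intro z hz
    obtain ⟨n, hn⟩ := exists_n c (t := z.1) hz.1
    have h1 : (fun z : ℝ × V3 => Ui P w0 z.1 z.2) =ᶠ[𝓝 z] fun z : ℝ × V3 => Un P w0 n z.1 z.2 := by
      have h2 : ∀ᶠ y : ℝ × V3 in 𝓝 z, y.1 < c.s n :=
        (continuous_fst.continuousAt (x := z)).eventually (Iio_mem_nhds hn)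
      filter_upwards [h2] with y hy
      exact (h5 c P w0 n y.1 hy.le y.2).1
    exact (((Un_smooth P hB n).contDiffAt).congr_of_eventuallyEq h1).contDiffWithinAt
  · intro z hz
    obtain ⟨n, hn⟩ := exists_n c (t := z.1) hz.1
    have h1 : (fun z : ℝ × V3 => Qi P z.1 z.2) =ᶠ[𝓝 z] fun z : ℝ × V3 => Qn P n z.1 z.2 := by
      have h2 : ∀ᶠ y : ℝ × V3 in 𝓝 z, y.1 < c.s n :=
        (continuous_fst.continuousAt (x := z)).eventually (Iio_mem_nhds hn)
      filter_upwards [h2] with y hy
      exact (h5 c P w0 n y.1 hy.le y.2).2.1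
    exact (((Qn_smooth P n).contDiffAt).congr_of_eventuallyEq h1).contDiffWithinAt
  · intro t ht x hx
    obtain ⟨n, hn⟩ := exists_n c ht
    obtain ⟨e1, e2, -⟩ := h5 c P w0 n t hn.le x
    rw [e1, e2]
    constructor
    · unfold Un
      rw [hB.supp t x hx.le, zero_add]
      exact Finset.sum_eq_zero fun k _ => (pk_supp P ht hx).1
    · unfold Qn
      exact Finset.sum_eq_zero fun k _ => (pk_supp P ht hx).2
  · intro t ht x
    have h0 : t ≤ c.s 0 := by
      have := c.s_pos 0
      linarith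
    rw [(h5 c P w0 0 t h0 x).1]
    unfold Un
    simp [hB.zero t ht x]
  · intro t ht x
    obtain ⟨n, hn⟩ := exists_n c ht
    have dw : ∀ k j, DifferentiableAt ℝ (fun y => P.w k t y j) x := by
      intro k j
      have h1 := slice (P.w_smooth k) t
      exact (contDiff_pi.mp h1 j).differentiable (by simp) x
    have d0 : ∀ j, DifferentiableAt ℝ (fun y => w0 t y j) x := by
      intro j
      have h1 := slice hB.smooth t
      exact (contDiff_pi.mp h1 j).differentiable (by simp) x
    have e1 : ∀ j, (fun y => Ui P w0 t y j) =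
        fun y => w0 t y j + ∑ k ∈ Finset.range n, P.w k t y j := by
      intro j
      funext y
      rw [(h5 c P w0 n t hn.le y).1]
      unfold Un
      simp
    have e2 : ∀ j, fderiv ℝ (fun y => Ui P w0 t y j) x (Pi.single j 1) =
        fderiv ℝ (fun y => w0 t y j) x (Pi.single j 1) +
          ∑ k ∈ Finset.range n, fderiv ℝ (fun y => P.w k t y j) x (Pi.single j 1) := by
      intro j
      rw [e1 j, fderiv_fun_add (d0 j) (DifferentiableAt.fun_sum fun k _ => dw k j),
        fderiv_fun_sum (fun k _ => dw k j)]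
      simp
    simp only [e2]
    rw [Finset.sum_add_distrib, hB.div_free t x, zero_add, Finset.sum_comm]
    exact Finset.sum_eq_zero fun k _ => P.div_free k t x

end Pool.Agent.Work.MP_b0497c_an.Forced

end

section

set_option autoImplicit false

/-!
# Assembly: the main theorem from the claims
-/

open scoped ContDiff Matrix
open Set Filter Topology

namespace Pool.Agent.Work.MP_b0497c_an.Forced

/-- The whole space solution. -/
theorem r3_of_claims (h1 : claimC1) (h2 : claimC2) (h6 : claimC6)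
    (h7 : claimC7) (h8 : claimC8) (h9 : claimC9) (hW : W.claimWKB) (c : Casc) :
    ∃ (f u : ℝ → V3 → V3) (p : ℝ → V3 → ℝ), R3Sol c.Ts f u p := by
  obtain ⟨P⟩ := h1 hW c
  obtain ⟨w0, hw0⟩ := h2 c
  have hTs : c.Ts ≤ 3 := by
    have h1 := c.Ts_le 0
    have h2 := c.e_le 0
    have h3 := c.del_pos 0
    linarith
  obtain ⟨z, hz, hz1, hz0⟩ : ∃ z : ℝ → ℝ, ContDiff ℝ ∞ z ∧ (∀ t, t ≤ 3 → z t = 1) ∧
      (∀ t, 4 ≤ t → z t = 0) := by
    refine ⟨fun t => Real.smoothTransition (4 - t), ?_, ?_, ?_⟩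
    · exact Real.smoothTransition.contDiff.comp (contDiff_const.sub contDiff_id)
    · intro t ht
      exact Real.smoothTransition.one_of_one_le (by linarith)
    · intro t ht
      exact Real.smoothTransition.zero_of_nonpos (by linarith)
  obtain ⟨hu, hp, hsupp, hzero, hdiv⟩ := h6 c P w0 hw0
  obtain ⟨hf, hft, hfs⟩ := h7 c P w0 hw0 z hz hz0
  refine ⟨Fi P w0 z, Ui P w0, Qi P, ⟨hf, hft, hfs, hu, hp, fun t ht x hx => (hsupp t ht x hx).1,
    fun t ht x hx => (hsupp t ht x hx).2, hzero, hdiv, ?_, h9 c P w0 hw0⟩⟩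
  intro t ht x j
  rw [h8 c P w0 hw0 t ht x j]
  show _ = z t * eu w0 t x j + (∑' k, P.g k t x) j
  rw [hz1 t (by linarith), one_mul]

/-- **Main theorem.** -/
theorem main_of_claims (h1 : claimC1) (h2 : claimC2) (h6 : claimC6)
    (h7 : claimC7) (h8 : claimC8) (h9 : claimC9) (h10 : claimC10)
    (h11 : claimC11) (h12 : claimC12) (h13 : claimC13) (h14 : claimC14)
    (hW : W.claimWKB) (hC : Nonempty Casc) (m : ℕ) (ε : ℝ) (hε : 0 < ε) :
    ∃ (T : ℝ) (f u : ℝ → E3 → E3) (p : ℝ → E3 → ℝ), 0 < T ∧ TorusSol T f u p ∧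
      (∀ n ≤ m, ∀ z : ℝ × E3, ‖iteratedFDeriv ℝ n (fun z : ℝ × E3 => f z.1 z.2) z‖ ≤ ε) ∧
      IsForcedSolution T f u p ∧
      ∀ (T' : ℝ) (v : ℝ → E3 → E3) (q : ℝ → E3 → ℝ), IsForcedSolution T' f v q →
        (∀ x, v 0 x = 0) → T' ≤ T ∧ ∀ t ∈ Ico 0 T', ∀ x, v t x = u t x := by
  obtain ⟨c⟩ := hC
  obtain ⟨f, u, p, hR⟩ := r3_of_claims h1 h2 h6 h7 h8 h9 hW c
  have hT : 0 < c.Ts := lt_of_lt_of_le (by norm_num) ((c.s_pos 0).trans (c.s_lt 0).le)
  obtain ⟨f', u', p', hS⟩ := h10 c.Ts f u p hT hR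
  obtain ⟨l, hl, -, hsm⟩ := h13 f' hS.f_smooth hS.f_per hS.f_time m ε hε
  have hS' := h12 c.Ts f' u' p' hS l hl
  have hT' : 0 < c.Ts / l := div_pos hT hl
  obtain ⟨ha, hb⟩ := h14 h11 (c.Ts / l) _ _ _ hT' hS'
  exact ⟨c.Ts / l, _, _, _, hT', hS', hsm, ha, hb⟩

end Pool.Agent.Work.MP_b0497c_an.Forced

end
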