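import Pool.Agent.Work.MP_b0497c_an.Forced.S.StmtsI
import Pool.Agent.Work.MP_b0497c_an.Bd.B16
import Pool.Agent.Work.MP_b0497c_an.Forced.Asm.C10
import Pool.Agent.Work.MP_b0497c_an.Dec.CubeInt

/-! Bundle of small proof modules (one section per former module). -/

section

set_option autoImplicit false

/-!
# I1: parametric integrals with a compactly supported weight
-/

open scoped ContDiff
open Set Filter Topology MeasureTheory

namespace Pool.Agent.Work.MP_b0497c_an.Forced.S

namespace I1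

/-- derivative in the first variable -/
noncomputable def Dt (h : ℝ × V3 → ℝ) : ℝ × V3 → ℝ := fun z => fderiv ℝ h z (1, 0)

lemma Dt_contDiff {h : ℝ × V3 → ℝ} (hh : ContDiff ℝ ∞ h) : ContDiff ℝ ∞ (Dt h) := by
  unfold Dt
  exact (hh.fderiv_right (m := ∞) (by simp)).clm_apply contDiff_const

lemma hasDerivAt_slice {h : ℝ × V3 → ℝ} (hh : ContDiff ℝ ∞ h) (t : ℝ) (y : V3) :
    HasDerivAt (fun τ => h (τ, y)) (Dt h (t, y)) t := by
  have h1 : HasFDerivAt h (fderiv ℝ h (t, y)) (t, y) :=
    ((hh.differentiable (by simp)) (t, y)).hasFDerivAt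
  have h2 : HasDerivAt (fun τ : ℝ => (τ, y)) ((1 : ℝ), (0 : V3)) t :=
    (hasDerivAt_id t).prodMk (hasDerivAt_const t y)
  exact h1.comp_hasDerivAt t h2

lemma iter_contDiff {h : ℝ × V3 → ℝ} (hh : ContDiff ℝ ∞ h) (j : ℕ) :
    ContDiff ℝ ∞ (Dt^[j] h) := by
  induction j with
  | zero => exact hh
  | succ j ih =>
    rw [Function.iterate_succ_apply']
    exact Dt_contDiff ih

lemma iter_slice {h : ℝ × V3 → ℝ} (hh : ContDiff ℝ ∞ h) (j : ℕ) (y : V3) :
    iteratedDeriv j (fun τ => h (τ, y)) = fun t => (Dt^[j] h) (t, y) := by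
  induction j with
  | zero => simp
  | succ j ih =>
    rw [iteratedDeriv_succ, ih]
    funext t
    rw [Function.iterate_succ_apply']
    exact (hasDerivAt_slice (iter_contDiff hh j) t y).deriv

lemma compSupp {w : V3 → ℝ} (hw : ∀ y, 1 ≤ ‖y‖ → w y = 0) : HasCompactSupport w := by
  apply HasCompactSupport.intro (isCompact_closedBall (0 : V3) 1)
  intro y hy
  apply hw
  rw [Metric.mem_closedBall, dist_zero_right, not_le] at hy
  exact hy.le

lemma integ {h : ℝ × V3 → ℝ} {w : V3 → ℝ} (hh : Continuous h) (hc : Continuous w)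
    (hw : ∀ y, 1 ≤ ‖y‖ → w y = 0) (t : ℝ) : Integrable (fun y => h (t, y) * w y) := by
  apply Continuous.integrable_of_hasCompactSupport
  · fun_prop
  · exact (compSupp hw).mul_left

lemma hasDerivAt_int {h : ℝ × V3 → ℝ} {w : V3 → ℝ} (hh : ContDiff ℝ ∞ h) (hc : Continuous w)
    (hw : ∀ y, 1 ≤ ‖y‖ → w y = 0) (t : ℝ) :
    HasDerivAt (fun t => ∫ y, h (t, y) * w y) (∫ y, Dt h (t, y) * w y) t := by
  have hD := (Dt_contDiff hh).continuous
  obtain ⟨C, hC⟩ := (isCompact_Icc (a := t - 1) (b := t + 1)).prod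
    (isCompact_closedBall (0 : V3) 1) |>.exists_bound_of_continuousOn hD.continuousOn
  refine (hasDerivAt_integral_of_dominated_loc_of_deriv_le (s := Icc (t - 1) (t + 1))
    (bound := fun y => C * |w y|) (F' := fun t y => Dt h (t, y) * w y)
    (Icc_mem_nhds (by linarith) (by linarith)) ?_ ?_ ?_ ?_ ?_ ?_).2
  · exact Eventually.of_forall fun s => (integ hh.continuous hc hw s).aestronglyMeasurable
  · exact integ hh.continuous hc hw t
  · exact (integ hD hc hw t).aestronglyMeasurable
  · refine Eventually.of_forall fun y s hs => ?_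
    by_cases hy : 1 ≤ ‖y‖
    · rw [hw y hy]
      simp
    · rw [norm_mul, Real.norm_eq_abs (w y)]
      apply mul_le_mul_of_nonneg_right _ (abs_nonneg _)
      apply hC
      refine ⟨hs, ?_⟩
      rw [Metric.mem_closedBall, dist_zero_right]
      exact (not_le.mp hy).le
  · apply Continuous.integrable_of_hasCompactSupport
    · fun_prop
    · exact ((compSupp hw).norm).mul_left
  · refine Eventually.of_forall fun y s _ => ?_
    exact (hasDerivAt_slice hh s y).mul_const (w y)

lemma iter_int {h : ℝ × V3 → ℝ} {w : V3 → ℝ} (hh : ContDiff ℝ ∞ h) (hc : Continuous w)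
    (hw : ∀ y, 1 ≤ ‖y‖ → w y = 0) (j : ℕ) :
    iteratedDeriv j (fun t => ∫ y, h (t, y) * w y)
      = fun t => ∫ y, (Dt^[j] h) (t, y) * w y := by
  induction j with
  | zero => simp
  | succ j ih =>
    rw [iteratedDeriv_succ, ih]
    funext t
    rw [Function.iterate_succ_apply']
    exact (hasDerivAt_int (iter_contDiff hh j) hc hw t).deriv

end I1

theorem prfI1 : claimI1 := by
  intro h w hh hc hw
  constructor
  · have h1 := contDiff_of_differentiable_iteratedDeriv (𝕜 := ℝ) (n := ⊤)
      (f := fun t => ∫ y, h (t, y) * w y) (fun m _ => by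
        rw [I1.iter_int hh hc hw m]
        exact fun t => (I1.hasDerivAt_int (I1.iter_contDiff hh m) hc hw t).differentiableAt)
    exact h1
  · intro j t
    rw [I1.iter_int hh hc hw j]
    simp_rw [I1.iter_slice hh j]

end Pool.Agent.Work.MP_b0497c_an.Forced.S

end

section

set_option autoImplicit false

/-!
# I3: packets for a cascade together with summable bounds for their averages
-/

open scoped ContDiff Matrix
open Set Filter Topology MeasureTheory

namespace Pool.Agent.Work.MP_b0497c_an.Forced.S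

namespace I3

theorem ratio_nonneg (c : Casc) (k : ℕ) : 0 ≤ (1 + c.a k) / (c.Nf k * c.rho k) := by
  have ha := c.a_nonneg k
  have hN : 1 ≤ c.Nf k * c.rho k := by linarith [c.a_le k]
  exact div_nonneg (by linarith) (by linarith)

/-- Powers of the gauge times the amplitude of the averages are eventually small. -/
theorem small_ratio (c : Casc) (n : ℕ) :
    ∀ᶠ k in atTop, c.Lam k ^ n * ((1 + c.a k) / (c.Nf k * c.rho k)) ≤ (3 / 4) ^ k := by
  obtain ⟨J, hJ⟩ := c.err 0
  filter_upwards [hJ (2 * n)] with k hk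
  have ha := c.a_nonneg k
  have hb := c.b_nonneg k
  have hN : 1 ≤ c.Nf k * c.rho k := by linarith [c.a_le k]
  have hL0 : 0 ≤ c.Lam k := by linarith [c.two_le_Lam k]
  have hr := ratio_nonneg c k
  have hL : 0 ≤ c.Lam k ^ (2 * n) := pow_nonneg hL0 _
  have h2 : 0 ≤ (c.Nf k * c.rho k) ^ 0 * (c.b k + ((1 + c.a k) / (c.Nf k * c.rho k)) ^ J) := by
    rw [pow_zero, one_mul]
    exact add_nonneg hb (pow_nonneg hr _)
  have h3 : c.Lam k ^ (2 * n) * ((1 + c.a k) ^ 2 * ((c.Nf k * c.rho k) ^ 2)⁻¹) ≤ (1 / 2) ^ k := by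
    refine le_trans (mul_le_mul_of_nonneg_left ?_ hL) hk
    linarith
  have h4 : (c.Lam k ^ n * ((1 + c.a k) / (c.Nf k * c.rho k))) ^ 2 =
      c.Lam k ^ (2 * n) * ((1 + c.a k) ^ 2 * ((c.Nf k * c.rho k) ^ 2)⁻¹) := by
    rw [mul_pow, div_pow, ← pow_mul, mul_comm n 2, div_eq_mul_inv]
  have h5 : ((1 : ℝ) / 2) ^ k ≤ ((3 / 4 : ℝ) ^ k) ^ 2 := by
    rw [← pow_mul, mul_comm k 2, pow_mul]
    exact pow_le_pow_left₀ (by norm_num) (by norm_num) _
  have h6 : (c.Lam k ^ n * ((1 + c.a k) / (c.Nf k * c.rho k))) ^ 2 ≤ ((3 / 4 : ℝ) ^ k) ^ 2 := by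
    rw [h4]; exact h3.trans h5
  exact le_of_sq_le_sq' h6 (by positivity)
where
  le_of_sq_le_sq' {x y : ℝ} (h : x ^ 2 ≤ y ^ 2) (hy : 0 ≤ y) : x ≤ y := by
    nlinarith [abs_nonneg x, le_abs_self x, abs_le_of_sq_le_sq h hy]

end I3

theorem prfI3 : claimI3 := by
  intro hWKB c
  have h := fun J => hWKB ℕ c.toLev J
  choose W q g hOut H hH hHb using h
  choose N hN using hHb
  choose J hJ using c.err
  -- eventually all derivatives of order at most `m` are small, and so are the averages
  have hP : ∀ m, ∀ᶠ k in atTop, (∀ m' ≤ m, ∀ z : ℝ × V3,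
      ‖iteratedFDeriv ℝ m' (fun z : ℝ × V3 => g (J m) k z.1 z.2) z‖ ≤ (1 / 2) ^ k) ∧
      ∀ j ≤ m, c.Lam k ^ (N (J m) j) * ((1 + c.a k) / (c.Nf k * c.rho k)) ≤ (3 / 4) ^ k := by
    intro m
    refine Filter.Eventually.and ?_ ?_
    · have h1 : ∀ m', ∀ᶠ k in atTop, m' ≤ m → ∀ z : ℝ × V3,
          ‖iteratedFDeriv ℝ m' (fun z : ℝ × V3 => g (J m) k z.1 z.2) z‖ ≤ (1 / 2) ^ k := by
        intro m'
        obtain ⟨n, hn⟩ := (hOut (J m)).2.2.2.2.2.2.2.2.2 m'
        filter_upwards [hJ m n] with k hk hm z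
        exact (hn k z).trans ((C1.bound_mono c k m' m n (J m) hm).trans hk)
      have h2 : ∀ᶠ k in atTop, ∀ m' ∈ Finset.range (m + 1), m' ≤ m → ∀ z : ℝ × V3,
          ‖iteratedFDeriv ℝ m' (fun z : ℝ × V3 => g (J m) k z.1 z.2) z‖ ≤ (1 / 2) ^ k :=
        (Filter.eventually_all_finset (Finset.range (m + 1))).2 fun m' _ => h1 m'
      filter_upwards [h2] with k hk m' hm
      exact hk m' (Finset.mem_range.2 (Nat.lt_succ_of_le hm)) hm
    · have h2 : ∀ᶠ k in atTop, ∀ j ∈ Finset.range (m + 1),
          c.Lam k ^ (N (J m) j) * ((1 + c.a k) / (c.Nf k * c.rho k)) ≤ (3 / 4) ^ k :=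
        (Filter.eventually_all_finset (Finset.range (m + 1))).2 fun j _ => I3.small_ratio c _
      filter_upwards [h2] with k hk j hj
      exact hk j (Finset.mem_range.2 (Nat.lt_succ_of_le hj))
  obtain ⟨mu, hmu⟩ := C1.diagonal _ hP
  have hin := fun k => (hOut (J (mu k))).2.2.2.2.2.2.2.2.1 k
  choose eta heta1 heta2 heta3 using hin
  refine ⟨{
    w := fun k => W (J (mu k)) k
    q := fun k => q (J (mu k)) k
    g := fun k => g (J (mu k)) k
    eta := eta
    w_smooth := fun k => (hOut (J (mu k))).1 k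
    q_smooth := fun k => (hOut (J (mu k))).2.1 k
    g_smooth := fun k => (hOut (J (mu k))).2.2.1 k
    zero := fun k t x ht => (hOut (J (mu k))).2.2.2.1 k t x ht
    supp := fun k t ht x hx => (hOut (J (mu k))).2.2.2.2.1 k t ht x hx
    g_end := fun k t x ht => (hOut (J (mu k))).2.2.2.2.2.1 k t x ht
    div_free := fun k t x => (hOut (J (mu k))).2.2.2.2.2.2.1 k t x
    euler := fun k t ht x j => (hOut (J (mu k))).2.2.2.2.2.2.2.1 k t ht x j
    eta_mem := heta1
    eta_one := heta2
    inner := fun k t ht x hx => by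
      obtain ⟨h1, h2⟩ := c.inner k t ht x hx
      exact heta3 k t x h1 h2
    small := fun m => by
      filter_upwards [hmu m] with k hk z
      exact hk.2.1 m hk.1 z }, fun k => H (J (mu k)) k, ?_, ?_⟩
  · intro k phi hphi a
    exact hH (J (mu k)) k phi hphi a
  · intro j
    refine ⟨fun k => c.Lam k ^ (N (J (mu k)) j) * ((1 + c.a k) / (c.Nf k * c.rho k)), ?_, ?_⟩
    · refine Summable.of_norm_bounded_eventually_nat (g := fun k : ℕ => (3 / 4 : ℝ) ^ k)
        (summable_geometric_of_lt_one (by norm_num) (by norm_num)) ?_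
      filter_upwards [hmu j] with k hk
      have hL0 : 0 ≤ c.Lam k := by linarith [c.two_le_Lam k]
      rw [Real.norm_of_nonneg (mul_nonneg (pow_nonneg hL0 _) (I3.ratio_nonneg c k))]
      exact hk.2.2 j hk.1
    · intro k phi hphi D hD a t
      exact hN (J (mu k)) j k phi hphi D hD a t

end Pool.Agent.Work.MP_b0497c_an.Forced.S

end

section

set_option autoImplicit false

/-! Theorem S', item I5: from the whole space to the torus, with averages. -/

open scoped ContDiff Matrix
open Set Filter Topology MeasureTheory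

namespace Pool.Agent.Work.MP_b0497c_an.Forced.S

namespace I5

open Pool.Agent.Work.MP_b0497c_an.Dec (cube)
open Pool.Agent.Work.MP_b0497c_an.Forced.C10 (ofE toE red sh red_period red_zero smooth_at
  smooth_on diff_space fderiv_vec fderiv_scal comp_fderiv fderiv_expand gradient_apply entry
  ofE_toE ofE_e toE_apply)
open Pointwise


theorem span_inv {F : (Fin 3 → ℝ) → ℝ} {L : ℝ} (b : Module.Basis (Fin 3) ℝ (Fin 3 → ℝ))
    (hb : ∀ i, b i = Pi.single i L)
    (hF : ∀ i x, F (x + Pi.single i L) = F x) (g : (Fin 3 → ℝ))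
    (hg : g ∈ Submodule.span ℤ (range b)) : ∀ x, F (g + x) = F x := by
  induction hg using Submodule.span_induction with
  | mem x h =>
    obtain ⟨i, rfl⟩ := h
    intro y
    rw [hb, add_comm, hF]
  | zero => intro y; rw [zero_add]
  | add x y _ _ h1 h2 => intro z; rw [add_assoc, h1, h2]
  | smul a x _ h =>
    have key : ∀ n : ℕ, ∀ z, F (n • x + z) = F z := by
      intro n
      induction n with
      | zero => intro z; rw [zero_smul, zero_add]
      | succ n ih => intro z; rw [succ_nsmul, add_assoc, ih, h]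
    intro y
    obtain ⟨n, rfl | rfl⟩ := a.eq_nat_or_neg
    · rw [natCast_zsmul, key]
    · have h2 := key n ((-(n : ℤ)) • x + y)
      rw [← h2]
      congr 1
      rw [neg_smul, natCast_zsmul]
      abel

theorem cube_shift {F : (Fin 3 → ℝ) → ℝ} {L : ℝ} (hL : 0 < L)
    (hF : ∀ i x, F (x + Pi.single i L) = F x) :
    ∫ x in Icc (fun _ : Fin 3 => (0:ℝ)) (fun _ => L), F x =
      ∫ x in univ.pi (fun _ : Fin 3 => Ico (-(L/2)) (L/2)), F x := by
  set b : Module.Basis (Fin 3) ℝ (Fin 3 → ℝ) :=
    (Pi.basisFun ℝ (Fin 3)).unitsSMul (fun _ => Units.mk0 L hL.ne') with hb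
  have hbi : ∀ i, b i = Pi.single i L := by
    intro i
    rw [hb, Module.Basis.unitsSMul_apply]
    rw [Pi.basisFun_apply]
    show L • (Pi.single i 1 : Fin 3 → ℝ) = _
    rw [← Pi.single_smul]
    simp
  have hD : ZSpan.fundamentalDomain b = univ.pi (fun _ : Fin 3 => Ico (0:ℝ) L) := by
    ext x
    rw [ZSpan.mem_fundamentalDomain, mem_univ_pi]
    refine forall_congr' fun i => ?_
    have h1 : b.repr x i = L⁻¹ * x i := by
      rw [hb, Module.Basis.repr_unitsSMul]
      simp [Units.smul_def]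
    rw [h1, mem_Ico, mem_Ico]
    constructor
    · rintro ⟨h2, h3⟩
      have h4 : x i = L * (L⁻¹ * x i) := by field_simp
      rw [h4]
      constructor
      · positivity
      · nlinarith
    · rintro ⟨h2, h3⟩
      constructor
      · positivity
      · rw [inv_mul_lt_iff₀ hL]; linarith
  have h1 := ZSpan.isAddFundamentalDomain' b (volume : Measure (Fin 3 → ℝ))
  have h2 := h1.vadd_of_comm (fun _ : Fin 3 => -(L/2))
  have : Countable (Submodule.span ℤ (range b)).toAddSubgroup := inferInstanceAs (Countable (Submodule.span ℤ (range b)))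
  have h3 := h1.setIntegral_eq h2 (f := F) (fun g x => span_inv b hbi hF g.1 g.2 x)
  have h4 : (fun _ : Fin 3 => -(L/2)) +ᵥ (ZSpan.fundamentalDomain b) =
      univ.pi (fun _ : Fin 3 => Ico (-(L/2)) (L/2)) := by
    rw [hD]
    ext x
    rw [mem_vadd_set_iff_neg_vadd_mem, mem_univ_pi, mem_univ_pi]
    refine forall_congr' fun i => ?_
    simp only [vadd_eq_add, Pi.add_apply, Pi.neg_apply, mem_Ico]
    constructor <;> rintro ⟨h2, h3⟩ <;> constructor <;> linarith
  rw [h4, hD] at h3
  rw [← h3]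
  exact setIntegral_congr_set (Measure.univ_pi_Ico_ae_eq_Icc (f := fun _ : Fin 3 => (0:ℝ)) (g := fun _ => L)).symm

/-- periodic functions on the torus -/
theorem int_cube_eq {F : E3 → ℝ} (hF : Periodic3 F) :
    ∫ x in cube, F x =
      ∫ y in univ.pi (fun _ : Fin 3 => Ico (-(2 * Real.pi / 2)) (2 * Real.pi / 2)), F (toE y) := by
  have h1 := (PiLp.volume_preserving_toLp (Fin 3)).setIntegral_preimage_emb
    (MeasurableEquiv.toLp 2 (Fin 3 → ℝ)).measurableEmbedding F cube
  rw [← h1, Dec.cube_preimage]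
  refine cube_shift (F := fun y => F (toE y)) (by positivity) ?_
  intro i x
  have h2 : toE (x + Pi.single i (2 * Real.pi)) = toE x + (2 * Real.pi) • e i := by
    ext j
    simp only [toE_apply, Pi.add_apply, PiLp.add_apply, PiLp.smul_apply, smul_eq_mul]
    by_cases hij : j = i
    · subst hij; simp [e]
    · simp [e, hij]
  show F (toE (x + Pi.single i (2 * Real.pi))) = F (toE x)
  rw [h2]
  exact hF i (toE x)

theorem red_toE {y : V3} (hy : y ∈ univ.pi (fun _ : Fin 3 =>
    Ico (-(2 * Real.pi / 2)) (2 * Real.pi / 2))) : red (toE y) = y := by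
  have hpi := Real.pi_pos
  funext j
  show (toE y) j - 2 * Real.pi * round ((toE y) j / (2 * Real.pi)) = y j
  rw [toE_apply]
  have h1 := (mem_univ_pi.1 hy) j
  rw [mem_Ico] at h1
  have h2 : round (y j / (2 * Real.pi)) = 0 := by
    rw [round_eq, Int.floor_eq_zero_iff, mem_Ico]
    constructor
    · have : -(1/2) ≤ y j / (2 * Real.pi) := by
        rw [le_div_iff₀ (by positivity)]; linarith [h1.1]
      linarith
    · have : y j / (2 * Real.pi) < 1/2 := by
        rw [div_lt_iff₀ (by positivity)]; linarith [h1.2]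
      linarith
  rw [h2]
  simp

theorem avg_eq {v : V3 → V3} {phi : E3 → E3} (hv : Continuous v) (hphi : Continuous phi)
    (h0 : ∀ x, 1 < ‖x‖ → v x = 0) (hper : Periodic3 phi) :
    ∫ x in cube, inner ℝ (phi x) (toE (v (red x))) =
      ∑ a, ∫ y, phi (toE y) a * v y a := by
  have hpi := Real.pi_gt_three
  rw [int_cube_eq (F := fun x => inner ℝ (phi x) (toE (v (red x))))
    (fun i x => by simp only [hper i x, red_period i x])]
  have h1 : ∫ y in univ.pi (fun _ : Fin 3 => Ico (-(2 * Real.pi / 2)) (2 * Real.pi / 2)),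
      inner ℝ (phi (toE y)) (toE (v (red (toE y)))) =
      ∫ y in univ.pi (fun _ : Fin 3 => Ico (-(2 * Real.pi / 2)) (2 * Real.pi / 2)),
      ∑ a, phi (toE y) a * v y a := by
    refine setIntegral_congr_fun (MeasurableSet.univ_pi (fun _ => measurableSet_Ico)) ?_
    intro y hy
    show inner ℝ (phi (toE y)) (toE (v (red (toE y)))) = _
    rw [red_toE hy, PiLp.inner_apply]
    refine Finset.sum_congr rfl fun a _ => ?_
    rw [toE_apply]
    simp [mul_comm]
  rw [h1, setIntegral_eq_integral_of_forall_compl_eq_zero]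
  · rw [integral_finsetSum]
    intro a _
    refine Continuous.integrable_of_hasCompactSupport ?_ ?_
    · have c1 : Continuous fun y : V3 => phi (toE y) a := by
        have c2 : Continuous fun y : V3 => phi (toE y) := hphi.comp toE.continuous
        fun_prop
      have c3 : Continuous fun y : V3 => v y a := (continuous_apply a).comp hv
      exact c1.mul c3
    · refine HasCompactSupport.of_support_subset_isCompact (isCompact_closedBall (0 : V3) 1) ?_
      intro y hy
      rw [mem_closedBall_zero_iff]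
      by_contra hc
      apply hy
      show phi (toE y) a * v y a = 0
      rw [h0 y (not_le.1 hc)]
      simp
  · intro y hy
    have h2 : 1 < ‖y‖ := by
      by_contra hc
      apply hy
      rw [mem_univ_pi]
      intro j
      have h3 : |y j| ≤ 1 := (norm_le_pi_norm y j).trans (not_lt.1 hc)
      rw [abs_le] at h3
      constructor <;> linarith [h3.1, h3.2]
    rw [h0 y h2]
    simp

theorem one_lt_norm_red {x : E3} (hx : Real.cos (x 0) < 1 / 2) : 1 < ‖red x‖ := by
  by_contra hc
  have h1 : |red x 0| ≤ 1 := (norm_le_pi_norm (red x) 0).trans (not_lt.1 hc)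
  have h2 : Real.cos (red x 0) = Real.cos (x 0) := by
    show Real.cos (x 0 - 2 * Real.pi * round (x 0 / (2 * Real.pi))) = _
    rw [show x 0 - 2 * Real.pi * (round (x 0 / (2 * Real.pi)) : ℝ) =
      x 0 - (round (x 0 / (2 * Real.pi)) : ℝ) * (2 * Real.pi) by ring]
    exact Real.cos_sub_int_mul_two_pi _ _
  have h3 : Real.cos (Real.pi / 3) ≤ Real.cos (red x 0) := by
    rw [← Real.cos_abs (red x 0)]
    refine Real.cos_le_cos_of_nonneg_of_le_pi (abs_nonneg _) ?_ ?_
    · linarith [Real.pi_pos]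
    · linarith [Real.pi_gt_three]
  rw [Real.cos_pi_div_three, h2] at h3
  linarith

/-- test functions in coordinates -/
theorem tb_of (m : ℕ) : ∃ C : ℝ, 0 ≤ C ∧ ∀ phi : E3 → E3, ContDiff ℝ ∞ phi →
    ∀ D : ℝ, (∀ m' ≤ m, ∀ x, ‖iteratedFDeriv ℝ m' phi x‖ ≤ D) → ∀ a : Fin 3,
      TB (fun y => phi (toE y) a) m (C * D) := by
  set L : Fin 3 → E3 →L[ℝ] ℝ := fun a => EuclideanSpace.proj a with hL
  set A : V3 →L[ℝ] E3 := (toE : V3 →L[ℝ] E3) with hA
  refine ⟨(∑ a, ‖L a‖) * (1 + ‖A‖) ^ m, by positivity, ?_⟩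
  intro phi hphi D hD a m' hm' x _
  have hD0 : 0 ≤ D := (norm_nonneg _).trans (hD 0 (Nat.zero_le _) 0)
  have h1 : (fun y => phi (toE y) a) = (L a) ∘ (phi ∘ A) := rfl
  have hc : ContDiff ℝ ∞ (phi ∘ A) := hphi.comp A.contDiff
  rw [h1]
  have h2 : ‖iteratedFDeriv ℝ m' ((L a) ∘ (phi ∘ A)) x‖ ≤
      ‖L a‖ * ‖iteratedFDeriv ℝ m' (phi ∘ A) x‖ :=
    ContinuousLinearMap.norm_iteratedFDeriv_comp_left (L a) hc.contDiffAt (by exact_mod_cast le_top)
  have h3 : ‖iteratedFDeriv ℝ m' (phi ∘ A) x‖ ≤ ‖iteratedFDeriv ℝ m' phi (A x)‖ * ‖A‖ ^ m' := by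
    rw [ContinuousLinearMap.iteratedFDeriv_comp_right A hphi x (by exact_mod_cast le_top)]
    refine (ContinuousMultilinearMap.norm_compContinuousLinearMap_le _ _).trans ?_
    simp
  have h4 : ‖A‖ ^ m' ≤ (1 + ‖A‖) ^ m := by
    calc ‖A‖ ^ m' ≤ (1 + ‖A‖) ^ m' := by gcongr; linarith
      _ ≤ (1 + ‖A‖) ^ m := pow_le_pow_right₀ (by linarith [norm_nonneg A]) hm'
  have h5 : ‖L a‖ ≤ ∑ a, ‖L a‖ :=
    Finset.single_le_sum (f := fun a => ‖L a‖) (fun _ _ => norm_nonneg _) (Finset.mem_univ a)
  calc ‖iteratedFDeriv ℝ m' ((L a) ∘ (phi ∘ A)) x‖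
      ≤ ‖L a‖ * (‖iteratedFDeriv ℝ m' phi (A x)‖ * ‖A‖ ^ m') := h2.trans (by gcongr)
    _ ≤ (∑ a, ‖L a‖) * (D * (1 + ‖A‖) ^ m) := by
        have := hD m' hm' (A x)
        gcongr
    _ = _ := by ring

theorem iteratedDeriv_sum3 {g : Fin 3 → ℝ → ℝ} (hg : ∀ a, ContDiff ℝ ∞ (g a)) (j : ℕ) (t : ℝ) :
    iteratedDeriv j (fun t => ∑ a, g a t) t = ∑ a, iteratedDeriv j (g a) t := by
  rw [← iteratedDerivWithin_univ]
  simp_rw [← iteratedDerivWithin_univ]
  have := iteratedDerivWithin_fun_sum (𝕜 := ℝ) (n := j) (x := t) (s := univ) (mem_univ t)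
    uniqueDiffOn_univ (f := g) (I := Finset.univ)
    (fun a _ => ((hg a).of_le (by exact_mod_cast le_top)).contDiffAt.contDiffWithinAt)
  exact this

end I5

open I5 C10 in
theorem prfI5 : claimI5 := by
  intro T f u p hT hT3 S hA
  obtain ⟨G, hG, hGb⟩ := hA
  have hfs : ∀ t x, 1 < ‖x‖ → f t x = 0 := S.f_supp
  refine ⟨fun t x => toE (f t (red x)), fun t x => toE (u t (red x)), fun t x => p t (red x), ?_⟩
  refine
    { T_pos := hT
      T_lt := hT3
      f_smooth := ?_
      f_per := ?_
      f_time := ?_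
      u_smooth := ?_
      p_smooth := ?_
      u_per := ?_
      p_per := ?_
      u_zero := ?_
      f_supp := ?_
      u_supp := ?_
      p_supp := ?_
      euler := ?_
      div_free := ?_
      blow := ?_
      avg := ?_ }
  · rw [contDiff_iff_contDiffAt]
    intro z
    have h := smooth_at (g := f) (T := z.1 + 1) (t := z.1) (x := z.2) (by linarith)
      (fun t _ x hx => hfs t x hx) S.f_smooth.contDiffOn
    exact toE.contDiff.contDiffAt.comp z h
  · intro t i x
    show toE (f t (red (x + (2 * Real.pi) • e i))) = toE (f t (red x))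
    rw [red_period]
  · intro t ht x
    show toE (f t (red x)) = 0
    rw [S.f_time t ht, map_zero]
  · exact toE.contDiff.comp_contDiffOn (smooth_on S.u_supp S.u_smooth)
  · exact smooth_on S.p_supp S.p_smooth
  · intro t _ i x
    show toE (u t (red (x + (2 * Real.pi) • e i))) = toE (u t (red x))
    rw [red_period]
  · intro t _ i x
    show p t (red (x + (2 * Real.pi) • e i)) = p t (red x)
    rw [red_period]
  · intro t ht x
    show toE (u t (red x)) = 0
    rw [S.u_zero t ht, map_zero]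
  · intro t x hx
    show toE (f t (red x)) = 0
    rw [S.f_supp t _ (one_lt_norm_red hx), map_zero]
  · intro t ht x hx
    show toE (u t (red x)) = 0
    rw [S.u_supp t ht _ (one_lt_norm_red hx), map_zero]
  · intro t ht x hx
    exact S.p_supp t ht _ (one_lt_norm_red hx)
  · intro t ht x
    obtain ⟨hd, hdt⟩ := diff_space ht S.u_smooth (red x)
    obtain ⟨hdp, _⟩ := diff_space ht S.p_smooth (red x)
    have e1 : deriv (fun s => toE (u s (red x))) t = toE (deriv (fun s => u s (red x)) t) := by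
      have h1 := hdt.hasDerivAt
      have h2 := (toE : V3 →L[ℝ] E3).hasFDerivAt.comp_hasDerivAt t h1
      exact h2.deriv
    have e2 : ∀ j, deriv (fun s => u s (red x)) t j = deriv (fun s => u s (red x) j) t := by
      intro j
      have h1 := (hasDerivAt_pi.1 hdt.hasDerivAt) j
      exact h1.deriv.symm
    have e3 : ∀ j, (fderiv ℝ (fun y => toE (u t (red y))) x (toE (u t (red x)))) j =
        ∑ i, u t (red x) i * fderiv ℝ (fun y => u t y j) (red x) (Pi.single i 1) := by
      intro j
      rw [(fderiv_vec (S.u_supp t ht) hd).fderiv]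
      show (toE (fderiv ℝ (u t) (red x) (ofE (toE (u t (red x)))))) j = _
      rw [toE_apply, ofE_toE, comp_fderiv hd]
      exact fderiv_expand _
    have e4 : ∀ j, (gradient (fun y => p t (red y)) x) j =
        fderiv ℝ (p t) (red x) (Pi.single j 1) := by
      intro j
      rw [gradient_apply, (fderiv_scal (S.p_supp t ht) hdp).fderiv]
      show fderiv ℝ (p t) (red x) (ofE (e j)) = _
      rw [ofE_e]
    have hE := S.euler t ht (red x)
    ext j
    show (deriv (fun s => toE (u s (red x))) t) j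
      + (fderiv ℝ (fun y => toE (u t (red y))) x (toE (u t (red x)))) j
      = - (gradient (fun y => p t (red y)) x) j + f t (red x) j
    rw [e1, toE_apply, e2, e3, e4, ← hE j]
    unfold eu
    ring
  · intro t ht x
    obtain ⟨hd, _⟩ := diff_space ht S.u_smooth (red x)
    show LinearMap.trace ℝ E3 (fderiv ℝ (fun y => toE (u t (red y))) x : E3 →L[ℝ] E3) = 0
    rw [trace_eq, entry (S.u_supp t ht) hd, entry (S.u_supp t ht) hd,
      entry (S.u_supp t ht) hd]
    have h := S.div_free t ht (red x)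
    rw [Fin.sum_univ_three] at h
    exact h
  · rw [tendsto_atTop]
    intro B
    obtain ⟨t0, ht0, hB⟩ := S.blow B
    filter_upwards [Ioo_mem_nhdsLT ht0] with t ht
    obtain ⟨j, hj⟩ := hB t ht
    have hd0 := (diff_space ht.2 S.u_smooth (red 0)).1
    have e0 : ∀ i k : Fin 3, (fderiv ℝ (fun y => toE (u t (red y))) 0 (e i)) k =
        fderiv ℝ (fun y => u t y k) 0 (Pi.single i 1) := by
      intro i k
      rw [entry (S.u_supp t ht.2) hd0, red_zero]
    have e5 : (curl (fun y => toE (u t (red y))) 0) j = curlV (u t) 0 j := by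
      unfold curl
      fin_cases j
      · show axial _ 0 = _
        rw [axial_zero, e0, e0]
        rfl
      · show axial _ 1 = _
        rw [axial_one, e0, e0]
        rfl
      · show axial _ 2 = _
        rw [axial_two, e0, e0]
        rfl
    rw [← e5] at hj
    refine hj.trans ?_
    exact PiLp.norm_apply_le (curl (fun y => toE (u t (red y))) 0) j
  · have hcd : ∀ phi : E3 → E3, ContDiff ℝ ∞ phi → ∀ a : Fin 3,
        ContDiff ℝ ∞ (fun y : V3 => phi (toE y) a) := by
      intro phi hphi a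
      have h1 : ContDiff ℝ ∞ (fun y : V3 => phi (toE y)) := hphi.comp toE.contDiff
      exact (EuclideanSpace.proj (𝕜 := ℝ) a).contDiff.comp h1
    refine ⟨fun phi t => ∑ a, G (fun y => phi (toE y) a) a t, ?_, ?_⟩
    · intro phi hphi hper
      refine ⟨?_, ?_, ?_⟩
      · exact ContDiff.sum fun a _ => (hG _ (hcd phi hphi a) a).1
      · intro t ht
        have hc : Continuous (u t) := by
          rw [continuous_iff_continuousAt]
          intro x
          exact (diff_space ht S.u_smooth x).1.continuousAt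
        show _ = ∫ x in _, inner ℝ (phi x) (toE (u t (red x)))
        rw [avg_eq hc hphi.continuous (S.u_supp t ht) hper]
        refine Finset.sum_congr rfl fun a _ => ?_
        exact (hG _ (hcd phi hphi a) a).2.1 t ht
      · intro t ht
        refine Finset.sum_eq_zero fun a _ => ?_
        exact (hG _ (hcd phi hphi a) a).2.2 t ht
    · intro j
      obtain ⟨C, m, hC⟩ := hGb j
      obtain ⟨C', hC', hTB⟩ := tb_of m
      refine ⟨3 * (C * C'), m, ?_⟩
      intro phi hphi hper D hD t
      rw [iteratedDeriv_sum3 (fun a => (hG _ (hcd phi hphi a) a).1)]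
      have h1 : ∀ a, |iteratedDeriv j (G (fun y => phi (toE y) a) a) t| ≤ C * (C' * D) :=
        fun a => hC _ (hcd phi hphi a) _ (hTB phi hphi D hD a) a t
      calc |∑ a, iteratedDeriv j (G (fun y => phi (toE y) a) a) t|
          ≤ ∑ a, |iteratedDeriv j (G (fun y => phi (toE y) a) a) t| :=
            Finset.abs_sum_le_sum_abs _ _
        _ ≤ ∑ _a : Fin 3, C * (C' * D) := Finset.sum_le_sum fun a _ => h1 a
        _ = 3 * (C * C') * D := by simp; ring

end Pool.Agent.Work.MP_b0497c_an.Forced.S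

end
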