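import Pool.Agent.Work.MP_b0497c_an.Forced.Asm.Defs
import Pool.Agent.Work.MP_b0497c_an.Bd.B21

/-! Bundle of small proof modules (one section per former module). -/

section

set_option autoImplicit false

/-!
C12: scaling of solutions on the torus.
-/

open scoped ContDiff Matrix
open Set Filter Topology

namespace Pool.Agent.Work.MP_b0497c_an.Forced

namespace C12

theorem diff_u {T : ℝ} {f u : ℝ → E3 → E3} {p : ℝ → E3 → ℝ} (h : TorusSol T f u p) {t : ℝ}
    (ht : t < T) (x : E3) : DifferentiableAt ℝ (u t) x := by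
  have hopen : IsOpen (Iio T ×ˢ (univ : Set E3)) := isOpen_Iio.prod isOpen_univ
  have h1 : ContDiffAt ℝ ∞ (fun z : ℝ × E3 => u z.1 z.2) (t, x) :=
    h.u_smooth.contDiffAt (hopen.mem_nhds ⟨ht, mem_univ _⟩)
  have h2 : DifferentiableAt ℝ (fun z : ℝ × E3 => u z.1 z.2) (t, x) :=
    h1.differentiableAt (by simp)
  exact h2.comp x (by fun_prop : DifferentiableAt ℝ (fun y : E3 => (t, y)) x)

theorem diff_p {T : ℝ} {f u : ℝ → E3 → E3} {p : ℝ → E3 → ℝ} (h : TorusSol T f u p) {t : ℝ}
    (ht : t < T) (x : E3) : DifferentiableAt ℝ (p t) x := by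
  have hopen : IsOpen (Iio T ×ˢ (univ : Set E3)) := isOpen_Iio.prod isOpen_univ
  have h1 : ContDiffAt ℝ ∞ (fun z : ℝ × E3 => p z.1 z.2) (t, x) :=
    h.p_smooth.contDiffAt (hopen.mem_nhds ⟨ht, mem_univ _⟩)
  have h2 : DifferentiableAt ℝ (fun z : ℝ × E3 => p z.1 z.2) (t, x) :=
    h1.differentiableAt (by simp)
  exact h2.comp x (by fun_prop : DifferentiableAt ℝ (fun y : E3 => (t, y)) x)

theorem curl_smul {v : E3 → E3} {x : E3} (hv : DifferentiableAt ℝ v x) (l : ℝ) :
    curl (fun y => l • v y) x = l • curl v x := by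
  unfold curl
  have h1 : fderiv ℝ (fun y => l • v y) x = l • fderiv ℝ v x := fderiv_fun_const_smul hv l
  rw [h1]
  ext i
  fin_cases i <;> simp [axial] <;> ring

end C12

open C12

theorem prfC12 : claimC12 := by
  intro T f u p h l hl
  have hlt : ∀ t : ℝ, t < T / l → l * t < T := by
    intro t ht
    rw [mul_comm]
    exact (lt_div_iff₀ hl).1 ht
  have hA : ContDiff ℝ ∞ (fun z : ℝ × E3 => (l * z.1, z.2)) := by fun_prop
  have hmaps : MapsTo (fun z : ℝ × E3 => (l * z.1, z.2)) (Iio (T / l) ×ˢ univ) (Iio T ×ˢ univ) := by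
    rintro ⟨t, x⟩ ⟨ht, -⟩
    exact ⟨hlt t ht, mem_univ _⟩
  refine ⟨?_, ?_, ?_, ?_, ?_, ?_, ?_, ?_, ?_, ?_, ?_⟩
  · exact (h.f_smooth.comp hA).const_smul (l ^ 2)
  · intro t i x
    simp only
    rw [h.f_per (l * t) i x]
  · obtain ⟨T1, hT1⟩ := h.f_time
    refine ⟨T1 / l, fun t ht x => ?_⟩
    have : l * t ∉ Icc (0 : ℝ) T1 := by
      rintro ⟨h1, h2⟩
      refine ht ⟨?_, ?_⟩
      · exact nonneg_of_mul_nonneg_right h1 hl
      · rw [le_div_iff₀ hl, mul_comm]; exact h2
    rw [hT1 _ this x, smul_zero]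
  · exact (h.u_smooth.comp hA.contDiffOn hmaps).const_smul l
  · have := (h.p_smooth.comp hA.contDiffOn hmaps).const_smul (l ^ 2)
    exact this
  · intro t ht i x
    simp only
    rw [h.u_per (l * t) (hlt t ht) i x]
  · intro t ht i x
    simp only
    rw [h.p_per (l * t) (hlt t ht) i x]
  · intro t ht x
    have : l * t ≤ 0 := mul_nonpos_of_nonneg_of_nonpos hl.le ht
    rw [h.u_zero _ this x, smul_zero]
  · intro t ht x
    have ht' := hlt t ht
    have hu := diff_u h ht' x
    have hp := diff_p h ht' x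
    have e1 : deriv (fun s => l • u (l * s) x) t = l • l • deriv (fun s => u s x) (l * t) := by
      rw [deriv_fun_const_smul_field]
      congr 1
      exact deriv_comp_mul_left l (fun s => u s x) t
    have e2 : fderiv ℝ (fun x => l • u (l * t) x) x = l • fderiv ℝ (u (l * t)) x :=
      fderiv_fun_const_smul hu l
    have e3 : gradient (fun x => l ^ 2 * p (l * t) x) x = l ^ 2 • gradient (p (l * t)) x := by
      unfold gradient
      have : fderiv ℝ (fun x => l ^ 2 * p (l * t) x) x = l ^ 2 • fderiv ℝ (p (l * t)) x :=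
        fderiv_fun_const_smul hp (l ^ 2)
      rw [this, map_smul]
    have he := h.euler (l * t) ht' x
    rw [e1, e2, e3]
    have e4 : (l • fderiv ℝ (u (l * t)) x) (l • u (l * t) x)
        = l • l • fderiv ℝ (u (l * t)) x (u (l * t) x) := by
      rw [FunLike.coe_smul, Pi.smul_apply, map_smul]
    rw [e4, ← smul_add, ← smul_add, he, smul_smul, ← sq, smul_add, smul_neg]
  · intro t ht x
    have hu := diff_u h (hlt t ht) x
    have e2 : fderiv ℝ (fun x => l • u (l * t) x) x = l • fderiv ℝ (u (l * t)) x :=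
      fderiv_fun_const_smul hu l
    rw [e2]
    have e5 := h.div_free (l * t) (hlt t ht) x
    have e6 : ((l • fderiv ℝ (u (l * t)) x : E3 →L[ℝ] E3) : E3 →ₗ[ℝ] E3)
        = l • ((fderiv ℝ (u (l * t)) x : E3 →L[ℝ] E3) : E3 →ₗ[ℝ] E3) := rfl
    rw [e6, map_smul, e5, smul_zero]
  · have h1 : Tendsto (fun t : ℝ => l * t) (𝓝[<] (T / l)) (𝓝[<] T) := by
      refine tendsto_nhdsWithin_iff.2 ⟨?_, ?_⟩
      · have h2 : Tendsto (fun t : ℝ => l * t) (𝓝 (T / l)) (𝓝 (l * (T / l))) :=
          (continuous_const.mul continuous_id).tendsto _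
        rw [mul_div_cancel₀ _ hl.ne'] at h2
        exact h2.mono_left nhdsWithin_le_nhds
      · filter_upwards [self_mem_nhdsWithin] with t ht
        exact hlt t ht
    have h2 := (h.blow.comp h1).const_mul_atTop hl
    refine h2.congr' ?_
    filter_upwards [self_mem_nhdsWithin] with t ht
    have hu := diff_u h (hlt t ht) 0
    rw [curl_smul hu l, norm_smul, Real.norm_of_nonneg hl.le]
    rfl

end Pool.Agent.Work.MP_b0497c_an.Forced

end

section

set_option autoImplicit false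

/-!
# Assembly, item C14: the maximal time of existence
-/

open scoped ContDiff Matrix
open Set Filter Topology

namespace Pool.Agent.Work.MP_b0497c_an.Forced

namespace C14

theorem continuous_ax : Continuous (axial : (E3 →L[ℝ] E3) → E3) := by
  have h : ∀ i j : Fin 3, Continuous fun A : E3 →L[ℝ] E3 => (A (e i)) j := by
    intro i j
    have h1 : Continuous fun A : E3 →L[ℝ] E3 => A (e i) :=
      continuous_id.clm_apply continuous_const
    exact (EuclideanSpace.proj (𝕜 := ℝ) (ι := Fin 3) j).continuous.comp h1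
  have h2 : (axial : (E3 →L[ℝ] E3) → E3) = fun A =>
      ((A (e 1)) 2 - (A (e 2)) 1) • e 0 + ((A (e 2)) 0 - (A (e 0)) 2) • e 1
        + ((A (e 0)) 1 - (A (e 1)) 0) • e 2 := by
    funext A
    rw [expand (axial A), axial_zero, axial_one, axial_two]
  rw [h2]
  exact ((((h 1 2).sub (h 2 1)).smul continuous_const).add
    (((h 2 0).sub (h 0 2)).smul continuous_const)).add
    (((h 0 1).sub (h 1 0)).smul continuous_const)

variable {T : ℝ} {f u : ℝ → E3 → E3} {p : ℝ → E3 → ℝ}

theorem sub_set (T : ℝ) : Ico (0 : ℝ) T ×ˢ (univ : Set E3) ⊆ Iio T ×ˢ univ :=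
  prod_mono (fun _ ht => ht.2) (Subset.refl _)

theorem isForced (h : TorusSol T f u p) : IsForcedSolution T f u p where
  periodic_u := fun t ht => h.u_per t ht.2
  periodic_p := fun t ht => h.p_per t ht.2
  contDiff_u := (h.u_smooth.mono (sub_set T)).of_le (by simp)
  contDiff_p := (h.p_smooth.mono (sub_set T)).of_le (by simp)
  momentum := by
    intro t ht x
    have hopen : IsOpen (Iio T ×ˢ (univ : Set E3)) := isOpen_Iio.prod isOpen_univ
    have h1 : DifferentiableAt ℝ (fun z : ℝ × E3 => u z.1 z.2) (t, x) :=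
      (h.u_smooth.contDiffAt (hopen.mem_nhds
        (show (t, x) ∈ Iio T ×ˢ (univ : Set E3) from ⟨ht.2, mem_univ _⟩))).differentiableAt (by simp)
    have h2 : DifferentiableAt ℝ (fun s : ℝ => (s, x)) t :=
      differentiableAt_id.prodMk (differentiableAt_const x)
    have h3 : DifferentiableAt ℝ (fun s => u s x) t :=
      DifferentiableAt.comp (g := fun z : ℝ × E3 => u z.1 z.2) t h1 h2
    rw [h3.derivWithin (uniqueDiffOn_Ico 0 T t ht)]
    exact h.euler t ht.2 x
  div_free := fun t ht x => h.div_free t ht.2 x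

theorem curl_tendsto {T' : ℝ} {v : ℝ → E3 → E3} {q : ℝ → E3 → ℝ} (hv : IsForcedSolution T' f v q)
    (hT : 0 < T) (hTT : T < T') :
    Tendsto (fun t => ‖curl (v t) 0‖) (𝓝[<] T) (𝓝 ‖curl (v T) 0‖) := by
  have h1 : ContinuousOn (fun z : ℝ × E3 => fderiv ℝ (v z.1) z.2) (Ico 0 T' ×ˢ univ) :=
    continuousOn_fderiv hv.contDiff_u
  have h2 : ContinuousOn (fun t : ℝ => fderiv ℝ (v t) 0) (Ico 0 T') := by
    have h3 : ContinuousOn (fun t : ℝ => (t, (0 : E3))) (Ico 0 T') :=
      (continuous_id.prodMk continuous_const).continuousOn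
    exact ContinuousOn.comp (g := fun z : ℝ × E3 => fderiv ℝ (v z.1) z.2) h1 h3
      (fun t ht => ⟨ht, mem_univ _⟩)
  have h4 : ContinuousOn (fun t : ℝ => ‖curl (v t) 0‖) (Ico 0 T') :=
    (continuous_ax.comp_continuousOn h2).norm
  have h5 : ContinuousAt (fun t : ℝ => ‖curl (v t) 0‖) T :=
    h4.continuousAt (Ico_mem_nhds hT hTT)
  exact h5.tendsto.mono_left nhdsWithin_le_nhds

end C14

theorem prfC14 : claimC14 := by
  intro h11 T f u p hT h
  have hu := C14.isForced h
  refine ⟨hu, ?_⟩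
  intro T' v q hv hv0
  have huv : ∀ x, v 0 x = u 0 x := fun x => by rw [hv0 x, h.u_zero 0 le_rfl x]
  have heq := h11 T' T f v u q p hv hu huv
  have hle : T' ≤ T := by
    by_contra hlt
    push Not at hlt
    rw [min_eq_right hlt.le] at heq
    have h1 := C14.curl_tendsto hv hT hlt
    have h2 : Tendsto (fun t => ‖curl (v t) 0‖) (𝓝[<] T) atTop := by
      refine h.blow.congr' ?_
      filter_upwards [Ico_mem_nhdsLT hT] with t ht
      have : v t = u t := funext (heq t ht)
      rw [this]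
    exact not_tendsto_nhds_of_tendsto_atTop h2 _ h1
  rw [min_eq_left hle] at heq
  exact ⟨hle, heq⟩

end Pool.Agent.Work.MP_b0497c_an.Forced

end

section

set_option autoImplicit false

/-!
# C2: the large scale flow

`w0 = curl (η(t) χ(x) (1/3) (M x) × x)`; it is equal to `M x` where `η χ = 1`, because `tr M = 0`.
-/

open scoped ContDiff Matrix
open Set Filter Topology

namespace Pool.Agent.Work.MP_b0497c_an.Forced

namespace C2

/-- Smooth functions of `(t, x)`. -/
def Smo (f : ℝ → V3 → ℝ) : Prop := ContDiff ℝ ∞ (fun z : ℝ × V3 => f z.1 z.2)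

/-- Partial derivative in `x_j`. -/
noncomputable def px (j : Fin 3) (f : ℝ → V3 → ℝ) (t : ℝ) (x : V3) : ℝ :=
  fderiv ℝ (fun y => f t y) x (Pi.single j 1)

theorem px_eq (f : ℝ → V3 → ℝ) (hf : Smo f) (j : Fin 3) (t : ℝ) (x : V3) :
    px j f t x =
      fderiv ℝ (fun z : ℝ × V3 => f z.1 z.2) (t, x) ((0 : ℝ), (Pi.single j 1 : V3)) := by
  have h1 : HasFDerivAt (fun z : ℝ × V3 => f z.1 z.2)
      (fderiv ℝ (fun z : ℝ × V3 => f z.1 z.2) (t, x)) (t, x) :=
    ((ContDiff.differentiable hf (by simp)) (t, x)).hasFDerivAt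
  have h2 : HasFDerivAt (fun y : V3 => (t, y)) (ContinuousLinearMap.inr ℝ ℝ V3) x :=
    hasFDerivAt_prodMk_right t x
  have h3 : HasFDerivAt (fun y : V3 => f t y) _ x := h1.comp x h2
  show fderiv ℝ (fun y => f t y) x (Pi.single j 1) = _
  rw [h3.fderiv]
  rfl

theorem px_smo (f : ℝ → V3 → ℝ) (hf : Smo f) (j : Fin 3) : Smo (px j f) := by
  have h1 : ContDiff ℝ ∞ (fderiv ℝ (fun z : ℝ × V3 => f z.1 z.2)) :=
    ContDiff.fderiv_right (m := ∞) hf (by simp)
  have h2 : ContDiff ℝ ∞ (fun z : ℝ × V3 =>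
      fderiv ℝ (fun z : ℝ × V3 => f z.1 z.2) z ((0 : ℝ), (Pi.single j 1 : V3))) :=
    h1.clm_apply contDiff_const
  have h3 : (fun z : ℝ × V3 => px j f z.1 z.2) = fun z : ℝ × V3 =>
      fderiv ℝ (fun z : ℝ × V3 => f z.1 z.2) z ((0 : ℝ), (Pi.single j 1 : V3)) := by
    funext z
    exact px_eq f hf j z.1 z.2
  unfold Smo
  rw [h3]
  exact h2

theorem slice (f : ℝ → V3 → ℝ) (hf : Smo f) (t : ℝ) : ContDiff ℝ ∞ (fun y => f t y) := by
  have h : ContDiff ℝ ∞ (fun y : V3 => (t, y)) := contDiff_const.prodMk contDiff_id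
  exact ContDiff.comp (g := fun z : ℝ × V3 => f z.1 z.2) hf h

theorem comm (g : V3 → ℝ) (hg : ContDiff ℝ ∞ g) (z v w : V3) :
    fderiv ℝ (fun z => fderiv ℝ g z w) z v = fderiv ℝ (fun z => fderiv ℝ g z v) z w := by
  have h1 : ContDiff ℝ ∞ (fderiv ℝ g) := hg.fderiv_right (m := ∞) (by simp)
  have hd : DifferentiableAt ℝ (fderiv ℝ g) z := h1.differentiable (by simp) z
  have e : ∀ u x : V3, fderiv ℝ (fun z => fderiv ℝ g z u) z x =
      (fderiv ℝ (fderiv ℝ g) z x) u := by
    intro u x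
    rw [fderiv_clm_apply hd (differentiableAt_const u)]
    simp
  rw [e, e]
  have hs : IsSymmSndFDerivAt ℝ g z := hg.contDiffAt.isSymmSndFDerivAt (by
    rw [minSmoothness_of_isRCLikeNormedField]; exact WithTop.coe_le_coe.2 le_top)
  exact hs v w

theorem px_comm (f : ℝ → V3 → ℝ) (hf : Smo f) (j k : Fin 3) (t : ℝ) (x : V3) :
    px j (px k f) t x = px k (px j f) t x :=
  comm (fun y => f t y) (slice f hf t) x (Pi.single j 1) (Pi.single k 1)

/-- The polynomial `(1/3) ((M y)_p y_q - (M y)_q y_p)`. -/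
noncomputable def pol (M : Fin 3 → Fin 3 → ℝ) (p q : Fin 3) (y : V3) : ℝ :=
  (1 / 3) * ((∑ m, M p m * y m) * y q - (∑ m, M q m * y m) * y p)

theorem pol_fderiv (M : Fin 3 → Fin 3 → ℝ) (p q j : Fin 3) (x : V3) :
    fderiv ℝ (pol M p q) x (Pi.single j 1) =
      (1 / 3) * ((∑ m, M p m * x m) * (Pi.single j 1 : V3) q + M p j * x q
        - (∑ m, M q m * x m) * (Pi.single j 1 : V3) p - M q j * x p) := by
  have hp : ∀ m : Fin 3, HasFDerivAt (fun y : V3 => y m)
      (ContinuousLinearMap.proj (R := ℝ) (φ := fun _ : Fin 3 => ℝ) m) x := fun m =>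
    (ContinuousLinearMap.proj (R := ℝ) (φ := fun _ : Fin 3 => ℝ) m).hasFDerivAt
  have hM : ∀ l : Fin 3, HasFDerivAt (fun y : V3 => ∑ m, M l m * y m)
      (∑ m, M l m • ContinuousLinearMap.proj (R := ℝ) (φ := fun _ : Fin 3 => ℝ) m) x := fun l =>
    HasFDerivAt.fun_sum (fun m _ => (hp m).const_mul (M l m))
  have h := (((hM p).mul (hp q)).sub ((hM q).mul (hp p))).const_mul (1 / 3)
  have h' : fderiv ℝ (pol M p q) x = _ := HasFDerivAt.fderiv h
  rw [h']
  have e1 : ∀ l : Fin 3, (∑ m, M l m • ContinuousLinearMap.proj (R := ℝ)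
      (φ := fun _ : Fin 3 => ℝ) m) (Pi.single j (1 : ℝ) : V3) = M l j := by
    intro l
    simp only [sum_apply, smul_apply,
      ContinuousLinearMap.proj_apply, smul_eq_mul, Pi.single_apply, mul_ite, mul_one, mul_zero,
      Finset.sum_ite_eq', Finset.mem_univ, if_true]
  have e2 : ∀ m : Fin 3, (ContinuousLinearMap.proj (R := ℝ)
      (φ := fun _ : Fin 3 => ℝ) m) (Pi.single j (1 : ℝ) : V3) = (Pi.single j 1 : V3) m :=
    fun m => rfl
  simp only [smul_apply, sub_apply, add_apply,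
    smul_eq_mul, e1, e2]
  ring

/-- The vector potential. -/
noncomputable def pot (M : ℝ → Fin 3 → Fin 3 → ℝ) (eta : ℝ → ℝ) (chi : V3 → ℝ) (l : Fin 3)
    (t : ℝ) (x : V3) : ℝ :=
  eta t * chi x * pol (M t) (l + 1) (l + 2) x

theorem pot_smo (M : ℝ → Fin 3 → Fin 3 → ℝ) (eta : ℝ → ℝ) (chi : V3 → ℝ)
    (hM : ∀ i j, ContDiff ℝ ∞ (fun t => M t i j)) (he : ContDiff ℝ ∞ eta)
    (hc : ContDiff ℝ ∞ chi) (l : Fin 3) : Smo (pot M eta chi l) := by
  have h1 : ContDiff ℝ ∞ (fun z : ℝ × V3 => eta z.1) := he.comp contDiff_fst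
  have h2 : ContDiff ℝ ∞ (fun z : ℝ × V3 => chi z.2) := hc.comp contDiff_snd
  have h3 : ∀ m : Fin 3, ContDiff ℝ ∞ (fun z : ℝ × V3 => z.2 m) := fun m =>
    (contDiff_apply ℝ ℝ m).comp contDiff_snd
  have h4 : ∀ i m : Fin 3, ContDiff ℝ ∞ (fun z : ℝ × V3 => M z.1 i m) := fun i m =>
    (hM i m).comp contDiff_fst
  have h5 : ∀ i : Fin 3, ContDiff ℝ ∞ (fun z : ℝ × V3 => ∑ m, M z.1 i m * z.2 m) := fun i =>
    ContDiff.sum (fun m _ => (h4 i m).mul (h3 m))
  have h6 : ContDiff ℝ ∞ (fun z : ℝ × V3 => pol (M z.1) (l + 1) (l + 2) z.2) :=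
    contDiff_const.mul (((h5 (l + 1)).mul (h3 (l + 2))).sub ((h5 (l + 2)).mul (h3 (l + 1))))
  exact (h1.mul h2).mul h6

/-- `curl` of the potential. -/
noncomputable def crl (A : Fin 3 → ℝ → V3 → ℝ) (t : ℝ) (x : V3) : V3 :=
  fun k => px (k + 1) (A (k + 2)) t x - px (k + 2) (A (k + 1)) t x

theorem crl_smo (A : Fin 3 → ℝ → V3 → ℝ) (hA : ∀ l, Smo (A l)) :
    ContDiff ℝ ∞ (fun z : ℝ × V3 => crl A z.1 z.2) := by
  rw [contDiff_pi]
  intro k
  have h1 := px_smo (A (k + 2)) (hA _) (k + 1)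
  have h2 := px_smo (A (k + 1)) (hA _) (k + 2)
  exact ContDiff.sub h1 h2

theorem crl_div (A : Fin 3 → ℝ → V3 → ℝ) (hA : ∀ l, Smo (A l)) (t : ℝ) (x : V3) :
    ∑ j, fderiv ℝ (fun y => crl A t y j) x (Pi.single j 1) = 0 := by
  have h : ∀ j : Fin 3, fderiv ℝ (fun y => crl A t y j) x (Pi.single j 1) =
      px j (px (j + 1) (A (j + 2))) t x - px j (px (j + 2) (A (j + 1))) t x := by
    intro j
    have h1 : DifferentiableAt ℝ (fun y => px (j + 1) (A (j + 2)) t y) x :=
      (slice _ (px_smo _ (hA _) _) t).differentiable (by simp) x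
    have h2 : DifferentiableAt ℝ (fun y => px (j + 2) (A (j + 1)) t y) x :=
      (slice _ (px_smo _ (hA _) _) t).differentiable (by simp) x
    have h3 : fderiv ℝ (fun y => crl A t y j) x = fderiv ℝ (fun y => px (j + 1) (A (j + 2)) t y) x
        - fderiv ℝ (fun y => px (j + 2) (A (j + 1)) t y) x := fderiv_fun_sub h1 h2
    rw [h3]
    rfl
  simp only [h]
  rw [Fin.sum_univ_three]
  have e3 : ((2 : Fin 3) + 1) = 0 := rfl
  have e4 : ((2 : Fin 3) + 2) = 1 := rfl
  have e5 : ((1 : Fin 3) + 1) = 2 := rfl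
  have e6 : ((1 : Fin 3) + 2) = 0 := rfl
  have e1 : ((0 : Fin 3) + 1) = 1 := rfl
  have e2 : ((0 : Fin 3) + 2) = 2 := rfl
  simp only [e1, e2, e3, e4, e5, e6]
  rw [px_comm (A 2) (hA 2) 0 1 t x, px_comm (A 1) (hA 1) 0 2 t x, px_comm (A 0) (hA 0) 1 2 t x]
  ring

/-- `curl ((1/3) (M x) × x) = M x` for `tr M = 0`. -/
theorem crl_pol (M : Fin 3 → Fin 3 → ℝ) (hM : M 0 0 + M 1 1 + M 2 2 = 0) (x : V3) (k : Fin 3) :
    fderiv ℝ (pol M (k + 2 + 1) (k + 2 + 2)) x (Pi.single (k + 1) 1)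
      - fderiv ℝ (pol M (k + 1 + 1) (k + 1 + 2)) x (Pi.single (k + 2) 1) = ∑ m, M k m * x m := by
  rw [pol_fderiv, pol_fderiv]
  have e3 : ((2 : Fin 3) + 1) = 0 := rfl
  have e4 : ((2 : Fin 3) + 2) = 1 := rfl
  have e5 : ((1 : Fin 3) + 1) = 2 := rfl
  have e6 : ((1 : Fin 3) + 2) = 0 := rfl
  have e1 : ((0 : Fin 3) + 1) = 1 := rfl
  have e2 : ((0 : Fin 3) + 2) = 2 := rfl
  have s : ∀ i j : Fin 3, (Pi.single i (1 : ℝ) : V3) j = if j = i then 1 else 0 := fun i j =>
    Pi.single_apply i (1 : ℝ) j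
  have d01 : ((0 : Fin 3) = 1) = False := by simp
  have d02 : ((0 : Fin 3) = 2) = False := by simp
  have d10 : ((1 : Fin 3) = 0) = False := by simp
  have d12 : ((1 : Fin 3) = 2) = False := by simp
  have d20 : ((2 : Fin 3) = 0) = False := by simp
  have d21 : ((2 : Fin 3) = 1) = False := by simp
  fin_cases k
  · simp only [Fin.zero_eta, e1, e2, e3, e4, e5, e6, s, Fin.sum_univ_three,
      d01, d02, if_true, if_false]
    linear_combination (-(1 / 3) * x 0) * hM
  · simp only [Fin.mk_one, e1, e2, e3, e4, e5, e6, s, Fin.sum_univ_three,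
      d10, d12, if_true, if_false]
    linear_combination (-(1 / 3) * x 1) * hM
  · simp only [Fin.reduceFinMk, e1, e2, e3, e4, e5, e6, s, Fin.sum_univ_three,
      d20, d21, if_true, if_false]
    linear_combination (-(1 / 3) * x 2) * hM

/-- The bump function in space. -/
noncomputable def bump : ContDiffBump (0 : V3) := ⟨3 / 8, 3 / 4, by norm_num, by norm_num⟩

/-- The cut-off in time. -/
noncomputable def eta0 (t : ℝ) : ℝ := Real.smoothTransition (2 * t)

theorem eta0_smooth : ContDiff ℝ ∞ eta0 :=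
  Real.smoothTransition.contDiff.comp (contDiff_const.mul contDiff_id)

theorem px_zero_of (f : ℝ → V3 → ℝ) (t : ℝ) (x : V3) (j : Fin 3)
    (h : (fun y => f t y) =ᶠ[𝓝 x] fun _ => 0) : px j f t x = 0 := by
  unfold px
  rw [h.fderiv_eq]
  simp

end C2

theorem prfC2 : claimC2 := by
  intro c
  set M : ℝ → Fin 3 → Fin 3 → ℝ := fun t i j => c.M 0 t i j with hMdef
  have hM : ∀ i j, ContDiff ℝ ∞ (fun t => M t i j) := fun i j => (c.mod_M i j).1 0
  set A : Fin 3 → ℝ → V3 → ℝ := C2.pot M C2.eta0 (fun x => C2.bump x) with hAdef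
  have hA : ∀ l, C2.Smo (A l) := fun l =>
    C2.pot_smo M C2.eta0 (fun x => C2.bump x) hM C2.eta0_smooth C2.bump.contDiff l
  refine ⟨C2.crl A, ⟨C2.crl_smo A hA, ?_, ?_, C2.crl_div A hA, ?_⟩⟩
  · intro t ht x
    have h0 : C2.eta0 t = 0 := Real.smoothTransition.zero_of_nonpos (by linarith)
    have h1 : ∀ l, (fun y => A l t y) =ᶠ[𝓝 x] fun _ => 0 := by
      intro l
      refine Filter.Eventually.of_forall fun y => ?_
      show C2.eta0 t * C2.bump y * _ = 0
      rw [h0]
      ring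
    funext k
    show C2.px _ _ t x - C2.px _ _ t x = 0
    rw [C2.px_zero_of _ t x _ (h1 _), C2.px_zero_of _ t x _ (h1 _), sub_zero]
  · intro t x hx
    have h1 : ∀ l, (fun y => A l t y) =ᶠ[𝓝 x] fun _ => 0 := by
      intro l
      have hopen : IsOpen {y : V3 | 3 / 4 < ‖y‖} := isOpen_lt continuous_const continuous_norm
      have hmem : x ∈ {y : V3 | 3 / 4 < ‖y‖} := by
        show 3 / 4 < ‖x‖
        linarith
      filter_upwards [hopen.mem_nhds hmem] with y hy
      have hz : C2.bump y = 0 := by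
        apply C2.bump.zero_of_le_dist
        rw [dist_zero_right]
        exact hy.le
      show C2.eta0 t * C2.bump y * _ = 0
      rw [hz]
      ring
    funext k
    show C2.px _ _ t x - C2.px _ _ t x = 0
    rw [C2.px_zero_of _ t x _ (h1 _), C2.px_zero_of _ t x _ (h1 _), sub_zero]
  · intro t ht x hx
    have h0 : C2.eta0 t = 1 := Real.smoothTransition.one_of_one_le (by linarith)
    have h1 : ∀ l, (fun y => A l t y) =ᶠ[𝓝 x] C2.pol (M t) (l + 1) (l + 2) := by
      intro l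
      have hopen : IsOpen {y : V3 | ‖y‖ < 3 / 8} := isOpen_lt continuous_norm continuous_const
      have hmem : x ∈ {y : V3 | ‖y‖ < 3 / 8} := by
        show ‖x‖ < 3 / 8
        linarith
      filter_upwards [hopen.mem_nhds hmem] with y hy
      have hz : C2.bump y = 1 := by
        apply C2.bump.one_of_mem_closedBall
        rw [mem_closedBall_zero_iff]
        exact hy.le
      show C2.eta0 t * C2.bump y * C2.pol (M t) (l + 1) (l + 2) y = _
      rw [hz, h0]
      ring
    have h2 : ∀ j l, C2.px j (A l) t x =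
        fderiv ℝ (C2.pol (M t) (l + 1) (l + 2)) x (Pi.single j 1) := by
      intro j l
      unfold C2.px
      rw [(h1 l).fderiv_eq]
    have htr : M t 0 0 + M t 1 1 + M t 2 2 = 0 := by
      have h := c.trace_M 0 t
      rw [Matrix.trace_fin_three] at h
      exact h
    funext k
    show C2.px _ _ t x - C2.px _ _ t x = _
    rw [h2, h2, C2.crl_pol (M t) htr x k]
    rfl

end Pool.Agent.Work.MP_b0497c_an.Forced

end

section

set_option autoImplicit false

/-!
# Assembly, item C3: the partial sums are linear on the small balls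
-/

open scoped ContDiff Matrix
open Set Filter Topology

namespace Pool.Agent.Work.MP_b0497c_an.Forced

namespace C3

theorem vecMulVec_mulVec (w K x : V3) :
    Matrix.vecMulVec w K *ᵥ x = (K ⬝ᵥ x) • w := by
  funext j
  simp only [Matrix.mulVec, dotProduct, Matrix.vecMulVec_apply, Pi.smul_apply, smul_eq_mul,
    Finset.sum_mul]
  exact Finset.sum_congr rfl (fun k _ => by ring)

theorem Un_succ {c : Casc} (P : Pk c) (w0 : ℝ → V3 → V3) (n : ℕ) (t : ℝ) (x : V3) :
    Un P w0 (n + 1) t x = Un P w0 n t x + P.w n t x := by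
  unfold Un
  rw [Finset.sum_range_succ, add_assoc]

end C3

theorem prfC3 : claimC3 := by
  intro c P w0 hB n
  induction n with
  | zero =>
    intro t ht x hx
    have h1 : Un P w0 0 t x = w0 t x := by
      unfold Un
      rw [Finset.range_zero, Finset.sum_empty, add_zero]
    rw [h1]
    exact hB.lin t ((c.s_pos 0).trans ht.1) x (hx.trans c.R_zero)
  | succ n ih =>
    intro t ht x hx
    have hs := c.s_next n
    have hd := c.del_pos n
    have ht1 : t ∈ Ico (c.s n) c.Ts := ⟨by linarith [ht.1], ht.2⟩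
    rw [C3.Un_succ, ih t ht1 x (hx.trans (c.R_next n)), P.inner n t ht1 x hx,
      P.eta_one n t (hs.trans ht.1), one_mul, c.M_next, Matrix.add_mulVec, C3.vecMulVec_mulVec]

end Pool.Agent.Work.MP_b0497c_an.Forced

end

section

set_option autoImplicit false

/-! Assembly, item C5: before time `s n` the limit is the partial sum number `n`. -/

open scoped ContDiff Matrix
open Set Filter Topology

namespace Pool.Agent.Work.MP_b0497c_an.Forced

namespace C5

theorem s_mono (c : Casc) : Monotone c.s := by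
  refine monotone_nat_of_le_succ fun k => ?_
  have h1 := c.s_next k
  have h2 := c.del_pos k
  linarith

end C5

theorem prfC5 : claimC5 := by
  intro c P w0 n t ht x
  have h0 : ∀ k, k ∉ Finset.range n → P.w k t x = 0 ∧ P.q k t x = 0 ∧ P.g k t x = 0 := by
    intro k hk
    rw [Finset.mem_range, not_lt] at hk
    exact P.zero k t x (ht.trans (C5.s_mono c hk))
  refine ⟨?_, ?_, ?_⟩
  · unfold Ui Un
    rw [tsum_eq_sum fun k hk => (h0 k hk).1]
  · unfold Qi Qn
    rw [tsum_eq_sum fun k hk => (h0 k hk).2.1]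
  · rw [tsum_eq_sum fun k hk => (h0 k hk).2.2]

end Pool.Agent.Work.MP_b0497c_an.Forced

end

section

set_option autoImplicit false

/-! Assembly, item C7: the force is smooth and compactly supported. -/

open scoped ContDiff Matrix
open Set Filter Topology

namespace Pool.Agent.Work.MP_b0497c_an.Forced

namespace C7

variable {w0 : ℝ → V3 → V3}

theorem deriv_time (h : ContDiff ℝ ∞ (fun z : ℝ × V3 => w0 z.1 z.2)) (t : ℝ) (x : V3)
    (j : Fin 3) : deriv (fun τ => w0 τ x j) t =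
      fderiv ℝ (fun z : ℝ × V3 => w0 z.1 z.2) (t, x) (1, 0) j := by
  have h1 : HasFDerivAt (fun z : ℝ × V3 => w0 z.1 z.2)
      (fderiv ℝ (fun z : ℝ × V3 => w0 z.1 z.2) (t, x)) (t, x) :=
    (h.differentiable (by simp) (t, x)).hasFDerivAt
  have h2 : HasDerivAt (fun τ : ℝ => (τ, x)) ((1 : ℝ), (0 : V3)) t :=
    (hasDerivAt_id t).prodMk (hasDerivAt_const t x)
  have h3 := h1.comp_hasDerivAt t h2
  have h4 := (hasDerivAt_pi.1 h3) j
  exact h4.deriv

theorem fderiv_space (h : ContDiff ℝ ∞ (fun z : ℝ × V3 => w0 z.1 z.2)) (t : ℝ) (x : V3)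
    (j : Fin 3) (v : V3) : fderiv ℝ (fun y => w0 t y j) x v =
      fderiv ℝ (fun z : ℝ × V3 => w0 z.1 z.2) (t, x) (0, v) j := by
  have h1 : HasFDerivAt (fun z : ℝ × V3 => w0 z.1 z.2)
      (fderiv ℝ (fun z : ℝ × V3 => w0 z.1 z.2) (t, x)) (t, x) :=
    (h.differentiable (by simp) (t, x)).hasFDerivAt
  have h2 : HasFDerivAt (fun y : V3 => (t, y))
      ((0 : V3 →L[ℝ] ℝ).prod (ContinuousLinearMap.id ℝ V3)) x :=
    (hasFDerivAt_const t x).prodMk (hasFDerivAt_id x)
  have h3 := h1.comp x h2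
  have h4 := (hasFDerivAt_pi'.1 h3) j
  have h5 : fderiv ℝ (fun y => w0 t y j) x = _ := h4.fderiv
  rw [h5]
  rfl

theorem eu_smooth (h : ContDiff ℝ ∞ (fun z : ℝ × V3 => w0 z.1 z.2)) (j : Fin 3) :
    ContDiff ℝ ∞ (fun y : ℝ × V3 => eu w0 y.1 y.2 j) := by
  have h1 : ContDiff ℝ ∞ (fderiv ℝ (fun z : ℝ × V3 => w0 z.1 z.2)) :=
    h.fderiv_right (m := ∞) (by simp)
  have h2 : ∀ v : ℝ × V3, ContDiff ℝ ∞ (fun y : ℝ × V3 =>
      fderiv ℝ (fun z : ℝ × V3 => w0 z.1 z.2) y v j) := by
    intro v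
    have h3 : ContDiff ℝ ∞ (fun y : ℝ × V3 => fderiv ℝ (fun z : ℝ × V3 => w0 z.1 z.2) y v) :=
      h1.clm_apply contDiff_const
    exact (contDiff_pi.1 h3) j
  have e : (fun y : ℝ × V3 => eu w0 y.1 y.2 j) = fun y : ℝ × V3 =>
      fderiv ℝ (fun z : ℝ × V3 => w0 z.1 z.2) y (1, 0) j
        + ∑ i, w0 y.1 y.2 i * fderiv ℝ (fun z : ℝ × V3 => w0 z.1 z.2) y
          (0, Pi.single i 1) j := by
    funext y
    unfold eu
    rw [deriv_time h]
    congr 1
    refine Finset.sum_congr rfl fun i _ => ?_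
    rw [fderiv_space h]
  rw [e]
  refine (h2 _).add (ContDiff.sum fun i _ => ?_)
  exact ((contDiff_pi.1 h) i).mul (h2 _)

theorem eu_zero {t : ℝ} {x : V3} {j : Fin 3} (h1 : w0 t x = 0)
    (h2 : (fun τ => w0 τ x j) =ᶠ[𝓝 t] fun _ => 0) : eu w0 t x j = 0 := by
  unfold eu
  rw [h2.deriv_eq, h1]
  simp

end C7

theorem prfC7 : claimC7 := by
  intro c P w0 hB z hz hz4
  refine ⟨?_, ?_, ?_⟩
  · unfold Fi
    refine ContDiff.add ?_ ?_
    · rw [contDiff_pi]
      intro j
      exact (hz.comp contDiff_fst).mul (C7.eu_smooth hB.smooth j)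
    · refine contDiff_tsum_of_eventually (f := fun k (y : ℝ × V3) => P.g k y.1 y.2)
        (v := fun _ k => (1 / 2 : ℝ) ^ k) (N := ⊤) (fun k => P.g_smooth k) ?_ ?_
      · intro m _
        exact summable_geometric_of_lt_one (by norm_num) (by norm_num)
      · intro m _
        rw [Nat.cofinite_eq_atTop]
        exact P.small m
  · intro t ht x
    rw [mem_Icc, not_and_or, not_le, not_le] at ht
    have h1 : ∀ j, z t * eu w0 t x j = 0 := by
      intro j
      rcases ht with ht | ht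
      · rw [C7.eu_zero (hB.zero t ht.le x), mul_zero]
        filter_upwards [Iio_mem_nhds ht] with τ hτ
        rw [hB.zero τ (le_of_lt hτ) x]
        rfl
      · rw [hz4 t ht.le, zero_mul]
    have h2 : ∀ k, P.g k t x = 0 := by
      intro k
      rcases ht with ht | ht
      · refine (P.zero k t x ?_).2.2
        have := c.s_pos k
        linarith
      · refine P.g_end k t x ?_
        have := c.e_le k
        linarith
    unfold Fi
    simp only [h1, h2, tsum_zero, add_zero]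
    rfl
  · intro t x hx
    have h1 : ∀ j, z t * eu w0 t x j = 0 := by
      intro j
      rw [C7.eu_zero (hB.supp t x hx.le), mul_zero]
      filter_upwards with τ
      rw [hB.supp τ x hx.le]
      rfl
    have h2 : ∀ k, P.g k t x = 0 := by
      intro k
      rcases le_total t (c.s k) with h | h
      · exact (P.zero k t x h).2.2
      · rcases le_total t (c.e k + c.del k) with h' | h'
        · exact (P.supp k t ⟨h, h'⟩ x ((c.R_le k).trans_lt hx)).2.2
        · exact P.g_end k t x h'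
    unfold Fi
    simp only [h1, h2, tsum_zero, add_zero]
    rfl

end Pool.Agent.Work.MP_b0497c_an.Forced

end

section

set_option autoImplicit false

/-!
# Assembly: item C8 (the Euler equation of the limit)
-/

open scoped ContDiff Matrix
open Set Filter Topology

namespace Pool.Agent.Work.MP_b0497c_an.Forced

theorem prfC8 (h4 : claimC4) (h5 : claimC5) : claimC8 := by
  intro c P w0 hB t ht x j
  obtain ⟨n, hn⟩ : ∃ n, t < c.s n := ((tendsto_order.1 c.s_lim).1 t ht).exists
  have hU : ∀ τ ≤ c.s n, Ui P w0 τ = Un P w0 n τ := fun τ hτ =>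
    funext fun y => (h5 c P w0 n τ hτ y).1
  have hQ : Qi P t = Qn P n t := funext fun y => (h5 c P w0 n t hn.le y).2.1
  have hg := (h5 c P w0 n t hn.le x).2.2
  have hd : deriv (fun τ => Ui P w0 τ x j) t = deriv (fun τ => Un P w0 n τ x j) t := by
    refine Filter.EventuallyEq.deriv_eq ?_
    filter_upwards [Iio_mem_nhds hn] with τ hτ
    rw [hU τ (le_of_lt hτ)]
  have he : eu (Ui P w0) t x j = eu (Un P w0 n) t x j := by
    unfold eu
    rw [hd, hU t hn.le]
  rw [he, hQ, h4 c P w0 hB n t ht x j, hg, Finset.sum_apply]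

end Pool.Agent.Work.MP_b0497c_an.Forced

end

section

set_option autoImplicit false

/-!
# Assembly, item C9: blow-up of the vorticity
-/

open scoped ContDiff Matrix
open Set Filter Topology

namespace Pool.Agent.Work.MP_b0497c_an.Forced

namespace C9

theorem s_mono (c : Casc) : Monotone c.s := by
  apply monotone_nat_of_le_succ
  intro k
  have := c.s_next k
  have := c.del_pos k
  linarith

/-- localisation in time -/
theorem exists_k (c : Casc) (k0 : ℕ) {t : ℝ} (h0 : c.s k0 < t) (ht : t < c.Ts) :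
    ∃ k, k0 ≤ k ∧ c.s k ≤ t ∧ t ≤ c.s (k + 1) := by
  classical
  have hex : ∃ n, t < c.s n := (c.s_lim.eventually (lt_mem_nhds ht)).exists
  have h1 := Nat.find_spec hex
  have h2 : k0 < Nat.find hex := by
    by_contra h
    push Not at h
    have := s_mono c h
    linarith
  obtain ⟨k, hk⟩ : ∃ k, Nat.find hex = k + 1 := ⟨Nat.find hex - 1, by omega⟩
  refine ⟨k, by omega, ?_, ?_⟩
  · have := Nat.find_min hex (m := k) (by omega)
    exact not_lt.mp this
  · rw [← hk]
    exact h1.le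

theorem fderiv_lin (A : Matrix (Fin 3) (Fin 3) ℝ) (j i : Fin 3) :
    fderiv ℝ (fun y : V3 => (A *ᵥ y) j) 0 (Pi.single i 1) = A j i := by
  have e : (fun y : V3 => (A *ᵥ y) j) =
      ⇑(∑ k, A j k • (ContinuousLinearMap.proj k : V3 →L[ℝ] ℝ)) := by
    funext y
    simp [Matrix.mulVec, dotProduct]
  rw [e, ContinuousLinearMap.fderiv]
  simp [Pi.single_apply]

theorem curl_lin (u : V3 → V3) (A : Matrix (Fin 3) (Fin 3) ℝ)
    (h : u =ᶠ[𝓝 0] fun x => A *ᵥ x) : curlV u 0 = om A := by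
  have h1 : ∀ j i : Fin 3, fderiv ℝ (fun y => u y j) 0 (Pi.single i 1) = A j i := by
    intro j i
    have h2 : (fun y => u y j) =ᶠ[𝓝 0] fun y : V3 => (A *ᵥ y) j := by
      filter_upwards [h] with y hy
      rw [hy]
    rw [h2.fderiv_eq, fderiv_lin]
  unfold curlV om
  simp only [h1]

end C9

open C9 in
theorem prfC9 (h3 : claimC3) (h5 : claimC5) : claimC9 := by
  intro c P w0 hB B
  obtain ⟨k0, hk0⟩ := exists_nat_ge B
  refine ⟨c.s k0, c.s_lt k0, ?_⟩
  intro t ht
  obtain ⟨k, hk, h1, h2⟩ := exists_k c k0 ht.1 ht.2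
  have htI : t ∈ Ico (c.s k) c.Ts := ⟨h1, ht.2⟩
  have hev : (Ui P w0 t) =ᶠ[𝓝 0] fun x =>
      (c.M k t + P.eta k t • Matrix.vecMulVec (c.w k t) (c.K k t)) *ᵥ x := by
    filter_upwards [Metric.closedBall_mem_nhds (0 : V3) (c.R_pos (k + 1))] with x hx
    rw [mem_closedBall_zero_iff] at hx
    rw [(h5 c P w0 (k + 1) t h2 x).1]
    have e1 : Un P w0 (k + 1) t x = Un P w0 k t x + P.w k t x := by
      unfold Un
      rw [Finset.sum_range_succ, add_assoc]
    rw [e1, h3 c P w0 hB k t htI x (hx.trans (c.R_next k)), P.inner k t htI x hx]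
    rw [Matrix.add_mulVec, Matrix.smul_mulVec, Matrix.vecMulVec_mulVec, mul_smul]
    simp
  rw [curl_lin _ _ hev]
  obtain ⟨j, hj⟩ := c.vort k t ⟨h1, h2⟩ (P.eta k t) (P.eta_mem k t)
  refine ⟨j, le_trans ?_ hj⟩
  exact hk0.trans (by exact_mod_cast hk)

end Pool.Agent.Work.MP_b0497c_an.Forced

end
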