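import Pool.Agent.Work.MP_b0497c_an.Forced.S.Stmts
import Pool.Agent.Work.MP_b0497c_an.Dec.CubeInt
import Pool.Agent.Work.MP_b0497c_an.Dec.Fields
import Pool.Agent.Work.MP_b0497c_an.Forced.Asm.C11
import Pool.Agent.Work.MP_b0497c_an.Bd.B23
import Pool.Agent.Work.MP_b0497c_an.Forced.S.StmtsI
import Pool.Agent.Work.MP_b0497c_an.Bd.B01

/-! Bundle of small proof modules (one section per former module). -/

section

set_option autoImplicit false

/-!
# Theorem S': item B3, the trigonometric system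
-/

open scoped ContDiff
open Set Filter Topology MeasureTheory

namespace Pool.Agent.Work.MP_b0497c_an.Forced.S

namespace B3

/-- All derivatives of `cos (l t + c)`. -/
theorem iter_cos (l c : ℝ) (m : ℕ) : iteratedDeriv m (fun t : ℝ => Real.cos (l * t + c)) =
    fun t => l ^ m * Real.cos (l * t + c + m * (Real.pi / 2)) := by
  induction m with
  | zero =>
    funext t
    simp
  | succ m ih =>
    rw [iteratedDeriv_succ, ih]
    funext t
    have h1 : HasDerivAt (fun t : ℝ => l * t + c + m * (Real.pi / 2)) l t := by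
      have h0 := ((hasDerivAt_id t).const_mul l).add_const (c + m * (Real.pi / 2))
      have e : (fun t : ℝ => l * t + c + m * (Real.pi / 2)) =
          fun t : ℝ => l * id t + (c + m * (Real.pi / 2)) := by
        funext s
        simp only [id]
        ring
      rw [e]
      simpa using h0
    have h2 := (h1.cos.const_mul (l ^ m)).deriv
    rw [h2]
    have h3 : Real.cos (l * t + c + ((m + 1 : ℕ) : ℝ) * (Real.pi / 2)) =
        -Real.sin (l * t + c + m * (Real.pi / 2)) := by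
      rw [← Real.cos_add_pi_div_two]
      congr 1
      push_cast
      ring
    rw [h3, pow_succ]
    ring

theorem tau_eq (n : ℕ) : ∃ (l : ℕ) (c : ℝ), l ≤ n + 1 ∧ tau n = fun t : ℝ =>
    Real.cos ((l : ℝ) * t + c) := by
  by_cases h : Even n
  · refine ⟨n / 2, 0, by omega, ?_⟩
    funext t
    rw [tau, if_pos h, add_zero]
  · refine ⟨(n + 1) / 2, -(Real.pi / 2), by omega, ?_⟩
    funext t
    rw [tau, if_neg h, ← sub_eq_add_neg, Real.cos_sub_pi_div_two]

theorem tau_per (n : ℕ) : Per (tau n) := by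
  obtain ⟨l, c, -, h⟩ := tau_eq n
  intro t
  rw [h]
  have e : (l : ℝ) * (t + 2 * Real.pi) + c = ((l : ℝ) * t + c) + l * (2 * Real.pi) := by ring
  show Real.cos ((l : ℝ) * (t + 2 * Real.pi) + c) = _
  rw [e, Real.cos_add_nat_mul_two_pi]

theorem tau_smooth (n : ℕ) : ContDiff ℝ ∞ (tau n) := by
  obtain ⟨l, c, -, h⟩ := tau_eq n
  rw [h]
  exact Real.contDiff_cos.comp ((contDiff_const.mul contDiff_id).add contDiff_const)

theorem tau_bd (m n : ℕ) (t : ℝ) : ‖iteratedFDeriv ℝ m (tau n) t‖ ≤ ((n : ℝ) + 1) ^ m := by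
  obtain ⟨l, c, hl, h⟩ := tau_eq n
  rw [norm_iteratedFDeriv_eq_norm_iteratedDeriv, h, iter_cos]
  have h1 : (l : ℝ) ≤ (n : ℝ) + 1 := by exact_mod_cast hl
  have h0 : (0 : ℝ) ≤ l := Nat.cast_nonneg l
  rw [norm_mul, norm_pow, Real.norm_eq_abs, Real.norm_eq_abs, abs_of_nonneg h0]
  calc (l : ℝ) ^ m * |Real.cos ((l : ℝ) * t + c + m * (Real.pi / 2))| ≤ (l : ℝ) ^ m * 1 :=
        mul_le_mul_of_nonneg_left (Real.abs_cos_le_one _) (by positivity)
    _ = (l : ℝ) ^ m := mul_one _
    _ ≤ ((n : ℝ) + 1) ^ m := pow_le_pow_left₀ h0 h1 m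

theorem sq_sum : Summable fun i : ℕ => (((i : ℝ) + 1) ^ 2)⁻¹ := by
  have h := (summable_nat_add_iff 1).2 (Real.summable_nat_pow_inv.2 (by norm_num : 1 < 2))
  refine h.congr fun i => ?_
  push_cast
  rfl

/-- Bound of one term. -/
theorem term_bd (c : ℕ → ℕ → ℝ) (m k : ℕ) (C : ℝ)
    (hC : ∀ n i : ℕ, ((n : ℝ) + 1) ^ k * ((i : ℝ) + 1) ^ (m + 2) * |c n i| ≤ C) (n i : ℕ)
    (t : ℝ) : ((n : ℝ) + 1) ^ k * ‖iteratedFDeriv ℝ m (fun t => c n i * tau i t) t‖ ≤
      C * (((i : ℝ) + 1) ^ 2)⁻¹ := by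
  have h1 : iteratedFDeriv ℝ m (fun t => c n i * tau i t) t =
      c n i • iteratedFDeriv ℝ m (tau i) t := by
    have h0 : ContDiffAt ℝ m (tau i) t := ((tau_smooth i).of_le (by exact_mod_cast le_top)).contDiffAt
    have h2 := iteratedFDeriv_const_smul_apply' (𝕜 := ℝ) (a := c n i) h0
    simpa only [smul_eq_mul] using h2
  rw [h1, norm_smul, Real.norm_eq_abs]
  have h2 := tau_bd m i t
  have h3 : (0 : ℝ) < ((i : ℝ) + 1) ^ 2 := by positivity
  rw [← div_eq_mul_inv, le_div_iff₀ h3]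
  calc ((n : ℝ) + 1) ^ k * (|c n i| * ‖iteratedFDeriv ℝ m (tau i) t‖) * ((i : ℝ) + 1) ^ 2
      ≤ ((n : ℝ) + 1) ^ k * (|c n i| * ((i : ℝ) + 1) ^ m) * ((i : ℝ) + 1) ^ 2 := by
        have h4 : |c n i| * ‖iteratedFDeriv ℝ m (tau i) t‖ ≤ |c n i| * ((i : ℝ) + 1) ^ m :=
          mul_le_mul_of_nonneg_left h2 (abs_nonneg _)
        have h5 := mul_le_mul_of_nonneg_left h4 (by positivity : (0 : ℝ) ≤ ((n : ℝ) + 1) ^ k)
        exact mul_le_mul_of_nonneg_right h5 h3.le
    _ = ((n : ℝ) + 1) ^ k * ((i : ℝ) + 1) ^ (m + 2) * |c n i| := by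
        rw [pow_add]
        ring
    _ ≤ C := hC n i

end B3

theorem prfB3 : claimB3 := by
  refine ⟨B3.tau_per, B3.tau_smooth, B3.tau_bd, fun c hc => ⟨⟨fun n => ?_, fun m k => ?_⟩,
    fun n t => ?_⟩⟩
  · choose C hC using fun m : ℕ => hc 0 (m + 2)
    refine contDiff_tsum (v := fun (m i : ℕ) => C m * (((i : ℝ) + 1) ^ 2)⁻¹)
      (fun i => contDiff_const.mul (B3.tau_smooth i)) (fun m _ => B3.sq_sum.mul_left (C m))
      (fun m i t _ => ?_)
    have h := B3.term_bd c m 0 (C m) (hC m) n i t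
    rw [pow_zero, one_mul] at h
    exact h
  · obtain ⟨C, hC⟩ := hc k (m + 2)
    choose C' hC' using fun m : ℕ => hc 0 (m + 2)
    refine ⟨∑' i : ℕ, C * (((i : ℝ) + 1) ^ 2)⁻¹, fun n t => ?_⟩
    have hs := iteratedFDeriv_tsum_apply (𝕜 := ℝ) (f := fun (i : ℕ) t => c n i * tau i t)
      (v := fun (m i : ℕ) => C' m * (((i : ℝ) + 1) ^ 2)⁻¹) (N := (⊤ : ℕ∞))
      (fun i => contDiff_const.mul (B3.tau_smooth i)) (fun m _ => B3.sq_sum.mul_left (C' m))
      (fun m i t _ => by
        have h := B3.term_bd c m 0 (C' m) (hC' m) n i t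
        rw [pow_zero, one_mul] at h
        exact h) (k := m) le_top t
    rw [hs]
    have hS := B3.sq_sum.mul_left C
    have hn : (0 : ℝ) < ((n : ℝ) + 1) ^ k := by positivity
    have hb : ∀ i : ℕ, ‖iteratedFDeriv ℝ m (fun t => c n i * tau i t) t‖ ≤
        (((n : ℝ) + 1) ^ k)⁻¹ * (C * (((i : ℝ) + 1) ^ 2)⁻¹) := by
      intro i
      have h := B3.term_bd c m k C hC n i t
      rw [inv_mul_eq_div, le_div_iff₀ hn, mul_comm]
      exact h
    have h1 : ‖∑' i, iteratedFDeriv ℝ m (fun t => c n i * tau i t) t‖ ≤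
        ∑' i : ℕ, (((n : ℝ) + 1) ^ k)⁻¹ * (C * (((i : ℝ) + 1) ^ 2)⁻¹) :=
      tsum_of_norm_bounded (hS.mul_left _).hasSum hb
    rw [tsum_mul_left] at h1
    calc ((n : ℝ) + 1) ^ k * ‖∑' i, iteratedFDeriv ℝ m (fun t => c n i * tau i t) t‖
        ≤ ((n : ℝ) + 1) ^ k * ((((n : ℝ) + 1) ^ k)⁻¹ * ∑' i : ℕ, C * (((i : ℝ) + 1) ^ 2)⁻¹) :=
          mul_le_mul_of_nonneg_left h1 hn.le
      _ = ∑' i : ℕ, C * (((i : ℝ) + 1) ^ 2)⁻¹ := by
          rw [← mul_assoc, mul_inv_cancel₀ hn.ne', one_mul]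
  · show ∑' i, c n i * tau i (t + 2 * Real.pi) = ∑' i, c n i * tau i t
    exact tsum_congr fun i => by rw [B3.tau_per i t]

end Pool.Agent.Work.MP_b0497c_an.Forced.S

end

section

set_option autoImplicit false

/-!
# Item C4: integrals over the cube
-/

open scoped ContDiff
open Set Filter Topology MeasureTheory

namespace Pool.Agent.Work.MP_b0497c_an.Forced.S

namespace C4

theorem prod_int (a b : ℝ → ℝ) :
    ∫ y in Dec.cube, a (y 0) * b (y 1) =
      2 * Real.pi * (∫ s in (0 : ℝ)..(2 * Real.pi), a s) *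
        ∫ s in (0 : ℝ)..(2 * Real.pi), b s := by
  have hpi : (0 : ℝ) ≤ 2 * Real.pi := by have := Real.pi_pos; linarith
  have h1 := (PiLp.volume_preserving_toLp (Fin 3)).setIntegral_preimage_emb
    (MeasurableEquiv.toLp 2 (Fin 3 → ℝ)).measurableEmbedding
    (fun y : E3 => a (y 0) * b (y 1)) Dec.cube
  rw [← h1, Dec.cube_preimage]
  have h2 : (Icc (fun _ => (0 : ℝ)) (fun _ => 2 * Real.pi) : Set (Fin 3 → ℝ))
      = Set.univ.pi (fun _ => Icc (0 : ℝ) (2 * Real.pi)) := by
    exact (Set.pi_univ_Icc _ _).symm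
  have h3 : (volume : Measure (Fin 3 → ℝ)).restrict
      (Set.univ.pi (fun _ => Icc (0 : ℝ) (2 * Real.pi)))
      = Measure.pi (fun _ : Fin 3 => (volume : Measure ℝ).restrict (Icc 0 (2 * Real.pi))) :=
    Measure.restrict_pi_pi _ _
  rw [h2, h3]
  have h4' := integral_fintype_prod_eq_prod (𝕜 := ℝ) (ι := Fin 3) (E := fun _ => ℝ)
    (μ := fun _ : Fin 3 => (volume : Measure ℝ).restrict (Icc 0 (2 * Real.pi)))
    (fun i : Fin 3 => (![a, b, fun _ => 1] i : ℝ → ℝ))
  rw [Fin.prod_univ_three] at h4'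
  have h4 : (∫ x : Fin 3 → ℝ, a (x 0) * b (x 1) * 1
      ∂(Measure.pi (fun _ : Fin 3 => (volume : Measure ℝ).restrict (Icc 0 (2 * Real.pi)))))
      = (∫ x in Icc (0 : ℝ) (2 * Real.pi), a x) * (∫ x in Icc (0 : ℝ) (2 * Real.pi), b x)
        * ∫ x in Icc (0 : ℝ) (2 * Real.pi), (1 : ℝ) := by
    refine Eq.trans ?_ h4'
    congr 1
    funext x
    rw [Fin.prod_univ_three]
    rfl
  have h5 : ∀ x : Fin 3 → ℝ, a ((WithLp.toLp 2 x : E3) 0) * b ((WithLp.toLp 2 x : E3) 1)
      = a (x 0) * b (x 1) * 1 := by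
    intro x
    simp
  refine (integral_congr_ae (Eventually.of_forall h5)).trans (h4.trans ?_)
  rw [intervalIntegral.integral_of_le hpi, intervalIntegral.integral_of_le hpi,
    ← integral_Icc_eq_integral_Ioc, ← integral_Icc_eq_integral_Ioc]
  have h6 : ∫ _ in Icc (0 : ℝ) (2 * Real.pi), (1 : ℝ) = 2 * Real.pi := by
    rw [integral_const]
    simp [measureReal_def]
    exact Real.pi_pos.le
  rw [h6]
  ring

end C4

/-- Item C4. -/
theorem prfC4 : claimC4 :=
  ⟨fun a b _ _ => C4.prod_int a b, fun _ hg => Dec.integrable_cube hg,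
    fun _ hg => Dec.integrable_cube hg⟩

end Pool.Agent.Work.MP_b0497c_an.Forced.S

end

section

set_option autoImplicit false

/-!
# Item D1: uniqueness of classical solutions of the Euler equations with a skew operator
-/

open scoped ContDiff Matrix
open Set Filter Topology MeasureTheory RealInnerProductSpace Pool.Agent.Work.MP_b0497c_an
open Pool.Agent.Work.MP_b0497c_an.Dec Pool.Agent.Work.MP_b0497c_an.Dec.Uniq

namespace Pool.Agent.Work.MP_b0497c_an.Forced.S

namespace D1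

variable {T ε : ℝ} {K : E3 → E3 → E3 →L[ℝ] E3} {u : ℝ → E3 → E3} {p : ℝ → E3 → ℝ}

/-! ### The operator -/

theorem kcont (hK : GoodKernel K) {w : E3 → E3} (hw : Continuous w) :
    Continuous (fun z : E3 × E3 => K z.1 z.2 (w z.2)) :=
  hK.smooth.continuous.clm_apply (hw.comp continuous_snd)

theorem kint (hK : GoodKernel K) {w : E3 → E3} (hw : Continuous w) (x : E3) :
    IntegrableOn (fun y => K x y (w y)) cube := by
  have h1 : Continuous (fun y => K x y (w y)) :=
    (kcont hK hw).comp (by fun_prop : Continuous (fun y : E3 => (x, y)))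
  exact h1.continuousOn.integrableOn_compact cube_compact

theorem op_sub (hK : GoodKernel K) {u v : E3 → E3} (hu : Continuous u) (hv : Continuous v)
    (x : E3) : op ε K u x - op ε K v x = op ε K (fun y => u y - v y) x := by
  unfold op
  rw [← smul_sub, ← integral_sub (kint hK hu x) (kint hK hv x)]
  simp only [map_sub]

theorem op_cont (hK : GoodKernel K) {w : E3 → E3} (hw : Continuous w) :
    Continuous (op ε K w) := by
  have h1 : Continuous (fun x => ∫ y in cube, K x y (w y)) :=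
    continuous_parametric_integral_of_continuous (f := fun x y => K x y (w y))
      (kcont hK hw) cube_compact
  exact h1.const_smul ε

theorem op_skew (hK : GoodKernel K) {w : E3 → E3} (hw : Continuous w) :
    ∫ x in cube, ⟪op ε K w x, w x⟫ = 0 := by
  have hfin : IsFiniteMeasure (volume.restrict cube) :=
    ⟨by rw [Measure.restrict_apply_univ]; exact cube_compact.measure_lt_top⟩
  have e1 : ∀ x, ⟪op ε K w x, w x⟫ = ε * ∫ y in cube, ⟪w x, K x y (w y)⟫ := by
    intro x
    unfold op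
    rw [inner_smul_left, real_inner_comm, integral_inner (kint hK hw x)]
    simp
  simp only [e1]
  rw [integral_const_mul]
  have hc : Continuous (fun z : E3 × E3 => ⟪w z.1, K z.1 z.2 (w z.2)⟫) :=
    (hw.comp continuous_fst).inner (kcont hK hw)
  have hi : Integrable (Function.uncurry (fun x y => ⟪w x, K x y (w y)⟫))
      ((volume.restrict cube).prod (volume.restrict cube)) := by
    rw [Measure.prod_restrict]
    exact hc.continuousOn.integrableOn_compact (cube_compact.prod cube_compact)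
  have hswap := integral_integral_swap hi
  have hanti : ∀ x y, ⟪w x, K x y (w y)⟫ = - ⟪w y, K y x (w x)⟫ := by
    intro x y
    rw [real_inner_comm, hK.skew x y (w y) (w x)]
  have h2 : (∫ y in cube, ∫ x in cube, ⟪w x, K x y (w y)⟫)
      = - ∫ y in cube, ∫ x in cube, ⟪w y, K y x (w x)⟫ := by
    rw [← integral_neg]
    refine integral_congr_ae (ae_of_all _ fun y => ?_)
    show (∫ x in cube, ⟪w x, K x y (w y)⟫) = - ∫ x in cube, ⟪w y, K y x (w x)⟫
    rw [← integral_neg]
    exact integral_congr_ae (ae_of_all _ fun x => hanti x y)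
  have h3 : (∫ x in cube, ∫ y in cube, ⟪w x, K x y (w y)⟫) = 0 := by
    have h4 := hswap.trans h2
    linarith
  rw [h3, mul_zero]

/-! ### Solutions -/


theorem cd_u (h : IsPertSolution T (op ε K) u p) {t : ℝ} (ht : t ∈ Ico 0 T) : ContDiff ℝ 1 (u t) := by
  have h2 : ContDiff ℝ 1 (fun x : E3 => (t, x)) := contDiff_const.prodMk contDiff_id
  have h3 : ContDiffOn ℝ 1 ((fun z : ℝ × E3 => u z.1 z.2) ∘ (fun x : E3 => (t, x))) univ :=
    ContDiffOn.comp h.contDiff_u h2.contDiffOn (fun x _ => ⟨ht, mem_univ _⟩)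
  exact contDiffOn_univ.mp h3

theorem cd_p (h : IsPertSolution T (op ε K) u p) {t : ℝ} (ht : t ∈ Ico 0 T) : ContDiff ℝ 1 (p t) := by
  have h2 : ContDiff ℝ 1 (fun x : E3 => (t, x)) := contDiff_const.prodMk contDiff_id
  have h3 : ContDiffOn ℝ 1 ((fun z : ℝ × E3 => p z.1 z.2) ∘ (fun x : E3 => (t, x))) univ :=
    ContDiffOn.comp h.contDiff_p h2.contDiffOn (fun x _ => ⟨ht, mem_univ _⟩)
  exact contDiffOn_univ.mp h3

theorem cont_u (h : IsPertSolution T (op ε K) u p) {β : ℝ} (hβ : β < T) :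
    ContinuousOn (fun z : ℝ × E3 => u z.1 z.2) (Icc 0 β ×ˢ univ) :=
  h.contDiff_u.continuousOn.mono (prod_mono (sub_Ico hβ) (Subset.refl _))

theorem bound_u (h : IsPertSolution T (op ε K) u p) {β : ℝ} (hβ : β < T) :
    ∃ C : ℝ, 0 ≤ C ∧ ∀ t ∈ Icc 0 β, ∀ x, ‖u t x‖ ≤ C :=
  exists_bound (cont_u h hβ) fun t ht => h.periodic_u t (sub_Ico hβ ht)

theorem bound_M (h : IsPertSolution T (op ε K) u p) {β : ℝ} (hβ : β < T) :
    ∃ C : ℝ, 0 ≤ C ∧ ∀ t ∈ Icc 0 β, ∀ x, ‖fderiv ℝ (u t) x‖ ≤ C :=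
  exists_bound (G := fun t x => fderiv ℝ (u t) x)
    ((continuousOn_fderiv h.contDiff_u).mono (prod_mono (sub_Ico hβ) (Subset.refl _)))
    fun t ht => (h.periodic_u t (sub_Ico hβ ht)).fderiv

theorem per_dt (h : IsPertSolution T (op ε K) u p) {t : ℝ} (ht : t ∈ Ico 0 T) :
    Periodic3 (fun x => derivWithin (fun s => u s x) (Ico 0 T) t) := by
  intro i x
  apply derivWithin_congr
  · intro s hs
    exact h.periodic_u s hs i x
  · exact h.periodic_u t ht i x

theorem cont_dt (h : IsPertSolution T (op ε K) u p) {t : ℝ} (ht : t ∈ Ico 0 T) :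
    Continuous (fun x => derivWithin (fun s => u s x) (Ico 0 T) t) := by
  have c3 : Continuous (fun x : E3 => (t, x)) := by fun_prop
  have c4 : ContinuousOn ((fun z : ℝ × E3 => derivWithin (fun s => u s z.2) (Ico 0 T) z.1)
      ∘ (fun x : E3 => (t, x))) univ :=
    ContinuousOn.comp (continuousOn_derivWithin h.contDiff_u) c3.continuousOn
      (fun x _ => ⟨ht, mem_univ _⟩)
  exact continuousOn_univ.mp c4

theorem bound_dt (h : IsPertSolution T (op ε K) u p) {β : ℝ} (hβ : β < T) :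
    ∃ C : ℝ, 0 ≤ C ∧ ∀ t ∈ Icc 0 β, ∀ x, ‖derivWithin (fun s => u s x) (Ico 0 T) t‖ ≤ C :=
  exists_bound (G := fun t x => derivWithin (fun s => u s x) (Ico 0 T) t)
    ((continuousOn_derivWithin h.contDiff_u).mono (prod_mono (sub_Ico hβ) (Subset.refl _)))
    fun t ht => per_dt h (sub_Ico hβ ht)

theorem hasDerivAt_time (h : IsPertSolution T (op ε K) u p) {t : ℝ} (ht : t ∈ Ioo 0 T) (x : E3) :
    HasDerivAt (fun s => u s x) (derivWithin (fun s => u s x) (Ico 0 T) t) t := by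
  have h1 := hasDerivWithinAt_along h.contDiff_u (I := Ico 0 T) (Subset.refl _)
    (t := t) ⟨ht.1.le, ht.2⟩ (X := fun _ => x) (X' := 0) (hasDerivWithinAt_const _ _ _)
  simp only [map_zero, add_zero] at h1
  exact h1.hasDerivAt (Ico_mem_nhds ht.1 ht.2)

theorem int4 {f1 f2 f3 f4 : E3 → ℝ} (c1 : Continuous f1) (c2 : Continuous f2)
    (c3 : Continuous f3) (c4 : Continuous f4) :
    ∫ x in cube, (f1 x - f2 x - f3 x + f4 x)
      = (∫ x in cube, f1 x) - (∫ x in cube, f2 x) - (∫ x in cube, f3 x) + ∫ x in cube, f4 x := by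
  have i1 : IntegrableOn f1 cube := c1.continuousOn.integrableOn_compact cube_compact
  have i2 : IntegrableOn f2 cube := c2.continuousOn.integrableOn_compact cube_compact
  have i3 : IntegrableOn f3 cube := c3.continuousOn.integrableOn_compact cube_compact
  have i4 : IntegrableOn f4 cube := c4.continuousOn.integrableOn_compact cube_compact
  have i12 : IntegrableOn (fun x => f1 x - f2 x) cube := i1.sub i2
  have i123 : IntegrableOn (fun x => f1 x - f2 x - f3 x) cube := i12.sub i3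
  rw [integral_add i123 i4, integral_sub i12 i3, integral_sub i1 i2]

variable {T₁ T₂ : ℝ} {v : ℝ → E3 → E3} {q : ℝ → E3 → ℝ}

/-- The derivative of the energy of the difference. -/
theorem energy_deriv (hK : GoodKernel K) (hu : IsPertSolution T₁ (op ε K) u p) (hv : IsPertSolution T₂ (op ε K) v q)
    {t : ℝ} (h0 : 0 < t) (h1 : t < T₁) (h2 : t < T₂) :
    HasDerivAt (fun s => ∫ x in cube, ‖u s x - v s x‖ ^ 2)
      (-2 * ∫ x in cube, ⟪fderiv ℝ (v t) x (u t x - v t x), u t x - v t x⟫) t := by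
  obtain ⟨β, hβt, hβ⟩ : ∃ β, t < β ∧ β < min T₁ T₂ := exists_between (lt_min h1 h2)
  have hβ1 : β < T₁ := hβ.trans_le (min_le_left _ _)
  have hβ2 : β < T₂ := hβ.trans_le (min_le_right _ _)
  obtain ⟨U, hU0, hU⟩ := bound_u hu hβ1
  obtain ⟨U', hU'0, hU'⟩ := bound_u hv hβ2
  obtain ⟨D, hD0, hD⟩ := bound_dt hu hβ1
  obtain ⟨D', hD'0, hD'⟩ := bound_dt hv hβ2
  have hfin : IsFiniteMeasure (volume.restrict cube) :=
    ⟨by rw [Measure.restrict_apply_univ]; exact cube_compact.measure_lt_top⟩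
  have cu : ∀ s ∈ Icc 0 β, Continuous (u s) := fun s hs =>
    (cd_u hu (sub_Ico hβ1 hs)).continuous
  have cv : ∀ s ∈ Icc 0 β, Continuous (v s) := fun s hs =>
    (cd_u hv (sub_Ico hβ2 hs)).continuous
  have htI : t ∈ Ioo 0 β := ⟨h0, hβt⟩
  have htc : t ∈ Icc 0 β := Ioo_subset_Icc_self htI
  have ht1 : t ∈ Ico 0 T₁ := ⟨h0.le, h1⟩
  have ht2 : t ∈ Ico 0 T₂ := ⟨h0.le, h2⟩
  have key := hasDerivAt_integral_of_dominated_loc_of_deriv_le (μ := volume.restrict cube)
    (F := fun s x => ‖u s x - v s x‖ ^ 2) (x₀ := t) (s := Ioo 0 β)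
    (bound := fun _ => 2 * ((U + U') * (D + D')))
    (F' := fun s x => 2 * ⟪u s x - v s x, derivWithin (fun r => u r x) (Ico 0 T₁) s
      - derivWithin (fun r => v r x) (Ico 0 T₂) s⟫)
    (Ioo_mem_nhds htI.1 htI.2)
    (by filter_upwards [Ioo_mem_nhds htI.1 htI.2] with s hs
        have hs' := Ioo_subset_Icc_self hs
        exact (((cu s hs').sub (cv s hs')).norm.pow 2).aestronglyMeasurable)
    ((((cu t htc).sub (cv t htc)).norm.pow 2).continuousOn.integrableOn_compact cube_compact)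
    ((continuous_const.mul (((cu t htc).sub (cv t htc)).inner
      ((cont_dt hu ht1).sub (cont_dt hv ht2)))).aestronglyMeasurable)
    (ae_of_all _ fun x s hs => by
      rw [norm_mul, Real.norm_eq_abs, Real.norm_eq_abs, abs_of_pos (show (0:ℝ) < 2 by norm_num)]
      have hs' := Ioo_subset_Icc_self hs
      gcongr
      refine (abs_real_inner_le_norm _ _).trans (mul_le_mul ?_ ?_ (norm_nonneg _) (by positivity))
      · exact (norm_sub_le _ _).trans (add_le_add (hU s hs' x) (hU' s hs' x))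
      · exact (norm_sub_le _ _).trans (add_le_add (hD s hs' x) (hD' s hs' x)))
    (integrable_const _)
    (ae_of_all _ fun x s hs => ((hasDerivAt_time hu ⟨hs.1, hs.2.trans hβ1⟩ x).sub
      (hasDerivAt_time hv ⟨hs.1, hs.2.trans hβ2⟩ x)).norm_sq)
  have hk := key.2
  refine hk.congr_deriv ?_
  have mu := cd_u hu ht1
  have mv := cd_u hv ht2
  have mp := cd_p hu ht1
  have mq := cd_p hv ht2
  have du := hu.div_free t ht1
  have dv := hv.div_free t ht2
  have pu := hu.periodic_u t ht1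
  have pv := hv.periodic_u t ht2
  have pp := hu.periodic_p t ht1
  have pq := hv.periodic_p t ht2
  have mw : ContDiff ℝ 1 (fun x => u t x - v t x) := mu.sub mv
  have pw : Periodic3 (fun x => u t x - v t x) := by
    intro i x
    show u t _ - v t _ = _
    rw [pu i x, pv i x]
  have dw := C11.div_sub mu mv du dv
  have mpi : ContDiff ℝ 1 (fun x => p t x - q t x) := mp.sub mq
  have ppi : Periodic3 (fun x => p t x - q t x) := by
    intro i x
    show p t _ - q t _ = _
    rw [pp i x, pq i x]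
  have e1 := C11.press_zero mpi ppi mw pw dw
  have e3 := transport_zero mu pu du mw pw
  have cMw : Continuous (fun x => fderiv ℝ (fun x => u t x - v t x) x (u t x)) :=
    (mw.continuous_fderiv (by norm_num)).clm_apply mu.continuous
  have cMvw : Continuous (fun x => fderiv ℝ (v t) x (u t x - v t x)) :=
    (mv.continuous_fderiv (by norm_num)).clm_apply mw.continuous
  have cw : Continuous (fun x => u t x - v t x) := mw.continuous
  have e4 : ∀ x, 2 * ⟪u t x - v t x, derivWithin (fun r => u r x) (Ico 0 T₁) t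
      - derivWithin (fun r => v r x) (Ico 0 T₂) t⟫
      = 2 * (- fderiv ℝ (fun x => p t x - q t x) x (u t x - v t x)
          - ⟪fderiv ℝ (fun x => u t x - v t x) x (u t x), u t x - v t x⟫
          - ⟪fderiv ℝ (v t) x (u t x - v t x), u t x - v t x⟫
          + ⟪op ε K (fun y => u t y - v t y) x, u t x - v t x⟫) := by
    intro x
    have hfd : fderiv ℝ (fun x => u t x - v t x) x = fderiv ℝ (u t) x - fderiv ℝ (v t) x :=
      fderiv_fun_sub (mu.differentiable (by norm_num) x)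
        (mv.differentiable (by norm_num) x)
    have hfp : fderiv ℝ (fun x => p t x - q t x) x = fderiv ℝ (p t) x - fderiv ℝ (q t) x :=
      fderiv_fun_sub (mp.differentiable (by norm_num) x)
        (mq.differentiable (by norm_num) x)
    have gp : ∀ y, fderiv ℝ (p t) x y = ⟪gradient (p t) x, y⟫ := by
      intro y
      rw [gradient, InnerProductSpace.toDual_symm_apply]
    have gq : ∀ y, fderiv ℝ (q t) x y = ⟪gradient (q t) x, y⟫ := by
      intro y
      rw [gradient, InnerProductSpace.toDual_symm_apply]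
    have m1 : derivWithin (fun r => u r x) (Ico 0 T₁) t
        = - gradient (p t) x + op ε K (u t) x - fderiv ℝ (u t) x (u t x) := by
      rw [← hu.momentum t ht1 x]; abel
    have m2 : derivWithin (fun r => v r x) (Ico 0 T₂) t
        = - gradient (q t) x + op ε K (v t) x - fderiv ℝ (v t) x (v t x) := by
      rw [← hv.momentum t ht2 x]; abel
    rw [← op_sub hK mu.continuous mv.continuous x, hfd, hfp, m1, m2, real_inner_comm]
    simp only [sub_apply, map_sub, gp, gq, inner_add_left, inner_sub_right, inner_sub_left,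
      inner_neg_left]
    ring
  simp only [e4]
  have c1 : Continuous (fun x => - fderiv ℝ (fun x => p t x - q t x) x (u t x - v t x)) :=
    ((mpi.continuous_fderiv (by norm_num)).clm_apply cw).neg
  have c3 : Continuous (fun x => ⟪fderiv ℝ (fun x => u t x - v t x) x (u t x),
      u t x - v t x⟫) := cMw.inner cw
  have c4 : Continuous (fun x => ⟪fderiv ℝ (v t) x (u t x - v t x), u t x - v t x⟫) :=
    cMvw.inner cw
  have c5 : Continuous (fun x => ⟪op ε K (fun y => u t y - v t y) x, u t x - v t x⟫) :=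
    (op_cont hK cw).inner cw
  have e5 := op_skew (ε := ε) hK cw
  rw [integral_const_mul, int4 c1 c3 c4 c5, integral_neg, e1, e3, e5]
  ring

end D1

open D1 in
theorem prfD1 : claimD1 := by
  intro T₁ T₂ ε KK u v p q hKK hu hv h0 t htm
  obtain ⟨ht, hlt⟩ := htm
  have h1 : t < T₁ := hlt.trans_le (min_le_left _ _)
  have h2 : t < T₂ := hlt.trans_le (min_le_right _ _)
  rcases ht.eq_or_lt with rfl | hpos
  · exact h0
  have htc : t ∈ Icc 0 t := ⟨ht, le_rfl⟩
  have ht1 : t ∈ Ico 0 T₁ := ⟨ht, h1⟩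
  have ht2 : t ∈ Ico 0 T₂ := ⟨ht, h2⟩
  obtain ⟨K, hK0, hK⟩ := D1.bound_M hv h2
  obtain ⟨U, hU0, hU⟩ := D1.bound_u hu h1
  obtain ⟨U', hU'0, hU'⟩ := D1.bound_u hv h2
  have hfin : IsFiniteMeasure (volume.restrict cube) :=
    ⟨by rw [Measure.restrict_apply_univ]; exact cube_compact.measure_lt_top⟩
  set E : ℝ → ℝ := fun s => ∫ x in cube, ‖u s x - v s x‖ ^ 2 with hE
  have cu : ∀ s ∈ Icc 0 t, Continuous (u s) := fun s hs =>
    (cd_u hu (sub_Ico h1 hs)).continuous
  have cv : ∀ s ∈ Icc 0 t, Continuous (v s) := fun s hs =>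
    (cd_u hv (sub_Ico h2 hs)).continuous
  have hcont : ContinuousOn E (Icc 0 t) := by
    apply continuousOn_of_dominated (bound := fun _ => (U + U') ^ 2)
    · intro s hs
      exact (((cu s hs).sub (cv s hs)).norm.pow 2).aestronglyMeasurable
    · intro s hs
      refine ae_of_all _ fun x => ?_
      rw [norm_pow, norm_norm]
      exact pow_le_pow_left₀ (norm_nonneg _)
        ((norm_sub_le _ _).trans (add_le_add (hU s hs x) (hU' s hs x))) 2
    · exact integrable_const _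
    · refine ae_of_all _ fun x => ?_
      have c3 : ContinuousOn (fun s : ℝ => (s, x)) (Icc 0 t) := by fun_prop
      have c4 : ContinuousOn ((fun z : ℝ × E3 => u z.1 z.2) ∘ (fun s : ℝ => (s, x))) (Icc 0 t) :=
        ContinuousOn.comp (D1.cont_u hu h1) c3 (fun s hs => ⟨hs, mem_univ _⟩)
      have c5 : ContinuousOn ((fun z : ℝ × E3 => v z.1 z.2) ∘ (fun s : ℝ => (s, x))) (Icc 0 t) :=
        ContinuousOn.comp (D1.cont_u hv h2) c3 (fun s hs => ⟨hs, mem_univ _⟩)
      exact ((c4.sub c5).norm).pow 2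
  have hder : ∀ s ∈ Ioo 0 t, ∃ d, HasDerivAt E d s ∧ d ≤ 2 * K * E s := by
    intro s hs
    have hs1 : s < T₁ := hs.2.trans h1
    have hs2 : s < T₂ := hs.2.trans h2
    refine ⟨_, D1.energy_deriv hKK hu hv hs.1 hs1 hs2, ?_⟩
    have hsc : s ∈ Icc 0 t := Ioo_subset_Icc_self hs
    have mu := cd_u hu (sub_Ico h1 hsc)
    have mv := cd_u hv (sub_Ico h2 hsc)
    have cw : Continuous (fun x => u s x - v s x) := mu.continuous.sub mv.continuous
    have cMvw : Continuous (fun x => fderiv ℝ (v s) x (u s x - v s x)) :=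
      (mv.continuous_fderiv (by norm_num)).clm_apply cw
    have hneg : -(∫ x in cube, ⟪fderiv ℝ (v s) x (u s x - v s x), u s x - v s x⟫) ≤ K * E s := by
      rw [← integral_neg, hE]
      simp only
      rw [← integral_const_mul]
      have c1 : Continuous (fun x => -⟪fderiv ℝ (v s) x (u s x - v s x), u s x - v s x⟫) :=
        (cMvw.inner cw).neg
      have c2 : Continuous (fun x => K * ‖u s x - v s x‖ ^ 2) :=
        continuous_const.mul (cw.norm.pow 2)
      apply integral_mono (c1.continuousOn.integrableOn_compact cube_compact)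
        (c2.continuousOn.integrableOn_compact cube_compact)
      intro x
      show -⟪fderiv ℝ (v s) x (u s x - v s x), u s x - v s x⟫ ≤ K * ‖u s x - v s x‖ ^ 2
      have h5 := abs_real_inner_le_norm (fderiv ℝ (v s) x (u s x - v s x)) (u s x - v s x)
      have h6 := (fderiv ℝ (v s) x).le_of_opNorm_le (hK s hsc x) (u s x - v s x)
      have h7 := mul_le_mul_of_nonneg_right h6 (norm_nonneg (u s x - v s x))
      have h8 := neg_abs_le ⟪fderiv ℝ (v s) x (u s x - v s x), u s x - v s x⟫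
      have e5 : K * ‖u s x - v s x‖ ^ 2 = K * ‖u s x - v s x‖ * ‖u s x - v s x‖ := by ring
      rw [e5]
      linarith
    linarith
  set g : ℝ → ℝ := fun s => E s * Real.exp (-(2 * K * s)) with hg
  have hanti : AntitoneOn g (Icc 0 t) := by
    apply antitoneOn_of_deriv_nonpos (convex_Icc 0 t)
    · exact hcont.mul (by fun_prop)
    · rw [interior_Icc]
      intro s hs
      obtain ⟨d, hd, -⟩ := hder s hs
      exact (hd.differentiableAt.mul (by fun_prop)).differentiableWithinAt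
    · rw [interior_Icc]
      intro s hs
      obtain ⟨d, hd, hle⟩ := hder s hs
      have h5 : HasDerivAt (fun s : ℝ => Real.exp (-(2 * K * s)))
          (Real.exp (-(2 * K * s)) * (-(2 * K * 1))) s :=
        (((hasDerivAt_id s).const_mul (2 * K)).neg).exp
      have h8 : HasDerivAt g (d * Real.exp (-(2 * K * s))
          + E s * (Real.exp (-(2 * K * s)) * (-(2 * K * 1)))) s := hd.mul h5
      rw [h8.deriv]
      have h6 := Real.exp_pos (-(2 * K * s))
      nlinarith
  have h7 := hanti ⟨le_rfl, ht⟩ htc ht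
  have hE0 : E 0 = 0 := by simp [hE, h0]
  simp only [hg, hE0, zero_mul] at h7
  have h8 : E t ≤ 0 := by
    by_contra hc
    push Not at hc
    exact absurd h7 (not_le.mpr (mul_pos hc (Real.exp_pos _)))
  intro x
  have pw : Periodic3 (fun x => u t x - v t x) := by
    intro i x
    show u t _ - v t _ = _
    rw [hu.periodic_u t ht1 i x, hv.periodic_u t ht2 i x]
  have h9 := eq_zero_of_integral (f := fun x => u t x - v t x) ((cu t htc).sub (cv t htc))
    pw h8 x
  exact sub_eq_zero.mp h9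

end Pool.Agent.Work.MP_b0497c_an.Forced.S

end

section

set_option autoImplicit false

/-!
# Theorem S', item D2: conservation of energy
-/

open scoped ContDiff Matrix
open Set Filter Topology MeasureTheory RealInnerProductSpace Pool.Agent.Work.MP_b0497c_an
open Pool.Agent.Work.MP_b0497c_an.Dec Pool.Agent.Work.MP_b0497c_an.Dec.Uniq

namespace Pool.Agent.Work.MP_b0497c_an.Forced.S

namespace D2

variable {T : ℝ} {A : (E3 → E3) → E3 → E3} {u : ℝ → E3 → E3} {p : ℝ → E3 → ℝ}

theorem cd_u (h : IsPertSolution T A u p) {t : ℝ} (ht : t ∈ Ico 0 T) : ContDiff ℝ 1 (u t) := by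
  have h2 : ContDiff ℝ 1 (fun x : E3 => (t, x)) := contDiff_const.prodMk contDiff_id
  have h3 : ContDiffOn ℝ 1 ((fun z : ℝ × E3 => u z.1 z.2) ∘ (fun x : E3 => (t, x))) univ :=
    ContDiffOn.comp h.contDiff_u h2.contDiffOn (fun x _ => ⟨ht, mem_univ _⟩)
  exact contDiffOn_univ.mp h3

theorem cd_p (h : IsPertSolution T A u p) {t : ℝ} (ht : t ∈ Ico 0 T) : ContDiff ℝ 1 (p t) := by
  have h2 : ContDiff ℝ 1 (fun x : E3 => (t, x)) := contDiff_const.prodMk contDiff_id
  have h3 : ContDiffOn ℝ 1 ((fun z : ℝ × E3 => p z.1 z.2) ∘ (fun x : E3 => (t, x))) univ :=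
    ContDiffOn.comp h.contDiff_p h2.contDiffOn (fun x _ => ⟨ht, mem_univ _⟩)
  exact contDiffOn_univ.mp h3

theorem cont_u (h : IsPertSolution T A u p) {β : ℝ} (hβ : β < T) :
    ContinuousOn (fun z : ℝ × E3 => u z.1 z.2) (Icc 0 β ×ˢ univ) :=
  h.contDiff_u.continuousOn.mono (prod_mono (sub_Ico hβ) (Subset.refl _))

theorem bound_u (h : IsPertSolution T A u p) {β : ℝ} (hβ : β < T) :
    ∃ C : ℝ, 0 ≤ C ∧ ∀ t ∈ Icc 0 β, ∀ x, ‖u t x‖ ≤ C :=
  exists_bound (cont_u h hβ) fun t ht => h.periodic_u t (sub_Ico hβ ht)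

theorem per_dt (h : IsPertSolution T A u p) {t : ℝ} (ht : t ∈ Ico 0 T) :
    Periodic3 (fun x => derivWithin (fun s => u s x) (Ico 0 T) t) := by
  intro i x
  apply derivWithin_congr
  · intro s hs
    exact h.periodic_u s hs i x
  · exact h.periodic_u t ht i x

theorem cont_dt (h : IsPertSolution T A u p) {t : ℝ} (ht : t ∈ Ico 0 T) :
    Continuous (fun x => derivWithin (fun s => u s x) (Ico 0 T) t) := by
  have c3 : Continuous (fun x : E3 => (t, x)) := by fun_prop
  have c4 : ContinuousOn ((fun z : ℝ × E3 => derivWithin (fun s => u s z.2) (Ico 0 T) z.1)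
      ∘ (fun x : E3 => (t, x))) univ :=
    ContinuousOn.comp (continuousOn_derivWithin h.contDiff_u) c3.continuousOn
      (fun x _ => ⟨ht, mem_univ _⟩)
  exact continuousOn_univ.mp c4

theorem bound_dt (h : IsPertSolution T A u p) {β : ℝ} (hβ : β < T) :
    ∃ C : ℝ, 0 ≤ C ∧ ∀ t ∈ Icc 0 β, ∀ x, ‖derivWithin (fun s => u s x) (Ico 0 T) t‖ ≤ C :=
  exists_bound (G := fun t x => derivWithin (fun s => u s x) (Ico 0 T) t)
    ((continuousOn_derivWithin h.contDiff_u).mono (prod_mono (sub_Ico hβ) (Subset.refl _)))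
    fun t ht => per_dt h (sub_Ico hβ ht)

theorem hasDerivAt_time (h : IsPertSolution T A u p) {t : ℝ} (ht : t ∈ Ioo 0 T) (x : E3) :
    HasDerivAt (fun s => u s x) (derivWithin (fun s => u s x) (Ico 0 T) t) t := by
  have h1 := hasDerivWithinAt_along h.contDiff_u (I := Ico 0 T) (Subset.refl _)
    (t := t) ⟨ht.1.le, ht.2⟩ (X := fun _ => x) (X' := 0) (hasDerivWithinAt_const _ _ _)
  simp only [map_zero, add_zero] at h1
  exact h1.hasDerivAt (Ico_mem_nhds ht.1 ht.2)

/-- Skewness of the integral operator. -/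
theorem op_skew {K : E3 → E3 → E3 →L[ℝ] E3} (hK : GoodKernel K) (ε : ℝ) {w : E3 → E3}
    (hw : Continuous w) : ∫ x in cube, ⟪op ε K w x, w x⟫ = 0 := by
  have cK : Continuous (fun z : E3 × E3 => K z.1 z.2) := hK.smooth.continuous
  set g : E3 → E3 → ℝ := fun x y => ⟪K x y (w y), w x⟫ with hg
  have cg : Continuous (Function.uncurry g) := by
    show Continuous (fun z : E3 × E3 => ⟪K z.1 z.2 (w z.2), w z.1⟫)
    exact (cK.clm_apply (hw.comp continuous_snd)).inner (hw.comp continuous_fst)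
  have hint : Integrable (Function.uncurry g)
      ((volume.restrict cube).prod (volume.restrict cube)) := by
    rw [Measure.prod_restrict, ← Measure.volume_eq_prod]
    exact cg.continuousOn.integrableOn_compact (cube_compact.prod cube_compact)
  have hswap := integral_integral_swap hint
  have hsk : ∀ x y, g x y = - g y x := by
    intro x y
    simp only [hg]
    rw [hK.skew x y (w y) (w x), real_inner_comm]
  have hJ : ∫ x in cube, ∫ y in cube, g x y = 0 := by
    have h1 : ∫ x in cube, ∫ y in cube, g x y = - ∫ x in cube, ∫ y in cube, g y x := by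
      rw [← integral_neg]
      congr 1
      funext x
      rw [← integral_neg]
      congr 1
      funext y
      exact hsk x y
    rw [← hswap] at h1
    linarith
  have h2 : ∀ x, ⟪op ε K w x, w x⟫ = ε * ∫ y in cube, g x y := by
    intro x
    have ci : IntegrableOn (fun y => K x y (w y)) cube := by
      have c1 : Continuous (fun y => K x y (w y)) :=
        (cK.comp (continuous_const.prodMk continuous_id)).clm_apply hw
      exact c1.continuousOn.integrableOn_compact cube_compact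
    unfold op
    rw [real_inner_smul_left, real_inner_comm, ← integral_inner ci (w x)]
    congr 1
    congr 1
    funext y
    simp only [hg]
    rw [real_inner_comm]
  simp only [h2]
  rw [integral_const_mul, hJ, mul_zero]

theorem energy_deriv {K : E3 → E3 → E3 →L[ℝ] E3} (hK : GoodKernel K) {ε : ℝ}
    (h : IsPertSolution T (op ε K) u p) {t : ℝ} (h0 : 0 < t) (h1 : t < T) :
    HasDerivAt (fun s => ∫ x in cube, ‖u s x‖ ^ 2) 0 t := by
  obtain ⟨β, hβt, hβ⟩ : ∃ β, t < β ∧ β < T := exists_between h1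
  obtain ⟨U, hU0, hU⟩ := bound_u h hβ
  obtain ⟨D, hD0, hD⟩ := bound_dt h hβ
  have hfin : IsFiniteMeasure (volume.restrict cube) :=
    ⟨by rw [Measure.restrict_apply_univ]; exact cube_compact.measure_lt_top⟩
  have cu : ∀ s ∈ Icc 0 β, Continuous (u s) := fun s hs =>
    (cd_u h (sub_Ico hβ hs)).continuous
  have htI : t ∈ Ioo 0 β := ⟨h0, hβt⟩
  have htc : t ∈ Icc 0 β := Ioo_subset_Icc_self htI
  have ht1 : t ∈ Ico 0 T := ⟨h0.le, h1⟩
  have key := hasDerivAt_integral_of_dominated_loc_of_deriv_le (μ := volume.restrict cube)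
    (F := fun s x => ‖u s x‖ ^ 2) (x₀ := t) (s := Ioo 0 β)
    (bound := fun _ => 2 * (U * D))
    (F' := fun s x => 2 * ⟪u s x, derivWithin (fun r => u r x) (Ico 0 T) s⟫)
    (Ioo_mem_nhds htI.1 htI.2)
    (by filter_upwards [Ioo_mem_nhds htI.1 htI.2] with s hs
        have hs' := Ioo_subset_Icc_self hs
        exact ((cu s hs').norm.pow 2).aestronglyMeasurable)
    (((cu t htc).norm.pow 2).continuousOn.integrableOn_compact cube_compact)
    ((continuous_const.mul ((cu t htc).inner (cont_dt h ht1))).aestronglyMeasurable)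
    (ae_of_all _ fun x s hs => by
      rw [norm_mul, Real.norm_eq_abs, Real.norm_eq_abs, abs_of_pos (show (0:ℝ) < 2 by norm_num)]
      have hs' := Ioo_subset_Icc_self hs
      gcongr
      exact (abs_real_inner_le_norm _ _).trans (mul_le_mul (hU s hs' x) (hD s hs' x)
        (norm_nonneg _) hU0))
    (integrable_const _)
    (ae_of_all _ fun x s hs => (hasDerivAt_time h ⟨hs.1, hs.2.trans hβ⟩ x).norm_sq)
  have hk := key.2
  refine hk.congr_deriv ?_
  have mu := cd_u h ht1
  have mp := cd_p h ht1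
  have du := h.div_free t ht1
  have pu := h.periodic_u t ht1
  have pp := h.periodic_p t ht1
  have e1 := C11.press_zero mp pp mu pu du
  have e2 := transport_zero mu pu du mu pu
  have e3 := op_skew hK ε mu.continuous
  have gp : ∀ x y, fderiv ℝ (p t) x y = ⟪gradient (p t) x, y⟫ := by
    intro x y
    rw [gradient, InnerProductSpace.toDual_symm_apply]
  have e4 : ∀ x, 2 * ⟪u t x, derivWithin (fun r => u r x) (Ico 0 T) t⟫
      = 2 * (⟪op ε K (u t) x, u t x⟫ - fderiv ℝ (p t) x (u t x)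
          - ⟪fderiv ℝ (u t) x (u t x), u t x⟫) := by
    intro x
    have m1 : derivWithin (fun r => u r x) (Ico 0 T) t
        = - gradient (p t) x + op ε K (u t) x - fderiv ℝ (u t) x (u t x) := by
      rw [← h.momentum t ht1 x]; abel
    rw [m1, real_inner_comm, inner_sub_left, inner_add_left, inner_neg_left, gp]
    ring
  simp only [e4]
  have cM : Continuous (fun x => fderiv ℝ (u t) x (u t x)) :=
    (mu.continuous_fderiv (by norm_num)).clm_apply mu.continuous
  have cgr : Continuous (fun x => fderiv ℝ (p t) x (u t x)) :=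
    (mp.continuous_fderiv (by norm_num)).clm_apply mu.continuous
  have cM' : Continuous (fun x => ⟪fderiv ℝ (u t) x (u t x), u t x⟫) := cM.inner mu.continuous
  have cop : Continuous (fun x => ⟪op ε K (u t) x, u t x⟫) := by
    have e5 : (fun x => ⟪op ε K (u t) x, u t x⟫) = fun x =>
        ⟪u t x, derivWithin (fun r => u r x) (Ico 0 T) t⟫ + fderiv ℝ (p t) x (u t x)
          + ⟪fderiv ℝ (u t) x (u t x), u t x⟫ := by
      funext x
      linarith [e4 x]
    rw [e5]
    exact ((mu.continuous.inner (cont_dt h ht1)).add cgr).add cM'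
  rw [integral_const_mul, C11.int3 cop cgr cM', e1, e2, e3]
  ring

end D2

open D2 in
theorem prfD2 : claimD2 := by
  intro T ε K u p hK h t ht
  rcases ht.1.eq_or_lt with h0 | h0
  · rw [← h0]
  obtain ⟨U, hU0, hU⟩ := bound_u h ht.2
  have hfin : IsFiniteMeasure (volume.restrict cube) :=
    ⟨by rw [Measure.restrict_apply_univ]; exact cube_compact.measure_lt_top⟩
  set E : ℝ → ℝ := fun s => ∫ x in cube, ‖u s x‖ ^ 2 with hE
  have cu : ∀ s ∈ Icc 0 t, Continuous (u s) := fun s hs =>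
    (cd_u h (sub_Ico ht.2 hs)).continuous
  have hcont : ContinuousOn E (Icc 0 t) := by
    apply continuousOn_of_dominated (bound := fun _ => U ^ 2)
    · intro s hs
      exact ((cu s hs).norm.pow 2).aestronglyMeasurable
    · intro s hs
      refine ae_of_all _ fun x => ?_
      rw [norm_pow, norm_norm]
      exact pow_le_pow_left₀ (norm_nonneg _) (hU s hs x) 2
    · exact integrable_const _
    · refine ae_of_all _ fun x => ?_
      have c3 : ContinuousOn (fun s : ℝ => (s, x)) (Icc 0 t) := by fun_prop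
      have c4 : ContinuousOn ((fun z : ℝ × E3 => u z.1 z.2) ∘ (fun s : ℝ => (s, x))) (Icc 0 t) :=
        ContinuousOn.comp (cont_u h ht.2) c3 (fun s hs => ⟨hs, mem_univ _⟩)
      exact (c4.norm).pow 2
  obtain ⟨c, hc, hs⟩ := exists_hasDerivAt_eq_slope E (fun _ => 0) h0 hcont
    (fun s hs => energy_deriv hK h hs.1 (hs.2.trans ht.2))
  have h1 : (E t - E 0) / (t - 0) = 0 := hs.symm
  rw [div_eq_zero_iff] at h1
  rcases h1 with h1 | h1
  · exact sub_eq_zero.1 h1
  · exact absurd h1 (by rw [sub_zero]; exact h0.ne')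

end Pool.Agent.Work.MP_b0497c_an.Forced.S

end

section

set_option autoImplicit false

/-!
# Theorem S', item D4: the maximal time of existence
-/

open scoped ContDiff
open Set Filter Topology

namespace Pool.Agent.Work.MP_b0497c_an.Forced.S

namespace D4

theorem curl_tendsto {T T' : ℝ} {v : ℝ → E3 → E3}
    (hv : ContDiffOn ℝ 1 (fun z : ℝ × E3 => v z.1 z.2) (Ico 0 T' ×ˢ univ))
    (hT : 0 < T) (hTT : T < T') :
    Tendsto (fun t => ‖curl (v t) 0‖) (𝓝[<] T) (𝓝 ‖curl (v T) 0‖) := by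
  have h1 : ContinuousOn (fun z : ℝ × E3 => fderiv ℝ (v z.1) z.2) (Ico 0 T' ×ˢ univ) :=
    continuousOn_fderiv hv
  have h2 : ContinuousOn (fun t : ℝ => fderiv ℝ (v t) 0) (Ico 0 T') := by
    have h3 : ContinuousOn (fun t : ℝ => (t, (0 : E3))) (Ico 0 T') :=
      (continuous_id.prodMk continuous_const).continuousOn
    exact ContinuousOn.comp (g := fun z : ℝ × E3 => fderiv ℝ (v z.1) z.2) h1 h3
      (fun t ht => ⟨ht, mem_univ _⟩)
  have h4 : ContinuousOn (fun t : ℝ => ‖curl (v t) 0‖) (Ico 0 T') :=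
    (C14.continuous_ax.comp_continuousOn h2).norm
  have h5 : ContinuousAt (fun t : ℝ => ‖curl (v t) 0‖) T :=
    h4.continuousAt (Ico_mem_nhds hT hTT)
  exact h5.tendsto.mono_left nhdsWithin_le_nhds

end D4

theorem prfD4 : claimD4 := by
  intro T ε K u p hT hK hD1 hu hblow T' v q hv hv0
  have heq := hD1 T' T ε K v u q p hK hv hu hv0
  have hle : T' ≤ T := by
    by_contra hlt
    push Not at hlt
    rw [min_eq_right hlt.le] at heq
    have h1 := D4.curl_tendsto hv.contDiff_u hT hlt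
    have h2 : Tendsto (fun t => ‖curl (v t) 0‖) (𝓝[<] T) atTop := by
      refine hblow.congr' ?_
      filter_upwards [Ico_mem_nhdsLT hT] with t ht
      have : v t = u t := funext (heq t ht)
      rw [this]
    exact not_tendsto_nhds_of_tendsto_atTop h2 _ h1
  rw [min_eq_left hle] at heq
  exact ⟨hle, heq⟩

end Pool.Agent.Work.MP_b0497c_an.Forced.S

end

section

set_option autoImplicit false

/-!
# Theorem S', part I, item I2: averages of symbols
-/

open scoped ContDiff Matrix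
open Set Filter Topology MeasureTheory

namespace Pool.Agent.Work.MP_b0497c_an.Forced.S

open Pool.Agent.Work.MP_b0497c_an.Forced.W (Lev Sm Sym Pb Qp Phi Mod Bd prfA1 prfA2 prfA3)

namespace I2

/-- linear change of variables -/
theorem subst (A : Matrix (Fin 3) (Fin 3) ℝ) (hA : A.det ≠ 0) (G : V3 → ℝ) :
    ∫ x, G x = |A.det| * ∫ y, G (A *ᵥ y) := by
  set L : V3 →L[ℝ] V3 := LinearMap.toContinuousLinearMap (Matrix.toLin' A) with hLdef
  have hL : ∀ y, L y = A *ᵥ y := fun y => by simp [hLdef]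
  have hdet : L.det = A.det := by
    simp [hLdef, ContinuousLinearMap.det]
  have hunit : IsUnit A.det := isUnit_iff_ne_zero.2 hA
  have h1 : ∀ y, A⁻¹ *ᵥ (A *ᵥ y) = y := fun y => by
    rw [Matrix.mulVec_mulVec, Matrix.nonsing_inv_mul A hunit, Matrix.one_mulVec]
  have h2 : ∀ y, A *ᵥ (A⁻¹ *ᵥ y) = y := fun y => by
    rw [Matrix.mulVec_mulVec, Matrix.mul_nonsing_inv A hunit, Matrix.one_mulVec]
  have hinj : Function.Injective L := by
    intro x y hxy
    rw [hL, hL] at hxy
    rw [← h1 x, ← h1 y, hxy]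
  have hsurj : Function.Surjective L := fun y => ⟨A⁻¹ *ᵥ y, by rw [hL, h2]⟩
  have h := integral_image_eq_integral_abs_det_fderiv_smul (volume : Measure V3)
    MeasurableSet.univ (fun x _ => L.hasFDerivWithinAt (x := x) (s := univ)) hinj.injOn G
  rw [image_univ, hsurj.range_eq, setIntegral_univ, setIntegral_univ, hdet] at h
  rw [h]
  simp only [smul_eq_mul, hL]
  rw [integral_const_mul]

theorem det_ne (F Fi : Matrix (Fin 3) (Fin 3) ℝ) (h : F * Fi = 1) (r : ℝ) (hr : 0 < r) :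
    (r • F).det ≠ 0 := by
  rw [Matrix.det_smul]
  have h1 : F.det * Fi.det = 1 := by rw [← Matrix.det_mul, h, Matrix.det_one]
  have h2 : F.det ≠ 0 := left_ne_zero_of_mul_eq_one h1
  exact mul_ne_zero (pow_ne_zero _ hr.ne') h2

/-- a nowhere zero continuous function has constant sign -/
theorem sign {d : ℝ → ℝ} (hd : Continuous d) (h0 : ∀ t, d t ≠ 0) :
    ∃ σ : ℝ, |σ| ≤ 1 ∧ ∀ t, |d t| = σ * d t := by
  by_cases h : ∃ a, d a ≤ 0
  · refine ⟨-1, by norm_num, fun t => ?_⟩
    have hneg : d t ≤ 0 := by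
      by_contra hn
      push Not at hn
      obtain ⟨b, hb⟩ := mem_range_of_exists_le_of_exists_ge hd h ⟨t, hn.le⟩
      exact h0 b hb
    rw [abs_of_nonpos hneg]
    ring
  · push Not at h
    refine ⟨1, by norm_num, fun t => ?_⟩
    rw [abs_of_pos (h t), one_mul]

theorem exists_pow (M : ℝ) : ∃ n : ℕ, ∀ L : ℝ, 2 ≤ L → M ≤ L ^ n := by
  obtain ⟨n, hn⟩ := pow_unbounded_of_one_lt M (by norm_num : (1 : ℝ) < 2)
  exact ⟨n, fun L hL => hn.le.trans (pow_le_pow_left₀ (by norm_num) hL n)⟩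

section mod1

variable {ι : Type} {Lam : ι → ℝ} {I : ι → Set ℝ}

theorem mul1 (hL : ∀ i, 2 ≤ Lam i) {c d : ι → ℝ → ℝ} (hc : Mod Lam I (fun _ _ => 1) c)
    (hd : Mod Lam I (fun _ _ => 1) d) : Mod Lam I (fun _ _ => 1) (fun i t => c i t * d i t) := by
  have h := prfA1 ι Lam I _ _ c d hL hc hd
  simpa only [mul_one] using h

theorem add1 (hL : ∀ i, 2 ≤ Lam i) {c d : ι → ℝ → ℝ} (hc : Mod Lam I (fun _ _ => 1) c)
    (hd : Mod Lam I (fun _ _ => 1) d) : Mod Lam I (fun _ _ => 1) (fun i t => c i t + d i t) :=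
  (prfA2 ι Lam I _ c hL hc).1 d hd

theorem sub1 (hL : ∀ i, 2 ≤ Lam i) {c d : ι → ℝ → ℝ} (hc : Mod Lam I (fun _ _ => 1) c)
    (hd : Mod Lam I (fun _ _ => 1) d) : Mod Lam I (fun _ _ => 1) (fun i t => c i t - d i t) := by
  have h := add1 hL hc ((prfA2 ι Lam I _ d hL hd).2.1 (-1))
  have e : (fun i t => c i t - d i t) = fun i t => c i t + -1 * d i t := by
    funext i t; ring
  rw [e]
  exact h

theorem const1 (hL : ∀ i, 2 ≤ Lam i) {k : ι → ℝ} (hk : ∀ i, |k i| ≤ 1) :
    Mod Lam I (fun _ _ => 1) (fun i _ => k i) :=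
  prfA3 ι Lam I (fun _ _ => 1) k hL ⟨0, fun i t _ => by rw [pow_zero, mul_one]; exact hk i⟩

theorem det1 (hL : ∀ i, 2 ≤ Lam i) {A : ι → ℝ → Matrix (Fin 3) (Fin 3) ℝ}
    (hA : ∀ j k, Mod Lam I (fun _ _ => 1) (fun i t => A i t j k)) :
    Mod Lam I (fun _ _ => 1) (fun i t => (A i t).det) := by
  have e : (fun i t => (A i t).det) = fun i t =>
      A i t 0 0 * A i t 1 1 * A i t 2 2 - A i t 0 0 * A i t 1 2 * A i t 2 1
      - A i t 0 1 * A i t 1 0 * A i t 2 2 + A i t 0 1 * A i t 1 2 * A i t 2 0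
      + A i t 0 2 * A i t 1 0 * A i t 2 1 - A i t 0 2 * A i t 1 1 * A i t 2 0 := by
    funext i t
    rw [Matrix.det_fin_three]
  rw [e]
  have m3 : ∀ a b c d e f, Mod Lam I (fun _ _ => 1)
      (fun i t => A i t a b * A i t c d * A i t e f) := fun a b c d e f =>
    mul1 hL (mul1 hL (hA a b) (hA c d)) (hA e f)
  exact sub1 hL (add1 hL (add1 hL (sub1 hL (sub1 hL (m3 0 0 1 1 2 2) (m3 0 0 1 2 2 1))
    (m3 0 1 1 0 2 2)) (m3 0 1 1 2 2 0)) (m3 0 2 1 0 2 1)) (m3 0 2 1 1 2 0)

/-- uniform bounds for the orbits `τ ↦ A τ y`, `|y| ≤ 1` -/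
theorem orbit (hL : ∀ i, 2 ≤ Lam i) {A : ι → ℝ → Matrix (Fin 3) (Fin 3) ℝ}
    (hA : ∀ j k, Mod Lam I (fun _ _ => 1) (fun i t => A i t j k)) (m : ℕ) :
    ∃ n : ℕ, ∀ i, ∀ t ∈ I i, ∀ y : V3, ‖y‖ ≤ 1 →
      ‖iteratedFDeriv ℝ m (fun τ => A i τ *ᵥ y) t‖ ≤ Lam i ^ n := by
  let ι' : Type := ι × {y : V3 // ‖y‖ ≤ 1}
  let Lam' : ι' → ℝ := fun p => Lam p.1
  let I' : ι' → Set ℝ := fun p => I p.1
  have hL' : ∀ p, 2 ≤ Lam' p := fun p => hL p.1
  have hA' : ∀ j k, Mod Lam' I' (fun _ _ => 1) (fun p t => A p.1 t j k) := by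
    intro j k
    refine ⟨fun p => (hA j k).1 p.1, fun d => ?_⟩
    obtain ⟨n, hn⟩ := (hA j k).2 d
    exact ⟨n, fun p t ht => hn p.1 t ht⟩
  have hy : ∀ k : Fin 3, Mod Lam' I' (fun _ _ => 1) (fun p _ => p.2.1 k) := by
    intro k
    apply const1 hL'
    intro p
    have := norm_le_pi_norm p.2.1 k
    rw [Real.norm_eq_abs] at this
    exact this.trans p.2.2
  have hcomp : ∀ j : Fin 3, Mod Lam' I' (fun _ _ => 1) (fun p t => (A p.1 t *ᵥ p.2.1) j) := by
    intro j
    have e : (fun (p : ι') t => (A p.1 t *ᵥ p.2.1) j) = fun p t =>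
        A p.1 t j 0 * p.2.1 0 + A p.1 t j 1 * p.2.1 1 + A p.1 t j 2 * p.2.1 2 := by
      funext p t
      rw [Matrix.mulVec, dotProduct, Fin.sum_univ_three]
    rw [e]
    exact add1 hL' (add1 hL' (mul1 hL' (hA' j 0) (hy 0)) (mul1 hL' (hA' j 1) (hy 1)))
      (mul1 hL' (hA' j 2) (hy 2))
  have hBd : ∀ k, Bd Lam' I' (fun _ => 1) (fun _ => 1) (fun p t => (A p.1 t *ᵥ p.2.1) k) := by
    intro k
    refine ⟨(hcomp k).1, fun d => ?_⟩
    obtain ⟨n, hn⟩ := (hcomp k).2 d
    refine ⟨n, fun p t ht => ?_⟩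
    rw [norm_iteratedFDeriv_eq_norm_iteratedDeriv, Real.norm_eq_abs, one_pow, mul_one]
    exact hn p t ht
  have h6 := W.prfI6 ι' ℝ Lam' I' (fun _ => 1) (fun _ => 1) (fun p t => A p.1 t *ᵥ p.2.1) hL'
    (fun _ => zero_le_one) (fun _ => zero_le_one) hBd
  obtain ⟨n, hn⟩ := h6.2 m
  refine ⟨n, fun i t ht y hy => ?_⟩
  have := hn (i, ⟨y, hy⟩) t ht
  rw [one_pow, mul_one, mul_one] at this
  exact this

end mod1


theorem AX_smooth {A : ℝ → Matrix (Fin 3) (Fin 3) ℝ} (hA : ∀ j k, ContDiff ℝ ∞ (fun t => A t j k)) :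
    ContDiff ℝ ∞ (fun z : ℝ × V3 => A z.1 *ᵥ z.2) := by
  rw [contDiff_pi]
  intro j
  have h : (fun z : ℝ × V3 => (A z.1 *ᵥ z.2) j) =
      fun z : ℝ × V3 => ∑ k, A z.1 j k * z.2 k := by
    funext z
    rfl
  rw [h]
  refine ContDiff.sum fun k _ => ?_
  refine ((hA j k).comp contDiff_fst).mul ?_
  exact (contDiff_apply ℝ ℝ k).comp contDiff_snd

/-- derivatives of `τ ↦ phi (A τ y)` -/
theorem comp_bd {ι : Type} {Lam : ι → ℝ} {I : ι → Set ℝ} (hL : ∀ i, 2 ≤ Lam i)
    {A : ι → ℝ → Matrix (Fin 3) (Fin 3) ℝ}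
    (hA : ∀ j k, Mod Lam I (fun _ _ => 1) (fun i t => A i t j k))
    (hball : ∀ i, ∀ t ∈ I i, ∀ y : V3, ‖y‖ ≤ 1 → ‖A i t *ᵥ y‖ ≤ 1) (m : ℕ) :
    ∃ n : ℕ, ∀ i (phi : V3 → ℝ), ContDiff ℝ ∞ phi → ∀ D : ℝ, TB phi m D → ∀ t ∈ I i, ∀ y : V3,
      ‖y‖ ≤ 1 → |iteratedDeriv m (fun τ => phi (A i τ *ᵥ y)) t| ≤ Lam i ^ n * D := by
  choose N hN using orbit hL hA
  obtain ⟨n0, hn0⟩ := exists_pow (m.factorial : ℝ)
  set S := ∑ l ∈ Finset.range (m + 1), N l with hS
  refine ⟨n0 + S * m, fun i phi hphi D hD t ht y hy => ?_⟩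
  have hL1 : (1 : ℝ) ≤ Lam i := by linarith [hL i]
  have hsm : ContDiff ℝ ∞ (fun τ => A i τ *ᵥ y) := by
    have h1 := AX_smooth (A := A i) (fun j k => (hA j k).1 i)
    exact h1.comp (contDiff_id.prodMk contDiff_const)
  have hD0 : 0 ≤ D := (norm_nonneg _).trans (hD 0 (Nat.zero_le _) 0 (by simp))
  have h := norm_iteratedFDeriv_comp_le (n := m) (N := ∞) hphi hsm (by exact_mod_cast le_top) t
    (C := D) (D := Lam i ^ S) (fun l hl => hD l hl _ (hball i t ht y hy)) (by
      intro l hl1 hlm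
      refine (hN l i t ht y hy).trans ?_
      rw [← pow_mul]
      apply pow_le_pow_right₀ hL1
      have h1 : N l ≤ S := Finset.single_le_sum (f := N) (fun _ _ => Nat.zero_le _)
        (Finset.mem_range.2 (by omega))
      calc N l ≤ S := h1
        _ = S * 1 := (mul_one _).symm
        _ ≤ S * l := Nat.mul_le_mul_left _ hl1)
  rw [norm_iteratedFDeriv_eq_norm_iteratedDeriv, Real.norm_eq_abs] at h
  have e : (phi ∘ fun τ => A i τ *ᵥ y) = fun τ => phi (A i τ *ᵥ y) := rfl
  rw [e] at h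
  refine h.trans ?_
  rw [pow_add, pow_mul]
  have h2 := hn0 (Lam i) (hL i)
  have h3 : (0 : ℝ) ≤ D * (Lam i ^ S) ^ m := by positivity
  calc (m.factorial : ℝ) * D * (Lam i ^ S) ^ m = (m.factorial : ℝ) * (D * (Lam i ^ S) ^ m) := by
        ring
    _ ≤ Lam i ^ n0 * (D * (Lam i ^ S) ^ m) := mul_le_mul_of_nonneg_right h2 h3
    _ = Lam i ^ n0 * (Lam i ^ S) ^ m * D := by ring

/-- the averages in Lagrangian variables -/
theorem lag (hI1 : claimI1) {ι : Type} {Lam : ι → ℝ} {I : ι → Set ℝ} (hL : ∀ i, 2 ≤ Lam i)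
    {A : ι → ℝ → Matrix (Fin 3) (Fin 3) ℝ}
    (hA : ∀ j k, Mod Lam I (fun _ _ => 1) (fun i t => A i t j k))
    (hball : ∀ i, ∀ t ∈ I i, ∀ y : V3, ‖y‖ ≤ 1 → ‖A i t *ᵥ y‖ ≤ 1)
    (w : ι → V3 → ℝ) (hw : ∀ i, Continuous (w i)) (hw0 : ∀ i y, 1 ≤ ‖y‖ → w i y = 0)
    (M : ℝ) (hM : ∀ i y, |w i y| ≤ M) :
    (∀ i (phi : V3 → ℝ), ContDiff ℝ ∞ phi →
      ContDiff ℝ ∞ (fun t => ∫ y, phi (A i t *ᵥ y) * w i y)) ∧
    ∀ m : ℕ, ∃ n : ℕ, ∀ i (phi : V3 → ℝ), ContDiff ℝ ∞ phi → ∀ D : ℝ, TB phi m D → ∀ t ∈ I i,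
      |iteratedDeriv m (fun t => ∫ y, phi (A i t *ᵥ y) * w i y) t| ≤ Lam i ^ n * D := by
  have hh : ∀ i (phi : V3 → ℝ), ContDiff ℝ ∞ phi →
      ContDiff ℝ ∞ (fun z : ℝ × V3 => phi (A i z.1 *ᵥ z.2)) := fun i phi hphi =>
    hphi.comp (AX_smooth (A := A i) (fun j k => (hA j k).1 i))
  refine ⟨fun i phi hphi => (hI1 _ (w i) (hh i phi hphi) (hw i) (hw0 i)).1, fun m => ?_⟩
  obtain ⟨n, hn⟩ := comp_bd hL hA hball m
  obtain ⟨n0, hn0⟩ := exists_pow (M * (volume : Measure V3).real (Metric.closedBall 0 1))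
  refine ⟨n + n0, fun i phi hphi D hD t ht => ?_⟩
  have hM0 : 0 ≤ M := (abs_nonneg _).trans (hM i 0)
  have hD0 : 0 ≤ D := (norm_nonneg _).trans (hD 0 (Nat.zero_le _) 0 (by simp))
  have hLp : 0 < Lam i := by linarith [hL i]
  have h1 := (hI1 _ (w i) (hh i phi hphi) (hw i) (hw0 i)).2 m t
  rw [h1]
  have h2 : ∫ y, iteratedDeriv m (fun τ => phi (A i (τ, y).1 *ᵥ (τ, y).2)) t * w i y
      = ∫ y in Metric.closedBall (0 : V3) 1,
        iteratedDeriv m (fun τ => phi (A i (τ, y).1 *ᵥ (τ, y).2)) t * w i y := by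
    rw [setIntegral_eq_integral_of_forall_compl_eq_zero]
    intro y hy
    rw [mem_closedBall_zero_iff, not_le] at hy
    rw [hw0 i y hy.le, mul_zero]
  rw [h2]
  have hfin : (volume : Measure V3) (Metric.closedBall 0 1) < ⊤ :=
    (isCompact_closedBall (0 : V3) 1).measure_lt_top
  have h3 := norm_setIntegral_le_of_norm_le_const (μ := (volume : Measure V3))
    (s := Metric.closedBall (0 : V3) 1)
    (f := fun y => iteratedDeriv m (fun τ => phi (A i (τ, y).1 *ᵥ (τ, y).2)) t * w i y)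
    (C := Lam i ^ n * D * M) hfin (by
      intro y hy
      rw [mem_closedBall_zero_iff] at hy
      rw [norm_mul, Real.norm_eq_abs, Real.norm_eq_abs]
      exact mul_le_mul (hn i phi hphi D hD t ht y hy) (hM i y) (abs_nonneg _) (by positivity))
  rw [Real.norm_eq_abs] at h3
  refine h3.trans ?_
  rw [pow_add]
  have h4 := hn0 (Lam i) (hL i)
  calc Lam i ^ n * D * M * (volume : Measure V3).real (Metric.closedBall 0 1)
      = (Lam i ^ n * D) * (M * (volume : Measure V3).real (Metric.closedBall 0 1)) := by ring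
    _ ≤ (Lam i ^ n * D) * Lam i ^ n0 := mul_le_mul_of_nonneg_left h4 (by positivity)
    _ = Lam i ^ n * Lam i ^ n0 * D := by ring


theorem prod_bd (m : ℕ) {u v : ℝ → ℝ} (hu : ContDiff ℝ ∞ u) (hv : ContDiff ℝ ∞ v) {t X Y : ℝ}
    (hX : ∀ k ≤ m, |iteratedDeriv k u t| ≤ X) (hY : ∀ k ≤ m, |iteratedDeriv k v t| ≤ Y) :
    |iteratedDeriv m (fun t => u t * v t) t| ≤ 2 ^ m * (X * Y) := by
  have hf : ContDiffAt ℝ m u t := (hu.of_le (by exact_mod_cast le_top)).contDiffAt
  have hg : ContDiffAt ℝ m v t := (hv.of_le (by exact_mod_cast le_top)).contDiffAt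
  have e : iteratedDeriv m (fun t => u t * v t) t = ∑ k ∈ Finset.range (m + 1),
      (m.choose k : ℝ) * iteratedDeriv k u t * iteratedDeriv (m - k) v t :=
    iteratedDeriv_mul (n := m) hf hg
  rw [e]
  have hX0 : 0 ≤ X := (abs_nonneg _).trans (hX 0 (Nat.zero_le _))
  have hterm : ∀ k ∈ Finset.range (m + 1),
      |(m.choose k : ℝ) * iteratedDeriv k u t * iteratedDeriv (m - k) v t| ≤
        (m.choose k : ℝ) * (X * Y) := by
    intro k hk
    rw [abs_mul, abs_mul, Nat.abs_cast, mul_assoc]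
    refine mul_le_mul_of_nonneg_left ?_ (Nat.cast_nonneg _)
    exact mul_le_mul (hX k (by have := Finset.mem_range.1 hk; omega)) (hY (m - k) (Nat.sub_le _ _))
      (abs_nonneg _) hX0
  calc |∑ k ∈ Finset.range (m + 1),
        (m.choose k : ℝ) * iteratedDeriv k u t * iteratedDeriv (m - k) v t|
      ≤ ∑ k ∈ Finset.range (m + 1), (m.choose k : ℝ) * (X * Y) :=
        (Finset.abs_sum_le_sum_abs _ _).trans (Finset.sum_le_sum hterm)
    _ = (2 : ℝ) ^ m * (X * Y) := by
        rw [← Finset.sum_mul]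
        congr 1
        exact_mod_cast Nat.sum_range_choose m

/-- the claim for a single symbol -/
def Avg {ι : Type} (S : Lev ι) (mu : ι → ℝ) (f : Sm ι) : Prop :=
  (∀ i (phi : V3 → ℝ), ContDiff ℝ ∞ phi →
      ContDiff ℝ ∞ (fun t => ∫ x, phi x * f.1 i (Phi S i (t, x)))) ∧
    ∀ j : ℕ, ∃ n : ℕ, ∀ i (phi : V3 → ℝ), ContDiff ℝ ∞ phi → ∀ D : ℝ, TB phi j D →
      ∀ t ∈ S.I i, |iteratedDeriv j (fun t => ∫ x, phi x * f.1 i (Phi S i (t, x))) t| ≤
        S.Lam i ^ n * mu i * D

theorem Fi_F {ι : Type} (S : Lev ι) (i : ι) (t : ℝ) : S.Fi i t * S.F i t = 1 :=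
  mul_eq_one_comm.1 (S.F_Fi i t)

theorem D_nonneg {phi : V3 → ℝ} {m : ℕ} {D : ℝ} (h : TB phi m D) : 0 ≤ D :=
  (norm_nonneg _).trans (h 0 (Nat.zero_le _) 0 (by simp))

/-- atoms -/
theorem atom (hI1 : claimI1) {ι : Type} (S : Lev ι) (mu : ι → ℝ) (hmu : ∀ i, 0 ≤ mu i) (f : Sm ι)
    (c : ι → ℝ → ℝ) (psi : V3 → ℝ) (g : ℝ → ℝ) (hc : Mod S.Lam S.I (fun i _ => mu i) c)
    (hpsi : Pb psi) (hg : Qp g) (hf : ∀ i z, f.1 i z = c i z.1 * psi z.2.1 * g z.2.2) :
    Avg S mu f := by
  set A : ι → ℝ → Matrix (Fin 3) (Fin 3) ℝ := fun i t => S.rho i • S.F i t with hAdef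
  have hrho : Mod S.Lam S.I (fun _ _ => 1) (fun i _ => S.rho i) :=
    const1 S.two_le_Lam (fun i => by rw [abs_of_pos (S.rho_pos i)]; exact S.rho_le i)
  have hA : ∀ j k, Mod S.Lam S.I (fun _ _ => 1) (fun i t => A i t j k) := by
    intro j k
    exact mul1 S.two_le_Lam hrho (S.mod_F j k)
  have hball : ∀ i, ∀ t ∈ S.I i, ∀ y : V3, ‖y‖ ≤ 1 → ‖A i t *ᵥ y‖ ≤ 1 := by
    intro i t ht y hy
    have h1 : A i t *ᵥ y = S.F i t *ᵥ (S.rho i • y) := by
      rw [hAdef]
      simp only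
      rw [Matrix.smul_mulVec, Matrix.mulVec_smul]
    rw [h1]
    refine (S.F_ball i t ht _ ?_).trans (S.R_le i)
    rw [norm_smul, Real.norm_eq_abs, abs_of_pos (S.rho_pos i)]
    exact mul_le_of_le_one_right (S.rho_pos i).le hy
  have hdet := det1 S.two_le_Lam hA
  have hdet0 : ∀ i t, (A i t).det ≠ 0 := fun i t =>
    det_ne _ _ (S.F_Fi i t) _ (S.rho_pos i)
  choose σ hσ1 hσ using fun i => sign ((hdet.1 i).continuous) (hdet0 i)
  obtain ⟨C1, hC1⟩ := W.prfI3.1 psi hpsi 0
  obtain ⟨C2, hC2⟩ := W.prfI3.2 g hg 0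
  set w : ι → V3 → ℝ := fun i y => psi y * g (S.Nf i * (S.rho i * (S.kap i ⬝ᵥ y))) with hwdef
  have hwc : ∀ i, Continuous (w i) := by
    intro i
    apply hpsi.1.continuous.mul
    apply hg.1.continuous.comp
    apply continuous_const.mul
    apply continuous_const.mul
    exact continuous_finsetSum _ fun k _ => continuous_const.mul (continuous_apply k)
  have hw0 : ∀ i y, 1 ≤ ‖y‖ → w i y = 0 := by
    intro i y hy
    simp only [hwdef]
    rw [hpsi.2 y hy, zero_mul]
  have hwM : ∀ i y, |w i y| ≤ C1 * C2 := by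
    intro i y
    simp only [hwdef]
    rw [abs_mul]
    have h1 := hC1 y
    have h2 := hC2 (S.Nf i * (S.rho i * (S.kap i ⬝ᵥ y)))
    rw [norm_iteratedFDeriv_zero, Real.norm_eq_abs] at h1 h2
    exact mul_le_mul h1 h2 (abs_nonneg _) ((abs_nonneg _).trans h1)
  obtain ⟨hB1, hB2⟩ := lag hI1 S.two_le_Lam hA hball w hwc hw0 (C1 * C2) hwM
  have hCm : Mod S.Lam S.I (fun i _ => mu i) (fun i t => c i t * (σ i * (A i t).det)) := by
    have h1 := mul1 S.two_le_Lam (const1 (I := S.I) S.two_le_Lam hσ1) hdet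
    have h2 := prfA1 ι S.Lam S.I _ _ _ _ S.two_le_Lam hc h1
    simpa only [mul_one] using h2
  have key : ∀ i (phi : V3 → ℝ) t, ∫ x, phi x * f.1 i (Phi S i (t, x)) =
      (c i t * (σ i * (A i t).det)) * ∫ y, phi (A i t *ᵥ y) * w i y := by
    intro i phi t
    rw [subst (A i t) (hdet0 i t), hσ i t, mul_assoc, mul_comm (c i t), mul_assoc,
      ← integral_const_mul (c i t), ← mul_assoc]
    congr 2
    funext y
    rw [hf]
    have e1 : (S.rho i)⁻¹ • (S.Fi i t *ᵥ (A i t *ᵥ y)) = y := by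
      rw [hAdef]
      simp only
      rw [Matrix.smul_mulVec, Matrix.mulVec_smul, smul_smul, inv_mul_cancel₀ (S.rho_pos i).ne',
        one_smul, Matrix.mulVec_mulVec, Fi_F, Matrix.one_mulVec]
    have e2 : S.K i t ⬝ᵥ (A i t *ᵥ y) = S.rho i * (S.kap i ⬝ᵥ y) := by
      rw [hAdef]
      simp only
      rw [Matrix.smul_mulVec, dotProduct_smul, Matrix.dotProduct_mulVec, ← Matrix.mulVec_transpose,
        S.K_kap i t, smul_eq_mul]
    simp only [Phi, hwdef]
    rw [e1, e2]
    ring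
  constructor
  · intro i phi hphi
    have e : (fun t => ∫ x, phi x * f.1 i (Phi S i (t, x))) = fun t =>
        (c i t * (σ i * (A i t).det)) * ∫ y, phi (A i t *ᵥ y) * w i y := funext (key i phi)
    rw [e]
    exact (hCm.1 i).mul (hB1 i phi hphi)
  · intro m
    choose nC hnC using hCm.2
    choose nB hnB using hB2
    set SC := ∑ l ∈ Finset.range (m + 1), nC l with hSC
    set SB := ∑ l ∈ Finset.range (m + 1), nB l with hSB
    refine ⟨m + (SC + SB), fun i phi hphi D hD t ht => ?_⟩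
    have e : (fun t => ∫ x, phi x * f.1 i (Phi S i (t, x))) = fun t =>
        (c i t * (σ i * (A i t).det)) * ∫ y, phi (A i t *ᵥ y) * w i y := funext (key i phi)
    rw [e]
    have hL2 := S.two_le_Lam i
    have hL1 : (1 : ℝ) ≤ S.Lam i := by linarith
    have hD0 := D_nonneg hD
    have h := prod_bd m (hCm.1 i) (hB1 i phi hphi) (t := t) (X := S.Lam i ^ SC * mu i)
      (Y := S.Lam i ^ SB * D) (by
        intro k hk
        refine (hnC k i t ht).trans (mul_le_mul_of_nonneg_right ?_ (hmu i))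
        refine pow_le_pow_right₀ hL1 ?_
        exact Finset.single_le_sum (f := nC) (fun _ _ => Nat.zero_le _)
          (Finset.mem_range.2 (by omega))) (by
        intro k hk
        refine (hnB k i phi hphi D (fun m' hm' => hD m' (hm'.trans hk)) t ht).trans
          (mul_le_mul_of_nonneg_right ?_ hD0)
        refine pow_le_pow_right₀ hL1 ?_
        exact Finset.single_le_sum (f := nB) (fun _ _ => Nat.zero_le _)
          (Finset.mem_range.2 (by omega)))
    refine h.trans ?_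
    have h2 : (2 : ℝ) ^ m ≤ S.Lam i ^ m := pow_le_pow_left₀ (by norm_num) hL2 m
    have h3 : 0 ≤ S.Lam i ^ SC * mu i * (S.Lam i ^ SB * D) := by
      have := hmu i
      positivity
    calc 2 ^ m * (S.Lam i ^ SC * mu i * (S.Lam i ^ SB * D))
        ≤ S.Lam i ^ m * (S.Lam i ^ SC * mu i * (S.Lam i ^ SB * D)) :=
          mul_le_mul_of_nonneg_right h2 h3
      _ = S.Lam i ^ (m + (SC + SB)) * mu i * D := by rw [pow_add, pow_add]; ring

theorem integrable {ι : Type} (S : Lev ι) (mu : ι → ℝ → ℝ) (Q : (ℝ → ℝ) → Prop) (f : Sm ι)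
    (hf : f ∈ Sym S.Lam S.I mu Pb Q) (i : ι) (phi : V3 → ℝ) (hphi : ContDiff ℝ ∞ phi) (t : ℝ) :
    Integrable (fun x => phi x * f.1 i (Phi S i (t, x))) := by
  have h3 := W.prfR3 ι S mu Q f hf
  have hc : Continuous (fun x => phi x * f.1 i (Phi S i (t, x))) := by
    apply hphi.continuous.mul
    exact (h3.1 i).continuous.comp (continuous_const.prodMk continuous_id)
  apply hc.integrable_of_hasCompactSupport
  have hFc : Continuous (fun y : V3 => S.F i t *ᵥ y) := by
    have h : (fun y : V3 => S.F i t *ᵥ y) = Matrix.toLin' (S.F i t) := by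
      funext y
      rw [Matrix.toLin'_apply]
    rw [h]
    exact LinearMap.continuous_of_finiteDimensional _
  apply HasCompactSupport.intro
    ((isCompact_closedBall (0 : V3) (S.rho i)).image hFc)
  intro x hx
  have h4 : S.rho i ≤ ‖S.Fi i t *ᵥ x‖ := by
    by_contra hn
    push Not at hn
    apply hx
    refine ⟨S.Fi i t *ᵥ x, ?_, ?_⟩
    · rw [mem_closedBall_zero_iff]
      exact hn.le
    · show S.F i t *ᵥ (S.Fi i t *ᵥ x) = x
      rw [Matrix.mulVec_mulVec, S.F_Fi, Matrix.one_mulVec]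
  rw [h3.2.1 i t x h4, mul_zero]

end I2

/-- I2 -/
theorem prfI2 (hI1 : claimI1) : claimI2 := by
  intro ι S mu f hmu hf
  change I2.Avg S mu f
  have hf' := hf
  unfold W.Sym at hf'
  induction hf' using Submodule.span_induction with
  | mem x hx =>
    obtain ⟨c, psi, g, hc, hpsi, hg, hx⟩ := hx
    exact I2.atom hI1 S mu hmu x c psi g hc hpsi hg hx
  | zero =>
    have e : ∀ i (phi : V3 → ℝ), (fun t => ∫ x, phi x * (0 : Sm ι).1 i (Phi S i (t, x))) =
        fun _ => (0 : ℝ) := by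
      intro i phi
      funext t
      have : ∀ x, phi x * (0 : Sm ι).1 i (Phi S i (t, x)) = 0 := fun x => mul_zero _
      simp only [this, integral_zero]
    refine ⟨fun i phi _ => by rw [e]; exact contDiff_const, fun j => ⟨0, fun i phi _ D hD t _ => ?_⟩⟩
    rw [e]
    have h0 : iteratedDeriv j (fun _ : ℝ => (0 : ℝ)) t = 0 := by
      rw [iteratedDeriv_const]
      split_ifs <;> rfl
    rw [h0, abs_zero, pow_zero, one_mul]
    exact mul_nonneg (hmu i) (I2.D_nonneg hD)
  | add x y hxm hym hx hy =>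
    have e : ∀ i (phi : V3 → ℝ), ContDiff ℝ ∞ phi →
        (fun t => ∫ z, phi z * (x + y).1 i (Phi S i (t, z))) =
        fun t => (∫ z, phi z * x.1 i (Phi S i (t, z))) + ∫ z, phi z * y.1 i (Phi S i (t, z)) := by
      intro i phi hphi
      funext t
      rw [← integral_add (I2.integrable S _ Qp x hxm i phi hphi t)
        (I2.integrable S _ Qp y hym i phi hphi t)]
      congr 1
      funext z
      show phi z * (x.1 i (Phi S i (t, z)) + y.1 i (Phi S i (t, z))) = _
      ring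
    have hx' := hx hxm
    have hy' := hy hym
    refine ⟨fun i phi hphi => by rw [e i phi hphi]; exact (hx'.1 i phi hphi).add (hy'.1 i phi hphi),
      fun j => ?_⟩
    obtain ⟨n1, hn1⟩ := hx'.2 j
    obtain ⟨n2, hn2⟩ := hy'.2 j
    refine ⟨1 + (n1 + n2), fun i phi hphi D hD t ht => ?_⟩
    rw [e i phi hphi]
    have hs : iteratedDeriv j (fun t => (∫ z, phi z * x.1 i (Phi S i (t, z)))
        + ∫ z, phi z * y.1 i (Phi S i (t, z))) t =
        iteratedDeriv j (fun t => (∫ z, phi z * x.1 i (Phi S i (t, z)))) t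
        + iteratedDeriv j (fun t => ∫ z, phi z * y.1 i (Phi S i (t, z))) t :=
      iteratedDeriv_add ((hx'.1 i phi hphi).of_le (by exact_mod_cast le_top)).contDiffAt
        ((hy'.1 i phi hphi).of_le (by exact_mod_cast le_top)).contDiffAt
    rw [hs]
    have hL2 := S.two_le_Lam i
    have hL1 : (1 : ℝ) ≤ S.Lam i := by linarith
    have hD0 := I2.D_nonneg hD
    have hmD : 0 ≤ mu i * D := mul_nonneg (hmu i) hD0
    have b1 : |iteratedDeriv j (fun t => (∫ z, phi z * x.1 i (Phi S i (t, z)))) t|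
        ≤ S.Lam i ^ (n1 + n2) * (mu i * D) := by
      refine (hn1 i phi hphi D hD t ht).trans ?_
      rw [mul_assoc]
      exact mul_le_mul_of_nonneg_right (pow_le_pow_right₀ hL1 (Nat.le_add_right _ _)) hmD
    have b2 : |iteratedDeriv j (fun t => (∫ z, phi z * y.1 i (Phi S i (t, z)))) t|
        ≤ S.Lam i ^ (n1 + n2) * (mu i * D) := by
      refine (hn2 i phi hphi D hD t ht).trans ?_
      rw [mul_assoc]
      exact mul_le_mul_of_nonneg_right (pow_le_pow_right₀ hL1 (Nat.le_add_left _ _)) hmD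
    refine (abs_add_le _ _).trans ((add_le_add b1 b2).trans ?_)
    have h3 : 0 ≤ S.Lam i ^ (n1 + n2) * (mu i * D) := by positivity
    calc S.Lam i ^ (n1 + n2) * (mu i * D) + S.Lam i ^ (n1 + n2) * (mu i * D)
        = 2 * (S.Lam i ^ (n1 + n2) * (mu i * D)) := by ring
      _ ≤ S.Lam i * (S.Lam i ^ (n1 + n2) * (mu i * D)) := mul_le_mul_of_nonneg_right hL2 h3
      _ = S.Lam i ^ (1 + (n1 + n2)) * mu i * D := by ring
  | smul r x hxm hx =>
    have hx' := hx hxm
    have e : ∀ i (phi : V3 → ℝ),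
        (fun t => ∫ z, phi z * (r • x).1 i (Phi S i (t, z))) =
        fun t => r * ∫ z, phi z * x.1 i (Phi S i (t, z)) := by
      intro i phi
      funext t
      rw [← integral_const_mul]
      congr 1
      funext z
      show phi z * (r * x.1 i (Phi S i (t, z))) = _
      ring
    refine ⟨fun i phi hphi => by rw [e i phi]; exact contDiff_const.mul (hx'.1 i phi hphi),
      fun j => ?_⟩
    obtain ⟨n, hn⟩ := hx'.2 j
    obtain ⟨n0, hn0⟩ := I2.exists_pow |r|
    refine ⟨n0 + n, fun i phi hphi D hD t ht => ?_⟩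
    rw [e i phi]
    have hs : iteratedDeriv j (fun t => r * ∫ z, phi z * x.1 i (Phi S i (t, z))) t =
        r * iteratedDeriv j (fun t => (∫ z, phi z * x.1 i (Phi S i (t, z)))) t :=
      iteratedDeriv_const_mul_field r _
    rw [hs, abs_mul]
    have h1 := hn i phi hphi D hD t ht
    have h2 := hn0 (S.Lam i) (S.two_le_Lam i)
    have hLp : 0 < S.Lam i := by linarith [S.two_le_Lam i]
    calc |r| * |iteratedDeriv j (fun t => (∫ z, phi z * x.1 i (Phi S i (t, z)))) t|
        ≤ S.Lam i ^ n0 * (S.Lam i ^ n * mu i * D) :=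
          mul_le_mul h2 h1 (abs_nonneg _) (by positivity)
      _ = S.Lam i ^ (n0 + n) * mu i * D := by rw [pow_add]; ring

end Pool.Agent.Work.MP_b0497c_an.Forced.S

end
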