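import Pool.Agent.Work.MP_b0497c_an.Forced.S.Stmts

/-! Bundle of small proof modules (one section per former module). -/

section

set_option autoImplicit false

/-!
# Theorem S': item A1, products and sums of rapidly decreasing families
-/

open scoped ContDiff
open Set Filter Topology MeasureTheory

namespace Pool.Agent.Work.MP_b0497c_an.Forced.S

namespace A1

variable {E F : Type} [NormedAddCommGroup E] [NormedSpace ℝ E] [NormedAddCommGroup F]
  [NormedSpace ℝ F]

theorem one_le (n : ℕ) : (1 : ℝ) ≤ (n : ℝ) + 1 := by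
  have : (0 : ℝ) ≤ n := Nat.cast_nonneg n
  linarith

theorem smul_smooth {f : ℕ → E → F} {g : ℕ → E → ℝ} (hf : ∀ n, ContDiff ℝ ∞ (f n))
    (hg : ∀ n, ContDiff ℝ ∞ (g n)) (n : ℕ) : ContDiff ℝ ∞ (fun z => g n z • f n z) :=
  (hg n).smul (hf n)

theorem leib {f : E → F} {g : E → ℝ} (hf : ContDiff ℝ ∞ f) (hg : ContDiff ℝ ∞ g) (m : ℕ) (z : E) :
    ‖iteratedFDeriv ℝ m (fun z => g z • f z) z‖ ≤ ∑ i ∈ Finset.range (m + 1),
      (m.choose i : ℝ) * ‖iteratedFDeriv ℝ i g z‖ * ‖iteratedFDeriv ℝ (m - i) f z‖ :=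
  norm_iteratedFDeriv_smul_le hg hf z (by exact_mod_cast le_top)

theorem rd_tm {f : ℕ → E → F} (hf : RD f) : TM f := by
  refine ⟨hf.1, fun m => ?_⟩
  obtain ⟨C, hC⟩ := hf.2 m 0
  refine ⟨C, 0, fun n z => ?_⟩
  have := hC n z
  simpa using this

theorem rd_add {f g : ℕ → E → F} (hf : RD f) (hg : RD g) : RD (fun n z => f n z + g n z) := by
  refine ⟨fun n => (hf.1 n).add (hg.1 n), fun m k => ?_⟩
  obtain ⟨C, hC⟩ := hf.2 m k
  obtain ⟨C', hC'⟩ := hg.2 m k
  refine ⟨C + C', fun n z => ?_⟩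
  have h1 : iteratedFDeriv ℝ m (fun z => f n z + g n z) z
      = iteratedFDeriv ℝ m (f n) z + iteratedFDeriv ℝ m (g n) z :=
    iteratedFDeriv_add_apply ((hf.1 n).of_le (by exact_mod_cast le_top)).contDiffAt
      ((hg.1 n).of_le (by exact_mod_cast le_top)).contDiffAt
  rw [h1]
  have hU : (0 : ℝ) ≤ ((n : ℝ) + 1) ^ k := by positivity
  calc ((n : ℝ) + 1) ^ k * ‖iteratedFDeriv ℝ m (f n) z + iteratedFDeriv ℝ m (g n) z‖
      ≤ ((n : ℝ) + 1) ^ k * (‖iteratedFDeriv ℝ m (f n) z‖ + ‖iteratedFDeriv ℝ m (g n) z‖) :=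
        mul_le_mul_of_nonneg_left (norm_add_le _ _) hU
    _ = ((n : ℝ) + 1) ^ k * ‖iteratedFDeriv ℝ m (f n) z‖
        + ((n : ℝ) + 1) ^ k * ‖iteratedFDeriv ℝ m (g n) z‖ := by ring
    _ ≤ C + C' := add_le_add (hC n z) (hC' n z)

theorem rd_tm_smul {f : ℕ → E → F} {g : ℕ → E → ℝ} (hf : RD f) (hg : TM g) :
    RD (fun n z => g n z • f n z) := by
  refine ⟨smul_smooth hf.1 hg.1, fun m k => ?_⟩
  choose C K hC using hg.2
  choose C' hC' using hf.2
  refine ⟨∑ i ∈ Finset.range (m + 1), (m.choose i : ℝ) * |C i| * C' (m - i) (k + K i),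
    fun n z => ?_⟩
  have hU : (0 : ℝ) ≤ ((n : ℝ) + 1) ^ k := by positivity
  refine (mul_le_mul_of_nonneg_left (leib (hf.1 n) (hg.1 n) m z) hU).trans ?_
  rw [Finset.mul_sum]
  apply Finset.sum_le_sum
  intro i _
  have h1 : ‖iteratedFDeriv ℝ i (g n) z‖ ≤ |C i| * ((n : ℝ) + 1) ^ K i :=
    (hC i n z).trans (mul_le_mul_of_nonneg_right (le_abs_self _) (by positivity))
  have h2 := hC' (m - i) (k + K i) n z
  have h3 : (0 : ℝ) ≤ ‖iteratedFDeriv ℝ (m - i) (f n) z‖ := norm_nonneg _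
  calc ((n : ℝ) + 1) ^ k * ((m.choose i : ℝ) * ‖iteratedFDeriv ℝ i (g n) z‖
        * ‖iteratedFDeriv ℝ (m - i) (f n) z‖)
      ≤ ((n : ℝ) + 1) ^ k * ((m.choose i : ℝ) * (|C i| * ((n : ℝ) + 1) ^ K i)
        * ‖iteratedFDeriv ℝ (m - i) (f n) z‖) := by gcongr
    _ = (m.choose i : ℝ) * |C i| * (((n : ℝ) + 1) ^ (k + K i)
        * ‖iteratedFDeriv ℝ (m - i) (f n) z‖) := by rw [pow_add]; ring
    _ ≤ _ := mul_le_mul_of_nonneg_left h2 (by positivity)

theorem tm_rd_smul {f : ℕ → E → F} {g : ℕ → E → ℝ} (hf : TM f) (hg : RD g) :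
    RD (fun n z => g n z • f n z) := by
  refine ⟨smul_smooth hf.1 hg.1, fun m k => ?_⟩
  choose C K hC using hf.2
  choose C' hC' using hg.2
  refine ⟨∑ i ∈ Finset.range (m + 1), (m.choose i : ℝ) * |C (m - i)| * C' i (k + K (m - i)),
    fun n z => ?_⟩
  have hU : (0 : ℝ) ≤ ((n : ℝ) + 1) ^ k := by positivity
  refine (mul_le_mul_of_nonneg_left (leib (hf.1 n) (hg.1 n) m z) hU).trans ?_
  rw [Finset.mul_sum]
  apply Finset.sum_le_sum
  intro i _
  have h1 : ‖iteratedFDeriv ℝ (m - i) (f n) z‖ ≤ |C (m - i)| * ((n : ℝ) + 1) ^ K (m - i) :=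
    (hC (m - i) n z).trans (mul_le_mul_of_nonneg_right (le_abs_self _) (by positivity))
  have h2 := hC' i (k + K (m - i)) n z
  have h3 : (0 : ℝ) ≤ ‖iteratedFDeriv ℝ i (g n) z‖ := norm_nonneg _
  calc ((n : ℝ) + 1) ^ k * ((m.choose i : ℝ) * ‖iteratedFDeriv ℝ i (g n) z‖
        * ‖iteratedFDeriv ℝ (m - i) (f n) z‖)
      ≤ ((n : ℝ) + 1) ^ k * ((m.choose i : ℝ) * ‖iteratedFDeriv ℝ i (g n) z‖
        * (|C (m - i)| * ((n : ℝ) + 1) ^ K (m - i))) := by gcongr
    _ = (m.choose i : ℝ) * |C (m - i)| * (((n : ℝ) + 1) ^ (k + K (m - i))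
        * ‖iteratedFDeriv ℝ i (g n) z‖) := by rw [pow_add]; ring
    _ ≤ _ := mul_le_mul_of_nonneg_left h2 (by positivity)

theorem tm_tm_smul {f : ℕ → E → F} {g : ℕ → E → ℝ} (hf : TM f) (hg : TM g) :
    TM (fun n z => g n z • f n z) := by
  refine ⟨smul_smooth hf.1 hg.1, fun m => ?_⟩
  choose C K hC using hf.2
  choose C' K' hC' using hg.2
  refine ⟨∑ i ∈ Finset.range (m + 1), (m.choose i : ℝ) * |C' i| * |C (m - i)|,
    ∑ i ∈ Finset.range (m + 1), (K' i + K (m - i)), fun n z => ?_⟩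
  refine (leib (hf.1 n) (hg.1 n) m z).trans ?_
  rw [Finset.sum_mul]
  apply Finset.sum_le_sum
  intro i hi
  have h1 : ‖iteratedFDeriv ℝ (m - i) (f n) z‖ ≤ |C (m - i)| * ((n : ℝ) + 1) ^ K (m - i) :=
    (hC (m - i) n z).trans (mul_le_mul_of_nonneg_right (le_abs_self _) (by positivity))
  have h2 : ‖iteratedFDeriv ℝ i (g n) z‖ ≤ |C' i| * ((n : ℝ) + 1) ^ K' i :=
    (hC' i n z).trans (mul_le_mul_of_nonneg_right (le_abs_self _) (by positivity))
  have h3 : K' i + K (m - i) ≤ ∑ i ∈ Finset.range (m + 1), (K' i + K (m - i)) :=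
    Finset.single_le_sum (f := fun i => K' i + K (m - i)) (fun _ _ => Nat.zero_le _) hi
  have h4 : ((n : ℝ) + 1) ^ (K' i + K (m - i))
      ≤ ((n : ℝ) + 1) ^ (∑ i ∈ Finset.range (m + 1), (K' i + K (m - i))) :=
    pow_le_pow_right₀ (one_le n) h3
  calc (m.choose i : ℝ) * ‖iteratedFDeriv ℝ i (g n) z‖ * ‖iteratedFDeriv ℝ (m - i) (f n) z‖
      ≤ (m.choose i : ℝ) * (|C' i| * ((n : ℝ) + 1) ^ K' i)
        * (|C (m - i)| * ((n : ℝ) + 1) ^ K (m - i)) := by gcongr
    _ = (m.choose i : ℝ) * |C' i| * |C (m - i)| * ((n : ℝ) + 1) ^ (K' i + K (m - i)) := by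
        rw [pow_add]; ring
    _ ≤ _ := mul_le_mul_of_nonneg_left h4 (by positivity)

end A1

/-- A1 -/
theorem prfA1 : claimA1 := by
  intro E F _ _ _ _ f g
  exact ⟨fun hf hg => A1.rd_tm_smul hf hg, fun hf hg => A1.tm_tm_smul hf hg,
    fun hf hg => A1.tm_rd_smul hf hg, fun hf g' hg' => A1.rd_add hf hg', fun hf => A1.rd_tm hf⟩

end Pool.Agent.Work.MP_b0497c_an.Forced.S

end

section

set_option autoImplicit false

/-!
# Part II, item A2: composition with continuous linear maps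
-/

open scoped ContDiff
open Set Filter Topology MeasureTheory

namespace Pool.Agent.Work.MP_b0497c_an.Forced.S

namespace A2

/-- Derivatives of a composition with continuous linear maps on both sides. -/
theorem norm_comp_le {E E' F F' : Type} [NormedAddCommGroup E] [NormedSpace ℝ E]
    [NormedAddCommGroup E'] [NormedSpace ℝ E'] [NormedAddCommGroup F'] [NormedSpace ℝ F']
    [NormedAddCommGroup F] [NormedSpace ℝ F] (f : E → F) (L : E' →L[ℝ] E) (M : F →L[ℝ] F')
    (hf : ContDiff ℝ ∞ f) (m : ℕ) (z : E') :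
    ‖iteratedFDeriv ℝ m (fun z => M (f (L z))) z‖ ≤
      ‖M‖ * ‖L‖ ^ m * ‖iteratedFDeriv ℝ m f (L z)‖ := by
  have hm : ((m : ℕ) : WithTop ℕ∞) ≤ ((⊤ : ℕ∞) : WithTop ℕ∞) := by exact_mod_cast le_top
  have h1 : ‖iteratedFDeriv ℝ m (M ∘ (f ∘ L)) z‖ ≤ ‖M‖ * ‖iteratedFDeriv ℝ m (f ∘ L) z‖ :=
    M.norm_iteratedFDeriv_comp_left (hf.comp L.contDiff).contDiffAt hm
  have h2 : ‖iteratedFDeriv ℝ m (f ∘ L) z‖ ≤ ‖iteratedFDeriv ℝ m f (L z)‖ * ‖L‖ ^ m := by
    rw [L.iteratedFDeriv_comp_right hf z hm]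
    refine (ContinuousMultilinearMap.norm_compContinuousLinearMap_le _ _).trans ?_
    simp
  have h3 : ‖M‖ * ‖iteratedFDeriv ℝ m (f ∘ L) z‖
      ≤ ‖M‖ * (‖iteratedFDeriv ℝ m f (L z)‖ * ‖L‖ ^ m) :=
    mul_le_mul_of_nonneg_left h2 (norm_nonneg _)
  calc ‖iteratedFDeriv ℝ m (fun z => M (f (L z))) z‖
      ≤ ‖M‖ * (‖iteratedFDeriv ℝ m f (L z)‖ * ‖L‖ ^ m) := h1.trans h3
    _ = ‖M‖ * ‖L‖ ^ m * ‖iteratedFDeriv ℝ m f (L z)‖ := by ring

end A2

theorem prfA2 : claimA2 := by
  intro E E' F F' _ _ _ _ _ _ _ _ f L M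
  refine ⟨fun hf => ?_, fun hf => ?_, fun g hg hb => ?_⟩
  · refine ⟨fun n => M.contDiff.comp ((hf.1 n).comp L.contDiff), fun m k => ?_⟩
    obtain ⟨C, hC⟩ := hf.2 m k
    refine ⟨‖M‖ * ‖L‖ ^ m * C, fun n z => ?_⟩
    have h := A2.norm_comp_le (f n) L M (hf.1 n) m z
    have hn : (0 : ℝ) ≤ ((n : ℝ) + 1) ^ k := by positivity
    calc ((n : ℝ) + 1) ^ k * ‖iteratedFDeriv ℝ m (fun z => M (f n (L z))) z‖
        ≤ ((n : ℝ) + 1) ^ k * (‖M‖ * ‖L‖ ^ m * ‖iteratedFDeriv ℝ m (f n) (L z)‖) :=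
          mul_le_mul_of_nonneg_left h hn
      _ = ‖M‖ * ‖L‖ ^ m * (((n : ℝ) + 1) ^ k * ‖iteratedFDeriv ℝ m (f n) (L z)‖) := by ring
      _ ≤ ‖M‖ * ‖L‖ ^ m * C := mul_le_mul_of_nonneg_left (hC n (L z)) (by positivity)
  · refine ⟨fun n => M.contDiff.comp ((hf.1 n).comp L.contDiff), fun m => ?_⟩
    obtain ⟨C, k, hC⟩ := hf.2 m
    refine ⟨‖M‖ * ‖L‖ ^ m * C, k, fun n z => ?_⟩
    have h := A2.norm_comp_le (f n) L M (hf.1 n) m z
    calc ‖iteratedFDeriv ℝ m (fun z => M (f n (L z))) z‖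
        ≤ ‖M‖ * ‖L‖ ^ m * ‖iteratedFDeriv ℝ m (f n) (L z)‖ := h
      _ ≤ ‖M‖ * ‖L‖ ^ m * (C * ((n : ℝ) + 1) ^ k) :=
          mul_le_mul_of_nonneg_left (hC n (L z)) (by positivity)
      _ = ‖M‖ * ‖L‖ ^ m * C * ((n : ℝ) + 1) ^ k := by ring
  · refine ⟨fun _ => hg, fun m => ?_⟩
    obtain ⟨C, hC⟩ := hb m
    exact ⟨C, 0, fun n z => by simpa using hC z⟩

end Pool.Agent.Work.MP_b0497c_an.Forced.S

end

section

set_option autoImplicit false

/-!
# Theorem S', items A3 and A4: sums of rapidly decreasing families, periodic functions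
-/

open scoped ContDiff
open Set Filter Topology MeasureTheory

namespace Pool.Agent.Work.MP_b0497c_an.Forced.S

namespace A3

/-- the summable majorants -/
theorem summ (C : ℝ) : Summable (fun n : ℕ => C / ((n : ℝ) + 1) ^ 2) := by
  have h : Summable (fun n : ℕ => 1 / ((n : ℝ) + 1) ^ 2) := by
    have h0 : Summable (fun n : ℕ => 1 / (n : ℝ) ^ 2) := Real.summable_one_div_nat_pow.2 one_lt_two
    have h1 := (summable_nat_add_iff (f := fun n : ℕ => 1 / (n : ℝ) ^ 2) 1).2 h0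
    refine h1.congr fun n => ?_
    push_cast
    rfl
  refine (h.mul_left C).congr fun n => ?_
  rw [mul_one_div]

theorem maj {E F : Type} [NormedAddCommGroup E] [NormedSpace ℝ E] [NormedAddCommGroup F]
    [NormedSpace ℝ F] {f : ℕ → E → F} (hf : RD f) (m : ℕ) : ∃ v : ℕ → ℝ, Summable v ∧
      ∀ n z, ‖iteratedFDeriv ℝ m (f n) z‖ ≤ v n := by
  obtain ⟨C, hC⟩ := hf.2 m 2
  refine ⟨fun n => C / ((n : ℝ) + 1) ^ 2, summ C, fun n z => ?_⟩
  rw [le_div_iff₀ (by positivity), mul_comm]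
  exact hC n z

theorem per {F : Type} [NormedAddCommGroup F] [NormedSpace ℝ F] {g : ℝ → F} (hg : Per g) (m : ℕ)
    (x : ℝ) : iteratedFDeriv ℝ m g (x + 2 * Real.pi) = iteratedFDeriv ℝ m g x := by
  have h := iteratedFDeriv_comp_add_right (𝕜 := ℝ) (f := g) m (2 * Real.pi) x
  rw [← h]
  congr 1
  funext y
  exact hg y

end A3

theorem prfA3 : claimA3 := by
  intro E F _ _ _ _ _ f hf
  choose v hv hb using A3.maj hf
  have b0 : ∀ n z, ‖f n z‖ ≤ v 0 n := fun n z => by
    have h := hb 0 n z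
    rwa [norm_iteratedFDeriv_zero] at h
  have b1 : ∀ n z, ‖fderiv ℝ (f n) z‖ ≤ v 1 n := fun n z => by
    have h := hb 1 n z
    rwa [norm_iteratedFDeriv_one] at h
  refine ⟨fun z => ?_, fun z => ?_, ⟨v 0, hv 0, b0⟩, ?_, fun z => ?_⟩
  · exact Summable.of_nonneg_of_le (fun n => norm_nonneg _) (fun n => b0 n z) (hv 0)
  · exact Summable.of_nonneg_of_le (fun n => norm_nonneg _) (fun n => b1 n z) (hv 1)
  · exact contDiff_tsum (N := ⊤) (v := v) (fun n => hf.1 n) (fun k _ => hv k)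
      (fun k i x _ => hb k i x)
  · refine hasFDerivAt_tsum (hv 1) (fun n x => ?_) b1 (x₀ := z) ?_ z
    · exact ((hf.1 n).differentiable (by norm_num) x).hasFDerivAt
    · exact (Summable.of_nonneg_of_le (fun n => norm_nonneg _) (fun n => b0 n z) (hv 0)).of_norm

theorem prfA4 : claimA4 := by
  intro F _ _ g hs hg m
  have hcont : Continuous (fun x => ‖iteratedFDeriv ℝ m g x‖) :=
    (hs.continuous_iteratedFDeriv (by exact_mod_cast le_top)).norm
  have hper : Function.Periodic (fun x => ‖iteratedFDeriv ℝ m g x‖) (2 * Real.pi) := by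
    intro x
    show ‖iteratedFDeriv ℝ m g (x + 2 * Real.pi)‖ = ‖iteratedFDeriv ℝ m g x‖
    rw [A3.per hg m x]
  obtain ⟨C, hC⟩ := (isCompact_Icc (a := (0 : ℝ)) (b := 2 * Real.pi)).exists_bound_of_continuousOn
    hcont.continuousOn
  refine ⟨C, fun x => ?_⟩
  obtain ⟨y, hy, hxy⟩ := hper.exists_mem_Ico₀ Real.two_pi_pos x
  have h1 := hC y ⟨hy.1, hy.2.le⟩
  rw [norm_norm] at h1
  have h2 : ‖iteratedFDeriv ℝ m g x‖ = ‖iteratedFDeriv ℝ m g y‖ := hxy
  rw [h2]
  exact h1

end Pool.Agent.Work.MP_b0497c_an.Forced.S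

end

section

set_option autoImplicit false

/-!
# Theorem S': item B1, slowly decreasing multipliers
-/

open scoped ContDiff
open Set Filter Topology MeasureTheory

namespace Pool.Agent.Work.MP_b0497c_an.Forced.S

namespace B1

theorem geo_bound (k : ℕ) : ∃ C : ℝ, ∀ n : ℕ, ((n : ℝ) + 1) ^ k * (1 / 2 : ℝ) ^ n ≤ C := by
  have h1 := tendsto_pow_const_mul_const_pow_of_abs_lt_one k (r := (1 / 2 : ℝ))
    (by rw [abs_of_pos] <;> norm_num)
  obtain ⟨C, hC⟩ := h1.bddAbove_range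
  refine ⟨2 * C, fun n => ?_⟩
  have h2 : ((n + 1 : ℕ) : ℝ) ^ k * (1 / 2 : ℝ) ^ (n + 1) ≤ C := hC ⟨n + 1, rfl⟩
  have h3 : ((n : ℝ) + 1) ^ k * (1 / 2 : ℝ) ^ n =
      2 * (((n + 1 : ℕ) : ℝ) ^ k * (1 / 2 : ℝ) ^ (n + 1)) := by
    push_cast
    rw [pow_succ (1 / 2 : ℝ) n]
    ring
  rw [h3]
  linarith

end B1

theorem prfB1 : claimB1 := by
  intro A hA0 hA
  choose c hc using hA
  have hc0 : ∀ i m, 0 ≤ c i m := fun i m =>
    (mul_nonneg (by positivity) (hA0 i 0)).trans (hc i m 0)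
  let B : ℕ → ℕ → ℝ := fun l n => ((n : ℝ) + 1) ^ l * ∑ i ∈ Finset.range (l + 1), A i n
  let Cc : ℕ → ℕ → ℝ := fun l k => ∑ i ∈ Finset.range (l + 1), c i (k + l)
  have hB0 : ∀ l n, 0 ≤ B l n := fun l n =>
    mul_nonneg (by positivity) (Finset.sum_nonneg fun i _ => hA0 i n)
  have hC0 : ∀ l k, 0 ≤ Cc l k := fun l k => Finset.sum_nonneg fun i _ => hc0 i _
  have hBC : ∀ l k n : ℕ, ((n : ℝ) + 1) ^ k * B l n ≤ Cc l k := by
    intro l k n
    have h1 : ((n : ℝ) + 1) ^ k * B l n =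
        ∑ i ∈ Finset.range (l + 1), ((n : ℝ) + 1) ^ (k + l) * A i n := by
      show ((n : ℝ) + 1) ^ k * (((n : ℝ) + 1) ^ l * ∑ i ∈ Finset.range (l + 1), A i n) = _
      rw [← mul_assoc, ← pow_add, Finset.mul_sum]
    rw [h1]
    exact Finset.sum_le_sum fun i _ => hc i (k + l) n
  let S : ℕ → ℝ := fun l => 1 + ∑ k ∈ Finset.range (l + 1), Cc l k
  have hS : ∀ l, 1 ≤ S l := fun l => by
    have : 0 ≤ ∑ k ∈ Finset.range (l + 1), Cc l k := Finset.sum_nonneg fun k _ => hC0 l k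
    show 1 ≤ 1 + ∑ k ∈ Finset.range (l + 1), Cc l k
    linarith
  have hS0 : ∀ l, 0 < S l := fun l => by linarith [hS l]
  let ep : ℕ → ℝ := fun l => (1 / 2 : ℝ) ^ l / S l
  have hep : ∀ l, 0 < ep l := fun l => div_pos (by positivity) (hS0 l)
  have hle : ∀ l k, k ≤ l → ep l * Cc l k ≤ (1 / 2 : ℝ) ^ l := by
    intro l k hk
    have h1 : Cc l k ≤ S l := by
      have h2 : Cc l k ≤ ∑ k ∈ Finset.range (l + 1), Cc l k :=
        Finset.single_le_sum (f := fun k => Cc l k) (fun k _ => hC0 l k)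
          (Finset.mem_range.mpr (by omega))
      show Cc l k ≤ 1 + ∑ k ∈ Finset.range (l + 1), Cc l k
      linarith
    show (1 / 2 : ℝ) ^ l / S l * Cc l k ≤ (1 / 2 : ℝ) ^ l
    rw [div_mul_eq_mul_div, div_le_iff₀ (hS0 l)]
    exact mul_le_mul_of_nonneg_left h1 (by positivity)
  have hgeo : Summable fun l : ℕ => (1 / 2 : ℝ) ^ l :=
    summable_geometric_of_lt_one (by norm_num) (by norm_num)
  have hsum : ∀ n, Summable fun l => ep l * B l n := by
    intro n
    refine Summable.of_nonneg_of_le (fun l => mul_nonneg (hep l).le (hB0 l n)) (fun l => ?_) hgeo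
    have h1 := hBC l 0 n
    rw [pow_zero, one_mul] at h1
    exact (mul_le_mul_of_nonneg_left h1 (hep l).le).trans (hle l 0 (Nat.zero_le l))
  have htn : ∀ n, 0 ≤ ∑' l, ep l * B l n := fun n =>
    tsum_nonneg fun l => mul_nonneg (hep l).le (hB0 l n)
  refine ⟨fun n => (1 / 2 : ℝ) ^ n + ∑' l, ep l * B l n, fun n => ?_, fun k => ?_, fun j k => ?_⟩
  · have := htn n
    positivity
  · obtain ⟨C0, hC0'⟩ := B1.geo_bound k
    have hD : Summable fun l => ep l * Cc l k := by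
      have h1 : Summable fun l => (1 / 2 : ℝ) ^ l + if l < k then ep l * Cc l k else 0 := by
        refine hgeo.add (summable_of_ne_finset_zero (s := Finset.range k) fun l hl => ?_)
        rw [Finset.mem_range] at hl
        rw [if_neg hl]
      refine Summable.of_nonneg_of_le (fun l => mul_nonneg (hep l).le (hC0 l k)) (fun l => ?_) h1
      by_cases hl : l < k
      · rw [if_pos hl]
        have : (0 : ℝ) ≤ (1 / 2 : ℝ) ^ l := by positivity
        linarith
      · rw [if_neg hl, add_zero]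
        exact hle l k (by omega)
    refine ⟨C0 + ∑' l, ep l * Cc l k, fun n => ?_⟩
    rw [mul_add]
    refine add_le_add (hC0' n) ?_
    rw [← tsum_mul_left]
    have hterm : ∀ l, ((n : ℝ) + 1) ^ k * (ep l * B l n) ≤ ep l * Cc l k := by
      intro l
      have h1 := mul_le_mul_of_nonneg_left (hBC l k n) (hep l).le
      calc ((n : ℝ) + 1) ^ k * (ep l * B l n) = ep l * (((n : ℝ) + 1) ^ k * B l n) := by ring
        _ ≤ ep l * Cc l k := h1
    exact ((hsum n).mul_left _).tsum_le_tsum hterm hD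
  · set l := max j k with hl
    refine ⟨1 / ep l, fun n => ?_⟩
    have h1 : ((n : ℝ) + 1) ^ k * A j n ≤ B l n := by
      have h2 : ((n : ℝ) + 1) ^ k ≤ ((n : ℝ) + 1) ^ l :=
        pow_le_pow_right₀ (by linarith [(Nat.cast_nonneg n : (0 : ℝ) ≤ n)]) (le_max_right j k)
      have h3 : A j n ≤ ∑ i ∈ Finset.range (l + 1), A i n :=
        Finset.single_le_sum (f := fun i => A i n) (fun i _ => hA0 i n)
          (Finset.mem_range.mpr (by have := le_max_left j k; omega))
      exact mul_le_mul h2 h3 (hA0 j n) (by positivity)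
    have h4 : ep l * B l n ≤ ∑' l, ep l * B l n :=
      (hsum n).le_tsum l fun i _ => mul_nonneg (hep i).le (hB0 i n)
    have h5 : ep l * B l n ≤ (1 / 2 : ℝ) ^ n + ∑' l, ep l * B l n := by
      have : (0 : ℝ) ≤ (1 / 2 : ℝ) ^ n := by positivity
      linarith
    have h6 : B l n = 1 / ep l * (ep l * B l n) := by
      rw [← mul_assoc, one_div_mul_cancel (hep l).ne', one_mul]
    calc ((n : ℝ) + 1) ^ k * A j n ≤ B l n := h1
      _ = 1 / ep l * (ep l * B l n) := h6
      _ ≤ 1 / ep l * ((1 / 2 : ℝ) ^ n + ∑' l, ep l * B l n) :=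
        mul_le_mul_of_nonneg_left h5 (by have := hep l; positivity)

end Pool.Agent.Work.MP_b0497c_an.Forced.S

end

section

set_option autoImplicit false

/-!
# B4: convolution with an even kernel is diagonal in the trigonometric system
-/

open scoped ContDiff
open Set Filter Topology MeasureTheory

namespace Pool.Agent.Work.MP_b0497c_an.Forced.S

namespace B4

lemma summable_pow (beta : ℕ → ℝ)
    (h : ∀ k : ℕ, ∃ C : ℝ, ∀ n : ℕ, ((n : ℝ) + 1) ^ k * |beta n| ≤ C) (m : ℕ) :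
    Summable (fun l : ℕ => |beta l| * (l : ℝ) ^ m) := by
  obtain ⟨C, hC⟩ := h (m + 2)
  have hs : Summable (fun n : ℕ => C * (1 / (((n + 1 : ℕ) : ℝ)) ^ 2)) :=
    ((summable_nat_add_iff 1).2 (Real.summable_one_div_nat_pow.2 one_lt_two)).mul_left C
  refine Summable.of_nonneg_of_le (fun l => by positivity) (fun l => ?_) hs
  have h1 := hC l
  have hp : (0:ℝ) < (l:ℝ) + 1 := by positivity
  have h2 : |beta l| * (l:ℝ) ^ m ≤ |beta l| * ((l:ℝ) + 1) ^ m := by
    gcongr
    linarith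
  refine h2.trans ?_
  rw [mul_one_div, le_div_iff₀ (by positivity)]
  push_cast
  calc |beta l| * ((l:ℝ) + 1) ^ m * ((l:ℝ) + 1) ^ 2 = ((l:ℝ) + 1) ^ (m + 2) * |beta l| := by ring
    _ ≤ C := h1

lemma bound (b : ℝ) (l m : ℕ) (t : ℝ) :
    ‖iteratedFDeriv ℝ m (fun t => b * Real.cos (l * t)) t‖ ≤ |b| * (l : ℝ) ^ m := by
  rw [norm_iteratedFDeriv_eq_norm_iteratedDeriv]
  have h1 : iteratedDeriv m (fun t => b * Real.cos (l * t)) t
      = b * ((l : ℝ) ^ m * iteratedDeriv m Real.cos (l * t)) := by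
    rw [iteratedDeriv_const_mul_field]
    rw [iteratedDeriv_comp_const_mul (Real.contDiff_cos)]
  rw [h1, norm_mul, norm_mul, Real.norm_eq_abs]
  have h2 : ‖iteratedDeriv m Real.cos (l * t)‖ ≤ 1 := Real.abs_iteratedDeriv_cos_le_one m _
  have h3 : ‖(l : ℝ) ^ m‖ = (l : ℝ) ^ m := by
    rw [Real.norm_eq_abs, abs_of_nonneg (by positivity)]
  rw [h3]
  gcongr
  exact mul_le_of_le_one_right (by positivity) h2

lemma smooth_term (b : ℝ) (l : ℕ) : ContDiff ℝ ∞ (fun t => b * Real.cos (l * t)) :=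
  contDiff_const.mul (Real.contDiff_cos.comp (contDiff_const.mul contDiff_id))

lemma J (a : ℝ) (k : ℤ) (hk : k ≠ 0) : ∫ y in (0:ℝ)..(2 * Real.pi), Real.cos (a + k * y) = 0 := by
  have hk' : (k : ℝ) ≠ 0 := by exact_mod_cast hk
  have h : ∀ y ∈ Set.uIcc (0:ℝ) (2 * Real.pi),
      HasDerivAt (fun y => Real.sin (a + k * y) / k) (Real.cos (a + k * y)) y := by
    intro y _
    have h1 : HasDerivAt (fun y : ℝ => a + k * y) (k : ℝ) y := by
      simpa using ((hasDerivAt_id y).const_mul (k:ℝ)).const_add a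
    have h2 := (h1.sin).div_const (k : ℝ)
    rwa [mul_div_cancel_right₀ _ hk'] at h2
  rw [intervalIntegral.integral_eq_sub_of_hasDerivAt h
    ((Continuous.intervalIntegrable (by fun_prop) _ _))]
  have : Real.sin (a + k * (2 * Real.pi)) = Real.sin (a + k * 0) := by
    rw [Real.sin_add_int_mul_two_pi]; simp
  rw [this]
  ring

lemma G (l m : ℕ) (t φ : ℝ) :
    ∫ y in (0:ℝ)..(2 * Real.pi), Real.cos (l * (t - y)) * Real.cos (m * y + φ) =
      if l = m then (if m = 0 then 2 * Real.pi else Real.pi) * Real.cos (m * t + φ) else 0 := by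
  have e : ∀ y : ℝ, Real.cos (l * (t - y)) * Real.cos (m * y + φ) =
      (1 / 2) * Real.cos ((l * t + φ) + ((m - l : ℤ) : ℝ) * y)
        + (1 / 2) * Real.cos ((l * t - φ) + ((-(l + m) : ℤ) : ℝ) * y) := by
    intro y
    have h := Real.two_mul_cos_mul_cos (l * (t - y)) (m * y + φ)
    have h1 : (l * t + φ) + ((m - l : ℤ) : ℝ) * y = l * (t - y) + (m * y + φ) := by
      push_cast; ring
    have h2 : (l * t - φ) + ((-(l + m) : ℤ) : ℝ) * y = l * (t - y) - (m * y + φ) := by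
      push_cast; ring
    rw [h1, h2]
    linarith
  simp_rw [e]
  rw [intervalIntegral.integral_add (Continuous.intervalIntegrable (by fun_prop) _ _)
    (Continuous.intervalIntegrable (by fun_prop) _ _), intervalIntegral.integral_const_mul,
    intervalIntegral.integral_const_mul]
  by_cases hlm : l = m
  · subst hlm
    by_cases hl : l = 0
    · subst hl
      simp
      ring
    · rw [J (l * t - φ) (-(l + l)) (by omega)]
      simp [hl]
      ring
  · rw [J (l * t - φ) (-(l + m)) (by omega), J (l * t + φ) (m - l) (by omega)]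
    simp [hlm]

lemma tau_eq (n : ℕ) : ∃ φ : ℝ, ∀ y, tau n y = Real.cos (((n + 1) / 2 : ℕ) * y + φ) := by
  by_cases h : Even n
  · refine ⟨0, fun y => ?_⟩
    have : (n + 1) / 2 = n / 2 := by
      obtain ⟨k, hk⟩ := h; omega
    simp [tau, h, this]
  · refine ⟨-(Real.pi / 2), fun y => ?_⟩
    simp only [tau, h, if_false]
    rw [← sub_eq_add_neg, Real.cos_sub_pi_div_two]

lemma tau_abs (n : ℕ) (y : ℝ) : |tau n y| ≤ 1 := by
  obtain ⟨φ, h⟩ := tau_eq n
  rw [h]
  exact Real.abs_cos_le_one _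

lemma tau_cont (n : ℕ) : Continuous (tau n) := by
  obtain ⟨φ, h⟩ := tau_eq n
  have : tau n = fun y => Real.cos (((n + 1) / 2 : ℕ) * y + φ) := funext h
  rw [this]
  fun_prop

lemma term (n l : ℕ) (t : ℝ) :
    ∫ y in (0:ℝ)..(2 * Real.pi), Real.cos (l * (t - y)) * tau n y =
      if l = (n + 1) / 2 then (if n = 0 then 2 * Real.pi else Real.pi) * tau n t else 0 := by
  obtain ⟨φ, h⟩ := tau_eq n
  simp_rw [h]
  rw [G]
  have : ((n + 1) / 2 = 0) ↔ (n = 0) := by omega
  simp [this]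

end B4

open B4 in
theorem prfB4 : claimB4 := by
  intro beta hb
  have hs := summable_pow beta hb
  have hs0 : Summable (fun l : ℕ => |beta l|) := by simpa using hs 0
  refine ⟨?_, ?_, ?_⟩
  · refine contDiff_tsum (N := ⊤) (v := fun m l => |beta l| * (l : ℝ) ^ m)
      (fun l => smooth_term _ _) (fun k _ => hs k) (fun k l t _ => bound _ _ _ _)
  · intro t
    refine tsum_congr fun l => ?_
    have : (l : ℝ) * (t + 2 * Real.pi) = l * t + l * (2 * Real.pi) := by ring
    rw [this, Real.cos_add_nat_mul_two_pi]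
  · intro n t
    have hsum : HasSum (fun l : ℕ => ∫ y in (0:ℝ)..(2 * Real.pi),
        beta l * Real.cos (l * (t - y)) * tau n y)
        (∫ y in (0:ℝ)..(2 * Real.pi), (∑' l : ℕ, beta l * Real.cos (l * (t - y))) * tau n y) := by
      refine intervalIntegral.hasSum_integral_of_dominated_convergence (fun l _ => |beta l|)
        (fun l => ?_) (fun l => ?_) ?_ ?_ ?_
      · refine Continuous.aestronglyMeasurable ?_
        have := tau_cont n
        fun_prop
      · refine Filter.Eventually.of_forall fun y _ => ?_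
        rw [norm_mul, norm_mul, Real.norm_eq_abs, Real.norm_eq_abs, Real.norm_eq_abs]
        calc |beta l| * |Real.cos (l * (t - y))| * |tau n y| ≤ |beta l| * 1 * 1 := by
              gcongr
              · exact Real.abs_cos_le_one _
              · exact tau_abs n y
          _ = |beta l| := by ring
      · exact Filter.Eventually.of_forall fun y _ => hs0
      · exact intervalIntegrable_const
      · refine Filter.Eventually.of_forall fun y _ => ?_
        refine HasSum.mul_right _ (Summable.hasSum ?_)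
        refine Summable.of_norm_bounded hs0 fun l => ?_
        rw [norm_mul, Real.norm_eq_abs, Real.norm_eq_abs]
        exact mul_le_of_le_one_right (abs_nonneg _) (Real.abs_cos_le_one _)
    have hterm : ∀ l : ℕ, ∫ y in (0:ℝ)..(2 * Real.pi), beta l * Real.cos (l * (t - y)) * tau n y
        = if l = (n + 1) / 2 then
            (if n = 0 then 2 * Real.pi else Real.pi) * beta ((n + 1) / 2) * tau n t else 0 := by
      intro l
      simp_rw [mul_assoc]
      rw [intervalIntegral.integral_const_mul, term]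
      by_cases hl : l = (n + 1) / 2
      · subst hl
        simp
        ring
      · simp [hl]
    simp_rw [hterm] at hsum
    have h2 := hasSum_ite_eq ((n + 1) / 2)
      ((if n = 0 then 2 * Real.pi else Real.pi) * beta ((n + 1) / 2) * tau n t)
    exact hsum.unique h2

end Pool.Agent.Work.MP_b0497c_an.Forced.S

end

section

set_option autoImplicit false

/-!
# Theorem S', item C1: regularity and periodicity of the content
-/

open scoped ContDiff
open Set Filter Topology MeasureTheory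

namespace Pool.Agent.Work.MP_b0497c_an.Forced.S

namespace C1

theorem per_sub {g : ℝ → ℝ} (h : Per g) (t : ℝ) : g (t - 2 * Real.pi) = g t := by
  have := h (t - 2 * Real.pi)
  rw [← this]
  congr 1
  ring

/-- a single function with bounded derivatives composed with a linear map -/
theorem tm_comp (hA2 : claimA2) (hA4 : claimA4) {E : Type} [NormedAddCommGroup E]
    [NormedSpace ℝ E] {g : ℝ → ℝ} (hg : ContDiff ℝ ∞ g) (hp : Per g) (L : E →L[ℝ] ℝ) :
    TM (fun (_ : ℕ) (z : E) => g (L z)) := by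
  have h1 : TM (fun (_ : ℕ) => g) :=
    ((hA2 ℝ ℝ ℝ ℝ (fun _ => g) (ContinuousLinearMap.id ℝ ℝ) (ContinuousLinearMap.id ℝ ℝ)).2.2 g
      hg (hA4 ℝ g hg hp))
  have h2 := ((hA2 ℝ E ℝ ℝ (fun _ => g) L (ContinuousLinearMap.id ℝ ℝ)).2.1 h1)
  simpa using h2

theorem rd_comp (hA2 : claimA2) {E : Type} [NormedAddCommGroup E]
    [NormedSpace ℝ E] {g : ℕ → ℝ → ℝ} (hg : RD g) (L : E →L[ℝ] ℝ) :
    RD (fun (n : ℕ) (z : E) => g n (L z)) := by
  have h2 := ((hA2 ℝ E ℝ ℝ g L (ContinuousLinearMap.id ℝ ℝ)).1 hg)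
  simpa using h2

theorem rd_mul (hA1 : claimA1) {E : Type} [NormedAddCommGroup E]
    [NormedSpace ℝ E] {g f : ℕ → E → ℝ} (hg : TM g) (hf : RD f) :
    RD (fun (n : ℕ) (z : E) => g n z * f n z) := by
  have h := (hA1 E ℝ f g).1 hf hg
  simpa [smul_eq_mul] using h

/-- `cv r (Gam n)` is rapidly decreasing -/
theorem rd_cv (hA1 : claimA1) (hA2 : claimA2) (hA4 : claimA4) (hB6 : claimB6)
    {r : ℝ → ℝ} (hr : ContDiff ℝ ∞ r) (hrp : Per r) {G : ℕ → ℝ → ℝ} (hG : RD G) :
    RD (fun n => cv r (G n)) := by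
  have h1 : RD (fun (n : ℕ) (z : ℝ × ℝ) =>
      r ((ContinuousLinearMap.snd ℝ ℝ ℝ - ContinuousLinearMap.fst ℝ ℝ ℝ) z) *
        G n ((ContinuousLinearMap.fst ℝ ℝ ℝ) z)) :=
    rd_mul hA1 (tm_comp hA2 hA4 hr hrp _) (rd_comp hA2 hG _)
  have h2 := (hB6 ℝ ℝ _ 0 (2 * Real.pi) (by positivity)).2.1 h1
  exact h2

theorem smooth_cv (hB6 : claimB6) {r g : ℝ → ℝ} (hr : ContDiff ℝ ∞ r) (hg : ContDiff ℝ ∞ g) :
    ContDiff ℝ ∞ (cv r g) := by
  have h1 : ∀ n : ℕ, ContDiff ℝ ∞ ((fun (_ : ℕ) (z : ℝ × ℝ) => r (z.2 - z.1) * g z.1) n) :=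
    fun _ => (hr.comp (contDiff_snd.sub contDiff_fst)).mul (hg.comp contDiff_fst)
  exact (hB6 ℝ ℝ _ 0 (2 * Real.pi) (by positivity)).1 h1 0

theorem per_cv {r g : ℝ → ℝ} (hrp : Per r) : Per (cv r g) := by
  intro t
  unfold cv
  congr 1
  funext y
  rw [show t + 2 * Real.pi - y = (t - y) + 2 * Real.pi by ring, hrp]

end C1

open C1

theorem prfC1 (hA1 : claimA1) (hA2 : claimA2) (hA4 : claimA4) (hB6 : claimB6) : claimC1 := by
  intro r Phi Gam hr hrp hPhi hGam hPp hGp
  have hrr : ContDiff ℝ ∞ (cv r r) := smooth_cv hB6 hr hr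
  have hrrp : Per (cv r r) := per_cv hrp
  have hcvG : RD (fun n => cv r (Gam n)) := rd_cv hA1 hA2 hA4 hB6 hr hrp hGam
  -- `Om`
  have hOm : RD (fun n => Om r Phi Gam n) := by
    have h1 : RD (fun (n : ℕ) (z : ℝ × ℝ) => cv r r ((ContinuousLinearMap.fst ℝ ℝ ℝ) z) *
        Gam n ((ContinuousLinearMap.snd ℝ ℝ ℝ - ContinuousLinearMap.fst ℝ ℝ ℝ) z)) :=
      rd_mul hA1 (tm_comp hA2 hA4 hrr hrrp _) (rd_comp hA2 hGam _)
    have h2 := (hB6 ℝ ℝ _ 0 3 (by norm_num)).2.1 h1
    exact (hA1 ℝ ℝ Phi (fun _ _ => 0)).2.2.2.1 hPhi _ h2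
  have hOmp : ∀ n, Per (Om r Phi Gam n) := by
    intro n t
    unfold Om
    rw [hPp n t]
    congr 2
    funext s
    rw [show t + 2 * Real.pi - s = (t - s) + 2 * Real.pi by ring, hGp n]
  refine ⟨?_, ?_⟩
  · have k1 : RD (fun (n : ℕ) (z : ℝ × ℝ) => Om r Phi Gam n
        ((ContinuousLinearMap.fst ℝ ℝ ℝ - ContinuousLinearMap.snd ℝ ℝ ℝ) z)) :=
      rd_comp hA2 hOm _
    have k2 : RD (fun (n : ℕ) (z : ℝ × (ℝ × ℝ)) =>
        r ((ContinuousLinearMap.fst ℝ ℝ (ℝ × ℝ) -
          (ContinuousLinearMap.snd ℝ ℝ ℝ).comp (ContinuousLinearMap.snd ℝ ℝ (ℝ × ℝ))) z) *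
        cv r (Gam n) (((ContinuousLinearMap.fst ℝ ℝ ℝ).comp
          (ContinuousLinearMap.snd ℝ ℝ (ℝ × ℝ)) - ContinuousLinearMap.fst ℝ ℝ (ℝ × ℝ)) z)) :=
      rd_mul hA1 (tm_comp hA2 hA4 hr hrp _) (rd_comp hA2 hcvG _)
    have k3 := (hB6 (ℝ × ℝ) ℝ _ 0 3 (by norm_num)).2.1 k2
    have k4 := (hA2 (ℝ × ℝ) (ℝ × ℝ) ℝ ℝ _ (ContinuousLinearMap.id ℝ (ℝ × ℝ))
      (-ContinuousLinearMap.id ℝ ℝ)).1 k3
    have k5 := (hA1 (ℝ × ℝ) ℝ _ (fun _ _ => 0)).2.2.2.1 k1 _ k4
    have e : (fun n => Cn r Phi Gam n) = fun (n : ℕ) (z : ℝ × ℝ) =>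
        Om r Phi Gam n ((ContinuousLinearMap.fst ℝ ℝ ℝ - ContinuousLinearMap.snd ℝ ℝ ℝ) z) +
        (-ContinuousLinearMap.id ℝ ℝ) (∫ s in (0 : ℝ)..3,
          r ((ContinuousLinearMap.fst ℝ ℝ (ℝ × ℝ) -
          (ContinuousLinearMap.snd ℝ ℝ ℝ).comp (ContinuousLinearMap.snd ℝ ℝ (ℝ × ℝ))) (s, z)) *
        cv r (Gam n) (((ContinuousLinearMap.fst ℝ ℝ ℝ).comp
          (ContinuousLinearMap.snd ℝ ℝ (ℝ × ℝ)) - ContinuousLinearMap.fst ℝ ℝ (ℝ × ℝ)) (s, z))) := by
      funext n z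
      simp [Cn, sub_eq_add_neg]
    have k6 : RD (fun n => Cn r Phi Gam n) := by
      rw [e]
      exact k5
    exact k6
  · intro n t y
    unfold Cn
    simp only
    rw [show t - (y + 2 * Real.pi) = (t - y) - 2 * Real.pi by ring, per_sub (hOmp n)]
    congr 2
    funext s
    rw [show s - (y + 2 * Real.pi) = (s - y) - 2 * Real.pi by ring, per_sub hrp]

end Pool.Agent.Work.MP_b0497c_an.Forced.S

end

section

set_option autoImplicit false

/-!
# Theorem S', item C2: reading the content of a channel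
-/

open scoped ContDiff
open Set Filter Topology MeasureTheory

namespace Pool.Agent.Work.MP_b0497c_an.Forced.S

namespace C2

/-- Fubini for continuous functions on rectangles. -/
theorem swap (F : ℝ → ℝ → ℝ) (hF : Continuous F.uncurry) (a b c d : ℝ) :
    ∫ x in a..b, ∫ y in c..d, F x y = ∫ y in c..d, ∫ x in a..b, F x y := by
  apply intervalIntegral_intervalIntegral_swap
  have h1 : IntegrableOn F.uncurry (uIcc a b ×ˢ uIcc c d) :=
    hF.continuousOn.integrableOn_compact (isCompact_uIcc.prod isCompact_uIcc)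
  exact h1.mono_set (prod_mono uIoc_subset_uIcc uIoc_subset_uIcc)

theorem continuous_cv (r g : ℝ → ℝ) (hr : Continuous r) (hg : Continuous g) :
    Continuous (cv r g) := by
  have h : Continuous (Function.uncurry fun t y : ℝ => r (t - y) * g y) :=
    (hr.comp (continuous_fst.sub continuous_snd)).mul (hg.comp continuous_snd)
  exact intervalIntegral.continuous_parametric_intervalIntegral_of_continuous' h _ _

/-- Commutation of the periodic convolution. -/
theorem conv_comm (a g : ℝ → ℝ) (ha : Per a) (hg : Per g) (t : ℝ) :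
    ∫ y in (0 : ℝ)..(2 * Real.pi), a y * g (t - y) = cv a g t := by
  have h1 := intervalIntegral.integral_comp_sub_left (a := (0 : ℝ)) (b := 2 * Real.pi)
    (fun y => a (t - y) * g y) t
  have h2 : (fun y : ℝ => a (t - (t - y)) * g (t - y)) = fun y => a y * g (t - y) := by
    funext y
    rw [sub_sub_cancel]
  have h3 : Function.Periodic (fun y => a (t - y) * g y) (2 * Real.pi) := by
    intro y
    have e1 : a (t - (y + 2 * Real.pi)) = a (t - y) := by
      have := ha (t - (y + 2 * Real.pi))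
      rw [← this]
      congr 1
      ring
    show a (t - (y + 2 * Real.pi)) * g (y + 2 * Real.pi) = a (t - y) * g y
    rw [e1, hg y]
  have h4 := h3.intervalIntegral_add_eq (t - 2 * Real.pi) 0
  rw [sub_add_cancel, zero_add] at h4
  rw [sub_zero] at h1
  calc ∫ y in (0 : ℝ)..(2 * Real.pi), a y * g (t - y)
      = ∫ y in (0 : ℝ)..(2 * Real.pi), a (t - (t - y)) * g (t - y) := by rw [h2]
    _ = ∫ y in (t - 2 * Real.pi)..t, a (t - y) * g y := h1
    _ = ∫ y in (0 : ℝ)..(2 * Real.pi), a (t - y) * g y := h4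
    _ = cv a g t := rfl

end C2

theorem prfC2 : claimC2 := by
  intro r Phi Gam hr hrp _ hPhi hGam hPp hGp n t
  have hrc : Continuous r := hr.continuous
  have hPc : Continuous (Phi n) := (hPhi.1 n).continuous
  have hGc : Continuous (Gam n) := (hGam.1 n).continuous
  have hcr : Continuous (cv r r) := C2.continuous_cv r r hrc hrc
  have hcg : Continuous (cv r (Gam n)) := C2.continuous_cv r (Gam n) hrc hGc
  -- the three terms
  have hA : Continuous fun y : ℝ => r y * Phi n (t - y) :=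
    hrc.mul (hPc.comp (continuous_const.sub continuous_id))
  have hBu : Continuous (Function.uncurry fun y s : ℝ => cv r r s * Gam n (t - y - s)) :=
    (hcr.comp continuous_snd).mul
      (hGc.comp ((continuous_const.sub continuous_fst).sub continuous_snd))
  have hBi : Continuous fun y : ℝ => ∫ s in (0 : ℝ)..3, cv r r s * Gam n (t - y - s) :=
    intervalIntegral.continuous_parametric_intervalIntegral_of_continuous' hBu _ _
  have hCu : Continuous (Function.uncurry fun y s : ℝ => r (s - y) * cv r (Gam n) (t - s)) :=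
    (hrc.comp (continuous_snd.sub continuous_fst)).mul
      (hcg.comp (continuous_const.sub continuous_snd))
  have hCi : Continuous fun y : ℝ => ∫ s in (0 : ℝ)..3, r (s - y) * cv r (Gam n) (t - s) :=
    intervalIntegral.continuous_parametric_intervalIntegral_of_continuous' hCu _ _
  have e0 : ∀ y : ℝ, r y * Cn r Phi Gam n (t, y) = r y * Phi n (t - y)
      + r y * (∫ s in (0 : ℝ)..3, cv r r s * Gam n (t - y - s))
      - r y * ∫ s in (0 : ℝ)..3, r (s - y) * cv r (Gam n) (t - s) := by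
    intro y
    show r y * ((Phi n (t - y) + ∫ s in (0 : ℝ)..3, cv r r s * Gam n (t - y - s))
      - ∫ s in (0 : ℝ)..3, r (s - y) * cv r (Gam n) (t - s)) = _
    ring
  have e1 : ∫ y in (0 : ℝ)..(2 * Real.pi), r y * Cn r Phi Gam n (t, y) =
      (∫ y in (0 : ℝ)..(2 * Real.pi), r y * Phi n (t - y))
      + (∫ y in (0 : ℝ)..(2 * Real.pi), r y * ∫ s in (0 : ℝ)..3, cv r r s * Gam n (t - y - s))
      - ∫ y in (0 : ℝ)..(2 * Real.pi), r y *
          ∫ s in (0 : ℝ)..3, r (s - y) * cv r (Gam n) (t - s) := by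
    have hB : Continuous fun y : ℝ => r y * ∫ s in (0 : ℝ)..3, cv r r s * Gam n (t - y - s) :=
      hrc.mul hBi
    have hC : Continuous fun y : ℝ => r y * ∫ s in (0 : ℝ)..3, r (s - y) * cv r (Gam n) (t - s) :=
      hrc.mul hCi
    have hAB : Continuous fun y : ℝ => r y * Phi n (t - y)
        + r y * ∫ s in (0 : ℝ)..3, cv r r s * Gam n (t - y - s) := hA.add hB
    have s1 := intervalIntegral.integral_add (hA.intervalIntegrable (μ := volume) 0 (2 * Real.pi))
      (hB.intervalIntegrable (μ := volume) 0 (2 * Real.pi))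
    have s2 := intervalIntegral.integral_sub (hAB.intervalIntegrable (μ := volume) 0 (2 * Real.pi))
      (hC.intervalIntegrable (μ := volume) 0 (2 * Real.pi))
    rw [← s1, ← s2]
    exact intervalIntegral.integral_congr fun y _ => e0 y
  -- the second term
  have e2 : ∫ y in (0 : ℝ)..(2 * Real.pi), r y * (∫ s in (0 : ℝ)..3, cv r r s * Gam n (t - y - s))
      = ∫ s in (0 : ℝ)..3, cv r r s * cv r (Gam n) (t - s) := by
    have h1 : ∀ y : ℝ, r y * (∫ s in (0 : ℝ)..3, cv r r s * Gam n (t - y - s)) =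
        ∫ s in (0 : ℝ)..3, r y * (cv r r s * Gam n (t - y - s)) := fun y =>
      (intervalIntegral.integral_const_mul _ _).symm
    simp_rw [h1]
    have hF : Continuous (Function.uncurry fun y s : ℝ =>
        r y * (cv r r s * Gam n (t - y - s))) := (hrc.comp continuous_fst).mul hBu
    rw [C2.swap _ hF]
    refine intervalIntegral.integral_congr fun s _ => ?_
    show ∫ y in (0 : ℝ)..(2 * Real.pi), r y * (cv r r s * Gam n (t - y - s)) =
      cv r r s * cv r (Gam n) (t - s)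
    rw [← C2.conv_comm r (Gam n) hrp (hGp n) (t - s), ← intervalIntegral.integral_const_mul]
    refine intervalIntegral.integral_congr fun y _ => ?_
    show r y * (cv r r s * Gam n (t - y - s)) = cv r r s * (r y * Gam n (t - s - y))
    have : t - y - s = t - s - y := by ring
    rw [this]
    ring
  -- the third term
  have e3 : ∫ y in (0 : ℝ)..(2 * Real.pi), r y *
        (∫ s in (0 : ℝ)..3, r (s - y) * cv r (Gam n) (t - s))
      = ∫ s in (0 : ℝ)..3, cv r r s * cv r (Gam n) (t - s) := by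
    have h1 : ∀ y : ℝ, r y * (∫ s in (0 : ℝ)..3, r (s - y) * cv r (Gam n) (t - s)) =
        ∫ s in (0 : ℝ)..3, r y * (r (s - y) * cv r (Gam n) (t - s)) := fun y =>
      (intervalIntegral.integral_const_mul _ _).symm
    simp_rw [h1]
    have hF : Continuous (Function.uncurry fun y s : ℝ =>
        r y * (r (s - y) * cv r (Gam n) (t - s))) := (hrc.comp continuous_fst).mul hCu
    rw [C2.swap _ hF]
    refine intervalIntegral.integral_congr fun s _ => ?_
    show ∫ y in (0 : ℝ)..(2 * Real.pi), r y * (r (s - y) * cv r (Gam n) (t - s)) =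
      cv r r s * cv r (Gam n) (t - s)
    rw [← C2.conv_comm r r hrp hrp s, ← intervalIntegral.integral_mul_const]
    refine intervalIntegral.integral_congr fun y _ => ?_
    show r y * (r (s - y) * cv r (Gam n) (t - s)) = r y * r (s - y) * cv r (Gam n) (t - s)
    ring
  rw [e1, e2, e3, C2.conv_comm r (Phi n) hrp (hPp n) t]
  ring

end Pool.Agent.Work.MP_b0497c_an.Forced.S

end

section

set_option autoImplicit false

/-!
# Item C3: the transport equation for the content of a channel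
-/

open scoped ContDiff
open Set Filter Topology MeasureTheory

namespace Pool.Agent.Work.MP_b0497c_an.Forced.S

namespace C3

/-- `cv r g` is smooth. -/
theorem cv_smooth (hB6 : claimB6) (r g : ℝ → ℝ) (hr : ContDiff ℝ ∞ r) (hg : ContDiff ℝ ∞ g) :
    ContDiff ℝ ∞ (cv r g) := by
  have h := (hB6 ℝ ℝ (fun _ z => r (z.2 - z.1) * g z.1) 0 (2 * Real.pi) (by positivity)).1
    (fun _ => by fun_prop) 0
  exact h

theorem om_smooth (hB6 : claimB6) (r : ℝ → ℝ) (Phi Gam : ℕ → ℝ → ℝ) (hr : ContDiff ℝ ∞ r)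
    (hP : RD Phi) (hG : RD Gam) (n : ℕ) : ContDiff ℝ ∞ (Om r Phi Gam n) := by
  have hc := cv_smooth hB6 r r hr hr
  have hGn := hG.1 n
  have hPn := hP.1 n
  have h := (hB6 ℝ ℝ (fun _ z => cv r r z.1 * Gam n (z.2 - z.1)) 0 3 (by norm_num)).1
    (fun _ => by fun_prop) 0
  have h2 : ContDiff ℝ ∞ (fun z => Phi n z + ∫ s in (0 : ℝ)..3, cv r r s * Gam n (z - s)) :=
    hPn.add h
  exact h2

theorem q_smooth (hB6 : claimB6) (r : ℝ → ℝ) (g : ℝ → ℝ) (hr : ContDiff ℝ ∞ r)
    (hg : ContDiff ℝ ∞ g) :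
    ContDiff ℝ ∞ (fun z : ℝ × ℝ => ∫ s in (0 : ℝ)..3, r (s - z.2) * g (z.1 - s)) := by
  have h := (hB6 (ℝ × ℝ) ℝ (fun _ z => r (z.1 - z.2.2) * g (z.2.1 - z.1)) 0 3 (by norm_num)).1
    (fun _ => by fun_prop) 0
  exact h

/-- The derivative of `Q` along `(1, 1)`. -/
theorem q_deriv (r g : ℝ → ℝ) (hr : Continuous r) (hg : Continuous g) (t y : ℝ) :
    HasDerivAt (fun τ => ∫ s in (0 : ℝ)..3, r (s - (y + τ)) * g (t + τ - s))
      (r (0 - y) * g (t - 0) - r (3 - y) * g (t - 3)) 0 := by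
  set H : ℝ → ℝ := fun s => r (s - y) * g (t - s) with hH
  have hHc : Continuous H := by fun_prop
  have e1 : (fun τ => ∫ s in (0 : ℝ)..3, r (s - (y + τ)) * g (t + τ - s)) =
      fun τ => (∫ s in (0 : ℝ)..(3 - τ), H s) - ∫ s in (0 : ℝ)..(0 - τ), H s := by
    funext τ
    have h1 : (∫ s in (0 : ℝ)..3, r (s - (y + τ)) * g (t + τ - s)) =
        ∫ s in (0 : ℝ)..3, H (s - τ) := by
      refine intervalIntegral.integral_congr (fun s _ => ?_)
      simp only [hH]
      congr 2 <;> ring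
    rw [h1, intervalIntegral.integral_comp_sub_right (fun s => H s) τ]
    rw [intervalIntegral.integral_interval_sub_left (hHc.intervalIntegrable _ _)
      (hHc.intervalIntegrable _ _)]
  rw [e1]
  have hF : ∀ x, HasDerivAt (fun x => ∫ s in (0 : ℝ)..x, H s) (H x) x := fun x =>
    intervalIntegral.integral_hasDerivAt_right (hHc.intervalIntegrable _ _)
      (hHc.stronglyMeasurableAtFilter _ _) hHc.continuousAt
  have h3 : ∀ c : ℝ, HasDerivAt (fun τ : ℝ => ∫ s in (0 : ℝ)..(c - τ), H s) (H c * -1) 0 := by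
    intro c
    have hc : HasDerivAt (fun τ : ℝ => c - τ) (-1) 0 := by
      simpa using (hasDerivAt_id (0 : ℝ)).const_sub c
    have hF' : HasDerivAt (fun x => ∫ s in (0 : ℝ)..x, H s) (H c) (c - 0) := by
      simpa using hF c
    exact hF'.comp (0 : ℝ) hc
  have h4 := (h3 3).sub (h3 0)
  refine h4.congr_deriv ?_
  simp only [hH]
  ring

end C3

theorem prfC3 (hB6 : claimB6) : claimC3 := by
  intro r Phi Gam hr hrper hreven hP hG hPper hGper n t y h0
  have hg := C3.cv_smooth hB6 r (Gam n) hr (hG.1 n)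
  have hOm := C3.om_smooth hB6 r Phi Gam hr hP hG n
  have hQ := C3.q_smooth hB6 r (cv r (Gam n)) hr hg
  have hC : ContDiff ℝ ∞ (Cn r Phi Gam n) := by
    have : ContDiff ℝ ∞ (fun z : ℝ × ℝ => Om r Phi Gam n (z.1 - z.2) -
        ∫ s in (0 : ℝ)..3, r (s - z.2) * cv r (Gam n) (z.1 - s)) := by
      have h1 : ContDiff ℝ ∞ (fun z : ℝ × ℝ => Om r Phi Gam n (z.1 - z.2)) := by fun_prop
      exact h1.sub hQ
    exact this
  have hd : HasFDerivAt (Cn r Phi Gam n) (fderiv ℝ (Cn r Phi Gam n) (t, y)) (t, y) :=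
    ((hC.differentiable (by simp)) (t, y)).hasFDerivAt
  have hl : HasDerivAt (fun τ : ℝ => ((t + τ, y + τ) : ℝ × ℝ)) (1, 1) 0 := by
    have h1 : HasDerivAt (fun τ : ℝ => t + τ) 1 0 := by
      simpa using (hasDerivAt_id (0 : ℝ)).const_add t
    have h2 : HasDerivAt (fun τ : ℝ => y + τ) 1 0 := by
      simpa using (hasDerivAt_id (0 : ℝ)).const_add y
    exact h1.prodMk h2
  have hcomp : HasDerivAt (fun τ : ℝ => Cn r Phi Gam n (t + τ, y + τ))
      (fderiv ℝ (Cn r Phi Gam n) (t, y) (1, 1)) 0 := by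
    have hd' : HasFDerivAt (Cn r Phi Gam n) (fderiv ℝ (Cn r Phi Gam n) (t, y))
        ((fun τ : ℝ => ((t + τ, y + τ) : ℝ × ℝ)) 0) := by simpa using hd
    exact hd'.comp_hasDerivAt (0 : ℝ) hl
  have hq := C3.q_deriv r (cv r (Gam n)) hr.continuous hg.continuous t y
  have hfun : (fun τ : ℝ => Cn r Phi Gam n (t + τ, y + τ)) =
      fun τ : ℝ => Om r Phi Gam n (t - y) -
        ∫ s in (0 : ℝ)..3, r (s - (y + τ)) * cv r (Gam n) (t + τ - s) := by
    funext τ
    simp only [Cn]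
    congr 2
    ring
  rw [hfun] at hcomp
  have h5 := hq.const_sub (Om r Phi Gam n (t - y))
  rw [hcomp.unique h5, h0]
  have h6 : r (0 - y) = r y := by rw [zero_sub, hreven]
  rw [h6]
  simp

end Pool.Agent.Work.MP_b0497c_an.Forced.S

end

section

set_option autoImplicit false

/-!
D3: scaling.
-/

open scoped ContDiff Matrix
open Set Filter Topology MeasureTheory

namespace Pool.Agent.Work.MP_b0497c_an.Forced.S

open Pool.Agent.Work.MP_b0497c_an.Dec (cube)

namespace D3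

/-- slices in space of a function which is smooth on `[0, T) × ℝ³` are smooth -/
theorem slice_diff {F : Type} [NormedAddCommGroup F] [NormedSpace ℝ F] {T : ℝ}
    {u : ℝ → E3 → F} (h : ContDiffOn ℝ ∞ (fun z : ℝ × E3 => u z.1 z.2) (Ico 0 T ×ˢ univ))
    {t : ℝ} (ht : t ∈ Ico 0 T) (x : E3) : DifferentiableAt ℝ (u t) x := by
  have h1 : ContDiffOn ℝ ∞ (fun y : E3 => u t y) univ := by
    have hm : MapsTo (fun y : E3 => (t, y)) univ (Ico 0 T ×ˢ univ) := fun y _ => ⟨ht, mem_univ _⟩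
    have hc : ContDiff ℝ ∞ (fun y : E3 => (t, y)) := by fun_prop
    exact h.comp hc.contDiffOn hm
  exact (contDiffOn_univ.1 h1).differentiable (by simp) x

/-- slices in time -/
theorem slice_time {F : Type} [NormedAddCommGroup F] [NormedSpace ℝ F] {T : ℝ}
    {u : ℝ → E3 → F} (h : ContDiffOn ℝ ∞ (fun z : ℝ × E3 => u z.1 z.2) (Ico 0 T ×ˢ univ))
    {t : ℝ} (ht : t ∈ Ico 0 T) (x : E3) :
    DifferentiableWithinAt ℝ (fun s => u s x) (Ico 0 T) t := by
  have hm : MapsTo (fun s : ℝ => (s, x)) (Ico 0 T) (Ico 0 T ×ˢ univ) :=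
    fun s hs => ⟨hs, mem_univ _⟩
  have hc : ContDiff ℝ ∞ (fun s : ℝ => (s, x)) := by fun_prop
  exact (h.comp hc.contDiffOn hm).differentiableOn (by simp) t ht

theorem curl_smul {v : E3 → E3} {x : E3} (hv : DifferentiableAt ℝ v x) (l : ℝ) :
    curl (fun y => l • v y) x = l • curl v x := by
  unfold curl
  have h1 : fderiv ℝ (fun y => l • v y) x = l • fderiv ℝ v x := fderiv_fun_const_smul hv l
  rw [h1]
  ext i
  fin_cases i <;> simp [axial] <;> ring

theorem op_smul (l : ℝ) (K : E3 → E3 → E3 →L[ℝ] E3) (v : E3 → E3) (x : E3) :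
    op l K (fun y => l • v y) x = l ^ 2 • op 1 K v x := by
  unfold op
  simp only [map_smul]
  rw [integral_smul, one_smul, smul_smul, ← sq]

end D3

open D3

theorem prfD3 : claimD3 := by
  intro T K u p l hl hT hu hp h hblow
  have hlt : ∀ t : ℝ, t < T / l → l * t < T := by
    intro t ht
    rw [mul_comm]
    exact (lt_div_iff₀ hl).1 ht
  have hmem : ∀ t ∈ Ico 0 (T / l), l * t ∈ Ico 0 T :=
    fun t ht => ⟨mul_nonneg hl.le ht.1, hlt t ht.2⟩
  have hA : ContDiff ℝ ∞ (fun z : ℝ × E3 => (l * z.1, z.2)) := by fun_prop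
  have hmaps : MapsTo (fun z : ℝ × E3 => (l * z.1, z.2)) (Ico 0 (T / l) ×ˢ univ)
      (Ico 0 T ×ˢ univ) := by
    rintro ⟨t, x⟩ ⟨ht, -⟩
    exact ⟨hmem t ht, mem_univ _⟩
  have hcu : ContDiffOn ℝ ∞ (fun z : ℝ × E3 => l • u (l * z.1) z.2) (Ico 0 (T / l) ×ˢ univ) :=
    (hu.comp hA.contDiffOn hmaps).const_smul l
  have hcp : ContDiffOn ℝ ∞ (fun z : ℝ × E3 => l ^ 2 * p (l * z.1) z.2)
      (Ico 0 (T / l) ×ˢ univ) := (hp.comp hA.contDiffOn hmaps).const_smul (l ^ 2)
  refine ⟨hcu, hcp, ⟨?_, ?_, hcu.of_le (by simp), hcp.of_le (by simp), ?_, ?_⟩, ?_⟩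
  · intro t ht i x
    simp only
    rw [h.periodic_u (l * t) (hmem t ht) i x]
  · intro t ht i x
    simp only
    rw [h.periodic_p (l * t) (hmem t ht) i x]
  · intro t ht x
    have ht' := hmem t ht
    have hut := slice_diff hu ht' x
    have hpt := slice_diff hp ht' x
    have e1 : derivWithin (fun s => l • u (l * s) x) (Ico 0 (T / l)) t
        = l • l • derivWithin (fun s => u s x) (Ico 0 T) (l * t) := by
      have d1 : HasDerivWithinAt (fun s => u s x) (derivWithin (fun s => u s x) (Ico 0 T) (l * t))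
          (Ico 0 T) (l * t) := (slice_time hu ht' x).hasDerivWithinAt
      have d2 : HasDerivWithinAt (fun s : ℝ => l * s) l (Ico 0 (T / l)) t := by
        simpa using ((hasDerivAt_id t).const_mul l).hasDerivWithinAt
      have d3 : HasDerivWithinAt (fun s => u (l * s) x)
          (l • derivWithin (fun s => u s x) (Ico 0 T) (l * t)) (Ico 0 (T / l)) t :=
        HasDerivWithinAt.scomp t d1 d2 hmem
      exact (d3.const_smul l).derivWithin (uniqueDiffOn_Ico 0 (T / l) t ht)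
    have e2 : fderiv ℝ (fun x => l • u (l * t) x) x = l • fderiv ℝ (u (l * t)) x :=
      fderiv_fun_const_smul hut l
    have e3 : gradient (fun x => l ^ 2 * p (l * t) x) x = l ^ 2 • gradient (p (l * t)) x := by
      unfold gradient
      have : fderiv ℝ (fun x => l ^ 2 * p (l * t) x) x = l ^ 2 • fderiv ℝ (p (l * t)) x :=
        fderiv_fun_const_smul hpt (l ^ 2)
      rw [this, map_smul]
    have he := h.momentum (l * t) ht' x
    rw [e1, e2, e3, op_smul]
    have e4 : (l • fderiv ℝ (u (l * t)) x) (l • u (l * t) x)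
        = l • l • fderiv ℝ (u (l * t)) x (u (l * t) x) := by
      rw [FunLike.coe_smul, Pi.smul_apply, map_smul]
    rw [e4, ← smul_add, ← smul_add, he, smul_smul, ← sq, smul_add, smul_neg]
  · intro t ht x
    have hut := slice_diff hu (hmem t ht) x
    have e2 : fderiv ℝ (fun x => l • u (l * t) x) x = l • fderiv ℝ (u (l * t)) x :=
      fderiv_fun_const_smul hut l
    rw [e2]
    have e5 := h.div_free (l * t) (hmem t ht) x
    have e6 : ((l • fderiv ℝ (u (l * t)) x : E3 →L[ℝ] E3) : E3 →ₗ[ℝ] E3)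
        = l • ((fderiv ℝ (u (l * t)) x : E3 →L[ℝ] E3) : E3 →ₗ[ℝ] E3) := rfl
    rw [e6, map_smul, e5, smul_zero]
  · have h1 : Tendsto (fun t : ℝ => l * t) (𝓝[<] (T / l)) (𝓝[<] T) := by
      refine tendsto_nhdsWithin_iff.2 ⟨?_, ?_⟩
      · have h2 : Tendsto (fun t : ℝ => l * t) (𝓝 (T / l)) (𝓝 (l * (T / l))) :=
          (continuous_const.mul continuous_id).tendsto _
        rw [mul_div_cancel₀ _ hl.ne'] at h2
        exact h2.mono_left nhdsWithin_le_nhds
      · filter_upwards [self_mem_nhdsWithin] with t ht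
        exact hlt t ht
    have h2 := (hblow.comp h1).const_mul_atTop hl
    refine h2.congr' ?_
    have hpos : ∀ᶠ t in 𝓝[<] (T / l), 0 < t :=
      nhdsWithin_le_nhds (Ioi_mem_nhds (div_pos hT hl))
    filter_upwards [self_mem_nhdsWithin, hpos] with t ht ht0
    have hut := slice_diff hu (hmem t ⟨ht0.le, ht⟩) 0
    rw [curl_smul hut l, norm_smul, Real.norm_of_nonneg hl.le]
    rfl

end Pool.Agent.Work.MP_b0497c_an.Forced.S

end

section

set_option autoImplicit false

/-!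
# Theorem S', item D5: adding two flows with disjoint supports. By helper72.
-/

open scoped ContDiff
open Set Filter Topology MeasureTheory

namespace Pool.Agent.Work.MP_b0497c_an.Forced.S

open Pool.Agent.Work.MP_b0497c_an.Dec (cube)

namespace D5

variable {T : ℝ} {f u V : ℝ → E3 → E3} {p : ℝ → E3 → ℝ}

theorem u_at (H : TorusAvg T f u p) {t : ℝ} (ht : t < T) (x : E3) :
    ContDiffAt ℝ ∞ (fun z : ℝ × E3 => u z.1 z.2) (t, x) :=
  H.u_smooth.contDiffAt ((isOpen_Iio.prod isOpen_univ).mem_nhds ⟨ht, mem_univ _⟩)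

theorem diff_time {g : ℝ → E3 → E3} {t : ℝ} {x : E3}
    (h : ContDiffAt ℝ ∞ (fun z : ℝ × E3 => g z.1 z.2) (t, x)) :
    DifferentiableAt ℝ (fun s => g s x) t := by
  have h1 : DifferentiableAt ℝ (fun z : ℝ × E3 => g z.1 z.2) (t, x) :=
    h.differentiableAt (by simp)
  have h2 : DifferentiableAt ℝ (fun s : ℝ => ((s, x) : ℝ × E3)) t := by fun_prop
  exact DifferentiableAt.comp t (f := fun s : ℝ => ((s, x) : ℝ × E3))
    (g := fun z : ℝ × E3 => g z.1 z.2) h1 h2

theorem diff_space {g : ℝ → E3 → E3} {t : ℝ} {x : E3}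
    (h : ContDiffAt ℝ ∞ (fun z : ℝ × E3 => g z.1 z.2) (t, x)) :
    DifferentiableAt ℝ (g t) x := by
  have h1 : DifferentiableAt ℝ (fun z : ℝ × E3 => g z.1 z.2) (t, x) :=
    h.differentiableAt (by simp)
  have h2 : DifferentiableAt ℝ (fun y : E3 => ((t, y) : ℝ × E3)) x := by fun_prop
  exact DifferentiableAt.comp x (f := fun y : E3 => ((t, y) : ℝ × E3))
    (g := fun z : ℝ × E3 => g z.1 z.2) h1 h2

theorem cont_cos : Continuous (fun y : E3 => Real.cos (y 0)) := by fun_prop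

/-- near points with `cos (x 0) > -1/2` the flow `V` vanishes -/
theorem V_near (hV : ∀ t, ∀ x : E3, - (1 / 2) ≤ Real.cos (x 0) → V t x = 0) {x : E3}
    (hx : - (1 / 2) < Real.cos (x 0)) (t : ℝ) : V t =ᶠ[𝓝 x] fun _ => 0 := by
  have : ∀ᶠ y : E3 in 𝓝 x, - (1 / 2) < Real.cos (y 0) :=
    cont_cos.continuousAt.eventually (lt_mem_nhds hx)
  filter_upwards [this] with y hy using hV t y hy.le

/-- near points with `cos (x 0) < 1/2` the flow `u` vanishes -/
theorem u_near (H : TorusAvg T f u p) {x : E3} (hx : Real.cos (x 0) < 1 / 2) {t : ℝ}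
    (ht : t < T) : u t =ᶠ[𝓝 x] fun _ => 0 := by
  have : ∀ᶠ y : E3 in 𝓝 x, Real.cos (y 0) < 1 / 2 :=
    cont_cos.continuousAt.eventually (gt_mem_nhds hx)
  filter_upwards [this] with y hy using H.u_supp t ht y hy

theorem fderiv_zero {g : E3 → E3} {x : E3} (h : g =ᶠ[𝓝 x] fun _ => 0) : fderiv ℝ g x = 0 := by
  rw [h.fderiv_eq]
  exact fderiv_const_apply 0

end D5

open D5 in
theorem prfD5 : claimD5 := by
  intro T f u V p A H hVs hVp hVd hV hA
  have hVat : ∀ (t : ℝ) (x : E3), ContDiffAt ℝ ∞ (fun z : ℝ × E3 => V z.1 z.2) (t, x) :=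
    fun t x => hVs.contDiffAt
  have hsub : Ico 0 T ×ˢ (univ : Set E3) ⊆ Iio T ×ˢ univ :=
    prod_mono (fun t ht => ht.2) subset_rfl
  have hsum : ContDiffOn ℝ ∞ (fun z : ℝ × E3 => u z.1 z.2 + V z.1 z.2) (Ico 0 T ×ˢ univ) :=
    (H.u_smooth.mono hsub).add hVs.contDiffOn
  have hps : ContDiffOn ℝ ∞ (fun z : ℝ × E3 => p z.1 z.2) (Ico 0 T ×ˢ univ) :=
    H.p_smooth.mono hsub
  have hfd : ∀ t < T, ∀ x : E3, fderiv ℝ (fun y => u t y + V t y) x
      = fderiv ℝ (u t) x + fderiv ℝ (V t) x := by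
    intro t ht x
    exact fderiv_add (diff_space (u_at H ht x)) (diff_space (hVat t x))
  refine ⟨hsum, hps, ?_, ?_⟩
  · refine ⟨?_, ?_, hsum.of_le (by simp), hps.of_le (by simp), ?_, ?_⟩
    · intro t ht i x
      show u t (x + (2 * Real.pi) • e i) + V t (x + (2 * Real.pi) • e i) = u t x + V t x
      rw [H.u_per t ht.2 i x, hVp t i x]
    · intro t ht
      exact H.p_per t ht.2
    · intro t ht x
      have hu1 := diff_time (u_at H ht.2 x)
      have hV1 := diff_time (hVat t x)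
      have hT : (0 : ℝ) < T := H.T_pos
      have hud : UniqueDiffWithinAt ℝ (Ico 0 T) t := (uniqueDiffOn_Ico 0 T) t ht
      have e1 : derivWithin (fun s => u s x + V s x) (Ico 0 T) t
          = deriv (fun s => u s x) t + deriv (fun s => V s x) t := by
        have h3 : DifferentiableAt ℝ (fun s => u s x + V s x) t := hu1.add hV1
        rw [h3.derivWithin hud]
        exact deriv_add hu1 hV1
      have e2 : fderiv ℝ (fun y => u t y + V t y) x (u t x + V t x)
          = fderiv ℝ (u t) x (u t x) + fderiv ℝ (V t) x (V t x) := by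
        rw [hfd t ht.2 x]
        rcases lt_or_ge (Real.cos (x 0)) (1 / 2) with h | h
        · have hn := u_near H h ht.2
          have h0 : u t x = 0 := hn.self_of_nhds
          rw [fderiv_zero hn, h0]
          simp
        · have h' : - (1 / 2) < Real.cos (x 0) := by linarith
          have hn := V_near hV h' t
          have h0 : V t x = 0 := hn.self_of_nhds
          rw [fderiv_zero hn, h0]
          simp
      show derivWithin (fun s => u s x + V s x) (Ico 0 T) t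
        + fderiv ℝ (fun y => u t y + V t y) x (u t x + V t x)
        = - gradient (p t) x + A (fun y => u t y + V t y) x
      rw [e1, e2, hA t ht x]
      have := H.euler t ht.2 x
      calc deriv (fun s => u s x) t + deriv (fun s => V s x) t
            + (fderiv ℝ (u t) x (u t x) + fderiv ℝ (V t) x (V t x))
          = (deriv (fun s => u s x) t + fderiv ℝ (u t) x (u t x))
            + (deriv (fun s => V s x) t + fderiv ℝ (V t) x (V t x)) := by abel
        _ = (- gradient (p t) x + f t x)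
            + (deriv (fun s => V s x) t + fderiv ℝ (V t) x (V t x)) := by rw [this]
        _ = _ := by abel
    · intro t ht x
      show LinearMap.trace ℝ E3 (fderiv ℝ (fun y => u t y + V t y) x) = 0
      rw [hfd t ht.2 x]
      have h1 := H.div_free t ht.2 x
      have h2 := hVd t x
      have : ((fderiv ℝ (u t) x + fderiv ℝ (V t) x : E3 →L[ℝ] E3) : E3 →ₗ[ℝ] E3)
          = (fderiv ℝ (u t) x : E3 →ₗ[ℝ] E3) + (fderiv ℝ (V t) x : E3 →ₗ[ℝ] E3) := rfl
      rw [this, map_add, h1, h2, add_zero]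
  · refine H.blow.congr' ?_
    have : ∀ᶠ t in 𝓝[<] T, t < T := self_mem_nhdsWithin
    filter_upwards [this] with t ht
    have h0 : - (1 / 2) < Real.cos ((0 : E3) 0) := by
      simp only [PiLp.zero_apply, Real.cos_zero]
      norm_num
    have e1 : fderiv ℝ (fun x => u t x + V t x) 0 = fderiv ℝ (u t) 0 := by
      rw [hfd t ht 0, fderiv_zero (V_near hV h0 t), add_zero]
    unfold curl
    rw [e1]

end Pool.Agent.Work.MP_b0497c_an.Forced.S

end

section

set_option autoImplicit false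

/-!
# Theorem S', part II: assembly from `TorusAvg`, both signs, with the global Euler flow of the datum
-/

open scoped ContDiff
open Set Filter Topology MeasureTheory

namespace Pool.Agent.Work.MP_b0497c_an.Forced.S

open Pool.Agent.Work.MP_b0497c_an.Dec (cube)

/-- Conclusion for one kernel: the datum, its global Euler flow, and the blow-up for `ε K`. -/
def SCore (T₁ : ℝ) (K : E3 → E3 → E3 →L[ℝ] E3) : Prop := ∃ u0 : E3 → E3, ContDiff ℝ ∞ u0 ∧
  ∀ ε : ℝ, 0 < ε →
  (∃ w : ℝ → E3 → E3, ContDiff ℝ ∞ (fun z : ℝ × E3 => w z.1 z.2) ∧ (∀ x, w 0 x = ε • u0 x) ∧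
    ∀ T : ℝ, IsPertSolution T (fun _ _ => 0) w (fun _ _ => 0)) ∧
  ∃ (u : ℝ → E3 → E3) (p : ℝ → E3 → ℝ),
    ContDiffOn ℝ ∞ (fun z : ℝ × E3 => u z.1 z.2) (Ico 0 (T₁ / ε) ×ˢ univ) ∧
    ContDiffOn ℝ ∞ (fun z : ℝ × E3 => p z.1 z.2) (Ico 0 (T₁ / ε) ×ˢ univ) ∧
    IsPertSolution (T₁ / ε) (op ε K) u p ∧ (∀ x, u 0 x = ε • u0 x) ∧
    (∀ t ∈ Ico 0 (T₁ / ε), ∫ x in cube, ‖u t x‖ ^ 2 = ∫ x in cube, ‖u 0 x‖ ^ 2) ∧
    Tendsto (fun t => ‖curl (u t) 0‖) (𝓝[<] (T₁ / ε)) atTop ∧
    ∀ (T' : ℝ) (v : ℝ → E3 → E3) (q : ℝ → E3 → ℝ), IsPertSolution T' (op ε K) v q →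
      (∀ x, v 0 x = u 0 x) → T' ≤ T₁ / ε ∧ ∀ t ∈ Ico 0 T', ∀ x, v t x = u t x

/-- The conclusion with both signs. -/
def SConclusion2 : Prop := ∃ (T₁ : ℝ) (K : E3 → E3 → E3 →L[ℝ] E3), 0 < T₁ ∧ GoodKernel K ∧
  SCore T₁ K ∧ SCore T₁ (fun x y => - K x y)

namespace Fin2

/-- A global Euler flow in the slab with a given datum, scaled by `ε`. -/
theorem glob (hA2 : claimA2) (hC6 : claimC6) (U : ℝ → ℝ) (psi : ℕ → ℝ → ℝ) (C : ℕ → ℝ × ℝ → ℝ)
    (hpsi : TM psi) (hpsiper : ∀ n, Per (psi n)) (hU : ContDiff ℝ ∞ U) (hUper : Per U)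
    (hC : RD C) (hCper : ∀ n t y, C n (t, y + 2 * Real.pi) = C n (t, y))
    (hpU : ∀ n x, psi n x ≠ 0 → U x = 1) (ε : ℝ) :
    ∃ w : ℝ → E3 → E3, ContDiff ℝ ∞ (fun z : ℝ × E3 => w z.1 z.2) ∧
      (∀ x, w 0 x = ε • VV U psi C 0 x) ∧
      ∀ T : ℝ, IsPertSolution T (fun _ _ => 0) w (fun _ _ => 0) := by
  -- the linear map `(t, y) ↦ (0, y - t)`
  let L : ℝ × ℝ →L[ℝ] ℝ × ℝ :=
    ContinuousLinearMap.prod (0 : ℝ × ℝ →L[ℝ] ℝ)
      (ContinuousLinearMap.snd ℝ ℝ ℝ - ContinuousLinearMap.fst ℝ ℝ ℝ)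
  have hL : ∀ t y : ℝ, L (t, y) = (0, y - t) := fun t y => rfl
  set D : ℕ → ℝ × ℝ → ℝ := fun n z => C n (L z) with hD
  have hDRD : RD D := by
    have := ((hA2 (ℝ × ℝ) (ℝ × ℝ) ℝ ℝ C L (ContinuousLinearMap.id ℝ ℝ)).1 hC)
    simpa using this
  have hDper : ∀ n t y, D n (t, y + 2 * Real.pi) = D n (t, y) := by
    intro n t y
    simp only [hD, hL]
    rw [show y + 2 * Real.pi - t = (y - t) + 2 * Real.pi by ring, hCper]
  obtain ⟨hVs, hVper, hVdiv, hVeu⟩ := hC6 U psi D hpsi hpsiper hU hUper hDRD hDper hpU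
  have hzero : ∀ n t y, fderiv ℝ (D n) (t, y) (1, 1) = 0 := by
    intro n t y
    have h1 : HasFDerivAt (D n) ((fderiv ℝ (C n) (L (t, y))).comp L) (t, y) := by
      have h2 : DifferentiableAt ℝ (C n) (L (t, y)) :=
        ((hC.1 n).differentiable (by simp)).differentiableAt
      exact h2.hasFDerivAt.comp (t, y) L.hasFDerivAt
    rw [h1.fderiv]
    have h3 : L ((1 : ℝ), (1 : ℝ)) = 0 := by
      rw [hL]; simp
    rw [ContinuousLinearMap.comp_apply, h3, map_zero]
  set V : ℝ → E3 → E3 := VV U psi D with hV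
  have hE : ∀ t x, deriv (fun s => V s x) t + fderiv ℝ (V t) x (V t x) = 0 := by
    intro t x
    rw [(hVeu t x).2]
    simp [hzero]
  have hVt : ∀ x, Differentiable ℝ (fun s => V s x) := fun x =>
    (hVs.comp (contDiff_id.prodMk contDiff_const)).differentiable (by simp)
  have hVx : ∀ t, Differentiable ℝ (V t) := fun t =>
    (hVs.comp (contDiff_const.prodMk contDiff_id)).differentiable (by simp)
  have hws : ContDiff ℝ ∞ (fun z : ℝ × E3 => ε • V (ε * z.1) z.2) :=
    (hVs.comp ((contDiff_const.mul contDiff_fst).prodMk contDiff_snd)).const_smul ε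
  refine ⟨fun t x => ε • V (ε * t) x, hws, ?_, ?_⟩
  · intro x
    have : V 0 x = VV U psi C 0 x := by
      simp only [hV, VV, hD, hL, sub_zero]
    simp only [mul_zero, this]
  intro T
  refine ⟨?_, ?_, hws.contDiffOn.of_le (by exact_mod_cast le_top), contDiffOn_const, ?_, ?_⟩
  · intro t _ i x
    show ε • V (ε * t) _ = ε • V (ε * t) x
    rw [hVper (ε * t) i x]
  · intro t _ i x
    rfl
  · intro t ht x
    have hT : 0 < T := lt_of_le_of_lt ht.1 ht.2
    have h1 : HasDerivAt (fun s => ε • V (ε * s) x) (ε • (ε • deriv (fun s => V s x) (ε * t))) t := by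
      have h2 : HasDerivAt (fun s : ℝ => ε * s) ε t := by
        simpa using (hasDerivAt_id t).const_mul ε
      exact ((hVt x (ε * t)).hasDerivAt.scomp t h2).const_smul ε
    have h3 : derivWithin (fun s => ε • V (ε * s) x) (Ico 0 T) t =
        ε • (ε • deriv (fun s => V s x) (ε * t)) :=
      h1.hasDerivWithinAt.derivWithin (uniqueDiffOn_Ico 0 T t ht)
    have h4 : fderiv ℝ (fun y => ε • V (ε * t) y) x = ε • fderiv ℝ (V (ε * t)) x :=
      fderiv_fun_const_smul (hVx _ x) ε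
    have h5 : gradient (fun _ : E3 => (0 : ℝ)) x = 0 := gradient_fun_const x 0
    show derivWithin (fun s => ε • V (ε * s) x) (Ico 0 T) t +
      fderiv ℝ (fun y => ε • V (ε * t) y) x (ε • V (ε * t) x) =
        - gradient (fun _ : E3 => (0 : ℝ)) x + 0
    rw [h3, h4, h5]
    have h6 := hE (ε * t) x
    rw [smul_apply, map_smul, ← smul_add, ← smul_add, h6]
    simp
  · intro t _ x
    show LinearMap.trace ℝ E3 (fderiv ℝ (fun y => ε • V (ε * t) y) x) = 0
    have h4 : fderiv ℝ (fun y => ε • V (ε * t) y) x = ε • fderiv ℝ (V (ε * t)) x :=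
      fderiv_fun_const_smul (hVx _ x) ε
    rw [h4]
    have := hVdiv (ε * t) x
    simp [this]

theorem good_neg {K : E3 → E3 → E3 →L[ℝ] E3} (h : GoodKernel K) :
    GoodKernel (fun x y => - K x y) := by
  refine ⟨h.smooth.neg, fun i x y => ?_, fun i x y => ?_, fun x y v w => ?_⟩
  · rw [h.per1]
  · rw [h.per2]
  · have := h.skew x y v w
    simp [this]

theorem op_neg (ε : ℝ) (K : E3 → E3 → E3 →L[ℝ] E3) (v : E3 → E3) (x : E3) :
    op ε (fun x y => - K x y) v x = - op ε K v x := by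
  simp [op, integral_neg]

end Fin2

theorem sfin2 (hA2 : claimA2) (hB5 : claimB5) (hB7 : claimB7) (hB8 : claimB8) (hB9 : claimB9) (hC1 : claimC1)
    (hC2 : claimC2) (hC3 : claimC3) (hC4 : claimC4) (hC5 : claimC5) (hC6 : claimC6)
    (hD1 : claimD1) (hD2 : claimD2) (hD3 : claimD3) (hD4 : claimD4) (hD5 : claimD5)
    {T : ℝ} {f u : ℝ → E3 → E3} {p : ℝ → E3 → ℝ} (h : TorusAvg T f u p) : SConclusion2 := by
  classical
  obtain ⟨F, b, hF, hFper, hb, hbper, hbsupp, hexp⟩ := hB7 f h.f_smooth h.f_per h.f_time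
  obtain ⟨G, hG1, hG2⟩ := h.avg
  -- the averages
  have hgRD : RD (fun n => G (b n)) := by
    refine ⟨fun n => (hG1 (b n) (hb.1 n) (hbper n)).1, fun m k => ?_⟩
    obtain ⟨C, m', hC⟩ := hG2 m
    -- bounds of the derivatives of `b n` up to order `m'`
    have h1 : ∀ i : ℕ, ∃ D : ℝ, ∀ (n : ℕ) (z : E3),
        ((n : ℝ) + 1) ^ k * ‖iteratedFDeriv ℝ i (b n) z‖ ≤ D := fun i => hb.2 i k
    choose D hD using h1
    have hDn : ∀ i, 0 ≤ D i := fun i => le_trans (by positivity) (hD i 0 0)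
    set D' : ℝ := ∑ i ∈ Finset.range (m' + 1), D i with hD'
    have hDle : ∀ i ≤ m', D i ≤ D' := fun i hi =>
      Finset.single_le_sum (f := D) (fun j _ => hDn j) (Finset.mem_range.2 (Nat.lt_succ_of_le hi))
    refine ⟨C * D', fun n t => ?_⟩
    have hpos : (0 : ℝ) < ((n : ℝ) + 1) ^ k := by positivity
    have h2 := hC (b n) (hb.1 n) (hbper n) (D' / ((n : ℝ) + 1) ^ k) (fun i hi x => by
      rw [le_div_iff₀ hpos, mul_comm]
      exact le_trans (hD i n x) (hDle i hi)) t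
    rw [norm_iteratedFDeriv_eq_norm_iteratedDeriv, Real.norm_eq_abs]
    calc ((n : ℝ) + 1) ^ k * |iteratedDeriv m (G (b n)) t|
        ≤ ((n : ℝ) + 1) ^ k * (C * (D' / ((n : ℝ) + 1) ^ k)) :=
          mul_le_mul_of_nonneg_left h2 hpos.le
      _ = C * D' := by
          field_simp
  obtain ⟨Gp, hGp, hGpper, hGpeq, hGp0⟩ := hB9 _ hgRD
    (fun n t ht => (hG1 (b n) (hb.1 n) (hbper n)).2.2 t ht)
  obtain ⟨r, Phi, Gam, hr, hrper, hreven, hPhi, hGam, hPhiper, hGamper, hFr, hGr⟩ :=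
    hB5 F Gp hF hGp hFper hGpper
  obtain ⟨psi, U, hpsi, hpsiper, hU, hUper, hdisj, hnorm, hpsiU, hsupp⟩ := hB8
  obtain ⟨hCn, hCnper⟩ := hC1 r Phi Gam hr hrper hPhi hGam hPhiper hGamper
  obtain ⟨hK, hact⟩ := hC5 r psi b hr hrper hpsi hpsiper hb hbper
  -- it is enough to treat a sign `σ`
  suffices H : ∀ (σ : ℝ) (K : E3 → E3 → E3 →L[ℝ] E3), σ * σ = 1 → GoodKernel K →
      (∀ v x, op 1 K v x = σ • op 1 (KK r psi b) v x) → SCore T K by
    refine ⟨T, KK r psi b, h.T_pos, hK, H 1 _ (by norm_num) hK (fun v x => (one_smul _ _).symm), ?_⟩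
    refine H (-1) _ (by norm_num) (Fin2.good_neg hK) (fun v x => ?_)
    rw [Fin2.op_neg, neg_smul, one_smul]
  intro σ K hσ hKg hKop
  set C : ℕ → ℝ × ℝ → ℝ := fun n z => σ * Cn r Phi Gam n z with hCdef
  have hC : RD C := by
    have := ((hA2 (ℝ × ℝ) (ℝ × ℝ) ℝ ℝ (Cn r Phi Gam) (ContinuousLinearMap.id ℝ (ℝ × ℝ))
      (σ • ContinuousLinearMap.id ℝ ℝ)).1 hCn)
    simpa [hCdef] using this
  have hCper : ∀ n t y, C n (t, y + 2 * Real.pi) = C n (t, y) := by
    intro n t y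
    simp only [hCdef, hCnper]
  obtain ⟨hVs, hVper, hVdiv, hVeu⟩ := hC6 U psi C hpsi hpsiper hU hUper hC hCper hpsiU
  set V : ℝ → E3 → E3 := VV U psi C with hV
  have hVsupp : ∀ t, ∀ x : E3, - (1 / 2) ≤ Real.cos (x 0) → V t x = 0 := by
    intro t x hx
    obtain ⟨h1, h2⟩ := hsupp (x 0) hx
    simp only [hV, VV, h1, h2]
    simp
  have hVc : ∀ t, Continuous (V t) := fun t =>
    hVs.continuous.comp (continuous_const.prodMk continuous_id)
  have huc : ∀ t < T, Continuous (u t) := by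
    intro t ht
    have h1 : ContinuousOn (fun z : ℝ × E3 => u z.1 z.2) (Iio T ×ˢ univ) := h.u_smooth.continuousOn
    have h2 : ContinuousOn ((fun z : ℝ × E3 => u z.1 z.2) ∘ (fun x : E3 => (t, x))) univ :=
      h1.comp (continuous_const.prodMk continuous_id).continuousOn (fun x _ => ⟨ht, mem_univ _⟩)
    exact continuousOn_univ.mp h2
  have hpsic : ∀ n, Continuous (psi n) := fun n => (hpsi.1 n).continuous
  have hrc : Continuous r := hr.continuous
  have hCc : ∀ n, Continuous (Cn r Phi Gam n) := fun n => (hCn.1 n).continuous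
  -- reading the channels
  have hread : ∀ t < T, ∀ n, ∫ y in cube, psi n (y 0) * r (y 1) * (u t y + V t y) 2 =
      σ * F n t := by
    intro t ht n
    have h1 : ∀ y : E3, psi n (y 0) * r (y 1) * (u t y + V t y) 2 =
        (psi n (y 0) * psi n (y 0)) * (σ * (r (y 1) * Cn r Phi Gam n (t, y 1))) := by
      intro y
      by_cases hp : psi n (y 0) = 0
      · simp [hp]
      · have hcos : Real.cos (y 0) < -(1 / 2) := by
          by_contra hcon
          exact hp ((hsupp (y 0) (not_lt.1 hcon)).2 n)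
        have hu0 : u t y = 0 := h.u_supp t ht y (by linarith)
        have hV2 : V t y 2 = psi n (y 0) * (σ * Cn r Phi Gam n (t, y 1)) := by
          have h3 : ∑' m, psi m (y 0) * C m (t, y 1) =
              psi n (y 0) * (σ * Cn r Phi Gam n (t, y 1)) := by
            apply tsum_eq_single n
            intro m hm
            have := hdisj m n hm (y 0)
            rcases mul_eq_zero.1 this with h4 | h4
            · rw [h4, zero_mul]
            · exact absurd h4 hp
          simp only [hV, VV, h3]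
          simp [e]
        rw [hu0, zero_add, hV2]
        ring
    simp only [h1]
    rw [hC4.1 (fun s => psi n s * psi n s) (fun s => σ * (r s * Cn r Phi Gam n (t, s)))
      ((hpsic n).mul (hpsic n))
      (continuous_const.mul (hrc.mul ((hCc n).comp (continuous_const.prodMk continuous_id)))),
      hnorm n, one_mul, intervalIntegral.integral_const_mul,
      hC2 r Phi Gam hr hrper hreven hPhi hGam hPhiper hGamper n t, hFr n t]
  -- the averages against `b n`
  have havg : ∀ t, 0 ≤ t → t < T → ∀ n, ∫ y in cube, inner ℝ (b n y) (u t y + V t y) =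
      cv r (Gam n) t := by
    intro t ht0 ht n
    have h1 : ∀ y : E3, inner ℝ (b n y) (u t y + V t y) = inner ℝ (b n y) (u t y) := by
      intro y
      rcases lt_or_ge (Real.cos (y 0)) (1 / 2) with hc | hc
      · have : b n y = 0 := hbsupp n y (fun s => h.f_supp s y hc)
        simp [this]
      · rw [hVsupp t y (by linarith), add_zero]
    simp only [h1]
    rw [← (hG1 (b n) (hb.1 n) (hbper n)).2.1 t ht, ← hGr n t]
    exact (hGpeq n t ⟨ht0, by linarith [h.T_lt]⟩).symm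
  have hT3 : T < 3 := h.T_lt
  have hCder : ∀ n z, fderiv ℝ (C n) z (1, 1) = σ * fderiv ℝ (Cn r Phi Gam n) z (1, 1) := by
    intro n z
    have h1 : DifferentiableAt ℝ (Cn r Phi Gam n) z :=
      ((hCn.1 n).differentiable (by simp)).differentiableAt
    have h2 : fderiv ℝ (C n) z = σ • fderiv ℝ (Cn r Phi Gam n) z := fderiv_const_mul h1 σ
    rw [h2]
    simp
  -- the perturbation acting on the flow
  have hpert : ∀ t ∈ Ico 0 T, ∀ x, op 1 K (fun y => u t y + V t y) x =
      f t x + (deriv (fun s => V s x) t + fderiv ℝ (V t) x (V t x)) := by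
    intro t ht x
    have hcont : Continuous (fun y => u t y + V t y) := (huc t ht.2).add (hVc t)
    have hper : Periodic3 (fun y => u t y + V t y) := fun i y => by
      show u t (y + (2 * Real.pi) • e i) + V t (y + (2 * Real.pi) • e i) = u t y + V t y
      rw [h.u_per t ht.2 i y, hVper t i y]
    obtain ⟨hs1, hs2, hint⟩ := hact _ hcont hper x
    rw [hKop]
    simp only [op, one_smul]
    rw [hint, (hVeu t x).2]
    have e1 : ∑' n, (∫ y in cube, psi n (y 0) * r (y 1) * (u t y + V t y) 2) • b n x =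
        σ • f t x := by
      simp only [hread t ht.2, mul_smul]
      exact ((hexp t ⟨ht.1, by linarith [ht.2]⟩ x).const_smul σ).tsum_eq
    have e2 : ∑' n, psi n (x 0) * r (x 1) * ∫ y in cube, inner ℝ (b n y) (u t y + V t y) =
        - ∑' n, psi n (x 0) * fderiv ℝ (Cn r Phi Gam n) (t, x 1) (1, 1) := by
      rw [← tsum_neg]
      congr 1
      funext n
      rw [havg t ht.1 ht.2 n, hC3 r Phi Gam hr hrper hreven hPhi hGam hPhiper hGamper n t (x 1)
        (by
          rw [← hGr n (t - 3)]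
          exact hGp0 n (t - 3) ⟨by linarith [ht.1], by linarith [ht.2]⟩)]
      ring
    have e3 : ∑' n, psi n (x 0) * fderiv ℝ (C n) (t, x 1) (1, 1) =
        σ * ∑' n, psi n (x 0) * fderiv ℝ (Cn r Phi Gam n) (t, x 1) (1, 1) := by
      rw [← tsum_mul_left]
      congr 1
      funext n
      rw [hCder]
      ring
    rw [e1, e2, e3, neg_smul, sub_neg_eq_add, smul_add, smul_smul, hσ, one_smul, smul_smul]
  obtain ⟨hus, hps, hsol, hblow⟩ := hD5 T f u V p (op 1 K) h hVs hVper hVdiv hVsupp hpert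
  refine ⟨fun x => V 0 x, ?_, ?_⟩
  · exact hVs.comp (contDiff_const.prodMk contDiff_id)
  intro ε hε
  refine ⟨Fin2.glob hA2 hC6 U psi C hpsi hpsiper hU hUper hC hCper hpsiU ε, ?_⟩
  obtain ⟨k1, k2, k3, k4⟩ := hD3 T K _ p ε hε h.T_pos hus hps hsol hblow
  have hT' : 0 < T / ε := div_pos h.T_pos hε
  refine ⟨_, _, k1, k2, k3, ?_, hD2 _ ε _ _ _ hKg k3, k4, ?_⟩
  · intro x
    simp only [mul_zero]
    rw [h.u_zero 0 le_rfl x, zero_add]
  · exact hD4 (T / ε) ε K _ _ hT' hKg hD1 k3 k4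

end Pool.Agent.Work.MP_b0497c_an.Forced.S

end
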