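import Pool.Agent.Work.MP_b0497c_an.Unf.C04Alg
import Pool.Agent.Work.MP_b0497c_an.Unf.KZ1

/-! Bundle of small proof modules (one section per former module). -/

section

set_option autoImplicit false

/-!
# C04: the propagator of a multiplication generator
-/

open scoped ENNReal Topology
open Set MeasureTheory

namespace Pool.Agent.Work.MP_b0497c_an.Unf.S

open W

namespace C04

/-! ### restriction to `lev n` -/

theorem res_add (S : Set Md) (f g : Md → Mat) : res S (f + g) = res S f + res S g := by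
  funext q
  by_cases hq : q ∈ S <;> simp [res, hq]

theorem res_smul (S : Set Md) (r : ℝ) (f : Md → Mat) : res S (r • f) = r • res S f := by
  funext q
  by_cases hq : q ∈ S
  · simp [res, hq]
  · simp only [res, if_neg hq, Pi.smul_apply]
    exact (smul_zero (A := Mat) r).symm

theorem norm_res_un {c : ℝ} (hc : 0 ≤ c) (S : Set Md) (g : Md → Mat) (q : Md) :
    ‖res S (un c g) q‖ ≤ ‖g q‖ := by
  simp only [res, un]
  split_ifs
  · rw [norm_smul, Real.norm_of_nonneg (Real.exp_pos _).le]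
    refine mul_le_of_le_one_left (norm_nonneg _) ?_
    rw [Real.exp_le_one_iff, neg_nonpos]
    exact mul_nonneg hc (len_nonneg q)
  · rw [norm_zero]; exact norm_nonneg _

theorem summable_res_un {c : ℝ} (hc : 0 ≤ c) (S : Set Md) (g : X) :
    Summable fun q => ‖res S (un c g) q‖ :=
  Summable.of_nonneg_of_le (fun _ => norm_nonneg _) (norm_res_un hc S g) (summable_X g)

/-- coordinates -/
noncomputable def Cq {c : ℝ} (hc : 0 ≤ c) (S : Set Md) (q : Md) : X →L[ℝ] Mat :=
  LinearMap.mkContinuous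
    { toFun := fun g => res S (un c g) q
      map_add' := fun g g' => by
        refine (congrFun (congrArg (res S) (un_add c g g')) q).trans ?_
        exact congrFun (res_add S _ _) q
      map_smul' := fun r g => by
        refine (congrFun (congrArg (res S) (un_smul c r g)) q).trans ?_
        exact congrFun (res_smul S r _) q } 1
    (fun g => by
      rw [one_mul]
      refine (norm_res_un hc S g q).trans ?_
      rw [norm_X]
      exact (summable_X g).le_tsum q (fun _ _ => norm_nonneg _))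

theorem Cq_apply {c : ℝ} (hc : 0 ≤ c) (S : Set Md) (q : Md) (g : X) :
    Cq hc S q g = res S (un c g) q := rfl

/-- evaluation -/
noncomputable def Lθ {c : ℝ} (hc : 0 ≤ c) (S : Set Md) (θ : Md →+ ℝ) : X →L[ℝ] Mat :=
  LinearMap.mkContinuous
    { toFun := fun g => ev θ (res S (un c g))
      map_add' := fun g g' => by
        refine (congrArg (fun x => ev θ (res S x)) (un_add c g g')).trans ?_
        refine (congrArg (ev θ) (res_add S _ _)).trans ?_
        exact ev_add θ (summable_res_un hc S g) (summable_res_un hc S g')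
      map_smul' := fun r g => by
        refine (congrArg (fun x => ev θ (res S x)) (un_smul c r g)).trans ?_
        refine (congrArg (ev θ) (res_smul S r _)).trans ?_
        simp only [ev, Pi.smul_apply, RingHom.id_apply]
        rw [← tsum_const_smul'']
        refine tsum_congr (fun q => ?_)
        rw [smul_comm] } 1
    (fun g => by
      rw [one_mul]
      refine (norm_ev_le θ (summable_res_un hc S g)).trans ?_
      rw [norm_X]
      exact (summable_res_un hc S g).tsum_le_tsum (norm_res_un hc S g) (summable_X g))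

theorem Lθ_apply {c : ℝ} (hc : 0 ≤ c) (S : Set Md) (θ : Md →+ ℝ) (g : X) :
    Lθ hc S θ g = ev θ (res S (un c g)) := rfl

/-- multiplication by a function with modes in `lev n` commutes with the restriction -/
theorem res_mm (n : ℕ) (a f : Md → Mat) (ha : SuppIn (lev n : Set Md) a) :
    res (lev n : Set Md) (mm a f) = mm a (res (lev n : Set Md) f) := by
  funext q
  by_cases hq : q ∈ (lev n : Set Md)
  · simp only [res, if_pos hq, mm, conv, ContinuousLinearMap.compL_apply]
    refine tsum_congr (fun l => ?_)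
    by_cases hl : l ∈ (lev n : Set Md)
    · rw [if_pos hl]
    · rw [if_neg hl, ha (q - l)]
      · simp
      · intro h
        apply hl
        have := (lev n).sub_mem hq h
        rwa [sub_sub_cancel] at this
  · simp only [res, if_neg hq, mm, conv, ContinuousLinearMap.compL_apply]
    symm
    rw [← tsum_zero]
    refine tsum_congr (fun l => ?_)
    by_cases hl : l ∈ (lev n : Set Md)
    · rw [if_pos hl, ha (q - l)]
      · simp
      · intro h
        apply hq
        have := (lev n).add_mem h hl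
        rwa [sub_add_cancel] at this
    · rw [if_neg hl]
      simp

theorem sN_res_le (c : ℝ) (S : Set Md) (f : Md → Mat) : sN c (res S f) ≤ sN c f := by
  unfold sN
  refine ENNReal.tsum_le_tsum (fun q => mul_le_mul_right ?_ _)
  by_cases hq : q ∈ S
  · simp [res, hq]
  · simp only [res, if_neg hq]
    have h0 : ‖(0 : Mat)‖ₑ = 0 := by
      rw [← ofReal_norm, norm_zero, ENNReal.ofReal_zero]
    exact (le_of_eq h0).trans bot_le

/-- the time dependent bound gives the static one -/
theorem sN_le_Nrm {T c : ℝ} (h : ℝ → Md → Mat) {t : ℝ} (ht : t ∈ Icc 0 T) :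
    sN c (h t) ≤ Nrm T c 0 Dat.one' h := by
  unfold sN Nrm
  refine ENNReal.tsum_le_tsum (fun q => ?_)
  refine le_iSup₂_of_le t ht (le_of_eq ?_)
  simp [Dat.one']

theorem sN_oneM (c : ℝ) : sN c oneM = 1 := by
  unfold sN
  rw [tsum_eq_single 0]
  · simp only [oneM, if_true, len_zero, mul_zero, Real.exp_zero, ENNReal.ofReal_one, one_mul]
    rw [← ofReal_norm, ContinuousLinearMap.norm_id, ENNReal.ofReal_one]
  · intro q hq
    simp [oneM, hq]

theorem mulK_oneM : mulK oneM = idK := by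
  funext m l
  by_cases h : m = l <;> simp [mulK, oneM, idK, diagK, sub_eq_zero, h]

/-- continuity in time in the weighted norm -/
theorem tendsto_sN {T c : ℝ} (h : ℝ → Md → Mat) (hcm : CM T h)
    (hN : Nrm T c 0 Dat.one' h ≠ ∞) {t0 : ℝ} (ht0 : t0 ∈ Icc 0 T) :
    Filter.Tendsto (fun t => (sN c (h t - h t0)).toReal) (𝓝[Icc 0 T] t0) (𝓝 0) := by
  set A : Md → ℝ≥0∞ := fun m => ⨆ t ∈ Icc 0 T,
    ENNReal.ofReal (Real.exp ((c - 0 * t) * len m) / Dat.one' t) * ‖h t m‖ₑ with hA
  have hAfin : ∀ m, A m ≠ ∞ := fun m => ENNReal.ne_top_of_tsum_ne_top hN m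
  have hle : ∀ t ∈ Icc 0 T, ∀ m, Real.exp (c * len m) * ‖h t m‖ ≤ (A m).toReal := by
    intro t ht m
    have h1 : ENNReal.ofReal (Real.exp (c * len m)) * ‖h t m‖ₑ ≤ A m := by
      refine le_iSup₂_of_le t ht (le_of_eq ?_)
      simp [Dat.one']
    have h2 := ENNReal.toReal_mono (hAfin m) h1
    rw [ENNReal.toReal_mul, ENNReal.toReal_ofReal (Real.exp_pos _).le, toReal_enorm] at h2
    exact h2
  have hsN : ∀ t ∈ Icc 0 T, (sN c (h t - h t0)).toReal =
      ∑' m, Real.exp (c * len m) * ‖h t m - h t0 m‖ := by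
    intro t ht
    unfold sN
    rw [ENNReal.tsum_toReal_eq]
    · refine tsum_congr (fun m => ?_)
      rw [ENNReal.toReal_mul, ENNReal.toReal_ofReal (Real.exp_pos _).le, toReal_enorm]
      rfl
    · intro m
      exact ENNReal.mul_ne_top ENNReal.ofReal_ne_top enorm_ne_top
  have hlim : Filter.Tendsto (fun t => ∑' m, Real.exp (c * len m) * ‖h t m - h t0 m‖)
      (𝓝[Icc 0 T] t0) (𝓝 (∑' _ : Md, (0 : ℝ))) := by
    refine tendsto_tsum_of_dominated_convergence (bound := fun m => 2 * (A m).toReal) ?_ ?_ ?_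
    · exact (ENNReal.summable_toReal hN).mul_left 2
    · intro m
      have h1 : Filter.Tendsto (fun t => h t m) (𝓝[Icc 0 T] t0) (𝓝 (h t0 m)) := hcm m t0 ht0
      have h2 := (h1.sub_const (h t0 m)).norm.const_mul (Real.exp (c * len m))
      simpa using h2
    · filter_upwards [self_mem_nhdsWithin] with t ht m
      rw [Real.norm_of_nonneg (mul_nonneg (Real.exp_pos _).le (norm_nonneg _))]
      have h1 := hle t ht m
      have h2 := hle t0 ht0 m
      have h3 := norm_sub_le (h t m) (h t0 m)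
      have h4 := mul_le_mul_of_nonneg_left h3 (Real.exp_pos (c * len m)).le
      linarith
  rw [tsum_zero] at hlim
  refine hlim.congr' ?_
  filter_upwards [self_mem_nhdsWithin] with t ht
  exact (hsN t ht).symm

end C04

open C04 in
theorem c04 (h10 : W10) (h11 : W11) : C04 := by
  intro n T c β h hT hc hβ hcm hsupp hN
  have hc0 : 0 ≤ c := hc.le
  have hNfin : Nrm T c 0 Dat.one' h ≠ ∞ := ne_top_of_le_ne_top ENNReal.ofReal_ne_top hN
  have hfin : ∀ x : Icc (0 : ℝ) T, sN c (h x) ≠ ∞ := fun x =>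
    ne_top_of_le_ne_top hNfin (sN_le_Nrm h x.2)
  have hnorm : ∀ x : Icc (0 : ℝ) T, (sN c (h x)).toReal ≤ β := fun x =>
    ENNReal.toReal_le_of_le_ofReal (by linarith) ((sN_le_Nrm h x.2).trans hN)
  set B : Icc (0 : ℝ) T → (X →L[ℝ] X) := fun x => Top h10 h11 hc0 (h x) (hfin x) with hB
  have hBc : Continuous B := by
    rw [continuous_iff_continuousAt]
    intro x0
    refine (tendsto_iff_norm_sub_tendsto_zero (E := X →L[ℝ] X) (f := B)).2 ?_
    have h1 := tendsto_sN h hcm hNfin x0.2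
    have h2 : Filter.Tendsto (fun x : Icc (0 : ℝ) T => (x : ℝ)) (𝓝 x0) (𝓝[Icc 0 T] (x0 : ℝ)) := by
      rw [tendsto_nhdsWithin_iff]
      exact ⟨continuous_subtype_val.continuousAt, Filter.Eventually.of_forall fun x => x.2⟩
    refine squeeze_zero (fun x => norm_nonneg (B x - B x0)) (fun x => ?_) (h1.comp h2)
    have hs : sN c (h x - h x0) ≠ ∞ := by
      refine ne_top_of_le_ne_top (ENNReal.add_ne_top.2 ⟨hfin x, hfin x0⟩) ?_
      unfold sN
      rw [← ENNReal.tsum_add]
      refine ENNReal.tsum_le_tsum (fun m => ?_)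
      rw [← mul_add]
      exact mul_le_mul_right (enorm_sub_le) _
    simp only [hB]
    rw [Top_sub h10 h11 hc0 (h x) (h x0) (hfin x) (hfin x0) hs]
    exact norm_Top h10 h11 hc0 _ hs
  set A : ℝ → (X →L[ℝ] X) := fun t => B (projIcc 0 T hT.le t) with hA
  have hAc : Continuous A := hBc.comp continuous_projIcc
  have hAn : ∀ t, ‖A t‖ ≤ β := fun t => (norm_Top h10 h11 hc0 _ _).trans (hnorm _)
  have hone : sN c oneM ≠ ∞ := by rw [sN_oneM]; simp
  set δ : X := ⟨we c oneM, mem_we c _ hone⟩ with hδ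
  have hδ1 : ‖δ‖ = 1 := by
    have h1 : ‖δ‖ₑ = 1 := by
      rw [enorm_X]
      show ∑' q, ‖we c oneM q‖ₑ = 1
      rw [enorm_we, sN_oneM]
    have h2 := congrArg ENNReal.toReal h1
    simpa using h2
  obtain ⟨u, hu1, hu2, hu3, hu4⟩ := prop_exists A hAc δ β hAn
  have hAt : ∀ t ∈ Icc 0 T, ∀ g : X, un c (A t g) = mm (h t) (un c g) := by
    intro t ht g
    have h1 : projIcc 0 T hT.le t = ⟨t, ht⟩ := projIcc_of_mem hT.le ht
    simp only [hA, hB, h1]
    exact Top_apply h10 h11 hc0 _ _ g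
  set Φ : ℝ → ℝ → Md → Mat := fun t s => res (lev n : Set Md) (un c (u t s)) with hΦ
  have hres : ∀ t ∈ Icc 0 T, ∀ g : X, res (lev n : Set Md) (un c (A t g)) =
      mm (h t) (res (lev n : Set Md) (un c g)) := by
    intro t ht g
    rw [hAt t ht g, res_mm n _ _ (hsupp t ht)]
  have hsN : ∀ s t, sN c (Φ t s) ≤ ENNReal.ofReal (Real.exp (β * |t - s|)) := by
    intro s t
    refine (sN_res_le c _ _).trans ?_
    rw [sN_un, ← ofReal_norm]
    have := hu4 s t
    rw [hδ1, mul_one] at this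
    exact ENNReal.ofReal_le_ofReal this
  have hsum : ∀ s t, Summable fun q => ‖Φ t s q‖ := fun s t => summable_res_un hc0 _ (u t s)
  have hhsum : ∀ t ∈ Icc 0 T, Summable fun q => ‖h t q‖ := by
    intro t ht
    have h1 : sN 0 (h t) ≠ ∞ := by
      obtain ⟨_, _, _, _, _, _, k7, _⟩ := h10 Md Mat Mat Mat c hc0
      exact ne_top_of_le_ne_top (hfin ⟨t, ht⟩) ((k7 0 hc0).2 (h t))
    have h2 : ∑' q, ‖h t q‖ₑ ≠ ∞ := by
      simpa [sN] using h1
    simpa using ENNReal.summable_toReal h2
  have hΦs : ∀ s, Φ s s = oneM := by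
    intro s
    simp only [hΦ, hu2]
    show res (lev n : Set Md) (un c (we c oneM)) = oneM
    rw [un_we]
    funext q
    simp only [res, oneM]
    by_cases hq : q = 0
    · rw [hq, if_pos (show (0 : Md) ∈ (lev n : Set Md) from (lev n).zero_mem)]
    · simp [hq]
  refine ⟨Φ, ⟨?_, ?_, ?_, ?_⟩, ?_, ?_, ?_, ?_⟩
  · intro s hs t ht m l
    have h1 := ((Cq hc0 (lev n : Set Md) (m - l)).hasFDerivAt.comp_hasDerivAt t
      (hu1 s t)).hasDerivWithinAt (s := Icc 0 T)
    rw [kcomp_mulK]
    refine h1.congr_deriv ?_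
    rw [Cq_apply, hres t ht]
    rfl
  · intro s hs
    rw [hΦs, mulK_oneM]
  · intro m l
    exact ((Cq hc0 (lev n : Set Md) (m - l)).continuous.comp hu3).continuousOn
  · refine ⟨ENNReal.ofReal (Real.exp (β * T)), ENNReal.ofReal_ne_top, c, hc, ?_⟩
    intro s hs t ht
    obtain ⟨_, _, _, k4, _⟩ := h10 Md C3 C3 C3 c hc0
    rw [k4]
    refine (hsN s t).trans (ENNReal.ofReal_le_ofReal (Real.exp_le_exp.2 ?_))
    refine mul_le_mul_of_nonneg_left ?_ (by linarith)
    rw [abs_le]
    constructor <;> linarith [hs.1, hs.2, ht.1, ht.2]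
  · intro s _ t _ q hq
    simp only [hΦ, res]
    rw [if_neg hq]
  · intro s _ t _
    exact hsN s t
  · intro s _ t ht θ
    have h1 := ((Lθ hc0 (lev n : Set Md) θ).hasFDerivAt.comp_hasDerivAt t
      (hu1 s t)).hasDerivWithinAt (s := Icc 0 T)
    refine h1.congr_deriv ?_
    rw [Lθ_apply, hres t ht]
    exact ev_conv θ (ContinuousLinearMap.compL ℂ C3 C3 C3) (hhsum t ht) (hsum s t)
  · intro s _ θ
    rw [hΦs]
    unfold ev
    rw [tsum_eq_single 0]
    · simp [oneM, ch_zero]
    · intro q hq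
      simp [oneM, hq]

end Pool.Agent.Work.MP_b0497c_an.Unf.S

end

section

set_option autoImplicit false

/-!
# The two zones at one real label (block K, KZ.md / OK.7)

`Mt` = flow of level `n-1` at the label, `M0` = at the centre, `M'` = flow of level `n` at the label,
`K` = wave vector of sheet `n` (label space), `v`, `v0` = its seeds at the label and at the centre,
`K'` = wave vector of wave `n+1`.
-/

open scoped Topology InnerProductSpace
open Set MeasureTheory

namespace Pool.Agent.Work.MP_b0497c_an.Unf.K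

open Forced.Ode.Linear Forced.Ode

theorem norm_ro (w k : E3) : ‖ro w k‖ = ‖w‖ * ‖k‖ := by
  rw [ro, ContinuousLinearMap.norm_smulRight_apply, innerSL_apply_norm, mul_comm]

theorem ro_sub (w w' k k' : E3) : ro w k - ro w' k' = ro (w - w') k + ro w' (k - k') := by
  ext1 x
  simp only [ro, sub_apply, add_apply, ContinuousLinearMap.smulRight_apply, innerSL_apply_apply,
    inner_sub_left, smul_sub, sub_smul]
  abel

theorem norm_ro_sub_le (w w' k k' : E3) :
    ‖ro w k - ro w' k'‖ ≤ ‖w - w'‖ * ‖k‖ + ‖w'‖ * ‖k - k'‖ := by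
  rw [ro_sub]
  refine (norm_add_le _ _).trans ?_
  rw [norm_ro, norm_ro]

theorem ro_smul (c : ℝ) (w k : E3) : ro (c • w) k = c • ro w k := by
  ext1 x
  simp only [ro, smul_apply, ContinuousLinearMap.smulRight_apply]
  rw [smul_comm]

theorem ro_cont {w k : ℝ → E3} (hw : Continuous w) (hk : Continuous k) :
    Continuous fun t => ro (w t) (k t) := by
  unfold ro
  exact ((ContinuousLinearMap.smulRightL ℝ E3 E3).continuous.comp
    ((innerSL ℝ).continuous.comp hk)).clm_apply hw

section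

variable {V : Type} [NormedAddCommGroup V] [InnerProductSpace ℝ V] [CompleteSpace V]

theorem kelS_smul {M : ℝ → V →L[ℝ] V} (hM : Continuous M) {K : V} (hK : K ≠ 0) (c : ℝ) (v : V)
    (t : ℝ) : kelS M K (c • v) t = c • kelS M K v t := by
  have h : kelS M K (c • v) = fun t => c • kelS M K v t :=
    ode_unique (kelG_cont hM hK) 0 (by simp [kelS_zero]) (kelS_deriv hM hK _) (fun s => by
      have h := (kelS_deriv hM hK v s).fun_const_smul c
      refine h.congr_deriv ?_
      simp)
  rw [h]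

/-- `k · w` is constant along a Kelvin solution. -/
theorem kelS_inner {M : ℝ → V →L[ℝ] V} (hM : Continuous M) {K : V} (hK : K ≠ 0) (v : V) {t : ℝ}
    (ht : 0 ≤ t) : ⟪covec M K t, kelS M K v t⟫_ℝ = ⟪K, v⟫_ℝ := by
  have h := inner_const (M := M) (k := covec M K) (u := kelS M K v) (s := 0) (t := t)
    (fun r _ => covec_deriv hM K r) (fun r _ => covec_ne_zero hM hK r)
    (fun r _ => kelS_deriv hM hK v r) t ⟨ht, le_refl t⟩
  rw [h, covec_zero, kelS_zero]

theorem kelS_le {M : ℝ → V →L[ℝ] V} (hM : Continuous M) {K : V} (hK : K ≠ 0) {T E : ℝ}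
    {α : ℝ → ℝ} (h : PB (kelG M K) 0 T E α) (v : V) {t : ℝ} (ht : t ∈ Icc 0 T) :
    ‖kelS M K v t‖ ≤ E * (α t / α 0) * ‖v‖ := by
  have h1 := h 0 ⟨le_refl _, ht.1.trans ht.2⟩ t ⟨ht.1, ht.2⟩ (kelS M K v)
    (fun r _ => kelS_deriv hM hK v r)
  rwa [kelS_zero] at h1

/-- Two waves in nearby flows. -/
theorem kelS_diff {M M' : ℝ → V →L[ℝ] V} {T B ρ A E : ℝ} {α : ℝ → ℝ} (hM : Continuous M)
    (hM' : Continuous M') (hα : ∀ r ∈ Icc 0 T, 0 < α r)
    (hB : 1 ≤ B) (hρ : 0 ≤ ρ) (hE : 0 ≤ E) (hMM : ∀ r ∈ Icc 0 T, ‖M r - M' r‖ ≤ ρ)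
    (hT : T ≤ 1) (hsm : 2 * (B * ρ) ≤ 1) (hF : FB M' 0 T B) (hA : ∀ r ∈ Icc 0 T, ‖M' r‖ ≤ A)
    {K : V} (hK : K ≠ 0) (h : PB (kelG M K) 0 T E α) (h' : PB (kelG M' K) 0 T E α)
    (v v' : V) {t : ℝ} (ht : t ∈ Icc 0 T) :
    ‖kelS M K v t - kelS M' K v' t‖ ≤
      α t / α 0 * (E * ‖v - v'‖ + E ^ 2 * (3 * ρ + 16 * A * B ^ 3 * ρ) * ‖v‖) := by
  have h0 : (0 : ℝ) ∈ Icc 0 T := ⟨le_refl _, ht.1.trans ht.2⟩
  have hα0 := hα 0 h0
  have hαt := hα t ht
  set κ : ℝ := 3 * ρ + 16 * A * B ^ 3 * ρ with hκ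
  have hA0 : 0 ≤ A := (norm_nonneg _).trans (hA t ht)
  have hκ0 : 0 ≤ κ := by positivity
  have hd : ∀ r ∈ Icc 0 T, ‖kelG M K r - kelG M' K r‖ ≤ κ := by
    intro r hr
    have h1 := hF.kelG_diff hM hM' hB hρ hMM hT hsm hA hK hK (ang := 0) (by simp) hr
    refine h1.trans (le_of_eq ?_)
    rw [hκ]
    ring
  have hsub : Icc 0 t ⊆ Icc 0 T := fun r hr => ⟨hr.1, hr.2.trans ht.2⟩
  have hg : ContinuousOn (fun r => (kelG M K r - kelG M' K r) (kelS M K v r)) (Icc 0 t) :=
    (((kelG_cont hM hK).sub (kelG_cont hM' hK)).clm_apply (kelS_cont hM hK v)).continuousOn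
  have h1 := PB.duhamel (u := fun r => kelS M K v r - kelS M' K v' r)
    (g := fun r => (kelG M K r - kelG M' K r) (kelS M K v r))
    (h := fun _ => κ * (E * ‖v‖ / α 0)) (kelG_cont hM' hK) hα h' h0 ⟨ht.1, ht.2⟩
    continuousOn_const
    (fun r _ => by
      refine ((kelS_deriv hM hK v r).sub (kelS_deriv hM' hK v' r)).congr_deriv ?_
      simp) hg
    (fun r hr => by
      refine (ContinuousLinearMap.le_opNorm _ _).trans ?_
      have h2 := kelS_le hM hK h v (hsub hr)
      calc ‖kelG M K r - kelG M' K r‖ * ‖kelS M K v r‖ ≤ κ * (E * (α r / α 0) * ‖v‖) := by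
            apply mul_le_mul (hd r (hsub hr)) h2 (norm_nonneg _) hκ0
        _ = κ * (E * ‖v‖ / α 0) * α r := by ring) hE
  simp only [kelS_zero, intervalIntegral.integral_const, smul_eq_mul, sub_zero] at h1
  have h2 : t * (κ * (E * ‖v‖ / α 0)) ≤ 1 * (κ * (E * ‖v‖ / α 0)) := by
    apply mul_le_mul_of_nonneg_right (ht.2.trans hT)
    positivity
  calc ‖kelS M K v t - kelS M' K v' t‖
      ≤ E * α t * (‖v - v'‖ / α 0 + t * (κ * (E * ‖v‖ / α 0))) := h1
    _ ≤ E * α t * (‖v - v'‖ / α 0 + 1 * (κ * (E * ‖v‖ / α 0))) := by gcongr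
    _ = α t / α 0 * (E * ‖v - v'‖ + E ^ 2 * κ * ‖v‖) := by
      field_simp

end

/-- The flow of `M + w kᵀ` with `k · w = 0`, `k' = - Mᵀ k`. -/
theorem FB.rank {M : ℝ → Op} {w k : ℝ → E3} {T B Q : ℝ} (hM : Continuous M) (hw : Continuous w)
    (hk : Continuous k) (hB : 1 ≤ B) (hQ : 0 ≤ Q) (hT : T ≤ 1) (h : FB M 0 T B)
    (hkd : ∀ r ∈ Icc 0 T, HasDerivAt k (dg M r (k r)) r)
    (hkw : ∀ r ∈ Icc 0 T, ⟪k r, w r⟫_ℝ = 0)
    (hwk : ∀ r ∈ Icc 0 T, ∀ t ∈ Icc 0 T, ‖w r‖ * ‖k t‖ ≤ Q) :
    FB (fun t => M t + ro (w t) (k t)) 0 T (B * (1 + Q)) := by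
  have hB0 : 0 ≤ B := by linarith
  constructor
  · intro s hs t ht x hx
    have hsub : Icc s t ⊆ Icc 0 T := fun r hr => ⟨hs.1.trans hr.1, hr.2.trans ht.2⟩
    have hd : ∀ r ∈ Icc s t, HasDerivAt (fun r => ⟪k r, x r⟫_ℝ) 0 r := by
      intro r hr
      refine ((hkd r (hsub hr)).inner ℝ (hx r hr)).congr_deriv ?_
      simp only [add_apply, ro, ContinuousLinearMap.smulRight_apply, innerSL_apply_apply,
        inner_add_right, inner_smul_right, hkw r (hsub hr), mul_zero, add_zero, dg, neg_apply,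
        inner_neg_left, ContinuousLinearMap.adjoint_inner_left]
      ring
    have hc : ∀ r ∈ Icc s t, ⟪k r, x r⟫_ℝ = ⟪k s, x s⟫_ℝ :=
      constant_of_has_deriv_right_zero (f := fun r => ⟪k r, x r⟫_ℝ) (a := s) (b := t)
        (fun y hy => (hd y hy).continuousAt.continuousWithinAt)
        (fun y hy => (hd y ⟨hy.1, hy.2.le⟩).hasDerivWithinAt)
    have h1 := PB.duhamel (u := x) (g := fun r => ⟪k s, x s⟫_ℝ • w r)
      (h := fun _ => Q * ‖x s‖) hM (fun _ _ => one_pos) h.flow hs ht
      continuousOn_const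
      (fun r hr => by
        refine (hx r hr).congr_deriv ?_
        simp only [add_apply, ro, ContinuousLinearMap.smulRight_apply, innerSL_apply_apply,
          hc r hr]) (by fun_prop)
      (fun r hr => by
        rw [norm_smul, Real.norm_eq_abs]
        have h2 : |⟪k s, x s⟫_ℝ| ≤ ‖k s‖ * ‖x s‖ := abs_real_inner_le_norm _ _
        have h3 := hwk r (hsub hr) s hs
        calc |⟪k s, x s⟫_ℝ| * ‖w r‖ ≤ ‖k s‖ * ‖x s‖ * ‖w r‖ := by gcongr
          _ = ‖w r‖ * ‖k s‖ * ‖x s‖ := by ring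
          _ ≤ Q * ‖x s‖ * w1 r := by rw [w1, mul_one]; gcongr) hB0
    simp only [w1, div_one, mul_one, intervalIntegral.integral_const, smul_eq_mul] at h1 ⊢
    have h4 : (t - s) * (Q * ‖x s‖) ≤ 1 * (Q * ‖x s‖) := by
      apply mul_le_mul_of_nonneg_right _ (by positivity)
      linarith [hs.1, ht.2]
    calc ‖x t‖ ≤ B * (‖x s‖ + (t - s) * (Q * ‖x s‖)) := h1
      _ ≤ B * (‖x s‖ + 1 * (Q * ‖x s‖)) := by gcongr
      _ = B * (1 + Q) * ‖x s‖ := by ring
  · intro s hs t ht y hy
    have hsub : Icc s t ⊆ Icc 0 T := fun r hr => ⟨hs.1.trans hr.1, hr.2.trans ht.2⟩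
    -- the dual solution of `M`
    set z : ℝ → E3 := sol (dg M) (fun _ => 0) s (y s) with hz
    have hzd : ∀ r, HasDerivAt z (dg M r (z r)) r := by
      intro r
      have h1 := sol_deriv (r := fun _ => (0 : E3)) (dg_cont hM) continuous_const s (y s) r
      refine h1.congr_deriv ?_
      simp [hz]
    have hzs : z s = y s := sol_init _ _ _ _
    have hzc : Continuous z := continuous_iff_continuousAt.2 fun t => (hzd t).continuousAt
    have hzb : ∀ r ∈ Icc s t, ‖z r‖ ≤ B * ‖y s‖ := by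
      intro r hr
      have := h.dual s hs r ⟨hr.1, hr.2.trans ht.2⟩ z fun r _ => hzd r
      simpa [w1, hzs] using this
    set I : ℝ → ℝ := fun r => ∫ q in s..r, ⟪w q, z q⟫_ℝ with hI
    have hIc : Continuous fun q => ⟪w q, z q⟫_ℝ := hw.inner hzc
    have hId : ∀ r, HasDerivAt I (⟪w r, z r⟫_ℝ) r := fun r =>
      intervalIntegral.integral_hasDerivAt_right (hIc.intervalIntegrable _ _)
        hIc.stronglyMeasurable.stronglyMeasurableAtFilter hIc.continuousAt
    -- the difference solves the dual equation of `M + w kᵀ`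
    have hadj : ∀ r x, ContinuousLinearMap.adjoint (ro (w r) (k r)) x = ⟪w r, x⟫_ℝ • k r := by
      intro r x
      refine ext_inner_left ℝ fun e => ?_
      rw [ContinuousLinearMap.adjoint_inner_right, inner_smul_right]
      simp only [ro, ContinuousLinearMap.smulRight_apply, innerSL_apply_apply, inner_smul_left,
        conj_trivial]
      rw [real_inner_comm e (k r)]
      ring
    set A : ℝ → Op := dg fun t => M t + ro (w t) (k t) with hAdef
    have hAc : Continuous A := dg_cont (hM.add (ro_cont hw hk))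
    have hAe : ∀ r x, A r x = dg M r x - ⟪w r, x⟫_ℝ • k r := by
      intro r x
      simp only [hAdef, dg, map_add, neg_apply, add_apply, hadj]
      abel
    have hud : ∀ r ∈ Icc s t, HasDerivAt (fun r => z r - I r • k r)
        (A r (z r - I r • k r)) r := by
      intro r hr
      refine ((hzd r).sub ((hId r).smul (hkd r (hsub hr)))).congr_deriv ?_
      rw [hAe, map_sub, map_smul, inner_sub_right, inner_smul_right, real_inner_comm (k r) (w r),
        hkw r (hsub hr)]
      simp only [mul_zero, sub_zero]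
      abel
    have heq : ∀ r ∈ Icc s t, y r = z r - I r • k r := by
      intro r hr
      have hAn : ContinuousOn (fun r => ‖A r‖) (Icc s t) := hAc.norm.continuousOn
      obtain ⟨C, hC⟩ := isCompact_Icc.bddAbove_image hAn
      have hlip : ∀ r ∈ Ico s t, LipschitzWith (Real.toNNReal (max C 0)) (A r) := by
        intro r hr
        have h1 : ‖A r‖ ≤ C := hC (mem_image_of_mem _ ⟨hr.1, hr.2.le⟩)
        exact (A r).lipschitz.weaken (by
          rw [← NNReal.coe_le_coe, Real.coe_toNNReal _ (le_max_right _ _)]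
          exact h1.trans (le_max_left _ _))
      have h2 := ODE_solution_unique_of_mem_Icc_right (v := fun r x => A r x) (s := fun _ => univ)
        (f := y) (g := fun r => z r - I r • k r) (a := s) (b := t)
        (K := Real.toNNReal (max C 0)) (fun r hr => (hlip r hr).lipschitzOnWith)
        (fun r hr => (hy r hr).continuousAt.continuousWithinAt)
        (fun r hr => (hy r ⟨hr.1, hr.2.le⟩).hasDerivWithinAt) (fun _ _ => mem_univ _)
        (fun r hr => (hud r hr).continuousAt.continuousWithinAt)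
        (fun r hr => (hud r ⟨hr.1, hr.2.le⟩).hasDerivWithinAt) (fun _ _ => mem_univ _)
        (by simp [hI, hzs])
      exact h2 hr
    have htt : t ∈ Icc s t := ⟨ht.1, le_refl t⟩
    have hIb : ‖I t‖ * ‖k t‖ ≤ Q * (B * ‖y s‖) := by
      have h5 : ‖I t‖ * ‖k t‖ = ‖∫ q in s..t, ⟪w q, z q⟫_ℝ * ‖k t‖‖ := by
        rw [intervalIntegral.integral_mul_const, norm_mul, norm_norm]
      rw [h5]
      have h6 : ‖∫ q in s..t, ⟪w q, z q⟫_ℝ * ‖k t‖‖ ≤ (Q * (B * ‖y s‖)) * |t - s| := by
        apply intervalIntegral.norm_integral_le_of_norm_le_const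
        intro r hr
        rw [uIoc_of_le ht.1] at hr
        have hr' : r ∈ Icc s t := ⟨hr.1.le, hr.2⟩
        rw [norm_mul, norm_norm, Real.norm_eq_abs]
        have h7 := hwk r (hsub hr') t (hsub htt)
        calc |⟪w r, z r⟫_ℝ| * ‖k t‖ ≤ ‖w r‖ * ‖z r‖ * ‖k t‖ := by
              gcongr
              exact abs_real_inner_le_norm _ _
          _ = (‖w r‖ * ‖k t‖) * ‖z r‖ := by ring
          _ ≤ Q * (B * ‖y s‖) := mul_le_mul h7 (hzb r hr') (norm_nonneg _) hQ
      refine h6.trans ?_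
      have h8 : |t - s| ≤ 1 := by
        rw [abs_of_nonneg (by linarith [ht.1])]
        linarith [hs.1, ht.2]
      calc Q * (B * ‖y s‖) * |t - s| ≤ Q * (B * ‖y s‖) * 1 := by gcongr
        _ = Q * (B * ‖y s‖) := by ring
    simp only [w1, div_one, mul_one]
    calc ‖y t‖ = ‖z t - I t • k t‖ := by rw [heq t htt]
      _ ≤ ‖z t‖ + ‖I t‖ * ‖k t‖ := by
        refine (norm_sub_le _ _).trans ?_
        rw [norm_smul]
      _ ≤ B * ‖y s‖ + Q * (B * ‖y s‖) := add_le_add (hzb t htt) hIb
      _ = B * (1 + Q) * ‖y s‖ := by ring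

end Pool.Agent.Work.MP_b0497c_an.Unf.K

end
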