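import Pool.Agent.Work.MP_b0497c_an.Unf.WinC
import Pool.Agent.Work.MP_b0497c_an.Bd.B03
import Pool.Agent.Work.MP_b0497c_an.Unf.KOne
import Pool.Agent.Work.MP_b0497c_an.Unf.WinD
import Pool.Agent.Work.MP_b0497c_an.Unf.OT7

/-! Bundle of small proof modules (one section per former module). -/

section

set_option autoImplicit false

/-!
# N3: the exact system for `D.Y`, `D.Z` in the window
-/

open Set ContinuousLinearMap RealInnerProductSpace

namespace Pool.Agent.Work.MP_b0497c_an.Unf.O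

open Forced.Ode (Op)
open Fam K

namespace LevD

variable {D : LevD} {b' : ℝ}

/-- A Kelvin solution of the layer `al`. -/
theorem kelv_of {al t : ℝ} {W : ℝ → E3}
    (hW : HasDerivAt W (kel (D.fam.M al t) (D.fam.K al t) (W t)) t) : D.fam.Kelv al W 0 t := by
  unfold FamD.Kelv
  rw [add_zero, ← kel_eq]
  exact hW

theorem Flo.p_der (h : D.Flo b') {al t : ℝ} (ht : t ∈ Icc 0 D.T) {W : ℝ → E3}
    (hW : HasDerivAt W (kel (D.fam.M al t) (D.fam.K al t) (W t)) t)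
    (h0 : ⟪D.fam.K al t, W t⟫ = 0) :
    HasDerivAt (fun s => -D.fam.p W s)
      (D.fam.Om al t * (‖D.fam.D t‖ ^ 2 / ‖D.fam.K al t‖ ^ 2) * (-D.fam.q al W t)) t := by
  have h1 := (h.ok.pd ht (kelv_of hW) h0).fun_neg
  refine h1.congr_deriv ?_
  rw [inner_zero_left]
  ring

theorem Flo.q_der (h : D.Flo b') {al t : ℝ} (ht : t ∈ Icc 0 D.T) {W : ℝ → E3}
    (hW : HasDerivAt W (kel (D.fam.M al t) (D.fam.K al t) (W t)) t)
    (h0 : ⟪D.fam.K al t, W t⟫ = 0) :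
    HasDerivAt (fun s => -D.fam.q al W s) (2 * D.be al t * (-D.fam.p W t)) t := by
  have h1 := (h.ok.qd ht (kelv_of hW) h0).fun_neg
  refine h1.congr_deriv ?_
  rw [inner_zero_left]
  unfold be
  ring

/-- derivative of `lam^al`'s derivative -/
theorem Flo.lamd_der (h : D.Flo b') (al t : ℝ) :
    HasDerivAt (fun s => -(al * D.fam.phi s)) (-(al * D.phi' t)) t :=
  ((h.phi_der t).const_mul al).fun_neg

/-- N3 for `Y`. -/
theorem Flo.Y_der (h : D.Flo b') {al t : ℝ} (ht : t ∈ Icc 0 D.T) {W : ℝ → E3}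
    (hW : HasDerivAt W (kel (D.fam.M al t) (D.fam.K al t) (W t)) t)
    (h0 : ⟪D.fam.K al t, W t⟫ = 0) (hl : 0 < D.fam.Sl al t) :
    HasDerivAt (D.Y al W) (D.om al t * ((1 + D.er al t) * D.Z al W t +
      (-(D.j al t / 2 * D.er al t)) * D.Y al W t)) t :=
  Y_exact (p := fun s => -D.fam.p W s) (q := fun s => -D.fam.q al W s)
    (lam := D.fam.Sl al) h.a_pos h.kap_pos hl (h.p_der ht hW h0) (h.lam_der al ht)

/-- N3 for `Z`. -/
theorem Flo.Z_der (h : D.Flo b') {al t : ℝ} (ht : t ∈ Icc 0 D.T) {W : ℝ → E3}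
    (hW : HasDerivAt W (kel (D.fam.M al t) (D.fam.K al t) (W t)) t)
    (h0 : ⟪D.fam.K al t, W t⟫ = 0) (hl : 0 < D.fam.Sl al t) :
    HasDerivAt (D.Z al W) (D.om al t * ((D.Ht al t - D.j al t ^ 2 / 4 * D.er al t) * D.Y al W t +
      D.j al t / 2 * D.er al t * D.Z al W t)) t :=
  Z_exact (p := fun s => -D.fam.p W s) (q := fun s => -D.fam.q al W s)
    (lam := D.fam.Sl al) (lamd := fun s => -(al * D.fam.phi s)) (lam'' := -(al * D.phi' t))
    (be := D.be al t) h.a_pos h.kap_pos hl (h.p_der ht hW h0)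
    (h.q_der ht hW h0) (h.lam_der al ht) (h.lamd_der al t)

end LevD

end Pool.Agent.Work.MP_b0497c_an.Unf.O

end

section

set_option autoImplicit false

/-!
# O3: the core wave in the window (`al = 1`)

Bounds of `j`, `Ht - m²`, the primitive of the errors, and the cone lemma for `D.Y`, `D.Z`.
-/

open Set ContinuousLinearMap RealInnerProductSpace

namespace Pool.Agent.Work.MP_b0497c_an.Unf.O

open Forced.Ode (Op)
open Fam K

namespace LevD

variable {D : LevD} {b' : ℝ}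

/-- the growth rate `(2 - c k0)^(1/2)` of the core -/
noncomputable def mc (D : LevD) : ℝ := Real.sqrt (2 - D.c * D.k0)

theorem Kin.ck0_pos (h : D.Kin) : 0 < D.c * D.k0 := mul_pos h.toFlo.c_pos h.k0_pos

theorem Kin.ck0_small (h : D.Kin) : D.c * D.k0 ≤ 1 / 10 ^ 8 := h.ck0

theorem Kin.mc_sq (h : D.Kin) : D.mc ^ 2 = 2 - D.c * D.k0 := by
  have := h.ck0_small
  exact Real.sq_sqrt (by norm_num at this ⊢; linarith)

theorem Kin.mc_nonneg (_h : D.Kin) : 0 ≤ D.mc := Real.sqrt_nonneg _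

theorem Kin.mc_lo (h : D.Kin) : 14 / 10 ≤ D.mc := by
  unfold mc
  apply Real.le_sqrt_of_sq_le
  have := h.ck0_small
  norm_num at this ⊢
  linarith

theorem Kin.mc_hi (h : D.Kin) : D.mc ≤ 1415 / 1000 := by
  unfold mc
  apply Real.sqrt_le_iff.2
  have := h.ck0_pos
  constructor
  · norm_num
  · norm_num
    linarith

theorem Kin.mc_le_sqrt2 (h : D.Kin) : D.mc ≤ Real.sqrt 2 :=
  Real.sqrt_le_sqrt (by linarith [h.ck0_pos])

theorem Kin.c_tiny (h : D.Kin) : D.c ≤ 1 / 10 ^ 12 := by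
  have h1 := h.ck0_small
  have h2 := h.k0_ge
  have h3 := h.toFlo.c_pos
  by_contra hc
  push Not at hc
  have h4 : (1 / 10 ^ 12 : ℝ) * 10 ^ 4 < D.c * D.k0 := by
    calc (1 / 10 ^ 12 : ℝ) * 10 ^ 4 < D.c * 10 ^ 4 := by
          apply mul_lt_mul_of_pos_right hc (by norm_num)
      _ ≤ D.c * D.k0 := by gcongr
  norm_num at h4 h1
  linarith

/-- `|phi| ≤ 2.01 ack |x|` -/
theorem Kin.phi_up (h : D.Kin) {t : ℝ} (ht : t ∈ D.Iw) :
    |D.fam.phi t| ≤ (201 / 100) * (D.a * D.c * D.kap * |t - D.t0|) := by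
  have h1 := h.toFlo.phi_rel (h.nr ht)
  have h2 := h.toFlo.er1_le (h.nr ht)
  have h3 := h.toFlo.ack_pos
  have h4 : 0 ≤ D.a * D.c * D.kap * |t - D.t0| := by positivity
  have h5 : |2 * D.a * D.c * D.kap * (t - D.t0)| = 2 * (D.a * D.c * D.kap * |t - D.t0|) := by
    rw [show 2 * D.a * D.c * D.kap * (t - D.t0) = 2 * ((D.a * D.c * D.kap) * (t - D.t0)) by ring,
      abs_mul, abs_mul, abs_of_pos h3, abs_two]
  have h6 : |D.fam.phi t| ≤ |D.fam.phi t + 2 * D.a * D.c * D.kap * (t - D.t0)| +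
      |2 * D.a * D.c * D.kap * (t - D.t0)| := by
    have := abs_sub (D.fam.phi t + 2 * D.a * D.c * D.kap * (t - D.t0))
      (2 * D.a * D.c * D.kap * (t - D.t0))
    simpa using this
  rw [h5] at h6
  have h7 : D.er1 D.b t * (D.a * D.c * D.kap * |t - D.t0|) ≤
      1 / 400 * (D.a * D.c * D.kap * |t - D.t0|) := mul_le_mul_of_nonneg_right h2 h4
  linarith

/-- `j² ≤ 4.1 c ack x² ≤ 4.1 c Lam` -/
theorem Kin.j_sq (h : D.Kin) {t : ℝ} (ht : t ∈ D.Iw) :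
    D.j 1 t ^ 2 ≤ 41 / 10 * D.c * (D.a * D.c * D.kap * (t - D.t0) ^ 2) := by
  have h1 := h.phi_up ht
  have h2 := h.toFlo.r_sq
  have h3 := h.toFlo.r_pos
  have h4 : D.j 1 t ^ 2 = D.fam.phi t ^ 2 / D.r ^ 2 := by
    unfold j
    rw [div_pow]
    ring
  have ha := h.toFlo.a_pos
  have hk := h.toFlo.kap_pos
  have hc := h.toFlo.c_pos
  rw [h4, h2, div_le_iff₀ (by positivity)]
  have h5 : D.fam.phi t ^ 2 ≤ ((201 / 100) * (D.a * D.c * D.kap * |t - D.t0|)) ^ 2 := by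
    rw [← sq_abs (D.fam.phi t)]
    gcongr
  refine h5.trans ?_
  have h6 : ((201 / 100) * (D.a * D.c * D.kap * |t - D.t0|)) ^ 2 =
      40401 / 10000 * ((D.a * D.c * D.kap) ^ 2 * (t - D.t0) ^ 2) := by
    rw [mul_pow, mul_pow, sq_abs]
    ring
  rw [h6]
  have h7 : 0 ≤ (D.a * D.c * D.kap) ^ 2 * (t - D.t0) ^ 2 := by positivity
  have h8 : 41 / 10 * D.c * (D.a * D.c * D.kap * (t - D.t0) ^ 2) * (D.a * D.kap) =
      41 / 10 * ((D.a * D.c * D.kap) ^ 2 * (t - D.t0) ^ 2) := by ring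
  rw [h8]
  nlinarith

theorem Kin.j_sq' (h : D.Kin) {t : ℝ} (ht : t ∈ D.Iw) : D.j 1 t ^ 2 ≤ 42 / 10 * (D.c * D.lam1 t) := by
  have h1 := h.j_sq ht
  have h2 := h.ackx_le t
  have h3 := h.lam1_lo ht
  have hc := h.toFlo.c_pos
  have h4 : 41 / 10 * D.c * (D.a * D.c * D.kap * (t - D.t0) ^ 2) ≤ 41 / 10 * D.c * D.Lam t := by
    gcongr
  have h5 : 41 / 10 * D.c * D.Lam t ≤ 42 / 10 * (D.c * D.lam1 t) := by
    have h6 : D.c * (0.99 * D.Lam t) ≤ D.c * D.lam1 t := by gcongr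
    have h7 := h.Lam_pos t
    have h8 : 0 < D.c * D.Lam t := by positivity
    nlinarith
  linarith

theorem j_abs (x : ℝ) : |x| ≤ 1 + x ^ 2 / 4 := by
  rw [abs_le]
  constructor
  · nlinarith [sq_nonneg (x / 2 + 1)]
  · nlinarith [sq_nonneg (x / 2 - 1)]

/-- `|j²/4 - c ack x²| ≤ 1.1 er1 c ack x²` -/
theorem Kin.j_near (h : D.Kin) {t : ℝ} (ht : t ∈ D.Iw) :
    |D.j 1 t ^ 2 / 4 - D.c * (D.a * D.c * D.kap * (t - D.t0) ^ 2)| ≤
      11 / 10 * D.er1 D.b t * (D.c * (D.a * D.c * D.kap * (t - D.t0) ^ 2)) := by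
  have h1 := h.toFlo.phi_rel (h.nr ht)
  have h2 := h.toFlo.er1_le (h.nr ht)
  have h2' := h.toFlo.er1_nonneg t
  have h3 := h.toFlo.r_sq
  have hr := h.toFlo.r_pos
  have ha := h.toFlo.a_pos
  have hk := h.toFlo.kap_pos
  have hc := h.toFlo.c_pos
  have hack := h.toFlo.ack_pos
  have h4 : D.j 1 t ^ 2 / 4 = D.fam.phi t ^ 2 / (4 * (D.a * D.kap)) := by
    unfold j
    rw [div_pow, h3]
    ring
  have h5 : D.c * (D.a * D.c * D.kap * (t - D.t0) ^ 2) =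
      (2 * D.a * D.c * D.kap * (t - D.t0)) ^ 2 / (4 * (D.a * D.kap)) := by
    field_simp
    ring
  rw [h4]
  have h6 : D.fam.phi t ^ 2 / (4 * (D.a * D.kap)) - D.c * (D.a * D.c * D.kap * (t - D.t0) ^ 2) =
      (D.fam.phi t + 2 * D.a * D.c * D.kap * (t - D.t0)) *
      (D.fam.phi t - 2 * D.a * D.c * D.kap * (t - D.t0)) / (4 * (D.a * D.kap)) := by
    rw [h5]
    ring
  rw [h6, abs_div, abs_mul, abs_of_pos (by positivity : (0:ℝ) < 4 * (D.a * D.kap)),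
    div_le_iff₀ (by positivity)]
  have h7 : |D.fam.phi t - 2 * D.a * D.c * D.kap * (t - D.t0)| ≤
      (401 / 100) * (D.a * D.c * D.kap * |t - D.t0|) := by
    have h8 := h.phi_up ht
    have h9 : |2 * D.a * D.c * D.kap * (t - D.t0)| = 2 * (D.a * D.c * D.kap * |t - D.t0|) := by
      rw [show 2 * D.a * D.c * D.kap * (t - D.t0) = 2 * ((D.a * D.c * D.kap) * (t - D.t0)) by ring,
        abs_mul, abs_mul, abs_of_pos hack, abs_two]
    refine (abs_sub _ _).trans ?_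
    rw [h9]
    linarith
  have hx : |t - D.t0| * |t - D.t0| = (t - D.t0) ^ 2 := by rw [← sq, sq_abs]
  have h10 : 0 ≤ D.a * D.c * D.kap * |t - D.t0| := by positivity
  calc |D.fam.phi t + 2 * D.a * D.c * D.kap * (t - D.t0)| *
        |D.fam.phi t - 2 * D.a * D.c * D.kap * (t - D.t0)|
      ≤ (D.er1 D.b t * (D.a * D.c * D.kap * |t - D.t0|)) *
        ((401 / 100) * (D.a * D.c * D.kap * |t - D.t0|)) := by gcongr
    _ = 401 / 100 * D.er1 D.b t * ((D.a * D.c * D.kap) ^ 2 * (|t - D.t0| * |t - D.t0|)) := by ring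
    _ = 401 / 100 * (D.er1 D.b t * ((D.a * D.c * D.kap) ^ 2 * (t - D.t0) ^ 2)) := by
      rw [hx]
      ring
    _ ≤ 44 / 10 * (D.er1 D.b t * ((D.a * D.c * D.kap) ^ 2 * (t - D.t0) ^ 2)) :=
      mul_le_mul_of_nonneg_right (by norm_num) (by positivity)
    _ = _ := by ring

/-- `Ht - m²` -/
theorem Kin.Ht_near (h : D.Kin) {t : ℝ} (ht : t ∈ D.Iw) :
    |D.Ht 1 t - D.mc ^ 2| ≤ 10 * D.b ^ 3 * |t - D.t0| * (1 + D.lam1 t) := by
  have hb := h.b_ge'
  have hb0 : 0 < D.b := by linarith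
  have hkap := h.toFlo.kap_ge
  have hk := h.toFlo.kap_pos
  have ha := h.toFlo.a_pos
  have hc := h.toFlo.c_pos
  have hack := h.toFlo.ack_pos
  have hl := h.lam1_pos ht
  have hL := h.Lam_pos t
  have hlo := h.lam1_lo ht
  have her0 := h.toFlo.er1_nonneg t
  have h1 := h.toFlo.be_near (al := 1) (h.nr ht) (by rw [Sl_one]; exact hl.le)
  rw [Sl_one] at h1
  have h2 := h.toFlo.phi'_rel (h.nr ht)
  have h3 := h.j_near ht
  have h4 := h.lam1_Lam ht
  have hax := h.ackx_le t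
  have hr2 := h.toFlo.r_sq
  set x := t - D.t0 with hx
  set P := D.a * D.c * D.kap with hP
  have hLam : D.Lam t = D.k0 + P * x ^ 2 := rfl
  -- the three terms
  have e1 : |2 * D.be 1 t / D.kap - 2 * (1 - D.c * D.lam1 t)| ≤
      68 * D.b * D.uu D.b t * (1 + D.lam1 t) := by
    have : 2 * D.be 1 t / D.kap - 2 * (1 - D.c * D.lam1 t) =
        2 / D.kap * (D.be 1 t - D.kap * (1 - D.c * D.lam1 t)) := by
      field_simp
    rw [this, abs_mul, abs_of_pos (by positivity : (0:ℝ) < 2 / D.kap)]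
    have h5 : 2 / D.kap ≤ 4 := by
      rw [div_le_iff₀ hk]
      linarith
    have h6 : 0 ≤ 17 * D.b * D.uu D.b t * (1 + D.lam1 t) := (abs_nonneg _).trans h1
    calc 2 / D.kap * |D.be 1 t - D.kap * (1 - D.c * D.lam1 t)| ≤
          4 * (17 * D.b * D.uu D.b t * (1 + D.lam1 t)) := mul_le_mul h5 h1 (abs_nonneg _) (by norm_num)
      _ = _ := by ring
  have e2 : |D.lam1 t * (-(1 * D.phi' t)) / (2 * D.r ^ 2) - D.c * D.lam1 t| ≤
      D.er1 D.b t * (D.c * D.lam1 t) := by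
    rw [hr2]
    have : D.lam1 t * (-(1 * D.phi' t)) / (2 * (D.a * D.kap)) - D.c * D.lam1 t =
        -(D.phi' t + 2 * D.a * D.c * D.kap) * (D.lam1 t / (2 * (D.a * D.kap))) := by
      field_simp
      ring
    rw [this, abs_mul, abs_neg, abs_of_pos (by positivity : 0 < D.lam1 t / (2 * (D.a * D.kap)))]
    calc |D.phi' t + 2 * D.a * D.c * D.kap| * (D.lam1 t / (2 * (D.a * D.kap))) ≤
          D.er1 D.b t * (D.a * D.c * D.kap) * (D.lam1 t / (2 * (D.a * D.kap))) := by gcongr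
      _ = D.er1 D.b t * (D.c * D.lam1 t) / 2 := by field_simp
      _ ≤ D.er1 D.b t * (D.c * D.lam1 t) := by
        have : 0 ≤ D.er1 D.b t * (D.c * D.lam1 t) := by positivity
        linarith
  have e3 : |D.j 1 t ^ 2 / 4 - D.c * (P * x ^ 2)| ≤ 12 / 10 * (D.er1 D.b t * (D.c * D.lam1 t)) := by
    refine h3.trans ?_
    have h7 : P * x ^ 2 ≤ 100 / 99 * D.lam1 t := by
      have : D.Lam t ≤ 100 / 99 * D.lam1 t := by linarith
      linarith
    calc 11 / 10 * D.er1 D.b t * (D.c * (P * x ^ 2)) ≤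
          11 / 10 * D.er1 D.b t * (D.c * (100 / 99 * D.lam1 t)) := by gcongr
      _ = 110 / 99 * (D.er1 D.b t * (D.c * D.lam1 t)) := by ring
      _ ≤ _ := by
        have : 0 ≤ D.er1 D.b t * (D.c * D.lam1 t) := by positivity
        linarith
  have e4 : |D.c * (D.Lam t - D.lam1 t)| ≤ 11 / 10 * (D.er1 D.b t * (D.c * D.lam1 t)) := by
    rw [abs_mul, abs_of_pos hc, abs_sub_comm]
    calc D.c * |D.lam1 t - D.Lam t| ≤ D.c * (D.er1 D.b t * D.Lam t) := by gcongr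
      _ ≤ D.c * (D.er1 D.b t * (100 / 99 * D.lam1 t)) := by
        gcongr
        linarith
      _ ≤ _ := by
        have : 0 ≤ D.er1 D.b t * (D.c * D.lam1 t) := by positivity
        nlinarith
  have h8 : D.Ht 1 t - D.mc ^ 2 = (2 * D.be 1 t / D.kap - 2 * (1 - D.c * D.lam1 t)) +
      (D.lam1 t * (-(1 * D.phi' t)) / (2 * D.r ^ 2) - D.c * D.lam1 t) +
      (D.j 1 t ^ 2 / 4 - D.c * (P * x ^ 2)) + D.c * (D.Lam t - D.lam1 t) := by
    rw [h.mc_sq, hLam]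
    unfold Ht
    rw [Sl_one]
    ring
  rw [h8]
  have h9 : |(2 * D.be 1 t / D.kap - 2 * (1 - D.c * D.lam1 t)) +
      (D.lam1 t * (-(1 * D.phi' t)) / (2 * D.r ^ 2) - D.c * D.lam1 t) +
      (D.j 1 t ^ 2 / 4 - D.c * (P * x ^ 2)) + D.c * (D.Lam t - D.lam1 t)| ≤
      68 * D.b * D.uu D.b t * (1 + D.lam1 t) + D.er1 D.b t * (D.c * D.lam1 t) +
      12 / 10 * (D.er1 D.b t * (D.c * D.lam1 t)) + 11 / 10 * (D.er1 D.b t * (D.c * D.lam1 t)) := by
    refine (abs_add_le _ _).trans (add_le_add ((abs_add_le _ _).trans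
      (add_le_add ((abs_add_le _ _).trans (add_le_add e1 e2)) e3)) e4)
  refine h9.trans ?_
  have hct := h.c_tiny
  have hxx : 0 ≤ |x| := abs_nonneg x
  have h10 : D.er1 D.b t * (D.c * D.lam1 t) ≤ 1 / 100 * (D.b ^ 3 * |x| * (1 + D.lam1 t)) := by
    unfold er1
    calc 60 * D.b ^ 3 * |x| * (D.c * D.lam1 t) ≤ 60 * D.b ^ 3 * |x| * (1 / 10 ^ 12 * (1 + D.lam1 t)) := by
          gcongr
          linarith
      _ = 60 / 10 ^ 12 * (D.b ^ 3 * |x| * (1 + D.lam1 t)) := by ring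
      _ ≤ _ := mul_le_mul_of_nonneg_right (by norm_num) (by positivity)
  have h11 : 68 * D.b * D.uu D.b t * (1 + D.lam1 t) ≤ 68 / 10 * (D.b ^ 3 * |x| * (1 + D.lam1 t)) := by
    unfold uu
    have h12 : D.b * D.b ≤ D.b ^ 3 / 10 := by
      have : D.b ^ 3 = D.b * (D.b * D.b) := by ring
      rw [this]
      nlinarith [mul_pos hb0 hb0]
    calc 68 * D.b * (D.b * |x|) * (1 + D.lam1 t) = 68 * (D.b * D.b) * (|x| * (1 + D.lam1 t)) := by ring
      _ ≤ 68 * (D.b ^ 3 / 10) * (|x| * (1 + D.lam1 t)) := by gcongr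
      _ = _ := by ring
  have h13 : 0 ≤ D.b ^ 3 * |x| * (1 + D.lam1 t) := by positivity
  nlinarith

end LevD

end Pool.Agent.Work.MP_b0497c_an.Unf.O

end

section

set_option autoImplicit false

/-!
# Block O: THEOREM O, the level hypothesis of the next level
-/

open Set ContinuousLinearMap RealInnerProductSpace

namespace Pool.Agent.Work.MP_b0497c_an.Unf.O

open Forced.Ode (Op)
open Fam K

namespace LevD

namespace Nx

variable {D : LevD} {N : NextD}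

theorem next_eta (D : LevD) (N : NextD) : (D.next N).eta =
    100 / (N.k0 ^ 2 * Real.sqrt ((D.next N).c * N.k0)) + N.k0 / N.k2 +
      100 * (D.next N).c / N.k2 + (N.h)⁻¹ := rfl

theorem Hy.N_k0_pos (y : Hy D N) : 0 < N.k0 := by
  have := y.so.k0_ge
  linarith [show (0:ℝ) < 10 ^ 4 by norm_num]

theorem Hy.eta_next (y : Hy D N) : (D.next N).eta ≤ 1 / 10 ^ 4 := by
  rw [next_eta]
  refine le_trans ?_ y.so.eta
  have hk0 := y.N_k0_pos
  have hk2 := y.N_k2_pos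
  have hc := y.c_pos
  have hD2 : 0 < D.k2 := by linarith [y.k2_ge]
  have h1 : 100 / (N.k0 ^ 2 * Real.sqrt ((D.next N).c * N.k0)) ≤
      200 * Real.sqrt D.k2 / (N.k0 ^ 2 * Real.sqrt N.k0) := by
    have hs0 : 0 < Real.sqrt N.k0 := Real.sqrt_pos.2 hk0
    have hsc : 0 < Real.sqrt (D.next N).c := Real.sqrt_pos.2 hc
    have hs2 : 0 < Real.sqrt D.k2 := Real.sqrt_pos.2 hD2
    rw [Real.sqrt_mul hc.le, div_le_div_iff₀ (by positivity) (by positivity)]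
    have h2 : 1 ≤ 2 * (Real.sqrt D.k2 * Real.sqrt (D.next N).c) := by
      rw [← Real.sqrt_mul hD2.le]
      have h3 : (1 / 2 : ℝ) ≤ Real.sqrt (D.k2 * (D.next N).c) := by
        apply Real.le_sqrt_of_sq_le
        have := y.ck_ge
        nlinarith
      linarith
    have h4 : 0 < 100 * (N.k0 ^ 2 * Real.sqrt N.k0) := by positivity
    calc 100 * (N.k0 ^ 2 * Real.sqrt N.k0) = 100 * (N.k0 ^ 2 * Real.sqrt N.k0) * 1 := by ring
      _ ≤ 100 * (N.k0 ^ 2 * Real.sqrt N.k0) *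
          (2 * (Real.sqrt D.k2 * Real.sqrt (D.next N).c)) := mul_le_mul_of_nonneg_left h2 h4.le
      _ = _ := by ring
  have h5 : 100 * (D.next N).c / N.k2 ≤ 200 / (D.k2 * N.k2) := by
    rw [div_le_div_iff₀ hk2 (by positivity)]
    have := y.ck_le
    have h6 : 100 * ((D.next N).c * D.k2) * N.k2 ≤ 200 * N.k2 :=
      mul_le_mul_of_nonneg_right (by linarith) hk2.le
    linarith
  linarith

theorem Hy.kin (y : Hy D N) (h2 : T2) (h3 : T3) (hc : CL4) : (D.next N).Kin where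
  toFlo := Flo_mono y.flo y.bp_le_b
  h_ge := y.so.h_ge
  T_eq := rfl
  far := y.far h2 h3 hc
  k0_ge := y.so.k0_ge
  k0_le := y.so.k0_le
  k2_ge := by
    show 1 ≤ N.k2
    have h1 := y.so.k2k2
    have h4 := y.k2_ge
    linarith
  k2_le := y.so.k2_le
  ck0 := by
    show (D.next N).c * N.k0 ≤ 1 / 10 ^ 8
    have h1 := y.ck_le
    have h0 := y.so.k0_ge
    have h4 : 2 * 10 ^ 8 * N.k0 ≤ D.k2 := by
      have := y.so.k0k2
      nlinarith
    have h5 := y.c_pos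
    have h6 := mul_le_mul_of_nonneg_left h4 h5.le
    linarith
  ck0sq := by
    show (D.next N).c * N.k0 ^ 2 ≤ 1
    have h1 := y.ck_le
    have h4 := y.so.k0k2
    have h5 := y.c_pos
    have h6 := mul_le_mul_of_nonneg_left h4 h5.le
    linarith
  ck2 := by
    show 10 ^ 4 ≤ (D.next N).c * N.k2
    have h1 := y.ck_ge
    have h4 := y.so.k2k2
    have h5 := y.c_pos
    have h6 := mul_le_mul_of_nonneg_left h4 h5.le
    linarith
  eta_le := y.eta_next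

theorem Hy.kel_eq (y : Hy D N) : (fun t => kel ((D.next N).A t) ((D.next N).n t)) =
    fun t => kel (N.A t) (N.k t) := by
  funext t
  rw [next_n, kel_smul _ (inv_ne_zero y.k1_pos.ne')]
  rfl

theorem Hy.h151 (y : Hy D N) : D.h ^ 151 ≤ N.b :=
  (y.pow_le (by norm_num)).trans y.bp_le_b

theorem Hy.size (y : Hy D N) {t : ℝ} (ht : t ∈ Icc 0 D.T) :
    (N.b)⁻¹ ≤ ‖N.V t‖ / ‖N.V D.t1‖ * (D.alp D.t1 / D.alp t) ∧
    ‖N.V t‖ / ‖N.V D.t1‖ * (D.alp D.t1 / D.alp t) ≤ N.b := by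
  have h4 := (y.t4 D N y.hl y.so).2
  have hV := y.V1_pos
  have ha1 := y.alp_pos y.t1_mem
  have hat := y.alp_pos ht
  have hh := y.h_pos
  have hb : D.h ^ 101 ≤ N.b := (y.pow_le (by norm_num)).trans y.bp_le_b
  have hb' : (N.b)⁻¹ ≤ (D.h ^ 101)⁻¹ := inv_anti₀ (by positivity) hb
  have key : D.alp D.t1 / D.alp t * ‖N.V t‖ ≤ D.h ^ 101 * ‖N.V D.t1‖ ∧
      ‖N.V D.t1‖ ≤ D.h ^ 101 * (D.alp D.t1 / D.alp t) * ‖N.V t‖ := by
    rcases le_total t D.t1 with h | h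
    · exact h4 t ht D.t1 ⟨h, y.t1_mem.2⟩
    · obtain ⟨a1, a2⟩ := h4 D.t1 y.t1_mem t ⟨h, ht.2⟩
      constructor
      · calc D.alp D.t1 / D.alp t * ‖N.V t‖
            ≤ D.alp D.t1 / D.alp t * (D.h ^ 101 * (D.alp t / D.alp D.t1) * ‖N.V D.t1‖) := by
              gcongr
          _ = _ := by field_simp
      · calc ‖N.V D.t1‖ = D.alp D.t1 / D.alp t * (D.alp t / D.alp D.t1 * ‖N.V D.t1‖) := by
              field_simp
          _ ≤ D.alp D.t1 / D.alp t * (D.h ^ 101 * ‖N.V t‖) := by gcongr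
          _ = _ := by ring
  constructor
  · refine hb'.trans ?_
    rw [inv_eq_one_div, div_le_iff₀ (by positivity)]
    have := key.2
    calc (1 : ℝ) = ‖N.V D.t1‖ / ‖N.V D.t1‖ := by field_simp
      _ ≤ (D.h ^ 101 * (D.alp D.t1 / D.alp t) * ‖N.V t‖) / ‖N.V D.t1‖ :=
          div_le_div_of_nonneg_right key.2 hV.le
      _ = _ := by ring
  · refine le_trans ?_ hb
    calc ‖N.V t‖ / ‖N.V D.t1‖ * (D.alp D.t1 / D.alp t)
        = (D.alp D.t1 / D.alp t * ‖N.V t‖) / ‖N.V D.t1‖ := by ring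
      _ ≤ (D.h ^ 101 * ‖N.V D.t1‖) / ‖N.V D.t1‖ := div_le_div_of_nonneg_right key.1 hV.le
      _ = D.h ^ 101 := by field_simp

theorem Hy.v_div (y : Hy D N) (t : ℝ) :
    ‖(D.next N).v t‖ / (D.next N).a = ‖N.V t‖ / ‖N.V D.t1‖ := by
  have hV := y.V1_pos
  have hH := y.H_pos
  rw [next_v, norm_smul, next_a, Real.norm_eq_abs, abs_of_pos (by positivity)]
  field_simp

theorem Hy.hlNext (y : Hy D N) (h2 : T2) (h3 : T3) (hc : CL4) (hn : N1w) : (D.next N).HL where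
  toKin := y.kin h2 h3 hc
  v_le t ht := (y.v_le ht).trans (mul_le_mul_of_nonneg_right y.bp_le_b y.a_pos.le)
  g_ge t ht := y.h4 h2 h3 hc hn ht
  al_pos t ht := y.alp_pos (y.sub ht)
  al_mono := y.alp_mono.mono fun _ ht => y.sub ht
  al_lip s hs t ht := by
    have h1 := (y.t6 D y.hl).2.2.1 s (y.sub hs) t ⟨ht.1, ht.2.trans y.T_le⟩
    refine h1.trans (mul_le_mul_of_nonneg_left (Real.exp_le_exp.2 ?_) (y.alp_pos (y.sub hs)).le)
    exact mul_le_mul_of_nonneg_right ((y.pow_le (by norm_num)).trans y.bp_le_b)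
      (by linarith [ht.1])
  prop := by
    show PB (fun t => kel ((D.next N).A t) ((D.next N).n t)) 0 (D.next N).T N.b D.alp
    rw [y.kel_eq]
    intro s hs t ht u hu
    have h1 := (y.t4 D N y.hl y.so).1 s (y.sub hs) t ⟨ht.1, ht.2.trans y.T_le⟩ u hu
    refine h1.trans ?_
    have h5 := y.alp_pos (y.sub hs)
    have h6 : 0 < D.alp t := y.alp_pos ⟨(y.sub hs).1.trans ht.1, ht.2.trans y.T_le⟩
    have h7 : 0 ≤ D.alp t / D.alp s * ‖u s‖ := by positivity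
    calc D.h ^ 151 * (D.alp t / D.alp s) * ‖u s‖ = D.h ^ 151 * (D.alp t / D.alp s * ‖u s‖) := by
          ring
      _ ≤ N.b * (D.alp t / D.alp s * ‖u s‖) := mul_le_mul_of_nonneg_right y.h151 h7
      _ = _ := by ring
  v_size t ht := by
    rw [y.v_div]
    exact y.size (y.sub ht)

end Nx

/-- THEOREM O from the pieces. -/
theorem thmOof : T1c → T2 → T3 → T4 → T5 → T6 → CL4 → N1w → ThmO := by
  intro h1 h2 h3 h4 h5 h6 hc hn D N hD hs
  have y : Nx.Hy D N := ⟨hD, hs, h1, h4, h5, h6⟩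
  exact ⟨y.hlNext h2 h3 hc hn, (h5 D N hD hs).1, (h5 D N hD hs).2.1, y.T_le⟩

end LevD

end Pool.Agent.Work.MP_b0497c_an.Unf.O

end

section

set_option autoImplicit false

/-!
# O3: primitives of the rate and of the errors, the cone lemma for `D.Y`, `D.Z`
-/

open Set ContinuousLinearMap RealInnerProductSpace

namespace Pool.Agent.Work.MP_b0497c_an.Unf.O

open Forced.Ode (Op)
open Fam K

namespace LevD

variable {D : LevD} {b' : ℝ}

theorem Kin.sqck_pos (h : D.Kin) : 0 < Real.sqrt (D.c * D.k0) := Real.sqrt_pos.2 h.ck0_pos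

theorem Kin.At_diff (h : D.Kin) (x y : ℝ) : D.At y - D.At x ≤ Real.pi / Real.sqrt (D.c * D.k0) := by
  unfold At
  rw [← sub_div]
  apply div_le_div_of_nonneg_right _ h.sqck_pos.le
  have h1 := Real.arctan_lt_pi_div_two (Real.sqrt (D.c / D.k0) * D.r * (y - D.t0))
  have h2 := Real.neg_pi_div_two_lt_arctan (Real.sqrt (D.c / D.k0) * D.r * (x - D.t0))
  linarith

theorem Kin.lam1_cont (h : D.Kin) : Continuous D.lam1 := by
  have := h.toFlo.Sl_cont 1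
  rwa [Sl_one'] at this

/-- primitive of the rate `om` of the core (`om` is cut off outside the window) -/
noncomputable def Omp (D : LevD) (t : ℝ) : ℝ :=
  ∫ x in D.s0..t, D.r / max (D.lam1 x) (D.k0 / 2)

theorem Kin.Omp_der0 (h : D.Kin) (t : ℝ) :
    HasDerivAt D.Omp (D.r / max (D.lam1 t) (D.k0 / 2)) t := by
  have hk0 := h.k0_pos
  have hc : Continuous fun x => D.r / max (D.lam1 x) (D.k0 / 2) := by
    apply continuous_const.div (h.lam1_cont.max continuous_const)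
    intro x
    have : 0 < max (D.lam1 x) (D.k0 / 2) := lt_max_of_lt_right (by linarith)
    exact this.ne'
  exact intervalIntegral.integral_hasDerivAt_right (hc.intervalIntegrable _ _)
    (hc.stronglyMeasurableAtFilter _ _) hc.continuousAt

theorem Kin.Omp_der (h : D.Kin) {t : ℝ} (ht : t ∈ D.Iw) : HasDerivAt D.Omp (D.om 1 t) t := by
  refine (h.Omp_der0 t).congr_deriv ?_
  unfold om
  rw [Sl_one, max_eq_left]
  have := h.lam1_k0 ht
  have := h.k0_pos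
  linarith

theorem Kin.om_pos (h : D.Kin) {t : ℝ} (ht : t ∈ D.Iw) : 0 < D.om 1 t := by
  unfold om
  rw [Sl_one]
  exact div_pos h.toFlo.r_pos (h.lam1_pos ht)

/-- `|om - r / Lam| ≤ b³ w r / 100` -/
theorem Kin.om_near (h : D.Kin) {t : ℝ} (ht : t ∈ D.Iw) :
    |D.om 1 t - D.r / D.Lam t| ≤ D.b ^ 3 * D.w * D.r / 100 := by
  have hl := h.lam1_pos ht
  have hL := h.Lam_pos t
  have hr := h.toFlo.r_pos
  have h1 := h.lam1_Lam ht
  have h2 := h.er1_w ht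
  have h3 := h.Sl_big (al := 1) (le_refl 1) ht
  have hw := h.w_pos
  have hb : 0 < D.b := by linarith [h.b_ge']
  rw [Sl_one] at h3
  unfold om
  rw [Sl_one]
  have h4 : D.r / D.lam1 t - D.r / D.Lam t = D.r * (D.Lam t - D.lam1 t) / (D.lam1 t * D.Lam t) := by
    field_simp
  rw [h4, abs_div, abs_mul, abs_of_pos hr, abs_of_pos (by positivity : 0 < D.lam1 t * D.Lam t),
    div_le_iff₀ (by positivity), abs_sub_comm]
  calc D.r * |D.lam1 t - D.Lam t| ≤ D.r * ((60 * D.b ^ 3 * D.w) * D.Lam t) := by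
        gcongr
        exact h1.trans (mul_le_mul_of_nonneg_right h2 hL.le)
    _ ≤ D.b ^ 3 * D.w * D.r / 100 * (9900 * D.Lam t) := by
        have : 0 ≤ D.b ^ 3 * D.w * D.r * D.Lam t := by positivity
        nlinarith
    _ ≤ D.b ^ 3 * D.w * D.r / 100 * (D.lam1 t * D.Lam t) := by gcongr

/-- primitive of the errors -/
noncomputable def Ee (D : LevD) (t : ℝ) : ℝ :=
  5 / D.k0 ^ 2 * D.At t + 11 * D.b ^ 3 * D.w * D.r * t

theorem Kin.Ee_der (h : D.Kin) (t : ℝ) :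
    HasDerivAt D.Ee (5 / D.k0 ^ 2 * (D.r / D.Lam t) + 11 * D.b ^ 3 * D.w * D.r) t := by
  have h1 := ((h.At_der t).const_mul (5 / D.k0 ^ 2)).fun_add
    ((hasDerivAt_id t).const_mul (11 * D.b ^ 3 * D.w * D.r))
  refine h1.congr_deriv ?_
  ring

theorem Kin.r_le (h : D.Kin) : D.r ≤ 3 / 2 * D.h ^ 12 := by
  unfold r
  have hh := h.toFlo.h_pos
  apply Real.sqrt_le_iff.2
  constructor
  · positivity
  · have h1 := h.toFlo.kap_le
    have h2 : (3 / 2 * D.h ^ 12) ^ 2 = 9 / 4 * D.a := by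
      unfold a
      ring
    rw [h2]
    have := h.toFlo.a_pos
    nlinarith

/-- `b³ r w² ≤ 10⁻⁹⁰ / h` -/
theorem Kin.brw (h : D.Kin) : D.b ^ 3 * D.w * D.r * D.w ≤ 1 / 10 ^ 90 * (D.h)⁻¹ := by
  have h1 := h.r_le
  have h2 := h.ten_le (k := 3) (m := 100) (by norm_num)
  have hh := h.toFlo.h_pos
  have hw := h.w_pos
  have hr := h.toFlo.r_pos
  have hb : 0 < D.b := by linarith [h.b_ge']
  have h3 : D.b ^ 3 ≤ 1 / 10 ^ 100 * D.h := by
    rw [div_mul_eq_mul_div, one_mul, le_div_iff₀ (by positivity)]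
    linarith
  calc D.b ^ 3 * D.w * D.r * D.w ≤ (1 / 10 ^ 100 * D.h) * D.w * (3 / 2 * D.h ^ 12) * D.w := by
        gcongr
    _ = 3 / 2 / 10 ^ 100 * (D.h)⁻¹ := by
        unfold w
        field_simp
    _ ≤ 1 / 10 ^ 90 * (D.h)⁻¹ := mul_le_mul_of_nonneg_right (by norm_num) (by positivity)

theorem Kin.len_le (h : D.Kin) : D.T - D.s0 ≤ 2 * D.w := by
  rw [h.T_eq, h.s0_eq]
  linarith [h.th_w]

/-- The errors of the exact system are bounded by `Ee'`. -/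
theorem Kin.err_le (h : D.Kin) {t : ℝ} (ht : t ∈ D.Iw) :
    D.om 1 t * (|D.er 1 t| + |-(D.j 1 t / 2 * D.er 1 t)| +
      |D.Ht 1 t - D.j 1 t ^ 2 / 4 * D.er 1 t - D.mc ^ 2| + |D.j 1 t / 2 * D.er 1 t|) ≤
      5 / D.k0 ^ 2 * (D.r / D.Lam t) + 11 * D.b ^ 3 * D.w * D.r := by
  have hb := h.b_ge'
  have hb0 : 0 < D.b := by linarith
  have hc := h.toFlo.c_pos
  have hct := h.c_tiny
  have hr := h.toFlo.r_pos
  have hw := h.w_pos
  have hk0 := h.k0_pos
  have hk0g := h.k0_ge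
  have hl := h.lam1_pos ht
  have hL := h.Lam_pos t
  have hLk := h.Lam_ge t
  have hlo := h.lam1_lo ht
  have her := h.er_le ht
  have hj := h.j_sq' ht
  have hHt := h.Ht_near ht
  have hx := h.Iw_x ht
  have hbig := h.Sl_big (al := 1) (le_refl 1) ht
  rw [Sl_one] at hbig
  have hja := j_abs (D.j 1 t)
  set e := |D.er 1 t| with he
  have he0 : 0 ≤ e := abs_nonneg _
  -- the sum
  have s1 : |-(D.j 1 t / 2 * D.er 1 t)| = |D.j 1 t| / 2 * e := by
    rw [abs_neg, abs_mul, abs_div, abs_two]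
  have s2 : |D.j 1 t / 2 * D.er 1 t| = |D.j 1 t| / 2 * e := by
    rw [abs_mul, abs_div, abs_two]
  have s3 : |D.Ht 1 t - D.j 1 t ^ 2 / 4 * D.er 1 t - D.mc ^ 2| ≤
      10 * D.b ^ 3 * D.w * (1 + D.lam1 t) + D.j 1 t ^ 2 / 4 * e := by
    have : D.Ht 1 t - D.j 1 t ^ 2 / 4 * D.er 1 t - D.mc ^ 2 =
        (D.Ht 1 t - D.mc ^ 2) - D.j 1 t ^ 2 / 4 * D.er 1 t := by ring
    rw [this]
    refine (abs_sub _ _).trans (add_le_add ?_ ?_)
    · refine hHt.trans ?_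
      gcongr
    · rw [abs_mul, abs_of_nonneg (by positivity : 0 ≤ D.j 1 t ^ 2 / 4)]
  rw [s1, s2]
  have s4 : e + |D.j 1 t| / 2 * e + |D.Ht 1 t - D.j 1 t ^ 2 / 4 * D.er 1 t - D.mc ^ 2| +
      |D.j 1 t| / 2 * e ≤ (2 + 21 / 10 * (D.c * D.lam1 t)) * e +
        10 * D.b ^ 3 * D.w * (1 + D.lam1 t) := by
    have h1 : |D.j 1 t| * e ≤ (1 + D.j 1 t ^ 2 / 4) * e := mul_le_mul_of_nonneg_right hja he0
    have h2 : D.j 1 t ^ 2 * e ≤ 42 / 10 * (D.c * D.lam1 t) * e := mul_le_mul_of_nonneg_right hj he0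
    nlinarith
  have s5 : (2 + 21 / 10 * (D.c * D.lam1 t)) * e ≤
      (2 + 21 / 10 * (D.c * D.lam1 t)) * (2 / D.lam1 t ^ 2 + 40 * D.b * D.w) := by gcongr
  have hom : D.om 1 t = D.r / D.lam1 t := by
    unfold om
    rw [Sl_one]
  rw [hom]
  have s6 : D.r / D.lam1 t * ((2 + 21 / 10 * (D.c * D.lam1 t)) *
      (2 / D.lam1 t ^ 2 + 40 * D.b * D.w) + 10 * D.b ^ 3 * D.w * (1 + D.lam1 t)) =
      4 * D.r / D.lam1 t ^ 3 + 42 / 10 * D.c * D.r / D.lam1 t ^ 2 +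
      (80 * D.b * D.w * D.r / D.lam1 t + 84 * D.c * D.b * D.w * D.r +
        10 * D.b ^ 3 * D.w * D.r / D.lam1 t + 10 * D.b ^ 3 * D.w * D.r) := by
    field_simp
    ring
  refine (mul_le_mul_of_nonneg_left (s4.trans (add_le_add s5 (le_refl _)))
    (by positivity)).trans ?_
  rw [s6]
  apply add_le_add
  · -- the integrable part
    have h99 : 99 / 100 * D.Lam t ≤ D.lam1 t := by
      have : (0.99 : ℝ) = 99 / 100 := by norm_num
      rw [this] at hlo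
      exact hlo
    have i1 : 1 / D.lam1 t ≤ 100 / 99 * (1 / D.Lam t) := by
      rw [mul_one_div, div_le_div_iff₀ hl hL]
      linarith
    have i2 : 1 / D.Lam t ≤ 1 / D.k0 := one_div_le_one_div_of_le hk0 hLk
    have i0 : 0 < 1 / D.lam1 t := by positivity
    have i3 : 1 / D.lam1 t ≤ 100 / 99 * (1 / D.k0) := i1.trans (by gcongr)
    have hp0 : 0 ≤ 1 / D.Lam t := by positivity
    have hq0 : 0 ≤ 1 / D.k0 := by positivity
    have j1 : 4 * D.r / D.lam1 t ^ 3 ≤ 4 * D.r * ((100 / 99 * (1 / D.k0)) ^ 2 *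
        (100 / 99 * (1 / D.Lam t))) := by
      have : 4 * D.r / D.lam1 t ^ 3 = 4 * D.r * ((1 / D.lam1 t) ^ 2 * (1 / D.lam1 t)) := by
        field_simp
      rw [this]
      gcongr
    have j2 : 42 / 10 * D.c * D.r / D.lam1 t ^ 2 ≤ 42 / 10 * D.c * D.r *
        ((100 / 99 * (1 / D.k0)) * (100 / 99 * (1 / D.Lam t))) := by
      have : 42 / 10 * D.c * D.r / D.lam1 t ^ 2 =
          42 / 10 * D.c * D.r * ((1 / D.lam1 t) * (1 / D.lam1 t)) := by
        field_simp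
      rw [this]
      gcongr
    refine (add_le_add j1 j2).trans ?_
    have hck := h.ck0_small
    have j3 : 42 / 10 * D.c * D.r * ((100 / 99 * (1 / D.k0)) * (100 / 99 * (1 / D.Lam t))) =
        42 / 10 * (D.c * D.k0) * (100 / 99) ^ 2 * (D.r * ((1 / D.k0) ^ 2 * (1 / D.Lam t))) := by
      field_simp
    have j4 : 4 * D.r * ((100 / 99 * (1 / D.k0)) ^ 2 * (100 / 99 * (1 / D.Lam t))) =
        4 * (100 / 99) ^ 3 * (D.r * ((1 / D.k0) ^ 2 * (1 / D.Lam t))) := by ring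
    have j5 : 5 / D.k0 ^ 2 * (D.r / D.Lam t) = 5 * (D.r * ((1 / D.k0) ^ 2 * (1 / D.Lam t))) := by
      field_simp
    rw [j3, j4, j5, ← add_mul]
    apply mul_le_mul_of_nonneg_right _ (by positivity)
    norm_num at hck ⊢
    linarith
  · -- the tiny part
    have k1 : 80 * D.b * D.w * D.r / D.lam1 t ≤ D.b ^ 3 * D.w * D.r / 100 := by
      rw [div_le_div_iff₀ hl (by norm_num)]
      have : D.b * 10 ^ 2 ≤ D.b ^ 3 := by
        have h3 : D.b ^ 3 = D.b * D.b ^ 2 := by ring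
        rw [h3]
        gcongr
      have h4 : 0 < D.w * D.r := by positivity
      calc 80 * D.b * D.w * D.r * 100 = 80 * (D.b * 10 ^ 2) * (D.w * D.r) := by ring
        _ ≤ 80 * D.b ^ 3 * (D.w * D.r) := by gcongr
        _ = D.b ^ 3 * D.w * D.r * 80 := by ring
        _ ≤ D.b ^ 3 * D.w * D.r * D.lam1 t := by
          gcongr
          linarith
    have k2 : 84 * D.c * D.b * D.w * D.r ≤ D.b ^ 3 * D.w * D.r / 100 := by
      have h5 : D.c * D.b ≤ 1 / 10 ^ 12 * D.b ^ 3 := by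
        have : D.b ≤ D.b ^ 3 := by
          calc D.b = D.b ^ 1 := (pow_one _).symm
            _ ≤ D.b ^ 3 := pow_le_pow_right₀ (by linarith) (by norm_num)
        gcongr
      calc 84 * D.c * D.b * D.w * D.r = 84 * (D.c * D.b) * (D.w * D.r) := by ring
        _ ≤ 84 * (1 / 10 ^ 12 * D.b ^ 3) * (D.w * D.r) := by gcongr
        _ = 84 / 10 ^ 12 * (D.b ^ 3 * D.w * D.r) := by ring
        _ ≤ 1 / 100 * (D.b ^ 3 * D.w * D.r) :=
          mul_le_mul_of_nonneg_right (by norm_num) (by positivity)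
        _ = _ := by ring
    have k3 : 10 * D.b ^ 3 * D.w * D.r / D.lam1 t ≤ D.b ^ 3 * D.w * D.r / 100 := by
      rw [div_le_div_iff₀ hl (by norm_num)]
      have h6 : 0 < D.b ^ 3 * D.w * D.r := by positivity
      nlinarith
    have h7 : 0 ≤ D.b ^ 3 * D.w * D.r := by positivity
    linarith

/-- The total error. -/
theorem Kin.Ee_total (h : D.Kin) {x y : ℝ} (hx : x ∈ D.Iw) (hy : y ∈ Icc x D.T) :
    D.Ee y - D.Ee x ≤ 16 / 100 * D.eta := by
  have h1 := h.At_diff x y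
  have hsq := h.sqck_pos
  have hk0 := h.k0_pos
  have hk2 := h.k2_pos
  have hc := h.toFlo.c_pos
  have hh := h.toFlo.h_pos
  have hr := h.toFlo.r_pos
  have hw := h.w_pos
  have hb : 0 < D.b := by linarith [h.b_ge']
  have h2 : y - x ≤ 2 * D.w := by
    have := h.len_le
    have := hx.1
    have := hy.2
    linarith
  have h3 := h.brw
  have hpi : Real.pi ≤ 315 / 100 := by
    have := Real.pi_lt_d2
    norm_num at this ⊢
    linarith
  unfold Ee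
  have h4 : 5 / D.k0 ^ 2 * D.At y + 11 * D.b ^ 3 * D.w * D.r * y -
      (5 / D.k0 ^ 2 * D.At x + 11 * D.b ^ 3 * D.w * D.r * x) =
      5 / D.k0 ^ 2 * (D.At y - D.At x) + 11 * D.b ^ 3 * D.w * D.r * (y - x) := by ring
  rw [h4]
  have h5 : 5 / D.k0 ^ 2 * (D.At y - D.At x) ≤ 1575 / 10000 *
      (100 / (D.k0 ^ 2 * Real.sqrt (D.c * D.k0))) := by
    calc 5 / D.k0 ^ 2 * (D.At y - D.At x) ≤
          5 / D.k0 ^ 2 * (315 / 100 / Real.sqrt (D.c * D.k0)) := by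
          gcongr
          exact h1.trans (by gcongr)
      _ = _ := by
        field_simp
        norm_num
  have h6 : 11 * D.b ^ 3 * D.w * D.r * (y - x) ≤ 22 / 10 ^ 90 * (D.h)⁻¹ := by
    calc 11 * D.b ^ 3 * D.w * D.r * (y - x) ≤ 11 * D.b ^ 3 * D.w * D.r * (2 * D.w) := by gcongr
      _ = 22 * (D.b ^ 3 * D.w * D.r * D.w) := by ring
      _ ≤ 22 * (1 / 10 ^ 90 * (D.h)⁻¹) := by gcongr
      _ = _ := by ring
  unfold eta
  have h7 : 0 ≤ D.k0 / D.k2 + 100 * D.c / D.k2 := by positivity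
  have h8 : 0 < 100 / (D.k0 ^ 2 * Real.sqrt (D.c * D.k0)) := by positivity
  have h9 : 0 < (D.h)⁻¹ := by positivity
  have h10 : 22 / 10 ^ 90 * (D.h)⁻¹ ≤ 16 / 100 * (D.h)⁻¹ :=
    mul_le_mul_of_nonneg_right (by norm_num) h9.le
  linarith

/-- `N = m Y + Z` -/
noncomputable def Nn (D : LevD) (W : ℝ → E3) (t : ℝ) : ℝ := D.mc * D.Y 1 W t + D.Z 1 W t

/-- `U = Z - m Y` -/
noncomputable def Uu (D : LevD) (W : ℝ → E3) (t : ℝ) : ℝ := D.Z 1 W t - D.mc * D.Y 1 W t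

/-- **O3.** The core wave in the window. -/
theorem Kin.cone (h : D.Kin) {W : ℝ → E3}
    (hW : ∀ t ∈ D.Iw, HasDerivAt W (kel (D.fam.M 1 t) (D.fam.K 1 t) (W t)) t)
    (horth : ∀ t ∈ D.Iw, ⟪D.fam.K 1 t, W t⟫ = 0) (hY0 : 0 < D.Y 1 W D.s0)
    (hZ0 : 0 < D.Z 1 W D.s0) :
    ∀ x ∈ D.Iw, ∀ y ∈ Icc x D.T, 0 < D.Nn W x ∧ |D.Uu W x| ≤ 11 / 10 * D.Nn W x ∧
      D.Nn W x * Real.exp (D.mc * (D.Omp y - D.Omp x) - 3 * (D.Ee y - D.Ee x)) ≤ D.Nn W y ∧
      D.Nn W y ≤ D.Nn W x * Real.exp (D.mc * (D.Omp y - D.Omp x) + 3 * (D.Ee y - D.Ee x)) ∧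
      |D.Uu W y| ≤ D.Nn W y * (|D.Uu W x| / D.Nn W x *
        Real.exp (-(2 * D.mc * (D.Omp y - D.Omp x))) + 9 / 2 * (D.Ee y - D.Ee x)) := by
  have hm := h.mc_lo
  have hm2 := h.mc_hi
  have hs0T : D.s0 ∈ D.Iw := ⟨le_refl _, h.s0_le_T⟩
  have hpos : 0 < D.mc * D.Y 1 W D.s0 := mul_pos (by linarith) hY0
  apply cone_YZ (Y := D.Y 1 W) (Z := D.Z 1 W) (ω := D.om 1) (e1 := D.er 1)
    (e2 := fun t => -(D.j 1 t / 2 * D.er 1 t))
    (e3 := fun t => D.Ht 1 t - D.j 1 t ^ 2 / 4 * D.er 1 t - D.mc ^ 2)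
    (e4 := fun t => D.j 1 t / 2 * D.er 1 t) (Om := D.Omp) (Ee := D.Ee)
    (Ee' := fun t => 5 / D.k0 ^ 2 * (D.r / D.Lam t) + 11 * D.b ^ 3 * D.w * D.r)
    (s := D.s0) (t := D.T) (m := D.mc) (by linarith) (by linarith)
  · intro x hx
    have hl : 0 < D.fam.Sl 1 x := h.Sl_pos (le_refl 1) hx
    exact h.toFlo.Y_der (h.Iw_sub hx) (hW x hx) (horth x hx) hl
  · intro x hx
    have hl : 0 < D.fam.Sl 1 x := h.Sl_pos (le_refl 1) hx
    refine (h.toFlo.Z_der (h.Iw_sub hx) (hW x hx) (horth x hx) hl).congr_deriv ?_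
    ring
  · intro x hx
    exact h.Omp_der hx
  · intro x _
    exact h.Ee_der x
  · intro x hx
    exact (h.om_pos hx).le
  · intro x hx
    exact h.err_le hx
  · linarith
  · rw [abs_le]
    constructor <;> linarith
  · have h1 := h.Ee_total hs0T ⟨h.s0_le_T, le_refl _⟩
    have h2 := h.eta_le
    norm_num at h2 ⊢
    linarith

end LevD

end Pool.Agent.Work.MP_b0497c_an.Unf.O

end

section

set_option autoImplicit false

/-!
# O3, O4 in the window: `Y`, `Z` against the norm, the ratio `Z/Y`, two-sided size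
-/

open Set ContinuousLinearMap RealInnerProductSpace

namespace Pool.Agent.Work.MP_b0497c_an.Unf.O

open Forced.Ode (Op)
open Fam K

namespace LevD

variable {D : LevD} {b' : ℝ} {W : ℝ → E3}

theorem Flo.de_sq (h : D.Flo b') : D.de ^ 2 = D.kap / D.a :=
  Real.sq_sqrt (div_nonneg h.kap_pos.le h.a_pos.le)

theorem Flo.de_pos (h : D.Flo b') : 0 < D.de := Real.sqrt_pos.2 (div_pos h.kap_pos h.a_pos)

/-- `Y² = lam p²` -/
theorem Kin.Y_sq (h : D.Kin) {t : ℝ} (ht : t ∈ D.Iw) :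
    D.Y 1 W t ^ 2 = D.lam1 t * D.fam.p W t ^ 2 := by
  unfold Y
  rw [Sl_one, mul_pow, Real.sq_sqrt (h.lam1_pos ht).le]
  ring

/-- `q² = de² lam (Z - (j/2) Y)²` -/
theorem Kin.q_sq (h : D.Kin) {t : ℝ} (ht : t ∈ D.Iw) :
    D.fam.q 1 W t ^ 2 = D.de ^ 2 * D.lam1 t * (D.Z 1 W t - D.j 1 t / 2 * D.Y 1 W t) ^ 2 := by
  have hl := h.lam1_pos ht
  have hd := h.toFlo.de_pos
  have hs : 0 < Real.sqrt (D.lam1 t) := Real.sqrt_pos.2 hl
  have hss : Real.sqrt (D.lam1 t) ^ 2 = D.lam1 t := Real.sq_sqrt hl.le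
  have h1 : D.Z 1 W t - D.j 1 t / 2 * D.Y 1 W t =
      -D.fam.q 1 W t / (D.de * Real.sqrt (D.lam1 t)) := by
    unfold Z
    rw [Sl_one]
    ring
  rw [h1, div_pow, mul_pow, hss]
  field_simp

theorem Kin.bounds_QQ (h : D.Kin) {t : ℝ} (ht : t ∈ D.Iw) :
    D.QQ 1 t * D.lam1 t ^ 2 ≤ 1001 / 1000 ∧ 99 / 100 ≤ D.QQ 1 t * D.lam1 t ^ 2 ∧
    99 / 100 ≤ ‖D.fam.D t‖ ^ 2 ∧ ‖D.fam.D t‖ ^ 2 ≤ 101 / 100 := by
  have hbig := h.Sl_big (al := 1) (le_refl 1) ht
  have h1 := h.toFlo.QQ_up (al := 1) (h.nr ht) (by linarith)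
  have h2 := h.toFlo.QQ_lo (al := 1) (h.nr ht) (by linarith)
  have hu := h.toFlo.uu_le (h.nr ht)
  have hu0 := h.toFlo.uu_nonneg t
  have hB := abs_le.1 (h.toFlo.Bsq (h.nr ht))
  rw [Sl_one] at h1 h2 hbig
  have hD : ‖D.fam.D t‖ = ‖D.B t‖ := Flo.normD t
  rw [hD]
  have h3 : (1 + 6 * D.uu D.b t) / D.lam1 t ^ 2 ≤ 1 / 1000 := by
    rw [div_le_div_iff₀ (by positivity) (by norm_num)]
    nlinarith
  refine ⟨by linarith, by linarith, by linarith, by linarith⟩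

/-- the norm against `Y`, `Z` -/
theorem Kin.W_le (h : D.Kin) {t : ℝ} (ht : t ∈ D.Iw) (h0 : ⟪D.fam.K 1 t, W t⟫ = 0) :
    ‖W t‖ ≤ |D.Y 1 W t| + |D.Z 1 W t| := by
  have hn := FamD.normX (F := D.fam) (h.toFlo.D_all t) h0
  obtain ⟨q1, -, d1, -⟩ := h.bounds_QQ ht
  have hbig := h.Sl_big (al := 1) (le_refl 1) ht
  rw [Sl_one] at hbig
  have hl := h.lam1_pos ht
  have hj := h.j_sq' ht
  have hde := h.toFlo.de_sq
  have ha := h.toFlo.a_pos
  have hk := h.toFlo.kap_pos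
  have hk2 := h.toFlo.kap_le
  have hct := h.c_tiny
  have hc := h.toFlo.c_pos
  have hA := h.a_big
  have hY := h.Y_sq (W := W) ht
  have hq := h.q_sq (W := W) ht
  set p := D.fam.p W t
  set q := D.fam.q 1 W t
  set y := D.Y 1 W t
  set z := D.Z 1 W t
  set L := D.lam1 t
  set j := D.j 1 t
  have hQ0 := h.toFlo.QQ_pos 1 t
  have e1 : p ^ 2 / ‖D.fam.D t‖ ^ 2 ≤ y ^ 2 / 4 := by
    rw [hY, div_le_div_iff₀ (by linarith) (by norm_num)]
    have : 0 ≤ p ^ 2 := sq_nonneg p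
    nlinarith [mul_nonneg this hl.le]
  have hd2 : D.de ^ 2 ≤ 1 / 10 ^ 10 := by
    rw [hde, div_le_div_iff₀ ha (by norm_num)]
    have h9 : (10 : ℝ) ^ 11 ≤ 10 ^ 100 := pow_le_pow_right₀ (by norm_num) (by norm_num)
    have h10 : (10 : ℝ) ^ 11 ≤ D.a := h9.trans hA
    have : D.kap * 10 ^ 10 ≤ 2 * 10 ^ 10 := by gcongr
    linarith [show (2 : ℝ) * 10 ^ 10 ≤ 10 ^ 11 by norm_num]
  have e2 : q ^ 2 * (‖D.fam.D t‖ ^ 2 / ‖D.fam.K 1 t‖ ^ 2) ≤ (y ^ 2 + z ^ 2) / 4 := by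
    show q ^ 2 * D.QQ 1 t ≤ _
    have e3 : (z - j / 2 * y) ^ 2 ≤ 2 * z ^ 2 + j ^ 2 / 2 * y ^ 2 := by
      nlinarith [sq_nonneg (z + j / 2 * y)]
    have e4 : D.QQ 1 t * L ≤ 1001 / 1000 / L := by
      rw [le_div_iff₀ hl]
      linarith [q1]
    rw [hq]
    have e5 : D.de ^ 2 * L * (z - j / 2 * y) ^ 2 * D.QQ 1 t =
        D.de ^ 2 * (D.QQ 1 t * L) * (z - j / 2 * y) ^ 2 := by ring
    rw [e5]
    have e6 : j ^ 2 / L ≤ 1 := by
      rw [div_le_one hl]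
      refine hj.trans ?_
      nlinarith
    calc D.de ^ 2 * (D.QQ 1 t * L) * (z - j / 2 * y) ^ 2
        ≤ 1 / 10 ^ 10 * (1001 / 1000 / L) * (2 * z ^ 2 + j ^ 2 / 2 * y ^ 2) := by gcongr
      _ = 1 / 10 ^ 10 * (1001 / 1000) * (2 * z ^ 2 / L + (j ^ 2 / L) / 2 * y ^ 2) := by
        field_simp
      _ ≤ 1 / 10 ^ 10 * (1001 / 1000) * (2 * z ^ 2 / 1 + 1 / 2 * y ^ 2) := by
        gcongr
        linarith
      _ ≤ _ := by
        nlinarith [sq_nonneg y, sq_nonneg z]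
  have e7 : ‖W t‖ ^ 2 ≤ (|y| + |z|) ^ 2 := by
    rw [hn]
    have h3 : (|y| + |z|) ^ 2 = y ^ 2 + z ^ 2 + 2 * (|y| * |z|) := by
      rw [add_sq, sq_abs, sq_abs]
      ring
    rw [h3]
    have : 0 ≤ |y| * |z| := by positivity
    nlinarith [sq_nonneg y, sq_nonneg z]
  exact (sq_le_sq₀ (norm_nonneg _) (by positivity)).1 e7

/-- `Y`, `Z` against the norm -/
theorem Kin.YZ_le (h : D.Kin) {t : ℝ} (ht : t ∈ D.Iw) (h0 : ⟪D.fam.K 1 t, W t⟫ = 0) :
    |D.Y 1 W t| ≤ D.a * D.b * ‖W t‖ ∧ |D.Z 1 W t| ≤ 2 * D.a * D.b * ‖W t‖ := by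
  have hn := FamD.normX (F := D.fam) (h.toFlo.D_all t) h0
  obtain ⟨-, q1, d0, d1⟩ := h.bounds_QQ ht
  have hlu := h.Sl_up (al := 1) (by norm_num) ht
  rw [Sl_one] at hlu
  have hl := h.lam1_pos ht
  have hj := h.j_sq' ht
  have hde := h.toFlo.de_sq
  have hd := h.toFlo.de_pos
  have ha := h.toFlo.a_pos
  have hk := h.toFlo.kap_pos
  have hk2 := h.toFlo.kap_ge
  have hct := h.c_tiny
  have hc := h.toFlo.c_pos
  have hA := h.a_big
  have hb := h.b_ge'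
  have hb0 : 0 < D.b := by linarith
  have hY := h.Y_sq (W := W) ht
  have hq := h.q_sq (W := W) ht
  have hQ0 := h.toFlo.QQ_pos 1 t
  set p := D.fam.p W t
  set q := D.fam.q 1 W t
  set y := D.Y 1 W t
  set z := D.Z 1 W t
  set L := D.lam1 t
  set j := D.j 1 t
  have ha1 : (1:ℝ) ≤ D.a := le_trans (one_le_pow₀ (by norm_num)) hA
  have hqq : ‖D.fam.D t‖ ^ 2 / ‖D.fam.K 1 t‖ ^ 2 = D.QQ 1 t := rfl
  rw [hqq] at hn
  have hD0 : 0 < ‖D.fam.D t‖ ^ 2 := by linarith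
  have f1 : 0 ≤ p ^ 2 / ‖D.fam.D t‖ ^ 2 := by positivity
  have f2 : 0 ≤ q ^ 2 * D.QQ 1 t := by positivity
  have e1 : p ^ 2 ≤ 101 / 100 * ‖W t‖ ^ 2 := by
    have h1 : p ^ 2 / ‖D.fam.D t‖ ^ 2 ≤ ‖W t‖ ^ 2 := by linarith
    rw [div_le_iff₀ hD0] at h1
    nlinarith [sq_nonneg ‖W t‖]
  have e2 : q ^ 2 ≤ 102 / 100 * L ^ 2 * ‖W t‖ ^ 2 := by
    have h1 : q ^ 2 * D.QQ 1 t ≤ ‖W t‖ ^ 2 := by linarith
    have h2 : q ^ 2 * (99 / 100) ≤ q ^ 2 * (D.QQ 1 t * L ^ 2) := by gcongr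
    have h3 : q ^ 2 * (D.QQ 1 t * L ^ 2) ≤ ‖W t‖ ^ 2 * L ^ 2 := by
      calc q ^ 2 * (D.QQ 1 t * L ^ 2) = (q ^ 2 * D.QQ 1 t) * L ^ 2 := by ring
        _ ≤ ‖W t‖ ^ 2 * L ^ 2 := by gcongr
    have h4 : 0 ≤ ‖W t‖ ^ 2 * L ^ 2 := by positivity
    nlinarith
  have e3 : y ^ 2 ≤ (D.a * D.b * ‖W t‖) ^ 2 := by
    rw [hY]
    calc L * p ^ 2 ≤ (5 * D.a * D.b) * (101 / 100 * ‖W t‖ ^ 2) := by gcongr
      _ ≤ (D.a * D.b * ‖W t‖) ^ 2 := by
        have h1 : 101 / 20 ≤ D.a * D.b := by nlinarith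
        have h2 : 0 ≤ D.a * D.b * ‖W t‖ ^ 2 := by positivity
        nlinarith
  have hzq : D.de ^ 2 * L * (z - j / 2 * y) ^ 2 ≤ 102 / 100 * L ^ 2 * ‖W t‖ ^ 2 := by
    rw [← hq]
    exact e2
  have e4 : (z - j / 2 * y) ^ 2 ≤ 11 * D.a ^ 2 * D.b * ‖W t‖ ^ 2 := by
    have h1 : D.de ^ 2 * (z - j / 2 * y) ^ 2 ≤ 102 / 100 * L * ‖W t‖ ^ 2 := by
      have h2 : L * (D.de ^ 2 * (z - j / 2 * y) ^ 2) ≤ L * (102 / 100 * L * ‖W t‖ ^ 2) := by
        nlinarith [hzq]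
      exact le_of_mul_le_mul_left h2 hl
    rw [hde] at h1
    have h3 : D.kap * (z - j / 2 * y) ^ 2 ≤ D.a * (102 / 100 * L * ‖W t‖ ^ 2) := by
      rw [div_mul_eq_mul_div, div_le_iff₀ ha] at h1
      linarith
    have h4 : 1 / 2 * (z - j / 2 * y) ^ 2 ≤ D.kap * (z - j / 2 * y) ^ 2 := by
      have := sq_nonneg (z - j / 2 * y)
      nlinarith
    have h5 : D.a * (102 / 100 * L * ‖W t‖ ^ 2) ≤ D.a * (102 / 100 * (5 * D.a * D.b) * ‖W t‖ ^ 2) := by
      gcongr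
    have h6 : 0 ≤ D.a ^ 2 * D.b * ‖W t‖ ^ 2 := by positivity
    nlinarith
  have e5 : (j / 2 * y) ^ 2 ≤ 1 / 10 * (D.a ^ 2 * D.b ^ 2 * ‖W t‖ ^ 2) := by
    have h1 : (j / 2 * y) ^ 2 = j ^ 2 / 4 * (L * p ^ 2) := by
      rw [mul_pow, hY]
      ring
    rw [h1]
    calc j ^ 2 / 4 * (L * p ^ 2) ≤ (42 / 10 * (D.c * L)) / 4 * (L * (101 / 100 * ‖W t‖ ^ 2)) := by
          gcongr
      _ = 42 / 40 * (101 / 100) * (D.c * (L * L) * ‖W t‖ ^ 2) := by ring
      _ ≤ 42 / 40 * (101 / 100) * (1 / 10 ^ 12 * ((5 * D.a * D.b) * (5 * D.a * D.b)) * ‖W t‖ ^ 2) := by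
          gcongr
      _ = 42 / 40 * (101 / 100) * 25 / 10 ^ 12 * (D.a ^ 2 * D.b ^ 2 * ‖W t‖ ^ 2) := by ring
      _ ≤ _ := mul_le_mul_of_nonneg_right (by norm_num) (by positivity)
  have e6 : z ^ 2 ≤ (2 * D.a * D.b * ‖W t‖) ^ 2 := by
    have h1 : z ^ 2 ≤ 2 * (z - j / 2 * y) ^ 2 + 2 * (j / 2 * y) ^ 2 := by
      nlinarith [sq_nonneg (z - j / 2 * y - j / 2 * y)]
    have h2 : D.a ^ 2 * D.b * ‖W t‖ ^ 2 ≤ 1 / 10 * (D.a ^ 2 * D.b ^ 2 * ‖W t‖ ^ 2) := by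
      have h3 : 0 ≤ D.a ^ 2 * D.b * ‖W t‖ ^ 2 := by positivity
      nlinarith
    have h4 : 0 ≤ D.a ^ 2 * D.b ^ 2 * ‖W t‖ ^ 2 := by positivity
    nlinarith
  exact ⟨abs_le_of_sq_le_sq e3 (by positivity), abs_le_of_sq_le_sq e6 (by positivity)⟩

/-- `N` against the norm -/
theorem Kin.Nn_le (h : D.Kin) {t : ℝ} (ht : t ∈ D.Iw) (h0 : ⟪D.fam.K 1 t, W t⟫ = 0) :
    D.Nn W t ≤ D.h ^ 25 * ‖W t‖ := by
  obtain ⟨h1, h2⟩ := h.YZ_le ht h0
  have hm := h.mc_hi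
  have hm0 := h.mc_nonneg
  have ha := h.toFlo.a_pos
  have hb := h.b_ge'
  have hp := h.toFlo.h_pos
  have h3 : D.Nn W t ≤ 4 * D.a * D.b * ‖W t‖ := by
    unfold Nn
    have h4 := le_abs_self (D.Y 1 W t)
    have h5 := le_abs_self (D.Z 1 W t)
    have h6 : D.mc * D.Y 1 W t ≤ 1415 / 1000 * (D.a * D.b * ‖W t‖) := by
      calc D.mc * D.Y 1 W t ≤ D.mc * |D.Y 1 W t| := by gcongr
        _ ≤ 1415 / 1000 * (D.a * D.b * ‖W t‖) := by gcongr
    have h7 : 0 ≤ D.a * D.b * ‖W t‖ := by positivity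
    linarith
  refine h3.trans ?_
  have h8 := h.ten_le (k := 1) (m := 1) (by norm_num)
  have h9 : 4 * D.a * D.b ≤ D.h ^ 25 := by
    calc 4 * D.a * D.b ≤ (10 ^ 1 * D.b ^ 1) * D.a := by
          have : 0 ≤ D.a * D.b := by positivity
          nlinarith
      _ ≤ D.h * D.a := by gcongr
      _ = D.h ^ 25 := by
          unfold a
          ring
  gcongr

/-- the norm against `N` in the cone -/
theorem Kin.le_Nn (h : D.Kin) {t : ℝ} (ht : t ∈ D.Iw) (h0 : ⟪D.fam.K 1 t, W t⟫ = 0)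
    (hN : 0 < D.Nn W t) (hU : |D.Uu W t| ≤ 11 / 10 * D.Nn W t) : ‖W t‖ ≤ 2 * D.Nn W t := by
  have h1 := h.W_le ht h0
  have hm := h.mc_lo
  have h2 : |D.Z 1 W t| ≤ 105 / 100 * D.Nn W t := by
    have : D.Z 1 W t = (D.Nn W t + D.Uu W t) / 2 := by
      unfold Nn Uu
      ring
    rw [this, abs_div, abs_two, div_le_iff₀ two_pos]
    refine (abs_add_le _ _).trans ?_
    rw [abs_of_pos hN]
    linarith
  have h3 : |D.Y 1 W t| ≤ 75 / 100 * D.Nn W t := by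
    have h4 : D.mc * D.Y 1 W t = (D.Nn W t - D.Uu W t) / 2 := by
      unfold Nn Uu
      ring
    have h5 : D.mc * |D.Y 1 W t| ≤ 105 / 100 * D.Nn W t := by
      calc D.mc * |D.Y 1 W t| = |D.mc * D.Y 1 W t| := by
            rw [abs_mul, abs_of_nonneg h.mc_nonneg]
        _ ≤ 105 / 100 * D.Nn W t := by
          rw [h4, abs_div, abs_two, div_le_iff₀ two_pos]
          refine (abs_sub _ _).trans ?_
          rw [abs_of_pos hN]
          linarith
    have h6 := abs_nonneg (D.Y 1 W t)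
    nlinarith
  linarith

/-- the two primitives of the rate -/
theorem Kin.Omp_near (h : D.Kin) {x y : ℝ} (hx : x ∈ D.Iw) (hy : y ∈ Icc x D.T) :
    |(D.Omp y - D.Omp x) - (D.At y - D.At x)| ≤ 1 / 10 ^ 80 := by
  have hr := h.toFlo.r_pos
  have hw := h.w_pos
  have hb : 0 < D.b := by linarith [h.b_ge']
  have hsub : ∀ z ∈ Icc x y, z ∈ D.Iw := fun z hz => ⟨hx.1.trans hz.1, hz.2.trans hy.2⟩
  have h1 := (convex_Icc x y).norm_image_sub_le_of_norm_hasDerivWithin_le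
    (f := fun t => D.Omp t - D.At t) (f' := fun t => D.om 1 t - D.r / D.Lam t)
    (C := D.b ^ 3 * D.w * D.r / 100) (x := x) (y := y)
    (fun z hz => ((h.Omp_der (hsub z hz)).sub (h.At_der z)).hasDerivWithinAt)
    (fun z hz => by
      rw [Real.norm_eq_abs]
      exact h.om_near (hsub z hz)) ⟨le_refl x, hy.1⟩ ⟨hy.1, le_refl y⟩
  rw [Real.norm_eq_abs, Real.norm_eq_abs] at h1
  have h2 : |y - x| ≤ 2 * D.w := by
    rw [abs_of_nonneg (by linarith [hy.1])]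
    have := h.len_le
    have := hx.1
    have := hy.2
    linarith
  have h3 := h.brw
  have hh := h.toFlo.h_pos
  have h4 : (D.h)⁻¹ ≤ 1 := inv_le_one_of_one_le₀ h.h1
  have h5 : D.Omp y - D.At y - (D.Omp x - D.At x) = (D.Omp y - D.Omp x) - (D.At y - D.At x) := by
    ring
  rw [h5] at h1
  refine h1.trans ?_
  calc D.b ^ 3 * D.w * D.r / 100 * |y - x| ≤ D.b ^ 3 * D.w * D.r / 100 * (2 * D.w) := by gcongr
    _ = 2 / 100 * (D.b ^ 3 * D.w * D.r * D.w) := by ring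
    _ ≤ 2 / 100 * (1 / 10 ^ 90 * (D.h)⁻¹) := by gcongr
    _ ≤ 2 / 100 * (1 / 10 ^ 90 * 1) := by gcongr
    _ ≤ _ := by norm_num

theorem Kin.sqck_small (h : D.Kin) : Real.sqrt (D.c * D.k0) ≤ 1 / 10 ^ 4 := by
  rw [Real.sqrt_le_left (by positivity)]
  refine h.ck0_small.trans (by norm_num)

/-- the growth exponents `sqrt 2 sig` and `m Om` agree up to `1/100` -/
theorem Kin.expo (h : D.Kin) {x y : ℝ} (hx : x ∈ D.Iw) (hy : y ∈ Icc x D.T) :
    Real.sqrt 2 * (D.At y - D.At x) ≤ D.mc * (D.Omp y - D.Omp x) + 1 / 100 ∧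
    D.mc * (D.Omp y - D.Omp x) ≤ Real.sqrt 2 * (D.At y - D.At x) + 1 / 100 := by
  have h1 := abs_le.1 (h.Omp_near hx hy)
  have h2 := h.mc_hi
  have h3 := h.mc_lo
  have h4 := h.mc_le_sqrt2
  have h5 : 0 ≤ D.At y - D.At x := by
    have := h.At_mono hy.1
    linarith
  have h6 := h.At_diff x y
  have hs := h.sqck_pos
  have hs2 := h.sqck_small
  have h7 : Real.sqrt 2 - D.mc ≤ D.c * D.k0 := by
    have h8 : (Real.sqrt 2 - D.mc) * (Real.sqrt 2 + D.mc) = D.c * D.k0 := by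
      have h9 : Real.sqrt 2 ^ 2 = 2 := Real.sq_sqrt (by norm_num)
      have h10 := h.mc_sq
      nlinarith
    have h11 : 1 ≤ Real.sqrt 2 + D.mc := by
      have := Real.sqrt_nonneg 2
      linarith
    have h12 : 0 ≤ Real.sqrt 2 - D.mc := by linarith
    nlinarith
  have hpi : Real.pi ≤ 315 / 100 := by
    have := Real.pi_lt_d2
    norm_num at this ⊢
    linarith
  have h13 : (Real.sqrt 2 - D.mc) * (D.At y - D.At x) ≤ 1 / 1000 := by
    calc (Real.sqrt 2 - D.mc) * (D.At y - D.At x) ≤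
          (D.c * D.k0) * (Real.pi / Real.sqrt (D.c * D.k0)) := by
          apply mul_le_mul h7 h6 h5 h.ck0_pos.le
      _ = Real.pi * Real.sqrt (D.c * D.k0) := by
          have h14 : Real.sqrt (D.c * D.k0) ^ 2 = D.c * D.k0 := Real.sq_sqrt h.ck0_pos.le
          field_simp
          rw [h14]
      _ ≤ 315 / 100 * (1 / 10 ^ 4) := by gcongr
      _ ≤ 1 / 1000 := by norm_num
  have h15 : 0 ≤ (Real.sqrt 2 - D.mc) * (D.At y - D.At x) :=
    mul_nonneg (by linarith) h5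
  norm_num at h1
  constructor
  · nlinarith
  · nlinarith

/-- The core wave in the window, two-sided. -/
theorem Kin.core_win (h : D.Kin)
    (hW : ∀ t ∈ D.Iw, HasDerivAt W (kel (D.fam.M 1 t) (D.fam.K 1 t) (W t)) t)
    (horth : ∀ t ∈ D.Iw, ⟪D.fam.K 1 t, W t⟫ = 0) (hY0 : 0 < D.Y 1 W D.s0)
    (hZ0 : 0 < D.Z 1 W D.s0) {x y : ℝ} (hx : x ∈ D.Iw) (hy : y ∈ Icc x D.T) :
    Real.exp (Real.sqrt 2 * (D.sig y - D.sig x)) * ‖W x‖ ≤ D.h ^ 26 * ‖W y‖ ∧
    ‖W y‖ ≤ D.h ^ 26 * Real.exp (Real.sqrt 2 * (D.sig y - D.sig x)) * ‖W x‖ := by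
  have hy' : y ∈ D.Iw := ⟨hx.1.trans hy.1, hy.2⟩
  obtain ⟨n1, u1, g1, g2, -⟩ := h.cone hW horth hY0 hZ0 x hx y hy
  obtain ⟨n2, u2, -, -, -⟩ := h.cone hW horth hY0 hZ0 y hy' y ⟨le_refl y, hy.2⟩
  have hE := h.Ee_total hx hy
  have heta := h.eta_le
  have hsig : D.sig y - D.sig x = D.At y - D.At x := by
    rw [sig_ge D hy'.1, sig_ge D hx.1]
    ring
  obtain ⟨x1, x2⟩ := h.expo hx hy
  rw [hsig]
  have hE' : 3 * (D.Ee y - D.Ee x) ≤ 1 / 100 := by
    norm_num at heta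
    linarith
  have hp := h.toFlo.h_pos
  have h5 : 5 * D.h ^ 25 ≤ D.h ^ 26 := by
    have := h.h_big
    have h6 : (5:ℝ) ≤ D.h := le_trans (by norm_num) this
    calc 5 * D.h ^ 25 ≤ D.h * D.h ^ 25 := by gcongr
      _ = D.h ^ 26 := by ring
  have hexp : Real.exp (2 / 100) ≤ 5 / 4 := by
    have := Real.exp_bound' (x := 2 / 100) (by norm_num) (by norm_num) (n := 2) (by norm_num)
    norm_num [Finset.sum_range_succ, Nat.factorial] at this ⊢
    linarith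
  constructor
  · have h1 := h.le_Nn hx (horth x hx) n1 u1
    have h2 := h.Nn_le hy' (horth y hy')
    have h3 : Real.exp (Real.sqrt 2 * (D.At y - D.At x)) ≤ 5 / 4 *
        Real.exp (D.mc * (D.Omp y - D.Omp x) - 3 * (D.Ee y - D.Ee x)) := by
      calc Real.exp (Real.sqrt 2 * (D.At y - D.At x)) ≤
            Real.exp (2 / 100 + (D.mc * (D.Omp y - D.Omp x) - 3 * (D.Ee y - D.Ee x))) := by
            apply Real.exp_le_exp.2
            linarith
        _ = Real.exp (2 / 100) * Real.exp (D.mc * (D.Omp y - D.Omp x) - 3 * (D.Ee y - D.Ee x)) :=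
            Real.exp_add _ _
        _ ≤ _ := by gcongr
    calc Real.exp (Real.sqrt 2 * (D.At y - D.At x)) * ‖W x‖ ≤
          (5 / 4 * Real.exp (D.mc * (D.Omp y - D.Omp x) - 3 * (D.Ee y - D.Ee x))) *
            (2 * D.Nn W x) := by gcongr
      _ = 5 / 2 * (D.Nn W x *
            Real.exp (D.mc * (D.Omp y - D.Omp x) - 3 * (D.Ee y - D.Ee x))) := by ring
      _ ≤ 5 / 2 * (D.h ^ 25 * ‖W y‖) :=
            mul_le_mul_of_nonneg_left (g1.trans h2) (by norm_num)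
      _ ≤ (5 * D.h ^ 25) * ‖W y‖ := by
            have : 0 ≤ D.h ^ 25 * ‖W y‖ := by positivity
            nlinarith
      _ ≤ D.h ^ 26 * ‖W y‖ := by gcongr
  · have h1 := h.le_Nn hy' (horth y hy') n2 u2
    have h2 := h.Nn_le hx (horth x hx)
    have h3 : Real.exp (D.mc * (D.Omp y - D.Omp x) + 3 * (D.Ee y - D.Ee x)) ≤ 5 / 4 *
        Real.exp (Real.sqrt 2 * (D.At y - D.At x)) := by
      calc Real.exp (D.mc * (D.Omp y - D.Omp x) + 3 * (D.Ee y - D.Ee x)) ≤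
            Real.exp (2 / 100 + Real.sqrt 2 * (D.At y - D.At x)) := by
            apply Real.exp_le_exp.2
            linarith
        _ = Real.exp (2 / 100) * Real.exp (Real.sqrt 2 * (D.At y - D.At x)) := Real.exp_add _ _
        _ ≤ _ := by gcongr
    calc ‖W y‖ ≤ 2 * D.Nn W y := h1
      _ ≤ 2 * (D.Nn W x * Real.exp (D.mc * (D.Omp y - D.Omp x) + 3 * (D.Ee y - D.Ee x))) := by
            gcongr
      _ ≤ 2 * ((D.h ^ 25 * ‖W x‖) * (5 / 4 * Real.exp (Real.sqrt 2 * (D.At y - D.At x)))) := by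
            gcongr
      _ = 5 / 2 * D.h ^ 25 * Real.exp (Real.sqrt 2 * (D.At y - D.At x)) * ‖W x‖ := by ring
      _ ≤ D.h ^ 26 * Real.exp (Real.sqrt 2 * (D.At y - D.At x)) * ‖W x‖ := by
            gcongr
            have : 0 ≤ D.h ^ 25 := by positivity
            linarith

/-- **The ratio at `t ≥ t0`**: `Z / Y` is `m` up to `3 eta`. -/
theorem Kin.ratio (h : D.Kin) (hck : D.c * D.k0 ^ 2 ≤ 1)
    (hW : ∀ t ∈ D.Iw, HasDerivAt W (kel (D.fam.M 1 t) (D.fam.K 1 t) (W t)) t)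
    (horth : ∀ t ∈ D.Iw, ⟪D.fam.K 1 t, W t⟫ = 0) (hY0 : 0 < D.Y 1 W D.s0)
    (hZ0 : 0 < D.Z 1 W D.s0) {t : ℝ} (ht : t ∈ Icc D.t0 D.T) :
    0 < D.Y 1 W t ∧ |D.Z 1 W t - D.mc * D.Y 1 W t| ≤ 3 * D.eta * D.Y 1 W t := by
  have hs0 : D.s0 ∈ D.Iw := ⟨le_refl _, h.s0_le_T⟩
  have htw : t ∈ D.Iw := ⟨h.s0_lt.le.trans ht.1, ht.2⟩
  have hst : t ∈ Icc D.s0 D.T := htw
  obtain ⟨n0, -, -, -, u0⟩ := h.cone hW horth hY0 hZ0 D.s0 hs0 t hst
  obtain ⟨n1, -, -, -, -⟩ := h.cone hW horth hY0 hZ0 t htw t ⟨le_refl t, ht.2⟩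
  have hE := h.Ee_total hs0 hst
  have heta := h.eta_le
  have hm := h.mc_lo
  have hm2 := h.mc_hi
  have hm0 := h.mc_nonneg
  have hsq := h.sqck_pos
  have hk0 := h.k0_pos
  have hc := h.toFlo.c_pos
  have hr := h.toFlo.r_pos
  have hw := h.w_pos
  have hk2 := h.k2_pos
  have hh := h.toFlo.h_pos
  set X := Real.sqrt (D.c * D.k0) with hX
  have hX2 : X ^ 2 = D.c * D.k0 := Real.sq_sqrt h.ck0_pos.le
  -- growth before `t0`
  have h1 : 78 / 100 / X ≤ D.At t - D.At D.s0 := by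
    have h2 : D.At D.t0 = 0 := by
      unfold At
      simp
    have h3 : 0 ≤ D.At t := by
      rw [← h2]
      exact h.At_mono ht.1
    have h4 : D.At D.s0 ≤ -(78 / 100 / X) := by
      have h5 : D.At D.s0 = -(Real.arctan (Real.sqrt (D.c / D.k0) * D.r * D.w)) / X := by
        unfold At
        rw [h.s0_eq]
        have : Real.sqrt (D.c / D.k0) * D.r * (D.t0 - D.w - D.t0) =
            -(Real.sqrt (D.c / D.k0) * D.r * D.w) := by ring
        rw [this, Real.arctan_neg]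
      rw [h5, neg_div, neg_le_neg_iff]
      apply div_le_div_of_nonneg_right _ hsq.le
      -- the argument is at least 1
      have h6 : 1 ≤ Real.sqrt (D.c / D.k0) * D.r * D.w := by
        have hb := h.b_ge'
        have hb0 : 0 < D.b := by linarith
        have i1 : 1 / D.b ≤ Real.sqrt (D.c / D.k0) := by
          apply Real.le_sqrt_of_sq_le
          have j1 := h.toFlo.c_ge
          have j2 := h.k0_le
          calc (1 / D.b) ^ 2 = (1 / D.b) / D.b := by ring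
            _ ≤ D.c / D.k0 := by gcongr
        have i2 : 1 / 2 * D.h ^ 12 ≤ D.r := by
          unfold r
          apply Real.le_sqrt_of_sq_le
          have j1 := h.toFlo.kap_ge
          have ha := h.toFlo.a_pos
          have j2 : (1 / 2 * D.h ^ 12) ^ 2 = 1 / 4 * D.a := by
            unfold a
            ring
          rw [j2]
          nlinarith
        have i3 : D.b * 2 ≤ D.h ^ 5 := by
          have j1 := h.ten_le (k := 1) (m := 1) (by norm_num)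
          have j2 : D.h ≤ D.h ^ 5 := by
            calc D.h = D.h ^ 1 := (pow_one _).symm
              _ ≤ D.h ^ 5 := pow_le_pow_right₀ h.h1 (by norm_num)
          norm_num at j1
          linarith
        calc (1:ℝ) = 1 / D.b * (1 / 2) * (D.b * 2) := by field_simp
          _ ≤ 1 / D.b * (1 / 2) * D.h ^ 5 := by gcongr
          _ = 1 / D.b * (1 / 2 * D.h ^ 12) * D.w := by
            unfold w
            field_simp
          _ ≤ Real.sqrt (D.c / D.k0) * D.r * D.w := by gcongr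
      have h7 : Real.arctan 1 ≤ Real.arctan (Real.sqrt (D.c / D.k0) * D.r * D.w) :=
        Real.arctan_strictMono.monotone h6
      rw [Real.arctan_one] at h7
      have := Real.pi_gt_d2
      norm_num at this
      linarith
    linarith
  have h8 := abs_le.1 (h.Omp_near hs0 hst)
  have hX4 := h.sqck_small
  have h9 : 77 / 100 / X ≤ D.Omp t - D.Omp D.s0 := by
    have h10 : (1:ℝ) ≤ 1 / X := by
      rw [le_div_iff₀ hsq]
      norm_num at hX4
      linarith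
    have h11 : 78 / 100 / X = 77 / 100 / X + 1 / 100 * (1 / X) := by ring
    norm_num at h8
    linarith
  have h12 : Real.exp (-(2 * D.mc * (D.Omp t - D.Omp D.s0))) ≤ X ^ 3 := by
    have h13 : 2 * (1 / X) ≤ 2 * D.mc * (D.Omp t - D.Omp D.s0) := by
      have h14 : 14 / 10 * (77 / 100 / X) ≤ D.mc * (D.Omp t - D.Omp D.s0) := by
        apply mul_le_mul hm h9 (by positivity) hm0
      have h15 : 14 / 10 * (77 / 100 / X) = 1078 / 1000 * (1 / X) := by ring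
      have h16 : 0 < 1 / X := by positivity
      linarith
    have h17 : Real.exp (-(2 * D.mc * (D.Omp t - D.Omp D.s0))) ≤ Real.exp (-(2 * (1 / X))) := by
      apply Real.exp_le_exp.2
      linarith
    refine h17.trans ?_
    rw [Real.exp_neg]
    have h18 : (1 / X) ^ 3 ≤ Real.exp (2 * (1 / X)) := by
      have h19 : 0 ≤ 1 / X := by positivity
      have h20 := Real.pow_div_factorial_le_exp (2 * (1 / X)) (by positivity) 3
      have h21 : (2 * (1 / X)) ^ 3 / (Nat.factorial 3 : ℝ) = 8 / 6 * (1 / X) ^ 3 := by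
        norm_num [Nat.factorial]
        ring
      rw [h21] at h20
      have : 0 ≤ (1 / X) ^ 3 := by positivity
      linarith
    calc (Real.exp (2 * (1 / X)))⁻¹ ≤ ((1 / X) ^ 3)⁻¹ := by
          apply inv_anti₀ (by positivity) h18
      _ = X ^ 3 := by
          field_simp
  have h22 : 100 * X ^ 3 ≤ D.eta := by
    -- `k0 ≤ 1/X²`
    have h23 : D.k0 * X ^ 2 ≤ 1 := by
      rw [hX2]
      calc D.k0 * (D.c * D.k0) = D.c * D.k0 ^ 2 := by ring
        _ ≤ 1 := hck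
    have h24 : 100 * X ^ 3 ≤ 100 / (D.k0 ^ 2 * X) := by
      rw [le_div_iff₀ (by positivity)]
      have h25 : (D.k0 * X ^ 2) ^ 2 ≤ 1 := pow_le_one₀ (by positivity) h23
      calc 100 * X ^ 3 * (D.k0 ^ 2 * X) = 100 * (D.k0 * X ^ 2) ^ 2 := by ring
        _ ≤ 100 * 1 := by gcongr
        _ = 100 := by norm_num
    unfold eta
    have h26 : 0 ≤ D.k0 / D.k2 + 100 * D.c / D.k2 + (D.h)⁻¹ := by positivity
    rw [← hX]
    linarith
  -- the ratio
  have h27 : |D.Uu W D.s0| / D.Nn W D.s0 ≤ 1 := by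
    rw [div_le_one n0]
    unfold Uu Nn
    have : 0 < D.mc * D.Y 1 W D.s0 := mul_pos (by linarith) hY0
    rw [abs_le]
    constructor <;> linarith
  have h28 : 0 ≤ |D.Uu W D.s0| / D.Nn W D.s0 := by positivity
  have h29 : |D.Uu W t| ≤ 8 / 10 * D.eta * D.Nn W t := by
    have h30 : |D.Uu W D.s0| / D.Nn W D.s0 * Real.exp (-(2 * D.mc * (D.Omp t - D.Omp D.s0))) ≤
        1 / 100 * D.eta := by
      calc |D.Uu W D.s0| / D.Nn W D.s0 * Real.exp (-(2 * D.mc * (D.Omp t - D.Omp D.s0))) ≤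
            1 * X ^ 3 := mul_le_mul h27 h12 (Real.exp_pos _).le zero_le_one
        _ ≤ 1 / 100 * D.eta := by linarith
    calc |D.Uu W t| ≤ D.Nn W t * (1 / 100 * D.eta + 9 / 2 * (16 / 100 * D.eta)) := by
          refine u0.trans ?_
          gcongr
      _ ≤ _ := by
          have h31 : 0 ≤ D.eta := by
            have : 0 ≤ X ^ 3 := by positivity
            linarith
          have : 0 ≤ D.eta * D.Nn W t := by positivity
          nlinarith
  have h31 : 0 ≤ D.eta := by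
    have : 0 ≤ X ^ 3 := by positivity
    linarith
  have h32 : D.mc * D.Y 1 W t = (D.Nn W t - D.Uu W t) / 2 := by
    unfold Nn Uu
    ring
  have h33 := abs_le.1 h29
  have h34 : 8 / 10 * D.eta * D.Nn W t ≤ 1 / 1000 * D.Nn W t := by
    have : 8 / 10 * D.eta ≤ 1 / 1000 := by
      norm_num at heta
      linarith
    gcongr
  have h35 : 499 / 1000 * D.Nn W t ≤ D.mc * D.Y 1 W t := by
    rw [h32]
    linarith [h33.2]
  have h36 : 0 < D.Y 1 W t := by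
    have : 0 < D.mc * D.Y 1 W t := by linarith
    by_contra hneg
    push Not at hneg
    have := mul_nonpos_of_nonneg_of_nonpos hm0 hneg
    linarith
  refine ⟨h36, ?_⟩
  show |D.Uu W t| ≤ _
  have h37 : D.Nn W t ≤ 3 * D.Y 1 W t := by
    have : D.mc * D.Y 1 W t ≤ 1415 / 1000 * D.Y 1 W t := by gcongr
    linarith
  calc |D.Uu W t| ≤ 8 / 10 * D.eta * D.Nn W t := h29
    _ ≤ 8 / 10 * D.eta * (3 * D.Y 1 W t) := by gcongr
    _ ≤ 3 * D.eta * D.Y 1 W t := by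
      have : 0 ≤ D.eta * D.Y 1 W t := by positivity
      nlinarith

end LevD

end Pool.Agent.Work.MP_b0497c_an.Unf.O

end
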