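import Pool.Agent.Work.MP_b0497c_an.Unf.OComp
import Pool.Agent.Work.MP_b0497c_an.Unf.KOne
import Pool.Agent.Work.MP_b0497c_an.Unf.OLab

/-! Bundle of small proof modules (one section per former module). -/

section

set_option autoImplicit false

/-!
# Block O: T2 (core wave), kinematics of the exact data of the next level
-/

open Set ContinuousLinearMap RealInnerProductSpace

namespace Pool.Agent.Work.MP_b0497c_an.Unf.O

open Forced.Ode (Op)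
open Fam K

namespace LevD

variable {D : LevD} {N : NextD}

/-! ### Kinematics of the next level -/

namespace So

theorem FFi_apply (h : D.So N) (t : ℝ) (x : E3) : N.F t (N.Fi t x) = x :=
  congrArg (fun L : Op => L x) (h.FFi t)

theorem FiF_apply (h : D.So N) (t : ℝ) (x : E3) : N.Fi t (N.F t x) = x :=
  congrArg (fun L : Op => L x) (h.FiF t)

theorem Fi_der (h : D.So N) (t : ℝ) : HasDerivAt N.Fi (-((N.Fi t).comp (N.A t))) t := by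
  let u : (E3 →L[ℝ] E3)ˣ := ⟨N.F t, N.Fi t, h.FFi t, h.FiF t⟩
  have h1 : HasFDerivAt Ring.inverse _ (N.F t) := hasFDerivAt_ringInverse (𝕜 := ℝ) u
  have h2 := h1.comp_hasDerivAt t (h.F_der t)
  have h3 : (Ring.inverse ∘ N.F) = N.Fi := by
    funext s
    let us : (E3 →L[ℝ] E3)ˣ := ⟨N.F s, N.Fi s, h.FFi s, h.FiF s⟩
    exact Ring.inverse_unit us
  rw [h3] at h2
  refine h2.congr_deriv ?_
  show -((N.Fi t).comp (((N.A t).comp (N.F t)).comp (N.Fi t))) = _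
  ext1 x
  simp [h.FFi_apply]

theorem covec_der (h : D.So N) (K : E3) (t : ℝ) :
    HasDerivAt (fun t => adjoint (N.Fi t) K) (-(adjoint (N.A t) (adjoint (N.Fi t) K))) t := by
  have h1 : HasDerivAt (fun t => adR (N.Fi t)) (adR (-((N.Fi t).comp (N.A t)))) t :=
    adR.hasFDerivAt.comp_hasDerivAt t (h.Fi_der t)
  have h2 := h1.clm_apply (hasDerivAt_const t K)
  refine h2.congr_deriv ?_
  simp only [adR_apply, map_neg, map_zero, add_zero, neg_apply]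
  rw [adj_comp]

theorem k_der (h : D.So N) (t : ℝ) : HasDerivAt N.k (-(adjoint (N.A t) (N.k t))) t :=
  h.covec_der N.K t

theorem adF_adFi (h : D.So N) (t : ℝ) (x : E3) : adjoint (N.F t) (adjoint (N.Fi t) x) = x := by
  rw [← adj_comp, h.FiF, adj_id]

theorem adFi_adF (h : D.So N) (t : ℝ) (x : E3) : adjoint (N.Fi t) (adjoint (N.F t) x) = x := by
  rw [← adj_comp, h.FFi, adj_id]

theorem adFi_ne (h : D.So N) (t : ℝ) {x : E3} (hx : x ≠ 0) : adjoint (N.Fi t) x ≠ 0 := by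
  intro h0
  apply hx
  rw [← h.adF_adFi t x, h0, map_zero]

theorem k_ne (h : D.So N) (t : ℝ) : N.k t ≠ 0 := h.adFi_ne t h.K_ne

theorem Fi_zero (h : D.So N) : N.Fi 0 = ContinuousLinearMap.id ℝ E3 := by
  ext1 x
  have h1 := h.FiF_apply 0 x
  rwa [h.F_zero] at h1

theorem k_zero (h : D.So N) : N.k 0 = N.K := by
  unfold NextD.k
  rw [h.Fi_zero, adj_id]

theorem k_cont (h : D.So N) : Continuous N.k :=
  continuous_iff_continuousAt.2 fun t => (h.k_der t).continuousAt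

theorem Fi_cont (h : D.So N) : Continuous N.Fi :=
  continuous_iff_continuousAt.2 fun t => (h.Fi_der t).continuousAt

theorem A_cont (h : D.So N) : Continuous N.A := by
  have h2 : LipschitzWith (Real.toNNReal N.bp) N.A := by
    refine LipschitzWith.of_dist_le_mul fun x y => ?_
    rw [dist_eq_norm, Real.dist_eq]
    refine (h.A_lip x y).trans ?_
    exact mul_le_mul_of_nonneg_right (Real.le_coe_toNNReal _) (abs_nonneg _)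
  exact h2.continuous

theorem gen_cont (h : D.So N) : Continuous fun t => kel (N.A t) (N.k t) :=
  K.kel_cont h.A_cont h.k_cont h.k_ne

end So

/-! ### T2 -/

/-- `K · seed K = 0` -/
theorem inner_seed (D : LevD) {K : E3} (h : ⟪K, D.l⟫ ≠ 0) : ⟪K, D.seed K⟫ = 0 := by
  unfold seed
  rw [inner_sub_right, inner_smul_right]
  field_simp
  ring

theorem fam_K_zero (h : D.HL) (al : ℝ) : D.fam.K al 0 = D.Kn := by
  obtain ⟨-, -, h1, -, h2, -, -, h3, -, -⟩ := t1a D D.b h.flo al 0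
  rw [← h2]
  have h4 : D.Fi1 al 0 = ContinuousLinearMap.id ℝ E3 := by
    rw [h3] at h1
    exact h1
  rw [h4, adj_id]

theorem gen_cont (h : D.HL) (al : ℝ) : Continuous (D.gen al) := h.flo.kel_cont al

theorem t2 (hc : T1c) : T2 := by
  intro D h
  have hT := h.flo.T_pos
  have h0 : (0 : ℝ) ∈ Icc 0 D.T := ⟨le_rfl, hT.le⟩
  obtain ⟨-, -, -, -, -, -, -, -, h1, -⟩ := hc D h 1 ⟨by norm_num, le_rfl⟩ 0 h0
  have h2 : ⟪D.Kn, D.l⟫ ≠ 0 := by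
    intro h3
    rw [h3, mul_zero] at h1
    linarith
  let W : ℝ → E3 := Forced.Ode.Linear.sol (D.gen 1) (fun _ => 0) 0 (D.seed D.Kn)
  have hW : ∀ t, HasDerivAt W (D.gen 1 t (W t)) t := by
    intro t
    have h3 := Forced.Ode.Linear.sol_deriv (r := fun _ => (0 : E3)) (gen_cont h 1)
      continuous_const 0 (D.seed D.Kn) t
    simpa using h3
  have hW0 : W 0 = D.seed D.Kn := Forced.Ode.Linear.sol_init _ _ _ _
  refine ⟨W, ⟨fun t _ => hW t, hW0⟩, ?_⟩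
  intro t ht
  have h4 := inner_const (M := D.fam.M 1) (k := D.fam.K 1) (u := W) (s := 0) (t := D.T)
    (fun r hr => h.flo.ok.Kd 1 hr) (fun r _ => h.flo.K_all 1 r) (fun r _ => hW r) t ht
  rw [h4, fam_K_zero h, hW0]
  exact inner_seed D h2

end LevD

end Pool.Agent.Work.MP_b0497c_an.Unf.O

end

section

set_option autoImplicit false

/-!
# Block O: comparison of the exact wave with the core wave of the model (T3, T4)
-/

open Set ContinuousLinearMap RealInnerProductSpace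

namespace Pool.Agent.Work.MP_b0497c_an.Unf.O

open Forced.Ode (Op)
open Fam K

/-- Directions of near vectors. -/
theorem dir_near {x y : E3} (hx : x ≠ 0) (hy : y ≠ 0) :
    ‖(‖x‖)⁻¹ • x - (‖y‖)⁻¹ • y‖ ≤ 2 * ‖x - y‖ / ‖y‖ := by
  have hx' : 0 < ‖x‖ := norm_pos_iff.2 hx
  have hy' : 0 < ‖y‖ := norm_pos_iff.2 hy
  have e : (‖x‖)⁻¹ • x - (‖y‖)⁻¹ • y = (‖y‖)⁻¹ • (x - y) + ((‖x‖)⁻¹ - (‖y‖)⁻¹) • x := by
    module
  rw [e]
  have h1 : ‖(‖y‖)⁻¹ • (x - y)‖ = ‖x - y‖ / ‖y‖ := by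
    rw [norm_smul, norm_inv, norm_norm]; field_simp
  have h2 : ‖((‖x‖)⁻¹ - (‖y‖)⁻¹) • x‖ ≤ ‖x - y‖ / ‖y‖ := by
    rw [norm_smul, Real.norm_eq_abs]
    have h3 : (‖x‖)⁻¹ - (‖y‖)⁻¹ = (‖y‖ - ‖x‖) / (‖x‖ * ‖y‖) := by field_simp
    rw [h3, abs_div, abs_of_pos (mul_pos hx' hy')]
    have h4 : |‖y‖ - ‖x‖| ≤ ‖x - y‖ := by
      rw [abs_sub_comm]; exact abs_norm_sub_norm_le x y
    calc |‖y‖ - ‖x‖| / (‖x‖ * ‖y‖) * ‖x‖ = |‖y‖ - ‖x‖| / ‖y‖ := by field_simp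
      _ ≤ ‖x - y‖ / ‖y‖ := div_le_div_of_nonneg_right h4 hy'.le
  calc _ ≤ ‖x - y‖ / ‖y‖ + ‖x - y‖ / ‖y‖ := (norm_add_le _ _).trans (add_le_add h1.le h2)
    _ = 2 * ‖x - y‖ / ‖y‖ := by ring

/-- Directions do not see positive factors. -/
theorem dir_smul {c : ℝ} (hc : 0 < c) (x : E3) : (‖c • x‖)⁻¹ • (c • x) = (‖x‖)⁻¹ • x := by
  rw [norm_smul, Real.norm_eq_abs, abs_of_pos hc, smul_smul, mul_inv]
  congr 1
  field_simp

namespace LevD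

variable {D : LevD} {N : NextD}

namespace So

theorem bp_pos (hS : D.So N) (h : D.HL) : 0 < N.bp :=
  lt_of_lt_of_le (by have := h.h_one'; positivity) hS.bp_ge

theorem eps_pos (hS : D.So N) (h : D.HL) : 0 < (N.bp ^ 30)⁻¹ := by
  have := hS.bp_pos h
  positivity

/-- `h ^ m` times the error. -/
theorem eps_le (hS : D.So N) (h : D.HL) {m : ℕ} (hm : m ≤ 600) :
    D.h ^ m * (N.bp ^ 30)⁻¹ ≤ (N.bp ^ 29)⁻¹ := by
  have hp := hS.bp_pos h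
  have h1 : D.h ^ m ≤ N.bp := (pow_le_pow_right₀ h.h_one' hm).trans hS.bp_ge
  calc D.h ^ m * (N.bp ^ 30)⁻¹ ≤ N.bp * (N.bp ^ 30)⁻¹ :=
        mul_le_mul_of_nonneg_right h1 (by positivity)
    _ = (N.bp ^ 29)⁻¹ := by field_simp

theorem bp_big (hS : D.So N) (h : D.HL) : (10 : ℝ) ^ 200 ≤ N.bp :=
  (h.h_big.trans (le_self_pow₀ h.h_one' (by norm_num))).trans hS.bp_ge

theorem eps29_le (hS : D.So N) (h : D.HL) : 4 * (N.bp ^ 29)⁻¹ ≤ (N.bp ^ 28)⁻¹ := by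
  have hp := hS.bp_pos h
  have h1 : (4 : ℝ) ≤ N.bp := le_trans (by norm_num) (hS.bp_big h)
  calc 4 * (N.bp ^ 29)⁻¹ ≤ N.bp * (N.bp ^ 29)⁻¹ := mul_le_mul_of_nonneg_right h1 (by positivity)
    _ = (N.bp ^ 28)⁻¹ := by field_simp

theorem eps28_le (hS : D.So N) (h : D.HL) {m : ℕ} (hm : m ≤ 600) :
    D.h ^ m * (N.bp ^ 28)⁻¹ ≤ (N.bp ^ 27)⁻¹ := by
  have hp := hS.bp_pos h
  have h1 : D.h ^ m ≤ N.bp := (pow_le_pow_right₀ h.h_one' hm).trans hS.bp_ge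
  calc D.h ^ m * (N.bp ^ 28)⁻¹ ≤ N.bp * (N.bp ^ 28)⁻¹ :=
        mul_le_mul_of_nonneg_right h1 (by positivity)
    _ = (N.bp ^ 27)⁻¹ := by field_simp

end So

/-- the two normalised covectors -/
theorem cov_near (hc : T1c) (h : D.HL) (hS : D.So N) {t : ℝ} (ht : t ∈ Icc 0 D.T) :
    ‖adjoint (N.Fi t) ((‖N.K‖)⁻¹ • N.K) - adjoint (D.Fi1 1 t) ((‖D.Kn‖)⁻¹ • D.Kn)‖ ≤
      2 * D.h ^ 26 * (N.bp ^ 30)⁻¹ ∧
    1 ≤ D.h ^ 26 * ‖adjoint (D.Fi1 1 t) ((‖D.Kn‖)⁻¹ • D.Kn)‖ ∧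
    N.k t = ‖N.K‖ • adjoint (N.Fi t) ((‖N.K‖)⁻¹ • N.K) ∧
    D.fam.K 1 t = ‖D.Kn‖ • adjoint (D.Fi1 1 t) ((‖D.Kn‖)⁻¹ • D.Kn) ∧
    0 < ‖N.K‖ ∧ 0 < ‖D.Kn‖ := by
  obtain ⟨-, c2, c3, -, -, -, -, c8, -⟩ := hc D h 1 ⟨by norm_num, le_rfl⟩ t ht
  obtain ⟨-, -, -, a4, a5, -⟩ := t1a D D.b h.flo 1 t
  have hh := h.h_one'
  have hKn : 0 < ‖D.Kn‖ := by
    by_contra h0
    have h1 : ‖D.Kn‖ = 0 := le_antisymm (not_lt.1 h0) (norm_nonneg _)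
    rw [h1, mul_zero] at c8
    linarith
  have hK : 0 < ‖N.K‖ := norm_pos_iff.2 hS.K_ne
  have n1 : ‖(‖N.K‖)⁻¹ • N.K‖ = 1 := by
    rw [norm_smul, norm_inv, norm_norm]; field_simp
  have n2 : ‖(‖D.Kn‖)⁻¹ • D.Kn‖ = 1 := by
    rw [norm_smul, norm_inv, norm_norm]; field_simp
  have he := (hS.eps_pos h).le
  refine ⟨?_, ?_, ?_, ?_, hK, hKn⟩
  · have e : adjoint (N.Fi t) ((‖N.K‖)⁻¹ • N.K) - adjoint (D.Fi1 1 t) ((‖D.Kn‖)⁻¹ • D.Kn) =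
        adjoint (N.Fi t - D.Fi1 1 t) ((‖N.K‖)⁻¹ • N.K) +
          adjoint (D.Fi1 1 t) ((‖N.K‖)⁻¹ • N.K - (‖D.Kn‖)⁻¹ • D.Kn) := by
      rw [map_sub, sub_apply, map_sub]
      abel
    rw [e]
    have h1 := (adj_le (N.Fi t - D.Fi1 1 t) ((‖N.K‖)⁻¹ • N.K)).trans
      (mul_le_mul_of_nonneg_right (hS.Fi_near t ht) (norm_nonneg _))
    rw [n1, mul_one] at h1
    have h2 := (adj_le (D.Fi1 1 t) ((‖N.K‖)⁻¹ • N.K - (‖D.Kn‖)⁻¹ • D.Kn)).trans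
      (mul_le_mul c3 hS.K_near (norm_nonneg _) (by positivity))
    have h3 : (N.bp ^ 30)⁻¹ ≤ D.h ^ 26 * (N.bp ^ 30)⁻¹ :=
      le_mul_of_one_le_left he (one_le_pow₀ hh)
    calc _ ≤ (N.bp ^ 30)⁻¹ + D.h ^ 26 * (N.bp ^ 30)⁻¹ :=
          (norm_add_le _ _).trans (add_le_add h1 h2)
      _ ≤ 2 * D.h ^ 26 * (N.bp ^ 30)⁻¹ := by linarith
  · have e : adjoint (D.F1 1 t) (adjoint (D.Fi1 1 t) ((‖D.Kn‖)⁻¹ • D.Kn)) =
        (‖D.Kn‖)⁻¹ • D.Kn := by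
      rw [← adj_comp, a4, adj_id]
    have h1 := adj_le (D.F1 1 t) (adjoint (D.Fi1 1 t) ((‖D.Kn‖)⁻¹ • D.Kn))
    rw [e, n2] at h1
    exact h1.trans (mul_le_mul_of_nonneg_right c2 (norm_nonneg _))
  · unfold NextD.k
    rw [map_smul, smul_smul, mul_inv_cancel₀ hK.ne', one_smul]
  · rw [← a5, map_smul, smul_smul, mul_inv_cancel₀ hKn.ne', one_smul]

/-- the directions of the covectors -/
theorem dir_k_near (hc : T1c) (h : D.HL) (hS : D.So N) {t : ℝ} (ht : t ∈ Icc 0 D.T) :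
    ‖(‖N.k t‖)⁻¹ • N.k t - (‖D.fam.K 1 t‖)⁻¹ • D.fam.K 1 t‖ ≤ (N.bp ^ 28)⁻¹ := by
  obtain ⟨h1, h2, h3, h4, h5, h6⟩ := cov_near hc h hS ht
  have hh := h.h_one'
  have hk1 : adjoint (D.Fi1 1 t) ((‖D.Kn‖)⁻¹ • D.Kn) ≠ 0 := by
    intro h0
    rw [h0, norm_zero, mul_zero] at h2
    linarith
  have hk : adjoint (N.Fi t) ((‖N.K‖)⁻¹ • N.K) ≠ 0 := by
    intro h0
    apply hS.k_ne t
    rw [h3, h0, smul_zero]
  rw [h3, h4, dir_smul h5, dir_smul h6]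
  have hp := norm_pos_iff.2 hk1
  refine (dir_near hk hk1).trans ?_
  have h7 : (‖adjoint (D.Fi1 1 t) ((‖D.Kn‖)⁻¹ • D.Kn)‖)⁻¹ ≤ D.h ^ 26 := by
    rw [inv_le_iff_one_le_mul₀ hp]
    exact h2
  have he := (hS.eps_pos h).le
  calc 2 * ‖adjoint (N.Fi t) ((‖N.K‖)⁻¹ • N.K) - adjoint (D.Fi1 1 t) ((‖D.Kn‖)⁻¹ • D.Kn)‖ /
        ‖adjoint (D.Fi1 1 t) ((‖D.Kn‖)⁻¹ • D.Kn)‖
      ≤ 2 * (2 * D.h ^ 26 * (N.bp ^ 30)⁻¹) * D.h ^ 26 := by
        rw [div_eq_mul_inv]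
        exact mul_le_mul (mul_le_mul_of_nonneg_left h1 (by norm_num)) h7 (by positivity)
          (by positivity)
    _ = 4 * (D.h ^ 52 * (N.bp ^ 30)⁻¹) := by ring
    _ ≤ 4 * (N.bp ^ 29)⁻¹ :=
        mul_le_mul_of_nonneg_left (hS.eps_le h (by norm_num)) (by norm_num)
    _ ≤ (N.bp ^ 28)⁻¹ := hS.eps29_le h

/-- the generators -/
theorem gen_near (hc : T1c) (h : D.HL) (hS : D.So N) {t : ℝ} (ht : t ∈ Icc 0 D.T) :
    ‖kel (N.A t) (N.k t) - D.gen 1 t‖ ≤ D.h ^ 80 * (N.bp ^ 30)⁻¹ := by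
  obtain ⟨c1, -⟩ := hc D h 1 ⟨by norm_num, le_rfl⟩ t ht
  obtain ⟨h1, h2, h3, h4, h5, h6⟩ := cov_near hc h hS ht
  have hh := h.h_one'
  have hk1 : adjoint (D.Fi1 1 t) ((‖D.Kn‖)⁻¹ • D.Kn) ≠ 0 := by
    intro h0
    rw [h0, norm_zero, mul_zero] at h2
    linarith
  have hk : adjoint (N.Fi t) ((‖N.K‖)⁻¹ • N.K) ≠ 0 := by
    intro h0
    apply hS.k_ne t
    rw [h3, h0, smul_zero]
  have hp := norm_pos_iff.2 hk1
  have h7 : (‖adjoint (D.Fi1 1 t) ((‖D.Kn‖)⁻¹ • D.Kn)‖)⁻¹ ≤ D.h ^ 26 := by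
    rw [inv_le_iff_one_le_mul₀ hp]
    exact h2
  have he := (hS.eps_pos h).le
  unfold gen
  rw [h3, h4, kel_smul _ h5.ne', kel_smul _ h6.ne']
  refine (kel_sub_le (N.A t) (D.fam.M 1 t) hk hk1).trans ?_
  have hh80 : (19 : ℝ) ≤ D.h ^ 2 := by
    have h8 : (19 : ℝ) ≤ D.h := le_trans (by norm_num) h.h_big
    nlinarith
  calc 3 * ‖N.A t - D.fam.M 1 t‖ + 8 * ‖D.fam.M 1 t‖ *
        (‖adjoint (N.Fi t) ((‖N.K‖)⁻¹ • N.K) - adjoint (D.Fi1 1 t) ((‖D.Kn‖)⁻¹ • D.Kn)‖ /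
          ‖adjoint (D.Fi1 1 t) ((‖D.Kn‖)⁻¹ • D.Kn)‖)
      ≤ 3 * (N.bp ^ 30)⁻¹ + 8 * D.h ^ 26 * ((2 * D.h ^ 26 * (N.bp ^ 30)⁻¹) * D.h ^ 26) := by
        apply add_le_add (mul_le_mul_of_nonneg_left (hS.A_near t ht) (by norm_num))
        apply mul_le_mul (mul_le_mul_of_nonneg_left c1 (by norm_num)) _ (by positivity)
          (by positivity)
        rw [div_eq_mul_inv]
        exact mul_le_mul h1 h7 (by positivity) (by positivity)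
    _ = (3 + 16 * D.h ^ 78) * (N.bp ^ 30)⁻¹ := by ring
    _ ≤ D.h ^ 80 * (N.bp ^ 30)⁻¹ := by
        apply mul_le_mul_of_nonneg_right _ he
        have h9 : 1 ≤ D.h ^ 78 := one_le_pow₀ hh
        calc 3 + 16 * D.h ^ 78 ≤ 19 * D.h ^ 78 := by linarith
          _ ≤ D.h ^ 2 * D.h ^ 78 := mul_le_mul_of_nonneg_right hh80 (by positivity)
          _ = D.h ^ 80 := by ring

/-- the seeds -/
theorem seed_near (hc : T1c) (h : D.HL) (hS : D.So N) :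
    ‖D.seed N.K - D.seed D.Kn‖ ≤ D.h ^ 60 * (N.bp ^ 30)⁻¹ * ‖D.seed D.Kn‖ := by
  have hT := h.flo.T_pos
  have ht : (0 : ℝ) ∈ Icc 0 D.T := ⟨le_rfl, hT.le⟩
  obtain ⟨-, -, -, -, -, -, c7, c8, c9, -, c11, c12⟩ := hc D h 1 ⟨by norm_num, le_rfl⟩ 0 ht
  obtain ⟨-, -, -, -, h5, h6⟩ := cov_near hc h hS ht
  have hh := h.h_one'
  have hhb := h.h_big
  have he := (hS.eps_pos h).le
  set x : E3 := (‖N.K‖)⁻¹ • N.K with hx
  set y : E3 := (‖D.Kn‖)⁻¹ • D.Kn with hy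
  have hxy : ‖x - y‖ ≤ (N.bp ^ 30)⁻¹ := hS.K_near
  have ny : ‖y‖ = 1 := by
    rw [hy, norm_smul, norm_inv, norm_norm]; field_simp
  have hl : ‖D.l‖ ≤ D.h := h.flo.l_le.trans h.b_le_h
  -- lower bound of `y · l`
  have h1 : 1 ≤ D.h ^ 27 * ⟪y, D.l⟫ := by
    rw [hy, inner_smul_left]
    simp only [conj_trivial]
    have h2 : (‖D.Kn‖)⁻¹ * ‖D.Kn‖ = 1 := inv_mul_cancel₀ h6.ne'
    have hpos : 0 < ⟪D.Kn, D.l⟫ := by
      by_contra h0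
      have := mul_nonpos_of_nonneg_of_nonpos (by linarith : (0:ℝ) ≤ D.h) (not_lt.1 h0)
      linarith
    have h3 : D.h * ⟪D.Kn, D.l⟫ * 1 ≤ D.h * ⟪D.Kn, D.l⟫ * (D.h ^ 26 * (‖D.Kn‖)⁻¹) := by
      apply mul_le_mul_of_nonneg_left _ (by positivity)
      rw [← div_eq_mul_inv, one_le_div h6]
      exact c7
    calc 1 ≤ D.h * ⟪D.Kn, D.l⟫ * 1 := by linarith
      _ ≤ D.h * ⟪D.Kn, D.l⟫ * (D.h ^ 26 * (‖D.Kn‖)⁻¹) := h3
      _ = D.h ^ 27 * ((‖D.Kn‖)⁻¹ * ⟪D.Kn, D.l⟫) := by ring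
  have hyl : 0 < ⟪y, D.l⟫ := by
    by_contra h0
    have := mul_nonpos_of_nonneg_of_nonpos (by positivity : (0:ℝ) ≤ D.h ^ 27) (not_lt.1 h0)
    linarith
  have hd : |⟪x - y, D.l⟫| ≤ D.h * (N.bp ^ 30)⁻¹ := by
    refine (abs_real_inner_le_norm _ _).trans ?_
    rw [mul_comm]
    exact mul_le_mul hl hxy (norm_nonneg _) (by linarith)
  have h2 : 1 / 2 ≤ D.h ^ 27 * ⟪x, D.l⟫ := by
    have h3 : ⟪x, D.l⟫ = ⟪y, D.l⟫ + ⟪x - y, D.l⟫ := by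
      rw [inner_sub_left]; ring
    have h4 : D.h ^ 27 * (D.h * (N.bp ^ 30)⁻¹) ≤ 1 / 2 := by
      calc D.h ^ 27 * (D.h * (N.bp ^ 30)⁻¹) = D.h ^ 28 * (N.bp ^ 30)⁻¹ := by ring
        _ ≤ (N.bp ^ 29)⁻¹ := hS.eps_le h (by norm_num)
        _ ≤ 1 / 2 := by
          rw [inv_le_comm₀ (pow_pos (hS.bp_pos h) 29) (by norm_num)]
          have h7 : (10 : ℝ) ^ 200 ≤ N.bp := hS.bp_big h
          have h8 : N.bp ≤ N.bp ^ 29 :=
            le_self_pow₀ (by linarith [show (1:ℝ) ≤ 10 ^ 200 by norm_num]) (by norm_num)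
          have : ((1:ℝ) / 2)⁻¹ ≤ 10 ^ 200 := by norm_num
          linarith
    have h7 := abs_le.1 hd
    have h8 : D.h ^ 27 * (-(D.h * (N.bp ^ 30)⁻¹)) ≤ D.h ^ 27 * ⟪x - y, D.l⟫ :=
      mul_le_mul_of_nonneg_left h7.1 (by positivity)
    rw [h3, mul_add]
    linarith
  have hxl : 0 < ⟪x, D.l⟫ := by
    by_contra h0
    have := mul_nonpos_of_nonneg_of_nonpos (by positivity : (0:ℝ) ≤ D.h ^ 27) (not_lt.1 h0)
    linarith
  -- the seed in terms of the directions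
  have e1 : ⟪N.K, D.v 0⟫ / ⟪N.K, D.l⟫ = ⟪x, D.v 0⟫ / ⟪x, D.l⟫ := by
    rw [hx, inner_smul_left, inner_smul_left]
    simp only [conj_trivial]
    rw [mul_div_mul_left _ _ (inv_ne_zero h5.ne')]
  have e2 : ⟪D.Kn, D.v 0⟫ / ⟪D.Kn, D.l⟫ = ⟪y, D.v 0⟫ / ⟪y, D.l⟫ := by
    rw [hy, inner_smul_left, inner_smul_left]
    simp only [conj_trivial]
    rw [mul_div_mul_left _ _ (inv_ne_zero h6.ne')]
  have e3 : D.seed N.K - D.seed D.Kn =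
      -((⟪x, D.v 0⟫ / ⟪x, D.l⟫ - ⟪y, D.v 0⟫ / ⟪y, D.l⟫) • D.l) := by
    unfold seed
    rw [e1, e2]
    module
  have e4 : ⟪x, D.v 0⟫ / ⟪x, D.l⟫ - ⟪y, D.v 0⟫ / ⟪y, D.l⟫ =
      (⟪x - y, D.v 0⟫ * ⟪y, D.l⟫ - ⟪y, D.v 0⟫ * ⟪x - y, D.l⟫) / (⟪x, D.l⟫ * ⟪y, D.l⟫) := by
    rw [inner_sub_left, inner_sub_left]
    field_simp
    ring
  have h9 : |⟪x - y, D.v 0⟫ * ⟪y, D.l⟫ - ⟪y, D.v 0⟫ * ⟪x - y, D.l⟫| ≤
      2 * D.h * (N.bp ^ 30)⁻¹ * ‖D.v 0‖ := by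
    refine (abs_sub _ _).trans ?_
    rw [abs_mul, abs_mul]
    have k1 : |⟪x - y, D.v 0⟫| ≤ (N.bp ^ 30)⁻¹ * ‖D.v 0‖ :=
      (abs_real_inner_le_norm _ _).trans (mul_le_mul_of_nonneg_right hxy (norm_nonneg _))
    have k2 : |⟪y, D.l⟫| ≤ D.h := by
      refine (abs_real_inner_le_norm _ _).trans ?_
      rw [ny, one_mul]
      exact hl
    have k3 : |⟪y, D.v 0⟫| ≤ ‖D.v 0‖ := by
      refine (abs_real_inner_le_norm _ _).trans ?_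
      rw [ny, one_mul]
    have k4 := mul_le_mul k1 k2 (abs_nonneg _) (by positivity)
    have k5 := mul_le_mul k3 hd (abs_nonneg _) (by positivity)
    calc _ ≤ (N.bp ^ 30)⁻¹ * ‖D.v 0‖ * D.h + ‖D.v 0‖ * (D.h * (N.bp ^ 30)⁻¹) := add_le_add k4 k5
      _ = 2 * D.h * (N.bp ^ 30)⁻¹ * ‖D.v 0‖ := by ring
  have h10 : (⟪x, D.l⟫ * ⟪y, D.l⟫)⁻¹ ≤ 2 * D.h ^ 54 := by
    rw [inv_le_iff_one_le_mul₀ (mul_pos hxl hyl)]
    have h11 : (1 / 2 : ℝ) * 1 ≤ (D.h ^ 27 * ⟪x, D.l⟫) * (D.h ^ 27 * ⟪y, D.l⟫) :=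
      mul_le_mul h2 h1 (by norm_num) (by linarith)
    calc 1 = 2 * (1 / 2 * 1) := by norm_num
      _ ≤ 2 * ((D.h ^ 27 * ⟪x, D.l⟫) * (D.h ^ 27 * ⟪y, D.l⟫)) := by linarith
      _ = 2 * D.h ^ 54 * (⟪x, D.l⟫ * ⟪y, D.l⟫) := by ring
  rw [e3, norm_neg, norm_smul, Real.norm_eq_abs, e4, abs_div, abs_of_pos (mul_pos hxl hyl)]
  have hh60 : (4 : ℝ) ≤ D.h := le_trans (by norm_num) hhb
  calc |⟪x - y, D.v 0⟫ * ⟪y, D.l⟫ - ⟪y, D.v 0⟫ * ⟪x - y, D.l⟫| / (⟪x, D.l⟫ * ⟪y, D.l⟫) * ‖D.l‖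
      ≤ (2 * D.h * (N.bp ^ 30)⁻¹ * ‖D.v 0‖) * (2 * D.h ^ 54) * D.h := by
        rw [div_eq_mul_inv]
        apply mul_le_mul _ hl (norm_nonneg _) (by positivity)
        exact mul_le_mul h9 h10 (by positivity) (by positivity)
    _ = 4 * D.h ^ 56 * (N.bp ^ 30)⁻¹ * ‖D.v 0‖ := by ring
    _ ≤ D.h * D.h ^ 56 * (N.bp ^ 30)⁻¹ * ‖D.v 0‖ := by gcongr
    _ = D.h ^ 57 * (N.bp ^ 30)⁻¹ * ‖D.v 0‖ := by ring
    _ ≤ D.h ^ 60 * (N.bp ^ 30)⁻¹ * ‖D.seed D.Kn‖ := by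
        apply mul_le_mul _ c11 (norm_nonneg _) (by positivity)
        apply mul_le_mul_of_nonneg_right _ he
        exact pow_le_pow_right₀ hh (by norm_num)

end LevD

end Pool.Agent.Work.MP_b0497c_an.Unf.O

end

section

set_option autoImplicit false

/-!
# Block O: T3, T4 from K1, O4 and the crude bounds T1c
-/

open Set ContinuousLinearMap RealInnerProductSpace

namespace Pool.Agent.Work.MP_b0497c_an.Unf.O

open Forced.Ode (Op)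
open Fam K

namespace LevD

variable {D : LevD} {N : NextD}

/-- smallness used in the comparison -/
theorem Cd_le (h : D.HL) (hS : D.So N) {m : ℕ} (hm : m ≤ 600) :
    D.h ^ m * (N.bp ^ 30)⁻¹ ≤ 1 / 4 := by
  refine (hS.eps_le h hm).trans ?_
  rw [inv_le_comm₀ (pow_pos (hS.bp_pos h) 29) (by norm_num)]
  have h7 : (10 : ℝ) ^ 200 ≤ N.bp := hS.bp_big h
  have h8 : N.bp ≤ N.bp ^ 29 :=
    le_self_pow₀ (by linarith [show (1:ℝ) ≤ 10 ^ 200 by norm_num]) (by norm_num)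
  have : ((1:ℝ) / 4)⁻¹ ≤ 10 ^ 200 := by norm_num
  linarith

/-- PB of the exact generator. -/
theorem exact_PB (hc : T1c) (hK : StK1) (h : D.HL) (hS : D.So N) :
    PB (fun t => kel (N.A t) (N.k t)) 0 D.T (2 * D.h ^ 150) D.alp := by
  have hh := h.h_one'
  have h0 := hK D h 1 ⟨by norm_num, le_rfl⟩
  refine PB.perturb2 (δ := D.h ^ 80 * (N.bp ^ 30)⁻¹) (gen_cont h 1) hS.gen_cont
    (fun r hr => Cm.alp_pos h hr) (Cm.alp_cont h) (by positivity)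
    (by have := (hS.eps_pos h).le; positivity) (fun r hr => gen_near hc h hS hr)
    (by have := h.flo.T_one; linarith) ?_ h0
  calc 2 * (D.h ^ 150 * (D.h ^ 80 * (N.bp ^ 30)⁻¹)) = 2 * (D.h ^ 230 * (N.bp ^ 30)⁻¹) := by ring
    _ ≤ 2 * (1 / 4) := mul_le_mul_of_nonneg_left (Cd_le h hS (by norm_num)) (by norm_num)
    _ ≤ 1 := by norm_num

theorem t3 (hc : T1c) (hK : StK1) (hO : O4) : T3 := by
  intro D N h hS W hW t ht
  refine ⟨?_, dir_k_near hc h hS ht⟩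
  have hh := h.h_one'
  have he := (hS.eps_pos h).le
  have hT := h.flo.T_pos
  have h0 : (0 : ℝ) ∈ Icc 0 D.T := ⟨le_rfl, hT.le⟩
  have ht0 : t ∈ Icc (0 : ℝ) D.T := ht
  set B : ℝ → Op := fun t => kel (N.A t) (N.k t) with hB
  have hBc : Continuous B := hS.gen_cont
  -- the solution of the exact equation with the seed of the model
  let U : ℝ → E3 := Forced.Ode.Linear.sol B (fun _ => 0) 0 (W 0)
  have hU : ∀ t, HasDerivAt U (B t (U t)) t := by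
    intro t
    have h3 := Forced.Ode.Linear.sol_deriv (r := fun _ => (0 : E3)) hBc continuous_const 0 (W 0) t
    simpa using h3
  have hU0 : U 0 = W 0 := Forced.Ode.Linear.sol_init _ _ _ _
  have hwp : ∀ r ∈ Icc 0 D.T, 0 < D.alp r := fun r hr => Cm.alp_pos h hr
  have hr0 : 0 < D.alp t / D.alp 0 := div_pos (hwp t ht) (hwp 0 h0)
  have h150 : (0 : ℝ) ≤ D.h ^ 150 := by positivity
  have hδ : 0 ≤ D.h ^ 80 * (N.bp ^ 30)⁻¹ := mul_nonneg (pow_nonneg (by linarith) _) he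
  have d1 := PB.diff (A := D.gen 1) (B := B) (C := D.h ^ 150) (δ := D.h ^ 80 * (N.bp ^ 30)⁻¹)
    (w := D.alp) (a := 0) (b := D.T) (gen_cont h 1) hBc hwp (Cm.alp_cont h) h150 hδ
    (fun r hr => gen_near hc h hS hr) (hK D h 1 ⟨by norm_num, le_rfl⟩) (s := 0) (t := t) h0 ht
    (u := W) (v := U) (fun r hr => hW.der r ⟨hr.1, hr.2.trans ht.2⟩) (fun r _ => hU r) hU0.symm
  have d2 := exact_PB hc hK h hS 0 h0 t ht (fun t => N.V t - U t) (fun r _ => by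
    have := (hS.V_der r).sub (hU r)
    refine this.congr_deriv ?_
    show _ = B r (N.V r - U r)
    rw [map_sub])
  simp only [hU0] at d2
  have ht1 : t - 0 ≤ 1 := by
    have := h.flo.T_one
    linarith [ht.2]
  have ht2 : 0 ≤ t - 0 := by linarith [ht.1]
  -- first difference
  have e1 : ‖U t - W t‖ ≤ 2 * D.h ^ 380 * (N.bp ^ 30)⁻¹ * (D.alp t / D.alp 0 * ‖W 0‖) := by
    refine d1.trans ?_
    have e2 : D.h ^ 150 * (D.h ^ 80 * (N.bp ^ 30)⁻¹) ≤ 1 / 4 := by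
      calc D.h ^ 150 * (D.h ^ 80 * (N.bp ^ 30)⁻¹) = D.h ^ 230 * (N.bp ^ 30)⁻¹ := by ring
        _ ≤ 1 / 4 := Cd_le h hS (by norm_num)
    have e3 : D.h ^ 150 * (D.h ^ 80 * (N.bp ^ 30)⁻¹) * (t - 0) ≤ 1 / 4 * 1 :=
      mul_le_mul e2 ht1 ht2 (by norm_num)
    have e4 : Real.exp (D.h ^ 150 * (D.h ^ 80 * (N.bp ^ 30)⁻¹) * (t - 0)) ≤ 2 := by
      calc _ ≤ Real.exp (1 / 4 * 1) := Real.exp_le_exp.2 e3
        _ ≤ Real.exp (Real.log 2) := by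
          apply Real.exp_le_exp.2
          have := Real.log_two_gt_d9
          linarith
        _ = 2 := Real.exp_log (by norm_num)
    rw [hU0]
    have e5 : D.h ^ 150 * (D.h ^ 150 * (D.h ^ 80 * (N.bp ^ 30)⁻¹) * (t - 0)) ≤
        D.h ^ 380 * (N.bp ^ 30)⁻¹ := by
      calc D.h ^ 150 * (D.h ^ 150 * (D.h ^ 80 * (N.bp ^ 30)⁻¹) * (t - 0))
          ≤ D.h ^ 150 * (D.h ^ 150 * (D.h ^ 80 * (N.bp ^ 30)⁻¹) * 1) :=
            mul_le_mul_of_nonneg_left (mul_le_mul_of_nonneg_left ht1 (mul_nonneg h150 hδ)) h150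
        _ = D.h ^ 380 * (N.bp ^ 30)⁻¹ := by ring
    calc D.h ^ 150 * (D.h ^ 150 * (D.h ^ 80 * (N.bp ^ 30)⁻¹) * (t - 0)) *
          Real.exp (D.h ^ 150 * (D.h ^ 80 * (N.bp ^ 30)⁻¹) * (t - 0)) * (D.alp t / D.alp 0) *
          ‖W 0‖
        ≤ D.h ^ 380 * (N.bp ^ 30)⁻¹ * 2 * (D.alp t / D.alp 0) * ‖W 0‖ := by
          apply mul_le_mul_of_nonneg_right _ (norm_nonneg _)
          apply mul_le_mul_of_nonneg_right _ hr0.le
          exact mul_le_mul e5 e4 (Real.exp_pos _).le (mul_nonneg (pow_nonneg (by linarith) _) he)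
      _ = _ := by ring
  have e6 : ‖N.V t - U t‖ ≤ 2 * D.h ^ 210 * (N.bp ^ 30)⁻¹ * (D.alp t / D.alp 0 * ‖W 0‖) := by
    refine d2.trans ?_
    have e7 : ‖N.V 0 - W 0‖ ≤ D.h ^ 60 * (N.bp ^ 30)⁻¹ * ‖W 0‖ := by
      rw [hS.V_zero, hW.zero]
      exact seed_near hc h hS
    calc 2 * D.h ^ 150 * (D.alp t / D.alp 0) * ‖N.V 0 - W 0‖
        ≤ 2 * D.h ^ 150 * (D.alp t / D.alp 0) * (D.h ^ 60 * (N.bp ^ 30)⁻¹ * ‖W 0‖) := by gcongr
      _ = _ := by ring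
  have e8 : D.alp t / D.alp 0 * ‖W 0‖ ≤ D.h ^ 100 * ‖W t‖ := (hO D h W hW 0 h0 t ht).1
  have e9 : ‖N.V t - W t‖ ≤ (2 * D.h ^ 380 * (N.bp ^ 30)⁻¹ + 2 * D.h ^ 210 * (N.bp ^ 30)⁻¹) *
      (D.h ^ 100 * ‖W t‖) := by
    have e10 : N.V t - W t = (U t - W t) + (N.V t - U t) := by abel
    rw [e10]
    refine (norm_add_le _ _).trans ((add_le_add e1 e6).trans ?_)
    rw [← add_mul]
    exact mul_le_mul_of_nonneg_left e8 (by positivity)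
  refine e9.trans ?_
  rw [← mul_assoc]
  apply mul_le_mul_of_nonneg_right _ (norm_nonneg _)
  have e11 : D.h ^ 210 ≤ D.h ^ 380 := pow_le_pow_right₀ hh (by norm_num)
  calc (2 * D.h ^ 380 * (N.bp ^ 30)⁻¹ + 2 * D.h ^ 210 * (N.bp ^ 30)⁻¹) * D.h ^ 100
      ≤ (2 * D.h ^ 380 * (N.bp ^ 30)⁻¹ + 2 * D.h ^ 380 * (N.bp ^ 30)⁻¹) * D.h ^ 100 := by gcongr
    _ = 4 * (D.h ^ 480 * (N.bp ^ 30)⁻¹) := by ring
    _ ≤ 4 * (N.bp ^ 29)⁻¹ := mul_le_mul_of_nonneg_left (hS.eps_le h (by norm_num)) (by norm_num)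
    _ ≤ (N.bp ^ 28)⁻¹ := hS.eps29_le h

/-- the relative error is small -/
theorem eps28_half (h : D.HL) (hS : D.So N) : (N.bp ^ 28)⁻¹ ≤ 1 / 4 := by
  rw [inv_le_comm₀ (pow_pos (hS.bp_pos h) 28) (by norm_num)]
  have h7 : (10 : ℝ) ^ 200 ≤ N.bp := hS.bp_big h
  have h8 : N.bp ≤ N.bp ^ 28 :=
    le_self_pow₀ (by linarith [show (1:ℝ) ≤ 10 ^ 200 by norm_num]) (by norm_num)
  have : ((1:ℝ) / 4)⁻¹ ≤ 10 ^ 200 := by norm_num
  linarith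

theorem t4 (hc : T1c) (hK : StK1) (hO : O4) : T4 := by
  intro D N h hS
  have hh := h.h_one'
  have hh2 : (2 : ℝ) ≤ D.h := le_trans (by norm_num) h.h_big
  have hwp : ∀ r ∈ Icc 0 D.T, 0 < D.alp r := fun r hr => Cm.alp_pos h hr
  refine ⟨(exact_PB hc hK h hS).mono_const hwp ?_, ?_⟩
  · calc 2 * D.h ^ 150 ≤ D.h * D.h ^ 150 := by gcongr
      _ = D.h ^ 151 := by ring
  · obtain ⟨W, hW, -⟩ := t2 hc D h
    have h28 := eps28_half h hS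
    have key : ∀ t ∈ Icc 0 D.T, 3 / 4 * ‖W t‖ ≤ ‖N.V t‖ ∧ ‖N.V t‖ ≤ 5 / 4 * ‖W t‖ := by
      intro t ht
      have h1 := (t3 hc hK hO D N h hS W hW t ht).1
      have h2 : ‖N.V t - W t‖ ≤ 1 / 4 * ‖W t‖ :=
        h1.trans (mul_le_mul_of_nonneg_right h28 (norm_nonneg _))
      have h3 : ‖W t‖ ≤ ‖N.V t‖ + ‖N.V t - W t‖ := by
        have : W t = N.V t - (N.V t - W t) := by abel
        calc ‖W t‖ = ‖N.V t - (N.V t - W t)‖ := by rw [← this]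
          _ ≤ _ := norm_sub_le _ _
      have h4 : ‖N.V t‖ ≤ ‖W t‖ + ‖N.V t - W t‖ := by
        have : N.V t = W t + (N.V t - W t) := by abel
        calc ‖N.V t‖ = ‖W t + (N.V t - W t)‖ := by rw [← this]
          _ ≤ _ := norm_add_le _ _
      constructor <;> linarith
    intro s hs t ht
    have ht' : t ∈ Icc 0 D.T := ⟨hs.1.trans ht.1, ht.2⟩
    obtain ⟨a1, a2⟩ := key s hs
    obtain ⟨b1, b2⟩ := key t ht'
    obtain ⟨c1, c2⟩ := hO D h W hW s hs t ht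
    have hr : 0 < D.alp t / D.alp s := div_pos (hwp t ht') (hwp s hs)
    have h100 : (0 : ℝ) ≤ D.h ^ 100 := by positivity
    have hw := norm_nonneg (W t)
    have hw' := norm_nonneg (W s)
    constructor
    · calc D.alp t / D.alp s * ‖N.V s‖ ≤ D.alp t / D.alp s * (5 / 4 * ‖W s‖) :=
            mul_le_mul_of_nonneg_left a2 hr.le
        _ = 5 / 4 * (D.alp t / D.alp s * ‖W s‖) := by ring
        _ ≤ 5 / 4 * (D.h ^ 100 * ‖W t‖) := mul_le_mul_of_nonneg_left c1 (by norm_num)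
        _ ≤ 5 / 4 * (D.h ^ 100 * (4 / 3 * ‖N.V t‖)) := by
          have : ‖W t‖ ≤ 4 / 3 * ‖N.V t‖ := by linarith
          exact mul_le_mul_of_nonneg_left (mul_le_mul_of_nonneg_left this h100) (by norm_num)
        _ = 5 / 3 * (D.h ^ 100 * ‖N.V t‖) := by ring
        _ ≤ D.h * (D.h ^ 100 * ‖N.V t‖) :=
          mul_le_mul_of_nonneg_right (by linarith) (mul_nonneg h100 (norm_nonneg _))
        _ = D.h ^ 101 * ‖N.V t‖ := by ring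
    · calc ‖N.V t‖ ≤ 5 / 4 * ‖W t‖ := b2
        _ ≤ 5 / 4 * (D.h ^ 100 * (D.alp t / D.alp s) * ‖W s‖) :=
          mul_le_mul_of_nonneg_left c2 (by norm_num)
        _ ≤ 5 / 4 * (D.h ^ 100 * (D.alp t / D.alp s) * (4 / 3 * ‖N.V s‖)) := by
          have : ‖W s‖ ≤ 4 / 3 * ‖N.V s‖ := by linarith
          exact mul_le_mul_of_nonneg_left (mul_le_mul_of_nonneg_left this
            (mul_nonneg h100 hr.le)) (by norm_num)
        _ = 5 / 3 * (D.h ^ 100 * (D.alp t / D.alp s) * ‖N.V s‖) := by ring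
        _ ≤ D.h * (D.h ^ 100 * (D.alp t / D.alp s) * ‖N.V s‖) :=
          mul_le_mul_of_nonneg_right (by linarith)
            (mul_nonneg (mul_nonneg h100 hr.le) (norm_nonneg _))
        _ = D.h ^ 101 * (D.alp t / D.alp s) * ‖N.V s‖ := by ring

end LevD

end Pool.Agent.Work.MP_b0497c_an.Unf.O

end
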