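import Mathlib
import Pool.Agent.Work.MP_b0497c_an.Dec.CubeInt
import Pool.Agent.Work.MP_b0497c_an.Unf.LagStab

/-! Bundle of small proof modules (one section per former module). -/

section

set_option autoImplicit false

/-!
# Conclusion of the unforced cascade, part 1: a large gradient forces a large `L²` distance

If `g` has a large derivative `D` at `0` which varies slowly near `0`, and `v` has a much smaller
derivative, then the `L²` norm of `g - v` on the torus is bounded below.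
-/

namespace Pool.Agent.Work.MP_b0497c_an.Unf

open Set MeasureTheory RealInnerProductSpace Pool.Agent.Work.MP_b0497c_an Filter Topology
open Pool.Agent.Work.MP_b0497c_an.Dec
open scoped ContDiff

/-- The box with corner `z` and side `ρ`. -/
def box (z : E3) (ρ : ℝ) : Set E3 := {x | ∀ i, x i ∈ Icc (z i) (z i + ρ)}

theorem box_preimage (z : E3) (ρ : ℝ) :
    (WithLp.toLp 2 : (Fin 3 → ℝ) → EuclideanSpace ℝ (Fin 3)) ⁻¹' (box z ρ)
    = Icc (fun i => z i) (fun i => z i + ρ) := by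
  ext y
  simp only [mem_preimage, box, mem_Icc, Pi.le_def, mem_ofPred_eq]
  constructor
  · intro h
    exact ⟨fun i => (h i).1, fun i => (h i).2⟩
  · intro h i
    exact ⟨h.1 i, h.2 i⟩

theorem box_compact (z : E3) (ρ : ℝ) : IsCompact (box z ρ) := by
  have h1 : box z ρ = (WithLp.toLp 2 : (Fin 3 → ℝ) → EuclideanSpace ℝ (Fin 3)) ''
      (Icc (fun i => z i) (fun i => z i + ρ)) := by
    rw [← box_preimage, image_preimage_eq]
    intro x
    exact ⟨x.ofLp, rfl⟩
  rw [h1]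
  apply isCompact_Icc.image
  exact (PiLp.continuous_toLp 2 (fun _ : Fin 3 => ℝ))

theorem volume_box (z : E3) {ρ : ℝ} (hρ : 0 ≤ ρ) : volume.real (box z ρ) = ρ ^ 3 := by
  have h1 := (PiLp.volume_preserving_toLp (Fin 3)).measure_preimage
    ((box_compact z ρ).measurableSet.nullMeasurableSet)
  rw [measureReal_def, ← h1, box_preimage, Real.volume_Icc_pi]
  simp only [Fin.prod_univ_three, add_sub_cancel_left]
  rw [← ENNReal.ofReal_mul (by positivity), ← ENNReal.ofReal_mul (by positivity),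
    ENNReal.toReal_ofReal (by positivity)]
  ring

/-- Points of a small box are close to its corner. -/
theorem box_dist {z x : E3} {ρ : ℝ} (hρ : 0 ≤ ρ) (hx : x ∈ box z ρ) : ‖x - z‖ ≤ 2 * ρ := by
  have h : ∀ i, ‖(x - z) i‖ ^ 2 ≤ ρ ^ 2 := by
    intro i
    have h1 := hx i
    have h2 : (x - z) i = x i - z i := rfl
    rw [h2, Real.norm_eq_abs, sq_abs]
    have h3 : 0 ≤ x i - z i := by linarith [h1.1]
    have h4 : x i - z i ≤ ρ := by linarith [h1.2]
    exact pow_le_pow_left₀ h3 h4 2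
  rw [EuclideanSpace.norm_eq]
  apply Real.sqrt_le_iff.mpr
  refine ⟨by positivity, ?_⟩
  rw [Fin.sum_univ_three]
  nlinarith [h 0, h 1, h 2, sq_nonneg ρ]

/-- Some basis vector sees a third of the operator norm. -/
theorem exists_basis (D : E3 →L[ℝ] E3) : ∃ i : Fin 3, ‖D‖ ≤ 3 * ‖D (EuclideanSpace.single i 1)‖ := by
  by_contra hc
  push Not at hc
  have h0 := hc 0
  have h1 := hc 1
  have h2 := hc 2
  have key : ‖D‖ ≤ ‖D (EuclideanSpace.single 0 1)‖ + ‖D (EuclideanSpace.single 1 1)‖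
      + ‖D (EuclideanSpace.single 2 1)‖ := by
    apply D.opNorm_le_bound (by positivity)
    intro x
    have hx : x = x 0 • EuclideanSpace.single 0 (1:ℝ) + x 1 • EuclideanSpace.single 1 (1:ℝ)
        + x 2 • EuclideanSpace.single 2 (1:ℝ) := by
      ext i
      fin_cases i <;> simp
    have hn : ∀ i, |x i| ≤ ‖x‖ := fun i => by
      have := EuclideanSpace.norm_eq x
      have h3 : ‖x i‖ ≤ ‖x‖ := PiLp.norm_apply_le x i
      simpa using h3
    have e1 : D x = x 0 • D (EuclideanSpace.single 0 (1:ℝ)) + x 1 • D (EuclideanSpace.single 1 (1:ℝ))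
        + x 2 • D (EuclideanSpace.single 2 (1:ℝ)) := by
      conv_lhs => rw [hx]
      simp only [map_add, map_smul]
    rw [e1]
    calc ‖x 0 • D (EuclideanSpace.single 0 (1:ℝ)) + x 1 • D (EuclideanSpace.single 1 (1:ℝ))
        + x 2 • D (EuclideanSpace.single 2 (1:ℝ))‖
        ≤ ‖x 0 • D (EuclideanSpace.single 0 (1:ℝ))‖ + ‖x 1 • D (EuclideanSpace.single 1 (1:ℝ))‖
          + ‖x 2 • D (EuclideanSpace.single 2 (1:ℝ))‖ := norm_add₃_le
      _ ≤ _ := by
        simp only [norm_smul, Real.norm_eq_abs]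
        have a0 := mul_le_mul_of_nonneg_right (hn 0) (norm_nonneg (D (EuclideanSpace.single 0 (1:ℝ))))
        have a1 := mul_le_mul_of_nonneg_right (hn 1) (norm_nonneg (D (EuclideanSpace.single 1 (1:ℝ))))
        have a2 := mul_le_mul_of_nonneg_right (hn 2) (norm_nonneg (D (EuclideanSpace.single 2 (1:ℝ))))
        linarith
  linarith

/-- **Oscillation.** -/
theorem osc_lower {g v : E3 → E3} (hg : ContDiff ℝ 1 g) (hv : ContDiff ℝ 1 v)
    {B K r : ℝ} (hr : 0 < r) (hr1 : r ≤ 1)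
    (hB : ∀ x, ‖fderiv ℝ g x - fderiv ℝ g 0‖ ≤ B * ‖x‖)
    (hK : ∀ x, ‖fderiv ℝ v x‖ ≤ K)
    (hBr : 36 * B * r ≤ ‖fderiv ℝ g 0‖) (hKD : 12 * K ≤ ‖fderiv ℝ g 0‖) :
    (r / 48) ^ 3 * (r * ‖fderiv ℝ g 0‖ / 24) ^ 2 ≤ ∫ x in cube, ‖g x - v x‖ ^ 2 := by
  set D := fderiv ℝ g 0 with hD
  have hB0 : 0 ≤ B := by
    have h := hB (EuclideanSpace.single 0 1)
    have h1 : ‖(EuclideanSpace.single 0 (1:ℝ) : E3)‖ = 1 := by simp
    rw [h1, mul_one] at h
    exact (norm_nonneg _).trans h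
  have hK0 : 0 ≤ K := (norm_nonneg _).trans (hK 0)
  have hDn : 0 ≤ ‖D‖ := norm_nonneg _
  have dg : Differentiable ℝ g := hg.differentiable (by norm_num)
  have dv : Differentiable ℝ v := hv.differentiable (by norm_num)
  obtain ⟨i, hi⟩ := exists_basis D
  set e : E3 := EuclideanSpace.single i 1 with he
  have hen : ‖e‖ = 1 := by simp [he]
  -- mean value inequalities on balls
  have mg : ∀ (R : ℝ), ∀ x ∈ Metric.closedBall (0:E3) R, ∀ y ∈ Metric.closedBall (0:E3) R,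
      ‖g y - g x - D (y - x)‖ ≤ B * R * ‖y - x‖ := by
    intro R x hx y hy
    refine (convex_closedBall (0:E3) R).norm_image_sub_le_of_norm_hasFDerivWithin_le'
      (f := g) (f' := fun z => fderiv ℝ g z) (φ := D) (C := B * R) ?_ ?_ hx hy
    · intro z _
      exact (dg z).hasFDerivAt.hasFDerivWithinAt
    · intro z hz
      have h1 := hB z
      have h2 : ‖z‖ ≤ R := by simpa using hz
      exact h1.trans (mul_le_mul_of_nonneg_left h2 hB0)
  have mv : ∀ x y : E3, ‖v y - v x‖ ≤ K * ‖y - x‖ := by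
    intro x y
    exact convex_univ.norm_image_sub_le_of_norm_hasFDerivWithin_le
      (f := v) (f' := fun z => fderiv ℝ v z)
      (fun z _ => (dv z).hasFDerivAt.hasFDerivWithinAt) (fun z _ => hK z) (mem_univ _) (mem_univ _)
  set w : E3 → E3 := fun x => g x - v x with hw
  have hre : ‖r • e‖ = r := by rw [norm_smul, hen, Real.norm_eq_abs, abs_of_pos hr, mul_one]
  -- step 1: w is large at 0 or at r e
  have s1 : r * ‖D‖ / 9 ≤ max ‖w 0‖ ‖w (r • e)‖ := by
    have a1 := mg r 0 (by simp [hr.le]) (r • e) (by simp [hre])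
    rw [sub_zero, hre] at a1
    have a2 := mv 0 (r • e)
    rw [sub_zero, hre] at a2
    have a3 : D (r • e) = r • D e := by rw [map_smul]
    have a4 : ‖D (r • e)‖ = r * ‖D e‖ := by
      rw [a3, norm_smul, Real.norm_eq_abs, abs_of_pos hr]
    have a5 : D (r • e) = (w (r • e) - w 0) - (g (r • e) - g 0 - D (r • e))
        + (v (r • e) - v 0) := by
      simp only [hw]; abel
    have a6 : ‖D (r • e)‖ ≤ ‖w (r • e)‖ + ‖w 0‖ + B * r * r + K * r := by
      calc ‖D (r • e)‖ = ‖(w (r • e) - w 0) - (g (r • e) - g 0 - D (r • e))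
        + (v (r • e) - v 0)‖ := by rw [← a5]
        _ ≤ ‖w (r • e) - w 0‖ + ‖g (r • e) - g 0 - D (r • e)‖ + ‖v (r • e) - v 0‖ :=
          (norm_add_le _ _).trans (by gcongr; exact norm_sub_le _ _)
        _ ≤ _ := by
          have := norm_sub_le (w (r • e)) (w 0)
          linarith
    rw [a4] at a6
    have a7 : r * ‖D‖ ≤ 3 * (r * ‖D e‖) := by nlinarith
    have a8 : B * r * r ≤ r * ‖D‖ / 36 := by nlinarith
    have a9 : K * r ≤ r * ‖D‖ / 12 := by nlinarith
    have b1 := le_max_left ‖w 0‖ ‖w (r • e)‖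
    have b2 := le_max_right ‖w 0‖ ‖w (r • e)‖
    linarith
  obtain ⟨z, hz, hzw, hzi⟩ : ∃ z : E3, ‖z‖ ≤ r ∧ r * ‖D‖ / 9 ≤ ‖w z‖ ∧ ∀ j, z j ∈ Icc 0 r := by
    rcases le_total ‖w 0‖ ‖w (r • e)‖ with h | h
    · refine ⟨r • e, hre.le, by rwa [max_eq_right h] at s1, ?_⟩
      intro j
      have : (r • e) j = r * (if j = i then 1 else 0) := by
        simp [he, Pi.single_apply]
      rw [this]
      split_ifs
      · exact ⟨by linarith, by linarith⟩
      · exact ⟨by simp, by simpa using hr.le⟩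
    · refine ⟨0, by simpa using hr.le, by rwa [max_eq_left h] at s1, ?_⟩
      intro j
      exact ⟨by simp, by simpa using hr.le⟩
  -- step 2: w is large on the small box
  have s2 : ∀ y ∈ box z (r / 48), r * ‖D‖ / 24 ≤ ‖w y‖ := by
    intro y hy
    have c1 := box_dist (by positivity) hy
    have c1' : ‖y - z‖ ≤ r / 24 := by linarith
    have c2 : ‖y‖ ≤ 2 * r := by
      calc ‖y‖ = ‖(y - z) + z‖ := by rw [sub_add_cancel]
        _ ≤ ‖y - z‖ + ‖z‖ := norm_add_le _ _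
        _ ≤ 2 * r := by linarith
    have c3 := mg (2 * r) z (by simp; linarith) y (by simpa using c2)
    have c4 := mv z y
    have c5 : ‖D (y - z)‖ ≤ ‖D‖ * ‖y - z‖ := D.le_opNorm _
    have c6 : w z = w y - ((g y - g z - D (y - z)) + D (y - z)) + (v y - v z) := by
      simp only [hw]; abel
    have c7 : ‖w z‖ ≤ ‖w y‖ + (B * (2 * r) * ‖y - z‖ + ‖D‖ * ‖y - z‖) + K * ‖y - z‖ := by
      calc ‖w z‖ = ‖w y - ((g y - g z - D (y - z)) + D (y - z)) + (v y - v z)‖ := by rw [← c6]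
        _ ≤ ‖w y - ((g y - g z - D (y - z)) + D (y - z))‖ + ‖v y - v z‖ := norm_add_le _ _
        _ ≤ ‖w y‖ + ‖(g y - g z - D (y - z)) + D (y - z)‖ + ‖v y - v z‖ := by
          gcongr; exact norm_sub_le _ _
        _ ≤ ‖w y‖ + (‖g y - g z - D (y - z)‖ + ‖D (y - z)‖) + ‖v y - v z‖ := by
          gcongr; exact norm_add_le _ _
        _ ≤ _ := by gcongr
    have c8 : B * (2 * r) ≤ ‖D‖ / 18 := by linarith
    have c9 : K ≤ ‖D‖ / 12 := by linarith
    have d1 : (B * (2 * r) + ‖D‖ + K) * ‖y - z‖ ≤ (‖D‖ / 18 + ‖D‖ + ‖D‖ / 12) * (r / 24) := by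
      apply mul_le_mul _ c1' (norm_nonneg _) (by positivity)
      linarith
    have d2 : 0 ≤ r * ‖D‖ := by positivity
    nlinarith
  -- step 3: integrate
  have hbc : box z (r / 48) ⊆ cube := by
    intro y hy j
    have h1 := hy j
    have h2 := hzi j
    have h3 := Real.pi_gt_three
    constructor
    · linarith [h1.1, h2.1]
    · linarith [h1.2, h2.2]
  have cw : Continuous (fun x => ‖w x‖ ^ 2) := ((hg.continuous.sub hv.continuous).norm.pow 2)
  have i1 : IntegrableOn (fun x => ‖w x‖ ^ 2) cube :=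
    cw.continuousOn.integrableOn_compact cube_compact
  have i2 : ∫ x in box z (r / 48), ‖w x‖ ^ 2 ≤ ∫ x in cube, ‖w x‖ ^ 2 :=
    setIntegral_mono_set i1 (ae_of_all _ fun x => by positivity) hbc.eventuallyLE
  have i3 : (r / 48) ^ 3 * (r * ‖D‖ / 24) ^ 2 ≤ ∫ x in box z (r / 48), ‖w x‖ ^ 2 := by
    have hm := (box_compact z (r / 48)).measurableSet
    have hfin : volume (box z (r / 48)) ≠ ⊤ := (box_compact z (r / 48)).measure_ne_top
    have h1 : ∫ _x in box z (r / 48), (r * ‖D‖ / 24) ^ 2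
        = (r / 48) ^ 3 * (r * ‖D‖ / 24) ^ 2 := by
      rw [setIntegral_const, volume_box z (by positivity), smul_eq_mul]
    rw [← h1]
    apply setIntegral_mono_on (integrableOn_const hfin) (i1.mono_set hbc) hm
    intro x hx
    exact pow_le_pow_left₀ (by positivity) (s2 x hx) 2
  exact i3.trans i2

end Pool.Agent.Work.MP_b0497c_an.Unf

end

section

set_option autoImplicit false

/-!
# Lagrangian form of the Euler equations, part 3: a large gradient forces a large `L²` distance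
-/

open scoped ContDiff Matrix
open Set Filter Topology MeasureTheory RealInnerProductSpace Pool.Agent.Work.MP_b0497c_an
open Pool.Agent.Work.MP_b0497c_an.Dec

namespace Pool.Agent.Work.MP_b0497c_an.Unf

theorem cr_norm_le (a b : E3) : ‖cr a b‖ ≤ ‖a‖ * ‖b‖ := by
  have h1 : ‖cr a b‖ ^ 2 ≤ (‖a‖ * ‖b‖) ^ 2 := by
    rw [mul_pow, norm_sq_eq, norm_sq_eq, norm_sq_eq]
    simp [cr]
    nlinarith [sq_nonneg (a 0 * b 0 + a 1 * b 1 + a 2 * b 2)]
  exact le_of_sq_le_sq h1 (by positivity)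
  
theorem cof_norm_le (F : E3 →L[ℝ] E3) (d : E3) : ‖cof F d‖ ≤ 2 * ‖F‖ ^ 2 * ‖d‖ := by
  have he : ∀ i, ‖e i‖ = 1 := by
    intro i; simp [e]
  have hF : ∀ i, ‖F (e i)‖ ≤ ‖F‖ := by
    intro i
    have := F.le_opNorm (e i)
    rwa [he i, mul_one] at this
  have h : ∀ i j, |⟪cr (F (e i)) (F (e j)), d⟫| ≤ ‖F‖ ^ 2 * ‖d‖ := by
    intro i j
    refine (abs_real_inner_le_norm _ _).trans ?_
    apply mul_le_mul_of_nonneg_right _ (norm_nonneg _)
    refine (cr_norm_le _ _).trans ?_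
    rw [pow_two]
    exact mul_le_mul (hF i) (hF j) (norm_nonneg _) (norm_nonneg _)
  have h1 : ‖cof F d‖ ^ 2 ≤ (2 * ‖F‖ ^ 2 * ‖d‖) ^ 2 := by
    rw [norm_sq_eq]
    simp only [cof]
    simp
    have a0 := sq_le_sq' (abs_le.mp (h 1 2)).1 (abs_le.mp (h 1 2)).2
    have a1 := sq_le_sq' (abs_le.mp (h 2 0)).1 (abs_le.mp (h 2 0)).2
    have a2 := sq_le_sq' (abs_le.mp (h 0 1)).1 (abs_le.mp (h 0 1)).2
    nlinarith [sq_nonneg (‖F‖ ^ 2 * ‖d‖)]
  exact le_of_sq_le_sq h1 (by positivity)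

/-- **Oscillation**, Lagrangian form. -/
theorem lag_osc {W X v : E3 → E3} (hW : ContDiff ℝ 1 W) (hX : ContDiff ℝ 1 X)
    (hv : ContDiff ℝ 1 v) {B K : ℝ} {M : E3 →L[ℝ] E3} (hB : 1 ≤ B)
    (b1 : ∀ y, ‖fderiv ℝ W y‖ ≤ B) (b2 : ∀ y, ‖fderiv ℝ X y‖ ≤ B)
    (b3 : ∀ y, ‖fderiv ℝ W y - fderiv ℝ W 0‖ ≤ B * ‖y‖)
    (b4 : ∀ y, ‖fderiv ℝ X y - fderiv ℝ X 0‖ ≤ B * ‖y‖)
    (hK : ∀ x, ‖fderiv ℝ v x‖ ≤ K)
    (hM : fderiv ℝ W 0 = M.comp (fderiv ℝ X 0)) (hdet : det3 (fderiv ℝ X 0) = 1)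
    (hMK : 12 * (1 + K) ≤ ‖M‖) :
    ‖M‖ ^ 2 ≤ (144 ^ 5 * 36864) * B ^ 28 * ∫ y in cube, ‖W y - v (X y)‖ ^ 2 := by
  have hK0 : 0 ≤ K := (norm_nonneg _).trans (hK 0)
  have hB0 : 0 < B := by linarith
  have hMn : 0 ≤ ‖M‖ := norm_nonneg _
  have dW : Differentiable ℝ W := hW.differentiable (by norm_num)
  have dX : Differentiable ℝ X := hX.differentiable (by norm_num)
  have dv : Differentiable ℝ v := hv.differentiable (by norm_num)
  obtain ⟨i, hi⟩ := exists_basis M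
  set ei : E3 := EuclideanSpace.single i 1 with hei
  have hen : ‖ei‖ = 1 := by simp [hei]
  set F := fderiv ℝ X 0 with hF
  set z : E3 := cof F ei with hz
  have hFz : F z = ei := by rw [hz, cof_apply, hdet, one_smul]
  have hzn : ‖z‖ ≤ 2 * B ^ 2 := by
    have h1 := cof_norm_le F ei
    rw [hen, mul_one] at h1
    have h2 : ‖F‖ ^ 2 ≤ B ^ 2 := pow_le_pow_left₀ (norm_nonneg _) (b2 0) 2
    linarith
  set r : ℝ := 1 / (144 * B ^ 5) with hr
  have hr0 : 0 < r := by positivity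
  have hBr : 144 * B ^ 5 * r = 1 := by rw [hr]; field_simp
  -- the base point
  set ρ0 : ℝ := 2 * B ^ 2 * r with hρ0
  have hρ0p : 0 < ρ0 := by positivity
  have hρ0s : 72 * B ^ 3 * ρ0 = 1 := by rw [hρ0]; linarith
  have hB3 : 1 ≤ B ^ 3 := one_le_pow₀ hB
  have hρ1 : ρ0 ≤ 1 / 72 := by nlinarith
  set c : E3 := !₂[ρ0, ρ0, ρ0] with hc
  have hcj : ∀ j, c j = ρ0 := by intro j; fin_cases j <;> simp [hc]
  have hcn : ‖c‖ ≤ 2 * ρ0 := by
    have h1 : ‖c‖ ^ 2 ≤ (2 * ρ0) ^ 2 := by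
      rw [norm_sq_eq, hcj, hcj, hcj]; nlinarith
    exact le_of_sq_le_sq h1 (by positivity)
  have hrz : ‖r • z‖ ≤ ρ0 := by
    rw [norm_smul, Real.norm_eq_abs, abs_of_pos hr0, hρ0]
    calc r * ‖z‖ ≤ r * (2 * B ^ 2) := mul_le_mul_of_nonneg_left hzn hr0.le
      _ = 2 * B ^ 2 * r := by ring
  have hy1n : ‖c + r • z‖ ≤ 3 * ρ0 := by
    have := norm_add_le c (r • z)
    linarith
  have hrzj : ∀ j, |(r • z) j| ≤ ρ0 := by
    intro j
    have h3 : ‖(r • z) j‖ ≤ ‖r • z‖ := PiLp.norm_apply_le (r • z) j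
    rw [Real.norm_eq_abs] at h3
    linarith
  -- mean value inequalities
  have mW : ∀ x ∈ Metric.closedBall (0:E3) (3 * ρ0), ∀ y ∈ Metric.closedBall (0:E3) (3 * ρ0),
      ‖W y - W x - fderiv ℝ W 0 (y - x)‖ ≤ B * (3 * ρ0) * ‖y - x‖ := by
    intro x hx y hy
    refine (convex_closedBall (0:E3) (3 * ρ0)).norm_image_sub_le_of_norm_hasFDerivWithin_le'
      (f := W) (f' := fun z => fderiv ℝ W z) (φ := fderiv ℝ W 0) (C := B * (3 * ρ0)) ?_ ?_ hx hy
    · intro z _
      exact (dW z).hasFDerivAt.hasFDerivWithinAt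
    · intro z hz
      have h1 := b3 z
      have h2 : ‖z‖ ≤ 3 * ρ0 := by simpa using hz
      exact h1.trans (mul_le_mul_of_nonneg_left h2 hB0.le)
  have mX : ∀ x ∈ Metric.closedBall (0:E3) (3 * ρ0), ∀ y ∈ Metric.closedBall (0:E3) (3 * ρ0),
      ‖X y - X x - F (y - x)‖ ≤ B * (3 * ρ0) * ‖y - x‖ := by
    intro x hx y hy
    refine (convex_closedBall (0:E3) (3 * ρ0)).norm_image_sub_le_of_norm_hasFDerivWithin_le'
      (f := X) (f' := fun z => fderiv ℝ X z) (φ := F) (C := B * (3 * ρ0)) ?_ ?_ hx hy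
    · intro z _
      exact (dX z).hasFDerivAt.hasFDerivWithinAt
    · intro z hz
      have h1 := b4 z
      have h2 : ‖z‖ ≤ 3 * ρ0 := by simpa using hz
      exact h1.trans (mul_le_mul_of_nonneg_left h2 hB0.le)
  have lW : ∀ x y : E3, ‖W y - W x‖ ≤ B * ‖y - x‖ := by
    intro x y
    exact convex_univ.norm_image_sub_le_of_norm_hasFDerivWithin_le
      (f := W) (f' := fun z => fderiv ℝ W z)
      (fun z _ => (dW z).hasFDerivAt.hasFDerivWithinAt) (fun z _ => b1 z) (mem_univ _) (mem_univ _)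
  have lX : ∀ x y : E3, ‖X y - X x‖ ≤ B * ‖y - x‖ := by
    intro x y
    exact convex_univ.norm_image_sub_le_of_norm_hasFDerivWithin_le
      (f := X) (f' := fun z => fderiv ℝ X z)
      (fun z _ => (dX z).hasFDerivAt.hasFDerivWithinAt) (fun z _ => b2 z) (mem_univ _) (mem_univ _)
  have lv : ∀ x y : E3, ‖v y - v x‖ ≤ K * ‖y - x‖ := by
    intro x y
    exact convex_univ.norm_image_sub_le_of_norm_hasFDerivWithin_le
      (f := v) (f' := fun z => fderiv ℝ v z)
      (fun z _ => (dv z).hasFDerivAt.hasFDerivWithinAt) (fun z _ => hK z) (mem_univ _) (mem_univ _)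
  set w : E3 → E3 := fun y => W y - v (X y) with hw
  -- step 1
  have s1 : r * ‖M‖ / 12 ≤ max ‖w c‖ ‖w (c + r • z)‖ := by
    have hcB : c ∈ Metric.closedBall (0:E3) (3 * ρ0) := by simp; linarith
    have hyB : c + r • z ∈ Metric.closedBall (0:E3) (3 * ρ0) := by simpa using hy1n
    have a1 := mW c hcB (c + r • z) hyB
    have a2 := mX c hcB (c + r • z) hyB
    rw [add_sub_cancel_left] at a1 a2
    have a3 : fderiv ℝ W 0 (r • z) = r • M ei := by
      rw [hM, ContinuousLinearMap.comp_apply, map_smul, hFz, map_smul]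
    have a4 : F (r • z) = r • ei := by rw [map_smul, hFz]
    have a5 : ‖r • ei‖ = r := by rw [norm_smul, hen, Real.norm_eq_abs, abs_of_pos hr0, mul_one]
    have a6 : B * (3 * ρ0) * ‖r • z‖ ≤ r / 12 := by
      calc B * (3 * ρ0) * ‖r • z‖ ≤ B * (3 * ρ0) * ρ0 := by gcongr
        _ = r / 12 * (144 * B ^ 5 * r) := by rw [hρ0]; ring
        _ = r / 12 := by rw [hBr, mul_one]
    have a7 : ‖X (c + r • z) - X c‖ ≤ r + r / 12 := by
      have h1 : X (c + r • z) - X c = (X (c + r • z) - X c - F (r • z)) + r • ei := by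
        rw [a4]; abel
      rw [h1]
      refine (norm_add_le _ _).trans ?_
      rw [a5]; linarith
    have a8 := (lv (X c) (X (c + r • z))).trans (mul_le_mul_of_nonneg_left a7 hK0)
    have a9 : ‖r • M ei‖ = r * ‖M ei‖ := by rw [norm_smul, Real.norm_eq_abs, abs_of_pos hr0]
    have a10 : r • M ei = (w (c + r • z) - w c) - (W (c + r • z) - W c - fderiv ℝ W 0 (r • z))
        + (v (X (c + r • z)) - v (X c)) := by
      rw [a3]
      simp only [hw]; abel
    have a11 : ‖r • M ei‖ ≤ ‖w (c + r • z)‖ + ‖w c‖ + r / 12 + K * (r + r / 12) := by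
      calc ‖r • M ei‖ = ‖(w (c + r • z) - w c)
            - (W (c + r • z) - W c - fderiv ℝ W 0 (r • z))
            + (v (X (c + r • z)) - v (X c))‖ := by rw [← a10]
        _ ≤ ‖w (c + r • z) - w c‖ + ‖W (c + r • z) - W c - fderiv ℝ W 0 (r • z)‖
            + ‖v (X (c + r • z)) - v (X c)‖ :=
          (norm_add_le _ _).trans (by gcongr; exact norm_sub_le _ _)
        _ ≤ _ := by
          have := norm_sub_le (w (c + r • z)) (w c)
          linarith
    rw [a9] at a11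
    have b1' : r * ‖M‖ ≤ 3 * (r * ‖M ei‖) := by nlinarith
    have b2' : r * (12 * (1 + K)) ≤ r * ‖M‖ := mul_le_mul_of_nonneg_left hMK hr0.le
    have c1 := le_max_left ‖w c‖ ‖w (c + r • z)‖
    have c2 := le_max_right ‖w c‖ ‖w (c + r • z)‖
    have c3 : 0 ≤ K * r := by positivity
    nlinarith
  obtain ⟨z0, hzw, hzi⟩ : ∃ z0 : E3, r * ‖M‖ / 12 ≤ ‖w z0‖ ∧ ∀ j, z0 j ∈ Icc 0 (2 * ρ0) := by
    rcases le_total ‖w c‖ ‖w (c + r • z)‖ with h | h
    · refine ⟨c + r • z, by rwa [max_eq_right h] at s1, ?_⟩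
      intro j
      have h1 : (c + r • z) j = ρ0 + (r • z) j := by rw [← hcj j]; rfl
      rw [h1]
      have h2 := abs_le.mp (hrzj j)
      constructor <;> linarith [h2.1, h2.2]
    · refine ⟨c, by rwa [max_eq_left h] at s1, ?_⟩
      intro j
      rw [hcj j]
      constructor <;> linarith
  -- step 2
  set ρ : ℝ := r / (4 * B) with hρ
  have hρp : 0 < ρ := by positivity
  have hρB : 4 * B * ρ = r := by rw [hρ]; field_simp
  have s2 : ∀ y ∈ box z0 ρ, r * ‖M‖ / 24 ≤ ‖w y‖ := by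
    intro y hy
    have c1 := box_dist (by positivity) hy
    have c2 := lW z0 y
    have c3 := (lv (X z0) (X y)).trans (mul_le_mul_of_nonneg_left (lX z0 y) hK0)
    have c4 : w z0 = w y - (W y - W z0) + (v (X y) - v (X z0)) := by
      simp only [hw]; abel
    have c5 : ‖w z0‖ ≤ ‖w y‖ + B * ‖y - z0‖ + K * (B * ‖y - z0‖) := by
      calc ‖w z0‖ = ‖w y - (W y - W z0) + (v (X y) - v (X z0))‖ := by rw [← c4]
        _ ≤ ‖w y - (W y - W z0)‖ + ‖v (X y) - v (X z0)‖ := norm_add_le _ _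
        _ ≤ ‖w y‖ + ‖W y - W z0‖ + ‖v (X y) - v (X z0)‖ := by
          gcongr; exact norm_sub_le _ _
        _ ≤ _ := by gcongr
    have c6 : B * ‖y - z0‖ ≤ r / 2 := by
      calc B * ‖y - z0‖ ≤ B * (2 * ρ) := by gcongr
        _ = r / 2 := by linarith
    have c7 : K * (B * ‖y - z0‖) ≤ K * (r / 2) := mul_le_mul_of_nonneg_left c6 hK0
    have c8 : r * (12 * (1 + K)) ≤ r * ‖M‖ := mul_le_mul_of_nonneg_left hMK hr0.le
    nlinarith
  -- step 3
  have hbc : box z0 ρ ⊆ cube := by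
    intro y hy j
    have h1 := hy j
    have h2 := hzi j
    have h3 := Real.pi_gt_three
    have h4 : ρ ≤ 1 := by
      have h5 : r ≤ 1 := by
        have : 1 ≤ B ^ 5 := one_le_pow₀ hB
        nlinarith
      nlinarith
    constructor
    · linarith [h1.1, h2.1]
    · linarith [h1.2, h2.2]
  have cw : Continuous (fun x => ‖w x‖ ^ 2) :=
    ((hW.continuous.sub (hv.continuous.comp hX.continuous)).norm.pow 2)
  have i1 : IntegrableOn (fun x => ‖w x‖ ^ 2) cube :=
    cw.continuousOn.integrableOn_compact cube_compact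
  have i2 : ∫ x in box z0 ρ, ‖w x‖ ^ 2 ≤ ∫ x in cube, ‖w x‖ ^ 2 :=
    setIntegral_mono_set i1 (ae_of_all _ fun x => by positivity) hbc.eventuallyLE
  have i3 : ρ ^ 3 * (r * ‖M‖ / 24) ^ 2 ≤ ∫ x in box z0 ρ, ‖w x‖ ^ 2 := by
    have hm := (box_compact z0 ρ).measurableSet
    have hfin : volume (box z0 ρ) ≠ ⊤ := (box_compact z0 ρ).measure_ne_top
    have h1 : ∫ _x in box z0 ρ, (r * ‖M‖ / 24) ^ 2 = ρ ^ 3 * (r * ‖M‖ / 24) ^ 2 := by
      rw [setIntegral_const, volume_box z0 (by positivity), smul_eq_mul]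
    rw [← h1]
    apply setIntegral_mono_on (integrableOn_const hfin) (i1.mono_set hbc) hm
    intro x hx
    exact pow_le_pow_left₀ (by positivity) (s2 x hx) 2
  have i4 := i3.trans i2
  have i5 : ‖M‖ ^ 2 = (144 ^ 5 * 36864) * B ^ 28 * (ρ ^ 3 * (r * ‖M‖ / 24) ^ 2) := by
    have h1 : (144 ^ 5 * 36864) * B ^ 28 * (ρ ^ 3 * (r * ‖M‖ / 24) ^ 2)
        = (144 * B ^ 5 * r) ^ 5 * ((4 * B * ρ) ^ 3 / r ^ 3) * ‖M‖ ^ 2 := by
      field_simp
      ring
    rw [h1, hBr, hρB, one_pow, one_mul, div_self (by positivity), one_mul]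
  rw [i5]
  exact mul_le_mul_of_nonneg_left i4 (by positivity)

end Pool.Agent.Work.MP_b0497c_an.Unf

end
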