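import Pool.Agent.Work.MP_b0497c_an.Unf.KZ3
import Pool.Agent.Work.MP_b0497c_an.Unf.KOne
import Pool.Agent.Work.MP_b0497c_an.Unf.OLab
import Pool.Agent.Work.MP_b0497c_an.Unf.KDefs
import Pool.Agent.Work.MP_b0497c_an.Unf.KDict
import Pool.Agent.Work.MP_b0497c_an.Bd.B13

/-! Bundle of small proof modules (one section per former module). -/

section

set_option autoImplicit false

/-!
# THEOREM K at one real label (OK.7)

From `HL` and `K1` at the centre and the bounds `CoL` of the coarse flow at the label and at the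
centre to the bounds `CoL` of the new flow at the label.
-/

open Set ContinuousLinearMap RealInnerProductSpace

namespace Pool.Agent.Work.MP_b0497c_an.Unf.O

open Forced.Ode (Op ro)
open Fam K

/-- Directions of nearby vectors. -/
theorem unit_sub_le {k k' : E3} (hk : k ≠ 0) (hk' : k' ≠ 0) :
    ‖‖k‖⁻¹ • k - ‖k'‖⁻¹ • k'‖ ≤ 2 * (‖k - k'‖ / ‖k'‖) := by
  have hn : 0 < ‖k‖ := norm_pos_iff.2 hk
  have hn' : 0 < ‖k'‖ := norm_pos_iff.2 hk'
  have h1 : ‖k‖⁻¹ • k - ‖k'‖⁻¹ • k' = (‖k‖⁻¹ - ‖k'‖⁻¹) • k + ‖k'‖⁻¹ • (k - k') := by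
    rw [sub_smul, smul_sub]
    abel
  have h2 : ‖(‖k‖⁻¹ - ‖k'‖⁻¹) • k‖ ≤ ‖k - k'‖ / ‖k'‖ := by
    rw [norm_smul, Real.norm_eq_abs]
    have h3 : |‖k‖⁻¹ - ‖k'‖⁻¹| * ‖k‖ = |‖k'‖ - ‖k‖| / ‖k'‖ := by
      have h4 : ‖k‖⁻¹ - ‖k'‖⁻¹ = (‖k'‖ - ‖k‖) / (‖k‖ * ‖k'‖) := by field_simp
      rw [h4, abs_div, abs_of_pos (mul_pos hn hn')]
      field_simp
    rw [h3]
    apply div_le_div_of_nonneg_right _ hn'.le
    rw [abs_sub_comm]
    exact abs_norm_sub_norm_le k k'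
  have h5 : ‖‖k'‖⁻¹ • (k - k')‖ = ‖k - k'‖ / ‖k'‖ := by
    rw [norm_smul, norm_inv, norm_norm]
    field_simp
  calc ‖‖k‖⁻¹ • k - ‖k'‖⁻¹ • k'‖ ≤ ‖(‖k‖⁻¹ - ‖k'‖⁻¹) • k‖ + ‖‖k'‖⁻¹ • (k - k')‖ := by
        rw [h1]; exact norm_add_le _ _
    _ ≤ ‖k - k'‖ / ‖k'‖ + ‖k - k'‖ / ‖k'‖ := by rw [h5]; linarith
    _ = 2 * (‖k - k'‖ / ‖k'‖) := by ring

namespace LevD

variable {D : LevD} {b' : ℝ}

theorem Flo.l_ne (h : D.Flo b') : D.l ≠ 0 := by
  intro h0
  have := h.l_ge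
  rw [h0, norm_zero] at this
  linarith

theorem Flo.n_covec (h : D.Flo b') (t : ℝ) : D.n t = covec D.A D.l t := by
  have h1 : D.n = covec D.A D.l := ode_unique (dg_cont h.A_cont) 0
    (by rw [covec_zero, Lb.n_zero h]) (fun t => h.n_der t) (covec_deriv h.A_cont D.l)
  rw [h1]

theorem Flo.v_kelS (h : D.Flo b') (t : ℝ) : D.v t = kelS D.A D.l (D.v 0) t := by
  have h1 : D.v = kelS D.A D.l (D.v 0) := ode_unique (kelG_cont h.A_cont h.l_ne) 0
    (by rw [kelS_zero]) (fun t => by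
      rw [kelG, ← h.n_covec t]
      exact h.v_der t) (kelS_deriv h.A_cont h.l_ne _)
  rw [← h1]

theorem Flo.fam_refM (h : D.Flo b') (al : ℝ) : D.fam.M al = refM D.A D.l (al • D.v 0) := by
  funext t
  rw [refM, kelS_smul h.A_cont h.l_ne, ro_smul, ← h.v_kelS, ← h.n_covec]
  rfl

theorem Flo.K_zero (h : D.Flo b') (al : ℝ) : D.fam.K al 0 = D.Kn := by
  have h1 : D.fam.Sl al 0 = D.X := by
    rw [Flo.lam_eq]
    simp
  rw [FamD.K, h1]
  show D.xi 0 + D.X • D.n 0 = _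
  rw [Lb.xi_zero h, Lb.n_zero h]
  rfl

theorem Flo.K_covec (h : D.Flo b') (al : ℝ) : ∀ t ∈ Icc 0 D.T,
    D.fam.K al t = covec (D.fam.M al) D.Kn t :=
  covec_eq (h.M_cont al) (fun _ ht => (h.ok.Kd al ht).hasDerivWithinAt) (h.K_zero al)

theorem Flo.Kn_ne (h : D.Flo b') : D.Kn ≠ 0 := by
  rw [← h.K_zero 0]
  exact h.K_all 0 0

/-- Size of the wave of the sheet. -/
theorem HL.v_Y (h : D.HL) {t : ℝ} (ht : t ∈ Icc 0 D.T) :
    D.al t / D.al 0 * ‖D.v 0‖ * ‖D.l‖ ≤ D.b ^ 4 * D.a := by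
  have hF := h.toKin.toFlo
  have hb0 := hF.b0
  have ha := hF.a_pos
  have h0 : (0 : ℝ) ∈ Icc 0 D.T := ⟨le_rfl, hF.T_pos.le⟩
  have hat := h.al_pos t ht
  have ha0 := h.al_pos 0 h0
  have hat0 := h.al_pos D.t0 hF.t0_mem
  have h1 := (h.v_size t ht).1
  have h2 := (h.v_size 0 h0).2
  have h3 := h.v_le t ht
  have h4 : D.al t ≤ D.b ^ 2 * D.al D.t0 := by
    rw [inv_le_iff_one_le_mul₀ hb0, div_mul_div_comm, div_mul_eq_mul_div,
      one_le_div (by positivity)] at h1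
    have h5 : D.b * (‖D.v t‖ * D.al D.t0) ≤ D.b * ((D.b * D.a) * D.al D.t0) := by gcongr
    have h6 : D.a * D.al t ≤ D.a * (D.b ^ 2 * D.al D.t0) := by
      calc D.a * D.al t ≤ D.b * (‖D.v t‖ * D.al D.t0) := by linarith
        _ ≤ D.b * ((D.b * D.a) * D.al D.t0) := h5
        _ = D.a * (D.b ^ 2 * D.al D.t0) := by ring
    exact le_of_mul_le_mul_left h6 ha
  have h7 : ‖D.v 0‖ * (D.al D.t0 / D.al 0) ≤ D.b * D.a := by
    have h8 : ‖D.v 0‖ / D.a * (D.al D.t0 / D.al 0) = ‖D.v 0‖ * (D.al D.t0 / D.al 0) / D.a := by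
      ring
    rw [h8, div_le_iff₀ ha] at h2
    exact h2
  have h9 := hF.l_le
  calc D.al t / D.al 0 * ‖D.v 0‖ * ‖D.l‖
      ≤ (D.b ^ 2 * D.al D.t0) / D.al 0 * ‖D.v 0‖ * D.b := by gcongr
    _ = D.b ^ 3 * (‖D.v 0‖ * (D.al D.t0 / D.al 0)) := by ring
    _ ≤ D.b ^ 3 * (D.b * D.a) := by gcongr
    _ = D.b ^ 4 * D.a := by ring

theorem HL.lam_Y (h : D.HL) (lam : ℝ) {t : ℝ} (ht : t ∈ Icc 0 D.T) :
    D.al t / D.al 0 * ‖lam • D.v 0‖ * ‖D.l‖ ≤ |lam| * (D.b ^ 4 * D.a) := by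
  rw [norm_smul, Real.norm_eq_abs]
  calc D.al t / D.al 0 * (|lam| * ‖D.v 0‖) * ‖D.l‖
      = |lam| * (D.al t / D.al 0 * ‖D.v 0‖ * ‖D.l‖) := by ring
    _ ≤ |lam| * (D.b ^ 4 * D.a) := mul_le_mul_of_nonneg_left (h.v_Y ht) (abs_nonneg _)

/-- The angle between the next wave vector and the present one. -/
theorem HL.ang (h : D.HL) : ‖‖D.Kn‖⁻¹ • D.Kn - ‖D.l‖⁻¹ • D.l‖ ≤ 4 * D.b ^ 3 / D.a := by
  have hF := h.toKin.toFlo
  have hb0 := hF.b0
  have hb := h.b_ge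
  have ha := hF.a_pos
  have hs := hF.s_pos
  have ha2 : 2 ≤ D.a := by
    have h1 := h.toKin.b_pow_le
    have h2 : (1 : ℝ) ≤ D.b ^ 13 := one_le_pow₀ (by linarith)
    have h3 : (2 : ℝ) ≤ D.h := by nlinarith
    calc (2 : ℝ) ≤ D.h ^ 1 := by simpa using h3
      _ ≤ D.h ^ 24 := pow_le_pow_right₀ (by linarith) (by norm_num)
  have hX : D.a / (2 * D.b) ≤ D.X := by
    unfold X
    have h1 := (abs_le.1 h.far.f0).2
    have h2 : D.a / (2 * D.b) ≤ (D.a - D.f 0) / D.s := by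
      rw [div_le_div_iff₀ (by positivity) hs]
      have h3 : D.a * D.s ≤ D.a * D.b := by gcongr; exact h.s_le
      have h4 : D.a * D.b ≤ (D.a - D.f 0) * (2 * D.b) := by nlinarith
      exact h3.trans h4
    have := h.toKin.k0_pos
    linarith
  have hX0 : 0 < D.X := lt_of_lt_of_le (by positivity) hX
  have hXl : D.X • D.l ≠ 0 := smul_ne_zero hX0.ne' hF.l_ne
  have h1 := unit_sub_le hF.Kn_ne hXl
  have h2 : ‖D.X • D.l‖⁻¹ • (D.X • D.l) = ‖D.l‖⁻¹ • D.l := by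
    rw [norm_smul, Real.norm_eq_abs, abs_of_pos hX0, smul_smul]
    congr 1
    field_simp
  have h3 : D.Kn - D.X • D.l = D.K0 := by
    rw [Kn]
    abel
  rw [h2, h3] at h1
  refine h1.trans ?_
  have hl := hF.l_ge
  have hl0 : 0 < ‖D.l‖ := norm_pos_iff.2 hF.l_ne
  have h4 : D.a / (2 * D.b ^ 2) ≤ ‖D.X • D.l‖ := by
    rw [norm_smul, Real.norm_eq_abs, abs_of_pos hX0]
    have h5 : 1 / D.b ≤ ‖D.l‖ := by
      rw [div_le_iff₀ hb0]
      linarith
    calc D.a / (2 * D.b ^ 2) = D.a / (2 * D.b) * (1 / D.b) := by field_simp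
      _ ≤ D.X * ‖D.l‖ := by gcongr
  calc 2 * (‖D.K0‖ / ‖D.X • D.l‖) ≤ 2 * (D.b / (D.a / (2 * D.b ^ 2))) := by
        gcongr
        exact hF.K0_le
    _ = 4 * D.b ^ 3 / D.a := by
        field_simp
        norm_num

/-- Growth of the weights. -/
theorem HL.alp_ratio (h : D.HL) : MonotoneOn (fun t => D.alp t / D.al t) (Icc 0 D.T) := by
  intro x hx y hy hxy
  have h1 := h.al_pos x hx
  have h2 := h.al_pos y hy
  simp only [alp]
  rw [mul_comm (D.al x), mul_comm (D.al y), mul_div_assoc, div_self h1.ne', mul_div_assoc,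
    div_self h2.ne', mul_one, mul_one]
  apply Real.exp_le_exp.2
  exact mul_le_mul_of_nonneg_left (h.toKin.sig_mono hxy) (Real.sqrt_nonneg _)

theorem HL.al_cont (h : D.HL) : ContinuousOn D.al (Icc 0 D.T) := by
  intro t ht
  have hb0 := h.toKin.toFlo.b0
  have hT := h.toKin.toFlo.T_pos
  have hTm : D.T ∈ Icc 0 D.T := ⟨hT.le, le_rfl⟩
  have hTal := h.al_pos D.T hTm
  -- `al` is Lipschitz on the interval
  have hlip : ∀ s ∈ Icc 0 D.T, ∀ r ∈ Icc s D.T,
      |D.al r - D.al s| ≤ D.al D.T * (Real.exp (D.b * (r - s)) - 1) := by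
    intro s hs r hr
    have hr' : r ∈ Icc 0 D.T := ⟨hs.1.trans hr.1, hr.2⟩
    have h1 := h.al_lip s hs r hr
    have h2 := h.al_mono hs hr' hr.1
    have h3 := h.al_mono hs hTm hs.2
    have h4 : 1 ≤ Real.exp (D.b * (r - s)) := by
      apply Real.one_le_exp
      have := hr.1
      have : 0 ≤ r - s := by linarith
      positivity
    rw [abs_of_nonneg (by linarith)]
    have h5 := h.al_pos s hs
    nlinarith
  rw [ContinuousWithinAt, Metric.tendsto_nhdsWithin_nhds]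
  intro ε hε
  have hc : Filter.Tendsto (fun x : ℝ => D.al D.T * (Real.exp (D.b * x) - 1)) (nhds 0)
      (nhds 0) := by
    have h1 : Continuous fun x : ℝ => D.al D.T * (Real.exp (D.b * x) - 1) := by fun_prop
    have h2 := h1.tendsto 0
    simpa using h2
  rw [Metric.tendsto_nhds_nhds] at hc
  obtain ⟨δ, hδ, hd⟩ := hc ε hε
  refine ⟨δ, hδ, fun {x} hx hxt => ?_⟩
  rw [Real.dist_eq] at hxt ⊢
  have key : ∀ s ∈ Icc 0 D.T, ∀ r ∈ Icc s D.T, |r - s| < δ → |D.al r - D.al s| < ε := by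
    intro s hs r hr hrs
    have h1 := hd (x := r - s) (by rwa [dist_zero_right, Real.norm_eq_abs])
    rw [dist_zero_right, Real.norm_eq_abs] at h1
    exact (hlip s hs r hr).trans_lt ((le_abs_self _).trans_lt h1)
  rcases le_total x t with hxt' | hxt'
  · rw [abs_sub_comm]
    rw [abs_sub_comm] at hxt
    exact key x hx t ⟨hxt', ht.2⟩ hxt
  · exact key t ht x ⟨hxt', hx.2⟩ hxt

theorem At_cont (D : LevD) : Continuous D.At := by
  have : Continuous fun t => Real.arctan (Real.sqrt (D.c / D.k0) * D.r * (t - D.t0)) /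
      Real.sqrt (D.c * D.k0) := by fun_prop
  exact this

theorem sig_cont (D : LevD) : Continuous D.sig := by
  have h1 : D.sig = fun t => D.At (max t D.s0) - D.At D.s0 := by
    funext t
    rcases le_total t D.s0 with h2 | h2
    · rw [sig_le D h2, max_eq_right h2, sub_self]
    · rw [sig_ge D h2, max_eq_left h2]
  rw [h1]
  exact (D.At_cont.comp (continuous_id.max continuous_const)).sub continuous_const

theorem HL.alp_cont (h : D.HL) : ContinuousOn D.alp (Icc 0 D.T) := by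
  have h1 : Continuous fun t => Real.exp (Real.sqrt 2 * D.sig t) :=
    Real.continuous_exp.comp (continuous_const.mul D.sig_cont)
  exact h.al_cont.mul h1.continuousOn

/-! ### The step at one label -/

/-- THEOREM K at one label. `Mt` = coarse flow, `M'` = new flow, `v` = seed of sheet `n` at the
label, `lam = e(θ) cos θ_n`; either the label is close to the centre (zone I) or the amplitude is
tiny (zone II). -/
theorem kstep (h : D.HL) (hK1 : StK1) {Mt M' : ℝ → Op} (hA : CoL D.T D.b D.al D.A D.l)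
    (ht : CoL D.T D.b D.al Mt D.l) (hM' : Continuous M') {v : E3} {lam ε : ℝ}
    (hlam : |lam| ≤ 1) (hε0 : 0 ≤ ε) (hε : D.h ^ 1000 * ε ≤ 1)
    (hseed : ∀ t ∈ Icc 0 D.T, D.al t / D.al 0 * ‖v - lam • D.v 0‖ * ‖D.l‖ ≤ ε)
    (hM : ∀ t ∈ Icc 0 D.T, ‖M' t - refM Mt D.l v t‖ ≤ ε)
    {K' : E3} (hK' : K' ≠ 0) (hang : ‖‖K'‖⁻¹ • K' - ‖D.Kn‖⁻¹ • D.Kn‖ ≤ ε)
    (hz : (∀ t ∈ Icc 0 D.T, D.h ^ 2900 * ‖Mt t - D.A t‖ ≤ 1) ∨ D.h ^ 2000 * |lam| ≤ 1) :
    CoL D.T (D.h ^ 151) D.alp M' K' := by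
  have hK := h.toKin
  have hF := h.toKin.toFlo
  have hb0 := hF.b0
  have hb := h.b_ge
  have hb1 : (1 : ℝ) ≤ D.b := by linarith
  have hh := hK.h_one
  have hT0 := hF.T_pos
  have hT1 := hF.T_one
  have ha := hF.a_pos
  have hh0 : 0 < D.h := hF.h_pos
  -- powers
  set g : ℝ := D.h⁻¹ with hg
  have hg0 : 0 < g := inv_pos.2 hh0
  have hgh : D.h * g = 1 := mul_inv_cancel₀ hh0.ne'
  have hpw : ∀ m n : ℕ, D.h ^ m * g ^ (m + n) = g ^ n := by
    intro m n
    rw [pow_add, ← mul_assoc, ← mul_pow, hgh, one_pow, one_mul]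
  have hpd : ∀ (m : ℕ) (x : ℝ), D.h ^ m * x ≤ 1 → x ≤ g ^ m := by
    intro m x hx
    have h1 : g ^ m * (D.h ^ m * x) ≤ g ^ m * 1 := mul_le_mul_of_nonneg_left hx (by positivity)
    have h2 : g ^ m * (D.h ^ m * x) = x := by
      rw [← mul_assoc, ← mul_pow, mul_comm g, hgh, one_pow, one_mul]
    rw [h2, mul_one] at h1
    exact h1
  have hb15 : D.b ^ 15 ≤ D.h := by
    calc D.b ^ 15 ≤ D.b ^ 200 := pow_le_pow_right₀ hb1 (by norm_num)
      _ ≤ D.h := h.h_ge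
  have hbh : D.b ^ 15 * g ≤ 1 := by
    calc D.b ^ 15 * g ≤ D.h * g := by gcongr
      _ = 1 := hgh
  have hg1 : g ≤ 1 / 1000000000000000 := by
    have h1 : (10 : ℝ) ^ 15 ≤ D.b ^ 15 := by gcongr
    have h2 : (10 : ℝ) ^ 15 * g ≤ 1 := (mul_le_mul_of_nonneg_right h1 hg0.le).trans hbh
    have h3 : (10 : ℝ) ^ 15 = 1000000000000000 := by norm_num
    rw [h3] at h2
    rw [le_div_iff₀ (by norm_num)]
    linarith
  have hgle : ∀ {m n : ℕ}, m ≤ n → g ^ n ≤ g ^ m := by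
    intro m n hmn
    exact pow_le_pow_of_le_one hg0.le (by linarith) hmn
  have hbk : ∀ {k : ℕ}, k ≤ 15 → D.b ^ k ≤ D.h := fun {k} hk =>
    (pow_le_pow_right₀ hb1 hk).trans hb15
  have haeq : D.a = D.h ^ 24 := rfl
  have hεg : ε ≤ g ^ 1000 := hpd _ _ hε
  -- the size of the wave
  set Y : ℝ := D.b ^ 4 * D.a with hY
  have hY0 : 0 ≤ Y := by positivity
  have hlamY : ∀ t ∈ Icc 0 D.T, D.al t / D.al 0 * ‖lam • D.v 0‖ * ‖D.l‖ ≤ Y := by
    intro t htm
    refine (h.lam_Y lam htm).trans ?_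
    calc |lam| * (D.b ^ 4 * D.a) ≤ 1 * (D.b ^ 4 * D.a) := by gcongr
      _ = Y := by rw [one_mul]
  have hlv : ⟪D.l, lam • D.v 0⟫ = 0 := by
    have h1 := h.v_orth 0
    rw [Lb.n_zero hF] at h1
    rw [inner_smul_right, h1, mul_zero]
  have hl0 := hF.l_ne
  -- the reference flow
  set Br : ℝ := D.b * (1 + D.b ^ 2 * Y) with hBr
  have hBrh : Br ≤ D.h ^ 25 := by
    have h1 : (1 : ℝ) ≤ D.b ^ 2 * Y := by
      have h2 : (1 : ℝ) ≤ D.b ^ 6 := one_le_pow₀ hb1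
      have h3 := hK.a_one
      calc (1 : ℝ) = 1 * 1 := by norm_num
        _ ≤ D.b ^ 6 * D.a := by gcongr
        _ = D.b ^ 2 * Y := by rw [hY]; ring
    have h4 : Br ≤ D.b ^ 8 * D.a := by
      calc Br ≤ D.b * (D.b ^ 2 * Y + D.b ^ 2 * Y) := by rw [hBr]; gcongr
        _ = 2 * (D.b ^ 7 * D.a) := by rw [hY]; ring
        _ ≤ D.b * (D.b ^ 7 * D.a) := by
          gcongr
          linarith
        _ = D.b ^ 8 * D.a := by ring
    calc Br ≤ D.b ^ 8 * D.a := h4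
      _ ≤ D.h * D.h ^ 24 := by
        rw [haeq]
        gcongr
        exact hbk (by norm_num)
      _ = D.h ^ 25 := by ring
  have hBr1 : 1 ≤ Br := by
    have h1 : 0 ≤ D.b ^ 2 * Y := by positivity
    have h2 : D.b * 1 ≤ Br := by
      rw [hBr]
      gcongr
      linarith
    linarith
  have hfbr : FB (refM Mt D.l (lam • D.v 0)) 0 D.T Br :=
    refM_fb ht hl0 hb1 hY0 hT1 hlv hlamY
  have hrc : Continuous (refM Mt D.l (lam • D.v 0)) := refM_cont ht.cont hl0 _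
  set δr : ℝ := ε + D.b ^ 2 * ε with hδr
  have hδr0 : 0 ≤ δr := by positivity
  have hδrg : δr ≤ g ^ 999 := by
    calc δr = (1 + D.b ^ 2) * ε := by rw [hδr]; ring
      _ ≤ D.h * g ^ 1000 := by
        gcongr
        calc 1 + D.b ^ 2 ≤ D.b * D.b ^ 2 := by nlinarith
          _ = D.b ^ 3 := by ring
          _ ≤ D.h := hbk (by norm_num)
      _ = g ^ 999 := by
        have := hpw 1 999
        simpa using this
  have hnear : ∀ t ∈ Icc 0 D.T, ‖M' t - refM Mt D.l (lam • D.v 0) t‖ ≤ δr := by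
    intro t htm
    have h1 := refM_seed ht hl0 hb0.le (v := v) (v' := lam • D.v 0) hseed htm
    calc ‖M' t - refM Mt D.l (lam • D.v 0) t‖
        ≤ ‖M' t - refM Mt D.l v t‖ + ‖refM Mt D.l v t - refM Mt D.l (lam • D.v 0) t‖ :=
          norm_sub_le_norm_sub_add_norm_sub _ _ _
      _ ≤ ε + D.b ^ 2 * ε := add_le_add (hM t htm) h1
  have hsmall : 2 * (Br * δr) ≤ 1 := by
    calc 2 * (Br * δr) ≤ 2 * (D.h ^ 25 * g ^ 999) := by gcongr
      _ = 2 * g ^ 974 := by rw [hpw 25 974]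
      _ ≤ 2 * g ^ 1 := by
        have := hgle (show 1 ≤ 974 by norm_num)
        linarith
      _ ≤ 1 := by rw [pow_one]; linarith
  -- the coarse bounds
  have hsize : ∀ t ∈ Icc 0 D.T, ‖M' t‖ ≤ D.h ^ 151 := by
    intro t htm
    have h1 := hnear t htm
    have h2 := refM_le ht hl0 hb0.le hlamY htm
    have h3 := ht.le t htm
    have h4 : ‖M' t‖ ≤ δr + D.b ^ 2 * Y + D.b := by
      calc ‖M' t‖ = ‖(M' t - refM Mt D.l (lam • D.v 0) t) +
            (refM Mt D.l (lam • D.v 0) t - Mt t) + Mt t‖ := by congr 1; abel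
        _ ≤ δr + D.b ^ 2 * Y + D.b :=
          (norm_add_le _ _).trans (add_le_add ((norm_add_le _ _).trans (add_le_add h1 h2)) h3)
    have h5 : δr ≤ 1 := hδrg.trans (pow_le_one₀ hg0.le (by linarith))
    have h6 : δr + D.b ^ 2 * Y + D.b ≤ Br := by
      rw [hBr]
      have h7 : 1 * (D.b ^ 2 * Y) ≤ D.b * (D.b ^ 2 * Y) := by gcongr
      have h8 : (1 : ℝ) ≤ D.b ^ 2 * Y := by
        have h2 : (1 : ℝ) ≤ D.b ^ 6 := one_le_pow₀ hb1
        have h3 := hK.a_one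
        calc (1 : ℝ) = 1 * 1 := by norm_num
          _ ≤ D.b ^ 6 * D.a := by gcongr
          _ = D.b ^ 2 * Y := by rw [hY]; ring
      nlinarith
    calc ‖M' t‖ ≤ Br := h4.trans h6
      _ ≤ D.h ^ 25 := hBrh
      _ ≤ D.h ^ 151 := pow_le_pow_right₀ hh (by norm_num)
  have hfb' : FB M' 0 D.T (D.h ^ 151) := by
    refine (hfbr.perturb2 hrc hM' (by linarith) hδr0 hnear (by linarith) hsmall).mono_const ?_
    calc 2 * Br ≤ D.h * D.h ^ 25 := by
          have h1 : (2 : ℝ) ≤ D.h := by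
            have h2 := hbk (k := 1) (by norm_num)
            rw [pow_one] at h2
            linarith
          gcongr
      _ = D.h ^ 26 := by ring
      _ ≤ D.h ^ 151 := pow_le_pow_right₀ hh (by norm_num)
  refine ⟨hM', hsize, hfb', ?_⟩
  -- the Kelvin bound
  rcases hz with hz | hz
  · -- zone I
    have hρ : ∀ t ∈ Icc 0 D.T, ‖Mt t - D.A t‖ ≤ g ^ 2900 := fun t htm => hpd _ _ (hz t htm)
    have hfl := fun t (htm : t ∈ Icc 0 D.T) => refM_flow ht hA h.al_pos hl0 hb1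
      (by positivity : (0 : ℝ) ≤ g ^ 2900) hT1 (by
        calc 2 * (D.b * g ^ 2900) ≤ 2 * (D.h ^ 1 * g ^ 2900) := by
              gcongr
              have := hbk (k := 1) (by norm_num)
              simpa using this
          _ = 2 * g ^ 2899 := by rw [hpw 1 2899]
          _ ≤ 2 * g ^ 1 := by
            have := hgle (show 1 ≤ 2899 by norm_num)
            linarith
          _ ≤ 1 := by rw [pow_one]; linarith) hρ hlamY htm
    have hA2 := hF.fam_refM lam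
    set δ : ℝ := g ^ 998 with hδ
    have hδ0 : 0 ≤ δ := by positivity
    have hMM : ∀ t ∈ Icc 0 D.T, ‖M' t - D.fam.M lam t‖ ≤ δ := by
      intro t htm
      have h1 := hfl t htm
      rw [← hA2] at h1
      have h2 : g ^ 2900 * (1 + 21 * D.b ^ 7 * Y) ≤ g ^ 999 := by
        have h3 : 1 + 21 * D.b ^ 7 * Y ≤ D.h ^ 25 := by
          have h4 : (1 : ℝ) ≤ D.b ^ 11 * D.a := by
            have h2 : (1 : ℝ) ≤ D.b ^ 11 := one_le_pow₀ hb1
            have h3 := hK.a_one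
            calc (1 : ℝ) = 1 * 1 := by norm_num
              _ ≤ D.b ^ 11 * D.a := by gcongr
          have h5 : (22 : ℝ) ≤ D.b ^ 2 := by nlinarith
          calc 1 + 21 * D.b ^ 7 * Y = 1 + 21 * (D.b ^ 11 * D.a) := by rw [hY]; ring
            _ ≤ 22 * (D.b ^ 11 * D.a) := by linarith
            _ ≤ D.b ^ 2 * (D.b ^ 11 * D.a) := by gcongr
            _ = D.b ^ 13 * D.a := by ring
            _ ≤ D.h * D.h ^ 24 := by
              rw [haeq]
              gcongr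
              exact hbk (by norm_num)
            _ = D.h ^ 25 := by ring
        calc g ^ 2900 * (1 + 21 * D.b ^ 7 * Y) ≤ g ^ 2900 * D.h ^ 25 := by gcongr
          _ = D.h ^ 25 * g ^ (25 + 2875) := by rw [mul_comm]
          _ = g ^ 2875 := hpw 25 2875
          _ ≤ g ^ 999 := hgle (by norm_num)
      calc ‖M' t - D.fam.M lam t‖
          ≤ ‖M' t - refM Mt D.l (lam • D.v 0) t‖ +
            ‖refM Mt D.l (lam • D.v 0) t - D.fam.M lam t‖ :=
            norm_sub_le_norm_sub_add_norm_sub _ _ _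
        _ ≤ δr + g ^ 999 := add_le_add (hnear t htm) (h1.trans h2)
        _ ≤ 2 * g ^ 999 := by linarith
        _ ≤ D.h ^ 1 * g ^ (1 + 998) := by
          rw [pow_one]
          have h6 := hbk (k := 1) (by norm_num)
          rw [pow_one] at h6
          have : (2 : ℝ) ≤ D.h := by linarith
          exact mul_le_mul_of_nonneg_right this (by positivity)
        _ = δ := hpw 1 998
    have hfbc : FB (D.fam.M lam) 0 D.T Br := by
      rw [hA2]
      exact refM_fb hA hl0 hb1 hY0 hT1 hlv hlamY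
    have hbc : ∀ r ∈ Icc 0 D.T, ‖D.fam.M lam r‖ ≤ D.h ^ 25 := by
      intro r hr
      have h1 := h.M_le (al := lam) (abs_le.1 hlam) hr
      refine h1.trans ?_
      calc 2 * D.b ^ 3 * D.a ≤ D.b * D.b ^ 3 * D.a := by
            gcongr
            linarith
        _ = D.b ^ 4 * D.a := by ring
        _ ≤ D.h * D.h ^ 24 := by
          rw [haeq]
          gcongr
          exact hbk (by norm_num)
        _ = D.h ^ 25 := by ring
    have hkc : PB (kelG (D.fam.M lam) D.Kn) 0 D.T (D.h ^ 150) D.alp := by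
      refine (hK1 D h lam (abs_le.1 hlam)).congr fun t htm => ?_
      rw [kelG, ← hF.K_covec lam t htm]
    have hfin := kb_of_near (b := D.h ^ 25) (B := Br) (δ := δ) (ang := ε) (E := D.h ^ 150) hM'
      (hF.M_cont lam) h.alp_pos h.alp_cont hBr1 hδ0 (by positivity) hT1 hT0.le hMM hfbc hbc hK'
      hF.Kn_ne hang hkc
      (by
        calc 2 * (Br * δ) ≤ 2 * (D.h ^ 25 * g ^ (25 + 973)) := by gcongr
          _ = 2 * g ^ 973 := by rw [hpw 25 973]
          _ ≤ 2 * g ^ 1 := by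
            have := hgle (show 1 ≤ 973 by norm_num)
            linarith
          _ ≤ 1 := by rw [pow_one]; linarith)
      (by
        have e1 : Br ^ 2 * ε ≤ D.h ^ 50 * g ^ 1000 := by
          calc Br ^ 2 * ε ≤ (D.h ^ 25) ^ 2 * g ^ 1000 := by gcongr
            _ = D.h ^ 50 * g ^ 1000 := by ring
        have e2 : 2 * Br ^ 3 * δ ≤ 2 * (D.h ^ 75 * g ^ 998) := by
          calc 2 * Br ^ 3 * δ ≤ 2 * (D.h ^ 25) ^ 3 * g ^ 998 := by gcongr
            _ = 2 * (D.h ^ 75 * g ^ 998) := by ring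
        calc 2 * (D.h ^ 150 * (3 * δ + 8 * D.h ^ 25 * (Br ^ 2 * ε + 2 * Br ^ 3 * δ)))
            ≤ 2 * (D.h ^ 150 * (3 * g ^ 998 + 8 * D.h ^ 25 * (D.h ^ 50 * g ^ 1000 +
              2 * (D.h ^ 75 * g ^ 998)))) := by gcongr
          _ = 6 * (D.h ^ 150 * g ^ (150 + 848)) + 16 * (D.h ^ 225 * g ^ (225 + 775)) +
              32 * (D.h ^ 250 * g ^ (250 + 748)) := by ring
          _ = 6 * g ^ 848 + 16 * g ^ 775 + 32 * g ^ 748 := by
            rw [hpw 150 848, hpw 225 775, hpw 250 748]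
          _ ≤ 6 * g ^ 1 + 16 * g ^ 1 + 32 * g ^ 1 := by
            have h1 := hgle (show 1 ≤ 848 by norm_num)
            have h2 := hgle (show 1 ≤ 775 by norm_num)
            have h3 := hgle (show 1 ≤ 748 by norm_num)
            linarith
          _ ≤ 1 := by rw [pow_one]; linarith)
    refine hfin.mono_const h.alp_pos ?_
    calc 2 * D.h ^ 150 ≤ D.h * D.h ^ 150 := by
          have h6 := hbk (k := 1) (by norm_num)
          rw [pow_one] at h6
          gcongr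
          linarith
      _ = D.h ^ 151 := by ring
  · -- zone II
    have hlg : |lam| ≤ g ^ 2000 := hpd _ _ hz
    set δ : ℝ := g ^ 998 with hδ
    have hδ0 : 0 ≤ δ := by positivity
    have hMM : ∀ t ∈ Icc 0 D.T, ‖M' t - Mt t‖ ≤ δ := by
      intro t htm
      have h1 := refM_le ht hl0 hb0.le (v := lam • D.v 0) (Y := |lam| * (D.b ^ 4 * D.a))
        (fun t ht => h.lam_Y lam ht) htm
      have h2 : D.b ^ 2 * (|lam| * (D.b ^ 4 * D.a)) ≤ g ^ 999 := by
        calc D.b ^ 2 * (|lam| * (D.b ^ 4 * D.a)) = (D.b ^ 6 * D.a) * |lam| := by ring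
          _ ≤ (D.h * D.h ^ 24) * g ^ 2000 := by
            rw [haeq]
            gcongr
            exact hbk (by norm_num)
          _ = D.h ^ 25 * g ^ (25 + 1975) := by ring
          _ = g ^ 1975 := hpw 25 1975
          _ ≤ g ^ 999 := hgle (by norm_num)
      calc ‖M' t - Mt t‖ ≤ ‖M' t - refM Mt D.l (lam • D.v 0) t‖ +
            ‖refM Mt D.l (lam • D.v 0) t - Mt t‖ := norm_sub_le_norm_sub_add_norm_sub _ _ _
        _ ≤ δr + g ^ 999 := add_le_add (hnear t htm) (h1.trans h2)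
        _ ≤ 2 * g ^ 999 := by linarith
        _ ≤ D.h ^ 1 * g ^ (1 + 998) := by
          rw [pow_one]
          have h6 := hbk (k := 1) (by norm_num)
          rw [pow_one] at h6
          have : (2 : ℝ) ≤ D.h := by linarith
          exact mul_le_mul_of_nonneg_right this (by positivity)
        _ = δ := hpw 1 998
    have hang' : ‖‖K'‖⁻¹ • K' - ‖D.l‖⁻¹ • D.l‖ ≤ ε + 4 * D.b ^ 3 / D.a :=
      (norm_sub_le_norm_sub_add_norm_sub _ _ _).trans (add_le_add hang h.ang)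
    have hag : ε + 4 * D.b ^ 3 / D.a ≤ g ^ 23 := by
      have h1 : 4 * D.b ^ 3 / D.a = 4 * D.b ^ 3 * g ^ 24 := by
        rw [haeq, hg, inv_pow, div_eq_mul_inv]
      have h2 : 4 * D.b ^ 3 ≤ D.h / 2 := by
        have h3 : D.b ^ 5 ≤ D.h := hbk (by norm_num)
        have h4 : (8 : ℝ) ≤ D.b ^ 2 := by nlinarith
        have h5 : 8 * D.b ^ 3 ≤ D.b ^ 5 := by
          calc 8 * D.b ^ 3 ≤ D.b ^ 2 * D.b ^ 3 := by gcongr
            _ = D.b ^ 5 := by ring
        linarith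
      have h6 : ε ≤ g ^ 23 / 2 := by
        have h7 : g ^ 1000 ≤ g ^ 24 := hgle (by norm_num)
        have h8 : g ^ 24 = g ^ 23 * g := by ring
        have h9 : 0 ≤ g ^ 23 := by positivity
        nlinarith
      have h7 : 4 * D.b ^ 3 * g ^ 24 ≤ g ^ 23 / 2 := by
        calc 4 * D.b ^ 3 * g ^ 24 ≤ D.h / 2 * g ^ 24 := by gcongr
          _ = (D.h ^ 1 * g ^ (1 + 23)) / 2 := by ring
          _ = g ^ 23 / 2 := by rw [hpw 1 23]
      rw [h1]
      linarith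
    have hfin := kb_of_near (b := D.b) (B := D.b) (δ := δ) (ang := g ^ 23) (E := D.b) hM'
      ht.cont h.al_pos h.al_cont hb1 hδ0 hb0.le hT1 hT0.le hMM ht.fb ht.le hK'
      hl0 (hang'.trans hag) ht.kb
      (by
        calc 2 * (D.b * δ) ≤ 2 * (D.h ^ 1 * g ^ (1 + 997)) := by
              have := hbk (k := 1) (by norm_num)
              rw [pow_one] at this
              rw [pow_one]
              gcongr
          _ = 2 * g ^ 997 := by rw [hpw 1 997]
          _ ≤ 2 * g ^ 1 := by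
            have := hgle (show 1 ≤ 997 by norm_num)
            linarith
          _ ≤ 1 := by rw [pow_one]; linarith)
      (by
        calc 2 * (D.b * (3 * δ + 8 * D.b * (D.b ^ 2 * g ^ 23 + 2 * D.b ^ 3 * δ)))
            = 6 * (D.b * δ) + 16 * (D.b ^ 4 * g ^ 23) + 32 * (D.b ^ 5 * δ) := by ring
          _ ≤ 6 * (D.h * δ) + 16 * (D.h * g ^ 23) + 32 * (D.h * δ) := by
            have h1 := hbk (k := 1) (by norm_num)
            rw [pow_one] at h1
            have h2 := hbk (k := 4) (by norm_num)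
            have h3 := hbk (k := 5) (by norm_num)
            gcongr
          _ = 6 * (D.h ^ 1 * g ^ (1 + 997)) + 16 * (D.h ^ 1 * g ^ (1 + 22)) +
              32 * (D.h ^ 1 * g ^ (1 + 997)) := by rw [hδ]; ring
          _ = 6 * g ^ 997 + 16 * g ^ 22 + 32 * g ^ 997 := by
            rw [hpw 1 997, hpw 1 22]
          _ ≤ 6 * g ^ 1 + 16 * g ^ 1 + 32 * g ^ 1 := by
            have h1 := hgle (show 1 ≤ 997 by norm_num)
            have h2 := hgle (show 1 ≤ 22 by norm_num)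
            linarith
          _ ≤ 1 := by rw [pow_one]; linarith)
    refine (hfin.mono_weight h.al_pos h.alp_pos h.alp_ratio (by linarith)).mono_const
      h.alp_pos ?_
    calc 2 * D.b ≤ D.b * D.b := by nlinarith
      _ = D.b ^ 2 := by ring
      _ ≤ D.h := hbk (by norm_num)
      _ = D.h ^ 1 := by rw [pow_one]
      _ ≤ D.h ^ 151 := pow_le_pow_right₀ hh (by norm_num)

end LevD

end Pool.Agent.Work.MP_b0497c_an.Unf.O

end

section

set_option autoImplicit false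
set_option linter.dupNamespace false

/-!
# Choice of the integer wave vector
-/

namespace Pool.Agent.Work.MP_b0497c_an.Unf.K

open S

theorem norm_kR_eq (k : Fin 3 → ℤ) : ‖kR k‖ = ‖kv k‖ := by
  rw [EuclideanSpace.norm_eq, EuclideanSpace.norm_eq]
  congr 1
  apply Finset.sum_congr rfl
  intro i _
  simp [kR, kv]

theorem round_close (v : E3) : ‖kR (fun i => round (v i)) - v‖ ≤ 1 := by
  rw [EuclideanSpace.norm_eq]
  rw [show (1 : ℝ) = √1 by simp]
  apply Real.sqrt_le_sqrt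
  have h : ∀ i : Fin 3, ‖(kR (fun i => round (v i)) - v) i‖ ^ 2 ≤ 1 / 4 := by
    intro i
    have h1 : (kR (fun i => round (v i)) - v) i = (round (v i) : ℝ) - v i := by
      simp [kR]
    rw [h1, Real.norm_eq_abs, sq_abs]
    have h2 := abs_sub_round (v i)
    have h3 := abs_le.1 h2
    nlinarith
  rw [Fin.sum_univ_three]
  have := h 0
  have := h 1
  have := h 2
  linarith

theorem exists_kR (v : E3) (hv : v ≠ 0) (Y : ℝ) (hY : 10 ≤ Y) :
    ∃ k : Fin 3 → ℤ, Y / 2 ≤ ‖kR k‖ ∧ ‖kR k‖ ≤ 2 * Y ∧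
      ‖‖kR k‖⁻¹ • kR k - ‖v‖⁻¹ • v‖ ≤ 4 / Y := by
  set e : E3 := ‖v‖⁻¹ • v with he
  have he1 : ‖e‖ = 1 := by
    rw [he, norm_smul, norm_inv, norm_norm]
    exact inv_mul_cancel₀ (norm_ne_zero_iff.2 hv)
  set k : Fin 3 → ℤ := fun i => round ((Y • e) i) with hk
  have hY0 : 0 < Y := by linarith
  have h1 : ‖kR k - Y • e‖ ≤ 1 := round_close (Y • e)
  have hYe : ‖Y • e‖ = Y := by rw [norm_smul, he1, Real.norm_eq_abs, abs_of_pos hY0, mul_one]
  have hlow : Y - 1 ≤ ‖kR k‖ := by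
    have := norm_sub_norm_le (Y • e) (Y • e - kR k)
    have h2 : Y • e - (Y • e - kR k) = kR k := by abel
    rw [h2, hYe, norm_sub_rev] at this
    linarith
  have hup : ‖kR k‖ ≤ Y + 1 := by
    have := norm_add_le (kR k - Y • e) (Y • e)
    rw [sub_add_cancel, hYe] at this
    linarith
  refine ⟨k, by linarith, by linarith, ?_⟩
  have hk0 : 0 < ‖kR k‖ := by linarith
  have h3 : ‖‖kR k‖⁻¹ • kR k - e‖ ≤ ‖kR k‖⁻¹ * (1 + |Y - ‖kR k‖|) := by
    have h4 : ‖kR k‖⁻¹ • kR k - e = ‖kR k‖⁻¹ • ((kR k - Y • e) + (Y - ‖kR k‖) • e) := by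
      have h7 : (kR k - Y • e) + (Y - ‖kR k‖) • e = kR k - ‖kR k‖ • e := by
        rw [sub_smul]
        abel
      rw [h7, smul_sub]
      congr 1
      rw [smul_smul, inv_mul_cancel₀ hk0.ne', one_smul]
    rw [h4, norm_smul, norm_inv, norm_norm]
    apply mul_le_mul_of_nonneg_left _ (by positivity)
    refine (norm_add_le _ _).trans ?_
    rw [norm_smul, he1, Real.norm_eq_abs, mul_one]
    linarith
  have h5 : |Y - ‖kR k‖| ≤ 1 := by
    rw [abs_le]
    constructor <;> linarith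
  have h6 : ‖kR k‖⁻¹ ≤ 2 / Y := by
    rw [inv_le_comm₀ hk0 (by positivity), inv_div]
    linarith
  calc ‖‖kR k‖⁻¹ • kR k - e‖ ≤ ‖kR k‖⁻¹ * (1 + |Y - ‖kR k‖|) := h3
    _ ≤ (2 / Y) * (1 + 1) := by
      apply mul_le_mul h6 (by linarith) (by positivity) (by positivity)
    _ = 4 / Y := by ring

/-- The same with the norm of `kv`, and for unit vectors. -/
theorem exists_kv (v : E3) (hv : v ≠ 0) (Y : ℝ) (hY : 10 ≤ Y) :
    ∃ k : Fin 3 → ℤ, Y / 2 ≤ ‖kv k‖ ∧ ‖kv k‖ ≤ 2 * Y ∧ ‖kR k‖ = ‖kv k‖ ∧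
      ‖‖kR k‖⁻¹ • kR k - ‖v‖⁻¹ • v‖ ≤ 4 / Y := by
  obtain ⟨k, h1, h2, h3⟩ := exists_kR v hv Y hY
  exact ⟨k, by rw [← norm_kR_eq]; exact h1, by rw [← norm_kR_eq]; exact h2, norm_kR_eq k, h3⟩

theorem exists_kv_unit (e : E3) (he : ‖e‖ = 1) (Y : ℝ) (hY : 10 ≤ Y) :
    ∃ k : Fin 3 → ℤ, Y / 2 ≤ ‖kv k‖ ∧ ‖kv k‖ ≤ 2 * Y ∧ ‖kR k‖ = ‖kv k‖ ∧
      ‖‖kR k‖⁻¹ • kR k - e‖ ≤ 4 / Y := by
  have h0 : e ≠ 0 := by
    intro h
    rw [h, norm_zero] at he
    exact zero_ne_one he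
  obtain ⟨k, h1, h2, h3, h4⟩ := exists_kv e h0 Y hY
  rw [he, inv_one, one_smul] at h4
  exact ⟨k, h1, h2, h3, h4⟩

end Pool.Agent.Work.MP_b0497c_an.Unf.K

end

section

set_option autoImplicit false
set_option linter.dupNamespace false

/-!
# THEOREM K (OK.7): the step KB(n), LB(n) ⇒ KB(n+1), LB(n+1) at all real labels

`KLB T b α M K`: at every label the coarse flow `M`, its flow and dual flow, and the Kelvin
propagator of the wave vector `K` are bounded with the constant `b` (weight `α`) on `[0,T]`.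
`KLink` = the link between the centre data `D : LevD` of level `n` and the Fourier data.
-/

open scoped ENNReal InnerProductSpace
open Set MeasureTheory

namespace Pool.Agent.Work.MP_b0497c_an.Unf.K

open W S
open Forced.Ode (Op ro)
open O

/-- KB and LB: bounds at all real labels. -/
def KLB (T b : ℝ) (α : ℝ → ℝ) (M : ℝ → Md → Mat) (K : Fin 3 → ℤ) : Prop :=
  ∀ θ : Md →+ ℝ, CoL T b α (rMt θ T M) (kR K)

theorem PB.weight {V : Type} [NormedAddCommGroup V] [NormedSpace ℝ V] {A : ℝ → V →L[ℝ] V}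
    {a b C c : ℝ} {w w' : ℝ → ℝ} (h : PB A a b C w) (hc : 0 < c)
    (hw : ∀ t ∈ Icc a b, w' t = c * w t) : PB A a b C w' := by
  intro s hs t ht u hu
  have h1 := h s hs t ht u hu
  rw [hw s hs, hw t ⟨hs.1.trans ht.1, ht.2⟩, mul_div_mul_left _ _ hc.ne']
  exact h1

theorem CoL.weight {V : Type} [NormedAddCommGroup V] [InnerProductSpace ℝ V] [CompleteSpace V]
    {T b c : ℝ} {α α' : ℝ → ℝ} {M : ℝ → V →L[ℝ] V} {K : V} (h : CoL T b α M K) (hc : 0 < c)
    (hw : ∀ t ∈ Icc 0 T, α' t = c * α t) : CoL T b α' M K where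
  cont := h.cont
  le := h.le
  fb := h.fb
  kb := h.kb.weight hc hw

theorem KLB.weight {T b c : ℝ} {α α' : ℝ → ℝ} {M : ℝ → Md → Mat} {K : Fin 3 → ℤ}
    (h : KLB T b α M K) (hc : 0 < c) (hw : ∀ t ∈ Icc 0 T, α' t = c * α t) : KLB T b α' M K :=
  fun θ => (h θ).weight hc hw

/-- Restriction to a shorter interval. -/
theorem KLB.mono_T {T T' b : ℝ} {α : ℝ → ℝ} {M : ℝ → Md → Mat} {K : Fin 3 → ℤ}
    (h : KLB T b α M K) (hT : T' ≤ T)
    (hc : ∀ θ : Md →+ ℝ, Continuous (rMt θ T' M)) : KLB T' b α M K := by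
  intro θ
  refine ((h θ).mono_T hT).congr (hc θ) fun t ht => ?_
  have h1 : clT T t = t := by
    unfold clT
    rw [min_eq_left (ht.2.trans hT), max_eq_right ht.1]
  have h2 : clT T' t = t := by
    unfold clT
    rw [min_eq_left ht.2, max_eq_right ht.1]
  rw [rMt, rMt, h1, h2]

theorem KLB.mono_b {T b b' : ℝ} {α : ℝ → ℝ} {M : ℝ → Md → Mat} {K : Fin 3 → ℤ}
    (h : KLB T b α M K) (hα : ∀ t ∈ Icc 0 T, 0 < α t) (hb : b ≤ b') : KLB T b' α M K :=
  fun θ => (h θ).mono_b hα hb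

/-- The value at a label is the value of the clamped function. -/
theorem rMt_eq {θ : Md →+ ℝ} {T : ℝ} {M : ℝ → Md → Mat} {t : ℝ} (ht : t ∈ Icc 0 T) :
    rMt θ T M t = rM θ (M t) := by
  unfold rMt clT
  rw [min_eq_left ht.2, max_eq_right ht.1]

/-- The link between the centre data of level `n` and the Fourier data. `M'` = flow of level
`n - 1`, `kn`, `k'` = wave vectors of the waves `n`, `n + 1`, `w` = seed of sheet `n`, `V` = its
real amplitude at the centre, `env` = its envelope, `c = 1 / |k_n(t_n)|`. -/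
structure KLink (D : LevD) (n : ℕ) (kn k' : Fin 3 → ℤ) (M' : ℝ → Md → Mat) (w : Md → C3) (V : E3)
    (env : (Md →+ ℝ) → ℝ) (c : ℝ) : Prop where
  c_pos : 0 < c
  A_eq : ∀ t ∈ Icc 0 D.T, D.A t = rM 0 (M' t)
  l_eq : D.l = c • kR kn
  v_eq : D.v 0 = c⁻¹ • V
  env_nonneg : ∀ θ, 0 ≤ env θ
  env_le : ∀ θ, env θ ≤ 1
  /-- where the envelope is not tiny, the label is close to the centre -/
  env_near : ∀ θ, 1 < D.h ^ 2000 * env θ → ∃ d, 0 ≤ d ∧ D.h ^ 4000 * d ≤ 1 ∧ Near n d θ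
  w_sum : Summable fun q => ‖w q‖
  dw_sum : Summable fun q => ‖dj n w q‖
  /-- the seed at a label -/
  seed : ∀ θ : Md →+ ℝ, ∀ t ∈ Icc 0 D.T, D.h ^ 1000 * (D.al t / D.al 0 *
    ‖rV θ (dj n w) - (env θ * Real.cos (θ (Finsupp.single n 1))) • V‖ * ‖kR kn‖) ≤ 1
  K_ne : kR k' ≠ 0
  K_near : D.h ^ 1000 * ‖‖kR k'‖⁻¹ • kR k' - ‖D.Kn‖⁻¹ • D.Kn‖ ≤ 1

/-- THEOREM K. -/
theorem klb_step {D : LevD} (h : D.HL) (hK1 : LevD.StK1) {n : ℕ} (hn : 1 ≤ n)
    {K : ℕ → Fin 3 → ℤ} {T0 T1 r' R' r1 R1 r R u : ℝ} {α : ℝ → ℝ}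
    {X' U' A' X U A1 : ℝ → Md → C3} {p' p : ℝ → Md → ℂ} {F' Fi' M' F Fi M : ℝ → Md → Mat}
    {z a : ℝ → Md → C3} {s : ℝ → Md → ℂ} {Φ : ℝ → ℝ → Md → Mat} {w : Md → C3}
    (hL' : A.Lvl K T0 r' R' (n - 1) X' U' A' p' F' Fi' M')
    (hL : A.Lvl K T1 r1 R1 n X U A1 p F Fi M)
    (hS : A.Sht K T1 r R u α n F' Fi' M' F Fi M z a s Φ w) (hr : 0 ≤ r)
    (hT10 : T1 ≤ T0) (hT1 : D.T ≤ T1) {V : E3} {env : (Md →+ ℝ) → ℝ} {c : ℝ} {k' : Fin 3 → ℤ}
    (hlink : KLink D n (K n) k' M' w V env c)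
    (hR : R' ^ 2 ≤ D.h ^ 1000) (hu : ∀ t ∈ Icc 0 D.T, D.h ^ 1000 * (α t * u ^ 256) ≤ 1)
    (hklb : KLB D.T D.b D.al M' (K n)) :
    KLB D.T (D.h ^ 151) D.alp M k' := by
  intro θ
  have hF := h.toKin.toFlo
  have hT := hF.T_pos
  have hh := h.toKin.h_one
  have hh0 := hF.h_pos
  have hc := hlink.c_pos
  have hT0 : D.T ≤ T0 := hT1.trans hT10
  -- the coarse flows
  have hK0 : kR (K n) ≠ 0 := KDict.kR_ne hS.K_pos
  have hcc : D.l = c • kR (K n) := hlink.l_eq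
  have ht : CoL D.T D.b D.al (rMt θ D.T M') D.l := by
    rw [hcc]
    exact (hklb θ).smul_K hc.ne'
  have hA : CoL D.T D.b D.al D.A D.l := by
    rw [hcc]
    exact ((hklb 0).smul_K hc.ne').congr hF.A_cont fun t ht => by
      rw [rMt_eq ht, hlink.A_eq t ht]
  have hM' : Continuous (rMt θ D.T M) := (d4 K T1 r1 R1 n X U A1 p F Fi M hL D.T hT hT1 θ).1
  -- the amplitude
  set lam : ℝ := env θ * Real.cos (θ (Finsupp.single n 1)) with hlam
  have hlam1 : |lam| ≤ env θ := by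
    rw [hlam, abs_mul, abs_of_nonneg (hlink.env_nonneg θ)]
    calc env θ * |Real.cos (θ (Finsupp.single n 1))| ≤ env θ * 1 := by
          gcongr
          · exact hlink.env_nonneg θ
          · exact Real.abs_cos_le_one _
      _ = env θ := mul_one _
  set W : E3 := rV θ (dj n w) with hW
  set ε : ℝ := (D.h ^ 1000)⁻¹ with hε
  have hp : 0 < D.h ^ 1000 := by positivity
  have hle : ∀ x : ℝ, D.h ^ 1000 * x ≤ 1 → x ≤ ε := by
    intro x hx
    rw [hε, ← one_div, le_div_iff₀ hp]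
    linarith
  have hd4 := d4 K T0 r' R' (n - 1) X' U' A' p' F' Fi' M' hL' D.T hT hT0
  have hMsum : ∀ t ∈ Icc 0 T1, Summable fun q => ‖M t q‖ := fun t ht =>
    (KDict.BD.of_nrm hL.c_pos.le hL.M_fin).sum ht
  -- the new flow is close to the reference flow
  have href : ∀ t, refM (rMt θ D.T M') D.l (c⁻¹ • W) t =
      rMt θ D.T M' t + ro (kelS (rMt θ D.T M') (kR (K n)) W t)
        (covec (rMt θ D.T M') (kR (K n)) t) := by
    intro t
    have hcont := (hd4 θ).1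
    rw [refM, hcc, kelS_K_smul hcont hc.ne', kelS_smul hcont hK0, covec_smul hcont, ro_smul]
    congr 1
    ext1 x
    simp only [ro, smul_apply, ContinuousLinearMap.smulRight_apply, innerSL_apply_apply,
      inner_smul_left, conj_trivial, smul_smul]
    congr 1
    field_simp
  have hMnear : ∀ t ∈ Icc 0 D.T,
      ‖rMt θ D.T M t - refM (rMt θ D.T M') D.l (c⁻¹ • W) t‖ ≤ ε := by
    intro t ht
    have h7 := d7 K T0 T1 r r' R R' u α n X' U' A' p' F' Fi' M' F Fi M z a s Φ w hL' hS hT10 hr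
      hMsum hlink.w_sum hlink.dw_sum D.T hT hT1 θ t ht
    refine hle _ ?_
    rw [href, rMt_eq ht, rMt_eq ht]
    have h8 : rM θ (M t) - (rM θ (M' t) + ro (kelS (rMt θ D.T M') (kR (K n)) W t)
        (covec (rMt θ D.T M') (kR (K n)) t)) = rM θ (M t) - rM θ (M' t) -
        ro (kelS (rMt θ D.T M') (kR (K n)) W t) (covec (rMt θ D.T M') (kR (K n)) t) := by abel
    rw [h8]
    refine (mul_le_mul_of_nonneg_left h7 hp.le).trans (hu t ht)
  -- the seed
  have hseed : ∀ t ∈ Icc 0 D.T,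
      D.al t / D.al 0 * ‖c⁻¹ • W - lam • D.v 0‖ * ‖D.l‖ ≤ ε := by
    intro t ht
    refine hle _ ?_
    have h1 : c⁻¹ • W - lam • D.v 0 = c⁻¹ • (W - lam • V) := by
      rw [hlink.v_eq, smul_sub, smul_comm lam]
    have h2 : D.al t / D.al 0 * ‖c⁻¹ • W - lam • D.v 0‖ * ‖D.l‖ =
        D.al t / D.al 0 * ‖W - lam • V‖ * ‖kR (K n)‖ := by
      rw [h1, hcc, norm_smul, norm_smul, Real.norm_eq_abs, Real.norm_eq_abs,
        abs_of_pos (inv_pos.2 hc), abs_of_pos hc]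
      field_simp
    rw [h2]
    exact hlink.seed θ t ht
  -- the zones
  have hz : (∀ t ∈ Icc 0 D.T, D.h ^ 2900 * ‖rMt θ D.T M' t - D.A t‖ ≤ 1) ∨
      D.h ^ 2000 * |lam| ≤ 1 := by
    by_cases hcase : 1 < D.h ^ 2000 * env θ
    · left
      intro t ht
      obtain ⟨d, hd0, hd, hnear⟩ := hlink.env_near θ hcase
      have htT0 : t ∈ Icc 0 T0 := ⟨ht.1, ht.2.trans hT0⟩
      rw [rMt_eq ht, hlink.A_eq t ht]
      have hsupp : SuppIn {q : Md | ∀ i, n ≤ i → q i = 0} (M' t) := by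
        intro q hq
        refine hL'.M_supp t htT0 q fun hq2 => hq ?_
        intro i hi
        exact hq2 i (by omega)
      have hR0 : 0 ≤ R' := by linarith [hL'.R_two]
      have hnrm : sN r' (M' t) ≤ ENNReal.ofReal R' := by
        refine le_trans ?_ hL'.M_le
        unfold sN Nrm
        refine ENNReal.tsum_le_tsum fun q => ?_
        refine le_trans (le_of_eq ?_) (le_iSup₂_of_le t htT0 le_rfl)
        simp [Dat.one']
      have h3 := d3 θ n (M' t) r' R' d hL'.c_pos hR0 hd0 hsupp hnrm hnear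
      have hRr : R' / r' ≤ R' ^ 2 := by
        rw [div_le_iff₀ hL'.c_pos]
        have := hL'.r_R
        nlinarith
      have hd1 : D.h ^ 4000 * d ≤ 1 := hd
      calc D.h ^ 2900 * ‖rM θ (M' t) - rM 0 (M' t)‖ ≤ D.h ^ 2900 * (d * (R' / r')) := by gcongr
        _ ≤ D.h ^ 2900 * (d * D.h ^ 1000) := by
          gcongr
          exact hRr.trans hR
        _ = D.h ^ 3900 * d := by ring
        _ ≤ D.h ^ 4000 * d :=
          mul_le_mul_of_nonneg_right (pow_le_pow_right₀ hh (by norm_num)) hd0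
        _ ≤ 1 := hd1
    · right
      calc D.h ^ 2000 * |lam| ≤ D.h ^ 2000 * env θ := by gcongr
        _ ≤ 1 := not_lt.1 hcase
  exact LevD.kstep h hK1 hA ht hM' (hlam1.trans (hlink.env_le θ))
    (by positivity) (by rw [hε, mul_inv_cancel₀ hp.ne']) hseed hMnear hlink.K_ne
    (hle _ hlink.K_near) hz

/-! ### From `KLB` to the Fourier side -/

theorem cx_eq_ofC (x : E3) : S.cx x = ofC x := by
  ext j
  rw [ofC_apply]
  rfl

/-- The propagator of the wave at all labels (input of C05). -/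
theorem KLB.phi_le {T E T0 r R : ℝ} {l : ℕ} {K : ℕ → Fin 3 → ℤ} {α : ℝ → ℝ}
    {X U A' : ℝ → Md → C3} {p : ℝ → Md → ℂ} {F Fi M : ℝ → Md → Mat}
    (hL : A.Lvl K T0 r R l X U A' p F Fi M) (hT : 0 < T) (hT0 : T ≤ T0) (hE : 0 ≤ E)
    (hα : ∀ t ∈ Icc 0 T, 0 < α t) {k : Fin 3 → ℤ} {s : ℝ → Md → ℂ}
    (hs : ∀ t ∈ Icc 0 T, Summable fun q => ‖s t q‖)
    (hse : ∀ t ∈ Icc 0 T, mul (mm (scF (s t)) (rwF (kv k) (Fi t))) (kcF (kv k) (Fi t)) =
      fun q => if q = 0 then 1 else 0)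
    (h : KLB T E α M k) {Φ : ℝ → ℝ → Md → Mat}
    (hΦ : ∀ s' ∈ Icc 0 T, ∀ t ∈ Icc 0 T, ∀ θ : Md →+ ℝ,
      HasDerivWithinAt (fun t => ev θ (Φ t s'))
        ((ev θ (genK (pF (kv k) (Fi t) (s t)) (M t))).comp (ev θ (Φ t s'))) (Icc 0 T) t)
    (hΦ0 : ∀ s' ∈ Icc 0 T, ∀ θ : Md →+ ℝ, ev θ (Φ s' s') = ContinuousLinearMap.id ℂ C3)
    (θ : Md →+ ℝ) :
    ∀ s' ∈ Icc 0 T, ∀ t ∈ Icc s' T, ‖ev θ (Φ t s')‖ ≤ E * (α t / α s') := by
  have hd4 := d4 K T0 r R l X U A' p F Fi M hL T hT hT0 θ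
  have hb1 := KDict.BD.of_nrm hL.c_pos.le hL.M_fin
  have hb2 := KDict.BD.of_nrm hL.c_pos.le hL.Fi_fin
  refine c06 T E α θ (fun t => genK (pF (kv k) (Fi t) (s t)) (M t)) Φ
    (kelG (rMt θ T M) (kR k)) hT hα hE (fun t ht x => ?_) (h θ).kb
    (fun s' hs' t ht => hΦ s' hs' t ht θ) (fun s' hs' => hΦ0 s' hs' θ)
  have ht0 : t ∈ Icc 0 T0 := ⟨ht.1, ht.2.trans hT0⟩
  rw [cx_eq_ofC, cx_eq_ofC, d5 θ k (Fi t) (M t) (s t) (hb2.sum ht0) (hb1.sum ht0) (hs t ht)
    (hL.Fi_even t ht0).1 (hL.M_even t ht0).1 (hse t ht) x, kelG, ← hd4.2.2.1 (kR k) t ht,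
    rMt_eq ht]

end Pool.Agent.Work.MP_b0497c_an.Unf.K

end
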