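import Pool.Agent.Work.MP_b0497c_an.Unf.B2
import Pool.Agent.Work.MP_b0497c_an.Unf.P6
import Pool.Agent.Work.MP_b0497c_an.Unf.WinB
import Pool.Agent.Work.MP_b0497c_an.Unf.ONext
import Pool.Agent.Work.MP_b0497c_an.Unf.B1
import Pool.Agent.Work.MP_b0497c_an.Unf.KDefs
import Pool.Agent.Work.MP_b0497c_an.Unf.B3

/-! Bundle of small proof modules (one section per former module). -/

section

set_option autoImplicit false

/-!
# Base of the construction: the numbers
-/

namespace Pool.Agent.Work.MP_b0497c_an.Unf.B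

open P

section

variable {c0 x : ℝ}

theorem cn_le_100 (B : Big c0 x) : cn x 1 ≤ 1 / 100 := by
  have h1 := B.cn_le_one 1
  have h2 := cn_pos x 1
  norm_num at h1 ⊢
  linarith

theorem bb_big (B : Big c0 x) : (10 : ℝ) ^ 20 ≤ bb x 1 := by
  have h1 := B.ell_ge 2
  have h2 : (10 : ℝ) ^ 100 ≤ bb x 1 := by
    refine B.num_exp ?_
    show (10 : ℝ) ^ 9 ≤ _ * ell x (1 + 1)
    have h3 : ell x (1 + 1) = ell x 2 := rfl
    rw [h3]
    linarith
  exact le_trans (by norm_num) h2

/-- the numbers of level 1 -/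
theorem num_base (B : Big c0 x) {t1 : ℝ} (h1 : 1 / 40 ≤ t1) (h2 : t1 ≤ 3 / 7)
    (hf : |hh x 1 ^ 24 * (1 - (6 + 5 * cn x 1) * gG (cn x 1) (-t1))| ≤ 1) :
    Num (cn x 1) t1 (bb x 1) (hh x 1) (P.k0 x 1) (k2f x 1) := by
  have hc := cn_pos x 1
  have hlo : cn x 1 / 2 ≤ cn x 1 := by linarith
  have hhi : cn x 1 ≤ 2 * cn x 1 := by linarith
  have hck2 := B.ck2 hlo
  have heta := B.eta_tiny hlo hhi
  refine
    { c_pos := hc
      c_le := cn_le_100 B
      c_ge := B.c_ge hlo
      b_ge := bb_big B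
      h_ge := B.h_ge_b 1
      k0_ge := B.k0_ge 1
      k0_le := B.k0_le_b 1
      k2_ge := le_trans (by norm_num) (B.k2f_ge 1)
      k2_le := B.k2_le_h 1
      ck0 := B.c_k0_le hhi
      ck2 := le_trans (by norm_num) hck2
      eta_le := ?_
      t1_ge := h1
      t1_le := h2
      f0 := hf
      ck0sq := (B.ck0sq hhi).trans (by norm_num) }
  have h3 : eta x 1 (cn x 1) ≤ 1 / 10 ^ 4 := heta.trans (by norm_num)
  rw [eta, one_div (hh x 1)] at h3
  exact h3

/-- the wave number of level 1 beats the amplitude -/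
theorem exp_L1 (B : Big c0 x) : 100 * hh x 1 ^ 24 ≤ Real.exp (Lr x 1) := by
  have h1 := B.exp 1
  have hC := B.C_one
  have hp := B.ell_pos 1
  have hg := B.ell_ge' 1
  have e3 : ell x 3 = ell x 1 ^ 4 := by
    have := ell_add x 1 2
    simpa using this
  have e4 : hh x 1 ^ 24 = Real.exp (144 * ell x 3) := by
    rw [hh, ← Real.exp_nat_mul]
    congr 1
    show _ * (6 * ell x (1 + 2)) = _
    push_cast
    ring
  have e5 : (100 : ℝ) ≤ Real.exp (ell x 3) := by
    have h2 := B.num_exp (B.ell_ge 3)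
    exact le_trans (by norm_num) h2
  rw [e4]
  calc 100 * Real.exp (144 * ell x 3) ≤ Real.exp (ell x 3) * Real.exp (144 * ell x 3) := by gcongr
    _ = Real.exp (145 * ell x 3) := by
      rw [← Real.exp_add]
      ring_nf
    _ ≤ Real.exp (Lr x 1) := by
      apply Real.exp_le_exp.2
      refine le_trans ?_ h1
      rw [e3]
      have h5 : (1 : ℝ) ≤ ell x 1 := le_trans (by norm_num) hg
      have h6 : ell x 1 ^ 4 ≤ ell x 1 ^ 64 := pow_le_pow_right₀ h5 (by norm_num)
      have h7 : (145 : ℝ) ≤ 10 ^ 30 * c0 := by nlinarith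
      exact mul_le_mul h7 h6 (by positivity) (by positivity)

end

end Pool.Agent.Work.MP_b0497c_an.Unf.B

end

section

set_option autoImplicit false

/-!
# N1w of `ONext`
-/

open Set ContinuousLinearMap RealInnerProductSpace

namespace Pool.Agent.Work.MP_b0497c_an.Unf.O

open LevD

theorem n1w : N1w := by
  intro D b' h _ t hT ht
  have hb := h.b_ge
  have hb0 := h.b0
  have hn : D.Nr b' t := by
    unfold Nr
    rw [le_div_iff₀ (by positivity)] at ht
    linarith
  refine (h.g_rel hT hn).trans ?_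
  have h1 := h.ack_pos
  have h2 : 0 ≤ D.a * D.c * D.kap * (t - D.t0) ^ 2 := by positivity
  apply mul_le_mul_of_nonneg_right _ h2
  unfold er1
  apply mul_le_mul_of_nonneg_right _ (abs_nonneg _)
  have h3 : (10 : ℝ) ^ 2 ≤ b' ^ 2 := pow_le_pow_left₀ (by norm_num) hb 2
  have h4 : 0 < b' ^ 3 := by positivity
  have h5 : b' ^ 5 = b' ^ 3 * b' ^ 2 := by ring
  rw [h5]
  nlinarith

end Pool.Agent.Work.MP_b0497c_an.Unf.O

end

section

set_option autoImplicit false

/-!
# Base: the rational time `t₁` and the wave vector of the first wave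
-/

open Set ContinuousLinearMap RealInnerProductSpace

namespace Pool.Agent.Work.MP_b0497c_an.Unf.B

open Unf.K (kR)

theorem exists_t1 {c a E : ℝ} (hc : 0 < c) (hc' : c ≤ 1 / 100) (ha : 1 ≤ a) (hE : 100 * a ≤ E) :
    ∃ (t1 : ℝ) (k : Fin 3 → ℤ), 1 / 40 ≤ t1 ∧ t1 ≤ 3 / 7 ∧
      |a * (1 - (6 + 5 * c) * gG c (-t1))| ≤ 1 ∧ E / 2 ≤ ‖kR k‖ ∧ ‖kR k‖ ≤ E ∧ kR k ≠ 0 ∧
      (‖ee2 + t1 • Kz‖)⁻¹ • (ee2 + t1 • Kz) = (‖kR k‖)⁻¹ • kR k := by
  obtain ⟨τ, h1, h2, h3⟩ := exists_root hc hc'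
  obtain ⟨Q, hQ1, hQ2⟩ : ∃ Q : ℕ, 40 * a ≤ (Q : ℝ) ∧ (Q : ℝ) < 40 * a + 1 :=
    ⟨⌈40 * a⌉₊, Nat.le_ceil _, Nat.ceil_lt_add_one (by positivity)⟩
  have hQ0 : (0 : ℝ) < Q := by linarith
  have hQτ : 0 ≤ (Q : ℝ) * τ := by positivity
  obtain ⟨P, hP1, hP2⟩ : ∃ P : ℕ, (P : ℝ) ≤ Q * τ ∧ (Q : ℝ) * τ < P + 1 :=
    ⟨⌊(Q : ℝ) * τ⌋₊, Nat.floor_le hQτ, Nat.lt_floor_add_one _⟩
  obtain ⟨t1, ht1⟩ : ∃ t1 : ℝ, t1 = P / Q := ⟨_, rfl⟩
  have hPQ : (P : ℝ) = Q * t1 := by
    rw [ht1]
    field_simp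
  have e1 : t1 ≤ τ := by
    rw [ht1, div_le_iff₀ hQ0]
    linarith
  have e2 : (Q : ℝ) * (τ - t1) ≤ 1 := by
    rw [mul_sub, ← hPQ]
    linarith
  have e3 : a * (τ - t1) ≤ 1 / 40 := by
    have h4 : 0 ≤ τ - t1 := by linarith
    nlinarith
  have e4 : τ - t1 ≤ 1 / 40 := by
    have h4 : 0 ≤ τ - t1 := by linarith
    nlinarith
  have e5 : 1 / 40 ≤ t1 := by linarith
  have e6 : t1 ≤ 3 / 7 := by linarith
  -- the vector
  have hl : ee2 + t1 • Kz = nn (-t1) := by
    rw [nn, neg_smul, sub_neg_eq_add]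
  have hl2 : ‖ee2 + t1 • Kz‖ ^ 2 = q (-t1) := by rw [hl, norm_nn_sq]
  have hl1 : ‖ee2 + t1 • Kz‖ ≤ 1 := by
    have h4 := q_le (y := -t1) (by linarith) (by linarith)
    have h5 := norm_nonneg (ee2 + t1 • Kz)
    nlinarith
  have hl0 : 0 < ‖ee2 + t1 • Kz‖ := by
    have h4 := q_pos (-t1)
    rw [← hl2] at h4
    have h5 := norm_nonneg (ee2 + t1 • Kz)
    rcases h5.eq_or_lt with h6 | h6
    · rw [← h6] at h4
      norm_num at h4
    · exact h6
  generalize hL : ‖ee2 + t1 • Kz‖ = L at hl1 hl0 hl2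
  have hQL : 0 < (Q : ℝ) * L := by positivity
  have hQL1 : (Q : ℝ) * L ≤ 41 * a := by nlinarith
  have hE0 : 0 ≤ E / (Q * L) := by
    have : 0 ≤ E := by linarith
    positivity
  obtain ⟨m, hm1, hm2⟩ : ∃ m : ℕ, (m : ℝ) ≤ E / (Q * L) ∧ E / (Q * L) < m + 1 :=
    ⟨⌊E / (Q * L)⌋₊, Nat.floor_le hE0, Nat.lt_floor_add_one _⟩
  rw [le_div_iff₀ hQL] at hm1
  rw [div_lt_iff₀ hQL] at hm2
  have hk : kR ![(m : ℤ) * P, (m : ℤ) * (Q - 3 * P), -2 * m * P] =
      ((m : ℝ) * Q) • (ee2 + t1 • Kz) := by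
    ext i
    fin_cases i
    · simp [kR, ee2, Kz, hPQ]
      ring
    · simp [kR, ee2, Kz, hPQ]
      ring
    · simp [kR, ee2, Kz, hPQ]
      ring
  have hkn : ‖kR ![(m : ℤ) * P, (m : ℤ) * (Q - 3 * P), -2 * m * P]‖ = m * (Q * L) := by
    rw [hk, norm_smul, hL, Real.norm_of_nonneg (by positivity)]
    ring
  have hm0 : 0 < (m : ℝ) := by
    by_contra h
    have h5 : (m : ℝ) ≤ 0 := not_lt.1 h
    have h6 : 0 ≤ (m : ℝ) := m.cast_nonneg
    have h7 : (m : ℝ) = 0 := le_antisymm h5 h6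
    rw [h7] at hm2
    linarith
  refine ⟨t1, ![(m : ℤ) * P, (m : ℤ) * (Q - 3 * P), -2 * m * P], e5, e6, ?_, ?_, ?_, ?_, ?_⟩
  · have h4 := gG_lip hc hc' (y := -τ) (y' := -t1) ⟨by linarith, by linarith⟩
      ⟨by linarith, by linarith⟩
    have h5 : |-τ - -t1| = τ - t1 := by
      rw [show -τ - -t1 = -(τ - t1) by ring, abs_neg, abs_of_nonneg (by linarith)]
    rw [h5] at h4
    have h6 : 1 - (6 + 5 * c) * gG c (-t1) = (6 + 5 * c) * (gG c (-τ) - gG c (-t1)) := by
      rw [mul_sub, h3]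
    rw [h6, abs_mul, abs_mul, abs_of_pos (by linarith : 0 < a), abs_of_pos (by positivity)]
    have h7 := abs_nonneg (gG c (-τ) - gG c (-t1))
    calc a * ((6 + 5 * c) * |gG c (-τ) - gG c (-t1)|)
        ≤ a * (121 / 20 * (5 * (τ - t1))) := by
          refine mul_le_mul_of_nonneg_left ?_ (by linarith)
          exact mul_le_mul (by linarith) h4 h7 (by norm_num)
      _ = 121 / 4 * (a * (τ - t1)) := by ring
      _ ≤ 1 := by linarith
  · rw [hkn]
    linarith
  · rw [hkn]
    exact hm1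
  · intro h
    rw [h, norm_zero] at hkn
    have : 0 < (m : ℝ) * (Q * L) := by positivity
    linarith
  · rw [hkn, hk, hL, smul_smul]
    congr 1
    have : (m : ℝ) ≠ 0 := hm0.ne'
    field_simp

end Pool.Agent.Work.MP_b0497c_an.Unf.B

end

section

set_option autoImplicit false

/-!
# Base (A0): `Lvl` at level 0
-/

open scoped ENNReal
open Set

namespace Pool.Agent.Work.MP_b0497c_an.Unf.B

open W S A

theorem cjv_apply (v : C3) (i : Fin 3) : cjv v i = starRingEnd ℂ (v i) := rfl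

theorem cjv_smul (z : ℂ) (v : C3) : cjv (z • v) = starRingEnd ℂ z • cjv v := by
  ext i
  simp [cjv_apply]

theorem cjv_dC (c : ℝ) : cjv (dC c) = dC c := by
  ext i
  simp [cjv_apply, dC]

theorem inner_cjv (x : C3) : (inner ℂ (kv KZ) (cjv x) : ℂ) = starRingEnd ℂ (inner ℂ (kv KZ) x) := by
  rw [PiLp.inner_apply, PiLp.inner_apply, Fin.sum_univ_three, Fin.sum_univ_three]
  simp only [RCLike.inner_apply, kv_KZ, Complex.conj_ofReal, cjv_apply, map_add, map_mul]

/-- the matrix commutes with the conjugation -/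
def cjC (a : Mat) : Prop := ∀ v, a (cjv v) = cjv (a v)

theorem cjC_Ac (c : ℝ) : cjC (Ac c) := by
  intro x
  rw [Ac_apply, Ac_apply, cjv_smul, cjv_dC, inner_cjv]

theorem cjC_smul {a : Mat} (h : cjC a) (s : ℝ) : cjC ((s : ℂ) • a) := by
  intro x
  rw [_root_.smul_apply, _root_.smul_apply, cjv_smul, Complex.conj_ofReal, h x]

theorem cjC_add {a b : Mat} (h : cjC a) (h' : cjC b) : cjC (a + b) := by
  intro x
  rw [_root_.add_apply, _root_.add_apply, h x, h' x]
  ext i
  simp [cjv_apply]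

theorem cjC_zero : cjC 0 := by
  intro x
  ext i
  simp [cjv_apply]

theorem cjC_id : cjC (ContinuousLinearMap.id ℂ C3) := by
  intro x
  ext i
  simp

theorem conj_I2 : starRingEnd ℂ (Complex.I / 2) = -(Complex.I / 2) := by
  have h2 : starRingEnd ℂ (2 : ℂ) = 2 := by
    have := Complex.conj_ofReal 2
    push_cast at this
    exact this
  rw [map_div₀, Complex.conj_I, h2, neg_div]

theorem U0_neg (c : ℝ) (q : Md) : U0 c (-q) = -U0 c q := by
  by_cases h1 : q = e0
  · subst h1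
    have e1 : U0 c e0 = (-(Complex.I / 2)) • dC c := if_pos rfl
    have e2 : U0 c (-e0) = (Complex.I / 2) • dC c := by
      unfold U0
      rw [if_neg neg_e0_ne, if_pos rfl]
    rw [e1, e2, neg_smul, neg_neg]
  by_cases h2 : q = -e0
  · subst h2
    have e1 : U0 c (- -e0) = (-(Complex.I / 2)) • dC c := by
      rw [neg_neg]
      exact if_pos rfl
    have e2 : U0 c (-e0) = (Complex.I / 2) • dC c := by
      unfold U0
      rw [if_neg neg_e0_ne, if_pos rfl]
    rw [e1, e2]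
    exact neg_smul _ _
  · have e1 : U0 c q = 0 := by
      unfold U0
      rw [if_neg h1, if_neg h2]
    have e2 : U0 c (-q) = 0 := by
      unfold U0
      rw [if_neg, if_neg]
      · intro h
        exact h1 (neg_injective h)
      · intro h
        exact h2 (by rw [← h, neg_neg])
    rw [e1, e2, neg_zero]

theorem U0_conj (c : ℝ) (q : Md) : cjv (U0 c q) = -U0 c q := by
  unfold U0
  split_ifs
  · rw [cjv_smul, cjv_dC, map_neg, conj_I2, neg_smul]
  · rw [cjv_smul, cjv_dC, conj_I2, neg_smul]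
  · ext i
    simp [cjv_apply]

theorem U0_odd (c : ℝ) : OddV (U0 c) :=
  ⟨fun q => by rw [U0_neg, U0_conj], fun q => U0_neg c q⟩

theorem M0_even' (c : ℝ) (q : Md) : M0 c (-q) = M0 c q := by
  unfold M0
  by_cases h : q = e0 ∨ q = -e0
  · rw [if_pos h, if_pos]
    rcases h with rfl | rfl
    · right
      rfl
    · left
      rw [neg_neg]
  · rw [if_neg h, if_neg]
    rintro (h1 | h1)
    · exact h (Or.inr (by rw [← h1, neg_neg]))
    · exact h (Or.inl (neg_injective h1))

theorem M0_cj (c : ℝ) (q : Md) : cjC (M0 c q) := by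
  unfold M0
  split_ifs
  · have := cjC_smul (cjC_Ac c) (1 / 2)
    push_cast at this
    exact this
  · exact cjC_zero

theorem oneM_neg (q : Md) : oneM (-q) = oneM q := by
  unfold oneM
  simp [neg_eq_zero]

theorem oneM_cj (q : Md) : cjC (oneM q) := by
  unfold oneM
  split_ifs
  · exact cjC_id
  · exact cjC_zero

theorem M0_even (c : ℝ) : EvenM (M0 c) :=
  ⟨fun q v => by rw [M0_even']; exact M0_cj c q v, M0_even' c⟩

theorem F0_neg (c t : ℝ) (q : Md) : F0 c t (-q) = F0 c t q := by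
  show oneM (-q) + (t : ℂ) • M0 c (-q) = oneM q + (t : ℂ) • M0 c q
  rw [oneM_neg, M0_even']

theorem F0_even (c t : ℝ) : EvenM (F0 c t) :=
  ⟨fun q v => by rw [F0_neg]; exact cjC_add (oneM_cj q) (cjC_smul (M0_cj c q) t) v, F0_neg c t⟩

theorem Fi0_eq (c t : ℝ) : Fi0 c t = F0 c (-t) := by
  funext q
  show oneM q - (t : ℂ) • M0 c q = oneM q + ((-t : ℝ) : ℂ) • M0 c q
  ext1 x
  simp [sub_eq_add_neg]

theorem F0_supp (c t : ℝ) : SuppIn (lev 0 : Set Md) (F0 c t) := by
  intro q hq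
  show oneM q + (t : ℂ) • M0 c q = 0
  rw [supp_oneM q hq, supp_M0 c q hq]
  ext1 x
  simp

theorem F0_cm (c T : ℝ) : CM T (F0 c) := by
  intro m
  have h : Continuous fun t : ℝ => oneM m + (t : ℂ) • M0 c m :=
    continuous_const.add (Complex.continuous_ofReal.smul continuous_const)
  exact h.continuousOn

/-- `mm (a + s M₀) (b + r M₀)` for `a, b ∈ {0, 1}` -/
theorem mm_F0_F0 (c s t : ℝ) : mm (F0 c s) (F0 c t) = F0 c (s + t) := by
  funext q
  have hM : ∀ a b : Md, (M0 c a).comp (M0 c b) = 0 := by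
    intro a b
    unfold M0
    split_ifs
    · ext1 x
      simp [Ac_apply, inner_KZ_dC]
    · ext1 x
      simp
    · ext1 x
      simp
    · ext1 x
      simp
  show (∑' l, (F0 c s (q - l)).comp (F0 c t l)) = _
  have hterm : ∀ l, (F0 c s (q - l)).comp (F0 c t l) =
      (if l = q then F0 c t q else 0) + (if l = 0 then (s : ℂ) • M0 c q else 0) := by
    intro l
    have e1 : (F0 c s (q - l)).comp (F0 c t l) = (oneM (q - l)).comp (F0 c t l) +
        (s : ℂ) • (M0 c (q - l)).comp (oneM l) := by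
      have e2 := hM (q - l) l
      ext1 x
      have e3 : M0 c (q - l) (M0 c l x) = 0 := by
        have := congrArg (fun A : Mat => A x) e2
        simpa using this
      simp [F0, e3]
      abel
    rw [e1]
    congr 1
    · by_cases h : l = q
      · subst h
        rw [if_pos rfl, sub_self]
        ext1 x
        simp [oneM]
      · rw [if_neg h]
        have : q - l ≠ 0 := sub_ne_zero.2 fun h' => h h'.symm
        ext1 x
        simp [oneM, this]
    · by_cases h : l = 0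
      · subst h
        rw [if_pos rfl, sub_zero]
        ext1 x
        simp [oneM]
      · rw [if_neg h]
        ext1 x
        simp [oneM, h]
  have hs1 : Summable fun l => if l = q then F0 c t q else (0 : Mat) :=
    (hasSum_ite_eq q (F0 c t q)).summable
  have hs2 : Summable fun l : Md => if l = 0 then (s : ℂ) • M0 c q else (0 : Mat) :=
    (hasSum_ite_eq (0 : Md) ((s : ℂ) • M0 c q)).summable
  rw [tsum_congr hterm, hs1.tsum_add hs2, tsum_ite_eq, tsum_ite_eq]
  ext1 x
  simp [F0, add_smul]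
  abel

theorem mm_M0_F0 (c t : ℝ) : mm (M0 c) (F0 c t) = M0 c := by
  funext q
  show (∑' l, (M0 c (q - l)).comp (F0 c t l)) = _
  have hM : ∀ a b : Md, (M0 c a).comp (M0 c b) = 0 := by
    intro a b
    unfold M0
    split_ifs
    · ext1 x
      simp [Ac_apply, inner_KZ_dC]
    · ext1 x
      simp
    · ext1 x
      simp
    · ext1 x
      simp
  have hterm : ∀ l, (M0 c (q - l)).comp (F0 c t l) = if l = 0 then M0 c q else 0 := by
    intro l
    have e2 := hM (q - l) l
    by_cases h : l = 0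
    · subst h
      rw [if_pos rfl, sub_zero]
      rw [sub_zero] at e2
      ext1 x
      have e3 : M0 c q (M0 c 0 x) = 0 := by
        have := congrArg (fun A : Mat => A x) e2
        simpa using this
      simp [F0, oneM, e3]
    · rw [if_neg h]
      ext1 x
      have e3 : M0 c (q - l) (M0 c l x) = 0 := by
        have := congrArg (fun A : Mat => A x) e2
        simpa using this
      simp [F0, oneM, h, e3]
  rw [tsum_congr hterm, tsum_ite_eq]

theorem mm_F0_M0 (c t : ℝ) : mm (F0 c t) (M0 c) = M0 c := by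
  funext q
  show (∑' l, (F0 c t (q - l)).comp (M0 c l)) = _
  have hM : ∀ a b : Md, (M0 c a).comp (M0 c b) = 0 := by
    intro a b
    unfold M0
    split_ifs
    · ext1 x
      simp [Ac_apply, inner_KZ_dC]
    · ext1 x
      simp
    · ext1 x
      simp
    · ext1 x
      simp
  have hterm : ∀ l, (F0 c t (q - l)).comp (M0 c l) = if l = q then M0 c q else 0 := by
    intro l
    have e2 := hM (q - l) l
    by_cases h : l = q
    · subst h
      rw [if_pos rfl, sub_self]
      rw [sub_self] at e2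
      ext1 x
      have e3 : M0 c 0 (M0 c l x) = 0 := by
        have := congrArg (fun A : Mat => A x) e2
        simpa using this
      simp [F0, oneM, e3]
    · rw [if_neg h]
      have h' : q - l ≠ 0 := sub_ne_zero.2 fun h' => h h'.symm
      ext1 x
      have e3 : M0 c (q - l) (M0 c l x) = 0 := by
        have := congrArg (fun A : Mat => A x) e2
        simpa using this
      simp [F0, oneM, h', e3]
  rw [tsum_congr hterm, tsum_ite_eq]

theorem F0_der (c : ℝ) (q : Md) (s : Set ℝ) (t : ℝ) :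
    HasDerivWithinAt (fun t => F0 c t q) (M0 c q) s t := by
  have h1 : HasDerivAt (fun t : ℝ => (t : ℂ)) 1 t := Complex.ofRealCLM.hasDerivAt
  have h2 := (h1.smul_const (M0 c q)).const_add (oneM q)
  refine (h2.congr_deriv ?_).hasDerivWithinAt
  ext1 x
  simp

theorem Fi0_der (c : ℝ) (q : Md) (s : Set ℝ) (t : ℝ) :
    HasDerivWithinAt (fun t => Fi0 c t q) (-(M0 c q)) s t := by
  have h1 : HasDerivAt (fun t : ℝ => (t : ℂ)) 1 t := Complex.ofRealCLM.hasDerivAt
  have h2 := (h1.smul_const (M0 c q)).const_sub (oneM q)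
  refine (h2.congr_deriv ?_).hasDerivWithinAt
  ext1 x
  simp

/-- **Level 0.** -/
theorem lvl0 {K : ℕ → Fin 3 → ℤ} (hK : K 0 = KZ) {c T : ℝ} (hc : 0 < c) (hc' : c ≤ 1 / 100)
    (hT0 : 0 < T) (hT : T ≤ 1) :
    Lvl K T 1 40 0 (fun t => (t : ℂ) • U0 c) (fun _ => U0 c) (fun _ => 0) (fun _ => 0) (F0 c) (Fi0 c)
      (fun _ => M0 c) where
  s_pos := hT0
  c_pos := one_pos
  x_supp t _ q hq := by
    show (t : ℂ) • U0 c q = 0
    rw [supp_U0 c q hq, smul_zero]
  U_supp t _ := supp_U0 c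
  A_supp t _ q _ := rfl
  r_supp t _ q _ := rfl
  x_fin := ne_top_of_le_ne_top (sN_U0 le_rfl) (Nrm_le_sN (g := U0 c) fun t ht q =>
    enorm_smul_le hT ht _)
  U_fin := ne_top_of_le_ne_top (sN_U0 le_rfl) (Nrm_le_sN (g := U0 c) fun t _ q => le_rfl)
  A_fin := by
    have : Nrm T 1 0 Dat.one' (fun _ => (0 : Md → C3)) ≤ sN 1 (0 : Md → C3) :=
      Nrm_le_sN fun t _ q => le_rfl
    exact ne_top_of_le_ne_top fin_zero this
  r_fin := by
    have : Nrm T 1 0 Dat.one' (fun _ => (0 : Md → ℂ)) ≤ sN 1 (0 : Md → ℂ) :=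
      Nrm_le_sN fun t _ q => le_rfl
    exact ne_top_of_le_ne_top fin_zero this
  F_fin := by
    have h := Nrm_F0 (r := 1) hc hc' hT le_rfl (s := 1) (Or.inl rfl)
    simp only [one_mul] at h
    exact ne_top_of_le_ne_top ENNReal.ofReal_ne_top h
  Fi_fin := by
    have h := Nrm_F0 (r := 1) hc hc' hT le_rfl (s := -1) (Or.inr rfl)
    have e : (fun t : ℝ => oneM + (-1 * (t : ℂ)) • M0 c) = Fi0 c := by
      funext t q
      show oneM q + (-1 * (t : ℂ)) • M0 c q = oneM q - (t : ℂ) • M0 c q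
      ext1 x
      simp [sub_eq_add_neg]
    rw [e] at h
    exact ne_top_of_le_ne_top ENNReal.ofReal_ne_top h
  M_fin := ne_top_of_le_ne_top ENNReal.ofReal_ne_top
    ((Nrm_le_sN (g := M0 c) fun t _ q => le_rfl).trans (sN_M0 hc hc' le_rfl))
  x_cm m := (Complex.continuous_ofReal.smul continuous_const).continuousOn
  U_cm m := continuousOn_const
  A_cm m := continuousOn_const
  x_der q t _ := by
    have h1 : HasDerivAt (fun t : ℝ => (t : ℂ)) 1 t := Complex.ofRealCLM.hasDerivAt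
    have h2 := h1.smul_const (U0 c q)
    rw [one_smul] at h2
    exact h2.hasDerivWithinAt
  U_der q t _ := hasDerivWithinAt_const _ _ _
  x_zero := by
    funext q
    simp
  x_real t _ q := by
    show (t : ℂ) • U0 c (-q) = cjv ((t : ℂ) • U0 c q)
    rw [cjv_smul, Complex.conj_ofReal, U0_conj, U0_neg]
  F_eq t _ := by
    have : gradV K ((t : ℂ) • U0 c) = (t : ℂ) • M0 c := by
      rw [← gradV_U0 hK]
      funext q
      ext1 x
      simp only [gradV, Pi.smul_apply, _root_.smul_apply, ContinuousLinearMap.smulRight_apply]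
      rw [smul_comm _ (t : ℂ), smul_comm Complex.I (t : ℂ)]
    show F0 c t = oneM + gradV K ((t : ℂ) • U0 c)
    rw [this]
    rfl
  F_der q t _ := by
    rw [mm_M0_F0]
    exact F0_der c q _ t
  tr_M t _ q := by
    unfold M0
    split_ifs
    · have : (((1 / 2 : ℂ) • Ac c : Mat) : C3 →ₗ[ℂ] C3) = (1 / 2 : ℂ) • (Ac c : C3 →ₗ[ℂ] C3) := rfl
      rw [this, map_smul, Ac_trace, smul_zero]
    · exact map_zero _
  inv t _ := by
    rw [Fi0_eq, mm_F0_F0, neg_add_cancel, F0_zero]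
  mom t _ := by
    have h : gradS K (0 : Md → ℂ) = 0 := by
      funext q
      simp [gradS]
    rw [h]
    have h2 : mul (adjC (Fi0 c t)) (0 : Md → C3) = 0 := act_zero _
    rw [h2, neg_zero]
  T_le := hT
  r_le := le_rfl
  R_two := by norm_num
  r_R := by norm_num
  p_cm m := continuousOn_const
  F_cm := F0_cm c T
  Fi_cm m := by
    have h : Continuous fun t : ℝ => oneM m - (t : ℂ) • M0 c m :=
      continuous_const.sub (Complex.continuous_ofReal.smul continuous_const)
    exact h.continuousOn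
  M_cm m := continuousOn_const
  F_supp t _ := F0_supp c t
  Fi_supp t _ := by
    rw [Fi0_eq]
    exact F0_supp c _
  M_supp t _ := supp_M0 c
  F_le := by
    have h := Nrm_F0 (r := 1) hc hc' hT le_rfl (s := 1) (Or.inl rfl)
    simp only [one_mul] at h
    exact h
  Fi_le := by
    have h := Nrm_F0 (r := 1) hc hc' hT le_rfl (s := -1) (Or.inr rfl)
    have e : (fun t : ℝ => oneM + (-1 * (t : ℂ)) • M0 c) = Fi0 c := by
      funext t q
      show oneM q + (-1 * (t : ℂ)) • M0 c q = oneM q - (t : ℂ) • M0 c q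
      ext1 x
      simp [sub_eq_add_neg]
    rw [e] at h
    exact h
  M_le := ((Nrm_le_sN (g := M0 c) fun t _ q => le_rfl).trans (sN_M0 hc hc' le_rfl)).trans
    (ENNReal.ofReal_le_ofReal (by norm_num))
  X_odd t _ := ⟨fun q => by
    show (t : ℂ) • U0 c (-q) = cjv ((t : ℂ) • U0 c q)
    rw [cjv_smul, Complex.conj_ofReal, U0_conj, U0_neg], fun q => by
    show (t : ℂ) • U0 c (-q) = -((t : ℂ) • U0 c q)
    rw [U0_neg, smul_neg]⟩
  U_odd t _ := U0_odd c
  A_odd t _ := ⟨fun q => by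
    ext i
    simp [cjv_apply], fun q => by simp⟩
  p_even t _ := ⟨fun q => by simp, fun q => rfl⟩
  F_even t _ := F0_even c t
  Fi_even t _ := by
    rw [Fi0_eq]
    exact F0_even c _
  M_even t _ := M0_even c
  Fi_der q t _ := by
    rw [Fi0_eq, mm_F0_M0]
    exact Fi0_der c q _ t
  MF_eq t _ := by
    rw [mm_M0_F0, gradV_U0 hK]
  FFi t _ := by
    rw [Fi0_eq, mm_F0_F0, add_neg_cancel, F0_zero]

end Pool.Agent.Work.MP_b0497c_an.Unf.B

end
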