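import Pool.Agent.Work.MP_b0497c_an.Unf.S24F
import Pool.Agent.Work.MP_b0497c_an.Unf.A00

/-! Bundle of small proof modules (one section per former module). -/

section

set_option autoImplicit false
set_option linter.unusedVariables false
set_option linter.unusedSectionVars false

/-!
# S24: the fixed point
-/

open scoped ENNReal
open Set MeasureTheory

namespace Pool.Agent.Work.MP_b0497c_an.Unf.S

open W

namespace FPt

variable {D : Dat} {ρ : ℕ → ℝ → ℝ} {Str : ℝ → ℝ}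

theorem outerB_apply (w v x : C3) : outerB w v x = bdot v x • w := rfl

theorem bdot_apply (v x : C3) : bdot v x = ∑ i : Fin 3, v i * x i := by
  unfold bdot
  simp

theorem bdot_kv (v : C3) (k : Fin 3 → ℤ) : bdot v (kv k) = innerSL ℂ (kv k) v := by
  rw [bdot_apply, innerSL_apply_apply, PiLp.inner_apply]
  refine Finset.sum_congr rfl fun i _ => ?_
  have : (kv k) i = (k i : ℂ) := rfl
  rw [this]
  simp [mul_comm]

theorem Nrm_smul {E : Type} [NormedAddCommGroup E] [NormedSpace ℂ E] {T c γ : ℝ} {σ : ℝ → ℝ}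
    (z : ℂ) (f : ℝ → Md → E) : Nrm T c γ σ (fun t => z • f t) = ‖z‖ₑ * Nrm T c γ σ f := by
  unfold Nrm
  rw [← ENNReal.tsum_mul_left]
  congr 1
  funext q
  simp only [ENNReal.mul_iSup]
  refine iSup_congr fun t => iSup_congr fun ht => ?_
  rw [Pi.smul_apply, enorm_smul]
  ring

/-- `k · f = K · (F⁻¹ f)`. -/
theorem mul_rwF (k : C3) {Fi : Md → Mat} {f : Md → C3} (h1 : sN 0 Fi ≠ ∞) (h2 : sN 0 f ≠ ∞)
    (q : Md) : mul (rwF k Fi) f q = innerSL ℂ k (mul Fi f q) := by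
  have hs : Summable fun l => (Fi (q - l)) (f l) :=
    summable_conv (ContinuousLinearMap.id ℂ Mat) h1 h2 q
  have h := (innerSL ℂ k).map_tsum hs
  exact h.symm

/-- The `(k · w) w'` form of the transport term. -/
theorem conv_outer (k : Fin 3 → ℤ) {w V : Md → C3} {s : Md → ℂ} (h1 : sN 0 w ≠ ∞)
    (h2 : sN 0 V ≠ ∞) (hs : ∀ p, s p = innerSL ℂ (kv k) (V p)) (q : Md) :
    conv smB s w q = (conv outerB w V q) (kv k) := by
  have h3 := summable_conv outerB h1 h2 q
  have h4 : (conv outerB w V q) (kv k) = ∑' l, (outerB (w (q - l)) (V l)) (kv k) :=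
    (ContinuousLinearMap.apply ℂ C3 (kv k)).map_tsum h3
  rw [h4]
  have h5 : conv smB s w q = ∑' l, s (q - l) • w l := rfl
  rw [h5, ← (Equiv.subLeft q).tsum_eq]
  refine tsum_congr fun l => ?_
  rw [Equiv.subLeft_apply, sub_sub_cancel, outerB_apply, bdot_kv, hs]

theorem fixW {SS : ℕ → ℝ → ℝ → Md → Md → Mat} {w0 : Md → C3} {f : ℝ → Bool × Md → C3 × ℂ}
    (hfp : ∀ t ∈ Icc 0 D.T, ∀ a, PF D SS w0 f t a = f t a) {o : ℕ} (h1 : D.m ≤ o)
    (h2 : o ≤ D.n + 1) {t : ℝ} (ht : t ∈ Icc 0 D.T) {q : Md} (hq : q ∈ Cs D.m o) :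
    wf D f t q = WW D SS w0 (wf D f) (kf D f) o t q := by
  have h3 : q ∈ (lev (D.n + 1) : Set Md) := Cs_sub_lev h1 h2 hq
  have h4 : wf D f t q = (f t (false, q)).1 := res_of_mem h3
  rw [h4, ← hfp t ht, PF_false]
  rw [res_of_mem h3, cl_eq h1 h2 hq]

theorem fixK {SS : ℕ → ℝ → ℝ → Md → Md → Mat} {w0 : Md → C3} {f : ℝ → Bool × Md → C3 × ℂ}
    (hfp : ∀ t ∈ Icc 0 D.T, ∀ a, PF D SS w0 f t a = f t a) {o : ℕ} (h1 : D.m < o)
    (h2 : o ≤ D.n + 1) {t : ℝ} (ht : t ∈ Icc 0 D.T) {q : Md} (hq : q ∈ Cl o) :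
    kf D f t q = KK D w0 (wf D f) (kf D f) o t q := by
  have h3 : q ∈ KS D := ⟨o, h1, h2, hq⟩
  have h4 : kf D f t q = (f t (true, q)).2 := res_of_mem h3
  rw [h4, ← hfp t ht, PF_true]
  rw [res_of_mem h3, cl_eq h1.le h2 (by rwa [Cs_of_gt h1])]

theorem res_fixW {SS : ℕ → ℝ → ℝ → Md → Md → Mat} {w0 : Md → C3} {f : ℝ → Bool × Md → C3 × ℂ}
    (hfp : ∀ t ∈ Icc 0 D.T, ∀ a, PF D SS w0 f t a = f t a) {o : ℕ} (h1 : D.m ≤ o)
    (h2 : o ≤ D.n + 1) {t : ℝ} (ht : t ∈ Icc 0 D.T) :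
    res (Cs D.m o) (wf D f t) = res (Cs D.m o) (WW D SS w0 (wf D f) (kf D f) o t) := by
  funext q
  by_cases hq : q ∈ Cs D.m o
  · rw [res_of_mem hq, res_of_mem hq, fixW hfp h1 h2 ht hq]
  · rw [res_of_not_mem hq, res_of_not_mem hq]

theorem res_fixK {SS : ℕ → ℝ → ℝ → Md → Md → Mat} {w0 : Md → C3} {f : ℝ → Bool × Md → C3 × ℂ}
    (hfp : ∀ t ∈ Icc 0 D.T, ∀ a, PF D SS w0 f t a = f t a) {o : ℕ} (h1 : D.m < o)
    (h2 : o ≤ D.n + 1) {t : ℝ} (ht : t ∈ Icc 0 D.T) :
    res (Cl o) (kf D f t) = res (Cl o) (KK D w0 (wf D f) (kf D f) o t) := by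
  funext q
  by_cases hq : q ∈ Cl o
  · rw [res_of_mem hq, res_of_mem hq, fixK hfp h1 h2 ht hq]
  · rw [res_of_not_mem hq, res_of_not_mem hq]

/-- The two formulas for `κ` agree. -/
theorem kap (H : WH) (S : SH) (hD : D.Hyp) (hW : Wts D ρ Str)
    {SS : ℕ → ℝ → ℝ → Md → Md → Mat} (hL : LP D ρ SS) {w0 : Md → C3} (hs : Seed D w0)
    {w : ℝ → Md → C3} {κ : ℝ → Md → ℂ} (A : Adm D ρ w κ) {o : ℕ}
    (h1 : D.m < o) (h2 : o ≤ D.n + 1) {t : ℝ} (ht : t ∈ Icc 0 D.T) :
    mul (D.rw o t) (WW D SS w0 w κ o t) = (D.N o : ℂ) • KK D w0 w κ o t := by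
  have hg := gq H S hD hW A h1.le h2
  have hsol := wsol S hD hW hL h1.le h2 (seed_fin hs (Cs D.m o)) hg.1
  have hN : (D.N o : ℂ) ≠ 0 := by
    have := hD.N_pos o h2
    exact_mod_cast (by linarith : D.N o ≠ 0)
  have hWfin := Wsol_fin S hD hW hL h1.le h2 (seed_fin hs (Cs D.m o)) hg.1
  have hwt := hW.wt o h1.le h2
  have hode : ∀ q, ∀ t ∈ Icc 0 D.T, HasDerivWithinAt
      (fun t => WW D SS w0 w κ o t q) (mul (D.gK o t) (WW D SS w0 w κ o t) q + QQ D o w κ t q)
      (Icc 0 D.T) t := by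
    intro q t ht
    have := hsol.2.2.1 q t ht
    rw [LL_gt h1] at this
    exact this
  have hder := S.s16 D hD o h1 h2 (ρ o) (WW D SS w0 w κ o) (QQ D o w κ) hwt hsol.1 hg.1.cm
    hWfin ⟨cc D, lt_cc hD, Nrm_fin hD.T_pos.le wt_one hwt hg.1.fn⟩ hode
  have hcm := cm_k H S hD h1 h2 hg.1.cm hg.1.fn
  funext q
  have hsub : Icc 0 t ⊆ Icc 0 D.T := Icc_subset_Icc_right ht.2
  have hftc : ∫ s in (0 : ℝ)..t, mul (D.rw o s) (QQ D o w κ s) q =
      mul (D.rw o t) (WW D SS w0 w κ o t) q - mul (D.rw o 0) (WW D SS w0 w κ o 0) q := by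
    refine intervalIntegral.integral_eq_sub_of_hasDeriv_right_of_le ht.1
      (f := fun s => mul (D.rw o s) (WW D SS w0 w κ o s) q) ?_ ?_ ?_
    · intro s hs'
      exact ((hder q s (hsub hs')).continuousWithinAt).mono hsub
    · intro s hs'
      have h5 := hder q s (hsub ⟨hs'.1.le, hs'.2.le⟩)
      have h6 : Icc 0 D.T ∈ nhds s := Icc_mem_nhds hs'.1 (hs'.2.trans_le ht.2)
      exact (h5.hasDerivAt h6).hasDerivWithinAt
    · refine ContinuousOn.intervalIntegrable ?_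
      rw [uIcc_of_le ht.1]
      exact (hcm q).mono hsub
  have hW0 : WW D SS w0 w κ o 0 = res (Cs D.m o) w0 := hsol.2.1
  rw [hW0] at hftc
  have hK : KK D w0 w κ o t q = (D.N o : ℂ)⁻¹ * mul (D.rw o 0) (res (Cs D.m o) w0) q +
      (D.N o : ℂ)⁻¹ * ∫ s in (0 : ℝ)..t, mul (D.rw o s) (QQ D o w κ s) q := by
    unfold KK ksol
    rw [← intervalIntegral.integral_const_mul]
    rfl
  rw [Pi.smul_apply, hK, hftc, smul_eq_mul]
  field_simp
  ring

end FPt

open FPt in
theorem s24 (w01 : W01) (w02 : W02) (w05 : W05) (w08 : W08) (w09 : W09) (w10 : W10) (w11 : W11)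
    (w12 : W12) (w13 : W13) (w16 : W16) (w23 : W23) (h15 : S15) (h16 : S16) (h18 : S18)
    (h19 : S19) (h20 : S20) (h21 : S21) (h22 : S22) (h23 : S23) : S24 := by
  intro D ρ Str w0 hD hW hseed
  have H : WH := ⟨w01, w02, w05, w08, w09, w10, w11, w12, w13, w16, w23⟩
  have S : SH := ⟨h15, h16, h18, h19, h20, h21, h22, h23⟩
  obtain ⟨SS, hL⟩ := exists_LP H S hD hW
  obtain ⟨f, hfc, hfR, hfp⟩ := exists_fp H S hD hW hL hseed
  have hmn := hD.hmn
  have hmn1 : D.m < D.n + 1 := by omega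
  have hfin : NN D ρ f ≠ ∞ := ne_top_of_le_ne_top ENNReal.ofReal_ne_top hfR
  have A := adm_f hD hfc hfin
  have hX : XN D ρ (wf D f) (kf D f) ≤ RR D := (XN_le_NN hD f).trans hfR
  set w := wf D f with hwdef
  set κ := kf D f with hκdef
  have hG := G_pos hD
  have hG2 := hD.G_two
  have h0 : (0 : ℝ) ∈ Icc 0 D.T := ⟨le_rfl, hD.T_pos.le⟩
  have hw := fin_w hD hW A
  have hκ := fin_κ hD hW A
  -- the identity for κ
  have hkap : ∀ t ∈ Icc 0 D.T, ∀ o, D.m < o → o ≤ D.n + 1 →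
      mul (D.rw o t) (res (Cl o) (w t)) = (D.N o : ℂ) • res (Cl o) (κ t) := by
    intro t ht o h1 h2
    have e1 : res (Cl o) (w t) = res (Cl o) (WW D SS w0 w κ o t) := by
      have := res_fixW hfp h1.le h2 ht
      rwa [Cs_of_gt h1] at this
    have e2 : res (Cl o) (κ t) = res (Cl o) (KK D w0 w κ o t) := res_fixK hfp h1 h2 ht
    rw [e1, e2, ← res_smul, ← kap H S hD hW hL hseed A h1 h2 ht]
    exact (res_act (stab_Cl (by omega)) (bl_rw S.s15 hD h1 h2 ht) _).symm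
  -- `Lin + Bil = RHS`
  have hLin : ∀ t ∈ Icc 0 D.T, Lin D w κ t = act (D.gen D.n t) (w t) := by
    intro t ht
    unfold Lin
    have : ∀ i ∈ Finset.Ioc D.m D.n, act (idK - (2 : ℂ) • D.Pl i t) (mul (tsF (D.a i t))
        (mul (D.rw i t) (res (Cl i) (w t)) - (D.N i : ℂ) • res (Cl i) (κ t))) = 0 := by
      intro i hi
      rw [Finset.mem_Ioc] at hi
      rw [hkap t ht i hi.1 (by omega), sub_self]
      unfold mul
      rw [act_zero, act_zero]
    rw [Finset.sum_eq_zero this, add_zero]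
  have hsplit : ∀ t ∈ Icc 0 D.T, res (Cl (D.n + 1)) (w t) + res (lev D.n : Set Md) (w t) =
      w t := by
    intro t ht
    funext q
    rw [Pi.add_apply]
    by_cases hq : q ∈ lev (D.n + 1)
    · by_cases hq1 : q (D.n + 1) = 0
      · have h1 : q ∉ Cl (D.n + 1) := fun h => h.2 hq1
        have h2 : q ∈ (lev D.n : Set Md) := by
          intro i hi
          rcases Nat.lt_or_ge (D.n + 1) i with h | h
          · exact hq i h
          · have : i = D.n + 1 := by omega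
            rw [this, hq1]
        rw [res_of_not_mem h1, res_of_mem h2, zero_add]
      · have h1 : q ∈ Cl (D.n + 1) := ⟨hq, hq1⟩
        have h2 : q ∉ (lev D.n : Set Md) := fun h => hq1 (h _ (by omega))
        rw [res_of_mem h1, res_of_not_mem h2, add_zero]
    · have h1 : q ∉ Cl (D.n + 1) := fun h => hq h.1
      have h2 : q ∉ (lev D.n : Set Md) := fun h => hq (lev_mono (by omega) h)
      rw [res_of_not_mem h1, res_of_not_mem h2, add_zero, A.w_supp t ht q hq]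
  have hFi : ∀ t ∈ Icc 0 D.T, sN 0 (D.Fi D.n t) ≠ ∞ := by
    intro t ht
    have := sK_fin H hD.c_pos.le (kn_Fi H hD hD.hmn le_rfl) ht
    rwa [(H.w10 Md C3 C3 C3 0 le_rfl).2.2.2.1] at this
  have hHH : ∀ t ∈ Icc 0 D.T, ∀ p, HH D w κ t p =
      innerSL ℂ (D.kk (D.n + 1)) (mul (D.Fi D.n t) (w t) p) := by
    intro t ht p
    have a1 := Fn.sN hD hw ht
    have e1 : HH D w κ t = mul (D.rw (D.n + 1) t) (w t) := by
      unfold HH
      rw [← hkap t ht (D.n + 1) hmn1 le_rfl,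
        ← mul_rw_add H S hD hmn1 le_rfl (sN_res_fin _ a1) (sN_res_fin _ a1) ht, hsplit t ht]
    rw [e1]
    exact mul_rwF (D.kk (D.n + 1)) (hFi t ht) a1 p
  have hBil : ∀ t ∈ Icc 0 D.T, Bil D w κ w t = -act (idK - D.Pl D.n t) (fun q =>
      Complex.I • (conv outerB (w t) (mul (D.Fi D.n t) (w t)) q) (xi D.K q)) := by
    intro t ht
    have a1 := Fn.sN hD hw ht
    have a2 : sN 0 (mul (D.Fi D.n t) (w t)) ≠ ∞ :=
      sN_act_fin H (sK_fin H hD.c_pos.le (kn_Fi H hD hD.hmn le_rfl) ht) a1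
    rw [Bil_eq]
    congr 2
    funext q
    unfold JJ
    rw [conv_outer (D.K (D.n + 1)) a1 a2 (hHH t ht) q]
    unfold xi'
    rw [map_sub, map_smul, smul_sub, smul_smul, sub_add_cancel]
  have hRHS : ∀ t ∈ Icc 0 D.T, RHS D w t = Lin D w κ t + Bil D w κ w t := by
    intro t ht
    rw [hLin t ht, hBil t ht]
    unfold RHS
    rw [sub_eq_add_neg]
  refine ⟨w, A.w_cm, A.w_supp, ?_, ?_, ?_, ?_, ?_, ?_⟩
  · -- initial value
    funext q
    by_cases hq : q ∈ (lev (D.n + 1) : Set Md)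
    · have h1 := cl_ge hD q
      have h2 := cl_le D q
      have h3 : q ∈ Cs D.m (cl D q) := cls_mem hq
      have h4 := (wsol S hD hW hL h1 h2 (seed_fin hseed (Cs D.m (cl D q)))
        (gq H S hD hW A h1 h2).1).2.1
      have h5 : w 0 q = WW D SS w0 w κ (cl D q) 0 q := fixW hfp h1 h2 h0 h3
      rw [h5]
      have h6 : WW D SS w0 w κ (cl D q) 0 = res (Cs D.m (cl D q)) w0 := h4
      rw [h6, res_of_mem h3]
    · rw [A.w_supp 0 h0 q hq, hseed.supp q fun h => hq h.1]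
  · -- the equation
    intro q t ht
    rw [hRHS t ht]
    by_cases hq : q ∈ (lev (D.n + 1) : Set Md)
    · have h1 := cl_ge hD q
      have h2 := cl_le D q
      have h3 : q ∈ Cs D.m (cl D q) := cls_mem hq
      have h4 := (wsol S hD hW hL h1 h2 (seed_fin hseed (Cs D.m (cl D q)))
        (gq H S hD hW A h1 h2).1).2.2.1 q t ht
      have h5 := h4.congr (f₁ := fun t => w t q)
        (fun s hs => fixW hfp h1 h2 hs h3) (fixW hfp h1 h2 ht h3)
      refine h5.congr_deriv ?_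
      have e1 : act (LL D (cl D q) t) (WW D SS w0 w κ (cl D q) t) q =
          model D (cl D q) t (res (Cs D.m (cl D q)) (w t)) q := by
        rw [model_eq, res_fixW hfp h1 h2 ht,
          ← res_act (stab_lv D.m (cl D q)) (bl_LL H S.s15 hD h2 ht), res_of_mem h3]
      have e2 : QQ D (cl D q) w κ t q = Lin D w κ t q -
          model D (cl D q) t (res (Cs D.m (cl D q)) (w t)) q + Bil D w κ w t q := by
        unfold QQ QL
        rw [Pi.add_apply, Pi.sub_apply, res_of_mem h3, res_of_mem h3]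
      change act (LL D (cl D q) t) (WW D SS w0 w κ (cl D q) t) q + _ = _
      rw [e1, e2, Pi.add_apply]
      abel
    · have e1 : Lin D w κ t q = 0 := by
        rw [hLin t ht]
        exact act_supp (by omega) (bl_gen H hD hD.hmn le_rfl ht) (A.w_supp t ht) q hq
      have e2 : Bil D w κ w t q = 0 := sp_Bil S hD hW A A t ht q hq
      rw [Pi.add_apply, e1, e2, add_zero]
      refine (hasDerivWithinAt_const t (Icc 0 D.T) (0 : C3)).congr ?_ ?_
      · intro s hs
        exact A.w_supp s hs q hq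
      · exact A.w_supp t ht q hq
  · -- the bound of the classes
    intro o h1 h2
    refine le_trans ?_ hX
    unfold XN
    refine le_trans ?_ (le_add_of_nonneg_right bot_le)
    exact Finset.single_le_sum (f := fun o => Nrm D.T D.c D.γ (ρ o)
      (fun t => res (Cs D.m o) (w t))) (fun _ _ => bot_le) (Finset.mem_Icc.2 ⟨h1, h2⟩)
  · -- the new class is close to the Kelvin wave
    have hg := gq H S hD hW A hmn1.le le_rfl
    have e0 : Nrm D.T D.c D.γ (ρ (D.n + 1)) (fun t => res (Cl (D.n + 1)) (w t) -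
        mul (D.Φ (D.n + 1) t 0) w0) ≤ Nrm D.T D.c D.γ (ρ (D.n + 1))
        (fun t => WW D SS w0 w κ (D.n + 1) t - act (SS (D.n + 1) t 0)
          (res (Cs D.m (D.n + 1)) w0)) := by
      refine Nrm_mono fun t ht q => ?_
      have e1 : res (Cl (D.n + 1)) (w t) = res (Cl (D.n + 1)) (WW D SS w0 w κ (D.n + 1) t) := by
        have := res_fixW hfp hmn1.le le_rfl ht
        rwa [Cs_of_gt hmn1] at this
      have e2 : mul (D.Φ (D.n + 1) t 0) w0 = res (Cl (D.n + 1)) (mul (D.Φ (D.n + 1) t 0) w0) := by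
        have h6 := res_act (stab_Cl (by omega : D.n + 1 - 1 < D.n + 1))
          (bl_mulK (hD.Φ_supp (D.n + 1) hmn1 le_rfl 0 h0 t ht)) w0
        rw [res_eq_self hseed.supp] at h6
        exact h6.symm
      have e3 : act (SS (D.n + 1) t 0) (res (Cs D.m (D.n + 1)) w0) =
          mul (D.Φ (D.n + 1) t 0) w0 := by
        rw [hL.new t, seed_new hD hseed]
        rfl
      rw [e3, e1, e2, ← res_sub, ← e2]
      exact enorm_res_le _ _ _
    refine e0.trans ?_
    refine (wsol_zero S hD hW hL hmn1.le le_rfl (res (Cs D.m (D.n + 1)) w0) hg.1).trans ?_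
    have c1 := cm_QL S hD hW A hmn1.le le_rfl
    have e4 : Src D.T D.c D.γ (ρ (D.n + 1)) (QQ D (D.n + 1) w κ) ≤
        ENNReal.ofReal (D.G ^ 18 * D.u (D.n + 1) ^ 512) * XN D ρ w κ +
        ENNReal.ofReal (D.G ^ 20 * D.u (D.n + 1) ^ 128) * XN D ρ w κ * XN D ρ w κ := by
      have hwt := hW.wt (D.n + 1) hmn1.le le_rfl
      refine ((H.w05 Md C3 D.T D.c D.γ (ρ (D.n + 1)) (ρ (D.n + 1)) (QL D (D.n + 1) w κ)
        (fun t => res (Cs D.m (D.n + 1)) (Bil D w κ w t)) (par hD) hwt hwt).2.2.2.1 c1).trans ?_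
      refine add_le_add (S.s20 D ρ Str hD hW w κ A).2.2.1 ?_
      rw [Cs_of_gt hmn1]
      exact (S.s22 D ρ Str hD hW w w κ κ A A).1
    have hu := hD.u_pos (D.n + 1)
    have hu1 := (hD.u_lt (D.n + 1)).le
    have e5 : ENNReal.ofReal D.G * (ENNReal.ofReal (D.G ^ 18 * D.u (D.n + 1) ^ 512) * XN D ρ w κ +
        ENNReal.ofReal (D.G ^ 20 * D.u (D.n + 1) ^ 128) * XN D ρ w κ * XN D ρ w κ) ≤
        ENNReal.ofReal (D.G * (D.G ^ 18 * D.u (D.n + 1) ^ 512 * D.G ^ 3 +
          D.G ^ 20 * D.u (D.n + 1) ^ 128 * D.G ^ 3 * D.G ^ 3)) := by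
      rw [ENNReal.ofReal_mul hG.le, ENNReal.ofReal_add (by positivity) (by positivity),
        ENNReal.ofReal_mul (p := D.G ^ 18 * D.u (D.n + 1) ^ 512) (by positivity),
        ENNReal.ofReal_mul (p := D.G ^ 20 * D.u (D.n + 1) ^ 128 * D.G ^ 3) (by positivity),
        ENNReal.ofReal_mul (p := D.G ^ 20 * D.u (D.n + 1) ^ 128) (by positivity)]
      change XN D ρ w κ ≤ ENNReal.ofReal (D.G ^ 3) at hX
      gcongr
    refine (mul_le_mul' le_rfl e4).trans (e5.trans (ENNReal.ofReal_le_ofReal ?_))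
    have s1 : D.G ^ 28 * D.u (D.n + 1) ^ 64 ≤ 1 := by
      refine le_trans ?_ hD.small
      have hG1 : 1 ≤ D.G := by linarith
      have hum := (hD.u_pos (D.m + 1)).le
      calc D.G ^ 28 * D.u (D.n + 1) ^ 64 ≤ D.G ^ 400 * D.u (D.n + 1) ^ 4 := by
            refine mul_le_mul (pow_le_pow_right₀ hG1 (by norm_num))
              (pow_le_pow_of_le_one hu.le hu1 (by norm_num)) (by positivity) (by positivity)
        _ ≤ D.G ^ 400 * D.u (D.m + 1) ^ 4 := by
            have := u_le hD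
            gcongr
    have s2 : D.u (D.n + 1) ^ 512 ≤ D.u (D.n + 1) ^ 128 :=
      pow_le_pow_of_le_one hu.le hu1 (by norm_num)
    have s3 : D.G ^ 22 ≤ D.G ^ 27 := pow_le_pow_right₀ (by linarith) (by norm_num)
    calc D.G * (D.G ^ 18 * D.u (D.n + 1) ^ 512 * D.G ^ 3 +
          D.G ^ 20 * D.u (D.n + 1) ^ 128 * D.G ^ 3 * D.G ^ 3)
        = D.G ^ 22 * D.u (D.n + 1) ^ 512 + D.G ^ 27 * D.u (D.n + 1) ^ 128 := by ring
      _ ≤ D.G ^ 27 * D.u (D.n + 1) ^ 128 + D.G ^ 27 * D.u (D.n + 1) ^ 128 := by gcongr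
      _ = 2 * D.G ^ 27 * D.u (D.n + 1) ^ 128 := by ring
      _ ≤ D.G * D.G ^ 27 * D.u (D.n + 1) ^ 128 := by gcongr
      _ = (D.G ^ 28 * D.u (D.n + 1) ^ 64) * D.u (D.n + 1) ^ 64 := by ring
      _ ≤ 1 * D.u (D.n + 1) ^ 64 := by gcongr
      _ = D.u (D.n + 1) ^ 64 := one_mul _
  · -- the bound of `κ`
    have hu := hD.u_pos (D.n + 1)
    have hu1 := (hD.u_lt (D.n + 1)).le
    have hN : (D.N (D.n + 1) : ℂ) ≠ 0 := by
      have := hD.N_pos (D.n + 1) le_rfl
      exact_mod_cast (by linarith : D.N (D.n + 1) ≠ 0)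
    have e1 : ∀ t ∈ Icc 0 D.T, ((D.N (D.n + 1) : ℂ)⁻¹) •
        mul (D.rw (D.n + 1) t) (res (Cl (D.n + 1)) (w t)) = res (Cl (D.n + 1)) (κ t) := by
      intro t ht
      rw [hkap t ht (D.n + 1) hmn1 le_rfl, smul_smul, inv_mul_cancel₀ hN, one_smul]
    rw [Nrm_congr e1, Nrm_scale (a := D.u (D.n + 1) ^ 128) (by positivity)]
    have e2 : Nrm D.T D.c D.γ (fun t => D.u (D.n + 1) ^ 128 * ρ (D.n + 1) t)
        (fun t => res (Cl (D.n + 1)) (κ t)) ≤ RR D := by
      refine le_trans ?_ hX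
      unfold XN
      refine le_trans ?_ (le_add_of_nonneg_left bot_le)
      exact Finset.single_le_sum (f := fun o => Nrm D.T D.c D.γ (fun t => D.u o ^ 128 * ρ o t)
        (fun t => res (Cl o) (κ t))) (fun _ _ => bot_le) (Finset.mem_Ioc.2 ⟨hmn1, le_rfl⟩)
    refine (mul_le_mul' le_rfl e2).trans ?_
    unfold RR
    rw [← ENNReal.ofReal_mul (by positivity)]
    refine ENNReal.ofReal_le_ofReal ?_
    have s1 : D.G ^ 3 * D.u (D.n + 1) ^ 8 ≤ 1 := by
      refine le_trans ?_ hD.small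
      have hG1 : 1 ≤ D.G := by linarith
      have hum := (hD.u_pos (D.m + 1)).le
      calc D.G ^ 3 * D.u (D.n + 1) ^ 8 ≤ D.G ^ 400 * D.u (D.n + 1) ^ 4 := by
            refine mul_le_mul (pow_le_pow_right₀ hG1 (by norm_num))
              (pow_le_pow_of_le_one hu.le hu1 (by norm_num)) (by positivity) (by positivity)
        _ ≤ D.G ^ 400 * D.u (D.m + 1) ^ 4 := by
            have := u_le hD
            gcongr
    calc D.u (D.n + 1) ^ 128 * D.G ^ 3 = D.u (D.n + 1) ^ 120 *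
          (D.G ^ 3 * D.u (D.n + 1) ^ 8) := by ring
      _ ≤ D.u (D.n + 1) ^ 120 * 1 := by gcongr
      _ = D.u (D.n + 1) ^ 120 := mul_one _
  · -- the old levels
    have hu := hD.u_pos (D.n + 1)
    have hu1 := (hD.u_lt (D.n + 1)).le
    have hN1 := hD.N_pos (D.n + 1) le_rfl
    have hN : 0 < D.N (D.n + 1) := by linarith
    have hNe : ‖(D.N (D.n + 1) : ℂ)‖ₑ = ENNReal.ofReal (D.N (D.n + 1)) := by
      rw [← ofReal_norm, Complex.norm_real, Real.norm_of_nonneg hN.le]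
    have hα := hD.α_wt (D.n + 1) hmn1 le_rfl
    rw [Nrm_smul, hNe]
    have e1 : Nrm D.T D.c D.γ (D.α (D.n + 1)) (fun t => res (lev D.n : Set Md) (w t)) ≤
        ∑ o ∈ Finset.Icc D.m D.n, Nrm D.T D.c D.γ (D.α (D.n + 1))
          (fun t => res (Cs D.m o) (w t)) := by
      refine Nrm_le_sum _ (g := fun o t => res (Cs D.m o) (w t)) fun t ht q => ?_
      by_cases hq : q ∈ (lev D.n : Set Md)
      · rw [res_of_mem hq]
        have hq1 : q ∈ lev (D.n + 1) := lev_mono (by omega) hq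
        have h3 : q ∈ Cs D.m (cl D q) := cls_mem hq1
        have h4 : cl D q ≤ D.n := by
          by_contra h
          have h5 : cl D q = D.n + 1 := le_antisymm (cl_le D q) (by omega)
          rw [h5, Cs_of_gt hmn1] at h3
          exact h3.2 (hq _ (by omega))
        have h6 : res (Cs D.m (cl D q)) (w t) q = w t q := res_of_mem h3
        rw [← h6]
        exact Finset.single_le_sum (f := fun o => ‖res (Cs D.m o) (w t) q‖ₑ)
          (fun _ _ => bot_le) (Finset.mem_Icc.2 ⟨cl_ge hD q, h4⟩)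
      · rw [res_of_not_mem hq]
        simp
    have e2 : ∀ o ∈ Finset.Icc D.m D.n, Nrm D.T D.c D.γ (D.α (D.n + 1))
        (fun t => res (Cs D.m o) (w t)) ≤
        ENNReal.ofReal (D.u (D.n + 1) ^ 384 / D.N (D.n + 1)) *
          Nrm D.T D.c D.γ (ρ o) (fun t => res (Cs D.m o) (w t)) := by
      intro o ho
      rw [Finset.mem_Icc] at ho
      refine Nrm_weight (by positivity) (hW.wt o ho.1 (by omega)) hα (fun t ht => ?_) _
      have := hW.w4 o ho.1 ho.2 t ht
      rw [div_mul_eq_mul_div, le_div_iff₀ hN]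
      linarith
    have e3 : ∑ o ∈ Finset.Icc D.m D.n, Nrm D.T D.c D.γ (ρ o)
        (fun t => res (Cs D.m o) (w t)) ≤ RR D := by
      refine le_trans ?_ hX
      unfold XN
      refine le_trans ?_ (le_add_of_nonneg_right bot_le)
      exact Finset.sum_le_sum_of_subset (Finset.Icc_subset_Icc_right (by omega))
    calc ENNReal.ofReal (D.N (D.n + 1)) * Nrm D.T D.c D.γ (D.α (D.n + 1))
          (fun t => res (lev D.n : Set Md) (w t))
        ≤ ENNReal.ofReal (D.N (D.n + 1)) * ∑ o ∈ Finset.Icc D.m D.n,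
            (ENNReal.ofReal (D.u (D.n + 1) ^ 384 / D.N (D.n + 1)) *
              Nrm D.T D.c D.γ (ρ o) (fun t => res (Cs D.m o) (w t))) := by
          refine mul_le_mul' le_rfl (e1.trans (Finset.sum_le_sum e2))
      _ = ENNReal.ofReal (D.N (D.n + 1)) *
            ENNReal.ofReal (D.u (D.n + 1) ^ 384 / D.N (D.n + 1)) *
            ∑ o ∈ Finset.Icc D.m D.n, Nrm D.T D.c D.γ (ρ o)
              (fun t => res (Cs D.m o) (w t)) := by
          rw [← Finset.mul_sum, mul_assoc]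
      _ ≤ ENNReal.ofReal (D.N (D.n + 1)) *
            ENNReal.ofReal (D.u (D.n + 1) ^ 384 / D.N (D.n + 1)) * ENNReal.ofReal (D.G ^ 3) := by
          gcongr
          exact e3
      _ = ENNReal.ofReal (D.u (D.n + 1) ^ 384 * D.G ^ 3) := by
          rw [← ENNReal.ofReal_mul hN.le, ← ENNReal.ofReal_mul (by positivity)]
          congr 1
          field_simp
      _ ≤ ENNReal.ofReal (D.u (D.n + 1) ^ 256) := by
          refine ENNReal.ofReal_le_ofReal ?_
          have s1 : D.G ^ 3 * D.u (D.n + 1) ^ 128 ≤ 1 := by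
            refine le_trans ?_ hD.small
            have hG1 : 1 ≤ D.G := by linarith
            have hum := (hD.u_pos (D.m + 1)).le
            calc D.G ^ 3 * D.u (D.n + 1) ^ 128 ≤ D.G ^ 400 * D.u (D.n + 1) ^ 4 := by
                  refine mul_le_mul (pow_le_pow_right₀ hG1 (by norm_num))
                    (pow_le_pow_of_le_one hu.le hu1 (by norm_num)) (by positivity) (by positivity)
              _ ≤ D.G ^ 400 * D.u (D.m + 1) ^ 4 := by
                  have := u_le hD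
                  gcongr
          calc D.u (D.n + 1) ^ 384 * D.G ^ 3 = D.u (D.n + 1) ^ 256 *
                (D.G ^ 3 * D.u (D.n + 1) ^ 128) := by ring
            _ ≤ D.u (D.n + 1) ^ 256 * 1 := by gcongr
            _ = D.u (D.n + 1) ^ 256 := mul_one _

end Pool.Agent.Work.MP_b0497c_an.Unf.S

end

section

set_option autoImplicit false

/-!
# Block A: `Lvl`, `Sht`, `Chain.An` depend only on the data up to the level
-/

open Set
open scoped ENNReal

namespace Pool.Agent.Work.MP_b0497c_an.Unf.A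

open W S

theorem xi_congr {K K' : ℕ → Fin 3 → ℤ} {l : ℕ} (h : ∀ i ≤ l, K i = K' i) {q : Md}
    (hq : q ∈ lev l) : xi K q = xi K' q := by
  unfold xi
  refine Finset.sum_congr rfl fun i hi => ?_
  have hil : i ≤ l := by
    by_contra hc
    exact (Finsupp.mem_support_iff.mp hi) (hq i (by omega))
  simp only [h i hil]

theorem gradV_congr {K K' : ℕ → Fin 3 → ℤ} {l : ℕ} (h : ∀ i ≤ l, K i = K' i) {f : Md → C3}
    (hf : SuppIn (lev l : Set Md) f) : gradV K f = gradV K' f := by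
  funext q
  unfold gradV
  by_cases hq : q ∈ lev l
  · rw [xi_congr h hq]
  · rw [hf q hq]
    ext x
    simp

theorem gradS_congr {K K' : ℕ → Fin 3 → ℤ} {l : ℕ} (h : ∀ i ≤ l, K i = K' i) {f : Md → ℂ}
    (hf : SuppIn (lev l : Set Md) f) : gradS K f = gradS K' f := by
  funext q
  unfold gradS
  by_cases hq : q ∈ lev l
  · rw [xi_congr h hq]
  · rw [hf q hq]
    simp

theorem Lvl.congr {K K' : ℕ → Fin 3 → ℤ} {T r R : ℝ} {l : ℕ} {X U A : ℝ → Md → C3}
    {p : ℝ → Md → ℂ} {F Fi M : ℝ → Md → Mat} (h : ∀ i ≤ l, K i = K' i)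
    (H : Lvl K T r R l X U A p F Fi M) : Lvl K' T r R l X U A p F Fi M where
  s_pos := H.s_pos
  c_pos := H.c_pos
  x_supp := H.x_supp
  U_supp := H.U_supp
  A_supp := H.A_supp
  r_supp := H.r_supp
  x_fin := H.x_fin
  U_fin := H.U_fin
  A_fin := H.A_fin
  r_fin := H.r_fin
  F_fin := H.F_fin
  Fi_fin := H.Fi_fin
  M_fin := H.M_fin
  x_cm := H.x_cm
  U_cm := H.U_cm
  A_cm := H.A_cm
  x_der := H.x_der
  U_der := H.U_der
  x_zero := H.x_zero
  x_real := H.x_real
  F_eq t ht := by rw [← gradV_congr h (H.x_supp t ht)]; exact H.F_eq t ht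
  F_der := H.F_der
  tr_M := H.tr_M
  inv := H.inv
  mom t ht := by rw [← gradS_congr h (H.r_supp t ht)]; exact H.mom t ht
  T_le := H.T_le
  r_le := H.r_le
  R_two := H.R_two
  r_R := H.r_R
  p_cm := H.p_cm
  F_cm := H.F_cm
  Fi_cm := H.Fi_cm
  M_cm := H.M_cm
  F_supp := H.F_supp
  Fi_supp := H.Fi_supp
  M_supp := H.M_supp
  F_le := H.F_le
  Fi_le := H.Fi_le
  M_le := H.M_le
  X_odd := H.X_odd
  U_odd := H.U_odd
  A_odd := H.A_odd
  p_even := H.p_even
  F_even := H.F_even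
  Fi_even := H.Fi_even
  M_even := H.M_even
  Fi_der := H.Fi_der
  MF_eq t ht := by rw [← gradV_congr h (H.U_supp t ht)]; exact H.MF_eq t ht
  FFi := H.FFi

theorem Sht.congr {K K' : ℕ → Fin 3 → ℤ} {T r R u : ℝ} {α : ℝ → ℝ} {j : ℕ}
    {F' Fi' M' F Fi M : ℝ → Md → Mat} {z a : ℝ → Md → C3} {s : ℝ → Md → ℂ}
    {Φ : ℝ → ℝ → Md → Mat} {w : Md → C3} (h : K j = K' j)
    (H : Sht K T r R u α j F' Fi' M' F Fi M z a s Φ w) :
    Sht K' T r R u α j F' Fi' M' F Fi M z a s Φ w where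
  j_pos := H.j_pos
  u_pos := H.u_pos
  u_lt := H.u_lt
  K_pos := by rw [← h]; exact H.K_pos
  α_wt := H.α_wt
  α_le := H.α_le
  z_supp := H.z_supp
  a_supp := H.a_supp
  z_cm := H.z_cm
  a_cm := H.a_cm
  z_orth := by rw [← h]; exact H.z_orth
  z_le := by rw [← h]; exact H.z_le
  a_le := by rw [← h]; exact H.a_le
  z_real := H.z_real
  a_real := H.a_real
  ka_le := by rw [← h]; exact H.ka_le
  rF_le := by rw [← h]; exact H.rF_le
  rFi_le := by rw [← h]; exact H.rFi_le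
  rM_le := by rw [← h]; exact H.rM_le
  a_eq := H.a_eq
  s_cm := H.s_cm
  s_supp := H.s_supp
  s_le := by rw [← h]; exact H.s_le
  s_eq := by rw [← h]; exact H.s_eq
  Φ_prop := by rw [← h]; exact H.Φ_prop
  Φ_le := H.Φ_le
  Φ_supp := H.Φ_supp
  w_supp := H.w_supp
  w_real := H.w_real

namespace Chain

theorem An.congr {C C' : Chain} {n : ℕ} {u : ℕ → ℝ} (h : Agree C C' n) (H : An C n u) :
    An C' n u where
  lvl l hl := by
    have H1 := H.lvl l hl
    rw [h.τ l hl, h.r l hl, h.R l hl, h.X l hl, h.U l hl, h.A l hl, h.p l hl, h.F l hl,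
      h.Fi l hl, h.M l hl] at H1
    exact H1.congr fun i hi => h.K i (hi.trans hl)
  sht j hj hjn := by
    have H1 := H.sht j hj hjn
    have hj' : j - 1 ≤ n := by omega
    rw [h.τ j hjn, h.r j hjn, h.R j hjn, h.α j hjn, h.F _ hj', h.Fi _ hj', h.M _ hj', h.F j hjn,
      h.Fi j hjn, h.M j hjn, h.z j hjn, h.a j hjn, h.s j hjn, h.Φ j hjn, h.w j hjn] at H1
    exact H1.congr (h.K j hjn)
  U_seed l hl := by
    rw [← h.U (l + 1) hl, ← h.U l hl.le, ← h.w (l + 1) hl]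
    exact H.U_seed l hl
  τ_anti l hl := by
    rw [← h.τ (l + 1) hl, ← h.τ l hl.le]
    exact H.τ_anti l hl
  r_anti l hl := by
    rw [← h.r (l + 1) hl, ← h.r l hl.le]
    exact H.r_anti l hl
  R_mono l hl := by
    rw [← h.R (l + 1) hl, ← h.R l hl.le]
    exact H.R_mono l hl

end Chain

end Pool.Agent.Work.MP_b0497c_an.Unf.A

end
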