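import Pool.Agent.Work.MP_b0497c_an.Unf.AStmts
import Pool.Agent.Work.MP_b0497c_an.Unf.OComp
import Pool.Agent.Work.MP_b0497c_an.Bd.B27
import Pool.Agent.Work.MP_b0497c_an.Unf.LStmts
import Pool.Agent.Work.MP_b0497c_an.Bd.B31
import Pool.Agent.Work.MP_b0497c_an.Unf.KDict
import Pool.Agent.Work.MP_b0497c_an.Bd.B04

/-! Bundle of small proof modules (one section per former module). -/

section

set_option autoImplicit false
set_option linter.dupNamespace false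

/-!
# Block A, item LG: growth of the weight in the window (both halves)
-/

open Set ContinuousLinearMap RealInnerProductSpace

namespace Pool.Agent.Work.MP_b0497c_an.Unf.A

open Unf.O (LevD NextD)

namespace LGaux

theorem arctan_big {x : ℝ} (hx : 100 ≤ x) : Real.pi / 2 - 1 / 100 ≤ Real.arctan x := by
  have hx0 : 0 < x := by linarith
  have h1 : Real.arctan x⁻¹ = Real.pi / 2 - Real.arctan x := Real.arctan_inv_of_pos hx0
  have h2 : Real.arctan x⁻¹ ≤ x⁻¹ := by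
    have h3 : Real.arctan x⁻¹ ≤ Real.tan (Real.arctan x⁻¹) := by
      apply Real.le_tan
      · rw [Real.arctan_nonneg]
        positivity
      · exact Real.arctan_lt_pi_div_two _
    rwa [Real.tan_arctan] at h3
  have h3 : x⁻¹ ≤ 1 / 100 := by
    rw [inv_eq_one_div]
    exact one_div_le_one_div_of_le (by norm_num) hx
  linarith

variable {D : LevD}

theorem s0_eq (h : D.HL) : D.s0 = D.t0 - D.w := by
  unfold LevD.s0
  exact max_eq_right (by linarith [h.toKin.far.w_le])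

theorem At_s0 (h : D.HL) :
    D.At D.s0 ≤ -((Real.pi / 2 - 1 / 100) / Real.sqrt (D.c * D.k0)) := by
  have hc := h.flo.c_pos
  have hk := h.k0_pos'
  have ha := h.flo.a_pos
  have hkap := h.flo.kap_pos
  have hs : 0 < Real.sqrt (D.c * D.k0) := Real.sqrt_pos.2 (mul_pos hc hk)
  unfold LevD.At
  rw [s0_eq h, ← neg_div]
  apply div_le_div_of_nonneg_right _ hs.le
  have h1 : Real.sqrt (D.c / D.k0) * D.r * (D.t0 - D.w - D.t0) =
      -(Real.sqrt (D.c / D.k0) * D.r * D.w) := by ring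
  rw [h1, Real.arctan_neg, neg_le_neg_iff]
  apply arctan_big
  -- the argument is large
  have hb := h.b_ge
  have hb0 : 0 < D.b := by linarith
  have hh := h.h_big
  have hh0 : 0 < D.h := by linarith
  have h2 : (D.b)⁻¹ ≤ Real.sqrt (D.c / D.k0) := by
    apply Real.le_sqrt_of_sq_le
    have h3 : 1 / D.b ≤ D.c := h.flo.c_ge
    have h4 : D.k0 ≤ D.b := h.toKin.k0_le
    rw [le_div_iff₀ hk]
    calc (D.b)⁻¹ ^ 2 * D.k0 ≤ (D.b)⁻¹ ^ 2 * D.b :=
          mul_le_mul_of_nonneg_left h4 (by positivity)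
      _ = 1 / D.b := by field_simp
      _ ≤ D.c := h3
  have h5 : D.h ^ 12 / 2 ≤ D.r := by
    unfold LevD.r
    apply Real.le_sqrt_of_sq_le
    have h6 : D.a = D.h ^ 24 := rfl
    have h7 := h.flo.kap_ge
    rw [h6]
    have h8 : 0 < D.h ^ 24 := by positivity
    calc (D.h ^ 12 / 2) ^ 2 = D.h ^ 24 * (1 / 4) := by ring
      _ ≤ D.h ^ 24 * D.kap := mul_le_mul_of_nonneg_left (by linarith) h8.le
  have h9 : D.w = (D.h ^ 7)⁻¹ := rfl
  have h10 : (D.b)⁻¹ * (D.h ^ 12 / 2) * (D.h ^ 7)⁻¹ ≤ Real.sqrt (D.c / D.k0) * D.r * D.w := by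
    rw [h9]
    apply mul_le_mul_of_nonneg_right _ (by positivity)
    exact mul_le_mul h2 h5 (by positivity) (Real.sqrt_nonneg _)
  refine le_trans ?_ h10
  have h11 : (D.b)⁻¹ * (D.h ^ 12 / 2) * (D.h ^ 7)⁻¹ = D.h ^ 5 / (2 * D.b) := by
    field_simp
  rw [h11, le_div_iff₀ (by positivity)]
  have h12 := h.b_le_h
  have h13 : (200 : ℝ) ≤ D.h ^ 4 := by
    have : (1 : ℝ) ≤ D.h := h.h_one'
    calc (200 : ℝ) ≤ D.h := le_trans (by norm_num) hh
      _ ≤ D.h ^ 4 := le_self_pow₀ this (by norm_num)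
  calc 100 * (2 * D.b) = 200 * D.b := by ring
    _ ≤ D.h ^ 4 * D.h := mul_le_mul h13 h12 hb0.le (by positivity)
    _ = D.h ^ 5 := by ring

theorem At_t1' (h : D.HL) :
    (Real.pi / 2 - 1 / 100) / Real.sqrt (D.c * D.k0) ≤ D.At D.t1 := by
  have hc := h.flo.c_pos
  have hk := h.k0_pos'
  have ha := h.flo.a_pos
  have hkap := h.flo.kap_pos
  have hk2 : 0 < D.k2 := lt_of_lt_of_le (by norm_num) h.toKin.k2_ge
  have hs : 0 < Real.sqrt (D.c * D.k0) := Real.sqrt_pos.2 (mul_pos hc hk)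
  unfold LevD.At
  apply div_le_div_of_nonneg_right _ hs.le
  have h1 : Real.sqrt (D.c / D.k0) * D.r * (D.t1 - D.t0) = Real.sqrt (D.k2 / D.k0) := by
    have h2 : D.t1 - D.t0 = D.th := by unfold LevD.t1; ring
    rw [h2]
    unfold LevD.r LevD.th
    rw [← Real.sqrt_mul (div_pos hc hk).le, ← Real.sqrt_mul (by positivity)]
    congr 1
    field_simp
  rw [h1]
  apply arctan_big
  apply Real.le_sqrt_of_sq_le
  rw [le_div_iff₀ hk]
  have h3 := h.toKin.ck0
  have h4 := h.toKin.ck2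
  have h5 : D.c * (100 ^ 2 * D.k0) ≤ D.c * D.k2 := by
    have : (1 : ℝ) / 10 ^ 8 * 100 ^ 2 ≤ 10 ^ 4 := by norm_num
    linarith
  exact le_of_mul_le_mul_left h5 hc

end LGaux

open LGaux in
theorem lg : LG := by
  intro D h s hs
  have hc := h.flo.c_pos
  have hk := h.k0_pos'
  have hq : 0 < Real.sqrt (D.c * D.k0) := Real.sqrt_pos.2 (mul_pos hc hk)
  have h1 := At_s0 h
  have h2 := At_t1' h
  have ht1 := LevD.Cm.t1_mem h
  have hlt := LevD.Cm.s0_lt h
  have hle := LevD.Cm.t0_le_t1 h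
  have hsT : s ∈ Icc 0 D.T := ⟨hs.1, hs.2.trans (hlt.le.trans (hle.trans ht1.2))⟩
  have hsig0 : D.sig s = 0 := by
    rw [LevD.Cm.sig_eq, if_pos hs.2]
  have hsig1 : D.sig D.t1 = D.At D.t1 - D.At D.s0 := by
    rw [LevD.Cm.sig_eq, if_neg (by linarith)]
  have h3 : 4 / Real.sqrt (D.c * D.k0) ≤ Real.sqrt 2 * D.sig D.t1 := by
    have h4 : 2 * (Real.pi / 2 - 1 / 100) / Real.sqrt (D.c * D.k0) ≤ D.sig D.t1 := by
      rw [hsig1, mul_div_assoc]
      linarith
    have h5 : (1.41 : ℝ) ≤ Real.sqrt 2 := by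
      apply Real.le_sqrt_of_sq_le; norm_num
    have h6 := Real.pi_gt_d2
    have h7 : (4 : ℝ) ≤ Real.sqrt 2 * (2 * (Real.pi / 2 - 1 / 100)) := by nlinarith
    calc 4 / Real.sqrt (D.c * D.k0)
        ≤ Real.sqrt 2 * (2 * (Real.pi / 2 - 1 / 100)) / Real.sqrt (D.c * D.k0) :=
          div_le_div_of_nonneg_right h7 hq.le
      _ = Real.sqrt 2 * (2 * (Real.pi / 2 - 1 / 100) / Real.sqrt (D.c * D.k0)) := by ring
      _ ≤ Real.sqrt 2 * D.sig D.t1 := mul_le_mul_of_nonneg_left h4 (Real.sqrt_nonneg _)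
  have h8 : D.al s ≤ D.al D.t1 := h.al_mono hsT ht1 (hs.2.trans (hlt.le.trans hle))
  unfold LevD.alp
  rw [hsig0, mul_zero, Real.exp_zero, mul_one]
  exact mul_le_mul h8 (Real.exp_le_exp.2 h3) (Real.exp_pos _).le (h.al_pos D.t1 ht1).le

/-- the same -/
theorem lG : LG := lg

end Pool.Agent.Work.MP_b0497c_an.Unf.A

end

section

set_option autoImplicit false
set_option linter.dupNamespace false

/-!
# Block A, LH1: the wave vector
-/

namespace Pool.Agent.Work.MP_b0497c_an.Unf.A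

open W S P
open Unf.O (LevD NextD)
open Unf.K (kR)

theorem lh1 : LH1 := by
  intro x R0 c₀ X0 n C D hn hP hS
  have hHL : (D n).HL := hS.pre.hl n hn le_rfl
  have hK : (D n).Kn ≠ 0 := by
    have hF := hHL.toFlo
    exact hF.Kn_ne
  have hL : (10 : ℝ) ≤ Real.exp (Lr x (n + 1)) := by
    have h1 := hP.big.exp (n + 1)
    have h2 := hP.big.C_one
    have h3 := hP.big.ell_ge (n + 1)
    have h4 : (1 : ℝ) ≤ ell x (n + 1) ^ 64 := one_le_pow₀ (by linarith)
    have h5 : (10 : ℝ) ≤ Lr x (n + 1) := by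
      refine le_trans ?_ h1
      have h6 : (10 : ℝ) ^ 30 * 1 ≤ 10 ^ 30 * c₀ := by
        apply mul_le_mul_of_nonneg_left h2 (by positivity)
      have h7 : (10 : ℝ) ^ 30 * c₀ * 1 ≤ 10 ^ 30 * c₀ * ell x (n + 1) ^ 64 := by
        apply mul_le_mul_of_nonneg_left h4
        linarith
      have h8 : (10 : ℝ) ≤ (10 : ℝ) ^ 30 * 1 := by norm_num
      linarith
    have h9 := Real.add_one_le_exp (Lr x (n + 1))
    linarith
  obtain ⟨k, h1, h2, -, h4⟩ := K.exists_kv (D n).Kn hK _ hL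
  refine ⟨k, h1, h2, h4.trans ?_⟩
  have h5 : 0 < Real.exp (Lr x (n + 1)) := Real.exp_pos _
  exact div_le_div_of_nonneg_right (by norm_num) h5.le

end Pool.Agent.Work.MP_b0497c_an.Unf.A

end

section

set_option autoImplicit false
set_option linter.dupNamespace false

/-!
# Block A, step lemma LS5: the flow of the new level (from L31 of block L and S17)
-/

open scoped ENNReal
open Set MeasureTheory

namespace Pool.Agent.Work.MP_b0497c_an.Unf.A

open W S P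
open Unf.K (rM rV rMt kR dj kelS covec CoL)
open Unf.K.KDict

namespace LS5

/-- The real part of a complex matrix. -/
noncomputable def reO (B : Mat) : Forced.Ode.Op :=
  reC.comp ((B.restrictScalars ℝ).comp ofC)

theorem rM_eq (θ : Md →+ ℝ) (f : Md → Mat) : rM θ f = reO (ev θ f) := rfl

theorem reO_sub_le (B B' : Mat) : ‖reO B - reO B'‖ ≤ ‖B - B'‖ := by
  refine ContinuousLinearMap.opNorm_le_bound _ (norm_nonneg _) fun x => ?_
  have h1 : (reO B - reO B') x = reC ((B - B') (ofC x)) := by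
    show reC (B (ofC x)) - reC (B' (ofC x)) = _
    rw [← map_sub]
    rfl
  rw [h1]
  refine (norm_reC_le _).trans ?_
  rw [← norm_ofC x]
  exact ContinuousLinearMap.le_opNorm _ _

theorem reO_add (B B' : Mat) : reO (B + B') = reO B + reO B' := by
  ext1 x
  show reC ((B + B') (ofC x)) = reC (B (ofC x)) + reC (B' (ofC x))
  rw [← map_add]
  rfl

theorem comp_sub_le (P Q P' Q' : Mat) :
    ‖P.comp Q - P'.comp Q'‖ ≤ ‖P - P'‖ * ‖Q‖ + ‖P'‖ * ‖Q - Q'‖ := by
  have h1 : P.comp Q - P'.comp Q' = (P - P').comp Q + P'.comp (Q - Q') := by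
    ext1 x
    simp
  rw [h1]
  exact (norm_add_le _ _).trans (add_le_add (ContinuousLinearMap.opNorm_comp_le _ _)
    (ContinuousLinearMap.opNorm_comp_le _ _))

end LS5

open LS5 in
theorem ls5 (h31 : L.L31) : LS5 := by
  intro C m c G β R u v hA H hτ hSd hOdd hR hu hv0 hv1 hcr hRG hLip
  set D := C.dat m c G β u with hD
  have hT : 0 < C.τ (m + 1) := H.T_pos
  have hc0 : 0 < c := H.c_pos
  have hc1 : c ≤ 1 := H.c_le
  have hG2 : 2 ≤ G := H.G_two
  have hGc : 2 ≤ G * c := H.c_G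
  have hG0 : 0 ≤ G := by linarith
  have hG1 : 1 ≤ G := by linarith
  obtain ⟨ρ, Str, hW⟩ := s17 D H
  have hL := hA.lvl m le_rfl
  have hLv : L.Lv D (C.X m) (C.U m) (C.A m) (C.p m) :=
    L.l27.1 C.K (C.τ m) (C.r m) (C.R m) (C.τ (m + 1)) c G m _ _ _ _ _ _ _ hL hT hτ hc0 hcr hRG
      (by linarith)
  have h8c : 8 ≤ 8 / c := by
    rw [le_div_iff₀ hc0]
    nlinarith
  have hGR : G ^ 20 ≤ R := by
    refine le_trans ?_ hR
    calc G ^ 20 ≤ G ^ 1000 := pow_le_pow_right₀ hG1 (by norm_num)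
      _ ≤ (G * (8 / c)) ^ 1000 := by
        refine pow_le_pow_left₀ hG0 ?_ _
        nlinarith
  have hRc : 1 ≤ R * (c / 8) := by
    have h1 : 8 / c ≤ G * (8 / c) := by nlinarith
    have h2 : 8 / c ≤ R := by
      refine (h1.trans ?_).trans hR
      exact le_self_pow₀ (by nlinarith) (by norm_num)
    calc (1:ℝ) = (8 / c) * (c / 8) := by field_simp
      _ ≤ R * (c / 8) := by gcongr
  obtain ⟨w, X', U', a', p', F', Fi', M', z, b, sg, hwin, hLvl, hSht, hU0, hsg0, hval, hlip⟩ :=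
    h31 D ρ Str (C.X m) (C.U m) (C.A m) (C.p m) (C.w (m + 1)) (v (m + 1)) (c / 8) R H hW hSd hOdd
      hLv hv0 hv1 hu.le (by positivity) le_rfl hGR hRc
  refine ⟨X', U', a', p', F', Fi', M', z, b, hLvl, hSht, hU0, ?_⟩
  -- values at the centre
  have hmle : D.m ≤ D.n := H.hmn
  have hFi := (H.F_le m hmle le_rfl).2.1
  have hM := (H.F_le m hmle le_rfl).2.2
  have hα1 : ∀ t ∈ Icc 0 (C.τ (m + 1)), 0 < Dat.one' t := fun _ _ => one_pos
  have nFi : ∀ t ∈ Icc 0 (C.τ (m + 1)), (Summable fun q => ‖C.Fi m t q‖) ∧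
      ‖ev 0 (C.Fi m t)‖ ≤ G := fun t ht => by
    have h := d2_gen (0 : Md →+ ℝ) hc0.le hG0 hα1 hFi ht
    rw [show Dat.one' t = 1 from rfl, mul_one] at h
    exact h
  have nM : ∀ t ∈ Icc 0 (C.τ (m + 1)), (Summable fun q => ‖C.M m t q‖) ∧
      ‖ev 0 (C.M m t)‖ ≤ G := fun t ht => by
    have h := d2_gen (0 : Md →+ ℝ) hc0.le hG0 hα1 hM ht
    rw [show Dat.one' t = 1 from rfl, mul_one] at h
    exact h
  have bFi : BD (C.τ (m + 1)) (C.Fi m) :=
    BD.of_nrm hc0.le (ne_top_of_le_ne_top ENNReal.ofReal_ne_top hFi)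
  have bM : BD (C.τ (m + 1)) (C.M m) :=
    BD.of_nrm hc0.le (ne_top_of_le_ne_top ENNReal.ofReal_ne_top hM)
  have h00 : (0:ℝ) ∈ Icc 0 (C.τ (m + 1)) := ⟨le_rfl, hT.le⟩
  have hder : ∀ t ∈ Icc 0 (C.τ (m + 1)), HasDerivWithinAt (fun t => ev 0 (C.Fi m t))
      (-((ev 0 (C.Fi m t)).comp (ev 0 (C.M m t)))) (Icc 0 (C.τ (m + 1))) t := by
    intro t ht
    obtain ⟨v', hv', hb'⟩ := (BD.mm hT bFi bM).neg
    have h1 := ev_derivW hT hv' hb' (fun q t ht => H.Fi_der m hmle le_rfl q t ht) (nFi 0 h00).1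
      (0 : Md →+ ℝ) ht
    have h2 : ev 0 (fun q => -(mm (C.Fi m t) (C.M m t) q)) =
        -((ev 0 (C.Fi m t)).comp (ev 0 (C.M m t))) := by
      rw [← ev_mm (0 : Md →+ ℝ) (nFi t ht).1 (nM t ht).1]
      unfold ev
      rw [← tsum_neg]
      exact tsum_congr fun q => smul_neg _ _
    rw [← h2]
    exact h1
  have hFiL : ∀ t ∈ Icc 0 (C.τ (m + 1)), ∀ t' ∈ Icc 0 (C.τ (m + 1)),
      ‖ev 0 (C.Fi m t) - ev 0 (C.Fi m t')‖ ≤ G ^ 2 * |t - t'| := by
    intro t ht t' ht'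
    have h1 := (convex_Icc (0:ℝ) (C.τ (m + 1))).norm_image_sub_le_of_norm_hasDerivWithin_le
      (f := fun t => ev 0 (C.Fi m t)) (C := G ^ 2) hder (fun t ht => ?_) ht' ht
    · simpa [Real.norm_eq_abs] using h1
    · rw [norm_neg]
      refine (ContinuousLinearMap.opNorm_comp_le _ _).trans ?_
      rw [sq]
      exact mul_le_mul (nFi t ht).2 (nM t ht).2 (norm_nonneg _) hG0
  intro t ht t' ht'
  have hv : ∀ s ∈ Icc 0 (C.τ (m + 1)), rM 0 (M' s) = rM 0 (C.M m s) +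
      reO ((ev 0 (gradV C.K (w s))).comp (ev 0 (C.Fi m s))) := by
    intro s hs
    have h1 := (hval s hs 0).2.1
    rw [hsg0 s hs] at h1
    rw [rM_eq, h1, reO_add]
    rfl
  rw [hv t ht, hv t' ht']
  have hl := hlip 0
  have habs : 0 ≤ |t - t'| := abs_nonneg _
  have e1 : ‖reO ((ev 0 (gradV C.K (w t))).comp (ev 0 (C.Fi m t))) -
      reO ((ev 0 (gradV C.K (w t'))).comp (ev 0 (C.Fi m t')))‖ ≤
      (G ^ 24 * |t - t'|) * G + G ^ 10 * (G ^ 2 * |t - t'|) := by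
    refine (reO_sub_le _ _).trans ((comp_sub_le _ _ _ _).trans ?_)
    refine add_le_add (mul_le_mul (hl.2 t' ht' t ht) (nFi t ht).2 (norm_nonneg _) (by positivity))
      (mul_le_mul (hl.1 t' ht') (hFiL t ht t' ht') (norm_nonneg _) (by positivity))
  have e2 : (rM 0 (C.M m t) + reO ((ev 0 (gradV C.K (w t))).comp (ev 0 (C.Fi m t)))) -
      (rM 0 (C.M m t') + reO ((ev 0 (gradV C.K (w t'))).comp (ev 0 (C.Fi m t')))) =
      (rM 0 (C.M m t) - rM 0 (C.M m t')) +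
      (reO ((ev 0 (gradV C.K (w t))).comp (ev 0 (C.Fi m t))) -
      reO ((ev 0 (gradV C.K (w t'))).comp (ev 0 (C.Fi m t')))) := by abel
  rw [e2]
  refine (norm_add_le _ _).trans ((add_le_add (hLip t ht t' ht') e1).trans ?_)
  have h3 : G + G ^ 25 + G ^ 12 ≤ G ^ 27 := by
    have a1 : G ≤ G ^ 25 := le_self_pow₀ hG1 (by norm_num)
    have a2 : G ^ 12 ≤ G ^ 25 := pow_le_pow_right₀ hG1 (by norm_num)
    have a3 : 0 < G ^ 25 := by positivity
    have a4 : G ^ 27 = G ^ 25 * G ^ 2 := by ring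
    have a5 : 3 ≤ G ^ 2 := by nlinarith
    rw [a4]
    nlinarith
  calc G * |t - t'| + (G ^ 24 * |t - t'| * G + G ^ 10 * (G ^ 2 * |t - t'|))
      = (G + G ^ 25 + G ^ 12) * |t - t'| := by ring
    _ ≤ G ^ 27 * |t - t'| := by gcongr

end Pool.Agent.Work.MP_b0497c_an.Unf.A

end
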