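import Pool.Agent.Work.MP_b0497c_an.Bd.B34
import Pool.Agent.Work.MP_b0497c_an.Unf.A1c
import Pool.Agent.Work.MP_b0497c_an.Unf.KOne
import Pool.Agent.Work.MP_b0497c_an.Unf.ONext
import Pool.Agent.Work.MP_b0497c_an.Unf.AStmts

/-! Bundle of small proof modules (one section per former module). -/

section

set_option autoImplicit false
set_option linter.unusedSectionVars false

/-!
# Block A: the growth functions `sig` of the windows, (A6) and (A7) for the chain
-/

open Set MeasureTheory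

namespace Pool.Agent.Work.MP_b0497c_an.Unf.O.LevD

variable {D : LevD}

theorem Kin.At_cont (D : LevD) : Continuous D.At := by
  unfold At
  exact (Real.continuous_arctan.comp (by fun_prop)).div_const _

theorem Kin.sig_eq58 (D : LevD) : D.sig = fun t => D.At (max t D.s0) - D.At D.s0 := by
  funext t
  rcases le_total t D.s0 with h | h
  · rw [sig_le D h, max_eq_right h, sub_self]
  · rw [sig_ge D h, max_eq_left h]

theorem Kin.sig_cont (D : LevD) : Continuous D.sig := by
  rw [Kin.sig_eq58]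
  exact ((Kin.At_cont D).comp (by fun_prop)).sub continuous_const

theorem Kin.th_y (h : D.Kin) : Real.sqrt (D.c / D.k0) * D.r * D.th = Real.sqrt (D.k2 / D.k0) := by
  have hk0 := h.k0_pos
  have hc : 0 < D.c := lt_of_lt_of_le (by have := h.b_ge; positivity) h.c_ge
  have hκ : 0 < D.kap := by linarith [h.kap_ge]
  have ha : 0 < D.a := by unfold a; have := h.h_pos; positivity
  have hk2 : 0 < D.k2 := by linarith [h.k2_ge]
  unfold r th
  rw [← Real.sqrt_mul (by positivity), ← Real.sqrt_mul (by positivity)]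
  congr 1
  field_simp

theorem Kin.y_ge (h : D.Kin) : 1 ≤ Real.sqrt (D.k2 / D.k0) := by
  have hk0 := h.k0_pos
  have hc : 0 < D.c := lt_of_lt_of_le (by have := h.b_ge; positivity) h.c_ge
  have h1 := h.ck0
  have h2 := h.ck2
  rw [Real.one_le_sqrt, one_le_div hk0]
  by_contra h3
  push_neg at h3
  have h4 : D.c * D.k2 ≤ D.c * D.k0 := by gcongr
  norm_num at h1 h2
  linarith

theorem Kin.th_pos58 (h : D.Kin) : 0 < D.th := by
  have hc : 0 < D.c := lt_of_lt_of_le (by have := h.b_ge; positivity) h.c_ge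
  have hκ : 0 < D.kap := by linarith [h.kap_ge]
  have ha : 0 < D.a := by unfold a; have := h.h_pos; positivity
  have hk2 : 0 < D.k2 := by linarith [h.k2_ge]
  unfold th
  exact Real.sqrt_pos.2 (by positivity)

theorem Kin.s0_le_t1 (h : D.Kin) : D.s0 ≤ D.t1 := by
  unfold t1
  linarith [h.s0_lt, h.th_pos58]

theorem Kin.At_t1 (h : D.Kin) :
    D.At D.t1 = Real.arctan (Real.sqrt (D.k2 / D.k0)) / Real.sqrt (D.c * D.k0) := by
  unfold At t1
  rw [add_sub_cancel_left, h.th_y]

theorem arctan_le' {z : ℝ} (hz : 0 ≤ z) : Real.arctan z ≤ z := by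
  have h1 := Real.arctan_nonneg.2 hz
  have h2 := Real.le_tan h1 (Real.arctan_lt_pi_div_two z)
  rwa [Real.tan_arctan] at h2

/-- after `t_{n+1}` the growth function is almost constant -/
theorem Kin.sig_late (h : D.Kin) (s : ℝ) : D.sig s - D.sig D.t1 ≤ 1 := by
  rcases le_total s D.t1 with hs | hs
  · linarith [h.sig_mono hs]
  have hk0 := h.k0_pos
  have hc : 0 < D.c := lt_of_lt_of_le (by have := h.b_ge; positivity) h.c_ge
  have hk2 : 0 < D.k2 := by linarith [h.k2_ge]
  rw [sig_ge D (h.s0_le_t1.trans hs), sig_ge D h.s0_le_t1]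
  have hq : 0 < Real.sqrt (D.c * D.k0) := Real.sqrt_pos.2 (by positivity)
  have hy := h.y_ge
  have hy0 : 0 < Real.sqrt (D.k2 / D.k0) := by linarith
  have h1 : D.At s ≤ (Real.pi / 2) / Real.sqrt (D.c * D.k0) := by
    unfold At
    exact div_le_div_of_nonneg_right (Real.arctan_lt_pi_div_two _).le hq.le
  have h2 : Real.pi / 2 - Real.arctan (Real.sqrt (D.k2 / D.k0)) ≤ (Real.sqrt (D.k2 / D.k0))⁻¹ := by
    rw [← Real.arctan_inv_of_pos hy0]
    exact arctan_le' (inv_nonneg.2 hy0.le)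
  have h3 : D.At s - D.At D.t1 ≤ (Real.sqrt (D.k2 / D.k0))⁻¹ / Real.sqrt (D.c * D.k0) := by
    rw [h.At_t1]
    have h4 := div_le_div_of_nonneg_right h2 hq.le
    rw [sub_div] at h4
    linarith
  have h5 : (Real.sqrt (D.k2 / D.k0))⁻¹ / Real.sqrt (D.c * D.k0) = (Real.sqrt (D.c * D.k2))⁻¹ := by
    rw [div_eq_mul_inv, ← mul_inv, ← Real.sqrt_mul (by positivity)]
    congr 2
    field_simp
  have h6 : 1 ≤ Real.sqrt (D.c * D.k2) := by
    rw [Real.one_le_sqrt]
    have := h.ck2
    norm_num at this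
    linarith
  have h7 : (Real.sqrt (D.c * D.k2))⁻¹ ≤ 1 := inv_le_one_of_one_le₀ h6
  rw [h5] at h3
  linarith

/-- the growth of the window -/
theorem Kin.sig_t1 (h : D.Kin) : (3 / 4) / Real.sqrt (D.c * D.k0) ≤ D.sig D.t1 := by
  have hk0 := h.k0_pos
  have hc : 0 < D.c := lt_of_lt_of_le (by have := h.b_ge; positivity) h.c_ge
  have hq : 0 < Real.sqrt (D.c * D.k0) := Real.sqrt_pos.2 (by positivity)
  rw [sig_ge D h.s0_le_t1, h.At_t1]
  have h1 : D.At D.s0 ≤ 0 := by
    unfold At
    refine div_nonpos_of_nonpos_of_nonneg ?_ hq.le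
    rw [← Real.arctan_zero]
    refine Real.arctan_strictMono.monotone ?_
    refine mul_nonpos_of_nonneg_of_nonpos ?_ (by linarith [h.s0_lt])
    exact mul_nonneg (Real.sqrt_nonneg _) (Real.sqrt_nonneg _)
  have h2 : (3:ℝ) / 4 ≤ Real.arctan (Real.sqrt (D.k2 / D.k0)) := by
    have h3 : Real.arctan 1 ≤ Real.arctan (Real.sqrt (D.k2 / D.k0)) :=
      Real.arctan_strictMono.monotone h.y_ge
    rw [Real.arctan_one] at h3
    linarith [Real.pi_gt_three]
  have h4 := div_le_div_of_nonneg_right h2 hq.le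
  linarith

end Pool.Agent.Work.MP_b0497c_an.Unf.O.LevD

namespace Pool.Agent.Work.MP_b0497c_an.Unf.A

open W S P O

/-- The windows `1 .. n`: kinematics and the times `t k`; `T = T_n` is the end of the interval of
the step `n → n + 1`. -/
structure Win (x : ℝ) (n : ℕ) (T : ℝ) (t : ℕ → ℝ) (D : ℕ → LevD) : Prop where
  T_pos : 0 < T
  T_one : T ≤ 1
  t1_mem : t 1 ∈ Set.Icc 0 T
  kin : ∀ k, 1 ≤ k → k ≤ n → (D k).Kin
  t0 : ∀ k, 1 ≤ k → k ≤ n → (D k).t0 = t k
  t_succ : ∀ k, 1 ≤ k → k ≤ n → t (k + 1) = (D k).t1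
  T_eq : 1 ≤ n → T = (D n).T
  hh : ∀ k, 1 ≤ k → k ≤ n → (D k).h = hh x k
  k0 : ∀ k, 1 ≤ k → k ≤ n → (D k).k0 = k0 x k
  k2 : ∀ k, 1 ≤ k → k ≤ n → (D k).k2 = k2f x k
  c_low : ∀ k, 1 ≤ k → k ≤ n → cn x k / 2 ≤ (D k).c
  c_upp : ∀ k, 1 ≤ k → k ≤ n → (D k).c ≤ 2 * cn x k

section

variable {x T : ℝ} {n : ℕ} {t : ℕ → ℝ} {D : ℕ → LevD}

theorem Win.t_lt (H : Win x n T t D) {k : ℕ} (h1 : 1 ≤ k) (h2 : k ≤ n) : t k < t (k + 1) := by
  rw [H.t_succ k h1 h2, ← H.t0 k h1 h2]
  unfold LevD.t1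
  linarith [(H.kin k h1 h2).th_pos58]

theorem Win.t_le_last (H : Win x n T t D) : ∀ k j, 1 ≤ j → j + k = n + 1 → t j ≤ t (n + 1) := by
  intro k
  induction k with
  | zero => intro j _ h; rw [add_zero] at h; rw [h]
  | succ k ih => intro j h1 h; exact (H.t_lt h1 (by omega)).le.trans (ih (j + 1) (by omega) (by omega))

theorem Win.t_ge_first (H : Win x n T t D) : ∀ j, 1 ≤ j → j ≤ n + 1 → t 1 ≤ t j := by
  intro j hj
  induction j, hj using Nat.le_induction with
  | base => intro _; exact le_rfl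
  | succ j hj ih => intro h; exact (ih (by omega)).trans (H.t_lt hj (by omega)).le

theorem Win.last_le (H : Win x n T t D) : t (n + 1) ≤ T := by
  rcases Nat.eq_zero_or_pos n with h0 | h0
  · subst h0
    exact H.t1_mem.2
  · rw [H.t_succ n h0 le_rfl, H.T_eq h0, (H.kin n h0 le_rfl).T_eq]
    unfold LevD.t1
    linarith [(H.kin n h0 le_rfl).th_pos58]

theorem Win.sigSys (H : Win x n T t D) : SigSys n T t (fun k => (D k).sig) where
  T_pos := H.T_pos
  t_mem := fun k h1 h2 => ⟨H.t1_mem.1.trans (H.t_ge_first k h1 h2),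
    (H.t_le_last (n + 1 - k) k h1 (by omega)).trans H.last_le⟩
  t_mono := fun k h1 h2 => (H.t_lt h1 h2).le
  cont := fun k _ _ => (LevD.Kin.sig_cont (D k)).continuousOn
  mono := fun k h1 h2 => (H.kin k h1 h2).sig_mono.monotoneOn _
  late := fun k h1 h2 s _ => by
    rw [H.t_succ k h1 h2]
    exact (H.kin k h1 h2).sig_late s

/-- numbers -/
theorem nat_exp {c₀ : ℝ} (B : Big c₀ x) (n : ℕ) : Real.exp (2 * n) ≤ Real.exp (2 * ell x (n + 3)) := by
  refine Real.exp_le_exp.2 ?_
  have h1 := B.nat_le n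
  have h2 : ell x n ≤ ell x (n + 3) := ell_mono B.one_le (by omega)
  linarith

theorem aa_exp (n : ℕ) : aa x (n + 1) = Real.exp (144 * ell x (n + 3)) := rfl

theorem aG {c₀ : ℝ} (B : Big c₀ x) (n : ℕ) :
    Real.exp 1 * (aa x (n + 1) * Real.exp (2 * n)) ≤ GG x n := by
  have h1 := nat_exp B n
  calc Real.exp 1 * (aa x (n + 1) * Real.exp (2 * n))
      ≤ Real.exp 1 * (aa x (n + 1) * Real.exp (2 * ell x (n + 3))) := by
        have := aa_pos x (n + 1)
        gcongr
    _ = Real.exp (1 + 146 * ell x (n + 3)) := by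
        rw [aa_exp, ← Real.exp_add, ← Real.exp_add]; ring_nf
    _ ≤ GG x n := by
        rw [GG]
        refine Real.exp_le_exp.2 ?_
        have := B.ell_ge (n + 3)
        linarith

theorem aG' {c₀ : ℝ} (B : Big c₀ x) (n : ℕ) : aa x (n + 1) * Real.exp (2 * n) ≤ GG x n := by
  refine le_trans ?_ (aG B n)
  have h1 : 1 ≤ Real.exp 1 := Real.one_le_exp zero_le_one
  have h2 : 0 < aa x (n + 1) * Real.exp (2 * n) := mul_pos (aa_pos _ _) (Real.exp_pos _)
  nlinarith

theorem one_le_aa {c₀ : ℝ} (B : Big c₀ x) (j : ℕ) : 1 ≤ aa x j :=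
  Real.one_le_exp (by have := B.ell_pos (j + 2); linarith)

theorem aa_mono {c₀ : ℝ} (B : Big c₀ x) {i j : ℕ} (h : i ≤ j) : aa x i ≤ aa x j := by
  unfold aa
  refine Real.exp_le_exp.2 ?_
  have := ell_mono B.one_le (show i + 2 ≤ j + 2 by omega)
  linarith

/-- **(A6), (A7)** for the step `n → n + 1`. -/
theorem Win.wgt {c₀ X0 : ℝ} {C : Chain} (B : Big c₀ x) (h1X : 1 ≤ X0) (hXc : X0 ^ 3 ≤ c₀)
    (H : Win x n (C.τ (n + 1)) t D)
    (hα : ∀ j, 1 ≤ j → j ≤ n + 1 → ∀ s ∈ Set.Icc 0 (C.τ (n + 1)),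
      C.α j s = alf (aa x) t (fun k => (D k).sig) j s) :
    Wgt C n (GG x n) (bet x X0 n) ∧ Wt (C.τ (n + 1)) (C.α (n + 1)) ∧
      ∀ s ∈ Set.Icc 0 (C.τ (n + 1)), C.α (n + 1) s ≤ GG x n := by
  have hS := H.sigSys
  have ha : ∀ k, 0 < aa x k := aa_pos x
  have hle : ∀ s ∈ Set.Icc 0 (C.τ (n + 1)),
      alf (aa x) t (fun k => (D k).sig) (n + 1) s ≤ aa x (n + 1) * Real.exp (2 * n) := fun s hs =>
    hS.alf_le (ha _) le_rfl hs
  refine ⟨wgt_of hS ha hα ?_ ?_, ?_, ?_⟩
  · intro i j hj hij hi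
    refine le_trans ?_ (aG' B n)
    have h1 : aa x i / aa x j ≤ aa x (n + 1) := by
      rw [div_le_iff₀ (ha j)]
      have h2 := aa_mono B hi
      have h3 := one_le_aa B j
      nlinarith [ha i, ha (n + 1)]
    gcongr
  · intro s hs r hr hsr
    have hrs : r - s ≤ 1 := by linarith [hr.2, hs.1, H.T_one]
    have hrs0 : 0 ≤ r - s := by linarith
    by_cases hn : n ≤ 2
    · -- coarse level 0
      have hb : bet x X0 n ≤ c₀ := by unfold bet; rw [if_pos hn]; exact hXc
      have hb0 : 0 ≤ bet x X0 n := by unfold bet; rw [if_pos hn]; positivity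
      have h1 : Real.exp (2 * bet x X0 n * (r - s)) ≤ Real.exp (2 * c₀) := by
        refine Real.exp_le_exp.2 ?_
        calc 2 * bet x X0 n * (r - s) ≤ 2 * bet x X0 n * 1 := by gcongr
          _ ≤ 2 * c₀ := by linarith
      have h2 : aa x (n + 1) * Real.exp (2 * n) ≤ aa x (n + 1) ^ 400 := by
        have h3 := nat_exp B n
        have h4 := one_le_aa B (n + 1)
        have h5 : Real.exp (2 * ell x (n + 3)) ≤ aa x (n + 1) := by
          rw [aa_exp]
          refine Real.exp_le_exp.2 ?_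
          have := B.ell_pos (n + 3)
          linarith
        calc aa x (n + 1) * Real.exp (2 * n) ≤ aa x (n + 1) * aa x (n + 1) := by
              have := ha (n + 1)
              gcongr
              exact h3.trans h5
          _ = aa x (n + 1) ^ 2 := by ring
          _ ≤ aa x (n + 1) ^ 400 := pow_le_pow_right₀ h4 (by norm_num)
      calc _ ≤ Real.exp (2 * c₀) * (aa x (n + 1) * Real.exp (2 * n)) :=
            mul_le_mul h1 (hle s hs) (alf_pos' (ha _) s).le (Real.exp_pos _).le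
        _ ≤ Real.exp (2 * c₀) * aa x (n + 1) ^ 400 := by gcongr
        _ ≤ GG x n := B.expC_le n
    · push_neg at hn
      obtain ⟨i, rfl⟩ : ∃ i, n = i + 2 := ⟨n - 2, by omega⟩
      have hi : i + 2 - 2 = i := by omega
      have hbet : bet x X0 (i + 2) = Gm x i ^ 3 := by
        unfold bet; rw [if_neg (by omega), hi]
      have hG1 : 1 ≤ Gm x i := le_trans (by norm_num) (B.Gm_ge i)
      have hk := H.kin (i + 2) (by omega) le_rfl
      have hbg := B.beta_g i
      have hG34 : Gm x i ^ 3 ≤ Gm x i ^ 4 := pow_le_pow_right₀ hG1 (by norm_num)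
      have hG3 : 0 < Gm x i ^ 3 := by positivity
      rcases le_total s (D (i + 2)).s0 with hs0 | hs0
      · -- before the window
        have ht : s ≤ t (i + 2 + 1) := by
          rw [H.t_succ (i + 2) (by omega) le_rfl]
          exact hs0.trans hk.s0_le_t1
        have h1 := hS.alf_early ha (by omega) hs ht
        have h2 : gg x (i + 2) / 500 ≤ Real.sqrt 2 *
            ((D (i + 2)).sig (t (i + 2 + 1)) - (D (i + 2)).sig s) := by
          rw [LevD.sig_le _ hs0, sub_zero, H.t_succ (i + 2) (by omega) le_rfl]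
          have h3 := hk.sig_t1
          have h4 := B.sqrt_c_k0 (H.c_upp (i + 2) (by omega) le_rfl)
          rw [← H.k0 (i + 2) (by omega) le_rfl] at h4
          have hgg : 0 < gg x (i + 2) := mul_pos (Lr_pos _ _) (Lr_pos _ _)
          have hq : 0 < Real.sqrt ((D (i + 2)).c * (D (i + 2)).k0) := by
            refine Real.sqrt_pos.2 (mul_pos ?_ hk.k0_pos)
            exact lt_of_lt_of_le (by have := hk.b_ge; positivity) hk.c_ge
          have h5 : (3 / 4) * (gg x (i + 2) / 2) ≤ (3 / 4) /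
              Real.sqrt ((D (i + 2)).c * (D (i + 2)).k0) := by
            rw [div_eq_mul_inv (3 / 4 : ℝ) (Real.sqrt _)]
            refine mul_le_mul_of_nonneg_left ?_ (by norm_num)
            rw [le_inv_comm₀ (by positivity) hq]
            refine h4.trans (le_of_eq ?_)
            rw [inv_div]
          have h6 : (1:ℝ) ≤ Real.sqrt 2 := by rw [Real.one_le_sqrt]; norm_num
          have h7 : 0 ≤ (D (i + 2)).sig (D (i + 2)).t1 := le_trans (by positivity) h3
          nlinarith
        have h8 : 2 * bet x X0 (i + 2) * (r - s) ≤ gg x (i + 2) / 500 := by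
          rw [hbet]
          calc 2 * Gm x i ^ 3 * (r - s) ≤ 2 * Gm x i ^ 3 * 1 := by gcongr
            _ ≤ 2 * Gm x i ^ 4 := by linarith
            _ ≤ gg x (i + 2) / 500 := by linarith
        calc _ ≤ Real.exp (2 * bet x X0 (i + 2) * (r - s)) * (aa x (i + 2 + 1) *
              Real.exp (-(Real.sqrt 2 * ((D (i + 2)).sig (t (i + 2 + 1)) -
                (D (i + 2)).sig s)))) := mul_le_mul_of_nonneg_left h1 (Real.exp_pos _).le
          _ = aa x (i + 2 + 1) * Real.exp (2 * bet x X0 (i + 2) * (r - s) -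
              Real.sqrt 2 * ((D (i + 2)).sig (t (i + 2 + 1)) - (D (i + 2)).sig s)) := by
                rw [sub_eq_add_neg (2 * bet x X0 (i + 2) * (r - s)), Real.exp_add]; ring
          _ ≤ aa x (i + 2 + 1) * 1 := by
                refine mul_le_mul_of_nonneg_left ?_ (ha _).le
                exact Real.exp_le_one_iff.2 (by linarith)
          _ ≤ aa x (i + 2 + 1) * Real.exp (2 * (i + 2 : ℕ)) := by
                refine mul_le_mul_of_nonneg_left (Real.one_le_exp (by positivity)) (ha _).le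
          _ ≤ GG x (i + 2) := aG' B (i + 2)
      · -- in the window
        have h1 : r - s ≤ 2 * ((P.hh x (i + 2)) ^ 7)⁻¹ := by
          have h2 : r ≤ (D (i + 2)).T := by rw [← H.T_eq (by omega)]; exact hr.2
          have h3 := hk.T_eq
          have h4 : (D (i + 2)).w = ((P.hh x (i + 2)) ^ 7)⁻¹ := by
            unfold LevD.w; rw [H.hh (i + 2) (by omega) le_rfl]
          have h5 := hk.s0_eq
          have h6 : (D (i + 2)).th ≤ (P.hh x (i + 2) ^ 11)⁻¹ := by
            have h7 := B.thv_le (n := i + 2) (κ := (D (i + 2)).kap)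
              (H.c_low (i + 2) (by omega) le_rfl) hk.kap_ge
            refine le_trans (le_of_eq ?_) h7
            unfold LevD.th thv LevD.a
            rw [H.k2 (i + 2) (by omega) le_rfl, H.hh (i + 2) (by omega) le_rfl, aa_eq]
          have h8 : (2:ℝ) ≤ P.hh x (i + 2) := by
            have := B.two_le_exp (y := 6 * ell x (i + 2 + 2))
              (by have := B.ell_ge (i + 2 + 2); linarith)
            exact this
          have h9 : (P.hh x (i + 2) ^ 11)⁻¹ ≤ ((P.hh x (i + 2)) ^ 7)⁻¹ / 2 := by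
            rw [div_eq_mul_inv, ← mul_inv]
            refine inv_anti₀ (by positivity) ?_
            have h10 : (P.hh x (i + 2)) ^ 11 = P.hh x (i + 2) ^ 7 * P.hh x (i + 2) ^ 4 := by ring
            rw [h10]
            gcongr
            calc (2:ℝ) ≤ P.hh x (i + 2) := h8
              _ ≤ P.hh x (i + 2) ^ 4 := le_self_pow₀ (by linarith) (by norm_num)
          have h11 : 0 < ((P.hh x (i + 2)) ^ 7)⁻¹ := by positivity
          linarith
        have h2 : 2 * bet x X0 (i + 2) * (r - s) ≤ 1 := by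
          rw [hbet]
          have h3 : 4 * Gm x i ^ 3 ≤ (P.hh x (i + 2)) ^ 7 := by
            have h4 : (4:ℝ) ≤ Real.exp (ell x (i + 4)) := by
              have := Real.add_one_le_exp (ell x (i + 4))
              have := B.ell_ge (i + 4)
              linarith
            have h5 : ell x (i + 3) ≤ ell x (i + 4) := ell_mono B.one_le (by omega)
            have h6 := B.ell_pos (i + 4)
            rw [Gm, P.hh, ← Real.exp_nat_mul, ← Real.exp_nat_mul]
            calc 4 * Real.exp (((3 : ℕ) : ℝ) * (ell x (i + 3) / 100))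
                ≤ Real.exp (ell x (i + 4)) * Real.exp (((3 : ℕ) : ℝ) * (ell x (i + 3) / 100)) := by
                  gcongr
              _ = Real.exp (ell x (i + 4) + ((3 : ℕ) : ℝ) * (ell x (i + 3) / 100)) := by
                  rw [Real.exp_add]
              _ ≤ Real.exp (((7 : ℕ) : ℝ) * (6 * ell x (i + 2 + 2))) := by
                  refine Real.exp_le_exp.2 ?_
                  push_cast
                  have e : i + 2 + 2 = i + 4 := rfl
                  rw [e]
                  linarith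
          have h7 : 0 < (P.hh x (i + 2)) ^ 7 := pow_pos (P.hh_pos _ _) 7
          calc 2 * Gm x i ^ 3 * (r - s) ≤ 2 * Gm x i ^ 3 * (2 * ((P.hh x (i + 2)) ^ 7)⁻¹) := by
                gcongr
            _ = (4 * Gm x i ^ 3) * ((P.hh x (i + 2)) ^ 7)⁻¹ := by ring
            _ ≤ (P.hh x (i + 2)) ^ 7 * ((P.hh x (i + 2)) ^ 7)⁻¹ := by gcongr
            _ = 1 := mul_inv_cancel₀ h7.ne'
        calc _ ≤ Real.exp 1 * (aa x (i + 2 + 1) * Real.exp (2 * (i + 2 : ℕ))) :=
              mul_le_mul (Real.exp_le_exp.2 h2) (hle s hs) (alf_pos' (ha _) s).le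
                (Real.exp_pos _).le
          _ ≤ GG x (i + 2) := aG B (i + 2)
  · have h1 := hS.alf_wt (a := aa x) (j := n + 1) (ha _) le_rfl
    have h2 : Set.EqOn (C.α (n + 1)) (alf (aa x) t (fun k => (D k).sig) (n + 1))
        (Set.Icc 0 (C.τ (n + 1))) := fun s hs => hα (n + 1) (by omega) le_rfl s hs
    exact ⟨fun s hs => by rw [h2 hs]; exact h1.pos s hs, h1.cont.congr h2,
      h1.mono.congr h2.symm⟩
  · intro s hs
    rw [hα (n + 1) (by omega) le_rfl s hs]
    exact (hle s hs).trans (aG' B n)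

end

end Pool.Agent.Work.MP_b0497c_an.Unf.A

end

section

set_option autoImplicit false
set_option linter.unusedSectionVars false

/-!
# Block A, item LS1: the weights of the step `m → m + 1`
-/

open Set MeasureTheory

namespace Pool.Agent.Work.MP_b0497c_an.Unf.O.LevD

variable {D : LevD}

/-- after `t_{n+1}` the growth function changes by at most `(c k2)^(-1/2)` -/
theorem Kin.sig_late' (h : D.Kin) (s : ℝ) :
    D.sig s - D.sig D.t1 ≤ (Real.sqrt (D.c * D.k2))⁻¹ := by
  have hpos : 0 ≤ (Real.sqrt (D.c * D.k2))⁻¹ := inv_nonneg.2 (Real.sqrt_nonneg _)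
  rcases le_total s D.t1 with hs | hs
  · linarith [h.sig_mono hs]
  have hk0 := h.k0_pos
  have hc : 0 < D.c := lt_of_lt_of_le (by have := h.b_ge; positivity) h.c_ge
  have hk2 : 0 < D.k2 := by linarith [h.k2_ge]
  rw [sig_ge D (h.s0_le_t1.trans hs), sig_ge D h.s0_le_t1]
  have hq : 0 < Real.sqrt (D.c * D.k0) := Real.sqrt_pos.2 (by positivity)
  have hy := h.y_ge
  have hy0 : 0 < Real.sqrt (D.k2 / D.k0) := by linarith
  have h1 : D.At s ≤ (Real.pi / 2) / Real.sqrt (D.c * D.k0) := by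
    unfold At
    exact div_le_div_of_nonneg_right (Real.arctan_lt_pi_div_two _).le hq.le
  have h2 : Real.pi / 2 - Real.arctan (Real.sqrt (D.k2 / D.k0)) ≤ (Real.sqrt (D.k2 / D.k0))⁻¹ := by
    rw [← Real.arctan_inv_of_pos hy0]
    exact arctan_le' (inv_nonneg.2 hy0.le)
  have h3 : D.At s - D.At D.t1 ≤ (Real.sqrt (D.k2 / D.k0))⁻¹ / Real.sqrt (D.c * D.k0) := by
    rw [h.At_t1]
    have h4 := div_le_div_of_nonneg_right h2 hq.le
    rw [sub_div] at h4
    linarith
  have h5 : (Real.sqrt (D.k2 / D.k0))⁻¹ / Real.sqrt (D.c * D.k0) = (Real.sqrt (D.c * D.k2))⁻¹ := by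
    rw [div_eq_mul_inv, ← mul_inv, ← Real.sqrt_mul (by positivity)]
    congr 2
    field_simp
  rw [h5] at h3
  linarith

end Pool.Agent.Work.MP_b0497c_an.Unf.O.LevD

namespace Pool.Agent.Work.MP_b0497c_an.Unf.A

open W S P
open Unf.O (LevD NextD)

namespace ILS1

variable {x R0 c₀ X0 : ℝ} {m : ℕ} {C : Chain} {D : ℕ → LevD}

/-- `(c k2)^(-1/2) ≤ 2^(-k) / 4` -/
theorem late_num (B : Big c₀ x) {k : ℕ} {c : ℝ} (hc : cn x k / 2 ≤ c) :
    (Real.sqrt (c * k2f x k))⁻¹ ≤ (1 / 4) * (1 / 2) ^ k := by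
  have h0 := B.ell_ge k
  have h01 := B.ell_gap k
  have h12 := B.ell_gap (k + 1)
  have hk := B.nat_le k
  have h1 : cn x k * k2f x k = Real.exp (3 * ell x (k + 2) - ell x (k + 1) - 2 * ell x k) := by
    rw [cn, k2f, Lr, Lr, Lr, mul_inv, ← Real.exp_nat_mul, ← Real.exp_nat_mul, ← Real.exp_nat_mul,
      ← Real.exp_nat_mul, ← Real.exp_neg, ← Real.exp_neg, ← Real.exp_add, ← Real.exp_add,
      ← Real.exp_add]
    congr 1
    push_cast
    ring
  have h2 : Real.exp (2 * ell x (k + 1)) ≤ c * k2f x k := by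
    calc Real.exp (2 * ell x (k + 1)) ≤
        Real.exp (3 * ell x (k + 2) - ell x (k + 1) - 2 * ell x k - 1) := by
          refine Real.exp_le_exp.2 ?_
          have e : k + 1 + 1 = k + 2 := rfl
          rw [e] at h12
          linarith
      _ = Real.exp (3 * ell x (k + 2) - ell x (k + 1) - 2 * ell x k) * Real.exp (-1) := by
          rw [← Real.exp_add]; ring_nf
      _ ≤ Real.exp (3 * ell x (k + 2) - ell x (k + 1) - 2 * ell x k) * (1 / 2) := by
          refine mul_le_mul_of_nonneg_left ?_ (Real.exp_pos _).le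
          rw [Real.exp_neg, inv_eq_one_div]
          refine div_le_div_of_nonneg_left zero_le_one (by norm_num) ?_
          have := Real.add_one_le_exp (1 : ℝ)
          linarith
      _ = (cn x k / 2) * k2f x k := by rw [← h1]; ring
      _ ≤ c * k2f x k := mul_le_mul_of_nonneg_right hc (k2f_pos x k).le
  have h3 : Real.exp (ell x (k + 1)) ≤ Real.sqrt (c * k2f x k) := by
    refine Real.le_sqrt_of_sq_le ?_
    refine le_trans (le_of_eq ?_) h2
    rw [sq, ← Real.exp_add]
    ring_nf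
  have h4 : 4 * (2:ℝ) ^ k ≤ Real.exp (ell x (k + 1)) := by
    have h5 : (2:ℝ) ^ (k + 2) ≤ Real.exp 1 ^ (k + 2) := by
      refine pow_le_pow_left₀ (by norm_num) ?_ _
      have := Real.add_one_le_exp (1 : ℝ)
      linarith
    rw [← Real.exp_nat_mul] at h5
    calc 4 * (2:ℝ) ^ k = 2 ^ (k + 2) := by ring
      _ ≤ Real.exp (((k + 2 : ℕ) : ℝ) * 1) := h5
      _ ≤ Real.exp (ell x (k + 1)) := by
          refine Real.exp_le_exp.2 ?_
          push_cast
          linarith
  calc (Real.sqrt (c * k2f x k))⁻¹ ≤ (4 * (2:ℝ) ^ k)⁻¹ := inv_anti₀ (by positivity) (h4.trans h3)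
    _ = (1 / 4) * (1 / 2) ^ k := by
        rw [mul_inv, one_div_pow]
        ring

/-- the weights in product form -/
theorem al_eq (H : PreD x R0 (m + 1) C D) : ∀ j, 1 ≤ j → j ≤ m + 1 → ∀ s,
    (D j).al s = aa x 1 * Real.exp (Real.sqrt 2 * ∑ k ∈ Finset.Ico 1 j, (D k).sig s) := by
  intro j hj
  induction j, hj using Nat.le_induction with
  | base =>
    intro _ s
    rw [H.al_one]
    simp
  | succ j hj ih =>
    intro hjm s
    rw [H.al_succ j hj (by omega)]
    show (D j).al s * Real.exp (Real.sqrt 2 * (D j).sig s) = _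
    rw [ih (by omega) s, Finset.sum_Ico_succ_top hj, _root_.mul_add, Real.exp_add]
    ring

theorem α_alf (H : PreD x R0 (m + 1) C D) : ∀ j, 1 ≤ j → j ≤ m + 1 → ∀ s,
    C.α j s = alf (aa x) (fun k => (D k).t0) (fun k => (D k).sig) j s := by
  intro j h1 h2 s
  rw [H.α_eq j h1 h2]
  show aa x j * ((D j).al s / (D j).al (D j).t0) = _
  rw [al_eq H j h1 h2, al_eq H j h1 h2, alf, Finset.sum_sub_distrib, _root_.mul_sub, Real.exp_sub,
    mul_div_mul_left _ _ (aa_pos x 1).ne']

theorem win (H : PreD x R0 (m + 1) C D) :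
    Win x m (C.τ (m + 1)) (fun k => (D k).t0) D := by
  have hkin : ∀ k, 1 ≤ k → k ≤ m + 1 → (D k).Kin := fun k h1 h2 => (H.hl k h1 h2).toKin
  have hlt : ∀ k, 1 ≤ k → k < m + 1 → (D k).t0 ≤ (D (k + 1)).t0 := by
    intro k h1 h2
    rw [H.t_succ k h1 h2]
    unfold LevD.t1
    linarith [(hkin k h1 h2.le).th_pos58]
  have hge : ∀ k, 1 ≤ k → k ≤ m + 1 → (D 1).t0 ≤ (D k).t0 := by
    intro k hk
    induction k, hk using Nat.le_induction with
    | base => intro _; exact le_rfl
    | succ k hk ih => intro h; exact (ih (by omega)).trans (hlt k hk (by omega))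
  exact
    { T_pos := H.τ_pos
      T_one := H.τ_le.trans ((H.an.lvl m (by omega)).T_le)
      t1_mem := by
        refine ⟨(hkin 1 le_rfl (by omega)).t0_pos.le, ?_⟩
        have h1 := hge (m + 1) (by omega) le_rfl
        have h2 := (hkin (m + 1) (by omega) le_rfl).t0_lt
        have h3 := H.T_le
        show (D 1).t0 ≤ C.τ (m + 1)
        linarith
      kin := fun k h1 h2 => hkin k h1 (by omega)
      t0 := fun k _ _ => rfl
      t_succ := fun k h1 h2 => H.t_succ k h1 (by omega)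
      T_eq := fun h => H.τ_eq m h (by omega)
      hh := fun k h1 h2 => H.h_eq k h1 (by omega)
      k0 := fun k h1 h2 => H.k0_eq k h1 (by omega)
      k2 := fun k h1 h2 => H.k2_eq k h1 (by omega)
      c_low := fun k h1 h2 => H.c_low k h1 (by omega)
      c_upp := fun k h1 h2 => H.c_upp k h1 (by omega) }

/-- the sum of the growth functions after the time `t_{m+1}` -/
theorem sum_le (B : Big c₀ x) (H : PreD x R0 (m + 1) C D) (s : ℝ) :
    ∑ k ∈ Finset.Ico 1 (m + 1), ((D k).sig s - (D k).sig (D (m + 1)).t0) ≤ 1 / 4 := by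
  have hW := win H
  have hS := hW.sigSys
  have hterm : ∀ k ∈ Finset.Ico 1 (m + 1),
      (D k).sig s - (D k).sig (D (m + 1)).t0 ≤ (1 / 4) * (1 / 2) ^ k := by
    intro k hk
    rw [Finset.mem_Ico] at hk
    have hkin := hW.kin k hk.1 (by omega)
    have h1 := hkin.sig_late' s
    have h2 : (D k).t1 ≤ (D (m + 1)).t0 := by
      rw [← H.t_succ k hk.1 hk.2]
      exact hS.t_le' (show 1 ≤ k + 1 by omega) (show k + 1 ≤ m + 1 by omega) le_rfl
    have h3 := hkin.sig_mono h2
    have h4 := late_num B (H.c_low k hk.1 hk.2.le)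
    rw [← H.k2_eq k hk.1 hk.2.le] at h4
    linarith
  refine (Finset.sum_le_sum hterm).trans ?_
  rw [← Finset.mul_sum]
  have h5 : ∑ k ∈ Finset.Ico 1 (m + 1), (1 / 2 : ℝ) ^ k ≤ 1 := by
    have h6 : ∀ m : ℕ, ∑ k ∈ Finset.Ico 1 (m + 1), (1 / 2 : ℝ) ^ k = 1 - (1 / 2) ^ m := by
      intro m
      induction m with
      | zero => simp
      | succ m ih =>
        rw [Finset.sum_Ico_succ_top (by omega), ih]
        ring
    rw [h6]
    have : (0:ℝ) ≤ (1 / 2) ^ m := by positivity
    linarith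
  linarith

end ILS1

open ILS1 in
theorem ls1 : LS1 := by
  intro x R0 c₀ X0 m C D hP H
  have hB := hP.big
  have h := (win H).wgt hB hP.X0_one hP.X0_le (fun j h1 h2 s _ => α_alf H j h1 h2 s)
  refine ⟨h.1, h.2.1, fun s hs => ?_⟩
  rw [α_alf H (m + 1) (by omega) le_rfl, alf, mul_comm 2]
  refine mul_le_mul_of_nonneg_left ?_ (aa_pos x _).le
  have h1 := sum_le hB H s
  have h2 : Real.sqrt 2 * ∑ k ∈ Finset.Ico 1 (m + 1), ((D k).sig s - (D k).sig (D (m + 1)).t0) ≤
      Real.log 2 := by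
    have h3 : Real.sqrt 2 ≤ 3 / 2 := by
      rw [Real.sqrt_le_left (by norm_num)]
      norm_num
    have h4 := Real.log_two_gt_d9
    rcases le_total 0 (∑ k ∈ Finset.Ico 1 (m + 1), ((D k).sig s - (D k).sig (D (m + 1)).t0))
      with h5 | h5
    · calc Real.sqrt 2 * ∑ k ∈ Finset.Ico 1 (m + 1), ((D k).sig s - (D k).sig (D (m + 1)).t0)
          ≤ (3 / 2) * (1 / 4) := mul_le_mul h3 h1 h5 (by norm_num)
        _ ≤ Real.log 2 := by linarith
    · have h6 : Real.sqrt 2 *
          ∑ k ∈ Finset.Ico 1 (m + 1), ((D k).sig s - (D k).sig (D (m + 1)).t0) ≤ 0 :=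
        mul_nonpos_of_nonneg_of_nonpos (Real.sqrt_nonneg _) h5
      linarith
  calc _ ≤ Real.exp (Real.log 2) := Real.exp_le_exp.2 h2
    _ = 2 := Real.exp_log two_pos

end Pool.Agent.Work.MP_b0497c_an.Unf.A

end
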