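import Pool.Agent.Work.MP_b0497c_an.Unf.AStmts
import Pool.Agent.Work.MP_b0497c_an.Bd.B29
import Pool.Agent.Work.MP_b0497c_an.Unf.L28
import Pool.Agent.Work.MP_b0497c_an.Unf.P6

/-! Bundle of small proof modules (one section per former module). -/

section

set_option autoImplicit false
set_option linter.dupNamespace false

/-!
# LSv: the vorticity law at a real label, from L28 (helper10)
-/

open scoped ENNReal NNReal
open Set MeasureTheory

namespace Pool.Agent.Work.MP_b0497c_an.Unf.A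

open W S P
open Unf.K (rM rV rMt)

namespace LSvAux

/-- Uniqueness for a linear equation on `[0,T]`. -/
theorem unique_icc {T : ℝ} {A : ℝ → (E3 →L[ℝ] E3)} {y z : ℝ → E3}
    (hA : ContinuousOn A (Icc 0 T)) (h0 : y 0 = z 0)
    (hy : ∀ t ∈ Icc 0 T, HasDerivWithinAt y (A t (y t)) (Icc 0 T) t)
    (hz : ∀ t ∈ Icc 0 T, HasDerivWithinAt z (A t (z t)) (Icc 0 T) t) :
    ∀ t ∈ Icc 0 T, y t = z t := by
  obtain ⟨C, hC⟩ := (isCompact_Icc (a := (0 : ℝ)) (b := T)).exists_bound_of_continuousOn hA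
  have key := ODE_solution_unique_of_mem_Icc_right (v := fun s x => A s x) (s := fun _ => univ)
    (K := C.toNNReal) (a := 0) (b := T) (f := y) (g := z) ?_ ?_ ?_ ?_ ?_ ?_ ?_ h0
  · exact fun t ht => key ht
  · intro s hs
    apply LipschitzWith.lipschitzOnWith
    refine LipschitzWith.of_dist_le_mul ?_
    intro p q
    rw [dist_eq_norm, dist_eq_norm, ← map_sub]
    refine ((A s).le_opNorm _).trans ?_
    refine mul_le_mul_of_nonneg_right ?_ (norm_nonneg _)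
    exact (hC s (Ico_subset_Icc_self hs)).trans (Real.le_coe_toNNReal C)
  · exact fun t ht => (hy t ht).continuousWithinAt
  · intro t ht
    exact (hy t (Ico_subset_Icc_self ht)).mono_of_mem_nhdsWithin (Icc_mem_nhdsGE_of_mem ht)
  · exact fun _ _ => mem_univ _
  · exact fun t ht => (hz t ht).continuousWithinAt
  · intro t ht
    exact (hz t (Ico_subset_Icc_self ht)).mono_of_mem_nhdsWithin (Icc_mem_nhdsGE_of_mem ht)
  · exact fun _ _ => mem_univ _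

/-- A vector is determined by its cross products. -/
theorem cr_inj {a b : E3} (h : ∀ v, O.cr a v = O.cr b v) : a = b := by
  have h0 := h (e 0)
  have h1 := h (e 1)
  have h01 : (O.cr a (e 0)) 1 = (O.cr b (e 0)) 1 := by rw [h0]
  have h02 : (O.cr a (e 0)) 2 = (O.cr b (e 0)) 2 := by rw [h0]
  have h12 : (O.cr a (e 1)) 2 = (O.cr b (e 1)) 2 := by rw [h1]
  simp [e] at h01 h02 h12
  apply O.ext3
  · simpa using h12
  · simpa using h02
  · simpa using h01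

end LSvAux

open LSvAux in
theorem lsv_of (h28 : L.L28) : LSv := by
  intro K T r R l X U A p F Fi M h θ t ht
  obtain ⟨-, hF, hM, -, hF0, -, -, -, om, hom, hder⟩ := h28 K T r R l X U A p F Fi M h θ
  have hax : ∀ s ∈ Icc 0 T, axial (rM θ (M s)) = om s := by
    intro s hs
    apply cr_inj
    intro v
    rw [← O.axial_cr]
    exact hom s hs v
  have hT : (0 : ℝ) ∈ Icc 0 T := ⟨le_rfl, ht.1.trans ht.2⟩
  rw [hax t ht, hax 0 hT]
  have h2 : ∀ s ∈ Icc 0 T, HasDerivWithinAt (fun s => rM θ (F s) (om 0))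
      (rM θ (M s) (rM θ (F s) (om 0))) (Icc 0 T) s := by
    intro s hs
    exact (hF s hs).clm_apply (hasDerivWithinAt_const s _ (om 0)) |>.congr_deriv (by simp; rfl)
  refine unique_icc (A := fun s => rM θ (M s)) (y := om) (z := fun s => rM θ (F s) (om 0))
    hM ?_ hder h2 t ht
  have h3 : rM θ (F 0) = ContinuousLinearMap.id ℝ E3 := hF0
  rw [h3]
  rfl

/-- The vorticity law at every real label. -/
theorem lsv : LSv := lsv_of (L.l28 L.l08)

end Pool.Agent.Work.MP_b0497c_an.Unf.A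

end

section

set_option autoImplicit false
set_option linter.dupNamespace false

/-!
# Block P: numbers in the shape of `AStmts` (requests of helper30 for LSe, LSh, LH1, LH3, LS5)
-/

open Filter

namespace Pool.Agent.Work.MP_b0497c_an.Unf.P

open O

namespace Big

variable {C x : ℝ} (B : Big C x)
include B

/-- The master inequality of the errors: `exp (-L_{n+1} / 32)` beats every power (up to `10^8`,
`10^10`, `10^6`) of all the constants of the step. -/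
theorem err32 (n : ℕ) {K : ℕ} (hK : K ≤ 10 ^ 9) :
    GG x n ^ K * Real.exp (-(Lr x (n + 1)) / 32) ≤ 1 := by
  rw [GG, ← Real.exp_nat_mul, ← Real.exp_add, Real.exp_le_one_iff]
  have h := B.poly_L' (n := n + 1) (j := 2) (D := 32 * 10 ^ 9 * 70000) (by norm_num)
    (by norm_num) (by have := B.C_one; nlinarith)
  have e : n + 1 + 2 = n + 3 := rfl
  rw [e] at h
  have p := B.ell_pos (n + 3)
  have hK1 : (K : ℝ) ≤ 10 ^ 9 := by exact_mod_cast hK
  have a1 : (K : ℝ) * (70000 * ell x (n + 3)) ≤ 10 ^ 9 * (70000 * ell x (n + 3)) := by gcongr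
  linarith

/-- `h_{n+1}^K' ≤ G_n^K` as soon as `6 K' ≤ 70000 K`. -/
theorem h_le_GG (n : ℕ) {K K' : ℕ} (h : 6 * K' ≤ 70000 * K) : hh x (n + 1) ^ K' ≤ GG x n ^ K := by
  rw [hh, GG, ← Real.exp_nat_mul, ← Real.exp_nat_mul]
  refine Real.exp_le_exp.2 ?_
  have e : n + 1 + 2 = n + 3 := rfl
  rw [e]
  have p := B.ell_pos (n + 3)
  have h1 : 6 * (K' : ℝ) ≤ 70000 * (K : ℝ) := by exact_mod_cast h
  have := mul_le_mul_of_nonneg_right h1 p.le
  linarith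

/-- (helper30) `exp (-L_{n+1}/4) G_n^K ≤ h_{n+1}^(-K')`. -/
theorem err4 (n : ℕ) {K K' : ℕ} (hK : K ≤ 10 ^ 8) (hK' : K' ≤ 10 ^ 12) :
    GG x n ^ K * Real.exp (-(Lr x (n + 1)) / 4) ≤ (hh x (n + 1) ^ K')⁻¹ := by
  have h1 : Real.exp (-(Lr x (n + 1)) / 4) ≤ uOld x (n + 1) ^ 256 := by
    rw [B.uOld_pow]
    refine Real.exp_le_exp.2 ?_
    have h3 := Lr_pos x (n + 1)
    linarith
  refine le_trans ?_ (B.err_le n hK hK')
  have : 0 < GG x n := Real.exp_pos (70000 * ell x (n + 3))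
  gcongr

theorem err4' {n : ℕ} (hn : 1 ≤ n) {K K' : ℕ} (hK : K ≤ 10 ^ 8) (hK' : K' ≤ 10 ^ 12) :
    GG x (n - 1) ^ K * Real.exp (-(Lr x n) / 4) ≤ (hh x n ^ K')⁻¹ := by
  obtain ⟨m, rfl⟩ : ∃ m, n = m + 1 := ⟨n - 1, by omega⟩
  exact B.err4 m hK hK'

theorem err_le' {n : ℕ} (hn : 1 ≤ n) {K K' : ℕ} (hK : K ≤ 10 ^ 8) (hK' : K' ≤ 10 ^ 12) :
    GG x (n - 1) ^ K * uOld x n ^ 256 ≤ (hh x n ^ K')⁻¹ := by
  obtain ⟨m, rfl⟩ : ∃ m, n = m + 1 := ⟨n - 1, by omega⟩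
  exact B.err_le m hK hK'

theorem err_bp' {n : ℕ} (hn : 1 ≤ n) {K K' : ℕ} (hK : K ≤ 10 ^ 8) (hK' : K' ≤ 10 ^ 6) :
    GG x (n - 1) ^ K * uOld x n ^ 256 ≤ (bP x (n - 1) ^ K')⁻¹ := by
  obtain ⟨m, rfl⟩ : ∃ m, n = m + 1 := ⟨n - 1, by omega⟩
  exact B.err_bp m hK hK'

/-- `h^(-10^9)` is much smaller than `b'^(-30)`: `h_n^26000 ...` (any `K ≤ 10^8` left). -/
theorem h9_bp {n : ℕ} (hn : 1 ≤ n) {K : ℕ} (hK : K ≤ 9 * 10 ^ 8) :
    hh x n ^ K * (hh x n ^ (10 ^ 9))⁻¹ ≤ (bP x (n - 1) ^ 30)⁻¹ := by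
  obtain ⟨m, rfl⟩ : ∃ m, n = m + 1 := ⟨n - 1, by omega⟩
  rw [Nat.add_sub_cancel, bP, GG, hh, ← Real.exp_nat_mul, ← Real.exp_nat_mul, ← Real.exp_nat_mul,
    ← Real.exp_nat_mul, ← Real.exp_neg, ← Real.exp_neg, ← Real.exp_add]
  refine Real.exp_le_exp.2 ?_
  have e : m + 1 + 2 = m + 3 := rfl
  rw [e]
  have p := B.ell_pos (m + 3)
  have hK1 : (K : ℝ) ≤ 9 * 10 ^ 8 := by exact_mod_cast hK
  have a1 : (K : ℝ) * (6 * ell x (m + 3)) ≤ 9 * 10 ^ 8 * (6 * ell x (m + 3)) := by gcongr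
  push_cast
  linarith

/-- (helper30) `8 / exp L_{n+1} ≤ (b'^30)^{-1}`, with any factor `G_(n-1)^K`. -/
theorem dir_bp {n : ℕ} (hn : 1 ≤ n) :
    8 / Real.exp (Lr x (n + 1)) ≤ (bP x (n - 1) ^ 30)⁻¹ := by
  obtain ⟨m, rfl⟩ : ∃ m, n = m + 1 := ⟨n - 1, by omega⟩
  rw [Nat.add_sub_cancel, bP, GG, ← Real.exp_nat_mul, ← Real.exp_nat_mul, ← Real.exp_neg,
    div_eq_mul_inv, ← Real.exp_neg]
  have p := B.ell_ge (m + 3)
  have h8 : (8 : ℝ) ≤ Real.exp (ell x (m + 3)) := by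
    have := Real.add_one_le_exp (ell x (m + 3)); linarith
  have h := B.poly_L' (n := m + 1) (j := 2) (D := 10 ^ 8) (by norm_num)
    (by norm_num) (by have := B.C_one; nlinarith)
  have e : m + 1 + 2 = m + 3 := rfl
  rw [e] at h
  have hL : Lr x (m + 1) ≤ Lr x (m + 1 + 1) := by
    have := B.Lr_gap (m + 1)
    have h0 := Lr_pos x (m + 1)
    have : Lr x (m + 1) ≤ (10 : ℝ) ^ 100 * Lr x (m + 1) := by
      have h1 : (1 : ℝ) ≤ (10 : ℝ) ^ 100 := by norm_num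
      nlinarith
    linarith
  calc 8 * Real.exp (-(Lr x (m + 1 + 1)))
      ≤ Real.exp (ell x (m + 3)) * Real.exp (-(Lr x (m + 1 + 1))) := by gcongr
    _ = Real.exp (ell x (m + 3) + -(Lr x (m + 1 + 1))) := (Real.exp_add _ _).symm
    _ ≤ _ := by
        refine Real.exp_le_exp.2 ?_
        push_cast
        linarith

/-! ### comparison of the constants -/

theorem bP_GG (n : ℕ) : bP x n ≤ GG x (n + 1) := by
  rw [bP, GG, GG, ← Real.exp_nat_mul]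
  refine Real.exp_le_exp.2 ?_
  have g := B.ell_gap (n + 3)
  have p := B.ell_pos (n + 3)
  have e : n + 1 + 3 = n + 3 + 1 := by ring
  rw [e]
  push_cast
  linarith

theorem bP_GG' {n : ℕ} (hn : 1 ≤ n) : bP x (n - 1) ≤ GG x n := by
  obtain ⟨m, rfl⟩ : ∃ m, n = m + 1 := ⟨n - 1, by omega⟩
  exact B.bP_GG m

/-- `b_{m+1} ≤ G_m` (with the power `10^4`). -/
theorem bb_GG (m : ℕ) : bb x (m + 1) ^ (10 ^ 4) ≤ GG x m := by
  rw [bb, GG, ← Real.exp_nat_mul]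
  refine Real.exp_le_exp.2 ?_
  have g := B.ell_gap' (m + 2)
  have p := B.ell_pos (m + 2)
  have e : m + 1 + 1 = m + 2 := rfl
  have e' : m + 2 + 1 = m + 3 := rfl
  rw [e]
  rw [e'] at g
  push_cast
  linarith

theorem bb_GG1 (m : ℕ) : bb x (m + 1) ≤ GG x m :=
  (le_self_pow₀ (B.bb_one _) (by norm_num)).trans (B.bb_GG m)

theorem RR_GG (m : ℕ) : RR x m ^ 1000 ≤ GG x m := by
  rw [RR, GG, ← Real.exp_nat_mul]
  refine Real.exp_le_exp.2 ?_
  have e : ell x (m + 3) = ell x (m + 1) ^ 4 := by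
    rw [show m + 3 = m + 1 + 2 by ring, ell_add]; norm_num
  rw [e]
  have p := B.ell_ge (m + 1)
  have hp : 0 ≤ ell x (m + 1) ^ 3 := by have := B.ell_pos (m + 1); positivity
  push_cast
  calc 1000 * ell x (m + 1) ^ 3 ≤ (70000 * ell x (m + 1)) * ell x (m + 1) ^ 3 := by
        gcongr
        linarith
    _ = 70000 * ell x (m + 1) ^ 4 := by ring

theorem RR_one (m : ℕ) : 1 ≤ RR x m :=
  Real.one_le_exp (by have := B.ell_pos (m + 1); positivity)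

theorem RR_GG1 (m : ℕ) : RR x m ≤ GG x m :=
  (le_self_pow₀ (B.RR_one m) (by norm_num)).trans (B.RR_GG m)

/-- `C ≤ ell_0`; so all absolute constants are below everything. -/
theorem C_le_ell (n : ℕ) : 1000 * C ≤ ell x n := by
  have h1 := B.nat 0
  have h2 : ell x 0 ≤ ell x n := ell_mono B.one_le (Nat.zero_le n)
  norm_num at h1
  linarith

theorem C_le_RR (n : ℕ) : C ≤ RR x n := by
  have h1 := B.C_le_ell (n + 1)
  have h2 := B.C_one
  have h3 : ell x (n + 1) ≤ ell x (n + 1) ^ 3 := le_self_pow₀ (by linarith) (by norm_num)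
  have h4 := Real.add_one_le_exp (ell x (n + 1) ^ 3)
  rw [RR]
  linarith

theorem C_le_GG (n : ℕ) : C ^ 1000 ≤ GG x n := by
  have h1 := B.C_le_ell (n + 3)
  have h2 := B.C_one
  have h4 := Real.add_one_le_exp (ell x (n + 3))
  calc C ^ 1000 ≤ Real.exp (ell x (n + 3)) ^ 1000 := by gcongr; linarith
    _ = Real.exp (1000 * ell x (n + 3)) := by rw [← Real.exp_nat_mul]; norm_num
    _ ≤ GG x n := by
        rw [GG]
        refine Real.exp_le_exp.2 ?_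
        have := B.ell_pos (n + 3)
        linarith

theorem C_le_hh (n : ℕ) : C ≤ hh x n := by
  have h1 := B.C_le_ell (n + 2)
  have h2 := B.C_one
  have h4 := Real.add_one_le_exp (6 * ell x (n + 2))
  rw [hh]
  linarith

theorem C_le_bb (n : ℕ) : C ≤ bb x n := by
  have h1 := B.C_le_ell (n + 1)
  have h2 := B.C_one
  have h4 := Real.add_one_le_exp (25000000 * ell x (n + 1))
  rw [bb]
  linarith

theorem cc_RR0 : C * cc x 0 ≤ 1 := by
  have h1 := B.C_le_ell 3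
  have h2 := B.C_one
  have h4 := Real.add_one_le_exp (62000 * ell x 3)
  have h5 : C ≤ Real.exp (62000 * ell x (0 + 3)) := by
    show C ≤ Real.exp (62000 * ell x 3)
    linarith
  rw [cc, Real.exp_neg]
  exact mul_inv_le_one_of_le₀ h5 (Real.exp_pos _).le

/-- `RR x (n-1)^2 ≤ h_n^1000` (for `klb_step`). -/
theorem RR_sq_h {n : ℕ} (hn : 1 ≤ n) : RR x (n - 1) ^ 2 ≤ hh x n ^ 1000 := by
  obtain ⟨m, rfl⟩ : ∃ m, n = m + 1 := ⟨n - 1, by omega⟩
  have h1 := B.R_le_h m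
  have h2 : RR x m ^ 2 ≤ RR x m ^ 6000 := pow_le_pow_right₀ (B.RR_one m) (by norm_num)
  exact (h2.trans h1).trans (le_self_pow₀ (B.hh_one _) (by norm_num))

/-- `h^1000 (G α) u^256 ≤ 1` for every `α ≤ G_{n-1}^100` (for `klb_step`). -/
theorem klb_u {n : ℕ} (hn : 1 ≤ n) {a : ℝ} (ha0 : 0 ≤ a) (ha : a ≤ GG x (n - 1) ^ 1000) :
    hh x n ^ 1000 * (a * uOld x n ^ 256) ≤ 1 := by
  have h := B.err_le' hn (K := 1000) (K' := 1000) (by norm_num) (by norm_num)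
  have hp : 0 < hh x n ^ 1000 := pow_pos (hh_pos x n) _
  have hu : 0 ≤ uOld x n ^ 256 := (pow_pos (uOld_pos x n) _).le
  generalize hh x n ^ 1000 = H at h hp ⊢
  generalize GG x (n - 1) ^ 1000 = G at h ha
  generalize uOld x n ^ 256 = U at h hu ⊢
  calc H * (a * U) ≤ H * (G * U) := by gcongr
    _ ≤ H * H⁻¹ := by gcongr
    _ = 1 := mul_inv_cancel₀ hp.ne'

theorem aa_GG {n : ℕ} (hn : 1 ≤ n) : aa x n ^ 400 ≤ GG x (n - 1) := by
  obtain ⟨m, rfl⟩ : ∃ m, n = m + 1 := ⟨n - 1, by omega⟩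
  have h := B.aa_Gm m
  have h1 : 1 ≤ Gm x m ^ 100000 := one_le_pow₀ (le_trans (by norm_num) (B.Gm_ge m))
  have h2 : 0 ≤ aa x (m + 1) ^ 400 := (pow_pos (aa_pos x _) _).le
  rw [Nat.add_sub_cancel]
  nlinarith

theorem aa_one (n : ℕ) : 1 ≤ aa x n := Real.one_le_exp (by have := B.ell_pos (n + 2); linarith)

theorem two_aa_GG {n : ℕ} (hn : 1 ≤ n) : 2 * aa x n ≤ GG x (n - 1) := by
  refine le_trans ?_ (B.aa_GG hn)
  have h1 := B.aa_one n
  have h2 : 2 ≤ aa x n := by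
    rw [aa]
    exact B.two_le_exp (by have := B.ell_ge (n + 2); linarith)
  calc 2 * aa x n ≤ aa x n * aa x n := by gcongr
    _ = aa x n ^ 2 := by ring
    _ ≤ aa x n ^ 400 := pow_le_pow_right₀ h1 (by norm_num)

/-! ### the rotation rate in the form of `PreD` -/

theorem kappa_num {n : ℕ} {κ : ℝ} (hn : 1 ≤ n) (h1 : 1 - (1 - (1 / 2 : ℝ) ^ n) / 10 ≤ κ)
    (h2 : κ ≤ 1 + (1 - (1 / 2 : ℝ) ^ n) / 10) : KapOK n κ := by
  have h3 : (1 / 2 : ℝ) ^ (n + 2) ≤ (1 / 2 : ℝ) ^ 3 :=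
    pow_le_pow_of_le_one (by norm_num) (by norm_num) (by omega)
  have h4 : (0 : ℝ) < (1 / 2 : ℝ) ^ n := by positivity
  norm_num at h3
  constructor <;> linarith

theorem kappa_step {n : ℕ} {D : LevD} {κ' : ℝ} (M : Num x n D)
    (h1 : 1 - (1 - (1 / 2 : ℝ) ^ n) / 10 ≤ D.kap) (h2 : D.kap ≤ 1 + (1 - (1 / 2 : ℝ) ^ n) / 10)
    (h : |κ' - D.kap| ≤ 100 * D.eta * D.kap) :
    1 - (1 - (1 / 2 : ℝ) ^ (n + 1)) / 10 ≤ κ' ∧ κ' ≤ 1 + (1 - (1 / 2 : ℝ) ^ (n + 1)) / 10 := by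
  have hg := B.eta_geom M.c_lo M.c_hi
  rw [← M.eta_eq] at hg
  have h0 : 0 ≤ D.eta := by rw [M.eta_eq]; exact B.eta_nonneg M.c_pos.le
  obtain ⟨k1, k2⟩ := abs_le.1 h
  obtain ⟨b1, b2⟩ := M.kap_bd
  have hp : (1 / 2 : ℝ) ^ n = 2 * (1 / 2) ^ (n + 1) := by rw [pow_succ]; ring
  have hq : (0 : ℝ) < (1 / 2 : ℝ) ^ (n + 1) := by positivity
  have h6 : 100 * D.eta * D.kap ≤ (1 / 2 : ℝ) ^ (n + 1) / 10 := by
    calc 100 * D.eta * D.kap ≤ 100 * ((10 : ℝ)⁻¹ ^ 50 * (1 / 2) ^ (n + 1)) * (5 / 4) := by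
          have : 0 ≤ D.kap := by linarith
          gcongr
      _ = (100 * (10 : ℝ)⁻¹ ^ 50 * (5 / 4)) * (1 / 2) ^ (n + 1) := by ring
      _ ≤ 1 / 10 * (1 / 2) ^ (n + 1) := by gcongr; norm_num
      _ = _ := by ring
  rw [hp] at h1 h2
  constructor <;> linarith

end Big

/-! ### From `PreD` -/

open A in
/-- The numbers of every wave of the chain. -/
theorem num_of_PreD {C₀ x R0 : ℝ} (B : Big C₀ x) {n : ℕ} {C : Chain} {D : ℕ → LevD}
    (P : PreD x R0 n C D) {j : ℕ} (hj : 1 ≤ j) (hjn : j ≤ n) : Num x j (D j) where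
  b := P.b_eq j hj hjn
  h := P.h_eq j hj hjn
  k0 := P.k0_eq j hj hjn
  k2 := P.k2_eq j hj hjn
  c_lo := P.c_low j hj hjn
  c_hi := P.c_upp j hj hjn
  kap := B.kappa_num hj (P.κ_low j hj hjn) (P.κ_upp j hj hjn)

open A in
/-- The numbers of the next data. -/
theorem numN_nxt (x : ℝ) (n : ℕ) (C : Chain) (D : LevD) (k : Fin 3 → ℤ)
    (F Fi : ℝ → Forced.Ode.Op) : NumN x n (nxt x n C D k F Fi) where
  b := rfl
  bp := rfl
  h := rfl
  k0 := rfl
  k2 := rfl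

open A in
/-- `R0 ≤ c₀`, hence `R0` is below all constants. -/
theorem R0_le {x R0 c₀ X0 : ℝ} (H : Par0 x R0 c₀ X0) : (10 ^ 6 * R0) ^ 2000 ≤ c₀ := by
  refine (H.X0_ge.trans ?_).trans H.X0_le
  exact le_self_pow₀ H.X0_one (by norm_num)

open A in
theorem R0_le' {x R0 c₀ X0 : ℝ} (H : Par0 x R0 c₀ X0) : R0 ≤ c₀ := by
  have h1 := H.R0_two
  refine le_trans ?_ (R0_le H)
  calc R0 ≤ 10 ^ 6 * R0 := by linarith
    _ ≤ (10 ^ 6 * R0) ^ 2000 := le_self_pow₀ (by linarith) (by norm_num)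

open A in
/-- `R0 ≤ RR x 0`, `R0 cc x 0 ≤ 1`, `R0 ≤ GG x 0`. -/
theorem R0_le_RR {x R0 c₀ X0 : ℝ} (H : Par0 x R0 c₀ X0) : R0 ≤ RR x 0 ∧ R0 * cc x 0 ≤ 1 ∧
    R0 ≤ GG x 0 := by
  have h1 := R0_le' H
  have h2 := H.big.C_le_RR 0
  have hc := H.big.cc_pos 0
  refine ⟨h1.trans h2, ?_, (h1.trans h2).trans (H.big.RR_GG1 0)⟩
  exact (mul_le_mul_of_nonneg_right h1 hc.le).trans H.big.cc_RR0

open A in
/-- The constants of the levels of the chain: `C.R l ≤ RR x l` (all `l < n`). -/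
theorem R_le_RR {x R0 c₀ X0 : ℝ} (H : Par0 x R0 c₀ X0) {n : ℕ} {C : Chain} {D : ℕ → LevD}
    (P : PreD x R0 n C D) {l : ℕ} (hl : l < n) : C.R l ≤ RR x l := by
  rcases Nat.eq_zero_or_pos l with rfl | h
  · rw [P.R0_eq]; exact (R0_le_RR H).1
  · rw [P.R_eq l h hl]

end Pool.Agent.Work.MP_b0497c_an.Unf.P

end
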