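import Pool.Agent.Work.MP_b0497c_an.Bd.B13
import Pool.Agent.Work.MP_b0497c_an.Bd.B05
import Pool.Agent.Work.MP_b0497c_an.Bd.B06
import Pool.Agent.Work.MP_b0497c_an.Bd.B26
import Pool.Agent.Work.MP_b0497c_an.Bd.B09
import Pool.Agent.Work.MP_b0497c_an.Bd.B07
import Pool.Agent.Work.MP_b0497c_an.Bd.B08
import Pool.Agent.Work.MP_b0497c_an.Bd.B04
import Pool.Agent.Work.MP_b0497c_an.Unf.S18
import Pool.Agent.Work.MP_b0497c_an.Unf.S19
import Pool.Agent.Work.MP_b0497c_an.Unf.S21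
import Pool.Agent.Work.MP_b0497c_an.Unf.S22
import Pool.Agent.Work.MP_b0497c_an.Unf.S23
import Pool.Agent.Work.MP_b0497c_an.Bd.B35
import Pool.Agent.Work.MP_b0497c_an.Unf.S25
import Pool.Agent.Work.MP_b0497c_an.Unf.S26
import Pool.Agent.Work.MP_b0497c_an.Unf.S28
import Pool.Agent.Work.MP_b0497c_an.Unf.S29
import Pool.Agent.Work.MP_b0497c_an.Unf.C01
import Pool.Agent.Work.MP_b0497c_an.Bd.B14
import Pool.Agent.Work.MP_b0497c_an.Unf.C08
import Pool.Agent.Work.MP_b0497c_an.Unf.AStmts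
import Pool.Agent.Work.MP_b0497c_an.Unf.KDict

/-! Bundle of small proof modules (one section per former module). -/

section

set_option autoImplicit false

/-!
# Blocks S and C, assembled: all items without hypotheses
-/

namespace Pool.Agent.Work.MP_b0497c_an.Unf.S.All

open W S

theorem s01 : S01 := S.s01
theorem s02 : S02 := S.s02 s01
theorem s03 : S03 := S.s03
theorem s04 : S04 := S.s04
theorem s05 : S05 := S.s05 s01 w16
theorem s06 : S06 := S.s06 s01 s03 w16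
theorem s07 : S07 := S.s07 s01 s05
theorem s08 : S08 := S.s08 s01 s02 s06
theorem s09 : S09 := S.s09 s01 s02 s05
theorem s10 : S10 := S.s10 s01 s02 s05
theorem s11 : S11 := S.s11 s01 s02 s07 w01 w02 w03 w05 w06 w09 w11 w12 w21
theorem s15 : S15 := S.s15 w09 w10 w11 w12
theorem s12 : S12 := S.s12 w16 s08 s09 s15
theorem s13 : S13 := S.s13 w16 s09 s15
theorem s14 : S14 := S.s14 w16 s10 s15
theorem s16 : S16 := S.s16 s15
theorem s17 : S17 := S.s17
theorem s18 : S18 := S.s18 w01 w02 w05 w09 w10 w12 w16 s03 s04 s12 s13 s15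
theorem s19 : S19 := S.s19 s03 s04 s08 s09 s12 s13 s15 w16
theorem s20 : S20 := S.s20 s03 s14 s15 w03 w05 w09 w16
theorem s21 : S21 := S.s21 s01 s03 s04 w01 w02 w03 w05 w06 w09 w12 w16
theorem s22 : S22 := S.s22 s01 s03 s04 s11 s15 w01 w02 w03 w05 w06 w09 w10 w11 w12 w16
theorem s23 : S23 := S.s23
theorem s24 : S24 := S.s24 w01 w02 w05 w08 w09 w10 w11 w12 w13 w16 w23 s15 s16 s18 s19 s20 s21
  s22 s23
theorem s25 : S25 := S.s25 s01 s03 w16
theorem s26 : S26 := S.s26 w01 w02 w03 w05 w06 w08 w09 w10 w11 w12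
theorem s27 : S27 := S.s27 w10 w11
theorem s28 : S28 := S.s28 s01 s26 s27 w20
theorem s29 : S29 := S.s29 w10 w11 s15
theorem s30 : S30 := S.s30 s04 s15 s16 w02 w05 w09 w10 w11
theorem s31 : S31 := S.s31
theorem c01 : C01 := S.c01
theorem c02 : C02 := S.c02 w21
theorem c03 : C03 := S.c03 c01 c02
theorem c04 : C04 := S.c04 w10 w11
theorem c05 : C05 := S.c05 c01 c02
theorem c06 : C06 := S.c06
theorem c07 : C07 := S.c07 w09 w10 w11 w16
theorem c08 : C08 := S.c08 w10 w11 w16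
theorem c09 : C09 := S.c09 w10 w11 w21

end Pool.Agent.Work.MP_b0497c_an.Unf.S.All

end

section

set_option autoImplicit false
set_option linter.dupNamespace false

/-!
# Block A, `LSe`: the sheet of the seed at every real label (helper72)
-/

open scoped ENNReal
open Set MeasureTheory

namespace Pool.Agent.Work.MP_b0497c_an.Unf.A

open W S P
open Unf.O (LevD NextD)
open Unf.K (rM rV rMt kR dj kelS covec CoL)

namespace LSeP

/-- the label covector is a multiple of the wave vector -/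
theorem inner_zero {l k v : E3} (hk : 0 < ‖k‖) (h : (‖l‖)⁻¹ • l = (‖k‖)⁻¹ • k)
    (hv : inner ℝ l v = 0) (c : ℝ) : inner ℝ k (c • v) = 0 := by
  have h1 : k = ‖k‖ • ((‖l‖)⁻¹ • l) := by
    rw [h, smul_smul, mul_inv_cancel₀ hk.ne', one_smul]
  rw [inner_smul_right, h1, inner_smul_left, inner_smul_left, hv]
  simp

theorem n_zero {D : LevD} {b' : ℝ} (h : D.Flo b') : D.n 0 = D.l := by
  have h1 := h.FFi 0
  rw [h.F_zero] at h1
  have h2 : D.Fi 0 = ContinuousLinearMap.id ℝ E3 := h1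
  rw [LevD.n, h2]
  refine ext_inner_right ℝ fun v => ?_
  rw [ContinuousLinearMap.adjoint_inner_left]
  rfl

theorem exp_one_le : Real.exp 1 ≤ 3 := by
  have := Real.exp_one_lt_d9
  linarith

/-- the exponent of the envelope is at most twice `h^10000` -/
theorem Aex_le {C x : ℝ} (B : Big C x) (n : ℕ) : (Aex x n : ℝ) ≤ 2 * hh x n ^ 10000 := by
  have h1 : 1 ≤ hh x n ^ 10000 := one_le_pow₀ (B.hh_one n)
  have h2 := Nat.ceil_lt_add_one (show 0 ≤ hh x n ^ 10000 by linarith)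
  show (((⌈hh x n ^ 10000⌉₊ : ℕ)) : ℝ) ≤ _
  linarith

/-- the norm of the envelope at the radius `2 c` -/
theorem env_le {C x : ℝ} (B : Big C x) {n : ℕ} (hn : 1 ≤ n) :
    2 * cc x (n - 1) * (Aex x n * n) ≤ 1 := by
  obtain ⟨m, rfl⟩ : ∃ m, n = m + 1 := ⟨n - 1, by omega⟩
  have h1 := Aex_le B (m + 1)
  have h2 := B.env_cc m
  have h3 := B.cc_pos m
  have h4 : (0 : ℝ) ≤ m := Nat.cast_nonneg m
  have h5 : 0 ≤ hh x (m + 1) ^ 10000 := pow_nonneg (hh_pos x (m + 1)).le _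
  rw [Nat.add_sub_cancel]
  push_cast
  have h6 : (Aex x (m + 1) : ℝ) * (m + 1) ≤ 2 * hh x (m + 1) ^ 10000 * (m + 2) := by
    have h7 : (0 : ℝ) ≤ 2 * hh x (m + 1) ^ 10000 := by linarith
    nlinarith [mul_le_mul_of_nonneg_right h1 (show (0 : ℝ) ≤ (m : ℝ) + 1 by linarith)]
  have h8 : 0 ≤ ((m : ℝ) + 2) * hh x (m + 1) ^ 10000 * cc x m := by positivity
  calc 2 * cc x m * (Aex x (m + 1) * (m + 1))
      ≤ 2 * cc x m * (2 * hh x (m + 1) ^ 10000 * (m + 2)) := by gcongr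
    _ = 4 * (((m : ℝ) + 2) * hh x (m + 1) ^ 10000 * cc x m) := by ring
    _ ≤ 1000 * (((m : ℝ) + 2) * hh x (m + 1) ^ 10000 * cc x m) := by linarith
    _ = 1000 * ((m : ℝ) + 2) * hh x (m + 1) ^ 10000 * cc x m := by ring
    _ ≤ 1 := h2

theorem env_le' {C x : ℝ} (B : Big C x) {n : ℕ} (hn : 1 ≤ n) :
    Real.exp (2 * cc x (n - 1)) * ((1 + Real.exp (2 * cc x (n - 1))) / 2) ^ (Aex x n * n) ≤ 27 := by
  have hc := B.cc_pos (n - 1)
  have hc1 := B.cc_le_one (n - 1)
  have h1 : Real.exp (2 * cc x (n - 1)) ≤ 9 := by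
    calc Real.exp (2 * cc x (n - 1)) ≤ Real.exp (1 + 1) := Real.exp_le_exp.2 (by linarith)
      _ = Real.exp 1 * Real.exp 1 := Real.exp_add _ _
      _ ≤ 3 * 3 := by
        have := exp_one_le
        have := Real.exp_pos 1
        nlinarith
      _ = 9 := by norm_num
  have h2 := env_const (c := 2 * cc x (n - 1)) (by linarith) (A := Aex x n) (n := n)
    (env_le B hn)
  have h3 : ((1 + Real.exp (2 * cc x (n - 1))) / 2) ^ (Aex x n * n) ≤ 3 := h2.trans exp_one_le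
  have h4 : 0 ≤ ((1 + Real.exp (2 * cc x (n - 1))) / 2) ^ (Aex x n * n) := by positivity
  calc Real.exp (2 * cc x (n - 1)) * ((1 + Real.exp (2 * cc x (n - 1))) / 2) ^ (Aex x n * n)
      ≤ 9 * 3 := mul_le_mul h1 h3 h4 (by norm_num)
    _ = 27 := by norm_num

theorem reC_real (ρ : ℝ) (V : E3) : reC ((ρ : ℂ) • ofC V) = ρ • V := by
  ext i
  rw [reC_apply]
  simp [ofC_apply]

/-- the modulus of the error -/
theorem num {C x N : ℝ} (B : Big C x) {n : ℕ} (hn : 1 ≤ n) (hN : Real.exp (Lr x n) / 2 ≤ N) :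
    2 * (4 * Real.exp (Lr x (n - 1)) / N) / cc x (n - 1) * 27 ≤ Real.exp (-(Lr x n) / 4) := by
  have hE := Real.exp_pos (Lr x n)
  have hN0 : 0 < N := lt_of_lt_of_le (by linarith) hN
  have hc := B.cc_pos (n - 1)
  have e0 : n - 1 + 1 = n := by omega
  have hgap := B.Lr_gap (n - 1)
  rw [e0] at hgap
  have h1 : 4 * Real.exp (Lr x (n - 1)) / N ≤
      4 * Real.exp (Lr x (n - 1)) / (Real.exp (Lr x n) / 2) := by gcongr
  have hL := B.Lr_one (n - 1)
  have hell := B.poly_L' (n := n) (j := 2) (by norm_num) (D := 10 ^ 6) (by norm_num)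
    (by have := B.C_one; nlinarith)
  have e1 : n - 1 + 3 = n + 2 := by omega
  have hexp : (432 : ℝ) ≤ Real.exp (Lr x n / 100) := by
    have h2 := Real.add_one_le_exp (Lr x n / 100)
    have h3 := B.Lr_ge n
    have h4 : (432 : ℝ) * 100 ≤ 10 ^ 100 := by norm_num
    linarith
  calc 2 * (4 * Real.exp (Lr x (n - 1)) / N) / cc x (n - 1) * 27
      ≤ 2 * (4 * Real.exp (Lr x (n - 1)) / (Real.exp (Lr x n) / 2)) / cc x (n - 1) * 27 := by
        gcongr
    _ = 432 * (Real.exp (Lr x (n - 1)) * (Real.exp (Lr x n))⁻¹ * (cc x (n - 1))⁻¹) := by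
        field_simp
        ring
    _ = 432 * Real.exp (Lr x (n - 1) + -(Lr x n) + 62000 * ell x (n + 2)) := by
        rw [cc, e1, ← Real.exp_neg, ← Real.exp_neg, neg_neg, ← Real.exp_add, ← Real.exp_add]
    _ ≤ Real.exp (Lr x n / 100) *
        Real.exp (Lr x (n - 1) + -(Lr x n) + 62000 * ell x (n + 2)) := by gcongr
    _ = Real.exp (Lr x n / 100 + (Lr x (n - 1) + -(Lr x n) + 62000 * ell x (n + 2))) := by
        rw [← Real.exp_add]
    _ ≤ Real.exp (-(Lr x n) / 4) := by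
        refine Real.exp_le_exp.2 ?_
        have h5 : 100 * Lr x (n - 1) ≤ (10 : ℝ) ^ 100 * Lr x (n - 1) := by
          have : (100 : ℝ) ≤ 10 ^ 100 := by norm_num
          nlinarith
        have h6 := Lr_pos x n
        linarith

end LSeP

open LSeP

theorem lse : LSe := by
  intro x R0 c₀ X0 n C D hn hP hD
  have B := hP.big
  have hl := hD.hl n hn le_rfl
  have hlow := hD.K_size.low n hn le_rfl
  have hE := Real.exp_pos (Lr x n)
  have hkv : 0 < ‖kv (C.K n)‖ := lt_of_lt_of_le (by linarith) hlow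
  have hkR : ‖kv (C.K n)‖ = ‖kR (C.K n)‖ := by rw [K.KDict.kv_eq, K.KDict.norm_ofC]
  have hk0 : 0 < ‖kR (C.K n)‖ := by rw [← hkR]; exact hkv
  have horth : inner ℝ (kR (C.K n)) (Vseed C n (D n)) = 0 := by
    refine inner_zero hk0 hD.l_eq ?_ _
    have h1 := hl.v_orth 0
    rwa [n_zero hl.toFlo] at h1
  have horthC : inner ℂ (kv (C.K n)) (ofC (Vseed C n (D n))) = 0 := by
    rw [K.KDict.kv_eq, K.KDict.inner_ofC, horth]
    simp
  have hc := B.cc_pos (n - 1)
  -- the sizes of the old wave vectors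
  have hB : ∀ i < n, ‖kv (C.K i)‖ ≤ 4 * Real.exp (Lr x (n - 1)) := by
    intro i hi
    rcases Nat.eq_zero_or_pos i with rfl | hi0
    · rw [hD.K_size.zero]
      have h1 : Real.sqrt 14 ≤ 4 := Real.sqrt_le_iff.2 ⟨by norm_num, by norm_num⟩
      have h2 : 1 ≤ Real.exp (Lr x (n - 1)) := Real.one_le_exp (Lr_pos x _).le
      linarith
    · have h1 := hD.K_size.upp i hi0 hi.le
      have h2 : Real.exp (Lr x i) ≤ Real.exp (Lr x (n - 1)) :=
        Real.exp_le_exp.2 (Lr_mono B.one_le (by omega))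
      have h3 := Real.exp_pos (Lr x (n - 1))
      linarith
  have hB0 : 0 ≤ 4 * Real.exp (Lr x (n - 1)) := by positivity
  have hsum : Summable fun q => ‖C.w n q‖ := by
    rw [hD.w_eq]
    exact summable_of_sN le_rfl (ne_top_of_le_ne_top ENNReal.ofReal_ne_top
      (sN_seed C.K le_rfl (Aex x n) n (ofC (Vseed C n (D n)))))
  have hdj : ∀ w : Md → C3, dj n w = dse n w := fun w => rfl
  have hdsum : Summable fun q => ‖dj n (C.w n) q‖ := by
    have h1 : ∀ q, ‖dj n (C.w n) q‖ ≤ 1 * len q * ‖C.w n q‖ := by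
      intro q
      rw [dj, norm_smul, norm_mul, Complex.norm_I, one_mul, one_mul]
      gcongr
      exact (s01 C.K).2.1 q n
    have h2 := sN_len one_pos zero_le_one (C.w n) _ h1
    refine summable_of_sN zero_le_one (ne_top_of_le_ne_top (ENNReal.mul_ne_top
      ENNReal.ofReal_ne_top ?_) h2)
    rw [hD.w_eq]
    exact ne_top_of_le_ne_top ENNReal.ofReal_ne_top
      (sN_seed C.K (by norm_num) (Aex x n) n (ofC (Vseed C n (D n))))
  refine ⟨horth, hsum, hdsum, fun θ => ?_⟩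
  have key := ev_dse_seed hc θ (A := Aex x n) (n := n) (K := C.K) hB0 hB hkv horthC
  have e1 : rV θ (dj n (C.w n)) -
      (Real.cos (θ (em n)) * envR (Aex x n) n θ) • Vseed C n (D n) =
      reC (ev θ (dse n (seed C.K (Aex x n) n (ofC (Vseed C n (D n))))) -
        (((Real.cos (θ (em n)) * envR (Aex x n) n θ : ℝ)) : ℂ) • ofC (Vseed C n (D n))) := by
    rw [map_sub, reC_real, hdj, hD.w_eq]
    rfl
  rw [e1]
  refine (K.KDict.norm_reC_le _).trans (key.trans ?_)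
  rw [K.KDict.norm_ofC]
  have h1 := env_le' B hn
  have h2 := num B hn hlow
  have hV := norm_nonneg (Vseed C n (D n))
  calc 2 * (4 * Real.exp (Lr x (n - 1)) / ‖kv (C.K n)‖) / cc x (n - 1) *
        (Real.exp (2 * cc x (n - 1)) * ((1 + Real.exp (2 * cc x (n - 1))) / 2) ^ (Aex x n * n) *
          ‖Vseed C n (D n)‖)
      ≤ 2 * (4 * Real.exp (Lr x (n - 1)) / ‖kv (C.K n)‖) / cc x (n - 1) *
        (27 * ‖Vseed C n (D n)‖) := by gcongr
    _ = (2 * (4 * Real.exp (Lr x (n - 1)) / ‖kv (C.K n)‖) / cc x (n - 1) * 27) *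
        ‖Vseed C n (D n)‖ := by ring
    _ ≤ Real.exp (-(Lr x n) / 4) * ‖Vseed C n (D n)‖ := by gcongr

end Pool.Agent.Work.MP_b0497c_an.Unf.A

end

section

set_option autoImplicit false
set_option linter.dupNamespace false

/-!
# Block A, `LS4`: the seed satisfies (A9)
-/

open scoped ENNReal
open Set MeasureTheory

namespace Pool.Agent.Work.MP_b0497c_an.Unf.A

open W S P
open Unf.O (LevD NextD)
open Unf.K (rM rV rMt kR dj kelS covec CoL)

namespace LS4P

/-- the label covector has norm at most `b` -/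
theorem l_le {D : LevD} {b' : ℝ} (h : D.Flo b') : ‖D.l‖ ≤ b' := by
  have ht : D.t0 ∈ Icc 0 D.T := ⟨h.t0_pos.le, h.t0_lt.le⟩
  have h1 : ContinuousLinearMap.adjoint (D.F D.t0) (D.n D.t0) = D.l := by
    refine ext_inner_right ℝ fun v => ?_
    rw [ContinuousLinearMap.adjoint_inner_left, LevD.n, ContinuousLinearMap.adjoint_inner_left]
    have h2 := h.FiF D.t0
    have h3 : (D.Fi D.t0) ((D.F D.t0) v) = v := by
      have := congrArg (fun L : E3 →L[ℝ] E3 => L v) h2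
      exact this
    rw [h3]
  rw [← h1]
  refine ((ContinuousLinearMap.adjoint (D.F D.t0)).le_opNorm _).trans ?_
  rw [h.n_one, mul_one, LinearIsometryEquiv.norm_map]
  exact (h.F_le _ ht).1

/-- the vector of the seed -/
theorem V_le {x R0 : ℝ} {n : ℕ} (hn : 1 ≤ n) {C : Chain} {D : ℕ → LevD} (hD : PreD x R0 n C D)
    (hk : 0 < ‖kR (C.K n)‖) :
    ‖Vseed C n (D n)‖ ≤ bb x n ^ 2 * (C.α n 0 / ‖kR (C.K n)‖) := by
  have hl := hD.hl n hn le_rfl
  have h0 : (0 : ℝ) ∈ Icc 0 (D n).T := ⟨le_rfl, (hl.t0_pos.trans hl.t0_lt).le⟩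
  have ht : (D n).t0 ∈ Icc 0 (D n).T := ⟨hl.t0_pos.le, hl.t0_lt.le⟩
  have hb := hD.b_eq n hn le_rfl
  have ha : (D n).a = aa x n := by rw [LevD.a, hD.h_eq n hn le_rfl, aa_eq]
  have h1 := (hl.v_size 0 h0).2
  have h2 := l_le hl.toFlo
  rw [hb] at h1 h2
  rw [ha] at h1
  have hp0 := hl.al_pos 0 h0
  have hpt := hl.al_pos _ ht
  have hap := aa_pos x n
  have hα : C.α n 0 = aa x n * ((D n).al 0 / (D n).al (D n).t0) := by
    rw [hD.α_eq n hn le_rfl]
  have h3 : ‖(D n).v 0‖ ≤ bb x n * C.α n 0 := by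
    rw [hα]
    have e : ‖(D n).v 0‖ = ‖(D n).v 0‖ / aa x n * ((D n).al (D n).t0 / (D n).al 0) *
        (aa x n * ((D n).al 0 / (D n).al (D n).t0)) := by
      field_simp
    rw [e]
    have : 0 ≤ aa x n * ((D n).al 0 / (D n).al (D n).t0) := by positivity
    gcongr
  have hbp := bb_pos x n
  rw [Vseed, norm_smul, Real.norm_eq_abs, abs_of_nonneg (by positivity)]
  calc ‖(D n).l‖ / ‖kR (C.K n)‖ * ‖(D n).v 0‖
      ≤ bb x n / ‖kR (C.K n)‖ * (bb x n * C.α n 0) := by gcongr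
    _ = bb x n ^ 2 * (C.α n 0 / ‖kR (C.K n)‖) := by ring

/-- the envelope at the radius `c` -/
theorem env_le1 {C x : ℝ} (B : Big C x) {n : ℕ} (hn : 1 ≤ n) :
    Real.exp (cc x (n - 1)) * ((1 + Real.exp (cc x (n - 1))) / 2) ^ (Aex x n * n) ≤ 27 := by
  refine le_trans ?_ (LSeP.env_le' B hn)
  have h := B.cc_pos (n - 1)
  have h1 : cc x (n - 1) ≤ 2 * cc x (n - 1) := by linarith
  gcongr

/-- the modulus of the error -/
theorem num {C x N : ℝ} (B : Big C x) {n : ℕ} (hn : 1 ≤ n) (hN : Real.exp (Lr x n) / 2 ≤ N) :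
    2 * (4 * Real.exp (Lr x (n - 1)) / N) / cc x (n - 1) * 27 * bb x n ^ 2 ≤
      Real.exp (-(Lr x n) / 4) := by
  have hE := Real.exp_pos (Lr x n)
  have hN0 : 0 < N := lt_of_lt_of_le (by linarith) hN
  have hc := B.cc_pos (n - 1)
  have hb := bb_pos x n
  have e0 : n - 1 + 1 = n := by omega
  have hgap := B.Lr_gap (n - 1)
  rw [e0] at hgap
  have hL := B.Lr_one (n - 1)
  have hell := B.poly_L' (n := n) (j := 2) (by norm_num) (D := 10 ^ 6) (by norm_num)
    (by have := B.C_one; nlinarith)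
  have hell1 := B.poly_L' (n := n) (j := 1) (by norm_num) (D := 10 ^ 10) (by norm_num)
    (by have := B.C_one; nlinarith)
  have e1 : n - 1 + 3 = n + 2 := by omega
  have hexp : (432 : ℝ) ≤ Real.exp (Lr x n / 100) := by
    have h2 := Real.add_one_le_exp (Lr x n / 100)
    have h3 := B.Lr_ge n
    have h4 : (432 : ℝ) * 100 ≤ 10 ^ 100 := by norm_num
    linarith
  calc 2 * (4 * Real.exp (Lr x (n - 1)) / N) / cc x (n - 1) * 27 * bb x n ^ 2
      ≤ 2 * (4 * Real.exp (Lr x (n - 1)) / (Real.exp (Lr x n) / 2)) / cc x (n - 1) * 27 *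
        bb x n ^ 2 := by
        gcongr
    _ = 432 * (Real.exp (Lr x (n - 1)) * (Real.exp (Lr x n))⁻¹ * (cc x (n - 1))⁻¹ *
        bb x n ^ 2) := by
        field_simp
        ring
    _ = 432 * Real.exp (Lr x (n - 1) + -(Lr x n) + 62000 * ell x (n + 2) +
        2 * (25000000 * ell x (n + 1))) := by
        rw [cc, e1, bb, ← Real.exp_neg, ← Real.exp_neg, neg_neg, ← Real.exp_add, ← Real.exp_add,
          ← Real.exp_nat_mul, ← Real.exp_add]
        push_cast
        rfl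
    _ ≤ Real.exp (Lr x n / 100) * Real.exp (Lr x (n - 1) + -(Lr x n) + 62000 * ell x (n + 2) +
        2 * (25000000 * ell x (n + 1))) := by gcongr
    _ = Real.exp (Lr x n / 100 + (Lr x (n - 1) + -(Lr x n) + 62000 * ell x (n + 2) +
        2 * (25000000 * ell x (n + 1)))) := by
        rw [← Real.exp_add]
    _ ≤ Real.exp (-(Lr x n) / 4) := by
        refine Real.exp_le_exp.2 ?_
        have h5 : 100 * Lr x (n - 1) ≤ (10 : ℝ) ^ 100 * Lr x (n - 1) := by
          have : (100 : ℝ) ≤ 10 ^ 100 := by norm_num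
          nlinarith
        have h6 := Lr_pos x n
        linarith

theorem uNew_256 (x : ℝ) (j : ℕ) : uNew x j ^ 256 = Real.exp (-(Lr x j) / 4) := by
  rw [uNew, ← Real.exp_nat_mul]; congr 1; push_cast; ring

end LS4P

open LS4P

theorem ls4 : LS4 := by
  intro x R0 c₀ X0 m C D hP hD
  have B := hP.big
  have hn : 1 ≤ m + 1 := by omega
  have hl := hD.hl (m + 1) hn le_rfl
  have hlow := hD.K_size.low (m + 1) hn le_rfl
  have hE := Real.exp_pos (Lr x (m + 1))
  have hkv : 0 < ‖kv (C.K (m + 1))‖ := lt_of_lt_of_le (by linarith) hlow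
  have hkR : ‖kv (C.K (m + 1))‖ = ‖kR (C.K (m + 1))‖ := by
    rw [K.KDict.kv_eq, K.KDict.norm_ofC]
  have hk0 : 0 < ‖kR (C.K (m + 1))‖ := by rw [← hkR]; exact hkv
  have horth : inner ℝ (kR (C.K (m + 1))) (Vseed C (m + 1) (D (m + 1))) = 0 := by
    refine LSeP.inner_zero hk0 hD.l_eq ?_ _
    have h1 := hl.v_orth 0
    rwa [LSeP.n_zero hl.toFlo] at h1
  have horthC : inner ℂ (kv (C.K (m + 1))) (ofC (Vseed C (m + 1) (D (m + 1)))) = 0 := by
    rw [K.KDict.kv_eq, K.KDict.inner_ofC, horth]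
    simp
  have hc := B.cc_pos m
  have hB : ∀ i < m + 1, ‖kv (C.K i)‖ ≤ 4 * Real.exp (Lr x m) := by
    intro i hi
    rcases Nat.eq_zero_or_pos i with rfl | hi0
    · rw [hD.K_size.zero]
      have h1 : Real.sqrt 14 ≤ 4 := Real.sqrt_le_iff.2 ⟨by norm_num, by norm_num⟩
      have h2 : 1 ≤ Real.exp (Lr x m) := Real.one_le_exp (Lr_pos x _).le
      linarith
    · have h1 := hD.K_size.upp i hi0 hi.le
      have h2 : Real.exp (Lr x i) ≤ Real.exp (Lr x m) :=
        Real.exp_le_exp.2 (Lr_mono B.one_le (by omega))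
      have h3 := Real.exp_pos (Lr x m)
      linarith
  have hB0 : 0 ≤ 4 * Real.exp (Lr x m) := by positivity
  have hV := V_le hn hD hk0
  have h0 : (0 : ℝ) ∈ Icc 0 (D (m + 1)).T := ⟨le_rfl, (hl.t0_pos.trans hl.t0_lt).le⟩
  have ht : (D (m + 1)).t0 ∈ Icc 0 (D (m + 1)).T := ⟨hl.t0_pos.le, hl.t0_lt.le⟩
  have hα0 : 0 ≤ C.α (m + 1) 0 := by
    rw [hD.α_eq (m + 1) hn le_rfl]
    have h1 := hl.al_pos 0 h0
    have h2 := hl.al_pos _ ht
    have h3 := aa_pos x (m + 1)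
    show 0 ≤ aa x (m + 1) * ((D (m + 1)).al 0 / (D (m + 1)).al (D (m + 1)).t0)
    positivity
  have hb := bb_pos x (m + 1)
  refine ⟨⟨?_, ?_, ?_, ?_⟩, ⟨?_, ?_⟩, ?_⟩
  · show SuppIn (Cl (m + 1)) (C.w (m + 1))
    rw [hD.w_eq]
    exact seed_supp _ _ _ _
  · intro q
    show inner ℂ (xi C.K q) (C.w (m + 1) q) = 0
    rw [hD.w_eq]
    exact seed_div _ _ _ _ q
  · show sN (cc x m) (C.w (m + 1)) ≤
      ENNReal.ofReal (GG x m * C.α (m + 1) 0 / ‖kv (C.K (m + 1))‖)
    rw [hD.w_eq]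
    refine (sN_seed C.K hc.le _ _ _).trans (ENNReal.ofReal_le_ofReal ?_)
    rw [K.KDict.norm_ofC, hkR]
    have h1 := env_le1 B hn
    rw [Nat.add_sub_cancel] at h1
    have h2 : 27 * bb x (m + 1) ^ 2 ≤ GG x m := by
      have h3 := B.bb_ten (m + 1)
      have h4 : bb x (m + 1) ^ 4 ≤ hh x (m + 1) := B.b_pow_le (by norm_num)
      have h5 : hh x (m + 1) ≤ hh x (m + 1) ^ 11000 :=
        le_self_pow₀ (B.hh_one (m + 1)) (by norm_num)
      have h6 := B.h_GG m
      have h7 : 27 * bb x (m + 1) ^ 2 ≤ bb x (m + 1) ^ 4 := by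
        have h8 : 27 ≤ bb x (m + 1) ^ 2 := by nlinarith
        have h9 : 0 ≤ bb x (m + 1) ^ 2 := by positivity
        calc 27 * bb x (m + 1) ^ 2 ≤ bb x (m + 1) ^ 2 * bb x (m + 1) ^ 2 := by gcongr
          _ = bb x (m + 1) ^ 4 := by ring
      linarith
    have h10 : 0 ≤ C.α (m + 1) 0 / ‖kR (C.K (m + 1))‖ := by positivity
    calc Real.exp (cc x m) * ((1 + Real.exp (cc x m)) / 2) ^ (Aex x (m + 1) * (m + 1)) *
          ‖Vseed C (m + 1) (D (m + 1))‖
        ≤ 27 * (bb x (m + 1) ^ 2 * (C.α (m + 1) 0 / ‖kR (C.K (m + 1))‖)) := by gcongr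
      _ = (27 * bb x (m + 1) ^ 2) * (C.α (m + 1) 0 / ‖kR (C.K (m + 1))‖) := by ring
      _ ≤ GG x m * (C.α (m + 1) 0 / ‖kR (C.K (m + 1))‖) := by gcongr
      _ = _ := by ring
  · show sN (cc x m) (fun q => innerSL ℂ (kv (C.K (m + 1))) (C.w (m + 1) q)) ≤
      ENNReal.ofReal (uu x m (m + 1) ^ 256 * C.α (m + 1) 0)
    rw [hD.w_eq]
    refine (sN_K_seed hc hB0 hB hkv horthC).trans (ENNReal.ofReal_le_ofReal ?_)
    rw [K.KDict.norm_ofC, uu, if_pos rfl, uNew_256]
    have h1 := LSeP.env_le' B hn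
    have h2 := num B hn hlow
    rw [Nat.add_sub_cancel] at h1 h2
    have h10 : 0 ≤ C.α (m + 1) 0 / ‖kR (C.K (m + 1))‖ := by positivity
    calc 2 * (4 * Real.exp (Lr x m)) / cc x m *
          (Real.exp (2 * cc x m) * ((1 + Real.exp (2 * cc x m)) / 2) ^
            (Aex x (m + 1) * (m + 1)) * ‖Vseed C (m + 1) (D (m + 1))‖)
        ≤ 2 * (4 * Real.exp (Lr x m)) / cc x m *
          (27 * (bb x (m + 1) ^ 2 * (C.α (m + 1) 0 / ‖kR (C.K (m + 1))‖))) := by gcongr
      _ = (2 * (4 * Real.exp (Lr x m) / ‖kv (C.K (m + 1))‖) / cc x m * 27 *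
          bb x (m + 1) ^ 2) * C.α (m + 1) 0 := by
        rw [hkR]
        field_simp
      _ ≤ Real.exp (-(Lr x (m + 1)) / 4) * C.α (m + 1) 0 := by gcongr
  · rw [hD.w_eq]
    exact seed_real _ _ _ (K.KDict.cjv_ofC _)
  · rw [hD.w_eq]
    exact seed_odd _ _ _ _
  · rw [hD.w_eq]
    exact seed_supp _ _ _ _

end Pool.Agent.Work.MP_b0497c_an.Unf.A

end

section

set_option autoImplicit false
set_option linter.dupNamespace false

/-!
# Block A, `LH8`: the seed of the new wave is tiny (helper90)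
-/

open scoped ENNReal
open Set MeasureTheory

namespace Pool.Agent.Work.MP_b0497c_an.Unf.A

open W S P
open Unf.O (LevD NextD)
open Unf.K (rM rV rMt kR dj kelS covec CoL)

namespace LH8P

/-- `b² a / |K|` is at most `1 / 54`. -/
theorem num {C x N : ℝ} (B : Big C x) {n : ℕ} (hN : Real.exp (Lr x n) / 2 ≤ N) :
    27 * (bb x n ^ 2 * aa x n / N) ≤ 1 := by
  have hE := Real.exp_pos (Lr x n)
  have hN0 : 0 < N := lt_of_lt_of_le (by linarith) hN
  have hb := bb_pos x n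
  have ha := aa_pos x n
  have h1 := B.poly_L' (n := n) (j := 2) (by norm_num) (D := 10 ^ 6) (by norm_num)
    (by have := B.C_one; nlinarith)
  have h2 := B.poly_L' (n := n) (j := 1) (by norm_num) (D := 10 ^ 10) (by norm_num)
    (by have := B.C_one; nlinarith)
  have hexp : (54 : ℝ) ≤ Real.exp (Lr x n / 100) := by
    have h2 := Real.add_one_le_exp (Lr x n / 100)
    have h3 := B.Lr_ge n
    have h4 : (54 : ℝ) * 100 ≤ 10 ^ 100 := by norm_num
    linarith
  have h3 : 54 * (bb x n ^ 2 * aa x n) ≤ Real.exp (Lr x n) := by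
    calc 54 * (bb x n ^ 2 * aa x n) ≤ Real.exp (Lr x n / 100) * (bb x n ^ 2 * aa x n) := by
          gcongr
      _ = Real.exp (Lr x n / 100 + (2 * (25000000 * ell x (n + 1)) + 144 * ell x (n + 2))) := by
          rw [Real.exp_add, Real.exp_add, bb, aa, ← Real.exp_nat_mul]
          push_cast
          rfl
      _ ≤ Real.exp (Lr x n) := by
          refine Real.exp_le_exp.2 ?_
          have h6 := Lr_pos x n
          linarith
  have h4 : bb x n ^ 2 * aa x n / N ≤ bb x n ^ 2 * aa x n / (Real.exp (Lr x n) / 2) := by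
    gcongr
  have h5 : 27 * (bb x n ^ 2 * aa x n / (Real.exp (Lr x n) / 2)) ≤ 1 := by
    rw [show 27 * (bb x n ^ 2 * aa x n / (Real.exp (Lr x n) / 2)) =
      54 * (bb x n ^ 2 * aa x n) / Real.exp (Lr x n) by field_simp; ring]
    rw [div_le_one hE]
    exact h3
  linarith

/-- The growth in the window beats `exp g_n`. -/
theorem grow {x : ℝ} {n : ℕ} {c k0 : ℝ} (hc : 0 < c) (hc' : c ≤ 2 * cn x n)
    (hk : k0 = P.k0 x n) : gg x n ≤ 4 / Real.sqrt (c * k0) := by
  have h1 := Lr_pos x n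
  have h2 := Lr_pos x (n + 1)
  have hk0 : 0 < k0 := by rw [hk]; exact h2
  have hg : 0 < gg x n := mul_pos h1 h2
  have h3 : c * k0 ≤ (2 / gg x n) ^ 2 := by
    calc c * k0 ≤ 2 * cn x n * k0 := by gcongr
      _ = 2 / (gg x n) ^ 2 := by
          rw [hk, cn, gg, P.k0]
          field_simp
      _ ≤ 4 / (gg x n) ^ 2 := by gcongr; norm_num
      _ = _ := by rw [div_pow]; norm_num
  have h4 : Real.sqrt (c * k0) ≤ 2 / gg x n := Real.sqrt_le_iff.2 ⟨by positivity, h3⟩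
  have h5 : 0 < Real.sqrt (c * k0) := Real.sqrt_pos.2 (by positivity)
  rw [le_div_iff₀ h5]
  calc gg x n * Real.sqrt (c * k0) ≤ gg x n * (2 / gg x n) := by gcongr
    _ = 2 := by field_simp
    _ ≤ 4 := by norm_num

end LH8P

open LH8P LS4P

/-- LH8. -/
theorem lh8 (hG : LG) : LH8 := by
  intro x R0 c₀ X0 n C D k F Fi hn P0 H hk hF hSo hHL K' V hK' hV
  have B := P0.big
  have P := H.pre
  have hD := P.hl n hn le_rfl
  have h0 : (0 : ℝ) ∈ Icc 0 ((D n).next (nxt x n C (D n) k F Fi)).T :=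
    ⟨le_rfl, (hHL.t0_pos.trans hHL.t0_lt).le⟩
  have ht : ((D n).next (nxt x n C (D n) k F Fi)).t0 ∈
      Icc 0 ((D n).next (nxt x n C (D n) k F Fi)).T := ⟨hHL.t0_pos.le, hHL.t0_lt.le⟩
  have hb : ((D n).next (nxt x n C (D n) k F Fi)).b = bb x (n + 1) := rfl
  have ha : ((D n).next (nxt x n C (D n) k F Fi)).a = aa x (n + 1) := by
    rw [LevD.a, aa_eq]
    rfl
  have h1 := (hHL.v_size 0 h0).2
  have h2 := l_le hHL.toFlo
  have hp0 := hHL.al_pos 0 h0
  have hpt := hHL.al_pos _ ht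
  rw [hb, ha] at h1
  rw [hb] at h2
  have hal0 : ((D n).next (nxt x n C (D n) k F Fi)).al 0 = (D n).alp 0 := rfl
  have halt : ((D n).next (nxt x n C (D n) k F Fi)).al
      ((D n).next (nxt x n C (D n) k F Fi)).t0 = (D n).alp (D n).t1 := rfl
  rw [hal0] at h1 hp0
  rw [halt] at h1 hpt
  -- growth of the weight
  have h3 := hG (D n) hD 0 ⟨le_rfl, le_max_left _ _⟩
  have hc0 : 0 < (D n).c := lt_of_lt_of_le (by
    have := hD.b_ge
    positivity) hD.c_ge
  have h4 : gg x n ≤ 4 / Real.sqrt ((D n).c * (D n).k0) :=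
    grow hc0 (P.c_upp n hn le_rfl) (P.k0_eq n hn le_rfl)
  have h5 : (D n).alp 0 * Real.exp (gg x n) ≤ (D n).alp (D n).t1 := by
    refine le_trans ?_ h3
    gcongr
  -- size of `v 0`
  have hbp := bb_pos x (n + 1)
  have hap := aa_pos x (n + 1)
  have h6 : ‖((D n).next (nxt x n C (D n) k F Fi)).v 0‖ ≤
      bb x (n + 1) * aa x (n + 1) * Real.exp (-(gg x n)) := by
    have e : ‖((D n).next (nxt x n C (D n) k F Fi)).v 0‖ =
        ‖((D n).next (nxt x n C (D n) k F Fi)).v 0‖ / aa x (n + 1) *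
          ((D n).alp (D n).t1 / (D n).alp 0) *
          (aa x (n + 1) * ((D n).alp 0 / (D n).alp (D n).t1)) := by
      field_simp
    have h7 : (D n).alp 0 / (D n).alp (D n).t1 ≤ Real.exp (-(gg x n)) := by
      rw [Real.exp_neg, div_le_iff₀ hpt, inv_mul_eq_div, le_div_iff₀ (Real.exp_pos _)]
      exact h5
    rw [e]
    calc ‖((D n).next (nxt x n C (D n) k F Fi)).v 0‖ / aa x (n + 1) *
          ((D n).alp (D n).t1 / (D n).alp 0) *
          (aa x (n + 1) * ((D n).alp 0 / (D n).alp (D n).t1))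
        ≤ bb x (n + 1) * (aa x (n + 1) * Real.exp (-(gg x n))) := by gcongr
      _ = _ := by ring
  -- the wave vector
  have hkR : Real.exp (Lr x (n + 1)) / 2 ≤ ‖kR k‖ := by
    have := hk.low
    rwa [K.KDict.kv_eq, K.KDict.norm_ofC] at this
  have hkR0 : 0 < ‖kR k‖ := lt_of_lt_of_le (by positivity) hkR
  have h8 : ‖V‖ ≤ bb x (n + 1) ^ 2 * aa x (n + 1) / ‖kR k‖ * Real.exp (-(gg x n)) := by
    rw [hV, norm_smul, Real.norm_eq_abs, abs_of_nonneg (by positivity)]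
    calc ‖((D n).next (nxt x n C (D n) k F Fi)).l‖ / ‖kR k‖ *
          ‖((D n).next (nxt x n C (D n) k F Fi)).v 0‖
        ≤ bb x (n + 1) / ‖kR k‖ * (bb x (n + 1) * aa x (n + 1) * Real.exp (-(gg x n))) := by
          gcongr
      _ = _ := by ring
  -- the seed
  have hc := B.cc_pos n
  have henv : Real.exp (cc x n / 8) * ((1 + Real.exp (cc x n / 8)) / 2) ^
      (Aex x (n + 1) * (n + 1)) ≤ 27 := by
    refine le_trans ?_ (LS4P.env_le1 B (n := n + 1) (by omega))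
    rw [Nat.add_sub_cancel]
    have h9 : cc x n / 8 ≤ cc x n := by linarith
    gcongr
  refine (sN_seed K' (by positivity) _ _ _).trans (ENNReal.ofReal_le_ofReal ?_)
  rw [K.KDict.norm_ofC]
  have h10 := LH8P.num B hkR
  calc Real.exp (cc x n / 8) * ((1 + Real.exp (cc x n / 8)) / 2) ^
        (Aex x (n + 1) * (n + 1)) * ‖V‖
      ≤ 27 * (bb x (n + 1) ^ 2 * aa x (n + 1) / ‖kR k‖ * Real.exp (-(gg x n))) := by gcongr
    _ = 27 * (bb x (n + 1) ^ 2 * aa x (n + 1) / ‖kR k‖) * Real.exp (-(gg x n)) := by ring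
    _ ≤ 1 * Real.exp (-(gg x n)) := by gcongr
    _ = _ := one_mul _

end Pool.Agent.Work.MP_b0497c_an.Unf.A

end
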