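import Pool.Agent.Work.MP_b0497c_an.Unf.A1c
import Pool.Agent.Work.MP_b0497c_an.Unf.KDict
import Pool.Agent.Work.MP_b0497c_an.Bd.B39
import Pool.Agent.Work.MP_b0497c_an.Unf.AStmts
import Pool.Agent.Work.MP_b0497c_an.Unf.P6
import Pool.Agent.Work.MP_b0497c_an.Bd.B18

/-! Bundle of small proof modules (one section per former module). -/

section

set_option autoImplicit false
set_option linter.unusedSectionVars false

/-!
# Block A, item A2: the data of the new class from the bounds at the real labels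

`exists_new` : level `n` data + `PB` of the Kelvin generator at every real label ==> `s`, `Φ` with
`New`.
-/

open scoped ENNReal
open Set MeasureTheory

namespace Pool.Agent.Work.MP_b0497c_an.Unf.A

open W S

/-- The Kelvin generator of the covector `k` in the flow `M` at the real label `θ`. -/
noncomputable def kelT (k : Fin 3 → ℤ) (T : ℝ) (M : ℝ → Md → Mat) (θ : Md →+ ℝ) :
    ℝ → E3 →L[ℝ] E3 := K.kelG (K.rMt θ T M) (K.kR k)

/-- `KB` : the Kelvin propagator of the covector `k` in the flow `M` at every real label. -/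
def KBd (k : Fin 3 → ℤ) (T E : ℝ) (α : ℝ → ℝ) (M : ℝ → Md → Mat) : Prop :=
  ∀ θ : Md →+ ℝ, K.PB (kelT k T M θ) 0 T E α

theorem cx_eq (x : EuclideanSpace ℝ (Fin 3)) : cx x = ofC x := by
  ext i
  simp [cx, ofC_apply]

/-- The generator of the new class at a real label. -/
theorem gen_label {Kf : ℕ → Fin 3 → ℤ} {T₀ T r R : ℝ} {n : ℕ} {X U A : ℝ → Md → C3}
    {p : ℝ → Md → ℂ} {F Fi M : ℝ → Md → Mat} (h : Lvl Kf T₀ r R n X U A p F Fi M) (hT : 0 < T)
    (hTT : T ≤ T₀) (k : Fin 3 → ℤ) {s : ℝ → Md → ℂ} {c : ℝ} (hc : 0 ≤ c)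
    (hs : Nrm T c 0 Dat.one' s ≠ ∞)
    (hse : ∀ t ∈ Icc 0 T, mul (mm (scF (s t)) (rwF (kv k) (Fi t))) (kcF (kv k) (Fi t)) =
      fun q => if q = 0 then 1 else 0) (θ : Md →+ ℝ) {t : ℝ} (ht : t ∈ Icc 0 T)
    (x : EuclideanSpace ℝ (Fin 3)) :
    ev θ (genK (pF (kv k) (Fi t) (s t)) (M t)) (cx x) = cx (kelT k T M θ t x) := by
  have ht0 : t ∈ Icc 0 T₀ := Icc_sub hTT ht
  have e1 : Summable fun q => ‖Fi t q‖ := summable_of_Nrm h.c_pos.le h.Fi_fin ht0
  have e2 : Summable fun q => ‖M t q‖ := summable_of_Nrm h.c_pos.le h.M_fin ht0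
  have e3 : Summable fun q => ‖s t q‖ := summable_of_Nrm hc hs ht
  have e4 := K.d5 θ k (Fi t) (M t) (s t) e1 e2 e3 (h.Fi_even t ht0).1 (h.M_even t ht0).1
    (hse t ht) x
  obtain ⟨-, f2, f3, -, -, -⟩ := K.d4 Kf T₀ r R n X U A p F Fi M h T hT hTT θ
  rw [cx_eq, cx_eq, e4, kelT, K.kelG, f3 (K.kR k) t ht, f2 t ht]

namespace A2

variable {K : ℕ → Fin 3 → ℤ} {T₀ T r R : ℝ} {n : ℕ} {X U A : ℝ → Md → C3} {p : ℝ → Md → ℂ}
  {F Fi M : ℝ → Md → Mat}

/-- The scalar `s = |k|⁻²`. -/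
theorem exists_s (h : Lvl K T₀ r R n X U A p F Fi M) (hT : 0 < T) (hTT : T ≤ T₀)
    (k : Fin 3 → ℤ) (hk : 0 < ‖kv k‖) :
    ∃ s : ℝ → Md → ℂ, CM T s ∧ SuppT T (lev n : Set Md) s ∧
    (∀ t ∈ Icc 0 T, mul (mm (scF (s t)) (rwF (kv k) (Fi t))) (kcF (kv k) (Fi t)) =
      fun q => if q = 0 then 1 else 0) ∧
    Nrm T (xR r R) 0 Dat.one' s ≤
      ENNReal.ofReal ((10 ^ 6 * R) ^ (1000 * (n + 2)) / ‖kv k‖ ^ 2) := by
  have hR := h.R_two
  have hb1 := one_le_bR hR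
  obtain ⟨s, h1, h2, h3, h4, -⟩ := S.All.c08 n T r (bR R) (bR R) k F Fi hT.le (norm_pos_iff.1 hk)
    (fun t ht => h.fdata_b (Icc_sub hTT ht))
    ((Nrm_mono hTT le_rfl (fun _ _ => one_pos) Fi).trans h.Fi_b) (CM_mono hTT h.Fi_cm)
  refine ⟨s, h1, h2, h3, h4.trans ?_⟩
  have h5 := proj_num (l := n) w21 h.c_pos h.r_le hR h.r_R
    (le_refl ((10 ^ 6 * R) ^ (1000 * (n + 2))))
  have e1 : (2 * bR R ^ 2 / ‖kv k‖ ^ 2) = (1 / ‖kv k‖ ^ 2) * (2 * bR R ^ 2) := by ring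
  have e2 : (10 ^ 6 * R) ^ (1000 * (n + 2)) / ‖kv k‖ ^ 2 =
      (1 / ‖kv k‖ ^ 2) * (10 ^ 6 * R) ^ (1000 * (n + 2)) := by ring
  have hk1 : 0 ≤ 1 / ‖kv k‖ ^ 2 := by positivity
  rw [e1, e2, ENNReal.ofReal_mul (q := 2 * bR R ^ 2) hk1,
    ENNReal.ofReal_mul (q := (10 ^ 6 * R) ^ (1000 * (n + 2))) hk1, mul_assoc]
  refine mul_le_mul_right (le_trans ?_ h5) _
  refine mul_le_mul_left (ENNReal.ofReal_le_ofReal ?_) _
  have : 1 ≤ bR R ^ 2 := one_le_pow₀ hb1
  nlinarith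

theorem kcF_eq (k : C3) (Fi : Md → Mat) (q : Md) : kcF k Fi q = adjC Fi q k := rfl

/-- supports -/
theorem supp_mm {a b : Md → Mat} (ha : SuppIn (lev n : Set Md) a) (hb : SuppIn (lev n : Set Md) b) :
    SuppIn (lev n : Set Md) (mm a b) :=
  (S.All.s03 Mat Mat Mat).2.2.2.2.2.1 _ n a b ha hb

theorem supp_p {k : C3} {Fi : Md → Mat} {s : Md → ℂ} (hF : SuppIn (lev n : Set Md) Fi)
    (hs : SuppIn (lev n : Set Md) s) : SuppIn (lev n : Set Md) (pF k Fi s) := by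
  have hrw : SuppIn (lev n : Set Md) (rwF k Fi) := fun q hq => by
    unfold rwF; rw [hF q hq]; ext; simp
  have hkc : SuppIn (lev n : Set Md) (tsF (kcF k Fi)) := fun q hq => by
    have h1 : Fi (-q) = 0 := hF (-q) (fun h => hq (by simpa using neg_mem h))
    unfold tsF kcF adjC
    rw [h1]
    ext
    simp [ts]
  have hsc : SuppIn (lev n : Set Md) (scF s) := fun q hq => by
    show (s q) • ContinuousLinearMap.id ℂ ℂ = 0
    rw [hs q hq]
    ext
    simp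
  refine (S.All.s03 (ℂ →L[ℂ] C3) (C3 →L[ℂ] ℂ) Mat).2.2.2.2.2.1 _ n _ _ hkc ?_
  exact (S.All.s03 (ℂ →L[ℂ] ℂ) (C3 →L[ℂ] ℂ) (C3 →L[ℂ] ℂ)).2.2.2.2.2.1 _ n _ _ hsc hrw

theorem supp_genK {p M : Md → Mat} (hp : SuppIn (lev n : Set Md) p)
    (hM : SuppIn (lev n : Set Md) M) : SuppIn (lev n : Set Md) (genK p M) := by
  have h1 : SuppIn (lev n : Set Md) (oneM - (2 : ℂ) • p) := fun q hq => by
    have h0 : q ≠ 0 := fun h => hq (by rw [h]; exact zero_mem _)
    show oneM q - (2 : ℂ) • p q = 0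
    rw [hp q hq]
    have h2 : (2 : ℂ) • (0 : Mat) = 0 := by ext; simp
    have h3 : oneM q = 0 := by simp [oneM, h0]
    rw [h3]
    exact (sub_eq_zero.2 h2.symm)
  intro q hq
  have h2 := supp_mm h1 hM q hq
  show -(mm (oneM - (2 : ℂ) • p) M q) = 0
  rw [h2, neg_zero]

/-- The norm of the Kelvin generator: `(1 + 2 R² Y) R`. -/
theorem gen_norm (h : Lvl K T₀ r R n X U A p F Fi M) (hT : 0 < T) (hTT : T ≤ T₀) {k : C3}
    (hk : 0 < ‖k‖) {s : ℝ → Md → ℂ} {Y : ℝ} (hY : 0 ≤ Y)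
    (hs : Nrm T (xR r R) 0 Dat.one' s ≤ ENNReal.ofReal (Y / ‖k‖ ^ 2)) :
    Nrm T (xR r R) 0 Dat.one' (fun t => genK (pF k (Fi t) (s t)) (M t)) ≤
      ENNReal.ofReal ((1 + 2 * (R ^ 2 * Y)) * R) := by
  have hR := h.R_two
  have hx := xR_pos h.c_pos hR
  have hxr := xR_le h.c_pos hR
  have hp0 : Par T (xR r R) 0 := ⟨hT, le_rfl, by rw [zero_mul]; exact hx.le⟩
  have hFi : Nrm T (xR r R) 0 Dat.one' Fi ≤ ENNReal.ofReal R :=
    (Nrm_mono hTT hxr (fun _ _ => one_pos) Fi).trans h.Fi_le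
  have hM : Nrm T (xR r R) 0 Dat.one' M ≤ ENNReal.ofReal R :=
    (Nrm_mono hTT hxr (fun _ _ => one_pos) M).trans h.M_le
  have h1 : Nrm T (xR r R) 0 Dat.one' (fun t => pF k (Fi t) (s t)) ≤ ENNReal.ofReal (R ^ 2 * Y) := by
    refine (Nrm_mm_le w09 hx.le _ _).trans ?_
    refine (mul_le_mul' (S11aux.nrm_tsF_kcF k Fi) ((Nrm_mm_le w09 hx.le _ _).trans
      (mul_le_mul' (S11aux.nrm_scF s) (S11aux.nrm_rwF k Fi)))).trans ?_
    refine (mul_le_mul' (mul_le_mul_right hFi _) (mul_le_mul' hs (mul_le_mul_right hFi _))).trans ?_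
    rw [← ENNReal.ofReal_mul hk.le, ← ENNReal.ofReal_mul (by positivity),
      ← ENNReal.ofReal_mul (by positivity)]
    refine ENNReal.ofReal_le_ofReal (le_of_eq ?_)
    field_simp
  have h2 : Nrm T (xR r R) 0 Dat.one' (fun t => oneM - (2 : ℂ) • pF k (Fi t) (s t)) ≤
      ENNReal.ofReal (1 + 2 * (R ^ 2 * Y)) := by
    have e1 : (fun t => oneM - (2 : ℂ) • pF k (Fi t) (s t)) = (fun _ => oneM) +
        (-2 : ℂ) • (fun t => pF k (Fi t) (s t)) := by
      funext t q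
      have e0 : ∀ x y : Mat, x - (2 : ℂ) • y = x + (-2 : ℂ) • y := fun x y => by module
      exact e0 _ _
    rw [e1]
    refine (Nrm_add_le w05 hp0 (wt_one T) _ _).trans ?_
    have h3 := ((w05 Md Mat T (xR r R) 0 Dat.one' Dat.one' (fun t => pF k (Fi t) (s t))
      (fun t => pF k (Fi t) (s t)) hp0 (wt_one T) (wt_one T)).2.2.2.2 (-2)).1
    rw [h3]
    have e2 : ‖(-2 : ℂ)‖ₑ = ENNReal.ofReal 2 := by
      rw [← ofReal_norm]; norm_num
    rw [e2, ENNReal.ofReal_add zero_le_one (by positivity), ENNReal.ofReal_one,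
      ENNReal.ofReal_mul (by norm_num)]
    exact add_le_add Nrm_oneM (mul_le_mul_right h1 _)
  have e3 : (fun t => genK (pF k (Fi t) (s t)) (M t)) =
      (fun t => -(mm (oneM - (2 : ℂ) • pF k (Fi t) (s t)) (M t))) := rfl
  rw [e3, Nrm_neg]
  refine (Nrm_mm_le w09 hx.le _ _).trans ((mul_le_mul' h2 hM).trans (le_of_eq ?_))
  rw [← ENNReal.ofReal_mul (by positivity)]

/-- Continuity of the Kelvin generator. -/
theorem gen_cm (h : Lvl K T₀ r R n X U A p F Fi M) (hT : 0 < T) (hTT : T ≤ T₀) {k : C3}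
    (hk : 0 < ‖k‖) {s : ℝ → Md → ℂ} {Y : ℝ} (hY : 0 ≤ Y) (hcm : CM T s)
    (hs : Nrm T (xR r R) 0 Dat.one' s ≤ ENNReal.ofReal (Y / ‖k‖ ^ 2)) :
    CM T (fun t => genK (pF k (Fi t) (s t)) (M t)) := by
  have hR := h.R_two
  have hx := xR_pos h.c_pos hR
  have hxr := xR_le h.c_pos hR
  have hFi : Nrm T (xR r R) 0 Dat.one' Fi ≤ ENNReal.ofReal R :=
    (Nrm_mono hTT hxr (fun _ _ => one_pos) Fi).trans h.Fi_le
  have hM : Nrm T (xR r R) 0 Dat.one' M ≤ ENNReal.ofReal R :=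
    (Nrm_mono hTT hxr (fun _ _ => one_pos) M).trans h.M_le
  have hFic := CM_mono hTT h.Fi_cm
  have t1 : Nrm T (xR r R) 0 Dat.one' (fun t => scF (s t)) ≠ ∞ :=
    ne_top_of_le_ne_top ENNReal.ofReal_ne_top ((S11aux.nrm_scF s).trans hs)
  have t2 : Nrm T (xR r R) 0 Dat.one' (fun t => rwF k (Fi t)) ≠ ∞ :=
    ne_top_of_le_ne_top (ENNReal.mul_ne_top ENNReal.ofReal_ne_top ENNReal.ofReal_ne_top)
      ((S11aux.nrm_rwF k Fi).trans (mul_le_mul_right hFi _))
  have t3 : Nrm T (xR r R) 0 Dat.one' (fun t => tsF (kcF k (Fi t))) ≠ ∞ :=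
    ne_top_of_le_ne_top (ENNReal.mul_ne_top ENNReal.ofReal_ne_top ENNReal.ofReal_ne_top)
      ((S11aux.nrm_tsF_kcF k Fi).trans (mul_le_mul_right hFi _))
  have t4 : Nrm T (xR r R) 0 Dat.one' (fun t => mm (scF (s t)) (rwF k (Fi t))) ≠ ∞ :=
    ne_top_of_le_ne_top (ENNReal.mul_ne_top t1 t2) (Nrm_mm_le w09 hx.le _ _)
  have c1 : CM T (fun t => mm (scF (s t)) (rwF k (Fi t))) :=
    S11aux.cm_mm w12 hT hx.le (S11aux.cm_scF hcm) (S11aux.cm_rwF hFic) t1 t2
  have c2 : CM T (fun t => pF k (Fi t) (s t)) :=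
    S11aux.cm_mm w12 hT hx.le (S11aux.cm_tsF (S11aux.cm_kcF hFic)) c1 t3 t4
  have t5 : Nrm T (xR r R) 0 Dat.one' (fun t => pF k (Fi t) (s t)) ≠ ∞ :=
    ne_top_of_le_ne_top (ENNReal.mul_ne_top t3 t4) (Nrm_mm_le w09 hx.le _ _)
  have hp0 : Par T (xR r R) 0 := ⟨hT, le_rfl, by rw [zero_mul]; exact hx.le⟩
  have t6 : Nrm T (xR r R) 0 Dat.one' (fun t => oneM - (2 : ℂ) • pF k (Fi t) (s t)) ≠ ∞ := by
    have e1 : (fun t => oneM - (2 : ℂ) • pF k (Fi t) (s t)) = (fun _ => oneM) +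
        (-2 : ℂ) • (fun t => pF k (Fi t) (s t)) := by
      funext t q
      have e0 : ∀ x y : Mat, x - (2 : ℂ) • y = x + (-2 : ℂ) • y := fun x y => by module
      exact e0 _ _
    rw [e1]
    refine ne_top_of_le_ne_top ?_ (Nrm_add_le w05 hp0 (wt_one T) _ _)
    rw [((w05 Md Mat T (xR r R) 0 Dat.one' Dat.one' (fun t => pF k (Fi t) (s t))
      (fun t => pF k (Fi t) (s t)) hp0 (wt_one T) (wt_one T)).2.2.2.2 (-2)).1]
    exact ENNReal.add_ne_top.2 ⟨ne_top_of_le_ne_top ENNReal.one_ne_top Nrm_oneM,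
      ENNReal.mul_ne_top enorm_ne_top t5⟩
  have c3 : CM T (fun t => oneM - (2 : ℂ) • pF k (Fi t) (s t)) := fun q =>
    continuousOn_const.sub ((c2 q).const_smul (2 : ℂ))
  have c4 := S11aux.cm_mm w12 hT hx.le c3 (CM_mono hTT h.M_cm) t6
    (ne_top_of_le_ne_top ENNReal.ofReal_ne_top hM)
  exact fun q => (c4 q).neg

theorem exps (n : ℕ) : ∃ N : ℕ, N = 4000 * (n + 2) ^ 2 ∧ 1018 * (n + 2) * (n + 1) ≤ N ∧
    1018 * (n + 2) ≤ N ∧ 1000 * (n + 2) ≤ N := by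
  refine ⟨_, rfl, ?_, ?_, ?_⟩
  · nlinarith
  · nlinarith
  · nlinarith

theorem pow18 {Y : ℝ} (hY : 1 ≤ Y) (n : ℕ) :
    Y ^ 18 * Y ^ (1000 * (n + 2)) ≤ Y ^ (1018 * (n + 2)) := by
  rw [← pow_add]
  exact pow_le_pow_right₀ hY (by omega)

end A2

open A2 in
/-- **A2.** The scalar `s` and the propagator `Φ` of the new class. -/
theorem exists_new {K : ℕ → Fin 3 → ℤ} {T₀ T r R : ℝ} {n : ℕ} {X U A : ℝ → Md → C3}
    {p : ℝ → Md → ℂ} {F Fi M : ℝ → Md → Mat} (h : Lvl K T₀ r R n X U A p F Fi M) (hT : 0 < T)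
    (hTT : T ≤ T₀) {α : ℝ → ℝ} {c G E : ℝ} (hK : 0 < ‖kv (K (n + 1))‖) (hα : Wt T α)
    (hαG : ∀ t ∈ Icc 0 T, α t ≤ G) (hE : 1 ≤ E)
    (hKB : KBd (K (n + 1)) T E α M)
    (hG : 3 * E * (10 ^ 6 * R) ^ (4000 * (n + 2) ^ 2) ≤ G)
    (hc0 : 0 < c) (hc : c * (10 ^ 6 * R) ^ (4000 * (n + 2) ^ 2) ≤ 1) :
    ∃ (s : ℝ → Md → ℂ) (Φ : ℝ → ℝ → Md → Mat), New K T c G α (n + 1) Fi M s Φ := by
  have hR := h.R_two
  have hx := xR_pos h.c_pos hR
  have hx1 := xR_le_one h.c_pos h.r_le hR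
  have hxr := xR_le h.c_pos hR
  have hT1 : T ≤ 1 := hTT.trans h.T_le
  set Y : ℝ := 10 ^ 6 * R with hY
  have hY1 : 1 ≤ Y := by rw [hY]; linarith
  have hY4 : 4 ≤ Y := by rw [hY]; linarith
  set Y1 : ℝ := Y ^ (1000 * (n + 2)) with hY1d
  have hY11 : 1 ≤ Y1 := one_le_pow₀ hY1
  set kk : C3 := kv (K (n + 1)) with hkk
  obtain ⟨s, s1, s2, s3, s4⟩ := exists_s h hT hTT (K (n + 1)) hK
  have g1 := gen_norm h hT hTT hK (Y := Y1) (by linarith) s4
  have g2 := gen_cm h hT hTT hK (Y := Y1) (by linarith) s1 s4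
  have g3 : SuppT T (lev n : Set Md) (fun t => genK (pF kk (Fi t) (s t)) (M t)) := fun t ht =>
    supp_genK (supp_p (h.Fi_supp t (Icc_sub hTT ht)) (s2 t ht)) (h.M_supp t (Icc_sub hTT ht))
  set β : ℝ := (1 + 2 * (R ^ 2 * Y1)) * R with hβ
  have hRY : R ≤ Y := by rw [hY]; linarith
  have hβ1 : 1 ≤ β := by
    rw [hβ]
    have : 0 ≤ 2 * (R ^ 2 * Y1) := by positivity
    nlinarith
  have hβY : β + 1 ≤ Y ^ 4 * Y1 := by
    have e1 : 1 ≤ R ^ 2 * Y1 := by
      have : 1 ≤ R ^ 2 := one_le_pow₀ (by linarith)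
      nlinarith
    have e2 : β ≤ 3 * (R ^ 2 * Y1) * R := by
      rw [hβ]
      have : 1 + 2 * (R ^ 2 * Y1) ≤ 3 * (R ^ 2 * Y1) := by linarith
      exact mul_le_mul_of_nonneg_right this (by linarith)
    have e3 : 3 * (R ^ 2 * Y1) * R + 1 ≤ 4 * (R ^ 3 * Y1) := by
      have : 1 ≤ R ^ 3 * Y1 := by
        have : 1 ≤ R ^ 3 := one_le_pow₀ (by linarith)
        nlinarith
      nlinarith
    have e4 : 4 * (R ^ 3 * Y1) ≤ Y * (Y ^ 3 * Y1) := by gcongr
    calc β + 1 ≤ 4 * (R ^ 3 * Y1) := by linarith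
      _ ≤ Y * (Y ^ 3 * Y1) := e4
      _ = Y ^ 4 * Y1 := by ring
  obtain ⟨Φ, p1, p2, p3, p4, p5⟩ := S.All.c04 n T (xR r R) β
    (fun t => genK (pF kk (Fi t) (s t)) (M t)) hT hx hβ1 g2 g3 g1
  -- the real labels
  have q1 : ∀ θ : Md →+ ℝ, ∀ t ∈ Icc 0 T, ∀ x : EuclideanSpace ℝ (Fin 3),
      ev θ (genK (pF kk (Fi t) (s t)) (M t)) (cx x) =
        cx (kelT (K (n + 1)) T M θ t x) := fun θ t ht x =>
    gen_label h hT hTT (K (n + 1)) hx.le (ne_top_of_le_ne_top ENNReal.ofReal_ne_top s4) s3 θ ht x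
  have q2 : ∀ s' ∈ Icc 0 T, ∀ t ∈ Icc s' T, ∀ θ : Md →+ ℝ, ‖ev θ (Φ t s')‖ ≤ E * (α t / α s') :=
    fun s' hs' t ht θ => S.All.c06 T E α θ _ Φ (kelT (K (n + 1)) T M θ) hT
      hα.pos (by linarith) (q1 θ) (hKB θ) (fun a ha b hb => p4 a ha b hb θ)
      (fun a ha => p5 a ha θ) s' hs' t ht
  have q3 := S.All.c05 n T (xR r R) β E α Φ hT hT1 hx hx1 hβ1 hE hα p2 p3 q2
  -- numbers
  obtain ⟨N, hN, hN1, hN2, hN3⟩ := exps n
  rw [← hN] at hG hc
  clear hN
  have hY0 : 0 < Y := by linarith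
  have hpow : Y ^ 18 * Y1 ≤ Y ^ (1018 * (n + 2)) := pow18 hY1 n
  have hn1 : 12 * (β + 1) / xR r R ≤ Y ^ (1018 * (n + 2)) := by
    have e1 := inv_xR h.c_pos hR h.r_R
    rw [← hY] at e1
    calc 12 * (β + 1) / xR r R = 4 * (β + 1) * (3 / xR r R) := by ring
      _ ≤ 4 * (Y ^ 4 * Y1) * Y ^ 13 := by gcongr
      _ = 4 * (Y ^ 17 * Y1) := by ring
      _ ≤ Y * (Y ^ 17 * Y1) := by gcongr
      _ = Y ^ 18 * Y1 := by ring
      _ ≤ _ := hpow
  have hn2 : (12 * (β + 1) / xR r R) ^ (n + 1) ≤ Y ^ N := by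
    refine (pow_le_pow_left₀ (by positivity) hn1 (n + 1)).trans ?_
    rw [← pow_mul]
    exact pow_le_pow_right₀ hY1 hN1
  have hn3 : 4 * (β + 1) / xR r R ≤ Y ^ N := by
    have e1 : 4 * (β + 1) / xR r R ≤ 12 * (β + 1) / xR r R := by gcongr; norm_num
    exact e1.trans (hn1.trans (pow_le_pow_right₀ hY1 hN2))
  have hYN : 0 < Y ^ N := pow_pos hY0 N
  have hcx : c ≤ xR r R / (4 * (β + 1)) := by
    rw [le_div_iff₀ (by positivity)]
    have e1 : 4 * (β + 1) ≤ Y ^ N * xR r R := by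
      rwa [div_le_iff₀ hx] at hn3
    calc c * (4 * (β + 1)) ≤ c * (Y ^ N * xR r R) := by gcongr
      _ = (c * Y ^ N) * xR r R := by ring
      _ ≤ 1 * xR r R := by gcongr
      _ = xR r R := one_mul _
  have hcx' : c ≤ xR r R := hcx.trans (div_le_self hx.le (by linarith))
  have hY1G : Y1 ≤ G := by
    have e1 : Y1 ≤ Y ^ N := by
      rw [hY1d]
      exact pow_le_pow_right₀ hY1 hN3
    have e2 : 1 * Y ^ N ≤ 3 * E * Y ^ N := mul_le_mul_of_nonneg_right (by linarith) hYN.le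
    linarith
  refine ⟨s, Φ, hα, hαG, s1, s2, ?_, s3, p1, ?_, p2⟩
  · refine (Nrm_mono le_rfl hcx' (fun _ _ => one_pos) s).trans (s4.trans
      (ENNReal.ofReal_le_ofReal ?_))
    exact div_le_div_of_nonneg_right hY1G (by positivity)
  · refine (PN_mono le_rfl hcx _).trans (q3.trans (ENNReal.ofReal_le_ofReal ?_))
    exact (mul_le_mul_of_nonneg_left hn2 (by linarith)).trans hG

end Pool.Agent.Work.MP_b0497c_an.Unf.A

end

section

set_option autoImplicit false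
set_option linter.dupNamespace false

/-!
# Block A (assembly): half step H
-/

open scoped ENNReal
open Set MeasureTheory

namespace Pool.Agent.Work.MP_b0497c_an.Unf.A

open W S P
open Unf.O (LevD NextD ThmO)
open Unf.K (rM rV rMt kR dj kelS covec CoL)

/-- The global flow of a continuous path exists. -/
def GlobEx : Prop := ∀ A : ℝ → Forced.Ode.Op, Continuous A → ∃ F Fi, Glob A F Fi

theorem kapOK_of {n : ℕ} (hn : 1 ≤ n) {κ : ℝ} (h1 : 1 - (1 - (1 / 2) ^ n) / 10 ≤ κ)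
    (h2 : κ ≤ 1 + (1 - (1 / 2) ^ n) / 10) : KapOK n κ := by
  have h3 : (1 / 2 : ℝ) ^ (n + 2) ≤ (1 / 2 : ℝ) ^ 3 :=
    pow_le_pow_of_le_one (by norm_num) (by norm_num) (by omega)
  have h4 : (0 : ℝ) < (1 / 2 : ℝ) ^ n := by positivity
  norm_num at h3
  constructor <;> linarith

namespace PreD

variable {x R0 : ℝ} {n : ℕ} {C : Chain} {D : ℕ → LevD}

/-- The numbers of the levels. -/
theorem num (H : PreD x R0 n C D) {j : ℕ} (h1 : 1 ≤ j) (h2 : j ≤ n) : Num x j (D j) where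
  b := H.b_eq j h1 h2
  h := H.h_eq j h1 h2
  k0 := H.k0_eq j h1 h2
  k2 := H.k2_eq j h1 h2
  c_lo := H.c_low j h1 h2
  c_hi := H.c_upp j h1 h2
  kap := kapOK_of h1 (H.κ_low j h1 h2) (H.κ_upp j h1 h2)

end PreD

theorem numN_nxt (x : ℝ) (n : ℕ) (C : Chain) (D : LevD) (k : Fin 3 → ℤ)
    (F Fi : ℝ → Forced.Ode.Op) : NumN x n (nxt x n C D k F Fi) :=
  ⟨rfl, rfl, rfl, rfl, rfl⟩

theorem kR_ne_zero {x : ℝ} {n : ℕ} {D : LevD} {k : Fin 3 → ℤ} (h : KOK x n D k) : kR k ≠ 0 := by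
  have h1 := h.low
  rw [Unf.K.KDict.kv_eq, Unf.K.KDict.norm_ofC] at h1
  have h2 := Real.exp_pos (Lr x (n + 1))
  rw [← norm_pos_iff]
  linarith

/-- The rotation rate of the next level. -/
theorem kap_next {x c₀ : ℝ} (B : Big c₀ x) {n : ℕ} {D D' : LevD} (M : Num x n D)
    (h1 : 1 - (1 - (1 / 2) ^ n) / 10 ≤ D.kap) (h2 : D.kap ≤ 1 + (1 - (1 / 2) ^ n) / 10)
    (hk : |D'.kap - D.kap| ≤ 100 * D.eta * D.kap) :
    1 - (1 - (1 / 2) ^ (n + 1)) / 10 ≤ D'.kap ∧ D'.kap ≤ 1 + (1 - (1 / 2) ^ (n + 1)) / 10 := by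
  have hg := B.eta_geom M.c_lo M.c_hi
  rw [← M.eta_eq] at hg
  have h0 : 0 ≤ D.eta := by rw [M.eta_eq]; exact B.eta_nonneg M.c_pos.le
  obtain ⟨b1, b2⟩ := M.kap_bd
  have hq : (0 : ℝ) < (1 / 2 : ℝ) ^ n := by positivity
  have h6 : 100 * D.eta * D.kap ≤ (1 / 2 : ℝ) ^ n / 20 := by
    calc 100 * D.eta * D.kap ≤ 100 * ((10 : ℝ)⁻¹ ^ 50 * (1 / 2) ^ (n + 1)) * (5 / 4) := by
          have : 0 ≤ D.kap := by linarith
          gcongr
      _ = (100 * (10 : ℝ)⁻¹ ^ 50 * (5 / 4) / 2) * (1 / 2) ^ n := by rw [pow_succ]; ring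
      _ ≤ 1 / 20 * (1 / 2) ^ n := mul_le_mul_of_nonneg_right (by norm_num) hq.le
      _ = _ := by ring
  obtain ⟨k1, k2⟩ := abs_le.1 hk
  have hp : (1 / 2 : ℝ) ^ (n + 1) = (1 / 2) ^ n / 2 := by rw [pow_succ]; ring
  constructor
  · rw [hp]; linarith
  · rw [hp]; linarith

theorem agree_putW (C : Chain) (n : ℕ) (k : Fin 3 → ℤ) (τ t : ℝ) (α : ℝ → ℝ) (w : Md → C3) :
    C.Agree (C.putW (n + 1) k τ t α w) n := by
  have hne : ∀ l ≤ n, l ≠ n + 1 := fun l hl => by omega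
  constructor <;> intro l hl <;> simp only [Chain.putW, Function.update_of_ne (hne l hl)]

theorem halfH (h1 : LH1) (hG : GlobEx) (hO : ThmO) (h3 : LH3) (h5 : LH5) (h8 : LH8) : HalfH := by
  intro x R0 c₀ X0 n C D hn P0 H
  have B := P0.big
  have P := H.pre
  obtain ⟨k, ka, kb, kc⟩ := h1 x R0 c₀ X0 n C D hn P0 H
  have hk : KOK x n (D n) k := ⟨ka, kb, kc⟩
  have hHL := P.hl n hn le_rfl
  have hT : 0 < (D n).T := hHL.t0_pos.trans hHL.t0_lt
  have hcont : Continuous (rMt 0 (D n).T (C.M n)) :=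
    (Unf.K.d4 _ _ _ _ _ _ _ _ _ _ _ _ (H.an.lvl n le_rfl) (D n).T hT P.T_le 0).1
  obtain ⟨F, Fi, hF⟩ := hG _ hcont
  have hSo := h3 x R0 c₀ X0 n C D k F Fi hn P0 H hk hF
  set N : NextD := nxt x n C (D n) k F Fi with hN
  obtain ⟨oHL, oκ, oc, oT⟩ := hO (D n) N hHL hSo
  have hM := P.num hn le_rfl
  have hM1 : Num x (n + 1) ((D n).next N) := B.num_next' hM (numN_nxt x n C (D n) k F Fi) oκ oc
  obtain ⟨κ1, κ2⟩ := kap_next B hM (P.κ_low n hn le_rfl) (P.κ_upp n hn le_rfl) oκ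
  set D' : ℕ → LevD := Function.update D (n + 1) ((D n).next N) with hD'
  have dN : D' (n + 1) = (D n).next N := by rw [hD']; simp
  have dO : ∀ j ≤ n, D' j = D j := fun j hj => by
    rw [hD', Function.update_of_ne (by omega : j ≠ n + 1)]
  set V : E3 := (‖((D n).next N).l‖ / ‖kR k‖) • ((D n).next N).v 0 with hV
  set K' : ℕ → Fin 3 → ℤ := Function.update C.K (n + 1) k with hK'
  have kN : K' (n + 1) = k := by rw [hK']; simp
  have kO : ∀ j ≤ n, K' j = C.K j := fun j hj => by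
    rw [hK', Function.update_of_ne (by omega : j ≠ n + 1)]
  set α' : ℝ → ℝ := fun t => aa x (n + 1) * ((D n).alp t / (D n).alp (D n).t1) with hα'
  set w' : Md → C3 := seed K' (Aex x (n + 1)) (n + 1) (ofC V) with hw'
  set C' : Chain := C.putW (n + 1) k (D n).T (D n).t1 α' w' with hC'
  have ag : C.Agree C' n := agree_putW C n k _ _ α' w'
  have e_K : C'.K (n + 1) = k := kN
  have e_Kall : C'.K = K' := rfl
  have e_τ : C'.τ (n + 1) = (D n).T := by rw [hC']; simp [Chain.putW]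
  have e_t : C'.tn (n + 1) = (D n).t1 := by rw [hC']; simp [Chain.putW]
  have e_α : C'.α (n + 1) = α' := by rw [hC']; simp [Chain.putW]
  have e_w : C'.w (n + 1) = w' := by rw [hC']; simp [Chain.putW]
  refine ⟨C', D', ag, ?_⟩
  have split : ∀ {p : ℕ → Prop}, (∀ j, 1 ≤ j → j ≤ n → p j) → p (n + 1) →
      ∀ j, 1 ≤ j → j ≤ n + 1 → p j := fun {p} a b j h1 h2 => by
    rcases Nat.lt_or_ge j (n + 1) with h | h
    · exact a j h1 (by omega)
    · rw [show j = n + 1 by omega]; exact b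
  have split' : ∀ {p : ℕ → Prop}, (∀ j, 1 ≤ j → j < n → p j) → p n →
      ∀ j, 1 ≤ j → j < n + 1 → p j := fun {p} a b j h1 h2 => by
    rcases Nat.lt_or_ge j n with h | h
    · exact a j h1 h
    · rw [show j = n by omega]; exact b
  exact
    { an := H.an.congr ag
      R0_eq := P.R0_eq
      R_eq := split' (fun l a b => P.R_eq l a b) H.R_eq
      r_eq := split' (fun l a b => P.r_eq l a b) H.r_eq
      K_size :=
        { zero := by rw [← ag.K 0 (Nat.zero_le n)]; exact P.K_size.zero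
          low := split (fun j a b => by rw [← ag.K j b]; exact P.K_size.low j a b)
            (by rw [e_K]; exact hk.low)
          upp := split (fun j a b => by rw [← ag.K j b]; exact P.K_size.upp j a b)
            (by rw [e_K]; exact hk.upp) }
      τ_eq := split' (fun j a b => by rw [← ag.τ (j + 1) (by omega), dO j (by omega)]
                                      exact P.τ_eq j a b)
        (by rw [e_τ, dO n le_rfl])
      τ_pos := by rw [e_τ]; exact hT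
      τ_le := by rw [e_τ, Nat.add_sub_cancel, ← ag.τ n le_rfl]; exact P.T_le
      T_le := by rw [e_τ, dN]; exact oT
      hl := split (fun j a b => by rw [dO j b]; exact P.hl j a b) (by rw [dN]; exact oHL)
      b_eq := split (fun j a b => by rw [dO j b]; exact P.b_eq j a b) (by rw [dN]; rfl)
      h_eq := split (fun j a b => by rw [dO j b]; exact P.h_eq j a b) (by rw [dN]; rfl)
      k0_eq := split (fun j a b => by rw [dO j b]; exact P.k0_eq j a b) (by rw [dN]; rfl)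
      k2_eq := split (fun j a b => by rw [dO j b]; exact P.k2_eq j a b) (by rw [dN]; rfl)
      c_low := split (fun j a b => by rw [dO j b]; exact P.c_low j a b)
        (by rw [dN]; exact hM1.c_lo)
      c_upp := split (fun j a b => by rw [dO j b]; exact P.c_upp j a b)
        (by rw [dN]; exact hM1.c_hi)
      κ_low := split (fun j a b => by rw [dO j b]; exact P.κ_low j a b) (by rw [dN]; exact κ1)
      κ_upp := split (fun j a b => by rw [dO j b]; exact P.κ_upp j a b) (by rw [dN]; exact κ2)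
      al_one := by rw [dO 1 hn]; exact P.al_one
      al_succ := split' (fun j a b => by rw [dO j (by omega), dO (j + 1) (by omega)]
                                         exact P.al_succ j a b)
        (by rw [dO n le_rfl, dN]; rfl)
      t_succ := split' (fun j a b => by rw [dO j (by omega), dO (j + 1) (by omega)]
                                        exact P.t_succ j a b)
        (by rw [dO n le_rfl, dN]; rfl)
      tn_eq := split (fun j a b => by rw [dO j b, ← ag.tn j b]; exact P.tn_eq j a b)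
        (by rw [dN, e_t]; rfl)
      α_eq := split (fun j a b => by rw [dO j b, ← ag.α j b]; exact P.α_eq j a b)
        (by rw [dN, e_α]; rfl)
      A_eq := by rw [dN, e_τ, Nat.add_sub_cancel]; rfl
      l_eq := by
        rw [dN, e_K]
        have hKne : kR k ≠ 0 := kR_ne_zero hk
        have hkt : 0 < ‖N.k (D n).t1‖ := by
          rw [norm_pos_iff]
          intro h0
          apply hKne
          have e1 : ∀ y : E3, inner ℝ y (kR k) = 0 := fun y => by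
            have e2 : y = N.Fi (D n).t1 (N.F (D n).t1 y) := by
              have := congrArg (fun f => f y) (hSo.FiF (D n).t1)
              simpa using this.symm
            rw [e2, ← ContinuousLinearMap.adjoint_inner_right]
            show inner ℝ _ (N.k (D n).t1) = 0
            rw [h0, inner_zero_right]
          exact inner_self_eq_zero.1 (e1 (kR k))
        have e1 : ((D n).next N).l = (‖N.k (D n).t1‖)⁻¹ • kR k := rfl
        have hi : 0 < (‖N.k (D n).t1‖)⁻¹ := inv_pos.2 hkt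
        rw [e1, norm_smul, Real.norm_eq_abs, abs_of_pos hi, smul_smul, mul_inv, inv_inv]
        congr 1
        field_simp
      w_eq := by
        rw [e_w, dN, hw', e_Kall]
        rw [Vseed, e_K]
      kb := fun θ => by
        rw [e_τ, e_α, e_K, Nat.add_sub_cancel]
        exact h5 x R0 c₀ X0 n C D k F Fi hn P0 H hk hF hSo θ
      w_le := split' (fun j a b => by rw [← ag.w (j + 1) (by omega)]; exact P.w_le j a b)
        (by rw [e_w]; exact h8 x R0 c₀ X0 n C D k F Fi hn P0 H hk hF hSo oHL K' V kN hV)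
      M_ge := split' (fun j a b => by
          rw [← ag.tn j (by omega)]
          exact P.M_ge j a b)
        (by rw [← ag.tn n le_rfl]; exact H.M_ge) }

end Pool.Agent.Work.MP_b0497c_an.Unf.A

end
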