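import Pool.Agent.Work.MP_b0497c_an.Unf.AStmts
import Pool.Agent.Work.MP_b0497c_an.Unf.B2
import Pool.Agent.Work.MP_b0497c_an.Unf.B8

/-! Bundle of small proof modules (one section per former module). -/

section

set_option autoImplicit false
set_option linter.dupNamespace false

/-!
# Block A, item LH3: the exact flow at the centre is close to the flow of the model
-/

open Set MeasureTheory

namespace Pool.Agent.Work.MP_b0497c_an.Unf.A

open Forced.Ode (Op)

namespace LH3F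

/-- Derivative of the inverse. -/
theorem inv_der {F Fi : ℝ → Op} {B : Op} {t : ℝ}
    (h1 : ∀ s, (F s).comp (Fi s) = ContinuousLinearMap.id ℝ E3)
    (h2 : ∀ s, (Fi s).comp (F s) = ContinuousLinearMap.id ℝ E3)
    (hd : HasDerivAt F (B.comp (F t)) t) : HasDerivAt Fi (-((Fi t).comp B)) t := by
  let u : (E3 →L[ℝ] E3)ˣ := ⟨F t, Fi t, h1 t, h2 t⟩
  have e1 : HasFDerivAt Ring.inverse _ (F t) := hasFDerivAt_ringInverse (𝕜 := ℝ) u
  have e2 := e1.comp_hasDerivAt t hd
  have e3 : (Ring.inverse ∘ F) = Fi := by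
    funext s
    let us : (E3 →L[ℝ] E3)ˣ := ⟨F s, Fi s, h1 s, h2 s⟩
    exact Ring.inverse_unit us
  rw [e3] at e2
  refine e2.congr_deriv ?_
  show -((Fi t).comp ((B.comp (F t)).comp (Fi t))) = _
  have h3 : (F t).comp (Fi t) = ContinuousLinearMap.id ℝ E3 := h1 t
  rw [ContinuousLinearMap.comp_assoc, h3, ContinuousLinearMap.comp_id]

/-- Gronwall: a path with a tiny generator stays close to the identity. -/
theorem near_one {W W' : ℝ → Op} {T ε : ℝ} (hT1 : T ≤ 1) (hε : 0 ≤ ε) (hε1 : ε ≤ 1)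
    (h0 : W 0 = ContinuousLinearMap.id ℝ E3) (hd : ∀ t ∈ Icc 0 T, HasDerivAt W (W' t) t)
    (hb : ∀ t ∈ Icc 0 T, ‖W' t‖ ≤ ε * ‖W t‖) :
    ∀ t ∈ Icc 0 T, ‖W t - ContinuousLinearMap.id ℝ E3‖ ≤ 2 * ε := by
  intro t ht
  have h1 : ∀ s ∈ Icc 0 T, ‖W s - ContinuousLinearMap.id ℝ E3‖ ≤ gronwallBound 0 ε ε (s - 0) := by
    refine norm_le_gronwallBound_of_norm_deriv_right_le (f' := W') ?_ ?_ ?_ ?_
    · intro s hs
      exact ((hd s hs).continuousAt.sub continuousAt_const).continuousWithinAt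
    · intro s hs
      exact ((hd s ⟨hs.1, hs.2.le⟩).sub_const _).hasDerivWithinAt
    · rw [h0, sub_self, norm_zero]
    · intro s hs
      refine (hb s ⟨hs.1, hs.2.le⟩).trans ?_
      have h2 : ‖W s‖ ≤ ‖W s - ContinuousLinearMap.id ℝ E3‖ + 1 := by
        calc ‖W s‖ = ‖(W s - ContinuousLinearMap.id ℝ E3) + ContinuousLinearMap.id ℝ E3‖ := by
              rw [sub_add_cancel]
          _ ≤ ‖W s - ContinuousLinearMap.id ℝ E3‖ + ‖ContinuousLinearMap.id ℝ E3‖ :=
              norm_add_le _ _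
          _ ≤ _ := by
              gcongr
              exact ContinuousLinearMap.norm_id_le
      calc ε * ‖W s‖ ≤ ε * (‖W s - ContinuousLinearMap.id ℝ E3‖ + 1) := by gcongr
        _ = _ := by ring
  have h2 := h1 t ht
  rw [sub_zero] at h2
  refine h2.trans ?_
  rcases eq_or_lt_of_le hε with h3 | h3
  · rw [← h3, gronwallBound_K0]
    simp
  · rw [gronwallBound_of_K_ne_0 h3.ne']
    show 0 * Real.exp (ε * t) + ε / ε * (Real.exp (ε * t) - 1) ≤ 2 * ε
    rw [zero_mul, zero_add, div_self h3.ne', one_mul]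
    have h4 : 0 ≤ ε * t := mul_nonneg hε ht.1
    have h5 : ε * t ≤ ε * 1 := mul_le_mul_of_nonneg_left (ht.2.trans hT1) hε
    have h6 : |ε * t| ≤ 1 := by
      rw [abs_of_nonneg h4]
      linarith
    have h7 := Real.abs_exp_sub_one_le h6
    rw [abs_of_nonneg h4] at h7
    have h8 := le_abs_self (Real.exp (ε * t) - 1)
    linarith

end LH3F

open LH3F in
/-- The exact flow is close to the flow of the model. -/
theorem lh3_F (ha : O.T1a) (hb : O.T1b) (hc : O.T1c) (D : O.LevD) (hD : D.HL) (A F Fi : ℝ → Op)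
    (hG : Glob A F Fi) (e : ℝ) (he : 0 ≤ e) (he1 : D.h ^ 52 * e ≤ 1)
    (hA : ∀ t ∈ Icc 0 D.T, ‖A t - D.fam.M 1 t‖ ≤ e) :
    ∀ t ∈ Icc 0 D.T, ‖F t - D.F1 1 t‖ ≤ 4 * D.h ^ 78 * e ∧
      ‖Fi t - D.Fi1 1 t‖ ≤ 4 * D.h ^ 78 * e := by
  have hfl := hD.toKin.toFlo
  have hT1 : D.T ≤ 1 := hfl.T_one
  have hh : 0 < D.h := hfl.h_pos
  have hT0 : 0 ≤ D.T := (hfl.t0_pos.trans hfl.t0_lt).le
  have f1 : ∀ t, (D.F1 1 t).comp (D.Fi1 1 t) = ContinuousLinearMap.id ℝ E3 := fun t =>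
    (ha D D.b hfl 1 t).2.2.1
  have f2 : ∀ t, (D.Fi1 1 t).comp (D.F1 1 t) = ContinuousLinearMap.id ℝ E3 := fun t =>
    (ha D D.b hfl 1 t).2.2.2.1
  have f0 : D.F1 1 0 = ContinuousLinearMap.id ℝ E3 := (ha D D.b hfl 1 0).2.2.2.2.2.2.2.1
  have fi0 : D.Fi1 1 0 = ContinuousLinearMap.id ℝ E3 := by
    have := f2 0
    rwa [f0, ContinuousLinearMap.comp_id] at this
  have gi0 : Fi 0 = ContinuousLinearMap.id ℝ E3 := by
    have := hG.FiF 0
    rwa [hG.zero, ContinuousLinearMap.comp_id] at this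
  have fd : ∀ t ∈ Icc 0 D.T, HasDerivAt (D.F1 1) ((D.fam.M 1 t).comp (D.F1 1 t)) t := fun t ht =>
    (hb D D.b hfl 1 t ht).2.1
  have fid : ∀ t ∈ Icc 0 D.T, HasDerivAt (D.Fi1 1) (-((D.Fi1 1 t).comp (D.fam.M 1 t))) t :=
    fun t ht => inv_der f1 f2 (fd t ht)
  have gid : ∀ t, HasDerivAt Fi (-((Fi t).comp (A t))) t := fun t =>
    inv_der hG.FFi hG.FiF (hG.der t)
  have b1 : ∀ t ∈ Icc 0 D.T, ‖D.F1 1 t‖ ≤ D.h ^ 26 := fun t ht =>
    (hc D hD 1 (by norm_num) t ht).2.1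
  have b2 : ∀ t ∈ Icc 0 D.T, ‖D.Fi1 1 t‖ ≤ D.h ^ 26 := fun t ht =>
    (hc D hD 1 (by norm_num) t ht).2.2.1
  -- the generator
  set E : ℝ → Op := fun t => ((D.Fi1 1 t).comp (A t - D.fam.M 1 t)).comp (D.F1 1 t) with hE
  have bE : ∀ t ∈ Icc 0 D.T, ‖E t‖ ≤ D.h ^ 52 * e := fun t ht => by
    calc ‖E t‖ ≤ ‖(D.Fi1 1 t).comp (A t - D.fam.M 1 t)‖ * ‖D.F1 1 t‖ :=
          ContinuousLinearMap.opNorm_comp_le _ _
      _ ≤ (‖D.Fi1 1 t‖ * ‖A t - D.fam.M 1 t‖) * ‖D.F1 1 t‖ := by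
          gcongr
          exact ContinuousLinearMap.opNorm_comp_le _ _
      _ ≤ (D.h ^ 26 * e) * D.h ^ 26 := by
          have := b1 t ht
          have := b2 t ht
          have := hA t ht
          gcongr
      _ = _ := by ring
  have hε0 : 0 ≤ D.h ^ 52 * e := by positivity
  -- first path
  have w1 : ∀ t ∈ Icc 0 D.T, ‖(D.Fi1 1 t).comp (F t) - ContinuousLinearMap.id ℝ E3‖ ≤
      2 * (D.h ^ 52 * e) := by
    refine near_one (W' := fun t => (E t).comp ((D.Fi1 1 t).comp (F t))) hT1 hε0 he1 ?_ ?_ ?_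
    · rw [fi0, hG.zero, ContinuousLinearMap.comp_id]
    · intro t ht
      have h1 := (fid t ht).clm_comp (hG.der t)
      refine h1.congr_deriv ?_
      have h2 := f1 t
      ext1 y
      have h3 : D.F1 1 t (D.Fi1 1 t (F t y)) = F t y :=
        congrArg (fun L : Op => L (F t y)) h2
      simp only [hE, _root_.add_apply, _root_.neg_apply,
        ContinuousLinearMap.comp_apply, _root_.sub_apply, map_sub, h3]
      abel
    · intro t ht
      refine (ContinuousLinearMap.opNorm_comp_le _ _).trans ?_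
      exact mul_le_mul_of_nonneg_right (bE t ht) (norm_nonneg _)
  have w2 : ∀ t ∈ Icc 0 D.T, ‖(Fi t).comp (D.F1 1 t) - ContinuousLinearMap.id ℝ E3‖ ≤
      2 * (D.h ^ 52 * e) := by
    refine near_one (W' := fun t => -(((Fi t).comp (D.F1 1 t)).comp (E t))) hT1 hε0 he1 ?_ ?_ ?_
    · rw [gi0, f0, ContinuousLinearMap.comp_id]
    · intro t ht
      have h1 := (gid t).clm_comp (fd t ht)
      refine h1.congr_deriv ?_
      have h2 := f1 t
      ext1 y
      have h3 : ∀ z, D.F1 1 t (D.Fi1 1 t z) = z := fun z =>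
        congrArg (fun L : Op => L z) h2
      simp only [hE, _root_.add_apply, _root_.neg_apply,
        ContinuousLinearMap.comp_apply, _root_.sub_apply, map_sub, h3]
      abel
    · intro t ht
      rw [norm_neg]
      refine (ContinuousLinearMap.opNorm_comp_le _ _).trans ?_
      rw [mul_comm]
      exact mul_le_mul_of_nonneg_right (bE t ht) (norm_nonneg _)
  have hfin : ∀ a b : ℝ, 0 ≤ a → 0 ≤ b → 2 * (a * b) ≤ 4 * a * b := fun a b h1 h2 => by
    have := mul_nonneg h1 h2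
    linarith
  intro t ht
  constructor
  · have h1 : F t - D.F1 1 t =
        (D.F1 1 t).comp ((D.Fi1 1 t).comp (F t) - ContinuousLinearMap.id ℝ E3) := by
      ext1 y
      have h3 : ∀ z, D.F1 1 t (D.Fi1 1 t z) = z := fun z =>
        congrArg (fun L : Op => L z) (f1 t)
      simp [h3]
    rw [h1]
    refine (ContinuousLinearMap.opNorm_comp_le _ _).trans ?_
    calc ‖D.F1 1 t‖ * ‖(D.Fi1 1 t).comp (F t) - ContinuousLinearMap.id ℝ E3‖ ≤
          D.h ^ 26 * (2 * (D.h ^ 52 * e)) := by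
          have := b1 t ht
          have := w1 t ht
          gcongr
      _ = 2 * (D.h ^ 78 * e) := by ring
      _ ≤ 4 * D.h ^ 78 * e := by
          have h9 : 0 ≤ D.h ^ 78 := pow_nonneg hh.le _
          exact hfin _ _ h9 he
  · have h1 : Fi t - D.Fi1 1 t =
        ((Fi t).comp (D.F1 1 t) - ContinuousLinearMap.id ℝ E3).comp (D.Fi1 1 t) := by
      ext1 y
      have h3 : ∀ z, D.F1 1 t (D.Fi1 1 t z) = z := fun z =>
        congrArg (fun L : Op => L z) (f1 t)
      simp [h3]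
    rw [h1]
    refine (ContinuousLinearMap.opNorm_comp_le _ _).trans ?_
    calc ‖(Fi t).comp (D.F1 1 t) - ContinuousLinearMap.id ℝ E3‖ * ‖D.Fi1 1 t‖ ≤
          (2 * (D.h ^ 52 * e)) * D.h ^ 26 := by
          have := b2 t ht
          have := w2 t ht
          gcongr
      _ = 2 * (D.h ^ 78 * e) := by ring
      _ ≤ 4 * D.h ^ 78 * e := by
          have h9 : 0 ≤ D.h ^ 78 := pow_nonneg hh.le _
          exact hfin _ _ h9 he

end Pool.Agent.Work.MP_b0497c_an.Unf.A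

end

section

set_option autoImplicit false

/-!
# Base (A0): the shear at every real label, Kelvin bound; `base : Base`
-/

open scoped ENNReal InnerProductSpace
open Set

namespace Pool.Agent.Work.MP_b0497c_an.Unf.B

open W S A
open Unf.K (rM rMt kR kelS covec CoL kelG dg w1 FB PB norm_kel_le)

theorem ev_M0 (c : ℝ) (θ : Md →+ ℝ) : ev θ (M0 c) = ((Real.cos (θ e0) : ℝ) : ℂ) • Ac c := by
  classical
  have h : ev θ (M0 c) = ∑ q ∈ ({e0, -e0} : Finset Md), ch θ q • M0 c q := by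
    refine tsum_eq_sum fun q hq => ?_
    rw [Finset.mem_insert, Finset.mem_singleton, not_or] at hq
    have : M0 c q = 0 := if_neg (by tauto)
    rw [this]
    ext1 x
    simp
  rw [h, Finset.sum_pair e0_ne_neg]
  have h1 : M0 c e0 = (1 / 2 : ℂ) • Ac c := if_pos (Or.inl rfl)
  have h2 : M0 c (-e0) = (1 / 2 : ℂ) • Ac c := if_pos (Or.inr rfl)
  rw [h1, h2]
  have h3 : ch θ e0 + ch θ (-e0) = 2 * Complex.cos (θ e0 : ℂ) := by
    rw [ch, ch, Complex.two_cos, map_neg]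
    push_cast
    ring_nf
  have h4 : ((Real.cos (θ e0) : ℝ) : ℂ) = (ch θ e0 + ch θ (-e0)) * (1 / 2) := by
    rw [h3, Complex.ofReal_cos]
    ring
  rw [h4]
  ext1 x
  simp only [_root_.add_apply, _root_.smul_apply]
  module

theorem inner_KZ_ofC (x : E3) : (inner ℂ (kv KZ) (ofC x) : ℂ) = ((inner ℝ Kz x : ℝ) : ℂ) := by
  rw [PiLp.inner_apply, Fin.sum_univ_three, inner_eq]
  simp only [RCLike.inner_apply, kv_KZ, Complex.conj_ofReal]
  have h0 : (ofC x) 0 = (x 0 : ℂ) := rfl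
  have h1 : (ofC x) 1 = (x 1 : ℂ) := rfl
  have h2 : (ofC x) 2 = (x 2 : ℂ) := rfl
  rw [h0, h1, h2]
  push_cast
  ring

theorem rM_M0 (c : ℝ) (θ : Md →+ ℝ) : rM θ (M0 c) = Real.cos (θ e0) • Az c := by
  ext1 x
  show reC (ev θ (M0 c) (ofC x)) = Real.cos (θ e0) • Az c x
  rw [ev_M0, _root_.smul_apply, Ac_apply, inner_KZ_ofC, Az_app, smul_smul, ← Complex.ofReal_mul]
  ext j
  rw [reC_apply, PiLp.smul_apply, PiLp.smul_apply, PiLp.smul_apply]
  simp only [dC, smul_eq_mul]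
  rw [← Complex.ofReal_mul, Complex.ofReal_re, mul_assoc]

theorem rm0 : RM0 := rM_M0

theorem kb1 : KB1 := by
  intro c T b α hc hc' hT0 hT hb hα k hk θ
  have hAn := norm_Az hc hc'
  have hM : rMt θ T (fun _ => M0 c) = fun _ => Real.cos (θ e0) • Az c := by
    funext t
    exact rM_M0 c θ
  have hn : ‖Real.cos (θ e0) • Az c‖ ≤ 12 := by
    rw [norm_smul, Real.norm_eq_abs]
    have := Real.abs_cos_le_one (θ e0)
    nlinarith [norm_nonneg (Az c), abs_nonneg (Real.cos (θ e0))]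
  have he : ∀ L : ℝ, L ≤ 36 → Real.exp (L * (T - 0)) ≤ b := by
    intro L hL
    have e1 : Real.exp (L * (T - 0)) ≤ Real.exp 18 := by
      apply Real.exp_le_exp.2
      rw [sub_zero]
      nlinarith
    have e2 : Real.exp 18 = Real.exp 1 ^ 18 := by rw [← Real.exp_nat_mul]; norm_num
    have e3 : Real.exp 1 ≤ 3 := by linarith [Real.exp_one_lt_d9]
    calc _ ≤ Real.exp 18 := e1
      _ = Real.exp 1 ^ 18 := e2
      _ ≤ 3 ^ 18 := by gcongr
      _ ≤ 10 ^ 20 := by norm_num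
      _ ≤ b := hb
  rw [hM]
  refine
    { cont := continuous_const
      le := fun t _ => hn.trans (le_trans (by norm_num) hb)
      fb := ⟨?_, ?_⟩
      kb := ?_ }
  · refine PB_of_norm (L := 12) (fun r _ => hn) (by norm_num) (he 12 (by norm_num)) ?_
    intro s _ t _
    simp [w1]
  · refine PB_of_norm (L := 12) (fun r _ => ?_) (by norm_num) (he 12 (by norm_num)) ?_
    · show ‖-(ContinuousLinearMap.adjoint (Real.cos (θ e0) • Az c))‖ ≤ 12
      rw [norm_neg, LinearIsometryEquiv.norm_map]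
      exact hn
    · intro s _ t _
      simp [w1]
  · refine PB_of_norm (L := 36) (fun r _ => (norm_kel_le _ _).trans ?_) (by norm_num)
      (he 36 le_rfl) hα
    show 3 * ‖Real.cos (θ e0) • Az c‖ ≤ 36
    linarith

/-- **The base of the construction.** -/
theorem base : Base := base_of rm0 kb1

end Pool.Agent.Work.MP_b0497c_an.Unf.B

end
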