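import Pool.Agent.Work.MP_b0497c_an.Bd.B18
import Pool.Agent.Work.MP_b0497c_an.Bd.B19
import Pool.Agent.Work.MP_b0497c_an.Unf.OT5
import Pool.Agent.Work.MP_b0497c_an.Unf.OCl
import Pool.Agent.Work.MP_b0497c_an.Unf.OFour
import Pool.Agent.Work.MP_b0497c_an.Unf.Match
import Pool.Agent.Work.MP_b0497c_an.Unf.FarS
import Pool.Agent.Work.MP_b0497c_an.Unf.WinD
import Pool.Agent.Work.MP_b0497c_an.Bd.B32
import Pool.Agent.Work.MP_b0497c_an.Unf.A_LH3
import Pool.Agent.Work.MP_b0497c_an.Bd.B43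
import Pool.Agent.Work.MP_b0497c_an.Unf.OT1c
import Pool.Agent.Work.MP_b0497c_an.Bd.B42
import Pool.Agent.Work.MP_b0497c_an.Bd.B37
import Pool.Agent.Work.MP_b0497c_an.Bd.B39
import Pool.Agent.Work.MP_b0497c_an.Bd.B36
import Pool.Agent.Work.MP_b0497c_an.Bd.B40
import Pool.Agent.Work.MP_b0497c_an.Bd.B38
import Pool.Agent.Work.MP_b0497c_an.Unf.A_LH5

/-! Bundle of small proof modules (one section per former module). -/

section

set_option autoImplicit false

/-!
# Block O, assembly: K1, O4, CL4 and THEOREM O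
-/

open Set ContinuousLinearMap RealInnerProductSpace

namespace Pool.Agent.Work.MP_b0497c_an.Unf.O

open Forced.Ode (Op)
open Fam K

namespace LevD

/-- K1, no hypotheses. -/
theorem stK1 : StK1 := stK1of stF3 stWin

/-- O2, no hypotheses. -/
theorem o2 : O.O2 := fun _ h _ hW => h.O2 hW

/-- O4, no hypotheses. -/
theorem o4 : O4 := o4_of o2

theorem stPos : StPos := by
  intro D h W hW t ht
  obtain ⟨h1, h2⟩ := core_ratio o2 h hW ht
  refine ⟨h1, ?_⟩
  have h3 := h.eta_le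
  have h4 : 1 ≤ D.mc := by
    unfold mc
    apply Real.le_sqrt_of_sq_le
    have := h.ck0
    linarith
  have h5 := (abs_le.1 h2).1
  have h6 : 3 * D.eta * D.Y 1 W t ≤ D.mc * D.Y 1 W t :=
    mul_le_mul_of_nonneg_right (by linarith) h1.le
  linarith

theorem cl4 (h : CL) : CL4 := cl4of stPos h

/-- THEOREM O from the pieces still open. -/
theorem thmO_of (h1c : T1c) (hcl : CL) (h5 : T5) : ThmO :=
  thmOof h1c (t2 h1c) (t3 h1c stK1 o4) (t4 h1c stK1 o4) h5 t6 (cl4 hcl) n1w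

/-- THEOREM O from T1c and CL. -/
theorem thmO (h1c : T1c) (hcl : CL) : ThmO :=
  thmO_of h1c hcl (t5of h1c (t2 h1c) (t3 h1c stK1 o4) hcl)

end LevD

end Pool.Agent.Work.MP_b0497c_an.Unf.O

end

section

set_option autoImplicit false

/-!
# Block A, item LH3
-/

namespace Pool.Agent.Work.MP_b0497c_an.Unf.A

/-- LH3 from T1c. -/
theorem lh3_c (hc : O.T1c) : LH3 :=
  lh3_of hc fun D H A F Fi hG _ e h0 h1 hA =>
    lh3_F O.LevD.t1a O.LevD.t1b hc D H A F Fi hG e h0 h1 hA

/-- LH3. -/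
theorem lh3 : LH3 := lh3_c O.LevD.t1c

end Pool.Agent.Work.MP_b0497c_an.Unf.A

end

section

set_option autoImplicit false

/-!
# The theorem from the items that are still open
-/

namespace Pool.Agent.Work.MP_b0497c_an.Unf.A

open Unf.O (T1c CL)

/-- **The blow-up** from the items that are still open. -/
theorem blowup_open (s7 : LS7) (cl : CL) (h3 : LH3) : S.Blowup :=
  blowup_items B.base ls1 (ls2 ls1) ls4 (ls5 L.Fin.l31) s7 lh1 globEx
    (O.LevD.thmO O.LevD.t1c cl) h3 (lh5 lse) (lh8 lg)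

end Pool.Agent.Work.MP_b0497c_an.Unf.A

end
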